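import Pool.Agent.Lib.MP_9e71a3_gt.BandB

-- part Pool.Agent.Lib.MP_9e71a3_gt.InitA
section

/-! The initial curve when there is no nontrivial chord. -/

set_option autoImplicit false
set_option linter.unusedSectionVars false

namespace Pool.Agent.Lib.MP_9e71a3_gt

open Set Metric Filter Topology

theorem init_potential {X : Type} (A : X → X → Z2 → Prop) (h1 : ∀ x z v, A x z v → A z x v)
    (h2 : ∀ x z w v v', A x z v → A z w v' → A x w (v + v'))
    (h3 : ∀ x z v v', A x z v → A x z v' → v = v') :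
    ∃ F : X → Z2, ∀ x z v, A x z v → v = F x + F z := by
  classical
  let J : X → X → Prop := fun x z => ∃ v, A x z v
  refine ⟨fun x => if ∃ b, (∃ h : ∃ z, J x z, b = h.choose) ∧ A b x 1 then 1 else 0,
    fun x z v h => ?_⟩
  have hx : ∃ w, J x w := ⟨z, v, h⟩
  have hz : ∃ w, J z w := ⟨x, v, h1 _ _ _ h⟩
  have e1 : J z = J x := funext fun w => propext
    ⟨fun ⟨v', h'⟩ => ⟨_, h2 _ _ _ _ _ h h'⟩, fun ⟨v', h'⟩ => ⟨_, h2 _ _ _ _ _ (h1 _ _ _ h) h'⟩⟩
  have e2 : hz.choose = hx.choose := by congr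
  have key : ∀ (x : X) (hx : ∃ w, J x w) (v : Z2), A hx.choose x v →
      (if ∃ b, (∃ h : ∃ z, J x z, b = h.choose) ∧ A b x 1 then 1 else 0) = v := fun x hx v h => by
    split_ifs with hc
    · obtain ⟨_, ⟨_, rfl⟩, hc⟩ := hc
      exact h3 _ _ _ _ hc h
    · rcases z2_cases v with rfl | rfl
      · rfl
      · exact absurd ⟨_, ⟨hx, rfl⟩, h⟩ hc
  obtain ⟨v1, h4⟩ := hx.choose_spec
  have h5 := h1 _ _ _ h4
  dsimp only
  rw [key x hx v1 h5, key z hz (v1 + v) (e2 ▸ h2 _ _ _ _ _ h5 h), ← add_assoc, z2_add_self,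
    zero_add]

namespace Str
variable {X : Type} [MetricSpace X] [CompactSpace X] {S : Str X} {L : Set (X × X)}
  {K K' : Set ℝ} {π π' : ℝ → X} {a b c : ℝ} {o o' : X}

theorem init_trk (hL : S.Lam L) (h : IsPath ∅ K π a b) : S.Trk L K π :=
  trk_of_path (hL.tame (empty_subset _)) h

theorem init_pv_eq (hL : S.Lam L) (h : S.Trk L K π) (h' : S.Trk L K' π') {s t : ℝ} (hs : s ∈ K)
    (ht : t ∈ K) (hst : s ≤ t) (hK : K ∩ Icc s t = K' ∩ Icc s t)
    (hπ : ∀ u ∈ K ∩ Icc s t, π' u = π u) (ho : o ∉ π '' K) (ho' : o' ∉ π '' K) :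
    S.pv K' π' s t o o' = S.pv K π s t o o' :=
  pv_congr hL h h' hs ht hst (φ := id) (strictMono_id.strictMonoOn _) ((image_id _).trans hK) rfl rfl
    hπ (fun h => ho (image_mono inter_subset_left h)) fun h => ho' (image_mono inter_subset_left h)

/-- an honest arc with trace `T` from `x` to `z` and value `v` -/
def InitAr (S : Str X) (o o' : X) (T : Set X) (x z : X) (v : Z2) : Prop :=
  o ∉ T ∧ o' ∉ T ∧
    ∃ K π a b, IsArc ∅ K π a b ∧ π a = x ∧ π b = z ∧ π '' K = T ∧ S.pv K π a b o o' = v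

variable {T T' : Set X} {x z w : X} {v v' : Z2}

theorem InitAr.shift (hL : S.Lam L) (h : S.InitAr o o' T x z v) (a0 : ℝ) :
    ∃ K π b, IsArc ∅ K π a0 b ∧ π a0 = x ∧ π b = z ∧ π '' K = T ∧ S.pv K π a0 b o o' = v := by
  obtain ⟨ho, ho', K, π, a, b, h, rfl, rfl, rfl, rfl⟩ := h
  have h1 : StrictMono fun u : ℝ => u + (a0 - a) := fun _ _ h => by simpa using h
  have h2 := (h.toIsPath.transport (π' := fun u => π (u - (a0 - a))) (h1.strictMonoOn _)
    (by fun_prop) (by simp)).1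
  rw [add_sub_cancel] at h2
  refine ⟨_, _, _, ⟨h2, ?_⟩, by simp, by simp, by rw [image_image]; simp, ?_⟩
  · rintro _ ⟨u, hu, rfl⟩ _ ⟨u', hu', rfl⟩ e
    rw [h.inj hu hu' (by simpa using e)]
  · refine pv_congr hL (init_trk hL h.toIsPath) (init_trk hL h2) h.left h.right h.le
      (h1.strictMonoOn _) ?_ (add_sub_cancel _ _) rfl (by simp)
      (fun h => ho (image_mono inter_subset_left h)) fun h => ho' (image_mono inter_subset_left h)
    rw [inter_eq_left.2 h.sub, inter_eq_left.2 h2.sub]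

theorem InitAr.symm (hL : S.Lam L) (h : S.InitAr o o' T x z v) : S.InitAr o o' T z x v := by
  obtain ⟨ho, ho', K, π, a, b, h, rfl, rfl, rfl, rfl⟩ := h
  have h1 : StrictAnti fun u : ℝ => -u := fun _ _ h => neg_lt_neg h
  have h2 := (h.toIsPath.transport_anti (π' := fun u => π (-u)) (h1.strictAntiOn _)
    (by fun_prop) (by simp)).1
  rw [image_empty] at h2
  refine ⟨ho, ho', _, _, _, _, ⟨h2, ?_⟩, by simp, by simp, by rw [image_image]; simp, ?_⟩
  · rintro _ ⟨u, hu, rfl⟩ _ ⟨u', hu', rfl⟩ e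
    rw [h.inj hu hu' (by simpa using e)]
  · refine pv_congr_anti hL (init_trk hL h.toIsPath) (init_trk hL h2) h.left h.right h.le
      (h1.strictAntiOn _) ?_ rfl rfl (by simp)
      (fun h => ho (image_mono inter_subset_left h)) fun h => ho' (image_mono inter_subset_left h)
    rw [inter_eq_left.2 h.sub, inter_eq_left.2 h2.sub]

theorem init_glue (hL : S.Lam L) (h : S.InitAr o o' T x z v) (h' : S.InitAr o o' T' z w v') :
    ∃ K π a c, IsPath ∅ K π a c ∧ gaps K π = ∅ ∧ π a = x ∧ π c = w ∧ π '' K = T ∪ T' ∧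
      S.pv K π a c o o' = v + v' ∧ (x ≠ z → a < c) ∧
      ∀ s ∈ K, ∀ t ∈ K, π s = π t → s = t ∨ (π s ∈ T ∩ T' ∧ π s ≠ z ∧ (π s = w → s = c ∨ t = c)) := by
  obtain ⟨ho, ho', K, π, a, b, h, rfl, rfl, rfl, rfl⟩ := h
  obtain ⟨K', π', c, k, k1, rfl, rfl, rfl⟩ := h'.shift hL b
  obtain ⟨h1, h2, h3, h4⟩ := h.toIsPath.concat k.toIsPath k1.symm
  generalize (fun u => if u ≤ b then π u else π' u) = ψ at h1 h2 h3 h4
  have h5 : ψ '' (K ∪ K') = π '' K ∪ π' '' K' := by rw [image_union, h3.image_eq, h4.image_eq]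
  have key : ∀ s ∈ K, ∀ t ∈ K', π s = π' t → s = t ∨ (π s ∈ π '' K ∩ π' '' K' ∧ π s ≠ π b ∧
      (π s = π' c → t = c)) := fun s hs t ht e => by
    by_cases e1 : π s = π b
    · exact Or.inl ((h.inj hs h.right e1).trans (k.inj k.left ht (k1.trans (e1.symm.trans e))))
    · exact Or.inr ⟨⟨⟨s, hs, rfl⟩, t, ht, e.symm⟩, e1, fun e2 => k.inj ht k.right (e ▸ e2)⟩
  refine ⟨K ∪ K', ψ, a, c, h1, ?_, h3 h.left, h4 k.right, h5, ?_, fun hne => ?_, ?_⟩
  · rw [h2, subset_empty_iff.1 h.gaps_sub, subset_empty_iff.1 k.gaps_sub, union_empty]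
  · have h6 : o ∉ ψ '' (K ∪ K') := by rw [h5]; exact fun e => e.elim ho h'.1
    have h7 : o' ∉ ψ '' (K ∪ K') := by rw [h5]; exact fun e => e.elim ho' h'.2.1
    rw [pv_add hL (init_trk hL h1) h1.left (Or.inl h.right) h1.right h.le k.le
      (fun h => h6 (image_mono inter_subset_left h)) fun h => h7 (image_mono inter_subset_left h),
      init_pv_eq hL (init_trk hL h.toIsPath) (init_trk hL h1) h.left h.right h.le ?_
        (fun u hu => h3 hu.1) ho ho',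
      init_pv_eq hL (init_trk hL k.toIsPath) (init_trk hL h1) k.left k.right k.le ?_
        (fun u hu => h4 hu.1) h'.1 h'.2.1]
    · refine (inter_subset_inter_left _ subset_union_right).antisymm ?_
      rintro u ⟨hu | hu, h8⟩
      · exact ⟨le_antisymm (h.sub hu).2 h8.1 ▸ k.left, h8⟩
      · exact ⟨hu, h8⟩
    · refine (inter_subset_inter_left _ subset_union_left).antisymm ?_
      rintro u ⟨hu | hu, h8⟩
      · exact ⟨hu, h8⟩
      · exact ⟨le_antisymm h8.2 (k.sub hu).1 ▸ h.right, h8⟩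
  · exact (h.le.lt_of_ne fun e => hne (by rw [e])).trans_le k.le
  · rintro s (hs | hs) t (ht | ht) e
    · exact Or.inl (h.inj hs ht (by rwa [h3 hs, h3 ht] at e))
    · rw [h3 hs, h4 ht] at e
      rw [h3 hs]
      exact (key s hs t ht e).imp id fun h => ⟨h.1, h.2.1, fun e => Or.inr (h.2.2 e)⟩
    · rw [h4 hs, h3 ht] at e
      rw [h4 hs, e]
      exact (key t ht s hs e.symm).imp Eq.symm fun h => ⟨h.1, h.2.1, fun e => Or.inl (h.2.2 e)⟩
    · exact Or.inl (k.inj hs ht (by rwa [h4 hs, h4 ht] at e))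

theorem InitAr.concat (hL : S.Lam L) (h : S.InitAr o o' T x z v) (h' : S.InitAr o o' T' z w v')
    (hT : T ∩ T' ⊆ {z}) : S.InitAr o o' (T ∪ T') x w (v + v') := by
  obtain ⟨K, π, a, c, h1, -, h2, h3, h4, h5, -, h6⟩ := init_glue hL h h'
  exact ⟨fun e => e.elim h.1 h'.1, fun e => e.elim h.2.1 h'.2.1, K, π, a, c,
    ⟨h1, fun s hs t ht e => (h6 s hs t ht e).resolve_right fun h => h.2.1 (hT h.1)⟩, h2, h3, h4, h5⟩

theorem InitAr.loop (hL : S.Lam L)
    (H : ∀ c, S.IsScc L c → o ∉ c.img → o' ∉ c.img → S.val c o o' = 0)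
    (h : S.InitAr o o' T x z v) (h' : S.InitAr o o' T' z x v') (hT : T ∩ T' ⊆ {x, z})
    (hne : x ≠ z) : v + v' = 0 := by
  obtain ⟨K, π, a, c, h1, h0, h2, h3, h4, h5, h7, h6⟩ := init_glue hL h h'
  obtain ⟨P, rfl⟩ : ∃ P, c = a + P := ⟨c - a, by ring⟩
  obtain ⟨c, k1, k2, k3, k4, -, k5⟩ := periodize (S := S) (L := L) (by linarith [h7 hne]) h1
    (h2.trans h3.symm) (fun s hs t ht e => (h6 s hs.1 t ht.1 e).resolve_right fun h =>
      (h.2.2 ((hT h.1).resolve_right h.2.1)).elim hs.2 ht.2)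
    (h0 ▸ hL.tame (empty_subset _)) (h0 ▸ fun _ h => h.elim)
  have ho : o ∉ π '' K := by rw [h4]; exact fun e => e.elim h.1 h'.1
  have ho' : o' ∉ π '' K := by rw [h4]; exact fun e => e.elim h.2.1 h'.2.1
  rw [← h5, ← H c k2 (k5 ▸ ho) (k5 ▸ ho'), k2.val_eq hL ((k3 a (h1.sub h1.left)).2 h1.left)
    (k5 ▸ ho) (k5 ▸ ho'), k1]
  exact (init_pv_eq hL (init_trk hL h1) k2.trk h1.left h1.right h1.le
    (Set.ext fun u => and_congr_left fun hu => (k3 u hu).symm) (fun u hu => k4 u hu.1) ho ho').symm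

theorem init_sub (hL : S.Lam L) (h : IsArc ∅ K π a b) (ho : o ∉ π '' K) (ho' : o' ∉ π '' K)
    {s t : ℝ} (hs : s ∈ K) (ht : t ∈ K) (hst : s ≤ t) :
    S.InitAr o o' (π '' (K ∩ Icc s t)) (π s) (π t) (S.pv K π s t o o') :=
  ⟨fun h => ho (image_mono inter_subset_left h), fun h => ho' (image_mono inter_subset_left h),
    _, _, _, _, h.restrict hs ht hst, rfl, rfl, rfl,
    init_pv_eq hL (init_trk hL h.toIsPath) (init_trk hL (h.restrict hs ht hst).toIsPath) hs ht hst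
      (by rw [inter_assoc, inter_self]) (fun _ _ => rfl) ho ho'⟩

theorem init_add (hL : S.Lam L) (h : IsArc ∅ K π a b) (ho : o ∉ π '' K) (ho' : o' ∉ π '' K)
    {s t u : ℝ} (hs : s ∈ K) (ht : t ∈ K) (hu : u ∈ K) (hst : s ≤ t) (htu : t ≤ u) :
    S.pv K π s u o o' = S.pv K π s t o o' + S.pv K π t u o o' :=
  pv_add hL (init_trk hL h.toIsPath) hs ht hu hst htu
    (fun h => ho (image_mono inter_subset_left h)) fun h => ho' (image_mono inter_subset_left h)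

theorem init_sub' (hL : S.Lam L) (h : IsArc ∅ K π a b) (ho : o ∉ π '' K) (ho' : o' ∉ π '' K)
    {s t : ℝ} (hs : s ∈ K) (ht : t ∈ K) : S.InitAr o o' (π '' (K ∩ uIcc s t)) (π s) (π t)
      (S.pv K π a s o o' + S.pv K π a t o o') := by
  rcases le_total s t with hst | hst
  · rw [uIcc_of_le hst, init_add hL h ho ho' h.left hs ht (h.sub hs).1 hst, ← add_assoc,
      z2_add_self, zero_add]
    exact init_sub hL h ho ho' hs ht hst
  · rw [uIcc_of_ge hst, init_add hL h ho ho' h.left ht hs (h.sub ht).1 hst, add_right_comm,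
      z2_add_self, zero_add]
    exact (init_sub hL h ho ho' ht hs hst).symm hL

theorem init_small (hL : S.Lam L) {r : ℝ} (hr : 0 < r) : ∃ η > 0, ∀ (o o' : X) T x z v,
    S.InitAr o o' T x z v → T ⊆ ball x η → r ≤ dist x o → r ≤ dist x o' →
      v = S.ev (lnk x z) o o' := by
  obtain ⟨η, hη, h⟩ := pv_small hL (hL.tame (empty_subset _)) hr
  refine ⟨η, hη, ?_⟩
  rintro o o' _ _ _ _ ⟨-, -, K, π, a, b, k, rfl, rfl, rfl, rfl⟩ h1 h2 h3
  exact h K π k.compact.isClosed k.cont k.gap a k.left b k.right k.le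
    (fun u hu => h1 ⟨u, hu.1, rfl⟩) o o' h2 h3

theorem init_far {Y : Set X} (hY : IsClosed Y) (ho : o ∉ Y) (ho' : o' ∉ Y) :
    ∃ r > 0, ∀ x ∈ Y, r ≤ dist x o ∧ r ≤ dist x o' := by
  obtain ⟨r, hr, h⟩ := Metric.isOpen_iff.1 hY.isOpen_compl o ho
  obtain ⟨r', hr', h'⟩ := Metric.isOpen_iff.1 hY.isOpen_compl o' ho'
  exact ⟨min r r', lt_min hr hr', fun x hx => ⟨min_le_of_left_le (not_lt.1 fun e => h e hx),
    min_le_of_right_le (not_lt.1 fun e => h' e hx)⟩⟩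

theorem InitAr.unique (hL : S.Lam L)
    (H : ∀ c, S.IsScc L c → o ∉ c.img → o' ∉ c.img → S.val c o o' = 0)
    (h : S.InitAr o o' T x z v) (h' : S.InitAr o o' T' x z v') : v = v' := by
  obtain ⟨ho, ho', K, α, a, b, h, rfl, rfl, rfl, rfl⟩ := h
  obtain ⟨ko, ko', K', β, a', b', k, e1, e2, rfl, rfl⟩ := h'
  have hc : IsClosed (α '' K) := (h.compact.image_of_continuousOn h.cont).isClosed
  have key := gap_induction (K := K' ∩ β ⁻¹' (α '' K))
    (k.cont.preimage_isClosed_of_isClosed k.compact.isClosed hc)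
    (fun s t => ∀ u ∈ K, ∀ w ∈ K, α u = β s → α w = β t →
      S.pv K' β s t o o' = S.pv K α a u o o' + S.pv K α a w o o') ?_ ?_ ?_
    a' ⟨k.left, a, h.left, e1.symm⟩ b' ⟨k.right, b, h.right, e2.symm⟩ k.le
    a h.left b h.right e1.symm e2.symm
  · rw [key, pv_self hL (init_trk hL h.toIsPath) h.left (fun e => ho ⟨a, h.left, e.symm⟩)
      fun e => ho' ⟨a, h.left, e.symm⟩, zero_add]
  · rintro s hs t ⟨ht, m, hm, e⟩ r hr hst htr q1 q2 u hu w hw e3 e4
    rw [init_add hL k ko ko' hs.1 ht hr.1 hst htr, q1 u hu m hm e3 e, q2 m hm w hw e e4,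
      add_assoc, ← add_assoc (S.pv K α a m o o'), z2_add_self, zero_add]
  · rintro s t ⟨hs, ht, hst, hg⟩ u hu w hw e3 e4
    have h1 := init_sub' hL h ho ho' hw hu
    rw [e3, e4] at h1
    have h2 := (init_sub hL k ko ko' hs.1 ht.1 hst.le).loop hL H h1 ?_
      fun e => hst.ne (k.inj hs.1 ht.1 e)
    · rw [add_comm, ← zero_add (_ + _), ← h2, add_assoc, z2_add_self, add_zero]
    · rintro _ ⟨⟨r, hr, rfl⟩, h3⟩
      rcases hg r ⟨hr.1, image_mono inter_subset_left h3⟩ with h4 | h4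
      · exact Or.inl (by rw [le_antisymm h4 hr.2.1])
      · exact Or.inr (by rw [le_antisymm hr.2.2 h4]; rfl)
  · intro m _
    obtain ⟨r, hr, h1⟩ := init_far hc ho ho'
    obtain ⟨η, hη, h2⟩ := init_small hL hr
    obtain ⟨ε, hε, h3⟩ := h.toIsPath.modulus hη
    obtain ⟨η1, hη1, h4⟩ := h.modulus hε
    obtain ⟨δ, hδ, h5⟩ := k.toIsPath.modulus (lt_min hη hη1)
    refine ⟨δ / 2, half_pos hδ, fun s hs t ht hst h6 h7 u hu w hw e3 e4 => ?_⟩
    have h8 : ∀ q ∈ K' ∩ Icc s t, dist (β q) (β s) < min η η1 := fun q hq =>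
      h5 q hq.1 s hs.1 (by
        rw [abs_lt] at h6 h7 ⊢
        constructor <;> linarith [hq.2.1, hq.2.2, h6.1, h7.2])
    have h9 := h4 w hw u hu (by rw [e3, e4]; exact (lt_min_iff.1 (h8 t ⟨ht.1, hst, le_rfl⟩)).2)
    rw [h2 _ _ _ _ _ _ (init_sub hL k ko ko' hs.1 ht.1 hst) ?_ (h1 _ hs.2).1 (h1 _ hs.2).2,
      h2 _ _ _ _ _ _ (init_sub' hL h ho ho' hu hw) ?_ (h1 _ ⟨u, hu, rfl⟩).1 (h1 _ ⟨u, hu, rfl⟩).2,
      e3, e4]
    · rintro _ ⟨q, hq, rfl⟩
      exact h3 q hq.1 u hu ((abs_sub_left_of_mem_uIcc hq.2).trans_lt h9)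
    · rintro _ ⟨q, hq, rfl⟩
      exact (lt_min_iff.1 (h8 q hq)).1

theorem InitAr.trans (hL : S.Lam L)
    (H : ∀ c, S.IsScc L c → o ∉ c.img → o' ∉ c.img → S.val c o o' = 0)
    (h : S.InitAr o o' T x z v) (h' : S.InitAr o o' T' z w v') :
    ∃ T'', S.InitAr o o' T'' x w (v + v') := by
  obtain ⟨ho, ho', K, α, a, b, h, rfl, rfl, rfl, rfl⟩ := h
  obtain ⟨ko, ko', K', β, a', b', k, e1, rfl, rfl, rfl⟩ := h'
  obtain ⟨t, ⟨ht, s, hs, e⟩, h1⟩ := (k.compact.of_isClosed_subset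
    (k.cont.preimage_isClosed_of_isClosed k.compact.isClosed
      (h.compact.image_of_continuousOn h.cont).isClosed) inter_subset_left).exists_isGreatest
    ⟨a', k.left, b, h.right, e1.symm⟩
  have h2 := init_sub hL k ko ko' ht k.right (k.sub ht).2
  have h3 := init_sub hL k ko ko' k.left ht (k.sub ht).1
  rw [← e] at h2
  rw [← e, e1] at h3
  have h4 := ((init_sub hL h ho ho' hs h.right (h.sub hs).2).symm hL).unique hL H h3
  rw [init_add hL h ho ho' h.left hs h.right (h.sub hs).1 (h.sub hs).2, h4,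
    init_add hL k ko ko' k.left ht k.right (k.sub ht).1 (k.sub ht).2, add_assoc,
    ← add_assoc (S.pv K' β a' t o o'), z2_add_self, zero_add]
  refine ⟨_, (init_sub hL h ho ho' h.left hs (h.sub hs).1).concat hL h2 ?_⟩
  rintro _ ⟨h5, q, hq, rfl⟩
  rw [le_antisymm (h1 ⟨hq.1, image_mono inter_subset_left h5⟩) hq.2.1, e]
  rfl

theorem init_pot (hL : S.Lam ∅)
    (H : ∀ c o o', S.IsScc ∅ c → o ∉ c.img → o' ∉ c.img → S.val c o o' = 0) {Y : Set X}
    (hY : IsClosed Y) : S.Pot Y ∅ := by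
  intro o ho o' ho'
  obtain ⟨F, hF⟩ := init_potential (fun x z v => ∃ T, S.InitAr o o' T x z v)
    (fun _ _ _ ⟨T, h⟩ => ⟨T, h.symm hL⟩)
    (fun _ _ _ _ _ ⟨_, h⟩ ⟨_, h'⟩ => h.trans hL (fun c => H c o o') h')
    fun _ _ _ _ ⟨_, h⟩ ⟨_, h'⟩ => h.unique hL (fun c => H c o o') h'
  obtain ⟨r, hr, h1⟩ := init_far hY ho ho'
  obtain ⟨η, hη, h2⟩ := init_small hL hr
  obtain ⟨δ, hδ, h3⟩ := joined_of_lc ∅ hL.lc _ (lt_min hη hr)
  refine ⟨δ, hδ, F, fun x hx y _ hxy => ?_, fun _ h => h.elim⟩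
  obtain ⟨K, π, a, b, h4, rfl, rfl, h5⟩ := (h3 x y hxy).arc
  have h6 : ∀ p, r ≤ dist (π a) p → p ∉ π '' K := by
    rintro _ h6 ⟨u, hu, rfl⟩
    exact (lt_min_iff.1 (mem_ball'.1 (h5 hu))).2.not_ge h6
  have h7 : S.InitAr o o' (π '' K) (π a) (π b) _ :=
    ⟨h6 o (h1 _ hx).1, h6 o' (h1 _ hx).2, K, π, a, b, h4, rfl, rfl, rfl, rfl⟩
  rw [← h2 _ _ _ _ _ _ h7 (h5.image_subset.trans (ball_subset_ball (min_le_left _ _)))
    (h1 _ hx).1 (h1 _ hx).2]
  exact hF _ _ _ ⟨_, h7⟩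

theorem init_nochord' [Nontrivial X] (S : Str X) (h : ∀ a b, S.Chord a b → a = b) :
    ∃ (L : Set (X × X)) (c : BC X) (y y' : X), S.Lam L ∧ S.IsScc L c ∧ y ∉ c.img ∧ y' ∉ c.img ∧
      S.val c y y' = 1 ∧ ∀ e ∈ L, S.Free c.gs e.1 e.2 := by
  classical
  obtain ⟨L, hL⟩ := S.exists_lam
  obtain rfl : L = ∅ := eq_empty_of_forall_notMem fun e he => hL.ne e he (h _ _ (hL.chord e he))
  by_contra hc
  have H : ∀ c o o', S.IsScc ∅ c → o ∉ c.img → o' ∉ c.img → S.val c o o' = 0 :=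
    fun c o o' h1 h2 h3 => (z2_cases _).resolve_right fun h4 =>
      hc ⟨∅, c, o, o', hL, h1, h2, h3, h4, fun _ h => h.elim⟩
  obtain ⟨o, o', hne⟩ := exists_pair_ne X
  have hr := dist_pos.2 hne.symm
  have hY : IsClosed {x | dist o' o / 3 ≤ dist x o ∧ dist x o ≤ 2 * (dist o' o / 3)} :=
    isClosed_Icc.preimage (f := fun x => dist x o) (by fun_prop)
  have key := ns hL hY (hL.tame Subset.rfl) (fun _ h => h.elim) (fun _ h => h.elim)
    (init_pot hL H hY) (fun x => if dist x o < dist o' o / 3 then 1 else 0) (fun x hx => ?_)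
    (fun g g' hg _ _ _ => by rw [h g g' hg]) o (fun h => by linarith [h.1, dist_self o])
    o' fun h => by linarith [h.2]
  · simp only [dist_self] at key
    rw [if_pos (by linarith), if_neg (by linarith)] at key
    exact one_ne_zero key
  · by_cases h1 : dist x o < dist o' o / 3
    · filter_upwards [(isOpen_lt (f := fun x => dist x o) (by fun_prop) continuous_const).mem_nhds
        h1] with x' hx'
      rw [if_pos hx', if_pos h1]
    · have h2 : dist o' o / 3 < dist x o := by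
        by_contra h2
        exact hx ⟨not_lt.1 h1, by linarith⟩
      filter_upwards [(isOpen_lt (g := fun x => dist x o) continuous_const (by fun_prop)).mem_nhds
        h2] with x' hx'
      rw [if_neg (not_lt.2 (le_of_lt hx')), if_neg h1]

end Str

end Pool.Agent.Lib.MP_9e71a3_gt
end

-- part Pool.Agent.Lib.MP_9e71a3_gt.Init
section

/-! The initial curve.  JOB Init. -/

set_option autoImplicit false
set_option linter.unusedSectionVars false

namespace Pool.Agent.Lib.MP_9e71a3_gt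

open Set Metric Filter Topology

theorem init_two {X : Type} [TopologicalSpace X] (p q : X) (b : ℝ) :
    IsPath {(p, q)} {b, b + 1} (fun u => if u ≤ b then p else q) b (b + 1) ∧
      gaps {b, b + 1} (fun u => if u ≤ b then p else q) = {(p, q)} := by
  have h1 : ∀ s t, Gap {b, b + 1} s t → s = b ∧ t = b + 1 := by
    rintro s t ⟨rfl | rfl, rfl | rfl, h, -⟩ <;> first | exact ⟨rfl, rfl⟩ | linarith
  have h2 : Gap {b, b + 1} b (b + 1) := ⟨by simp, by simp, by simp, by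
    rintro u (rfl | rfl) <;> simp⟩
  refine ⟨⟨(toFinite _).isCompact, by simp, by simp, ?_, (toFinite _).continuousOn _,
    fun s t h => Or.inr ?_⟩, ?_⟩
  · rintro u (rfl | rfl) <;> simp
  · obtain ⟨rfl, rfl⟩ := h1 s t h
    simp
  · refine eq_singleton_iff_unique_mem.2 ⟨⟨_, _, h2, by simp⟩, ?_⟩
    rintro _ ⟨s, t, h, rfl⟩
    obtain ⟨rfl, rfl⟩ := h1 s t h
    simp

namespace Str
variable {X : Type} [MetricSpace X] [CompactSpace X] [ConnectedSpace X] [Nontrivial X]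

section chord
variable {S : Str X} {L : Set (X × X)} {h h' : X}

/-- a chord that is not in the lamination and is not crossed by it -/
structure InitBase (S : Str X) (L : Set (X × X)) (h h' : X) : Prop where
  lam : S.Lam L
  ch : S.Chord h h'
  ne : h ≠ h'
  free : S.Free L h h'
  out : ∀ e ∈ L, e.1 ∈ ({h, h'}ᶜ : Set X) ∨ e.2 ∈ ({h, h'}ᶜ : Set X)

/-- admissible extra chords -/
def InitF (S : Str X) (L : Set (X × X)) (h h' : X) : Set (X × X) :=
  {f | S.Chord f.1 f.2 ∧ S.Free L f.1 f.2 ∧ ¬ S.Cross h h' f.1 f.2}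

/-- joined off the two ends -/
def InitRel (S : Str X) (L : Set (X × X)) (h h' x x' : X) : Prop :=
  ∃ F0 : Set (X × X), F0.Finite ∧ F0 ⊆ S.InitF L h h' ∧ Joined (L ∪ F0) {h, h'}ᶜ x x'

theorem exists_initBase (S : Str X) (H : ∃ a b, S.Chord a b ∧ a ≠ b) :
    ∃ L h h', S.InitBase L h h' := by
  obtain ⟨L, hL⟩ := S.exists_lam
  obtain ⟨h, h', h1, h2, h3⟩ : ∃ h h', S.Chord h h' ∧ h ≠ h' ∧ S.Free L h h' := by
    rcases L.eq_empty_or_nonempty with rfl | ⟨d, hd⟩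
    · obtain ⟨a, b, h1, h2⟩ := H
      exact ⟨a, b, h1, h2, fun _ h => h.elim⟩
    · exact ⟨d.1, d.2, hL.chord d hd, hL.ne d hd, fun e he => hL.nc e he d hd⟩
  refine ⟨L \ {(h, h'), (h', h)}, h, h', hL.sub sdiff_subset (fun e he => ⟨hL.symm e he.1, ?_⟩)
    ((toFinite {(h, h'), (h', h)}).subset fun e he => by_contra fun c => he.2 ⟨he.1, c⟩), h1, h2,
    fun e he => h3 e he.1, fun ⟨x, y⟩ he => by_contra fun c => ?_⟩
  · rintro (c | c)
    · exact he.2 (Or.inr (Prod.swap_eq_iff_eq_swap.1 c))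
    · exact he.2 (Or.inl (Prod.swap_eq_iff_eq_swap.1 c))
  · have h4 : x ≠ y := hL.ne _ he.1
    have h5 := he.2
    simp only [mem_compl_iff, not_or, mem_insert_iff, mem_singleton_iff,
      Prod.mk.injEq] at c h5
    grind

theorem InitRel.symm (B : S.InitBase L h h') {x x' : X} (r : S.InitRel L h h' x x') :
    S.InitRel L h h' x' x := by
  obtain ⟨F0, h1, h2, h3⟩ := r
  refine ⟨Prod.swap '' F0, h1.image _, ?_, h3.symm'.mono Subset.rfl ?_⟩
  · rintro _ ⟨f, hf, rfl⟩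
    exact ⟨(h2 hf).1.symm, fun e he c => (h2 hf).2.1 e he c.swapR, fun c => (h2 hf).2.2 c.swapR⟩
  · rintro _ ⟨f, hf | hf, rfl⟩ - - -
    · exact Or.inl (B.lam.symm f hf)
    · exact Or.inr ⟨f, hf, rfl⟩

theorem InitRel.trans {x x' x'' : X} (r : S.InitRel L h h' x x') (r' : S.InitRel L h h' x' x'') :
    S.InitRel L h h' x x'' := by
  obtain ⟨F0, h1, h2, h3⟩ := r
  obtain ⟨F1, k1, k2, k3⟩ := r'
  exact ⟨F0 ∪ F1, h1.union k1, union_subset h2 k2,
    (h3.mono Subset.rfl fun _ hp _ _ _ => hp.imp id Or.inl).trans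
      (k3.mono Subset.rfl fun _ hp _ _ _ => hp.imp id Or.inr)⟩

theorem InitRel.iff (B : S.InitBase L h h') {x x' : X} (r : S.InitRel L h h' x x') (g : X) :
    S.InitRel L h h' g x ↔ S.InitRel L h h' g x' :=
  ⟨fun c => c.trans r, fun c => c.trans (r.symm B)⟩

theorem InitBase.loc (B : S.InitBase L h h') {x : X} (hx : x ∈ ({h, h'}ᶜ : Set X)) :
    ∃ ρ > 0, ∀ x' ∈ ball x ρ, S.InitRel L h h' x x' := by
  obtain ⟨ε, hε, h1⟩ := Metric.isOpen_iff.1 (toFinite {h, h'}).isClosed.isOpen_compl x hx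
  obtain ⟨δ, hδ, h2⟩ := joined_of_lc L B.lam.lc ε hε
  exact ⟨δ, hδ, fun x' hx' => ⟨∅, finite_empty, empty_subset _,
    (h2 x x' (mem_ball'.1 hx')).mono h1 fun _ hp _ _ _ => Or.inl hp⟩⟩

theorem InitBase.side (B : S.InitBase L h h') {g g' : X} (hg : g ∈ ({h, h'}ᶜ : Set X))
    (hg' : g' ∈ ({h, h'}ᶜ : Set X)) (hc : S.Chord g g') (hn : ¬ S.Cross h h' g g') :
    S.InitRel L h h' g g' := by
  classical
  have key := walk B.lam (B.lam.tame Subset.rfl) B.lam.nc B.lam.symm {h, h'}ᶜ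
    (fun α => if S.InitRel L h h' g α.1 then 1 else 0)
    (fun α β => α.1 = α.2 ∧ β.1 = β.2 ∧ α.1 ∈ ({h, h'}ᶜ : Set X) ∧ β.1 ∈ ({h, h'}ᶜ : Set X) ∧
      S.Chord α.1 β.1 ∧ ¬ S.Cross h h' α.1 β.1) ?_ (fun _ _ _ e he _ => B.out e he) ?_ ?_ ?_
    (g, g) (g', g') ⟨rfl, rfl, hg, hg', hc, hn⟩
  · rw [if_pos ⟨∅, finite_empty, empty_subset _, Joined.refl hg⟩] at key
    by_contra c
    rw [if_neg c] at key
    exact one_ne_zero key
  · rintro ⟨k, k1⟩ ⟨k', k2⟩ ⟨rfl : k = k1, rfl : k' = k2, -, -, h1, -⟩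
    exact ⟨Ord3.Chord.refl h1.1, Ord3.Chord.refl h1.2.1, h1, fun _ _ c => c.ne34 rfl,
      fun _ _ c => c.ne34 rfl⟩
  · rintro ⟨k, k1⟩ ⟨k', k2⟩ ⟨rfl : k = k1, rfl : k' = k2, h1, h2, h3, h4⟩ e he hs h5
    have h6 : S.Cross e.1 e.2 k k' := by simpa [Sep] using hs
    have h7 : ¬ S.Cross h h' e.1 e.2 := fun c => B.free e he c.symm
    exact ⟨⟨rfl, rfl, h1, h5, h6.symm.chord13 S.good, h6.symm.recomb S.good h4 h7⟩,
      rfl, rfl, h5, h2, h6.swapR.chord13 S.good, h6.swapR.recomb S.good h7 fun c => h4 c.swapR⟩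
  · rintro ⟨k, k1⟩ ⟨k', k2⟩ ⟨rfl : k = k1, rfl : k' = k2, h1, h2, h3, h4⟩ hs
    have h5 : S.InitRel L h h' k k' := ⟨{(k, k')}, finite_singleton _,
      singleton_subset_iff.2 ⟨h3, fun e he c => hs e he (Or.inl c), h4⟩,
      Joined.single h1 h2 (Or.inr rfl)⟩
    simp only [h5.iff B g]
  · rintro α β ⟨-, -, h1, h2, -⟩
    obtain ⟨ρ, hρ, h3⟩ := B.loc h1
    obtain ⟨ρ', hρ', h4⟩ := B.loc h2
    exact ⟨fun _ => ⟨ρ, hρ, fun k _ hk => by simp only [(h3 k hk).iff B g]⟩,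
      fun _ => ⟨ρ', hρ', fun k _ hk => by simp only [(h4 k hk).iff B g]⟩⟩

theorem init_mem {g g' : X} (c : S.Cross h h' g g') : g ∈ ({h, h'}ᶜ : Set X) := by
  rintro (rfl | rfl)
  · exact c.ne13 rfl
  · exact c.ne23 rfl

theorem InitBase.across (B : S.InitBase L h h') :
    ∃ g g', S.Cross h h' g g' ∧ S.InitRel L h h' g g' := by
  classical
  by_contra hc
  have hw := w1 B.lam (YL := {h}) (YR := {h'}) isClosed_singleton isClosed_singleton
    (disjoint_singleton.2 B.ne) (B.lam.tame (empty_subset _)) (fun _ h => h.elim)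
    (fun _ h => h.elim) B.ch rfl rfl
  rw [singleton_union] at hw
  by_cases h0 : ∃ g g', S.Cross h h' g g'
  · obtain ⟨g, g', h0⟩ := h0
    refine hw (fun x => if S.InitRel L h h' g x then 1 else 0) (fun x hx => ?_)
      fun k k' h1 hk hk' _ => ⟨fun c => ?_, fun c => by simp only [(B.side hk hk' h1 c).iff B g]⟩
    · obtain ⟨ρ, hρ, h1⟩ := B.loc hx
      filter_upwards [ball_mem_nhds x hρ] with x' hx'
      simp only [(h1 x' hx').iff B g]
    · have h2 : S.Chord g k := (h0.chord13 S.good).symm.trans (c.chord13 S.good)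
      have h3 : ∀ k k', S.Cross h h' k k' → S.Cross h h' g k →
          ¬ S.InitRel L h h' g k ∧ S.InitRel L h h' g k' := fun k k' c c' =>
        ⟨fun r => hc ⟨g, k, c', r⟩, B.side (init_mem h0) (init_mem c.swapR)
          (c'.2.1.trans c.2.1) fun c'' => c'.not_cross_far c'' c⟩
      rcases c.tri S.good h2 h0.ne13.symm h0.ne23.symm with c' | c'
      · rw [if_neg (h3 k k' c c').1, if_pos (h3 k k' c c').2, zero_add]
      · rw [if_neg (h3 k' k c.swapR c').1, if_pos (h3 k' k c.swapR c').2, add_zero]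
  · exact hw (fun _ => 0) (fun _ _ => Eventually.of_forall fun _ => rfl)
      fun k k' _ _ _ _ => ⟨fun c => absurd ⟨k, k', c⟩ h0, fun _ => rfl⟩

/-- on the side of `g` -/
def InitSide (S : Str X) (h h' g k : X) : Prop :=
  k ∈ ({h, h'}ᶜ : Set X) ∧ S.Chord k h ∧ ¬ S.Cross h h' g k

theorem InitSide.step {g k k' : X} (hk : S.InitSide h h' g k) (hg : S.Chord g h)
    (hk' : k' ∈ ({h, h'}ᶜ : Set X)) (hc : S.Chord k k') (hn : ¬ S.Cross h h' k k') :
    S.InitSide h h' g k' :=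
  ⟨hk', hc.symm.trans hk.2.1, Ord3.not_cross_trans S.good (hk.2.1.trans hg.symm)
    (fun e => hk.1 (Or.inl e)) (fun e => hk.1 (Or.inr e)) (fun c => hk.2.2 c.swapR) hn⟩

theorem InitBase.adj (B : S.InitBase L h h') {g : X} (hg : g ∈ ({h, h'}ᶜ : Set X))
    (hc : S.Chord g h) : ∃ k, S.InitSide h h' g k ∧ S.Free L k h ∧ S.Free L k h' := by
  classical
  by_contra hn
  have key := walk B.lam (B.lam.tame Subset.rfl) B.lam.nc B.lam.symm {h, h'}ᶜ
    (fun α => if α.1 = α.2 then 1 else 0)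
    (fun α β => α.1 = α.2 ∧ S.InitSide h h' g α.1 ∧
      (β = (h, h') ∨ β.1 = β.2 ∧ S.InitSide h h' g β.1)) ?_ (fun _ _ _ e he _ => B.out e he) ?_ ?_
    (fun _ _ _ => ⟨fun e => ⟨1, one_pos, fun _ _ _ => by simp [e]⟩,
      fun e => ⟨1, one_pos, fun _ _ _ => by simp [e]⟩⟩)
    (g, g) (h, h') ⟨rfl, ⟨hg, hc, fun c => c.ne34 rfl⟩, Or.inl rfl⟩
  · simp [B.ne] at key
  · rintro ⟨k, k1⟩ ⟨k', k2⟩ ⟨rfl : k = k1, h1, ⟨⟨⟩⟩ | ⟨rfl : k' = k2, h2⟩⟩
    · exact ⟨Ord3.Chord.refl h1.2.1.1, B.ch, h1.2.1, fun _ _ c => c.ne34 rfl, B.free⟩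
    · exact ⟨Ord3.Chord.refl h1.2.1.1, Ord3.Chord.refl h2.2.1.1, h1.2.1.trans h2.2.1.symm,
        fun _ _ c => c.ne34 rfl, fun _ _ c => c.ne34 rfl⟩
  · rintro ⟨k, k1⟩ β ⟨rfl : k = k1, h1, h2⟩ e he hs h5
    have h6 : ∃ w, S.Cross e.1 e.2 k w ∧ ¬ S.Cross h h' k w := by
      rcases h2 with rfl | ⟨h2, h3⟩
      · rcases hs with c | c | c | c
        exacts [⟨h, c, fun c => c.ne14 rfl⟩, ⟨h', c, fun c => c.ne24 rfl⟩,
          ⟨h, c, fun c => c.ne14 rfl⟩, ⟨h', c, fun c => c.ne24 rfl⟩]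
      · refine ⟨β.1, by simpa [Sep, ← h2] using hs, Ord3.not_cross_trans S.good
          (hc.trans h1.2.1.symm) (fun e => hg (Or.inl e)) (fun e => hg (Or.inr e)) h1.2.2 h3.2.2⟩
    obtain ⟨w, h6, h7⟩ := h6
    have h8 := h1.step hc h5 (h6.symm.chord13 S.good)
      (h6.symm.recomb S.good h7 fun c => B.free e he c.symm)
    exact ⟨⟨rfl, h1, Or.inr ⟨rfl, h8⟩⟩, rfl, h8, h2⟩
  · rintro ⟨k, k1⟩ β ⟨rfl : k = k1, h1, rfl | h2⟩ hs
    · exact absurd ⟨k, h1, fun e he c => hs e he (Or.inl c),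
        fun e he c => hs e he (Or.inr (Or.inl c))⟩ hn
    · simp [h2.1]

end chord

theorem init_chord (S : Str X) (h : ∃ a b, S.Chord a b ∧ a ≠ b) :
    ∃ (L : Set (X × X)) (c : BC X) (y y' : X), S.Lam L ∧ S.IsScc L c ∧ y ∉ c.img ∧ y' ∉ c.img ∧
      S.val c y y' = 1 ∧ ∀ e ∈ L, S.Free c.gs e.1 e.2 := by
  obtain ⟨L, h, h', B⟩ := S.exists_initBase h
  obtain ⟨g, g', hc, hr⟩ := B.across
  have cg := (hc.chord13 S.good).symm
  have cg' := (hc.swapR.chord13 S.good).symm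
  obtain ⟨k, hk⟩ := B.adj (init_mem hc) cg
  obtain ⟨k', hk'⟩ := B.adj (init_mem hc.swapR) cg'
  obtain ⟨F0, f1, f2, f3⟩ :=
    (((B.side (init_mem hc) hk.1.1 (cg.trans hk.1.2.1.symm) hk.1.2.2).symm B).trans hr).trans
      (B.side (init_mem hc.swapR) hk'.1.1 (cg'.trans hk'.1.2.1.symm) hk'.1.2.2)
  obtain ⟨K, π, a, b, F1, k1, k2, k3, k4, hp, hq, k5, k6⟩ := minarc (F := S.InitF L h h') B.lam.nc
    (fun f hf => hf.2.1) (fun e he f hf c => ⟨c.swapR.chord13 S.good,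
      fun l hl => c.swapR.recomb S.good (he.2.1 l hl) fun c' => hf.2.1 l hl c'.swapR,
      c.swapR.recomb S.good he.2.2 fun c' => hf.2.2 c'.swapR⟩) _
    (fun x => S.InitSide h h' g x ∧ S.Free L x h ∧ S.Free L x h')
    (fun x => S.InitSide h h' g' x ∧ S.Free L x h ∧ S.Free L x h') f1 f2 hk hk' f3
  have c1 : S.Cross h h' (π b) (π a) := by
    have c0 := (hc.tri S.good (hp.1.2.1.trans cg.symm) (fun e => hp.1.1 (Or.inl e))
      fun e => hp.1.1 (Or.inr e)).resolve_left fun c => hp.1.2.2 c.swapR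
    exact (c0.swapR.tri S.good (hq.1.2.1.trans cg'.symm) (fun e => hq.1.1 (Or.inl e))
      fun e => hq.1.1 (Or.inr e)).resolve_left fun c => hq.1.2.2 c.swapR
  have c2 : S.Free L (π b) (π a) := fun e he c => by
    have e1 := c.eq_end S.good hq.1.2.1.symm (fun c => hq.2.1 e he c.swapR)
      fun c => hp.2.1 e he c.swapR
    have e2 := c.eq_end S.good (hq.1.2.1.trans B.ch).symm (fun c => hq.2.2 e he c.swapR)
      fun c => hp.2.2 e he c.swapR
    have e3 := B.out e he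
    have e4 := B.ne
    simp only [mem_compl_iff, mem_insert_iff, mem_singleton_iff] at e3
    grind
  have c3 : ∀ e ∈ gaps K π, ¬ S.Cross h h' e.1 e.2 := fun e he =>
    (k3.gaps_sub he).elim (fun hl c => B.free e hl c.symm) fun hf => (k2 hf).2.2
  have c4 : ∀ e ∈ gaps K π, ¬ S.Cross e.1 e.2 (π b) (π a) := fun e he c => by
    by_cases hl : e ∈ L
    · exact c2 e hl c
    have hf := k2 ((k3.gaps_sub he).resolve_left hl)
    have a1 : ∀ x y, S.Cross (π b) (π a) x y → S.Free L x y → S.Free L y h ∧ S.Free L y h' :=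
      fun x y c hxy => ⟨fun l hl c' => c.wall S.good hq.1.2.1 (hq.2.1 l hl) (c2 l hl)
        (fun c => hp.2.1 l hl c.swapR) (hxy l hl) c'.swapR,
        fun l hl c' => c.wall S.good (hq.1.2.1.trans B.ch) (hq.2.2 l hl) (c2 l hl)
          (fun c => hp.2.2 l hl c.swapR) (hxy l hl) c'.swapR⟩
    obtain ⟨s, t, hg, rfl⟩ := id he
    have a2 : S.Chord (π t) h := (c.swapL.chord13 S.good).trans hq.1.2.1
    by_cases a3 : S.Cross h h' g (π t)
    · exact (k6 _ he hl).2 ⟨InitSide.step ⟨k4 hg.2.1, a2, hc.not_cross_far a3⟩ cg' (k4 hg.1)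
        hf.1.symm fun c => hf.2.2 c.swapR, a1 _ _ c.symm.swapR fun l hl c => hf.2.1 l hl c.swapR⟩
    · exact (k6 _ he hl).1 ⟨⟨k4 hg.2.1, a2, a3⟩, a1 _ _ c.symm hf.2.1⟩
  have hab : a < b := k3.le.lt_of_ne fun e => c1.ne34 (by rw [e])
  obtain ⟨t1, t2⟩ := init_two (π b) (π a) b
  obtain ⟨p1, p2, p3, p4⟩ := (k3.toIsPath.mono' (R' := univ) fun _ _ _ _ _ => trivial).concat
    (t1.mono' fun _ _ _ _ _ => trivial) (by simp)
  generalize (fun u => if u ≤ b then π u else if u ≤ b then π b else π a) = ψ at p1 p2 p3 p4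
  rw [t2] at p2
  obtain ⟨P, hP⟩ : ∃ P, b + 1 = a + P := ⟨b + 1 - a, by ring⟩
  have p5 : ψ (b + 1) = π a := (p4 (Or.inr rfl)).trans (if_neg (by linarith))
  have p6 : (K ∪ {b, b + 1}) \ {b + 1} ⊆ K := by
    rintro u ⟨hu | rfl | hu, hu'⟩
    exacts [hu, k3.right, absurd hu hu']
  have p7 : ψ '' (K ∪ {b, b + 1}) = π '' K := by
    refine Subset.antisymm ?_ (p3.image_eq ▸ image_mono subset_union_left)
    rintro _ ⟨u, hu, rfl⟩
    by_cases e : u = b + 1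
    · exact ⟨a, k3.left, by rw [e, p5]⟩
    · exact ⟨u, p6 ⟨hu, e⟩, (p3 (p6 ⟨hu, e⟩)).symm⟩
  generalize K ∪ {b, b + 1} = K0 at p1 p2 p6 p7
  obtain ⟨c, -, q1, -, -, q2, q3⟩ := periodize (S := S) (L := L) (P := P) (by linarith) (hP ▸ p1)
    (by rw [← hP, p5, p3 k3.left])
    (hP ▸ fun u hu v hv e => k3.inj (p6 hu) (p6 hv) (by rwa [p3 (p6 hu), p3 (p6 hv)] at e))
    (p2 ▸ ⟨fun d hd => hd.elim (fun hd => (k3.gaps_sub hd).elim (B.lam.chord d) fun hf => (k2 hf).1)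
      fun hd => hd ▸ c1.2.1, (k1.union (finite_singleton (π b, π a))).subset fun d hd =>
        hd.1.imp (fun h0 => (k3.gaps_sub h0).resolve_left hd.2) id⟩)
    (by
      rw [p2]
      rintro d (hd | rfl) e (he | rfl)
      exacts [k5 d hd e he, c4 d hd, fun c => c4 e he c.symm, fun c => c.ne13 rfl])
  rw [p2] at q2
  rw [p7] at q3
  have o1 : h ∉ c.img := q3 ▸ fun ⟨u, hu, e⟩ => k4 hu (Or.inl e)
  have o2 : h' ∉ c.img := q3 ▸ fun ⟨u, hu, e⟩ => k4 hu (Or.inr e)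
  refine ⟨L, c, h, h', B.lam, q1, o1, o2, q1.val_one B.lam o1 o2 (d := (π b, π a))
    (q2 ▸ Or.inr rfl) c1.symm (q2 ▸ fun e he c => he.elim (fun he => absurd c.symm (c3 e he)) Or.inl)
    ?_, fun e he => ?_⟩
  · rw [q3]
    by_contra hn
    refine c3 (π a, π b) ⟨a, b, ⟨k3.left, k3.right, hab, fun u hu => by_contra fun c => ?_⟩, rfl⟩
      c1.swapR
    rw [not_or, not_le, not_le] at c
    exact hn ⟨_, ⟨u, hu, rfl⟩, fun e => c.2.ne (k3.inj hu k3.right e),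
      fun e => c.1.ne' (k3.inj hu k3.left e)⟩
  · rw [q2]
    rintro d (hd | rfl)
    · exact (k3.gaps_sub hd).elim (fun hl => B.lam.nc d hl e he) fun hf c => (k2 hf).2.1 e he c.symm
    · exact fun c => c2 e he c.symm

theorem init_nochord (S : Str X) (h : ∀ a b, S.Chord a b → a = b) :
    ∃ (L : Set (X × X)) (c : BC X) (y y' : X), S.Lam L ∧ S.IsScc L c ∧ y ∉ c.img ∧ y' ∉ c.img ∧
      S.val c y y' = 1 ∧ ∀ e ∈ L, S.Free c.gs e.1 e.2 := S.init_nochord' h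

end Str

end Pool.Agent.Lib.MP_9e71a3_gt
end
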