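import Pool.Agent.Lib.MP_9e71a3_gt.PlaneB



set_option autoImplicit false
set_option linter.unusedSectionVars false

namespace Pool.Agent.Lib.MP_9e71a3_gt

open Set Metric Filter Topology

namespace PlaneGlue

abbrev S2 := Metric.sphere (0 : EuclideanSpace ℝ (Fin 3)) 1

variable {X : Type}

theorem shift [TopologicalSpace X] {c : BC X} (h : c.WF) {u : ℝ} (hu : u ∈ c.K) (n : ℤ) :
    u + n * c.per ∈ c.K ∧ c.π (u + n * c.per) = c.π u := by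
  induction n using Int.induction_on with
  | zero => simpa using hu
  | succ n ih =>
    have e : u + ((n : ℤ) + 1 : ℤ) * c.per = u + ((n : ℤ) : ℝ) * c.per + c.per := by
      push_cast; ring
    rw [e]
    exact ⟨(h.perK _).2 ih.1, (h.perπ _ ih.1).trans ih.2⟩
  | pred n ih =>
    have e : u + (-(n : ℤ) - 1 : ℤ) * c.per + c.per = u + ((-(n : ℤ) : ℤ) : ℝ) * c.per := by
      push_cast; ring
    have h1 := (h.perK _).1 (e ▸ ih.1)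
    exact ⟨h1, by rw [← h.perπ _ h1, e, ih.2]⟩

theorem ico {per : ℝ} (h : 0 < per) (u t : ℝ) : ∃ n : ℤ, u + n * per ∈ Ico t (t + per) := by
  obtain ⟨n, hn, -⟩ := existsUnique_add_zsmul_mem_Ico h u t
  exact ⟨n, by rwa [zsmul_eq_mul] at hn⟩

theorem ioc {per : ℝ} (h : 0 < per) (u t : ℝ) : ∃ n : ℤ, u + n * per ∈ Ioc t (t + per) := by
  obtain ⟨n, hn, -⟩ := existsUnique_add_zsmul_mem_Ioc h u t
  exact ⟨n, by rwa [zsmul_eq_mul] at hn⟩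

theorem gshift {B : Set E2} {per : ℝ} {γ : ℝ → E2} (h : Body B per γ) (u : ℝ) (n : ℤ) :
    γ (u + n * per) = γ u := h.periodic.int_mul n u

/-- a cell together with a plane body and a chart -/
structure RC (X : Type) where
  c : BC X
  B : Set E2
  γ : ℝ → E2
  φ : E2 → S2

/-- the pieces -/
def pcs (X : Type) : Pcs (RC X) X S2 where
  P a := a.c.P
  B a := a.φ '' a.B
  Γ a := (fun u => (a.c.π u, a.φ (a.γ u))) '' a.c.K

structure Ok (C : BC X → Prop) (a : RC X) : Prop where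
  mem : C a.c
  body : Body a.B a.c.per a.γ
  cont : ContinuousOn a.φ a.B
  inj : InjOn a.φ a.B

theorem closed_image [TopologicalSpace X] {c : BC X} (h : c.WF) {Y : Type} [TopologicalSpace Y]
    [T2Space Y] {f : ℝ → Y} (hf : ContinuousOn f c.K)
    (hp : ∀ u ∈ c.K, ∀ n : ℤ, f (u + n * c.per) = f u) : IsClosed (f '' c.K) := by
  have e : f '' c.K = f '' (Icc 0 (0 + c.per) ∩ c.K) := by
    refine Subset.antisymm ?_ (image_mono inter_subset_right)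
    rintro _ ⟨u, hu, rfl⟩
    obtain ⟨n, hn⟩ := ico h.per_pos u 0
    exact ⟨_, ⟨Ico_subset_Icc_self hn, (shift h hu n).1⟩, hp u hu n⟩
  rw [e]
  exact ((isCompact_Icc.inter_right h.closed).image_of_continuousOn
    (hf.mono inter_subset_right)).isClosed

variable [MetricSpace X] {C : BC X → Prop}

theorem Ok.bij (hC : CellSys C) {a : RC X} (h : Ok C a) {u v : ℝ} (hu : u ∈ a.c.K)
    (hv : v ∈ a.c.K) : a.c.π u = a.c.π v ↔ a.φ (a.γ u) = a.φ (a.γ v) := by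
  have w := hC.wf _ h.mem
  refine ⟨fun e => ?_, fun e => ?_⟩
  · obtain ⟨n, hn⟩ := ico w.per_pos v u
    have := w.inj u hu _ (shift w hv n).1 hn.1 hn.2 (e.trans (shift w hv n).2.symm)
    rw [this, gshift h.body]
  · obtain ⟨n, rfl⟩ := h.body.eq_of_eq (h.inj (h.body.mem u) (h.body.mem v) e)
    exact (shift w hu n).2.symm

theorem Ok.gam_shift (hC : CellSys C) {a : RC X} (h : Ok C a) {u : ℝ} (hu : u ∈ a.c.K) (n : ℤ) :
    (a.c.π (u + n * a.c.per), a.φ (a.γ (u + n * a.c.per))) = (a.c.π u, a.φ (a.γ u)) := by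
  rw [(shift (hC.wf _ h.mem) hu n).2, gshift h.body]

theorem step_ext {a : RC X} (h : Ok C a) {c' : BC X} (hc : C c') (he : a.c.Ext c') :
    Ok C ⟨c', a.B, a.γ, a.φ⟩ ∧ (pcs X).Ref a {⟨c', a.B, a.γ, a.φ⟩} := by
  refine ⟨⟨hc, he.per ▸ h.body, h.cont, h.inj⟩, Pcs.Ref.single ?_ Subset.rfl ?_⟩
  · refine Subset.antisymm (union_subset ?_ he.img) ?_
    · rw [he.In]; exact sdiff_subset.trans subset_union_left
    · rintro x (hx | ⟨u, hu, rfl⟩)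
      · by_cases hx' : x ∈ c'.img
        · exact Or.inr hx'
        · exact Or.inl (he.In ▸ ⟨hx, hx'⟩)
      · exact Or.inr ⟨u, he.sub hu, he.eq u hu⟩
  · rintro _ ⟨u, hu, rfl⟩
    exact ⟨u, he.sub hu, Prod.ext (he.eq u hu) rfl⟩

theorem step_round {a : RC X} (h : Ok C a) : ∃ γ φ, Ok C ⟨a.c, closedBall 0 1, γ, φ⟩ ∧
    (pcs X).Ref a {⟨a.c, closedBall 0 1, γ, φ⟩} := by
  obtain ⟨H, hH, hb⟩ := h.body.round
  have hm : MapsTo H (closedBall 0 1) a.B := fun p hp => hH ▸ mem_image_of_mem H hp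
  refine ⟨H.symm ∘ a.γ, a.φ ∘ H, ⟨h.mem, hb, h.cont.comp H.continuous.continuousOn hm,
    h.inj.comp H.injective.injOn hm⟩, Pcs.Ref.single rfl ?_ ?_⟩
  · rintro _ ⟨p, hp, rfl⟩
    exact ⟨H p, hm hp, rfl⟩
  · rintro _ ⟨u, hu, rfl⟩
    exact ⟨u, hu, by simp⟩

theorem step_shrink (hC : CellSys C) {a : RC X} (h : Ok C a) {B : Set E2} {γ : ℝ → E2}
    (hb : Body B a.c.per γ) (hB : B ⊆ a.B) (t : ℝ)
    (hγ : ∀ u ∈ a.c.K, u ∈ Ico t (t + a.c.per) → γ u = a.γ u) :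
    Ok C ⟨a.c, B, γ, a.φ⟩ ∧ (pcs X).Ref a {⟨a.c, B, γ, a.φ⟩} := by
  refine ⟨⟨h.mem, hb, h.cont.mono hB, h.inj.mono hB⟩, Pcs.Ref.single rfl (image_mono hB) ?_⟩
  rintro _ ⟨u, hu, rfl⟩
  obtain ⟨n, hn⟩ := ico h.body.per_pos u t
  refine ⟨u, hu, Prod.ext rfl ?_⟩
  have := hγ _ (shift (hC.wf _ h.mem) hu n).1 hn
  rw [gshift hb, gshift h.body] at this
  exact congrArg a.φ this

theorem lens (hC : CellSys C) {c : BC X} (hc : C c) {B : Set E2} {γ : ℝ → E2}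
    (hb : Body B c.per γ) : ∃ ι : E2 → E2, Continuous ι ∧ InjOn ι B ∧ MapsTo ι B B ∧
      (∀ u ∈ c.K, ι (γ u) = γ u) ∧ (∀ p ∈ B, ∀ u, ι p = γ u → u ∈ c.K) ∧
      ∀ p ∈ B, ∀ q ∈ B, ∀ i, |ι p i - ι q i| ≤ |p i - q i| + dist p q / 20 := by
  have w := hC.wf c hc
  obtain ⟨ι, h1, h2, h3, h4, h5, h6⟩ := hb.lens (A := γ '' c.K)
    (closed_image w hb.cont.continuousOn fun u _ n => gshift hb u n) (w.ne.image γ)
  refine ⟨ι, h1, h2, h3, fun u hu => h4 _ (mem_image_of_mem γ hu), fun p hp u e => ?_, h6⟩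
  obtain ⟨v, hv, rfl⟩ := h5 p hp (hb.range_eq ▸ ⟨u, e.symm⟩)
  rw [h4 _ (mem_image_of_mem γ hv)] at e
  obtain ⟨n, rfl⟩ := hb.eq_of_eq e
  exact (shift w hv n).1

theorem step_cut (hC : CellSys C) {a : RC X} (h : Ok C a) {s1 s2 : ℝ} {c1 c2 : BC X}
    (hc1 : C c1) (hc2 : C c2) (hcut : a.c.Cut s1 s2 c1 c2)
    (hmid : midpoint ℝ (a.γ s1) (a.γ s2) ∈ interior a.B) :
    ∃ b1 b2 : RC X, b1.c = c1 ∧ b2.c = c2 ∧ (pcs X).Ref a {b1, b2} ∧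
      b1.B ⊆ convexHull ℝ (a.γ '' Icc s1 s2) ∧
      b2.B ⊆ convexHull ℝ (a.γ '' Icc s2 (s1 + a.c.per)) ∧
      ∀ b ∈ ({b1, b2} : Set (RC X)), Ok C b ∧ b.B ⊆ a.B ∧ ∃ ι : E2 → E2, b.φ = a.φ ∘ ι ∧
        MapsTo ι b.B b.B ∧
        ∀ p ∈ b.B, ∀ q ∈ b.B, ∀ i, |ι p i - ι q i| ≤ |p i - q i| + dist p q / 20 := by
  have w := hC.wf _ h.mem
  have w1 := hC.wf _ hc1
  have w2 := hC.wf _ hc2
  have h1 : s1 < s2 := by obtain ⟨u, -, u1, u2⟩ := hcut.pt1; exact u1.trans u2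
  have h2 : s2 < s1 + a.c.per := by obtain ⟨u, -, u1, u2⟩ := hcut.pt2; exact u1.trans u2
  obtain ⟨B1, B2, γ1, γ2, b1, b2, m1, m2, e1, e2, e12, i12, r1, r2, v1, v2⟩ :=
    h.body.cut h1 h2 hmid one_pos one_pos
  simp only [one_mul] at e12 i12
  rw [← hcut.per1] at b1
  rw [← hcut.per2] at b2
  obtain ⟨ι1, k1, j1, n1, f1, g1, l1⟩ := lens hC hc1 b1
  obtain ⟨ι2, k2, j2, n2, f2, g2, l2⟩ := lens hC hc2 b2
  have o1 : Ok C ⟨c1, B1, γ1, a.φ ∘ ι1⟩ := ⟨hc1, b1,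
    h.cont.comp k1.continuousOn (n1.mono_right m1), h.inj.comp j1 (n1.mono_right m1)⟩
  have o2 : Ok C ⟨c2, B2, γ2, a.φ ∘ ι2⟩ := ⟨hc2, b2,
    h.cont.comp k2.continuousOn (n2.mono_right m2), h.inj.comp j2 (n2.mono_right m2)⟩
  refine ⟨⟨c1, B1, γ1, a.φ ∘ ι1⟩, ⟨c2, B2, γ2, a.φ ∘ ι2⟩, rfl, rfl, ?_, v1, v2, ?_⟩
  swap
  · rintro _ (rfl | rfl)
    exacts [⟨o1, m1, ι1, rfl, n1, l1⟩, ⟨o2, m2, ι2, rfl, n2, l2⟩]
  set G := (pcs X).Γ a with hG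
  set G1 := (pcs X).Γ ⟨c1, B1, γ1, a.φ ∘ ι1⟩ with hG1
  set G2 := (pcs X).Γ ⟨c2, B2, γ2, a.φ ∘ ι2⟩ with hG2
  have old1 : ∀ u ∈ a.c.K, u ∈ Icc s1 s2 → (a.c.π u, a.φ (a.γ u)) ∈ G1 := fun u hu hi =>
    have hu' := (hcut.K1 u hi).2 hu
    ⟨u, hu', Prod.ext (hcut.π1 u hi hu) (congrArg a.φ ((f1 u hu').trans (e1 u hi)))⟩
  have old2 : ∀ u ∈ a.c.K, u ∈ Icc s2 (s1 + a.c.per) → (a.c.π u, a.φ (a.γ u)) ∈ G2 :=
    fun u hu hi =>
    have hu' := (hcut.K2 u hi).2 hu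
    ⟨u, hu', Prod.ext (hcut.π2 u hi hu) (congrArg a.φ ((f2 u hu').trans (e2 u hi)))⟩
  have arc : ∀ v ∈ Ioo (0 : ℝ) 1, s2 + v ∈ c1.K → (c1.π (s2 + v), a.φ (γ1 (s2 + v))) ∈ G1 ∩ G2 :=
    fun v hv hu =>
    have hu' := (hcut.KA v hv).1 hu
    ⟨⟨_, hu, Prod.ext rfl (congrArg a.φ (f1 _ hu))⟩, ⟨_, hu', Prod.ext (hcut.πA v hv hu).symm
      (congrArg a.φ ((f2 _ hu').trans (e12 v (Ioo_subset_Icc_self hv)).symm))⟩⟩
  have cas1 : ∀ z ∈ G1, z ∈ G ∨ (z ∈ G1 ∩ G2 ∧ z.1 ∈ a.c.In) := by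
    rintro z ⟨u, hu, hz⟩
    obtain ⟨n, hn⟩ := ico w1.per_pos u s1
    have hu' := (shift w1 hu n).1
    have e := (o1.gam_shift hC hu n).trans hz
    clear hz
    subst e
    dsimp only
    generalize u + n * c1.per = u' at hn hu'
    rcases le_or_gt u' s2 with hs | hs
    · have hi : u' ∈ Icc s1 s2 := ⟨hn.1, hs⟩
      have hk := (hcut.K1 u' hi).1 hu'
      exact Or.inl ⟨u', hk, Prod.ext (hcut.π1 u' hi hk).symm
        (congrArg a.φ ((f1 u' hu').trans (e1 u' hi))).symm⟩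
    · obtain ⟨v, rfl⟩ : ∃ v, u' = s2 + v := ⟨u' - s2, by ring⟩
      have hv : v ∈ Ioo (0 : ℝ) 1 := ⟨by linarith, by linarith [hn.2, hcut.per1]⟩
      rw [Function.comp_apply, f1 _ hu']
      exact Or.inr ⟨arc v hv hu', hcut.memA v hv hu'⟩
  have cas2 : ∀ z ∈ G2, z ∈ G ∨ (z ∈ G1 ∩ G2 ∧ z.1 ∈ a.c.In) := by
    rintro z ⟨u, hu, hz⟩
    obtain ⟨n, hn⟩ := ioc w2.per_pos u (s2 - 1)
    have hu' := (shift w2 hu n).1
    have e := (o2.gam_shift hC hu n).trans hz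
    clear hz
    subst e
    dsimp only
    generalize u + n * c2.per = u' at hn hu'
    rcases le_or_gt s2 u' with hs | hs
    · have hi : u' ∈ Icc s2 (s1 + a.c.per) := ⟨hs, by linarith [hn.2, hcut.per2]⟩
      have hk := (hcut.K2 u' hi).1 hu'
      exact Or.inl ⟨u', hk, Prod.ext (hcut.π2 u' hi hk).symm
        (congrArg a.φ ((f2 u' hu').trans (e2 u' hi))).symm⟩
    · obtain ⟨v, rfl⟩ : ∃ v, u' = s2 - v := ⟨s2 - u', by ring⟩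
      have hv : v ∈ Ioo (0 : ℝ) 1 := ⟨by linarith, by linarith [hn.1]⟩
      have hk := (hcut.KA v hv).2 hu'
      rw [Function.comp_apply, f2 _ hu', ← e12 v (Ioo_subset_Icc_self hv), ← hcut.πA v hv hk]
      exact Or.inr ⟨arc v hv hk, hcut.memA v hv hk⟩
  have gi : ∀ z ∈ G, z.1 ∈ a.c.img := by
    rintro _ ⟨u, hu, rfl⟩; exact ⟨u, hu, rfl⟩
  have gb : ∀ z ∈ G, ∀ z' ∈ G, z.1 = z'.1 → z = z' := by
    rintro _ ⟨u, hu, rfl⟩ _ ⟨v, hv, rfl⟩ e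
    exact Prod.ext e ((h.bij hC hu hv).1 e)
  have im1 : ∀ x ∈ c1.img, ∃ p, (x, p) ∈ G1 := by
    rintro _ ⟨u, hu, rfl⟩; exact ⟨_, u, hu, rfl⟩
  have im2 : ∀ x ∈ c2.img, ∃ p, (x, p) ∈ G2 := by
    rintro _ ⟨u, hu, rfl⟩; exact ⟨_, u, hu, rfl⟩
  have sep : (pcs X).Sep ⟨c1, B1, γ1, a.φ ∘ ι1⟩ ⟨c2, B2, γ2, a.φ ∘ ι2⟩ := by
    refine ⟨fun x hx => ?_, ?_⟩
    · obtain ⟨p, hp⟩ := im1 x (hx.1.resolve_left fun h' => disjoint_left.1 hcut.disj1 h' hx.2)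
      obtain ⟨q, hq⟩ := im2 x (hx.2.resolve_left fun h' => disjoint_left.1 hcut.disj2 h' hx.1)
      rcases cas1 _ hp with hp' | hp'
      · rcases cas2 _ hq with hq' | hq'
        · exact ⟨p, hp, gb _ hq' _ hp' rfl ▸ hq⟩
        · exact ⟨q, hq'.1⟩
      · exact ⟨p, hp'.1⟩
    · rintro _ ⟨⟨p, hp, rfl⟩, ⟨q, hq, e⟩⟩
      have e' : ι2 q = ι1 p := h.inj (m2 (n2 hq)) (m1 (n1 hp)) e
      obtain ⟨v, hv, e''⟩ := i12 _ ⟨n1 hp, e' ▸ n2 hq⟩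
      have u1 := g1 p hp _ e''
      have u2 := g2 q hq _ (e'.trans (e''.trans (e12 v hv)))
      have eπ : c1.π (s2 + v) = c2.π (s2 - v) := by
        rcases hv.1.eq_or_lt with rfl | hv0
        · rw [add_zero] at u1 ⊢
          rw [sub_zero]
          have hk := (hcut.K1 s2 ⟨h1.le, le_rfl⟩).1 u1
          rw [hcut.π1 s2 ⟨h1.le, le_rfl⟩ hk, hcut.π2 s2 ⟨le_rfl, h2.le⟩ hk]
        rcases hv.2.eq_or_lt with rfl | hv1
        · have x1 : s2 + 1 = s1 + c1.per := by linarith [hcut.per1]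
          have x2 : s2 - 1 + c2.per = s1 + a.c.per := by linarith [hcut.per2]
          rw [x1] at u1 ⊢
          have hk1 := (w1.perK _).1 u1
          have hk := (hcut.K1 s1 ⟨le_rfl, h1.le⟩).1 hk1
          rw [w1.perπ _ hk1, ← w2.perπ _ u2, x2, hcut.π1 s1 ⟨le_rfl, h1.le⟩ hk,
            hcut.π2 _ ⟨h2.le, le_rfl⟩ ((w.perK _).2 hk), w.perπ _ hk]
        · exact hcut.πA v ⟨hv0, hv1⟩ u1
      exact ⟨c1.π (s2 + v), ⟨_, u1, Prod.ext rfl (congrArg a.φ ((f1 _ u1).trans e''.symm))⟩,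
        ⟨_, u2, Prod.ext eπ.symm (congrArg a.φ ((f2 _ u2).trans (e''.trans (e12 v hv)).symm))⟩⟩
  refine ⟨toFinite _, ?_, ?_, ?_, pairwise_pair.2 fun _ => ⟨sep, sep.symm⟩, ?_⟩
  · rintro _ (rfl | rfl) x (hx | hx)
    · exact Or.inl (hcut.In1 hx)
    · obtain ⟨p, hp⟩ := im1 x hx
      exact (cas1 _ hp).elim (fun h' => Or.inr (gi _ h')) fun h' => Or.inl h'.2
    · exact Or.inl (hcut.In2 hx)
    · obtain ⟨p, hp⟩ := im2 x hx
      exact (cas2 _ hp).elim (fun h' => Or.inr (gi _ h')) fun h' => Or.inl h'.2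
  · rintro _ (rfl | rfl) _ ⟨p, hp, rfl⟩
    exacts [⟨_, m1 (n1 hp), rfl⟩, ⟨_, m2 (n2 hp), rfl⟩]
  · rintro x (hx | ⟨u, hu, rfl⟩)
    · rcases hcut.cover hx with h' | h'
      exacts [⟨_, Or.inl rfl, h'⟩, ⟨_, Or.inr rfl, h'⟩]
    · obtain ⟨n, hn⟩ := ico w.per_pos u s1
      obtain ⟨hu', e⟩ := shift w hu n
      rw [← e]
      rcases le_total (u + n * a.c.per) s2 with hs | hs
      · exact ⟨_, Or.inl rfl, Or.inr ⟨_, (hcut.K1 _ ⟨hn.1, hs⟩).2 hu', hcut.π1 _ ⟨hn.1, hs⟩ hu'⟩⟩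
      · exact ⟨_, Or.inr rfl, Or.inr ⟨_, (hcut.K2 _ ⟨hs, hn.2.le⟩).2 hu',
          hcut.π2 _ ⟨hs, hn.2.le⟩ hu'⟩⟩
  · have nin : ∀ z ∈ G, z.1 ∉ a.c.In := fun z hz h' => disjoint_left.1 w.disj h' (gi z hz)
    rintro _ (rfl | rfl) z hz (hm | hm)
    · obtain ⟨p, hp⟩ := im1 _ (hm.resolve_left fun h' => nin z hz (hcut.In1 h'))
      exact gb _ ((cas1 _ hp).resolve_right fun h' => nin z hz h'.2) z hz rfl ▸ hp
    · obtain ⟨u, hu, rfl⟩ := hz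
      obtain ⟨p, hp, e⟩ := hm
      have e' : ι1 p = a.γ u := h.inj (m1 (n1 hp)) (h.body.mem u) e
      obtain ⟨n, hn⟩ := r1 u (e' ▸ n1 hp)
      have := old1 _ (shift w hu n).1 hn
      rwa [h.gam_shift hC hu n] at this
    · obtain ⟨p, hp⟩ := im2 _ (hm.resolve_left fun h' => nin z hz (hcut.In2 h'))
      exact gb _ ((cas2 _ hp).resolve_right fun h' => nin z hz h'.2) z hz rfl ▸ hp
    · obtain ⟨u, hu, rfl⟩ := hz
      obtain ⟨p, hp, e⟩ := hm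
      have e' : ι2 p = a.γ u := h.inj (m2 (n2 hp)) (h.body.mem u) e
      obtain ⟨n, hn⟩ := r2 u (e' ▸ n2 hp)
      have := old2 _ (shift w hu n).1 hn
      rwa [h.gam_shift hC hu n] at this

theorem red_mem {Q : BC X → Prop} {c : BC X} (h : Red C Q c) : C c := by
  cases h <;> assumption

theorem ref_red (hC : CellSys C) {Q : BC X → Prop} {c : BC X} (h : Red C Q c) :
    ∀ a : RC X, a.c = c → Ok C a → ∃ F, (pcs X).Ref a F ∧ ∀ b ∈ F, Ok C b ∧ Q b.c := by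
  induction h with
  | base c _ hq =>
    rintro a rfl ha
    exact ⟨{a}, Pcs.Ref.refl a, by rintro _ rfl; exact ⟨ha, hq⟩⟩
  | ext c c' _ he hr ih =>
    rintro a rfl ha
    obtain ⟨o, r⟩ := step_ext ha (red_mem hr) he
    exact r.bind (by rintro _ rfl; exact ih _ rfl o)
  | cut c s1 s2 c1 c2 _ hcut hr1 hr2 ih1 ih2 =>
    rintro a rfl ha
    obtain ⟨γ, φ, o, r⟩ := step_round ha
    refine r.bind ?_
    rintro _ rfl
    have h1 : s1 < s2 := by obtain ⟨u, -, u1, u2⟩ := hcut.pt1; exact u1.trans u2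
    have h2 : s2 < s1 + a.c.per := by obtain ⟨u, -, u1, u2⟩ := hcut.pt2; exact u1.trans u2
    obtain ⟨b1, b2, e1, e2, r', -, -, hb⟩ := step_cut hC o (red_mem hr1) (red_mem hr2) hcut
      (o.body.disc_mid h1 h2)
    refine r'.bind ?_
    rintro _ (rfl | rfl)
    exacts [ih1 _ e1 (hb _ (Or.inl rfl)).1, ih2 _ e2 (hb _ (Or.inr rfl)).1]

/-- modulus of continuity of the chart -/
def Md (a : RC X) (r ε : ℝ) : Prop :=
  ∀ p ∈ a.B, ∀ q ∈ a.B, (∀ i, |p i - q i| ≤ r) → dist (a.φ p) (a.φ q) < ε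

/-- width of a plane set -/
def Wd (B : Set E2) (i : Fin 2) (w : ℝ) : Prop := ∀ p ∈ B, ∀ q ∈ B, |p i - q i| ≤ w

theorem Wd.mono {B B' : Set E2} {i : Fin 2} {w w' : ℝ} (h : Wd B i w) (hB : B' ⊆ B)
    (hw : w ≤ w') : Wd B' i w' := fun p hp q hq => (h p (hB hp) q (hB hq)).trans hw

theorem dist_le_two {p q : E2} {r : ℝ} (h : ∀ i, |p i - q i| ≤ r) : dist p q ≤ 2 * r := by
  have h0 := h 0
  have h1 := h 1
  have hr : 0 ≤ r := (abs_nonneg _).trans h0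
  rw [EuclideanSpace.dist_eq, Fin.sum_univ_two, Real.dist_eq, Real.dist_eq]
  refine Real.sqrt_le_iff.2 ⟨by linarith, ?_⟩
  nlinarith [abs_nonneg (p 0 - q 0), abs_nonneg (p 1 - q 1)]

theorem halve (hC : CellSys C) (i : Fin 2) {a : RC X} (h : Ok C a) {r ε w : ℝ} (hr : 0 < r)
    (hm : Md a r ε) (hw : Wd a.B i w) : ∃ F, (pcs X).Ref a F ∧ ∀ b ∈ F, Ok C b ∧
      (b.c.In = ∅ ∨ (Md b (10 / 11 * r) ε ∧ Wd b.B i (3 / 5 * w) ∧ b.B ⊆ a.B)) := by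
  rcases a.c.In.eq_empty_or_nonempty with he | hne
  · exact ⟨{a}, Pcs.Ref.refl a, by rintro _ rfl; exact ⟨h, Or.inl he⟩⟩
  obtain ⟨a1, b1, a2, b2, l1, l2, l3, l4, hs⟩ := h.body.strip i hw
  have w0 := hC.wf _ h.mem
  have hmd : ∀ B γ, B ⊆ a.B → Md ⟨a.c, B, γ, a.φ⟩ (10 / 11 * r) ε := fun B γ hB p hp q hq e =>
    hm p (hB hp) q (hB hq) fun j => (e j).trans (by linarith)
  by_cases k1 : ∃ u ∈ a.c.K, b1 ≤ u ∧ u ≤ a2
  swap
  · obtain ⟨hmid, -, hw2⟩ := hs b1 ⟨l1.le, le_rfl⟩ a2 ⟨le_rfl, l3.le⟩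
    obtain ⟨B1, B2, γ1, γ2, -, d2, -, m2, -, e2, -, -, -, -, -, v2⟩ :=
      h.body.cut l2 (by linarith) hmid one_pos (sub_pos.2 l2)
    rw [show b1 + a.c.per - a2 + (a2 - b1) = a.c.per by ring] at d2
    obtain ⟨o, r'⟩ := step_shrink hC h d2 m2 a2 fun u hu hi => e2 u ⟨hi.1, by
      by_contra hlt
      refine k1 ⟨u - a.c.per, (w0.perK _).1 (by rwa [sub_add_cancel]), ?_, ?_⟩
      · linarith [not_le.1 hlt]
      · linarith [hi.2]⟩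
    exact ⟨_, r', by
      rintro _ rfl
      exact ⟨o, Or.inr ⟨hmd _ _ m2, Wd.mono hw2 v2 le_rfl, m2⟩⟩⟩
  by_cases k2 : ∃ u ∈ a.c.K, b2 ≤ u ∧ u ≤ a1 + a.c.per
  swap
  · obtain ⟨hmid, hw1, -⟩ := hs a1 ⟨le_rfl, l1.le⟩ b2 ⟨l3.le, le_rfl⟩
    obtain ⟨B1, B2, γ1, γ2, d1, -, m1, -, e1, -, -, -, -, -, v1, -⟩ :=
      h.body.cut (by linarith) l4 hmid (sub_pos.2 l4) one_pos
    rw [show b2 - a1 + (a1 + a.c.per - b2) = a.c.per by ring] at d1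
    obtain ⟨o, r'⟩ := step_shrink hC h d1 m1 a1 fun u hu hi => e1 u ⟨hi.1, by
      by_contra hlt
      exact k2 ⟨u, hu, (not_le.1 hlt).le, hi.2.le⟩⟩
    exact ⟨_, r', by
      rintro _ rfl
      exact ⟨o, Or.inr ⟨hmd _ _ m1, Wd.mono hw1 v1 le_rfl, m1⟩⟩⟩
  obtain ⟨c', s1, s2, c1, c2, hc', hc1, hc2, he, hcut, t1, t2⟩ :=
    hC.free _ h.mem hne a1 b1 a2 b2 l1 l2.le l3 l4.le k1 k2
  obtain ⟨hmid, hw1, hw2⟩ := hs s1 (Ioo_subset_Icc_self t1) s2 (Ioo_subset_Icc_self t2)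
  obtain ⟨o, r'⟩ := step_ext h hc' he
  refine r'.bind ?_
  rintro _ rfl
  obtain ⟨d1, d2, -, -, r'', v1, v2, hb⟩ := step_cut hC o hc1 hc2 hcut hmid
  refine ⟨_, r'', fun b hb' => ?_⟩
  obtain ⟨ob, mb, ι, eφ, nι, lι⟩ := hb b hb'
  refine ⟨ob, Or.inr ⟨fun p hp q hq e => ?_, ?_, mb⟩⟩
  · rw [eφ]
    refine hm _ (mb (nι hp)) _ (mb (nι hq)) fun j => (lι p hp q hq j).trans ?_
    linarith [e j, dist_le_two e]
  · rcases hb' with rfl | rfl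
    · exact Wd.mono hw1 v1 le_rfl
    · exact Wd.mono hw2 (he.per ▸ v2) le_rfl

theorem ref_small (hC : CellSys C) {ε : ℝ} (N : ℕ) : ∀ (a : RC X) (r : ℝ), Ok C a → 0 < r →
    Md a r ε → (∀ i, Wd a.B i (r * (4 / 3) ^ N)) → ∃ F, (pcs X).Ref a F ∧ ∀ b ∈ F, Ok C b ∧
      (b.c.In = ∅ ∨ ∀ p ∈ (pcs X).B b, ∀ q ∈ (pcs X).B b, dist p q < ε) := by
  induction N with
  | zero =>
    intro a r h _ hm hw
    refine ⟨{a}, Pcs.Ref.refl a, ?_⟩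
    rintro _ rfl
    refine ⟨h, Or.inr ?_⟩
    rintro _ ⟨p, hp, rfl⟩ _ ⟨q, hq, rfl⟩
    exact hm p hp q hq fun i => by simpa using hw i p hp q hq
  | succ N ih =>
    intro a r h hr hm hw
    obtain ⟨F, rF, hF⟩ := halve hC 0 h hr hm (hw 0)
    refine rF.bind fun b hb => ?_
    obtain ⟨ob, he | ⟨mb, wb, sb⟩⟩ := hF b hb
    · exact ⟨{b}, Pcs.Ref.refl b, by rintro _ rfl; exact ⟨ob, Or.inl he⟩⟩
    obtain ⟨G, rG, hG⟩ := halve hC 1 ob (by positivity) mb ((hw 1).mono sb le_rfl)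
    refine rG.bind fun c hc => ?_
    obtain ⟨oc, he | ⟨mc, wc, sc⟩⟩ := hG c hc
    · exact ⟨{c}, Pcs.Ref.refl c, by rintro _ rfl; exact ⟨oc, Or.inl he⟩⟩
    have hle : 3 / 5 * (r * (4 / 3) ^ (N + 1)) ≤ 10 / 11 * (10 / 11 * r) * (4 / 3) ^ N := by
      have : 0 < r * (4 / 3) ^ N := by positivity
      rw [pow_succ]; nlinarith
    refine ih c _ oc (by positivity) mc fun i => ?_
    fin_cases i
    exacts [wb.mono sc hle, wc.mono Subset.rfl hle]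

theorem ref_all (hC : CellSys C) (a : RC X) (h : Ok C a) (ε : ℝ) (hε : 0 < ε) :
    ∃ F, (pcs X).Ref a F ∧ ∀ b ∈ F, Ok C b ∧ (b.c.In = ∅ ∨
      ((∀ x ∈ (pcs X).P b, ∀ y ∈ (pcs X).P b, dist x y < ε) ∧
        ∀ p ∈ (pcs X).B b, ∀ q ∈ (pcs X).B b, dist p q < ε)) := by
  obtain ⟨F, rF, hF⟩ := ref_red hC (hC.small _ h.mem ε hε) a rfl h
  refine rF.bind fun b hb => ?_
  obtain ⟨ob, he | hs⟩ := hF b hb
  · exact ⟨{b}, Pcs.Ref.refl b, by rintro _ rfl; exact ⟨ob, Or.inl he⟩⟩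
  obtain ⟨δ, hδ, hu⟩ := Metric.uniformContinuousOn_iff.1
    (ob.body.compact.uniformContinuousOn_of_continuous ob.cont) ε hε
  obtain ⟨D, hD⟩ := Metric.isBounded_iff.1 ob.body.compact.isBounded
  obtain ⟨N, hN⟩ := pow_unbounded_of_one_lt (D / (δ / 3)) (by norm_num : (1 : ℝ) < 4 / 3)
  rw [div_lt_iff₀ (by positivity)] at hN
  obtain ⟨G, rG, hG⟩ := ref_small hC (ε := ε) N b (δ / 3) ob (by positivity)
    (fun p hp q hq e => hu p hp q hq (by linarith [dist_le_two e])) fun i p hp q hq => by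
      have := PiLp.dist_apply_le p q i
      rw [Real.dist_eq] at this
      linarith [hD hp hq]
  refine ⟨G, rG, fun c hc => ⟨(hG c hc).1, (hG c hc).2.imp_right fun h' => ⟨?_, h'⟩⟩⟩
  exact fun x hx y hy => hs x (rG.subP c hc hx) y (rG.subP c hc hy)

end PlaneGlue

open PlaneGlue in
/-- JOB Plane. -/
theorem embed_of_cells {X : Type} [MetricSpace X] [CompactSpace X] (C : BC X → Prop)
    (hC : CellSys C) (c d : BC X) (hc : C c) (hd : C d) (hper : d.per = c.per) (hK : d.K = c.K)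
    (hπ : d.π = c.π) (hdisj : Disjoint c.In d.In) (hcov : c.In ∪ d.In ∪ c.img = univ) :
    ∃ e : X → Metric.sphere (0 : EuclideanSpace ℝ (Fin 3)) 1, Topology.IsEmbedding e := by
  have wc := hC.wf c hc
  have wd := hC.wf d hd
  have himg : d.img = c.img := by rw [BC.img, BC.img, hK, hπ]
  obtain ⟨γ, hγ⟩ := body_disc wc.per_pos
  obtain ⟨φ, ψ, c1, c2, i1, i2, hf, hi⟩ := hemispheres
  obtain ⟨ι, k, j, n, f, g, -⟩ := lens hC hc hγ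
  have hfr (u : ℝ) : φ (γ u) = ψ (γ u) := hf _ (hγ.range_eq ▸ ⟨u, rfl⟩)
  have both : ∀ u ∈ c.K, (c.π u, φ (γ u)) ∈ (pcs X).Γ ⟨c, closedBall 0 1, γ, φ ∘ ι⟩ ∩
      (pcs X).Γ ⟨d, closedBall 0 1, γ, ψ ∘ ι⟩ := fun u hu =>
    ⟨⟨u, hu, Prod.ext rfl (congrArg φ (f u hu))⟩, ⟨u, hK ▸ hu, Prod.ext (congrFun hπ u)
      ((congrArg ψ (f u hu)).trans (hfr u).symm)⟩⟩
  have sep : (pcs X).Sep ⟨c, closedBall 0 1, γ, φ ∘ ι⟩ ⟨d, closedBall 0 1, γ, ψ ∘ ι⟩ := by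
    refine ⟨?_, ?_⟩
    · rintro x ⟨hx | ⟨u, hu, rfl⟩, hx'⟩
      · rcases hx' with hx' | hx'
        · exact absurd hx' (disjoint_left.1 hdisj hx)
        · exact absurd (himg ▸ hx') (disjoint_left.1 wc.disj hx)
      · exact ⟨_, both u hu⟩
    · rintro _ ⟨⟨p, hp, rfl⟩, ⟨q, hq, e⟩⟩
      obtain ⟨u, hu⟩ : ι p ∈ range γ := hγ.range_eq ▸ (hi _ (n hp) _ (n hq) e.symm).2
      have := both u (g p hp u hu.symm)
      rw [hu] at this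
      exact ⟨_, this⟩
  refine Pcs.assemble (T := pcs X) (Ok C) (fun a => a.c.In = ∅) (fun a ha => ?_) (fun a ha => ?_)
    (fun a ha => ?_) (fun a ha => (ha.body.int.mono interior_subset).image _) (fun a _ he => ?_)
    (ref_all hC) (F0 := {⟨c, closedBall 0 1, γ, φ ∘ ι⟩, ⟨d, closedBall 0 1, γ, ψ ∘ ι⟩})
    (toFinite _) ?_ (fun x => ?_) (pairwise_pair.2 fun _ => ⟨sep, sep.symm⟩)
  · have w := hC.wf _ ha.mem
    exact ⟨w.closedP, (ha.body.compact.image_of_continuousOn ha.cont).isClosed,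
      closed_image w (w.cont.prodMk (ha.cont.comp ha.body.cont.continuousOn
        fun u _ => ha.body.mem u)) fun u hu n => ha.gam_shift hC hu n⟩
  · rintro _ ⟨u, hu, rfl⟩
    exact ⟨Or.inr ⟨u, hu, rfl⟩, ⟨_, ha.body.mem u, rfl⟩⟩
  · rintro _ ⟨u, hu, rfl⟩ _ ⟨v, hv, rfl⟩
    exact ha.bij hC hu hv
  · rintro x (hx | ⟨u, hu, rfl⟩)
    · exact absurd (he ▸ hx) (notMem_empty x)
    · exact ⟨_, u, hu, rfl⟩
  · rintro _ (rfl | rfl)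
    · exact ⟨hc, hγ, c1.comp k.continuousOn n, i1.comp j n⟩
    · exact ⟨hd, hper ▸ hγ, c2.comp k.continuousOn n, i2.comp j n⟩
  · rcases hcov.ge (mem_univ x) with (hx | hx) | hx
    exacts [⟨_, Or.inl rfl, Or.inl hx⟩, ⟨_, Or.inr rfl, Or.inl hx⟩, ⟨_, Or.inl rfl, Or.inr hx⟩]

end Pool.Agent.Lib.MP_9e71a3_gt
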