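import Pool.Agent.Lib.MP_9e71a3_gt.Band
import Pool.Agent.Lib.MP_9e71a3_gt.Init
import Pool.Agent.Lib.MP_9e71a3_gt.Plane

/-! The combinatorial half: a structure `Str X` gives an embedding in the sphere. -/

set_option autoImplicit false

namespace Pool.Agent.Lib.MP_9e71a3_gt

open Set Metric Filter Topology

theorem embed_of_str {X : Type} [MetricSpace X] [CompactSpace X] [ConnectedSpace X] [Nontrivial X]
    (S : Str X) :
    ∃ e : X → Metric.sphere (0 : EuclideanSpace ℝ (Fin 3)) 1, Topology.IsEmbedding e := by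
  have hinit : ∃ (L : Set (X × X)) (c : BC X) (y y' : X), S.Lam L ∧ S.IsScc L c ∧ y ∉ c.img ∧
      y' ∉ c.img ∧ S.val c y y' = 1 ∧ ∀ e ∈ L, S.Free c.gs e.1 e.2 := by
    by_cases h : ∃ a b, S.Chord a b ∧ a ≠ b
    · exact S.init_chord h
    · refine S.init_nochord fun a b hab => ?_
      by_contra hne
      exact h ⟨a, b, hab, hne⟩
  obtain ⟨L, c, y, y', hL, hc, hy, hy', hv, hfree⟩ := hinit
  obtain ⟨c1, hp1, hK1, hπ1, h1⟩ := hc.exists_sided hL hy
  obtain ⟨c2, hp2, hK2, hπ2, h2⟩ := hc.exists_sided hL hy'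
  have hg1 : c1.gs = c.gs := by simp [BC.gs, hK1, hπ1]
  have hg2 : c2.gs = c.gs := by simp [BC.gs, hK2, hπ2]
  have hi1 : c1.img = c.img := by simp [BC.img, hK1, hπ1]
  have hi2 : c2.img = c.img := by simp [BC.img, hK2, hπ2]
  have hv1 : ∀ x z, S.val c1 x z = S.val c x z := by
    intro x z; simp [Str.val, hK1, hπ1, hp1]
  have hv2 : ∀ x z, S.val c2 x z = S.val c x z := by
    intro x z; simp [Str.val, hK2, hπ2, hp2]
  have hC1 : S.Cell L y c1 := ⟨h1, fun e he _ => by rw [hg1]; exact hfree e he⟩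
  have hC2 : S.Cell L y' c2 := ⟨h2, fun e he _ => by rw [hg2]; exact hfree e he⟩
  refine embed_of_cells S.CellC S.cellSys c1 c2 ⟨y, L, hC1⟩ ⟨y', L, hC2⟩ (hp2.trans hp1.symm)
    (hK2.trans hK1.symm) (hπ2.trans hπ1.symm) ?_ ?_
  · rw [Set.disjoint_left]
    intro x hx1 hx2
    rw [h1.In_eq] at hx1
    rw [h2.In_eq] at hx2
    obtain ⟨hx, hx1⟩ := hx1
    obtain ⟨-, hx2⟩ := hx2
    rw [hi1] at hx
    rw [hv1] at hx1
    rw [hv2, hc.val_cocycle hL hx hy hy', hx1, hv] at hx2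
    exact absurd hx2 (by decide)
  · refine Set.eq_univ_of_forall fun x => ?_
    by_cases hx : x ∈ c.img
    · right; rwa [hi1]
    · left
      rcases z2_cases (S.val c x y) with h0 | h0
      · right
        rw [h2.In_eq]
        refine ⟨by rwa [hi2], ?_⟩
        rw [hv2, hc.val_cocycle hL hx hy hy', h0, hv]; simp
      · left
        rw [h1.In_eq]
        exact ⟨by rwa [hi1], by rw [hv1, h0]⟩

end Pool.Agent.Lib.MP_9e71a3_gt
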