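import Pool.Agent.Lib.MP_9e71a3_gt.Conn2

-- part Pool.Agent.Lib.MP_9e71a3_gt.Conn3
section

/-! Plain cuts.  JOB Conn (part 2). -/

set_option autoImplicit false

namespace Pool.Agent.Lib.MP_9e71a3_gt

open Set Metric Filter Topology

theorem c3_unc {X : Type} [MetricSpace X] [ConnectedSpace X] [Nontrivial X] {V G : Set X}
    (hV : IsOpen V) (hne : V.Nonempty) (hG : G.Countable) : ∃ x ∈ V, x ∉ G := by
  by_contra hn
  push Not at hn
  obtain ⟨x0, hx0⟩ := hne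
  obtain ⟨x1, hx1⟩ := exists_ne x0
  obtain ⟨r, hr, h1⟩ := Metric.isOpen_iff.1 hV x0 hx0
  have hc : (Ioo 0 (min r (dist x1 x0))).Countable := by
    refine (hG.image fun x => dist x x0).mono fun t ht => ?_
    obtain ⟨z, hz⟩ := intermediate_value_univ x0 x1 (f := fun x => dist x x0) (by fun_prop)
      ⟨(dist_self x0).trans_le ht.1.le, ht.2.le.trans (min_le_right _ _)⟩
    exact ⟨z, hn z (h1 (hz.trans_lt (ht.2.trans_le (min_le_left _ _)))), hz⟩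
  have := hc.measure_zero MeasureTheory.volume
  rw [Real.volume_Ioo, ENNReal.ofReal_eq_zero, sub_zero] at this
  exact (lt_min hr (dist_pos.2 hx1)).not_ge this

theorem c3_ext0 {X : Type} (p q : X) (α : ℝ → X) : ext01 p q α 0 = p := if_pos rfl

theorem c3_ext1 {X : Type} (p q : X) (α : ℝ → X) : ext01 p q α 1 = q := by simp [ext01]

theorem c3_extm {X : Type} (p q : X) (α : ℝ → X) {u : ℝ} (h0 : u ≠ 0) (h1 : u ≠ 1) :
    ext01 p q α u = α u := by simp [ext01, h0, h1]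

theorem c3_first {X : Type} [MetricSpace X] {KA : Set ℝ} {a : ℝ → X} {p p' q : X}
    {R : Set (X × X)} (hK : KA ⊆ Ioo 0 1) (h : IsPath R (KA ∪ {0, 1}) (ext01 p q a) 0 1)
    (h' : IsPath R (KA ∪ {0, 1}) (ext01 p' q a) 0 1) (hp : p ≠ p') :
    ∃ t, Gap (KA ∪ {0, 1}) 0 t := by
  have n0 : (0 : ℝ) ∉ closure (KA ∪ {0, 1} \ {0}) := fun hc => by
    have s : KA ∪ {0, 1} \ {0} ⊆ KA ∪ {0, 1} := union_subset_union_right _ sdiff_subset
    have := mem_closure_iff_nhdsWithin_neBot.1 hc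
    have a1 := ((h.cont 0 h.left).mono s).tendsto
    have a2 := ((h'.cont 0 h'.left).mono s).tendsto
    rw [c3_ext0] at a1 a2
    refine hp (tendsto_nhds_unique a1 (a2.congr' (eventually_nhdsWithin_of_forall fun u hu => ?_)))
    have : u ≠ 0 := hu.elim (fun h => (hK h).1.ne') fun h => h.2
    simp only [ext01, if_neg this]
  obtain ⟨ρ, hρ, h1⟩ := Metric.isOpen_iff.1 isClosed_closure.isOpen_compl 0 n0
  have hm : 0 < min (ρ / 2) 1 := lt_min (half_pos hρ) one_pos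
  obtain ⟨b1, b2, b3⟩ := hi_spec h.compact.isClosed ⟨1, h.right, min_le_right (ρ / 2) 1⟩
  refine ⟨_, h.left, b1, hm.trans_le b2, fun u hu => (le_or_gt u 0).imp id fun h0 =>
    b3 u hu (not_lt.1 fun h2 => h1 ?_ (subset_closure (hu.imp id fun h => ⟨h, h0.ne'⟩)))⟩
  rw [mem_ball_zero_iff, Real.norm_eq_abs, abs_of_pos h0]
  linarith [min_le_left (ρ / 2) 1]

namespace Str
variable {X : Type} [MetricSpace X] [CompactSpace X] [ConnectedSpace X] [Nontrivial X]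
  {S : Str X} {L : Set (X × X)} {c : BC X} {y : X}

omit [CompactSpace X] [ConnectedSpace X] [Nontrivial X] in
theorem c3_free (h : S.Cell L y c) {e : X × X} (he : e ∈ L) (hin : e.1 ∈ c.In ∨ e.2 ∈ c.In) :
    S.Free c.gs e.1 e.2 :=
  hin.elim (h.inv e he) fun h' => c2_free_swap (h.inv e.swap (h.lam.symm e he) h')

omit [ConnectedSpace X] [Nontrivial X] in
theorem c3_anchor (h : S.IsScc L c) {a b : ℝ} (hab : a < b)
    (hp : ∃ u ∈ c.K, b ≤ u ∧ u ≤ a + c.per) {β : X × X}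
    (h1 : β ∈ {β : X × X | β.1 = β.2 ∨ β ∉ gaps (c.K ∩ Icc b (a + c.per)) c.π})
    (h2 : (β.1 = β.2 ∧ β.1 ∈ c.π '' (c.K ∩ Ioo a b)) ∨ (β ∈ c.gs ∧ β.1 ≠ β.2)) :
    ∃ s ∈ Ioo a b, c.anchor s = β ∧ β.1 ∈ c.img ∧ β.2 ∈ c.img := by
  rcases h2 with ⟨e, u, hu, e'⟩ | h2
  · refine ⟨u, hu.2, ?_, ⟨u, hu.1, e'⟩, u, hu.1, e'.trans e⟩
    rw [BC.anchor, lo_of_mem hu.1, hi_of_mem hu.1]
    exact Prod.ext e' (e'.trans e)
  · obtain ⟨s, hs, -, e⟩ := (c2_win h hab hp).2.2.2 β h2.1 (h1.resolve_left h2.2)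
    exact ⟨s, hs, e, h.gs_mem h2.1⟩

/-- a slit from the boundary to a prescribed interior point -/
structure C3Slit (S : Str X) (L : Set (X × X)) (c : BC X) (s : ℝ) (x : X) (K : Set ℝ) (π : ℝ → X)
    (a : ℝ) : Prop where
  mem : s ∈ c.K
  arc : IsArc (gaps K π) K π a 1
  left : π a = c.π s
  right : π 1 = x
  lt : a < 1
  inn : ∀ u ∈ K, u ≠ a → π u ∈ c.In
  tame : S.Tame L (gaps K π)
  nc : S.NC (gaps K π)
  free : ∀ d ∈ gaps K π, S.Free c.gs d.1 d.2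
  freeL : ∀ e ∈ L, e.1 ∈ c.In ∨ e.2 ∈ c.In → S.Free (gaps K π) e.1 e.2

theorem c3_slit (h : S.Cell L y c) {x : X} (hx : x ∈ c.In) (hxG : x ∉ S.G) {a b : ℝ}
    (hab : a < b) (hp : ∃ u ∈ c.K, b ≤ u ∧ u ≤ a + c.per) :
    ∃ c' s K π α, S.Cell L y c' ∧ c.Ext c' ∧ s ∈ Ioo a b ∧ S.C3Slit L c' s x K π α := by
  have hL := h.lam
  have wf := h.toSided.wf
  have hxi : x ∉ c.img := wf.disj.notMem_of_mem_left hx
  obtain ⟨⟨p, q, harc⟩, himg, hdis, -⟩ := c2_win h.scc hab hp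
  have hY := (harc.compact.image_of_continuousOn harc.cont).isClosed
  have icl := h.scc.img_compact.isClosed
  have Yi : c.π '' (c.K ∩ Icc b (a + c.per)) ⊆ c.img := image_mono inter_subset_left
  set M := {e ∈ L | e.1 ∈ c.In ∨ e.2 ∈ c.In} with hM
  have reg : S.Reg L y c (c.img ∪ {x}) c.gs M (c.In \ (c.img ∪ {x})) :=
    ⟨h.toSided, icl.union isClosed_singleton, subset_union_left,
      union_subset subset_union_right (singleton_subset_iff.2 (Or.inl hx)), h.scc.tame, h.scc.nc,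
      Subset.rfl, fun d hd => ⟨Or.inl (h.scc.gs_mem hd).1, Or.inl (h.scc.gs_mem hd).2⟩,
      fun _ he => he.1, fun e he => ⟨hL.symm e he.1, he.2.symm⟩, fun _ he => he.2,
      fun e he => c3_free h he.1 he.2,
      h.toSided.isOpen_In.sdiff (icl.union isClosed_singleton), Subset.rfl,
      fun e he h1 => ⟨he, Or.inl h1.1⟩⟩
  obtain ⟨z, rfl : z = x, β, hβ, hβ', hc⟩ := reg.twowin rfl (W1 := ∅) (V1 := {x})
    (A0 := {β : X × X | β.1 = β.2 ∨ β ∉ gaps (c.K ∩ Icc b (a + c.per)) c.π}) hY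
    (by rw [← himg]) hdis (disjoint_singleton_left.2 fun h' => hxi (Yi h'))
    (image_mono inter_subset_left) (singleton_subset_iff.2 hx) (singleton_nonempty x)
    (fun z hz => c2_ball (hY.union (isClosed_singleton (x := x))) (by
      rintro (h' | rfl)
      · exact hdis.le_bot ⟨hz, h'⟩
      · exact hxi (image_mono inter_subset_left hz)) (by
      rw [himg]
      rintro w ((h' | h') | h')
      · exact Or.inl (Or.inl h')
      · exact Or.inr h'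
      · exact Or.inl (Or.inr h')))
    (fun z hz => c2_ball icl (hz ▸ hxi) Subset.rfl) (gaps_inter_Icc_sub _ _)
    (fun d hd => c2_gaps_mem hd) (pot_arc hL h.scc.tame harc) (empty_subset _)
    (fun _ h' => h'.elim) (fun d hd => Or.inl (Or.inr hd))
    (fun d _ => (em _).imp id Or.inr) (fun z _ => Or.inl rfl)
    fun e he => he.2.imp (fun h' h'' => wf.disj.le_bot ⟨h', Yi h''⟩)
      fun h' h'' => wf.disj.le_bot ⟨h', Yi h''⟩
  obtain ⟨s, hs, rfl, i1, i2⟩ := c3_anchor h.scc hab hp hβ hβ'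
  have n1 : (c.anchor s).1 ≠ z := fun e => hxi (e ▸ i1)
  have n2 : (c.anchor s).2 ≠ z := fun e => hxi (e ▸ i2)
  obtain ⟨KA, α, G, k1, k2, k3, k4, k5, k6⟩ := reg.norm (α := c.anchor s) (β := (z, z))
    (hβ'.imp (fun h' => ⟨h'.1, Or.inl i1⟩) id) (Or.inl ⟨rfl, Or.inr rfl⟩) (fun _ => ⟨n1, n1⟩)
    (fun _ => ⟨n1.symm, n2.symm⟩)
    (hc.imp (fun ⟨w, h1, h2⟩ => ⟨w, h2, h1⟩) c2_da_symm)
  obtain ⟨p1, nc1⟩ := k6 _ z (Or.inl rfl) (Or.inl rfl)
  obtain ⟨p2, nc2⟩ := k6 _ z (Or.inr rfl) (Or.inl rfl)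
  have val : ∀ p, ∀ u ∈ KA, ext01 p z α u = α u := fun p u hu =>
    c3_extm _ _ _ (k1 hu).1.ne' (k1 hu).2.ne
  have inj : ∀ p ∈ c.img, InjOn (ext01 p z α) (KA ∪ {0, 1}) := by
    intro p hp
    have a0 : ∀ u ∈ KA, α u ≠ p := fun u hu e => (k2 hu).2 (Or.inl (e ▸ hp))
    have a1 : ∀ u ∈ KA, α u ≠ z := fun u hu e => (k2 hu).2 (Or.inr e)
    have a2 : p ≠ z := fun e => hxi (e ▸ hp)
    rintro u (hu | rfl | rfl) v (hv | rfl | rfl) e <;>
      try simp only [c3_ext0, c3_ext1] at e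
    · exact k3 hu hv (by rwa [val p u hu, val p v hv] at e)
    · exact (a0 u hu (val p u hu ▸ e)).elim
    · exact (a1 u hu (val p u hu ▸ e)).elim
    · exact (a0 v hv (val p v hv ▸ e.symm)).elim
    · rfl
    · exact (a2 e).elim
    · exact (a1 v hv (val p v hv ▸ e.symm)).elim
    · exact (a2 e.symm).elim
    · rfl
  have inn : ∀ p, ∀ u ∈ KA ∪ {0, 1}, u ≠ 0 → ext01 p z α u ∈ c.In := by
    rintro p u (hu | rfl | rfl) h0
    · rw [val p u hu]; exact (k2 hu).1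
    · exact (h0 rfl).elim
    · rwa [c3_ext1]
  have gG1 := IsArc.gaps_sub ⟨p1, inj _ i1⟩
  have gG2 := IsArc.gaps_sub ⟨p2, inj _ i2⟩
  have fL : ∀ e ∈ L, e.1 ∈ c.In ∨ e.2 ∈ c.In → S.Free G e.1 e.2 := fun e he hin d hd hc =>
    (k5 d hd).2.2.1 e ⟨he, hin⟩ hc.symm
  rcases h.scc.anchor_spec s with ⟨hsK, e⟩ | ⟨hsK, hg, hgs⟩
  · refine ⟨c, s, _, _, 0, h, ⟨rfl, Subset.rfl, fun _ _ => rfl, wf.disj.sdiff_eq_left.symm,
      subset_union_right⟩, hs, hsK, ⟨p1.self, inj _ i1⟩, by rw [c3_ext0, e], c3_ext1 _ _ _,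
      one_pos, inn _, k4.mono gG1, nc1, fun d hd => (k5 d (gG1 hd)).2.1,
      fun e he hin d hd => fL e he hin d (gG1 hd)⟩
  have ne : (c.anchor s).1 ≠ (c.anchor s).2 := fun e => by
    rcases hβ' with h' | h'
    · obtain ⟨n, hn⟩ := h.scc.eq_of_eq hg.1 hg.2.1 e
      obtain ⟨u, hu, e'⟩ := h'.2
      have l1 := h.scc.gap_le hg
      have l2 := (lo_spec h.scc.closed (h.scc.exists_le s)).2.1
      have l3 := (hi_spec h.scc.closed (h.scc.exists_ge s)).2.1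
      obtain ⟨v, hv, v1, v2⟩ := hp
      have l4 : hi c.K s = lo c.K s + c.per := l1.eq_or_lt.resolve_right fun l =>
        hg.2.2.1.ne (h.scc.inj _ hg.1 _ hg.2.1 hg.2.2.1.le l e)
      rcases hg.2.2.2 u hu.1 with c1 | c1
      · rcases hg.2.2.2 v hv with c2 | c2
        · linarith [hs.2]
        · have := h.scc.inj u hu.1 _ hg.1 c1 (by linarith [hu.2.1]) e'
          linarith [hu.2.1]
      · rcases hg.2.2.2 _ ((h.scc.perK (v - c.per)).1 (by rwa [sub_add_cancel])) with c2 | c2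
        · linarith [hu.2.2]
        · linarith [hs.1]
    · exact h'.2 e
  obtain ⟨t, ht⟩ := c3_first k1 p1 p2 ne
  have g1 : ((c.anchor s).1, ext01 (c.anchor s).1 z α t) ∈ gaps _ (ext01 (c.anchor s).1 z α) :=
    ⟨0, t, ht, by rw [c3_ext0]⟩
  have g2 : ((c.anchor s).2, ext01 (c.anchor s).2 z α t) ∈ gaps _ (ext01 (c.anchor s).2 z α) :=
    ⟨0, t, ht, by rw [c3_ext0]⟩
  have f1 := k5 _ (gG1 g1)
  have f2 := k5 _ (gG2 g2)
  have tK : t ∈ KA := by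
    rcases ht.2.1 with h' | h' | h'
    · exact h'
    · exact (ht.2.2.1.ne' h').elim
    · rw [h', c3_ext1] at f1
      exact (hxG f1.1.2.1).elim
  rw [val _ t tK] at g1 g2 f1 f2
  obtain ⟨c', d1, d2, d3, d4, d5, -, d7, -⟩ := h.toSided.ins hsK (k2 tK).1 f1.1.symm
    (c2_free_swap f1.2.1) (c2_free_swap f2.2.1)
  have sub : c'.In ⊆ c.In := d5 ▸ sdiff_subset
  have r := (IsArc.mk p1 (inj _ i1)).restrict (Or.inl tK) p1.right (k1 tK).2.le
  have s1 := gaps_inter_Icc_sub (K := KA ∪ {0, 1}) (π := ext01 (c.anchor s).1 z α) t 1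
  have s2 : gaps ((KA ∪ {0, 1}) ∩ Icc t 1) (ext01 (c.anchor s).1 z α) ⊆
      gaps (KA ∪ {0, 1}) (ext01 (c.anchor s).2 z α) := by
    rw [gaps_congr (π := ext01 (c.anchor s).2 z α) fun u hu => by
      simp only [ext01, if_neg (ht.2.2.1.trans_le hu.2.1).ne']]
    exact gaps_inter_Icc_sub _ _
  refine ⟨c', s, _, _, t, ⟨d1, fun e he hin d hd => ?_⟩, d2, hs, d3, ⟨r.toIsPath.self, r.inj⟩,
    by rw [d4, val _ t tK], c3_ext1 _ _ _, (k1 tK).2, fun u hu hut => ?_,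
    k4.mono (s1.trans gG1), fun d hd e he => nc1 d (s1 hd) e (s1 he), fun d hd e he => ?_,
    fun e he hin d hd => fL e he (hin.imp (fun h' => sub h') fun h' => sub h') d (gG1 (s1 hd))⟩
  · rcases d7 hd with h' | rfl | rfl
    · exact h.inv e he (sub hin) d h'
    · exact fL e he (Or.inl (sub hin)) _ (gG1 g1)
    · exact fun hc => fL e he (Or.inl (sub hin)) _ (gG2 g2) hc.swapL
  · rw [d5]
    exact ⟨inn _ u hu.1 (ht.2.2.1.trans_le hu.2.1).ne', fun e =>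
      hut (inj _ i1 hu.1 (Or.inl tK) (e.trans (val _ t tK).symm))⟩
  · rcases d7 he with h' | rfl | rfl
    · exact (k5 d (gG1 (s1 hd))).2.1 e h'
    · exact nc1 _ g1 d (s1 hd)
    · exact fun hc => nc2 _ g2 d (s2 hd) hc.swapL

omit [CompactSpace X] [ConnectedSpace X] [Nontrivial X] in
/-- gluing an initial piece of a slit with a normal form -/
theorem c3_glue {K KA : Set ℝ} {π a : ℝ → X} {α u1 : ℝ} {R : Set (X × X)}
    (h : IsArc R K π α 1) (hu : u1 ∈ K) (hlt : α < u1) (hKA : KA ⊆ Ioo 0 1) :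
    ∃ (KB : Set ℝ) (b : ℝ → X), KB ⊆ Ioo 0 1 ∧
      (∀ w ∈ KB, (∃ u ∈ K, α < u ∧ b w = π u ∧ w ≤ 1 / 2 ∧ w = (u - α) / (2 * (u1 - α))) ∨
        ∃ v ∈ KA, b w = a v ∧ w = (1 + v) / 2) ∧
      (∀ u ∈ K, α < u → u ≤ u1 → π u ∈ b '' KB) ∧
      ∀ q G, IsPath G (KA ∪ {0, 1}) (ext01 (π u1) q a) 0 1 →
        IsPath (gaps K π ∪ G) (KB ∪ {0, 1}) (ext01 (π α) q b) 0 1 ∧
        gaps (KB ∪ {0, 1}) (ext01 (π α) q b) ⊆
          gaps K π ∪ gaps (KA ∪ {0, 1}) (ext01 (π u1) q a) := by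
  have hd : 0 < 2 * (u1 - α) := by linarith
  let φ : ℝ → ℝ := fun u => (u - α) / (2 * (u1 - α))
  let ψ : ℝ → ℝ := fun v => (1 + v) / 2
  let πA : ℝ → X := fun w => π (α + w * (2 * (u1 - α)))
  have φ0 : φ α = 0 := by simp [φ]
  have φ1 : φ u1 = 1 / 2 := by simp only [φ]; rw [div_eq_iff hd.ne']; ring
  have ψ0 : ψ 0 = 1 / 2 := by simp [ψ]
  have ψ1 : ψ 1 = 1 := by simp [ψ]
  have hφ : StrictMono φ := fun u v h => div_lt_div_of_pos_right (by linarith) hd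
  have eA : ∀ u, πA (φ u) = π u := fun u => by
    simp only [πA, φ, div_mul_cancel₀ _ hd.ne', add_sub_cancel]
  obtain ⟨A1, A2⟩ := (h.toIsPath.restrict h.left hu hlt.le).self.transport (π' := πA)
    (hφ.strictMonoOn _) (by fun_prop) fun u _ => eA u
  rw [φ0, φ1] at A1
  let KC := φ '' (K ∩ Icc α u1) ∪ ψ '' (KA ∪ {0, 1})
  let b : ℝ → X := fun w => if w ≤ 1 / 2 then πA w else a (2 * w - 1)
  have e0 : KC \ {0, 1} ∪ {0, 1} = KC := sdiff_union_of_subset (by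
    rintro _ (rfl | rfl)
    · exact Or.inl A1.left
    · exact Or.inr ⟨1, by simp, ψ1⟩)
  have cases : ∀ w ∈ KC \ {0, 1}, (∃ u ∈ K, α < u ∧ b w = π u ∧ w ≤ 1 / 2 ∧ w = φ u) ∨
      ∃ v ∈ KA, b w = a v ∧ w = ψ v := by
    rintro w ⟨⟨u, hu', rfl⟩ | ⟨v, hv | rfl | rfl, rfl⟩, hn⟩
    · have := (A1.sub ⟨u, hu', rfl⟩).2
      exact Or.inl ⟨u, hu'.1, hu'.2.1.lt_of_ne fun e => hn (Or.inl (e ▸ φ0)),
        (if_pos this).trans (eA u), this, rfl⟩
    · refine Or.inr ⟨v, hv, (if_neg ?_).trans ?_, rfl⟩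
      · simp only [ψ]
        linarith [(hKA hv).1]
      · simp only [ψ]
        congr 1
        ring
    · exact Or.inl ⟨u1, hu, hlt, (if_pos ψ0.le).trans (by rw [ψ0, ← φ1, eA]), ψ0.le,
        ψ0.trans φ1.symm⟩
    · exact (hn (Or.inr ψ1)).elim
  refine ⟨KC \ {0, 1}, b, fun w hw => ?_, cases, fun u h1 h2 h3 => ?_, fun q G hG => ?_⟩
  · rcases cases w hw with ⟨u, -, h1, -, h2, rfl⟩ | ⟨v, hv, -, rfl⟩
    · exact ⟨φ0 ▸ hφ h1, by linarith⟩
    · simp only [ψ]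
      constructor <;> linarith [(hKA hv).1, (hKA hv).2]
  · have h4 : φ u ≤ 1 / 2 := φ1 ▸ hφ.monotone h3
    refine ⟨φ u, ⟨Or.inl ⟨u, ⟨h1, h2.le, h3⟩, rfl⟩, ?_⟩, (if_pos h4).trans (eA u)⟩
    rintro (e | e)
    · exact (hφ h2).ne' (e.trans φ0.symm)
    · rw [show φ u = 1 from e] at h4
      norm_num at h4
  · obtain ⟨B1, B2⟩ := hG.transport (π' := fun w => ext01 (π u1) q a (2 * w - 1)) (φ := ψ)
      (fun u _ v _ h => by simp only [ψ]; linarith) (by fun_prop) fun u _ => by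
        simp only [ψ]; congr 1; ring
    rw [ψ0, ψ1] at B1
    obtain ⟨C1, C2, -⟩ := (A1.mono' (R' := gaps K π ∪ G) fun _ _ _ _ h' =>
      Or.inl (gaps_inter_Icc_sub _ _ h')).concat (B1.mono' fun _ _ _ _ h' => Or.inr h')
      (by rw [← φ1, eA, φ1]; norm_num [c3_ext0])
    have eq : EqOn (ext01 (π α) q b)
        (fun u => if u ≤ 1 / 2 then πA u else ext01 (π u1) q a (2 * u - 1)) KC := by
      intro w hw
      by_cases c0 : w = 0
      · simp [c0, c3_ext0, πA]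
      by_cases c1 : w = 1
      · norm_num [c1, c3_ext1]
      rw [c3_extm _ _ _ c0 c1]
      by_cases c2 : w ≤ 1 / 2
      · simp only [b, if_pos c2]
      · simp only [b, if_neg c2]
        exact (c3_extm _ _ _ (fun e => c2 (by linarith)) fun e => c1 (by linarith)).symm
    rw [e0]
    refine ⟨C1.congr eq, ?_⟩
    rw [gaps_congr eq, C2, A2, B2]
    exact union_subset_union_left _ (gaps_inter_Icc_sub _ _)

/-- a cut through a prescribed open set with ends in prescribed intervals -/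
theorem Cell.plain_cut (h : S.Cell L y c) {U : Set X} (hU : IsOpen U) (hne : (U ∩ c.In).Nonempty)
    {a1 b1 a2 b2 : ℝ} (h1 : a1 < b1) (h12 : b1 ≤ a2) (h2 : a2 < b2) (h21 : b2 ≤ a1 + c.per)
    (hp1 : ∃ u ∈ c.K, b1 ≤ u ∧ u ≤ a2) (hp2 : ∃ u ∈ c.K, b2 ≤ u ∧ u ≤ a1 + c.per) :
    ∃ c' s1 s2 c1 c2, S.Cell L y c' ∧ S.Cell L y c1 ∧ S.Cell L y c2 ∧ c.Ext c' ∧
      c'.Cut s1 s2 c1 c2 ∧ s1 ∈ Ioo a1 b1 ∧ s2 ∈ Ioo a2 b2 ∧
      ∃ z ∈ U, z ∈ c1.img ∧ z ∈ c2.img := by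
  have hL := h.lam
  obtain ⟨x, hx, hxG⟩ := c3_unc (hU.inter h.toSided.isOpen_In) hne S.good.countable
  obtain ⟨v1, hv1, v1a, v1b⟩ := hp1
  obtain ⟨v2, hv2, v2a, v2b⟩ := hp2
  obtain ⟨c', s1, K, π, α, h', hext, hs1, sl⟩ := c3_slit h hx.2 hxG h1 ⟨v2, hv2, by linarith, v2b⟩
  rw [← hext.per] at h21 v2b
  have wf := h'.toSided.wf
  have arc := sl.arc
  obtain ⟨β0, hβ0, b0, b1', bU⟩ : ∃ β0 ∈ K, α < β0 ∧ β0 < 1 ∧ ∀ u ∈ K, β0 < u → π u ∈ U := by
    have := (arc.cont 1 arc.right).eventually (hU.mem_nhds (sl.right ▸ hx.1))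
    rw [eventually_nhdsWithin_iff, Metric.eventually_nhds_iff] at this
    obtain ⟨δ, hδ, hb⟩ := this
    obtain ⟨m, m1, m2⟩ := exists_between (max_lt sl.lt (show 1 - δ < 1 by linarith))
    rw [max_lt_iff] at m1
    by_contra hn
    obtain ⟨l1, l2, l3⟩ := lo_spec arc.compact.isClosed ⟨α, arc.left, m1.1.le⟩
    refine hxG (sl.right ▸ (sl.tame.chord _ ⟨_, 1, ⟨l1, arc.right, l2.trans_lt m2, fun u hu => ?_⟩,
      rfl⟩).2.1)
    by_contra hc
    push Not at hc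
    have := not_le.1 fun h'' => hc.1.not_ge (l3 u hu h'')
    exact hn ⟨u, hu, m1.1.trans this, hc.2, fun w hw hw' => hb (by
      rw [Real.dist_eq, abs_lt]
      constructor <;> linarith [(arc.sub hw).2, m1.2]) hw⟩
  have hp : ∃ u ∈ c'.K, b2 ≤ u ∧ u ≤ a2 + c'.per :=
    ⟨v2, hext.sub hv2, v2a, by linarith⟩
  obtain ⟨⟨p, q, harc⟩, himg, hdis, -⟩ := c2_win h'.scc h2 hp
  set Yb := c'.π '' (c'.K ∩ Icc b2 (a2 + c'.per))
  have hYb : IsClosed Yb := (harc.compact.image_of_continuousOn harc.cont).isClosed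
  have Yi : Yb ⊆ c'.img := image_mono inter_subset_left
  have icl := h'.scc.img_compact.isClosed
  have r := arc.restrict arc.left hβ0 b0.le
  have hYs := (r.compact.image_of_continuousOn r.cont).isClosed
  have kcl := (arc.compact.image_of_continuousOn arc.cont).isClosed
  have αY : π α ∈ Yb := ⟨s1 + c'.per, ⟨(h'.scc.perK _).2 sl.mem, by linarith [hs1.1],
    by linarith [hs1.2]⟩, (h'.scc.perπ _ sl.mem).trans sl.left.symm⟩
  have meet : ∀ u ∈ K, π u ∈ c'.img → u = α := fun u hu hi =>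
    by_contra fun n => wf.disj.le_bot ⟨sl.inn u hu n, hi⟩
  set Y := Yb ∪ π '' (K ∩ Icc α β0)
  set M := {e ∈ L | e.1 ∈ c'.In \ Y ∨ e.2 ∈ c'.In \ Y} with hM
  have YZ : Y ⊆ c'.img ∪ π '' K := union_subset_union Yi (image_mono inter_subset_left)
  have reg : S.Reg L y c' (c'.img ∪ π '' K) (c'.gs ∪ gaps K π) M (c'.In \ (c'.img ∪ π '' K)) := by
    refine ⟨h'.toSided, icl.union kcl, subset_union_left, union_subset subset_union_right ?_,
      h'.scc.tame.union sl.tame, ?_, subset_union_left, ?_, fun _ he => he.1,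
      fun e he => ⟨hL.symm e he.1, he.2.symm⟩, fun _ he => he.2.imp And.left And.left, ?_,
      h'.toSided.isOpen_In.sdiff (icl.union kcl), Subset.rfl,
      fun e he h1 => ⟨he, Or.inl ⟨h1.1, fun h2 => h1.2 (YZ h2)⟩⟩⟩
    · rintro _ ⟨u, hu, rfl⟩
      by_cases e : u = α
      · exact Or.inr (e ▸ Yi αY)
      · exact Or.inl (sl.inn u hu e)
    · rintro d (hd | hd) e (he | he)
      · exact h'.scc.nc d hd e he
      · exact sl.free e he d hd
      · exact fun hc => sl.free d hd e he hc.symm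
      · exact sl.nc d hd e he
    · rintro d (hd | hd)
      · exact ⟨Or.inl (h'.scc.gs_mem hd).1, Or.inl (h'.scc.gs_mem hd).2⟩
      · exact ⟨Or.inr (c2_gaps_mem hd).1, Or.inr (c2_gaps_mem hd).2⟩
    · rintro e he d (hd | hd)
      · exact c3_free h' he.1 (he.2.imp And.left And.left) d hd
      · exact sl.freeL e he.1 (he.2.imp And.left And.left) d hd
  have V1In : π '' (K ∩ Ioi β0) ⊆ c'.In := by
    rintro _ ⟨u, hu, rfl⟩
    exact sl.inn u hu.1 (b0.trans hu.2).ne'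
  have V1Y : Disjoint (π '' (K ∩ Ioi β0)) Y := by
    rw [Set.disjoint_left]
    rintro _ ⟨u, hu, rfl⟩ (hy | ⟨v, hv, e⟩)
    · exact wf.disj.le_bot ⟨V1In ⟨u, hu, rfl⟩, Yi hy⟩
    · exact (hv.2.2.trans_lt hu.2).ne (arc.inj hv.1 hu.1 e)
  have V0K : ∀ z ∈ c'.π '' (c'.K ∩ Ioo a2 b2), z ∉ Yb ∪ π '' K := by
    rintro z hz (hy | ⟨u, hu, rfl⟩)
    · exact hdis.le_bot ⟨hz, hy⟩
    · exact hdis.le_bot ⟨hz, meet u hu (image_mono inter_subset_left hz) ▸ αY⟩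
  have split : π '' K = π '' (K ∩ Icc α β0) ∪ π '' (K ∩ Ioi β0) := by
    rw [← image_union]
    congr 1
    exact Subset.antisymm (fun u hu => (le_or_gt u β0).imp (fun e => ⟨hu, (arc.sub hu).1, e⟩)
      fun e => ⟨hu, e⟩) (union_subset inter_subset_left inter_subset_left)
  obtain ⟨_, ⟨u1, hu1, rfl⟩, β, hβ, hβ', hc⟩ := reg.twowin rfl (Y := Y)
    (V0 := c'.π '' (c'.K ∩ Ioo a2 b2)) (V1 := π '' (K ∩ Ioi β0))
    (D := gaps (c'.K ∩ Icc b2 (a2 + c'.per)) c'.π ∪ gaps (K ∩ Icc α β0) π)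
    (W1 := gaps (K ∩ Icc β0 1) π)
    (A0 := {β : X × X | β.1 = β.2 ∨ β ∉ gaps (c'.K ∩ Icc b2 (a2 + c'.per)) c'.π})
    (hYb.union hYs) (by rw [himg, split]; simp only [Y]; ac_rfl)
    (Set.disjoint_left.2 fun z hz hy => V0K z hz
      (union_subset_union_right _ (image_mono inter_subset_left) hy))
    V1Y (image_mono inter_subset_left) V1In ⟨_, 1, ⟨arc.right, b1'⟩, rfl⟩
    (fun z hz => c2_ball (hYb.union kcl) (V0K z hz) (by
      rw [himg]
      rintro w ((h' | h') | h')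
      · exact Or.inl (Or.inl h')
      · exact Or.inr h'
      · exact Or.inl (Or.inr h')))
    (fun z hz => c2_ball (icl.union hYs) (by
      rintro (h'' | h'')
      · exact wf.disj.le_bot ⟨V1In hz, h''⟩
      · exact V1Y.le_bot ⟨hz, Or.inr h''⟩) (by rw [split, union_assoc]))
    (union_subset_union (gaps_inter_Icc_sub _ _) (gaps_inter_Icc_sub _ _))
    (fun d hd => hd.elim (fun hd => ⟨Or.inl (c2_gaps_mem hd).1, Or.inl (c2_gaps_mem hd).2⟩)
      fun hd => ⟨Or.inr (c2_gaps_mem hd).1, Or.inr (c2_gaps_mem hd).2⟩)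
    ((pot_arc hL h'.scc.tame harc).attach hL hYb (fun d hd => c2_gaps_mem hd) sl.tame r αY
      fun u hu hy => meet u hu.1 (Yi hy))
    ((gaps_inter_Icc_sub _ _).trans subset_union_right)
    (by
      rintro _ ⟨u, v, hg, rfl⟩
      exact Or.inr ⟨v, ⟨hg.2.1.1, hg.1.2.1.trans_lt hg.2.2.1⟩, rfl⟩)
    (by
      rintro d (hd | ⟨u, v, hg, rfl⟩)
      · exact Or.inl (Or.inr hd)
      · rcases hg.2.2.2 β0 hβ0 with e | e
        · exact Or.inr ⟨u, v, gap_inter_Icc.2 ⟨hg, e, (arc.sub hg.2.1).2⟩, rfl⟩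
        · exact Or.inl (Or.inl (Or.inr ⟨u, v, gap_inter_Icc.2 ⟨hg, (arc.sub hg.1).1, e⟩, rfl⟩)))
    (fun d _ => (em _).imp Or.inl Or.inr) (fun z _ => Or.inl rfl)
    fun e he => he.2.imp And.right And.right
  obtain ⟨s2, hs2, rfl, i1, i2⟩ := c3_anchor h'.scc h2 hp hβ hβ'
  have zi : π u1 ∉ c'.img := wf.disj.notMem_of_mem_left (V1In ⟨u1, hu1, rfl⟩)
  have n1 : π u1 ≠ (c'.anchor s2).1 := fun e => zi (e ▸ i1)
  have n2 : π u1 ≠ (c'.anchor s2).2 := fun e => zi (e ▸ i2)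
  obtain ⟨KA, a, G, k1, k2, k3, k4, k5, k6⟩ := reg.norm (α := (π u1, π u1)) (β := c'.anchor s2)
    (Or.inl ⟨rfl, Or.inr ⟨u1, hu1.1, rfl⟩⟩)
    (hβ'.imp (fun h' => ⟨h'.1, Or.inl i1⟩) fun h' => ⟨Or.inl h'.1, h'.2⟩) (fun _ => ⟨n1, n2⟩)
    (fun _ => ⟨n1.symm, n1.symm⟩) hc
  obtain ⟨KB, b, g1, g2, g3, g4⟩ := c3_glue (a := a) arc hu1.1 (b0.trans hu1.2) k1
  have an : c'.anchor s1 = (π α, π α) := by
    rw [BC.anchor, lo_of_mem sl.mem, hi_of_mem sl.mem, sl.left]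
  have both : ∀ q, q = (c'.anchor s2).1 ∨ q = (c'.anchor s2).2 →
      IsPath (gaps K π ∪ G) (KB ∪ {0, 1}) (ext01 (π α) q b) 0 1 ∧
        S.NC (gaps (KB ∪ {0, 1}) (ext01 (π α) q b)) := by
    intro q hq
    obtain ⟨e1, e2⟩ := k6 _ q (Or.inl rfl) hq
    obtain ⟨e3, e4⟩ := g4 q G e1
    have f : ∀ d ∈ gaps K π, ∀ e ∈ gaps (KA ∪ {0, 1}) (ext01 (π u1) q a),
        ¬ S.Cross d.1 d.2 e.1 e.2 := by
      rintro d hd _ ⟨s, t, hg, rfl⟩
      exact (e1.gap s t hg).elim (fun e hc => hc.ne34 e) fun e => (k5 _ e).2.1 d (Or.inr hd)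
    refine ⟨e3, fun d hd e he => ?_⟩
    rcases e4 hd with hd | hd <;> rcases e4 he with he | he
    · exact sl.nc d hd e he
    · exact f d hd e he
    · exact fun hc => f e he d hd hc.symm
    · exact e2 d hd e he
  obtain ⟨c1, c2, j1, j2, j3, -, -, j4⟩ := h'.cut (s1 := s1) (s2 := s2) (KA := KB) (α := b)
    (G := gaps K π ∪ G) ⟨⟨v1, hext.sub hv1, by linarith [hs1.2], by linarith [hs2.1]⟩,
      ⟨v2, hext.sub hv2, by linarith [hs2.2], by linarith [hs1.1]⟩, g1, fun w hw => by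
        rcases g2 w hw with ⟨u, hu, e1, e2, -⟩ | ⟨v, hv, e1, -⟩
        · exact e2 ▸ sl.inn u hu e1.ne'
        · exact e1 ▸ (k2 hv).1, fun w hw w' hw' e => by
        rcases g2 w hw with ⟨u, hu, -, e2, -, e3⟩ | ⟨v, hv, e2, e3⟩ <;>
          rcases g2 w' hw' with ⟨u', hu', -, e2', -, e3'⟩ | ⟨v', hv', e2', e3'⟩ <;>
          rw [e2, e2'] at e
        · rw [e3, e3', arc.inj hu hu' e]
        · exact ((k2 hv').2 (Or.inr ⟨u, hu, e⟩)).elim
        · exact ((k2 hv).2 (Or.inr ⟨u', hu', e.symm⟩)).elim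
        · rw [e3, e3', k3 hv hv' e],
      an ▸ (both _ (Or.inl rfl)).1, an ▸ (both _ (Or.inr rfl)).1, an ▸ (both _ (Or.inl rfl)).2,
      an ▸ (both _ (Or.inr rfl)).2, sl.tame.union k4,
      fun f hf => hf.elim (sl.free f) fun hf d hd => (k5 f hf).2.1 d (Or.inl hd), by
        rintro f (hf | hf)
        · have ch := sl.tame.chord f hf
          have fr := sl.free f hf
          obtain ⟨u, v, hg, rfl⟩ := hf
          exact c2_insW_symm ch.symm (c2_insW_In (sl.inn v hg.2.1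
            ((arc.sub hg.1).1.trans_lt hg.2.2.1).ne') ch.symm (c2_free_swap fr))
        · exact (k5 f hf).2.2.2⟩ (by
      rintro e he hin hn d (hd | hd)
      · exact sl.freeL e he (Or.inl hin) d hd
      · refine fun hc => (k5 d hd).2.2.1 e ⟨he, Or.inl ⟨hin, ?_⟩⟩ hc.symm
        rintro (hy | ⟨u, hu, e1⟩)
        · exact wf.disj.le_bot ⟨hin, Yi hy⟩
        · refine hn (e1 ▸ g3 u hu.1 (hu.2.1.lt_of_ne fun e2 => ?_) (hu.2.2.trans hu1.2.le))
          exact wf.disj.le_bot ⟨hin, e1 ▸ e2 ▸ Yi αY⟩)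
  exact ⟨c', s1, s2, c1, c2, h', j1, j2, hext, j3, hs1, hs2, π u1, bU u1 hu1.1 hu1.2,
    j4 (g3 u1 hu1.1 (b0.trans hu1.2) le_rfl)⟩

end Str

end Pool.Agent.Lib.MP_9e71a3_gt
end

-- part Pool.Agent.Lib.MP_9e71a3_gt.Conn
section

end

-- part Pool.Agent.Lib.MP_9e71a3_gt.BandA
section

/-! Transitions of the boundary between two closed sets.  JOB Band (part A). -/

set_option autoImplicit false
set_option linter.unusedSectionVars false

namespace Pool.Agent.Lib.MP_9e71a3_gt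

open Set Metric Filter Topology

/-- a transition of the boundary between the sets `A` and `B` -/
def BC.Tr {X : Type} (c : BC X) (A B : Set X) (s t : ℝ) : Prop :=
  s ∈ c.K ∧ t ∈ c.K ∧ s < t ∧ ((c.π s ∈ A ∧ c.π t ∈ B) ∨ (c.π s ∈ B ∧ c.π t ∈ A)) ∧
    ∀ u ∈ c.K, s < u → u < t → c.π u ∉ A ∪ B

def BC.trs {X : Type} (c : BC X) (A B : Set X) : Set (X × X) :=
  {p | ∃ s t, c.Tr A B s t ∧ p = (c.π s, c.π t)}

theorem BC.Tr.comm {X : Type} {c : BC X} {A B : Set X} {s t : ℝ} (h : c.Tr A B s t) :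
    c.Tr B A s t :=
  ⟨h.1, h.2.1, h.2.2.1, h.2.2.2.1.symm, fun u hu h1 h2 => by
    rw [union_comm]; exact h.2.2.2.2 u hu h1 h2⟩

theorem BC.trs_comm {X : Type} (c : BC X) (A B : Set X) : c.trs A B = c.trs B A := by
  ext p
  exact ⟨fun ⟨s, t, h, e⟩ => ⟨s, t, h.comm, e⟩, fun ⟨s, t, h, e⟩ => ⟨s, t, h.comm, e⟩⟩

theorem BC.Tr.left {X : Type} {c : BC X} {A B : Set X} {s t : ℝ} (h : c.Tr A B s t) :
    c.π s ∈ A ∪ B := h.2.2.2.1.elim (fun h => Or.inl h.1) fun h => Or.inr h.1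

theorem BC.Tr.right {X : Type} {c : BC X} {A B : Set X} {s t : ℝ} (h : c.Tr A B s t) :
    c.π t ∈ A ∪ B := h.2.2.2.1.elim (fun h => Or.inr h.2) fun h => Or.inl h.2

theorem BC.Tr.le_of_mem {X : Type} {c : BC X} {A B : Set X} {s t : ℝ} (h : c.Tr A B s t)
    {u : ℝ} (hu : u ∈ c.K) (hAB : c.π u ∈ A ∪ B) (hsu : s < u) : t ≤ u := by
  by_contra h'
  exact h.2.2.2.2 u hu hsu (not_le.1 h') hAB

theorem BC.Tr.le_of_mem' {X : Type} {c : BC X} {A B : Set X} {s t : ℝ} (h : c.Tr A B s t)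
    {u : ℝ} (hu : u ∈ c.K) (hAB : c.π u ∈ A ∪ B) (hut : u < t) : u ≤ s := by
  by_contra h'
  exact h.2.2.2.2 u hu (not_le.1 h') hut hAB

theorem BC.Ext.P_sub {X : Type} {c c' : BC X} (h : c.Ext c') : c'.P ⊆ c.P := by
  rintro x (hx | hx)
  · rw [h.In] at hx
    exact Or.inl hx.1
  · exact h.img hx

theorem Red.mem {X : Type} {C Q : BC X → Prop} {c : BC X} (h : Red C Q c) : C c := by
  cases h <;> assumption

namespace Str
variable {X : Type} [MetricSpace X] [CompactSpace X] [ConnectedSpace X] [Nontrivial X]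
  {S : Str X} {L : Set (X × X)} {c : BC X} {y : X} {A B : Set X}

/-- the class of all cells -/
def CellC (S : Str X) (c : BC X) : Prop := ∃ y L, S.Cell L y c

/-- `L'` keeps all chords of `L` with both ends in `A` or both ends in `B` -/
def Keeps (A B : Set X) (L L' : Set (X × X)) : Prop :=
  ∀ e ∈ L, (e.1 ∈ A ∧ e.2 ∈ A) ∨ (e.1 ∈ B ∧ e.2 ∈ B) → e ∈ L'

theorem IsScc.band_add (h : S.IsScc L c) {u : ℝ} (hu : u ∈ c.K) :
    u + c.per ∈ c.K ∧ c.π (u + c.per) = c.π u := ⟨(h.perK u).2 hu, h.perπ u hu⟩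

theorem IsScc.band_sub (h : S.IsScc L c) {u : ℝ} (hu : u ∈ c.K) :
    u - c.per ∈ c.K ∧ c.π (u - c.per) = c.π u := by
  have h1 : u - c.per ∈ c.K := (h.perK _).1 (by rwa [sub_add_cancel])
  refine ⟨h1, ?_⟩
  rw [← h.perπ _ h1, sub_add_cancel]

theorem IsScc.band_ne (h : S.IsScc L c) {u v : ℝ} (hu : u ∈ c.K) (hv : v ∈ c.K) (h1 : u < v)
    (h2 : v < u + c.per) : c.π u ≠ c.π v := fun e => h1.ne (h.inj u hu v hv h1.le h2 e)

theorem IsScc.band_inj (h : S.IsScc L c) {u v : ℝ} (hu : u ∈ c.K) (hv : v ∈ c.K)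
    (h1 : u < v + c.per) (h2 : v < u + c.per) (e : c.π u = c.π v) : u = v := by
  rcases le_total u v with h3 | h3
  · exact h.inj u hu v hv h3 h2 e
  · exact (h.inj v hv u hu h3 h1 e.symm).symm

theorem IsScc.band_compact (h : S.IsScc L c) (a b : ℝ) : IsCompact (c.π '' (c.K ∩ Icc a b)) :=
  (isCompact_Icc.inter_left h.closed).image_of_continuousOn (h.cont.mono inter_subset_left)

theorem IsScc.band_closed_pre (h : S.IsScc L c) (hA : IsClosed A) :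
    IsClosed (c.K ∩ c.π ⁻¹' A) := h.cont.preimage_isClosed_of_isClosed h.closed hA

theorem IsScc.tr_shift (h : S.IsScc L c) {s t : ℝ} (hT : c.Tr A B s t) (n : ℤ) :
    c.Tr A B (s + n * c.per) (t + n * c.per) ∧ c.π (s + n * c.per) = c.π s ∧
      c.π (t + n * c.per) = c.π t := by
  have e1 := (h.mem_add_zsmul (u := s) n).2 hT.1
  have e2 := (h.mem_add_zsmul (u := t) n).2 hT.2.1
  refine ⟨⟨(h.mem_add_zsmul n).1.2 hT.1, (h.mem_add_zsmul n).1.2 hT.2.1,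
    by linarith [hT.2.2.1], by rw [e1, e2]; exact hT.2.2.2.1, fun u hu h1 h2 => ?_⟩, e1, e2⟩
  have h3 := h.mem_add_zsmul (u := u - n * c.per) n
  rw [sub_add_cancel] at h3
  have h4 := h3.1.1 hu
  rw [h3.2 h4]
  exact hT.2.2.2.2 _ h4 (by linarith) (by linarith)

theorem IsScc.tr_lt (h : S.IsScc L c) (hAB : Disjoint A B) {s t : ℝ} (hT : c.Tr A B s t) :
    t < s + c.per := by
  obtain ⟨h1, h2⟩ := h.band_add hT.1
  have h3 := hT.le_of_mem h1 (by rw [h2]; exact hT.left) (by linarith [h.per_pos])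
  refine lt_of_le_of_ne h3 fun e => ?_
  rw [← e] at h2
  rcases hT.2.2.2.1 with h4 | h4
  · exact disjoint_left.1 hAB h4.1 (h2 ▸ h4.2)
  · exact disjoint_left.1 hAB (h2 ▸ h4.2) h4.1

theorem IsScc.tr_norm (h : S.IsScc L c) (a : ℝ) {p : X × X} (hp : p ∈ c.trs A B) :
    ∃ s t, c.Tr A B s t ∧ p = (c.π s, c.π t) ∧ a ≤ s ∧ s < a + c.per := by
  obtain ⟨s, t, hT, rfl⟩ := hp
  obtain ⟨v, -, h1, h2, -, n, rfl⟩ := h.exists_param a hT.1
  obtain ⟨h3, h4, h5⟩ := h.tr_shift hT n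
  exact ⟨_, _, h3, by rw [h4, h5], h1, h2⟩

theorem IsScc.gap_norm (h : S.IsScc L c) (a : ℝ) {p : X × X} (hp : p ∈ c.gs) :
    ∃ s t, Gap c.K s t ∧ p = (c.π s, c.π t) ∧ a ≤ s ∧ s < a + c.per := by
  obtain ⟨s, t, hT, rfl⟩ := hp
  obtain ⟨v, -, h1, h2, -, n, rfl⟩ := h.exists_param a hT.1
  exact ⟨_, _, h.gap_add_zsmul n hT,
    by rw [(h.mem_add_zsmul n).2 hT.1, (h.mem_add_zsmul n).2 hT.2.1], h1, h2⟩

theorem band_sep (hA : IsClosed A) (hB : IsClosed B) (hAB : Disjoint A B) :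
    ∃ r > 0, ∀ x ∈ A, ∀ z ∈ B, r ≤ dist x z := by
  obtain ⟨δ, hδ, hd⟩ := hAB.exists_thickenings hA.isCompact hB
  refine ⟨δ, hδ, fun x hx z hz => ?_⟩
  by_contra hlt
  exact disjoint_left.1 hd (mem_thickening_iff.2 ⟨x, hx, by rw [dist_comm]; exact not_le.1 hlt⟩)
    (self_subset_thickening hδ _ hz)

theorem IsScc.trs_finite (hL : S.Lam L) (h : S.IsScc L c) (hA : IsClosed A) (hB : IsClosed B)
    (hAB : Disjoint A B) : (c.trs A B).Finite := by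
  obtain ⟨r, hr, hsep⟩ := band_sep hA hB hAB
  have hc : IsCompact (c.K ∩ Icc 0 (2 * c.per)) := isCompact_Icc.inter_left h.closed
  have huc := hc.uniformContinuousOn_of_continuous (h.cont.mono inter_subset_left)
  obtain ⟨η, hη, hu⟩ := Metric.uniformContinuousOn_iff.1 huc r hr
  set T : Set (ℝ × ℝ) := {p | c.Tr A B p.1 p.2 ∧ 0 ≤ p.1 ∧ p.1 < c.per} with hT
  have hlong : ∀ p ∈ T, p.1 + η ≤ p.2 := by
    rintro ⟨s, t⟩ ⟨h1, h2, h3⟩
    have h4 := h.tr_lt hAB h1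
    have h5 := h1.2.2.1
    simp only at h1 h2 h3 h4 h5 ⊢
    by_contra hlt
    have h6 := hu s ⟨h1.1, h2, by linarith⟩ t ⟨h1.2.1, by linarith, by linarith⟩
      (by rw [Real.dist_eq, abs_lt]; constructor <;> linarith)
    rcases h1.2.2.2.1 with h7 | h7
    · exact absurd (hsep _ h7.1 _ h7.2) (not_le.2 h6)
    · rw [dist_comm] at h6
      exact absurd (hsep _ h7.2 _ h7.1) (not_le.2 h6)
  have hfar : ∀ p ∈ T, ∀ q ∈ T, p.1 < q.1 → ⌊p.1 / η⌋ < ⌊q.1 / η⌋ := by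
    intro p hp q hq hlt
    have h1 := hp.1.le_of_mem hq.1.1 hq.1.left hlt
    have h2 := hlong p hp
    have h3 : p.1 / η + 1 ≤ q.1 / η := by
      rw [div_add_one hη.ne']
      gcongr
      linarith
    have h4 := Int.floor_mono h3
    rw [Int.floor_add_one] at h4
    omega
  have hTf : T.Finite := by
    refine Finite.of_finite_image (f := fun p => ⌊p.1 / η⌋)
      ((Set.finite_Icc (0 : ℤ) ⌊c.per / η⌋).subset ?_) ?_
    · rintro _ ⟨p, hp, rfl⟩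
      exact ⟨Int.floor_nonneg.2 (div_nonneg hp.2.1 hη.le),
        Int.floor_mono (by gcongr; exact hp.2.2.le)⟩
    · intro p hp q hq e
      have e1 : p.1 = q.1 := by
        rcases lt_trichotomy p.1 q.1 with h1 | h1 | h1
        · exact absurd e (hfar p hp q hq h1).ne
        · exact h1
        · exact absurd e (hfar q hq p hp h1).ne'
      refine Prod.ext e1 (le_antisymm ?_ ?_)
      · exact hp.1.le_of_mem hq.1.2.1 hq.1.right (e1 ▸ hq.1.2.2.1)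
      · exact hq.1.le_of_mem hp.1.2.1 hp.1.right (e1 ▸ hp.1.2.2.1)
  refine (hTf.image fun p => (c.π p.1, c.π p.2)).subset fun p hp => ?_
  obtain ⟨s, t, h1, rfl, h2, h3⟩ := h.tr_norm 0 hp
  exact ⟨(s, t), ⟨h1, h2, by simpa using h3⟩, rfl⟩

theorem IsScc.exists_tr (h : S.IsScc L c) (hA : IsClosed A) (hB : IsClosed B)
    (hAB : Disjoint A B) (ha : (c.img ∩ A).Nonempty) (hb : (c.img ∩ B).Nonempty) :
    ∃ s t, c.Tr A B s t := by
  obtain ⟨_, ⟨a, haK, rfl⟩, haA⟩ := ha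
  obtain ⟨_, ⟨b0, hbK0, rfl⟩, hbB0⟩ := hb
  obtain ⟨b, hbK, hab, -, e, -⟩ := h.exists_param a hbK0
  have hbB : c.π b ∈ B := e ▸ hbB0
  obtain ⟨⟨hsK, hsA⟩, hsb, hs⟩ := lo_spec (h.band_closed_pre hA) (s := b) ⟨a, ⟨haK, haA⟩, hab⟩
  set s := lo (c.K ∩ c.π ⁻¹' A) b
  obtain ⟨⟨htK, htB⟩, hst, ht⟩ := hi_spec (h.band_closed_pre hB) (s := s) ⟨b, ⟨hbK, hbB⟩, hsb⟩
  set t := hi (c.K ∩ c.π ⁻¹' B) s
  have htb : t ≤ b := ht b ⟨hbK, hbB⟩ hsb
  refine ⟨s, t, hsK, htK, lt_of_le_of_ne hst fun e => ?_, Or.inl ⟨hsA, htB⟩, fun u hu h1 h2 => ?_⟩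
  · exact disjoint_left.1 hAB hsA (by rw [e]; exact htB)
  · rintro (h3 | h3)
    · exact absurd (hs u ⟨hu, h3⟩ (by linarith)) (not_le.2 h1)
    · exact absurd (ht u ⟨hu, h3⟩ h1.le) (not_le.2 h2)

/-- transitions of a piece that agrees with `c` on `[s1, s2]` and is closed up by an arc avoiding
the two sets -/
theorem trs_core {L1 : Set (X × X)} {c1 : BC X} (h1 : S.IsScc L1 c1) {s1 s2 t0 s0 : ℝ}
    (hper : c1.per = s2 - s1 + 1) (hK : ∀ u ∈ Icc s1 s2, u ∈ c1.K ↔ u ∈ c.K)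
    (hπ : ∀ u ∈ Icc s1 s2, u ∈ c.K → c1.π u = c.π u)
    (harc : ∀ u ∈ c1.K, s2 < u → u < s2 + 1 → c1.π u ∉ A ∪ B)
    (ht0 : t0 ∈ c.K) (hs0 : s0 ∈ c.K) (l1 : s1 ≤ t0) (l2 : t0 ≤ s0) (l3 : s0 ≤ s2)
    (ht0' : c.π t0 ∈ A ∪ B) (hs0' : c.π s0 ∈ A ∪ B)
    (hlow : ∀ u ∈ c.K, s1 ≤ u → u < t0 → c.π u ∉ A ∪ B)
    (hup : ∀ u ∈ c.K, s0 < u → u ≤ s2 → c.π u ∉ A ∪ B) {p : X × X} (hp : p ∈ c1.trs A B) :
    (∃ s t, c.Tr A B s t ∧ p = (c.π s, c.π t) ∧ t0 ≤ s ∧ t ≤ s0) ∨ p = (c.π s0, c.π t0) := by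
  obtain ⟨s, t, hT, rfl, a1, a2⟩ := h1.tr_norm s1 hp
  have key : ∀ u ∈ c1.K, c1.π u ∈ A ∪ B → s1 ≤ u → u < s2 + 1 →
      u ∈ c.K ∧ c1.π u = c.π u ∧ t0 ≤ u ∧ u ≤ s0 := by
    intro u hu hAB b1 b2
    have b3 : u ≤ s2 := by
      by_contra b4
      exact harc u hu (not_le.1 b4) b2 hAB
    have b4 := (hK u ⟨b1, b3⟩).1 hu
    have b5 := hπ u ⟨b1, b3⟩ b4
    rw [b5] at hAB
    refine ⟨b4, b5, ?_, ?_⟩
    · by_contra b6
      exact hlow u b4 b1 (not_le.1 b6) hAB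
    · by_contra b6
      exact hup u b4 (not_le.1 b6) b3 hAB
  obtain ⟨b1, b2, b3, b4⟩ := key s hT.1 hT.left a1 (by linarith)
  have hs0I : s0 ∈ Icc s1 s2 := ⟨by linarith, l3⟩
  have ht0I : t0 ∈ Icc s1 s2 := ⟨l1, by linarith⟩
  rcases b4.lt_or_eq with b5 | b5
  · left
    have c1' : t ≤ s0 := hT.le_of_mem ((hK s0 hs0I).2 hs0) (by rw [hπ s0 hs0I hs0]; exact hs0') b5
    obtain ⟨d1, d2, -, -⟩ := key t hT.2.1 hT.right (by linarith [hT.2.2.1]) (by linarith)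
    refine ⟨s, t, ⟨b1, d1, hT.2.2.1, by rw [← b2, ← d2]; exact hT.2.2.2.1, fun u hu e1 e2 => ?_⟩,
      by rw [b2, d2], b3, c1'⟩
    have huI : u ∈ Icc s1 s2 := ⟨by linarith, by linarith⟩
    rw [← hπ u huI hu]
    exact hT.2.2.2.2 u ((hK u huI).2 hu) e1 e2
  · right
    obtain ⟨d1, d2⟩ := h1.band_add ((hK t0 ht0I).2 ht0)
    rw [hπ t0 ht0I ht0] at d2
    have d3 : t ≤ t0 + c1.per := hT.le_of_mem d1 (by rw [d2]; exact ht0') (by linarith)
    have d4 : s2 + 1 ≤ t := by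
      by_contra d5
      have := key t hT.2.1 hT.right (by linarith [hT.2.2.1]) (not_le.1 d5)
      linarith [hT.2.2.1, this.2.2.2]
    obtain ⟨e1, e2⟩ := h1.band_sub hT.2.1
    obtain ⟨-, -, f3, -⟩ := key _ e1 (by rw [e2]; exact hT.right) (by linarith) (by linarith)
    have e3 : t = t0 + c1.per := by linarith
    rw [b2, b5, e3, d2]

theorem trs_lt (hL : S.Lam L) (h : S.IsScc L c) (hA : IsClosed A) (hB : IsClosed B)
    (hAB : Disjoint A B) {L1 : Set (X × X)} {c1 : BC X} (h1 : S.IsScc L1 c1)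
    {s t s' t' s1 s2 : ℝ} (hT : c.Tr A B s t) (hT' : c.Tr A B s' t') (l1 : s < s1) (l2 : s1 < t)
    (l3 : t ≤ s') (l4 : s' < s2) (l5 : s2 < t') (l6 : t' ≤ s + c.per)
    (hper : c1.per = s2 - s1 + 1) (hK : ∀ u ∈ Icc s1 s2, u ∈ c1.K ↔ u ∈ c.K)
    (hπ : ∀ u ∈ Icc s1 s2, u ∈ c.K → c1.π u = c.π u)
    (harc : ∀ u ∈ c1.K, s2 < u → u < s2 + 1 → c1.π u ∉ A ∪ B) :
    (c1.trs A B).ncard < (c.trs A B).ncard := by
  have hfin := h.trs_finite hL hA hB hAB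
  have hm : (c.π s, c.π t) ∈ c.trs A B := ⟨s, t, hT, rfl⟩
  have hm' : (c.π s', c.π t') ∈ c.trs A B \ {(c.π s, c.π t)} :=
    ⟨⟨s', t', hT', rfl⟩, fun e => h.band_ne hT.1 hT'.1 (by linarith) (by linarith)
      (congrArg Prod.fst e).symm⟩
  have hsub : c1.trs A B ⊆ insert (c.π s', c.π t)
      ((c.trs A B \ {(c.π s, c.π t)}) \ {(c.π s', c.π t')}) := by
    intro p hp
    rcases trs_core h1 hper hK hπ harc hT.2.1 hT'.1 l2.le l3 l4.le hT.right hT'.left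
      (fun u hu e1 e2 => hT.2.2.2.2 u hu (by linarith) e2)
      (fun u hu e1 e2 => hT'.2.2.2.2 u hu e1 (by linarith)) hp with ⟨a, b, hab, rfl, e1, e2⟩ | e
    · have := hab.2.2.1
      refine Or.inr ⟨⟨⟨a, b, hab, rfl⟩, fun e => ?_⟩, fun e => ?_⟩
      · exact h.band_ne hT.1 hab.1 (by linarith) (by linarith) (congrArg Prod.fst e).symm
      · exact h.band_ne hab.1 hT'.1 (by linarith) (by linarith) (congrArg Prod.fst e)
    · exact Or.inl e
  have f1 : (c.trs A B \ {(c.π s, c.π t)}).Finite := hfin.subset sdiff_subset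
  have f2 : ((c.trs A B \ {(c.π s, c.π t)}) \ {(c.π s', c.π t')}).Finite := f1.subset sdiff_subset
  have n1 := ncard_le_ncard hsub (f2.insert _)
  have n2 := ncard_insert_le (c.π s', c.π t) ((c.trs A B \ {(c.π s, c.π t)}) \ {(c.π s', c.π t')})
  have n3 := ncard_sdiff_singleton_add_one hm hfin
  have n4 := ncard_sdiff_singleton_add_one hm' f1
  omega

/-- the arc of a cut seen from the second piece -/
theorem cut_arc2 {L2 : Set (X × X)} {c1 c2 : BC X} {s1 s2 : ℝ} (hc : c.Cut s1 s2 c1 c2)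
    (h2 : S.IsScc L2 c2) {u : ℝ} (hu : u ∈ c2.K) (l1 : s1 + c.per < u) (l2 : u < s1 + c.per + 1) :
    ∃ v ∈ Ioo (0 : ℝ) 1, s2 + v ∈ c1.K ∧ c1.π (s2 + v) = c2.π u := by
  obtain ⟨e1, e2⟩ := h2.band_sub hu
  have hv : s1 + c.per + 1 - u ∈ Ioo (0 : ℝ) 1 := ⟨by linarith, by linarith⟩
  have e3 : s2 - (s1 + c.per + 1 - u) = u - c2.per := by rw [hc.per2]; ring
  have e4 := (hc.KA _ hv).2 (by rw [e3]; exact e1)
  exact ⟨_, hv, e4, by rw [hc.πA _ hv e4, e3, e2]⟩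

theorem cut_img1 {L1 : Set (X × X)} {c1 c2 : BC X} {s1 s2 : ℝ} (hc : c.Cut s1 s2 c1 c2)
    (h1 : S.IsScc L1 c1) {x : X} (hx : x ∈ c1.img) :
    (∃ u ∈ c.K, s1 ≤ u ∧ u ≤ s2 ∧ c.π u = x) ∨
      ∃ v ∈ Ioo (0 : ℝ) 1, s2 + v ∈ c1.K ∧ c1.π (s2 + v) = x := by
  obtain ⟨u0, hu0, rfl⟩ := hx
  obtain ⟨u, hu, l1, l2, e, -⟩ := h1.exists_param s1 hu0
  rw [hc.per1] at l2
  rcases le_or_gt u s2 with l3 | l3
  · have h3 := (hc.K1 u ⟨l1, l3⟩).1 hu
    exact Or.inl ⟨u, h3, l1, l3, by rw [← hc.π1 u ⟨l1, l3⟩ h3, e]⟩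
  · refine Or.inr ⟨u - s2, ⟨by linarith, by linarith⟩, ?_⟩
    rw [add_sub_cancel]
    exact ⟨hu, e⟩

theorem cut_img2 {L2 : Set (X × X)} {c1 c2 : BC X} {s1 s2 : ℝ} (hc : c.Cut s1 s2 c1 c2)
    (h2 : S.IsScc L2 c2) {x : X} (hx : x ∈ c2.img) :
    (∃ u ∈ c.K, s2 ≤ u ∧ u ≤ s1 + c.per ∧ c.π u = x) ∨
      ∃ v ∈ Ioo (0 : ℝ) 1, s2 + v ∈ c1.K ∧ c1.π (s2 + v) = x := by
  obtain ⟨u0, hu0, rfl⟩ := hx
  obtain ⟨u, hu, l1, l2, e, -⟩ := h2.exists_param s2 hu0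
  rw [hc.per2] at l2
  rcases le_or_gt u (s1 + c.per) with l3 | l3
  · have h3 := (hc.K2 u ⟨l1, l3⟩).1 hu
    exact Or.inl ⟨u, h3, l1, l3, by rw [← hc.π2 u ⟨l1, l3⟩ h3, e]⟩
  · obtain ⟨v, hv, h4, h5⟩ := cut_arc2 hc h2 hu l3 (by linarith)
    exact Or.inr ⟨v, hv, h4, h5.trans e⟩

theorem cut_P_sub {c1 c2 : BC X} {s1 s2 : ℝ} (hc : c.Cut s1 s2 c1 c2) (h1 : S.CellC c1)
    (h2 : S.CellC c2) : c1.P ⊆ c.P ∧ c2.P ⊆ c.P := by
  obtain ⟨y1, L1, h1⟩ := h1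
  obtain ⟨y2, L2, h2⟩ := h2
  constructor
  · rintro x (hx | hx)
    · exact Or.inl (hc.In1 hx)
    · rcases cut_img1 hc h1.scc hx with ⟨u, hu, -, -, rfl⟩ | ⟨v, hv, h3, rfl⟩
      · exact Or.inr ⟨u, hu, rfl⟩
      · exact Or.inl (hc.memA v hv h3)
  · rintro x (hx | hx)
    · exact Or.inl (hc.In2 hx)
    · rcases cut_img2 hc h2.scc hx with ⟨u, hu, -, -, rfl⟩ | ⟨v, hv, h3, rfl⟩
      · exact Or.inr ⟨u, hu, rfl⟩
      · exact Or.inl (hc.memA v hv h3)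

theorem red_bind {Q Q' : BC X → Prop} (h : Red S.CellC Q c) :
    (∀ c', S.CellC c' → Q c' → c'.P ⊆ c.P → Red S.CellC Q' c') → Red S.CellC Q' c := by
  induction h with
  | base c hC hQ => exact fun H => H c hC hQ Subset.rfl
  | ext c c' hC hE _ ih =>
    exact fun H => Red.ext c c' hC hE (ih fun c'' a b d => H c'' a b (d.trans hE.P_sub))
  | cut c s1 s2 c1 c2 hC hcut r1 r2 ih1 ih2 =>
    intro H
    obtain ⟨p1, p2⟩ := cut_P_sub hcut r1.mem r2.mem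
    exact Red.cut c s1 s2 c1 c2 hC hcut (ih1 fun c'' a b d => H c'' a b (d.trans p1))
      (ih2 fun c'' a b d => H c'' a b (d.trans p2))

/-- without gaps the whole interval consists of parameters -/
theorem IsScc.icc_sub (h : S.IsScc L c) {s t : ℝ} (hs : s ∈ c.K) (ht : t ∈ c.K)
    (hno : ¬ ∃ a b, Gap c.K a b ∧ s ≤ a ∧ b ≤ t) : Icc s t ⊆ c.K := by
  intro u hu
  by_contra hn
  have h1 : ∃ v ∈ c.K, v ≤ u := ⟨s, hs, hu.1⟩
  have h2 : ∃ v ∈ c.K, u ≤ v := ⟨t, ht, hu.2⟩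
  exact hno ⟨_, _, gap_lo_hi h.closed h1 h2 hn, (lo_spec h.closed h1).2.2 s hs hu.1,
    (hi_spec h.closed h2).2.2 t ht hu.2⟩

theorem Sided.gap_ne (h : S.Sided L y c) (hne : c.In.Nonempty) {d : X × X} (hd : d ∈ c.gs) :
    d.1 ≠ d.2 := by
  obtain ⟨a, b, hg, rfl⟩ := hd
  rcases (h.scc.gap_le hg).lt_or_eq with h1 | h1
  · exact h.scc.band_ne hg.1 hg.2.1 hg.2.2.1 h1
  · obtain ⟨_, ⟨u0, hu0, rfl⟩, h2, -⟩ := h.three hne (c.π a) (c.π a)
    obtain ⟨u, hu, l1, l2, e, -⟩ := h.scc.exists_param a hu0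
    rcases hg.2.2.2 u hu with h3 | h3
    · exact absurd (by rw [← e, le_antisymm h3 l1]) h2
    · linarith

theorem Sided.band_disj (h : S.Sided L y c) {x : X} (hx : x ∈ c.In) : x ∉ c.img :=
  disjoint_left.1 h.wf.disj hx

end Str

end Pool.Agent.Lib.MP_9e71a3_gt
end

-- part Pool.Agent.Lib.MP_9e71a3_gt.BandB
section

/-! Trimming an honest transition.  JOB Band (part B). -/

set_option autoImplicit false
set_option linter.unusedSectionVars false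

namespace Pool.Agent.Lib.MP_9e71a3_gt

open Set Metric Filter Topology

namespace Str
variable {X : Type} [MetricSpace X] [CompactSpace X] [ConnectedSpace X] [Nontrivial X]
  {S : Str X} {L : Set (X × X)} {c : BC X} {y : X} {A B : Set X}

theorem band_free_symm {D : Set (X × X)} {a b : X} (h : S.Free D a b) : S.Free D b a :=
  fun d hd hc => h d hd hc.swapR

theorem band_free_self (D : Set (X × X)) (a : X) : S.Free D a a := fun _ _ hc => hc.ne34 rfl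

theorem band_insW_symm {a b : X} (hab : S.Chord a b) (h : S.InsW c a b) : S.InsW c b a := by
  obtain ⟨w, hw, h1, h2, h3⟩ := h
  exact ⟨w, hw, h1.trans hab, h3, h2⟩

theorem band_insW_self {a b : X} (ha : a ∈ c.In) (hab : S.Chord a b) (h : S.Free c.gs a b) :
    S.InsW c a b := ⟨a, ha, Ord3.Chord.refl hab.1, band_free_self _ _, h⟩

theorem band_recomb {D : Set (X × X)} {a b p q : X} (h : S.Cross a b p q) (h1 : S.Free D a b)
    (h2 : S.Free D p q) : S.Free D a p := fun d hd => h.recomb S.good (h1 d hd) (h2 d hd)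

theorem Cell.band_free (h : S.Cell L y c) {e : X × X} (he : e ∈ L)
    (hin : e.1 ∈ c.In ∨ e.2 ∈ c.In) : S.Free c.gs e.1 e.2 := by
  rcases hin with h1 | h1
  · exact h.inv e he h1
  · exact band_free_symm (h.inv e.swap (h.lam.symm e he) h1)

theorem Cell.band_memP (h : S.Cell L y c) {e : X × X} (he : e ∈ L)
    (hin : e.1 ∈ c.In ∨ e.2 ∈ c.In) : e.1 ∈ c.P ∧ e.2 ∈ c.P := by
  have hf := h.band_free he hin
  have hch := h.lam.chord e he
  rcases hin with h1 | h1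
  · exact ⟨Or.inl h1, h.mem_P_of_free h1 hch hf⟩
  · exact ⟨h.mem_P_of_free h1 hch.symm (band_free_symm hf), Or.inl h1⟩

theorem chord_conn {s1 s2 : ℝ} (h1 : s1 ∈ c.K) (h2 : s2 ∈ c.K)
    (pt1 : ∃ u ∈ c.K, s1 < u ∧ u < s2) (pt2 : ∃ u ∈ c.K, s2 < u ∧ u < s1 + c.per)
    (hch : S.Chord (c.π s1) (c.π s2)) (hf : S.Free c.gs (c.π s1) (c.π s2))
    (hi : S.InsW c (c.π s1) (c.π s2)) :
    S.Conn L c s1 s2 ∅ c.π {(c.π s1, c.π s2)} := by
  have a1 : c.anchor s1 = (c.π s1, c.π s1) := by simp [BC.anchor, lo_of_mem h1, hi_of_mem h1]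
  have a2 : c.anchor s2 = (c.π s2, c.π s2) := by simp [BC.anchor, lo_of_mem h2, hi_of_mem h2]
  have hg : ∀ a b, Gap (∅ ∪ {0, 1}) a b → a = 0 ∧ b = 1 := by
    rintro a b ⟨ha, hb, hab, -⟩
    simp only [empty_union, mem_insert_iff, mem_singleton_iff] at ha hb
    rcases ha with rfl | rfl <;> rcases hb with rfl | rfl <;> first | exact ⟨rfl, rfl⟩ | linarith
  have hp : IsPath {(c.π s1, c.π s2)} (∅ ∪ {0, 1}) (ext01 (c.π s1) (c.π s2) c.π) 0 1 := by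
    have hfin : (∅ ∪ {0, 1} : Set ℝ).Finite := by simp
    refine ⟨hfin.isCompact, by simp, by simp, ?_, hfin.continuousOn _, fun a b hab => ?_⟩
    · rintro u (hu | rfl | rfl)
      · exact hu.elim
      · simp
      · simp
    · obtain ⟨rfl, rfl⟩ := hg a b hab
      right
      simp [ext01]
  have hn : S.NC (gaps (∅ ∪ {0, 1}) (ext01 (c.π s1) (c.π s2) c.π)) := by
    rintro _ ⟨a, b, hab, rfl⟩ _ ⟨a', b', hab', rfl⟩ hx
    obtain ⟨rfl, -⟩ := hg a b hab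
    obtain ⟨rfl, -⟩ := hg a' b' hab'
    exact hx.ne13 rfl
  refine ⟨pt1, pt2, empty_subset _, mapsTo_empty _ _, injOn_empty _, ?_, ?_, ?_, ?_,
    ⟨?_, (finite_singleton _).subset sdiff_subset⟩, ?_, ?_⟩
  · rw [a1, a2]; exact hp
  · rw [a1, a2]; exact hp
  · rw [a1, a2]; exact hn
  · rw [a1, a2]; exact hn
  · rintro _ rfl; exact hch
  · rintro _ rfl; exact hf
  · rintro _ rfl; exact hi

theorem IsScc.off_window (hc : S.IsScc L c) {s t : ℝ} {x : X} (hx : x ∈ c.img)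
    (hY : x ∉ c.π '' (c.K ∩ Icc t (s + c.per))) : ∃ u ∈ c.K, s < u ∧ u < t ∧ c.π u = x := by
  obtain ⟨u0, hu0, rfl⟩ := hx
  obtain ⟨u, hu, l1, l2, e, -⟩ := hc.exists_param t hu0
  rcases le_or_gt u (s + c.per) with l3 | l3
  · exact absurd ⟨u, ⟨hu, l1, l3⟩, e⟩ hY
  · obtain ⟨e1, e2⟩ := hc.band_sub hu
    exact ⟨_, e1, by linarith, by linarith, e2.trans e⟩

theorem IsScc.window_not_mem (hc : S.IsScc L c) {s t u : ℝ} (hu : u ∈ c.K) (l1 : s < u)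
    (l2 : u < t) : c.π u ∉ c.π '' (c.K ∩ Icc t (s + c.per)) := by
  rintro ⟨v, ⟨hv, m1, m2⟩, e⟩
  exact hc.band_ne hu hv (by linarith) (by linarith) e.symm

theorem trim_cut (h : S.Cell L y c) (hAB : Disjoint A B) {s t : ℝ} (hT : c.Tr A B s t)
    (hhon : Icc s t ⊆ c.K) (hno : ∀ u, s < u → u < t → c.π u ∉ closure c.In) {s1 s2 : ℝ}
    (l1 : s < s1) (l2 : s1 < s2) (l3 : s2 < t) (hch : S.Chord (c.π s1) (c.π s2))
    (hf : S.Free c.gs (c.π s1) (c.π s2)) (hi : S.InsW c (c.π s1) (c.π s2)) :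
    ∃ L' s1 s2 c1 c2, Keeps A B L L' ∧ S.Cell L' y c1 ∧ S.Cell L' y c2 ∧ c.Cut s1 s2 c1 c2 ∧
      c1.In = ∅ ∧ c2.trs A B ⊆ c.trs A B ∧
      ∃ s' t' a b, c2.Tr A B s' t' ∧ Gap c2.K a b ∧ s' ≤ a ∧ b ≤ t' := by
  have hL := h.lam
  have hc := h.scc
  have htl := hc.tr_lt hAB hT
  have hper := hc.per_pos
  have k1 : s1 ∈ c.K := hhon ⟨by linarith, by linarith⟩
  have k2 : s2 ∈ c.K := hhon ⟨by linarith, by linarith⟩
  have km : (s1 + s2) / 2 ∈ c.K := hhon ⟨by linarith, by linarith⟩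
  obtain ⟨c1, c2, h1, h2, hcut, hgs, hK, -⟩ := h.toSided.cut (chord_conn k1 k2
    ⟨_, km, by linarith, by linarith⟩ ⟨t, hT.2.1, l3, by linarith⟩ hch hf hi)
  have hno1 : ∀ v ∈ Ioo (0 : ℝ) 1, s2 + v ∉ c1.K := fun v hv hm => ((hK v hv).1.1 hm).elim
  have himg1 : ∀ x ∈ c1.img, ∃ u, s < u ∧ u < t ∧ c.π u = x := by
    intro x hx
    rcases cut_img1 hcut h1.scc hx with ⟨u, -, m1, m2, e⟩ | ⟨v, hv, m, -⟩
    · exact ⟨u, by linarith, by linarith, e⟩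
    · exact (hno1 v hv m).elim
  have hIn1 : c1.In = ∅ := by
    have hcl : IsClosed c1.In := by
      refine closure_subset_iff_isClosed.1 fun x hx => ?_
      rcases h1.wf.closedP.closure_subset (closure_mono subset_union_left hx) with h3 | h3
      · exact h3
      · obtain ⟨u, m1, m2, rfl⟩ := himg1 x h3
        exact absurd (closure_mono hcut.In1 hx) (hno u m1 m2)
    rcases isClopen_iff.1 ⟨hcl, h1.isOpen_In⟩ with h3 | h3
    · exact h3
    · exact absurd (Or.inl (h3 ▸ mem_univ y)) h1.out_P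
  set E : Set (X × X) :=
    {e | (e.1 ∈ c.In ∨ e.2 ∈ c.In) ∧ S.Cross (c.π s1) (c.π s2) e.1 e.2} with hE
  have hEf : (L \ (L \ E)).Finite := by
    obtain ⟨ρ1, p1, b1⟩ := Metric.isOpen_iff.1 isClosed_closure.isOpen_compl _
      (hno s1 l1 (by linarith))
    obtain ⟨ρ2, p2, b2⟩ := Metric.isOpen_iff.1 isClosed_closure.isOpen_compl _
      (hno s2 (by linarith) l3)
    refine ((hL.tame Subset.rfl).x2 hL (c.π s1) (c.π s2) (lt_min p1 p2)).subset fun e he => ?_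
    have h3 : e ∈ E := by
      by_contra h4
      exact he.2 ⟨he.1, h4⟩
    refine ⟨he.1, h3.2, fun h4 => ?_, fun h4 => ?_⟩
    · rcases h3.1 with h5 | h5
      · exact b1 (ball_subset_ball (min_le_left _ _) h4.1) (subset_closure h5)
      · exact b1 (ball_subset_ball (min_le_left _ _) h4.2) (subset_closure h5)
    · rcases h3.1 with h5 | h5
      · exact b2 (ball_subset_ball (min_le_right _ _) h4.1) (subset_closure h5)
      · exact b2 (ball_subset_ball (min_le_right _ _) h4.2) (subset_closure h5)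
  have hL' : S.Lam (L \ E) := hL.sub sdiff_subset
    (fun e he => ⟨hL.symm e he.1, fun h3 => he.2 ⟨h3.1.symm, h3.2.swapR⟩⟩) hEf
  have I1 : s1 ∈ Icc s1 s2 := ⟨le_rfl, l2.le⟩
  have I2 : s2 ∈ Icc s1 s2 := ⟨l2.le, le_rfl⟩
  have Im : (s1 + s2) / 2 ∈ Icc s1 s2 := ⟨by linarith, by linarith⟩
  have hd : (c.π s2, c.π s1) ∈ c1.gs := by
    obtain ⟨e1, e2⟩ := h1.scc.band_add ((hcut.K1 s1 I1).2 k1)
    have e3 : s1 + c1.per = s2 + 1 := by rw [hcut.per1]; ring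
    rw [e3] at e1 e2
    refine ⟨s2, s2 + 1, ⟨(hcut.K1 s2 I2).2 k2, e1, by linarith, fun u hu => ?_⟩,
      by rw [e2, hcut.π1 s1 I1 k1, hcut.π1 s2 I2 k2]⟩
    by_contra h3
    push Not at h3
    exact hno1 (u - s2) ⟨by linarith, by linarith⟩ (by rwa [add_sub_cancel])
  have hunp : ∀ e ∈ L, e ∈ E → e.1 ∈ c1.img ∨ e.2 ∈ c1.img := by
    intro e he heE
    by_contra h3
    push Not at h3
    have hfree := h.band_free he heE.1
    have v1 := h1.scc.val_one hL h3.1 h3.2 hd heE.2.swapL (fun f hf hx => by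
        rcases hgs f (Or.inl hf) with h4 | h4 | h4 | h4
        · exact absurd hx (hfree f h4)
        · exact Or.inr h4
        · exact Or.inl (by rw [← Prod.swap_swap f, h4]; rfl)
        · exact absurd h4 hx.ne12)
      ⟨c.π ((s1 + s2) / 2), ⟨_, (hcut.K1 _ Im).2 km, hcut.π1 _ Im km⟩,
        hc.band_ne km k2 (by linarith) (by linarith),
        (hc.band_ne k1 km (by linarith) (by linarith)).symm⟩
    have v0 : ∀ x ∉ c1.img, S.val c1 x y = 0 := fun x hx => by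
      rcases z2_cases (S.val c1 x y) with h4 | h4
      · exact h4
      · have : x ∈ c1.In := by rw [h1.In_eq]; exact ⟨hx, h4⟩
        rw [hIn1] at this
        exact this.elim
    rw [h1.scc.val_cocycle hL h3.1 h1.out h3.2, v0 _ h3.1, val_comm, v0 _ h3.2] at v1
    exact absurd v1 (by decide)
  have J1 : t ∈ Icc s2 (s1 + c.per) := ⟨l3.le, by linarith⟩
  have J2 : s + c.per ∈ Icc s2 (s1 + c.per) := ⟨by linarith, by linarith⟩
  have J3 : s2 ∈ Icc s2 (s1 + c.per) := ⟨le_rfl, by linarith⟩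
  have J4 : s1 + c.per ∈ Icc s2 (s1 + c.per) := ⟨by linarith, le_rfl⟩
  obtain ⟨sp1, sp2⟩ := hc.band_add hT.1
  have hno2 : ∀ u ∈ c2.K, s1 + c.per < u → u < s1 + c.per + 1 → False := fun u hu m1 m2 => by
    obtain ⟨v, hv, m, -⟩ := cut_arc2 hcut h2.scc hu m1 m2
    exact hno1 v hv m
  have hup : ∀ u ∈ c.K, s + c.per < u → u ≤ s1 + c.per → c.π u ∉ A ∪ B := fun u hu m1 m2 => by
    obtain ⟨e1, e2⟩ := hc.band_sub hu
    rw [← e2]
    exact hT.2.2.2.2 _ e1 (by linarith) (by linarith)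
  refine ⟨L \ E, s1, s2, c1, c2, fun e he hab => ⟨he, fun heE => ?_⟩,
    ⟨h1.of_sub hL' hEf, fun e _ h3 => by rw [hIn1] at h3; exact h3.elim⟩,
    ⟨h2.of_sub hL' hEf, fun e he h3 f hf hx => ?_⟩, hcut, hIn1, fun p hp => ?_, ?_⟩
  · have h3 : ∀ x ∈ c1.img, x ∉ A ∪ B := fun x hx => by
      obtain ⟨u, m1, m2, rfl⟩ := himg1 x hx
      exact hT.2.2.2.2 u (hhon ⟨m1.le, m2.le⟩) m1 m2
    rcases hunp e he heE with h4 | h4
    · exact h3 _ h4 (hab.elim (fun h => Or.inl h.1) fun h => Or.inr h.1)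
    · exact h3 _ h4 (hab.elim (fun h => Or.inl h.2) fun h => Or.inr h.2)
  · have h4 := hcut.In2 h3
    rcases hgs f (Or.inr hf) with h5 | h5 | h5 | h5
    · exact h.inv e he.1 h4 f h5 hx
    · rw [h5] at hx
      exact he.2 ⟨Or.inl h4, hx⟩
    · have h6 : f = (c.π s2, c.π s1) := by rw [← Prod.swap_swap f, h5]; rfl
      rw [h6] at hx
      exact he.2 ⟨Or.inl h4, hx.swapL⟩
    · exact hx.ne12 h5
  · rcases trs_core (c := c) h2.scc (by rw [hcut.per2]) hcut.K2 hcut.π2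
      (fun u hu m1 m2 => (hno2 u hu m1 m2).elim) hT.2.1 sp1 l3.le htl.le (by linarith) hT.right
      (by rw [sp2]; exact hT.left) (fun u hu m1 m2 => hT.2.2.2.2 u hu (by linarith) m2) hup hp
      with ⟨a, b, hab, e, -⟩ | e
    · exact ⟨a, b, hab, e⟩
    · exact ⟨s, t, hT, by rw [e, sp2]⟩
  · obtain ⟨e1, e2⟩ := h2.scc.band_add ((hcut.K2 t J1).2 hT.2.1)
    obtain ⟨e3, -⟩ := h2.scc.band_add ((hcut.K2 s2 J3).2 k2)
    have e4 : s2 + c2.per = s1 + c.per + 1 := by rw [hcut.per2]; ring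
    refine ⟨s + c.per, t + c2.per, s1 + c.per, s1 + c.per + 1,
      ⟨(hcut.K2 _ J2).2 sp1, e1, by linarith, ?_, fun u hu m1 m2 => ?_⟩,
      ⟨(hcut.K2 _ J4).2 (hc.band_add k1).1, e4 ▸ e3, by linarith, fun u hu => ?_⟩,
      by linarith, by linarith⟩
    · rw [e2, hcut.π2 _ J2 sp1, hcut.π2 _ J1 hT.2.1, sp2]
      exact hT.2.2.2.1
    · rcases le_or_gt u (s1 + c.per) with m3 | m3
      · have I : u ∈ Icc s2 (s1 + c.per) := ⟨by linarith, m3⟩
        rw [hcut.π2 u I ((hcut.K2 u I).1 hu)]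
        exact hup u ((hcut.K2 u I).1 hu) m1 m3
      · rcases lt_or_ge u (s1 + c.per + 1) with m4 | m4
        · exact (hno2 u hu m3 m4).elim
        · obtain ⟨f1, f2⟩ := h2.scc.band_sub hu
          have I : u - c2.per ∈ Icc s2 (s1 + c.per) := ⟨by linarith, by linarith⟩
          rw [← f2, hcut.π2 _ I ((hcut.K2 _ I).1 f1)]
          exact hT.2.2.2.2 _ ((hcut.K2 _ I).1 f1) (by linarith) (by linarith)
    · by_contra h3
      push Not at h3
      exact hno2 u hu h3.1 h3.2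

/-- trimming an honest transition that is not approached by interior points -/
theorem Cell.trim (h : S.Cell L y c) (hne : c.In.Nonempty) (hA : IsClosed A)
    (hB : IsClosed B) (hAB : Disjoint A B) {s t : ℝ} (hT : c.Tr A B s t)
    (hhon : Icc s t ⊆ c.K) (hno : ∀ u, s < u → u < t → c.π u ∉ closure c.In) :
    ∃ L' s1 s2 c1 c2, Keeps A B L L' ∧ S.Cell L' y c1 ∧ S.Cell L' y c2 ∧ c.Cut s1 s2 c1 c2 ∧
      c1.In = ∅ ∧ c2.trs A B ⊆ c.trs A B ∧
      ∃ s' t' a b, c2.Tr A B s' t' ∧ Gap c2.K a b ∧ s' ≤ a ∧ b ≤ t' := by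
  classical
  have hL := h.lam
  have hc := h.scc
  have htl := hc.tr_lt hAB hT
  have hst := hT.2.2.1
  obtain ⟨sp1, -⟩ := hc.band_add hT.1
  set Y := c.π '' (c.K ∩ Icc t (s + c.per)) with hY
  have hYc : IsClosed Y := (hc.band_compact _ _).isClosed
  have hYi : Y ⊆ c.img := image_mono inter_subset_left
  have hgap : ∀ d ∈ c.gs, d ∈ gaps (c.K ∩ Icc t (s + c.per)) c.π := by
    intro d hd
    obtain ⟨a, b, hg, rfl, m1, m2⟩ := hc.gap_norm t hd
    refine ⟨a, b, gap_inter_Icc.2 ⟨hg, m1, ?_⟩, rfl⟩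
    rcases hg.2.2.2 _ sp1 with m3 | m3
    · exfalso
      have m4 : a < min b (t + c.per) := lt_min hg.2.2.1 m2
      have m5 := min_le_left b (t + c.per)
      have m6 := min_le_right b (t + c.per)
      have m7 : (a + min b (t + c.per)) / 2 - c.per ∈ c.K := hhon ⟨by linarith, by linarith⟩
      have m8 := (hc.band_add m7).1
      rw [sub_add_cancel] at m8
      rcases hg.2.2.2 _ m8 with m9 | m9 <;> linarith
    · exact m3
  have hDY : ∀ d ∈ c.gs, d.1 ∈ Y ∧ d.2 ∈ Y := fun d hd => by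
    obtain ⟨a, b, hg, rfl⟩ := hgap d hd
    exact ⟨⟨a, hg.1, rfl⟩, ⟨b, hg.2.1, rfl⟩⟩
  obtain ⟨g1, hg1, u1, m1, m2, hch1, hfr1⟩ : ∃ g ∈ c.In, ∃ u, s < u ∧ u < t ∧
      S.Chord g (c.π u) ∧ S.Free c.gs g (c.π u) := by
    by_contra hcon
    have hP : S.Pot Y c.gs := (pot_arc hL hc.tame (hc.arc hT.2.1 sp1 htl.le (by linarith))).mono
      fun d hd => Or.inl (hgap d hd)
    have key : ∀ g g', S.Chord g g' → g' ∉ Y → S.Free c.gs g g' → g ∈ c.In → g' ∈ c.In := by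
      intro g g' hch hg' hf hg
      rcases h.mem_P_of_free hg hch hf with h1 | h1
      · exact h1
      · obtain ⟨u, -, n1, n2, rfl⟩ := hc.off_window h1 hg'
        exact absurd ⟨g, hg, u, n1, n2, hch, hf⟩ hcon
    obtain ⟨o, ho⟩ := hne
    have := ns hL hYc hc.tame hc.nc hDY hP (fun x => if x ∈ c.In then 1 else 0)
      (fun x hx => by
        by_cases h1 : x ∈ c.In
        · filter_upwards [h.isOpen_In.mem_nhds h1] with x' hx'
          simp [hx', h1]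
        · have h2 : x ∉ closure c.In := fun h2 => by
            rcases h.wf.closedP.closure_subset (closure_mono subset_union_left h2) with h3 | h3
            · exact h1 h3
            · obtain ⟨u, -, n1, n2, rfl⟩ := hc.off_window h3 hx
              exact hno u n1 n2 h2
          filter_upwards [isClosed_closure.isOpen_compl.mem_nhds h2] with x' hx'
          have h3 : x' ∉ c.In := fun h3 => hx' (subset_closure h3)
          simp [h3, h1])
      (fun g g' hch hg hg' hf => by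
        have : g ∈ c.In ↔ g' ∈ c.In :=
          ⟨key g g' hch hg' hf, key g' g hch.symm hg (band_free_symm hf)⟩
        simp [this])
      o (fun h1 => h.band_disj ho (hYi h1)) y (fun h1 => h.out (hYi h1))
    have hy : y ∉ c.In := fun h1 => h.out_P (Or.inl h1)
    simp [ho, hy] at this
  have ku1 : u1 ∈ c.K := hhon ⟨m1.le, m2.le⟩
  obtain ⟨v, n1, n2, hne', hch2, hfr2, hfr3⟩ : ∃ v, s < v ∧ v < t ∧ v ≠ u1 ∧
      S.Chord (c.π u1) (c.π v) ∧ S.Free c.gs (c.π u1) (c.π v) ∧ S.Free c.gs g1 (c.π v) := by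
    by_contra hcon
    refine w1 hL (YL := {c.π u1}) (YR := closure c.In ∪ Y) isClosed_singleton
      (isClosed_closure.union hYc) ?_ hc.tame hc.nc
      (fun d hd => Or.inr ⟨Or.inr (hDY d hd).1, Or.inr (hDY d hd).2⟩) hch1.symm rfl
      (Or.inl (subset_closure hg1)) (fun _ => 0) (fun _ _ => Eventually.of_forall fun _ => rfl)
      fun g g' hch hg _ hf => ⟨fun hx => ?_, fun _ => rfl⟩
    · rw [disjoint_singleton_left]
      rintro (h1 | h1)
      · exact hno u1 m1 m2 h1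
      · exact hc.window_not_mem ku1 m1 m2 h1
    · exfalso
      have f1 : S.Free c.gs g1 g := band_recomb hx.swapL hfr1 hf
      have f2 : S.Free c.gs (c.π u1) g := band_recomb hx (band_free_symm hfr1) hf
      rcases h.mem_P_of_free hg1 (hx.swapL.chord13 S.good) f1 with h1 | h1
      · exact hg (Or.inr (Or.inl (subset_closure h1)))
      · obtain ⟨v, -, n1, n2, rfl⟩ := hc.off_window h1 fun h2 => hg (Or.inr (Or.inr h2))
        exact hcon ⟨v, n1, n2, fun e => hx.ne13 (by rw [e]), hx.chord13 S.good, f2, f1⟩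
  have hi : S.InsW c (c.π u1) (c.π v) := ⟨g1, hg1, hch1, hfr1, hfr3⟩
  rcases hne'.lt_or_gt with h1 | h1
  · exact trim_cut h hAB hT hhon hno n1 h1 m2 hch2.symm (band_free_symm hfr2)
      (band_insW_symm hch2 hi)
  · exact trim_cut h hAB hT hhon hno m1 h1 n2 hch2 hfr2 hi

end Str

end Pool.Agent.Lib.MP_9e71a3_gt
end
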