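import Pool.Agent.Lib.MP_9e71a3_gt.Chain

-- part Pool.Agent.Lib.MP_9e71a3_gt.GermA
section

/-! The Alexander lemma in a box, through circle valued maps.  JOB Germ (part A). -/

set_option autoImplicit false

namespace Pool.Agent.Lib.MP_9e71a3_gt

open Set Metric Filter Topology

namespace GermA

/-- the circle of length one -/
abbrev T1 := AddCircle (1 : ℝ)

/-- every circle valued map on `U` has a continuous logarithm -/
def HL (U : Set E3) : Prop :=
  ∀ F : E3 → T1, ContinuousOn F U →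
    ∃ g : E3 → ℝ, ContinuousOn g U ∧ ∀ x ∈ U, ((g x : ℝ) : T1) = F x

theorem cov : IsCoveringMap ((↑) : ℝ → T1) := AddCircle.isCoveringMap_coe (1 : ℝ)

theorem diff_const {S : Set E3} (hS : IsPreconnected S) {g1 g2 : E3 → ℝ}
    (h1 : ContinuousOn g1 S) (h2 : ContinuousOn g2 S)
    (h : ∀ x ∈ S, ((g1 x : ℝ) : T1) = ((g2 x : ℝ) : T1)) {x y : E3} (hx : x ∈ S) (hy : y ∈ S) :
    g1 x - g2 x = g1 y - g2 y := by
  refine cov.constOn_of_comp (g := fun z => g1 z - g2 z) hS (h1.sub h2) ?_ hx hy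
  intro a ha b hb
  simp only [AddCircle.coe_sub, h a ha, h b hb, sub_self]

theorem HL_star {U : Set E3} {w : E3} (hU : IsOpen U) (hs : StarConvex ℝ w U) : HL U := by
  classical
  intro F hF
  rcases U.eq_empty_or_nonempty with rfl | hne
  · exact ⟨0, continuousOn_empty _, fun x hx => hx.elim⟩
  have := hs.contractibleSpace hne
  have := hU.locallyPathConnectedSpace
  obtain ⟨x0, hx0⟩ := hne
  obtain ⟨r0, hr0⟩ : ∃ r : ℝ, (r : T1) = F x0 := QuotientAddGroup.mk_surjective (F x0)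
  obtain ⟨f, ⟨-, hf⟩, -⟩ := cov.existsUnique_continuousMap_lifts
    (⟨U.domRestrict F, continuousOn_iff_continuous_domRestrict.mp hF⟩ : C(U, T1)) ⟨x0, hx0⟩ r0 hr0
  obtain ⟨g, hg⟩ : ∃ g : E3 → ℝ, ∀ z : U, g z = f z :=
    ⟨fun z => if hz : z ∈ U then f ⟨z, hz⟩ else 0, by simp⟩
  refine ⟨g, ?_, ?_⟩
  · rw [continuousOn_iff_continuous_domRestrict]
    have : U.domRestrict g = f := by
      ext z
      exact hg z
    rw [this]
    exact map_continuous f
  · intro x hx
    have h1 := congrFun hf ⟨x, hx⟩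
    have h2 := hg ⟨x, hx⟩
    simp only at h2
    rw [h2]
    exact h1

theorem HL_union {U V : Set E3} (hU : IsOpen U) (hV : IsOpen V) (h1 : HL U) (h2 : HL V)
    (hc : IsPreconnected (U ∩ V)) : HL (U ∪ V) := by
  classical
  intro F hF
  obtain ⟨g1, c1, e1⟩ := h1 F (hF.mono subset_union_left)
  obtain ⟨g2, c2, e2⟩ := h2 F (hF.mono subset_union_right)
  obtain ⟨c, hc0, hcc⟩ : ∃ c : ℝ, (c : T1) = 0 ∧ ∀ x ∈ U ∩ V, g1 x = g2 x + c := by
    rcases (U ∩ V).eq_empty_or_nonempty with he | ⟨x0, hx0⟩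
    · exact ⟨0, by simp, fun x hx => by rw [he] at hx; exact hx.elim⟩
    · refine ⟨g1 x0 - g2 x0, ?_, fun x hx => ?_⟩
      · rw [AddCircle.coe_sub, e1 x0 hx0.1, e2 x0 hx0.2, sub_self]
      · have := diff_const hc (c1.mono inter_subset_left) (c2.mono inter_subset_right)
          (fun z hz => by rw [e1 z hz.1, e2 z hz.2]) hx hx0
        linarith
  refine ⟨fun x => if x ∈ U then g1 x else g2 x + c, ?_, ?_⟩
  · refine ContinuousOn.union_of_isOpen ?_ ?_ hU hV
    · exact c1.congr fun x hx => by simp only [if_pos hx]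
    · refine (c2.add continuousOn_const (g := fun _ => c)).congr fun x hx => ?_
      by_cases hxU : x ∈ U
      · simp only [if_pos hxU, Pi.add_apply]
        exact hcc x ⟨hxU, hx⟩
      · simp only [if_neg hxU, Pi.add_apply]
  · intro x hx
    by_cases hxU : x ∈ U
    · simp only [if_pos hxU]
      exact e1 x hxU
    · simp only [if_neg hxU]
      rw [AddCircle.coe_add, hc0, add_zero]
      exact e2 x (hx.resolve_left hxU)

/-- the box minus a closed ray -/
def Vs (c : E3) (R : ℝ) (z : E3) (σ : ℝ) : Set E3 :=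
  {x | x ∈ ball c R ∧ (x 1 ≠ z 1 ∨ x 2 ≠ z 2 ∨ σ * x 0 < σ * z 0)}

/-- half boxes -/
def Hs (c : E3) (R : ℝ) (z : E3) (j : Fin 3) (σ : ℝ) : Set E3 :=
  {x | x ∈ ball c R ∧ σ * x j < σ * z j}

theorem isOpen_Vs (c : E3) (R : ℝ) (z : E3) (σ : ℝ) : IsOpen (Vs c R z σ) := by
  refine isOpen_ball.inter (IsOpen.union ?_ (IsOpen.union ?_ ?_))
  · exact isOpen_ne_fun (continuous_apply 1) continuous_const
  · exact isOpen_ne_fun (continuous_apply 2) continuous_const
  · exact isOpen_lt (continuous_const.mul (continuous_apply 0)) continuous_const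

theorem convex_Hs (c : E3) (R : ℝ) (z : E3) (j : Fin 3) (σ : ℝ) : Convex ℝ (Hs c R z j σ) := by
  intro x hx y hy a b ha hb hab
  refine ⟨convex_ball c R hx.1 hy.1 ha hb hab, ?_⟩
  have h1 := hx.2
  have h2 := hy.2
  simp only [Pi.add_apply, Pi.smul_apply, smul_eq_mul]
  have hz : σ * z j = a * (σ * z j) + b * (σ * z j) := by rw [← add_mul, hab, one_mul]
  rcases ha.eq_or_lt with rfl | ha'
  · have : b = 1 := by linarith
    subst this
    linarith
  · nlinarith [mul_lt_mul_of_pos_left h1 ha', mul_le_mul_of_nonneg_left h2.le hb]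

theorem exists_shift {c z : E3} {R : ℝ} (hz : z ∈ ball c R) :
    ∃ t > 0, ∀ v : E3, (∀ i, |v i| ≤ 1) → (fun i => z i + t * v i) ∈ ball c R := by
  obtain ⟨t, ht, hsub⟩ := Metric.nhds_basis_closedBall.mem_iff.mp (isOpen_ball.mem_nhds hz)
  refine ⟨t, ht, fun v hv => hsub ?_⟩
  rw [mem_closedBall, dist_pi_le_iff ht.le]
  intro i
  rw [Real.dist_eq, add_sub_cancel_left, abs_mul, abs_of_pos ht]
  exact mul_le_of_le_one_right ht.le (hv i)

theorem star_Vs {c z : E3} {R σ : ℝ} (hz : z ∈ ball c R) (hσ : σ = 1 ∨ σ = -1) :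
    ∃ w ∈ Vs c R z σ, StarConvex ℝ w (Vs c R z σ) := by
  obtain ⟨t, ht, hv⟩ := exists_shift hz
  have hw := hv ![-σ, 0, 0] (by
    intro i
    fin_cases i <;> rcases hσ with rfl | rfl <;> simp)
  set w : E3 := fun i => z i + t * (![-σ, 0, 0] : E3) i with hwdef
  have w0 : σ * w 0 < σ * z 0 := by
    rcases hσ with rfl | rfl <;> simp [hwdef, ht]
  have w1 : w 1 = z 1 := by simp [hwdef]
  have w2 : w 2 = z 2 := by simp [hwdef]
  refine ⟨w, ⟨hw, Or.inr (Or.inr w0)⟩, ?_⟩
  intro x hx a b ha hb hab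
  refine ⟨convex_ball c R hw hx.1 ha hb hab, ?_⟩
  simp only [Pi.add_apply, Pi.smul_apply, smul_eq_mul, w1, w2]
  have ha' : a = 1 - b := by linarith
  subst ha'
  rcases hb.eq_or_lt with rfl | hb'
  · right; right
    simpa using w0
  rcases hx.2 with h | h | h
  · left
    intro h'
    apply h
    have : b * (x 1 - z 1) = 0 := by linarith
    rcases mul_eq_zero.mp this with h3 | h3
    · exact absurd h3 hb'.ne'
    · linarith
  · right; left
    intro h'
    apply h
    have : b * (x 2 - z 2) = 0 := by linarith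
    rcases mul_eq_zero.mp this with h3 | h3
    · exact absurd h3 hb'.ne'
    · linarith
  · right; right
    nlinarith [mul_lt_mul_of_pos_left h hb', mul_le_mul_of_nonneg_left w0.le ha]

theorem union_Vs (c z : E3) (R : ℝ) : Vs c R z 1 ∪ Vs c R z (-1) = ball c R \ {z} := by
  ext x
  simp only [Vs, mem_union, mem_ofPred_eq, Set.mem_sdiff, mem_singleton_iff]
  constructor
  · rintro (⟨h, h'⟩ | ⟨h, h'⟩) <;> refine ⟨h, ?_⟩ <;> rintro rfl <;> simp at h'
  · rintro ⟨h, h'⟩
    by_cases h1 : x 1 = z 1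
    · by_cases h2 : x 2 = z 2
      · rcases lt_trichotomy (x 0) (z 0) with h0 | h0 | h0
        · left; exact ⟨h, Or.inr (Or.inr (by linarith))⟩
        · exfalso; apply h'; ext i; fin_cases i <;> simp [h0, h1, h2]
        · right; exact ⟨h, Or.inr (Or.inr (by linarith))⟩
      · left; exact ⟨h, Or.inr (Or.inl h2)⟩
    · left; exact ⟨h, Or.inl h1⟩

theorem inter_Vs (c z : E3) (R : ℝ) : Vs c R z 1 ∩ Vs c R z (-1) =
    ((Hs c R z 1 1 ∪ Hs c R z 2 1) ∪ Hs c R z 1 (-1)) ∪ Hs c R z 2 (-1) := by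
  ext x
  simp only [Vs, Hs, mem_union, mem_ofPred_eq, mem_inter_iff]
  constructor
  · rintro ⟨⟨h, h1⟩, -, h2⟩
    have : x 1 ≠ z 1 ∨ x 2 ≠ z 2 := by
      rcases h1 with h1 | h1 | h1
      · exact Or.inl h1
      · exact Or.inr h1
      · rcases h2 with h2 | h2 | h2
        · exact Or.inl h2
        · exact Or.inr h2
        · exfalso; linarith
    rcases this with h3 | h3 <;> rcases lt_or_gt_of_ne h3 with h4 | h4
    · left; left; left; exact ⟨h, by linarith⟩
    · left; right; exact ⟨h, by linarith⟩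
    · left; left; right; exact ⟨h, by linarith⟩
    · right; exact ⟨h, by linarith⟩
  · rintro (((⟨h, h1⟩ | ⟨h, h1⟩) | ⟨h, h1⟩) | ⟨h, h1⟩)
    · have : x 1 ≠ z 1 := by intro h2; rw [h2] at h1; exact lt_irrefl _ h1
      exact ⟨⟨h, Or.inl this⟩, h, Or.inl this⟩
    · have : x 2 ≠ z 2 := by intro h2; rw [h2] at h1; exact lt_irrefl _ h1
      exact ⟨⟨h, Or.inr (Or.inl this)⟩, h, Or.inr (Or.inl this)⟩
    · have : x 1 ≠ z 1 := by intro h2; rw [h2] at h1; exact lt_irrefl _ h1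
      exact ⟨⟨h, Or.inl this⟩, h, Or.inl this⟩
    · have : x 2 ≠ z 2 := by intro h2; rw [h2] at h1; exact lt_irrefl _ h1
      exact ⟨⟨h, Or.inr (Or.inl this)⟩, h, Or.inr (Or.inl this)⟩

theorem conn_inter {c z : E3} {R : ℝ} (hz : z ∈ ball c R) :
    IsPreconnected (Vs c R z 1 ∩ Vs c R z (-1)) ∧ (Vs c R z 1 ∩ Vs c R z (-1)).Nonempty := by
  obtain ⟨t, ht, hv⟩ := exists_shift hz
  have key : ∀ a b : ℝ, (a = 1 ∨ a = -1) → (b = 1 ∨ b = -1) →
      (Hs c R z 1 a ∩ Hs c R z 2 b).Nonempty := by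
    intro a b ha hb
    have hw := hv ![0, -a, -b] (by
      intro i
      fin_cases i <;> rcases ha with rfl | rfl <;> rcases hb with rfl | rfl <;> simp)
    refine ⟨_, ⟨hw, ?_⟩, hw, ?_⟩
    · rcases ha with rfl | rfl <;> simp [ht]
    · rcases hb with rfl | rfl <;> simp [ht]
  rw [inter_Vs]
  obtain ⟨x1, h1⟩ := key 1 1 (Or.inl rfl) (Or.inl rfl)
  obtain ⟨x2, h2⟩ := key (-1) 1 (Or.inr rfl) (Or.inl rfl)
  obtain ⟨x3, h3⟩ := key (-1) (-1) (Or.inr rfl) (Or.inr rfl)
  refine ⟨?_, x1, Or.inl (Or.inl (Or.inl h1.1))⟩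
  refine IsPreconnected.union x3 (Or.inr h3.1) h3.2 ?_ (convex_Hs _ _ _ _ _).isPreconnected
  refine IsPreconnected.union x2 (Or.inr h2.2) h2.1 ?_ (convex_Hs _ _ _ _ _).isPreconnected
  exact IsPreconnected.union x1 h1.1 h1.2 (convex_Hs _ _ _ _ _).isPreconnected
    (convex_Hs _ _ _ _ _).isPreconnected

theorem HL_ball (c : E3) (R : ℝ) : HL (ball c R) := by
  rcases (ball c R).eq_empty_or_nonempty with he | ⟨w, hw⟩
  · rw [he]
    exact HL_star (w := c) isOpen_empty (starConvex_empty c)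
  · exact HL_star isOpen_ball (convex_ball c R hw)

theorem HL_punct (c z : E3) (R : ℝ) : HL (ball c R \ {z}) := by
  by_cases hz : z ∈ ball c R
  · rw [← union_Vs]
    obtain ⟨w1, -, h1⟩ := star_Vs hz (Or.inl rfl)
    obtain ⟨w2, -, h2⟩ := star_Vs hz (Or.inr rfl)
    exact HL_union (isOpen_Vs _ _ _ _) (isOpen_Vs _ _ _ _) (HL_star (isOpen_Vs _ _ _ _) h1)
      (HL_star (isOpen_Vs _ _ _ _) h2) (conn_inter hz).1
  · rw [sdiff_singleton_eq_self hz]
    exact HL_ball c R

theorem joined_ball {c p q : E3} {R : ℝ} (hp : p ∈ ball c R) (hq : q ∈ ball c R) :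
    JoinedIn (ball c R) p q :=
  ((convex_ball c R).isPathConnected ⟨p, hp⟩).joinedIn p hp q hq

theorem joined_punct {c z p q : E3} {R : ℝ} (hp : p ∈ ball c R \ {z}) (hq : q ∈ ball c R \ {z}) :
    JoinedIn (ball c R \ {z}) p q := by
  by_cases hz : z ∈ ball c R
  · obtain ⟨w1, g1, h1⟩ := star_Vs hz (Or.inl rfl)
    obtain ⟨w2, g2, h2⟩ := star_Vs hz (Or.inr rfl)
    have := (h1.isPathConnected g1).union (h2.isPathConnected g2) (conn_inter hz).2
    rw [union_Vs] at this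
    exact this.joinedIn p hp q hq
  · rw [sdiff_singleton_eq_self hz] at hp hq ⊢
    exact joined_ball hp hq

/-- a bounded locally constant function times a function that vanishes on the bad set -/
theorem cont_mul {U O : Set E3} (hU : IsOpen U) {ψ φ : E3 → ℝ} (hφ : ContinuousOn φ U)
    (hψ : ∀ x, |ψ x| ≤ 1) (hloc : ∀ x ∈ O, ∀ᶠ y in 𝓝 x, ψ y = ψ x)
    (h0 : ∀ x ∈ U, x ∉ O → φ x = 0) : ContinuousOn (fun x => ψ x * φ x) U := by
  intro x hx
  have hφx : ContinuousAt φ x := hφ.continuousAt (hU.mem_nhds hx)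
  refine ContinuousAt.continuousWithinAt ?_
  by_cases hxO : x ∈ O
  · refine ((continuousAt_const (y := ψ x)).mul hφx).congr ?_
    filter_upwards [hloc x hxO] with y hy
    simp only [Pi.mul_apply, hy]
  · have h1 : φ x = 0 := h0 x hx hxO
    have h2 : Tendsto φ (𝓝 x) (𝓝 0) := h1 ▸ hφx.tendsto
    show Tendsto (fun y => ψ y * φ y) (𝓝 x) (𝓝 (ψ x * φ x))
    rw [h1, mul_zero]
    refine squeeze_zero_norm (a := fun y => ‖φ y‖) (fun y => ?_) (by simpa using h2.norm)
    rw [norm_mul]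
    exact mul_le_of_le_one_left (norm_nonneg _) (hψ y)

theorem preconn_of_joined {U : Set E3} {p q : E3} (h : JoinedIn U p q) :
    ∃ S ⊆ U, IsPreconnected S ∧ p ∈ S ∧ q ∈ S :=
  ⟨pathComponentIn U p, pathComponentIn_subset,
    (isPathConnected_pathComponentIn h.source_mem).isConnected.isPreconnected,
    mem_pathComponentIn_self h.source_mem, h⟩

theorem alex_core {B : Set E3} (hB : IsOpen B) {p q : E3} {A1 A2 : Set E3} (h1 : IsClosed A1)
    (h2 : IsClosed A2) (hL : HL (B \ (A1 ∩ A2))) (j1 : JoinedIn (B \ A1) p q)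
    (j2 : JoinedIn (B \ A2) p q) : JoinedIn (B \ (A1 ∪ A2)) p q := by
  classical
  rcases A1.eq_empty_or_nonempty with rfl | n1
  · simpa using j2
  rcases A2.eq_empty_or_nonempty with rfl | n2
  · simpa using j1
  set O := B \ (A1 ∪ A2) with hO
  have hOo : IsOpen O := hB.sdiff (h1.union h2)
  have hpO : p ∈ O := ⟨j1.source_mem.1, fun h => h.elim j1.source_mem.2 j2.source_mem.2⟩
  have hqO : q ∈ O := ⟨j1.target_mem.1, fun h => h.elim j1.target_mem.2 j2.target_mem.2⟩
  set ψ : E3 → ℝ := fun x => if JoinedIn O p x then 1 else 0 with hψ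
  set φ : E3 → ℝ := fun x => infDist x A1 / (infDist x A1 + infDist x A2) with hφ
  have hψ1 : ∀ x, |ψ x| ≤ 1 := by
    intro x
    simp only [hψ]
    split_ifs <;> simp
  have hloc : ∀ x ∈ O, ∀ᶠ y in 𝓝 x, ψ y = ψ x := by
    intro x hx
    filter_upwards [pathComponentIn_mem_nhds (hOo.mem_nhds hx)] with y hy
    have hy' : JoinedIn O x y := hy
    have : JoinedIn O p y ↔ JoinedIn O p x := ⟨fun h => h.trans hy'.symm, fun h => h.trans hy'⟩
    simp only [hψ, this]
  have hden : ∀ x, x ∉ A1 ∩ A2 → infDist x A1 + infDist x A2 ≠ 0 := by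
    intro x hx h
    have a1 : 0 ≤ infDist x A1 := infDist_nonneg
    have a2 : 0 ≤ infDist x A2 := infDist_nonneg
    exact hx ⟨(h1.mem_iff_infDist_zero n1).mpr (by linarith),
      (h2.mem_iff_infDist_zero n2).mpr (by linarith)⟩
  have hφc : ContinuousOn φ (B \ (A1 ∩ A2)) :=
    (continuous_infDist_pt A1).continuousOn.div
      ((continuous_infDist_pt A1).add (continuous_infDist_pt A2)).continuousOn
      fun x hx => hden x hx.2
  have s1 : B \ A1 ⊆ B \ (A1 ∩ A2) := fun x hx => ⟨hx.1, fun h => hx.2 h.1⟩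
  have s2 : B \ A2 ⊆ B \ (A1 ∩ A2) := fun x hx => ⟨hx.1, fun h => hx.2 h.2⟩
  have c1 : ContinuousOn (fun x => ψ x * (φ x - 1)) (B \ A1) := by
    refine cont_mul (O := O) (hB.sdiff h1) ((hφc.mono s1).sub continuousOn_const) hψ1 hloc ?_
    intro x hx hxO
    have hx2 : x ∈ A2 := by
      by_contra h
      exact hxO ⟨hx.1, fun h' => h'.elim hx.2 h⟩
    have e2 : infDist x A2 = 0 := infDist_zero_of_mem hx2
    have := hden x (s1 hx).2
    rw [e2, add_zero] at this
    simp only [hφ, e2, add_zero, div_self this, sub_self]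
  have c2 : ContinuousOn (fun x => ψ x * φ x) (B \ A2) := by
    refine cont_mul (O := O) (hB.sdiff h2) (hφc.mono s2) hψ1 hloc ?_
    intro x hx hxO
    have hx1 : x ∈ A1 := by
      by_contra h
      exact hxO ⟨hx.1, fun h' => h'.elim h hx.2⟩
    simp only [hφ, infDist_zero_of_mem hx1, zero_div]
  have e12 : ∀ x, ((ψ x * (φ x - 1) : ℝ) : T1) = ((ψ x * φ x : ℝ) : T1) := by
    intro x
    simp only [hψ]
    split_ifs
    · rw [one_mul, one_mul, AddCircle.coe_sub, AddCircle.coe_period, sub_zero]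
    · rw [zero_mul, zero_mul]
  have hF : ContinuousOn (fun x => ((ψ x * φ x : ℝ) : T1)) (B \ (A1 ∩ A2)) := by
    have : B \ (A1 ∩ A2) = B \ A1 ∪ B \ A2 := sdiff_inter
    rw [this]
    refine ContinuousOn.union_of_isOpen ?_ ?_ (hB.sdiff h1) (hB.sdiff h2)
    · exact (cov.continuous.comp_continuousOn c1).congr fun x _ => (e12 x).symm
    · exact cov.continuous.comp_continuousOn c2
  obtain ⟨g, gc, ge⟩ := hL _ hF
  obtain ⟨S1, hS1, k1, p1, q1⟩ := preconn_of_joined j1
  obtain ⟨S2, hS2, k2, p2, q2⟩ := preconn_of_joined j2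
  have d1 := diff_const k1 (gc.mono (hS1.trans s1)) (c1.mono hS1)
    (fun x hx => by rw [ge x (s1 (hS1 hx)), e12]) p1 q1
  have d2 := diff_const k2 (gc.mono (hS2.trans s2)) (c2.mono hS2)
    (fun x hx => by rw [ge x (s2 (hS2 hx))]) p2 q2
  have hpq : ψ p = ψ q := by linarith
  by_contra hj
  simp only [hψ, if_pos (JoinedIn.refl hpO), if_neg hj] at hpq
  exact one_ne_zero hpq

theorem alex {c p q : E3} {R : ℝ} {A1 A2 : Set E3} (h1 : IsClosed A1) (h2 : IsClosed A2)
    (h12 : (A1 ∩ A2).Subsingleton) (j1 : JoinedIn (ball c R \ A1) p q)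
    (j2 : JoinedIn (ball c R \ A2) p q) : JoinedIn (ball c R \ (A1 ∪ A2)) p q := by
  refine alex_core isOpen_ball h1 h2 ?_ j1 j2
  rcases h12.eq_empty_or_singleton with he | ⟨z, he⟩
  · rw [he, sdiff_empty]
    exact HL_ball c R
  · rw [he]
    exact HL_punct c z R

/-- one arc does not separate a box -/
theorem one_arc {γ : ℝ → E3} (hγ : Continuous γ) {a b : ℝ} (hinj : InjOn γ (Icc a b))
    {c p q : E3} {R : ℝ} (hp : p ∈ ball c R) (hq : q ∈ ball c R) (hpA : p ∉ γ '' Icc a b)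
    (hqA : q ∉ γ '' Icc a b) : JoinedIn (ball c R \ γ '' Icc a b) p q := by
  rcases lt_or_ge b a with hab | hab
  · rw [Icc_eq_empty_of_lt hab, image_empty, sdiff_empty]
    exact joined_ball hp hq
  have hcl : ∀ s t : ℝ, IsClosed (γ '' Icc s t) := fun s t => (isCompact_Icc.image hγ).isClosed
  have hloc : ∀ s ∈ Icc a b, ∃ δ > 0, JoinedIn (ball c R \ γ '' Icc (s - δ) (s + δ)) p q := by
    intro s hs
    have hj : JoinedIn (ball c R \ {γ s}) p q :=
      joined_punct ⟨hp, fun h => hpA ⟨s, hs, (mem_singleton_iff.mp h).symm⟩⟩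
        ⟨hq, fun h => hqA ⟨s, hs, (mem_singleton_iff.mp h).symm⟩⟩
    obtain ⟨π, hπ⟩ := hj
    have hK : IsClosed (range π) := (isCompact_range π.continuous).isClosed
    have hs' : γ s ∈ (range π)ᶜ := by
      rintro ⟨t, ht⟩
      exact (hπ t).2 ht
    have := hγ.continuousAt.preimage_mem_nhds (hK.isOpen_compl.mem_nhds hs')
    obtain ⟨δ, hδ, hsub⟩ := Metric.nhds_basis_closedBall.mem_iff.mp this
    refine ⟨δ, hδ, π, fun t => ⟨(hπ t).1, ?_⟩⟩
    rintro ⟨u, hu, hut⟩
    rw [← Real.closedBall_eq_Icc] at hu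
    exact hsub hu ⟨t, hut.symm⟩
  have hadd : ∀ t u, a ≤ t → t ≤ u → u ≤ b → JoinedIn (ball c R \ γ '' Icc a t) p q →
      JoinedIn (ball c R \ γ '' Icc t u) p q → JoinedIn (ball c R \ γ '' Icc a u) p q := by
    intro t u hat htu hub j1 j2
    rw [← Icc_union_Icc_eq_Icc hat htu, image_union]
    refine alex (hcl _ _) (hcl _ _) ?_ j1 j2
    have : γ '' Icc a t ∩ γ '' Icc t u ⊆ {γ t} := by
      rintro x ⟨⟨v, hv, rfl⟩, w, hw, hvw⟩
      have := hinj ⟨hat.trans hw.1, hw.2.trans hub⟩ ⟨hv.1, hv.2.trans (htu.trans hub)⟩ hvw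
      have hvt : v = t := le_antisymm hv.2 (this ▸ hw.1)
      rw [hvt]
      rfl
    exact subsingleton_singleton.anti this
  have hmono : ∀ s t s' t', s ≤ s' → t' ≤ t → JoinedIn (ball c R \ γ '' Icc s t) p q →
      JoinedIn (ball c R \ γ '' Icc s' t') p q := fun s t s' t' h1 h2 j =>
    j.mono (sdiff_subset_sdiff_right (image_mono (Icc_subset_Icc h1 h2)))
  set T : Set ℝ := {t | t ∈ Icc a b ∧ JoinedIn (ball c R \ γ '' Icc a t) p q} with hT
  have haT : a ∈ T := by
    obtain ⟨δ, hδ, j⟩ := hloc a ⟨le_rfl, hab⟩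
    exact ⟨⟨le_rfl, hab⟩, hmono _ _ _ _ (by linarith) (by linarith) j⟩
  have hbdd : BddAbove T := ⟨b, fun t ht => ht.1.2⟩
  have hm : sSup T ∈ Icc a b := ⟨le_csSup hbdd haT, csSup_le ⟨a, haT⟩ fun t ht => ht.1.2⟩
  obtain ⟨δ, hδ, j⟩ := hloc _ hm
  obtain ⟨t, ht, hlt⟩ := exists_lt_of_lt_csSup ⟨a, haT⟩ (show sSup T - δ < sSup T by linarith)
  have htm : t ≤ sSup T := le_csSup hbdd ht
  have hu : min b (sSup T + δ) ∈ T := by
    have h1 : t ≤ min b (sSup T + δ) := le_min ht.1.2 (by linarith)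
    refine ⟨⟨ht.1.1.trans h1, min_le_left _ _⟩, hadd t _ ht.1.1 h1 (min_le_left _ _) ht.2 ?_⟩
    exact hmono _ _ _ _ hlt.le (min_le_right _ _) j
  have h3 := le_csSup hbdd hu
  rcases min_cases b (sSup T + δ) with ⟨h4, -⟩ | ⟨h4, -⟩
  · rw [h4] at hu
    exact hu.2
  · rw [h4] at h3
    linarith

theorem arcs {ι : Type} (F : Finset ι) (γ : ι → ℝ → E3) (hγ : ∀ i, Continuous (γ i))
    {a b : ℝ} (hinj : ∀ i ∈ F, ∀ j ∈ F, ∀ s ∈ Icc a b, ∀ t ∈ Icc a b, γ i s = γ j t → i = j ∧ s = t)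
    {c p q : E3} {R : ℝ} (hp : p ∈ ball c R) (hq : q ∈ ball c R)
    (hpA : ∀ i ∈ F, p ∉ γ i '' Icc a b) (hqA : ∀ i ∈ F, q ∉ γ i '' Icc a b) :
    JoinedIn (ball c R \ ⋃ i ∈ F, γ i '' Icc a b) p q := by
  classical
  induction F using Finset.induction_on with
  | empty => simpa using joined_ball hp hq
  | insert i F hi ih =>
    rw [Finset.set_biUnion_insert]
    have m0 : i ∈ insert i F := Finset.mem_insert_self i F
    have m1 : ∀ j ∈ F, j ∈ insert i F := fun j hj => Finset.mem_insert_of_mem hj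
    refine alex (isCompact_Icc.image (hγ i)).isClosed
      (F.finite_toSet.isClosed_biUnion fun j _ => (isCompact_Icc.image (hγ j)).isClosed) ?_
      (one_arc (hγ i) (fun s hs t ht h => (hinj i m0 i m0 s hs t ht h).2) hp hq (hpA i m0)
        (hqA i m0))
      (ih (fun j hj k hk => hinj j (m1 j hj) k (m1 k hk)) (fun j hj => hpA j (m1 j hj))
        (fun j hj => hqA j (m1 j hj)))
    rintro x ⟨⟨s, hs, rfl⟩, hx⟩
    exfalso
    simp only [mem_iUnion] at hx
    obtain ⟨j, hj, t, ht, h⟩ := hx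
    have := (hinj j (m1 j hj) i m0 t ht s hs h).1
    exact hi (this ▸ hj)

end GermA

end Pool.Agent.Lib.MP_9e71a3_gt
end

-- part Pool.Agent.Lib.MP_9e71a3_gt.Cross
section

/-! Order combinatorics of chords.  JOB Lam (part 1). -/

set_option autoImplicit false

namespace Pool.Agent.Lib.MP_9e71a3_gt

open Set

namespace Ord3
variable {X : Type} {O : Ord3 X}

theorem Chord.symm {a b : X} (h : O.Chord a b) : O.Chord b a := ⟨h.2.1, h.1, h.2.2.symm⟩
theorem Chord.trans {a b c : X} (h : O.Chord a b) (h' : O.Chord b c) : O.Chord a c :=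
  ⟨h.1, h'.2.1, h.2.2.trans h'.2.2⟩
theorem Chord.refl {a : X} (h : a ∈ O.G) : O.Chord a a := ⟨h, h, rfl⟩

/-- crossing of two pairs of reals -/
def cross_X (a b c d : ℝ) : Prop :=
  (((a < c ∧ c < b) ∨ (b < c ∧ c < a)) ∧ ((d < a ∧ d < b) ∨ (a < d ∧ b < d))) ∨
    (((c < a ∧ c < b) ∨ (a < c ∧ b < c)) ∧ ((a < d ∧ d < b) ∨ (b < d ∧ d < a)))

theorem cross_def {a b c d : X} : O.Cross a b c d ↔
    O.Chord a b ∧ O.Chord c d ∧ cross_X (O.pos a) (O.pos b) (O.pos c) (O.pos d) := Iff.rfl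

theorem cross_symm {a b c d : ℝ} (h : cross_X a b c d) : cross_X c d a b := by
  unfold cross_X at *; grind

theorem cross_swapL {a b c d : ℝ} (h : cross_X a b c d) : cross_X b a c d := by
  unfold cross_X at *; grind

theorem cross_swapR {a b c d : ℝ} (h : cross_X a b c d) : cross_X a b d c := h.symm.imp
  (fun h => ⟨h.2, h.1⟩) fun h => ⟨h.2, h.1⟩

theorem cross_ne {a b c d : ℝ} (h : cross_X a b c d) :
    a ≠ b ∧ a ≠ c ∧ a ≠ d ∧ b ≠ c ∧ b ≠ d ∧ c ≠ d := by
  unfold cross_X at *; grind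

theorem cross_tri {a b p q w : ℝ} (h : cross_X a b p q) (h1 : w ≠ a) (h2 : w ≠ b) :
    cross_X a b w p ∨ cross_X a b w q := by
  unfold cross_X at *; grind

theorem cross_far {a b g p q : ℝ} (hp : cross_X a b g p) (hq : cross_X a b g q) :
    ¬ cross_X a b p q := by
  unfold cross_X at *; grind

theorem cross_beyond {f1 f2 d1 d2 g q : ℝ} (hf : cross_X f1 f2 g q) (hd : cross_X d1 d2 g f1)
    (hn : ¬ cross_X d1 d2 f1 f2) : cross_X d1 d2 g q := by
  unfold cross_X at *
  rcases hd with ⟨h1 | h1, h2 | h2⟩ | ⟨h1 | h1, h2 | h2⟩ <;>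
    rcases hf with ⟨h3 | h3, h4 | h4⟩ | ⟨h3 | h3, h4 | h4⟩ <;> grind

theorem cross_sep {a b c d f1 f2 w v : ℝ} (h : cross_X f1 f2 w v) (ha : ¬ cross_X f1 f2 w a)
    (hb : ¬ cross_X f1 f2 w b) (hc : ¬ cross_X f1 f2 v c) (hd : ¬ cross_X f1 f2 v d) :
    ¬ cross_X a b c d := by
  have key : ∀ {a b c d : ℝ}, (∀ x ∈ [a, b], (f1 ≤ x ∨ f2 ≤ x) ∧ (x ≤ f1 ∨ x ≤ f2)) →
      (∀ x ∈ [c, d], (x ≤ f1 ∨ f2 ≤ x) ∧ (x ≤ f2 ∨ f1 ≤ x)) → ¬ cross_X a b c d := by
    intro a b c d h1 h2 h3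
    have a1 := h1 a (by simp)
    have a2 := h1 b (by simp)
    have a3 := h2 c (by simp)
    have a4 := h2 d (by simp)
    clear h1 h2 h ha hb hc hd
    unfold cross_X at h3
    rcases le_total f1 f2 with h | h <;>
      rcases h3 with ⟨h1 | h1, h2 | h2⟩ | ⟨h1 | h1, h2 | h2⟩ <;> grind
  have k1 : ∀ {w x : ℝ}, ((f1 < w ∧ w < f2) ∨ (f2 < w ∧ w < f1)) → ¬ cross_X f1 f2 w x →
      (f1 ≤ x ∨ f2 ≤ x) ∧ (x ≤ f1 ∨ x ≤ f2) := by
    intro w x h1 h2
    clear key h ha hb hc hd
    unfold cross_X at h2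
    grind
  have k2 : ∀ {w x : ℝ}, ((w < f1 ∧ w < f2) ∨ (f1 < w ∧ f2 < w)) → ¬ cross_X f1 f2 w x →
      (x ≤ f1 ∨ f2 ≤ x) ∧ (x ≤ f2 ∨ f1 ≤ x) := by
    intro w x h1 h2
    clear key k1 h ha hb hc hd
    unfold cross_X at h2
    grind
  rcases h with ⟨h1, h2⟩ | ⟨h1, h2⟩
  · exact key (by simpa using ⟨k1 h1 ha, k1 h1 hb⟩) (by simpa using ⟨k2 h2 hc, k2 h2 hd⟩)
  · exact fun h => key (by simpa using ⟨k1 h2 hc, k1 h2 hd⟩) (by simpa using ⟨k2 h1 ha, k2 h1 hb⟩)
      (cross_symm h)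

theorem cross_self {a b c : ℝ} : ¬ cross_X a b c c := fun h => (cross_ne h).2.2.2.2.2 rfl

theorem cross_pos_ne (hO : O.Good) {a b : X} (ha : a ∈ O.G) (hb : b ∈ O.G) (h : a ≠ b) :
    O.pos a ≠ O.pos b := fun e => h (hO.inj ha hb e)

theorem cross_not {a b c d : X} (h1 : O.Chord a b) (h2 : O.Chord c d) (h : ¬ O.Cross a b c d) :
    ¬ cross_X (O.pos a) (O.pos b) (O.pos c) (O.pos d) := fun h' => h ⟨h1, h2, h'⟩

theorem Cross.symm {a b c d : X} (h : O.Cross a b c d) : O.Cross c d a b :=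
  ⟨h.2.1, h.1, cross_symm h.2.2⟩
theorem Cross.swapL {a b c d : X} (h : O.Cross a b c d) : O.Cross b a c d :=
  ⟨h.1.symm, h.2.1, cross_swapL h.2.2⟩
theorem Cross.swapR {a b c d : X} (h : O.Cross a b c d) : O.Cross a b d c :=
  ⟨h.1, h.2.1.symm, cross_swapR h.2.2⟩
theorem Cross.ne12 {a b c d : X} (h : O.Cross a b c d) : a ≠ b :=
  fun e => (cross_ne h.2.2).1 (congrArg O.pos e)
theorem Cross.ne13 {a b c d : X} (h : O.Cross a b c d) : a ≠ c :=
  fun e => (cross_ne h.2.2).2.1 (congrArg O.pos e)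
theorem Cross.ne14 {a b c d : X} (h : O.Cross a b c d) : a ≠ d :=
  fun e => (cross_ne h.2.2).2.2.1 (congrArg O.pos e)
theorem Cross.ne23 {a b c d : X} (h : O.Cross a b c d) : b ≠ c :=
  fun e => (cross_ne h.2.2).2.2.2.1 (congrArg O.pos e)
theorem Cross.ne24 {a b c d : X} (h : O.Cross a b c d) : b ≠ d :=
  fun e => (cross_ne h.2.2).2.2.2.2.1 (congrArg O.pos e)
theorem Cross.ne34 {a b c d : X} (h : O.Cross a b c d) : c ≠ d :=
  fun e => (cross_ne h.2.2).2.2.2.2.2 (congrArg O.pos e)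
theorem Cross.chord13 (hO : O.Good) {a b c d : X} (h : O.Cross a b c d) : O.Chord a c := by
  obtain ⟨h1, h2, h3 | h3⟩ := h
  · exact ⟨h1.1, h2.1, (hO.convex a b c h1 h2.1 h3.1).symm⟩
  · exact ⟨h1.1, h2.1, (hO.convex a b d h1 h2.2.1 h3.2).symm.trans h2.2.2.symm⟩

/-- a third germ that is not an end of `f` lies on one of the two sides -/
theorem Cross.tri (hO : O.Good) {f1 f2 p q w : X} (h : O.Cross f1 f2 p q) (hw : O.Chord w p)
    (h1 : w ≠ f1) (h2 : w ≠ f2) : O.Cross f1 f2 w p ∨ O.Cross f1 f2 w q :=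
  (cross_tri h.2.2 (cross_pos_ne hO hw.1 h.1.1 h1) (cross_pos_ne hO hw.1 h.1.2.1 h2)).imp
    (fun h' => ⟨h.1, hw, h'⟩) fun h' => ⟨h.1, hw.trans h.2.1, h'⟩

theorem Cross.eq_end (hO : O.Good) {f1 f2 p q w : X} (h : O.Cross f1 f2 p q) (hw : O.Chord w p)
    (h1 : ¬ O.Cross f1 f2 w p) (h2 : ¬ O.Cross f1 f2 w q) : w = f1 ∨ w = f2 := by
  by_contra hn
  rw [not_or] at hn
  exact (h.tri hO hw hn.1 hn.2).elim h1 h2

/-- sides form an equivalence relation on germs that are not ends -/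
theorem not_cross_trans (hO : O.Good) {f1 f2 p q w : X} (hw : O.Chord w p) (h1 : w ≠ f1)
    (h2 : w ≠ f2) (hp : ¬ O.Cross f1 f2 w p) (hq : ¬ O.Cross f1 f2 w q) :
    ¬ O.Cross f1 f2 p q := fun h => (h.tri hO hw h1 h2).elim hp hq

/-- two germs on the far side from `g` are on the same side -/
theorem Cross.not_cross_far {f1 f2 g p q : X} (hp : O.Cross f1 f2 g p)
    (hq : O.Cross f1 f2 g q) : ¬ O.Cross f1 f2 p q := fun h => cross_far hp.2.2 hq.2.2 h.2.2

/-- if `d` separates `g` from an end of `f`, and `f` separates `g` from `q`, then so does `d` -/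
theorem Cross.beyond (hO : O.Good) {f1 f2 d1 d2 g q : X} (hf : O.Cross f1 f2 g q)
    (hd : O.Cross d1 d2 g f1) (hn : ¬ O.Cross d1 d2 f1 f2) : O.Cross d1 d2 g q :=
  have _ := hO
  ⟨hd.1, hf.2.1, cross_beyond hf.2.2 hd.2.2 (cross_not hd.1 hf.1 hn)⟩

/-- a chord that crosses neither of two crossing chords does not cross their recombination -/
theorem Cross.recomb (hO : O.Good) {a b c d f1 f2 : X} (h : O.Cross a b c d)
    (h1 : ¬ O.Cross f1 f2 a b) (h2 : ¬ O.Cross f1 f2 c d) : ¬ O.Cross f1 f2 a c := fun h' =>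
  have _ := hO
  cross_sep h'.2.2 cross_self (cross_not h'.1 h.1 h1) cross_self (cross_not h'.1 h.2.1 h2) h.2.2

theorem Cross.wall (hO : O.Good) {f1 f2 p p' g k1 k2 : X} (h : O.Cross p g k1 k2)
    (hpp : O.Chord p p') (h1 : ¬ O.Cross f1 f2 p p') (h2 : ¬ O.Cross f1 f2 p g)
    (h3 : ¬ O.Cross f1 f2 p' g) (h4 : ¬ O.Cross f1 f2 k1 k2) : ¬ O.Cross f1 f2 p' k2 :=
  fun h' =>
  have _ := hO
  have _ := h2
  cross_sep h'.2.2 (fun e => cross_not h'.1 hpp h1 (cross_swapR e))
    (cross_not h'.1 (hpp.symm.trans h.1) h3) (fun e => cross_not h'.1 h.2.1 h4 (cross_swapR e))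
    cross_self h.2.2

/-- chords lying weakly on different sides of `f` do not cross -/
theorem Cross.witness (hO : O.Good) {a b c d w f1 f2 : X} (h : O.Cross a b c d)
    (hw : O.Chord w a) (ha : ¬ O.Cross f1 f2 w a) (hb : ¬ O.Cross f1 f2 w b)
    (h2 : ¬ O.Cross f1 f2 c d) : ¬ O.Cross f1 f2 w c := fun h' =>
  have _ := hO
  cross_sep h'.2.2 (cross_not h'.1 hw ha) (cross_not h'.1 (hw.trans h.1) hb) cross_self
    (cross_not h'.1 h.2.1 h2) h.2.2

open Classical in
/-- indicator of being strictly between -/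
noncomputable def ind (O : Ord3 X) (a b g : X) : Z2 := if O.Btw a b g then 1 else 0

theorem sig_zero (g : X) : O.sig 0 g = 0 := by simp [sig]
theorem sig_add (B B' : X →₀ Z2) (g : X) : O.sig (B + B') g = O.sig B g + O.sig B' g :=
  Finsupp.sum_add_index' (fun _ => zero_mul _) fun _ _ _ => add_mul _ _ _
theorem sig_two (hO : O.Good) {a b g : X} (h : O.Chord a b) (hg : g ∈ O.G) (ha : g ≠ a)
    (hb : g ≠ b) : O.sig (two a b) g = O.ind a b g := by
  have h1 := cross_pos_ne hO hg h.1 ha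
  have h2 := cross_pos_ne hO hg h.2.1 hb
  rw [two, sig_add, sig, sig, Finsupp.sum_single_index (zero_mul _),
    Finsupp.sum_single_index (zero_mul _), ind, Btw, one_mul, one_mul]
  rcases h1.lt_or_gt with h1 | h1 <;> rcases h2.lt_or_gt with h2 | h2 <;>
    simp [h1, h2, h1.not_gt, h2.not_gt, z2_add_self]
theorem cross_iff_ind (hO : O.Good) {a b c d : X} (h : O.Chord a b) (h' : O.Chord c d)
    (hca : c ≠ a) (hcb : c ≠ b) (hda : d ≠ a) (hdb : d ≠ b) :
    O.Cross a b c d ↔ O.ind a b c + O.ind a b d = 1 := by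
  have h1 := cross_pos_ne hO h'.1 h.1 hca
  have h2 := cross_pos_ne hO h'.1 h.2.1 hcb
  have h3 := cross_pos_ne hO h'.2.1 h.1 hda
  have h4 := cross_pos_ne hO h'.2.1 h.2.1 hdb
  simp only [Cross, h, h', true_and, ind, Btw, Ext]
  rcases h1.lt_or_gt with h1 | h1 <;> rcases h2.lt_or_gt with h2 | h2 <;>
    rcases h3.lt_or_gt with h3 | h3 <;> rcases h4.lt_or_gt with h4 | h4 <;>
    simp [h1, h2, h3, h4, h1.not_gt, h2.not_gt, h3.not_gt, h4.not_gt, z2_add_self]

theorem Ev.zero : O.Ev 0 := zero_mem _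
theorem Ev.add {B B' : X →₀ Z2} (h : O.Ev B) (h' : O.Ev B') : O.Ev (B + B') := add_mem h h'
theorem Ev.two {a b : X} (h : O.Chord a b) : O.Ev (two a b) :=
  AddSubmonoid.subset_closure ⟨a, b, h, rfl⟩
theorem Ev.sum {ι : Type} (s : Finset ι) (f : ι → X →₀ Z2) (h : ∀ i ∈ s, O.Ev (f i)) :
    O.Ev (∑ i ∈ s, f i) := AddSubmonoid.sum_mem _ h
theorem Ev.mem {B : X →₀ Z2} (h : O.Ev B) {k : X} (hk : k ∈ B.support) : k ∈ O.G := by
  classical
  induction h using AddSubmonoid.closure_induction with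
  | mem x hx =>
    obtain ⟨a, b, hab, rfl⟩ := hx
    rcases Finset.mem_union.1 (Finsupp.support_add hk) with h | h
    · rw [(Finsupp.mem_support_single _ _ _).1 h |>.1]; exact hab.1
    · rw [(Finsupp.mem_support_single _ _ _).1 h |>.1]; exact hab.2.1
  | zero => simp at hk
  | add x y _ _ hx hy => exact (Finset.mem_union.1 (Finsupp.support_add hk)).elim hx hy
theorem Ev.sum_eq_zero {M : Type} [AddCommGroup M] [Module Z2 M] {B : X →₀ Z2} (h : O.Ev B)
    (F : X → M) (hF : ∀ a b, O.Chord a b → F a = F b) : B.sum (fun k c => c • F k) = 0 := by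
  have add : ∀ x y : X →₀ Z2, (x + y).sum (fun k c => c • F k) =
      x.sum (fun k c => c • F k) + y.sum (fun k c => c • F k) := fun x y =>
    Finsupp.sum_add_index' (fun _ => zero_smul _ _) fun _ _ _ => add_smul _ _ _
  induction h using AddSubmonoid.closure_induction with
  | mem x hx =>
    obtain ⟨a, b, hab, rfl⟩ := hx
    rw [Pool.Agent.Lib.MP_9e71a3_gt.two, add, Finsupp.sum_single_index (by simp),
      Finsupp.sum_single_index (by simp), hF a b hab, ← add_smul, z2_add_self, zero_smul]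
  | zero => simp
  | add x y _ _ hx hy => rw [add, hx, hy, add_zero]
/-- the support of an even zero-chain can be paired up -/
theorem Ev.pairing {B : X →₀ Z2} (h : O.Ev B) : ∃ l : List (X × X),
    (∀ p ∈ l, O.Chord p.1 p.2 ∧ p.1 ≠ p.2 ∧ p.1 ∈ B.support ∧ p.2 ∈ B.support) ∧
    B = (l.map fun p => Pool.Agent.Lib.MP_9e71a3_gt.two p.1 p.2).sum := by
  classical
  induction hn : B.support.card using Nat.strong_induction_on generalizing B with
  | _ n ih =>
  rcases B.support.eq_empty_or_nonempty with h0 | ⟨a, ha⟩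
  · exact ⟨[], by simp, by simpa using h0⟩
  have one : ∀ k ∈ B.support, B k = 1 := fun k hk =>
    (z2_cases (B k)).resolve_left (Finsupp.mem_support_iff.1 hk)
  obtain ⟨b, hb, hab, hd⟩ : ∃ b ∈ B.support, a ≠ b ∧ O.dom a = O.dom b := by
    by_contra hc
    push Not at hc
    have := h.sum_eq_zero (fun k => if O.dom a = O.dom k then (1 : Z2) else 0)
      fun p q hpq => by rw [hpq.2.2]
    rw [Finsupp.sum, Finset.sum_eq_single_of_mem a ha fun k hk hka => by
      rw [if_neg (hc k hk hka.symm), smul_zero]] at this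
    simp [one a ha] at this
  have hch : O.Chord a b := ⟨h.mem ha, h.mem hb, hd⟩
  have hsub : (B + Pool.Agent.Lib.MP_9e71a3_gt.two a b).support ⊆ B.support.erase a := by
    intro k hk
    rw [Finsupp.mem_support_iff] at hk
    rw [Finset.mem_erase, Finsupp.mem_support_iff]
    constructor
    · rintro rfl
      simp [Pool.Agent.Lib.MP_9e71a3_gt.two, one k ha, hab, z2_add_self] at hk
    · intro h0
      have h1 : a ≠ k := fun e => Finsupp.mem_support_iff.1 ha (e ▸ h0)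
      have h2 : b ≠ k := fun e => Finsupp.mem_support_iff.1 hb (e ▸ h0)
      simp [Pool.Agent.Lib.MP_9e71a3_gt.two, h0, h1.symm, h2.symm] at hk
  obtain ⟨l, hl, e⟩ := ih _ (hn ▸ (Finset.card_le_card hsub).trans_lt (Finset.card_erase_lt_of_mem ha))
    (h.add (Ev.two hch)) rfl
  refine ⟨(a, b) :: l, ?_, ?_⟩
  · intro p hp
    rcases List.mem_cons.1 hp with rfl | hp
    · exact ⟨hch, hab, ha, hb⟩
    · exact ⟨(hl p hp).1, (hl p hp).2.1, Finset.mem_of_mem_erase (hsub (hl p hp).2.2.1),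
        Finset.mem_of_mem_erase (hsub (hl p hp).2.2.2)⟩
  · rw [List.map_cons, List.sum_cons, ← e, add_left_comm, fs_add_self, add_zero]

end Ord3

end Pool.Agent.Lib.MP_9e71a3_gt
end

-- part Pool.Agent.Lib.MP_9e71a3_gt.DualA
section

/-! Duality, part A: the lattice core. -/

set_option autoImplicit false

namespace Pool.Agent.Lib.MP_9e71a3_gt

open Set Metric Filter Topology

open Classical in
/-- indicator of the lattice points of norm `< R` -/
noncomputable def dualH (h R : ℝ) : C0 := fun p => if ‖pt h p‖ < R then 1 else 0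

theorem dualH_finite {h : ℝ} (hh : 0 < h) (R : ℝ) : (Function.support (dualH h R)).Finite := by
  refine (finite_pt_ball hh R).subset fun p hp => ?_
  by_contra hn
  apply hp
  simp only [mem_setOf_eq, not_le] at hn
  simp [dualH, not_lt.2 hn.le]

theorem dual_norm_ee {h : ℝ} (hh : 0 < h) (p : P3) (i : Fin 3) :
    |‖pt h (p + ee i)‖ - ‖pt h p‖| ≤ h := by
  have := abs_norm_sub_norm_le (pt h (p + ee i)) (pt h p)
  rwa [← dist_eq_norm, dist_pt_ee hh] at this

theorem dual_dH {h R : ℝ} (hh : 0 < h) {j : Fin 3} {q : P3} (hq : d0 (dualH h R) (j, q) ≠ 0) :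
    |‖pt h q‖ - R| ≤ h := by
  have h1 := abs_le.1 (dual_norm_ee hh q j)
  rw [abs_le]
  by_contra hn
  apply hq
  simp only [d0, dualH]
  rw [not_and_or, not_le, not_le] at hn
  rcases hn with hn | hn
  · rw [if_pos (by linarith [h1.2]), if_pos (by linarith)]; decide
  · rw [if_neg (by linarith [h1.1]), if_neg (by linarith)]; decide

theorem dual_dH1 {h R : ℝ} (hh : 0 < h) {i j : Fin 3} {q : P3}
    (hq : d0 (dualH h R) (j, q + ee i) ≠ 0) : |‖pt h q‖ - R| ≤ 2 * h := by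
  have h1 := abs_le.1 (dual_norm_ee hh q i)
  have h2 := abs_le.1 (dual_dH hh hq)
  rw [abs_le]; constructor <;> linarith [h1.1, h1.2, h2.1, h2.2]

theorem dual_dH2 {h R : ℝ} (hh : 0 < h) {i j k : Fin 3} {q : P3}
    (hq : d0 (dualH h R) (j, q + ee i + ee k) ≠ 0) : |‖pt h q‖ - R| ≤ 3 * h := by
  have h1 := abs_le.1 (dual_norm_ee hh q i)
  have h2 := abs_le.1 (dual_dH1 hh hq)
  rw [abs_le]; constructor <;> linarith [h1.1, h1.2, h2.1, h2.2]

theorem dual_cup11_ne {h R : ℝ} (hh : 0 < h) {a : C1} {e : Ed}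
    (he : cup11 a (d0 (dualH h R)) e ≠ 0) :
    (∃ j, a (j, e.2) ≠ 0) ∧ |‖pt h e.2‖ - R| ≤ 2 * h := by
  by_cases h1 : a (e.1 + 1, e.2) * d0 (dualH h R) (e.1 + 2, e.2 + ee (e.1 + 1)) = 0
  · have h2 : a (e.1 + 2, e.2) * d0 (dualH h R) (e.1 + 1, e.2 + ee (e.1 + 2)) ≠ 0 := by
      intro h2; apply he; simp only [cup11, h1, h2, add_zero]
    exact ⟨⟨_, left_ne_zero_of_mul h2⟩, dual_dH1 hh (right_ne_zero_of_mul h2)⟩
  · exact ⟨⟨_, left_ne_zero_of_mul h1⟩, dual_dH1 hh (right_ne_zero_of_mul h1)⟩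

theorem dual_cup11_finite {h R : ℝ} (hh : 0 < h) (a : C1) :
    (Function.support (cup11 a (d0 (dualH h R)))).Finite := by
  refine ((finite_univ (α := Fin 3)).prod (finite_pt_ball hh (R + 2 * h))).subset fun e he => ?_
  have := abs_le.1 (dual_cup11_ne hh he).2
  exact ⟨mem_univ _, by simp only [mem_setOf_eq]; linarith [this.2]⟩

theorem dual_sh_apply (z : Z1) (e : Ed) : sh z (e.1, e.2 + ee e.1) = z e := by
  simp [sh]

theorem dual_core {h R : ℝ} (hh : 0 < h) (E : C1) (χ : C0) (VP VM : Z1)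
    (hv : bd1 (VP + VM) = 0)
    (hE : ∀ e : Ed, |‖pt h e.2‖ - R| ≤ 3 * h → d1 E e = sh (VP + VM) e) :
    ∃ y wv t : Z1, d1 (cup01 χ (d0 (dualH h R))) = sh (y + wv) ∧ bd1 (y + wv) = 0 ∧
      bd1 (wv + t) = bd1 VM ∧
      (∀ e ∈ y.support, (∃ j, d0 χ (j, e.2 + ee e.1) ≠ E (j, e.2 + ee e.1)) ∧
        |‖pt h (e.2 + ee e.1)‖ - R| ≤ 2 * h) ∧
      (∀ e ∈ wv.support, (∃ j, E (j, e.2 + ee e.1) ≠ 0) ∧ |‖pt h (e.2 + ee e.1)‖ - R| ≤ 2 * h) ∧
      ∀ e ∈ t.support, (e ∈ VP.support ∧ ‖pt h e.2‖ ≤ R + 3 * h) ∨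
        (e ∈ VM.support ∧ R - 3 * h ≤ ‖pt h e.2‖) := by
  classical
  set H := dualH h R with hH
  obtain ⟨y, hy⟩ := exists_unsh _ (dual_cup11_finite (R := R) hh (d0 χ + E))
  obtain ⟨wv, hw⟩ := exists_unsh _ (dual_cup11_finite (R := R) hh E)
  have hζ : d1 (cup01 χ (d0 H)) = sh (y + wv) := by
    rw [d1_cup01, sh_add, hy, hw]
    funext e
    simp only [cup11, Pi.add_apply]
    have := fun a b c d u v : Z2 => (show (a + b) * u + (c + d) * v + (b * u + d * v) = a * u + c * v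
      by revert a b c d u v; decide)
    exact (this _ _ _ _ _ _).symm
  set P : Ed → Prop := fun e => H (e.2 + ee 0 + ee 1 + ee 2) = 1 with hP
  have hshift : ∀ e : Ed, e.2 + ee (e.1 + 1) + ee (e.1 + 2) =
      e.2 - ee e.1 + ee 0 + ee 1 + ee 2 := by
    rintro ⟨i, p⟩
    fin_cases i
    · simp only [Fin.zero_eta, zero_add]; abel
    · simp only [Fin.mk_one]
      rw [show (1 : Fin 3) + 1 = 2 from rfl, show (1 : Fin 3) + 2 = 0 from rfl]; abel
    · simp only [Fin.reduceFinMk]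
      rw [show (2 : Fin 3) + 1 = 0 from rfl, show (2 : Fin 3) + 2 = 1 from rfl]; abel
  have hin : sh ((VP + VM).filter P) = cup20 (sh (VP + VM)) H := by
    funext e
    simp only [sh, cup20, Finsupp.filter_apply, hP, hshift e]
    rcases z2_cases (H (e.2 - ee e.1 + ee 0 + ee 1 + ee 2)) with h0 | h0
    · rw [h0]; simp
    · rw [h0]; simp
  have hcl : bd1 (wv + (VP + VM).filter P) = 0 := by
    have h1 : (bd1 (wv + (VP + VM).filter P) : P3 → Z2) = d2 (sh (wv + (VP + VM).filter P)) :=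
      (d2_sh _).symm
    ext p
    have h2 := congrFun h1 p
    rw [h2, sh_add, d2_add, hw, hin, Pi.add_apply, d2_cup11, d2_cup20, d2_sh, hv]
    simp only [Finsupp.coe_zero, Pi.zero_apply, zero_mul, zero_add]
    have h3 : cup21 (d1 E) (d0 H) p = cup21 (sh (VP + VM)) (d0 H) p := by
      refine Finset.sum_congr rfl fun i _ => ?_
      by_cases h4 : d0 H (i, p + ee (i + 1) + ee (i + 2)) = 0
      · rw [h4, mul_zero, mul_zero]
      · rw [hE (i, p) (dual_dH2 hh h4)]
    rw [h3, z2_add_self]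
  refine ⟨y, wv, (VP + VM).filter P + VM, hζ, ?_, ?_, ?_, ?_, ?_⟩
  · ext p
    have h2 := congrFun (d2_sh (y + wv)) p
    rw [← h2, ← hζ, d2_d1]; rfl
  · rw [← add_assoc, map_add, hcl, zero_add]
  · intro e he
    have h1 : cup11 (d0 χ + E) (d0 H) (e.1, e.2 + ee e.1) ≠ 0 := by
      rw [← hy, dual_sh_apply]; exact Finsupp.mem_support_iff.1 he
    obtain ⟨⟨j, hj⟩, h2⟩ := dual_cup11_ne hh h1
    refine ⟨⟨j, fun h3 => hj ?_⟩, h2⟩
    simp only [Pi.add_apply, h3, z2_add_self]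
  · intro e he
    have h1 : cup11 E (d0 H) (e.1, e.2 + ee e.1) ≠ 0 := by
      rw [← hw, dual_sh_apply]; exact Finsupp.mem_support_iff.1 he
    exact dual_cup11_ne hh h1
  · intro e he
    rw [Finsupp.mem_support_iff, Finsupp.add_apply, Finsupp.filter_apply] at he
    have n0 := abs_le.1 (dual_norm_ee hh e.2 0)
    have n1 := abs_le.1 (dual_norm_ee hh (e.2 + ee 0) 1)
    have n2 := abs_le.1 (dual_norm_ee hh (e.2 + ee 0 + ee 1) 2)
    by_cases hPe : P e
    · left
      rw [if_pos hPe, Finsupp.add_apply, add_assoc, z2_add_self, add_zero] at he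
      refine ⟨Finsupp.mem_support_iff.2 he, ?_⟩
      have h1 : ‖pt h (e.2 + ee 0 + ee 1 + ee 2)‖ < R := by
        by_contra hn
        simp [hP, hH, dualH, hn] at hPe
      linarith [n0.1, n1.1, n2.1]
    · right
      rw [if_neg hPe, zero_add] at he
      refine ⟨Finsupp.mem_support_iff.2 he, ?_⟩
      have h1 : ¬ ‖pt h (e.2 + ee 0 + ee 1 + ee 2)‖ < R := by
        intro hn
        simp [hP, hH, dualH, hn] at hPe
      linarith [n0.2, n1.2, n2.2, not_lt.1 h1]

/-- chains with links in a finite set form a finite set -/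
theorem dual_finite {X : Type} {S : Set X} (hS : S.Finite) :
    {κ : Ch X | ∀ l ∈ κ.support, l.1 ∈ S ∧ l.2 ∈ S}.Finite := by
  classical
  have h1 : (S ×ˢ S).Finite := hS.prod hS
  refine Set.Finite.of_finite_image (f := fun κ : Ch X => κ.support)
    ((h1.toFinset.powerset.finite_toSet).subset ?_) ?_
  · rintro _ ⟨κ, hκ, rfl⟩
    simp only [Finset.coe_powerset, Finite.coe_toFinset, mem_preimage, mem_powerset_iff]
    intro l hl
    exact hκ l hl
  · intro κ _ κ' _ h
    ext l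
    have h2 : l ∈ κ.support ↔ l ∈ κ'.support := by simp only at h; rw [h]
    simp only [Finsupp.mem_support_iff] at h2
    rcases z2_cases (κ l) with h3 | h3 <;> rcases z2_cases (κ' l) with h4 | h4 <;> simp_all

end Pool.Agent.Lib.MP_9e71a3_gt
end

-- part Pool.Agent.Lib.MP_9e71a3_gt.Order
section

/-! From the four-point relations to a linear order.  JOB E4 (part 1). -/

set_option autoImplicit false

namespace Pool.Agent.Lib.MP_9e71a3_gt

open Set

theorem order_emb {X : Type} (G : Set X) (hG : G.Countable) (r : X → X → Prop)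
    (irr : ∀ x ∈ G, ¬ r x x) (tr : ∀ x ∈ G, ∀ y ∈ G, ∀ z ∈ G, r x y → r y z → r x z)
    (tri : ∀ x ∈ G, ∀ y ∈ G, ¬ r x y → ¬ r y x → x = y) :
    ∃ pos : X → ℝ, ∀ x ∈ G, ∀ y ∈ G, (pos x < pos y ↔ r x y) := by
  classical
  have : Countable G := hG.to_subtype
  let r' : G → G → Prop := fun x y => r x y
  have : IsStrictTotalOrder G r' :=
    { trichotomous := fun x y h1 h2 => Subtype.ext (tri _ x.2 _ y.2 h1 h2)
      irrefl := fun x => irr _ x.2
      trans := fun x y z => tr _ x.2 _ y.2 _ z.2 }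
  let : LinearOrder G := linearOrderOfSTO r'
  obtain ⟨f⟩ := Order.embedding_from_countable_to_dense (α := G) (β := ℝ)
  refine ⟨fun x => if h : x ∈ G then f ⟨x, h⟩ else 0, fun x hx y hy => ?_⟩
  simp only [dif_pos hx, dif_pos hy]
  exact f.lt_iff_lt

open Classical in
/-- the indicator of `x < y` inside a domain with at least four points -/
noncomputable def order_L {X : Type} (dom : X → X) (β : X → X → Z2) (x y : X) : Z2 :=
  (if x = dom x then 1 else β (dom x) x) + β y x + (if y = dom y then 0 else β y (dom y))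

section
variable {X : Type} {dom : X → X} {β : X → X → Z2}

theorem order_L_base {b y : X} (hb : dom b = b) (hy : dom y = b) (h : y ≠ b) :
    order_L dom β b y = 1 ∧ order_L dom β y b = 0 := by
  rw [order_L, order_L, if_pos hb.symm, if_pos hb.symm, if_neg (hy ▸ h), if_neg (hy ▸ h), hy]
  constructor
  · rw [add_assoc, z2_add_self, add_zero]
  · rw [z2_add_self, add_zero]

theorem order_L_gen {b x y : X} (hx : dom x = b) (hy : dom y = b) (h1 : x ≠ b) (h2 : y ≠ b) :
    order_L dom β x y = β b x + β y x + β y b := by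
  rw [order_L, if_neg (hx ▸ h1), if_neg (hy ▸ h2), hx, hy]

theorem order_L_four (a b c d : X) :
    order_L dom β c a + order_L dom β c b + (order_L dom β d a + order_L dom β d b) =
      β a c + β a d + β b c + β b d := by
  have key : ∀ p q s t x y z w : Z2, p + x + s + (p + z + t) + (q + y + s + (q + w + t)) =
      x + y + z + w := fun p q s t x y z w => by
    have h2 : (2 : Z2) = 0 := rfl
    linear_combination (p + q + s + t) * h2
  exact key _ _ _ _ _ _ _ _

end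

theorem exists_pos {X : Type} (G : Set X) (hG : G.Countable) (dom : X → X)
    (hmem : ∀ a ∈ G, dom a ∈ G) (hdom : ∀ a ∈ G, dom (dom a) = dom a) (β : X → X → Z2)
    (cr : X → X → X → X → Z2) (hcr : ∀ a b c d, cr a b c d = β a c + β a d + β b c + β b d)
    (h4 : ∀ a ∈ G, ∀ b ∈ G, ∀ c ∈ G, ∀ d ∈ G, dom a = dom b → dom a = dom c → dom a = dom d →
      a ≠ b → a ≠ c → a ≠ d → b ≠ c → b ≠ d → c ≠ d →
      cr a b c d + cr a c b d + cr b c a d = 1 ∧ cr a b c d * cr b c a d = 0)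
    (hdiff : ∀ a ∈ G, ∀ b ∈ G, ∀ c ∈ G, ∀ d ∈ G, dom a = dom b → dom c = dom d → dom a ≠ dom c →
      cr a b c d = 0) :
    ∃ pos : X → ℝ, (Ord3.mk G dom pos).Good ∧ ∀ a b c d, (Ord3.mk G dom pos).Chord a b →
      (Ord3.mk G dom pos).Chord c d → c ≠ a → c ≠ b → d ≠ a → d ≠ b →
      cr a b c d = (Ord3.mk G dom pos).ind a b c + (Ord3.mk G dom pos).ind a b d := by
  classical
  obtain ⟨n, hn⟩ := countable_iff_exists_injOn.1 hG
  have h2 : (2 : Z2) = 0 := rfl
  set L := order_L dom β with hL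
  have dne : ∀ {x : X}, x ∈ G → dom (dom x) = dom x := fun hx => hdom _ hx
  have anti : ∀ x ∈ G, ∀ y ∈ G, ∀ z ∈ G, dom x = dom y → dom x = dom z → x ≠ y → x ≠ z → y ≠ z →
      z ≠ dom x → L x y + L y x = 1 := by
    intro x hx y hy z hz e1 e2 n1 n2 n3 n4
    by_cases c1 : x = dom x
    · have := order_L_base (β := β) c1.symm (e1.symm.trans c1.symm) n1.symm
      rw [hL, this.1, this.2, add_zero]
    by_cases c2 : y = dom x
    · have := order_L_base (β := β) (e1.symm.trans c2.symm) c2.symm n1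
      rw [hL, this.1, this.2, zero_add]
    have := (h4 _ (hmem x hx) x hx y hy z hz (dne hx) ((dne hx).trans e1) ((dne hx).trans e2)
      (Ne.symm c1) (Ne.symm c2) n4.symm n1 n2 n3).1
    rw [hcr, hcr, hcr] at this
    rw [hL, order_L_gen rfl e1.symm c1 c2, order_L_gen e1.symm rfl c2 c1]
    linear_combination this - (β (dom x) z + β x z + β y z) * h2
  let t : X → X → Z2 := fun x y => if n x < n y then L x y else L y x + 1
  have tsum : ∀ x ∈ G, ∀ y ∈ G, x ≠ y → t x y + t y x = 1 := by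
    intro x hx y hy h
    rcases (show n x ≠ n y from fun e => h (hn hx hy e)).lt_or_gt with c | c
    · simp only [t, if_pos c, if_neg c.not_gt]
      linear_combination L x y * h2
    · simp only [t, if_pos c, if_neg c.not_gt]
      linear_combination L y x * h2
  have teq : ∀ x y, L x y + L y x = 1 → t x y = L x y := by
    intro x y h
    simp only [t]
    split_ifs
    · rfl
    · linear_combination h - (L x y - 1) * h2
  have tb : ∀ y ∈ G, y ≠ dom y → t (dom y) y = 1 ∧ t y (dom y) = 0 := by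
    intro y hy h
    have := order_L_base (β := β) (dne hy) rfl h
    rw [teq _ _ (by rw [hL, this.1, this.2, add_zero]), teq _ _ (by rw [hL, this.1, this.2, zero_add])]
    exact this
  have ttr : ∀ x ∈ G, ∀ y ∈ G, ∀ z ∈ G, dom x = dom y → dom x = dom z → x ≠ y → y ≠ z →
      t x y = 1 → t y z = 1 → x ≠ z ∧ t x z = 1 := by
    intro x hx y hy z hz e1 e2 n1 n3 a1 a2
    have n2 : x ≠ z := by
      rintro rfl
      have := tsum x hx y hy n1
      rw [a1, a2] at this
      exact absurd this (by decide)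
    refine ⟨n2, ?_⟩
    by_cases c1 : x = dom x
    · have := (tb z hz fun e => n2 (c1.trans (e2.trans e.symm))).1
      rwa [← e2, ← c1] at this
    by_cases c2 : y = dom x
    · rw [c2, (tb x hx c1).2] at a1
      exact absurd a1 (by decide)
    by_cases c3 : z = dom x
    · rw [c3, e1, (tb y hy (e1 ▸ c2)).2] at a2
      exact absurd a2 (by decide)
    have b1 := anti x hx y hy z hz e1 e2 n1 n2 n3 c3
    have b2 := anti y hy z hz x hx (e1.symm.trans e2) e1.symm n3 n1.symm n2.symm (e1 ▸ c1)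
    have b3 := anti x hx z hz y hy e2 e1 n2 n1 n3.symm c2
    rw [teq _ _ b1] at a1
    rw [teq _ _ b2] at a2
    rw [teq _ _ b3]
    have := (h4 y hy _ (hmem x hx) z hz x hx (e1.symm.trans (dne hx).symm) (e1.symm.trans e2)
      e1.symm c2 n3 n1.symm (Ne.symm c3) (Ne.symm c1) n2.symm).2
    rw [hcr, hcr, ← order_L_four (dom := dom), ← order_L_four (dom := dom), ← hL] at this
    have z1 : L x (dom x) = 0 := (order_L_base (β := β) (dne hx) rfl c1).2
    have z2 : L y (dom x) = 0 := (order_L_base (β := β) (dne hx) e1.symm c2).2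
    have z3 : L z (dom x) = 0 := (order_L_base (β := β) (dne hx) e2.symm c3).2
    have z4 : L z y = 0 := by linear_combination b2 - a2
    rw [z1, z2, z3, z4, a1, a2] at this
    revert this
    generalize L x z = u
    revert u
    decide
  obtain ⟨pos, hpos⟩ := order_emb G hG
    (fun x y => n (dom x) < n (dom y) ∨ (dom x = dom y ∧ x ≠ y ∧ t x y = 1))
    (fun x _ => by simp) (by
      rintro x hx y hy z hz (a | a) (c | c)
      · exact Or.inl (a.trans c)
      · exact Or.inl (c.1 ▸ a)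
      · exact Or.inl (a.1 ▸ c)
      · exact Or.inr ⟨a.1.trans c.1,
          ttr x hx y hy z hz a.1 (a.1.trans c.1) a.2.1 c.2.1 a.2.2 c.2.2⟩) (by
      intro x hx y hy a c
      rw [not_or] at a c
      have e : dom x = dom y := hn (hmem x hx) (hmem y hy) (le_antisymm (not_lt.1 c.1) (not_lt.1 a.1))
      by_contra h
      have := tsum x hx y hy h
      rw [(z2_cases (t x y)).resolve_right fun h' => a.2 ⟨e, h, h'⟩,
        (z2_cases (t y x)).resolve_right fun h' => c.2 ⟨e.symm, Ne.symm h, h'⟩] at this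
      exact absurd this (by decide))
  have same : ∀ x ∈ G, ∀ y ∈ G, dom x = dom y → x ≠ y → (pos x < pos y ↔ t x y = 1) := by
    intro x hx y hy e h
    rw [hpos x hx y hy, e]
    simp [h]
  have hle : ∀ x ∈ G, ∀ y ∈ G, pos x < pos y → n (dom x) ≤ n (dom y) := fun x hx y hy h =>
    ((hpos x hx y hy).1 h).elim le_of_lt fun h => by rw [h.1]
  have good : (Ord3.mk G dom pos).Good := by
    refine ⟨hG, fun x hx y hy e => ?_, ?_, hmem, hdom, fun a ha => ?_⟩
    · change pos x = pos y at e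
      by_contra h
      have a := (hpos x hx y hy).not.1 e.not_lt
      have c := (hpos y hy x hx).not.1 e.symm.not_lt
      rw [not_or] at a c
      have e : dom x = dom y := hn (hmem x hx) (hmem y hy) (le_antisymm (not_lt.1 c.1) (not_lt.1 a.1))
      have := tsum x hx y hy h
      rw [(z2_cases (t x y)).resolve_right fun h' => a.2 ⟨e, h, h'⟩,
        (z2_cases (t y x)).resolve_right fun h' => c.2 ⟨e.symm, Ne.symm h, h'⟩] at this
      exact absurd this (by decide)
    · rintro a b c ⟨ha, hb, e⟩ hc (h | h)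
      · exact hn (hmem c hc) (hmem a ha)
          (le_antisymm ((hle c hc b hb h.2).trans_eq (congrArg n e.symm)) (hle a ha c hc h.1))
      · exact hn (hmem c hc) (hmem a ha)
          (le_antisymm (hle c hc a ha h.2) ((congrArg n e).trans_le (hle b hb c hc h.1)))
    · change pos (dom a) ≤ pos a
      by_cases h : a = dom a
      · rw [← h]
      · exact ((same _ (hmem a ha) a ha (dne ha) (Ne.symm h)).2 (tb a ha h).1).le
  refine ⟨pos, good, fun a b c d hab hcd ca cb da db => ?_⟩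
  by_cases e : dom a = dom c
  swap
  · have z : ∀ x ∈ G, dom x = dom c → (Ord3.mk G dom pos).ind a b x = 0 := fun x hx h =>
      if_neg fun h' => e ((good.convex a b x hab hx h').symm.trans h)
    rw [hdiff a hab.1 b hab.2.1 c hcd.1 d hcd.2.1 hab.2.2 hcd.2.2 e, z c hcd.1 rfl,
      z d hcd.2.1 hcd.2.2.symm, add_zero]
  by_cases n1 : a = b
  · subst n1
    have z : ∀ x, (Ord3.mk G dom pos).ind a a x = 0 := fun x =>
      if_neg fun h' => h'.elim (fun h => h.1.not_gt h.2) fun h => h.1.not_gt h.2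
    rw [hcr, z, z]
    linear_combination (β a c + β a d) * h2
  by_cases n2 : c = d
  · subst n2
    rw [hcr, z2_add_self ((Ord3.mk G dom pos).ind a b c)]
    linear_combination (β a c + β b c) * h2
  obtain ⟨ha, hb, e1⟩ := id hab
  obtain ⟨hc, hd, e2⟩ := id hcd
  change dom a = dom b at e1
  change dom c = dom d at e2
  have indt : ∀ x ∈ G, dom a = dom x → x ≠ a → x ≠ b →
      (Ord3.mk G dom pos).ind a b x = t x a + t x b := by
    intro x hx ex xa xb
    have s1 := same x hx a ha ex.symm xa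
    have s2 := same x hx b hb (ex.symm.trans e1) xb
    have p1 : pos x ≠ pos a := fun h => xa (good.inj hx ha h)
    have p2 : pos x ≠ pos b := fun h => xb (good.inj hx hb h)
    have f1 : ¬ pos x < pos a → t x a = 0 := fun h =>
      (z2_cases _).resolve_right fun h' => h (s1.2 h')
    have f2 : ¬ pos x < pos b → t x b = 0 := fun h =>
      (z2_cases _).resolve_right fun h' => h (s2.2 h')
    simp only [Ord3.ind, Ord3.Btw]
    rcases p1.lt_or_gt with p1 | p1 <;> rcases p2.lt_or_gt with p2 | p2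
    · rw [s1.1 p1, s2.1 p2, z2_add_self, if_neg (by simp [p1.not_gt, p2.not_gt])]
    · rw [s1.1 p1, f2 p2.not_gt, add_zero, if_pos (Or.inr ⟨p2, p1⟩)]
    · rw [f1 p1.not_gt, s2.1 p2, zero_add, if_pos (Or.inl ⟨p1, p2⟩)]
    · rw [f1 p1.not_gt, f2 p2.not_gt, add_zero, if_neg (by simp [p1.not_gt, p2.not_gt])]
  have big : ∀ x ∈ G, ∀ y ∈ G, ∀ z ∈ G, ∀ w ∈ G, dom x = dom y → dom x = dom z → dom x = dom w →
      x ≠ y → x ≠ z → x ≠ w → y ≠ z → y ≠ w → z ≠ w → t x y = L x y := by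
    intro x hx y hy z hz w hw f1 f2 f3 m1 m2 m3 m4 m5 m6
    by_cases c : z = dom x
    · exact teq _ _ (anti x hx y hy w hw f1 f3 m1 m3 m5 fun h => m6 (c.trans h.symm))
    · exact teq _ _ (anti x hx y hy z hz f1 f2 m1 m2 m4 c)
  have e3 := e.trans e2
  rw [indt c hc e ca cb, indt d hd e3 da db, hcr, ← order_L_four (dom := dom), ← hL,
    big c hc a ha b hb d hd e.symm (e.symm.trans e1) e2 ca cb n2 n1 da.symm db.symm,
    big c hc b hb a ha d hd (e.symm.trans e1) e.symm e2 cb ca n2 (Ne.symm n1) db.symm da.symm,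
    big d hd a ha b hb c hc e3.symm (e3.symm.trans e1) e2.symm da db (Ne.symm n2) n1 ca.symm
      cb.symm,
    big d hd b hb a ha c hc (e3.symm.trans e1) e3.symm e2.symm db da (Ne.symm n2) (Ne.symm n1)
      cb.symm ca.symm]

end Pool.Agent.Lib.MP_9e71a3_gt
end

-- part Pool.Agent.Lib.MP_9e71a3_gt.LamA
section

/-! A null family of chords that makes the space locally connected. -/

set_option autoImplicit false

namespace Pool.Agent.Lib.MP_9e71a3_gt

open Set Metric Filter Topology Relation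

theorem lam_min {α : Type} {F : Set α} (hF : F.Finite) (f : α → ℝ) (h : ∀ a ∈ F, 0 < f a) :
    ∃ r > 0, ∀ a ∈ F, r ≤ f a := by
  rcases F.eq_empty_or_nonempty with rfl | hne
  · exact ⟨1, one_pos, fun _ h => h.elim⟩
  · obtain ⟨a, ha, hm⟩ := Set.exists_min_image F f hF hne
    exact ⟨f a, h a ha, hm⟩

theorem lam_closed {α : Type} {r p : α → α → Prop} {x y : α} (h : ReflTransGen r x y)
    (H : ∀ a b, r a b → ReflTransGen p a b) : ReflTransGen p x y := by
  induction h with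
  | refl => exact ReflTransGen.refl
  | tail _ hbc ih => exact ih.trans (H _ _ hbc)

theorem lam_mono {α : Type} {r p : α → α → Prop} {x y : α} (h : ReflTransGen r x y)
    (H : ∀ a b, r a b → p a b) : ReflTransGen p x y :=
  lam_closed h fun a b hab => ReflTransGen.single (H a b hab)

theorem lam_rtg_finite {α : Type} {r : α → α → Prop} {x y : α} (h : ReflTransGen r x y) :
    ∃ F : Set (α × α), F.Finite ∧ (∀ e ∈ F, r e.1 e.2) ∧
      ReflTransGen (fun p q => (p, q) ∈ F) x y := by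
  induction h with
  | refl => exact ⟨∅, finite_empty, fun _ h => h.elim, ReflTransGen.refl⟩
  | @tail b c _ hbc ih =>
    obtain ⟨F, h1, h2, h3⟩ := ih
    refine ⟨insert (b, c) F, h1.insert _, ?_,
      (lam_mono h3 fun _ _ h => mem_insert_of_mem _ h).tail (mem_insert _ _)⟩
    rintro e (rfl | he)
    · exact hbc
    · exact h2 e he

namespace Str
variable {X : Type} [MetricSpace X] {S : Str X}

/-- a lamination without the non-crossing property -/
structure PreLam (S : Str X) (E : Set (X × X)) : Prop where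
  chord : ∀ e ∈ E, S.Chord e.1 e.2
  ne : ∀ e ∈ E, e.1 ≠ e.2
  symm : ∀ e ∈ E, e.swap ∈ E
  null : ∀ ε > 0, {e ∈ E | ¬ S.small ε e.1 e.2}.Finite
  lc : ∀ ε > 0, ∃ δ > 0, ∀ x y, dist x y < δ → ∀ η > 0,
    ReflTransGen (fun p q => p ∈ ball x ε ∧ q ∈ ball x ε ∧ (dist p q < η ∨ (p, q) ∈ E)) x y

theorem lam_stage [CompactSpace X] (S : Str X) {ε δ η : ℝ} (hδ : 0 < δ) (hη : 0 < η)
    (hδε : δ ≤ ε) (h : ∀ x y, dist x y < δ → ∀ η > 0, ReflTransGen
      (fun p q => p ∈ ball x ε ∧ q ∈ ball x ε ∧ (dist p q < η ∨ S.small ε p q)) x y) :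
    ∃ E : Set (X × X), E.Finite ∧ (∀ e ∈ E, S.small ε e.1 e.2 ∧ e.1 ≠ e.2) ∧
      ∀ x y, dist x y < δ / 3 → ReflTransGen (fun p q => p ∈ ball x (2 * ε) ∧ q ∈ ball x (2 * ε) ∧
        (dist p q < η ∨ (p, q) ∈ E)) x y := by
  obtain ⟨N, -, hN, hc⟩ := finite_cover_balls_of_compact (isCompact_univ (X := X))
    (lt_min hη (show 0 < δ / 3 by positivity))
  have net : ∀ x : X, ∃ x' ∈ N, dist x x' < η ∧ dist x x' < δ / 3 := fun x => by
    obtain ⟨x', h1, h2⟩ := mem_iUnion₂.1 (hc (mem_univ x))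
    exact ⟨x', h1, lt_min_iff.1 h2⟩
  choose! F F1 F2 F3 using fun (z : X × X) (hz : dist z.1 z.2 < δ) =>
    lam_rtg_finite (h z.1 z.2 hz η hη)
  refine ⟨{e | (∃ z ∈ {z ∈ N ×ˢ N | dist z.1 z.2 < δ}, e ∈ F z) ∧ S.small ε e.1 e.2 ∧ e.1 ≠ e.2},
    (((hN.prod hN).subset (sep_subset _ _)).biUnion fun z hz => F1 z hz.2).subset
      fun e he => mem_iUnion₂.2 (by
        obtain ⟨z, h1, h2⟩ := he.1
        exact ⟨z, h1, h2⟩), fun e he => he.2, fun x y hxy => ?_⟩
  obtain ⟨x', hx, a1, a2⟩ := net x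
  obtain ⟨y', hy, b1, b2⟩ := net y
  have d : dist x' y' < δ := by
    have := dist_triangle4 x' x y y'
    rw [dist_comm x' x] at this
    linarith
  have sub : ball x' ε ⊆ ball x (2 * ε) := ball_subset (by
    rw [dist_comm]
    linarith)
  have m1 : x' ∈ ball x' ε := mem_ball_self (by linarith)
  have m2 : y' ∈ ball x' ε := mem_ball'.2 (by linarith)
  refine (ReflTransGen.head ⟨mem_ball_self (by linarith), sub m1, Or.inl a1⟩
    (lam_mono (F3 (x', y') d) fun p q hpq => ?_)).tail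
      ⟨sub m2, mem_ball'.2 (by linarith), Or.inl (by rwa [dist_comm])⟩
  obtain ⟨c1, c2, c3⟩ := F2 _ d _ hpq
  refine ⟨sub c1, sub c2, ?_⟩
  rcases c3 with c3 | c3
  · exact Or.inl c3
  · by_cases e : p = q
    · exact Or.inl (by rwa [e, dist_self])
    · exact Or.inr ⟨⟨(x', y'), ⟨⟨hx, hy⟩, d⟩, hpq⟩, c3, e⟩

theorem exists_preLam [CompactSpace X] (S : Str X) : ∃ E, S.PreLam E := by
  have h1 : ∀ n : ℕ, ∃ δ > 0, δ ≤ (1 / 2 : ℝ) ^ n ∧ ∀ x y, dist x y < δ → ∀ η > 0, ReflTransGen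
      (fun p q => p ∈ ball x ((1 / 2) ^ n) ∧ q ∈ ball x ((1 / 2) ^ n) ∧
        (dist p q < η ∨ S.small ((1 / 2) ^ n) p q)) x y := fun n => by
    obtain ⟨δ, h0, h⟩ := S.LC ((1 / 2) ^ n) (by positivity)
    exact ⟨min δ ((1 / 2) ^ n), by positivity, min_le_right _ _,
      fun x y hxy => h x y (hxy.trans_le (min_le_left _ _))⟩
  choose δ d0 d1 d2 using h1
  choose E E1 E2 E3 using fun n => S.lam_stage (d0 n) (η := δ (n + 1) / 3)
    (div_pos (d0 _) three_pos) (d1 n) (d2 n)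
  have small : ∀ e : X × X, ∀ n, (e ∈ E n ∨ e.swap ∈ E n) →
      S.small ((1 / 2) ^ n) e.1 e.2 ∧ e.1 ≠ e.2 := by
    rintro e n (h | h)
    · exact E2 n e h
    · exact ⟨S.small_symm _ _ _ (E2 n _ h).1, (E2 n _ h).2.symm⟩
  refine ⟨{e | ∃ n, e ∈ E n ∨ e.swap ∈ E n}, ?_, ?_, ?_, fun ε hε => ?_, fun ε hε => ?_⟩
  · rintro e ⟨n, h⟩
    exact S.small_chord _ _ _ (small e n h).1
  · rintro e ⟨n, h⟩
    exact (small e n h).2
  · rintro e ⟨n, h⟩
    exact ⟨n, h.symm⟩
  · obtain ⟨n, hn⟩ := exists_pow_lt_of_lt_one hε (show (1 / 2 : ℝ) < 1 by norm_num)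
    refine ((finite_lt_nat n).biUnion fun k _ =>
      (E1 k).union ((E1 k).preimage Prod.swap_injective.injOn)).subset ?_
    rintro e ⟨⟨k, hk⟩, he⟩
    refine mem_biUnion (show k < n from lt_of_not_ge fun c => he ?_) hk
    exact S.small_mono _ _ _ _ ((pow_le_pow_of_le_one (by norm_num) (by norm_num) c).trans hn.le)
      (small e k hk).1
  · obtain ⟨n, hn⟩ := exists_pow_lt_of_lt_one (show 0 < ε / 4 by positivity)
      (show (1 / 2 : ℝ) < 1 by norm_num)
    refine ⟨δ n / 3, div_pos (d0 n) three_pos, fun x y hxy η hη => ?_⟩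
    have key : ∀ k, ReflTransGen (fun p q =>
        p ∈ ball x (4 * (1 / 2) ^ n - 2 * (1 / 2) ^ (n + k)) ∧
        q ∈ ball x (4 * (1 / 2) ^ n - 2 * (1 / 2) ^ (n + k)) ∧
        (dist p q < δ (n + k + 1) / 3 ∨ (p, q) ∈ {e : X × X | ∃ n, e ∈ E n ∨ e.swap ∈ E n})) x y := by
      intro k
      induction k with
      | zero =>
        refine lam_mono (E3 n x y hxy) fun p q h => ?_
        have e : (4 : ℝ) * (1 / 2) ^ n - 2 * (1 / 2) ^ (n + 0) = 2 * (1 / 2) ^ n := by ring
        rw [e]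
        exact ⟨h.1, h.2.1, h.2.2.imp_right fun h => ⟨n, Or.inl h⟩⟩
      | succ k ih =>
        refine lam_closed ih fun p q h => ?_
        have e : (4 : ℝ) * (1 / 2) ^ n - 2 * (1 / 2) ^ (n + (k + 1)) =
            4 * (1 / 2) ^ n - 2 * (1 / 2) ^ (n + k) + 2 * (1 / 2) ^ (n + k + 1) := by ring
        rw [e]
        have pos : (0 : ℝ) < 2 * (1 / 2) ^ (n + k + 1) := by positivity
        rcases h.2.2 with c | c
        · have sub : ball p (2 * (1 / 2) ^ (n + k + 1)) ⊆ ball x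
              (4 * (1 / 2) ^ n - 2 * (1 / 2) ^ (n + k) + 2 * (1 / 2) ^ (n + k + 1)) :=
            ball_subset (by linarith [mem_ball.1 h.1])
          exact lam_mono (E3 (n + k + 1) p q c) fun u v huv =>
            ⟨sub huv.1, sub huv.2.1, huv.2.2.imp_right fun h => ⟨_, Or.inl h⟩⟩
        · exact ReflTransGen.single ⟨ball_subset_ball (by linarith) h.1,
            ball_subset_ball (by linarith) h.2.1, Or.inr c⟩
    obtain ⟨k, hk⟩ := exists_pow_lt_of_lt_one hη (show (1 / 2 : ℝ) < 1 by norm_num)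
    have pos : (0 : ℝ) < (1 / 2) ^ (n + k) := by positivity
    have a1 : (1 / 2 : ℝ) ^ (n + k + 1) ≤ (1 / 2) ^ k :=
      pow_le_pow_of_le_one (by norm_num) (by norm_num) (by omega)
    have a2 := d1 (n + k + 1)
    have a3 := d0 (n + k + 1)
    exact lam_mono (key k) fun p q h => ⟨ball_subset_ball (by linarith) h.1,
      ball_subset_ball (by linarith) h.2.1, h.2.2.imp_left fun h => by linarith⟩

end Str

end Pool.Agent.Lib.MP_9e71a3_gt
end
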