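import Pool.Agent.Lib.MP_9e71a3_gt.Wall
import Pool.Agent.Lib.MP_9e71a3_gt.LamA

-- part Pool.Agent.Lib.MP_9e71a3_gt.DualBA
section

/-! Duality, part B: definitions and the extension step at a fixed stage. -/

set_option autoImplicit false

namespace Pool.Agent.Lib.MP_9e71a3_gt

open Set Metric Filter Topology

theorem dualb_d1_sum {ι : Type} (s : Finset ι) (E : ι → C1) :
    d1 (∑ i ∈ s, E i) = ∑ i ∈ s, d1 (E i) :=
  map_sum (AddMonoidHom.mk' d1 d1_add) E s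

theorem dualb_d0_sum {ι : Type} (s : Finset ι) (f : ι → C0) :
    d0 (∑ i ∈ s, f i) = ∑ i ∈ s, d0 (f i) :=
  map_sum (AddMonoidHom.mk' d0 d0_add) f s

theorem dualb_sh_sum {ι : Type} (s : Finset ι) (z : ι → Z1) :
    sh (∑ i ∈ s, z i) = ∑ i ∈ s, sh (z i) :=
  map_sum (AddMonoidHom.mk' sh sh_add) z s

theorem dualb_pair_sum {ι : Type} (s : Finset ι) (E : ι → C1) (z : Z1) :
    pair (∑ i ∈ s, E i) z = ∑ i ∈ s, pair (E i) z :=
  map_sum (AddMonoidHom.mk' (fun a : C1 => pair a z) fun a b => pair_add a b z) E s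

theorem dualb_sig_sum {X ι : Type} (O : Ord3 X) (s : Finset ι) (B : ι → X →₀ Z2) (g : X) :
    O.sig (∑ i ∈ s, B i) g = ∑ i ∈ s, O.sig (B i) g :=
  map_sum (AddMonoidHom.mk' (fun B => O.sig B g) fun B B' => Ord3.sig_add B B' g) B s

namespace Cone
variable {X : Type} [MetricSpace X] (K : Cone X)

/-- the union of the tubes over `Y` -/
def Yt (Y : Set X) (ε : ℝ) : Set E3 := {p | ∃ k ∈ Y, p ∈ K.tube ε k}
/-- a shell around the sphere of radius `ρ 9` -/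
def Sz : Set E3 := {p | 2 * K.ρ 9 / 3 ≤ ‖p‖ ∧ ‖p‖ ≤ 3 * K.ρ 9 / 2}

/-- the data at stage `n` -/
structure DualData (Y O : Set X) (χ : X → Z2) (R μw μ1 : ℝ) (n : ℕ) (z : Ch E3) (E : C1)
    (χ' : C0) : Prop where
  eq : ∀ e : Ed, pt (ms n) e.2 ∈ K.W1 → d1 E e = sh (rho (ms n) z) e
  dirty : ∀ e : Ed, pt (ms n) e.2 ∈ K.W2 → pt (ms n) e.2 ∉ K.clean μw → E e = 0
  pot : ∀ e : Ed, pt (ms n) e.2 ∈ K.Sz → pt (ms n) e.2 ∉ K.Yt Y (3 * R) → d0 χ' e = E e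
  test : ∀ p : P3, ∀ x ∈ O, ∀ s ∈ Icc (0:ℝ) 1, pt (ms n) p ∈ K.Sz →
    dist (pt (ms n) p) (K.e x s) ≤ μ1 → χ' p = χ x

/-- a larger shell -/
def dualbS : Set E3 := {p | K.ρ 9 / 2 ≤ ‖p‖ ∧ ‖p‖ ≤ 2 * K.ρ 9}
/-- the region in which components are taken -/
def dualbO (Y : Set X) (R : ℝ) : Set E3 := (K.W \ K.C) \ K.Yt Y R
/-- the compact collar of the cone -/
def dualbK (Y : Set X) (R ν : ℝ) : Set E3 :=
  {p | p ∈ K.dualbS ∧ ν ≤ infDist p K.C ∧ p ∉ K.clean (2 * ν) ∧ p ∉ K.Yt Y (2 * R)}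

variable {K}

theorem dualb_clean_near {μ μ' r : ℝ} {p q : E3} (hp : p ∈ K.clean μ) (hd : dist q p ≤ r)
    (h : μ' + r ≤ μ) : q ∈ K.clean μ' := fun x s hs => by
  have h1 := hp x s hs
  have h2 := dist_triangle_left p (K.e x s) q
  linarith

theorem dualb_clean_anti {μ μ' : ℝ} (h : μ' ≤ μ) : K.clean μ ⊆ K.clean μ' :=
  fun _ hp x s hs => h.trans_lt (hp x s hs)

theorem dualb_dirty {μ : ℝ} {p : E3} :
    p ∉ K.clean μ ↔ ∃ x, ∃ s ∈ Icc (0:ℝ) 1, dist p (K.e x s) ≤ μ := by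
  simp [clean, and_assoc]

theorem dualb_Yt_far {Y : Set X} {ε ε' r : ℝ} {p q : E3} (hp : p ∉ K.Yt Y ε') (hd : dist q p ≤ r)
    (h : ε + r ≤ ε') : q ∉ K.Yt Y ε := fun ⟨k, hk, s, hs, hq⟩ => hp ⟨k, hk, s, hs, by
  have h2 := dist_triangle_left p (K.e k s) q
  linarith⟩

variable (K) [CompactSpace X] [ConnectedSpace X]

theorem dualb_isOpen_Yt (Y : Set X) (ε : ℝ) : IsOpen (K.Yt Y ε) := by
  have : K.Yt Y ε = ⋃ k ∈ Y, K.tube ε k := by
    ext p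
    simp [Yt]
  rw [this]
  exact isOpen_biUnion fun k _ => K.isOpen_tube ε k

theorem dualb_isCompact (Y : Set X) (R ν : ℝ) : IsCompact (K.dualbK Y R ν) := by
  refine (isCompact_closedBall (0 : E3) (2 * K.ρ 9)).of_isClosed_subset ?_
    fun p hp => mem_closedBall_zero_iff.2 hp.1.2
  exact ((isClosed_le continuous_const continuous_norm).inter
    (isClosed_le continuous_norm continuous_const)).inter
    ((isClosed_le continuous_const (continuous_infDist_pt _)).inter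
      ((K.isOpen_clean _).isClosed_compl.inter (K.dualb_isOpen_Yt Y _).isClosed_compl))

variable {K}

theorem dualb_joined_clean {U : Set E3} (hU : ∀ z ∈ U, z ∉ K.C) {p q : E3} (h : JoinedIn U p q) :
    ∀ᶠ μ in 𝓝[>] (0 : ℝ), JoinedIn (U ∩ K.clean μ) p q := by
  obtain ⟨γ, hγ⟩ := h
  obtain ⟨μ, hμ, h1⟩ := K.exists_clean (isCompact_range γ.continuous)
    (disjoint_left.2 fun _ ⟨t, ht⟩ => ht ▸ hU _ (hγ t))
  filter_upwards [Ioo_mem_nhdsGT hμ] with μ' h2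
  exact ⟨γ, fun t => ⟨hγ t, dualb_clean_anti h2.2.le (h1 ⟨t, rfl⟩)⟩⟩

theorem dualb_W_near {p q : E3} (hp : p ∈ K.W) (hd : dist q p ≤ K.ρ 13) :
    q ∈ K.W0 ∧ q ∈ K.W2 := by
  have h1 := K.ρ_anti (i := 12) (j := 13) (by norm_num) (by norm_num)
  have h2 := K.ρ_anti (i := 13) (j := 14) (by norm_num) (by norm_num)
  have h3 := K.ρ_anti (i := 4) (j := 6) (by norm_num) (by norm_num)
  have h4 := K.ρ_anti (i := 6) (j := 12) (by norm_num) (by norm_num)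
  have h5 := K.ρ_pos 14
  have h6 := setup_norm_le q p
  have h7 := setup_norm_le' q p
  obtain ⟨h8, h9⟩ := hp
  refine ⟨⟨?_, ?_⟩, ?_, ?_⟩ <;> linarith

theorem dualb_S_near {p q : E3} (hp : p ∈ K.dualbS) (hd : dist q p ≤ K.ρ 13) : q ∈ K.W := by
  have h1 := K.ρ_anti (i := 12) (j := 13) (by norm_num) (by norm_num)
  have h2 := K.ρ_anti (i := 9) (j := 12) (by norm_num) (by norm_num)
  have h3 := K.ρ_anti (i := 6) (j := 9) (by norm_num) (by norm_num)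
  have h5 := K.ρ_pos 13
  have h6 := setup_norm_le q p
  have h7 := setup_norm_le' q p
  obtain ⟨h8, h9⟩ := hp
  constructor <;> linarith

theorem dualb_Sz_near {p q : E3} (hp : p ∈ K.Sz) (hd : dist q p ≤ K.ρ 13) : q ∈ K.dualbS := by
  have h2 := K.ρ_anti (i := 9) (j := 13) (by norm_num) (by norm_num)
  have h5 := K.ρ_pos 13
  have h6 := setup_norm_le q p
  have h7 := setup_norm_le' q p
  obtain ⟨h8, h9⟩ := hp
  constructor <;> linarith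

theorem dualb_lev {p : E3} (hp : p ∈ K.dualbS) {x : X} {s : ℝ} (hs : s ∈ Icc (0:ℝ) 1)
    (hd : dist p (K.e x s) ≤ K.ρ 13) : s ∈ Icc (K.τ 8) (K.τ 9) := by
  have h2 := K.ρ_anti (i := 9) (j := 13) (by norm_num) (by norm_num)
  have h5 := K.ρ_pos 13
  have h6 := setup_norm_le p (K.e x s)
  have h7 := setup_norm_le' p (K.e x s)
  obtain ⟨h8, h9⟩ := hp
  exact ⟨(K.lev_gt (i := 8) (x := x) hs (by linarith)).le,
    (K.lev_lt (i := 8) (x := x) hs (by linarith)).le⟩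

theorem dualb_ball_sub {Y : Set X} {R ε : ℝ} {p : E3} (hp : p ∈ K.dualbS) (hY : p ∉ K.Yt Y (2 * R))
    (h1 : ε ≤ K.ρ 13) (h2 : ε ≤ R) {z : E3} (hz : dist z p ≤ ε) : z ∈ K.W ∧ z ∉ K.Yt Y R :=
  ⟨dualb_S_near hp (hz.trans h1), dualb_Yt_far hY hz (by linarith)⟩

/-- evaluation of a cochain along a fine chain -/
theorem dualb_path {Y : Set X} {R μ r h : ℝ} {E : C1} {f : C0} (hh : 0 < h) (hr : h ≤ r)
    (h1 : 2 * r ≤ K.ρ 13) (h2 : 4 * r ≤ μ) (h3 : 4 * r ≤ R)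
    (hE : ∀ e : Ed, pt h e.2 ∈ K.W0 ∩ K.clean (μ / 2) → pt h e.2 ∉ K.Yt Y (R / 2) → E e = d0 f e)
    {m : Ch E3} {p q : E3} (hm : bd m = two p q)
    (ha : All (fun a b => (a ∈ K.W ∧ a ∉ K.Yt Y R ∧ a ∈ K.clean μ) ∧ dist a b < r) m) :
    pair E (rho h m) = f (fl h p) + f (fl h q) := by
  rw [pair_congr (b := d0 f), pair_d0_rho, hm, pair_two]
  · rfl
  intro e he
  obtain ⟨l, hl, h4, -⟩ := rho_support hh he
  obtain ⟨⟨h5, h6, h7⟩, h8⟩ := ha l hl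
  have h9 : dist (pt h e.2) l.1 ≤ 2 * r := by linarith
  exact hE e ⟨(dualb_W_near h5 (h9.trans h1)).1, dualb_clean_near h7 h9 (by linarith)⟩
    (dualb_Yt_far h6 h9 (by linarith))

theorem dualb_zero {μ r h : ℝ} {E : C1} (hh : 0 < h) (hr : h ≤ r) (h1 : 2 * r ≤ K.ρ 13)
    (h2 : 4 * r ≤ μ) (hE : ∀ e : Ed, pt h e.2 ∈ K.W2 → pt h e.2 ∉ K.clean μ → E e = 0) {m : Ch E3}
    (ha : All (fun a b => (a ∈ K.W ∧ a ∉ K.clean (μ / 2)) ∧ dist a b < r) m) :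
    pair E (rho h m) = 0 := by
  refine pair_eq_zero fun e he => ?_
  obtain ⟨l, hl, h4, -⟩ := rho_support hh he
  obtain ⟨⟨h5, h6⟩, h8⟩ := ha l hl
  have h9 : dist (pt h e.2) l.1 ≤ 2 * r := by linarith
  exact hE e (dualb_W_near h5 (h9.trans h1)).2 fun hc =>
    h6 (dualb_clean_near hc (dist_comm l.1 _ ▸ h9) (by linarith))

theorem dualb_ext {Y X2 : Set X} {χ : X → Z2} {R ν ε μ μw η r h : ℝ} {T : Set E3} {g : E3 → X}
    {q : E3 → E3} {E : C1} {f : C0} (hh : 0 < h) (hr : h ≤ r) (h1 : 2 * r ≤ K.ρ 13)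
    (h2 : 4 * r ≤ μ) (h4 : 2 * μ ≤ ν) (h5 : 2 * ν ≤ ε) (h6 : ε ≤ K.ρ 13) (h7 : 2 * ε ≤ R)
    (h8 : 4 * ε ≤ μw) (h9 : 4 * ε ≤ η)
    (hX : ∀ p x, ∀ s ∈ Icc (0:ℝ) 1, p ∉ K.Yt Y R → dist p (K.e x s) ≤ R / 2 → x ∈ X2)
    (hη : ∀ x ∈ X2, ∀ y, ∀ s ∈ Icc (0:ℝ) (K.τ 16), ∀ t ∈ Icc (0:ℝ) 1,
      dist (K.e x s) (K.e y t) ≤ η → χ y = χ x)
    (hT : T ⊆ K.dualbK Y R ν) (hT' : K.dualbK Y R ν ⊆ ⋃ p ∈ T, ball p (ν / 2))
    (hq : ∀ p ∈ T, JoinedIn (ball p ε \ K.C ∩ K.clean μ) p (q p) ∧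
      ∃ t ∈ Icc (0:ℝ) 1, K.e (g p) t ∈ ball p ε)
    (hval : ∀ p ∈ T, ∀ p' ∈ T, JoinedIn (K.dualbO Y R) (q p) (q p') →
      χ (g p) + f (fl h (q p)) = χ (g p') + f (fl h (q p')))
    (hE : ∀ e : Ed, pt h e.2 ∈ K.W0 ∩ K.clean (μ / 2) → pt h e.2 ∉ K.Yt Y (R / 2) → E e = d0 f e)
    (hE0 : ∀ e : Ed, pt h e.2 ∈ K.W2 → pt h e.2 ∉ K.clean μw → E e = 0) :
    ∃ χ' : C0, (∀ e : Ed, pt h e.2 ∈ K.Sz → pt h e.2 ∉ K.Yt Y (3 * R) → d0 χ' e = E e) ∧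
      ∀ p : P3, ∀ x ∈ X2, ∀ s ∈ Icc (0:ℝ) 1, pt h p ∈ K.Sz →
        dist (pt h p) (K.e x s) ≤ ν → χ' p = χ x := by
  classical
  have hx : ∀ z : E3, ∃ x : X, z ∉ K.clean ν → ∃ s ∈ Icc (0:ℝ) 1, dist z (K.e x s) ≤ ν := fun z => by
    by_cases hz : z ∈ K.clean ν
    · exact ⟨Classical.arbitrary X, fun h' => absurd hz h'⟩
    · obtain ⟨x, hx⟩ := dualb_dirty.1 hz
      exact ⟨x, fun _ => hx⟩
  choose xx hxx using hx
  let c : E3 → Z2 := fun z => if ∃ p ∈ T, JoinedIn (K.dualbO Y R) z (q p) ∧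
    χ (g p) + f (fl h (q p)) = 1 then 1 else 0
  have c1 : ∀ z z', JoinedIn (K.dualbO Y R) z z' → c z = c z' := fun z z' hj =>
    if_congr (exists_congr fun p => and_congr_right fun _ => and_congr_left fun _ =>
      ⟨fun h' => hj.symm.trans h', fun h' => hj.trans h'⟩) rfl rfl
  have c2 : ∀ z, ∀ p ∈ T, JoinedIn (K.dualbO Y R) z (q p) → c z = χ (g p) + f (fl h (q p)) := by
    intro z p hp hj
    rcases z2_cases (χ (g p) + f (fl h (q p))) with h0 | h0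
    · rw [h0]
      refine if_neg ?_
      rintro ⟨p', hp', hj', h'⟩
      rw [hval p hp p' hp' (hj.symm.trans hj'), h'] at h0
      exact one_ne_zero h0
    · rw [h0]
      exact if_pos ⟨p, hp, hj, h0⟩
  let χ' : C0 := fun P => if pt h P ∈ K.clean ν then f P + c (pt h P) else χ (xx (pt h P))
  have hlev : ∀ {z : E3}, z ∈ K.dualbS → ∀ {x : X} {s : ℝ}, s ∈ Icc (0:ℝ) 1 →
      dist z (K.e x s) ≤ 2 * ν → s ∈ Icc (0:ℝ) (K.τ 16) := fun hz _ _ hs hd =>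
    ⟨hs.1, (dualb_lev hz hs (by linarith)).2.trans (K.τ_mono (by norm_num)).le⟩
  have dirty : ∀ P : P3, pt h P ∈ K.dualbS → pt h P ∉ K.clean ν → ∀ x ∈ X2, ∀ s ∈ Icc (0:ℝ) 1,
      dist (pt h P) (K.e x s) ≤ 2 * ν → χ' P = χ x := by
    intro P hP hc x hx s hs hd
    obtain ⟨t, ht, hd'⟩ := hxx _ hc
    have := dist_triangle_left (K.e x s) (K.e (xx (pt h P)) t) (pt h P)
    simp only [χ', if_neg hc]
    exact hη x hx _ s (hlev hP hs hd) t ht (by linarith)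
  have key : ∀ P : P3, pt h P ∈ K.dualbS → pt h P ∉ K.Yt Y (2 * R) → ∀ x, ∀ s ∈ Icc (0:ℝ) 1,
      dist (pt h P) (K.e x s) ≤ 2 * ν → χ' P = χ x := by
    intro P hP hY x s hs hd
    have hx := hX _ x s hs (dualb_Yt_far hY (dist_self _).le (by linarith)) (by linarith)
    by_cases hc : pt h P ∈ K.clean ν
    swap
    · exact dirty P hP hc x hx s hs hd
    obtain ⟨p, hp, hb⟩ := mem_iUnion₂.1 (hT' ⟨hP, (K.setup_mem_clean.1 hc).le,
      dualb_dirty.2 ⟨x, s, hs, hd⟩, hY⟩)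
    obtain ⟨e1, t, ht, e2⟩ := hq p hp
    obtain ⟨e3, e4, -, e5⟩ := hT hp
    have e6 : JoinedIn (ball p ε \ K.C ∩ K.clean μ) (pt h P) (q p) := by
      refine (JoinedIn.of_segment_subset (((convex_ball p (ν / 2)).segment_subset hb
        (mem_ball_self (by linarith))).trans fun z hz => ?_)).trans e1
      have e7 : z ∈ K.clean μ := by
        rw [K.setup_mem_clean]
        have := infDist_le_infDist_add_dist (x := p) (y := z) (s := K.C)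
        rw [mem_ball, dist_comm] at hz
        linarith
      exact ⟨⟨ball_subset_ball (by linarith) hz, K.clean_not_mem (by linarith) e7⟩, e7⟩
    have e8 : ∀ z ∈ ball p ε, z ∈ K.W ∧ z ∉ K.Yt Y R := fun z hz =>
      dualb_ball_sub e3 e5 h6 (by linarith) (mem_ball.1 hz).le
    obtain ⟨m, hm, ha⟩ := exists_fine_chain e6 (hh.trans_le hr)
    have e9 := dualb_path hh hr h1 h2 (by linarith) hE hm
      (ha.mono fun a b hab => ⟨⟨(e8 a hab.1.1.1).1, (e8 a hab.1.1.1).2, hab.1.2⟩, hab.2.2⟩)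
    rw [dualb_zero hh hr h1 (by linarith) hE0 (ha.mono fun a b hab => ⟨⟨(e8 a hab.1.1.1).1,
      dualb_dirty.2 ⟨g p, t, ht, by
        have := dist_triangle_right a (K.e (g p) t) p
        have := mem_ball.1 hab.1.1.1
        have := mem_ball.1 e2
        linarith⟩⟩, hab.2.2⟩), fl_pt hh] at e9
    have e10 : χ (g p) = χ x := by
      refine hη x hx _ s (hlev hP hs hd) t ht ?_
      have := dist_triangle_left (K.e x s) p (pt h P)
      have := dist_triangle_right (K.e x s) (K.e (g p) t) p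
      have := mem_ball.1 e2
      have := mem_ball.1 hb
      linarith
    simp only [χ', if_pos hc]
    rw [c2 _ p hp (e6.mono fun z hz => ⟨⟨(e8 z hz.1.1).1, hz.1.2⟩, (e8 z hz.1.1).2⟩), e10,
      add_left_comm, ← e9, add_zero]
  refine ⟨χ', fun e he hY => ?_, fun P x hx s hs hP hd => dirty P
    (dualb_Sz_near hP ((dist_self _).le.trans (K.ρ_pos 13).le)) (dualb_dirty.2 ⟨x, s, hs, hd⟩)
    x hx s hs (by linarith)⟩
  have e0 := dist_pt_ee hh e.2 e.1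
  have e1 : ∀ z, dist z (pt h e.2) ≤ h → z ∈ K.dualbS ∧ z ∉ K.Yt Y (2 * R) := fun z hz =>
    ⟨dualb_Sz_near he (by linarith), dualb_Yt_far hY hz (by linarith)⟩
  have e2 := e1 _ ((dist_self _).le.trans hh.le)
  have e3 := e1 _ e0.le
  have e4 := dualb_W_near (dualb_S_near e2.1 ((dist_self _).le.trans (K.ρ_pos 13).le))
    ((dist_self _).le.trans (K.ρ_pos 13).le)
  by_cases hc : pt h e.2 ∈ K.clean ν ∧ pt h (e.2 + ee e.1) ∈ K.clean ν
  · have e5 : c (pt h (e.2 + ee e.1)) = c (pt h e.2) := by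
      refine c1 _ _ (JoinedIn.of_segment_subset (((convex_closedBall (pt h e.2) h).segment_subset
        (mem_closedBall.2 e0.le) (mem_closedBall_self hh.le)).trans fun z hz => ?_))
      have e6 := dualb_ball_sub e2.1 e2.2 (ε := h) (by linarith) (by linarith) (mem_closedBall.1 hz)
      exact ⟨⟨e6.1, K.clean_not_mem le_rfl
        (dualb_clean_near hc.1 (mem_closedBall.1 hz) (by linarith))⟩, e6.2⟩
    rw [hE e ⟨e4.1, dualb_clean_anti (by linarith) hc.1⟩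
      (dualb_Yt_far hY (dist_self _).le (by linarith))]
    simp only [d0, χ', if_pos hc.1, if_pos hc.2, e5]
    rw [add_add_add_comm, z2_add_self, add_zero]
  · obtain ⟨x, s, hs, e5, e6⟩ : ∃ x, ∃ s ∈ Icc (0:ℝ) 1, dist (pt h e.2) (K.e x s) ≤ 2 * ν ∧
        dist (pt h (e.2 + ee e.1)) (K.e x s) ≤ 2 * ν := by
      rcases not_and_or.1 hc with hc | hc <;> obtain ⟨x, s, hs, hd⟩ := dualb_dirty.1 hc
      · have := dist_triangle (pt h (e.2 + ee e.1)) (pt h e.2) (K.e x s)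
        exact ⟨x, s, hs, by linarith, by linarith⟩
      · have := dist_triangle_left (pt h e.2) (K.e x s) (pt h (e.2 + ee e.1))
        exact ⟨x, s, hs, by linarith, by linarith⟩
    rw [hE0 e e4.2 (dualb_dirty.2 ⟨x, s, hs, by linarith⟩), d0, key _ e2.1 e2.2 x s hs e5,
      key _ e3.1 e3.2 x s hs e6, z2_add_self]

end Cone

end Pool.Agent.Lib.MP_9e71a3_gt
end

-- part Pool.Agent.Lib.MP_9e71a3_gt.DualB
section

/-! Duality, part B: extension of the function to the lattice.  JOB DualB. -/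

set_option autoImplicit false

namespace Pool.Agent.Lib.MP_9e71a3_gt

open Set Metric Filter Topology

theorem dualb_lebesgue {X : Type} [MetricSpace X] {Y A : Set X} (hA : IsCompact A)
    (hd : ∀ x ∈ A, x ∉ Y) {χ : X → Z2} (hχ : ∀ x ∉ Y, ∀ᶠ x' in 𝓝 x, χ x' = χ x) :
    ∃ l > 0, ∀ x ∈ A, ∀ y, dist x y < l → χ y = χ x := by
  obtain ⟨l, hl, h⟩ := lebesgue_number_lemma_of_metric (c := fun v : Z2 => interior {x | χ x = v})
    hA (fun _ => isOpen_interior) fun x hx =>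
      mem_iUnion.2 ⟨χ x, mem_interior_iff_mem_nhds.2 (hχ x (hd x hx))⟩
  refine ⟨l, hl, fun x hx y hy => ?_⟩
  obtain ⟨v, hv⟩ := h x hx
  have h1 : χ y = v := interior_subset (s := {x | χ x = v}) (hv (mem_ball'.2 hy))
  have h2 : χ x = v := interior_subset (s := {x | χ x = v}) (hv (mem_ball_self hl))
  rw [h1, h2]

namespace Germs
variable {X : Type} [MetricSpace X] [CompactSpace X] [ConnectedSpace X] {K : Cone X} (Γ : Germs K)

/-- the order realises the crossing form -/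
def OrdOK (pos : X → ℝ) : Prop :=
  (Γ.ord pos).Good ∧ ∀ a b c d, (Γ.ord pos).Chord a b → (Γ.ord pos).Chord c d → c ≠ a → c ≠ b →
    d ≠ a → d ≠ b → Γ.cr a b c d = (Γ.ord pos).ind a b c + (Γ.ord pos).ind a b d

theorem dualb_wall {R : ℝ} (hR : 0 < R) : ∃ δ0 > 0, ∀ δ ≤ δ0, ∀ a ∈ Γ.G, ∀ b ∈ Γ.G,
    Γ.dom a = Γ.dom b → ∀ (va : Vert Γ a δ) (vb : Vert Γ b δ), ∀ᶠ μw in 𝓝[>] (0 : ℝ), ∀ μ > 0,
      ∀ᶠ n in atTop, ∃ (E : C1) (f : C0),
        (∀ e : Ed, pt (ms n) e.2 ∈ K.W1 → d1 E e = sh (rho (ms n) (va.vf n + vb.vf n)) e) ∧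
        (∀ e : Ed, pt (ms n) e.2 ∈ K.W2 → pt (ms n) e.2 ∉ K.clean μw → E e = 0) ∧
        ∀ e : Ed, pt (ms n) e.2 ∈ K.W0 ∩ K.clean μ → pt (ms n) e.2 ∉ K.tube R a →
          pt (ms n) e.2 ∉ K.tube R b → E e = d0 f e := by
  obtain ⟨δ1, h1, h2⟩ := Γ.wall_fat
  obtain ⟨δ2, h3, h4⟩ := Γ.vert_thin (r := R / 2) (by positivity)
  refine ⟨min δ1 δ2, lt_min h1 h3, fun δ hδ a ha b hb hab va vb => ?_⟩
  rw [le_min_iff] at hδ
  obtain ⟨μ0, h5, h6⟩ := h2 δ hδ.1 δ hδ.1 a ha b hb hab va vb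
  filter_upwards [Ioo_mem_nhdsGT h5] with μw hw μ hμ
  filter_upwards [h6, h4 δ hδ.2 a ha va, h4 δ hδ.2 b hb vb, K.cf hμ,
    ms_small (show 0 < R / 6 by positivity)] with n ⟨E, hE⟩ e1 e2 e3 e4
  have prim : ∀ (k : X) (c : Ch E3), Null (K.Bl {k} (K.τ 1) (K.τ 16) (R / 2)) c →
      ∃ U : C1, d1 U = sh (rho (ms n) c) ∧ ∀ e : Ed, pt (ms n) e.2 ∉ K.tube R k → U e = 0 := by
    intro k c hc
    obtain ⟨U, e5, e6⟩ := hc.primitive (ms_pos n)
    refine ⟨U, e5, fun e he => by_contra fun h => he ?_⟩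
    obtain ⟨_, ⟨x, rfl, s, hs, rfl⟩, hd⟩ := e6 e h
    exact ⟨s, ⟨(K.τ_nonneg 1).trans hs.1, hs.2.trans (K.τ_lt_one 16).le⟩, by
      dsimp only at hd
      linarith⟩
  obtain ⟨Ua, a1, a2⟩ := prim a _ e1.2.2
  obtain ⟨Ub, b1, b2⟩ := prim b _ e2.2.2
  obtain ⟨f, hf, -⟩ := e3 a b (E + Ua + Ub) fun e he => by
    rw [d1_add, d1_add, Pi.add_apply, Pi.add_apply, hE.eq e he, a1, b1, ← Pi.add_apply (sh _),
      ← Pi.add_apply (sh _ + sh _), ← sh_add, ← sh_add, ← map_add, ← map_add]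
    congr 2
    ext l
    simp only [Finsupp.add_apply]
    grind
  refine ⟨E, f, hE.eq, fun e he hc => by_contra fun h =>
    hc (Cone.dualb_clean_anti hw.2.le (hE.supp e he h).target_mem.1.2), fun e he h7 h8 => ?_⟩
  rw [← hf e he, Pi.add_apply, Pi.add_apply, a2 e h7, b2 e h8, add_zero, add_zero]

theorem dualb_local {Y : Set X} {R ε : ℝ} (hε : 0 < ε) (h1 : ε ≤ K.ρ 13) (h2 : ε ≤ R) :
    ∃ δ > 0, ∀ ν, 0 < ν → ν ≤ δ → ∃ (g : E3 → X) (u : E3 → ℝ), ∀ p ∈ K.dualbK Y R ν,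
      g p ∈ Γ.G ∧ g p ∉ Y ∧ u p ∈ Ioc (0:ℝ) 1 ∧ (∀ w ∈ Icc 0 (u p), Γ.leg (g p) w ∈ ball p ε) ∧
        JoinedIn (ball p ε \ K.C) p (Γ.leg (g p) (u p)) := by
  obtain ⟨δ, hδ, h⟩ := Γ.dense ε hε
  refine ⟨min (δ / 3) (ε / 2), by positivity, fun ν hν hν' => ?_⟩
  rw [le_min_iff] at hν'
  have key : ∀ p : E3, ∃ (g : X) (u : ℝ), p ∈ K.dualbK Y R ν → g ∈ Γ.G ∧ g ∉ Y ∧ u ∈ Ioc (0:ℝ) 1 ∧
      (∀ w ∈ Icc 0 u, Γ.leg g w ∈ ball p ε) ∧ JoinedIn (ball p ε \ K.C) p (Γ.leg g u) := by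
    intro p
    by_cases hp : p ∈ K.dualbK Y R ν
    swap
    · exact ⟨Classical.arbitrary X, 0, fun h' => absurd h' hp⟩
    obtain ⟨e1, e2, e3, e4⟩ := hp
    obtain ⟨x, s, hs, hd⟩ := Cone.dualb_dirty.1 e3
    obtain ⟨g, hg, u, hu, e5, e6⟩ := h p (K.clean_not_mem le_rfl (K.setup_mem_clean.2
      (hν.trans_le e2))) x s (Cone.dualb_lev e1 hs (by linarith)) (by linarith)
    refine ⟨g, u, fun _ => ⟨hg, fun hY => e4 ⟨g, hY, Γ.lv g, Γ.lv_mem01 hg, ?_⟩, hu, e5, e6⟩⟩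
    have := mem_ball'.1 (e5 0 ⟨le_rfl, hu.1.le⟩)
    rw [Γ.leg_zero g hg] at this
    linarith
  choose g u h using key
  exact ⟨g, u, h⟩

theorem dual_key1 {pos : X → ℝ} (hpos : Γ.OrdOK pos) {Y : Set X} (hY : IsClosed Y) {R : ℝ}
    (hR : 0 < R) (hR' : R ≤ K.ρ 17) : ∃ δ > 0, ∃ δv > 0, δv ≤ R ∧
    ∀ (ι : Type) [Fintype ι] (a b : ι → X) (χ : X → Z2) (va : ∀ i, Vert Γ (a i) δv)
      (vb : ∀ i, Vert Γ (b i) δv) (O : Set X), IsCompact O → Disjoint O Y →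
      (∀ i, (Γ.ord pos).Chord (a i) (b i) ∧ a i ∈ Y ∧ b i ∈ Y) →
      (∀ x ∉ Y, ∀ᶠ x' in 𝓝 x, χ x' = χ x) →
      (∀ g g', (Γ.ord pos).Chord g g' → g ∉ Y → g' ∉ Y →
        (∀ k ∈ Y, ∀ k' ∈ Y, Γ.small δ k k' → ¬ (Γ.ord pos).Cross k k' g g') →
        χ g + χ g' = (Γ.ord pos).sig (∑ i, two (a i) (b i)) g +
          (Γ.ord pos).sig (∑ i, two (a i) (b i)) g') →
      ∃ μw > 0, ∃ μ1 > 0, ∀ᶠ n in hyperfilter ℕ, ∃ (E : C1) (χ' : C0),
        K.DualData Y O χ R μw μ1 n (∑ i, ((va i).vf n + (vb i).vf n)) E χ' := by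
  obtain ⟨δ, hδ, hxd⟩ := Γ.xd_cr hR
  obtain ⟨δ1, hδ1, hw⟩ := Γ.dualb_wall (R := R / 2) (by positivity)
  obtain ⟨δ2, hδ2, htv⟩ := Γ.tv (r := R / 2) (by positivity)
  refine ⟨δ, hδ, min R (min δ1 δ2), by positivity, min_le_left _ _, ?_⟩
  intro ι _ a b χ va vb O hO hOY hab hχ hyp
  have hv1 : min R (min δ1 δ2) ≤ δ1 := (min_le_right _ _).trans (min_le_left _ _)
  have hv2 : min R (min δ1 δ2) ≤ δ2 := (min_le_right _ _).trans (min_le_right _ _)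
  obtain ⟨μw, hwall, hμw⟩ := ((eventually_all.2 fun i => hw _ hv1 (a i) (hab i).1.1 (b i)
    (hab i).1.2.1 (hab i).1.2.2 (va i) (vb i)).and self_mem_nhdsWithin).exists
  replace hμw : 0 < μw := hμw
  obtain ⟨r1, hr1, hUC⟩ := K.UC (ε := R / 2) (by positivity)
  let X2 : Set X := {x | ∀ k ∈ Y, r1 ≤ dist x k} ∪ O
  have hX2 : IsCompact X2 := by
    refine (IsClosed.isCompact ?_).union hO
    rw [ofPred_forall]
    exact isClosed_iInter fun k => by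
      rw [ofPred_forall]
      exact isClosed_iInter fun _ => isClosed_le continuous_const (by fun_prop)
  obtain ⟨l, hl, hl'⟩ := dualb_lebesgue hX2 (fun x hx hx' => by
    rcases hx with hx | hx
    · have := hx x hx'
      rw [dist_self] at this
      linarith
    · exact disjoint_left.1 hOY hx hx') hχ
  obtain ⟨η, hη, hIM⟩ := K.IM hl
  obtain ⟨ε, hε, ε1, ε2, ε3, ε4⟩ : ∃ ε > 0, ε ≤ K.ρ 13 ∧ 2 * ε ≤ R ∧ 4 * ε ≤ μw ∧ 4 * ε ≤ η := by
    have := K.ρ_pos 13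
    refine ⟨min (min (K.ρ 13) (R / 2)) (min (μw / 4) (η / 4)), by positivity, ?_⟩
    have e1 := min_le_left (min (K.ρ 13) (R / 2)) (min (μw / 4) (η / 4))
    have e2 := min_le_right (min (K.ρ 13) (R / 2)) (min (μw / 4) (η / 4))
    rw [le_min_iff] at e1 e2
    exact ⟨e1.1, by linarith [e1.2], by linarith [e2.1], by linarith [e2.2]⟩
  obtain ⟨δ3, hδ3, hloc⟩ := Γ.dualb_local (Y := Y) hε ε1 (show ε ≤ R by linarith)
  obtain ⟨ν, hν, ν1, ν2⟩ : ∃ ν > 0, ν ≤ δ3 ∧ 2 * ν ≤ ε :=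
    ⟨min δ3 (ε / 2), by positivity, min_le_left _ _, by linarith [min_le_right δ3 (ε / 2)]⟩
  obtain ⟨g, u, hg⟩ := hloc ν hν ν1
  obtain ⟨T, hT, hTf, hT'⟩ := finite_cover_balls_of_compact (K.dualb_isCompact Y R ν)
    (show 0 < ν / 2 by positivity)
  obtain ⟨q, hq⟩ : ∃ q : E3 → E3, ∀ p, q p = Γ.leg (g p) (u p) := ⟨_, fun _ => rfl⟩
  obtain ⟨μ, ⟨m1, m2⟩, hμ, m3⟩ : ∃ μ, ((∀ p ∈ T, JoinedIn (ball p ε \ K.C ∩ K.clean μ) p (q p)) ∧
      ∀ p ∈ T, ∀ p' ∈ T, JoinedIn (K.dualbO Y R) (q p) (q p') →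
        JoinedIn (K.dualbO Y R ∩ K.clean μ) (q p) (q p')) ∧ μ ∈ Ioo 0 (ν / 2) := by
    refine (Eventually.and (Eventually.and (hTf.eventually_all.2 fun p hp => ?_)
      (hTf.eventually_all.2 fun p hp => hTf.eventually_all.2 fun p' hp' => ?_))
      (Ioo_mem_nhdsGT (by positivity))).exists
    · exact Cone.dualb_joined_clean (fun z hz => hz.2) (hq p ▸ (hg p (hT hp)).2.2.2.2)
    · by_cases hj : JoinedIn (K.dualbO Y R) (q p) (q p')
      · exact (Cone.dualb_joined_clean (fun z hz => hz.1.2) hj).mono fun _ h _ => h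
      · exact .of_forall fun _ h => absurd h hj
  have hleg : ∀ p ∈ T, ∀ w ∈ Icc 0 (u p), Γ.leg (g p) w ∉ K.Yt Y R := fun p hp w hw =>
    (Cone.dualb_ball_sub (hT hp).1 (hT hp).2.2.2 ε1 (by linarith)
      (mem_ball.1 ((hg p (hT hp)).2.2.2.1 w hw)).le).2
  have hch : ∀ p ∈ T, ∀ p' ∈ T, JoinedIn (K.dualbO Y R) (q p) (q p') →
      Γ.dom (g p) = Γ.dom (g p') := fun p hp p' hp' hj =>
    Γ.dom_eq_of_joined (hg p (hT hp)).1 (hg p' (hT hp')).1 (hg p (hT hp)).2.2.1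
      (hg p' (hT hp')).2.2.1 (by rw [← hq, ← hq]; exact hj.mono sdiff_subset)
  have hcr : ∀ p ∈ T, ∀ p' ∈ T, JoinedIn (K.dualbO Y R) (q p) (q p') →
      χ (g p) + χ (g p') = ∑ i, Γ.cr (a i) (b i) (g p) (g p') := by
    intro p hp p' hp' hj
    obtain ⟨e1, e2, e3, -⟩ := hg p (hT hp)
    obtain ⟨e4, e5, e6, -⟩ := hg p' (hT hp')
    have e7 : (Γ.ord pos).Chord (g p) (g p') := ⟨e1, e4, hch p hp p' hp' hj⟩
    have ne : ∀ {x k : X}, x ∉ Y → k ∈ Y → x ≠ k := fun hx hk h => hx (h ▸ hk)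
    rw [hyp _ _ e7 e2 e5 fun k hk k' hk' hs hc => ?_, dualb_sig_sum, dualb_sig_sum,
      ← Finset.sum_add_distrib]
    · refine Finset.sum_congr rfl fun i _ => ?_
      obtain ⟨f1, f2, f3⟩ := hab i
      rw [hpos.2 _ _ _ _ f1 e7 (ne e2 f2) (ne e2 f3) (ne e5 f2) (ne e5 f3),
        Ord3.sig_two hpos.1 f1 e1 (ne e2 f2) (ne e2 f3),
        Ord3.sig_two hpos.1 f1 e4 (ne e5 f2) (ne e5 f3)]
    · have f1 := hxd k k' hs _ e1 _ e4 (ne e2 hk) (ne e2 hk') (ne e5 hk) (ne e5 hk') _ e3 _ e6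
        (fun w hw h => hleg p hp w ⟨hw.1.le, hw.2⟩ ⟨k, hk, h⟩)
        (fun w hw h => hleg p' hp' w ⟨hw.1.le, hw.2⟩ ⟨k, hk, h⟩)
        (by rw [← hq, ← hq]; exact hj.mono fun z hz => ⟨hz.1, fun h => hz.2 ⟨k, hk, h⟩⟩)
      rw [hpos.2 _ _ _ _ hc.1 e7 (ne e2 hk) (ne e2 hk') (ne e5 hk) (ne e5 hk'),
        (Ord3.cross_iff_ind hpos.1 hc.1 e7 (ne e2 hk) (ne e2 hk') (ne e5 hk) (ne e5 hk')).1 hc] at f1
      exact one_ne_zero f1
  have hY2 : ∀ i {z : E3} {r : ℝ}, z ∉ K.Yt Y R → r ≤ R → z ∉ K.tube r (a i) ∪ K.tube r (b i) := by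
    rintro i z r hz hr (h | h)
    · exact hz ⟨_, (hab i).2.1, theta_tube_mono hr _ h⟩
    · exact hz ⟨_, (hab i).2.2, theta_tube_mono hr _ h⟩
  have hr : 0 < μ / 4 := by positivity
  have ev1 := eventually_all.2 fun i => hwall i (μ / 2) (by positivity)
  have ev2 := hTf.eventually_all.2 fun p (_ : p ∈ T) => Γ.all_Lg (g p) hr
  have ev3 := hTf.eventually_all.2 fun p (hp : p ∈ T) => hTf.eventually_all.2
    fun p' (hp' : p' ∈ T) => (eventually_all (ι := JoinedIn (K.dualbO Y R) (q p) (q p'))).2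
      fun hj => eventually_all.2 fun i => htv _ hv2 _ hv2 (a i) (hab i).1.1 (b i) (hab i).1.2.1
        (g p) (hg p (hT hp)).1 (g p') (hg p' (hT hp')).1 (hab i).1.2.2 (hch p hp p' hp' hj)
        (va i) (vb i) (u p) (hg p (hT hp)).2.2.1 (u p') (hg p' (hT hp')).2.2.1
        (fun w hw => hY2 i (hleg p hp w hw) (by linarith))
        (fun w hw => hY2 i (hleg p' hp' w hw) (by linarith)) (μ / 2) (by positivity) μw hμw
  have ev4 := hTf.eventually_all.2 fun p (_ : p ∈ T) => hTf.eventually_all.2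
    fun p' (_ : p' ∈ T) => eventually_all.2 fun i => Γ.cr_spec (a i) (b i) (g p) (g p')
  refine ⟨μw, hμw, ν, hν, ?_⟩
  filter_upwards [hyper_of_atTop ev1, hyper_of_atTop ev2, hyper_of_atTop ev3, ev4,
    hyper_of_atTop (ms_small hr)] with n e1 e2 e3 e4 e5
  choose E f hE1 hE2 hE3 using e1
  have hh := ms_pos n
  have s1 : 2 * (μ / 4) ≤ K.ρ 13 := by linarith
  have hE : ∀ e : Ed, pt (ms n) e.2 ∈ K.W0 ∩ K.clean (μ / 2) → pt (ms n) e.2 ∉ K.Yt Y (R / 2) →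
      (∑ i, E i) e = d0 (∑ i, f i) e := fun e h1 h2 => by
    rw [dualb_d0_sum, Finset.sum_apply, Finset.sum_apply]
    exact Finset.sum_congr rfl fun i _ => hE3 i e h1 (fun h => h2 ⟨_, (hab i).2.1, h⟩)
      fun h => h2 ⟨_, (hab i).2.2, h⟩
  have hE0 : ∀ e : Ed, pt (ms n) e.2 ∈ K.W2 → pt (ms n) e.2 ∉ K.clean μw → (∑ i, E i) e = 0 :=
    fun e h1 h2 => by
      rw [Finset.sum_apply]
      exact Finset.sum_eq_zero fun i _ => hE2 i e h1 h2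
  have hLg : ∀ p ∈ T, ∀ i, pair (E i) (rho (ms n) (Γ.Lg n (g p) 0 (u p))) = 0 := by
    intro p hp i
    obtain ⟨f1, -, f2, f3, -⟩ := hg p (hT hp)
    refine Cone.dualb_zero hh e5.le s1 (by linarith) (hE2 i)
      ((e2 p hp 0 ⟨le_rfl, zero_le_one⟩ _ ⟨f2.1.le, f2.2⟩).mono ?_)
    rintro _ z ⟨f4, ⟨w, hw, rfl⟩, -⟩
    rw [max_eq_right f2.1.le] at hw
    refine ⟨⟨Γ.leg_mem_W f1 ⟨hw.1, hw.2.trans f2.2⟩,
      Cone.dualb_dirty.2 ⟨g p, _, Γ.lv_mem01 f1, ?_⟩⟩, f4⟩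
    have f5 := mem_ball.1 (f3 w hw)
    have f6 := mem_ball.1 (f3 0 ⟨le_rfl, f2.1.le⟩)
    have := dist_triangle_right (Γ.leg (g p) w) (Γ.leg (g p) 0) p
    rw [← Γ.leg_zero _ f1]
    linarith
  obtain ⟨χ', h1, h2⟩ := Cone.dualb_ext (Y := Y) (X2 := X2) (χ := χ) (T := T) (g := g) (q := q)
    hh e5.le s1 (by linarith) (by linarith) ν2 ε1 ε2 ε3 ε4
    (fun p x s hs hp hd => .inl fun k hk => not_lt.1 fun h => hp ⟨k, hk, s, hs, by
      have := hUC x k s hs s hs h.le (by simpa using hr1.le)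
      have := dist_triangle p (K.e x s) (K.e k s)
      linarith⟩)
    (fun x hx y s hs t ht hd => hl' x hx y (hIM x y s hs t ht hd).1) hT hT'
    (fun p hp => ⟨m1 p hp, _, Γ.lv_mem01 (hg p (hT hp)).1, by
      rw [← Γ.leg_zero _ (hg p (hT hp)).1]
      exact (hg p (hT hp)).2.2.2.1 0 ⟨le_rfl, (hg p (hT hp)).2.2.1.1.le⟩⟩)
    (fun p hp p' hp' hj => by
      obtain ⟨m, hm, ha⟩ := exists_fine_chain (m2 p hp p' hp' hj) hr
      have f1 := Cone.dualb_path hh e5.le s1 (by linarith) (by linarith) hE hm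
        (ha.mono fun x y h => ⟨⟨h.1.1.1.1, h.1.1.2, h.1.2⟩, h.2.2⟩)
      have f2 := hcr p hp p' hp' hj
      rw [← Finset.sum_congr rfl fun i _ => e4 p hp p' hp' i, ← Finset.sum_congr rfl fun i _ =>
        e3 p hp p' hp' hj i (E i) (hE1 i) (hE2 i) m (by rw [hm, hq, hq])
          (ha.mono fun x y h => ⟨fun z s hs => by linarith [h.1.2 z s hs, h.2.2], h.1.1.1.1,
            by linarith [h.2.2], hY2 i h.1.1.2 (by linarith [h.2.2])⟩)] at f2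
      simp only [map_add, hLg p hp, hLg p' hp', zero_add, add_zero] at f2
      rw [← dualb_pair_sum, f1] at f2
      grind) hE hE0
  refine ⟨∑ i, E i, χ', fun e he => ?_, hE0, h1, fun p x hx => h2 p x (.inr hx)⟩
  rw [dualb_d1_sum, map_sum, dualb_sh_sum, Finset.sum_apply, Finset.sum_apply]
  exact Finset.sum_congr rfl fun i _ => hE1 i e he

end Germs

end Pool.Agent.Lib.MP_9e71a3_gt
end

-- part Pool.Agent.Lib.MP_9e71a3_gt.DualC
section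

/-! Duality, part C: from the lattice data to a chain in `Y`. -/

set_option autoImplicit false
set_option linter.unusedSectionVars false

namespace Pool.Agent.Lib.MP_9e71a3_gt

open Set Metric Filter Topology

theorem dual_lower {ι : Type} [Fintype ι] (f : ι → ℝ) (hf : ∀ i, 0 < f i) :
    ∃ m > 0, ∀ i, m ≤ f i := by
  classical
  rcases isEmpty_or_nonempty ι with h | h
  · exact ⟨1, one_pos, fun i => h.elim i⟩
  · obtain ⟨i, hi⟩ := Finite.exists_min f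
    exact ⟨f i, hf i, hi⟩

theorem dual_norm (p q : E3) : ‖p‖ ≤ ‖q‖ + dist p q ∧ ‖q‖ ≤ ‖p‖ + dist p q :=
  vt_norm_le le_rfl

theorem dual_rho_lnk {h : ℝ} (hh : 0 < h) (p : E3) : rho h (lnk (pt h (fl h p)) p) = 0 :=
  rho_lnk_of_fl_eq (fl_pt hh _)

namespace Cone
variable {X : Type} [MetricSpace X] [CompactSpace X] [ConnectedSpace X] (K : Cone X)

theorem dual_rhos : 0 < K.ρ 17 ∧ 100 * K.ρ 17 < K.ρ 16 ∧ 100 * K.ρ 16 < K.ρ 15 ∧
    100 * K.ρ 15 < K.ρ 14 ∧ 100 * K.ρ 14 < K.ρ 12 ∧ 100 * K.ρ 12 < K.ρ 9 ∧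
    100 * K.ρ 9 < K.ρ 6 ∧ 100 * K.ρ 6 < K.ρ 4 ∧ 100 * K.ρ 4 < K.ρ 3 ∧ 100 * K.ρ 3 < K.ρ 2 ∧
    100 * K.ρ 2 < K.ρ 1 :=
  ⟨K.ρ_pos 17, K.ρ_anti (by norm_num) (by norm_num), K.ρ_anti (by norm_num) (by norm_num),
    K.ρ_anti (by norm_num) (by norm_num), K.ρ_anti (by norm_num) (by norm_num),
    K.ρ_anti (by norm_num) (by norm_num), K.ρ_anti (by norm_num) (by norm_num),
    K.ρ_anti (by norm_num) (by norm_num), K.ρ_anti (by norm_num) (by norm_num),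
    K.ρ_anti (by norm_num) (by norm_num), K.ρ_anti (by norm_num) (by norm_num)⟩

/-- evaluation of the cup cochain on a full cone line -/
theorem dual_test {μ1 : ℝ} (hμ1 : 0 < μ1) : ∀ᶠ n in atTop, ∀ (χ' : C0) (c : Z2) (x : X),
    (∀ p : P3, ∀ s ∈ Icc (0:ℝ) 1, pt (ms n) p ∈ K.Sz → dist (pt (ms n) p) (K.e x s) ≤ μ1 →
      χ' p = c) →
    pair (cup01 χ' (d0 (dualH (ms n) (K.ρ 9)))) (rho (ms n) (K.Vf n x)) = c := by
  obtain ⟨r17, r16, r15, r14, r12, r9, r6, r4, r3, r2, r1⟩ := K.dual_rhos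
  filter_upwards [K.all_V (half_pos hμ1), ms_small (half_pos hμ1), ms_small r17]
    with n hV h1 h2 χ' c x hχ
  have hh := ms_pos n
  have i0 : (0:ℝ) ∈ Icc (0:ℝ) 1 := ⟨le_rfl, zero_le_one⟩
  have i1 : (1:ℝ) ∈ Icc (0:ℝ) 1 := ⟨zero_le_one, le_rfl⟩
  have hall : All (fun p q => (dist p q < μ1 / 2 ∧ ∃ s ∈ Icc (0:ℝ) 1, p = K.e x s) ∨
      5 * K.ρ 1 + dist p q < ‖p‖) (K.Vf n x) :=
    ((hV x 0 i0 1 i1).mono fun p q h => Or.inl ⟨h.1, h.2.1⟩).add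
      ((K.J_out x).mono fun p q h => Or.inr h)
  have e1 : pair (cup01 χ' (d0 (dualH (ms n) (K.ρ 9)))) (rho (ms n) (K.Vf n x)) =
      pair (d0 (fun p => c * dualH (ms n) (K.ρ 9) p)) (rho (ms n) (K.Vf n x)) := by
    refine pair_congr fun e he => ?_
    have e2 : d0 (fun p => c * dualH (ms n) (K.ρ 9) p) e = c * d0 (dualH (ms n) (K.ρ 9)) e := by
      simp only [d0, mul_add]
    rw [e2, cup01]
    by_cases h0 : d0 (dualH (ms n) (K.ρ 9)) e = 0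
    · rw [h0, mul_zero, mul_zero]
    · have h3 := abs_le.1 (dual_dH (j := e.1) (q := e.2) hh h0)
      obtain ⟨l, hl, h4, -⟩ := rho_support hh he
      rcases hall l hl with ⟨h5, s, hs, h6⟩ | h5
      · rw [hχ e.2 s hs ⟨by linarith [h3.1], by linarith [h3.2]⟩ (by rw [← h6]; linarith)]
      · linarith [(dual_norm (pt (ms n) e.2) l.1).2, h3.2]
  rw [e1, pair_d0_rho, K.bd_Vf, pair_two]
  have h3 : ‖pt (ms n) (fl (ms n) 0)‖ < K.ρ 9 := by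
    have := dist_pt_fl hh 0
    rw [dist_zero_right] at this
    linarith
  have h4 : ¬ ‖pt (ms n) (fl (ms n) K.Pinf)‖ < K.ρ 9 := by
    have := dist_pt_fl hh K.Pinf
    have h5 := (dual_norm (pt (ms n) (fl (ms n) K.Pinf)) K.Pinf).2
    linarith [K.Pinf_out]
  simp [dualH, h3, h4]

end Cone

namespace Germs
variable {X : Type} [MetricSpace X] [CompactSpace X] [ConnectedSpace X] {K : Cone X} (Γ : Germs K)

/-- the link from the lattice to the foot of a vertical -/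
noncomputable def dualFoot (n : ℕ) (k : X) (u : ℝ) : Ch E3 :=
  lnk (pt (ms n) (fl (ms n) (Γ.leg k u))) (Γ.leg k u)

theorem dual_vert {k : X} (hk : k ∈ Γ.G) {δ : ℝ} (hδ : δ ≤ K.ρ 17) (v : Vert Γ k δ) :
    ∃ μ > 0, ∀ r > 0, ∀ᶠ n in atTop,
      All (fun p q => (K.Cl μ p q ∧ dist p q < r ∧ p ∈ K.Wv ∧ p ∈ K.tube δ k) ∨
        2 * K.ρ 9 + dist p q < ‖p‖) (v.VP n) ∧
      All (fun p q => (K.Cl μ p q ∧ dist p q < r ∧ p ∈ K.Wv ∧ p ∈ K.tube δ k) ∨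
        ‖p‖ + dist p q < K.ρ 9 / 2) (v.VM n) ∧
      All (fun p q => K.Cl μ p q ∧ ‖p‖ ≤ K.ρ 1 ∧ ‖q‖ ≤ K.ρ 1)
        (Γ.dualFoot n k v.u + Γ.Lg n k v.u 1) ∧
      All (fun p q => dist p q ≤ r ∧ (p ∈ K.Wb ∧ p ∈ K.tube (δ + r) k) ∧
        (q ∈ K.Wb ∧ q ∈ K.tube (δ + r) k)) (Γ.dualFoot n k v.u + Γ.Lg n k 0 v.u) := by
  obtain ⟨r17, r16, r15, r14, r12, r9, r6, r4, r3, r2, r1⟩ := K.dual_rhos
  obtain ⟨μ1, hμ1, h1⟩ := v.links hδ
  obtain ⟨μ2, hμ2, h2⟩ := Γ.Lg_clean hk v.ini.1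
  obtain ⟨μ3, hμ3, h3⟩ := K.exists_clean (isCompact_singleton (x := Γ.leg k v.u))
    (disjoint_singleton_left.2 (Γ.leg_mem k hk v.u v.ini.1).2)
  have h3' := h3 (mem_singleton _)
  have hu01 : v.u ∈ Icc (0:ℝ) 1 := ⟨v.ini.1.1.le, v.ini.1.2⟩
  have hW := Γ.leg_mem_W hk hu01
  have hm1 : min μ1 (min μ2 (μ3 / 3)) ≤ μ1 := min_le_left _ _
  have hm2 : min μ1 (min μ2 (μ3 / 3)) ≤ μ2 := (min_le_right _ _).trans (min_le_left _ _)
  have hm3 : min μ1 (min μ2 (μ3 / 3)) ≤ μ3 / 3 := (min_le_right _ _).trans (min_le_right _ _)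
  refine ⟨min μ1 (min μ2 (μ3 / 3)), lt_min hμ1 (lt_min hμ2 (by linarith)), fun r hr => ?_⟩
  have hr' : 0 < min r (K.ρ 17) := lt_min hr r17
  have hr1 : min r (K.ρ 17) ≤ r := min_le_left _ _
  have hr2 : min r (K.ρ 17) ≤ K.ρ 17 := min_le_right _ _
  filter_upwards [h1 _ hr', h2, Γ.all_Lg k hr', ms_small hr', ms_small (r := μ3 / 3) (by linarith)]
    with n ⟨a1, a2⟩ a3 a4 a5 a6
  have hh := ms_pos n
  have hfl := dist_pt_fl hh (Γ.leg k v.u)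
  have hn := dual_norm (pt (ms n) (fl (ms n) (Γ.leg k v.u))) (Γ.leg k v.u)
  have htube : ∀ w ∈ Icc (0:ℝ) v.u, Γ.leg k w ∈ K.tube δ k := fun w hw =>
    ⟨_, Γ.lv_mem01 hk, v.ini.2 w hw⟩
  refine ⟨a1.mono ?_, a2.mono ?_, All.add (All.lnk ?_) (a3.mono ?_), All.add (All.lnk ?_)
    ((a4 0 ⟨le_rfl, zero_le_one⟩ v.u hu01).mono ?_)⟩
  · rintro p q (⟨b1, b2, b3, -⟩ | ⟨b1, b2, -⟩ | ⟨b1, x, -, s, hs, b2⟩ | b1)
    · exact Or.inl ⟨theta_cl_mono hm1 b1, by linarith, b3.1, b3.2⟩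
    · right; linarith
    · right
      have := K.big 2 x s hs
      have h5 := (dual_norm p (K.e x s)).2
      norm_num at this
      linarith
    · right; linarith
  · rintro p q (⟨b1, b2, b3, -⟩ | ⟨b1, b2, -⟩ | ⟨b1, x, -, s, hs, b2⟩)
    · exact Or.inl ⟨theta_cl_mono hm1 b1, by linarith, b3.1, b3.2⟩
    · right; linarith
    · right
      have := K.little 14 x s hs
      have h5 := (dual_norm p (K.e x s)).1
      norm_num at this
      linarith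
  · refine ⟨fun x s hs => ?_, by linarith [hW.2, hn.1], by linarith [hW.2]⟩
    have := h3' x s hs
    linarith [dist_triangle_left (Γ.leg k v.u) (K.e x s) (pt (ms n) (fl (ms n) (Γ.leg k v.u)))]
  · rintro p q ⟨b1, b2, b3⟩
    exact ⟨theta_cl_mono hm2 b1, by linarith [b2.2], by linarith [b3.2]⟩
  · have h5 := htube v.u ⟨hu01.1, le_rfl⟩
    refine ⟨by linarith, ⟨⟨by linarith [hW.1, hn.2], by linarith [hW.2, hn.1]⟩,
      K.vt_tube_add h5 (by linarith)⟩, K.Wv_sub_Wb (K.W_sub_Wv hW),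
      K.vt_tube_mono h5 (by linarith)⟩
  · rintro p q ⟨b1, ⟨w, hw, rfl⟩, ⟨w', hw', rfl⟩, -⟩
    rw [max_eq_right hu01.1] at hw hw'
    exact ⟨by linarith, ⟨K.Wv_sub_Wb (K.W_sub_Wv (Γ.leg_mem_W hk ⟨hw.1, hw.2.trans hu01.2⟩)),
      K.vt_tube_mono (htube w hw) (by linarith)⟩,
      K.Wv_sub_Wb (K.W_sub_Wv (Γ.leg_mem_W hk ⟨hw'.1, hw'.2.trans hu01.2⟩)),
      K.vt_tube_mono (htube w' hw') (by linarith)⟩

/-- a choice of base points with finite range -/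
theorem dual_choice {Y : Set X} (hY : IsClosed Y) {η : ℝ} (hη : 0 < η) (hη' : η ≤ K.ρ 17)
    {F : Set X} (hF : F.Finite) (hFG : F ⊆ Γ.G) (hFY : F ⊆ Y) :
    ∃ (S : Set X) (xp : E3 → X) (sp : E3 → ℝ), S.Finite ∧ (∀ p, xp p ∈ S) ∧
      (∀ k ∈ F, xp (K.e k (Γ.lv k)) = k ∧ sp (K.e k (Γ.lv k)) = Γ.lv k) ∧
      ∀ p ∈ K.Wb, p ∈ K.Yt Y (η / 2) → xp p ∈ Y ∧ sp p ∈ Icc (K.τ 1) (K.τ 16) ∧
        dist p (K.e (xp p) (sp p)) ≤ η := by
  obtain ⟨o⟩ : Nonempty X := inferInstance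
  obtain ⟨δ, hδ, hU⟩ := K.UC (half_pos hη)
  obtain ⟨Y0, hY0, hfin, hcov⟩ := finite_cover_balls_of_compact hY.isCompact hδ
  have key : ∀ p : E3, ∃ x : X, ∃ s : ℝ, x ∈ insert o (Y0 ∪ F) ∧
      (∀ k ∈ F, p = K.e k (Γ.lv k) → x = k ∧ s = Γ.lv k) ∧
      (p ∈ K.Wb → p ∈ K.Yt Y (η / 2) → x ∈ Y ∧ s ∈ Icc (K.τ 1) (K.τ 16) ∧
        dist p (K.e x s) ≤ η) := by
    intro p
    by_cases h1 : ∃ k ∈ F, p = K.e k (Γ.lv k)
    · obtain ⟨k, hk, rfl⟩ := h1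
      refine ⟨k, Γ.lv k, Or.inr (Or.inr hk), fun k' hk' h => ?_, fun _ _ =>
        ⟨hFY hk, ⟨(Γ.theta_lv_ge (hFG hk)).1, (Γ.theta_lv_le (hFG hk)).2⟩, by simpa using hη.le⟩⟩
      exact K.inj k k' _ (Γ.lv_mem01 (hFG hk)) _ (Γ.lv_mem01 (hFG hk'))
        ((Γ.theta_lv_le (hFG hk)).2.trans_lt (K.τ_lt_one 16)) h
    · by_cases h2 : p ∈ K.Wb ∧ p ∈ K.Yt Y (η / 2)
      · obtain ⟨h2, k, hk, s, hs, h3⟩ := h2
        obtain ⟨x, hx, h4⟩ := mem_iUnion₂.1 (hcov hk)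
        have h5 := hU k x s hs s hs (mem_ball.1 h4).le (by simpa using hδ.le)
        have h6 := K.vt_level h2 hs (x := k) (by linarith [K.ρ_pos 17])
        exact ⟨x, s, Or.inr (Or.inl hx), fun k' hk' h => (h1 ⟨k', hk', h⟩).elim, fun _ _ =>
          ⟨hY0 hx, ⟨h6.1.le, h6.2.le⟩, by linarith [dist_triangle p (K.e k s) (K.e x s)]⟩⟩
      · exact ⟨o, 0, Or.inl rfl, fun k' hk' h => (h1 ⟨k', hk', h⟩).elim,
          fun a b => (h2 ⟨a, b⟩).elim⟩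
  choose xp sp h1 h2 h3 using key
  exact ⟨_, xp, sp, (hfin.union hF).insert o, h1, fun k hk => h2 _ k hk rfl, h3⟩

end Germs

end Pool.Agent.Lib.MP_9e71a3_gt
end

-- part Pool.Agent.Lib.MP_9e71a3_gt.Dual
section

/-! Duality with boundary. -/

set_option autoImplicit false
set_option linter.unusedSectionVars false

namespace Pool.Agent.Lib.MP_9e71a3_gt

open Set Metric Filter Topology

theorem dual_alg {M : Type} [AddCommGroup M] (h2 : ∀ x : M, x + x = 0)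
    (L N c V V' T G0 G1 F y w t : M) (hN : N = c + L + (T + V')) (hV : V' = V)
    (hc : c = y + t + (F + G0)) :
    L + (V + (G0 + G1)) = N + (y + w) + (w + t + (F + G1)) + T := by
  subst hN hV hc
  have e : y + t + (F + G0) + L + (T + V') + (y + w) + (w + t + (F + G1)) + T =
      L + (V' + (G0 + G1)) + ((y + y) + (t + t) + (F + F) + (T + T) + (w + w)) := by abel
  rw [e, h2 y, h2 t, h2 F, h2 T, h2 w]
  simp

namespace Germs
variable {X : Type} [MetricSpace X] [CompactSpace X] [ConnectedSpace X] {K : Cone X} (Γ : Germs K)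

theorem dual_key2 (pos : X → ℝ) {Y : Set X} (hY : IsClosed Y) {η : ℝ} (hη : 0 < η) {O : Set X}
    (hO : IsCompact O) (hOY : Disjoint O Y) : ∃ R > 0, R ≤ K.ρ 17 ∧ ∀ δv, δv ≤ R →
    ∀ (ι : Type) [Fintype ι] (a b : ι → X) (χ : X → Z2) (va : ∀ i, Vert Γ (a i) δv)
      (vb : ∀ i, Vert Γ (b i) δv), (∀ i, (Γ.ord pos).Chord (a i) (b i) ∧ a i ∈ Y ∧ b i ∈ Y) →
      ∀ μw > 0, ∀ μ1 > 0, ∃ S : Set (Ch X), S.Finite ∧ ∀ᶠ n in atTop, ∀ (E : C1) (χ' : C0),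
        K.DualData Y O χ R μw μ1 n (∑ i, ((va i).vf n + (vb i).vf n)) E χ' →
        ∃ κ ∈ S, Fine η Y κ ∧ bd κ = ∑ i, two (a i) (b i) ∧ ∀ o ∈ O, ∀ o' ∈ O,
          Lk (ms n) (Γ.zz n κ) (K.Vf n o + K.Vf n o') = χ o + χ o' := by
  obtain ⟨r17, r16, r15, r14, r12, r9, r6, r4, r3, r2, r1⟩ := K.dual_rhos
  obtain ⟨d, hd, hdO⟩ := hO.exists_cthickening_subset_open hY.isOpen_compl
    (subset_compl_iff_disjoint_right.2 hOY)
  have hdist : ∀ o ∈ O, ∀ k ∈ Y, d ≤ dist k o := by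
    intro o ho k hk
    by_contra hn
    exact hdO (mem_cthickening_of_dist_le k o d O ho (not_le.1 hn).le) hk
  obtain ⟨d1, hd1, hfr⟩ := theta_fr_Vf (K := K) hd
  have hr : 0 < min η (d1 / 2) := lt_min hη (half_pos hd1)
  obtain ⟨ηP, hηP, hproj⟩ := K.proj hr
  have hQ : 0 < min ηP (K.ρ 17) := lt_min hηP r17
  have hQ1 : min ηP (K.ρ 17) ≤ ηP := min_le_left _ _
  have hQ2 : min ηP (K.ρ 17) ≤ K.ρ 17 := min_le_right _ _
  generalize min ηP (K.ρ 17) = Q at hQ hQ1 hQ2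
  refine ⟨Q / 8, by linarith, by linarith, ?_⟩
  intro δv hδv ι _ a b χ va vb hab μw hμw μ1 hμ1
  have haG : ∀ i, a i ∈ Γ.G := fun i => (hab i).1.1
  have hbG : ∀ i, b i ∈ Γ.G := fun i => (hab i).1.2.1
  obtain ⟨S, xp, sp, hS, hxS, hxF, hxp⟩ := Γ.dual_choice hY hQ hQ2
    ((finite_range a).union (finite_range b))
    (union_subset (range_subset_iff.2 haG) (range_subset_iff.2 hbG))
    (union_subset (range_subset_iff.2 fun i => (hab i).2.1) (range_subset_iff.2 fun i => (hab i).2.2))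
  choose μa hμa ha using fun i => Γ.dual_vert (haG i) (by linarith) (va i)
  choose μb hμb hb using fun i => Γ.dual_vert (hbG i) (by linarith) (vb i)
  obtain ⟨ma, hma, hma'⟩ := dual_lower μa hμa
  obtain ⟨mb, hmb, hmb'⟩ := dual_lower μb hμb
  have hμ : 0 < min μw (min ma mb) := lt_min hμw (lt_min hma hmb)
  have hμ1' : min μw (min ma mb) ≤ μw := min_le_left _ _
  have hμ2 : ∀ i, min μw (min ma mb) ≤ μa i := fun i =>
    ((min_le_right _ _).trans (min_le_left _ _)).trans (hma' i)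
  have hμ3 : ∀ i, min μw (min ma mb) ≤ μb i := fun i =>
    ((min_le_right _ _).trans (min_le_right _ _)).trans (hmb' i)
  generalize min μw (min ma mb) = μ at hμ hμ1' hμ2 hμ3
  refine ⟨_, dual_finite hS, ?_⟩
  have hQ8 : 0 < Q / 8 := by linarith
  filter_upwards [hfr, hproj, eventually_all.2 fun i => ha i _ hQ8,
    eventually_all.2 fun i => hb i _ hQ8, K.cloop (half_pos hμ), K.dual_test hμ1,
    ms_small hQ8, ms_small (r := μ / 4) (by linarith), ms_small (r := d1 / 8) (by linarith)]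
    with n hfr hproj ha hb hcl htest s1 s2 s3 E χ' hD
  have hh := ms_pos n
  set h := ms n with hhdef
  set VP := ∑ i, ((va i).VP n + (vb i).VP n) with hVP
  set VM := ∑ i, ((va i).VM n + (vb i).VM n) with hVM
  have hsum : ∑ i, ((va i).vf n + (vb i).vf n) = VP + VM := by
    rw [hVP, hVM, ← Finset.sum_add_distrib]
    refine Finset.sum_congr rfl fun i _ => ?_
    simp only [Vert.vf]; abel
  have hv : bd (VP + VM) = 0 := by
    rw [← hsum, map_sum]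
    refine Finset.sum_eq_zero fun i _ => ?_
    rw [map_add, Vert.bd_vf, Vert.bd_vf, fs_add_self]
  obtain ⟨y, wv, t, hζ, hζ0, hwt, hy, hw, ht⟩ := dual_core (R := K.ρ 9) hh E χ' (rho h VP)
    (rho h VM) (by rw [← map_add]; exact chain_bd1_zero hv) (fun e he => by
      have h1 := abs_le.1 he
      rw [hD.eq e ⟨by linarith [h1.1], by linarith [h1.2]⟩, hsum, map_add])
  have aVP : All (fun p q => (K.Cl μ p q ∧ dist p q < Q / 8 ∧ p ∈ K.Wv ∧ p ∈ K.Yt Y δv) ∨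
      2 * K.ρ 9 + dist p q < ‖p‖) VP := by
    refine All.sum _ _ fun i _ => All.add ((ha i).1.mono ?_) ((hb i).1.mono ?_)
    · rintro p q (⟨b1, b2, b3, b4⟩ | b1)
      · exact Or.inl ⟨theta_cl_mono (hμ2 i) b1, b2, b3, _, (hab i).2.1, b4⟩
      · exact Or.inr b1
    · rintro p q (⟨b1, b2, b3, b4⟩ | b1)
      · exact Or.inl ⟨theta_cl_mono (hμ3 i) b1, b2, b3, _, (hab i).2.2, b4⟩
      · exact Or.inr b1
  have aVM : All (fun p q => (K.Cl μ p q ∧ dist p q < Q / 8 ∧ p ∈ K.Wv ∧ p ∈ K.Yt Y δv) ∨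
      ‖p‖ + dist p q < K.ρ 9 / 2) VM := by
    refine All.sum _ _ fun i _ => All.add ((ha i).2.1.mono ?_) ((hb i).2.1.mono ?_)
    · rintro p q (⟨b1, b2, b3, b4⟩ | b1)
      · exact Or.inl ⟨theta_cl_mono (hμ2 i) b1, b2, b3, _, (hab i).2.1, b4⟩
      · exact Or.inr b1
    · rintro p q (⟨b1, b2, b3, b4⟩ | b1)
      · exact Or.inl ⟨theta_cl_mono (hμ3 i) b1, b2, b3, _, (hab i).2.2, b4⟩
      · exact Or.inr b1
  have hT : ∀ e ∈ t.support, ∃ p q, K.Cl μ p q ∧ dist p q < Q / 8 ∧ p ∈ K.Wv ∧ p ∈ K.Yt Y δv ∧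
      dist (pt h e.2) p ≤ dist p q + h ∧ dist (pt h (e.2 + ee e.1)) p ≤ dist p q + h := by
    intro e he
    rcases ht e he with ⟨h1, h2⟩ | ⟨h1, h2⟩
    · obtain ⟨l, hl, h3, h4⟩ := rho_support hh h1
      rcases aVP l hl with ⟨b1, b2, b3, b4⟩ | b1
      · exact ⟨_, _, b1, b2, b3, b4, h3, h4⟩
      · linarith [(dual_norm (pt h e.2) l.1).2]
    · obtain ⟨l, hl, h3, h4⟩ := rho_support hh h1
      rcases aVM l hl with ⟨b1, b2, b3, b4⟩ | b1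
      · exact ⟨_, _, b1, b2, b3, b4, h3, h4⟩
      · linarith [(dual_norm (pt h e.2) l.1).1]
  set F := ∑ i, (Γ.dualFoot n (a i) (va i).u + Γ.dualFoot n (b i) (vb i).u) with hF
  set G0 := ∑ i, (Γ.Lg n (a i) 0 (va i).u + Γ.Lg n (b i) 0 (vb i).u) with hG0
  set G1 := ∑ i, (Γ.Lg n (a i) (va i).u 1 + Γ.Lg n (b i) (vb i).u 1) with hG1
  have i0 : (0:ℝ) ∈ Icc (0:ℝ) 1 := ⟨le_rfl, zero_le_one⟩
  have i1 : (1:ℝ) ∈ Icc (0:ℝ) 1 := ⟨zero_le_one, le_rfl⟩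
  have ua : ∀ i, (va i).u ∈ Icc (0:ℝ) 1 := fun i => ⟨(va i).ini.1.1.le, (va i).ini.1.2⟩
  have ub : ∀ i, (vb i).u ∈ Icc (0:ℝ) 1 := fun i => ⟨(vb i).ini.1.1.le, (vb i).ini.1.2⟩
  have hbdVM : bd VM = ∑ i, two (Γ.leg (a i) (va i).u) (Γ.leg (b i) (vb i).u) := by
    rw [hVM, map_sum]
    refine Finset.sum_congr rfl fun i _ => ?_
    rw [map_add, Vert.bd_VM, Vert.bd_VM, setup_two_comm (Γ.leg (b i) _), setup_two_add]
  have hbdwt : bd (unr h (wv + t)) + bd F =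
      ∑ i, two (Γ.leg (a i) (va i).u) (Γ.leg (b i) (vb i).u) := by
    rw [bd_unr, hwt, bd1_rho, hbdVM, Finsupp.mapDomain_finsetSum, Finsupp.mapDomain_finsetSum,
      hF, map_sum, ← Finset.sum_add_distrib]
    refine Finset.sum_congr rfl fun i _ => ?_
    rw [setup_map_two, setup_map_two, map_add, dualFoot, dualFoot, bd_lnk, bd_lnk, ← add_assoc,
      setup_two_comm (pt h (fl h (Γ.leg (a i) _))) (pt h (fl h (Γ.leg (b i) _))), setup_two_add,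
      setup_two_comm (pt h (fl h (Γ.leg (b i) _))) (Γ.leg (a i) _), setup_two_add]
  have hγ0 : bd (unr h (wv + t) + (F + G1)) = 0 := by
    rw [map_add, map_add bd F, ← add_assoc, hbdwt, hG1, map_sum, ← Finset.sum_add_distrib]
    refine Finset.sum_eq_zero fun i _ => ?_
    rw [map_add, Γ.theta_bd_Lg n _ (ua i) i1, Γ.theta_bd_Lg n _ (ub i) i1,
      Γ.leg_one _ (haG i) _ (hbG i) (hab i).1.2.2, setup_two_comm (Γ.leg (b i) (vb i).u),
      setup_two_add, fs_add_self]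
  have hγ : All (fun p q => K.Cl (μ / 2) p q ∧ ‖p‖ ≤ K.ρ 1 ∧ ‖q‖ ≤ K.ρ 1)
      (unr h (wv + t) + (F + G1)) := by
    refine All.add ?_ ?_
    · rw [map_add]
      refine All.add (all_unr fun e he => ?_) (all_unr fun e he => ?_)
      · obtain ⟨⟨j, hj⟩, h1⟩ := hw e he
        have h2 := abs_le.1 h1
        have h3 := setup_dist_ee hh e
        have h4 : pt h (e.2 + ee e.1) ∈ K.clean μw := by
          by_contra hn
          exact hj (hD.dirty (j, e.2 + ee e.1) ⟨by linarith [h2.1], by linarith [h2.2]⟩ hn)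
        refine ⟨fun x s hs => ?_, by linarith [(dual_norm (pt h e.2) (pt h (e.2 + ee e.1))).1, h2.2],
          by linarith [h2.2]⟩
        have h5 := h4 x s hs
        linarith [dist_triangle_left (pt h (e.2 + ee e.1)) (K.e x s) (pt h e.2)]
      · obtain ⟨p, q, b1, b2, b3, -, b5, b6⟩ := hT e he
        have h3 := setup_dist_ee hh e
        refine ⟨fun x s hs => ?_, by linarith [(dual_norm (pt h e.2) p).1, b3.2],
          by linarith [(dual_norm (pt h (e.2 + ee e.1)) p).1, b3.2]⟩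
        have h5 := b1 x s hs
        linarith [dist_triangle_left p (K.e x s) (pt h e.2)]
    · rw [hF, hG1, ← Finset.sum_add_distrib]
      refine All.sum _ _ fun i _ => ?_
      rw [add_add_add_comm]
      exact All.add ((ha i).2.2.1.mono fun p q h => ⟨theta_cl_mono (by linarith [hμ2 i]) h.1, h.2⟩)
        ((hb i).2.2.1.mono fun p q h => ⟨theta_cl_mono (by linarith [hμ3 i]) h.1, h.2⟩)
  have hc : All (fun p q => dist p q ≤ Q / 8 ∧ (p ∈ K.Wb ∧ p ∈ K.Yt Y (Q / 2)) ∧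
      (q ∈ K.Wb ∧ q ∈ K.Yt Y (Q / 2))) (unr h (y + t) + (F + G0)) := by
    refine All.add ?_ ?_
    · rw [map_add]
      refine All.add (all_unr fun e he => ?_) (all_unr fun e he => ?_)
      · obtain ⟨⟨j, hj⟩, h1⟩ := hy e he
        have h2 := abs_le.1 h1
        have h3 := setup_dist_ee hh e
        have h4 : pt h (e.2 + ee e.1) ∈ K.Yt Y (3 * (Q / 8)) := by
          by_contra hn
          exact hj (hD.pot (j, e.2 + ee e.1) ⟨by linarith [h2.1], by linarith [h2.2]⟩ hn)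
        obtain ⟨k, hk, h4⟩ := h4
        have h5 := dual_norm (pt h e.2) (pt h (e.2 + ee e.1))
        exact ⟨by linarith, ⟨⟨by linarith [h2.1, h5.2], by linarith [h2.2, h5.1]⟩, k, hk,
          K.vt_tube_mono (K.vt_tube_add h4 h3.le) (by linarith)⟩,
          ⟨by linarith [h2.1], by linarith [h2.2]⟩, k, hk, K.vt_tube_mono h4 (by linarith)⟩
      · obtain ⟨p, q, -, b2, b3, ⟨k, hk, b4⟩, b5, b6⟩ := hT e he
        have h3 := setup_dist_ee hh e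
        have h5 := dual_norm (pt h e.2) p
        have h6 := dual_norm (pt h (e.2 + ee e.1)) p
        exact ⟨by linarith, ⟨⟨by linarith [b3.1, h5.2], by linarith [b3.2, h5.1]⟩, k, hk,
          K.vt_tube_mono (K.vt_tube_add b4 b5) (by linarith)⟩,
          ⟨by linarith [b3.1, h6.2], by linarith [b3.2, h6.1]⟩, k, hk,
          K.vt_tube_mono (K.vt_tube_add b4 b6) (by linarith)⟩
    · rw [hF, hG0, ← Finset.sum_add_distrib]
      refine All.sum _ _ fun i _ => ?_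
      rw [add_add_add_comm]
      exact All.add ((ha i).2.2.2.mono fun p q h => ⟨h.1,
          ⟨h.2.1.1, _, (hab i).2.1, K.vt_tube_mono h.2.1.2 (by linarith)⟩,
          h.2.2.1, _, (hab i).2.1, K.vt_tube_mono h.2.2.2 (by linarith)⟩)
        ((hb i).2.2.2.mono fun p q h => ⟨h.1,
          ⟨h.2.1.1, _, (hab i).2.2, K.vt_tube_mono h.2.1.2 (by linarith)⟩,
          h.2.2.1, _, (hab i).2.2, K.vt_tube_mono h.2.2.2 (by linarith)⟩)
  have hbdc : bd (unr h (y + t) + (F + G0)) =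
      ∑ i, two (K.e (a i) (Γ.lv (a i))) (K.e (b i) (Γ.lv (b i))) := by
    have h1 : bd (unr h (y + t)) = bd (unr h (wv + t)) := by
      rw [bd_unr, bd_unr, map_add, map_add, setup_eq_of_add ((map_add bd1 y wv).symm.trans hζ0)]
    rw [map_add, map_add bd F, ← add_assoc, h1, hbdwt, hG0, map_sum, ← Finset.sum_add_distrib]
    refine Finset.sum_congr rfl fun i _ => ?_
    rw [map_add, Γ.theta_bd_Lg n _ i0 (ua i), Γ.theta_bd_Lg n _ i0 (ub i), Γ.leg_zero _ (haG i),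
      Γ.leg_zero _ (hbG i), ← add_assoc, setup_two_comm (Γ.leg (a i) _) (Γ.leg (b i) _),
      setup_two_comm (K.e (a i) _) (Γ.leg (a i) _), setup_two_add,
      setup_two_comm (Γ.leg (b i) _) (K.e (a i) _), setup_two_comm (K.e (b i) _) (Γ.leg (b i) _),
      setup_two_add]
  obtain ⟨hfine, hnull⟩ := hproj (unr h (y + t) + (F + G0)) xp sp Y (K.τ 1) (K.τ 16) (K.τ 8)
    (K.τ_nonneg 1) (K.τ_lt_one 16).le ⟨(K.τ_mono (by norm_num)).le, (K.τ_mono (by norm_num)).le⟩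
    (hc.mono fun p q hpq => ⟨by linarith [hpq.1], fun z hz => by
      have h1 : z ∈ K.Wb ∧ z ∈ K.Yt Y (Q / 2) := by
        rcases hz with rfl | rfl
        · exact hpq.2.1
        · exact hpq.2.2
      obtain ⟨h2, h3, h4⟩ := hxp z h1.1 h1.2
      exact ⟨h2, h3, h3.2, by linarith⟩⟩)
  have hbdκ : bd (prj xp (unr h (y + t) + (F + G0))) = ∑ i, two (a i) (b i) := by
    rw [Cone.bd_prj, hbdc, Finsupp.mapDomain_finsetSum]
    refine Finset.sum_congr rfl fun i _ => ?_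
    rw [setup_map_two, (hxF _ (Or.inl ⟨i, rfl⟩)).1, (hxF _ (Or.inr ⟨i, rfl⟩)).1]
  refine ⟨prj xp (unr h (y + t) + (F + G0)),
    setup_all_prj (Q := fun x y => x ∈ S ∧ y ∈ S) xp fun l _ => ⟨hxS _, hxS _⟩,
    fun l hl => ⟨(hfine l hl).1, (hfine l hl).2.1, (hfine l hl).2.2.trans_le (min_le_left _ _)⟩,
    hbdκ, fun o ho o' ho' => ?_⟩
  set T := ∑ i, (lnk (K.e (a i) (Γ.lv (a i))) (K.e (a i) (Γ.lv (a i))) +
    lnk (K.e (b i) (Γ.lv (b i))) (K.e (b i) (Γ.lv (b i)))) with hTdef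
  have hzz : Γ.zz n (prj xp (unr h (y + t) + (F + G0))) =
      K.lev (K.τ 8) (prj xp (unr h (y + t) + (F + G0))) +
        (∑ i, (K.V n (a i) (K.τ 8) (Γ.lv (a i)) + K.V n (b i) (K.τ 8) (Γ.lv (b i))) +
          (G0 + G1)) := by
    rw [zz, hbdκ, ← setupSm_apply, map_sum]
    congr 1
    rw [hG0, hG1, ← Finset.sum_add_distrib, ← Finset.sum_add_distrib]
    refine Finset.sum_congr rfl fun i _ => ?_
    rw [setupSm_two, md, md, Lg, Lg, ← cC_add _ _ 0 (va i).u 1, ← cC_add _ _ 0 (vb i).u 1]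
    simp only [Lg]
    abel
  rw [← setupSm_apply, hbdc, map_sum] at hnull
  have hN : ∑ i, setupSm (fun p => lnk p (K.e (xp p) (sp p)) + K.V n (xp p) (sp p) (K.τ 8))
      (two (K.e (a i) (Γ.lv (a i))) (K.e (b i) (Γ.lv (b i)))) =
      T + ∑ i, (K.V n (a i) (K.τ 8) (Γ.lv (a i)) + K.V n (b i) (K.τ 8) (Γ.lv (b i))) := by
    rw [hTdef, ← Finset.sum_add_distrib]
    refine Finset.sum_congr rfl fun i _ => ?_
    rw [setupSm_two, (hxF _ (Or.inl ⟨i, rfl⟩)).1, (hxF _ (Or.inr ⟨i, rfl⟩)).1,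
      (hxF _ (Or.inl ⟨i, rfl⟩)).2, (hxF _ (Or.inr ⟨i, rfl⟩)).2, Cone.V, Cone.V, Cone.V, Cone.V,
      cC_comm _ _ (Γ.lv (a i)), cC_comm _ _ (Γ.lv (b i))]
    abel
  rw [hN] at hnull
  have hW := K.setup_bd_pair n o o'
  rw [hzz, dual_alg fs_add_self _ _ (unr h (y + t) + (F + G0)) _ _ T G0 G1 F (unr h y) (unr h wv)
    (unr h t) rfl rfl (by rw [map_add]), Lk_add_left, Lk_add_left, Lk_add_left,
    Lk_null_left hh hnull hW (theta_av_of_fr ((hfr Y o (hdist o ho)).add (hfr Y o' (hdist o' ho')))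
      (by linarith [min_le_right η (d1 / 2)])), ← map_add, ← map_add, (hcl _ hγ0 hγ o o').1,
    Lk_eq_pair (setup_bd_unr hζ0) hW (by rw [rho_unr hh]; exact hζ), map_add, map_add,
    htest χ' (χ o) o fun p s hs => hD.test p o ho s hs,
    htest χ' (χ o') o' fun p s hs => hD.test p o' ho' s hs]
  have hT0 : rho h T = 0 := by
    rw [hTdef, map_sum]
    refine Finset.sum_eq_zero fun i _ => ?_
    rw [map_add, rho_lnk_of_fl_eq rfl, rho_lnk_of_fl_eq rfl, add_zero]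
  have hT1 : Lk h T (K.Vf n o + K.Vf n o') = 0 := by
    rw [← Lk_zero_left h (K.Vf n o + K.Vf n o')]
    unfold Lk
    rw [hT0, map_zero (rho h)]
  rw [hT1]
  simp

theorem dual {pos : X → ℝ} (hpos : Γ.OrdOK pos) (Y : Set X) (hY : IsClosed Y) {η : ℝ}
    (hη : 0 < η) (o o' : X) : ∃ δ > 0, ∀ (B : X →₀ Z2) (χ : X → Z2),
    (Γ.ord pos).Ev B → (∀ k ∈ B.support, k ∈ Y) → (∀ x ∉ Y, ∀ᶠ x' in 𝓝 x, χ x' = χ x) →
    (∀ g g', (Γ.ord pos).Chord g g' → g ∉ Y → g' ∉ Y →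
      (∀ k ∈ Y, ∀ k' ∈ Y, Γ.small δ k k' → ¬ (Γ.ord pos).Cross k k' g g') →
      χ g + χ g' = (Γ.ord pos).sig B g + (Γ.ord pos).sig B g') →
    ∃ κ : Ch X, Fine η Y κ ∧ bd κ = B ∧
      (o ∉ Y → o' ∉ Y → Γ.theta κ o + Γ.theta κ o' = χ o + χ o') := by
  have hO : IsCompact (({o, o'} : Set X) \ Y) := ((toFinite _).subset sdiff_subset).isCompact
  have hOY : Disjoint (({o, o'} : Set X) \ Y) Y := disjoint_sdiff_left
  obtain ⟨R, hR, hR', h2⟩ := Γ.dual_key2 pos hY hη hO hOY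
  obtain ⟨δ, hδ, δv, hδv, hδvR, h1⟩ := Γ.dual_key1 hpos hY hR hR'
  refine ⟨δ, hδ, fun B χ hB hBY hloc hχ => ?_⟩
  obtain ⟨l, hl, hBl⟩ := hB.pairing
  have hmem : ∀ i : Fin l.length, l[i.1] ∈ l := fun i => List.getElem_mem _
  have hsum : B = ∑ i : Fin l.length, two (l[i.1]).1 (l[i.1]).2 :=
    hBl.trans (Fin.sum_univ_fun_getElem l fun p => two p.1 p.2).symm
  have hab : ∀ i : Fin l.length, (Γ.ord pos).Chord (l[i.1]).1 (l[i.1]).2 ∧ (l[i.1]).1 ∈ Y ∧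
      (l[i.1]).2 ∈ Y := fun i =>
    ⟨(hl _ (hmem i)).1, hBY _ (hl _ (hmem i)).2.2.1, hBY _ (hl _ (hmem i)).2.2.2⟩
  choose va _ using fun i : Fin l.length => Γ.exists_vert (hab i).1.1 hδv one_pos
  choose vb _ using fun i : Fin l.length => Γ.exists_vert (hab i).1.2.1 hδv one_pos
  obtain ⟨μw, hμw, μ1, hμ1, h3⟩ := h1 _ _ _ χ va vb _ hO hOY hab hloc (by rw [← hsum]; exact hχ)
  obtain ⟨S, hS, h4⟩ := h2 δv hδvR _ _ _ χ va vb hab μw hμw μ1 hμ1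
  have h5 : ∀ᶠ n in hyperfilter ℕ, ∃ κ ∈ S, Fine η Y κ ∧ bd κ = B ∧ (o ∉ Y → o' ∉ Y →
      Lk (ms n) (Γ.zz n κ) (K.Vf n o + K.Vf n o') = χ o + χ o') := by
    filter_upwards [h3, hyper_of_atTop h4] with n ⟨E, χ', hD⟩ h6
    obtain ⟨κ, hκ, h7, h8, h9⟩ := h6 E χ' hD
    exact ⟨κ, hκ, h7, h8.trans hsum.symm, fun ho ho' =>
      h9 o ⟨Or.inl rfl, ho⟩ o' ⟨Or.inr rfl, ho'⟩⟩
  obtain ⟨κ, -, hκ⟩ := (Ultrafilter.eventually_exists_mem_iff hS).1 h5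
  obtain ⟨n, h6, h7, -⟩ := hκ.exists
  refine ⟨κ, h6, h7, fun ho ho' => ?_⟩
  rw [Γ.theta_add_eq]
  exact ulim_eq (hκ.mono fun n hn => hn.2.2 ho ho')

end Germs

end Pool.Agent.Lib.MP_9e71a3_gt
end
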