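import Pool.Agent.Lib.MP_9e71a3_gt.E4
import Pool.Agent.Lib.MP_9e71a3_gt.LamA
import Pool.Agent.Lib.MP_9e71a3_gt.Dual
import Pool.Agent.Lib.MP_9e71a3_gt.BandB

-- part Pool.Agent.Lib.MP_9e71a3_gt.Geo
section

/-! The geometric half: an embedded cone gives a structure `Str X`. -/

set_option autoImplicit false

namespace Pool.Agent.Lib.MP_9e71a3_gt

open Set Metric Filter Topology

namespace Germs
variable {X : Type} [MetricSpace X] [CompactSpace X] [ConnectedSpace X] {K : Cone X} (Γ : Germs K)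

theorem exists_ordOK : ∃ pos, Γ.OrdOK pos :=
  exists_pos Γ.G Γ.countable Γ.dom Γ.dom_mem Γ.dom_dom Γ.beta Γ.cr (fun _ _ _ _ => rfl)
    (fun _ ha _ hb _ hc _ hd h1 h2 h3 hab hac had hbc hbd hcd =>
      Γ.e4 ha hb hc hd h1 h2 h3 hab hac had hbc hbd hcd)
    (fun _ ha _ hb _ hc _ hd h1 h2 h3 => Γ.cr_dom ha hb hc hd h1 h2 h3)

theorem OrdOK.cr_of_cross {pos : X → ℝ} (hpos : Γ.OrdOK pos) {a b c d : X}
    (h : (Γ.ord pos).Cross a b c d) : Γ.cr a b c d = 1 := by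
  rw [hpos.2 a b c d h.1 h.2.1 h.ne13.symm h.ne23.symm h.ne14.symm h.ne24.symm]
  exact (Ord3.cross_iff_ind hpos.1 h.1 h.2.1 h.ne13.symm h.ne23.symm h.ne14.symm
    h.ne24.symm).1 h

theorem A3 {pos : X → ℝ} (hpos : Γ.OrdOK pos) {g g' : X} (hg : (Γ.ord pos).Chord g g') {r : ℝ}
    (hr : 0 < r) : ∃ η > 0, ∀ κ, (Γ.ord pos).Ev (bd κ) →
    (∀ l ∈ κ.support, dist l.1 l.2 < η ∧ r ≤ dist l.1 g ∧ r ≤ dist l.1 g') →
    Γ.theta κ g + Γ.theta κ g' = (Γ.ord pos).sig (bd κ) g + (Γ.ord pos).sig (bd κ) g' := by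
  obtain ⟨η, hη, h⟩ := Γ.A3_beta pos hg hr
  refine ⟨min η r, lt_min hη hr, fun κ hev hκ => ?_⟩
  rw [h κ hev fun l hl => ⟨(hκ l hl).1.trans_le (min_le_left _ _), (hκ l hl).2⟩]
  have hne : ∀ k ∈ (bd κ).support, g ≠ k ∧ g' ≠ k := by
    intro k hk
    obtain ⟨l, hl, hk'⟩ := mem_bd_support hk
    obtain ⟨h1, h2, h3⟩ := hκ l hl
    have h4 := h1.trans_le (min_le_right _ _)
    rcases hk' with rfl | rfl
    · constructor
      · intro he; rw [he, dist_self] at h2; linarith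
      · intro he; rw [he, dist_self] at h3; linarith
    · constructor
      · intro he; rw [he] at h2; linarith
      · intro he; rw [he] at h3; linarith
  have hp : ((bd κ).sum fun k c => c * (Γ.beta k g + Γ.beta k g')) =
      pair (fun k => Γ.beta k g + Γ.beta k g') (bd κ) := (pair_eq_sum _ _).symm
  rw [hp]
  obtain ⟨L, hL, hB⟩ := hev.pairing
  have hL' : ∀ p ∈ L, (Γ.ord pos).Chord p.1 p.2 ∧ (g ≠ p.1 ∧ g' ≠ p.1) ∧ (g ≠ p.2 ∧ g' ≠ p.2) :=
    fun p hp => ⟨(hL p hp).1, hne _ (hL p hp).2.2.1, hne _ (hL p hp).2.2.2⟩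
  rw [hB]
  clear hB hL
  induction L with
  | nil => rw [List.map_nil, List.sum_nil, map_zero, Ord3.sig_zero, Ord3.sig_zero, add_zero]
  | cons p L ih =>
    obtain ⟨hc, h1, h2⟩ := hL' p List.mem_cons_self
    rw [List.map_cons, List.sum_cons, map_add, ih fun q hq => hL' q (List.mem_cons_of_mem _ hq),
      Ord3.sig_add, Ord3.sig_add, pair_two, Ord3.sig_two hpos.1 hc hg.1 h1.1 h2.1,
      Ord3.sig_two hpos.1 hc hg.2.1 h1.2 h2.2]
    have h3 := hpos.2 p.1 p.2 g g' hc hg h1.1 h2.1 h1.2 h2.2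
    unfold cr at h3
    linear_combination h3

end Germs

theorem exists_str {X : Type} [MetricSpace X] [CompactSpace X] [ConnectedSpace X] [Nontrivial X]
    (K : Cone X) : Nonempty (Str X) := by
  obtain ⟨Γ⟩ := exists_germs K
  obtain ⟨pos, hpos⟩ := Γ.exists_ordOK
  refine ⟨{ toOrd3 := Γ.ord pos
            small := Γ.small
            θ := Γ.theta
            good := hpos.1
            small_chord := fun _ _ _ h => ⟨h.1, h.2.1, h.2.2.1⟩
            small_refl := fun _ _ hε ha => Γ.small_refl hε ha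
            small_symm := fun _ _ _ h => Γ.small_symm h
            small_mono := fun _ _ _ _ hε h => Γ.small_mono hε h
            small_trans := fun _ hε => Γ.small_trans hε
            small_dist := fun _ _ _ h => h.2.2.2.1
            X1 := ?_
            X2 := ?_
            LC := fun _ hε => Γ.LC hε
            T1 := fun _ hr => Γ.T1 hr
            T2 := fun _ hr => Γ.T2 hr
            LCst := fun _ hr => Γ.LCst pos hr
            A3 := fun _ _ hg _ hr => Γ.A3 hpos hg hr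
            dual := fun Y hY _ hη o o' => Γ.dual hpos Y hY hη o o' }⟩
  · intro ε hε
    obtain ⟨δ, hδ, h⟩ := Γ.x1_cr hε
    exact ⟨δ, hδ, fun a b c d h1 h2 hc => h a b c d h1 h2 hc.ne13.symm hc.ne23.symm hc.ne14.symm
      hc.ne24.symm (Germs.OrdOK.cr_of_cross Γ hpos hc)⟩
  · intro a b ε hε
    by_cases hab : (Γ.ord pos).Chord a b
    · obtain ⟨δ, hδ, h⟩ := Γ.x2_cr hab.1 hab.2.1 hab.2.2 hε
      exact ⟨δ, hδ, fun c d h1 hc => h c d h1 hc.ne13 hc.ne14 hc.ne23 hc.ne24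
        (Germs.OrdOK.cr_of_cross Γ hpos hc.symm)⟩
    · exact ⟨1, one_pos, fun c d _ hc => absurd hc.1 hab⟩

end Pool.Agent.Lib.MP_9e71a3_gt
end

-- part Pool.Agent.Lib.MP_9e71a3_gt.BandC
section

/-! The two banks of a transition and the walking lemma.  JOB Band (part C). -/

set_option autoImplicit false
set_option linter.unusedSectionVars false

namespace Pool.Agent.Lib.MP_9e71a3_gt

open Set Metric Filter Topology

/-- parameters in `[t, r]` shielded from `B` by points of `A` -/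
def bandZ {X : Type} (c : BC X) (A B : Set X) (t r : ℝ) : Set ℝ :=
  {u | (u ∈ c.K ∧ u ∈ Icc t r) ∧
    ∀ v, (v ∈ c.K ∧ v ∈ Icc t r ∧ c.π v ∈ B) → ∃ w ∈ c.K ∩ c.π ⁻¹' A, w ∈ uIcc u v}

def bandY {X : Type} (c : BC X) (A B : Set X) (t r : ℝ) : Set X :=
  (A ∩ c.P) ∪ c.π '' bandZ c A B t r

def bandM {X : Type} (L : Set (X × X)) (c : BC X) : Set (X × X) :=
  {e ∈ L | e.1 ∈ c.In ∨ e.2 ∈ c.In}

def bandD {X : Type} (L : Set (X × X)) (c : BC X) (A B : Set X) (t r : ℝ) : Set (X × X) :=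
  {d ∈ c.gs ∪ bandM L c | (d.1 ∈ bandY c A B t r ∧ d.2 ∈ bandY c A B t r) ∨
    (d.1 ∈ bandY c B A t r ∧ d.2 ∈ bandY c B A t r)}

/-- anchors inside the transition from `s` to `t` -/
def bandTA {X : Type} (c : BC X) (s t : ℝ) (α : X × X) : Prop :=
  ∃ u, s < u ∧ u < t ∧ α = c.anchor u

/-- anchors inside another transition -/
def bandTJ {X : Type} (c : BC X) (A B : Set X) (s t : ℝ) (α : X × X) : Prop :=
  ∃ s' t', c.Tr A B s' t' ∧ t ≤ s' ∧ t' ≤ s + c.per ∧ bandTA c s' t' α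

def bandEnd {X : Type} (α : X × X) (p : X) : Prop := p = α.1 ∨ p = α.2

theorem band_closed_uIcc {F : Set ℝ} (hF : IsClosed F) (v : ℝ) :
    IsClosed {u | ∃ w ∈ F, w ∈ uIcc u v} := by
  have e : {u | ∃ w ∈ F, w ∈ uIcc u v} =
      {u | ∃ w ∈ F, u ≤ w ∧ w ≤ v} ∪ {u | ∃ w ∈ F, v ≤ w ∧ w ≤ u} := by
    ext u
    simp only [mem_uIcc, mem_ofPred_eq, mem_union]
    constructor
    · rintro ⟨w, hw, h | h⟩
      exacts [Or.inl ⟨w, hw, h⟩, Or.inr ⟨w, hw, h⟩]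
    · rintro (⟨w, hw, h⟩ | ⟨w, hw, h⟩)
      exacts [⟨w, hw, Or.inl h⟩, ⟨w, hw, Or.inr h⟩]
  rw [e]
  refine IsClosed.union ?_ ?_
  · by_cases h : ∃ w ∈ F, w ≤ v
    · obtain ⟨h1, h2, h3⟩ := lo_spec hF h
      have : {u | ∃ w ∈ F, u ≤ w ∧ w ≤ v} = Iic (lo F v) := by
        ext u
        exact ⟨fun ⟨w, hw, a, b⟩ => a.trans (h3 w hw b), fun hu => ⟨_, h1, hu, h2⟩⟩
      rw [this]
      exact isClosed_Iic
    · have : {u | ∃ w ∈ F, u ≤ w ∧ w ≤ v} = ∅ :=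
        eq_empty_of_forall_notMem fun u ⟨w, hw, _, b⟩ => h ⟨w, hw, b⟩
      rw [this]
      exact isClosed_empty
  · by_cases h : ∃ w ∈ F, v ≤ w
    · obtain ⟨h1, h2, h3⟩ := hi_spec hF h
      have : {u | ∃ w ∈ F, v ≤ w ∧ w ≤ u} = Ici (hi F v) := by
        ext u
        exact ⟨fun ⟨w, hw, a, b⟩ => (h3 w hw a).trans b, fun hu => ⟨_, h1, h2, hu⟩⟩
      rw [this]
      exact isClosed_Ici
    · have : {u | ∃ w ∈ F, v ≤ w ∧ w ≤ u} = ∅ :=
        eq_empty_of_forall_notMem fun u ⟨w, hw, a, _⟩ => h ⟨w, hw, a⟩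
      rw [this]
      exact isClosed_empty

theorem bandZ_not_mem {X : Type} {c : BC X} {A B : Set X} {t r u : ℝ} (hAB : Disjoint A B)
    (hu : u ∈ bandZ c A B t r) : c.π u ∉ B := fun hB => by
  obtain ⟨w, hw, h⟩ := hu.2 u ⟨hu.1.1, hu.1.2, hB⟩
  rw [uIcc_self, mem_singleton_iff] at h
  exact disjoint_left.1 hAB (h ▸ hw.2) hB

theorem bandY_not_mem {X : Type} {c : BC X} {A B : Set X} {t r : ℝ} (hAB : Disjoint A B) {x : X}
    (hx : x ∈ bandY c A B t r) : x ∉ B := by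
  rcases hx with hx | ⟨u, hu, rfl⟩
  · exact disjoint_left.1 hAB hx.1
  · exact bandZ_not_mem hAB hu

theorem bandY_sub {X : Type} {c : BC X} {A B : Set X} {t r : ℝ} : bandY c A B t r ⊆ c.P := by
  rintro x (hx | ⟨u, hu, rfl⟩)
  · exact hx.2
  · exact Or.inr ⟨u, hu.1.1, rfl⟩

namespace Str
variable {X : Type} [MetricSpace X] [CompactSpace X] [ConnectedSpace X] [Nontrivial X]
  {S : Str X} {L : Set (X × X)} {c : BC X} {y : X} {A B : Set X} {s t : ℝ}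

theorem Sided.bandY_closed (h : S.Sided L y c) (hA : IsClosed A) (t r : ℝ) :
    IsClosed (bandY c A B t r) := by
  refine (hA.inter h.wf.closedP).union (IsCompact.isClosed ?_)
  have h1 : IsClosed (bandZ c A B t r) := by
    have e : bandZ c A B t r = (c.K ∩ Icc t r) ∩ ⋂ v ∈ {v | v ∈ c.K ∧ v ∈ Icc t r ∧ c.π v ∈ B},
        {u | ∃ w ∈ c.K ∩ c.π ⁻¹' A, w ∈ uIcc u v} := by
      ext u
      simp only [bandZ, mem_ofPred_eq, mem_inter_iff, mem_iInter]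
    rw [e]
    exact (h.scc.closed.inter isClosed_Icc).inter
      (isClosed_biInter fun v _ => band_closed_uIcc (h.scc.band_closed_pre hA) v)
  exact (isCompact_Icc.of_isClosed_subset h1 fun u hu => hu.1.2).image_of_continuousOn
    (h.scc.cont.mono fun u hu => hu.1.1)

theorem IsScc.band_tri (hc : S.IsScc L c) (hA : IsClosed A) (hB : IsClosed B)
    (hAB : Disjoint A B) {r : ℝ} (ht : t ∈ c.K) (hr : r ∈ c.K) (ht' : c.π t ∈ A ∪ B)
    (hr' : c.π r ∈ A ∪ B) {u : ℝ} (hu : u ∈ Icc t r) :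
    ∃ a ∈ c.K, ∃ b ∈ c.K, t ≤ a ∧ a ≤ u ∧ u ≤ b ∧ b ≤ r ∧
      ((∀ v ∈ c.K, a ≤ v → v ≤ b → v ∈ bandZ c A B t r) ∨
        (∀ v ∈ c.K, a ≤ v → v ≤ b → v ∈ bandZ c B A t r) ∨ (c.Tr A B a b ∧ a < u ∧ u < b)) := by
  have hF := hc.band_closed_pre (hA.union hB)
  obtain ⟨⟨a1, a2⟩, a3, a4⟩ := lo_spec hF (s := u) ⟨t, ⟨ht, ht'⟩, hu.1⟩
  obtain ⟨⟨b1, b2⟩, b3, b4⟩ := hi_spec hF (s := u) ⟨r, ⟨hr, hr'⟩, hu.2⟩
  set a := lo (c.K ∩ c.π ⁻¹' (A ∪ B)) u
  set b := hi (c.K ∩ c.π ⁻¹' (A ∪ B)) u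
  have a5 : t ≤ a := a4 t ⟨ht, ht'⟩ hu.1
  have b5 : b ≤ r := b4 r ⟨hr, hr'⟩ hu.2
  have same : ∀ A' B' : Set X, B' ⊆ A ∪ B → c.π a ∈ A' → c.π b ∈ A' →
      ∀ v ∈ c.K, a ≤ v → v ≤ b → v ∈ bandZ c A' B' t r := by
    intro A' B' hB' ha hb v hv l1 l2
    refine ⟨⟨hv, by linarith, by linarith⟩, fun v' hv' => ?_⟩
    rcases le_total v' u with l3 | l3
    · exact ⟨a, ⟨a1, ha⟩, mem_uIcc.2 (Or.inr ⟨a4 v' ⟨hv'.1, hB' hv'.2.2⟩ l3, l1⟩)⟩
    · exact ⟨b, ⟨b1, hb⟩, mem_uIcc.2 (Or.inl ⟨l2, b4 v' ⟨hv'.1, hB' hv'.2.2⟩ l3⟩)⟩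
  have diff : (c.π a ∈ A ∧ c.π b ∈ B) ∨ (c.π a ∈ B ∧ c.π b ∈ A) →
      c.Tr A B a b ∧ a < u ∧ u < b := by
    intro h
    have hne : a ≠ b := fun e => by
      rw [← e] at h
      exact h.elim (fun h => disjoint_left.1 hAB h.1 h.2) fun h => disjoint_left.1 hAB h.2 h.1
    have l1 : a < u := lt_of_le_of_ne a3 fun e =>
      hne (le_antisymm (a3.trans b3) (b4 a ⟨a1, a2⟩ e.ge))
    have l2 : u < b := lt_of_le_of_ne b3 fun e =>
      hne (le_antisymm (a3.trans b3) (a4 b ⟨b1, b2⟩ e.ge))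
    refine ⟨⟨a1, b1, l1.trans l2, h, fun v hv m1 m2 h3 => ?_⟩, l1, l2⟩
    rcases le_total v u with l3 | l3
    · exact absurd (a4 v ⟨hv, h3⟩ l3) (not_le.2 m1)
    · exact absurd (b4 v ⟨hv, h3⟩ l3) (not_le.2 m2)
  refine ⟨a, a1, b, b1, a5, a3, b3, b5, ?_⟩
  rcases a2 with a2 | a2 <;> rcases b2 with b2 | b2
  · exact Or.inl (same A B subset_union_right a2 b2)
  · exact Or.inr (Or.inr (diff (Or.inl ⟨a2, b2⟩)))
  · exact Or.inr (Or.inr (diff (Or.inr ⟨a2, b2⟩)))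
  · exact Or.inr (Or.inl (same B A subset_union_left a2 b2))

theorem IsScc.bandY_disj (hc : S.IsScc L c) (hA : IsClosed A) (hB : IsClosed B)
    (hAB : Disjoint A B) {r : ℝ} (hr : r ∈ c.K) (hr' : c.π r ∈ A ∪ B) (hlt : r < t + c.per) :
    Disjoint (bandY c A B t r) (bandY c B A t r) := by
  rw [disjoint_left]
  rintro x hx (hx' | ⟨u', hu', rfl⟩)
  · exact bandY_not_mem hAB hx hx'.1
  rcases hx with hx | ⟨u, hu, e⟩
  · exact bandZ_not_mem hAB.symm hu' hx.1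
  have e1 : u = u' := hc.band_inj hu.1.1 hu'.1.1 (by linarith [hu.1.2.2, hu'.1.2.1])
    (by linarith [hu.1.2.1, hu'.1.2.2]) e
  subst e1
  obtain ⟨⟨b1, b2⟩, b3, b4⟩ := hi_spec (hc.band_closed_pre (hA.union hB)) (s := u)
    ⟨r, ⟨hr, hr'⟩, hu.1.2.2⟩
  set b := hi (c.K ∩ c.π ⁻¹' (A ∪ B)) u
  have b5 : b ∈ Icc t r := ⟨hu.1.2.1.trans b3, b4 r ⟨hr, hr'⟩ hu.1.2.2⟩
  rcases b2 with b2 | b2
  · obtain ⟨w, hw, h⟩ := hu'.2 b ⟨b1, b5, b2⟩
    rw [uIcc_of_le b3] at h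
    have e2 : w = b := le_antisymm h.2 (b4 w ⟨hw.1, Or.inr hw.2⟩ h.1)
    exact disjoint_left.1 hAB b2 (e2 ▸ hw.2)
  · obtain ⟨w, hw, h⟩ := hu.2 b ⟨b1, b5, b2⟩
    rw [uIcc_of_le b3] at h
    have e2 : w = b := le_antisymm h.2 (b4 w ⟨hw.1, Or.inl hw.2⟩ h.1)
    exact disjoint_left.1 hAB (e2 ▸ hw.2) b2

theorem IsScc.window_notY (hc : S.IsScc L c) (hT : c.Tr A B s t) {u : ℝ} (hu : u ∈ c.K)
    (l1 : s < u) (l2 : u < t) :
    c.π u ∉ bandY c A B t (s + c.per) ∧ c.π u ∉ bandY c B A t (s + c.per) := by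
  have h1 := hT.2.2.2.2 u hu l1 l2
  have h2 := hc.window_not_mem hu l1 l2
  constructor
  · rintro (h | ⟨v, hv, e⟩)
    · exact h1 (Or.inl h.1)
    · exact h2 ⟨v, hv.1, e⟩
  · rintro (h | ⟨v, hv, e⟩)
    · exact h1 (Or.inr h.1)
    · exact h2 ⟨v, hv.1, e⟩

theorem band_anchor_mem {u : ℝ} (hu : u ∈ c.K) : c.anchor u = (c.π u, c.π u) := by
  simp [BC.anchor, lo_of_mem hu, hi_of_mem hu]

theorem bandTA_pt {u : ℝ} (hu : u ∈ c.K) (l1 : s < u) (l2 : u < t) :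
    bandTA c s t (c.π u, c.π u) := ⟨u, l1, l2, (band_anchor_mem hu).symm⟩

theorem bandTA_gap {a b : ℝ} (hg : Gap c.K a b) (l1 : s ≤ a) (l2 : b ≤ t) :
    bandTA c s t (c.π a, c.π b) := by
  have h0 := hg.2.2.1
  obtain ⟨e1, e2⟩ := hg.lo_hi (s := (a + b) / 2) (by linarith) (by linarith)
  exact ⟨(a + b) / 2, by linarith, by linarith, by rw [BC.anchor, e1, e2]⟩

theorem IsScc.bandTA_spec (hc : S.IsScc L c) (hs : s ∈ c.K) (ht : t ∈ c.K) {α : X × X}
    (h : bandTA c s t α) : ∃ a ∈ c.K, ∃ b ∈ c.K, s ≤ a ∧ a < t ∧ s < b ∧ b ≤ t ∧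
      α = (c.π a, c.π b) ∧ (a = b ∨ Gap c.K a b) := by
  obtain ⟨u, l1, l2, rfl⟩ := h
  have h1 : ∃ v ∈ c.K, v ≤ u := ⟨s, hs, l1.le⟩
  have h2 : ∃ v ∈ c.K, u ≤ v := ⟨t, ht, l2.le⟩
  obtain ⟨a1, a2, a3⟩ := lo_spec hc.closed h1
  obtain ⟨b1, b2, b3⟩ := hi_spec hc.closed h2
  refine ⟨_, a1, _, b1, a3 s hs l1.le, by linarith, by linarith, b3 t ht l2.le, rfl, ?_⟩
  by_cases hu : u ∈ c.K
  · exact Or.inl (by rw [lo_of_mem hu, hi_of_mem hu])
  · exact Or.inr (gap_lo_hi hc.closed h1 h2 hu)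

theorem Cell.band_nc (h : S.Cell L y c) : S.NC (c.gs ∪ bandM L c) := by
  rintro d (hd | hd) e (he | he)
  · exact h.scc.nc d hd e he
  · exact h.band_free he.1 he.2 d hd
  · exact fun hx => h.band_free hd.1 hd.2 e he hx.symm
  · exact h.lam.nc d hd.1 e he.1

theorem Cell.band_tame (h : S.Cell L y c) : S.Tame L (c.gs ∪ bandM L c) :=
  h.scc.tame.union (h.lam.tame fun _ he => he.1)

theorem Cell.band_reg (h : S.Cell L y c) (hA : IsClosed A) (hB : IsClosed B) :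
    S.Reg L y c (c.img ∪ ((A ∪ B) ∩ c.P)) c.gs (bandM L c) (c.In \ (A ∪ B)) where
  sided := h.toSided
  Zcl := h.scc.img_compact.isClosed.union ((hA.union hB).inter h.wf.closedP)
  imgZ := subset_union_left
  ZP := union_subset subset_union_right inter_subset_right
  Wtame := h.scc.tame
  Wnc := h.scc.nc
  gsW := Subset.rfl
  WZ := fun _ hd => ⟨Or.inl (h.scc.gs_mem hd).1, Or.inl (h.scc.gs_mem hd).2⟩
  ML := fun _ he => he.1
  Msymm := fun e he => ⟨h.lam.symm e he.1, he.2.symm⟩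
  MIn := fun _ he => he.2
  MW := fun _ he => h.band_free he.1 he.2
  Nopen := h.isOpen_In.sdiff (hA.union hB)
  NIn := fun _ hx => ⟨hx.1, fun h1 => h1.elim (h.band_disj hx.1) fun h2 => hx.2 h2.1⟩
  NM := fun _ he h1 => ⟨he, Or.inl h1.1⟩

/-- points of the cell near a boundary point off the two sets -/
theorem Cell.band_door (h : S.Cell L y c) (hA : IsClosed A) (hB : IsClosed B) {a b u : ℝ}
    (hu : u ∈ c.K) (l1 : a < u) (l2 : u < b) (hAB : c.π u ∉ A ∪ B) :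
    ∀ᶠ x in 𝓝 (c.π u), x ∈ c.P → (∃ v ∈ c.K, a < v ∧ v < b ∧ c.π v = x) ∨
      (x ∈ c.In \ (A ∪ B) ∧ ∃ v ∈ c.K, a < v ∧ v < b ∧
        Joined (bandM L c) (insert (c.π v) (c.In \ (A ∪ B))) x (c.π v) ∧
        S.Touch c c.gs (bandM L c) (c.In \ (A ∪ B)) x (c.π v, c.π v)) := by
  obtain ⟨ρ, hρ, hm⟩ := h.scc.modulus hu (ε := min (u - a) (b - u))
    (lt_min (by linarith) (by linarith))
  obtain ⟨ρ', hρ', hb⟩ := Metric.isOpen_iff.1 (hA.union hB).isOpen_compl _ hAB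
  have hε := lt_min hρ hρ'
  have key : ∀ x ∈ ball (c.π u) (min ρ ρ'), x ∈ c.P → x ∉ c.In \ (A ∪ B) →
      ∃ v ∈ c.K, a < v ∧ v < b ∧ c.π v = x := by
    intro x hx hP hN
    rcases hP with h1 | h1
    · exact absurd ⟨h1, hb (ball_subset_ball (min_le_right _ _) hx)⟩ hN
    · obtain ⟨v, hv, h2, e⟩ := hm x h1 (lt_of_lt_of_le hx (min_le_left _ _))
      rw [abs_lt] at h2
      have m1 := min_le_left (u - a) (b - u)
      have m2 := min_le_right (u - a) (b - u)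
      exact ⟨v, hv, by linarith [h2.1], by linarith [h2.2], e⟩
  obtain ⟨δ, hδ, hd⟩ := (h.band_reg hA hB).door_near (z := c.π u)
    (fun h1 => h.band_disj h1.1 ⟨u, hu, rfl⟩) hε
  filter_upwards [ball_mem_nhds _ hε, ball_mem_nhds _ hδ] with x h1 h2 hP
  by_cases hN : x ∈ c.In \ (A ∪ B)
  · obtain ⟨v, hv, hvN, hvP, hJ, hT⟩ := hd x hN h2
    obtain ⟨w, hw, m1, m2, rfl⟩ := key v hv hvP hvN
    exact Or.inr ⟨hN, w, hw, m1, m2,
      hJ.mono (insert_subset_insert inter_subset_left) fun p hp _ _ _ => hp, hT⟩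
  · exact Or.inl (key x h1 hP hN)

theorem band_cross_other {e1 e2 p p0 q : X} (h : S.Cross e1 e2 p0 q) (hp : S.Chord p p0)
    (hn : ¬ S.Cross e1 e2 p p0) : S.Cross e1 e2 p q ∨ p = e1 ∨ p = e2 := by
  by_cases h1 : p = e1
  · exact Or.inr (Or.inl h1)
  by_cases h2 : p = e2
  · exact Or.inr (Or.inr h2)
  exact Or.inl ((h.tri S.good hp h1 h2).resolve_left hn)

theorem Sided.band_nearest (h : S.Sided L y c) {g q : X} (hg : g ∉ c.img) {d0 : X × X}
    (hd0 : d0 ∈ c.gs) (hx : S.Cross d0.1 d0.2 g q) : ∃ f ∈ c.gs, S.Chord g f.1 ∧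
      S.Free c.gs g f.1 ∧ S.Free c.gs g f.2 ∧ S.Cross f.1 f.2 g q := by
  obtain ⟨f, hf, -, h1, h2, h3, h4⟩ := nearest h.lam h.scc.tame h.scc.nc
    h.scc.img_compact.isClosed (fun d hd => h.scc.gs_mem hd) hg hd0 hx.ne12
    (hx.chord13 S.good).symm
  refine ⟨f, hf, h1, h2, h3, ?_⟩
  rcases h4 with rfl | h4 | h4
  · exact hx
  · exact hx.beyond S.good h4 (h.scc.nc f hf d0 hd0)
  · exact hx.swapL.beyond S.good h4 fun h5 => h.scc.nc f hf d0 hd0 h5.swapR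

end Str

end Pool.Agent.Lib.MP_9e71a3_gt
end

-- part Pool.Agent.Lib.MP_9e71a3_gt.BandD
section

/-! Band cuts.  JOB Band (part D). -/

set_option autoImplicit false
set_option linter.unusedSectionVars false

namespace Pool.Agent.Lib.MP_9e71a3_gt

open Set Metric Filter Topology

namespace Str
variable {X : Type} [MetricSpace X] [CompactSpace X] [ConnectedSpace X] [Nontrivial X]
  {S : Str X} {L : Set (X × X)} {c : BC X} {y : X} {A B : Set X} {s t : ℝ}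

/-- the situation in which no band cut exists -/
structure BandCtx (S : Str X) (L : Set (X × X)) (y : X) (c : BC X) (A B : Set X) (s t : ℝ) :
    Prop where
  cell : S.Cell L y c
  ne : c.In.Nonempty
  hA : IsClosed A
  hB : IsClosed B
  hAB : Disjoint A B
  tr : c.Tr A B s t
  sA : c.π s ∈ A
  tB : c.π t ∈ B
  nomix : ∀ e ∈ L, ¬ (e.1 ∈ bandY c A B t (s + c.per) ∧ e.2 ∈ bandY c B A t (s + c.per))
  noconn : ∀ α β, bandTA c s t α → bandTJ c A B s t β →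
    ¬ ((∃ x, S.Touch c c.gs (bandM L c) (c.In \ (A ∪ B)) x α ∧
      S.Touch c c.gs (bandM L c) (c.In \ (A ∪ B)) x β) ∨ S.DA c c.gs (bandM L c) α β)

/-- anchors on the side of the transition from `s` to `t` -/
def BOne (S : Str X) (L : Set (X × X)) (c : BC X) (A B : Set X) (s t : ℝ) (α : X × X) : Prop :=
  bandTA c s t α ∨ (α.1 = α.2 ∧ ∃ β, bandTA c s t β ∧
    S.Touch c c.gs (bandM L c) (c.In \ (A ∪ B)) α.1 β)

def BGood (c : BC X) (A B : Set X) (s t : ℝ) (α : X × X) : Prop :=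
  (α.1 = α.2 ∧ α.1 ∈ c.In \ (A ∪ B)) ∨ bandTA c s t α ∨ bandTJ c A B s t α

def BOkc (S : Str X) (L : Set (X × X)) (c : BC X) (A B : Set X) (s t : ℝ) (p q : X) : Prop :=
  S.Chord p q ∧ S.Free c.gs p q ∧ S.Free (bandD L c A B t (s + c.per)) p q ∧ S.InsW c p q

def BOk (S : Str X) (L : Set (X × X)) (c : BC X) (A B : Set X) (s t : ℝ) (α β : X × X) : Prop :=
  BGood c A B s t α ∧ BGood c A B s t β ∧
    ∀ p q, bandEnd α p → bandEnd β q → S.BOkc L c A B s t p q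

theorem BOkc.symm {p q : X} (h : S.BOkc L c A B s t p q) : S.BOkc L c A B s t q p :=
  ⟨h.1.symm, band_free_symm h.2.1, band_free_symm h.2.2.1, band_insW_symm h.1 h.2.2.2⟩

namespace BandCtx
variable (h : S.BandCtx L y c A B s t)
include h

theorem tri {u : ℝ} (hu : u ∈ Icc t (s + c.per)) :
    ∃ a ∈ c.K, ∃ b ∈ c.K, t ≤ a ∧ a ≤ u ∧ u ≤ b ∧ b ≤ s + c.per ∧
      ((∀ v ∈ c.K, a ≤ v → v ≤ b → v ∈ bandZ c A B t (s + c.per)) ∨
        (∀ v ∈ c.K, a ≤ v → v ≤ b → v ∈ bandZ c B A t (s + c.per)) ∨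
        (c.Tr A B a b ∧ a < u ∧ u < b)) := by
  obtain ⟨e1, e2⟩ := h.cell.scc.band_add h.tr.1
  exact h.cell.scc.band_tri h.hA h.hB h.hAB h.tr.2.1 e1 h.tr.right (by rw [e2]; exact h.tr.left) hu

theorem disjY : Disjoint (bandY c A B t (s + c.per)) (bandY c B A t (s + c.per)) := by
  obtain ⟨e1, e2⟩ := h.cell.scc.band_add h.tr.1
  exact h.cell.scc.bandY_disj h.hA h.hB h.hAB e1 (by rw [e2]; exact h.tr.left)
    (by linarith [h.tr.2.2.1])

theorem notY_N {x : X} (hx : x ∈ c.In \ (A ∪ B)) :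
    x ∉ bandY c A B t (s + c.per) ∧ x ∉ bandY c B A t (s + c.per) := by
  constructor
  · rintro (h1 | ⟨u, hu, rfl⟩)
    · exact hx.2 (Or.inl h1.1)
    · exact h.cell.band_disj hx.1 ⟨u, hu.1.1, rfl⟩
  · rintro (h1 | ⟨u, hu, rfl⟩)
    · exact hx.2 (Or.inr h1.1)
    · exact h.cell.band_disj hx.1 ⟨u, hu.1.1, rfl⟩

theorem good_of_mem {k : X} (hk : k ∈ c.P) (h1 : k ∉ bandY c A B t (s + c.per))
    (h2 : k ∉ bandY c B A t (s + c.per)) : BGood c A B s t (k, k) := by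
  rcases hk with hk | hk
  · refine Or.inl ⟨rfl, hk, ?_⟩
    rintro (h3 | h3)
    · exact h1 (Or.inl ⟨h3, Or.inl hk⟩)
    · exact h2 (Or.inl ⟨h3, Or.inl hk⟩)
  · by_cases h3 : k ∈ c.π '' (c.K ∩ Icc t (s + c.per))
    · obtain ⟨u, ⟨hu, hI⟩, rfl⟩ := h3
      obtain ⟨a, -, b, -, l1, l2, l3, l4, h4 | h4 | h4⟩ := h.tri hI
      · exact absurd (Or.inr ⟨u, h4 u hu l2 l3, rfl⟩) h1
      · exact absurd (Or.inr ⟨u, h4 u hu l2 l3, rfl⟩) h2
      · exact Or.inr (Or.inr ⟨a, b, h4.1, l1, l4, bandTA_pt hu h4.2.1 h4.2.2⟩)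
    · obtain ⟨u, hu, l1, l2, rfl⟩ := h.cell.scc.off_window hk h3
      exact Or.inr (Or.inl (bandTA_pt hu l1 l2))

theorem gap_cases {d : X × X} (hd : d ∈ c.gs) :
    (∃ a b, Gap c.K a b ∧ s ≤ a ∧ b ≤ t ∧ d = (c.π a, c.π b)) ∨
      d ∈ bandD L c A B t (s + c.per) ∨ bandTJ c A B s t d := by
  obtain ⟨a, b, hg, rfl, l1, l2⟩ := h.cell.scc.gap_norm s hd
  have l0 := hg.2.2.1
  rcases hg.2.2.2 t h.tr.2.1 with l3 | l3
  · right
    have l4 : b ≤ s + c.per :=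
      (hg.2.2.2 _ (h.cell.scc.band_add h.tr.1).1).resolve_left (not_le.2 l2)
    obtain ⟨a', ha', b', hb', m1, m2, m3, m4, h4⟩ :=
      h.tri (u := (a + b) / 2) ⟨by linarith, by linarith⟩
    have n1 : a' ≤ a := (hg.2.2.2 a' ha').resolve_right (by linarith)
    have n2 : b ≤ b' := (hg.2.2.2 b' hb').resolve_left (by linarith)
    rcases h4 with h4 | h4 | h4
    · exact Or.inl ⟨Or.inl hd, Or.inl ⟨Or.inr ⟨a, h4 a hg.1 n1 (by linarith), rfl⟩,
        Or.inr ⟨b, h4 b hg.2.1 (by linarith) n2, rfl⟩⟩⟩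
    · exact Or.inl ⟨Or.inl hd, Or.inr ⟨Or.inr ⟨a, h4 a hg.1 n1 (by linarith), rfl⟩,
        Or.inr ⟨b, h4 b hg.2.1 (by linarith) n2, rfl⟩⟩⟩
    · exact Or.inr ⟨a', b', h4.1, m1, m4, bandTA_gap hg n1 n2⟩
  · exact Or.inl ⟨a, b, hg, l1, l3, rfl⟩

theorem ta_img {a b : ℝ} (ha : a ∈ c.K) (hb : b ∈ c.K) {α : X × X} (hα : bandTA c a b α) :
    α.1 ∈ c.img := by
  obtain ⟨u, hu, v, -, -, -, -, -, rfl, -⟩ := h.cell.scc.bandTA_spec ha hb hα
  exact ⟨u, hu, rfl⟩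

theorem ta_triv {a b : ℝ} (ha : a ∈ c.K) (hb : b ∈ c.K) {α : X × X} (hα : bandTA c a b α)
    (e : α.1 = α.2) : ∃ u ∈ c.K, a < u ∧ u < b ∧ α = (c.π u, c.π u) := by
  obtain ⟨u, hu, v, -, -, l1, l2, -, rfl, rfl | hg⟩ := h.cell.scc.bandTA_spec ha hb hα
  · exact ⟨u, hu, l2, l1, rfl⟩
  · exact absurd e (h.cell.gap_ne h.ne (d := (c.π u, c.π v)) ⟨u, v, hg, rfl⟩)

theorem not_one_TJ {α : X × X} (hα : bandTJ c A B s t α) : ¬ S.BOne L c A B s t α := by
  obtain ⟨s', t', hT, l1, l2, hα⟩ := hα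
  rintro (h1 | ⟨-, β, -, h1⟩)
  · obtain ⟨a, ha, b, -, m1, m2, -, -, e, -⟩ := h.cell.scc.bandTA_spec h.tr.1 h.tr.2.1 h1
    obtain ⟨a', ha', b', -, n1, n2, -, -, e', -⟩ := h.cell.scc.bandTA_spec hT.1 hT.2.1 hα
    exact h.cell.scc.band_ne ha ha' (by linarith) (by linarith)
      (congrArg Prod.fst (e.symm.trans e'))
  · exact h.cell.band_disj h1.mem.1 (h.ta_img hT.1 hT.2.1 hα)

theorem one_N {α : X × X} (hx : α.1 ∈ c.In) (h1 : S.BOne L c A B s t α) :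
    ∃ β, bandTA c s t β ∧ S.Touch c c.gs (bandM L c) (c.In \ (A ∪ B)) α.1 β :=
  h1.elim (fun h2 => absurd (h.ta_img h.tr.1 h.tr.2.1 h2) (h.cell.band_disj hx)) fun h2 => h2.2

theorem one_P {x : X} (h1 : S.BOne L c A B s t (x, x)) : x ∈ c.P :=
  h1.elim (fun h2 => Or.inr (h.ta_img h.tr.1 h.tr.2.1 h2)) fun ⟨_, _, _, h2⟩ => Or.inl h2.mem.1

theorem one_rel {x x' : X} (hr : S.Rel c c.gs (bandM L c) (c.In \ (A ∪ B)) x x') :
    S.BOne L c A B s t (x, x) ↔ S.BOne L c A B s t (x', x') := by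
  constructor
  · intro h1
    obtain ⟨β, h2, h3⟩ := h.one_N (α := (x, x)) hr.mem.1.1 h1
    exact Or.inr ⟨rfl, β, h2, Touch.of_rel ((h.cell.band_reg h.hA h.hB).rel_symm hr) h3⟩
  · intro h1
    obtain ⟨β, h2, h3⟩ := h.one_N (α := (x', x')) hr.mem.2.1 h1
    exact Or.inr ⟨rfl, β, h2, Touch.of_rel hr h3⟩

theorem locTJ {x : X} (hx : bandTJ c A B s t (x, x)) :
    ∀ᶠ x' in 𝓝 x, ¬ S.BOne L c A B s t (x', x') := by
  obtain ⟨s', t', hT, l1, l2, hα⟩ := hx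
  obtain ⟨u, hu, m1, m2, e⟩ := h.ta_triv hT.1 hT.2.1 hα rfl
  obtain rfl : x = c.π u := congrArg Prod.fst e
  filter_upwards [h.cell.band_door h.hA h.hB hu m1 m2 (hT.2.2.2.2 u hu m1 m2)] with x' hx' h1
  rcases hx' (h.one_P h1) with ⟨v, hv, n1, n2, rfl⟩ | ⟨hN, v, hv, n1, n2, -, h2⟩
  · exact h.not_one_TJ ⟨s', t', hT, l1, l2, bandTA_pt hv n1 n2⟩ h1
  · obtain ⟨β, h3, h4⟩ := h.one_N (α := (x', x')) hN.1 h1
    exact h.noconn β _ h3 ⟨s', t', hT, l1, l2, bandTA_pt hv n1 n2⟩ (Or.inl ⟨x', h4, h2⟩)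

theorem loc_good {x : X} (hx : BGood c A B s t (x, x)) :
    ∀ᶠ x' in 𝓝 x, x' ∈ c.P → (S.BOne L c A B s t (x', x') ↔ S.BOne L c A B s t (x, x)) := by
  rcases hx with hx | hx | hx
  · filter_upwards [(h.cell.band_reg h.hA h.hB).rel_loc hx.2] with x' hx' _
    exact (h.one_rel hx').symm
  · obtain ⟨u, hu, m1, m2, e⟩ := h.ta_triv h.tr.1 h.tr.2.1 hx rfl
    obtain rfl : x = c.π u := congrArg Prod.fst e
    filter_upwards [h.cell.band_door h.hA h.hB hu m1 m2 (h.tr.2.2.2.2 u hu m1 m2)] with x' hx' h1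
    refine iff_of_true ?_ (Or.inl hx)
    rcases hx' h1 with ⟨v, hv, n1, n2, rfl⟩ | ⟨-, v, hv, n1, n2, -, h2⟩
    · exact Or.inl (bandTA_pt hv n1 n2)
    · exact Or.inr ⟨rfl, _, bandTA_pt hv n1 n2, h2⟩
  · filter_upwards [h.locTJ hx] with x' hx' _
    exact iff_of_false hx' (h.not_one_TJ hx)

theorem loc {x : X} (h1 : x ∉ bandY c A B t (s + c.per)) (h2 : x ∉ bandY c B A t (s + c.per))
    (h3 : ¬ bandTA c s t (x, x)) :
    ∀ᶠ x' in 𝓝 x, (S.BOne L c A B s t (x', x') ↔ S.BOne L c A B s t (x, x)) := by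
  by_cases hP : x ∈ c.P
  · rcases h.good_of_mem hP h1 h2 with hx | hx | hx
    · filter_upwards [(h.cell.band_reg h.hA h.hB).rel_loc hx.2] with x' hx'
      exact (h.one_rel hx').symm
    · exact absurd hx h3
    · filter_upwards [h.locTJ hx] with x' hx'
      exact iff_of_false hx' (h.not_one_TJ hx)
  · filter_upwards [h.cell.wf.closedP.isOpen_compl.mem_nhds hP] with x' hx'
    exact iff_of_false (fun h4 => hx' (h.one_P h4)) fun h4 => hP (h.one_P h4)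

theorem good_free {α : X × X} (hα : BGood c A B s t α) {p p' : X} (hp : bandEnd α p)
    (hp' : bandEnd α p') : S.Free (bandM L c) p p' := by
  have key : S.Free (bandM L c) α.1 α.2 := by
    have k2 : ∀ a ∈ c.K, ∀ b ∈ c.K, bandTA c a b α → S.Free (bandM L c) α.1 α.2 := by
      intro a ha b hb h1
      obtain ⟨u, -, v, -, -, -, -, -, rfl, rfl | hg⟩ := h.cell.scc.bandTA_spec ha hb h1
      · exact band_free_self _ _
      · exact fun e he => h.cell.band_nc e (Or.inr he) (c.π u, c.π v) (Or.inl ⟨u, v, hg, rfl⟩)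
    rcases hα with h1 | h1 | ⟨s', t', hT, -, -, h1⟩
    · rw [← h1.1]; exact band_free_self _ _
    · exact k2 s h.tr.1 t h.tr.2.1 h1
    · exact k2 s' hT.1 t' hT.2.1 h1
  rcases hp with rfl | rfl <;> rcases hp' with rfl | rfl
  exacts [band_free_self _ _, key, band_free_symm key, band_free_self _ _]

theorem okc_step {e : X × X} (he : e ∈ bandM L c) {p q : X} (hpq : S.BOkc L c A B s t p q)
    (hp : S.Cross e.1 e.2 p q ∨ p = e.1 ∨ p = e.2) : S.BOkc L c A B s t p e.1 := by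
  have hch := h.cell.lam.chord e he.1
  obtain ⟨h1, h2⟩ := insW_step h.cell.toSided hch he.2 (h.cell.band_free he.1 he.2) hp hpq.2.1
  have hD : S.Free (bandD L c A B t (s + c.per)) e.1 e.2 := fun d hd =>
    h.cell.band_nc d hd.1 e (Or.inr he)
  rcases hp with hp | rfl | rfl
  · exact ⟨(hp.chord13 S.good).symm, h1, band_recomb hp.symm hpq.2.2.1 hD, h2⟩
  · exact ⟨Ord3.Chord.refl hch.1, h1, band_free_self _ _, h2⟩
  · exact ⟨hch.symm, h1, band_free_symm hD, h2⟩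

theorem adj {α β : X × X} (hα : BGood c A B s t α) (hβ : BGood c A B s t β)
    (hF : ∀ p q, bandEnd α p → bandEnd β q → S.Fc c c.gs (bandM L c) p q)
    (h1 : S.BOne L c A B s t α) : S.BOne L c A B s t β := by
  have hda : S.DA c c.gs (bandM L c) α β := ⟨hF _ _ (Or.inl rfl) (Or.inl rfl),
    hF _ _ (Or.inl rfl) (Or.inr rfl), hF _ _ (Or.inr rfl) (Or.inl rfl),
    hF _ _ (Or.inr rfl) (Or.inr rfl)⟩
  rcases hβ with hβ | hβ | hβ
  · rcases hα with hα | hα | hα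
    · obtain ⟨γ, h2, h3⟩ := h.one_N hα.2.1 h1
      exact Or.inr ⟨hβ.1, γ, h2, Touch.of_rel (Rel.of_fc hβ.2 hα.2 hda.1.symm) h3⟩
    · exact Or.inr ⟨hβ.1, α, hα, β.1, Rel.refl hβ.2, Or.inr ⟨hda.1.symm, hda.2.2.1.symm⟩⟩
    · exact absurd h1 (h.not_one_TJ hα)
  · exact Or.inl hβ
  · exfalso
    rcases hα with hα | hα | hα
    · obtain ⟨γ, h2, h3⟩ := h.one_N hα.2.1 h1
      exact h.noconn γ β h2 hβ (Or.inl ⟨α.1, h3, α.1, Rel.refl hα.2, Or.inr ⟨hda.1, hda.2.1⟩⟩)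
    · exact h.noconn α β hα hβ (Or.inr hda)
    · exact h.not_one_TJ hα h1

theorem walk {α β : X × X} (hok : S.BOk L c A B s t α β) :
    S.BOne L c A B s t α ↔ S.BOne L c A B s t β := by
  classical
  have hL := h.cell.lam
  have hsep : ∀ {e α β : X × X}, S.Sep e α β ↔
      ∃ p q, bandEnd α p ∧ bandEnd β q ∧ S.Cross e.1 e.2 p q := by
    intro e α β
    constructor
    · rintro (h1 | h1 | h1 | h1)
      exacts [⟨_, _, Or.inl rfl, Or.inl rfl, h1⟩, ⟨_, _, Or.inl rfl, Or.inr rfl, h1⟩,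
        ⟨_, _, Or.inr rfl, Or.inl rfl, h1⟩, ⟨_, _, Or.inr rfl, Or.inr rfl, h1⟩]
    · rintro ⟨p, q, rfl | rfl, rfl | rfl, h1⟩
      exacts [Or.inl h1, Or.inr (Or.inl h1), Or.inr (Or.inr (Or.inl h1)),
        Or.inr (Or.inr (Or.inr h1))]
  have H4 : ∀ α, BGood c A B s t α → α.1 = α.2 → ∃ ρ > 0, ∀ k ∈ c.P \
      (bandY c A B t (s + c.per) ∪ bandY c B A t (s + c.per)), k ∈ ball α.1 ρ →
      (if S.BOne L c A B s t (k, k) then (1 : Z2) else 0) =
        if S.BOne L c A B s t α then 1 else 0 := by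
    rintro ⟨x, x'⟩ hα e
    obtain rfl : x = x' := e
    obtain ⟨ρ, hρ, hb⟩ := Metric.eventually_nhds_iff.1 (h.loc_good hα)
    exact ⟨ρ, hρ, fun k hk hk' => by rw [hb hk' hk.1]⟩
  have := Str.walk hL (M := bandM L c \ bandD L c A B t (s + c.per))
    (hL.tame fun e he => he.1.1) (fun d hd e he => hL.nc d hd.1.1 e he.1.1)
    (fun e he => ⟨⟨hL.symm e he.1.1, he.1.2.symm⟩, fun h1 =>
      he.2 ⟨Or.inr he.1, h1.2.imp And.symm And.symm⟩⟩)
    (c.P \ (bandY c A B t (s + c.per) ∪ bandY c B A t (s + c.per)))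
    (fun α => if S.BOne L c A B s t α then 1 else 0) (S.BOk L c A B s t)
    (fun α β ⟨g1, g2, g3⟩ => ⟨(g3 _ _ (Or.inl rfl) (Or.inl rfl)).1.trans
        (g3 _ _ (Or.inr rfl) (Or.inl rfl)).1.symm,
      (g3 _ _ (Or.inl rfl) (Or.inl rfl)).1.symm.trans (g3 _ _ (Or.inl rfl) (Or.inr rfl)).1,
      (g3 _ _ (Or.inl rfl) (Or.inl rfl)).1,
      fun d hd => h.good_free g1 (Or.inl rfl) (Or.inr rfl) d hd.1,
      fun d hd => h.good_free g2 (Or.inl rfl) (Or.inr rfl) d hd.1⟩)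
    (fun α β _ e he _ => by
      obtain ⟨p1, p2⟩ := h.cell.band_memP he.1.1 he.1.2
      by_contra h1
      push Not at h1
      have h2 : e.1 ∈ bandY c A B t (s + c.per) ∪ bandY c B A t (s + c.per) := by
        by_contra h2
        exact h1.1 ⟨p1, h2⟩
      have h3 : e.2 ∈ bandY c A B t (s + c.per) ∪ bandY c B A t (s + c.per) := by
        by_contra h3
        exact h1.2 ⟨p2, h3⟩
      rcases h2 with h2 | h2 <;> rcases h3 with h3 | h3
      · exact he.2 ⟨Or.inr he.1, Or.inl ⟨h2, h3⟩⟩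
      · exact h.nomix e he.1.1 ⟨h2, h3⟩
      · exact h.nomix e.swap (hL.symm e he.1.1) ⟨h3, h2⟩
      · exact he.2 ⟨Or.inr he.1, Or.inr ⟨h2, h3⟩⟩)
    (fun α β ⟨g1, g2, g3⟩ e he hs hΓ => by
      obtain ⟨p0, q0, hp0, hq0, hx⟩ := hsep.1 hs
      have g4 := h.good_of_mem hΓ.1 (fun h1 => hΓ.2 (Or.inl h1)) fun h1 => hΓ.2 (Or.inr h1)
      refine ⟨⟨g1, g4, fun p q hp hq => ?_⟩, ⟨g4, g2, fun p q hp hq => ?_⟩⟩
      · obtain rfl : q = e.1 := hq.elim id id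
        exact h.okc_step he.1 (g3 p q0 hp hq0) (band_cross_other hx
          ((g3 p q0 hp hq0).1.trans (g3 p0 q0 hp0 hq0).1.symm) (h.good_free g1 hp hp0 e he.1))
      · obtain rfl : p = e.1 := hp.elim id id
        exact (h.okc_step he.1 (g3 p0 q hp0 hq).symm (band_cross_other hx.swapR
          ((g3 p0 q hp0 hq).1.symm.trans (g3 p0 q0 hp0 hq0).1)
          (h.good_free g2 hq hq0 e he.1))).symm)
    (fun α β ⟨g1, g2, g3⟩ hns => by
      have hF : ∀ p q, bandEnd α p → bandEnd β q → S.Fc c c.gs (bandM L c) p q := by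
        intro p q hp hq
        obtain ⟨k1, k2, k3, k4⟩ := g3 p q hp hq
        refine ⟨k1, k2, fun e he hx => ?_, k4⟩
        by_cases h1 : e ∈ bandD L c A B t (s + c.per)
        · exact k3 e h1 hx
        · exact hns e ⟨he, h1⟩ (hsep.2 ⟨p, q, hp, hq, hx⟩)
      have : S.BOne L c A B s t α ↔ S.BOne L c A B s t β :=
        ⟨h.adj g1 g2 hF, h.adj g2 g1 fun p q hp hq => (hF q p hq hp).symm⟩
      simp only [this])
    (fun α β ⟨g1, g2, _⟩ => ⟨H4 α g1, H4 β g2⟩) α β hok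
  by_cases h1 : S.BOne L c A B s t α <;> by_cases h2 : S.BOne L c A B s t β <;> simp_all

end BandCtx

end Str

end Pool.Agent.Lib.MP_9e71a3_gt
end

-- part Pool.Agent.Lib.MP_9e71a3_gt.BandE
section

/-! Existence of band cuts.  JOB Band (part E). -/

set_option autoImplicit false
set_option linter.unusedSectionVars false

namespace Pool.Agent.Lib.MP_9e71a3_gt

open Set Metric Filter Topology

namespace Str
variable {X : Type} [MetricSpace X] [CompactSpace X] [ConnectedSpace X] [Nontrivial X]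
  {S : Str X} {L : Set (X × X)} {c : BC X} {y : X} {A B : Set X} {s t : ℝ}

namespace BandCtx
variable (h : S.BandCtx L y c A B s t)
include h

theorem free_gap {d : X × X} (hd : d ∈ c.gs) : S.Free (bandD L c A B t (s + c.per)) d.1 d.2 :=
  fun e he => h.cell.band_nc e he.1 d (Or.inl hd)

theorem near_TJ {g q : X} (hg : g ∈ c.In \ (A ∪ B)) {f : X × X} (hf : f ∈ c.gs)
    (hch : S.Chord g f.1) (h1 : S.Free c.gs g f.1) (h2 : S.Free c.gs g f.2)
    (hx : S.Cross f.1 f.2 g q) (hD : S.Free (bandD L c A B t (s + c.per)) g q)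
    (hT : ¬ ∃ a b, Gap c.K a b ∧ s ≤ a ∧ b ≤ t ∧ f = (c.π a, c.π b)) :
    ¬ S.BOne L c A B s t (g, g) := by
  rcases h.gap_cases hf with h3 | h3 | h3
  · exact absurd h3 hT
  · exact absurd hx (hD f h3)
  have hch2 : S.Chord g f.2 := hch.trans hx.1
  have hok : S.BOk L c A B s t (g, g) f := by
    refine ⟨Or.inl ⟨rfl, hg⟩, Or.inr (Or.inr h3), fun p r hp hr => ?_⟩
    obtain rfl : p = g := hp.elim id id
    rcases hr with rfl | rfl
    · exact ⟨hch, h1, band_recomb hx.symm hD (h.free_gap hf), band_insW_self hg.1 hch h1⟩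
    · exact ⟨hch2, h2, band_recomb hx.swapL.symm hD (band_free_symm (h.free_gap hf)),
        band_insW_self hg.1 hch2 h2⟩
  exact fun h4 => h.not_one_TJ h3 ((h.walk hok).1 h4)

theorem star {g g' : X} (hg : ¬ bandTA c s t (g, g)) (h1 : S.BOne L c A B s t (g, g))
    (hch : S.Chord g g') (h2 : g' ∉ bandY c A B t (s + c.per))
    (h3 : g' ∉ bandY c B A t (s + c.per)) (hD : S.Free (bandD L c A B t (s + c.per)) g g')
    (hT : ∀ a b, Gap c.K a b → s ≤ a → b ≤ t → ¬ S.Cross (c.π a) (c.π b) g g') :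
    S.BOne L c A B s t (g', g') := by
  obtain ⟨-, β, -, hβ⟩ := h1.resolve_left hg
  have hN : g ∈ c.In \ (A ∪ B) := hβ.mem
  by_cases hf : S.Free c.gs g g'
  · refine (h.walk ⟨Or.inl ⟨rfl, hN⟩,
      h.good_of_mem (h.cell.mem_P_of_free hN.1 hch hf) h2 h3, fun p q hp hq => ?_⟩).1 h1
    obtain rfl : p = g := hp.elim id id
    obtain rfl : q = g' := hq.elim id id
    exact ⟨hch, hf, hD, band_insW_self hN.1 hch hf⟩
  · simp only [Free, not_forall, not_not] at hf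
    obtain ⟨d0, hd0, hx⟩ := hf
    obtain ⟨f, hf, k1, k2, k3, k4⟩ := h.cell.band_nearest (h.cell.band_disj hN.1) hd0 hx
    refine absurd h1 (h.near_TJ hN hf k1 k2 k3 k4 hD ?_)
    rintro ⟨a, b, m1, m2, m3, rfl⟩
    exact hT a b m1 m2 m3 k4

theorem gap_false {a b : ℝ} (hg : Gap c.K a b) (la : s ≤ a) (lb : b ≤ t) : False := by
  classical
  have hL := h.cell.lam
  have hc := h.cell.scc
  have hO := S.good
  have htl := hc.tr_lt h.hAB h.tr
  have lab := hg.2.2.1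
  have hd : (c.π a, c.π b) ∈ c.gs := ⟨a, b, hg, rfl⟩
  have hdch : S.Chord (c.π a) (c.π b) := hc.tame.chord _ hd
  have hdne : c.π a ≠ c.π b := h.cell.gap_ne h.ne hd
  set Ym := bandY c A B t (s + c.per) with hYm
  set Yp := bandY c B A t (s + c.per) with hYp
  set D := bandD L c A B t (s + c.per) with hD
  set D' : Set (X × X) := D ∪ {d | ∃ a' b', Gap c.K a' b' ∧ d = (c.π a', c.π b') ∧
    ((s ≤ a' ∧ b' ≤ a) ∨ (b ≤ a' ∧ b' ≤ t))} with hD'
  have hD'sub : D' ⊆ c.gs ∪ bandM L c := by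
    rintro d (h1 | ⟨a', b', h1, rfl, -⟩)
    · exact h1.1
    · exact Or.inl ⟨a', b', h1, rfl⟩
  have hTgap : ∀ a' b', Gap c.K a' b' → s ≤ a' → b' ≤ t →
      (c.π a', c.π b') = (c.π a, c.π b) ∨ (c.π a', c.π b') ∈ D' := by
    intro a' b' h1 l1 l2
    have l0 := h1.2.2.1
    rcases hg.2.2.2 a' h1.1 with l3 | l3
    · rcases hg.2.2.2 b' h1.2.1 with l4 | l4
      · exact Or.inr (Or.inr ⟨a', b', h1, rfl, Or.inl ⟨l1, l4⟩⟩)
      · have e1 : a = a' := le_antisymm ((h1.2.2.2 a hg.1).resolve_right (by linarith)) l3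
        have e2 : b' = b := le_antisymm ((h1.2.2.2 b hg.2.1).resolve_left (by linarith)) l4
        exact Or.inl (by rw [e1, e2])
    · exact Or.inr (Or.inr ⟨a', b', h1, rfl, Or.inr ⟨l3, l2⟩⟩)
  have hfd : S.Free D' (c.π a) (c.π b) := fun e he => h.cell.band_nc e (hD'sub he) _ (Or.inl hd)
  obtain ⟨w, hw, w1', w2', w3'⟩ := h.cell.adj_gap h.ne hd
  have hwi := h.cell.band_disj hw
  have hwne : ∀ f ∈ c.gs, w ≠ f.1 ∧ w ≠ f.2 := fun f hf =>
    ⟨fun e => hwi (e ▸ (hc.gs_mem hf).1), fun e => hwi (e ▸ (hc.gs_mem hf).2)⟩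
  have hwd : ∀ p, bandEnd (c.π a, c.π b) p → S.Chord w p ∧ S.Free c.gs w p := by
    rintro p (rfl | rfl)
    exacts [⟨w1', w2'⟩, ⟨w1'.trans hdch, w3'⟩]
  have hTA : bandTA c s t (c.π a, c.π b) := bandTA_gap hg la lb
  have hnTA : ∀ x, x ∉ (Ym ∪ c.π '' (c.K ∩ Icc s a)) ∪ (Yp ∪ c.π '' (c.K ∩ Icc b t)) →
      ¬ bandTA c s t (x, x) := by
    intro x hx h1
    obtain ⟨u, hu, l1, l2, e⟩ := h.ta_triv h.tr.1 h.tr.2.1 h1 rfl
    obtain rfl : x = c.π u := congrArg Prod.fst e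
    rcases hg.2.2.2 u hu with l3 | l3
    · exact hx (Or.inl (Or.inr ⟨u, ⟨hu, l1.le, l3⟩, rfl⟩))
    · exact hx (Or.inr (Or.inr ⟨u, ⟨hu, l3, l2.le⟩, rfl⟩))
  have hrec : ∀ g g', S.Free D' g g' → S.Cross (c.π a) (c.π b) g g' →
      ∀ p, bandEnd (c.π a, c.π b) p → S.Free D' g p := by
    rintro g g' h1 h2 p (rfl | rfl)
    exacts [band_recomb h2.symm h1 hfd, band_recomb h2.swapL.symm h1 (band_free_symm hfd)]
  have inner : ∀ g', g' ∉ Ym → g' ∉ Yp → S.Chord w g' → ¬ S.Cross (c.π a) (c.π b) w g' →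
      (∀ p, bandEnd (c.π a, c.π b) p → S.Free D' g' p) → S.BOne L c A B s t (g', g') := by
    intro g' n1 n2 hwg hnx hfr
    have ends : ∀ f ∈ c.gs, S.Cross f.1 f.2 w g' → ∀ p, bandEnd (c.π a, c.π b) p →
        S.Cross f.1 f.2 p g' ∨ p = f.1 ∨ p = f.2 := fun f hf hx p hp =>
      band_cross_other hx (hwd p hp).1.symm fun h1 => (hwd p hp).2 f hf h1.swapR
    have some : ∀ f ∈ c.gs, S.Cross f.1 f.2 w g' →
        ∃ p, bandEnd (c.π a, c.π b) p ∧ S.Cross f.1 f.2 p g' := by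
      intro f hf hx
      rcases ends f hf hx _ (Or.inl rfl) with h1 | h1
      · exact ⟨_, Or.inl rfl, h1⟩
      rcases ends f hf hx _ (Or.inr rfl) with h2 | h2
      · exact ⟨_, Or.inr rfl, h2⟩
      exfalso
      simp only at h1 h2
      rcases h1 with h1 | h1 <;> rcases h2 with h2 | h2
      · exact hdne (h1.trans h2.symm)
      · exact hnx (by rw [h1, h2]; exact hx)
      · exact hnx (by rw [h1, h2]; exact hx.swapL)
      · exact hdne (h1.trans h2.symm)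
    by_cases hf : S.Free c.gs w g'
    · refine (h.walk ⟨h.good_of_mem (h.cell.mem_P_of_free hw hwg hf) n1 n2,
        Or.inr (Or.inl hTA), fun p q hp hq => ?_⟩).2 (Or.inl hTA)
      obtain rfl : p = g' := hp.elim id id
      exact ⟨hwg.symm.trans (hwd q hq).1, fun f hf' => Ord3.not_cross_trans hO hwg (hwne f hf').1
        (hwne f hf').2 (hf f hf') ((hwd q hq).2 f hf'), fun f hf' => hfr q hq f (Or.inl hf'),
        w, hw, hwg, hf, (hwd q hq).2⟩
    · exfalso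
      simp only [Free, not_forall, not_not] at hf
      obtain ⟨d0, hd0, hx⟩ := hf
      obtain ⟨f, hf, k1, k2, k3, k4⟩ := h.cell.band_nearest hwi hd0 hx
      obtain ⟨p0, hp0, k5⟩ := some f hf k4
      have hfD : f ∉ D' := fun h1 => hfr p0 hp0 f h1 k5.swapR
      have hTJ : bandTJ c A B s t f := by
        rcases h.gap_cases hf with ⟨a', b', m1, m2, m3, rfl⟩ | h1 | h1
        · rcases hTgap a' b' m1 m2 m3 with h2 | h2
          · rw [h2] at k4
            exact absurd k4 hnx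
          · exact absurd h2 hfD
        · exact absurd (Or.inl h1) hfD
        · exact h1
      have hwf : ∀ p, bandEnd f p → S.Chord w p ∧ S.Free c.gs w p := by
        rintro p (rfl | rfl)
        exacts [⟨k1, k2⟩, ⟨k1.trans k4.1, k3⟩]
      refine h.not_one_TJ hTJ ((h.walk ⟨Or.inr (Or.inr hTJ), Or.inr (Or.inl hTA),
        fun p q hp hq => ?_⟩).2 (Or.inl hTA))
      refine ⟨(hwf p hp).1.symm.trans (hwd q hq).1, fun f' hf' => Ord3.not_cross_trans hO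
        (hwf p hp).1 (hwne f' hf').1 (hwne f' hf').2 ((hwf p hp).2 f' hf') ((hwd q hq).2 f' hf'),
        ?_, w, hw, (hwf p hp).1, (hwf p hp).2, (hwd q hq).2⟩
      have hq' : S.Free D q g' := fun e he => band_free_symm (hfr q hq) e (Or.inl he)
      have hff := h.free_gap hf
      rcases ends f hf k4 q hq with h1 | h1 | h1
      · rcases hp with rfl | rfl
        · exact band_free_symm (band_recomb h1.symm hq' hff)
        · exact band_free_symm (band_recomb h1.swapL.symm hq' (band_free_symm hff))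
      · rw [h1]
        rcases hp with rfl | rfl
        exacts [band_free_self _ _, band_free_symm hff]
      · rw [h1]
        rcases hp with rfl | rfl
        exacts [hff, band_free_self _ _]
  have outer : ∀ g, ¬ bandTA c s t (g, g) → S.Cross (c.π a) (c.π b) w g →
      (∀ p, bandEnd (c.π a, c.π b) p → S.Free D' g p) → ¬ S.BOne L c A B s t (g, g) := by
    intro g hg' hx hfr h1
    obtain ⟨-, β, -, hβ⟩ := h1.resolve_left hg'
    have hN : g ∈ c.In \ (A ∪ B) := hβ.mem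
    obtain ⟨f, hf, -, k1, k2, k3, k4⟩ := nearest hL hc.tame hc.nc hc.img_compact.isClosed
      (fun d hd => hc.gs_mem hd) (h.cell.band_disj hN.1) hd hdne (hx.swapR.chord13 hO).symm
    have fin : ∀ p, bandEnd (c.π a, c.π b) p → S.Cross f.1 f.2 g p → False := by
      intro p hp k5
      refine h.near_TJ hN hf k1 k2 k3 k5 (fun e he => hfr p hp e (Or.inl he)) ?_ h1
      rintro ⟨a', b', m1, m2, m3, rfl⟩
      rcases hTgap a' b' m1 m2 m3 with h2 | h2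
      · rw [h2] at k5
        rcases hp with rfl | rfl
        exacts [k5.ne14 rfl, k5.ne24 rfl]
      · exact hfr p hp _ h2 k5
    rcases k4 with rfl | k4 | k4
    · exact h.cell.not_cross_adj hN.1 hw hf k2 k3 w2' w3' hx.swapR
    · exact fin _ (Or.inl rfl) k4
    · exact fin _ (Or.inr rfl) k4
  refine w1 hL (YL := Ym ∪ c.π '' (c.K ∩ Icc s a)) (YR := Yp ∪ c.π '' (c.K ∩ Icc b t))
    ((h.cell.bandY_closed h.hA _ _).union (hc.band_compact _ _).isClosed)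
    ((h.cell.bandY_closed h.hB _ _).union (hc.band_compact _ _).isClosed) ?_
    (h.cell.band_tame.mono hD'sub) (fun d hd e he => h.cell.band_nc d (hD'sub hd) e (hD'sub he))
    ?_ hdch (Or.inr ⟨a, ⟨hg.1, la, le_rfl⟩, rfl⟩) (Or.inr ⟨b, ⟨hg.2.1, le_rfl, lb⟩, rfl⟩)
    (fun x => if S.BOne L c A B s t (x, x) then 1 else 0) (fun x hx => ?_)
    fun g g' hch hgY hgY' hfr => ⟨fun hx => ?_, fun hx => ?_⟩
  · rw [disjoint_left]
    rintro x (h1 | ⟨u, ⟨hu, l1, l2⟩, rfl⟩) (h2 | ⟨v, ⟨hv, l3, l4⟩, e⟩)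
    · exact disjoint_left.1 h.disjY h1 h2
    · rcases l4.lt_or_eq with l5 | l5
      · exact (hc.window_notY h.tr hv (by linarith) l5).1 (e ▸ h1)
      · exact bandY_not_mem h.hAB h1 (by rw [← e, l5]; exact h.tB)
    · rcases l1.lt_or_eq with l5 | l5
      · exact (hc.window_notY h.tr hu l5 (by linarith)).2 h2
      · exact bandY_not_mem h.hAB.symm h2 (by rw [← l5]; exact h.sA)
    · exact hc.band_ne hu hv (by linarith) (by linarith) e.symm
  · rintro d (h1 | ⟨a', b', h1, rfl, h2 | h2⟩)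
    · exact h1.2.imp (fun k => ⟨Or.inl k.1, Or.inl k.2⟩) fun k => ⟨Or.inl k.1, Or.inl k.2⟩
    · have := h1.2.2.1
      exact Or.inl ⟨Or.inr ⟨a', ⟨h1.1, h2.1, by linarith [h2.2]⟩, rfl⟩,
        Or.inr ⟨b', ⟨h1.2.1, by linarith [h2.1], h2.2⟩, rfl⟩⟩
    · have := h1.2.2.1
      exact Or.inr ⟨Or.inr ⟨a', ⟨h1.1, h2.1, by linarith [h2.2]⟩, rfl⟩,
        Or.inr ⟨b', ⟨h1.2.1, by linarith [h2.1], h2.2⟩, rfl⟩⟩
  · filter_upwards [h.loc (fun h1 => hx (Or.inl (Or.inl h1))) (fun h1 => hx (Or.inr (Or.inl h1)))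
      (hnTA x hx)] with x' hx'
    simp only [hx']
  · have hwg : S.Chord w g := w1'.trans (hx.chord13 hO)
    have r1 := hrec g g' hfr hx
    have r2 := hrec g' g (band_free_symm hfr) hx.swapR
    rcases hx.tri hO hwg (hwne _ hd).1 (hwne _ hd).2 with h1 | h1
    · have k1 := outer g (hnTA g hgY) h1 r1
      have k2 := inner g' (fun h2 => hgY' (Or.inl (Or.inl h2)))
        (fun h2 => hgY' (Or.inr (Or.inl h2))) (hwg.trans hch) (fun h2 => h1.not_cross_far h2 hx) r2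
      simp [k1, k2]
    · have k1 := outer g' (hnTA g' hgY') h1 r2
      have k2 := inner g (fun h2 => hgY (Or.inl (Or.inl h2)))
        (fun h2 => hgY (Or.inr (Or.inl h2))) hwg (fun h2 => h2.not_cross_far h1 hx) r1
      simp [k1, k2]
  · have hT : ∀ a' b', Gap c.K a' b' → s ≤ a' → b' ≤ t → ¬ S.Cross (c.π a') (c.π b') g g' := by
      intro a' b' m1 m2 m3 k
      rcases hTgap a' b' m1 m2 m3 with h2 | h2
      · rw [Prod.mk.injEq] at h2
        rw [h2.1, h2.2] at k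
        exact hx k
      · exact hfr _ h2 k
    have hfD : S.Free D g g' := fun e he => hfr e (Or.inl he)
    have : S.BOne L c A B s t (g, g) ↔ S.BOne L c A B s t (g', g') :=
      ⟨fun k => h.star (hnTA g hgY) k hch (fun h2 => hgY' (Or.inl (Or.inl h2)))
        (fun h2 => hgY' (Or.inr (Or.inl h2))) hfD hT,
      fun k => h.star (hnTA g' hgY') k hch.symm (fun h2 => hgY (Or.inl (Or.inl h2)))
        (fun h2 => hgY (Or.inr (Or.inl h2))) (band_free_symm hfD)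
        fun a' b' m1 m2 m3 k' => hT a' b' m1 m2 m3 k'.swapR⟩
    simp only [this]

theorem honest_false (hno : ¬ ∃ a b, Gap c.K a b ∧ s ≤ a ∧ b ≤ t) {u : ℝ} (hu : u ∈ c.K)
    (l1 : s < u) (l2 : u < t) (hcl : c.π u ∈ closure c.In) : False := by
  classical
  have hL := h.cell.lam
  have hc := h.cell.scc
  have htl := hc.tr_lt h.hAB h.tr
  have hst := h.tr.2.2.1
  have hhon := hc.icc_sub h.tr.1 h.tr.2.1 hno
  set Ym := bandY c A B t (s + c.per) with hYm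
  set Yp := bandY c B A t (s + c.per) with hYp
  have harc0 := hc.arc h.tr.1 h.tr.2.1 hst.le htl
  have harc : IsArc ∅ (c.K ∩ Icc s t) c.π s t :=
    ⟨harc0.toIsPath.mono' fun a b hg _ _ => (hno ⟨a, b, gap_inter_Icc.1 hg⟩).elim, harc0.inj⟩
  obtain ⟨o, ho, hoIn⟩ := mem_closure_iff_nhds.1 hcl _
    (h.cell.band_door h.hA h.hB hu l1 l2 (h.tr.2.2.2.2 u hu l1 l2))
  obtain ⟨hoN, v, hv, m1, m2, hJ, hT⟩ := (ho (Or.inl hoIn)).resolve_left
    fun ⟨v, hv, _, _, e⟩ => h.cell.band_disj hoIn ⟨v, hv, e⟩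
  obtain ⟨v', hv', R0, hR0, hR0', hJ0⟩ := h.cell.acc_out hst
    (Ioo_subset_Icc_self.trans hhon) htl.le
  have kv' : v' ∈ c.K := hhon (Ioo_subset_Icc_self hv')
  have hwin : ∀ z ∈ c.K, s < z → z < t → c.π z ∈ (Ym ∪ Yp)ᶜ := fun z hz n1 n2 k =>
    k.elim (hc.window_notY h.tr hz n1 n2).1 (hc.window_notY h.tr hz n1 n2).2
  have hseg : ∀ z ∈ c.K, ∀ z' ∈ c.K, s < z → z ≤ z' → z' < t →
      Joined (∅ : Set (X × X)) (Ym ∪ Yp)ᶜ (c.π z) (c.π z') := by
    intro z hz z' hz' n1 n2 n3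
    refine (harc.toIsPath.joined ⟨hz, n1.le, by linarith⟩ ⟨hz', by linarith, n3.le⟩ n2).mono ?_
      fun p hp _ _ _ => hp
    rintro _ ⟨x, ⟨⟨hx, -⟩, n4, n5⟩, rfl⟩
    exact hwin x hx (by linarith) (by linarith)
  have J1 : Joined (bandM L c ∪ R0) (Ym ∪ Yp)ᶜ y (c.π v') := by
    refine hJ0.mono ?_ fun p hp _ _ _ => Or.inr hp
    rintro x (rfl | hx)
    · exact hwin v' kv' hv'.1 hv'.2
    · exact fun k => hx (k.elim (fun k => bandY_sub k) fun k => bandY_sub k)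
  have J2 : Joined (bandM L c ∪ R0) (Ym ∪ Yp)ᶜ (c.π v') (c.π v) := by
    refine Joined.mono (R := ∅) ?_ Subset.rfl fun p hp _ _ _ => hp.elim
    rcases le_total v' v with n | n
    · exact hseg v' kv' v hv hv'.1 n m2
    · exact (hseg v hv v' kv' m1 n hv'.2).symm fun p hp => hp.elim
  have J3 : Joined (bandM L c ∪ R0) (Ym ∪ Yp)ᶜ (c.π v) o := by
    refine (hJ.symm (h.cell.band_reg h.hA h.hB).Msymm).mono ?_ fun p hp _ _ _ => Or.inl hp
    rintro x (rfl | hx)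
    · exact hwin v hv m1 m2
    · exact fun k => k.elim (h.notY_N hx).1 (h.notY_N hx).2
  have hnTA : ∀ x, x ∉ Ym ∪ Yp ∪ c.π '' (c.K ∩ Icc s t) → ¬ bandTA c s t (x, x) := by
    intro x hx h1
    obtain ⟨z, hz, n1, n2, e⟩ := h.ta_triv h.tr.1 h.tr.2.1 h1 rfl
    exact hx (Or.inr ⟨z, ⟨hz, n1.le, n2.le⟩, (congrArg Prod.fst e).symm⟩)
  have hDsub : bandD L c A B t (s + c.per) ⊆ c.gs ∪ bandM L c := fun d hd => hd.1
  have hτ : c.π '' (c.K ∩ Icc s t) ⊆ c.img := image_mono inter_subset_left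
  have := w2 hL (h.cell.bandY_closed h.hA _ _) (h.cell.bandY_closed h.hB _ _) h.disjY harc
    (Or.inl ⟨h.sA, Or.inr ⟨s, h.tr.1, rfl⟩⟩) (Or.inl ⟨h.tB, Or.inr ⟨t, h.tr.2.1, rfl⟩⟩)
    (fun z hz k => by
      by_contra h1
      push Not at h1
      exact hwin z hz.1 (lt_of_le_of_ne hz.2.1 h1.1.symm) (lt_of_le_of_ne hz.2.2 h1.2) k)
    (h.cell.band_tame.mono hDsub) (fun d hd e he => h.cell.band_nc d (hDsub hd) e (hDsub he))
    (fun d hd => hd.2) (fun x => if S.BOne L c A B s t (x, x) then 1 else 0)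
    (fun x hx => by
      filter_upwards [h.loc (fun h1 => hx (Or.inl (Or.inl h1)))
        (fun h1 => hx (Or.inl (Or.inr h1))) (hnTA x hx)] with x' hx'
      simp only [hx'])
    (fun g g' hch hgY hgY' hfD => by
      have : S.BOne L c A B s t (g, g) ↔ S.BOne L c A B s t (g', g') :=
        ⟨fun k => h.star (hnTA g hgY) k hch (fun h2 => hgY' (Or.inl (Or.inl h2)))
          (fun h2 => hgY' (Or.inl (Or.inr h2))) hfD fun a b n1 n2 n3 _ => hno ⟨a, b, n1, n2, n3⟩,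
        fun k => h.star (hnTA g' hgY') k hch.symm (fun h2 => hgY (Or.inl (Or.inl h2)))
          (fun h2 => hgY (Or.inl (Or.inr h2))) (band_free_symm hfD)
          fun a b n1 n2 n3 _ => hno ⟨a, b, n1, n2, n3⟩⟩
      simp only [this])
    ((hL.tame fun e he => he.1).union hR0)
    (fun d hd f hf hx => by
      rcases hf with hf | hf
      · exact h.cell.band_nc f (Or.inr hf) d hd.1 hx
      obtain ⟨k1, k2⟩ := hR0' f hf
      rcases hd.1 with h1 | h1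
      · exact k1 d h1 hx.symm
      have k3 := h.cell.band_free h1.1 h1.2
      have key : ∀ p p' q q', S.Cross p p' q q' → p ∈ c.In → S.Free c.gs p p' →
          S.Free c.gs q q' → q ∈ c.P ∧ q' ∈ c.P := fun p p' q q' k hp f1 f2 =>
        ⟨h.cell.mem_P_of_free hp (k.chord13 S.good) (band_recomb k f1 f2),
          h.cell.mem_P_of_free hp (k.swapR.chord13 S.good)
            (band_recomb k.swapR f1 (band_free_symm f2))⟩
      have k4 : f.1 ∈ c.P ∧ f.2 ∈ c.P := h1.2.elim (fun k => key _ _ _ _ hx.symm k k3 k1)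
        fun k => key _ _ _ _ hx.symm.swapL k (band_free_symm k3) k1
      exact k2.elim (fun k => k k4.1) fun k => k k4.2)
    (fun k => h.cell.out (hτ k)) (fun k => h.cell.band_disj hoIn (hτ k)) ((J1.trans J2).trans J3)
  have k1 : ¬ S.BOne L c A B s t (y, y) := fun k => h.cell.out_P (h.one_P k)
  have k2 : S.BOne L c A B s t (o, o) := Or.inr ⟨rfl, _, bandTA_pt hv m1 m2, hT⟩
  simp [k1, k2] at this

end BandCtx

theorem band_cut' (h : S.Cell L y c) (hne : c.In.Nonempty) (hA : IsClosed A)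
    (hB : IsClosed B) (hAB : Disjoint A B) (hT : c.Tr A B s t) (sA : c.π s ∈ A) (tB : c.π t ∈ B)
    (hcase : (∃ a b, Gap c.K a b ∧ s ≤ a ∧ b ≤ t) ∨
      ∃ u ∈ c.K, s < u ∧ u < t ∧ c.π u ∈ closure c.In) :
    ∃ L' s1 s2 c1 c2, Keeps A B L L' ∧ S.Cell L' y c1 ∧ S.Cell L' y c2 ∧ c.Cut s1 s2 c1 c2 ∧
      (c1.trs A B).ncard < (c.trs A B).ncard ∧ (c2.trs A B).ncard < (c.trs A B).ncard := by
  have hL := h.lam
  have hc := h.scc
  obtain ⟨sp1, sp2⟩ := hc.band_add hT.1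
  set Ym := bandY c A B t (s + c.per) with hYm
  set Yp := bandY c B A t (s + c.per) with hYp
  have hdis : Disjoint Ym Yp := hc.bandY_disj hA hB hAB sp1 (by rw [sp2]; exact hT.left)
    (by linarith [hT.2.2.1])
  obtain ⟨r, hr, hsep⟩ := band_sep (h.bandY_closed hA _ _) (h.bandY_closed hB _ _) hdis
  set E : Set (X × X) := {e | (e.1 ∈ Ym ∧ e.2 ∈ Yp) ∨ (e.1 ∈ Yp ∧ e.2 ∈ Ym)} with hE
  have hEf : (L \ (L \ E)).Finite := by
    refine ((hL.tame Subset.rfl).long_finite hL hr).subset fun e he => ⟨he.1, ?_⟩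
    have h3 : e ∈ E := by
      by_contra h4
      exact he.2 ⟨he.1, h4⟩
    rcases h3 with h3 | h3
    · exact hsep _ h3.1 _ h3.2
    · rw [dist_comm]
      exact hsep _ h3.2 _ h3.1
  have hL' : S.Lam (L \ E) := hL.sub sdiff_subset
    (fun e he => ⟨hL.symm e he.1, fun h3 => he.2 (h3.symm.imp And.symm And.symm)⟩) hEf
  have h' : S.Cell (L \ E) y c := h.of_sub hL' sdiff_subset hEf
  have hkeep : Keeps A B L (L \ E) := by
    refine fun e he hab => ⟨he, fun h3 => ?_⟩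
    rcases hab with h4 | h4 <;> rcases h3 with h3 | h3
    · exact bandY_not_mem hAB.symm h3.2 h4.2
    · exact bandY_not_mem hAB.symm h3.1 h4.1
    · exact bandY_not_mem hAB h3.1 h4.1
    · exact bandY_not_mem hAB h3.2 h4.2
  by_contra hcon
  have ctx : S.BandCtx (L \ E) y c A B s t := by
    refine ⟨h', hne, hA, hB, hAB, hT, sA, tB, fun e he h3 => he.2 (Or.inl h3), ?_⟩
    rintro α β hα ⟨s', t', hT', l1, l2, hβ⟩ hconn
    apply hcon
    have hreg := h'.band_reg hA hB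
    have hanc : ∀ a ∈ c.K, ∀ b ∈ c.K, ∀ γ, bandTA c a b γ →
        Anchor (c.img ∪ ((A ∪ B) ∩ c.P)) c.gs γ := by
      intro a ha b hb γ hγ
      obtain ⟨u, hu, v, -, -, -, -, -, rfl, rfl | hg⟩ := hc.bandTA_spec ha hb hγ
      · exact Or.inl ⟨rfl, Or.inl ⟨u, hu, rfl⟩⟩
      · exact Or.inr ⟨⟨u, v, hg, rfl⟩, h.gap_ne hne (d := (c.π u, c.π v)) ⟨u, v, hg, rfl⟩⟩
    obtain ⟨a, ha, b, hb, m1, m2, m3, m4, eα, hab⟩ := hc.bandTA_spec hT.1 hT.2.1 hα
    obtain ⟨a', ha', b', hb', n1, n2, n3, n4, eβ, hab'⟩ := hc.bandTA_spec hT'.1 hT'.2.1 hβ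
    obtain ⟨KA, γ, G, k1, k2, k3, k4, k5, k6⟩ := hreg.norm (hanc _ hT.1 _ hT.2.1 _ hα)
      (hanc _ hT'.1 _ hT'.2.1 _ hβ)
      (fun e => by
        rw [eα] at e
        rw [eα, eβ]
        rcases hab with rfl | hg
        · exact ⟨hc.band_ne ha ha' (by linarith) (by linarith),
            hc.band_ne ha hb' (by linarith) (by linarith)⟩
        · exact absurd e (h.gap_ne hne (d := (c.π a, c.π b)) ⟨a, b, hg, rfl⟩))
      (fun e => by
        rw [eβ] at e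
        rw [eα, eβ]
        rcases hab' with rfl | hg
        · exact ⟨(hc.band_ne ha ha' (by linarith) (by linarith)).symm,
            (hc.band_ne hb ha' (by linarith) (by linarith)).symm⟩
        · exact absurd e (h.gap_ne hne (d := (c.π a', c.π b')) ⟨a', b', hg, rfl⟩)) hconn
    obtain ⟨u, u1, u2, rfl⟩ := hα
    obtain ⟨u', u1', u2', rfl⟩ := hβ
    obtain ⟨c1, c2, h1, h2, hcut, -, hK, -⟩ := h'.cut (s1 := u) (s2 := u') (KA := KA) (α := γ)
      (G := G) ⟨⟨t, hT.2.1, u2, by linarith⟩, ⟨_, sp1, by linarith, by linarith⟩, k1,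
        fun v hv => (k2 hv).1, k3, (k6 _ _ (Or.inr rfl) (Or.inl rfl)).1,
        (k6 _ _ (Or.inl rfl) (Or.inr rfl)).1, (k6 _ _ (Or.inr rfl) (Or.inl rfl)).2,
        (k6 _ _ (Or.inl rfl) (Or.inr rfl)).2, k4, fun f hf => (k5 f hf).2.1,
        fun f hf => (k5 f hf).2.2.2⟩
      fun e he h3 _ f hf hx => (k5 f hf).2.2.1 e ⟨he, Or.inl h3⟩ hx.symm
    have harc : ∀ v ∈ Ioo (0 : ℝ) 1, u' + v ∈ c1.K → c1.π (u' + v) ∉ A ∪ B := fun v hv h3 => by
      have h4 := (hK v hv).1.1 h3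
      rw [(hK v hv).2 h4]
      exact (k2 h4).2
    refine ⟨L \ E, u, u', c1, c2, hkeep, h1, h2, hcut,
      trs_lt hL hc hA hB hAB h1.scc hT hT' u1 u2 l1 u1' u2' l2 hcut.per1 hcut.K1 hcut.π1
        fun v hv p1 p2 => ?_, ?_⟩
    · have := harc (v - u') ⟨by linarith, by linarith⟩ (by rwa [add_sub_cancel])
      rwa [add_sub_cancel] at this
    · have hT2 := (hc.tr_shift hT 1).1
      simp only [Int.cast_one, one_mul] at hT2
      refine trs_lt hL hc hA hB hAB h2.scc hT' hT2 u1' u2' l2 (s2 := u + c.per) (by linarith)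
        (by linarith) (by linarith) hcut.per2 hcut.K2 hcut.π2 fun v hv p1 p2 => ?_
      obtain ⟨z, hz, h3, h4⟩ := cut_arc2 hcut h2.scc hv p1 p2
      rw [← h4]
      exact harc z hz h3
  by_cases hno : ∃ a b, Gap c.K a b ∧ s ≤ a ∧ b ≤ t
  · obtain ⟨a, b, hg, l1, l2⟩ := hno
    exact ctx.gap_false hg l1 l2
  · obtain ⟨u, hu, l1, l2, hcl⟩ := hcase.resolve_left hno
    exact ctx.honest_false hno hu l1 l2 hcl

end Str

end Pool.Agent.Lib.MP_9e71a3_gt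
end

-- part Pool.Agent.Lib.MP_9e71a3_gt.Band
section

/-! Band cuts and termination.  JOB Band.  The definitions `BC.Tr`, `BC.trs`, `CellC`, `Keeps`
and the theorems `trs_finite`, `exists_tr` are in part A, `Cell.trim` is in part B. -/

set_option autoImplicit false
set_option linter.unusedSectionVars false

namespace Pool.Agent.Lib.MP_9e71a3_gt

open Set Metric Filter Topology

namespace Str
variable {X : Type} [MetricSpace X] [CompactSpace X] [ConnectedSpace X] [Nontrivial X]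
  {S : Str X} {L : Set (X × X)} {c : BC X} {y : X} {A B : Set X}

/-- a cut inside the band between two different transitions, when the transition from `s` to `t` has a
gap or is approached by interior points -/
theorem Cell.band_cut (h : S.Cell L y c) (hne : c.In.Nonempty) (hA : IsClosed A)
    (hB : IsClosed B) (hAB : Disjoint A B) {s t : ℝ} (hT : c.Tr A B s t)
    (hcase : (∃ a b, Gap c.K a b ∧ s ≤ a ∧ b ≤ t) ∨
      ∃ u ∈ c.K, s < u ∧ u < t ∧ c.π u ∈ closure c.In) :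
    ∃ L' s1 s2 c1 c2, Keeps A B L L' ∧ S.Cell L' y c1 ∧ S.Cell L' y c2 ∧ c.Cut s1 s2 c1 c2 ∧
      (c1.trs A B).ncard < (c.trs A B).ncard ∧ (c2.trs A B).ncard < (c.trs A B).ncard := by
  rcases hT.2.2.2.1 with h1 | h1
  · exact band_cut' h hne hA hB hAB hT h1.1 h1.2 hcase
  · obtain ⟨L', s1, s2, c1, c2, k1, k2, k3, k4, k5, k6⟩ :=
      band_cut' h hne hB hA hAB.symm hT.comm h1.1 h1.2 hcase
    rw [c.trs_comm, c1.trs_comm] at k5
    rw [c.trs_comm, c2.trs_comm] at k6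
    exact ⟨L', s1, s2, c1, c2, fun e he hab => k1 e he hab.symm, k2, k3, k4, k5, k6⟩

/-- a set that avoids the boundary and is joined by chords of the lamination lies on one side -/
theorem Cell.band_side (h : S.Cell L y c) {R : Set (X × X)} (hR : R ⊆ L) {U : Set X}
    (hU : Disjoint U c.img) {x z : X} (hJ : Joined R U x z) : x ∈ c.In ↔ z ∈ c.In := by
  have key : ∀ p ∈ L, p.2 ∈ U → p.1 ∈ c.In → p.2 ∈ c.In := fun p hp h2 h1 =>
    (h.band_memP hp (Or.inl h1)).2.resolve_right (disjoint_left.1 hU h2)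
  refine Iff.of_eq (hJ.eq_of_loc (fun x => x ∈ c.In) (fun w hw => ?_) fun p hp h1 h2 =>
    propext ⟨key p (hR hp) h2, key p.swap (h.lam.symm p (hR hp)) h1⟩)
  refine eventually_nhdsWithin_of_eventually_nhds ?_
  by_cases h1 : w ∈ c.In
  · filter_upwards [h.isOpen_In.mem_nhds h1] with w' hw'
    exact propext (iff_of_true hw' h1)
  · have h2 : w ∉ c.P := fun h2 => h2.elim h1 (disjoint_left.1 hU hw)
    filter_upwards [h.wf.closedP.isOpen_compl.mem_nhds h2] with w' hw'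
    exact propext (iff_of_false (fun h3 => hw' (Or.inl h3)) h1)

theorem red_band_zero {Q : BC X → Prop} {J : BC X → Prop} {Lp : Set (X × X)} (hA : IsClosed A)
    (hB : IsClosed B) (hAB : Disjoint A B)
    (hLp : ∀ e ∈ Lp, (e.1 ∈ A ∧ e.2 ∈ A) ∨ (e.1 ∈ B ∧ e.2 ∈ B))
    (hJ : ∀ c c' : BC X, J c → c'.In ⊆ c.In → J c') (hQ0 : ∀ c : BC X, c.In = ∅ → Q c)
    (hQ : ∀ L c, S.Cell L y c → Lp ⊆ L → J c → ¬ Q c →
      (c.img ∩ A).Nonempty ∧ (c.img ∩ B).Nonempty) (m : ℕ) :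
    ∀ L c, S.Cell L y c → Lp ⊆ L → J c → (c.trs A B).ncard ≤ m → Red S.CellC Q c := by
  have keep : ∀ L L', Lp ⊆ L → Keeps A B L L' → Lp ⊆ L' := fun L L' h1 h2 e he =>
    h2 e (h1 he) (hLp e he)
  induction m using Nat.strong_induction_on with
  | _ m ih =>
  have step : ∀ L c, S.Cell L y c → Lp ⊆ L → J c → (c.trs A B).ncard ≤ m → ∀ s t,
      c.Tr A B s t → ((∃ a b, Gap c.K a b ∧ s ≤ a ∧ b ≤ t) ∨
        ∃ u ∈ c.K, s < u ∧ u < t ∧ c.π u ∈ closure c.In) → Red S.CellC Q c := by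
    intro L c h hL hj hm s t hT hcase
    rcases c.In.eq_empty_or_nonempty with h0 | hne
    · exact Red.base c ⟨y, L, h⟩ (hQ0 c h0)
    obtain ⟨L', s1, s2, c1, c2, k1, k2, k3, k4, k5, k6⟩ := h.band_cut hne hA hB hAB hT hcase
    exact Red.cut c s1 s2 c1 c2 ⟨y, L, h⟩ k4
      (ih _ (lt_of_lt_of_le k5 hm) L' c1 k2 (keep L L' hL k1) (hJ c c1 hj k4.In1) le_rfl)
      (ih _ (lt_of_lt_of_le k6 hm) L' c2 k3 (keep L L' hL k1) (hJ c c2 hj k4.In2) le_rfl)
  intro L c h hL hj hm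
  by_cases hq : Q c
  · exact Red.base c ⟨y, L, h⟩ hq
  obtain ⟨ha, hb⟩ := hQ L c h hL hj hq
  obtain ⟨s, t, hT⟩ := h.scc.exists_tr hA hB hAB ha hb
  by_cases hcase : (∃ a b, Gap c.K a b ∧ s ≤ a ∧ b ≤ t) ∨
      ∃ u ∈ c.K, s < u ∧ u < t ∧ c.π u ∈ closure c.In
  · exact step L c h hL hj hm s t hT hcase
  rw [not_or] at hcase
  have hhon := h.scc.icc_sub hT.1 hT.2.1 hcase.1
  obtain ⟨L', s1, s2, c1, c2, k1, k2, k3, k4, k5, k6, s', t', a, b, k7, k8⟩ :=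
    h.trim (nonempty_iff_ne_empty.2 fun h0 => hq (hQ0 c h0)) hA hB hAB hT hhon
      fun u l1 l2 hu => hcase.2 ⟨u, hhon ⟨l1.le, l2.le⟩, l1, l2, hu⟩
  exact Red.cut c s1 s2 c1 c2 ⟨y, L, h⟩ k4 (Red.base c1 ⟨y, L', k2⟩ (hQ0 c1 k5))
    (step L' c2 k3 (keep L L' hL k1) (hJ c c2 hj k4.In2)
      ((ncard_le_ncard k6 (h.scc.trs_finite h.lam hA hB hAB)).trans hm) s' t' k7
      (Or.inl ⟨a, b, k8⟩))

theorem Cell.red_band (h : S.Cell L y c) {A0 B0 : Set X} (hA : IsClosed A0) (hB : IsClosed B0)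
    (hAB : Disjoint A0 B0) :
    Red S.CellC (fun c' => c'.In = ∅ ∨ Disjoint c'.P A0 ∨ Disjoint c'.P B0) c := by
  obtain ⟨r, hr, hd⟩ := hAB.exists_cthickenings hA.isCompact hB
  set A := cthickening r A0 with hAdef
  set B := cthickening r B0 with hBdef
  have hball : ∀ {T : Set X} {x : X}, x ∈ T → ball x r ⊆ cthickening r T := fun hx =>
    ball_subset_closedBall.trans (closedBall_subset_cthickening hx r)
  set Lp : Set (X × X) := {e ∈ L | (e.1 ∈ A ∧ e.2 ∈ A) ∨ (e.1 ∈ B ∧ e.2 ∈ B)} with hLp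
  obtain ⟨δ, hδ, hlc⟩ := joined_of_lc L h.lam.lc r hr
  obtain ⟨I, hI, hIf, hcov⟩ := finite_cover_balls_of_compact (hA.union hB).isCompact hδ
  set C : X → Set X := fun x => {z | Joined Lp (ball x r) x z} with hC
  have hUC : ∀ x ∈ I, ball x δ ⊆ C x := fun x hx z hz => by
    refine (hlc x z (by rw [dist_comm]; exact hz)).mono Subset.rfl fun p hp h1 h2 _ => ⟨hp, ?_⟩
    rcases hI hx with h3 | h3
    · exact Or.inl ⟨hball h3 h1, hball h3 h2⟩
    · exact Or.inr ⟨hball h3 h1, hball h3 h2⟩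
  have meet : ∀ L' c', S.Cell L' y c' → Lp ⊆ L' → (∀ x ∈ I, ¬ C x ⊆ c'.In) →
      ∀ z ∈ c'.P, z ∈ A0 ∪ B0 → z ∈ c'.img ∨
        ∃ x ∈ A0 ∪ B0, z ∈ ball x r ∧ (c'.img ∩ ball x r).Nonempty := by
    rintro L' c' h' hL' hj z (hz | hz) hz0
    swap
    · exact Or.inl hz
    obtain ⟨x, hx, hzx⟩ := mem_iUnion₂.1 (hcov hz0)
    have h1 := hUC x hx hzx
    refine Or.inr ⟨x, hI hx, h1.mem.2, ?_⟩
    by_contra h2
    rw [not_nonempty_iff_eq_empty, ← disjoint_iff_inter_eq_empty] at h2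
    exact hj x hx fun w hw =>
      (h'.band_side hL' h2.symm hw).1 ((h'.band_side hL' h2.symm h1).2 hz)
  have zero := red_band_zero (S := S) (y := y)
    (Q := fun c' => c'.In = ∅ ∨ Disjoint c'.P A0 ∨ Disjoint c'.P B0)
    (J := fun c' => ∀ x ∈ I, ¬ C x ⊆ c'.In) (Lp := Lp) isClosed_cthickening isClosed_cthickening hd
    (fun e he => he.2) (fun c c' h1 h2 x hx h3 => h1 x hx (h3.trans h2)) (fun c h0 => Or.inl h0)
    fun L' c' h' hL' hj hq => by
      simp only [not_or, not_disjoint_iff] at hq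
      obtain ⟨-, ⟨z, hz, hzA⟩, ⟨z', hz', hzB⟩⟩ := hq
      constructor
      · rcases meet L' c' h' hL' hj z hz (Or.inl hzA) with h1 | ⟨x, hx | hx, h1, w, h2, h3⟩
        · exact ⟨z, h1, self_subset_cthickening _ hzA⟩
        · exact ⟨w, h2, hball hx h3⟩
        · exact absurd (hball hx h1) (disjoint_left.1 hd (self_subset_cthickening _ hzA))
      · rcases meet L' c' h' hL' hj z' hz' (Or.inr hzB) with h1 | ⟨x, hx | hx, h1, w, h2, h3⟩
        · exact ⟨z', h1, self_subset_cthickening _ hzB⟩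
        · exact absurd (self_subset_cthickening _ hzB) (disjoint_left.1 hd (hball hx h1))
        · exact ⟨w, h2, hball hx h3⟩
  suffices H : ∀ n L' c', S.Cell L' y c' → Lp ⊆ L' → {x ∈ I | C x ⊆ c'.In}.ncard ≤ n →
      Red S.CellC (fun c' => c'.In = ∅ ∨ Disjoint c'.P A0 ∨ Disjoint c'.P B0) c' from
    H _ L c h (fun e he => he.1) le_rfl
  intro n
  induction n using Nat.strong_induction_on with
  | _ n ih =>
  intro L' c' h' hL' hn
  by_cases hj : ∀ x ∈ I, ¬ C x ⊆ c'.In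
  · exact zero _ L' c' h' hL' hj le_rfl
  push Not at hj
  obtain ⟨x, hx, hxC⟩ := hj
  have hxIn : x ∈ c'.In := hxC (hUC x hx (mem_ball_self hδ))
  obtain ⟨u, hu⟩ := h'.scc.ne
  obtain ⟨_, ⟨v0, hv0, rfl⟩, h2, -⟩ := h'.three ⟨x, hxIn⟩ (c'.π u) (c'.π u)
  obtain ⟨v, hv, l1, l2, e, -⟩ := h'.scc.exists_param u hv0
  have l3 : u < v := lt_of_le_of_ne l1 fun e' => h2 (by rw [← e, e'])
  obtain ⟨c'', s1, s2, c1, c2, k0, k1, k2, kE, kC, -, -, z, hz, z1, z2⟩ :=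
    h'.plain_cut (U := ball x δ) isOpen_ball ⟨x, mem_ball_self hδ, hxIn⟩ l3 le_rfl l2 le_rfl
      ⟨v, hv, le_rfl, le_rfl⟩ ⟨_, (h'.scc.band_add hu).1, le_rfl, le_rfl⟩
  have hsub : c''.In ⊆ c'.In := by rw [kE.In]; exact sdiff_subset
  have drop : ∀ c3 : BC X, S.Cell L' y c3 → c3.In ⊆ c'.In → z ∈ c3.img →
      Red S.CellC (fun c' => c'.In = ∅ ∨ Disjoint c'.P A0 ∨ Disjoint c'.P B0) c3 := by
    intro c3 h3 hs hz3
    have hlt : {x ∈ I | C x ⊆ c3.In} ⊂ {x ∈ I | C x ⊆ c'.In} :=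
      ssubset_iff_subset_not_subset.2 ⟨fun w hw => ⟨hw.1, hw.2.trans hs⟩, fun h4 =>
        h3.band_disj ((h4 ⟨hx, hxC⟩).2 (hUC x hx hz)) hz3⟩
    exact ih _ (lt_of_lt_of_le (ncard_lt_ncard hlt (hIf.subset fun w hw => hw.1)) hn) L' c3 h3 hL'
      le_rfl
  exact Red.ext c' c'' ⟨y, L', h'⟩ kE (Red.cut c'' s1 s2 c1 c2 ⟨y, L', k0⟩ kC
    (drop c1 k1 (kC.In1.trans hsub) z1) (drop c2 k2 (kC.In2.trans hsub) z2))

theorem red_pairs {F : Set (Set X × Set X)} (hF : F.Finite)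
    (hcl : ∀ p ∈ F, IsClosed p.1 ∧ IsClosed p.2 ∧ Disjoint p.1 p.2) (hc : S.CellC c) :
    Red S.CellC (fun c' => c'.In = ∅ ∨ ∀ p ∈ F, Disjoint c'.P p.1 ∨ Disjoint c'.P p.2) c := by
  induction F, hF using Set.Finite.induction_on with
  | empty => exact Red.base c hc (Or.inr fun p hp => hp.elim)
  | @insert p F _ _ ih =>
    refine red_bind (ih fun q hq => hcl q (Or.inr hq)) fun c' hc' hq _ => ?_
    rcases hq with hq | hq
    · exact Red.base c' hc' (Or.inl hq)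
    obtain ⟨y', L', h'⟩ := hc'
    obtain ⟨k1, k2, k3⟩ := hcl p (Or.inl rfl)
    refine red_bind (h'.red_band k1 k2 k3) fun c'' hc'' hq' hs => Red.base c'' hc'' ?_
    rcases hq' with hq' | hq'
    · exact Or.inl hq'
    · right
      rintro q (rfl | hq'')
      · exact hq'
      · exact (hq q hq'').imp (Disjoint.mono_left hs) (Disjoint.mono_left hs)

theorem cellSys (S : Str X) : CellSys S.CellC := by
  refine ⟨fun c ⟨_, _, h⟩ => h.wf, fun c hc ε hε => ?_, ?_⟩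
  · obtain ⟨I, -, hIf, hcov⟩ := finite_cover_balls_of_compact (isCompact_univ (X := X))
      (e := ε / 5) (by positivity)
    set F : Set (Set X × Set X) := (fun p : X × X => (closedBall p.1 (ε / 5), closedBall p.2 (ε / 5)))
      '' {p ∈ I ×ˢ I | ε / 5 + ε / 5 < dist p.1 p.2} with hF
    refine red_bind (red_pairs (F := F) (((hIf.prod hIf).subset fun p hp => hp.1).image _) ?_ hc)
      fun c' hc' hq _ => Red.base c' hc' (hq.imp id fun hq x hx z hz => ?_)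
    · rintro _ ⟨p, hp, rfl⟩
      exact ⟨isClosed_closedBall, isClosed_closedBall, closedBall_disjoint_closedBall hp.2⟩
    · obtain ⟨a, ha, hxa⟩ := mem_iUnion₂.1 (hcov (mem_univ x))
      obtain ⟨b, hb, hzb⟩ := mem_iUnion₂.1 (hcov (mem_univ z))
      by_contra h1
      have h2 := dist_triangle4 x a b z
      rw [mem_ball] at hxa hzb
      rw [dist_comm b z] at h2
      rcases hq _ ⟨(a, b), ⟨⟨ha, hb⟩, by simp only; linarith⟩, rfl⟩ with h3 | h3
      · exact disjoint_left.1 h3 hx (mem_closedBall.2 hxa.le)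
      · exact disjoint_left.1 h3 hz (mem_closedBall.2 hzb.le)
  · rintro c ⟨y, L, h⟩ hne a1 b1 a2 b2 l1 l2 l3 l4 p1 p2
    obtain ⟨c', s1, s2, c1, c2, k0, k1, k2, kE, kC, m1, m2, -⟩ :=
      h.plain_cut isOpen_univ (by rwa [univ_inter]) l1 l2 l3 l4 p1 p2
    exact ⟨c', s1, s2, c1, c2, ⟨y, L, k0⟩, ⟨y, L, k1⟩, ⟨y, L, k2⟩, kE, kC, m1, m2⟩

end Str

end Pool.Agent.Lib.MP_9e71a3_gt
end
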