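import Mathlib

-- part Pool.Agent.Lib.MP_9e71a3_gt.Basic
section

/-!
Basic definitions: mod 2 chains of links, and the abstract interface `Str` between the
geometric half and the combinatorial half of the proof.
-/

set_option autoImplicit false

namespace Pool.Agent.Lib.MP_9e71a3_gt

open Set Metric Filter Topology

abbrev Z2 := ZMod 2

/-- formal mod 2 chains of ordered links -/
abbrev Ch (A : Type) := (A × A) →₀ Z2

noncomputable def lnk {A : Type} (x y : A) : Ch A := Finsupp.single (x, y) 1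

/-- boundary of a chain -/
noncomputable def bd {A : Type} : Ch A →+ (A →₀ Z2) :=
  Finsupp.mapDomain.addMonoidHom Prod.fst + Finsupp.mapDomain.addMonoidHom Prod.snd

/-- the zero-chain `[a] + [b]` -/
noncomputable def two {A : Type} (a b : A) : A →₀ Z2 := Finsupp.single a 1 + Finsupp.single b 1

theorem bd_single {A : Type} (l : A × A) (c : Z2) :
    bd (Finsupp.single l c) = Finsupp.single l.1 c + Finsupp.single l.2 c := by
  simp [bd, Finsupp.mapDomain.addMonoidHom, Finsupp.mapDomain_single]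

theorem bd_lnk {A : Type} (x y : A) : bd (lnk x y) = two x y := by
  simp [lnk, two, bd_single]

theorem z2_add_self (a : Z2) : a + a = 0 := by
  revert a; decide

theorem z2_cases (a : Z2) : a = 0 ∨ a = 1 := by
  revert a; decide

theorem fs_add_self {A : Type} (c : A →₀ Z2) : c + c = 0 := by
  ext a; simp [z2_add_self]

/-- all links have both ends in `Y` and length `< η` -/
def Fine {A : Type} [PseudoMetricSpace A] (η : ℝ) (Y : Set A) (κ : Ch A) : Prop :=
  ∀ l ∈ κ.support, l.1 ∈ Y ∧ l.2 ∈ Y ∧ dist l.1 l.2 < η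

/-- the order data on germs -/
structure Ord3 (X : Type) where
  G : Set X
  dom : X → X
  pos : X → ℝ

namespace Ord3
variable {X : Type} (O : Ord3 X)

/-- a chord: two germs (possibly equal) of the same domain -/
def Chord (a b : X) : Prop := a ∈ O.G ∧ b ∈ O.G ∧ O.dom a = O.dom b

/-- `c` strictly between `a` and `b` -/
def Btw (a b c : X) : Prop :=
  (O.pos a < O.pos c ∧ O.pos c < O.pos b) ∨ (O.pos b < O.pos c ∧ O.pos c < O.pos a)

/-- `c` strictly outside the closed interval spanned by `a` and `b` -/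
def Ext (a b c : X) : Prop :=
  (O.pos c < O.pos a ∧ O.pos c < O.pos b) ∨ (O.pos a < O.pos c ∧ O.pos b < O.pos c)

/-- the chords `(a,b)` and `(c,d)` cross (strictly) -/
def Cross (a b c d : X) : Prop :=
  O.Chord a b ∧ O.Chord c d ∧ ((O.Btw a b c ∧ O.Ext a b d) ∨ (O.Ext a b c ∧ O.Btw a b d))

open Classical in
/-- `sig B g` is the parity of the points of `B` to the right of `g` -/
noncomputable def sig (B : X →₀ Z2) (g : X) : Z2 :=
  B.sum fun k c => c * (if O.pos g < O.pos k then 1 else 0)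

/-- zero-chains that are sums of boundaries of chords -/
def Ev (B : X →₀ Z2) : Prop :=
  B ∈ AddSubmonoid.closure {B' : X →₀ Z2 | ∃ a b, O.Chord a b ∧ B' = two a b}

structure Good : Prop where
  countable : O.G.Countable
  inj : InjOn O.pos O.G
  convex : ∀ a b c, O.Chord a b → c ∈ O.G → O.Btw a b c → O.dom c = O.dom a
  dom_mem : ∀ a ∈ O.G, O.dom a ∈ O.G
  dom_dom : ∀ a ∈ O.G, O.dom (O.dom a) = O.dom a
  dom_le : ∀ a ∈ O.G, O.pos (O.dom a) ≤ O.pos a

end Ord3

/-- The interface. -/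
structure Str (X : Type) [MetricSpace X] extends Ord3 X where
  small : ℝ → X → X → Prop
  θ : Ch X →+ (X → Z2)
  good : toOrd3.Good
  small_chord : ∀ ε a b, small ε a b → toOrd3.Chord a b
  small_refl : ∀ ε a, 0 < ε → a ∈ G → small ε a a
  small_symm : ∀ ε a b, small ε a b → small ε b a
  small_mono : ∀ ε ε' a b, ε ≤ ε' → small ε a b → small ε' a b
  small_trans : ∀ ε > 0, ∃ δ > 0, ∀ a b c, small δ a b → small δ b c → small ε a c
  small_dist : ∀ ε a b, small ε a b → dist a b < ε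
  X1 : ∀ ε > 0, ∃ δ > 0, ∀ a b c d, small δ a b → small δ c d → toOrd3.Cross a b c d →
    small ε a c
  X2 : ∀ a b, ∀ ε > 0, ∃ δ > 0, ∀ c d, small δ c d → toOrd3.Cross a b c d →
    small ε c a ∨ small ε c b
  LC : ∀ ε > 0, ∃ δ > 0, ∀ x y, dist x y < δ → ∀ η > 0,
    Relation.ReflTransGen
      (fun p q => p ∈ ball x ε ∧ q ∈ ball x ε ∧ (dist p q < η ∨ small ε p q)) x y
  T1 : ∀ r > 0, ∃ δ > 0, ∀ x y z o o', dist x y < δ → dist x z < δ → r ≤ dist x o →
    r ≤ dist x o' → θ (lnk x y + lnk y z + lnk x z) o = θ (lnk x y + lnk y z + lnk x z) o'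
  T2 : ∀ r > 0, ∃ δ > 0, ∀ k k' o o', small δ k k' → r ≤ dist k o → r ≤ dist k o' →
    θ (lnk k k') o = θ (lnk k k') o'
  LCst : ∀ r > 0, ∃ η > 0, ∀ κ z, toOrd3.Ev (bd κ) →
    (∀ l ∈ κ.support, dist l.1 l.2 < η ∧ r ≤ dist l.1 z) → ∀ᶠ z' in 𝓝 z, θ κ z' = θ κ z
  A3 : ∀ g g', toOrd3.Chord g g' → ∀ r > 0, ∃ η > 0, ∀ κ, toOrd3.Ev (bd κ) →
    (∀ l ∈ κ.support, dist l.1 l.2 < η ∧ r ≤ dist l.1 g ∧ r ≤ dist l.1 g') →
    θ κ g + θ κ g' = toOrd3.sig (bd κ) g + toOrd3.sig (bd κ) g'
  dual : ∀ Y : Set X, IsClosed Y → ∀ η > 0, ∀ o o' : X, ∃ δ > 0, ∀ (B : X →₀ Z2) (χ : X → Z2),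
    toOrd3.Ev B → (∀ k ∈ B.support, k ∈ Y) → (∀ x ∉ Y, ∀ᶠ x' in 𝓝 x, χ x' = χ x) →
    (∀ g g', toOrd3.Chord g g' → g ∉ Y → g' ∉ Y →
      (∀ k ∈ Y, ∀ k' ∈ Y, small δ k k' → ¬ toOrd3.Cross k k' g g') →
      χ g + χ g' = toOrd3.sig B g + toOrd3.sig B g') →
    ∃ κ : Ch X, Fine η Y κ ∧ bd κ = B ∧ (o ∉ Y → o' ∉ Y → θ κ o + θ κ o' = χ o + χ o')

namespace Str
variable {X : Type} [MetricSpace X] (S : Str X)

/-- difference of the side function of a chain at two test points -/
noncomputable def ev (κ : Ch X) (o o' : X) : Z2 := S.θ κ o + S.θ κ o'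

/-- a null, non-crossing family of chords that makes `X` locally connected -/
structure Lam (L : Set (X × X)) : Prop where
  chord : ∀ e ∈ L, S.Chord e.1 e.2
  ne : ∀ e ∈ L, e.1 ≠ e.2
  symm : ∀ e ∈ L, e.swap ∈ L
  nc : ∀ e ∈ L, ∀ f ∈ L, ¬ S.Cross e.1 e.2 f.1 f.2
  null : ∀ ε > 0, {e ∈ L | ¬ S.small ε e.1 e.2}.Finite
  lc : ∀ ε > 0, ∃ δ > 0, ∀ x y, dist x y < δ → ∀ η > 0,
    Relation.ReflTransGen
      (fun p q => p ∈ ball x ε ∧ q ∈ ball x ε ∧ (dist p q < η ∨ (p, q) ∈ L)) x y

/-- a family of (possibly trivial) chords, all but finitely many of them in `L` -/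
structure Tame (L D : Set (X × X)) : Prop where
  chord : ∀ d ∈ D, S.Chord d.1 d.2
  fin : (D \ L).Finite

/-- pairwise non-crossing -/
def NC (D : Set (X × X)) : Prop := ∀ d ∈ D, ∀ e ∈ D, ¬ S.Cross d.1 d.2 e.1 e.2

/-- no chord of `D` crosses `(a,b)` -/
def Free (D : Set (X × X)) (a b : X) : Prop := ∀ d ∈ D, ¬ S.Cross d.1 d.2 a b

end Str

/-- `(s,t)` is a bounded complementary interval of `K` -/
def Gap (K : Set ℝ) (s t : ℝ) : Prop := s ∈ K ∧ t ∈ K ∧ s < t ∧ ∀ u ∈ K, u ≤ s ∨ t ≤ u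

/-- the (ordered) pairs of points at the ends of gaps -/
def gaps {X : Type} (K : Set ℝ) (π : ℝ → X) : Set (X × X) :=
  {p | ∃ s t, Gap K s t ∧ p = (π s, π t)}

/-- a path with jumps: every gap is trivial or belongs to `R` -/
structure IsPath {X : Type} [TopologicalSpace X] (R : Set (X × X)) (K : Set ℝ) (π : ℝ → X)
    (a b : ℝ) : Prop where
  compact : IsCompact K
  left : a ∈ K
  right : b ∈ K
  sub : K ⊆ Icc a b
  cont : ContinuousOn π K
  gap : ∀ s t, Gap K s t → π s = π t ∨ (π s, π t) ∈ R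

/-- an injective path with jumps -/
structure IsArc {X : Type} [TopologicalSpace X] (R : Set (X × X)) (K : Set ℝ) (π : ℝ → X)
    (a b : ℝ) : Prop extends IsPath R K π a b where
  inj : InjOn π K

/-- joined inside `N` by a path with jumps in `R` -/
def Joined {X : Type} [TopologicalSpace X] (R : Set (X × X)) (N : Set X) (x y : X) : Prop :=
  ∃ K π a b, IsPath R K π a b ∧ π a = x ∧ π b = y ∧ MapsTo π K N

end Pool.Agent.Lib.MP_9e71a3_gt
end

-- part Pool.Agent.Lib.MP_9e71a3_gt.Lat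
section

/-! Mod 2 cochains and chains on the cubical lattice `ℤ^3`.  JOB Lat (part 1). -/

set_option autoImplicit false

namespace Pool.Agent.Lib.MP_9e71a3_gt

open Set

abbrev P3 := Fin 3 → ℤ
/-- edges `(i,p)` from `p` to `p + ee i`; also faces `(i,p)` spanned by the other two directions -/
abbrev Ed := Fin 3 × P3
abbrev C0 := P3 → Z2
abbrev C1 := Ed → Z2
abbrev Z1 := Ed →₀ Z2

def ee (i : Fin 3) : P3 := Pi.single i 1

def d0 (f : C0) : C1 := fun e => f (e.2 + ee e.1) + f e.2
def d1 (a : C1) : C1 := fun e =>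
  a (e.1 + 1, e.2) + a (e.1 + 2, e.2 + ee (e.1 + 1)) + a (e.1 + 1, e.2 + ee (e.1 + 2)) +
    a (e.1 + 2, e.2)
def d2 (b : C1) : C0 := fun p => ∑ i : Fin 3, (b (i, p) + b (i, p + ee i))

noncomputable def bd1 : Z1 →+ (P3 →₀ Z2) :=
  Finsupp.mapDomain.addMonoidHom (fun e : Ed => e.2) +
    Finsupp.mapDomain.addMonoidHom (fun e : Ed => e.2 + ee e.1)

/-- evaluation of a cochain on a chain -/
noncomputable def pair {A : Type} (a : A → Z2) : (A →₀ Z2) →+ Z2 :=
  Finsupp.liftAddHom fun e => AddMonoidHom.mulRight (a e)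

/-- the dual two-cochain of a one-chain -/
def sh (z : Z1) : C1 := fun e => z (e.1, e.2 - ee e.1)

/-- the ray primitive of the dual of a single edge -/
def ray (q : Ed) : C1 := fun e =>
  if (q.1 = 2 ∧ e.1 = 1 ∨ q.1 = 1 ∧ e.1 = 2) ∧ (q.2 + ee q.1) 0 < e.2 0 ∧
    e.2 1 = (q.2 + ee q.1) 1 ∧ e.2 2 = (q.2 + ee q.1) 2 then 1 else 0

/-- a linear primitive operator -/
noncomputable def KK : Z1 →+ C1 :=
  Finsupp.liftAddHom fun q => (smulAddHom Z2 C1).flip (ray q)

def cup01 (f : C0) (a : C1) : C1 := fun e => f e.2 * a e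
def cup11 (a b : C1) : C1 := fun e =>
  a (e.1 + 1, e.2) * b (e.1 + 2, e.2 + ee (e.1 + 1)) +
    a (e.1 + 2, e.2) * b (e.1 + 1, e.2 + ee (e.1 + 2))
def cup20 (b : C1) (H : C0) : C1 := fun e => b e * H (e.2 + ee (e.1 + 1) + ee (e.1 + 2))
def cup21 (b a : C1) : C0 := fun p =>
  ∑ i : Fin 3, b (i, p) * a (i, p + ee (i + 1) + ee (i + 2))

/-- lattice box -/
def InB (lo hi p : P3) : Prop := ∀ j, lo j ≤ p j ∧ p j ≤ hi j

theorem pair_single {A : Type} (a : A → Z2) (e : A) (c : Z2) :
    pair a (Finsupp.single e c) = c * a e := by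
  simp [pair]

theorem pair_eq_sum {A : Type} (a : A → Z2) (z : A →₀ Z2) :
    pair a z = ∑ e ∈ z.support, z e * a e := rfl

theorem pair_add {A : Type} (a b : A → Z2) (z : A →₀ Z2) :
    pair (a + b) z = pair a z + pair b z := by
  simp [pair_eq_sum, mul_add, Finset.sum_add_distrib]

theorem pair_congr {A : Type} {a b : A → Z2} {z : A →₀ Z2} (h : ∀ e ∈ z.support, a e = b e) :
    pair a z = pair b z :=
  Finset.sum_congr rfl fun e he => congrArg (z e * ·) (h e he)

theorem pair_eq_zero {A : Type} {a : A → Z2} {z : A →₀ Z2} (h : ∀ e ∈ z.support, a e = 0) :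
    pair a z = 0 :=
  Finset.sum_eq_zero fun e he => (congrArg (z e * ·) (h e he)).trans (mul_zero _)

theorem pair_mapDomain {A B : Type} (a : B → Z2) (f : A → B) (z : A →₀ Z2) :
    pair a (Finsupp.mapDomain f z) = pair (a ∘ f) z := by
  induction z using Finsupp.induction_linear with
  | zero => simp
  | add z w hz hw => rw [Finsupp.mapDomain_add, map_add, map_add, hz, hw]
  | single e c => rw [Finsupp.mapDomain_single, pair_single, pair_single, Function.comp_apply]

theorem pair_two {A : Type} (a : A → Z2) (p q : A) : pair a (two p q) = a p + a q := by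
  simp [two, pair_single]

theorem bd1_single (e : Ed) (c : Z2) :
    bd1 (Finsupp.single e c) = Finsupp.single e.2 c + Finsupp.single (e.2 + ee e.1) c := by
  simp [bd1, Finsupp.mapDomain.addMonoidHom, Finsupp.mapDomain_single]

theorem pair_d0 (f : C0) (z : Z1) : pair (d0 f) z = pair f (bd1 z) := by
  induction z using Finsupp.induction_linear with
  | zero => simp
  | add z w hz hw => rw [map_add, map_add, map_add, hz, hw]
  | single e c => rw [bd1_single, map_add, pair_single, pair_single, pair_single, d0, mul_add,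
      add_comm]

theorem d0_add (f g : C0) : d0 (f + g) = d0 f + d0 g := by
  funext e; simp only [d0, Pi.add_apply]; ring

theorem d1_add (a b : C1) : d1 (a + b) = d1 a + d1 b := by
  funext e; simp only [d1, Pi.add_apply]; ring

theorem d2_add (a b : C1) : d2 (a + b) = d2 a + d2 b := by
  funext e; simp only [d2, Pi.add_apply, Fin.sum_univ_three]; ring

theorem d1_d0 (f : C0) : d1 (d0 f) = 0 := by
  funext e
  simp only [d1, d0, Pi.zero_apply, add_right_comm e.2 (ee (e.1 + 2)) (ee (e.1 + 1))]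
  grind

theorem d2_d1 (a : C1) : d2 (d1 a) = 0 := by
  funext p
  simp only [d2, d1, Pi.zero_apply, Fin.sum_univ_three, Fin.reduceAdd,
    add_right_comm p (ee 1) (ee 0), add_right_comm p (ee 2) (ee 0), add_right_comm p (ee 2) (ee 1)]
  grind

theorem sh_add (z w : Z1) : sh (z + w) = sh z + sh w := rfl

theorem sh_zero : sh 0 = 0 := rfl

theorem d2_sh (z : Z1) : d2 (sh z) = bd1 z := by
  induction z using Finsupp.induction_linear with
  | zero => funext p; simp [d2, sh]
  | add z w hz hw => rw [sh_add, d2_add, hz, hw, map_add, Finsupp.coe_add]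
  | single e c =>
    funext p
    obtain ⟨k, q⟩ := e
    simp only [d2, sh, bd1_single, Finsupp.add_apply, add_sub_cancel_right, Finsupp.single_apply,
      Prod.mk.injEq, eq_sub_iff_add_eq]
    rw [Finset.sum_eq_single k (fun i _ hi => by simp [hi.symm]) (by simp)]
    simp [add_comm]

theorem exists_unsh (b : C1) (hb : (Function.support b).Finite) : ∃ z : Z1, sh z = b := by
  refine ⟨Finsupp.ofSupportFinite (fun e => b (e.1, e.2 + ee e.1))
    (hb.preimage (f := fun e : Ed => (e.1, e.2 + ee e.1)) ?_), ?_⟩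
  · rintro ⟨i, p⟩ _ ⟨j, q⟩ _ h
    obtain ⟨h1, h2⟩ : i = j ∧ p + ee i = q + ee j := Prod.mk.inj h
    subst h1
    rw [add_right_cancel h2]
  · funext e
    simp [sh, Finsupp.ofSupportFinite_coe]

/-- the dual of a ray in direction `0` -/
def lat_R (p : P3) : C1 := fun e =>
  if e.1 = 0 ∧ p 0 < e.2 0 ∧ e.2 1 = p 1 ∧ e.2 2 = p 2 then 1 else 0

theorem lat_d1_ray (q : Ed) :
    d1 (ray q) = sh (Finsupp.single q 1) + (lat_R q.2 + lat_R (q.2 + ee q.1)) := by
  funext e
  obtain ⟨k, p⟩ := q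
  obtain ⟨i, x⟩ := e
  fin_cases k <;> fin_cases i <;>
    simp [d1, ray, sh, lat_R, ee, Finsupp.single_apply, funext_iff, Fin.forall_fin_succ] <;>
    split_ifs <;> first | rfl | omega

theorem d1_KK {z : Z1} (hz : bd1 z = 0) : d1 (KK z) = sh z := by
  let RR : (P3 →₀ Z2) →+ C1 := Finsupp.liftAddHom fun p => (smulAddHom Z2 C1).flip (lat_R p)
  have key : ∀ z : Z1, d1 (KK z) = sh z + RR (bd1 z) := fun z => by
    induction z using Finsupp.induction_linear with
    | zero => funext e; simp [d1, sh]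
    | add z w hz hw => rw [map_add, d1_add, hz, hw, sh_add, map_add, map_add]; abel
    | single q c =>
      rcases z2_cases c with rfl | rfl
      · funext e; simp [d1, sh]
      · simp [KK, RR, bd1_single, lat_d1_ray]
  rw [key, hz, map_zero, add_zero]

theorem d0_mul (f g : C0) (e : Ed) :
    d0 (f * g) e = f e.2 * d0 g e + g (e.2 + ee e.1) * d0 f e := by
  simp only [d0, Pi.mul_apply]
  grind

theorem d1_cup01 (f H : C0) : d1 (cup01 f (d0 H)) = cup11 (d0 f) (d0 H) := by
  funext e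
  simp only [d1, d0, cup01, cup11, add_right_comm e.2 (ee (e.1 + 2)) (ee (e.1 + 1))]
  grind

theorem d2_cup11 (a : C1) (H : C0) : d2 (cup11 a (d0 H)) = cup21 (d1 a) (d0 H) := by
  funext p
  simp only [d2, d1, d0, cup11, cup21, Fin.sum_univ_three, Fin.reduceAdd,
    add_right_comm _ (ee 1) (ee 0), add_right_comm _ (ee 2) (ee 0), add_right_comm _ (ee 2) (ee 1)]
  grind

theorem d2_cup20 (b : C1) (H : C0) (p : P3) :
    d2 (cup20 b H) p = d2 b p * H (p + ee 0 + ee 1 + ee 2) + cup21 b (d0 H) p := by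
  simp only [d2, d0, cup20, cup21, Fin.sum_univ_three, Fin.reduceAdd,
    add_right_comm _ (ee 1) (ee 0), add_right_comm _ (ee 2) (ee 0), add_right_comm _ (ee 2) (ee 1)]
  grind

theorem lat_ee_self (i : Fin 3) : ee i i = 1 := by simp [ee]

theorem lat_ee_ne {i j : Fin 3} (h : j ≠ i) : ee i j = 0 := by simp [ee, h]

theorem lat_ee_nonneg (i j : Fin 3) : 0 ≤ ee i j := by
  by_cases h : j = i <;> simp [ee, h]

theorem lat_upd_succ (x : P3) (i : Fin 3) (t : ℤ) :
    Function.update x i (t + 1) = Function.update x i t + ee i := by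
  funext j
  by_cases h : j = i
  · subst h; simp [ee]
  · simp [ee, h]

theorem lat_upd_add (x : P3) {i j : Fin 3} (h : i ≠ j) (t : ℤ) :
    Function.update (x + ee j) i t = Function.update x i t + ee j := by
  funext k
  by_cases hk : k = i
  · subst hk; simp [ee, h]
  · simp [hk]

theorem lat_upd_same (x : P3) (i : Fin 3) (t : ℤ) :
    Function.update (x + ee i) i t = Function.update x i t := by
  funext k
  by_cases hk : k = i
  · subst hk; simp
  · simp [ee, hk]

/-- summation along a direction -/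
noncomputable def lat_S (i : Fin 3) (c : ℤ) (u : C0) : C0 := fun x =>
  ∑ t ∈ Finset.Ico c (x i), u (Function.update x i t)

theorem lat_S_ne {i : Fin 3} {c : ℤ} {u : C0} {x : P3} (h : lat_S i c u x ≠ 0) :
    ∃ t, c ≤ t ∧ t < x i ∧ u (Function.update x i t) ≠ 0 := by
  obtain ⟨t, h1, h2⟩ := Finset.exists_ne_zero_of_sum_ne_zero h
  exact ⟨t, (Finset.mem_Ico.1 h1).1, (Finset.mem_Ico.1 h1).2, h2⟩

theorem lat_S_zero {i : Fin 3} {c : ℤ} (u : C0) {x : P3} (h : x i ≤ c) : lat_S i c u x = 0 := by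
  by_contra h1
  obtain ⟨t, h2, h3, -⟩ := lat_S_ne h1
  omega

theorem lat_S_succ {i : Fin 3} {c : ℤ} {u : C0} {x : P3} (h : x i < c → u x = 0) :
    lat_S i c u (x + ee i) = lat_S i c u x + u x := by
  rcases lt_or_ge (x i) c with h1 | h1
  · rw [lat_S_zero u h1.le, h h1, lat_S_zero u (by simp [lat_ee_self]; omega), add_zero]
  · simp only [lat_S, lat_upd_same, Pi.add_apply, lat_ee_self]
    rw [← Finset.insert_Ico_right_eq_Ico_add_one h1, Finset.sum_insert (by simp), add_comm]
    simp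

theorem lat_uniq {w : C0} (i : Fin 3) (c : ℤ) (x : P3)
    (h0 : ∀ t < c, w (Function.update x i t) = 0)
    (h : ∀ t, w (Function.update x i t + ee i) = w (Function.update x i t)) : w x = 0 := by
  have key : ∀ t, c - 1 ≤ t → w (Function.update x i t) = 0 := fun t ht => by
    induction t, ht using Int.leInduction with
    | base => exact h0 _ (by omega)
    | succ t _ ih => rw [lat_upd_succ, h, ih]
  rw [← Function.update_eq_self i x]
  rcases lt_or_ge (x i) c with h1 | h1
  · exact h0 _ h1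
  · exact key _ (by omega)

theorem lat_step (a : C1) (lo hi : P3)
    (h : ∀ e : Ed, InB lo hi e.2 → InB lo hi (e.2 + ee (e.1 + 1) + ee (e.1 + 2)) → d1 a e = 0)
    (i : Fin 3) : ∃ f : C0, (∀ p, InB lo hi p → (a + d0 f) (i, p) = 0) ∧
      ∀ j, j ≠ i → ∀ p, InB lo hi p → InB lo hi (p + ee j) →
        (a + d0 f) (j, p) = a (j, Function.update p i (lo i)) := by
  have h1 : ∀ p, lo i ≤ p i → (a + d0 (lat_S i (lo i) fun x => a (i, x))) (i, p) = 0 :=
    fun p hp => by
      simp only [Pi.add_apply, d0]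
      rw [lat_S_succ fun h => absurd hp h.not_ge]
      grind
  refine ⟨lat_S i (lo i) fun x => a (i, x), fun p hp => h1 p (hp i).1, fun j hj p hp hp' => ?_⟩
  have h2 : a (j, Function.update p i (lo i)) =
      (a + d0 (lat_S i (lo i) fun x => a (i, x))) (j, Function.update p i (lo i)) := by
    simp only [Pi.add_apply, d0]
    rw [lat_S_zero, lat_S_zero, add_zero, add_zero] <;> simp [lat_ee_ne hj.symm]
  rw [h2]
  have h3 : ∀ e : Ed, InB lo hi e.2 → InB lo hi (e.2 + ee (e.1 + 1) + ee (e.1 + 2)) →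
      d1 (a + d0 (lat_S i (lo i) fun x => a (i, x))) e = 0 := fun e h4 h5 => by
    rw [d1_add, d1_d0, add_zero, h e h4 h5]
  generalize a + d0 (lat_S i (lo i) fun x => a (i, x)) = b at h1 h3
  have key : ∀ t, lo i ≤ t → t ≤ hi i →
      b (j, Function.update p i t) = b (j, Function.update p i (lo i)) := fun t ht => by
    induction t, ht using Int.leInduction with
    | base => exact fun _ => rfl
    | succ t ht ih =>
      intro ht'
      rw [lat_upd_succ, ← ih (by omega)]
      have h4 : InB lo hi (Function.update p i t) := fun k => by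
        by_cases hk : k = i
        · subst hk; simp; omega
        · simpa [hk] using hp k
      have h5 : InB lo hi (Function.update p i t + ee i + ee j) := fun k => by
        by_cases hk : k = i
        · subst hk; simp [lat_ee_self, lat_ee_ne hj.symm]; omega
        · simpa [hk, lat_ee_ne hk] using hp' k
      have h6 := h1 _ (h4 i).1
      have h7 := h1 (Function.update p i t + ee j) (by simpa [lat_ee_ne hj.symm] using ht)
      have h8 : ∀ i j : Fin 3, j ≠ i → ∃ k, k + 1 = i ∧ k + 2 = j ∨ k + 1 = j ∧ k + 2 = i := by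
        decide
      generalize Function.update p i t = y at h4 h5 h6 h7
      obtain ⟨k, ⟨rfl, rfl⟩ | ⟨rfl, rfl⟩⟩ := h8 i j hj
      · have h9 := h3 (k, y) h4 h5
        simp only [d1, h6, h7] at h9
        grind
      · have h9 := h3 (k, y) h4 (by rwa [add_right_comm])
        simp only [d1, h6, h7] at h9
        grind
  rw [← key (p i) (hp i).1 (hp i).2, Function.update_eq_self]

theorem lat_inB_upd {lo hi p : P3} (hp : InB lo hi p) (i : Fin 3) :
    InB lo hi (Function.update p i (lo i)) := fun k => by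
  by_cases hk : k = i
  · subst hk; simpa using (hp k).1.trans (hp k).2
  · simpa [hk] using hp k

/-- a cochain that is closed on the faces of a box is exact on the edges of the box -/
theorem box_exact (a : C1) (lo hi : P3)
    (h : ∀ e : Ed, InB lo hi e.2 → InB lo hi (e.2 + ee (e.1 + 1) + ee (e.1 + 2)) → d1 a e = 0) :
    ∃ f : C0, ∀ e : Ed, InB lo hi e.2 → InB lo hi (e.2 + ee e.1) → a e = d0 f e := by
  obtain ⟨f0, h0, k0⟩ := lat_step a lo hi h 0
  obtain ⟨f1, h1, k1⟩ := lat_step (a + d0 f0) lo hi (by rwa [d1_add, d1_d0, add_zero]) 1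
  obtain ⟨f2, h2, k2⟩ := lat_step (a + d0 f0 + d0 f1) lo hi
    (by rwa [d1_add, d1_d0, add_zero, d1_add, d1_d0, add_zero]) 2
  refine ⟨f0 + f1 + f2, fun ⟨j, p⟩ hp hp' => ?_⟩
  have key : (a + d0 f0 + d0 f1 + d0 f2) (j, p) = 0 := by
    fin_cases j
    · have h3 := lat_inB_upd hp 2
      have h4 : InB lo hi (Function.update (p + ee 0) 2 (lo 2)) := lat_inB_upd hp' 2
      rw [lat_upd_add p (by decide)] at h4
      exact (k2 0 (by decide) p hp hp').trans ((k1 0 (by decide) _ h3 h4).trans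
        (h0 _ (lat_inB_upd h3 1)))
    · exact (k2 1 (by decide) p hp hp').trans (h1 _ (lat_inB_upd hp 2))
    · exact h2 p hp
  simp only [d0_add, Pi.add_apply] at key ⊢
  grind

/-- a closed cochain vanishes on cycles -/
theorem pair_closed {a : C1} (ha : d1 a = 0) {z : Z1} (hz : bd1 z = 0) : pair a z = 0 := by
  have hf : ((fun e : Ed => e.2) '' z.support ∪ (fun e : Ed => e.2 + ee e.1) '' z.support).Finite :=
    (z.support.finite_toSet.image _).union (z.support.finite_toSet.image _)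
  obtain ⟨lo, hlo⟩ := hf.bddBelow
  obtain ⟨hi, hhi⟩ := hf.bddAbove
  obtain ⟨f, hf⟩ := box_exact a lo hi fun e _ _ => by rw [ha, Pi.zero_apply]
  rw [pair_congr (b := d0 f) fun e he => hf e
    (fun j => ⟨hlo (Or.inl ⟨e, he, rfl⟩) j, hhi (Or.inl ⟨e, he, rfl⟩) j⟩)
    fun j => ⟨hlo (Or.inr ⟨e, he, rfl⟩) j, hhi (Or.inr ⟨e, he, rfl⟩) j⟩, pair_d0, hz, map_zero]

theorem lat_box_primitive (b : C1) (lo hi : P3) (hb : d2 b = 0)
    (hs : ∀ e, b e ≠ 0 → InB lo hi e.2) :
    ∃ E : C1, d1 E = b ∧ ∀ e, E e ≠ 0 → InB lo hi e.2 := by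
  have hz : ∀ i j x, x j < lo j ∨ hi j < x j → b (i, x) = 0 := fun i j x h => by
    by_contra h1
    have := hs _ h1 j
    dsimp only at this
    omega
  obtain ⟨u, hu⟩ : ∃ u : Fin 3 → C0, u = fun j => lat_S 0 (lo 0) fun x => b (j, x) := ⟨_, rfl⟩
  have u1 : ∀ j x, u j (x + ee 0) = u j x + b (j, x) := fun j x => by
    rw [hu]; exact lat_S_succ fun h => hz j 0 x (Or.inl h)
  have u2 : ∀ j x, u j x ≠ 0 →
      lo 0 < x 0 ∧ (lo 1 ≤ x 1 ∧ x 1 ≤ hi 1) ∧ lo 2 ≤ x 2 ∧ x 2 ≤ hi 2 := fun j x h => by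
    rw [hu] at h
    obtain ⟨t, h1, h2, h3⟩ := lat_S_ne h
    exact ⟨by omega, by simpa using hs _ h3 1, by simpa using hs _ h3 2⟩
  have u3 : ∀ j x, ¬(lo 0 < x 0 ∧ (lo 1 ≤ x 1 ∧ x 1 ≤ hi 1) ∧ lo 2 ≤ x 2 ∧ x 2 ≤ hi 2) →
      u j x = 0 := fun j x h => by_contra fun h1 => h (u2 j x h1)
  have u4 : ∀ x, u 2 x + u 1 (x + ee 1) + u 2 (x + ee 2) + u 1 x + b (0, x) = 0 := fun x => by
    refine lat_uniq (w := fun x => u 2 x + u 1 (x + ee 1) + u 2 (x + ee 2) + u 1 x + b (0, x))
      0 (lo 0) x (fun t ht => ?_) fun t => ?_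
    · rw [u3, u3, u3, u3, hz 0 0] <;> simp [ee] <;> omega
    · generalize Function.update x 0 t = y
      have h1 := congrFun hb y
      simp only [d2, Fin.sum_univ_three, Pi.zero_apply] at h1
      simp only [add_right_comm y (ee 0), u1]
      grind
  obtain ⟨c, hc⟩ : ∃ c : Fin 3 → C0, c = fun j x => u j (Function.update x 0 (hi 0 + 1)) :=
    ⟨_, rfl⟩
  have c1 : ∀ j x, hi 0 < x 0 → c j x = u j x := fun j x hx => by
    have key : ∀ t, hi 0 + 1 ≤ t → u j (Function.update x 0 t) = c j x := fun t ht => by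
      induction t, ht using Int.leInduction with
      | base => rw [hc]
      | succ t ht ih => rw [lat_upd_succ, u1, ih, hz j 0 _ (Or.inr (by simp; omega)), add_zero]
    rw [← key (x 0) hx, Function.update_eq_self]
  have c2 : ∀ j x, ¬((lo 1 ≤ x 1 ∧ x 1 ≤ hi 1) ∧ lo 2 ≤ x 2 ∧ x 2 ≤ hi 2) → c j x = 0 :=
    fun j x h => by rw [hc]; exact u3 j _ fun h1 => h (by simpa using h1.2)
  have c3 : ∀ j x, c j (x + ee 0) = c j x := fun j x => by simp only [hc, lat_upd_same]
  have c4 : ∀ x, c 2 x + c 1 (x + ee 1) + c 2 (x + ee 2) + c 1 x = 0 := fun x => by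
    have h1 := u4 (Function.update x 0 (hi 0 + 1))
    rw [hz 0 0 _ (Or.inr (by simp)), add_zero] at h1
    simpa only [hc, lat_upd_add x (show (0 : Fin 3) ≠ 1 by decide),
      lat_upd_add x (show (0 : Fin 3) ≠ 2 by decide)] using h1
  obtain ⟨g, hg⟩ : ∃ g : C0, g = lat_S 1 (lo 1) (c 2) := ⟨_, rfl⟩
  have g0 : ∀ x, x 1 ≤ lo 1 → g x = 0 := fun x h => by rw [hg, lat_S_zero _ h]
  have g1 : ∀ x, g (x + ee 1) = g x + c 2 x := fun x => by
    rw [hg]; exact lat_S_succ fun h => c2 2 x (by omega)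
  have g2 : ∀ x, g (x + ee 2) + g x + c 1 x = 0 := fun x => by
    refine lat_uniq (w := fun x => g (x + ee 2) + g x + c 1 x) 1 (lo 1) x (fun t ht => ?_)
      fun t => ?_
    · rw [g0, g0, c2] <;> simp [ee] <;> omega
    · generalize Function.update x 1 t = y
      have h1 := c4 y
      simp only [add_right_comm y (ee 1), g1]
      grind
  have g3 : ∀ x, g (x + ee 0) + g x = 0 := fun x => by
    refine lat_uniq (w := fun x => g (x + ee 0) + g x) 1 (lo 1) x (fun t ht => ?_) fun t => ?_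
    · rw [g0, g0] <;> simp [ee] <;> omega
    · generalize Function.update x 1 t = y
      simp only [add_right_comm y (ee 1), g1, c3]
      grind
  have g4 : ∀ x, ¬(lo 2 ≤ x 2 ∧ x 2 ≤ hi 2) → g x = 0 := fun x h => by
    by_contra h1
    rw [hg] at h1
    obtain ⟨t, -, -, h2⟩ := lat_S_ne h1
    exact h2 (c2 2 _ fun h3 => h (by simpa using h3.2))
  have g5 : ∀ x, hi 1 < x 1 → g x = 0 := fun x h => by
    refine lat_uniq 2 (lo 2) x (fun t ht => g4 _ (by simp; omega)) fun t => ?_
    have h1 := g2 (Function.update x 2 t)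
    rw [c2 1 _ (by simp; omega)] at h1
    grind
  let E0 : C1 := fun e => if e.1 = 0 then 0 else if e.1 = 1 then u 2 e.2 else u 1 e.2
  refine ⟨E0 + d0 fun x => if hi 0 < x 0 then g x else 0, ?_, fun ⟨j, x⟩ h => ?_⟩
  · rw [d1_add, d1_d0, add_zero]
    funext ⟨j, x⟩
    have h1 := u4 x
    fin_cases j <;> simp [d1, E0, u1] <;> grind
  · have key : ∀ j, u j x ≠ 0 → x 0 ≤ hi 0 → InB lo hi x := fun j h1 h2 k => by
      have := u2 j x h1
      fin_cases k <;> simp <;> omega
    fin_cases j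
    · have h1 : x 0 = hi 0 ∧ g x ≠ 0 := by
        have h2 := g3 x
        simp [E0, d0, lat_ee_self] at h
        grind
      have h2 : ¬ x 1 ≤ lo 1 := fun h3 => h1.2 (g0 x h3)
      have h3 : ¬ hi 1 < x 1 := fun h3 => h1.2 (g5 x h3)
      have h4 : lo 2 ≤ x 2 ∧ x 2 ≤ hi 2 := by_contra fun h3 => h1.2 (g4 x h3)
      have h5 : lo 0 ≤ hi 0 := by
        by_contra h5
        have h6 : ∀ y, c 2 y = 0 := fun y => by
          rw [hc]; exact u3 2 _ fun h7 => h5 (by simpa [Int.lt_add_one_iff] using h7.1)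
        exact h1.2 (by rw [hg]; exact Finset.sum_eq_zero fun _ _ => h6 _)
      intro k
      fin_cases k <;> simp <;> omega
    · by_cases h1 : hi 0 < x 0
      · simp [E0, d0, lat_ee_ne, h1, g1, c1] at h
        grind
      · exact key 2 (by simpa [E0, d0, lat_ee_ne, h1] using h) (not_lt.1 h1)
    · by_cases h1 : hi 0 < x 0
      · have h2 := g2 x
        rw [c1 1 x h1] at h2
        simp [E0, d0, lat_ee_ne, h1] at h
        grind
      · exact key 1 (by simpa [E0, d0, lat_ee_ne, h1] using h) (not_lt.1 h1)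

/-- a closed two-cochain supported in a box has a primitive supported in a slightly larger box -/
theorem box_primitive (b : C1) (lo hi : P3) (hb : d2 b = 0)
    (hs : ∀ e, b e ≠ 0 → InB lo hi e.2) :
    ∃ E : C1, d1 E = b ∧ ∀ e, E e ≠ 0 → InB (lo - fun _ => 1) (hi + fun _ => 1) e.2 := by
  obtain ⟨E, h1, h2⟩ := lat_box_primitive b lo hi hb hs
  refine ⟨E, h1, fun e he j => ?_⟩
  have := h2 e he j
  simp only [Pi.sub_apply, Pi.add_apply]
  omega

/-- potentials on a set of edges, vanishing on a set of vertices -/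
theorem graph_potential (a : C1) (T : Set Ed) (D : Set P3)
    (h : ∀ w : Z1, (∀ e ∈ w.support, e ∈ T) → (∀ p ∈ (bd1 w).support, p ∈ D) → pair a w = 0) :
    ∃ f : C0, (∀ p ∈ D, f p = 0) ∧ ∀ e ∈ T, a e = d0 f e := by
  let φ := (Finsupp.supported Z2 Z2 D).mkQ ∘ₗ bd1.toZModLinearMap 2 ∘ₗ
    (Finsupp.supported Z2 Z2 T).subtype
  let l : Module.Dual Z2 (Finsupp.supported Z2 Z2 T) :=
    (pair a).toZModLinearMap 2 ∘ₗ (Finsupp.supported Z2 Z2 T).subtype
  have h1 : l ∈ LinearMap.range φ.dualMap := by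
    refine (LinearMap.range_dualMap_eq_dualAnnihilator_ker (K := Z2)
      (V₁ := Finsupp.supported Z2 Z2 T) (V₂ := (P3 →₀ Z2) ⧸ Finsupp.supported Z2 Z2 D) φ).ge
      ((Submodule.mem_dualAnnihilator _).2 ?_)
    exact fun w hw => h w.1 w.2 ((Submodule.Quotient.mk_eq_zero _).1 hw)
  obtain ⟨g, hg⟩ := h1
  refine ⟨fun p => g (Submodule.Quotient.mk (Finsupp.single p 1)), fun p hp => ?_, fun e he => ?_⟩
  · dsimp only
    rw [(Submodule.Quotient.mk_eq_zero _).2 (Finsupp.single_mem_supported Z2 1 hp), map_zero]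
  · have h2 : g (Submodule.Quotient.mk (bd1 (Finsupp.single e 1))) = pair a (Finsupp.single e 1) :=
      LinearMap.congr_fun hg ⟨_, Finsupp.single_mem_supported Z2 1 he⟩
    rw [bd1_single, pair_single, one_mul, Submodule.Quotient.mk_add, map_add] at h2
    rw [← h2, d0, add_comm]

/-- flux: if `d1 a` agrees with the dual of `v` wherever `H` changes, then `v` crosses the
surface of `H` an even number of times -/
theorem flux (a : C1) (v : Z1) (H : C0) (hH : (Function.support H).Finite)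
    (h : ∀ e : Ed, d0 H (e.1, e.2 + ee (e.1 + 1) + ee (e.1 + 2)) ≠ 0 → d1 a e = sh v e) :
    pair (fun p => H (p + ee 0 + ee 1 + ee 2)) (bd1 v) = 0 := by
  obtain ⟨z, hz⟩ := exists_unsh (cup20 (d1 a + sh v) H) (by
    refine (Set.finite_iUnion fun i : Fin 3 =>
      hH.image fun p => (i, p - ee (i + 2) - ee (i + 1))).subset fun e he => ?_
    exact Set.mem_iUnion.2 ⟨e.1, _, right_ne_zero_of_mul he, by simp⟩)
  have h1 : ∀ p, bd1 z p = bd1 v p * H (p + ee 0 + ee 1 + ee 2) := fun p => by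
    have h2 : cup21 (d1 a + sh v) (d0 H) p = 0 := Finset.sum_eq_zero fun i _ => by
      by_cases h3 : d0 H (i, p + ee (i + 1) + ee (i + 2)) = 0
      · rw [h3, mul_zero]
      · rw [Pi.add_apply, h (i, p) h3, z2_add_self, zero_mul]
    rw [← d2_sh, hz, d2_cup20, h2, d2_add, d2_d1, zero_add, d2_sh, add_zero]
  have h2 : pair (fun _ => 1) (bd1 z) = 0 := by
    rw [← pair_d0]
    exact pair_eq_zero fun e _ => z2_add_self 1
  rw [← h2, pair_eq_sum, pair_eq_sum]
  simp only [mul_one, ← h1]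
  refine (Finset.sum_subset (fun p hp => ?_) fun p _ hp => Finsupp.notMem_support_iff.1 hp).symm
  rw [Finsupp.mem_support_iff] at hp ⊢
  exact left_ne_zero_of_mul (h1 p ▸ hp)

end Pool.Agent.Lib.MP_9e71a3_gt
end

-- part Pool.Agent.Lib.MP_9e71a3_gt.Chain
section

/-! Formal chains in space, rasterisation, null chains and linking numbers.  JOB Lat (part 2). -/

set_option autoImplicit false

namespace Pool.Agent.Lib.MP_9e71a3_gt

open Set Metric Filter Topology

/-- three-space with the sup norm -/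
abbrev E3 := Fin 3 → ℝ

noncomputable def fl (h : ℝ) (p : E3) : P3 := fun i => ⌊p i / h⌋
def pt (h : ℝ) (a : P3) : E3 := fun i => h * a i

/-- lattice segment in direction `i` through `a`, between the coordinates `m` and `n` -/
noncomputable def seg (i : Fin 3) (a : P3) (m n : ℤ) : Z1 :=
  ∑ j ∈ Finset.Ico (min m n) (max m n), Finsupp.single (i, Function.update a i j) 1

noncomputable def stair (a b : P3) : Z1 :=
  seg 0 a (a 0) (b 0) + seg 1 (Function.update a 0 (b 0)) (a 1) (b 1) + seg 2 b (a 2) (b 2)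

/-- rasterisation at mesh `h` -/
noncomputable def rho (h : ℝ) : Ch E3 →+ Z1 :=
  Finsupp.liftAddHom fun l => (smulAddHom Z2 Z1).flip (stair (fl h l.1) (fl h l.2))

/-- a lattice chain as a formal chain -/
noncomputable def unr (h : ℝ) : Z1 →+ Ch E3 :=
  Finsupp.mapDomain.addMonoidHom fun e : Ed => (pt h e.2, pt h (e.2 + ee e.1))

/-- linking number at mesh `h` -/
noncomputable def Lk (h : ℝ) (z w : Ch E3) : Z2 := pair (KK (rho h z)) (rho h w)

/-- sums of boundaries of triangles, each contained in a ball of the family `T` -/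
def Null (T : Set (E3 × ℝ)) (c : Ch E3) : Prop :=
  c ∈ AddSubmonoid.closure {t : Ch E3 | ∃ B ∈ T, ∃ p q r : E3, p ∈ closedBall B.1 B.2 ∧
    q ∈ closedBall B.1 B.2 ∧ r ∈ closedBall B.1 B.2 ∧ t = lnk p q + lnk q r + lnk p r}

/-- every link of `c` stays away from the balls of `T`, with margin `m` -/
def Av (T : Set (E3 × ℝ)) (m : ℝ) (c : Ch E3) : Prop :=
  ∀ l ∈ c.support, ∀ B ∈ T, B.2 + dist l.1 l.2 + m < dist l.1 B.1

/-- every link of `c` satisfies `Q` -/
def All {A : Type} (Q : A → A → Prop) (c : Ch A) : Prop := ∀ l ∈ c.support, Q l.1 l.2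

theorem All.zero {A : Type} (Q : A → A → Prop) : All Q 0 := by simp [All]
theorem All.add {A : Type} {Q : A → A → Prop} {c c' : Ch A} (h : All Q c) (h' : All Q c') :
    All Q (c + c') := fun l hl =>
  by classical exact (Finset.mem_union.mp (Finsupp.support_add hl)).elim (h l) (h' l)
theorem All.lnk {A : Type} {Q : A → A → Prop} {p q : A} (h : Q p q) : All Q (lnk p q) := fun l hl => by
  obtain rfl := Finset.mem_singleton.mp (Finsupp.support_single_subset hl)
  exact h
theorem All.mono {A : Type} {Q Q' : A → A → Prop} {c : Ch A} (h : All Q c)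
    (hQ : ∀ p q, Q p q → Q' p q) : All Q' c := fun l hl => hQ _ _ (h l hl)
theorem All.sum {A ι : Type} {Q : A → A → Prop} (s : Finset ι) (f : ι → Ch A)
    (h : ∀ i ∈ s, All Q (f i)) : All Q (∑ i ∈ s, f i) :=
  Finset.sum_induction f (All Q) (fun _ _ => All.add) (All.zero Q) h
theorem All.smul {A : Type} {Q : A → A → Prop} {c : Ch A} (a : Z2) (h : All Q c) :
    All Q (a • c) := fun l hl => h l (Finsupp.support_smul hl)
theorem av_iff_all {T : Set (E3 × ℝ)} {m : ℝ} {c : Ch E3} :
    Av T m c ↔ All (fun p q => ∀ B ∈ T, B.2 + dist p q + m < dist p B.1) c := Iff.rfl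
theorem mem_bd_support {A : Type} {c : Ch A} {p : A} (hp : p ∈ (bd c).support) :
    ∃ l ∈ c.support, p = l.1 ∨ p = l.2 := by
  classical
  rcases Finset.mem_union.mp (Finsupp.support_add hp) with h | h <;>
    obtain ⟨l, hl, rfl⟩ := Finset.mem_image.mp (Finsupp.mapDomain_support h)
  exacts [⟨l, hl, Or.inl rfl⟩, ⟨l, hl, Or.inr rfl⟩]
theorem mem_bd1_support {z : Z1} {p : P3} (hp : p ∈ (bd1 z).support) :
    ∃ e ∈ z.support, p = e.2 ∨ p = e.2 + ee e.1 := by
  classical
  rcases Finset.mem_union.mp (Finsupp.support_add hp) with h | h <;>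
    obtain ⟨l, hl, rfl⟩ := Finset.mem_image.mp (Finsupp.mapDomain_support h)
  exacts [⟨l, hl, Or.inl rfl⟩, ⟨l, hl, Or.inr rfl⟩]
theorem chain_map_smul {M N : Type} [AddCommGroup M] [Module Z2 M] [AddCommGroup N] [Module Z2 N]
    (φ : M →+ N) (a : Z2) (x : M) : φ (a • x) = a • φ x := by
  rcases z2_cases a with rfl | rfl <;> simp
theorem bd_sum_smul {A ι : Type} (B : ι →₀ Z2) (F : ι → Ch A) :
    bd (B.sum fun k c => c • F k) = B.sum fun k c => c • bd (F k) := by
  simp only [Finsupp.sum, map_sum, chain_map_smul]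

theorem fl_pt {h : ℝ} (hh : 0 < h) (a : P3) : fl h (pt h a) = a := by
  funext i
  simp [fl, pt, hh.ne']
theorem chain_fl {h : ℝ} (hh : 0 < h) (p : E3) (i : Fin 3) :
    pt h (fl h p) i ≤ p i ∧ p i < pt h (fl h p) i + h := by
  have h1 := mul_le_mul_of_nonneg_left (Int.floor_le (p i / h)) hh.le
  have h2 := mul_lt_mul_of_pos_left (Int.lt_floor_add_one (p i / h)) hh
  rw [mul_div_cancel₀ _ hh.ne'] at h1 h2
  exact ⟨h1, by rwa [mul_add, mul_one] at h2⟩
theorem dist_pt_fl {h : ℝ} (hh : 0 < h) (p : E3) : dist (pt h (fl h p)) p ≤ h := by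
  refine (dist_pi_le_iff hh.le).mpr fun i => ?_
  rw [Real.dist_eq, abs_le]
  constructor <;> linarith [chain_fl hh p i]
theorem dist_pt_ee {h : ℝ} (hh : 0 < h) (a : P3) (i : Fin 3) :
    dist (pt h (a + ee i)) (pt h a) = h := by
  have : pt h (a + ee i) - pt h a = Pi.single i h := by
    funext j
    by_cases hj : j = i <;> simp [pt, ee, hj, mul_add]
  rw [dist_eq_norm, this, Pi.norm_single, Real.norm_of_nonneg hh.le]
theorem chain_inB {h : ℝ} (hh : 0 < h) {c p : E3} {r : ℝ} (hp : p ∈ closedBall c r) :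
    InB (fl h fun j => c j - r) (fl h fun j => c j + r) (fl h p) := fun j => by
  have := abs_le.mp ((dist_le_pi_dist p c j).trans hp)
  constructor <;> refine Int.floor_mono (div_le_div_of_nonneg_right ?_ hh.le) <;>
    linarith [this.1, this.2]
theorem chain_dist {h : ℝ} (hh : 0 < h) {c : E3} {r : ℝ} {a : P3} (m : ℤ)
    (ha : InB ((fl h fun j => c j - r) - fun _ => m) ((fl h fun j => c j + r) + fun _ => m) a) :
    dist (pt h a) c ≤ r + (m + 1) * h := by
  refine dist_pi_le_iff'.mpr fun j => ?_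
  have h1 := mul_le_mul_of_nonneg_left ((Int.cast_le (R := ℝ)).mpr (ha j).1) hh.le
  have h2 := mul_le_mul_of_nonneg_left ((Int.cast_le (R := ℝ)).mpr (ha j).2) hh.le
  have h3 := (chain_fl hh (fun j => c j - r) j).2
  have h4 := (chain_fl hh (fun j => c j + r) j).1
  simp only [pt, Pi.sub_apply, Pi.add_apply, Int.cast_sub, Int.cast_add] at h1 h2 h3 h4 ⊢
  rw [Real.dist_eq, abs_le]
  constructor <;> linarith
theorem finite_pt_ball {h : ℝ} (hh : 0 < h) (R : ℝ) : {a : P3 | ‖pt h a‖ ≤ R}.Finite :=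
  (Set.finite_Icc (fl h fun _ => 0 - R) (fl h fun _ => 0 + R)).subset fun a ha => by
    have := chain_inB hh (c := 0) (r := R) (p := pt h a) (by simpa using ha)
    rw [fl_pt hh] at this
    exact ⟨fun j => (this j).1, fun j => (this j).2⟩
theorem chain_upd (a : P3) (i : Fin 3) (j : ℤ) :
    Function.update a i j + ee i = Function.update a i (j + 1) := by
  funext k
  by_cases hk : k = i <;> simp [ee, hk]
theorem chain_bd1_seg (i : Fin 3) (a : P3) (m n : ℤ) :
    bd1 (seg i a m n) = two (Function.update a i m) (Function.update a i n) := by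
  wlog h : m ≤ n generalizing m n
  · rw [seg, min_comm, max_comm, ← seg, this n m (not_le.mp h).le, two, two, add_comm]
  rw [seg, min_eq_left h, max_eq_right h]
  induction n, h using Int.leInduction with
  | base => simp [two, fs_add_self]
  | succ n h ih =>
    rw [← Finset.insert_Ico_right_eq_Ico_add_one h, Finset.sum_insert (by simp), map_add, ih,
      bd1_single, chain_upd, two, two]
    linear_combination (norm := abel) fs_add_self (Finsupp.single (Function.update a i n) 1)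
theorem chain_bd1_stair (a b : P3) : bd1 (stair a b) = two a b := by
  have e1 : Function.update (Function.update a 0 (b 0)) 1 (a 1) = Function.update a 0 (b 0) := by
    funext k
    fin_cases k <;> simp
  have e2 : Function.update (Function.update a 0 (b 0)) 1 (b 1) = Function.update b 2 (a 2) := by
    funext k
    fin_cases k <;> simp
  simp only [stair, map_add, chain_bd1_seg, e1, e2, Function.update_eq_self, two]
  linear_combination (norm := abel) fs_add_self (Finsupp.single (Function.update a 0 (b 0)) 1) +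
    fs_add_self (Finsupp.single (Function.update b 2 (a 2)) 1)
theorem chain_rho_single (h : ℝ) (l : E3 × E3) (a : Z2) :
    rho h (Finsupp.single l a) = a • stair (fl h l.1) (fl h l.2) := by simp [rho]
theorem chain_seg_self (i : Fin 3) (a : P3) (m : ℤ) : seg i a m m = 0 := by simp [seg]
theorem chain_stair_ee (a : P3) (i : Fin 3) : stair a (a + ee i) = Finsupp.single (i, a) 1 := by
  have key : ∀ (i : Fin 3) (a : P3) (m : ℤ),
      seg i a m (m + 1) = Finsupp.single (i, Function.update a i m) 1 := fun i a m => by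
    simp [seg, ← Finset.insert_Ico_right_eq_Ico_add_one (le_refl m)]
  have e : Function.update (a + Pi.single 2 1) 2 (a 2) = a := by
    funext k
    fin_cases k <;> simp
  fin_cases i <;> simp [stair, ee, key, chain_seg_self, e]
theorem chain_seg_supp {i : Fin 3} {a lo hi : P3} {m n : ℤ} {e : Ed}
    (he : e ∈ (seg i a m n).support) (hm : InB lo hi (Function.update a i m))
    (hn : InB lo hi (Function.update a i n)) : InB lo hi e.2 ∧ InB lo hi (e.2 + ee e.1) := by
  obtain ⟨j, hj, h⟩ := Finsupp.mem_support_finsetSum e he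
  obtain rfl := Finset.mem_singleton.mp (Finsupp.support_single_subset h)
  rw [Finset.mem_Ico] at hj
  simp only [chain_upd]
  have h1 := hm i
  have h2 := hn i
  simp only [Function.update_self] at h1 h2
  constructor <;> intro k <;> by_cases hk : k = i
  · rw [hk, Function.update_self]; omega
  · simpa [hk] using hm k
  · rw [hk, Function.update_self]; omega
  · simpa [hk] using hm k
theorem chain_rho_supp {h : ℝ} {c : Ch E3} {e : Ed} (he : e ∈ (rho h c).support) :
    ∃ l ∈ c.support, ∀ lo hi, InB lo hi (fl h l.1) → InB lo hi (fl h l.2) →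
      InB lo hi e.2 ∧ InB lo hi (e.2 + ee e.1) := by
  classical
  rw [rho, Finsupp.liftAddHom_apply] at he
  obtain ⟨l, hl, h1⟩ := Finsupp.mem_support_finsetSum e he
  refine ⟨l, hl, fun lo hi ha hb => ?_⟩
  have h2 : e ∈ (stair (fl h l.1) (fl h l.2)).support := Finsupp.support_smul h1
  generalize fl h l.1 = a at ha h2
  generalize fl h l.2 = b at hb h2
  rcases Finset.mem_union.mp (Finsupp.support_add h2) with h3 | h3
  · rcases Finset.mem_union.mp (Finsupp.support_add h3) with h4 | h4 <;>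
      refine chain_seg_supp h4 (fun k => ?_) fun k => ?_ <;> fin_cases k <;> simp [ha _, hb _]
  · refine chain_seg_supp h3 (fun k => ?_) fun k => ?_ <;> fin_cases k <;> simp [ha _, hb _]
theorem bd1_rho (h : ℝ) (c : Ch E3) : bd1 (rho h c) = Finsupp.mapDomain (fl h) (bd c) := by
  induction c using Finsupp.induction_linear with
  | zero => simp
  | add f g hf hg => rw [map_add, map_add, hf, hg, map_add, Finsupp.mapDomain_add]
  | single l a =>
    rw [chain_rho_single, chain_map_smul, chain_bd1_stair, bd_single, Finsupp.mapDomain_add]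
    simp [two, Finsupp.mapDomain_single]
theorem rho_lnk_of_fl_eq {h : ℝ} {p q : E3} (hpq : fl h p = fl h q) : rho h (lnk p q) = 0 := by
  simp [lnk, chain_rho_single, hpq, stair, chain_seg_self]
theorem rho_unr {h : ℝ} (hh : 0 < h) (z : Z1) : rho h (unr h z) = z := by
  induction z using Finsupp.induction_linear with
  | zero => simp
  | add f g hf hg => rw [map_add, map_add, hf, hg]
  | single e a =>
    rw [unr, Finsupp.mapDomain.addMonoidHom_apply, Finsupp.mapDomain_single, chain_rho_single,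
      fl_pt hh, fl_pt hh, chain_stair_ee]
    simp
theorem bd_unr (h : ℝ) (z : Z1) : bd (unr h z) = Finsupp.mapDomain (pt h) (bd1 z) := by
  induction z using Finsupp.induction_linear with
  | zero => simp
  | add f g hf hg => rw [map_add, map_add, hf, hg, map_add, Finsupp.mapDomain_add]
  | single e a =>
    rw [unr, Finsupp.mapDomain.addMonoidHom_apply, Finsupp.mapDomain_single, bd_single, bd1_single,
      Finsupp.mapDomain_add, Finsupp.mapDomain_single, Finsupp.mapDomain_single]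
theorem all_unr {h : ℝ} {z : Z1} {Q : E3 → E3 → Prop}
    (hz : ∀ e ∈ z.support, Q (pt h e.2) (pt h (e.2 + ee e.1))) : All Q (unr h z) := fun l hl => by
  classical
  obtain ⟨e, he, rfl⟩ := Finset.mem_image.mp (Finsupp.mapDomain_support hl)
  exact hz e he
/-- location of the edges of a rasterised chain -/
theorem rho_support {h : ℝ} (hh : 0 < h) {c : Ch E3} {e : Ed} (he : e ∈ (rho h c).support) :
    ∃ l ∈ c.support, dist (pt h e.2) l.1 ≤ dist l.1 l.2 + h ∧
      dist (pt h (e.2 + ee e.1)) l.1 ≤ dist l.1 l.2 + h := by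
  obtain ⟨l, hl, h1⟩ := chain_rho_supp he
  have h2 := fun a => chain_dist hh (c := l.1) (r := dist l.1 l.2) (a := a) 0
  obtain ⟨h3, h4⟩ := h1 _ _ (chain_inB hh (mem_closedBall_self dist_nonneg))
    (chain_inB hh (mem_closedBall'.mpr le_rfl))
  exact ⟨l, hl, by simpa using h2 _ fun j => by simpa using h3 j,
    by simpa using h2 _ fun j => by simpa using h4 j⟩
theorem pair_d0_rho (h : ℝ) (f : C0) (c : Ch E3) :
    pair (d0 f) (rho h c) = pair (f ∘ fl h) (bd c) := by
  rw [pair_d0, bd1_rho, pair_mapDomain]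

theorem Lk_add_left (h : ℝ) (z z' w : Ch E3) : Lk h (z + z') w = Lk h z w + Lk h z' w := by
  rw [Lk, map_add, map_add, pair_add, Lk, Lk]
theorem Lk_add_right (h : ℝ) (z w w' : Ch E3) : Lk h z (w + w') = Lk h z w + Lk h z w' := by
  rw [Lk, map_add, map_add, Lk, Lk]
theorem Lk_zero_left (h : ℝ) (w : Ch E3) : Lk h 0 w = 0 := pair_eq_zero fun _ _ => by simp
theorem Lk_zero_right (h : ℝ) (z : Ch E3) : Lk h z 0 = 0 := by simp [Lk]
theorem Lk_sum_left {ι : Type} (h : ℝ) (B : ι →₀ Z2) (F : ι → Ch E3) (w : Ch E3) :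
    Lk h (B.sum fun k c => c • F k) w = B.sum fun k c => c * Lk h (F k) w := by
  have := fun a x => chain_map_smul (⟨⟨fun z => Lk h z w, Lk_zero_left h w⟩,
    fun z z' => Lk_add_left h z z' w⟩ : Ch E3 →+ Z2) a x
  exact (map_sum (⟨⟨fun z => Lk h z w, Lk_zero_left h w⟩, fun z z' => Lk_add_left h z z' w⟩ :
    Ch E3 →+ Z2) _ _).trans (Finset.sum_congr rfl fun k _ => this _ _)
theorem chain_bd1_zero {h : ℝ} {z : Ch E3} (hz : bd z = 0) : bd1 (rho h z) = 0 := by
  rw [bd1_rho, hz, Finsupp.mapDomain_zero]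
/-- any primitive computes the linking number -/
theorem Lk_eq_pair {h : ℝ} {z w : Ch E3} (hz : bd z = 0) (hw : bd w = 0) {E : C1}
    (hE : d1 E = sh (rho h z)) : Lk h z w = pair E (rho h w) := by
  have h1 := pair_closed (a := KK (rho h z) + E) (by
    rw [d1_add, d1_KK (chain_bd1_zero hz), hE]
    exact funext fun e => z2_add_self _) (chain_bd1_zero (h := h) hw)
  rw [pair_add] at h1
  exact CharTwo.add_eq_zero.mp h1

theorem Null.zero (T : Set (E3 × ℝ)) : Null T 0 := zero_mem _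
theorem Null.add {T : Set (E3 × ℝ)} {c c' : Ch E3} (h : Null T c) (h' : Null T c') :
    Null T (c + c') := add_mem h h'
theorem Null.sum {ι : Type} {T : Set (E3 × ℝ)} (s : Finset ι) (f : ι → Ch E3)
    (h : ∀ i ∈ s, Null T (f i)) : Null T (∑ i ∈ s, f i) := sum_mem h
theorem Null.smul {T : Set (E3 × ℝ)} {c : Ch E3} (a : Z2) (h : Null T c) : Null T (a • c) := by
  rcases z2_cases a with rfl | rfl
  · simpa using Null.zero T
  · simpa using h
theorem Null.mono {T T' : Set (E3 × ℝ)} {c : Ch E3} (h : Null T c)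
    (hT : ∀ B ∈ T, ∃ B' ∈ T', closedBall B.1 B.2 ⊆ closedBall B'.1 B'.2) : Null T' c := by
  refine AddSubmonoid.closure_mono ?_ h
  rintro _ ⟨B, hB, p, q, r, h1, h2, h3, rfl⟩
  obtain ⟨B', hB', k⟩ := hT B hB
  exact ⟨B', hB', p, q, r, k h1, k h2, k h3, rfl⟩
theorem chain_null_ind {T : Set (E3 × ℝ)} (P : Ch E3 → Prop) {c : Ch E3} (h : Null T c) (h0 : P 0)
    (h1 : ∀ a b, P a → P b → P (a + b)) (h2 : ∀ B ∈ T, ∀ t, bd t = 0 →
      All (fun p q => p ∈ closedBall B.1 B.2 ∧ q ∈ closedBall B.1 B.2) t → P t) : P c := by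
  induction h using AddSubmonoid.closure_induction with
  | mem t ht =>
    obtain ⟨B, hB, p, q, r, a1, a2, a3, rfl⟩ := ht
    refine h2 B hB _ ?_ (((All.lnk ⟨a1, a2⟩).add (All.lnk ⟨a2, a3⟩)).add (All.lnk ⟨a1, a3⟩))
    simp only [map_add, bd_lnk, two]
    linear_combination (norm := abel) fs_add_self (Finsupp.single p 1) +
      fs_add_self (Finsupp.single q 1) + fs_add_self (Finsupp.single r 1)
  | zero => exact h0
  | add a b _ _ ha hb => exact h1 a b ha hb
theorem Null.bd_eq {T : Set (E3 × ℝ)} {c : Ch E3} (h : Null T c) : bd c = 0 := by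
  refine chain_null_ind (fun c => bd c = 0) h (map_zero _) (fun _ _ a b => by simp [a, b])
    fun _ _ _ k _ => k
/-- a closed chain inside one ball is null -/
theorem null_of_ball {T : Set (E3 × ℝ)} {B : E3 × ℝ} (hB : B ∈ T) {c : Ch E3} (hc : bd c = 0)
    (h : All (fun p q => p ∈ closedBall B.1 B.2 ∧ q ∈ closedBall B.1 B.2) c) : Null T c := by
  have key : ∀ c : Ch E3, (c.sum fun l a => a • (lnk B.1 l.1 + lnk l.1 l.2 + lnk B.1 l.2)) =
      c + Finsupp.mapDomain (Prod.mk B.1) (bd c) := fun c => by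
    induction c using Finsupp.induction_linear with
    | zero => simp
    | add f g hf hg =>
      rw [Finsupp.sum_add_index' (by simp) (fun _ _ _ => add_smul _ _ _), hf, hg, map_add,
        Finsupp.mapDomain_add]
      abel
    | single l a =>
      rw [Finsupp.sum_single_index (by simp), bd_single, Finsupp.mapDomain_add]
      simp [lnk, Finsupp.mapDomain_single]
      abel
  have h1 := key c
  rw [hc, Finsupp.mapDomain_zero, add_zero] at h1
  rw [← h1]
  refine Null.sum _ _ fun l hl => Null.smul _ (AddSubmonoid.subset_closure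
    ⟨B, hB, _, _, _, mem_closedBall_self (dist_nonneg.trans (h l hl).1), (h l hl).1, (h l hl).2, rfl⟩)
/-- dual form -/
theorem Null.pair_eq_zero {h : ℝ} (hh : 0 < h) {T : Set (E3 × ℝ)} {c : Ch E3} (hc : Null T c)
    {a : C1} (ha : ∀ e : Ed, ∀ B ∈ T, dist (pt h e.2) B.1 ≤ B.2 + h → d1 a e = 0) :
    pair a (rho h c) = 0 := by
  refine chain_null_ind (fun c => pair a (rho h c) = 0) hc (by simp)
    (fun _ _ a b => by simp [a, b]) fun B hB t h1 h2 => ?_
  obtain ⟨f, hf⟩ := box_exact a (fl h fun j => B.1 j - B.2) (fl h fun j => B.1 j + B.2)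
    fun e k _ => ha e B hB (by simpa using chain_dist hh 0 fun j => by simpa using k j)
  rw [pair_congr (b := d0 f), pair_d0_rho, h1, map_zero]
  intro e he
  obtain ⟨l, hl, k⟩ := chain_rho_supp he
  obtain ⟨k1, k2⟩ := k _ _ (chain_inB hh (h2 l hl).1) (chain_inB hh (h2 l hl).2)
  exact hf e k1 k2
/-- primal form -/
theorem Null.primitive {h : ℝ} (hh : 0 < h) {T : Set (E3 × ℝ)} {c : Ch E3} (hc : Null T c) :
    ∃ E : C1, d1 E = sh (rho h c) ∧ ∀ e, E e ≠ 0 → ∃ B ∈ T, dist (pt h e.2) B.1 ≤ B.2 + 3 * h := by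
  refine chain_null_ind (fun c => ∃ E : C1, d1 E = sh (rho h c) ∧
    ∀ e, E e ≠ 0 → ∃ B ∈ T, dist (pt h e.2) B.1 ≤ B.2 + 3 * h) hc
    ⟨0, by rw [map_zero, sh_zero]; funext e; simp [d1], by simp⟩ ?_ fun B hB t h1 h2 => ?_
  · rintro a b ⟨E, e1, e2⟩ ⟨E', e3, e4⟩
    refine ⟨E + E', by rw [d1_add, map_add, sh_add, e1, e3], fun e he => ?_⟩
    by_cases k : E e = 0
    · exact e4 e (by simpa [k] using he)
    · exact e2 e k
  obtain ⟨E, e1, e2⟩ := box_primitive (sh (rho h t)) (fl h fun j => B.1 j - B.2)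
    (fl h fun j => B.1 j + B.2) (by rw [d2_sh, chain_bd1_zero h1]; rfl) fun e he => by
      obtain ⟨l, hl, k⟩ := chain_rho_supp (Finsupp.mem_support_iff.mpr he)
      simpa using (k _ _ (chain_inB hh (h2 l hl).1) (chain_inB hh (h2 l hl).2)).2
  exact ⟨E, e1, fun e he => ⟨B, hB, (chain_dist hh 1 (e2 e he)).trans (by push_cast; linarith)⟩⟩
theorem chain_sh_zero {h : ℝ} (hh : 0 < h) {T : Set (E3 × ℝ)} {z : Ch E3} (hav : Av T (4 * h) z)
    {B : E3 × ℝ} (hB : B ∈ T) {e : Ed} (he : dist (pt h e.2) B.1 ≤ B.2 + 3 * h) :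
    sh (rho h z) e = 0 := by
  by_contra k
  obtain ⟨l, hl, -, k⟩ := rho_support hh (Finsupp.mem_support_iff.mpr k)
  rw [sub_add_cancel] at k
  linarith [hav l hl B hB, dist_triangle_left l.1 B.1 (pt h e.2)]
theorem Lk_null_right {h : ℝ} (hh : 0 < h) {T : Set (E3 × ℝ)} {z w : Ch E3} (hz : bd z = 0)
    (hw : Null T w) (hav : Av T (4 * h) z) : Lk h z w = 0 :=
  hw.pair_eq_zero hh fun e B hB k => by
    rw [d1_KK (chain_bd1_zero hz)]
    exact chain_sh_zero hh hav hB (by linarith)
theorem Lk_null_left {h : ℝ} (hh : 0 < h) {T : Set (E3 × ℝ)} {z w : Ch E3} (hz : Null T z)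
    (hw : bd w = 0) (hav : Av T (4 * h) w) : Lk h z w = 0 := by
  obtain ⟨E, e1, e2⟩ := hz.primitive hh
  rw [Lk_eq_pair hz.bd_eq hw e1]
  refine pair_eq_zero fun e he => by_contra fun k => ?_
  obtain ⟨B, hB, k1⟩ := e2 e k
  obtain ⟨l, hl, k2, -⟩ := rho_support hh he
  linarith [hav l hl B hB, dist_triangle_left l.1 B.1 (pt h e.2)]
/-- a closed chain outside a ball has a primitive that vanishes inside the ball -/
theorem outer_primitive {h R : ℝ} (hh : 0 < h) {z : Ch E3} (hz : bd z = 0)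
    (hav : Av {(0, R)} (4 * h) z) :
    ∃ E : C1, d1 E = sh (rho h z) ∧ ∀ e : Ed, ‖pt h e.2‖ ≤ R → E e = 0 := by
  obtain ⟨f, hf⟩ := box_exact (KK (rho h z)) (fl h fun j => (0 : E3) j - (R + h))
    (fl h fun j => (0 : E3) j + (R + h)) fun e k _ => by
      rw [d1_KK (chain_bd1_zero hz)]
      refine chain_sh_zero hh hav rfl ((chain_dist hh (r := R + h) 0 fun j => by simpa using k j).trans ?_)
      push_cast
      linarith
  refine ⟨KK (rho h z) + d0 f, by rw [d1_add, d1_d0, add_zero, d1_KK (chain_bd1_zero hz)],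
    fun e he => ?_⟩
  have key : ∀ a, dist (pt h a) 0 ≤ R + h → InB (fl h fun j => (0 : E3) j - (R + h))
      (fl h fun j => (0 : E3) j + (R + h)) a := fun a ha => fl_pt hh a ▸ chain_inB hh ha
  rw [← dist_zero_right] at he
  rw [Pi.add_apply, hf e (key _ (by linarith)) (key _ (by
    linarith [dist_triangle (pt h (e.2 + ee e.1)) (pt h e.2) 0, dist_pt_ee hh e.2 e.1])),
    z2_add_self]
/-- the first cohomology of a spherical shell vanishes -/
theorem shell {h r R : ℝ} (hh : 0 < h) {a : C1}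
    (ha : ∀ e : Ed, r ≤ ‖pt h e.2‖ → ‖pt h e.2‖ ≤ R → d1 a e = 0) {w : Ch E3} (hw : bd w = 0)
    (hwr : All (fun p q => r + dist p q + 5 * h < ‖p‖ ∧ ‖p‖ + dist p q + 5 * h < R) w) :
    pair a (rho h w) = 0 := by
  classical
  rcases w.support.eq_empty_or_nonempty with k | ⟨l, hl⟩
  · simp [Finsupp.support_eq_empty.mp k]
  have hR : r + 10 * h < R := by linarith [(hwr l hl).1, (hwr l hl).2, dist_nonneg (x := l.1) (y := l.2)]
  let b : C1 := fun e => if ‖pt h e.2‖ < r then d1 a e else 0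
  have b1 : ∀ e : Ed, ‖pt h e.2‖ ≤ R → b e = d1 a e := fun e he => by
    by_cases k : ‖pt h e.2‖ < r
    · exact if_pos k
    · exact (if_neg k).trans (ha e (not_lt.mp k) he).symm
  obtain ⟨E, e1, e2⟩ := box_primitive b (fl h fun j => (0 : E3) j - r)
    (fl h fun j => (0 : E3) j + r) (funext fun p => by
      have k1 : ∀ i, |‖pt h (p + ee i)‖ - ‖pt h p‖| ≤ h := fun i =>
        (abs_norm_sub_norm_le _ _).trans (by rw [← dist_eq_norm, dist_pt_ee hh])
      simp only [abs_le] at k1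
      by_cases k : ‖pt h p‖ ≤ R - h
      · rw [← d2_d1 a]
        exact Finset.sum_congr rfl fun i _ => by
          rw [b1 (i, p) (by linarith), b1 (i, p + ee i) (by linarith [(k1 i).2])]
      · refine Finset.sum_eq_zero fun i _ => ?_
        simp only [b]
        rw [if_neg (by linarith), if_neg (by linarith [(k1 i).1]), add_zero]) fun e he =>
      fl_pt hh e.2 ▸ chain_inB hh (by
        by_contra k
        exact he (if_neg fun k' => k (mem_closedBall_zero_iff.mpr k'.le)))
  have h1 := (null_of_ball (T := {(0, R - h)}) rfl hw (hwr.mono fun p q k => by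
    simp only [mem_closedBall_zero_iff]
    have := norm_sub_norm_le q p
    rw [← dist_eq_norm, dist_comm] at this
    constructor <;> linarith [k.2, dist_nonneg (x := p) (y := q)])).pair_eq_zero hh (a := a + E) (by
      rintro e _ rfl k
      rw [d1_add, e1, Pi.add_apply, b1 e (by simpa using k), z2_add_self])
  rwa [pair_add, pair_eq_zero (a := E), add_zero] at h1
  refine fun e he => by_contra fun k => ?_
  have k1 := chain_dist hh 1 (e2 e k)
  obtain ⟨l, hl, k2, -⟩ := rho_support hh he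
  have := (hwr l hl).1
  rw [← dist_zero_right] at this
  push_cast at k1
  linarith [dist_triangle_left l.1 0 (pt h e.2)]

/-- discretisation of the initial part `[0,s]` of a curve -/
noncomputable def cG (γ : ℝ → E3) (N : ℕ) (s : ℝ) : Ch E3 :=
  ∑ j ∈ Finset.range N, lnk (γ (min ((j : ℝ) / N) s)) (γ (min (((j : ℝ) + 1) / N) s))

/-- discretisation of the part of a curve between the parameters `a` and `b` -/
noncomputable def cC (γ : ℝ → E3) (N : ℕ) (a b : ℝ) : Ch E3 := cG γ N a + cG γ N b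

theorem cC_comm (γ : ℝ → E3) (N : ℕ) (a b : ℝ) : cC γ N a b = cC γ N b a := add_comm _ _
theorem cC_add (γ : ℝ → E3) (N : ℕ) (a b c : ℝ) : cC γ N a b + cC γ N b c = cC γ N a c := by
  simp only [cC]
  linear_combination (norm := abel) fs_add_self (cG γ N b)
theorem cC_self (γ : ℝ → E3) (N : ℕ) (a : ℝ) : cC γ N a a = 0 := fs_add_self _
theorem chain_tele {A : Type} (f : ℝ → A →₀ Z2) {N : ℕ} (hN : 0 < N) {s : ℝ}
    (hs : s ∈ Icc (0 : ℝ) 1) : ∑ j ∈ Finset.range N,
      (f (min ((j : ℝ) / N) s) + f (min (((j : ℝ) + 1) / N) s)) = f 0 + f s := by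
  have key : ∀ n : ℕ, ∑ j ∈ Finset.range n,
      (f (min ((j : ℝ) / N) s) + f (min (((j : ℝ) + 1) / N) s)) =
        f 0 + f (min ((n : ℝ) / N) s) := fun n => by
    induction n with
    | zero => simp [min_eq_left hs.1, fs_add_self]
    | succ n ih =>
      rw [Finset.sum_range_succ, ih, Nat.cast_succ]
      linear_combination (norm := abel) fs_add_self (f (min ((n : ℝ) / N) s))
  rw [key, div_self (Nat.cast_pos.mpr hN).ne', min_eq_right hs.2]
theorem chain_sweep {A : Type} (F : ℝ → ℝ → Ch A) (P : Ch A → Prop) (h0 : P 0)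
    (h1 : ∀ a b, P a → P b → P (a + b)) {N : ℕ} (hN : 0 < N) {a b : ℝ} (ha : a ∈ Icc (0 : ℝ) 1)
    (hb : b ∈ Icc (0 : ℝ) 1) (h : ∀ u v, 0 ≤ u → min a b - 1 / N ≤ u → u ≤ v → v ≤ max a b →
      v - u ≤ 1 / N → P (F u v)) :
    P (∑ j ∈ Finset.range N, F (min ((j : ℝ) / N) a) (min (((j : ℝ) + 1) / N) a) +
      ∑ j ∈ Finset.range N, F (min ((j : ℝ) / N) b) (min (((j : ℝ) + 1) / N) b)) := by
  rw [← Finset.sum_add_distrib]
  refine Finset.sum_induction _ P h1 h0 fun j _ => ?_
  have e : ((j : ℝ) + 1) / N = j / N + 1 / N := add_div _ _ _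
  have p1 : (0 : ℝ) ≤ j / N := by positivity
  have p2 : (0 : ℝ) < 1 / N := by positivity
  rw [e]
  by_cases k : j / N + 1 / N ≤ min a b
  · rw [le_min_iff] at k
    rw [min_eq_left k.1, min_eq_left k.2, min_eq_left (by linarith [k.1]),
      min_eq_left (by linarith [k.2]), fs_add_self]
    exact h0
  have key : ∀ s, 0 ≤ s → min a b ≤ s → s ≤ max a b →
      P (F (min ((j : ℝ) / N) s) (min (j / N + 1 / N) s)) := fun s s0 s1 s2 =>
    h _ _ (le_min p1 s0) (le_min (by linarith) (by linarith)) (min_le_min_right _ (by linarith))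
      ((min_le_right _ _).trans s2) (by
        rcases le_total ((j : ℝ) / N) s with k | k
        · linarith [min_eq_left k, min_le_left ((j : ℝ) / N + 1 / N) s]
        · linarith [min_eq_right k, min_le_right ((j : ℝ) / N + 1 / N) s])
  exact h1 _ _ (key a ha.1 (min_le_left _ _) (le_max_left _ _))
    (key b hb.1 (min_le_right _ _) (le_max_right _ _))
theorem bd_cC (γ : ℝ → E3) {N : ℕ} (hN : 0 < N) {a b : ℝ} (ha : a ∈ Icc (0:ℝ) 1)
    (hb : b ∈ Icc (0:ℝ) 1) : bd (cC γ N a b) = two (γ a) (γ b) := by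
  have key : ∀ s ∈ Icc (0 : ℝ) 1, bd (cG γ N s) = two (γ 0) (γ s) := fun s hs => by
    simp only [cG, map_sum, bd_lnk]
    exact chain_tele (fun u => Finsupp.single (γ u) 1) hN hs
  rw [cC, map_add, key a ha, key b hb, two, two, two]
  linear_combination (norm := abel) fs_add_self (Finsupp.single (γ 0) 1)
theorem all_cC (γ : ℝ → E3) {N : ℕ} (hN : 0 < N) {a b : ℝ} (ha : a ∈ Icc (0:ℝ) 1)
    (hb : b ∈ Icc (0:ℝ) 1) {Q : E3 → E3 → Prop}
    (h : ∀ u v, 0 ≤ u → min a b - 1 / N ≤ u → u ≤ v → v ≤ max a b → v - u ≤ 1 / N →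
      Q (γ u) (γ v)) : All Q (cC γ N a b) :=
  chain_sweep (fun u v => lnk (γ u) (γ v)) (All Q) (All.zero Q) (fun _ _ => All.add) hN ha hb
    fun u v a1 a2 a3 a4 a5 => All.lnk (h u v a1 a2 a3 a4 a5)
/-- sweeping from one curve to another -/
theorem null_sweep (γ γ' : ℝ → E3) {N : ℕ} (hN : 0 < N) {a b : ℝ} (ha : a ∈ Icc (0:ℝ) 1)
    (hb : b ∈ Icc (0:ℝ) 1) {T : Set (E3 × ℝ)}
    (h : ∀ u v, 0 ≤ u → min a b - 1 / N ≤ u → u ≤ v → v ≤ max a b → v - u ≤ 1 / N → ∃ B ∈ T,
      γ u ∈ closedBall B.1 B.2 ∧ γ v ∈ closedBall B.1 B.2 ∧ γ' u ∈ closedBall B.1 B.2 ∧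
        γ' v ∈ closedBall B.1 B.2) :
    Null T (cC γ N a b + cC γ' N a b + lnk (γ a) (γ' a) + lnk (γ b) (γ' b)) := by
  have := chain_sweep (fun u v => lnk (γ u) (γ v) + lnk (γ' u) (γ' v) +
    (lnk (γ u) (γ' u) + lnk (γ v) (γ' v))) (Null T) (Null.zero T) (fun _ _ => Null.add) hN ha hb
    fun u v a1 a2 a3 a4 a5 => by
      obtain ⟨B, hB, k1, k2, k3, k4⟩ := h u v a1 a2 a3 a4 a5
      refine null_of_ball hB ?_ (((All.lnk ⟨k1, k2⟩).add (All.lnk ⟨k3, k4⟩)).add
        ((All.lnk ⟨k1, k3⟩).add (All.lnk ⟨k2, k4⟩)))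
      simp only [map_add, bd_lnk, two]
      linear_combination (norm := abel) fs_add_self (Finsupp.single (γ u) 1) +
        fs_add_self (Finsupp.single (γ v) 1) + fs_add_self (Finsupp.single (γ' u) 1) +
        fs_add_self (Finsupp.single (γ' v) 1)
  rw [Finset.sum_add_distrib, Finset.sum_add_distrib (s := Finset.range N) (g := fun j : ℕ => _ + _),
    chain_tele (fun u => lnk (γ u) (γ' u)) hN ha, chain_tele (fun u => lnk (γ u) (γ' u)) hN hb,
    Finset.sum_add_distrib, Finset.sum_add_distrib] at this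
  convert this using 1
  simp only [cC, cG]
  linear_combination (norm := abel) -fs_add_self (lnk (γ 0) (γ' 0))
/-- any path in an open set can be replaced by a fine chain -/
theorem exists_fine_chain {U : Set E3} {p q : E3} (h : JoinedIn U p q) {r : ℝ} (hr : 0 < r) :
    ∃ c : Ch E3, bd c = two p q ∧ All (fun a b => a ∈ U ∧ b ∈ U ∧ dist a b < r) c := by
  obtain ⟨γ, hγ⟩ := h
  have hc := isCompact_Icc.uniformContinuousOn_of_continuous
    (γ.continuous_extend.continuousOn (s := Icc 0 1))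
  obtain ⟨δ, hδ, k⟩ := Metric.uniformContinuousOn_iff.mp hc r hr
  obtain ⟨n, hn⟩ := exists_nat_one_div_lt hδ
  have hU : ∀ u, γ.extend u ∈ U := fun u => hγ _
  refine ⟨cC γ.extend (n + 1) 0 1, by rw [bd_cC _ n.succ_pos (by simp) (by simp)]; simp,
    all_cC _ n.succ_pos (by simp) (by simp) fun u v a1 _ a3 a4 a5 => ⟨hU u, hU v, ?_⟩⟩
  rw [max_eq_right zero_le_one] at a4
  refine k u ⟨a1, a3.trans a4⟩ v ⟨a1.trans a3, a4⟩ ?_
  rw [Real.dist_eq, abs_sub_comm, abs_of_nonneg (sub_nonneg.mpr a3)]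
  exact a5.trans_lt (by simpa using hn)

/-- the mesh at stage `n` -/
noncomputable def ms (n : ℕ) : ℝ := 1 / ((n : ℝ) + 1)
theorem ms_pos (n : ℕ) : 0 < ms n := by unfold ms; positivity
theorem ms_small {r : ℝ} (hr : 0 < r) : ∀ᶠ n in atTop, ms n < r :=
  tendsto_one_div_add_atTop_nhds_zero_nat.eventually (gt_mem_nhds hr)
/-- links of a discretised curve are eventually short -/
theorem eventually_fine {γ : ℝ → E3} (hγ : Continuous γ) {r : ℝ} (hr : 0 < r) :
    ∀ᶠ n : ℕ in atTop, ∀ u ∈ Icc (0:ℝ) 1, ∀ v ∈ Icc (0:ℝ) 1, |v - u| ≤ 1 / ((n + 1 : ℕ) : ℝ) →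
      dist (γ u) (γ v) < r := by
  obtain ⟨δ, hδ, k⟩ := Metric.uniformContinuousOn_iff.mp
    (isCompact_Icc.uniformContinuousOn_of_continuous (hγ.continuousOn (s := Icc 0 1))) r hr
  filter_upwards [ms_small hδ] with n hn u hu v hv h
  refine k u hu v hv ?_
  rw [Real.dist_eq, abs_sub_comm]
  exact h.trans_lt (by simpa [ms] using hn)

open Classical in
/-- limit along the hyperfilter -/
noncomputable def ulim (a : ℕ → Z2) : Z2 := if ∀ᶠ n in hyperfilter ℕ, a n = 1 then 1 else 0
theorem ulim_spec (a : ℕ → Z2) : ∀ᶠ n in hyperfilter ℕ, a n = ulim a := by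
  rw [ulim]
  split_ifs with h
  · exact h
  · exact (Ultrafilter.eventually_not.mpr h).mono fun n hn => (z2_cases _).resolve_right hn
theorem ulim_eq {a : ℕ → Z2} {c : Z2} (h : ∀ᶠ n in hyperfilter ℕ, a n = c) : ulim a = c := by
  obtain ⟨n, h1, h2⟩ := (h.and (ulim_spec a)).exists
  exact h2.symm.trans h1
theorem ulim_congr {a b : ℕ → Z2} (h : ∀ᶠ n in hyperfilter ℕ, a n = b n) : ulim a = ulim b :=
  ulim_eq ((h.and (ulim_spec b)).mono fun _ k => k.1.trans k.2)
theorem ulim_add (a b : ℕ → Z2) : ulim (fun n => a n + b n) = ulim a + ulim b :=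
  ulim_eq (((ulim_spec a).and (ulim_spec b)).mono fun _ k => by rw [k.1, k.2])
theorem hyper_of_atTop {P : ℕ → Prop} (h : ∀ᶠ n in atTop, P n) : ∀ᶠ n in hyperfilter ℕ, P n :=
  h.filter_mono Nat.hyperfilter_le_atTop

end Pool.Agent.Lib.MP_9e71a3_gt
end
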