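import Pool.Agent.Lib.MP_9e71a3_gt.Scc

-- part Pool.Agent.Lib.MP_9e71a3_gt.Conn1
section

/-! Regions, doors, connectors, plain cuts.  JOB Conn. -/

set_option autoImplicit false

namespace Pool.Agent.Lib.MP_9e71a3_gt

open Set Metric Filter Topology

namespace Str
variable {X : Type} [MetricSpace X] [CompactSpace X] [ConnectedSpace X] [Nontrivial X]
  {S : Str X} {L : Set (X × X)} {c : BC X} {y : X}

/-- minimal arcs: jumps in the non-crossing family `M` or in `F`, where the jumps in `F` can be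
recombined -/
theorem minarc {M F : Set (X × X)} (hMM : S.NC M) (hMF : ∀ f ∈ F, S.Free M f.1 f.2)
    (hrec : ∀ e ∈ F, ∀ f ∈ F, S.Cross e.1 e.2 f.1 f.2 → (e.1, f.2) ∈ F) (N : Set X)
    (St En : X → Prop) {F0 : Set (X × X)} (hF0 : F0.Finite) (hF0F : F0 ⊆ F) {x z : X}
    (hx : St x) (hz : En z) (hJ : Joined (M ∪ F0) N x z) :
    ∃ K π a b, ∃ F1 : Set (X × X), F1.Finite ∧ F1 ⊆ F ∧ IsArc (M ∪ F1) K π a b ∧ MapsTo π K N ∧
      St (π a) ∧ En (π b) ∧ S.NC (gaps K π) ∧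
      ∀ d ∈ gaps K π, d ∉ M → ¬ St d.2 ∧ ¬ En d.1 := by
  classical
  let Ad : ℕ → Prop := fun n => ∃ K π a b, IsArc (gaps K π) K π a b ∧ MapsTo π K N ∧ St (π a) ∧
    En (π b) ∧ (gaps K π \ M).Finite ∧ gaps K π \ M ⊆ F ∧ (gaps K π \ M).ncard = n
  have hex : ∃ n, Ad n := by
    obtain ⟨K, π, a, b, h1, h2, h3, h4⟩ := hJ.arc
    have h5 : gaps K π \ M ⊆ F0 := fun d hd => (h1.gaps_sub hd.1).resolve_left hd.2
    exact ⟨_, K, π, a, b, ⟨h1.toIsPath.self, h1.inj⟩, h4, h2 ▸ hx, h3 ▸ hz, hF0.subset h5,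
      h5.trans hF0F, rfl⟩
  obtain ⟨K, π, a, b, h1, h2, h3, h4, h5, h6, h7⟩ := Nat.find_spec hex
  have hmin : ∀ n, Ad n → (gaps K π \ M).ncard ≤ n := fun n hn => h7 ▸ Nat.find_min' hex hn
  have cut : ∀ s ∈ K, ∀ t ∈ K, s ≤ t → St (π s) → En (π t) → ∀ u v, Gap K u v → (π u, π v) ∉ M →
      s ≤ u ∧ v ≤ t := by
    intro s hs t ht hst c1 c2 u v hg hM
    by_contra hn
    have a1 := h1.restrict hs ht hst
    have a2 : gaps (K ∩ Icc s t) π \ M ⊆ gaps K π \ M :=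
      sdiff_subset_sdiff_left (gaps_inter_Icc_sub s t)
    refine absurd (hmin _ ⟨_, π, s, t, ⟨a1.toIsPath.self, a1.inj⟩, h2.mono_left inter_subset_left,
      c1, c2, h5.subset a2, a2.trans h6, rfl⟩) (not_le.2 (ncard_lt_ncard ⟨a2, fun h => ?_⟩ h5))
    obtain ⟨u', v', b1, b2⟩ := (h ⟨⟨u, v, hg, rfl⟩, hM⟩).1
    obtain ⟨b3, b4, b5⟩ := gap_inter_Icc.1 b1
    obtain ⟨e1, e2⟩ := Prod.mk.inj b2
    exact hn ⟨h1.inj hg.1 b3.1 e1 ▸ b4, h1.inj hg.2.1 b3.2.1 e2 ▸ b5⟩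
  have short : ∀ s t u v, Gap K s t → Gap K u v → t ≤ u → (π s, π t) ∉ M → (π u, π v) ∉ M →
      ¬ S.Cross (π s) (π t) (π u) (π v) := by
    intro s t u v g1 g2 htu m1 m2 hc
    have hsv : s < v := g1.2.2.1.trans (htu.trans_lt g2.2.2.1)
    obtain ⟨a1, a2⟩ := h1.toIsPath.shortcut g1.1 g2.2.1 hsv
    have a3 : gaps (K \ Ioo s v) π \ M ⊆
        insert (π s, π v) ((gaps K π \ M) \ {(π s, π t), (π u, π v)}) := by
      rintro _ ⟨⟨s', t', b1, rfl⟩, b2⟩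
      rcases (a2 s' t').1 b1 with ⟨rfl, rfl⟩ | ⟨b3, b4⟩
      · exact Or.inl rfl
      · refine Or.inr ⟨⟨⟨s', t', b3, rfl⟩, b2⟩, ?_⟩
        have c1 := b3.2.2.1
        have c2 := g1.2.2.1
        have c3 := g2.2.2.1
        rintro (e | e)
        · obtain ⟨e1, e2⟩ := Prod.mk.inj e
          have := h1.inj b3.1 g1.1 e1
          have := h1.inj b3.2.1 g1.2.1 e2
          rcases b4 with b4 | b4 <;> linarith
        · obtain ⟨e1, e2⟩ := Prod.mk.inj e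
          have := h1.inj b3.1 g2.1 e1
          have := h1.inj b3.2.1 g2.2.1 e2
          rcases b4 with b4 | b4 <;> linarith
    have d1 : (π s, π t) ∈ gaps K π \ M := ⟨⟨s, t, g1, rfl⟩, m1⟩
    have d2 : (π u, π v) ∈ gaps K π \ M := ⟨⟨u, v, g2, rfl⟩, m2⟩
    have a4 : ((gaps K π \ M) \ {(π s, π t), (π u, π v)}).Finite := h5.subset sdiff_subset
    have a5 := hmin _ ⟨_, π, a, b, ⟨a1.self, h1.inj.mono sdiff_subset⟩, h2.mono_left sdiff_subset,
      h3, h4, (a4.insert _).subset a3, a3.trans (insert_subset (hrec _ (h6 d1) _ (h6 d2) hc)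
        (sdiff_subset.trans h6)), rfl⟩
    have a6 := (ncard_le_ncard a3 (a4.insert _)).trans (ncard_insert_le _ _)
    have a7 := ncard_sdiff_add_ncard_of_subset
      (show {(π s, π t), (π u, π v)} ⊆ gaps K π \ M from pair_subset d1 d2) h5
    rw [ncard_pair fun e => hc.ne13 (Prod.mk.inj e).1] at a7
    omega
  refine ⟨K, π, a, b, gaps K π \ M, h5, h6, ⟨h1.toIsPath.mono' fun s t _ _ h => ?_, h1.inj⟩, h2, h3,
    h4, ?_, ?_⟩
  · rw [union_sdiff_self]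
    exact Or.inr h
  · intro d hd e he hc
    by_cases m1 : d ∈ M
    · by_cases m2 : e ∈ M
      · exact hMM d m1 e m2 hc
      · exact hMF e (h6 ⟨he, m2⟩) d m1 hc
    · by_cases m2 : e ∈ M
      · exact hMF d (h6 ⟨hd, m1⟩) e m2 hc.symm
      · obtain ⟨s, t, g1, rfl⟩ := hd
        obtain ⟨u, v, g2, rfl⟩ := he
        rcases g1.2.2.2 u g2.1 with c1 | c1
        · rcases g2.2.2.2 s g1.1 with c2 | c2
          · exact hc.ne13 (congrArg π (le_antisymm c2 c1))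
          · exact short u v s t g2 g1 c2 m2 m1 hc.symm
        · exact short s t u v g1 g2 c1 m1 m2 hc
  · rintro _ ⟨s, t, g, rfl⟩ m
    exact ⟨fun c => (cut t g.2.1 b h1.right (h1.sub g.2.1).2 c h4 s t g m).1.not_gt g.2.2.1,
      fun c => (cut a h1.left s g.1 (h1.sub g.1).1 h3 c s t g m).2.not_gt g.2.2.1⟩

/-- a region `N` of a cell, with walls `W` (ends in the closed set `Z`) and protected chords `M` -/
structure Reg (S : Str X) (L : Set (X × X)) (y : X) (c : BC X) (Z : Set X) (W M : Set (X × X))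
    (N : Set X) : Prop where
  sided : S.Sided L y c
  Zcl : IsClosed Z
  imgZ : c.img ⊆ Z
  ZP : Z ⊆ c.P
  Wtame : S.Tame L W
  Wnc : S.NC W
  gsW : c.gs ⊆ W
  WZ : ∀ d ∈ W, d.1 ∈ Z ∧ d.2 ∈ Z
  ML : M ⊆ L
  Msymm : ∀ e ∈ M, e.swap ∈ M
  MIn : ∀ e ∈ M, e.1 ∈ c.In ∨ e.2 ∈ c.In
  MW : ∀ e ∈ M, S.Free W e.1 e.2
  Nopen : IsOpen N
  NIn : N ⊆ c.In \ Z
  NM : ∀ e ∈ L, e.1 ∈ N → e ∈ M

/-- admissible extra chords -/
def Fc (S : Str X) (c : BC X) (W M : Set (X × X)) (a b : X) : Prop :=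
  S.Chord a b ∧ S.Free W a b ∧ S.Free M a b ∧ S.InsW c a b

def Rel (S : Str X) (c : BC X) (W M : Set (X × X)) (N : Set X) (x x' : X) : Prop :=
  ∃ F : Set (X × X), F.Finite ∧ (∀ f ∈ F, S.Fc c W M f.1 f.2) ∧ Joined (M ∪ F) N x x'

/-- the class of `x` has a door at the anchor `α` -/
def Touch (S : Str X) (c : BC X) (W M : Set (X × X)) (N : Set X) (x : X) (α : X × X) : Prop :=
  ∃ x', S.Rel c W M N x x' ∧ ((α.1 = α.2 ∧ Joined M (insert α.1 N) x' α.1) ∨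
    (S.Fc c W M x' α.1 ∧ S.Fc c W M x' α.2))

/-- directly adjacent anchors -/
def DA (S : Str X) (c : BC X) (W M : Set (X × X)) (α β : X × X) : Prop :=
  S.Fc c W M α.1 β.1 ∧ S.Fc c W M α.1 β.2 ∧ S.Fc c W M α.2 β.1 ∧ S.Fc c W M α.2 β.2

/-- an honest point of `Z` or a nontrivial wall -/
def Anchor (Z : Set X) (W : Set (X × X)) (α : X × X) : Prop :=
  (α.1 = α.2 ∧ α.1 ∈ Z) ∨ (α ∈ W ∧ α.1 ≠ α.2)

variable {Z N : Set X} {W M : Set (X × X)}

theorem conn_free_symm {D : Set (X × X)} {a b : X} (h : S.Free D a b) : S.Free D b a :=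
  fun d hd hc => h d hd hc.swapR
theorem conn_free_self (D : Set (X × X)) (a : X) : S.Free D a a := fun _ _ hc => hc.ne34 rfl
theorem Fc.symm {a b : X} (h : S.Fc c W M a b) : S.Fc c W M b a := by
  obtain ⟨h1, h2, h3, w, h4, h5, h6, h7⟩ := h
  exact ⟨h1.symm, conn_free_symm h2, conn_free_symm h3, w, h4, h5.trans h1, h7, h6⟩
theorem Fc.recomb {a b a' b' : X} (h : S.Fc c W M a b) (h' : S.Fc c W M a' b')
    (hsub : c.gs ⊆ W) (hc : S.Cross a b a' b') : S.Fc c W M a b' := by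
  obtain ⟨-, h2, h3, w, h4, h5, h6, h7⟩ := h
  obtain ⟨-, k2, k3, -⟩ := h'
  exact ⟨hc.swapR.chord13 S.good,
    fun d hd => hc.swapR.recomb S.good (h2 d hd) (conn_free_symm k2 d hd),
    fun d hd => hc.swapR.recomb S.good (h3 d hd) (conn_free_symm k3 d hd), w, h4, h5, h6,
    fun d hd => hc.swapR.witness S.good h5 (h6 d hd) (h7 d hd) (conn_free_symm k2 d (hsub hd))⟩
theorem Reg.fc_of_In (h : S.Reg L y c Z W M N) {a b : X} (ha : a ∈ c.In) (hch : S.Chord a b)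
    (hW : S.Free W a b) (hM : S.Free M a b) : S.Fc c W M a b :=
  ⟨hch, hW, hM, a, ha, Ord3.Chord.refl hch.1, conn_free_self _ _, fun d hd => hW d (h.gsW hd)⟩
theorem Reg.fc_of_mem (h : S.Reg L y c Z W M N) {e : X × X} (he : e ∈ M) :
    S.Fc c W M e.1 e.2 := by
  have h1 := h.sided.lam.chord e (h.ML he)
  have h2 : S.Free M e.1 e.2 := fun d hd => h.sided.lam.nc d (h.ML hd) e (h.ML he)
  rcases h.MIn e he with a | a
  · exact h.fc_of_In a h1 (h.MW e he) h2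
  · exact (h.fc_of_In a h1.symm (conn_free_symm (h.MW e he)) (conn_free_symm h2)).symm
theorem Rel.mem {x x' : X} (h : S.Rel c W M N x x') : x ∈ N ∧ x' ∈ N :=
  h.choose_spec.2.2.mem
theorem Rel.refl {x : X} (hx : x ∈ N) : S.Rel c W M N x x :=
  ⟨∅, finite_empty, by simp, Joined.refl hx⟩
theorem Reg.rel_symm (h : S.Reg L y c Z W M N) {x x' : X} (hr : S.Rel c W M N x x') :
    S.Rel c W M N x' x := by
  obtain ⟨F, h1, h2, h3⟩ := hr
  refine ⟨Prod.swap '' F, h1.image _, ?_, h3.symm'.mono le_rfl ?_⟩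
  · rintro _ ⟨f, hf, rfl⟩
    exact (h2 f hf).symm
  · rintro _ ⟨f, hf | hf, rfl⟩ - - -
    · exact Or.inl (h.Msymm f hf)
    · exact Or.inr ⟨f, hf, rfl⟩
theorem Rel.trans {x x' x'' : X} (h : S.Rel c W M N x x') (h' : S.Rel c W M N x' x'') :
    S.Rel c W M N x x'' := by
  obtain ⟨F, h1, h2, h3⟩ := h
  obtain ⟨F', k1, k2, k3⟩ := h'
  exact ⟨F ∪ F', h1.union k1, fun f hf => hf.elim (h2 f) (k2 f),
    (h3.mono le_rfl fun p hp _ _ _ => hp.imp_right Or.inl).trans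
      (k3.mono le_rfl fun p hp _ _ _ => hp.imp_right Or.inr)⟩
theorem Rel.of_fc {x x' : X} (hx : x ∈ N) (hx' : x' ∈ N) (h : S.Fc c W M x x') :
    S.Rel c W M N x x' :=
  ⟨{(x, x')}, finite_singleton _, by rintro _ rfl; exact h, Joined.single hx hx' (Or.inr rfl)⟩
theorem Touch.mem {x : X} {α : X × X} (h : S.Touch c W M N x α) : x ∈ N :=
  h.choose_spec.1.mem.1
theorem Touch.of_rel {x x' : X} {α : X × X} (h : S.Rel c W M N x x')
    (h' : S.Touch c W M N x' α) : S.Touch c W M N x α := by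
  obtain ⟨z, h1, h2⟩ := h'
  exact ⟨z, h.trans h1, h2⟩
theorem Reg.rel_loc (h : S.Reg L y c Z W M N) {x : X} (hx : x ∈ N) :
    ∀ᶠ x' in 𝓝 x, S.Rel c W M N x x' := by
  obtain ⟨ε, hε, h1⟩ := Metric.isOpen_iff.1 h.Nopen x hx
  obtain ⟨δ, hδ, h2⟩ := joined_of_lc L h.sided.lam.lc ε hε
  filter_upwards [ball_mem_nhds x hδ] with x' hx'
  exact ⟨∅, finite_empty, by simp, (h2 x x' (mem_ball'.1 hx')).mono h1
    fun p hp a _ _ => Or.inl (h.NM p hp (h1 a))⟩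
/-- points of `N` close to a point outside `N` have an honest door nearby -/
theorem Reg.door_near (h : S.Reg L y c Z W M N) {z : X} (hz : z ∉ N) {ε : ℝ} (hε : 0 < ε) :
    ∃ δ > 0, ∀ x ∈ N, dist x z < δ → ∃ v ∈ ball z ε, v ∉ N ∧ v ∈ c.P ∧
      Joined M (insert v (N ∩ ball z ε)) x v ∧ S.Touch c W M N x (v, v) := by
  obtain ⟨δ, hδ, h2⟩ := joined_of_lc L h.sided.lam.lc ε hε
  refine ⟨δ, hδ, fun x hx hxz => ?_⟩
  obtain ⟨v, a1, a2, a3⟩ := ((h2 z x (by rwa [dist_comm])).symm h.sided.lam.symm).exit h.Nopen hx hz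
  have a4 : Joined M (insert v (N ∩ ball z ε)) x v := by
    rw [inter_comm]
    refine a3.mono le_rfl fun p hp b1 b2 b3 => ?_
    rcases b1 with b1 | b1
    · exact h.Msymm _ (h.NM _ (h.sided.lam.symm p hp) (b2.resolve_left fun e => b3 (b1.trans e.symm)).2)
    · exact h.NM p hp b1.2
  have hP : ∀ u ∈ N, u ∈ c.P := fun u hu => Or.inl (h.NIn hu).1
  have hM : ∀ p ∈ M, p.1 ∈ N → p.2 ∈ c.P := fun p hp a => h.sided.mem_P_of_free (h.NIn a).1
    (h.fc_of_mem hp).1 fun d hd => h.MW p hp d (h.gsW hd)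
  refine ⟨v, a1, a2, ?_, a4, x, Rel.refl hx, Or.inl ⟨rfl, a4.mono
    (insert_subset_insert inter_subset_left) fun p hp _ _ _ => hp⟩⟩
  by_contra hv
  refine hv ((a4.eq_of_loc (· ∈ c.P) ?_ ?_) ▸ hP x hx)
  · rintro u (rfl | hu)
    · filter_upwards [nhdsWithin_le_nhds (h.sided.wf.closedP.isOpen_compl.mem_nhds hv)] with w hw
      exact propext (iff_of_false hw hv)
    · filter_upwards [nhdsWithin_le_nhds (h.Nopen.mem_nhds hu.1)] with w hw
      exact propext (iff_of_true (hP w hw) (hP u hu.1))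
  · rintro p hp (b1 | b1) (b2 | b2)
    · rw [b1, b2]
    · exact propext (iff_of_true (hM _ (h.Msymm p hp) b2.1) (hP _ b2.1))
    · exact propext (iff_of_true (hP _ b1.1) (hM _ hp b1.1))
    · exact propext (iff_of_true (hP _ b1.1) (hP _ b2.1))
/-- inheritance of the inside witness along a walk -/
theorem insW_step (hS : S.Sided L y c) {e : X × X} (he : S.Chord e.1 e.2)
    (hin : e.1 ∈ c.In ∨ e.2 ∈ c.In) (hfree : S.Free c.gs e.1 e.2) {p q : X}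
    (hp : S.Cross e.1 e.2 p q ∨ p = e.1 ∨ p = e.2) (hpq : S.Free c.gs p q) :
    S.Free c.gs p e.1 ∧ S.InsW c p e.1 := by
  have key : S.Chord e.1 p ∧ S.Free c.gs p e.1 ∧ S.Free c.gs p e.2 := by
    rcases hp with hp | rfl | rfl
    · exact ⟨hp.chord13 S.good, fun d hd => hp.symm.recomb S.good (hpq d hd) (hfree d hd),
        fun d hd => hp.symm.swapR.recomb S.good (hpq d hd) (conn_free_symm hfree d hd)⟩
    · exact ⟨Ord3.Chord.refl he.1, conn_free_self _ _, hfree⟩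
    · exact ⟨he, conn_free_symm hfree, conn_free_self _ _⟩
  refine ⟨key.2.1, ?_⟩
  rcases hin with a | a
  · exact ⟨_, a, key.1, conn_free_symm key.2.1, conn_free_self _ _⟩
  · exact ⟨_, a, he.symm.trans key.1, conn_free_symm key.2.2, conn_free_symm hfree⟩

theorem Reg.conn_door (h : S.Reg L y c Z W M N) {β : X × X} (hβ : Anchor Z W β) {g k k' q : X}
    (hg : g ∈ N) (h1 : S.Fc c W M g β.1) (h2 : S.Fc c W M g β.2) (hk : S.Fc c W M k k')
    (hq : q = β.1 ∨ q = β.2) (hc : S.Cross k k' g q) : S.Fc c W M k β.1 ∧ S.Fc c W M k β.2 := by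
  have key : ∀ q q', S.Fc c W M g q → S.Fc c W M g q' → S.Free W q q' → S.Free M q q' →
      S.Cross k k' g q → S.Fc c W M k q ∧ S.Fc c W M k q' := by
    intro q q' a1 a2 a3 a4 hc
    have b1 := hc.symm.swapL.swapR
    have b2 := a1.1.symm.trans a2.1
    have b3 : ∀ f : X × X, ¬ S.Cross f.1 f.2 q q' → ¬ S.Cross f.1 f.2 g q →
        ¬ S.Cross f.1 f.2 g q' → ¬ S.Cross f.1 f.2 k k' → ¬ S.Cross f.1 f.2 k q' :=
      fun f c1 c2 c3 c4 c5 => b1.wall S.good b2 c1 (fun e => c2 e.swapR) (fun e => c3 e.swapR)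
        (fun e => c4 e.swapR) c5.swapR
    exact ⟨hk.recomb a1 h.gsW hc, (hc.chord13 S.good).trans a2.1,
      fun f hf => b3 f (a3 f hf) (a1.2.1 f hf) (a2.2.1 f hf) (hk.2.1 f hf),
      fun f hf => b3 f (a4 f hf) (a1.2.2.1 f hf) (a2.2.2.1 f hf) (hk.2.2.1 f hf),
      g, (h.NIn hg).1, (hc.chord13 S.good).symm,
      fun f hf => hc.symm.recomb S.good (a1.2.1 f (h.gsW hf)) (hk.2.1 f (h.gsW hf)),
      fun f hf => a2.2.1 f (h.gsW hf)⟩
  have hf : S.Free W β.1 β.2 ∧ S.Free M β.1 β.2 := by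
    rcases hβ with ⟨e, -⟩ | ⟨e, -⟩
    · rw [e]
      exact ⟨conn_free_self _ _, conn_free_self _ _⟩
    · exact ⟨fun f hf => h.Wnc f hf β e, fun f hf hc => h.MW f hf β e hc.symm⟩
  rcases hq with rfl | rfl
  · exact key _ _ h1 h2 hf.1 hf.2 hc
  · exact (key _ _ h2 h1 (conn_free_symm hf.1) (conn_free_symm hf.2) hc).symm

omit [CompactSpace X] [ConnectedSpace X] [Nontrivial X] in
theorem conn_attach {R : Set (X × X)} {K : Set ℝ} {π : ℝ → X} {l r : ℝ} (h : IsPath R K π l r)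
    (hl : 0 ≤ l) (hr : r ≤ 1) {p q : X} (hp : l = 0 → p = π l) (hq : r = 1 → q = π r) :
    IsPath (gaps (K ∪ {0, 1}) (ext01 p q π)) (K ∪ {0, 1}) (ext01 p q π) 0 1 ∧
      ∀ d ∈ gaps (K ∪ {0, 1}) (ext01 p q π),
        d ∈ gaps K π ∨ (0 < l ∧ d = (p, π l)) ∨ (r < 1 ∧ d = (π r, q)) := by
  have e : EqOn (ext01 p q π) π K := by
    intro u hu
    have := h.sub hu
    simp only [ext01]
    split_ifs with a b
    · have c : l = 0 := le_antisymm (a ▸ this.1) hl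
      rw [hp c, c, a]
    · have c : r = 1 := le_antisymm hr (b ▸ this.2)
      rw [hq c, c, b]
    · rfl
  have hsub : K ∪ {0, 1} ⊆ Icc 0 1 := by
    rintro u (hu | rfl | rfl)
    · exact ⟨hl.trans (h.sub hu).1, (h.sub hu).2.trans hr⟩
    · simp
    · simp
  have hfin : ({0, 1} : Set ℝ).Finite := by simp
  refine ⟨⟨h.compact.union hfin.isCompact, by simp, by simp, hsub,
    (h.cont.congr e).union_of_isClosed (hfin.continuousOn _) h.compact.isClosed hfin.isClosed,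
    fun s t g => Or.inr ⟨s, t, g, rfl⟩⟩, ?_⟩
  rintro _ ⟨s, t, ⟨g1, g2, g3, g4⟩, rfl⟩
  have c1 := hsub g1
  have c2 := hsub g2
  have c3 := h.le
  by_cases hs : s ∈ K
  · by_cases ht : t ∈ K
    · exact Or.inl ⟨s, t, ⟨hs, ht, g3, fun u hu => g4 u (Or.inl hu)⟩, by rw [e hs, e ht]⟩
    · obtain rfl : t = 1 := ((g2.resolve_left ht).resolve_left fun a => by
        rw [a] at g3
        linarith [c1.1])
      have c4 : r < 1 := lt_of_le_of_ne hr fun a => ht (a ▸ h.right)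
      obtain rfl : s = r := le_antisymm (h.sub hs).2 ((g4 r (Or.inl h.right)).resolve_right c4.not_ge)
      exact Or.inr (Or.inr ⟨c4, by rw [e hs]; simp [ext01]⟩)
  · obtain rfl : s = 0 := ((g1.resolve_left hs).resolve_right fun a => by
      rw [show s = 1 from a] at g3
      linarith [c2.2])
    have c4 : 0 < l := lt_of_le_of_ne hl fun a => hs (a ▸ h.left)
    have c5 : t ≤ l := (g4 l (Or.inl h.left)).resolve_left c4.not_ge
    obtain rfl : t = l := by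
      rcases g2 with a | a | a
      · exact le_antisymm c5 (h.sub a).1
      · exact absurd a g3.ne'
      · exact le_antisymm c5 (by rw [show t = 1 from a]; linarith)
    exact Or.inr (Or.inl ⟨c4, by rw [e h.left]; simp [ext01]⟩)

omit [CompactSpace X] [ConnectedSpace X] [Nontrivial X] in
theorem conn_reparam {R : Set (X × X)} {K : Set ℝ} {π : ℝ → X} {a b : ℝ} (h : IsArc R K π a b)
    (hab : a < b) {l r : ℝ} (hlr : l < r) : ∃ K' π', IsArc R K' π' l r ∧ gaps K' π' = gaps K π ∧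
      π' l = π a ∧ π' r = π b ∧ ∀ N, MapsTo π K N → MapsTo π' K' N := by
  have hc : 0 < (r - l) / (b - a) := div_pos (sub_pos.2 hlr) (sub_pos.2 hab)
  have hφ : StrictMono fun u => l + (r - l) / (b - a) * (u - a) := fun u v huv => by
    simpa using mul_lt_mul_of_pos_left (sub_lt_sub_right huv a) hc
  obtain ⟨π', hπ⟩ := exists_transport (K := K) π hφ.injective.injOn
  obtain ⟨a1, a2⟩ := h.toIsPath.transport (hφ.strictMonoOn K) (by fun_prop) hπ
  have e1 := hπ a h.left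
  have e2 := hπ b h.right
  have e3 : l + (r - l) / (b - a) * (b - a) = r := by
    rw [div_mul_cancel₀ _ (sub_pos.2 hab).ne']
    ring
  simp only [sub_self, mul_zero, add_zero, e3] at a1 e1 e2
  refine ⟨_, π', ⟨a1, ?_⟩, a2, e1, e2, ?_⟩
  · rintro _ ⟨u, hu, rfl⟩ _ ⟨v, hv, rfl⟩ e
    rw [hπ u hu, hπ v hv] at e
    rw [h.inj hu hv e]
  · rintro N hN _ ⟨u, hu, rfl⟩
    rw [hπ u hu]
    exact hN hu

theorem Reg.conn_finish (h : S.Reg L y c Z W M N) {α β : X × X} (hα : Anchor Z W α)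
    (hβ : Anchor Z W β) {K : Set ℝ} {π : ℝ → X} {l r : ℝ} {F : Set (X × X)} (hF : F.Finite)
    (hFc : ∀ f ∈ F, S.Fc c W M f.1 f.2) (harc : IsArc (M ∪ F) K π l r) (hl : 0 ≤ l) (hr : r ≤ 1)
    (hl1 : l < 1) (hr0 : 0 < r) (hN : ∀ u ∈ K, u ≠ 0 → u ≠ 1 → π u ∈ N) (hnc : S.NC (gaps K π))
    (h0 : l = 0 → α.1 = π l ∧ α.2 = π l) (h1 : r = 1 → β.1 = π r ∧ β.2 = π r)
    (h0' : 0 < l → (S.Fc c W M (π l) α.1 ∧ S.Fc c W M (π l) α.2) ∧
      ∀ d ∈ gaps K π, d ∉ M → ¬ (S.Fc c W M d.2 α.1 ∧ S.Fc c W M d.2 α.2))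
    (h1' : r < 1 → (S.Fc c W M (π r) β.1 ∧ S.Fc c W M (π r) β.2) ∧
      ∀ d ∈ gaps K π, d ∉ M → ¬ (S.Fc c W M d.1 β.1 ∧ S.Fc c W M d.1 β.2))
    (hj : 0 < l → r < 1 → l = r ∨ ¬ (S.Fc c W M (π l) β.1 ∧ S.Fc c W M (π l) β.2)) :
    ∃ (KA : Set ℝ) (a : ℝ → X) (G : Set (X × X)), KA ⊆ Ioo 0 1 ∧ MapsTo a KA N ∧ InjOn a KA ∧
      S.Tame L G ∧ (∀ f ∈ G, S.Fc c W M f.1 f.2) ∧
      ∀ p q, (p = α.1 ∨ p = α.2) → (q = β.1 ∨ q = β.2) →
        IsPath G (KA ∪ {0, 1}) (ext01 p q a) 0 1 ∧ S.NC (gaps (KA ∪ {0, 1}) (ext01 p q a)) := by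
  have hg : ∀ d ∈ gaps K π, S.Fc c W M d.1 d.2 := fun d hd =>
    (harc.gaps_sub hd).elim h.fc_of_mem (hFc d)
  let G : Set (X × X) := {d | d ∈ gaps K π ∨ (0 < l ∧ (d = (α.1, π l) ∨ d = (α.2, π l))) ∨
    (r < 1 ∧ (d = (π r, β.1) ∨ d = (π r, β.2)))}
  have hG : ∀ f ∈ G, S.Fc c W M f.1 f.2 := by
    rintro f (a | ⟨a, rfl | rfl⟩ | ⟨a, rfl | rfl⟩)
    · exact hg f a
    · exact (h0' a).1.1.symm
    · exact (h0' a).1.2.symm
    · exact (h1' a).1.1
    · exact (h1' a).1.2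
  refine ⟨K \ {0, 1}, π, G, fun u hu => ?_, fun u hu => hN u hu.1 (fun e => hu.2 (Or.inl e))
    fun e => hu.2 (Or.inr e), harc.inj.mono sdiff_subset, ⟨fun f hf => (hG f hf).1, ?_⟩, hG,
    fun p q hp hq => ?_⟩
  · exact ⟨lt_of_le_of_ne (hl.trans (harc.sub hu.1).1) fun e => hu.2 (Or.inl e.symm),
      lt_of_le_of_ne ((harc.sub hu.1).2.trans hr) fun e => hu.2 (Or.inr e)⟩
  · refine (hF.union (show ({(α.1, π l), (α.2, π l), (π r, β.1), (π r, β.2)} :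
      Set (X × X)).Finite by simp)).subset ?_
    rintro f ⟨a | ⟨-, rfl | rfl⟩ | ⟨-, rfl | rfl⟩, b⟩
    · exact Or.inl ((harc.gaps_sub a).resolve_left fun e => b (h.ML e))
    all_goals simp
  rw [sdiff_union_self]
  obtain ⟨a1, a2⟩ := conn_attach harc.toIsPath hl hr (p := p) (q := q)
    (fun e => hp.elim (·.trans (h0 e).1) (·.trans (h0 e).2))
    (fun e => hq.elim (·.trans (h1 e).1) (·.trans (h1 e).2))
  have b1 : 0 < l → ∀ d ∈ gaps K π, ¬ S.Cross d.1 d.2 p (π l) := fun a d hd hc => by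
    by_cases m : d ∈ M
    · rcases hp with rfl | rfl
      · exact (h0' a).1.1.2.2.1 d m hc.swapR
      · exact (h0' a).1.2.2.2.1 d m hc.swapR
    · exact (h0' a).2 d hd m (h.conn_door hα (hN l harc.left a.ne' hl1.ne) (h0' a).1.1 (h0' a).1.2
        (hg d hd).symm hp hc.swapL.swapR)
  have b2 : r < 1 → ∀ d ∈ gaps K π, ¬ S.Cross d.1 d.2 (π r) q := fun a d hd hc => by
    by_cases m : d ∈ M
    · rcases hq with rfl | rfl
      · exact (h1' a).1.1.2.2.1 d m hc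
      · exact (h1' a).1.2.2.2.1 d m hc
    · exact (h1' a).2 d hd m (h.conn_door hβ (hN r harc.right hr0.ne' a.ne) (h1' a).1.1 (h1' a).1.2
        (hg d hd) hq hc)
  have b3 : 0 < l → r < 1 → ¬ S.Cross p (π l) (π r) q := fun a a' hc => by
    rcases hj a a' with e | e
    · exact hc.ne23 (congrArg π e)
    · refine e (h.conn_door hβ (hN r harc.right hr0.ne' a'.ne) (h1' a').1.1 (h1' a').1.2
        (k' := p) ?_ hq hc.swapL)
      rcases hp with rfl | rfl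
      · exact (h0' a).1.1
      · exact (h0' a).1.2
  refine ⟨a1.mono' fun s t _ _ hd => ?_, fun d hd e he hc => ?_⟩
  · rcases a2 _ hd with a | ⟨a, e⟩ | ⟨a, e⟩
    · exact Or.inl a
    · exact Or.inr (Or.inl ⟨a, hp.imp (fun x => by rw [e, x]) fun x => by rw [e, x]⟩)
    · exact Or.inr (Or.inr ⟨a, hq.imp (fun x => by rw [e, x]) fun x => by rw [e, x]⟩)
  · rcases a2 d hd with a | ⟨a, rfl⟩ | ⟨a, rfl⟩ <;> rcases a2 e he with b | ⟨b, rfl⟩ | ⟨b, rfl⟩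
    · exact hnc d a e b hc
    · exact b1 b d a hc
    · exact b2 b d a hc
    · exact b1 a e b hc.symm
    · exact hc.ne13 rfl
    · exact b3 a b hc
    · exact b2 a e b hc.symm
    · exact b3 b a hc.symm
    · exact hc.ne13 rfl

/-- normal form of a connection between two anchors -/
theorem Reg.norm (h : S.Reg L y c Z W M N) {α β : X × X} (hα : Anchor Z W α) (hβ : Anchor Z W β)
    (h1 : α.1 = α.2 → α.1 ≠ β.1 ∧ α.1 ≠ β.2) (h2 : β.1 = β.2 → β.1 ≠ α.1 ∧ β.1 ≠ α.2)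
    (hc : (∃ x, S.Touch c W M N x α ∧ S.Touch c W M N x β) ∨ S.DA c W M α β) :
    ∃ (KA : Set ℝ) (a : ℝ → X) (G : Set (X × X)), KA ⊆ Ioo 0 1 ∧ MapsTo a KA N ∧ InjOn a KA ∧
      S.Tame L G ∧ (∀ f ∈ G, S.Fc c W M f.1 f.2) ∧
      ∀ p q, (p = α.1 ∨ p = α.2) → (q = β.1 ∨ q = β.2) →
        IsPath G (KA ∪ {0, 1}) (ext01 p q a) 0 1 ∧ S.NC (gaps (KA ∪ {0, 1}) (ext01 p q a)) := by
  by_cases hD : S.DA c W M α β
  · have hG : ∀ f ∈ ({(α.1, β.1), (α.1, β.2), (α.2, β.1), (α.2, β.2)} : Set (X × X)),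
        S.Fc c W M f.1 f.2 := by
      rintro _ (rfl | rfl | rfl | rfl)
      exacts [hD.1, hD.2.1, hD.2.2.1, hD.2.2.2]
    refine ⟨∅, fun _ => y, _, empty_subset _, mapsTo_empty _ _, injOn_empty _,
      ⟨fun f hf => (hG f hf).1, Finite.subset (by simp) sdiff_subset⟩, hG, fun p q hp hq => ?_⟩
    have e : ∀ s t, Gap (∅ ∪ {0, 1}) s t →
        (ext01 p q (fun _ => y) s, ext01 p q (fun _ => y) t) = (p, q) := by
      rintro s t ⟨g1, g2, g3, -⟩
      simp only [empty_union, mem_insert_iff, mem_singleton_iff] at g1 g2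
      rcases g1 with rfl | rfl <;> rcases g2 with rfl | rfl
      · exact absurd g3 (lt_irrefl _)
      · simp [ext01]
      · exact absurd g3 (by norm_num)
      · exact absurd g3 (lt_irrefl _)
    have hfin : (∅ ∪ {0, 1} : Set ℝ).Finite := by simp
    refine ⟨⟨hfin.isCompact, by simp, by simp, ?_, hfin.continuousOn _, fun s t g => Or.inr ?_⟩, ?_⟩
    · rintro u (hu | rfl | rfl)
      · exact hu.elim
      · simp
      · simp
    · rw [e s t g]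
      rcases hp with rfl | rfl <;> rcases hq with rfl | rfl <;> simp
    · rintro _ ⟨s, t, g, rfl⟩ _ ⟨u, v, g', rfl⟩ hc
      rw [e s t g, e u v g'] at hc
      exact hc.ne13 rfl
  obtain ⟨x, ⟨x1, r1, d1⟩, x2, r2, d2⟩ := hc.resolve_right hD
  obtain ⟨F0, f1, f2, f3⟩ := (h.rel_symm r1).trans r2
  have mn := @minarc X _ _ _ _ S M {f | S.Fc c W M f.1 f.2}
    (fun d hd e he => h.sided.lam.nc d (h.ML hd) e (h.ML he)) (fun f hf => hf.2.2.1)
    fun e he f hf hc => Fc.recomb he hf h.gsW hc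
  have up : ∀ {N1 N2 : Set X} {u v : X}, Joined M N1 u v → N1 ⊆ N2 → Joined (M ∪ F0) N2 u v :=
    fun a b => a.mono b fun p hp _ _ _ => Or.inl hp
  rcases d1 with ⟨e1, d1⟩ | d1 <;> rcases d2 with ⟨e2, d2⟩ | d2
  · obtain ⟨K, π, a, b, F, a1, a2, a3, a4, a5, a6, a7, -⟩ :=
      mn (insert α.1 (insert β.1 N)) (· = α.1) (· = β.1) f1 f2 rfl rfl
        (((up (d1.symm h.Msymm) (insert_subset_insert (subset_insert _ _))).trans
          (f3.mono ((subset_insert _ _).trans (subset_insert _ _)) fun _ hp _ _ _ => hp)).trans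
          (up d2 (subset_insert _ _)))
    obtain ⟨K', π', b1, b2, b3, b4, b5⟩ := conn_reparam a3 (lt_of_le_of_ne a3.toIsPath.le
      fun e => (h1 e1).1 (a5.symm.trans (e ▸ a6))) zero_lt_one
    refine h.conn_finish hα hβ a1 a2 b1 le_rfl le_rfl zero_lt_one zero_lt_one (fun u hu c1 c2 => ?_)
      (b2 ▸ a7) (fun _ => by rw [← e1, b3, a5]; exact ⟨rfl, rfl⟩)
      (fun _ => by rw [← e2, b4, a6]; exact ⟨rfl, rfl⟩) (fun c => (lt_irrefl _ c).elim)
      (fun c => (lt_irrefl _ c).elim) fun c => (lt_irrefl _ c).elim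
    exact ((b5 _ a4 hu).resolve_left fun e => c1 (b1.inj hu b1.left (e.trans (b3.trans a5).symm))
      ).resolve_left fun e => c2 (b1.inj hu b1.right (e.trans (b4.trans a6).symm))
  · obtain ⟨K, π, a, b, F, a1, a2, a3, a4, a5, a6, a7, a8⟩ :=
      mn (insert α.1 N) (· = α.1) (fun u => S.Fc c W M u β.1 ∧ S.Fc c W M u β.2) f1 f2 rfl d2
        ((up (d1.symm h.Msymm) le_rfl).trans (f3.mono (subset_insert _ _) fun _ hp _ _ _ => hp))
    obtain ⟨K', π', b1, b2, b3, b4, b5⟩ := conn_reparam a3 (lt_of_le_of_ne a3.toIsPath.le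
      fun e => hD (by
        rw [← e, a5] at a6
        exact ⟨a6.1, a6.2, e1 ▸ a6.1, e1 ▸ a6.2⟩)) (show (0 : ℝ) < 2 / 3 by norm_num)
    exact h.conn_finish hα hβ a1 a2 b1 le_rfl (by norm_num) zero_lt_one (by norm_num)
      (fun u hu c1 _ => (b5 _ a4 hu).resolve_left
        fun e => c1 (b1.inj hu b1.left (e.trans (b3.trans a5).symm)))
      (b2 ▸ a7) (fun _ => by rw [← e1, b3, a5]; exact ⟨rfl, rfl⟩) (fun c => absurd c (by norm_num))
      (fun c => (lt_irrefl _ c).elim) (fun _ => ⟨b4 ▸ a6, fun d hd m => (a8 d (b2 ▸ hd) m).2⟩)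
      fun c => (lt_irrefl _ c).elim
  · obtain ⟨K, π, a, b, F, a1, a2, a3, a4, a5, a6, a7, a8⟩ :=
      mn (insert β.1 N) (fun u => S.Fc c W M u α.1 ∧ S.Fc c W M u α.2) (· = β.1) f1 f2 d1 rfl
        ((f3.mono (subset_insert _ _) fun _ hp _ _ _ => hp).trans (up d2 le_rfl))
    obtain ⟨K', π', b1, b2, b3, b4, b5⟩ := conn_reparam a3 (lt_of_le_of_ne a3.toIsPath.le
      fun e => hD (by
        rw [e, a6] at a5
        exact ⟨a5.1.symm, e2 ▸ a5.1.symm, a5.2.symm, e2 ▸ a5.2.symm⟩))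
      (show (1 / 3 : ℝ) < 1 by norm_num)
    exact h.conn_finish hα hβ a1 a2 b1 (by norm_num) le_rfl (by norm_num) zero_lt_one
      (fun u hu _ c2 => (b5 _ a4 hu).resolve_left
        fun e => c2 (b1.inj hu b1.right (e.trans (b4.trans a6).symm)))
      (b2 ▸ a7) (fun c => absurd c (by norm_num)) (fun _ => by rw [← e2, b4, a6]; exact ⟨rfl, rfl⟩)
      (fun _ => ⟨b3 ▸ a5, fun d hd m => (a8 d (b2 ▸ hd) m).1⟩) (fun c => (lt_irrefl _ c).elim)
      fun _ c => (lt_irrefl _ c).elim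
  · obtain ⟨K, π, a, b, F, a1, a2, a3, a4, a5, a6, a7, a8⟩ :=
      mn N (fun u => S.Fc c W M u α.1 ∧ S.Fc c W M u α.2)
        (fun u => S.Fc c W M u β.1 ∧ S.Fc c W M u β.2) f1 f2 d1 d2 f3
    by_cases hE : S.Fc c W M (π a) β.1 ∧ S.Fc c W M (π a) β.2
    · have e : ∀ d, d ∉ gaps {(1 / 2 : ℝ)} fun _ => π a := by
        rintro _ ⟨s, t, g, rfl⟩
        exact g.2.2.1.ne (g.1.trans g.2.1.symm)
      exact h.conn_finish hα hβ a1 a2 (isPath_single (π a) (1 / 2)) (by norm_num) (by norm_num)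
        (by norm_num) (by norm_num) (fun _ _ _ _ => a4 a3.left) (fun d hd => (e d hd).elim)
        (fun c => absurd c (by norm_num)) (fun c => absurd c (by norm_num))
        (fun _ => ⟨a5, fun d hd => (e d hd).elim⟩) (fun _ => ⟨hE, fun d hd => (e d hd).elim⟩)
        fun _ _ => Or.inl rfl
    · obtain ⟨K', π', b1, b2, b3, b4, b5⟩ := conn_reparam a3 (lt_of_le_of_ne a3.toIsPath.le
        fun e => hE (e ▸ a6)) (show (1 / 3 : ℝ) < 2 / 3 by norm_num)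
      exact h.conn_finish hα hβ a1 a2 b1 (by norm_num) (by norm_num) (by norm_num) (by norm_num)
        (fun u hu _ _ => b5 _ a4 hu) (b2 ▸ a7) (fun c => absurd c (by norm_num))
        (fun c => absurd c (by norm_num)) (fun _ => ⟨b3 ▸ a5, fun d hd m => (a8 d (b2 ▸ hd) m).1⟩)
        (fun _ => ⟨b4 ▸ a6, fun d hd m => (a8 d (b2 ▸ hd) m).2⟩) fun _ _ => Or.inr (b3 ▸ hE)

end Str

end Pool.Agent.Lib.MP_9e71a3_gt
end

-- part Pool.Agent.Lib.MP_9e71a3_gt.Conn2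
section

/-! Two windows, access from the outside.  JOB Conn (part 2). -/

set_option autoImplicit false

namespace Pool.Agent.Lib.MP_9e71a3_gt

open Set Metric Filter Topology

theorem c2_ind {p q : Prop} [Decidable p] [Decidable q] (h : p ↔ q) :
    (if p then (1 : Z2) else 0) = if q then 1 else 0 := by simp only [h]

theorem c2_ball {X : Type} [MetricSpace X] {C Z V : Set X} (hC : IsClosed C) {z : X} (hz : z ∉ C)
    (h : Z ⊆ C ∪ V) : ∃ ρ > 0, ball z ρ ∩ Z ⊆ V := by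
  obtain ⟨ρ, hρ, h1⟩ := Metric.isOpen_iff.1 hC.isOpen_compl z hz
  exact ⟨ρ, hρ, fun w hw => (h hw.2).resolve_left (h1 hw.1)⟩

namespace Str
variable {X : Type} [MetricSpace X] [CompactSpace X] [ConnectedSpace X] [Nontrivial X]
  {S : Str X} {L : Set (X × X)} {c : BC X} {y : X} {Z N : Set X} {W M : Set (X × X)}

omit [CompactSpace X] [ConnectedSpace X] [Nontrivial X] in
theorem c2_free_swap {D : Set (X × X)} {a b : X} (h : S.Free D a b) : S.Free D b a :=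
  fun d hd hc => h d hd hc.swapR

omit [CompactSpace X] [ConnectedSpace X] [Nontrivial X] in
theorem c2_free_self (D : Set (X × X)) (a : X) : S.Free D a a := fun _ _ hc => hc.ne34 rfl

omit [CompactSpace X] [ConnectedSpace X] [Nontrivial X] in
theorem c2_insW_symm {a b : X} (hab : S.Chord a b) (h : S.InsW c a b) : S.InsW c b a := by
  obtain ⟨w, h1, h2, h3, h4⟩ := h
  exact ⟨w, h1, h2.trans hab, h4, h3⟩

omit [CompactSpace X] [ConnectedSpace X] [Nontrivial X] in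
theorem c2_insW_In {a b : X} (ha : a ∈ c.In) (hab : S.Chord a b) (h : S.Free c.gs a b) :
    S.InsW c a b := ⟨a, ha, .refl hab.1, c2_free_self _ _, h⟩

omit [CompactSpace X] [ConnectedSpace X] [Nontrivial X] in
theorem c2_tame_single {a b : X} (h : S.Chord a b) : S.Tame L {(a, b)} :=
  ⟨by rintro _ rfl; exact h, (finite_singleton _).subset sdiff_subset⟩

theorem c2_da_symm {α β : X × X} (h : S.DA c W M α β) : S.DA c W M β α :=
  ⟨h.1.symm, h.2.2.1.symm, h.2.1.symm, h.2.2.2.symm⟩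

omit [ConnectedSpace X] [Nontrivial X] in
/-- the nearest gap seen from a point off the curve, along a chord crossed by a gap -/
theorem c2_nearest (hL : S.Lam L) (h : S.IsScc L c) {g g' : X} (hg : g ∉ c.img)
    (hn : ¬ S.Free c.gs g g') : ∃ d ∈ c.gs, S.Cross d.1 d.2 g g' ∧ S.Free c.gs g d.1 ∧
      S.Free c.gs g d.2 := by
  simp only [Free, not_forall, not_not] at hn
  obtain ⟨d0, hd0, hc⟩ := hn
  obtain ⟨d, hd, -, -, h1, h2, h3⟩ := nearest hL h.tame h.nc h.img_compact.isClosed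
    (fun d hd => h.gs_mem hd) hg hd0 hc.ne12 (hc.chord13 S.good).symm
  refine ⟨d, hd, ?_, h1, h2⟩
  rcases h3 with rfl | h3 | h3
  · exact hc
  · exact hc.beyond S.good h3 (h.nc d hd d0 hd0)
  · exact hc.swapL.beyond S.good h3 fun h' => h.nc d hd d0 hd0 h'.swapR

/-- two windows: an interior window `V1` and a boundary window `V0`, `A0` -/
theorem Reg.twowin (h : S.Reg L y c Z W M N) (hN : N = c.In \ Z) {Y V0 V1 : Set X}
    {D W1 A0 : Set (X × X)} (hY : IsClosed Y) (hZ : Z = Y ∪ V0 ∪ V1) (hV0 : Disjoint V0 Y)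
    (hV1 : Disjoint V1 Y) (hV0img : V0 ⊆ c.img) (hV1In : V1 ⊆ c.In) (hne : V1.Nonempty)
    (hop0 : ∀ z ∈ V0, ∃ ρ > 0, ball z ρ ∩ Z ⊆ V0) (hop1 : ∀ z ∈ V1, ∃ ρ > 0, ball z ρ ∩ Z ⊆ V1)
    (hDW : D ⊆ W) (hDY : ∀ d ∈ D, d.1 ∈ Y ∧ d.2 ∈ Y) (hP : S.Pot Y D) (hW1 : W1 ⊆ W)
    (hW1V : ∀ d ∈ W1, d.1 ∈ V1 ∨ d.2 ∈ V1) (hW : W ⊆ D ∪ c.gs ∪ W1)
    (hgs : ∀ d ∈ c.gs, d ∈ D ∨ d ∈ A0) (hA0 : ∀ z ∈ V0, (z, z) ∈ A0)
    (hM : ∀ e ∈ M, e.1 ∉ Y ∨ e.2 ∉ Y) :
    ∃ z ∈ V1, ∃ β ∈ A0, ((β.1 = β.2 ∧ β.1 ∈ V0) ∨ (β ∈ c.gs ∧ β.1 ≠ β.2)) ∧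
      ((∃ x, S.Touch c W M N x (z, z) ∧ S.Touch c W M N x β) ∨ S.DA c W M (z, z) β) := by
  classical
  by_contra hcon
  have no : ∀ z ∈ V1, ∀ β ∈ A0, ((β.1 = β.2 ∧ β.1 ∈ V0) ∨ (β ∈ c.gs ∧ β.1 ≠ β.2)) →
      ¬ ((∃ x, S.Touch c W M N x (z, z) ∧ S.Touch c W M N x β) ∨ S.DA c W M (z, z) β) :=
    fun z hz β hβ h1 h2 => hcon ⟨z, hz, β, hβ, h1, h2⟩
  have hS := h.sided
  have hL := hS.lam
  have wf := hS.wf
  let Q : X → Prop := fun x => x ∈ V1 ∨ ∃ z ∈ V1, S.Touch c W M N x (z, z)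
  have hV1Z : V1 ⊆ Z := hZ ▸ subset_union_right
  have hYZ : Y ⊆ Z := hZ ▸ subset_union_left.trans subset_union_left
  have QIn : ∀ x, Q x → x ∈ c.In := fun x hx =>
    hx.elim (fun h' => hV1In h') fun ⟨_, _, h'⟩ => (h.NIn h'.mem).1
  have PZ : ∀ x ∈ c.P, x ∉ N → x ∈ Z := fun x hx hn =>
    hx.elim (fun h' => by_contra fun h'' => hn (hN ▸ ⟨h', h''⟩)) fun h' => h.imgZ h'
  have ZV : ∀ x ∈ Z, x ∉ Y → x ∈ V0 ∨ x ∈ V1 := fun x hx hn => by
    rw [hZ] at hx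
    exact hx.imp (fun h' => h'.resolve_left hn) id
  have Qrel : ∀ x x', S.Rel c W M N x' x → Q x → Q x' := fun x x' hr hx =>
    hx.elim (fun h' => ((h.NIn hr.mem.2).2 (hV1Z h')).elim) fun ⟨z, hz, h'⟩ =>
      Or.inr ⟨z, hz, Touch.of_rel hr h'⟩
  have loc : ∀ x ∉ Y, ∀ᶠ x' in 𝓝 x, (Q x' ↔ Q x) := by
    intro x hx
    by_cases c1 : x ∈ c.P
    swap
    · filter_upwards [wf.closedP.isOpen_compl.mem_nhds c1] with x' hx'
      exact iff_of_false (fun h' => hx' (Or.inl (QIn _ h'))) fun h' => c1 (Or.inl (QIn _ h'))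
    by_cases c2 : x ∈ N
    · filter_upwards [h.rel_loc c2] with x' hx'
      exact ⟨Qrel _ _ hx', Qrel _ _ (h.rel_symm hx')⟩
    rcases ZV x (PZ x c1 c2) hx with c3 | c3
    · obtain ⟨ρ, hρ, h1⟩ := hop0 x c3
      obtain ⟨δ, hδ, h2⟩ := h.door_near c2 hρ
      filter_upwards [ball_mem_nhds x hρ, ball_mem_nhds x hδ] with x' a1 a2
      refine iff_of_false ?_ fun h' => wf.disj.le_bot ⟨QIn _ h', hV0img c3⟩
      rintro (h' | ⟨z, hz, h'⟩)
      · exact wf.disj.le_bot ⟨hV1In h', hV0img (h1 ⟨a1, hV1Z h'⟩)⟩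
      · obtain ⟨v, b1, b2, b3, -, b4⟩ := h2 x' h'.mem a2
        have b5 := h1 ⟨b1, PZ v b3 b2⟩
        exact no z hz _ (hA0 v b5) (Or.inl ⟨rfl, b5⟩) (Or.inl ⟨x', h', b4⟩)
    · obtain ⟨ρ, hρ, h1⟩ := hop1 x c3
      obtain ⟨δ, hδ, h2⟩ := h.door_near c2 hρ
      filter_upwards [ball_mem_nhds x hρ, ball_mem_nhds x hδ,
        hS.isOpen_In.mem_nhds (hV1In c3)] with x' a1 a2 a3
      refine iff_of_true ?_ (Or.inl c3)
      by_cases c4 : x' ∈ N
      · obtain ⟨v, b1, b2, b3, -, b4⟩ := h2 x' c4 a2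
        exact Or.inr ⟨v, h1 ⟨b1, PZ v b3 b2⟩, b4⟩
      · exact Or.inl (h1 ⟨a1, PZ x' (Or.inl a3) c4⟩)
  let M' := M ∪ W1 ∪ Prod.swap '' W1
  have tM : S.Tame L M' := ((hL.tame h.ML).union (h.Wtame.mono hW1)).union
    ((h.Wtame.mono hW1).swap hL)
  have fW : ∀ e ∈ M', S.Free W e.1 e.2 := by
    rintro e ((he | he) | ⟨e, he, rfl⟩)
    · exact h.MW e he
    · exact fun d hd => h.Wnc d hd e (hW1 he)
    · exact fun d hd hc => h.Wnc d hd e (hW1 he) hc.swapR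
  have ncM : S.NC M' := by
    rintro d ((hd | hd) | ⟨d, hd, rfl⟩) e he
    · rcases he with (he | he) | ⟨e, he, rfl⟩
      · exact hL.nc d (h.ML hd) e (h.ML he)
      · exact fun hc => h.MW d hd e (hW1 he) hc.symm
      · exact fun hc => h.MW d hd e (hW1 he) hc.symm.swapL
    · exact fW e he d (hW1 hd)
    · exact fun hc => fW e he d (hW1 hd) hc.swapL
  have inM : ∀ e ∈ M', e.1 ∈ c.In ∨ e.2 ∈ c.In := by
    rintro e ((he | he) | ⟨e, he, rfl⟩)
    · exact h.MIn e he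
    · exact (hW1V e he).imp (fun h' => hV1In h') fun h' => hV1In h'
    · exact (hW1V e he).symm.imp (fun h' => hV1In h') fun h' => hV1In h'
  have ΓM : ∀ e ∈ M', e.1 ∈ c.P \ Y ∨ e.2 ∈ c.P \ Y := by
    have hv : ∀ x ∈ V1, x ∈ c.P \ Y := fun x hx => ⟨Or.inl (hV1In hx), hV1.notMem_of_mem_left hx⟩
    rintro e ((he | he) | ⟨e, he, rfl⟩)
    · have f : S.Free c.gs e.1 e.2 := fun d hd => h.MW e he d (h.gsW hd)
      have ch := hL.chord e (h.ML he)
      have : e.1 ∈ c.P ∧ e.2 ∈ c.P := (h.MIn e he).elim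
        (fun h' => ⟨Or.inl h', hS.mem_P_of_free h' ch f⟩)
        fun h' => ⟨hS.mem_P_of_free h' ch.symm (c2_free_swap f), Or.inl h'⟩
      exact (hM e he).imp (fun h' => ⟨this.1, h'⟩) fun h' => ⟨this.2, h'⟩
    · exact (hW1V e he).imp (hv _) (hv _)
    · exact (hW1V e he).symm.imp (hv _) (hv _)
  let good : X × X → Prop := fun α =>
    (α.1 = α.2 ∧ α.1 ∈ c.P \ Y) ∨ (α ∈ A0 ∧ α ∈ c.gs ∧ α.1 ≠ α.2)
  let T : X → X → Prop := fun p q =>
    S.Chord p q ∧ S.Free c.gs p q ∧ S.Free D p q ∧ S.InsW c p q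
  have Tsymm : ∀ p q, T p q → T q p := fun p q t =>
    ⟨t.1.symm, c2_free_swap t.2.1, c2_free_swap t.2.2.1, c2_insW_symm t.1 t.2.2.2⟩
  let Ok : X × X → X × X → Prop := fun α β => good α ∧ good β ∧
    ∀ p, (p = α.1 ∨ p = α.2) → ∀ q, (q = β.1 ∨ q = β.2) → T p q
  have Oksymm : ∀ α β, Ok α β → Ok β α := fun α β o =>
    ⟨o.2.1, o.1, fun p hp q hq => Tsymm _ _ (o.2.2 q hq p hp)⟩
  have gfree : ∀ α, good α → S.Free M' α.1 α.2 := by
    rintro α (g | g)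
    · rw [← g.1]; exact c2_free_self _ _
    · exact fun e he hc => fW e he α (h.gsW g.2.1) hc.symm
  have half : ∀ α β, Ok α β → ∀ e ∈ M', e.1 ∈ c.P \ Y → ∀ p0, (p0 = α.1 ∨ p0 = α.2) →
      ∀ q0, (q0 = β.1 ∨ q0 = β.2) → S.Cross e.1 e.2 p0 q0 → Ok α (e.1, e.1) := by
    intro α β o e he hΓ p0 hp0 q0 hq0 hc
    refine ⟨o.1, Or.inl ⟨rfl, hΓ⟩, fun p hp q hq => ?_⟩
    obtain rfl : q = e.1 := hq.elim id id
    have t := o.2.2 p hp q0 hq0
    have nc : ¬ S.Cross e.1 e.2 p p0 := by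
      have f := gfree α o.1 e he
      rcases hp with rfl | rfl <;> rcases hp0 with rfl | rfl
      · exact fun h' => h'.ne34 rfl
      · exact f
      · exact fun h' => f h'.swapR
      · exact fun h' => h'.ne34 rfl
    have tri : S.Cross e.1 e.2 p q0 ∨ p = e.1 ∨ p = e.2 := by
      by_contra hn
      push Not at hn
      exact (hc.tri S.good (t.1.trans hc.2.1.symm) hn.2.1 hn.2.2).elim nc hn.1
    have i := insW_step hS hc.1 (inM e he) (fun d hd => fW e he d (h.gsW hd)) tri t.2.1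
    refine ⟨t.1.trans (hc.2.1.symm.trans (hc.chord13 S.good).symm), i.1, fun f hf => ?_, i.2⟩
    rcases tri with h' | h' | h'
    · exact h'.symm.recomb S.good (t.2.2.1 f hf) (fW e he f (hDW hf))
    · exact fun h'' => h''.ne34 h'
    · rw [h']
      exact fun h'' => fW e he f (hDW hf) h''.swapR
  let ν : X × X → Z2 := fun α => if α.1 = α.2 ∧ Q α.1 then 1 else 0
  have da : ∀ α β, good β → S.DA c W M α β → α.1 = α.2 ∧ Q α.1 → β.1 = β.2 ∧ Q β.1 := by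
    rintro ⟨a, a'⟩ β g d ⟨rfl : a = a', q⟩
    have bad : β ∈ A0 → ((β.1 = β.2 ∧ β.1 ∈ V0) ∨ (β ∈ c.gs ∧ β.1 ≠ β.2)) → False := by
      intro b1 b2
      rcases q with q | ⟨z, hz, q⟩
      · exact no a q β b1 b2 (Or.inr d)
      · exact no z hz β b1 b2 (Or.inl ⟨a, q, a, Rel.refl q.mem, Or.inr ⟨d.1, d.2.1⟩⟩)
    rcases g with g | g
    swap
    · exact (bad g.1 (Or.inr g.2)).elim
    refine ⟨g.1, ?_⟩
    by_cases c1 : β.1 ∈ N
    · rcases id q with q' | ⟨z, hz, q'⟩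
      · exact Or.inr ⟨a, q', β.1, Rel.refl c1, Or.inr ⟨d.1.symm, d.1.symm⟩⟩
      · exact Qrel _ _ (Rel.of_fc c1 q'.mem d.1.symm) q
    rcases ZV _ (PZ _ g.2.1 c1) g.2.2 with c2 | c2
    · refine (bad ?_ (Or.inl ⟨g.1, c2⟩)).elim
      have := hA0 _ c2
      rwa [show (β.1, β.1) = β from Prod.ext rfl g.1] at this
    · exact Or.inl c2
  have H4 : ∀ α, good α → α.1 = α.2 → ∃ ρ > 0, ∀ k ∈ c.P \ Y, k ∈ ball α.1 ρ → ν (k, k) = ν α := by
    intro α g e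
    obtain ⟨ρ, hρ, h1⟩ := Metric.eventually_nhds_iff_ball.1
      (loc α.1 (g.elim (fun g => g.2.2) fun g => (g.2.2 e).elim))
    exact ⟨ρ, hρ, fun k _ hk => c2_ind (by simp only [e.symm, true_and]; exact h1 k hk)⟩
  have wk := walk hL tM ncM (by
      rintro e ((he | he) | ⟨e, he, rfl⟩)
      · exact Or.inl (Or.inl (h.Msymm e he))
      · exact Or.inr ⟨e, he, rfl⟩
      · exact Or.inl (Or.inr he)) (c.P \ Y) ν Ok
    (fun α β o => ⟨(o.2.2 _ (Or.inl rfl) _ (Or.inl rfl)).1.trans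
      (o.2.2 _ (Or.inr rfl) _ (Or.inl rfl)).1.symm, (o.2.2 _ (Or.inl rfl) _ (Or.inl rfl)).1.symm.trans
      (o.2.2 _ (Or.inl rfl) _ (Or.inr rfl)).1, (o.2.2 _ (Or.inl rfl) _ (Or.inl rfl)).1,
      gfree α o.1, gfree β o.2.1⟩)
    (fun _ _ _ e he _ => ΓM e he)
    (fun α β o e he hs hΓ => by
      obtain ⟨p0, hp0, q0, hq0, hc⟩ : ∃ p0, (p0 = α.1 ∨ p0 = α.2) ∧ ∃ q0, (q0 = β.1 ∨ q0 = β.2) ∧
          S.Cross e.1 e.2 p0 q0 := by
        rcases hs with hs | hs | hs | hs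
        · exact ⟨_, Or.inl rfl, _, Or.inl rfl, hs⟩
        · exact ⟨_, Or.inl rfl, _, Or.inr rfl, hs⟩
        · exact ⟨_, Or.inr rfl, _, Or.inl rfl, hs⟩
        · exact ⟨_, Or.inr rfl, _, Or.inr rfl, hs⟩
      exact ⟨half α β o e he hΓ p0 hp0 q0 hq0 hc,
        Oksymm _ _ (half β α (Oksymm _ _ o) e he hΓ q0 hq0 p0 hp0 hc.swapR)⟩)
    (fun α β o hs => by
      have fc : ∀ p, (p = α.1 ∨ p = α.2) → ∀ q, (q = β.1 ∨ q = β.2) → S.Fc c W M p q := by
        intro p hp q hq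
        have t := o.2.2 p hp q hq
        have f : S.Free M' p q := fun e he hc => hs e he (by
          rcases hp with rfl | rfl <;> rcases hq with rfl | rfl
          · exact Or.inl hc
          · exact Or.inr (Or.inl hc)
          · exact Or.inr (Or.inr (Or.inl hc))
          · exact Or.inr (Or.inr (Or.inr hc)))
        refine ⟨t.1, fun d hd => ?_, fun e he => f e (Or.inl (Or.inl he)), t.2.2.2⟩
        rcases hW hd with (hd | hd) | hd
        · exact t.2.2.1 d hd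
        · exact t.2.1 d hd
        · exact f d (Or.inl (Or.inr hd))
      have d : S.DA c W M α β := ⟨fc _ (Or.inl rfl) _ (Or.inl rfl), fc _ (Or.inl rfl) _ (Or.inr rfl),
        fc _ (Or.inr rfl) _ (Or.inl rfl), fc _ (Or.inr rfl) _ (Or.inr rfl)⟩
      exact c2_ind ⟨da α β o.2.1 d, da β α o.1 (c2_da_symm d)⟩)
    fun α β o => ⟨H4 α o.1, H4 β o.2.1⟩
  have key : ∀ g g', S.Chord g g' → g ∉ Y → g' ∉ Y → S.Free D g g' → Q g → Q g' := by
    intro g g' ch n1 n2 f q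
    have gi := QIn g q
    have one : ∀ β, Ok (g, g) β → β.1 = β.2 ∧ Q β.1 := fun β o => by
      have := wk _ _ o
      simp only [ν, q, and_self, if_true] at this
      by_contra hn
      rw [if_neg hn] at this
      exact one_ne_zero this
    by_cases c1 : S.Free c.gs g g'
    · refine (one (g', g') ⟨Or.inl ⟨rfl, Or.inl gi, n1⟩,
        Or.inl ⟨rfl, hS.mem_P_of_free gi ch c1, n2⟩, fun p hp q hq => ?_⟩).2
      rw [show p = g from hp.elim id id, show q = g' from hq.elim id id]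
      exact ⟨ch, c1, f, c2_insW_In gi ch c1⟩
    · obtain ⟨d, hd, a1, a2, a3⟩ := c2_nearest hL hS.scc (wf.disj.notMem_of_mem_left gi) c1
      refine (a1.ne12 (one d ⟨Or.inl ⟨rfl, Or.inl gi, n1⟩, Or.inr ⟨(hgs d hd).resolve_left
        fun h' => f d h' a1, hd, a1.ne12⟩, fun p hp q hq => ?_⟩).1).elim
      rw [show p = g from hp.elim id id]
      have ch1 := (a1.chord13 S.good).symm
      rcases hq with rfl | rfl
      · exact ⟨ch1, a2, fun e he hc => f e he (a1.beyond S.good hc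
          (h.Wnc e (hDW he) d (h.gsW hd))), c2_insW_In gi ch1 a2⟩
      · exact ⟨ch1.trans a1.1, a3, fun e he hc => f e he (a1.swapL.beyond S.good hc
          fun h' => h.Wnc e (hDW he) d (h.gsW hd) h'.swapR), c2_insW_In gi (ch1.trans a1.1) a3⟩
  obtain ⟨z, hz⟩ := hne
  have := ns hL hY (h.Wtame.mono hDW) (fun d hd e he => h.Wnc d (hDW hd) e (hDW he)) hDY hP
    (fun x => if Q x then 1 else 0) (fun x hx => (loc x hx).mono fun _ h' => c2_ind h')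
    (fun g g' ch n1 n2 f => c2_ind ⟨key g g' ch n1 n2 f, key g' g ch.symm n2 n1 (c2_free_swap f)⟩)
    z (hV1.notMem_of_mem_left hz) y fun h' => hS.out_P (h.ZP (hYZ h'))
  rw [if_pos (Or.inl hz), if_neg fun h' => hS.out_P (Or.inl (QIn _ h'))] at this
  exact one_ne_zero this

omit [ConnectedSpace X] [Nontrivial X] in
/-- a window of the parameter circle and the complementary arc -/
theorem c2_win (h : S.IsScc L c) {a b : ℝ} (hab : a < b)
    (hp : ∃ u ∈ c.K, b ≤ u ∧ u ≤ a + c.per) :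
    (∃ p q, IsArc c.gs (c.K ∩ Icc b (a + c.per)) c.π p q) ∧
    c.img = c.π '' (c.K ∩ Icc b (a + c.per)) ∪ c.π '' (c.K ∩ Ioo a b) ∧
    Disjoint (c.π '' (c.K ∩ Ioo a b)) (c.π '' (c.K ∩ Icc b (a + c.per))) ∧
    ∀ β ∈ c.gs, β ∉ gaps (c.K ∩ Icc b (a + c.per)) c.π →
      ∃ s ∈ Ioo a b, s ∉ c.K ∧ c.anchor s = β := by
  obtain ⟨u0, hu0, u1, u2⟩ := hp
  obtain ⟨p1, p2, p3⟩ := hi_spec h.closed ⟨u0, hu0, u1⟩
  obtain ⟨q1, q2, q3⟩ := lo_spec h.closed ⟨u0, hu0, u2⟩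
  have e : c.K ∩ Icc b (a + c.per) = c.K ∩ Icc (hi c.K b) (lo c.K (a + c.per)) :=
    Subset.antisymm (fun u hu => ⟨hu.1, p3 u hu.1 hu.2.1, q3 u hu.1 hu.2.2⟩)
      fun u hu => ⟨hu.1, p2.trans hu.2.1, hu.2.2.trans q2⟩
  refine ⟨⟨_, _, e ▸ h.arc p1 q1 ((p3 u0 hu0 u1).trans (q3 u0 hu0 u2)) (by linarith)⟩,
    Subset.antisymm ?_ (union_subset (image_mono inter_subset_left)
      (image_mono inter_subset_left)), ?_, ?_⟩
  · rintro _ ⟨u, hu, rfl⟩
    obtain ⟨v, hv, v1, v2, v3, -⟩ := h.exists_param a hu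
    rw [← v3]
    rcases v1.eq_or_lt with rfl | v1
    · exact Or.inl ⟨_, ⟨(h.perK _).2 hv, u1.trans u2, le_rfl⟩, h.perπ _ hv⟩
    · exact (le_or_gt b v).imp (fun v4 => ⟨v, ⟨hv, v4, v2.le⟩, rfl⟩)
        fun v4 => ⟨v, ⟨hv, v1, v4⟩, rfl⟩
  · rw [Set.disjoint_left]
    rintro _ ⟨u, hu, rfl⟩ ⟨v, hv, e⟩
    have := h.inj u hu.1 v hv.1 (hu.2.2.le.trans hv.2.1) (by linarith [hu.2.1, hv.2.2]) e.symm
    linarith [hu.2.2, hv.2.1]
  · rintro _ ⟨s, t, hg, rfl⟩ hn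
    obtain ⟨_, -, v1, v2, -, n, rfl⟩ := h.exists_param (lo c.K (a + c.per) - c.per) hg.1
    have g := h.gap_add_zsmul n hg
    rw [← (h.mem_add_zsmul n).2 hg.1, ← (h.mem_add_zsmul n).2 hg.2.1] at hn ⊢
    generalize s + n * c.per = s' at *
    generalize t + n * c.per = t' at *
    have t1 : t' ≤ lo c.K (a + c.per) := (g.2.2.2 _ q1).resolve_left (by linarith)
    have t2 : s' < b := not_le.1 fun h' =>
      hn ⟨s', t', gap_inter_Icc.2 ⟨g, h', t1.trans q2⟩, rfl⟩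
    have t3 : a < t' := not_le.1 fun h' => by
      linarith [q3 _ ((h.perK _).2 g.2.1) (by linarith), g.2.2.1]
    obtain ⟨w, w1, w2⟩ := exists_between (max_lt (lt_min g.2.2.1 t2) (lt_min t3 hab))
    rw [max_lt_iff] at w1
    rw [lt_min_iff] at w2
    refine ⟨w, ⟨w1.2, w2.2⟩, fun h' => (g.2.2.2 w h').elim w1.1.not_ge w2.1.not_ge, ?_⟩
    rw [BC.anchor, (g.lo_hi w1.1 w2.1).1, (g.lo_hi w1.1 w2.1).2]

omit [CompactSpace X] [ConnectedSpace X] [Nontrivial X] in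
theorem c2_gaps_mem {K : Set ℝ} {π : ℝ → X} {d : X × X} (hd : d ∈ gaps K π) :
    d.1 ∈ π '' K ∧ d.2 ∈ π '' K := by
  obtain ⟨s, t, hg, rfl⟩ := hd
  exact ⟨⟨s, hg.1, rfl⟩, t, hg.2.1, rfl⟩

/-- the outside has a door in every honest window -/
theorem Sided.acc_out (h : S.Sided L y c) {s t : ℝ} (hst : s < t) (hwin : Ioo s t ⊆ c.K)
    (hlt : t ≤ s + c.per) : ∃ u ∈ Ioo s t, ∃ R : Set (X × X), S.Tame L R ∧
      (∀ e ∈ R, S.Free c.gs e.1 e.2 ∧ (e.1 ∉ c.P ∨ e.2 ∉ c.P)) ∧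
      Joined R (insert (c.π u) c.Pᶜ) y (c.π u) := by
  classical
  by_contra hcon
  have hL := h.lam
  have wf := h.wf
  have htK : t ∈ c.K := h.scc.closed.closure_subset_iff.2 hwin
    (by rw [closure_Ioo hst.ne]; exact ⟨hst.le, le_rfl⟩)
  obtain ⟨⟨p, q, harc⟩, himg, hdis, hgap⟩ := c2_win h.scc hst ⟨t, htK, le_rfl, hlt⟩
  set Y := c.π '' (c.K ∩ Icc t (s + c.per))
  have hD : c.gs ⊆ gaps (c.K ∩ Icc t (s + c.per)) c.π := fun β hβ => by_contra fun hn => by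
    obtain ⟨w, h1, h2, -⟩ := hgap β hβ hn
    exact h2 (hwin h1)
  have hY : IsClosed Y := (harc.compact.image_of_continuousOn harc.cont).isClosed
  have hDY : ∀ d ∈ c.gs, d.1 ∈ Y ∧ d.2 ∈ Y := fun d hd => c2_gaps_mem (hD hd)
  have YP : Y ⊆ c.P := fun z hz => Or.inr (himg ▸ Or.inl hz)
  let A : Set (X × X) := {e | S.Free c.gs e.1 e.2 ∧ (e.1 ∉ c.P ∨ e.2 ∉ c.P)}
  let O : X → Prop := fun x => ∃ R, S.Tame L R ∧ R ⊆ A ∧ Joined R c.Pᶜ y x
  have OP : ∀ x, O x → x ∉ c.P := fun x ⟨_, _, _, j⟩ => j.mem.2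
  have ext : ∀ x x' R N, O x → S.Tame L R → R ⊆ A → c.Pᶜ ⊆ N → Joined R N x x' →
      ∃ R, S.Tame L R ∧ R ⊆ A ∧ Joined R N y x' := fun x x' R N ⟨R', a1, a2, a3⟩ b1 b2 b3 b4 =>
    ⟨R' ∪ R, a1.union b1, union_subset a2 b2, (a3.mono b3 fun _ h' _ _ _ => Or.inl h').trans
      (b4.mono Subset.rfl fun _ h' _ _ _ => Or.inr h')⟩
  have no : ∀ x v R, O x → v ∈ c.img → v ∉ Y → S.Tame L R → R ⊆ A →
      ¬ Joined R (insert v c.Pᶜ) x v := by
    intro x v R o v1 v2 b1 b2 j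
    obtain ⟨u, hu, rfl⟩ := (himg ▸ v1 : v ∈ Y ∪ _).resolve_left v2
    obtain ⟨R', a1, a2, a3⟩ := ext x _ R _ o b1 b2 (subset_insert _ _) j
    exact hcon ⟨u, hu.2, R', a1, a2, a3⟩
  have t0 : S.Tame L (L ∩ A) := hL.tame inter_subset_left
  have near : ∀ x ∉ Y, ∀ B ∈ 𝓝 x, ∃ B' ⊆ B, (∀ e ∈ L, e.1 ∈ B' → e.2 ∈ B' → S.Free c.gs e.1 e.2) ∧
      ∀ᶠ x' in 𝓝 x, Joined L B' x x' ∧ Joined L B' x' x := by
    intro x hx B hB
    obtain ⟨ρ, hρ, h1⟩ := h.scc.tame.free_near hL x fun d hd =>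
      ⟨fun e => hx (e ▸ (hDY d hd).1), fun e => hx (e ▸ (hDY d hd).2)⟩
    obtain ⟨ε, hε, h2⟩ := Metric.mem_nhds_iff.1 (inter_mem hB (ball_mem_nhds x hρ))
    obtain ⟨δ, hδ, h3⟩ := joined_of_lc L hL.lc ε hε
    refine ⟨ball x ε, h2.trans inter_subset_left, fun e he a1 a2 =>
      h1 e he (h2 a1).2 (h2 a2).2, ?_⟩
    filter_upwards [ball_mem_nhds x hδ] with x' hx'
    have := h3 x x' (mem_ball'.1 hx')
    exact ⟨this, this.symm hL.symm⟩
  have loc : ∀ x ∉ Y, ∀ᶠ x' in 𝓝 x, (O x' ↔ O x) := by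
    intro x hx
    by_cases c1 : x ∈ c.P
    swap
    · obtain ⟨B, b1, b2, b3⟩ := near x hx _ (wf.closedP.isOpen_compl.mem_nhds c1)
      have m : ∀ {z z'}, Joined L B z z' → O z → O z' := fun j o =>
        ext _ _ _ _ o t0 inter_subset_right Subset.rfl
          (j.mono b1 fun e he a1 a2 _ => ⟨he, b2 e he a1 a2, Or.inl (b1 a1)⟩)
      exact b3.mono fun x' j => ⟨m j.2, m j.1⟩
    rcases id c1 with c2 | c2
    · filter_upwards [h.isOpen_In.mem_nhds c2] with x' hx'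
      exact iff_of_false (fun o => OP _ o (Or.inl hx')) fun o => OP _ o c1
    obtain ⟨B, b1, b2, b3⟩ := near x hx _ (hY.isOpen_compl.mem_nhds hx)
    refine b3.mono fun x' j => iff_of_false (fun o => ?_) fun o => OP _ o c1
    obtain ⟨v, v1, v2, v3⟩ := j.2.exit wf.closedP.isOpen_compl (OP _ o) (not_not.2 c1)
    have vB : insert v (B ∩ c.Pᶜ) ⊆ B := insert_subset v1 inter_subset_left
    have v4 : v ∉ c.In := fun vi => by
      have m : ∀ {g g'}, S.Chord g g' → S.Free c.gs g g' → g' ∈ insert v (B ∩ c.Pᶜ) →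
          g ∈ c.In → g' ∈ c.In := fun ch f a1 a2 =>
        a1.elim (fun e => e ▸ vi) fun a1 => (a1.2 (h.mem_P_of_free a2 ch f)).elim
      have := v3.eq_of_loc (fun z => z ∈ c.In) (fun z hz => ?_) fun e he a1 a2 => propext
        ⟨m (hL.chord e he) (b2 e he (vB a1) (vB a2)) a2,
          m (hL.chord e he).symm (c2_free_swap (b2 e he (vB a1) (vB a2))) a1⟩
      · exact OP _ o (Or.inl (this ▸ vi))
      · refine Eventually.filter_mono nhdsWithin_le_nhds ?_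
        rcases hz with rfl | hz
        · filter_upwards [h.isOpen_In.mem_nhds vi] with z' hz'
          exact propext (iff_of_true hz' vi)
        · filter_upwards [wf.closedP.isOpen_compl.mem_nhds hz.2] with z' hz'
          exact propext (iff_of_false (fun a => hz' (Or.inl a)) fun a => hz.2 (Or.inl a))
    refine no x' v _ o ((not_not.1 v2).resolve_left v4) (b1 v1) t0 inter_subset_right
      (v3.mono (insert_subset_insert inter_subset_right) fun e he a1 a2 ne =>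
        ⟨he, b2 e he (vB a1) (vB a2), ?_⟩)
    rcases a1 with a1 | a1
    · exact Or.inr (a2.resolve_left fun a2 => ne (a1.trans a2.symm)).2
    · exact Or.inl a1.2
  have key : ∀ g g', S.Chord g g' → g' ∉ Y → S.Free c.gs g g' → O g → O g' := by
    intro g g' ch n f o
    have hA : {(g, g')} ⊆ A := singleton_subset_iff.2 ⟨f, Or.inl (OP _ o)⟩
    by_cases c1 : g' ∈ c.P
    · rcases c1 with c1 | c1
      · exact (OP _ o (h.mem_P_of_free c1 ch.symm (c2_free_swap f))).elim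
      · exact (no g g' _ o c1 n (c2_tame_single ch) hA
          (Joined.single (Or.inr (OP _ o)) (Or.inl rfl) rfl)).elim
    · exact ext _ _ _ _ o (c2_tame_single ch) hA Subset.rfl (Joined.single (OP _ o) c1 rfl)
  obtain ⟨u, hu⟩ := nonempty_Ioo.2 hst
  have := ns hL hY h.scc.tame h.scc.nc hDY
    ((pot_arc hL h.scc.tame harc).mono fun d hd => Or.inl (hD hd))
    (fun x => if O x then 1 else 0) (fun x hx => (loc x hx).mono fun _ h' => c2_ind h')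
    (fun g g' ch n1 n2 f => c2_ind ⟨key g g' ch n2 f, key g' g ch.symm n1 (c2_free_swap f)⟩)
    y (fun h' => h.out_P (YP h')) _ (hdis.notMem_of_mem_left ⟨u, ⟨hwin hu, hu⟩, rfl⟩)
  rw [if_pos ⟨∅, hL.tame (empty_subset _), empty_subset _, Joined.refl h.out_P⟩,
    if_neg fun o => OP _ o (Or.inr ⟨u, hwin hu, rfl⟩)] at this
  exact one_ne_zero this

end Str

end Pool.Agent.Lib.MP_9e71a3_gt
end
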