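import Pool.Agent.Lib.MP_9e71a3_gt.Wall

-- part Pool.Agent.Lib.MP_9e71a3_gt.E4A
section

/-! Helper lemmas for the four-point relations: geometry of tubes and the constancy lemma. -/

set_option autoImplicit false

namespace Pool.Agent.Lib.MP_9e71a3_gt

open Set Metric Filter Topology

theorem e4_sh_rho {h : ℝ} (hh : 0 < h) {z : Ch E3} {e : Ed} (he : sh (rho h z) e ≠ 0) :
    ∃ l ∈ z.support, dist (pt h e.2) l.1 ≤ dist l.1 l.2 + h := by
  obtain ⟨l, l1, -, l2⟩ := rho_support hh (c := z) (e := (e.1, e.2 - ee e.1))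
    (Finsupp.mem_support_iff.2 he)
  exact ⟨l, l1, by simpa using l2⟩

theorem e4_d1_congr {h : ℝ} (hh : 0 < h) {a b : C1} {e : Ed}
    (hab : ∀ e' : Ed, dist (pt h e'.2) (pt h e.2) ≤ h → a e' = b e') : d1 a e = d1 b e := by
  unfold d1
  rw [hab (e.1 + 1, e.2) (by simpa using hh.le), hab (e.1 + 2, e.2) (by simpa using hh.le),
    hab (e.1 + 2, e.2 + ee (e.1 + 1)) (dist_pt_ee hh _ _).le,
    hab (e.1 + 1, e.2 + ee (e.1 + 2)) (dist_pt_ee hh _ _).le]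

theorem e4_pair_congr {h : ℝ} (hh : 0 < h) {a b : C1} {c : Ch E3}
    (hab : All (fun p q => ∀ e : Ed, dist (pt h e.2) p ≤ dist p q + h → a e = b e) c) :
    pair a (rho h c) = pair b (rho h c) :=
  pair_congr fun _ he => let ⟨l, l1, l2, _⟩ := rho_support hh he; hab l l1 _ l2

theorem e4_pair_zero {h : ℝ} (hh : 0 < h) {a : C1} {c : Ch E3}
    (hab : All (fun p q => ∀ e : Ed, dist (pt h e.2) p ≤ dist p q + h → a e = 0) c) :
    pair a (rho h c) = 0 :=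
  pair_eq_zero fun _ he => let ⟨l, l1, l2, _⟩ := rho_support hh he; hab l l1 _ l2

theorem e4_norm_le (p q : E3) : ‖p‖ ≤ ‖q‖ + dist p q ∧ ‖q‖ ≤ ‖p‖ + dist p q := by
  rw [dist_eq_norm]
  constructor
  · linarith [norm_sub_norm_le p q]
  · linarith [norm_sub_norm_le q p, norm_sub_rev p q]

theorem e4_rho_smul (h : ℝ) (c : Z2) (z : Ch E3) (e : Ed) :
    sh (rho h (c • z)) e = c * sh (rho h z) e := by
  rcases z2_cases c with rfl | rfl <;> simp [sh]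

theorem e4_two_comm {A : Type} (a b : A) : two a b = two b a := add_comm _ _

theorem e4_two_add {A : Type} (a b c : A) : two a b + two b c = two a c := by
  unfold two
  rw [add_assoc, ← add_assoc (Finsupp.single b 1), fs_add_self, zero_add]

namespace Cone
variable {X : Type} [MetricSpace X] (K : Cone X)

theorem e4_tube_near {r d : ℝ} {x : X} {p q : E3} (hp : p ∈ K.tube r x) (h : dist q p ≤ d) :
    q ∈ K.tube (r + d) x :=
  let ⟨s, hs, h1⟩ := hp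
  ⟨s, hs, by linarith [dist_triangle q p (K.e x s)]⟩

theorem e4_tube_mono {r r' : ℝ} {x : X} {p : E3} (hp : p ∈ K.tube r x) (h : r ≤ r') :
    p ∈ K.tube r' x :=
  let ⟨s, hs, h1⟩ := hp
  ⟨s, hs, h1.trans_le h⟩

theorem e4_clean_near {μ μ' d : ℝ} {p q : E3} (hp : p ∈ K.clean μ) (h : dist q p ≤ d)
    (h' : μ' + d ≤ μ) : q ∈ K.clean μ' := fun x s hs => by
  have := hp x s hs
  linarith [dist_triangle p q (K.e x s), dist_comm p q]

theorem e4_clean_mono {μ μ' : ℝ} {p : E3} (hp : p ∈ K.clean μ) (h : μ' ≤ μ) : p ∈ K.clean μ' :=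
  fun x s hs => h.trans_lt (hp x s hs)

theorem e4_clean_tube {μ r : ℝ} {p : E3} {x : X} (hp : p ∈ K.clean μ) (h : r ≤ μ) :
    p ∉ K.tube r x := fun ⟨s, hs, h1⟩ => by linarith [hp x s hs]

variable [CompactSpace X] [ConnectedSpace X]

theorem e4_rhos : 0 < K.ρ 17 ∧ 100 * K.ρ 17 < K.ρ 16 ∧ 100 * K.ρ 16 < K.ρ 15 ∧
    100 * K.ρ 15 < K.ρ 14 ∧ 100 * K.ρ 14 < K.ρ 13 ∧ 100 * K.ρ 13 < K.ρ 12 ∧
    100 * K.ρ 12 < K.ρ 9 ∧ 100 * K.ρ 9 < K.ρ 6 ∧ 100 * K.ρ 6 < K.ρ 5 ∧ 100 * K.ρ 5 < K.ρ 4 ∧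
    100 * K.ρ 4 < K.ρ 3 ∧ 100 * K.ρ 3 < K.ρ 2 ∧ 100 * K.ρ 2 < K.ρ 1 :=
  ⟨K.ρ_pos _, K.ρ_succ 15, K.ρ_succ 14, K.ρ_succ 13, K.ρ_succ 12, K.ρ_succ 11,
    K.ρ_anti (by norm_num) (by norm_num), K.ρ_anti (by norm_num) (by norm_num), K.ρ_succ 4,
    K.ρ_succ 3, K.ρ_succ 2, K.ρ_succ 1, K.ρ_succ 0⟩

theorem e4_gt (i j : ℕ) (hj : j = i + 1) {x : X} {s : ℝ} (hs : s ∈ Icc (0:ℝ) 1)
    (h : ‖K.e x s‖ ≤ 10 * K.ρ j) : K.τ i ≤ s := (K.lev_gt hs (hj ▸ h)).le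

theorem e4_lt (i j : ℕ) (hj : j = i + 1) {x : X} {s : ℝ} (hs : s ∈ Icc (0:ℝ) 1)
    (h : K.ρ j ≤ 10 * ‖K.e x s‖) : s ≤ K.τ j := by
  subst hj
  exact (K.lev_lt hs ((div_le_iff₀' (by norm_num)).2 h)).le

/-- thin tubes around different lines are disjoint away from the apex -/
theorem e4_tubes {x y : X} (hxy : x ≠ y) : ∃ R > 0, ∀ q : E3, K.ρ 16 ≤ ‖q‖ → q ∈ K.tube R x →
    q ∉ K.tube R y := by
  obtain ⟨η, h0, hη⟩ := K.IM (dist_pos.2 hxy)
  obtain ⟨r0, r1, -⟩ := K.e4_rhos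
  refine ⟨min (η / 2) (K.ρ 17), by positivity, ?_⟩
  rintro q hq ⟨s, hs, h1⟩ ⟨t, ht, h2⟩
  have a1 := min_le_left (η / 2) (K.ρ 17)
  have a2 := min_le_right (η / 2) (K.ρ 17)
  have a3 : s ≤ K.τ 16 := K.e4_lt 15 16 rfl hs (by linarith [(e4_norm_le q (K.e x s)).1])
  exact lt_irrefl _ (hη x y s ⟨hs.1, a3⟩ t ht
    (by linarith [dist_triangle_left (K.e x s) (K.e y t) q])).1

/-- a full cone line avoids thin balls along another line -/
theorem e4_av {x k : X} (hxk : x ≠ k) : ∃ r0 > 0, ∀ᶠ n in atTop, ∀ r ≤ r0,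
    Av (K.Bl {k} (K.τ 1) (K.τ 16) r) (4 * ms n) (K.Vf n x) := by
  obtain ⟨η, h0, hη⟩ := K.IM (dist_pos.2 hxk.symm)
  have r0 := K.ρ_pos 1
  have hp : 0 < min η (K.ρ 1) / 8 := by positivity
  have a1 := min_le_left η (K.ρ 1)
  have a2 := min_le_right η (K.ρ 1)
  refine ⟨_, hp, ?_⟩
  filter_upwards [K.all_V hp, ms_small hp] with n h1 h2 r hr
  refine av_iff_all.2 (All.add ((h1 x 0 (by simp) 1 (by simp)).mono ?_) ((K.J_out x).mono ?_))
  · rintro p q ⟨b1, ⟨s, hs, rfl⟩, -⟩ _ ⟨_, rfl, t, ht, rfl⟩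
    by_contra h3
    exact lt_irrefl _ (hη _ x t ⟨(K.τ_nonneg 1).trans ht.1, ht.2⟩ s hs
      (by rw [dist_comm]; simp only at h3; linarith)).1
  · rintro p q b1 _ ⟨y, -, t, ht, rfl⟩
    have : _ < K.ρ 1 / 10 := K.little 0 y t ⟨ht.1, ht.2.trans (K.τ_lt_one 16).le⟩
    have b2 := (e4_norm_le p (K.e y t)).1
    simp only
    linarith

/-- the dual of a full cone line lives near the line -/
theorem e4_Vf_near {r : ℝ} (hr : 0 < r) : ∀ᶠ n in atTop, ∀ x (e : Ed), ‖pt (ms n) e.2‖ ≤ K.ρ 1 →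
    pt (ms n) e.2 ∉ K.tube r x → sh (rho (ms n) (K.Vf n x)) e = 0 := by
  filter_upwards [K.all_V (half_pos hr), ms_small (half_pos hr), ms_small (K.ρ_pos 1)]
    with n h1 h2 h3 x e he hx
  by_contra h
  obtain ⟨l, l1, l2⟩ := e4_sh_rho (ms_pos n) h
  refine All.add (Q := fun p q => ¬ dist (pt (ms n) e.2) p ≤ dist p q + ms n)
    ((h1 x 0 (by simp) 1 (by simp)).mono ?_) ((K.J_out x).mono ?_) l l1 l2
  · rintro p q ⟨b1, ⟨s, hs, rfl⟩, -⟩ h4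
    exact hx ⟨s, hs, by linarith⟩
  · intro p q b1 h4
    have := (e4_norm_le (pt (ms n) e.2) p).2
    linarith [K.ρ_pos 1]

/-- the two clauses of `cf` -/
def E4Pot (n : ℕ) (μ : ℝ) (f : C0) (E : C1) (z : Ch E3) : Prop :=
  (∀ e : Ed, pt (ms n) e.2 ∈ K.W0 ∩ K.clean μ → E e = d0 f e) ∧
    ∀ (p q : E3) (c σ : Ch E3), bd c = two p q → bd σ = two p q →
      All (fun a b => K.Cl μ a b ∧ ‖a‖ + dist a b ≤ K.ρ 1 / 2) c →
      All (fun a b => K.ρ 14 + dist a b ≤ ‖a‖ ∧ ‖a‖ + dist a b ≤ K.ρ 4) σ →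
      f (fl (ms n) p) + f (fl (ms n) q) = pair E (rho (ms n) σ) + Lk (ms n) z (c + σ)

variable {K}

theorem E4Pot.add {n : ℕ} {μ : ℝ} {f f' : C0} {E E' : C1} {z z' : Ch E3} (h : K.E4Pot n μ f E z)
    (h' : K.E4Pot n μ f' E' z') : K.E4Pot n μ (f + f') (E + E') (z + z') := by
  refine ⟨fun e he => by rw [d0_add, Pi.add_apply, Pi.add_apply, h.1 e he, h'.1 e he],
    fun p q c σ h1 h2 h3 h4 => ?_⟩
  rw [pair_add, Lk_add_left, add_add_add_comm (pair E _), ← h.2 p q c σ h1 h2 h3 h4,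
    ← h'.2 p q c σ h1 h2 h3 h4, Pi.add_apply, Pi.add_apply, add_add_add_comm]

theorem E4Pot.shift {n : ℕ} {μ : ℝ} {f : C0} {E : C1} {z : Ch E3} (h : K.E4Pot n μ f E z)
    (a : Z2) : K.E4Pot n μ (fun p => f p + a) E z := by
  have key : ∀ x y : Z2, x + a + (y + a) = x + y := fun x y => by
    rw [add_add_add_comm, z2_add_self, add_zero]
  exact ⟨fun e he => by rw [h.1 e he]; exact (key _ _).symm,
    fun p q c σ h1 h2 h3 h4 => by rw [key, h.2 p q c σ h1 h2 h3 h4]⟩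

variable (K)

/-- constancy of a potential along clean paths in a thin tube on which the cochain vanishes -/
theorem e4_const {r0 : ℝ} (hr0 : 0 < r0) : ∃ R > 0, ∀ R1, 0 < R1 → R1 ≤ R → ∀ μ > 0,
    ∀ᶠ n in atTop, ∀ (k : X) (f : C0) (E : C1) (z : Ch E3), bd z = 0 →
      Av (K.Bl {k} (K.τ 1) (K.τ 16) r0) (4 * ms n) z → K.E4Pot n μ f E z →
      (∀ e : Ed, pt (ms n) e.2 ∈ K.W2 → pt (ms n) e.2 ∈ K.tube (2 * R1) k → E e = 0) →
      ∀ p ∈ K.S2, ∀ q ∈ K.S2, JoinedIn (K.Wb ∩ K.clean (3 * μ) ∩ K.tube R1 k) p q →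
        f (fl (ms n) p) = f (fl (ms n) q) := by
  obtain ⟨η, h0, hη⟩ := K.tube_null hr0
  obtain ⟨r17, r16, r15, r14, r13, r12, r9, r6, r5, r4, r3, r2, r1⟩ := K.e4_rhos
  refine ⟨min η (K.ρ 17), by positivity, fun R1 hR hR' μ hμ => ?_⟩
  have a1 : R1 ≤ η := hR'.trans (min_le_left _ _)
  have a2 : R1 ≤ K.ρ 17 := hR'.trans (min_le_right _ _)
  have hr : 0 < min μ (R1 / 2) := by positivity
  have a3 := min_le_left μ (R1 / 2)
  have a4 := min_le_right μ (R1 / 2)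
  filter_upwards [K.all_V (half_pos hR), ms_small (half_pos hR)] with n h1 h2 k f E z hz hav hf hE
    p hp q hq hj
  obtain ⟨c, c1, c2⟩ := exists_fine_chain hj hr
  have lev : ∀ p ∈ K.S2, p ∈ K.tube R1 k → ∃ s ∈ Icc (K.τ 5) (K.τ 12), dist p (K.e k s) < R1 := by
    rintro p ⟨p1, p2⟩ ⟨s, hs, h3⟩
    have := e4_norm_le p (K.e k s)
    exact ⟨s, ⟨K.e4_gt 5 6 rfl hs (by linarith), K.e4_lt 11 12 rfl hs (by linarith)⟩, h3⟩
  have sub : Icc (K.τ 5) (K.τ 12) ⊆ Icc (0:ℝ) 1 :=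
    Icc_subset_Icc (K.τ_nonneg 5) (K.τ_lt_one 12).le
  have sub' : Icc (K.τ 5) (K.τ 12) ⊆ Icc (K.τ 1) (K.τ 16) :=
    Icc_subset_Icc (K.τ_mono (by norm_num)).le (K.τ_mono (by norm_num)).le
  have nrm : ∀ s ∈ Icc (K.τ 5) (K.τ 12), 10 * K.ρ 13 < ‖K.e k s‖ ∧ ‖K.e k s‖ < K.ρ 5 / 10 :=
    fun s hs => ⟨K.big 12 k s ⟨(sub hs).1, hs.2⟩, K.little 4 k s ⟨hs.1, (sub hs).2⟩⟩
  obtain ⟨s, hs, s1⟩ := lev p hp hj.source_mem.2
  obtain ⟨t, ht, t1⟩ := lev q hq hj.target_mem.2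
  have hσ : All (fun a b => dist a b < R1 ∧ (∃ s ∈ Icc (0:ℝ) 1, a = K.e k s) ∧
      ∃ s ∈ Icc (K.τ 5) (K.τ 12), dist a (K.e k s) < R1 / 2 ∧ dist b (K.e k s) < R1)
      (lnk (K.e k s) p + K.V n k s t + lnk (K.e k t) q) := by
    refine All.add (All.add (All.lnk ?_) ((h1 k s (sub hs) t (sub ht)).mono ?_)) (All.lnk ?_)
    · exact ⟨by rwa [dist_comm], ⟨s, sub hs, rfl⟩, s, hs, by simpa using hR, s1⟩
    · rintro a b ⟨b1, b2, u, hu, b3⟩
      exact ⟨by linarith, b2, u, ⟨(le_min hs.1 ht.1).trans hu.1, hu.2.trans (max_le hs.2 ht.2)⟩, b3,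
        by linarith [dist_triangle_left b (K.e k u) a]⟩
    · exact ⟨by rwa [dist_comm], ⟨t, sub ht, rfl⟩, t, ht, by simpa using hR, t1⟩
  have bσ : bd (lnk (K.e k s) p + K.V n k s t + lnk (K.e k t) q) = two p q := by
    rw [map_add, map_add, bd_lnk, bd_lnk, K.bd_V n k (sub hs) (sub ht), e4_two_comm _ p,
      e4_two_add, e4_two_add]
  have key := hf.2 p q c _ c1 bσ (c2.mono ?_) (hσ.mono ?_)
  · rw [e4_pair_zero (ms_pos n) (hσ.mono ?_), Lk_null_right (ms_pos n) hz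
      (hη _ k _ _ (K.τ_nonneg 1) le_rfl (by rw [map_add, c1, bσ, fs_add_self])
        (All.add (c2.mono ?_) (hσ.mono ?_))) hav, add_zero] at key
    · rw [← add_zero (f (fl (ms n) q)), ← key, add_comm (f (fl (ms n) p)), ← add_assoc,
        z2_add_self, zero_add]
    · have near : ∀ a ∈ K.Wb ∩ K.clean (3 * μ) ∩ K.tube R1 k,
          K.Near {k} (K.τ 1) (K.τ 16) η a := by
        rintro a ⟨⟨⟨b1, b2⟩, -⟩, u, hu, b3⟩
        have := e4_norm_le a (K.e k u)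
        exact ⟨k, rfl, u, ⟨K.e4_gt 1 2 rfl hu (by linarith), K.e4_lt 15 16 rfl hu (by linarith)⟩,
          by linarith⟩
      rintro a b ⟨b1, b2, b3⟩
      exact ⟨by linarith, near a b1, near b b2⟩
    · rintro a b ⟨b1, -, u, hu, b2, b3⟩
      exact ⟨by linarith, ⟨k, rfl, u, sub' hu, by linarith⟩, k, rfl, u, sub' hu, by linarith⟩
    · rintro a b ⟨b1, ⟨u, hu, rfl⟩, v, hv, b2, -⟩ e he
      have := nrm v hv
      have b3 := e4_norm_le (K.e k u) (K.e k v)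
      have b4 := e4_norm_le (pt (ms n) e.2) (K.e k u)
      exact hE e ⟨by linarith, by linarith⟩ ⟨u, hu, by linarith⟩
  · rintro a b ⟨⟨⟨⟨-, b1⟩, b2⟩, -⟩, -, b3⟩
    exact ⟨fun x s hs => by linarith [b2 x s hs], by linarith⟩
  · rintro a b ⟨b1, -, v, hv, b2, -⟩
    have := nrm v hv
    have b3 := e4_norm_le a (K.e k v)
    exact ⟨by linarith, by linarith⟩

end Cone

namespace Vert
variable {X : Type} [MetricSpace X] {K : Cone X} {Γ : Germs K} {k : X} {δ : ℝ} (v : Vert Γ k δ)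
variable [CompactSpace X] [ConnectedSpace X]

/-- inside the shell the dual of a vertical lives on clean faces -/
theorem e4_clean (hδ : δ ≤ K.ρ 17) : ∃ μ > 0, ∀ᶠ n in atTop, ∀ e : Ed, pt (ms n) e.2 ∈ K.W1 →
    pt (ms n) e.2 ∉ K.clean μ → sh (rho (ms n) (v.vf n)) e = 0 := by
  obtain ⟨μ, h0, hμ⟩ := v.links hδ
  obtain ⟨r17, r16, r15, r14, r13, r12, r9, r6, r5, r4, r3, r2, r1⟩ := K.e4_rhos
  refine ⟨μ / 2, half_pos h0, ?_⟩
  filter_upwards [hμ _ r17, ms_small (half_pos h0), ms_small r17] with n ⟨h1, h2⟩ h3 h4 e ⟨e1, e2⟩ hx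
  by_contra h
  obtain ⟨l, l1, l2⟩ := e4_sh_rho (ms_pos n) h
  have cl : ∀ p q, K.Cl μ p q → ¬ dist (pt (ms n) e.2) p ≤ dist p q + ms n := fun p q h5 h6 =>
    hx fun x s hs => by
      linarith [h5 x s hs, dist_triangle_left p (K.e x s) (pt (ms n) e.2)]
  refine All.add (Q := fun p q => ¬ dist (pt (ms n) e.2) p ≤ dist p q + ms n)
    (h1.mono ?_) (h2.mono ?_) l l1 l2
  · intro p q h5 h6
    have := e4_norm_le (pt (ms n) e.2) p
    rcases h5 with h5 | h5 | ⟨h5, x, -, s, hs, h7⟩ | h5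
    · exact cl p q h5.1 h6
    · linarith [h5.1, h5.2.1]
    · obtain rfl := dist_le_zero.1 h7
      have : 10 * K.ρ 3 < _ := K.big 2 x s hs
      linarith
    · linarith
  · intro p q h5 h6
    have := e4_norm_le (pt (ms n) e.2) p
    rcases h5 with h5 | h5 | ⟨h5, x, -, s, hs, h7⟩
    · exact cl p q h5.1 h6
    · linarith [h5.1, h5.2.1]
    · obtain rfl := dist_le_zero.1 h7
      have : _ < K.ρ 15 / 10 := K.little 14 x s hs
      linarith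

end Vert

end Pool.Agent.Lib.MP_9e71a3_gt
end

-- part Pool.Agent.Lib.MP_9e71a3_gt.E4B
section

/-! The three-stage walls, and the lattice part of the four-point relations. -/

set_option autoImplicit false

namespace Pool.Agent.Lib.MP_9e71a3_gt

open Set Metric Filter Topology

/-- the wall from a reference vertical `w` to a thin vertical `z` near the line over `k` -/
structure E4Hat {X : Type} [MetricSpace X] (K : Cone X) (n : ℕ) (k : X) (w z : Ch E3) (p : E3)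
    (R0 R1 R2 μ : ℝ) (G U : C1) : Prop where
  dG : ∀ e : Ed, pt (ms n) e.2 ∈ K.W1 → d1 G e = sh (rho (ms n) (w + z)) e
  dU : d1 U = sh (rho (ms n) (K.Vf n k + z))
  cl : ∀ e : Ed, pt (ms n) e.2 ∈ K.W2 → G e ≠ 0 → pt (ms n) e.2 ∈ K.clean (3 * μ)
  far : ∀ e : Ed, pt (ms n) e.2 ∈ K.W2 → G e ≠ 0 →
    pt (ms n) e.2 ∈ K.clean (2 * R1) ∨ pt (ms n) e.2 ∈ K.tube R0 k
  jn : ∀ e : Ed, pt (ms n) e.2 ∈ K.W2 → G e ≠ 0 → pt (ms n) e.2 ∈ K.clean R2 ∨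
    JoinedIn (K.Wb ∩ K.clean (3 * μ) ∩ K.tube R1 k) p (pt (ms n) e.2)
  sU : ∀ e : Ed, U e ≠ 0 → pt (ms n) e.2 ∈ K.tube (R2 / 2) k

theorem e4_sh_add (h : ℝ) (a b c : Ch E3) (e : Ed) :
    sh (rho h (a + b)) e + sh (rho h (b + c)) e = sh (rho h (a + c)) e := by
  rw [← Pi.add_apply (sh _), ← sh_add, ← map_add, add_assoc, ← add_assoc b, fs_add_self, zero_add]

namespace Germs
variable {X : Type} [MetricSpace X] [CompactSpace X] [ConnectedSpace X] {K : Cone X} (Γ : Germs K)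

theorem e4_ini_tube {k : X} (hk : k ∈ Γ.G) {u δ w : ℝ} (h : Γ.Ini k u δ) (hw : w ∈ Icc 0 u) :
    Γ.leg k w ∈ K.tube δ k := ⟨_, Γ.lv_mem01 hk, h.2 w hw⟩

theorem e4_join {k : X} (hk : k ∈ Γ.G) {δ δ' δ0 : ℝ} (v : Vert Γ k δ) (v' : Vert Γ k δ')
    (h : v'.u ≤ v.u) (hδ : δ ≤ δ0) :
    JoinedIn ((K.W \ K.C) ∩ K.tube δ0 k) (Γ.leg k v.u) (Γ.leg k v'.u) := by
  refine Γ.joined_leg fun w hw => ?_
  rw [min_eq_right h, max_eq_left h] at hw
  have h0 := v'.ini.1.1.trans_le hw.1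
  exact ⟨Γ.leg_mem k hk w ⟨h0, hw.2.trans v.ini.1.2⟩,
    K.e4_tube_mono (Γ.e4_ini_tube hk v.ini ⟨h0.le, hw.2⟩) hδ⟩

theorem e4_hat : ∃ δ0 > 0, ∀ δ' ≤ δ0, ∀ k0 ∈ Γ.G, ∀ v0 : Vert Γ k0 δ', ∀ k ∈ Γ.G,
    Γ.dom k0 = Γ.dom k → ∀ R0 > 0, ∃ μA > 0, ∀ R1, 0 < R1 → 2 * R1 ≤ μA → R1 ≤ R0 →
    ∃ u, Γ.Ini k u (R1 / 2) ∧ ∃ μB > 0, ∀ R2, 0 < R2 → R2 ≤ μB → R2 ≤ R1 → ∀ δ1 > 0,
    ∃ δ ≤ δ1, ∃ v : Vert Γ k δ, ∃ μC > 0, ∀ᶠ n in atTop, ∀ μ, 3 * μ ≤ μC → ∃ G U,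
      E4Hat K n k (v0.vf n) (v.vf n) (Γ.leg k u) R0 R1 R2 μ G U := by
  obtain ⟨δ0, h0, hf⟩ := Γ.wall_fat
  refine ⟨δ0, h0, fun δ' hδ' k0 hk0 v0 k hk hd R0 hR0 => ?_⟩
  obtain ⟨a0, ha0, ht0⟩ := Γ.wall_tube hR0
  obtain ⟨vA, -⟩ := Γ.exists_vert hk (lt_min h0 ha0) one_pos
  obtain ⟨μA, hA, hF⟩ := hf δ' hδ' _ (min_le_left _ _) k0 hk0 k hk hd v0 vA
  refine ⟨μA, hA, fun R1 hR1 h1 h2 => ?_⟩
  obtain ⟨a1, ha1, ht1⟩ := Γ.wall_tube hR1
  obtain ⟨vB, hB⟩ := Γ.exists_vert hk (lt_min ha0 (lt_min ha1 (half_pos hR1))) vA.ini.1.1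
  obtain ⟨μB, hB', hM⟩ := ht0 _ (min_le_right _ _) _ (min_le_left _ _) k hk k hk vA vB
    (Γ.e4_join hk vA vB hB (min_le_right _ _))
  refine ⟨vB.u, ⟨vB.ini.1, fun w hw => (vB.ini.2 w hw).trans_le
    ((min_le_right _ _).trans (min_le_right _ _))⟩, μB, hB', fun R2 hR2 h3 h4 δ1 hδ1 => ?_⟩
  obtain ⟨a2, ha2, hthin⟩ := Γ.vert_thin (r := R2 / 4) (by positivity)
  obtain ⟨vC, hC⟩ := Γ.exists_vert hk (lt_min hδ1 (lt_min ha1 ha2)) vB.ini.1.1
  have b1 : min a0 (min a1 (R1 / 2)) ≤ a1 := (min_le_right _ _).trans (min_le_left _ _)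
  obtain ⟨μT, hT', hT⟩ := ht1 _ b1 _ ((min_le_right _ _).trans (min_le_left _ _)) k hk k hk vB vC
    (Γ.e4_join hk vB vC hC b1)
  refine ⟨_, min_le_left _ _, vC, min μA (min μB μT), by positivity, ?_⟩
  filter_upwards [hF, hM, hT, hthin _ ((min_le_right _ _).trans (min_le_right _ _)) k hk vC,
    ms_small (r := R2 / 12) (by positivity)] with n ⟨F, hF⟩ ⟨M, hM⟩ ⟨T, hT⟩ ⟨_, _, hU⟩ hn μ hμ
  obtain ⟨U, u1, u2⟩ := hU.primitive (ms_pos n)
  simp only [le_min_iff] at hμ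
  have key : ∀ e : Ed, (F + M + T) e ≠ 0 → F e ≠ 0 ∨ M e ≠ 0 ∨ T e ≠ 0 := fun e he => by
    by_contra h
    push Not at h
    exact he (by simp [h.1, h.2.1, h.2.2])
  refine ⟨F + M + T, U, fun e he => ?_, u1, fun e he h => ?_, fun e he h => ?_, fun e he h => ?_,
    fun e he => ?_⟩
  · rw [d1_add, d1_add, Pi.add_apply, Pi.add_apply, hF.eq e he, hM.eq e he, hT.eq e he, e4_sh_add,
      e4_sh_add]
  · rcases key e h with h | h | h
    · exact K.e4_clean_mono (hF.supp e he h).target_mem.1.2 hμ.1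
    · exact K.e4_clean_mono (hM.supp e he h).target_mem.1.2 hμ.2.1
    · exact K.e4_clean_mono (hT.supp e he h).target_mem.1.2 hμ.2.2
  · rcases key e h with h | h | h
    · exact Or.inl (K.e4_clean_mono (hF.supp e he h).target_mem.1.2 h1)
    · exact Or.inr (hM.supp e he h).target_mem.2
    · exact Or.inr (K.e4_tube_mono (hT.supp e he h).target_mem.2 h2)
  · rcases key e h with h | h | h
    · exact Or.inl (K.e4_clean_mono (hF.supp e he h).target_mem.1.2 (by linarith))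
    · exact Or.inl (K.e4_clean_mono (hM.supp e he h).target_mem.1.2 h3)
    · exact Or.inr ((hT.supp e he h).mono fun q hq =>
        ⟨⟨hq.1.1, K.e4_clean_mono hq.1.2 hμ.2.2⟩, hq.2⟩)
  · obtain ⟨_, ⟨_, rfl, s, hs, rfl⟩, h5⟩ := u2 e he
    exact ⟨s, ⟨(K.τ_nonneg 1).trans hs.1, hs.2.trans (K.τ_lt_one 16).le⟩, by
      simp only at h5
      linarith⟩

end Germs

theorem e4_d1_smul (c : Z2) (a : C1) (e : Ed) : d1 (c • a) e = c * d1 a e := by
  simp only [d1, Pi.smul_apply, smul_eq_mul, mul_add]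

theorem e4_pt_diag {h : ℝ} (hh : 0 < h) (p : E3) :
    dist (pt h (fl h p + ee 0 + ee 1 + ee 2)) p ≤ 4 * h := by
  have a1 := dist_pt_ee hh (fl h p + ee 0 + ee 1) 2
  have a2 := dist_pt_ee hh (fl h p + ee 0) 1
  have a3 := dist_pt_ee hh (fl h p) 0
  have a4 := dist_pt_fl hh p
  linarith [dist_triangle4 (pt h (fl h p + ee 0 + ee 1 + ee 2)) (pt h (fl h p + ee 0 + ee 1))
    (pt h (fl h p + ee 0)) (pt h (fl h p)),
    dist_triangle (pt h (fl h p + ee 0 + ee 1 + ee 2)) (pt h (fl h p)) p]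

namespace Cone
variable {X : Type} [MetricSpace X] [CompactSpace X] [ConnectedSpace X] (K : Cone X)

/-- flux through the middle sphere -/
theorem e4_flux {n : ℕ} (hn : ms n < K.ρ 17) (x : Fin 3 → X) (c : Fin 3 → Z2) (Φ : C1)
    (h : ∀ e : Ed, pt (ms n) e.2 ∈ K.S1 →
      d1 Φ e = ∑ i, c i * sh (rho (ms n) (K.Vf n (x i))) e) : c 0 + c 1 + c 2 = 0 := by
  classical
  obtain ⟨r17, r16, r15, r14, r13, r12, r9, r6, r5, r4, r3, r2, r1⟩ := K.e4_rhos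
  have hh := ms_pos n
  have key := flux Φ (rho (ms n) (c 0 • K.Vf n (x 0) + c 1 • K.Vf n (x 1) + c 2 • K.Vf n (x 2)))
    (fun p => if ‖pt (ms n) p‖ < K.ρ 9 then 1 else 0)
    ((finite_pt_ball hh (K.ρ 9)).subset fun p hp => by
      by_contra h'
      exact hp (if_neg fun h2 => h' h2.le)) (fun e he => by
      rw [h e, Fin.sum_univ_three, map_add, map_add, sh_add, sh_add, Pi.add_apply, Pi.add_apply,
        e4_rho_smul, e4_rho_smul, e4_rho_smul]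
      have a1 := dist_pt_ee hh (e.2 + ee (e.1 + 1) + ee (e.1 + 2)) e.1
      have a2 := dist_pt_ee hh (e.2 + ee (e.1 + 1)) (e.1 + 2)
      have a3 := dist_pt_ee hh e.2 (e.1 + 1)
      have b1 := e4_norm_le (pt (ms n) (e.2 + ee (e.1 + 1) + ee (e.1 + 2) + ee e.1))
        (pt (ms n) (e.2 + ee (e.1 + 1) + ee (e.1 + 2)))
      have b2 := e4_norm_le (pt (ms n) (e.2 + ee (e.1 + 1) + ee (e.1 + 2)))
        (pt (ms n) (e.2 + ee (e.1 + 1)))
      have b3 := e4_norm_le (pt (ms n) (e.2 + ee (e.1 + 1))) (pt (ms n) e.2)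
      simp only [d0] at he
      split_ifs at he with c1 c2 c2
      · exact absurd (z2_add_self 1) he
      · exact ⟨by linarith, by linarith⟩
      · exact ⟨by linarith, by linarith⟩
      · exact absurd (add_zero 0) he)
  have sm : ∀ (a : Z2) (y : X), bd (a • K.Vf n y) = a • two 0 K.Pinf := fun a y => by
    rcases z2_cases a with rfl | rfl
    · simp
    · simp [K.bd_Vf]
  rw [bd1_rho, pair_mapDomain, map_add bd, map_add bd, sm, sm, sm, ← add_smul, ← add_smul] at key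
  rcases z2_cases (c 0 + c 1 + c 2) with h0 | h0
  · exact h0
  · rw [h0, one_smul, pair_two] at key
    have a1 := e4_pt_diag hh 0
    have a2 := e4_pt_diag hh K.Pinf
    have b1 := (e4_norm_le (pt (ms n) (fl (ms n) 0 + ee 0 + ee 1 + ee 2)) 0).1
    have b2 := (e4_norm_le (pt (ms n) (fl (ms n) K.Pinf + ee 0 + ee 1 + ee 2)) K.Pinf).2
    have := K.Pinf_out
    rw [norm_zero] at b1
    simp only [Function.comp] at key
    rw [if_pos (by linarith), if_neg (by linarith), add_zero] at key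
    exact absurd key one_ne_zero

/-- the lattice argument -/
theorem e4_core {n : ℕ} {R1 R2 μ : ℝ} (x : Fin 3 → X) (y : X) (p : Fin 3 → E3) (w : Ch E3)
    (E : Fin 3 → C1) (s t : C0) (hn : ms n < K.ρ 17) (h1 : ms n ≤ μ) (h2 : 4 * μ ≤ R2)
    (h3 : R2 ≤ R1)
    (H1 : ∀ i (e : Ed), pt (ms n) e.2 ∈ K.W1 →
      d1 (E i) e = sh (rho (ms n) (K.Vf n (x i))) e + sh (rho (ms n) w) e)
    (H2 : ∀ i j (e : Ed), i ≠ j → pt (ms n) e.2 ∈ K.W2 → pt (ms n) e.2 ∈ K.tube R1 (x j) → E i e = 0)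
    (H2' : ∀ i (e : Ed), pt (ms n) e.2 ∈ K.W2 → pt (ms n) e.2 ∈ K.tube R1 y → E i e = 0)
    (H3 : ∀ i (e : Ed), pt (ms n) e.2 ∈ K.W2 → pt (ms n) e.2 ∉ K.clean (3 * μ) →
      pt (ms n) e.2 ∉ K.tube (R2 / 2) (x i) → E i e = 0)
    (H4 : ∀ i (e : Ed), pt (ms n) e.2 ∈ K.W2 → pt (ms n) e.2 ∈ K.tube R2 (x i) →
      pt (ms n) e.2 ∉ K.tube (R2 / 2) (x i) → E i e ≠ 0 →
      JoinedIn (K.Wb ∩ K.clean (3 * μ) ∩ K.tube R1 (x i)) (p i) (pt (ms n) e.2))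
    (H6 : ∀ i (e : Ed), pt (ms n) e.2 ∈ K.W1 → pt (ms n) e.2 ∈ K.tube R2 (x i) →
      sh (rho (ms n) w) e = 0)
    (H7 : ∀ i (e : Ed), ‖pt (ms n) e.2‖ ≤ K.ρ 1 → pt (ms n) e.2 ∉ K.tube (R2 / 2) (x i) →
      sh (rho (ms n) (K.Vf n (x i))) e = 0)
    (hs : ∀ e : Ed, pt (ms n) e.2 ∈ K.W0 ∩ K.clean μ → (E 0 + E 1) e = d0 s e)
    (ht : ∀ e : Ed, pt (ms n) e.2 ∈ K.W0 ∩ K.clean μ → (E 1 + E 2) e = d0 t e)
    (c : Fin 3 → Z2)
    (hc : ∀ i, ∀ q ∈ K.S2, JoinedIn (K.Wb ∩ K.clean (3 * μ) ∩ K.tube R1 (x i)) (p i) q →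
      (![t, s + t + 1, s] i) (fl (ms n) q) = c i) :
    c 0 + c 1 + c 2 = 0 ∧ ∃ Φ : C1, (∀ e : Ed, pt (ms n) e.2 ∈ K.S1 → d1 Φ e = 0) ∧
      (∀ e : Ed, pt (ms n) e.2 ∈ K.S2 → pt (ms n) e.2 ∉ K.clean μ → Φ e = 0) ∧
      (∀ e : Ed, pt (ms n) e.2 ∈ K.S2 → pt (ms n) e.2 ∈ K.tube R2 (x 0) ∨
        JoinedIn (K.Wb ∩ K.clean (3 * μ) ∩ K.tube R1 (x 0)) (p 0) (pt (ms n) e.2) → Φ e = 0) ∧
      (∀ e : Ed, pt (ms n) e.2 ∈ K.S2 → pt (ms n) e.2 ∈ K.tube R1 y → Φ e = 0) ∧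
      ∀ e : Ed, pt (ms n) e.2 ∈ K.S2 → pt (ms n) e.2 ∈ K.clean R2 →
        Φ e = d0 (s * t + c 0 • s + c 2 • t) e := by
  classical
  obtain ⟨r17, r16, r15, r14, r13, r12, r9, r6, r5, r4, r3, r2, r1⟩ := K.e4_rhos
  have hh := ms_pos n
  have s0 : K.S2 ⊆ K.W0 := fun q hq => ⟨by linarith [hq.1], by linarith [hq.2]⟩
  have s1 : K.S1 ⊆ K.W1 := fun q hq => ⟨by linarith [hq.1], by linarith [hq.2]⟩
  have s2 : K.S2 ⊆ K.W2 := fun q hq => ⟨by linarith [hq.1], by linarith [hq.2]⟩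
  have s3 : ∀ q ∈ K.S1, ∀ q', dist q' q ≤ ms n → q' ∈ K.S2 := fun q hq q' h => by
    have := e4_norm_le q' q
    exact ⟨by linarith [hq.1], by linarith [hq.2]⟩
  obtain ⟨A, hA⟩ : ∃ A : C1, A = c 0 • E 0 + c 1 • E 1 + c 2 • E 2 := ⟨_, rfl⟩
  have a1 : ∀ e, A e = c 0 * E 0 e + c 1 * E 1 e + c 2 * E 2 e := fun e => by rw [hA]; rfl
  have a2 : ∀ e : Ed, pt (ms n) e.2 ∈ K.S1 → d1 A e =
      ∑ i, c i * sh (rho (ms n) (K.Vf n (x i))) e + (c 0 + c 1 + c 2) * sh (rho (ms n) w) e := by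
    intro e he
    rw [hA, d1_add, d1_add, Pi.add_apply, Pi.add_apply, e4_d1_smul, e4_d1_smul, e4_d1_smul,
      H1 0 e (s1 he), H1 1 e (s1 he), H1 2 e (s1 he), Fin.sum_univ_three]
    ring
  have z0 : ∀ e : Ed, pt (ms n) e.2 ∈ K.S2 → pt (ms n) e.2 ∈ K.clean μ → (∀ i, E i e = 0) →
      d0 (s * t) e = 0 := fun e he h4 h5 => by
    rw [d0_mul, ← hs e ⟨s0 he, h4⟩, ← ht e ⟨s0 he, h4⟩]
    simp [h5]
  have ov : ∀ i (e : Ed), pt (ms n) e.2 ∈ K.S2 → pt (ms n) e.2 ∈ K.clean μ →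
      pt (ms n) e.2 ∈ K.tube R1 (x i) → (E i e ≠ 0 →
        JoinedIn (K.Wb ∩ K.clean (3 * μ) ∩ K.tube R1 (x i)) (p i) (pt (ms n) e.2)) →
      d0 (s * t) e = A e := by
    intro i e he h4 h5 h6
    have b1 := hs e ⟨s0 he, h4⟩
    have b2 := ht e ⟨s0 he, h4⟩
    have b3 := fun h => hc i _ he (h6 h)
    have b4 := fun j h => H2 j i e h (s2 he) h5
    rw [fl_pt hh] at b3
    rw [a1]
    simp only [d0, Pi.add_apply, Pi.mul_apply] at b1 b2 ⊢
    fin_cases i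
    · rw [b4 1 (by decide), b4 2 (by decide)] at *
      change E 0 e ≠ 0 → t e.2 = c 0 at b3
      revert b1 b2 b3
      generalize E 0 e = a, s e.2 = s0, t e.2 = t0, s (e.2 + ee e.1) = s1, t (e.2 + ee e.1) = t1,
        c 0 = c0, c 1 = c1, c 2 = c2
      revert a s0 t0 s1 t1 c0 c1 c2
      decide
    · rw [b4 0 (by decide), b4 2 (by decide)] at *
      change E 1 e ≠ 0 → s e.2 + t e.2 + 1 = c 1 at b3
      revert b1 b2 b3
      generalize E 1 e = a, s e.2 = s0, t e.2 = t0, s (e.2 + ee e.1) = s1, t (e.2 + ee e.1) = t1,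
        c 0 = c0, c 1 = c1, c 2 = c2
      revert a s0 t0 s1 t1 c0 c1 c2
      decide
    · rw [b4 0 (by decide), b4 1 (by decide)] at *
      change E 2 e ≠ 0 → s e.2 = c 2 at b3
      revert b1 b2 b3
      generalize E 2 e = a, s e.2 = s0, t e.2 = t0, s (e.2 + ee e.1) = s1, t (e.2 + ee e.1) = t1,
        c 0 = c0, c 1 = c1, c 2 = c2
      revert a s0 t0 s1 t1 c0 c1 c2
      decide
  obtain ⟨Φ, hΦ⟩ : ∃ Φ : C1, ∀ e, Φ e = if ∃ i, pt (ms n) e.2 ∈ K.tube R2 (x i) then A e else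
      if pt (ms n) e.2 ∈ K.clean μ then d0 (s * t) e else 0 := ⟨_, fun _ => rfl⟩
  have z1 : ∀ e : Ed, pt (ms n) e.2 ∈ K.S2 → (∀ i, E i e = 0) → Φ e = 0 ∧ A e = 0 := by
    intro e he h4
    have : A e = 0 := by simp [a1, h4]
    refine ⟨?_, this⟩
    rw [hΦ]
    split_ifs with c1 c2
    exacts [this, z0 e he c2 h4, rfl]
  have face : ∀ e : Ed, pt (ms n) e.2 ∈ K.S1 →
      d1 Φ e = ∑ i, c i * sh (rho (ms n) (K.Vf n (x i))) e := by
    intro e he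
    by_cases c1 : ∃ i, pt (ms n) e.2 ∈ K.tube (3 * R2 / 4) (x i)
    · obtain ⟨i, hi⟩ := c1
      rw [e4_d1_congr hh (b := A) fun e' h' => by
        rw [hΦ, if_pos ⟨i, K.e4_tube_mono (K.e4_tube_near hi h') (by linarith)⟩], a2 e he,
        H6 i e (s1 he) (K.e4_tube_mono hi (by linarith)), mul_zero, add_zero]
    push Not at c1
    rw [Finset.sum_eq_zero fun i _ => by
      rw [H7 i e (by linarith [he.2]) fun h => c1 i (K.e4_tube_mono h (by linarith)), mul_zero]]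
    have out : ∀ e' : Ed, dist (pt (ms n) e'.2) (pt (ms n) e.2) ≤ ms n → ∀ i,
        pt (ms n) e'.2 ∉ K.tube (R2 / 2) (x i) := fun e' h' i h =>
      c1 i (K.e4_tube_mono (K.e4_tube_near h ((dist_comm _ _).trans_le h')) (by linarith))
    by_cases c2 : pt (ms n) e.2 ∈ K.clean (2 * μ)
    · rw [e4_d1_congr hh (b := d0 (s * t)) fun e' h' => ?_, d1_d0, Pi.zero_apply]
      have b1 := K.e4_clean_near (μ' := μ) c2 h' (by linarith)
      rw [hΦ]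
      split_ifs with c3
      · obtain ⟨i, hi⟩ := c3
        exact (ov i e' (s3 _ he _ h') b1 (K.e4_tube_mono hi h3)
          (H4 i e' (s2 (s3 _ he _ h')) hi (out e' h' i))).symm
      · rfl
    · rw [e4_d1_congr hh (b := 0) fun e' h' => (z1 e' (s3 _ he _ h') fun i =>
        H3 i e' (s2 (s3 _ he _ h')) (fun h => c2 (K.e4_clean_near h ((dist_comm _ _).trans_le h')
          (by linarith))) (out e' h' i)).1]
      simp [d1]
  have sum0 := K.e4_flux hn x c Φ face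
  have inn : ∀ e : Ed, (∃ i, pt (ms n) e.2 ∈ K.tube R2 (x i)) → (Φ + A) e = 0 := fun e h => by
    rw [Pi.add_apply, hΦ, if_pos h, z2_add_self]
  refine ⟨sum0, Φ + A, fun e he => ?_, fun e he h4 => ?_, fun e he h4 => ?_, fun e he h4 => ?_,
    fun e he h4 => ?_⟩
  · rw [d1_add, Pi.add_apply, face e he, a2 e he, sum0, zero_mul, add_zero, z2_add_self]
  · by_cases c1 : ∃ i, pt (ms n) e.2 ∈ K.tube R2 (x i)
    · exact inn e c1
    · have := z1 e he fun i => H3 i e (s2 he) (fun h => h4 (K.e4_clean_mono h (by linarith)))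
        fun h => c1 ⟨i, K.e4_tube_mono h (by linarith)⟩
      rw [Pi.add_apply, this.1, this.2, add_zero]
  · by_cases c1 : ∃ i, pt (ms n) e.2 ∈ K.tube R2 (x i)
    · exact inn e c1
    · have b1 := h4.resolve_left fun h => c1 ⟨0, h⟩
      have b2 := K.e4_clean_mono (μ' := μ) b1.target_mem.1.2 (by linarith)
      rw [Pi.add_apply, hΦ, if_neg c1, if_pos b2, ov 0 e he b2 b1.target_mem.2 fun _ => b1,
        z2_add_self]
  · have := z1 e he fun i => H2' i e (s2 he) h4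
    rw [Pi.add_apply, this.1, this.2, add_zero]
  · have b2 := K.e4_clean_mono (μ' := μ) h4 (by linarith)
    have b3 : ∀ (a : Z2) (f : C0), d0 (a • f) e = a * d0 f e := fun a f => by
      simp only [d0, Pi.smul_apply, smul_eq_mul, mul_add]
    have b4 : c 1 = c 0 + c 2 := by
      rw [← add_zero (c 0 + c 2), ← sum0]
      generalize c 0 = a, c 1 = b, c 2 = d
      revert a b d
      decide
    rw [Pi.add_apply, hΦ, if_neg fun ⟨i, hi⟩ => K.e4_clean_tube h4 le_rfl hi, if_pos b2, d0_add,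
      d0_add, Pi.add_apply, Pi.add_apply, b3, b3, ← hs e ⟨s0 he, b2⟩, ← ht e ⟨s0 he, b2⟩, a1, b4,
      Pi.add_apply, Pi.add_apply]
    ring

end Cone

end Pool.Agent.Lib.MP_9e71a3_gt
end

-- part Pool.Agent.Lib.MP_9e71a3_gt.E4
section

/-! The four-point relations.  JOB E4 (part 2). -/

set_option autoImplicit false

namespace Pool.Agent.Lib.MP_9e71a3_gt

open Set Metric Filter Topology

theorem e4_min {ι : Type} [Finite ι] (f : ι → ℝ) (h : ∀ i, 0 < f i) {a : ℝ} (ha : 0 < a) :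
    ∃ r > 0, r ≤ a ∧ ∀ i, r ≤ f i := by
  obtain ⟨i, hi⟩ := Finite.exists_min fun o : Option ι => o.elim a f
  exact ⟨_, by cases i <;> simp [ha, h], hi none, fun j => hi (some j)⟩

theorem Cone.e4_path {X : Type} [MetricSpace X] [CompactSpace X] [ConnectedSpace X] (K : Cone X)
    {p q : E3} (h : JoinedIn (K.W \ K.C) p q) : ∃ μ > 0, JoinedIn (K.W ∩ K.clean μ) p q := by
  obtain ⟨γ, hγ⟩ := h
  obtain ⟨μ, h0, hμ⟩ := K.exists_clean (isCompact_range γ.continuous)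
    (Set.disjoint_left.2 (by rintro _ ⟨t, rfl⟩; exact (hγ t).2))
  exact ⟨μ, h0, γ, fun t => ⟨(hγ t).1, hμ ⟨t, rfl⟩⟩⟩

namespace Germs
variable {X : Type} [MetricSpace X] [CompactSpace X] [ConnectedSpace X] {K : Cone X} (Γ : Germs K)

/-- edges of the rasterised initial part of a leg -/
theorem e4_leg {k : X} (hk : k ∈ Γ.G) {u R μ : ℝ} (hu : Γ.Ini k u (R / 2)) (hμ : 0 < μ)
    (h1 : μ ≤ R / 2) (h2 : μ ≤ K.ρ 17) : ∀ᶠ n in atTop,
    All (fun p q => p ∈ K.W ∧ dist p q ≤ K.ρ 13 ∧ ∀ e : Ed, dist (pt (ms n) e.2) p ≤ dist p q + ms n →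
      pt (ms n) e.2 ∈ K.S2 ∧ pt (ms n) e.2 ∈ K.tube R k ∧
        ∃ w ∈ Icc 0 u, dist (pt (ms n) e.2) (Γ.leg k w) ≤ μ) (Γ.Lg n k 0 u) := by
  obtain ⟨r17, r16, r15, r14, r13, r12, r9, r6, r5, r4, r3, r2, r1⟩ := K.e4_rhos
  filter_upwards [Γ.all_Lg k (half_pos hμ), ms_small (half_pos hμ)] with n h3 h4
  refine (h3 0 (by simp) u ⟨hu.1.1.le, hu.1.2⟩).mono ?_
  rintro p q ⟨a1, ⟨w, hw, rfl⟩, -⟩
  rw [max_eq_right hu.1.1.le] at hw
  have a2 := Γ.leg_mem_W hk ⟨hw.1, hw.2.trans hu.1.2⟩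
  refine ⟨a2, by linarith, fun e he => ?_⟩
  have a3 : dist (pt (ms n) e.2) (Γ.leg k w) ≤ μ := by linarith
  have := e4_norm_le (pt (ms n) e.2) (Γ.leg k w)
  exact ⟨⟨by linarith [a2.1], by linarith [a2.2]⟩,
    K.e4_tube_mono (K.e4_tube_near (Γ.e4_ini_tube hk hu hw) a3) (by linarith), w, hw, a3⟩

theorem e4_n (x : Fin 3 → X) (y : X) (hx : ∀ i, x i ∈ Γ.G) (hy : y ∈ Γ.G)
    (hd : ∀ i, Γ.dom (x i) = Γ.dom y) (hi : ∀ i j, i ≠ j → x i ≠ x j) (hxy : ∀ i, x i ≠ y) :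
    ∀ᶠ n in atTop, Γ.crn n (x 0) (x 1) (x 2) y + Γ.crn n (x 0) (x 2) (x 1) y +
      Γ.crn n (x 1) (x 2) (x 0) y = 1 ∧
      Γ.crn n (x 0) (x 1) (x 2) y * Γ.crn n (x 1) (x 2) (x 0) y = 0 := by
  obtain ⟨r17, r16, r15, r14, r13, r12, r9, r6, r5, r4, r3, r2, r1⟩ := K.e4_rhos
  have w2 : ∀ q ∈ K.W2, K.ρ 16 ≤ ‖q‖ := fun q hq => by linarith [hq.1]
  have ws : K.W ⊆ K.S2 := fun q hq => ⟨by linarith [hq.1], by linarith [hq.2]⟩
  have s0 : K.S2 ⊆ K.W0 := fun q hq => ⟨by linarith [hq.1], by linarith [hq.2]⟩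
  have s2 : K.S2 ⊆ K.W2 := fun q hq => ⟨by linarith [hq.1], by linarith [hq.2]⟩
  -- scales depending on the four lines
  obtain ⟨r0, hr0, hav⟩ : ∃ r0 > 0, ∀ᶠ n in atTop, ∀ i j, i ≠ j →
      Av (K.Bl {x i} (K.τ 1) (K.τ 16) r0) (4 * ms n) (K.Vf n (x j)) := by
    have : ∀ ij : Fin 3 × Fin 3, ∃ r > 0, ∀ᶠ n in atTop, ∀ r' ≤ r, ij.1 ≠ ij.2 →
        Av (K.Bl {x ij.1} (K.τ 1) (K.τ 16) r') (4 * ms n) (K.Vf n (x ij.2)) := by
      rintro ⟨i, j⟩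
      by_cases h : i = j
      · exact ⟨1, one_pos, Eventually.of_forall fun _ _ _ h' => absurd h h'⟩
      · obtain ⟨r, h1, h2⟩ := K.e4_av (hi j i (Ne.symm h))
        exact ⟨r, h1, h2.mono fun n hn r' hr _ => hn r' hr⟩
    choose f f1 f2 using this
    obtain ⟨r, h1, -, h2⟩ := e4_min f f1 one_pos
    exact ⟨r, h1, (eventually_all.2 f2).mono fun n hn i j => hn (i, j) r (h2 _)⟩
  obtain ⟨R0, hR0, hdj, hdy⟩ : ∃ R0 > 0, (∀ i j, i ≠ j → ∀ q, K.ρ 16 ≤ ‖q‖ → q ∈ K.tube R0 (x j) →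
      q ∉ K.tube R0 (x i)) ∧ ∀ i q, K.ρ 16 ≤ ‖q‖ → q ∈ K.tube R0 y → q ∉ K.tube R0 (x i) := by
    have : ∀ ij : Fin 3 × Fin 3, ∃ r > 0, ij.1 ≠ ij.2 → ∀ q, K.ρ 16 ≤ ‖q‖ → q ∈ K.tube r (x ij.2) →
        q ∉ K.tube r (x ij.1) := by
      rintro ⟨i, j⟩
      by_cases h : i = j
      · exact ⟨1, one_pos, fun h' => absurd h h'⟩
      · obtain ⟨r, h1, h2⟩ := K.e4_tubes (hi j i (Ne.symm h))
        exact ⟨r, h1, fun _ => h2⟩
    choose f f1 f2 using this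
    choose g g1 g2 using fun i => K.e4_tubes (hxy i).symm
    obtain ⟨r, h1, -, h2⟩ := e4_min f f1 one_pos
    obtain ⟨r', h3, h4, h5⟩ := e4_min g g1 h1
    exact ⟨r', h3, fun i j h q a b c => f2 (i, j) h q a (K.e4_tube_mono b (h4.trans (h2 _)))
      (K.e4_tube_mono c (h4.trans (h2 _))), fun i q a b c => g2 i q a (K.e4_tube_mono b (h5 i))
      (K.e4_tube_mono c (h5 i))⟩
  -- stage A
  obtain ⟨δ0, hδ0, hat⟩ := Γ.e4_hat
  obtain ⟨v0, -⟩ := Γ.exists_vert (hx 0) (lt_min hδ0 r17) one_pos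
  obtain ⟨μw, hμw, hw⟩ := v0.e4_clean (min_le_right _ _)
  choose μA hA hat using fun i => hat _ (min_le_left _ _) _ (hx 0) v0 _ (hx i)
    ((hd 0).trans (hd i).symm) R0 hR0
  obtain ⟨R, hR, hconst⟩ := K.e4_const hr0
  obtain ⟨R1, hR1, b1, b2⟩ := e4_min (fun i => μA i / 2) (fun i => half_pos (hA i))
    (lt_min hR (lt_min (half_pos hR0) r17))
  simp only [le_min_iff] at b1
  obtain ⟨b1, b3, b4⟩ := b1
  -- stage B
  choose u hu μB hB hat using fun i => hat i R1 hR1 (by linarith [b2 i]) (by linarith)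
  obtain ⟨u4, -, hu4⟩ := Γ.exists_ini hy (half_pos hR1) one_pos
  choose μm hm hj using fun i => K.e4_path (Γ.joined_of_dom_eq (hx i) hy (hu i).1 hu4.1 (hd i))
  obtain ⟨R2, hR2, c1, c2⟩ := e4_min (fun i => min (μB i) (μm i / 2))
    (fun i => lt_min (hB i) (half_pos (hm i))) (lt_min hR1 hμw)
  simp only [le_min_iff] at c1 c2
  obtain ⟨c1, c3⟩ := c1
  choose m m1 m2 using fun i => exists_fine_chain (hj i) (half_pos hR2)
  have m3 : ∀ i, All (fun p q => p ∈ K.W ∧ p ∈ K.clean (2 * R2) ∧ dist p q < R2 / 2) (m i) :=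
    fun i => (m2 i).mono fun p q h =>
      ⟨h.1.1, K.e4_clean_mono h.1.2 (by linarith [(c2 i).2]), h.2.2⟩
  -- stage C
  obtain ⟨δ1, hδ1, htv⟩ := Γ.tv hR2
  choose δ hδ v μC hC hat using fun i => hat i R2 hR2 (c2 i).1 c1 δ1 hδ1
  obtain ⟨u', hu1, hu'⟩ := Γ.exists_ini (hx 0) (half_pos hR2) (hu 0).1.1
  obtain ⟨μL, hL, hleg⟩ := K.exists_clean (A := Γ.leg (x 0) '' Icc u' (u 0))
    (isCompact_Icc.image (Γ.leg_cont _)) (Set.disjoint_left.2 (by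
      rintro _ ⟨w, hw, rfl⟩
      exact (Γ.leg_mem _ (hx 0) w ⟨hu'.1.1.trans_le hw.1, hw.2.trans (hu 0).1.2⟩).2))
  obtain ⟨μ, hμ, d1', d2'⟩ := e4_min (fun i => μC i / 3) (fun i => by linarith [hC i])
    (a := min (R2 / 4) (μL / 4)) (by positivity)
  simp only [le_min_iff] at d1'
  obtain ⟨d3, d4⟩ := d1'
  have legs : ∀ {k : X} {s : ℝ}, k ∈ Γ.G → Γ.Ini k s (R1 / 2) → ∀ i,
      (∀ q, K.ρ 16 ≤ ‖q‖ → q ∈ K.tube R0 k → q ∉ K.tube R0 (x i)) →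
      ∀ w ∈ Icc 0 s, Γ.leg k w ∉ K.tube R2 (x i) := fun hk hs i h w hw h' =>
    h _ (w2 _ (s2 (ws (Γ.leg_mem_W hk ⟨hw.1, hw.2.trans hs.1.2⟩))))
      (K.e4_tube_mono (Γ.e4_ini_tube hk hs hw) (by linarith)) (K.e4_tube_mono h' (by linarith))
  have tv3 : ∀ᶠ n in atTop, ∀ i j k, i ≠ k → j ≠ k → ∀ E : C1,
      (∀ e : Ed, pt (ms n) e.2 ∈ K.W1 → d1 E e = sh (rho (ms n) ((v i).vf n + (v j).vf n)) e) →
      (∀ e : Ed, pt (ms n) e.2 ∈ K.W2 → pt (ms n) e.2 ∉ K.clean (3 * μ) → E e = 0) →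
      pair E (rho (ms n) (Γ.Lg n (x k) 0 (u k) + m k + Γ.Lg n y 0 u4)) =
        Γ.crn n (x i) (x j) (x k) y := by
    simp only [eventually_all]
    intro i j k hik hjk
    filter_upwards [htv _ (hδ i) _ (hδ j) _ (hx i) _ (hx j) _ (hx k) _ hy
      ((hd i).trans (hd j).symm) (hd k) (v i) (v j) _ (hu k).1 _ hu4.1
      (fun w hw h => h.elim (legs (hx k) (hu k) i (hdj i k hik) w hw)
        (legs (hx k) (hu k) j (hdj j k hjk) w hw))
      (fun w hw h => h.elim (legs hy hu4 i (hdy i) w hw) (legs hy hu4 j (hdy j) w hw))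
      R2 hR2 (3 * μ) (by positivity)] with n hn E h1 h2
    refine hn E h1 h2 _ (m1 k) ((m3 k).mono ?_)
    rintro p q ⟨a1, a2, a3⟩
    exact ⟨fun z s hs => by linarith [a2 z s hs], a1, by linarith, fun h => h.elim
      (K.e4_clean_tube a2 (by linarith)) (K.e4_clean_tube a2 (by linarith))⟩
  filter_upwards [eventually_all.2 hat, hav, hconst R1 hR1 b1 μ hμ, K.cf hμ, K.rc hμ, tv3, hw,
    K.e4_Vf_near (half_pos hR2), eventually_all.2 fun i => Γ.e4_leg (hx i) (hu i) hμ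
      (by linarith) (by linarith), Γ.e4_leg hy hu4 hμ (by linarith) (by linarith),
    ms_small hμ] with n hat hav hconst hcf hrc tv3 hw hV hlx hly hn
  have hh := ms_pos n
  choose G U hat using fun i => hat i μ (by linarith [d2' i])
  have van : ∀ i k, (∀ q, K.ρ 16 ≤ ‖q‖ → q ∈ K.tube R0 k → q ∉ K.tube R0 (x i)) → ∀ e : Ed,
      pt (ms n) e.2 ∈ K.W2 → pt (ms n) e.2 ∈ K.tube (2 * R1) k → G i e = 0 ∧ U i e = 0 := by
    intro i k h e he ht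
    have h' := h _ (w2 _ he) (K.e4_tube_mono ht (by linarith))
    exact ⟨by_contra fun h1 => ((hat i).far e he h1).elim (fun h2 => K.e4_clean_tube h2 le_rfl ht) h',
      by_contra fun h1 => h' (K.e4_tube_mono ((hat i).sU e h1) (by linarith))⟩
  obtain ⟨E, hE⟩ : ∃ E : Fin 3 → C1, ∀ i, E i = G i + U i := ⟨_, fun _ => rfl⟩
  have van' : ∀ i k, (∀ q, K.ρ 16 ≤ ‖q‖ → q ∈ K.tube R0 k → q ∉ K.tube R0 (x i)) → ∀ e : Ed,
      pt (ms n) e.2 ∈ K.W2 → pt (ms n) e.2 ∈ K.tube (2 * R1) k → E i e = 0 := fun i k h e he ht => by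
    rw [hE, Pi.add_apply, (van i k h e he ht).1, (van i k h e he ht).2, add_zero]
  have H1 : ∀ i (e : Ed), pt (ms n) e.2 ∈ K.W1 →
      d1 (E i) e = sh (rho (ms n) (K.Vf n (x i))) e + sh (rho (ms n) (v0.vf n)) e := fun i e he => by
    rw [hE, d1_add, Pi.add_apply, (hat i).dG e he, (hat i).dU, add_comm (K.Vf n (x i)), e4_sh_add,
      map_add, sh_add, Pi.add_apply, add_comm]
  have pot : ∀ i j, ∃ f, K.E4Pot n μ f (E i + E j) (K.Vf n (x i) + K.Vf n (x j)) ∧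
      f (fl (ms n) (Γ.leg y u4)) = 0 := fun i j => by
    obtain ⟨f, hf⟩ := hcf (x i) (x j) (E i + E j) fun e he => by
      rw [d1_add, Pi.add_apply, H1 i e he, H1 j e he, map_add, sh_add, Pi.add_apply,
        add_add_add_comm, z2_add_self, add_zero]
    exact ⟨_, Cone.E4Pot.shift hf (f (fl (ms n) (Γ.leg y u4))), z2_add_self _⟩
  obtain ⟨s, hs, s4⟩ := pot 0 1
  obtain ⟨t, ht, t4⟩ := pot 1 2
  have hst : K.E4Pot n μ (s + t) (E 0 + E 2) (K.Vf n (x 0) + K.Vf n (x 2)) := by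
    have := hs.add ht
    rwa [add_assoc (E 0), ← add_assoc (E 1), show E 1 + E 1 = 0 from funext fun _ => z2_add_self _,
      zero_add, add_assoc (K.Vf n (x 0)), ← add_assoc (K.Vf n (x 1)), fs_add_self, zero_add] at this
  have pW : ∀ i, Γ.leg (x i) (u i) ∈ K.S2 := fun i =>
    ws (Γ.leg_mem_W (hx i) ⟨(hu i).1.1.le, (hu i).1.2⟩)
  have cst : ∀ i j k f, i ≠ k → j ≠ k → K.E4Pot n μ f (E i + E j) (K.Vf n (x i) + K.Vf n (x j)) →
      ∀ q ∈ K.S2, JoinedIn (K.Wb ∩ K.clean (3 * μ) ∩ K.tube R1 (x k)) (Γ.leg (x k) (u k)) q →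
        f (fl (ms n) q) = f (fl (ms n) (Γ.leg (x k) (u k))) := fun i j k f hik hjk hf q hq h =>
    (hconst (x k) f _ _ (by rw [map_add, K.bd_Vf, K.bd_Vf, fs_add_self])
      (av_iff_all.2 ((av_iff_all.1 (hav k i hik.symm)).add (av_iff_all.1 (hav k j hjk.symm)))) hf
      (fun e he h' => by rw [Pi.add_apply, van' i _ (hdj i k hik) e he h',
        van' j _ (hdj j k hjk) e he h', add_zero]) _ (pW k) q hq h).symm
  have me : ∀ k, All (fun p q => ∀ e : Ed, dist (pt (ms n) e.2) p ≤ dist p q + ms n →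
      pt (ms n) e.2 ∈ K.S2 ∧ pt (ms n) e.2 ∈ K.clean R2) (m k) := fun k => (m3 k).mono (by
    rintro p q ⟨a1, a2, a3⟩ e he
    have := e4_norm_le (pt (ms n) e.2) p
    exact ⟨⟨by linarith [a1.1], by linarith [a1.2]⟩,
      K.e4_clean_near (d := R2) a2 (by linarith) (by linarith)⟩)
  have ev : ∀ i j k f, i ≠ k → j ≠ k → K.E4Pot n μ f (E i + E j) (K.Vf n (x i) + K.Vf n (x j)) →
      Γ.crn n (x i) (x j) (x k) y =
        f (fl (ms n) (Γ.leg (x k) (u k))) + f (fl (ms n) (Γ.leg y u4)) := by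
    intro i j k f hik hjk hf
    rw [← tv3 i j k hik hjk (G i + G j) (fun e he => by
      rw [d1_add, Pi.add_apply, (hat i).dG e he, (hat j).dG e he, add_comm (v0.vf n), e4_sh_add])
      (fun e he h => by
        rw [Pi.add_apply, by_contra fun h' => h ((hat i).cl e he h'),
          by_contra fun h' => h ((hat j).cl e he h'), add_zero]),
      map_add, map_add, map_add, map_add, e4_pair_zero hh ((hlx k).mono fun p q h e he => ?_),
      e4_pair_zero hh (hly.mono fun p q h e he => ?_), zero_add, add_zero,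
      e4_pair_congr hh (b := d0 f) ((me k).mono fun p q h e he => ?_), pair_d0_rho, m1, pair_two]
    · rfl
    · obtain ⟨a1, a2⟩ := h e he
      have a3 : ∀ l, U l e = 0 := fun l => by_contra fun h' =>
        K.e4_clean_tube a2 (by linarith) ((hat l).sU e h')
      rw [← hf.1 e ⟨s0 a1, K.e4_clean_mono a2 (by linarith)⟩]
      simp only [hE, Pi.add_apply, a3, add_zero]
    · obtain ⟨a1, a2, -⟩ := h.2.2 e he
      have a3 := K.e4_tube_mono (r' := 2 * R1) a2 (by linarith)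
      rw [Pi.add_apply, (van i _ (hdy i) e (s2 a1) a3).1, (van j _ (hdy j) e (s2 a1) a3).1, add_zero]
    · obtain ⟨a1, a2, -⟩ := h.2.2 e he
      have a3 := K.e4_tube_mono (r' := 2 * R1) a2 (by linarith)
      rw [Pi.add_apply, (van i _ (hdj i k hik) e (s2 a1) a3).1,
        (van j _ (hdj j k hjk) e (s2 a1) a3).1, add_zero]
  obtain ⟨k1, Φ, k2, k3, k4, k5, k6⟩ := K.e4_core (R1 := R1) (R2 := R2) (μ := μ) x y
    (fun i => Γ.leg (x i) (u i)) (v0.vf n) E s t (by linarith) hn.le (by linarith) c1 H1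
    (fun i j e h he h' => van' i _ (hdj i j h) e he (K.e4_tube_mono h' (by linarith)))
    (fun i e he h' => van' i _ (hdy i) e he (K.e4_tube_mono h' (by linarith)))
    (fun i e he h h' => by
      rw [hE, Pi.add_apply, by_contra fun h1 => h ((hat i).cl e he h1),
        by_contra fun h1 => h' ((hat i).sU e h1), add_zero])
    (fun i e he h h' h1 => by
      rw [hE, Pi.add_apply, by_contra fun h1 => h' ((hat i).sU e h1), add_zero] at h1
      exact ((hat i).jn e he h1).resolve_left fun h2 => K.e4_clean_tube h2 le_rfl h)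
    (fun i e he h => hw e he fun h2 => K.e4_clean_tube h2 c3 h) (fun i => hV (x i)) hs.1 ht.1
    (fun i => (![t, s + t + 1, s] i) (fl (ms n) (Γ.leg (x i) (u i)))) (fun i q hq h => by
      fin_cases i
      · exact cst 1 2 0 t (by decide) (by decide) ht q hq h
      · exact congrArg (· + 1) (cst 0 2 1 _ (by decide) (by decide) hst q hq h)
      · exact cst 0 1 2 s (by decide) (by decide) hs q hq h)
  have key := hrc Φ k2 k3 (x 0) y _ (Γ.lv_mem _ (hx 0)) _ (Γ.lv_mem _ hy)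
    (Γ.Lg n (x 0) 0 (u 0) + m 0 + Γ.Lg n y 0 u4) (by
      rw [map_add, map_add, m1, Lg, Lg, bd_cC _ n.succ_pos (by simp) ⟨(hu 0).1.1.le, (hu 0).1.2⟩,
        bd_cC _ n.succ_pos (by simp) ⟨hu4.1.1.le, hu4.1.2⟩, e4_two_add, e4_two_comm (Γ.leg y 0),
        e4_two_add, Γ.leg_zero _ (hx 0), Γ.leg_zero _ hy])
    ((((hlx 0).mono fun p q h => ⟨h.1, h.2.1⟩).add ((m3 0).mono fun p q h =>
      ⟨h.1, by linarith [h.2.2]⟩)).add (hly.mono fun p q h => ⟨h.1, h.2.1⟩))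
  rw [map_add, map_add, map_add, map_add, e4_pair_zero hh ((hlx 0).mono fun p q h e he => ?_),
    e4_pair_zero hh (hly.mono fun p q h e he => k5 e (h.2.2 e he).1 (h.2.2 e he).2.1), zero_add,
    add_zero, e4_pair_congr hh ((me 0).mono fun p q h e he => k6 e (h e he).1 (h e he).2),
    pair_d0_rho, m1, pair_two] at key
  · rw [ev 0 1 2 s (by decide) (by decide) hs, ev 0 2 1 _ (by decide) (by decide) hst,
      ev 1 2 0 t (by decide) (by decide) ht]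
    simp only [Function.comp, Pi.add_apply, Pi.mul_apply, Pi.smul_apply, smul_eq_mul, s4, t4,
      Matrix.cons_val_zero, Matrix.cons_val_one, Matrix.cons_val, Pi.one_apply] at key k1 ⊢
    revert key k1
    generalize s (fl (ms n) (Γ.leg (x 0) (u 0))) = a0, t (fl (ms n) (Γ.leg (x 0) (u 0))) = a1,
      s (fl (ms n) (Γ.leg (x 1) (u 1))) = a2, t (fl (ms n) (Γ.leg (x 1) (u 1))) = a3,
      s (fl (ms n) (Γ.leg (x 2) (u 2))) = a4
    revert a0 a1 a2 a3 a4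
    decide
  · obtain ⟨a1, -, w, hw, a2⟩ := h.2.2 e he
    refine k4 e a1 ?_
    rcases le_total w u' with h1 | h1
    · exact Or.inl (K.e4_tube_mono (K.e4_tube_near (Γ.e4_ini_tube (hx 0) hu' ⟨hw.1, h1⟩) a2)
        (by linarith))
    · have near : ∀ z ∈ Icc w (u 0), ∀ q, dist q (Γ.leg (x 0) z) ≤ μ →
          q ∈ K.Wb ∩ K.clean (3 * μ) ∩ K.tube R1 (x 0) := fun z hz q hq => by
        have a3 : z ∈ Icc 0 (u 0) := ⟨hw.1.trans hz.1, hz.2⟩
        have a4 := Γ.leg_mem_W (hx 0) ⟨a3.1, a3.2.trans (hu 0).1.2⟩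
        have := e4_norm_le q (Γ.leg (x 0) z)
        exact ⟨⟨⟨by linarith [a4.1], by linarith [a4.2]⟩,
          K.e4_clean_near (hleg ⟨z, ⟨h1.trans hz.1, hz.2⟩, rfl⟩) hq (by linarith)⟩,
          K.e4_tube_mono (K.e4_tube_near (Γ.e4_ini_tube (hx 0) (hu 0) a3) hq) (by linarith)⟩
      refine Or.inr ((Γ.joined_leg (v := w) fun z hz => near z ?_ _ (by simpa using hμ.le)).trans
        (JoinedIn.of_segment_subset fun q hq => near w ⟨le_rfl, hw.2⟩ q ?_))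
      · rwa [min_eq_right hw.2, max_eq_left hw.2] at hz
      · exact (mem_closedBall.1 (segment_subset_closedBall_left _ _ hq)).trans
          ((dist_comm _ _).trans_le a2)

theorem e4 {a b c d : X} (ha : a ∈ Γ.G) (hb : b ∈ Γ.G) (hc : c ∈ Γ.G) (hd : d ∈ Γ.G)
    (h1 : Γ.dom a = Γ.dom b) (h2 : Γ.dom a = Γ.dom c) (h3 : Γ.dom a = Γ.dom d) (hab : a ≠ b)
    (hac : a ≠ c) (had : a ≠ d) (hbc : b ≠ c) (hbd : b ≠ d) (hcd : c ≠ d) :
    Γ.cr a b c d + Γ.cr a c b d + Γ.cr b c a d = 1 ∧ Γ.cr a b c d * Γ.cr b c a d = 0 := by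
  obtain ⟨n, hn, e1, e2, e3⟩ := ((hyper_of_atTop (Γ.e4_n ![a, b, c] d
    (fun i => by fin_cases i <;> assumption) hd
    (fun i => by fin_cases i <;> [exact h3; exact h1.symm.trans h3; exact h2.symm.trans h3])
    (fun i j h => by
      fin_cases i <;> fin_cases j <;> first | exact absurd rfl h | assumption | (symm; assumption))
    (fun i => by fin_cases i <;> assumption))).and ((Γ.cr_spec a b c d).and
      ((Γ.cr_spec a c b d).and (Γ.cr_spec b c a d)))).exists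
  rw [← e1, ← e2, ← e3]
  exact hn

end Germs

end Pool.Agent.Lib.MP_9e71a3_gt
end
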