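import Pool.Agent.Lib.MP_9e71a3_gt.Chain

-- part Pool.Agent.Lib.MP_9e71a3_gt.PathA
section

/-! Paths and arcs with jumps.  JOB Path. -/

set_option autoImplicit false

namespace Pool.Agent.Lib.MP_9e71a3_gt

open Set Metric Filter Topology

/-- last point of `K` at or before `s` -/
noncomputable def lo (K : Set ℝ) (s : ℝ) : ℝ := sSup (K ∩ Iic s)
/-- first point of `K` at or after `s` -/
noncomputable def hi (K : Set ℝ) (s : ℝ) : ℝ := sInf (K ∩ Ici s)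

theorem lo_spec {K : Set ℝ} (hK : IsClosed K) {s : ℝ} (h : ∃ u ∈ K, u ≤ s) :
    lo K s ∈ K ∧ lo K s ≤ s ∧ ∀ u ∈ K, u ≤ s → u ≤ lo K s := by
  have hb : BddAbove (K ∩ Iic s) := ⟨s, fun _ hu => hu.2⟩
  have := (hK.inter isClosed_Iic).csSup_mem h hb
  exact ⟨this.1, this.2, fun u h1 h2 => le_csSup hb ⟨h1, h2⟩⟩
theorem hi_spec {K : Set ℝ} (hK : IsClosed K) {s : ℝ} (h : ∃ u ∈ K, s ≤ u) :
    hi K s ∈ K ∧ s ≤ hi K s ∧ ∀ u ∈ K, s ≤ u → hi K s ≤ u := by
  have hb : BddBelow (K ∩ Ici s) := ⟨s, fun _ hu => hu.2⟩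
  have := (hK.inter isClosed_Ici).csInf_mem h hb
  exact ⟨this.1, this.2, fun u h1 h2 => csInf_le hb ⟨h1, h2⟩⟩
theorem lo_of_mem {K : Set ℝ} {s : ℝ} (h : s ∈ K) : lo K s = s :=
  IsGreatest.csSup_eq ⟨⟨h, le_refl s⟩, fun _ hu => hu.2⟩
theorem hi_of_mem {K : Set ℝ} {s : ℝ} (h : s ∈ K) : hi K s = s :=
  IsLeast.csInf_eq ⟨⟨h, le_refl s⟩, fun _ hu => hu.2⟩
theorem gap_lo_hi {K : Set ℝ} (hK : IsClosed K) {s : ℝ} (h : ∃ u ∈ K, u ≤ s)
    (h' : ∃ u ∈ K, s ≤ u) (hs : s ∉ K) : Gap K (lo K s) (hi K s) := by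
  obtain ⟨a1, a2, a3⟩ := lo_spec hK h
  obtain ⟨b1, b2, b3⟩ := hi_spec hK h'
  exact ⟨a1, b1, (a2.lt_of_ne fun e => hs (e ▸ a1)).trans_le b2,
    fun u hu => (le_total u s).imp (a3 u hu) (b3 u hu)⟩
theorem Gap.lo_hi {K : Set ℝ} {a b s : ℝ} (h : Gap K a b) (h1 : a < s) (h2 : s < b) :
    lo K s = a ∧ hi K s = b :=
  ⟨IsGreatest.csSup_eq ⟨⟨h.1, h1.le⟩, fun u hu => (h.2.2.2 u hu.1).resolve_right
      (lt_of_le_of_lt hu.2 h2).not_ge⟩,
    IsLeast.csInf_eq ⟨⟨h.2.1, h2.le⟩, fun u hu => (h.2.2.2 u hu.1).resolve_left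
      (lt_of_lt_of_le h1 hu.2).not_ge⟩⟩
theorem gap_inter_Icc {K : Set ℝ} {s t a b : ℝ} :
    Gap (K ∩ Icc s t) a b ↔ Gap K a b ∧ s ≤ a ∧ b ≤ t := by
  constructor
  · rintro ⟨h1, h2, h3, h4⟩
    refine ⟨⟨h1.1, h2.1, h3, fun u hu => ?_⟩, h1.2.1, h2.2.2⟩
    by_contra hn
    push Not at hn
    rcases h4 u ⟨hu, h1.2.1.trans hn.1.le, hn.2.le.trans h2.2.2⟩ with h | h
    · exact hn.1.not_ge h
    · exact hn.2.not_ge h
  · rintro ⟨⟨h1, h2, h3, h4⟩, h5, h6⟩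
    exact ⟨⟨h1, h5, h3.le.trans h6⟩, ⟨h2, h5.trans h3.le, h6⟩, h3, fun u hu => h4 u hu.1⟩

/-- induction along a closed subset of the line -/
theorem gap_induction {K : Set ℝ} (hK : IsClosed K) (Q : ℝ → ℝ → Prop)
    (htrans : ∀ s ∈ K, ∀ t ∈ K, ∀ u ∈ K, s ≤ t → t ≤ u → Q s t → Q t u → Q s u)
    (hgap : ∀ s t, Gap K s t → Q s t)
    (hloc : ∀ u ∈ K, ∃ δ > 0, ∀ s ∈ K, ∀ t ∈ K, s ≤ t → |s - u| < δ → |t - u| < δ → Q s t) :
    ∀ s ∈ K, ∀ t ∈ K, s ≤ t → Q s t := by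
  intro s hs t ht hst
  let S := {u | u ∈ K ∧ s ≤ u ∧ u ≤ t ∧ Q s u}
  have hsS : s ∈ S := by
    obtain ⟨δ, hδ, h⟩ := hloc s hs
    exact ⟨hs, le_rfl, hst, h s hs s hs le_rfl (by simpa) (by simpa)⟩
  have hb : BddAbove S := ⟨t, fun _ hu => hu.2.2.1⟩
  have hm : IsLUB S (sSup S) := isLUB_csSup ⟨s, hsS⟩ hb
  set m := sSup S
  have hmK : m ∈ K := hK.closure_subset_iff.2 (fun u (hu : u ∈ S) => hu.1)
    (hm.mem_closure ⟨s, hsS⟩)
  have hsm : s ≤ m := hm.1 hsS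
  have hmt : m ≤ t := hm.2 fun _ hu => hu.2.2.1
  obtain ⟨δ, hδ, h⟩ := hloc m hmK
  have hQ : Q s m := by
    obtain ⟨u, hu, h1, h2⟩ := hm.exists_between (show m - δ < m by linarith)
    exact htrans s hs u hu.1 m hmK hu.2.1 h2 hu.2.2.2
      (h u hu.1 m hmK h2 (abs_lt.2 ⟨by linarith, by linarith⟩) (by simpa))
  rcases hmt.eq_or_lt with e | hlt
  · exact e ▸ hQ
  exfalso
  have key : ∀ v ∈ K, m < v → v ≤ t → ¬ Q m v := fun v hv h1 h2 h3 =>
    h1.not_ge (hm.1 ⟨hv, hsm.trans h1.le, h2, htrans s hs m hmK v hv hsm h1.le hQ h3⟩)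
  have hw : m < min (m + δ / 2) t := lt_min (by linarith) hlt
  obtain ⟨b1, b2, b3⟩ := hi_spec hK ⟨t, ht, min_le_right (m + δ / 2) t⟩
  refine key _ b1 (hw.trans_le b2) (b3 t ht (min_le_right _ _)) (hgap _ _
    ⟨hmK, b1, hw.trans_le b2, fun u hu => ?_⟩)
  by_contra hn
  push Not at hn
  have h1 : u < min (m + δ / 2) t := not_le.1 fun h' => hn.2.not_ge (b3 u hu h')
  have h2 := (lt_min_iff.1 h1).1
  exact key u hu hn.1 (lt_min_iff.1 h1).2.le
    (h m hmK u hu hn.1.le (by simpa) (abs_lt.2 ⟨by linarith [hn.1], by linarith⟩))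

section
variable {X : Type} [TopologicalSpace X] {R R' : Set (X × X)} {K K' : Set ℝ} {π π' : ℝ → X}
  {a b c : ℝ}

theorem IsPath.le (h : IsPath R K π a b) : a ≤ b := (h.sub h.left).2

theorem IsPath.mono' (h : IsPath R K π a b)
    (hR : ∀ s t, Gap K s t → π s ≠ π t → (π s, π t) ∈ R → (π s, π t) ∈ R') :
    IsPath R' K π a b :=
  ⟨h.compact, h.left, h.right, h.sub, h.cont, fun s t hg =>
    or_iff_not_imp_left.2 fun hn => hR s t hg hn ((h.gap s t hg).resolve_left hn)⟩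

theorem IsPath.self (h : IsPath R K π a b) : IsPath (gaps K π) K π a b :=
  ⟨h.compact, h.left, h.right, h.sub, h.cont, fun s t hg => Or.inr ⟨s, t, hg, rfl⟩⟩

theorem IsArc.gaps_sub (h : IsArc R K π a b) : gaps K π ⊆ R := by
  rintro _ ⟨s, t, hg, rfl⟩
  exact (h.gap s t hg).resolve_left fun e => hg.2.2.1.ne (h.inj hg.1 hg.2.1 e)

theorem IsPath.congr (h : IsPath R K π a b) (hπ : EqOn π' π K) : IsPath R K π' a b :=
  ⟨h.compact, h.left, h.right, h.sub, h.cont.congr hπ, fun s t hg => by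
    rw [hπ hg.1, hπ hg.2.1]; exact h.gap s t hg⟩

omit [TopologicalSpace X] in
theorem gaps_congr (hπ : EqOn π' π K) : gaps K π' = gaps K π := by
  ext p
  exact ⟨fun ⟨s, t, hg, e⟩ => ⟨s, t, hg, by rw [e, hπ hg.1, hπ hg.2.1]⟩,
    fun ⟨s, t, hg, e⟩ => ⟨s, t, hg, by rw [e, hπ hg.1, hπ hg.2.1]⟩⟩

theorem IsPath.restrict (h : IsPath R K π a b) {s t : ℝ} (hs : s ∈ K) (ht : t ∈ K)
    (hst : s ≤ t) : IsPath R (K ∩ Icc s t) π s t :=
  ⟨h.compact.inter_right isClosed_Icc, ⟨hs, le_rfl, hst⟩, ⟨ht, hst, le_rfl⟩, inter_subset_right,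
    h.cont.mono inter_subset_left, fun u v hg => h.gap u v (gap_inter_Icc.1 hg).1⟩

theorem IsArc.restrict (h : IsArc R K π a b) {s t : ℝ} (hs : s ∈ K) (ht : t ∈ K)
    (hst : s ≤ t) : IsArc R (K ∩ Icc s t) π s t :=
  ⟨h.toIsPath.restrict hs ht hst, h.inj.mono inter_subset_left⟩

omit [TopologicalSpace X] in
theorem gaps_inter_Icc_sub (s t : ℝ) : gaps (K ∩ Icc s t) π ⊆ gaps K π :=
  fun _ ⟨u, v, hg, e⟩ => ⟨u, v, (gap_inter_Icc.1 hg).1, e⟩

theorem isPath_single (x : X) (a : ℝ) : IsArc R {a} (fun _ => x) a a :=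
  ⟨⟨isCompact_singleton, rfl, rfl, by simp, continuousOn_const, fun _ _ _ => Or.inl rfl⟩,
    by simp⟩

theorem path_cont_factor {φ : ℝ → ℝ} (hK : IsCompact K) (h : ContinuousOn π K)
    (hc : ContinuousOn φ K) (hπ : ∀ u ∈ K, π' (φ u) = π u) : ContinuousOn π' (φ '' K) := by
  rw [continuousOn_iff_isClosed]
  intro C hC
  refine ⟨φ '' (K ∩ π ⁻¹' C), ((hK.of_isClosed_subset (h.preimage_isClosed_of_isClosed
    hK.isClosed hC) inter_subset_left).image_of_continuousOn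
    (hc.mono inter_subset_left)).isClosed, ?_⟩
  ext p
  constructor
  · rintro ⟨h1, u, hu, rfl⟩
    exact ⟨⟨u, ⟨hu, by rwa [mem_preimage, ← hπ u hu]⟩, rfl⟩, u, hu, rfl⟩
  · rintro ⟨⟨u, hu, rfl⟩, h2⟩
    exact ⟨by rw [mem_preimage, hπ u hu.1]; exact hu.2, h2⟩

theorem path_gap_mono {φ : ℝ → ℝ} (hφ : StrictMonoOn φ K) {p q : ℝ} :
    Gap (φ '' K) p q ↔ ∃ s t, Gap K s t ∧ φ s = p ∧ φ t = q := by
  constructor
  · rintro ⟨⟨s, hs, rfl⟩, ⟨t, ht, rfl⟩, h1, h2⟩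
    exact ⟨s, t, ⟨hs, ht, (hφ.lt_iff_lt hs ht).1 h1, fun u hu => (h2 _ ⟨u, hu, rfl⟩).imp
      (hφ.le_iff_le hu hs).1 (hφ.le_iff_le ht hu).1⟩, rfl, rfl⟩
  · rintro ⟨s, t, ⟨hs, ht, h1, h2⟩, rfl, rfl⟩
    refine ⟨⟨s, hs, rfl⟩, ⟨t, ht, rfl⟩, hφ hs ht h1, ?_⟩
    rintro _ ⟨u, hu, rfl⟩
    exact (h2 u hu).imp (hφ.le_iff_le hu hs).2 (hφ.le_iff_le ht hu).2

theorem path_gap_anti {φ : ℝ → ℝ} (hφ : StrictAntiOn φ K) {p q : ℝ} :
    Gap (φ '' K) p q ↔ ∃ s t, Gap K s t ∧ φ t = p ∧ φ s = q := by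
  constructor
  · rintro ⟨⟨t, ht, rfl⟩, ⟨s, hs, rfl⟩, h1, h2⟩
    exact ⟨s, t, ⟨hs, ht, (hφ.lt_iff_gt ht hs).1 h1, fun u hu => (h2 _ ⟨u, hu, rfl⟩).symm.imp
      (hφ.le_iff_ge hs hu).1 (hφ.le_iff_ge hu ht).1⟩, rfl, rfl⟩
  · rintro ⟨s, t, ⟨hs, ht, h1, h2⟩, rfl, rfl⟩
    refine ⟨⟨t, ht, rfl⟩, ⟨s, hs, rfl⟩, hφ hs ht h1, ?_⟩
    rintro _ ⟨u, hu, rfl⟩
    exact (h2 u hu).symm.imp (hφ.le_iff_ge hu ht).2 (hφ.le_iff_ge hs hu).2

/-- transport along an increasing reparametrisation -/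
theorem IsPath.transport (h : IsPath R K π a b) {φ : ℝ → ℝ} (hφ : StrictMonoOn φ K)
    (hc : ContinuousOn φ K) (hπ : ∀ u ∈ K, π' (φ u) = π u) :
    IsPath R (φ '' K) π' (φ a) (φ b) ∧ gaps (φ '' K) π' = gaps K π := by
  refine ⟨⟨h.compact.image_of_continuousOn hc, ⟨a, h.left, rfl⟩, ⟨b, h.right, rfl⟩, ?_,
    path_cont_factor h.compact h.cont hc hπ, fun p q hg => ?_⟩, ?_⟩
  · rintro _ ⟨u, hu, rfl⟩
    exact ⟨hφ.monotoneOn h.left hu (h.sub hu).1, hφ.monotoneOn hu h.right (h.sub hu).2⟩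
  · replace hg := (path_gap_mono hφ).1 hg
    obtain ⟨s, t, hg, rfl, rfl⟩ := hg
    rw [hπ s hg.1, hπ t hg.2.1]
    exact h.gap s t hg
  · ext z
    constructor
    · rintro ⟨p, q, hg, rfl⟩
      replace hg := (path_gap_mono hφ).1 hg
      obtain ⟨s, t, hg, rfl, rfl⟩ := hg
      exact ⟨s, t, hg, by rw [hπ s hg.1, hπ t hg.2.1]⟩
    · rintro ⟨s, t, hg, rfl⟩
      exact ⟨φ s, φ t, (path_gap_mono hφ).2 ⟨s, t, hg, rfl, rfl⟩, by rw [hπ s hg.1, hπ t hg.2.1]⟩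

/-- transport along a decreasing reparametrisation -/
theorem IsPath.transport_anti (h : IsPath R K π a b) {φ : ℝ → ℝ} (hφ : StrictAntiOn φ K)
    (hc : ContinuousOn φ K) (hπ : ∀ u ∈ K, π' (φ u) = π u) :
    IsPath (Prod.swap '' R) (φ '' K) π' (φ b) (φ a) ∧
      gaps (φ '' K) π' = Prod.swap '' gaps K π := by
  refine ⟨⟨h.compact.image_of_continuousOn hc, ⟨b, h.right, rfl⟩, ⟨a, h.left, rfl⟩, ?_,
    path_cont_factor h.compact h.cont hc hπ, fun p q hg => ?_⟩, ?_⟩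
  · rintro _ ⟨u, hu, rfl⟩
    exact ⟨hφ.antitoneOn hu h.right (h.sub hu).2, hφ.antitoneOn h.left hu (h.sub hu).1⟩
  · replace hg := (path_gap_anti hφ).1 hg
    obtain ⟨s, t, hg, rfl, rfl⟩ := hg
    rw [hπ s hg.1, hπ t hg.2.1]
    exact (h.gap s t hg).imp Eq.symm fun h' => ⟨_, h', rfl⟩
  · ext z
    constructor
    · rintro ⟨p, q, hg, rfl⟩
      replace hg := (path_gap_anti hφ).1 hg
      obtain ⟨s, t, hg, rfl, rfl⟩ := hg
      exact ⟨_, ⟨s, t, hg, rfl⟩, by rw [hπ s hg.1, hπ t hg.2.1]; rfl⟩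
    · rintro ⟨_, ⟨s, t, hg, rfl⟩, rfl⟩
      exact ⟨φ t, φ s, (path_gap_anti hφ).2 ⟨s, t, hg, rfl, rfl⟩,
        by rw [hπ s hg.1, hπ t hg.2.1]; rfl⟩

omit [TopologicalSpace X] in
/-- existence of the transported map -/
theorem exists_transport (π : ℝ → X) {φ : ℝ → ℝ} (hφ : InjOn φ K) :
    ∃ π' : ℝ → X, ∀ u ∈ K, π' (φ u) = π u :=
  ⟨fun p => π (Function.invFunOn φ K p), fun u hu => by
    simp only [hφ.leftInvOn_invFunOn hu]⟩

theorem path_gap_union (h1 : K ⊆ Iic b) (h2 : K' ⊆ Ici b) (hb : b ∈ K) (hb' : b ∈ K') {s t : ℝ} :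
    Gap (K ∪ K') s t ↔ Gap K s t ∨ Gap K' s t := by
  have m1 : ∀ u ∈ K ∪ K', u ≤ b → u ∈ K := fun u hu h =>
    hu.elim id fun h' => le_antisymm h (h2 h') ▸ hb
  have m2 : ∀ u ∈ K ∪ K', b ≤ u → u ∈ K' := fun u hu h =>
    hu.elim (fun h' => le_antisymm h (h1 h') ▸ hb') id
  constructor
  · rintro ⟨hs, ht, h3, h4⟩
    rcases h4 b (Or.inl hb) with h | h
    · exact Or.inr ⟨m2 s hs h, m2 t ht (h.trans h3.le), h3, fun u hu => h4 u (Or.inr hu)⟩
    · exact Or.inl ⟨m1 s hs (h3.le.trans h), m1 t ht h, h3, fun u hu => h4 u (Or.inl hu)⟩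
  · rintro (⟨hs, ht, h3, h4⟩ | ⟨hs, ht, h3, h4⟩)
    · exact ⟨Or.inl hs, Or.inl ht, h3, fun u hu =>
        hu.elim (h4 u) fun h => Or.inr (le_trans (h1 ht) (h2 h))⟩
    · exact ⟨Or.inr hs, Or.inr ht, h3, fun u hu =>
        hu.elim (fun h => Or.inl (le_trans (h1 h) (h2 hs))) (h4 u)⟩

theorem IsPath.concat (h : IsPath R K π a b) (h' : IsPath R K' π' b c) (hb : π b = π' b) :
    IsPath R (K ∪ K') (fun u => if u ≤ b then π u else π' u) a c ∧
      gaps (K ∪ K') (fun u => if u ≤ b then π u else π' u) = gaps K π ∪ gaps K' π' ∧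
      EqOn (fun u => if u ≤ b then π u else π' u) π K ∧
      EqOn (fun u => if u ≤ b then π u else π' u) π' K' := by
  have e1 : EqOn (fun u => if u ≤ b then π u else π' u) π K := fun u hu => if_pos (h.sub hu).2
  have e2 : EqOn (fun u => if u ≤ b then π u else π' u) π' K' := fun u hu => by
    by_cases c : u ≤ b
    · obtain rfl := le_antisymm c (h'.sub hu).1
      exact (if_pos c).trans hb
    · exact if_neg c
  have hg := fun s t => path_gap_union (s := s) (t := t) (fun u hu => (h.sub hu).2)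
    (fun u hu => (h'.sub hu).1) h.right h'.left
  refine ⟨⟨h.compact.union h'.compact, Or.inl h.left, Or.inr h'.right, union_subset
    (h.sub.trans (Icc_subset_Icc_right h'.le)) (h'.sub.trans (Icc_subset_Icc_left h.le)),
    (h.cont.congr e1).union_of_isClosed (h'.cont.congr e2) h.compact.isClosed
      h'.compact.isClosed, fun s t g => ?_⟩, ?_, e1, e2⟩
  · exact ((hg s t).1 g).elim ((h.congr e1).gap s t) ((h'.congr e2).gap s t)
  · rw [← gaps_congr e1, ← gaps_congr e2]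
    ext z
    simp only [gaps, hg, mem_ofPred_eq, mem_union, or_and_right, exists_or]

/-- jumping over the part between `s` and `t` -/
theorem IsPath.shortcut (h : IsPath R K π a b) {s t : ℝ} (hs : s ∈ K) (ht : t ∈ K)
    (hst : s < t) : IsPath (insert (π s, π t) R) (K \ Ioo s t) π a b ∧
      ∀ u v, Gap (K \ Ioo s t) u v ↔ ((u = s ∧ v = t) ∨ (Gap K u v ∧ (v ≤ s ∨ t ≤ u))) := by
  have m : ∀ u, u ∈ K \ Ioo s t ↔ u ∈ K ∧ (u ≤ s ∨ t ≤ u) := fun u => by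
    simp only [Set.mem_sdiff, mem_Ioo, not_and_or, not_lt]
  have hs' := (m s).2 ⟨hs, Or.inl le_rfl⟩
  have ht' := (m t).2 ⟨ht, Or.inr le_rfl⟩
  have key : ∀ u v, Gap (K \ Ioo s t) u v ↔
      ((u = s ∧ v = t) ∨ (Gap K u v ∧ (v ≤ s ∨ t ≤ u))) := by
    intro u v
    constructor
    · rintro ⟨hu, hv, h1, h2⟩
      by_cases c : v ≤ s ∨ t ≤ u
      · refine Or.inr ⟨⟨hu.1, hv.1, h1, fun w hw => ?_⟩, c⟩
        by_cases c' : w ∈ Ioo s t
        · exact c.symm.imp (fun h => (c'.2.trans_le h).le) fun h => (h.trans_lt c'.1).le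
        · exact h2 w ⟨hw, c'⟩
      · push Not at c
        exact Or.inl ⟨le_antisymm (((m u).1 hu).2.resolve_right c.2.not_ge)
          ((h2 s hs').resolve_right c.1.not_ge), le_antisymm ((h2 t ht').resolve_left c.2.not_ge)
          (((m v).1 hv).2.resolve_left c.1.not_ge)⟩
    · rintro (⟨rfl, rfl⟩ | ⟨⟨hu, hv, h1, h2⟩, c⟩)
      · exact ⟨hs', ht', hst, fun w hw => ((m w).1 hw).2⟩
      · exact ⟨(m u).2 ⟨hu, c.imp h1.le.trans id⟩, (m v).2 ⟨hv, c.imp id fun h => h.trans h1.le⟩,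
          h1, fun w hw => h2 w hw.1⟩
  refine ⟨⟨h.compact.diff isOpen_Ioo, (m a).2 ⟨h.left, Or.inl (h.sub hs).1⟩,
    (m b).2 ⟨h.right, Or.inr (h.sub ht).2⟩, sdiff_subset.trans h.sub, h.cont.mono sdiff_subset,
    fun u v hg => ?_⟩, key⟩
  rcases (key u v).1 hg with ⟨rfl, rfl⟩ | ⟨hg, -⟩
  · exact Or.inr (mem_insert _ _)
  · exact (h.gap u v hg).imp id (mem_insert_of_mem _)

theorem path_two {x y : X} (hab : a < b) (h : x = y ∨ (x, y) ∈ R) :
    IsPath R {a, b} (fun u => if u ≤ a then x else y) a b := by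
  refine ⟨(toFinite _).isCompact, by simp, by simp, ?_, (toFinite _).continuousOn _, ?_⟩
  · rintro _ (rfl | rfl)
    · exact ⟨le_rfl, hab.le⟩
    · exact ⟨hab.le, le_rfl⟩
  · rintro s t ⟨rfl | rfl, rfl | rfl, h1, -⟩
    · exact absurd h1 (lt_irrefl _)
    · simpa [hab.not_ge] using h
    · exact absurd h1 hab.not_gt
    · exact absurd h1 (lt_irrefl _)

theorem Joined.refl {N : Set X} {x : X} (hx : x ∈ N) : Joined R N x x :=
  ⟨_, _, 0, 0, (isPath_single x 0).toIsPath, rfl, rfl, fun _ _ => hx⟩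
theorem Joined.mem {N : Set X} {x y : X} (h : Joined R N x y) : x ∈ N ∧ y ∈ N := by
  obtain ⟨K, π, a, b, h, rfl, rfl, hm⟩ := h
  exact ⟨hm h.left, hm h.right⟩
theorem Joined.symm' {N : Set X} {x y : X} (h : Joined R N x y) :
    Joined (Prod.swap '' R) N y x := by
  obtain ⟨K, π, a, b, h, rfl, rfl, hm⟩ := h
  refine ⟨_, fun u => π (-u), _, _, (h.transport_anti (φ := fun u => -u)
    (fun _ _ _ _ h => neg_lt_neg h) continuous_neg.continuousOn fun u _ => by simp).1,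
    by simp, by simp, ?_⟩
  rintro _ ⟨u, hu, rfl⟩
  simpa using hm hu
theorem Joined.trans {N : Set X} {x y z : X} (h : Joined R N x y) (h' : Joined R N y z) :
    Joined R N x z := by
  obtain ⟨K, π, a, b, h, rfl, rfl, hm⟩ := h
  obtain ⟨K', π', a', b', h', e, rfl, hm'⟩ := h'
  have h2 := (h'.transport (π' := fun u => π' (u - (b - a'))) (φ := fun u => u + (b - a'))
    (fun _ _ _ _ h => add_lt_add_left h _) (by fun_prop) fun u _ => by simp).1
  simp only [add_sub_cancel] at h2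
  obtain ⟨h3, -, e1, e2⟩ := h.concat h2 (by simp [e])
  refine ⟨_, _, _, _, h3, e1 h.left, (e2 h2.right).trans (by simp), ?_⟩
  rintro u (hu | hu)
  · rw [e1 hu]; exact hm hu
  · rw [e2 hu]
    obtain ⟨v, hv, rfl⟩ := hu
    simpa using hm' hv
theorem Joined.mono {N N' : Set X} {x y : X} (h : Joined R N x y) (hN : N ⊆ N')
    (hR : ∀ p ∈ R, p.1 ∈ N → p.2 ∈ N → p.1 ≠ p.2 → p ∈ R') : Joined R' N' x y := by
  obtain ⟨K, π, a, b, h, rfl, rfl, hm⟩ := h
  exact ⟨K, π, a, b, h.mono' fun s t hg h1 h2 => hR _ h2 (hm hg.1) (hm hg.2.1) h1, rfl, rfl,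
    hm.mono_right hN⟩
theorem Joined.symm {N : Set X} {x y : X} (hR : ∀ p ∈ R, p.swap ∈ R) (h : Joined R N x y) :
    Joined R N y x :=
  h.symm'.mono Subset.rfl fun _ ⟨q, hq, e⟩ _ _ _ => e ▸ hR q hq
theorem Joined.single {N : Set X} {x y : X} (hx : x ∈ N) (hy : y ∈ N) (h : (x, y) ∈ R) :
    Joined R N x y := by
  refine ⟨_, _, 0, 1, path_two one_pos (Or.inr h), by simp, by simp, fun u _ => ?_⟩
  by_cases c : u ≤ 0
  · simpa [c] using hx
  · simpa [c] using hy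
theorem IsPath.joined (h : IsPath R K π a b) {s t : ℝ} (hs : s ∈ K) (ht : t ∈ K) (hst : s ≤ t) :
    Joined R (π '' (K ∩ Icc s t)) (π s) (π t) :=
  ⟨_, π, s, t, h.restrict hs ht hst, rfl, rfl, mapsTo_image _ _⟩

/-- the trace of a path is compact -/
theorem Joined.compact {N : Set X} {x y : X} (h : Joined R N x y) :
    ∃ N' ⊆ N, IsCompact N' ∧ Joined R N' x y := by
  obtain ⟨K, π, a, b, h, rfl, rfl, hm⟩ := h
  exact ⟨π '' K, hm.image_subset, h.compact.image_of_continuousOn h.cont,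
    K, π, a, b, h, rfl, rfl, mapsTo_image _ _⟩

/-- a function that is locally constant on `N` and respects the jumps is constant along paths -/
theorem Joined.eq_of_loc {β : Type} {N : Set X} {x y : X} (h : Joined R N x y) (f : X → β)
    (hloc : ∀ z ∈ N, ∀ᶠ z' in 𝓝[N] z, f z' = f z)
    (hR : ∀ p ∈ R, p.1 ∈ N → p.2 ∈ N → f p.1 = f p.2) : f x = f y := by
  obtain ⟨K, π, a, b, h, rfl, rfl, hm⟩ := h
  refine gap_induction h.compact.isClosed (fun s t => f (π s) = f (π t))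
    (fun _ _ _ _ _ _ _ _ h1 h2 => h1.trans h2) (fun s t hg => (h.gap s t hg).elim (congrArg f)
      fun h' => hR _ h' (hm hg.1) (hm hg.2.1)) (fun u hu => ?_) a h.left b h.right h.le
  have := ((h.cont u hu).tendsto_nhdsWithin hm).eventually (hloc _ (hm hu))
  rw [eventually_nhdsWithin_iff, Metric.eventually_nhds_iff] at this
  obtain ⟨δ, hδ, h1⟩ := this
  exact ⟨δ, hδ, fun s hs t ht _ h2 h3 => (h1 h2 hs).trans (h1 h3 ht).symm⟩

/-- first exit from an open set -/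
theorem Joined.exit {U N : Set X} {x y : X} (h : Joined R U x y) (hN : IsOpen N) (hx : x ∈ N)
    (hy : y ∉ N) : ∃ v ∈ U, v ∉ N ∧ Joined R (insert v (U ∩ N)) x v := by
  obtain ⟨K, π, a, b, h, rfl, rfl, hm⟩ := h
  obtain ⟨t, ht, hl⟩ := (h.compact.of_isClosed_subset (h.cont.preimage_isClosed_of_isClosed
    h.compact.isClosed hN.isClosed_compl) inter_subset_left).exists_isLeast ⟨b, h.right, hy⟩
  have _ := hx
  refine ⟨π t, hm ht.1, ht.2, _, π, a, t, h.restrict h.left ht.1 (h.sub ht.1).1, rfl, rfl,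
    fun u hu => ?_⟩
  rcases hu.2.2.eq_or_lt with e | e
  · exact Or.inl (congrArg π e)
  · exact Or.inr ⟨hm hu.1, by_contra fun c => e.not_ge (hl ⟨hu.1, c⟩)⟩

end

section
variable {X : Type} [MetricSpace X] {R : Set (X × X)} {K : Set ℝ} {π : ℝ → X} {a b : ℝ}

theorem IsArc.modulus (h : IsArc R K π a b) {ε : ℝ} (hε : 0 < ε) :
    ∃ η > 0, ∀ s ∈ K, ∀ t ∈ K, dist (π s) (π t) < η → |s - t| < ε := by
  have hc : IsCompact (K ×ˢ K ∩ {p : ℝ × ℝ | ε ≤ |p.1 - p.2|}) :=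
    (h.compact.prod h.compact).inter_right (isClosed_le continuous_const (by fun_prop))
  obtain ⟨η, h1, h2⟩ := hc.exists_forall_le' (f := fun p : ℝ × ℝ => dist (π p.1) (π p.2)) (a := 0)
    (continuous_dist.comp_continuousOn ((h.cont.comp continuousOn_fst fun _ hp => hp.1.1).prodMk
      (h.cont.comp continuousOn_snd fun _ hp => hp.1.2))) fun p hp => dist_pos.2 fun e => by
      have h3 := hp.2
      rw [mem_ofPred_eq, h.inj hp.1.1 hp.1.2 e] at h3
      simp [hε.not_ge] at h3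
  exact ⟨η, h1, fun s hs t ht h3 => not_le.1 fun h4 => h3.not_ge (h2 (s, t) ⟨⟨hs, ht⟩, h4⟩)⟩

theorem IsPath.modulus (h : IsPath R K π a b) {ε : ℝ} (hε : 0 < ε) :
    ∃ η > 0, ∀ s ∈ K, ∀ t ∈ K, |s - t| < η → dist (π s) (π t) < ε :=
  Metric.uniformContinuousOn_iff.1 (h.compact.uniformContinuousOn_of_continuous h.cont) ε hε

end

end Pool.Agent.Lib.MP_9e71a3_gt
end

-- part Pool.Agent.Lib.MP_9e71a3_gt.PathB
section

/-! Complete paths from chains of all finenesses. -/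

set_option autoImplicit false

namespace Pool.Agent.Lib.MP_9e71a3_gt

open Set Metric Filter Topology

variable {X : Type} [MetricSpace X]

theorem path_fin_chain {R : Set (X × X)} {B : Set X} {p q : X} (hp : p ∈ B)
    (h : Relation.ReflTransGen (fun p q => q ∈ B ∧ (p, q) ∈ R) p q) {s : ℝ} : ∀ t, s < t →
    ∃ F σ, F.Finite ∧ IsPath R F σ s t ∧ σ s = p ∧ σ t = q ∧ MapsTo σ F B ∧ (s + t) / 2 ∈ F := by
  have step : ∀ {m t : ℝ} {F σ} {q : X}, m < t → F.Finite → IsPath R F σ s m → MapsTo σ F B →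
      q ∈ B → (σ m = q ∨ (σ m, q) ∈ R) → ∃ F' σ', F'.Finite ∧ IsPath R F' σ' s t ∧ σ' s = σ s ∧
        σ' t = q ∧ MapsTo σ' F' B ∧ m ∈ F' := by
    intro m t F σ q hm hF h1 h2 h3 h4
    obtain ⟨a1, -, a2, a3⟩ := h1.concat (path_two hm h4) (by simp)
    refine ⟨_, _, hF.union (toFinite _), a1, a2 h1.left,
      (a3 (by simp)).trans (if_neg hm.not_ge), ?_, Or.inl h1.right⟩
    rintro u (hu | hu)
    · rw [a2 hu]; exact h2 hu
    · rw [a3 hu]
      by_cases c : u ≤ m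
      · simpa [c] using h2 h1.right
      · simpa [c] using h3
  induction h with
  | refl =>
    intro t ht
    obtain ⟨F, σ, a1, a2, a3, a4, a5, -⟩ := step (t := (s + t) / 2) (by linarith) (toFinite _)
      (isPath_single p s).toIsPath (fun _ _ => hp) hp (Or.inl rfl)
    obtain ⟨F', σ', b1, b2, b3, b4⟩ := step (t := t) (by linarith) a1 a2 a5 hp (Or.inl a4)
    exact ⟨F', σ', b1, b2, b3.trans a3, b4⟩
  | tail _ h2 ih =>
    intro t ht
    obtain ⟨F, σ, a1, a2, a3, a4, a5, -⟩ := ih ((s + t) / 2) (by linarith)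
    obtain ⟨F', σ', b1, b2, b3, b4⟩ := step (t := t) (by linarith) a1 a2 a5 h2.1
      (Or.inr (a4 ▸ h2.2))
    exact ⟨F', σ', b1, b2, b3.trans a3, b4⟩

/-- a finite stage of the construction -/
structure PathSt (L : Set (X × X)) (δ ℓ : ℝ) (K : Set ℝ) (π : ℝ → X) : Prop where
  fin : K.Finite
  left : 0 ∈ K
  right : 1 ∈ K
  sub : K ⊆ Icc 0 1
  gap : ∀ s t, Gap K s t → (π s, π t) ∈ L ∨ (dist (π s) (π t) < δ ∧ t - s ≤ ℓ)

/-- refinement of stages -/
structure PathRef (L : Set (X × X)) (ε : ℝ) (K : Set ℝ) (π : ℝ → X) (K' : Set ℝ) (π' : ℝ → X) :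
    Prop where
  sub : K ⊆ K'
  eq : EqOn π' π K
  fin : ∀ s t, Gap K s t → (π s, π t) ∈ L → Gap K' s t
  near : ∀ s t, Gap K s t → ∀ u ∈ K', s ≤ u → u < t → dist (π' u) (π s) < ε

theorem PathSt.gap_at {L : Set (X × X)} {δ ℓ : ℝ} {K : Set ℝ} {π : ℝ → X} (h : PathSt L δ ℓ K π)
    {u : ℝ} (hu : u ∈ Icc (0 : ℝ) 1) (hn : u ∉ K) :
    Gap K (lo K u) (hi K u) ∧ lo K u < u ∧ u < hi K u := by
  obtain ⟨a1, a2, -⟩ := lo_spec h.fin.isClosed ⟨0, h.left, hu.1⟩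
  obtain ⟨b1, b2, -⟩ := hi_spec h.fin.isClosed ⟨1, h.right, hu.2⟩
  exact ⟨gap_lo_hi h.fin.isClosed ⟨0, h.left, hu.1⟩ ⟨1, h.right, hu.2⟩ hn,
    a2.lt_of_ne fun e => hn (e ▸ a1), b2.lt_of_ne fun e => hn (e ▸ b1)⟩

theorem PathSt.step {L : Set (X × X)} {ε δ ℓ η : ℝ} {K : Set ℝ} {π : ℝ → X} (hε : 0 < ε)
    (hη : 0 < η) (hlc : ∀ x y : X, dist x y < δ → Relation.ReflTransGen
      (fun p q => p ∈ ball x ε ∧ q ∈ ball x ε ∧ (dist p q < η ∨ (p, q) ∈ L)) x y)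
    (h : PathSt L δ ℓ K π) : ∃ K' π', PathSt L η (ℓ / 2) K' π' ∧ PathRef L ε K π K' π' := by
  classical
  have ex : ∀ s t, ∃ F σ, Gap K s t → (π s, π t) ∉ L → F.Finite ∧
      IsPath {p | dist p.1 p.2 < η ∨ p ∈ L} F σ s t ∧ σ s = π s ∧ σ t = π t ∧
      MapsTo σ F (ball (π s) ε) ∧ (s + t) / 2 ∈ F := by
    intro s t
    by_cases c : Gap K s t ∧ (π s, π t) ∉ L
    · obtain ⟨F, σ, hF⟩ := path_fin_chain (R := {p | dist p.1 p.2 < η ∨ p ∈ L})
        (mem_ball_self hε) (Relation.ReflTransGen.mono (fun _ _ h => h.2) _ _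
          (hlc _ _ ((h.gap s t c.1).resolve_left c.2).1)) t c.1.2.2.1
      exact ⟨F, σ, fun _ _ => hF⟩
    · exact ⟨∅, π, fun h1 h2 => (c ⟨h1, h2⟩).elim⟩
  choose F σ hF using ex
  let K' := K ∪ {u | ∃ s t, Gap K s t ∧ (π s, π t) ∉ L ∧ u ∈ F s t}
  let π' : ℝ → X := fun u => if u ∈ K then π u else σ (lo K u) (hi K u) u
  have e1 : EqOn π' π K := fun u hu => if_pos hu
  have ins : ∀ s t, Gap K s t → ∀ u ∈ K', s < u → u < t → (π s, π t) ∉ L ∧ u ∈ F s t := by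
    rintro s t hg u (hu | ⟨s', t', hg', hL, hu⟩) h1 h2
    · exact ((hg.2.2.2 u hu).elim h1.not_ge h2.not_ge).elim
    · have h3 := (hF s' t' hg' hL).2.1.sub hu
      have n : u ∉ K := fun hu => (hg.2.2.2 u hu).elim h1.not_ge h2.not_ge
      have a := hg'.lo_hi (h3.1.lt_of_ne fun e => n (e ▸ hg'.1))
        (h3.2.lt_of_ne fun e => n (e ▸ hg'.2.1))
      have b := hg.lo_hi h1 h2
      obtain rfl := a.1.symm.trans b.1
      obtain rfl := a.2.symm.trans b.2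
      exact ⟨hL, hu⟩
  have ins' : ∀ s t, Gap K s t → (π s, π t) ∉ L → ∀ u ∈ K', s ≤ u → u ≤ t →
      u ∈ F s t ∧ π' u = σ s t u := by
    intro s t hg hL u hu h1 h2
    obtain ⟨-, a2, a3, a4, -⟩ := hF s t hg hL
    rcases h1.eq_or_lt with rfl | h1
    · exact ⟨a2.left, (e1 hg.1).trans a3.symm⟩
    rcases h2.eq_or_lt with rfl | h2
    · exact ⟨a2.right, (e1 hg.2.1).trans a4.symm⟩
    refine ⟨(ins s t hg u hu h1 h2).2, ?_⟩
    have n : u ∉ K := fun hu => (hg.2.2.2 u hu).elim h1.not_ge h2.not_ge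
    simp only [π', if_neg n, (hg.lo_hi h1 h2).1, (hg.lo_hi h1 h2).2]
  have fin : ∀ s t, Gap K s t → (π s, π t) ∈ L → Gap K' s t := fun s t hg hL =>
    ⟨Or.inl hg.1, Or.inl hg.2.1, hg.2.2.1, fun u hu => by
      by_contra hn
      push Not at hn
      exact (ins s t hg u hu hn.1 hn.2).1 hL⟩
  have sub : K' ⊆ Icc 0 1 := by
    rintro u (hu | ⟨s, t, hg, hL, hu⟩)
    · exact h.sub hu
    · exact Icc_subset_Icc (h.sub hg.1).1 (h.sub hg.2.1).2 ((hF s t hg hL).2.1.sub hu)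
  refine ⟨K', π', ⟨h.fin.union ?_, Or.inl h.left, Or.inl h.right, sub, fun u v hg' => ?_⟩,
    subset_union_left, e1, fin, fun s t hg u hu h1 h2 => ?_⟩
  · refine (((h.fin.prod h.fin).inter_of_left {p | Gap K p.1 p.2 ∧ (π p.1, π p.2) ∉ L}).biUnion
      (t := fun p => F p.1 p.2) fun p hp => (hF _ _ hp.2.1 hp.2.2).1).subset ?_
    rintro u ⟨s, t, hg, hL, hu⟩
    exact mem_biUnion (x := (s, t)) ⟨⟨hg.1, hg.2.1⟩, hg, hL⟩ hu
  · have huv := hg'.2.2.1
    have m1 : u < (u + v) / 2 := by linarith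
    have m2 : (u + v) / 2 < v := by linarith
    obtain ⟨hg, b1, b2⟩ := h.gap_at (u := (u + v) / 2)
      ⟨(sub hg'.1).1.trans m1.le, m2.le.trans (sub hg'.2.1).2⟩
      fun hm => (hg'.2.2.2 _ (Or.inl hm)).elim m1.not_ge m2.not_ge
    generalize lo K ((u + v) / 2) = s at hg b1
    generalize hi K ((u + v) / 2) = t at hg b2
    have c1 : s ≤ u := (hg'.2.2.2 s (Or.inl hg.1)).resolve_right (b1.trans m2).not_ge
    have c2 : v ≤ t := (hg'.2.2.2 t (Or.inl hg.2.1)).resolve_left (m1.trans b2).not_ge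
    by_cases hL : (π s, π t) ∈ L
    · have a := (fin s t hg hL).lo_hi b1 b2
      have b := hg'.lo_hi m1 m2
      rw [b.1.symm.trans a.1, b.2.symm.trans a.2, e1 hg.1, e1 hg.2.1]
      exact Or.inl hL
    · obtain ⟨-, a2, -, -, -, a6⟩ := hF s t hg hL
      have d1 := ins' s t hg hL u hg'.1 c1 (huv.le.trans c2)
      have d2 := ins' s t hg hL v hg'.2.1 (c1.trans huv.le) c2
      have hl := ((h.gap s t hg).resolve_left hL).2
      have len : v - u ≤ ℓ / 2 := by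
        rcases hg'.2.2.2 _ (Or.inr ⟨s, t, hg, hL, a6⟩) with c | c <;> linarith
      rw [d1.2, d2.2]
      rcases a2.gap u v ⟨d1.1, d2.1, huv, fun w hw => hg'.2.2.2 w (Or.inr ⟨s, t, hg, hL, hw⟩)⟩ with
        c | c | c
      · exact Or.inr ⟨by rwa [c, dist_self], len⟩
      · exact Or.inr ⟨c, len⟩
      · exact Or.inl c
  · by_cases hL : (π s, π t) ∈ L
    · obtain rfl := le_antisymm h1 (((fin s t hg hL).2.2.2 u hu).resolve_right h2.not_ge)
      rwa [e1 hg.1, dist_self]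
    · have d := ins' s t hg hL u hu h1 h2.le
      rw [d.2]
      exact (hF s t hg hL).2.2.2.2.1 d.1

theorem path_limit [CompactSpace X] {L : Set (X × X)} {C : ℝ} (hC : 0 < C) (K : ℕ → Set ℝ)
    (π : ℕ → ℝ → X) (hs : ∀ n, PathSt L (C / 2 ^ n) (1 / 2 ^ n) (K n) (π n))
    (hr : ∀ n, PathRef L (C / 2 / 2 ^ n) (K n) (π n) (K (n + 1)) (π (n + 1))) :
    ∃ K' π', IsPath L K' π' 0 1 ∧ EqOn π' (π 0) (K 0) ∧
      ∀ u ∈ K', ∃ v ∈ K 0, dist (π 0 v) (π' u) ≤ C := by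
  let f : ℕ → ℝ → X := fun n u => π n (lo (K n) u)
  have los := fun n u (hu : u ∈ Icc (0 : ℝ) 1) => lo_spec (hs n).fin.isClosed ⟨0, (hs n).left, hu.1⟩
  have cau : ∀ u ∈ Icc (0 : ℝ) 1, ∀ n, dist (f n u) (f (n + 1) u) ≤ C / 2 / 2 ^ n := by
    intro u hu n
    by_cases c : u ∈ K n
    · simp only [f, lo_of_mem c, lo_of_mem ((hr n).sub c), (hr n).eq c, dist_self]
      positivity
    · obtain ⟨hg, -, b2⟩ := (hs n).gap_at hu c
      obtain ⟨a1, a2, a3⟩ := los (n + 1) u hu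
      rw [dist_comm]
      exact ((hr n).near _ _ hg _ a1 (a3 _ ((hr n).sub hg.1) (los n u hu).2.1)
        (a2.trans_lt b2)).le
  have ex : ∀ u, ∃ z, u ∈ Icc (0 : ℝ) 1 → ∀ n, dist (f n u) z ≤ C / 2 ^ n := by
    intro u
    by_cases hu : u ∈ Icc (0 : ℝ) 1
    · obtain ⟨z, hz⟩ := cauchySeq_tendsto_of_complete (cauchySeq_of_le_geometric_two (cau u hu))
      exact ⟨z, fun _ => dist_le_of_le_geometric_two_of_tendsto (cau u hu) hz⟩
    · exact ⟨π 0 0, fun h => (hu h).elim⟩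
  choose g hg using ex
  have small : ∀ c : ℝ, ∀ e > 0, ∀ n, ∃ m, n ≤ m ∧ c / 2 ^ m < e := by
    intro c e he n
    have : Tendsto (fun m : ℕ => c / 2 ^ m) atTop (𝓝 0) :=
      tendsto_const_nhds.div_atTop (tendsto_pow_atTop_atTop_of_one_lt one_lt_two)
    exact ((eventually_ge_atTop n).and (this.eventually (gt_mem_nhds he))).exists
  have mono : ∀ n m, n ≤ m → K n ⊆ K m ∧ EqOn (π m) (π n) (K n) ∧
      ∀ s t, Gap (K n) s t → (π n s, π n t) ∈ L → Gap (K m) s t := by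
    intro n m h
    induction h with
    | refl => exact ⟨Subset.rfl, fun _ _ => rfl, fun _ _ h _ => h⟩
    | step _ ih =>
      refine ⟨ih.1.trans (hr _).sub, fun u hu => ((hr _).eq (ih.1 hu)).trans (ih.2.1 hu),
        fun s t h1 h2 => (hr _).fin s t (ih.2.2 s t h1 h2) ?_⟩
      rwa [ih.2.1 h1.1, ih.2.1 h1.2.1]
  have geq : ∀ n, EqOn g (π n) (K n) := by
    intro n u hu
    refine (dist_le_zero.1 (le_of_forall_pos_le_add fun e he => ?_)).symm
    obtain ⟨m, h1, h2⟩ := small C e he n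
    have := hg u ((hs n).sub hu) m
    simp only [f, lo_of_mem ((mono n m h1).1 hu), (mono n m h1).2.1 hu] at this
    linarith
  have sub : closure (⋃ n, K n) ⊆ Icc 0 1 :=
    closure_minimal (iUnion_subset fun n => (hs n).sub) isClosed_Icc
  have inK : ∀ n, K n ⊆ closure (⋃ n, K n) := fun n => (subset_iUnion K n).trans subset_closure
  have final : ∀ n s t, Gap (K n) s t → (π n s, π n t) ∈ L →
      ∀ u ∈ closure (⋃ n, K n), u ≤ s ∨ t ≤ u := by
    intro n s t h1 h2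
    refine closure_minimal (t := Iic s ∪ Ici t) (iUnion_subset fun m u hu => ?_)
      (isClosed_Iic.union isClosed_Ici)
    exact ((mono n (max n m) (le_max_left _ _)).2.2 s t h1 h2).2.2.2 u
      ((mono m (max n m) (le_max_right _ _)).1 hu)
  refine ⟨closure (⋃ n, K n), g, ⟨isCompact_Icc.of_isClosed_subset isClosed_closure sub,
    inK 0 (hs 0).left, inK 0 (hs 0).right, sub, ?_, fun s t h => Or.inr ?_⟩, geq 0,
    fun u hu => ⟨_, (los 0 u (sub hu)).1, by simpa using hg u (sub hu) 0⟩⟩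
  · rw [Metric.continuousOn_iff]
    intro u hu e he
    obtain ⟨n, -, hn⟩ := small (3 * C) e he 0
    obtain ⟨ρ, hρ, h1⟩ := Metric.isOpen_iff.1 ((hs n).fin.subset
      (sdiff_subset (t := {u}))).isClosed.isOpen_compl u (by simp)
    have h2 : ∀ w ∈ K n, dist w u < ρ → w = u := fun w hw h => by_contra fun c => h1 h ⟨hw, c⟩
    refine ⟨ρ, hρ, fun v hv huv => ?_⟩
    have key : dist (f n v) (f n u) ≤ C / 2 ^ n := by
      have p0 : 0 ≤ C / 2 ^ n := by positivity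
      obtain ⟨a1, a2, a3⟩ := los n u (sub hu)
      obtain ⟨b1, b2, b3⟩ := los n v (sub hv)
      rw [Real.dist_eq, abs_lt] at huv
      by_cases c : lo (K n) v = lo (K n) u
      · simp only [f, c, dist_self, p0]
      rcases lt_trichotomy u v with huv' | rfl | huv'
      · refine (c (le_antisymm (a3 _ b1 (not_lt.1 fun c' => c'.ne' (h2 _ b1 ?_)))
          (b3 _ a1 (a2.trans huv'.le)))).elim
        rw [Real.dist_eq, abs_lt]
        constructor <;> linarith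
      · exact (c rfl).elim
      have c1 : v < lo (K n) u := not_le.1 fun c' =>
        c (le_antisymm (a3 _ b1 (b2.trans huv'.le)) (b3 _ a1 c'))
      have c2 : lo (K n) u = u := h2 _ a1 (by
        rw [Real.dist_eq, abs_lt]
        constructor <;> linarith)
      have c3 : v ∉ K n := fun c' => huv'.ne (h2 v c' (by rwa [Real.dist_eq, abs_lt]))
      obtain ⟨g1, g2, g3⟩ := (hs n).gap_at (sub hv) c3
      have c4 : hi (K n) v = u := by
        have := (g1.2.2.2 _ a1).resolve_left (g2.trans c1).not_ge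
        refine h2 _ g1.2.1 ?_
        rw [Real.dist_eq, abs_lt]
        constructor <;> linarith
      rcases (hs n).gap _ _ g1 with c5 | c5
      · exact ((final n _ _ g1 c5 v hv).elim g2.not_ge g3.not_ge).elim
      · simp only [f, c2]
        rw [c4] at c5
        exact c5.1.le
    have := dist_triangle4 (g v) (f n v) (f n u) (g u)
    have e1 := hg u (sub hu) n
    have e2 := hg v (sub hv) n
    rw [dist_comm] at e2
    rw [mul_div_assoc] at hn
    linarith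
  · have hst := h.2.2.1
    obtain ⟨n, -, hn⟩ := small 1 (t - s) (by linarith) 0
    have m1 : s < (s + t) / 2 := by linarith
    have m2 : (s + t) / 2 < t := by linarith
    obtain ⟨g1, b1, b2⟩ := (hs n).gap_at (u := (s + t) / 2)
      ⟨(sub h.1).1.trans m1.le, m2.le.trans (sub h.2.1).2⟩
      fun hm => (h.2.2.2 _ (inK n hm)).elim m1.not_ge m2.not_ge
    generalize lo (K n) ((s + t) / 2) = s' at g1 b1
    generalize hi (K n) ((s + t) / 2) = t' at g1 b2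
    have c1 : s' ≤ s := (h.2.2.2 s' (inK n g1.1)).resolve_right (b1.trans m2).not_ge
    have c2 : t ≤ t' := (h.2.2.2 t' (inK n g1.2.1)).resolve_left (m1.trans b2).not_ge
    have hL := ((hs n).gap _ _ g1).resolve_right fun c => by linarith [c.2]
    obtain rfl := le_antisymm c1 ((final n _ _ g1 hL s h.1).resolve_right (m1.trans b2).not_ge)
    obtain rfl := le_antisymm c2 ((final n _ _ g1 hL t h.2.1).resolve_left (b1.trans m2).not_ge)
    rwa [geq n g1.1, geq n g1.2.1]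

/-- complete paths from chains of all finenesses -/
theorem joined_of_lc [CompactSpace X] (L : Set (X × X))
    (hlc : ∀ ε > 0, ∃ δ > 0, ∀ x y : X, dist x y < δ → ∀ η > 0, Relation.ReflTransGen
      (fun p q => p ∈ ball x ε ∧ q ∈ ball x ε ∧ (dist p q < η ∨ (p, q) ∈ L)) x y) :
    ∀ ε > 0, ∃ δ > 0, ∀ x y : X, dist x y < δ → Joined L (ball x ε) x y := by
  intro ε hε
  have hC : 0 < ε / 2 := by positivity
  set C := ε / 2 with hCe
  choose d hd hd' using fun n : ℕ => hlc (C / 2 / 2 ^ n) (by positivity)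
  let δ : ℕ → ℝ := fun n => min (d n) (C / 2 ^ n)
  have hδ : ∀ n, 0 < δ n := fun n => lt_min (hd n) (by positivity)
  have step : ∀ n (a : Set ℝ × (ℝ → X)), ∃ b : Set ℝ × (ℝ → X),
      PathSt L (δ n) (1 / 2 ^ n) a.1 a.2 → PathSt L (δ (n + 1)) (1 / 2 ^ (n + 1)) b.1 b.2 ∧
        PathRef L (C / 2 / 2 ^ n) a.1 a.2 b.1 b.2 := by
    intro n a
    by_cases h : PathSt L (δ n) (1 / 2 ^ n) a.1 a.2
    · obtain ⟨K', π', h1⟩ := h.step (ε := C / 2 / 2 ^ n) (by positivity) (hδ (n + 1))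
        fun x y hxy => hd' n x y (hxy.trans_le (min_le_left _ _)) _ (hδ (n + 1))
      rw [div_div, ← pow_succ] at h1
      exact ⟨(K', π'), fun _ => h1⟩
    · exact ⟨a, fun h' => (h h').elim⟩
  choose G hG using step
  refine ⟨δ 0, hδ 0, fun x y hxy => ?_⟩
  let a : ℕ → Set ℝ × (ℝ → X) := fun n =>
    Nat.rec (({0, 1}, fun u => if u ≤ 0 then x else y) : Set ℝ × (ℝ → X)) G n
  have hs : ∀ n, PathSt L (δ n) (1 / 2 ^ n) (a n).1 (a n).2 := by
    intro n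
    induction n with
    | zero =>
      have h := path_two (R := {p | dist p.1 p.2 < δ 0}) (x := x) (y := y) one_pos (Or.inr hxy)
      refine ⟨toFinite ({0, 1} : Set ℝ), h.left, h.right, h.sub, fun s t hg => Or.inr ⟨?_, ?_⟩⟩
      · exact (h.gap s t hg).elim (fun e => (dist_eq_zero.2 e).trans_lt (hδ 0)) id
      · linarith [(h.sub hg.1).1, (h.sub hg.2.1).2]
    | succ n ih => exact (hG n _ ih).1
  obtain ⟨K', π', h1, h2, h3⟩ := path_limit hC (fun n => (a n).1) (fun n => (a n).2)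
    (fun n => ⟨(hs n).fin, (hs n).left, (hs n).right, (hs n).sub, fun s t hg =>
      ((hs n).gap s t hg).imp id fun c => ⟨c.1.trans_le (min_le_right _ _), c.2⟩⟩)
    fun n => (hG n _ (hs n)).2
  refine ⟨K', π', 0, 1, h1, (h2 (hs 0).left).trans (if_pos le_rfl),
    (h2 (hs 0).right).trans (if_neg one_pos.not_ge), fun u hu => ?_⟩
  obtain ⟨v, -, hv⟩ := h3 u hu
  have h4 : dist x ((a 0).2 v) < C := by
    change dist x (if v ≤ 0 then x else y) < C
    split_ifs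
    · rwa [dist_self]
    · simpa using hxy.trans_le (min_le_right _ _)
  rw [mem_ball']
  linarith [dist_triangle x ((a 0).2 v) (π' u)]

end Pool.Agent.Lib.MP_9e71a3_gt
end

-- part Pool.Agent.Lib.MP_9e71a3_gt.PathC
section

/-! Loop erasure. -/

set_option autoImplicit false

namespace Pool.Agent.Lib.MP_9e71a3_gt

open Set Metric Filter Topology

variable {X : Type} [MetricSpace X] {R : Set (X × X)} {K : Set ℝ} {π π' : ℝ → X} {a b : ℝ}

theorem IsPath.path_mono (h : IsPath R K π a b) {φ : ℝ → ℝ} (hφ : MonotoneOn φ K)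
    (hc : ContinuousOn φ K) (hπ : ∀ u ∈ K, π' (φ u) = π u) :
    IsPath R (φ '' K) π' (φ a) (φ b) := by
  refine ⟨h.compact.image_of_continuousOn hc, ⟨a, h.left, rfl⟩, ⟨b, h.right, rfl⟩, ?_,
    path_cont_factor h.compact h.cont hc hπ, ?_⟩
  · rintro _ ⟨u, hu, rfl⟩
    exact ⟨hφ h.left hu (h.sub hu).1, hφ hu h.right (h.sub hu).2⟩
  · rintro _ _ ⟨⟨s, hs, rfl⟩, ⟨t, ht, rfl⟩, h1, h2⟩
    obtain ⟨s', hs', a1⟩ := (h.compact.of_isClosed_subset (hc.preimage_isClosed_of_isClosed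
      h.compact.isClosed (isClosed_Iic (a := φ s))) inter_subset_left).exists_isGreatest
      ⟨s, hs, le_refl (φ s)⟩
    obtain ⟨t', ht', a2⟩ := (h.compact.of_isClosed_subset (hc.preimage_isClosed_of_isClosed
      h.compact.isClosed (isClosed_Ici (a := φ t))) inter_subset_left).exists_isLeast
      ⟨t, ht, le_refl (φ t)⟩
    have e1 : φ s' = φ s := le_antisymm hs'.2 (hφ hs hs'.1 (a1 ⟨hs, le_refl (φ s)⟩))
    have e2 : φ t' = φ t := le_antisymm (hφ ht'.1 ht (a2 ⟨ht, le_refl (φ t)⟩)) ht'.2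
    rw [← e1, ← e2, hπ s' hs'.1, hπ t' ht'.1]
    refine h.gap s' t' ⟨hs'.1, ht'.1, not_le.1 fun c => h1.not_ge ?_, fun u hu =>
      (h2 _ ⟨u, hu, rfl⟩).imp (fun c => a1 ⟨hu, c⟩) fun c => a2 ⟨hu, c⟩⟩
    rw [← e1, ← e2]
    exact hφ ht'.1 hs'.1 c

theorem IsPath.path_min (h : IsPath R K π a b) : ∃ K' ⊆ K, IsPath R K' π a b ∧
    ∀ s ∈ K', ∀ t ∈ K', s < t → π s = π t → Gap K' s t := by
  let S : Set (Set ℝ) := {K' | K' ⊆ K ∧ IsClosed K' ∧ a ∈ K' ∧ b ∈ K' ∧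
    ∀ s t, Gap K' s t → π s = π t ∨ Gap K s t}
  have path : ∀ K' ∈ S, IsPath R K' π a b := fun K' h' =>
    ⟨h.compact.of_isClosed_subset h'.2.1 h'.1, h'.2.2.1, h'.2.2.2.1, h'.1.trans h.sub,
      h.cont.mono h'.1, fun s t hg => (h'.2.2.2.2 s t hg).elim Or.inl (h.gap s t)⟩
  have chain : ∀ c ⊆ S, IsChain (· ⊆ ·) c → c.Nonempty → ∃ lb ∈ S, ∀ s ∈ c, lb ⊆ s := by
    intro c hc hch hne
    obtain ⟨K0, hK0⟩ := id hne
    refine ⟨⋂₀ c, ⟨(sInter_subset_of_mem hK0).trans (hc hK0).1,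
      isClosed_sInter fun T hT => (hc hT).2.1, fun T hT => (hc hT).2.2.1,
      fun T hT => (hc hT).2.2.2.1, fun s t hg => ?_⟩, fun T hT => sInter_subset_of_mem hT⟩
    by_contra hn
    rw [not_or] at hn
    have hs : s ∈ K := (hc hK0).1 (hg.1 K0 hK0)
    have ht : t ∈ K := (hc hK0).1 (hg.2.1 K0 hK0)
    obtain ⟨m, hm, m1, m2⟩ : ∃ m ∈ K, s < m ∧ m < t := by
      by_contra c
      push Not at c
      exact hn.2 ⟨hs, ht, hg.2.2.1, fun u hu => (le_or_gt u s).imp id (c u hu)⟩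
    obtain ⟨η, hη, h1⟩ := h.modulus (half_pos (dist_pos.2 hn.1))
    obtain ⟨ρ, hρ, r1, r2, r3⟩ : ∃ ρ > 0, ρ ≤ η ∧ ρ ≤ m - s ∧ ρ ≤ t - m :=
      ⟨min η (min (m - s) (t - m)), lt_min hη (lt_min (by linarith) (by linarith)),
        min_le_left _ _, (min_le_right _ _).trans (min_le_left _ _),
        (min_le_right _ _).trans (min_le_right _ _)⟩
    have : Nonempty c := hne.to_subtype
    obtain ⟨T, hT⟩ := (isCompact_Icc (a := s + ρ) (b := t - ρ)).elim_directed_family_closed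
      (fun T : c => (T : Set ℝ)) (fun T => (hc T.2).2.1) (by
        rw [← sInter_eq_iInter]
        refine eq_empty_of_forall_notMem fun u hu => ?_
        rcases hg.2.2.2 u hu.2 with c | c <;> linarith [hu.1.1, hu.1.2])
      (fun T T' => (hch.total T.2 T'.2).elim (fun c => ⟨T, Subset.rfl, c⟩)
        fun c => ⟨T', c, Subset.rfl⟩)
    have out : ∀ u ∈ (T : Set ℝ), u < s + ρ ∨ t - ρ < u := fun u hu => by
      by_contra c
      push Not at c
      exact (hT ▸ (⟨c, hu⟩ : u ∈ Icc (s + ρ) (t - ρ) ∩ T) : u ∈ (∅ : Set ℝ))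
    have cl := (hc T.2).2.1
    obtain ⟨a1, a2, a3⟩ := lo_spec cl ⟨s, hg.1 _ T.2, m1.le⟩
    obtain ⟨b1, b2, b3⟩ := hi_spec cl ⟨t, hg.2.1 _ T.2, m2.le⟩
    have g := gap_lo_hi cl ⟨s, hg.1 _ T.2, m1.le⟩ ⟨t, hg.2.1 _ T.2, m2.le⟩
      fun c => by rcases out m c with c | c <;> linarith
    have a4 := a3 s (hg.1 _ T.2) m1.le
    have b4 := b3 t (hg.2.1 _ T.2) m2.le
    have a5 := (out _ a1).resolve_right (by linarith)
    have b5 := (out _ b1).resolve_left (by linarith)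
    rcases (hc T.2).2.2.2.2 _ _ g with c | c
    · have d1 := h1 s hs _ ((hc T.2).1 a1) (abs_lt.2 ⟨by linarith, by linarith⟩)
      have d2 := h1 _ ((hc T.2).1 b1) t ht (abs_lt.2 ⟨by linarith, by linarith⟩)
      rw [c] at d1
      linarith [dist_triangle (π s) (π (hi T m)) (π t)]
    · rcases c.2.2.2 m hm with c | c <;> linarith
  obtain ⟨K', -, hK'⟩ := zorn_superset_nonempty S chain K
    ⟨Subset.rfl, h.compact.isClosed, h.left, h.right, fun _ _ hg => Or.inr hg⟩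
  refine ⟨K', hK'.1.1, path K' hK'.1, fun s hs t ht hst e => ?_⟩
  obtain ⟨h1, h2⟩ := (path K' hK'.1).shortcut hs ht hst
  have : K' ⊆ K' \ Ioo s t := hK'.2 (y := K' \ Ioo s t)
    ⟨sdiff_subset.trans hK'.1.1, h1.compact.isClosed, h1.left, h1.right, fun u v hg => by
      rcases (h2 u v).1 hg with ⟨rfl, rfl⟩ | ⟨hg, -⟩
      · exact Or.inl e
      · exact hK'.1.2.2.2.2 u v hg⟩ sdiff_subset
  refine ⟨hs, ht, hst, fun u hu => ?_⟩
  simpa only [mem_Ioo, not_and_or, not_lt] using (this hu).2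

theorem IsPath.path_whitney [CompactSpace X] (h : IsPath R K π a b) : ∃ W : ℝ → ℝ,
    ContinuousOn W K ∧ MonotoneOn W K ∧
    ∀ s ∈ K, ∀ t ∈ K, s ≤ t → (W s = W t ↔ π '' (K ∩ Iic t) ⊆ π '' (K ∩ Iic s)) := by
  have : Nonempty X := ⟨π a⟩
  obtain ⟨x, hx⟩ := TopologicalSpace.exists_dense_seq X
  let A : ℝ → Set X := fun s => π '' (K ∩ Iic s)
  let d : ℕ → ℝ → ℝ := fun i s => 1 / 2 / 2 ^ i * infDist (x i) (A s)
  have ne : ∀ s ∈ K, π s ∈ A s := fun s hs => ⟨s, ⟨hs, le_refl s⟩, rfl⟩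
  have mono : ∀ s t, s ≤ t → A s ⊆ A t := fun s t hst =>
    image_mono (inter_subset_inter_right _ (Iic_subset_Iic.2 hst))
  have hsum := hasSum_geometric_two' (1 : ℝ)
  have sm : ∀ s ∈ K, Summable fun i => d i s := fun s hs =>
    .of_nonneg_of_le (fun i => mul_nonneg (by positivity) infDist_nonneg)
      (fun i => mul_le_mul_of_nonneg_left ((infDist_le_dist_of_mem (ne s hs)).trans
        (dist_le_diam_of_mem isCompact_univ.isBounded trivial trivial)) (by positivity))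
      (hsum.summable.mul_right _)
  have anti : ∀ s ∈ K, ∀ t, s ≤ t → ∀ i, d i t ≤ d i s := fun s hs t hst i =>
    mul_le_mul_of_nonneg_left (infDist_le_infDist_of_subset (mono s t hst) ⟨_, ne s hs⟩)
      (by positivity)
  have le : ∀ s ∈ K, ∀ t ∈ K, s ≤ t → ∑' i, d i t ≤ ∑' i, d i s := fun s hs t ht hst =>
    (sm t ht).tsum_le_tsum (anti s hs t hst) (sm s hs)
  refine ⟨fun s => -∑' i, d i s, ?_, fun s hs t ht hst => neg_le_neg (le s hs t ht hst),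
    fun s hs t ht hst => ⟨fun e => ?_, fun e => ?_⟩⟩
  · rw [Metric.continuousOn_iff]
    intro u hu ε hε
    obtain ⟨η, hη, h1⟩ := h.modulus (half_pos hε)
    have key : ∀ s ∈ K, ∀ t ∈ K, s ≤ t → t - s < η → ∑' i, d i s ≤ ∑' i, d i t + ε / 2 := by
      intro s hs t ht hst h2
      have := (hsum.mul_right (ε / 2)).tsum_eq
      rw [one_mul] at this
      rw [← this, ← (sm t ht).tsum_add (hsum.summable.mul_right _)]
      refine (sm s hs).tsum_le_tsum (fun i => ?_) ((sm t ht).add (hsum.summable.mul_right _))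
      rw [← mul_add]
      refine mul_le_mul_of_nonneg_left ?_ (by positivity)
      rw [← sub_le_iff_le_add, le_infDist ⟨_, ne t ht⟩]
      rintro _ ⟨v, hv, rfl⟩
      rcases le_total v s with c | c
      · linarith [infDist_le_dist_of_mem (x := x i) (show π v ∈ A s from ⟨v, ⟨hv.1, c⟩, rfl⟩)]
      · have h3 : v ≤ t := hv.2
        linarith [infDist_le_dist_of_mem (x := x i) (ne s hs), dist_triangle (x i) (π v) (π s),
          h1 v hv.1 s hs (abs_lt.2 ⟨by linarith, by linarith⟩)]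
    refine ⟨η, hη, fun v hv huv => ?_⟩
    rw [Real.dist_eq, abs_lt] at huv ⊢
    rcases le_total u v with c | c
    · constructor <;> linarith [key u hu v hv c huv.2, le u hu v hv c]
    · constructor <;> linarith [key v hv u hu c (by linarith), le v hv u hu c]
  · intro z hz
    by_contra c
    have cl : IsClosed (A s) := ((h.compact.inter_right isClosed_Iic).image_of_continuousOn
      (h.cont.mono inter_subset_left)).isClosed
    have hr := (cl.notMem_iff_infDist_pos ⟨_, ne s hs⟩).1 c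
    obtain ⟨i, hi⟩ := hx.exists_dist_lt z (half_pos hr)
    refine ((sm t ht).tsum_lt_tsum (i := i) (anti s hs t hst) ?_ (sm s hs)).ne (neg_injective e).symm
    refine mul_lt_mul_of_pos_left ?_ (by positivity)
    linarith [infDist_le_dist_of_mem (x := x i) (show z ∈ A t from hz), dist_comm z (x i),
      infDist_le_infDist_add_dist (x := z) (y := x i) (s := A s)]
  · simp only [d, show A s = A t from (mono s t hst).antisymm e]

/-- loop erasure -/
theorem Joined.arc [CompactSpace X] {N : Set X} {x y : X} (h : Joined R N x y) :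
    ∃ K π a b, IsArc R K π a b ∧ π a = x ∧ π b = y ∧ MapsTo π K N := by
  obtain ⟨K0, π, a, b, h0, rfl, rfl, hm⟩ := h
  obtain ⟨K, hK, h, hmin⟩ := h0.path_min
  obtain ⟨W, h1, h2, h3⟩ := h.path_whitney
  have key : ∀ s ∈ K, ∀ t ∈ K, s ≤ t → (W s = W t ↔ π s = π t) := by
    intro s hs t ht hst
    rw [h3 s hs t ht hst]
    constructor
    · intro c
      obtain ⟨u, hu, e⟩ := c ⟨t, ⟨ht, le_refl t⟩, rfl⟩
      rcases hst.eq_or_lt with rfl | hst
      · rfl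
      · rw [← e, le_antisymm hu.2 (((hmin u hu.1 t ht (lt_of_le_of_lt hu.2 hst) e).2.2.2 s
          hs).resolve_right hst.not_ge)]
    · rintro e _ ⟨u, hu, rfl⟩
      rcases le_or_gt u s with c | c
      · exact ⟨u, ⟨hu.1, c⟩, rfl⟩
      · rw [le_antisymm hu.2 (((hmin s hs t ht (c.trans_le hu.2) e).2.2.2 u hu.1).resolve_left
          c.not_ge)]
        exact ⟨s, ⟨hs, le_refl s⟩, e⟩
  have key' : ∀ s ∈ K, ∀ t ∈ K, (W s = W t ↔ π s = π t) := fun s hs t ht =>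
    (le_total s t).elim (key s hs t ht) fun c => by rw [eq_comm, key t ht s hs c, eq_comm]
  have hπ : ∀ u ∈ K, π (Function.invFunOn W K (W u)) = π u := fun u hu =>
    (key' _ (Function.invFunOn_mem ⟨u, hu, rfl⟩) u hu).1 (Function.invFunOn_eq ⟨u, hu, rfl⟩)
  refine ⟨W '' K, fun p => π (Function.invFunOn W K p), W a, W b, ⟨h.path_mono h2 h1 hπ, ?_⟩,
    hπ a h.left, hπ b h.right, ?_⟩
  · rintro _ ⟨s, hs, rfl⟩ _ ⟨t, ht, rfl⟩ e
    exact (key' s hs t ht).2 ((hπ s hs).symm.trans (e.trans (hπ t ht)))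
  · rintro _ ⟨s, hs, rfl⟩
    exact hm (hK (Function.invFunOn_mem ⟨s, hs, rfl⟩))

end Pool.Agent.Lib.MP_9e71a3_gt
end

-- part Pool.Agent.Lib.MP_9e71a3_gt.Path
section

/-! Paths and arcs with jumps: see PathA (basics), PathB (`joined_of_lc`), PathC (`Joined.arc`). -/
end
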