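import Mathlib

-- part Pool.Agent.Lib.MP_9e71a3_gt.Cells
section

/-!
Boundary cells: the data that the plane geometry layer needs.
-/

set_option autoImplicit false

namespace Pool.Agent.Lib.MP_9e71a3_gt

open Set Metric Filter Topology

/-- a cell: a periodic closed parameter set `K`, a boundary map `π` on `K`, and the set `In` of
interior points -/
structure BC (X : Type) where
  per : ℝ
  K : Set ℝ
  π : ℝ → X
  In : Set X

namespace BC
variable {X : Type}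

def img (c : BC X) : Set X := c.π '' c.K

def P (c : BC X) : Set X := c.In ∪ c.img

structure WF [TopologicalSpace X] (c : BC X) : Prop where
  per_pos : 0 < c.per
  closed : IsClosed c.K
  ne : c.K.Nonempty
  perK : ∀ u, u + c.per ∈ c.K ↔ u ∈ c.K
  perπ : ∀ u ∈ c.K, c.π (u + c.per) = c.π u
  cont : ContinuousOn c.π c.K
  inj : ∀ u ∈ c.K, ∀ v ∈ c.K, u ≤ v → v < u + c.per → c.π u = c.π v → u = v
  disj : Disjoint c.In c.img
  closedP : IsClosed c.P

/-- `c'` is obtained from `c` by moving interior points into gaps of the boundary -/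
structure Ext (c c' : BC X) : Prop where
  per : c'.per = c.per
  sub : c.K ⊆ c'.K
  eq : ∀ u ∈ c.K, c'.π u = c.π u
  In : c'.In = c.In \ c'.img
  img : c'.img ⊆ c.P

/-- `c` is cut along an arc from the parameter `s1` to the parameter `s2` -/
structure Cut (c : BC X) (s1 s2 : ℝ) (c1 c2 : BC X) : Prop where
  pt1 : ∃ u ∈ c.K, s1 < u ∧ u < s2
  pt2 : ∃ u ∈ c.K, s2 < u ∧ u < s1 + c.per
  per1 : c1.per = s2 - s1 + 1
  per2 : c2.per = s1 + c.per - s2 + 1
  K1 : ∀ u ∈ Icc s1 s2, u ∈ c1.K ↔ u ∈ c.K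
  π1 : ∀ u ∈ Icc s1 s2, u ∈ c.K → c1.π u = c.π u
  K2 : ∀ u ∈ Icc s2 (s1 + c.per), u ∈ c2.K ↔ u ∈ c.K
  π2 : ∀ u ∈ Icc s2 (s1 + c.per), u ∈ c.K → c2.π u = c.π u
  KA : ∀ v ∈ Ioo (0:ℝ) 1, s2 + v ∈ c1.K ↔ s2 - v ∈ c2.K
  πA : ∀ v ∈ Ioo (0:ℝ) 1, s2 + v ∈ c1.K → c1.π (s2 + v) = c2.π (s2 - v)
  memA : ∀ v ∈ Ioo (0:ℝ) 1, s2 + v ∈ c1.K → c1.π (s2 + v) ∈ c.In
  In1 : c1.In ⊆ c.In
  In2 : c2.In ⊆ c.In
  disj1 : Disjoint c1.In c2.P
  disj2 : Disjoint c2.In c1.P
  cover : c.In ⊆ c1.P ∪ c2.P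

end BC

/-- finitely many extensions and cuts inside the class `C` lead to cells satisfying `Q` -/
inductive Red {X : Type} (C Q : BC X → Prop) : BC X → Prop
  | base (c : BC X) : C c → Q c → Red C Q c
  | ext (c c' : BC X) : C c → c.Ext c' → Red C Q c' → Red C Q c
  | cut (c : BC X) (s1 s2 : ℝ) (c1 c2 : BC X) : C c → c.Cut s1 s2 c1 c2 → Red C Q c1 →
      Red C Q c2 → Red C Q c

/-- a class of cells that can be subdivided -/
structure CellSys {X : Type} [MetricSpace X] (C : BC X → Prop) : Prop where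
  wf : ∀ c, C c → c.WF
  small : ∀ c, C c → ∀ ε > 0,
    Red C (fun c' => c'.In = ∅ ∨ ∀ x ∈ c'.P, ∀ y ∈ c'.P, dist x y < ε) c
  free : ∀ c, C c → c.In.Nonempty → ∀ a1 b1 a2 b2 : ℝ, a1 < b1 → b1 ≤ a2 → a2 < b2 →
    b2 ≤ a1 + c.per → (∃ u ∈ c.K, b1 ≤ u ∧ u ≤ a2) → (∃ u ∈ c.K, b2 ≤ u ∧ u ≤ a1 + c.per) →
    ∃ c' s1 s2 c1 c2, C c' ∧ C c1 ∧ C c2 ∧ c.Ext c' ∧ c'.Cut s1 s2 c1 c2 ∧
      s1 ∈ Ioo a1 b1 ∧ s2 ∈ Ioo a2 b2

end Pool.Agent.Lib.MP_9e71a3_gt
end

-- part Pool.Agent.Lib.MP_9e71a3_gt.PlaneA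
section

/-! Convex bodies in the plane with a boundary parametrisation.  JOB PlaneA. -/

set_option autoImplicit false

namespace Pool.Agent.Lib.MP_9e71a3_gt

open Set Metric Filter Topology

abbrev E2 := EuclideanSpace ℝ (Fin 2)

/-- a convex body with a periodic parametrisation of its boundary -/
structure Body (B : Set E2) (per : ℝ) (γ : ℝ → E2) : Prop where
  compact : IsCompact B
  convex : Convex ℝ B
  int : (interior B).Nonempty
  per_pos : 0 < per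
  cont : Continuous γ
  periodic : Function.Periodic γ per
  inj : ∀ u v, u ≤ v → v < u + per → γ u = γ v → u = v
  range_eq : range γ = frontier B

variable {B : Set E2} {per : ℝ} {γ : ℝ → E2}

theorem plane_reduce (hper : 0 < per) (a u : ℝ) : ∃ n : ℤ, u + n * per ∈ Ico a (a + per) :=
  ⟨-toIcoDiv hper a u, by
    have h1 := toIcoMod_mem_Ico hper a u
    have h2 := toIcoMod_add_toIcoDiv_zsmul hper a u
    rw [zsmul_eq_mul] at h2
    rwa [show u + ((-toIcoDiv hper a u : ℤ) : ℝ) * per = toIcoMod hper a u by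
      push_cast; linarith]⟩

theorem plane_inj (hper : 0 < per) (hp : Function.Periodic γ per) {a : ℝ}
    (h : InjOn γ (Ico a (a + per))) (u v : ℝ) (huv : u ≤ v) (hv : v < u + per) (e : γ u = γ v) :
    u = v := by
  obtain ⟨n, hn⟩ := plane_reduce hper a u
  obtain ⟨m, hm⟩ := plane_reduce hper a v
  have h1 := h hn hm (by rw [hp.int_mul n, hp.int_mul m, e])
  have h2 : (0 : ℝ) ≤ (n - m : ℤ) := by
    push_cast
    exact nonneg_of_mul_nonneg_left (by linarith : 0 ≤ ((n : ℝ) - m) * per) hper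
  have h3 : ((n - m : ℤ) : ℝ) < 1 := by
    push_cast
    exact lt_of_mul_lt_mul_right (by linarith : ((n : ℝ) - m) * per < 1 * per) hper.le
  have h4 : n = m := by
    have a1 : 0 ≤ n - m := by exact_mod_cast h2
    have a2 : n - m < 1 := by exact_mod_cast h3
    omega
  rw [h4] at h1
  linarith

theorem plane_range (hper : 0 < per) (hp : Function.Periodic γ per) (a : ℝ) :
    range γ = γ '' Icc a (a + per) :=
  Subset.antisymm (by
    rintro _ ⟨u, rfl⟩
    obtain ⟨n, hn⟩ := plane_reduce hper a u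
    exact ⟨_, Ico_subset_Icc_self hn, hp.int_mul n u⟩) (image_subset_range _ _)

theorem plane_periodize (hper : 0 < per) (a : ℝ) {δ : ℝ → E2} (hc : Continuous δ)
    (he : δ a = δ (a + per)) : ∃ γ : ℝ → E2, Continuous γ ∧ Function.Periodic γ per ∧
      EqOn γ δ (Icc a (a + per)) := by
  have : Fact (0 < per) := ⟨hper⟩
  have hp : Function.Periodic (fun x : ℝ => AddCircle.liftIco per a δ (x : AddCircle per)) per :=
    fun x => by simp only [AddCircle.coe_add_period]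
  refine ⟨_, (AddCircle.liftIco_continuous he hc.continuousOn).comp (AddCircle.continuous_mk' per),
    hp, fun x hx => ?_⟩
  rcases hx.2.eq_or_lt with rfl | h
  · exact (hp a).trans ((AddCircle.liftIco_coe_apply ⟨le_rfl, by linarith⟩).trans he)
  · exact AddCircle.liftIco_coe_apply ⟨hx.1, h⟩

theorem body_disc (hper : 0 < per) : ∃ γ, Body (closedBall (0 : E2) 1) per γ := by
  let e := Complex.orthonormalBasisOneI.repr
  have hc : 0 < 2 * Real.pi / per := by positivity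
  have hp : Function.Periodic (fun u => e (circleMap 0 1 (2 * Real.pi / per * u))) per :=
    fun u => by
      simp only [mul_add, div_mul_cancel₀ _ hper.ne']
      rw [periodic_circleMap]
  refine ⟨_, isCompact_closedBall _ _, convex_closedBall _ _,
    ⟨0, ball_subset_interior_closedBall (mem_ball_self one_pos)⟩, hper, by fun_prop, hp,
    plane_inj hper hp (a := 0) fun u hu v hv h => ?_, ?_⟩
  · have key : ∀ u ∈ Ico 0 (0 + per), 2 * Real.pi / per * u ∈ Ico 0 (2 * Real.pi) := fun u hu =>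
      ⟨mul_nonneg hc.le hu.1, by
        have := mul_lt_mul_of_pos_left hu.2 hc
        rwa [zero_add, div_mul_cancel₀ _ hper.ne'] at this⟩
    exact mul_left_cancel₀ hc.ne' (injOn_circleMap_of_abs_sub_le' (c := 0) one_ne_zero
      (by simp) (key u hu) (key v hv) (e.injective h))
  · rw [frontier_closedBall _ one_ne_zero]
    ext x
    constructor
    · rintro ⟨u, rfl⟩
      simp
    · intro hx
      have : e.symm x ∈ range (circleMap 0 1) := by
        rw [range_circleMap]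
        simpa using hx
      obtain ⟨θ, hθ⟩ := this
      exact ⟨θ / (2 * Real.pi / per), by simp only [mul_div_cancel₀ _ hc.ne', hθ]; simp⟩

theorem Body.mem_frontier (h : Body B per γ) (u : ℝ) : γ u ∈ frontier B :=
  h.range_eq ▸ mem_range_self u

theorem Body.mem (h : Body B per γ) (u : ℝ) : γ u ∈ B :=
  h.compact.isClosed.frontier_subset (h.mem_frontier u)

theorem Body.eq_of_eq (h : Body B per γ) {u v : ℝ} (huv : γ u = γ v) :
    ∃ n : ℤ, v = u + n * per := by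
  obtain ⟨n, hn⟩ := plane_reduce h.per_pos u v
  have := h.inj u _ hn.1 hn.2 (by rw [h.periodic.int_mul n, huv])
  exact ⟨-n, by push_cast; linarith⟩

/-- every body is a round disc after a homeomorphism of the plane -/
theorem Body.round (h : Body B per γ) : ∃ H : E2 ≃ₜ E2, H '' closedBall 0 1 = B ∧
    Body (closedBall (0 : E2) 1) per (H.symm ∘ γ) := by
  obtain ⟨H, -, h2, h3⟩ := exists_homeomorph_image_interior_closure_frontier_eq_unitBall
    h.convex h.int h.compact.isBounded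
  rw [h.compact.isClosed.closure_eq] at h2
  refine ⟨H.symm, by rw [← h2]; exact H.toEquiv.symm_image_image B, isCompact_closedBall _ _,
    convex_closedBall _ _, ⟨0, ball_subset_interior_closedBall (mem_ball_self one_pos)⟩, h.per_pos,
    H.continuous.comp h.cont, h.periodic.comp _,
    fun u v h1 h2 e => h.inj u v h1 h2 (H.injective e), ?_⟩
  rw [range_comp, h.range_eq, frontier_closedBall _ one_ne_zero]
  exact h3

theorem Body.disc_mid (h : Body (closedBall (0 : E2) 1) per γ) {s1 s2 : ℝ} (h1 : s1 < s2)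
    (h2 : s2 < s1 + per) : midpoint ℝ (γ s1) (γ s2) ∈ interior (closedBall (0 : E2) 1) :=
  (strictConvex_closedBall ℝ (0 : E2) 1).openSegment_subset (h.mem s1) (h.mem s2)
    (fun e => h1.ne (h.inj _ _ h1.le h2 e)) (midpoint_mem_openSegment _ _)

theorem plane_ray (hB : Convex ℝ B) {m d : E2} (hm : m ∈ interior B) {s t : ℝ}
    (ht : m + t • d ∈ B) (hs : 0 ≤ s) (hst : s < t) : m + s • d ∈ interior B := by
  have h0 : 0 < t := hs.trans_lt hst
  have := hB.combo_interior_self_mem_interior hm ht (a := 1 - s / t) (b := s / t)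
    (by rw [sub_pos, div_lt_one h0]; exact hst) (by positivity) (by ring)
  rwa [smul_add, smul_smul, div_mul_cancel₀ _ h0.ne', ← add_assoc, ← add_smul, sub_add_cancel,
    one_smul] at this

theorem plane_exit (hB : IsCompact B) {p d : E2} (hp : p ∈ B) (hd : d ≠ 0) :
    ∃ t : ℝ, 0 ≤ t ∧ p + t • d ∈ frontier B := by
  have he : IsClosedEmbedding fun t : ℝ => p + t • d :=
    (Homeomorph.addLeft p).isClosedEmbedding.comp (isClosedEmbedding_smul_left hd)
  obtain ⟨t, h1, h2⟩ := (he.isCompact_preimage hB).exists_isGreatest ⟨0, by simpa using hp⟩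
  refine ⟨t, h2 (by simpa using hp), subset_closure h1, fun h => ?_⟩
  have h3 : ∀ᶠ s in 𝓝[>] t, p + s • d ∈ B :=
    nhdsWithin_le_nhds (he.continuous.continuousAt.preimage_mem_nhds (mem_interior_iff_mem_nhds.1 h))
  obtain ⟨s, h4, h5⟩ := (h3.and self_mem_nhdsWithin).exists
  exact absurd (h2 h4) (not_le.2 h5)

theorem plane_exit' (hB : IsCompact B) {p d : E2} (hp : p ∈ interior B) (hd : d ≠ 0) :
    ∃ t : ℝ, 0 < t ∧ p + t • d ∈ frontier B := by
  obtain ⟨t, h1, h2⟩ := plane_exit hB (interior_subset hp) hd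
  refine ⟨t, h1.lt_of_ne ?_, h2⟩
  rintro rfl
  exact h2.2 (by simpa using hp)

theorem plane_hull (hB : IsCompact B) {K : Set E2} (hK : Convex ℝ K) (h : frontier B ⊆ K) :
    B ⊆ K := fun p hp => by
  have hd : (EuclideanSpace.single 0 1 : E2) ≠ 0 := by simp
  obtain ⟨t, h1, h2⟩ := plane_exit hB hp hd
  obtain ⟨s, h3, h4⟩ := plane_exit hB hp (neg_ne_zero.2 hd)
  have hc := (hK.affine_preimage (AffineMap.lineMap p (p + EuclideanSpace.single 0 1))).ordConnected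
  have := hc.out (x := -s) (y := t) (by simpa [AffineMap.lineMap_apply, add_comm] using h h4)
    (by simpa [AffineMap.lineMap_apply, add_comm] using h h2) (a := 0) ⟨by linarith, h1⟩
  simpa using this

theorem plane_par (f : E2 →L[ℝ] ℝ) (hf : f ≠ 0) {d y : E2} (hd : d ≠ 0) (h1 : f d = 0)
    (h2 : f y = 0) : ∃ t : ℝ, y = t • d := by
  have e : ∀ x : E2, f x = x 0 * f (EuclideanSpace.single 0 1) +
      x 1 * f (EuclideanSpace.single 1 1) := fun x => by
    rw [← smul_eq_mul, ← smul_eq_mul, ← map_smul, ← map_smul, ← map_add]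
    congr 1
    ext i
    fin_cases i <;> simp
  rw [e] at h1 h2
  have h3 : y 0 * d 1 = y 1 * d 0 := by
    by_contra h
    refine hf (ContinuousLinearMap.ext fun x => ?_)
    have a : f (EuclideanSpace.single 0 1) = 0 := mul_left_cancel₀ (sub_ne_zero.2 h) (by
      linear_combination d 1 * h2 - y 1 * h1)
    have b : f (EuclideanSpace.single 1 1) = 0 := mul_left_cancel₀ (sub_ne_zero.2 h) (by
      linear_combination y 0 * h1 - d 0 * h2)
    rw [e, a, b]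
    simp
  by_cases h0 : d 0 = 0
  · have h4 : d 1 ≠ 0 := fun h => hd (by ext i; fin_cases i <;> simp [h0, h])
    refine ⟨y 1 / d 1, ?_⟩
    ext i
    fin_cases i
    · simpa [h0, h4] using h3
    · simp [h4]
  · refine ⟨y 0 / d 0, ?_⟩
    ext i
    fin_cases i
    · simp [h0]
    · simp
      field_simp
      linarith

/-- the part of a line through the interior that lies in the body -/
theorem plane_line (hB : Convex ℝ B) {p q : E2} (hp : p ∈ frontier B) (hq : q ∈ frontier B)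
    (hpB : p ∈ B) (hqB : q ∈ B) (hm : midpoint ℝ p q ∈ interior B) (t : ℝ) :
    (AffineMap.lineMap p q t ∈ B → t ∈ Icc (0 : ℝ) 1) ∧
      (t ∈ Ioo (0 : ℝ) 1 → AffineMap.lineMap p q t ∈ interior B) := by
  have e1 : ∀ s : ℝ, AffineMap.lineMap p q s = midpoint ℝ p q + (s - 1 / 2) • (q - p) := fun s => by
    simp only [AffineMap.lineMap_apply, midpoint_eq_smul_add, vsub_eq_sub, vadd_eq_add,
      invOf_eq_inv]
    module
  have e2 : ∀ s : ℝ, AffineMap.lineMap p q s = midpoint ℝ p q + (1 / 2 - s) • (p - q) := fun s => by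
    rw [e1]
    module
  have a1 : q = midpoint ℝ p q + (1 / 2 : ℝ) • (q - p) := by
    have := e1 1
    norm_num at this
    norm_num
    exact this
  have a2 : p = midpoint ℝ p q + (1 / 2 : ℝ) • (p - q) := by
    have := e2 0
    norm_num at this
    norm_num
    exact this
  refine ⟨fun h => ⟨not_lt.1 fun h0 => hp.2 ?_, not_lt.1 fun h0 => hq.2 ?_⟩, fun h => ?_⟩
  · rw [a2]
    exact plane_ray hB hm (e2 t ▸ h) (by norm_num) (by linarith)
  · rw [a1]
    exact plane_ray hB hm (e1 t ▸ h) (by norm_num) (by linarith)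
  · rcases le_total t (1 / 2) with h0 | h0
    · rw [e2]
      exact plane_ray hB hm (a2 ▸ hpB) (by linarith) (by linarith [h.1])
    · rw [e1]
      exact plane_ray hB hm (a1 ▸ hqB) (by linarith) (by linarith [h.2])

theorem Body.on_line (h : Body B per γ) {s1 s2 : ℝ} (hmid : midpoint ℝ (γ s1) (γ s2) ∈ interior B)
    (f : E2 →L[ℝ] ℝ) (hf : f ≠ 0) (h12 : f (γ s1) = f (γ s2)) {x : E2} (hx : x ∈ B)
    (hfx : f x = f (γ s1)) : ∃ t ∈ Icc (0 : ℝ) 1, x = AffineMap.lineMap (γ s1) (γ s2) t := by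
  have hd : γ s2 - γ s1 ≠ 0 := fun e => (h.mem_frontier s1).2 (by
    rwa [sub_eq_zero.1 e, midpoint_self] at hmid)
  obtain ⟨t, ht⟩ := plane_par f hf hd (by rw [map_sub, h12, sub_self]) (y := x - γ s1)
    (by rw [map_sub, hfx, sub_self])
  have e : x = AffineMap.lineMap (γ s1) (γ s2) t := by
    rw [AffineMap.lineMap_apply, vsub_eq_sub, ← ht, vadd_eq_add, sub_add_cancel]
  exact ⟨t, (plane_line h.convex (h.mem_frontier _) (h.mem_frontier _) (h.mem _) (h.mem _)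
    hmid t).1 (e ▸ hx), e⟩

theorem Body.sides (h : Body B per γ) {s1 s2 : ℝ} (h1 : s1 < s2) (h2 : s2 < s1 + per)
    (hmid : midpoint ℝ (γ s1) (γ s2) ∈ interior B) (f : E2 →L[ℝ] ℝ) (hf : f ≠ 0)
    (h12 : f (γ s1) = f (γ s2)) :
    ((∀ u ∈ Ioo s1 s2, f (γ s1) < f (γ u)) ∧ ∀ u ∈ Ioo s2 (s1 + per), f (γ u) < f (γ s1)) ∨
    ((∀ u ∈ Ioo s1 s2, f (γ u) < f (γ s1)) ∧ ∀ u ∈ Ioo s2 (s1 + per), f (γ s1) < f (γ u)) := by
  have key : ∀ u, s1 < u → u < s1 + per → u ≠ s2 → f (γ u) ≠ f (γ s1) := fun u a b c e => by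
    obtain ⟨t, ht, e⟩ := h.on_line hmid f hf h12 (h.mem u) e
    rcases ht.1.eq_or_lt with rfl | t0
    · exact a.ne (h.inj _ _ a.le b (by simpa using e.symm))
    rcases ht.2.eq_or_lt with rfl | t1
    · have e' : γ u = γ s2 := by simpa using e
      rcases lt_or_gt_of_ne c with c | c
      · exact c.ne (h.inj _ _ c.le (by linarith) e')
      · exact c.ne (h.inj _ _ c.le (by linarith) e'.symm)
    · exact (h.mem_frontier u).2 (e ▸ (plane_line h.convex (h.mem_frontier _) (h.mem_frontier _)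
        (h.mem _) (h.mem _) hmid t).2 ⟨t0, t1⟩)
  have hc : Continuous fun u => f (γ u) := f.continuous.comp h.cont
  have hm : f (midpoint ℝ (γ s1) (γ s2)) = f (γ s1) := by
    rw [midpoint_eq_smul_add, map_smul, map_add, ← h12]
    simp only [invOf_eq_inv, smul_eq_mul]
    ring
  have ex : ∀ d : E2, d ≠ 0 → ∃ t : ℝ, 0 < t ∧ ∃ u ∈ Icc s1 (s1 + per),
      f (γ u) = f (γ s1) + t * f d := fun d hd => by
    obtain ⟨t, t0, ht⟩ := plane_exit' h.compact hmid hd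
    rw [← h.range_eq, plane_range h.per_pos h.periodic s1] at ht
    obtain ⟨u, hu, e⟩ := ht
    exact ⟨t, t0, u, hu, by rw [e, map_add, hm, map_smul, smul_eq_mul]⟩
  obtain ⟨d, hd⟩ : ∃ d, 0 < f d := by
    obtain ⟨d, hd⟩ := ContinuousLinearMap.exists_ne_zero hf
    rcases lt_or_gt_of_ne hd with hd | hd
    exacts [⟨-d, by simpa using hd⟩, ⟨d, hd⟩]
  have hd0 : d ≠ 0 := by rintro rfl; simp at hd
  have cases : ∀ u ∈ Icc s1 (s1 + per), f (γ u) = f (γ s1) ∨ u ∈ Ioo s1 s2 ∨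
      u ∈ Ioo s2 (s1 + per) := fun u hu => by
    rcases hu.1.eq_or_lt with rfl | a
    · exact Or.inl rfl
    rcases hu.2.eq_or_lt with rfl | b
    · exact Or.inl (by rw [h.periodic])
    rcases lt_trichotomy u s2 with c | rfl | c
    exacts [Or.inr (Or.inl ⟨a, c⟩), Or.inl h12.symm, Or.inr (Or.inr ⟨c, b⟩)]
  rcases isPreconnected_Ioo.mapsTo_Ioi_or_Iio hc.continuousOn (b := f (γ s1))
    (fun u (hu : u ∈ Ioo s1 s2) => key u hu.1 (hu.2.trans h2) hu.2.ne) with a | a <;>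
  rcases isPreconnected_Ioo.mapsTo_Ioi_or_Iio hc.continuousOn (b := f (γ s1))
    (fun u (hu : u ∈ Ioo s2 (s1 + per)) => key u (h1.trans hu.1) hu.2 hu.1.ne') with b | b
  · obtain ⟨t, t0, u, hu, e⟩ := ex (-d) (neg_ne_zero.2 hd0)
    have : f (γ u) < f (γ s1) := by rw [e, map_neg]; nlinarith
    rcases cases u hu with c | c | c
    exacts [absurd c this.ne, absurd (a c) this.le.not_gt, absurd (b c) this.le.not_gt]
  · exact Or.inl ⟨a, b⟩
  · exact Or.inr ⟨a, b⟩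
  · obtain ⟨t, t0, u, hu, e⟩ := ex d hd0
    have : f (γ s1) < f (γ u) := by rw [e]; nlinarith
    rcases cases u hu with c | c | c
    exacts [absurd c this.ne', absurd (a c) this.le.not_gt, absurd (b c) this.le.not_gt]

theorem Body.half (h : Body B per γ) {s1 s2 a : ℝ} (h1 : s1 < s2) (h2 : s2 < s1 + per)
    (hmid : midpoint ℝ (γ s1) (γ s2) ∈ interior B) (ha : 0 < a) (f : E2 →L[ℝ] ℝ) (hf : f ≠ 0)
    (h12 : f (γ s1) = f (γ s2)) (hp : ∀ u ∈ Ioo s1 s2, f (γ s1) < f (γ u))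
    (hn : ∀ u ∈ Ioo s2 (s1 + per), f (γ u) < f (γ s1)) :
    ∃ γ1 : ℝ → E2, Body (B ∩ f ⁻¹' Ici (f (γ s1))) (s2 - s1 + a) γ1 ∧
      (∀ u ∈ Icc s1 s2, γ1 u = γ u) ∧
      (∀ v ∈ Icc (0:ℝ) 1, γ1 (s2 + a * v) = AffineMap.lineMap (γ s2) (γ s1) v) ∧
      (∀ u, γ u ∈ B ∩ f ⁻¹' Ici (f (γ s1)) → ∃ n : ℤ, u + n * per ∈ Icc s1 s2) ∧
      B ∩ f ⁻¹' Ici (f (γ s1)) ⊆ convexHull ℝ (γ '' Icc s1 s2) := by
  have hmid' : midpoint ℝ (γ s2) (γ s1) ∈ interior B := by rwa [midpoint_comm]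
  have hl := plane_line h.convex (h.mem_frontier s2) (h.mem_frontier s1) (h.mem _) (h.mem _) hmid'
  have hpos : 0 < s2 - s1 + a := by linarith
  obtain ⟨γ1, c1, c2, c3⟩ := plane_periodize hpos s1
    (δ := fun u => if u ≤ s2 then γ u else AffineMap.lineMap (γ s2) (γ s1) ((u - s2) / a))
    (Continuous.if_le h.cont (by fun_prop) continuous_id continuous_const (by
      rintro u rfl; simp)) (by
      rw [if_pos h1.le, if_neg (by linarith), show (s1 + (s2 - s1 + a) - s2) / a = 1 by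
        field_simp; ring]
      simp)
  have d1 : ∀ u ∈ Icc s1 s2, γ1 u = γ u := fun u hu =>
    (c3 ⟨hu.1, by linarith [hu.2]⟩).trans (if_pos hu.2)
  have d2 : ∀ v ∈ Icc (0:ℝ) 1, γ1 (s2 + a * v) = AffineMap.lineMap (γ s2) (γ s1) v := by
    intro v hv
    have := mul_nonneg ha.le hv.1
    rcases hv.1.eq_or_lt with rfl | v0
    · simpa using d1 s2 ⟨h1.le, le_rfl⟩
    · refine (c3 ⟨by linarith, by nlinarith [hv.2]⟩).trans ?_
      simp only
      rw [if_neg (by nlinarith), add_sub_cancel_left, mul_div_cancel_left₀ _ ha.ne']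
  have d3 : ∀ u, γ u ∈ B ∩ f ⁻¹' Ici (f (γ s1)) → ∃ n : ℤ, u + n * per ∈ Icc s1 s2 := by
    intro u hu
    obtain ⟨n, hn'⟩ := plane_reduce h.per_pos s1 u
    refine ⟨n, hn'.1, not_lt.1 fun c => ?_⟩
    have := hn _ ⟨c, hn'.2⟩
    rw [h.periodic.int_mul n] at this
    exact this.not_ge hu.2
  have hcl : IsClosed (f ⁻¹' Ici (f (γ s1))) := isClosed_Ici.preimage f.continuous
  have hint : interior (B ∩ f ⁻¹' Ici (f (γ s1))) = interior B ∩ f ⁻¹' Ioi (f (γ s1)) := by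
    rw [interior_inter, ← (f.isOpenMap_of_ne_zero hf).preimage_interior_eq_interior_preimage
      f.continuous, interior_Ici]
  have hfl : ∀ v : ℝ, f (AffineMap.lineMap (γ s2) (γ s1) v) = f (γ s1) := fun v => by
    simp [AffineMap.lineMap_apply, h12]
  have split : ∀ u ∈ Icc s1 (s1 + (s2 - s1 + a)), u ∈ Icc s1 s2 ∨
      ∃ v ∈ Ioc (0 : ℝ) 1, u = s2 + a * v := fun u hu => by
    rcases le_or_gt u s2 with c | c
    · exact Or.inl ⟨hu.1, c⟩
    · refine Or.inr ⟨(u - s2) / a, ⟨div_pos (by linarith) ha, ?_⟩, by field_simp; ring⟩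
      rw [div_le_one ha]
      linarith [hu.2]
  have hfr : γ1 '' Icc s1 (s1 + (s2 - s1 + a)) = frontier (B ∩ f ⁻¹' Ici (f (γ s1))) := by
    rw [(h.compact.isClosed.inter hcl).frontier_eq, hint]
    ext x
    constructor
    · rintro ⟨u, hu, rfl⟩
      rcases split u hu with c | ⟨v, hv, rfl⟩
      · rw [d1 u c]
        refine ⟨⟨h.mem u, ?_⟩, fun e => (h.mem_frontier u).2 e.1⟩
        rcases c.1.eq_or_lt with rfl | c1
        · exact le_refl (f _)
        rcases c.2.eq_or_lt with rfl | c2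
        · exact h12.le
        · exact (hp u ⟨c1, c2⟩).le
      · rw [d2 v (Ioc_subset_Icc_self hv)]
        exact ⟨⟨h.convex.lineMap_mem (h.mem _) (h.mem _) (Ioc_subset_Icc_self hv), (hfl v).ge⟩,
          fun e => (hfl v).not_gt e.2⟩
    · rintro ⟨hx, hx'⟩
      rcases (show f (γ s1) ≤ f x from hx.2).eq_or_lt with c | c
      · obtain ⟨v, hv, rfl⟩ := h.on_line hmid' f hf h12.symm hx.1 (c.symm.trans h12)
        exact ⟨_, ⟨by nlinarith [hv.1], by nlinarith [hv.2]⟩, d2 v hv⟩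
      · have : x ∈ range γ := h.range_eq ▸ ⟨subset_closure hx.1, fun e => hx' ⟨e, c⟩⟩
        obtain ⟨u, rfl⟩ := this
        obtain ⟨n, hn⟩ := d3 u hx
        exact ⟨_, ⟨hn.1, by linarith [hn.2]⟩, (d1 _ hn).trans (h.periodic.int_mul n u)⟩
  have hne : γ s2 ≠ γ s1 := fun e => h1.ne (h.inj _ _ h1.le h2 e.symm)
  have mix : ∀ u ∈ Icc s1 s2, ∀ v ∈ Ioc (0 : ℝ) 1, s2 + a * v < s1 + (s2 - s1 + a) →
      γ1 u ≠ γ1 (s2 + a * v) := fun u hu v hv c e => by
    rw [d1 u hu, d2 v (Ioc_subset_Icc_self hv)] at e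
    exact (h.mem_frontier u).2 (e ▸ (hl v).2 ⟨hv.1, by nlinarith⟩)
  refine ⟨γ1, ⟨h.compact.inter_right hcl, h.convex.inter ((convex_Ici _).linear_preimage f.toLinearMap),
    ?_, hpos, c1, c2, plane_inj hpos c2 (a := s1) fun u hu v hv e => ?_,
    (plane_range hpos c2 s1).trans hfr⟩, d1, d2, d3,
    plane_hull (h.compact.inter_right hcl) (convex_convexHull ℝ _) ?_⟩
  · rw [hint]
    have hu : (s1 + s2) / 2 ∈ Ioo s1 s2 := ⟨by linarith, by linarith⟩
    refine ⟨_, h.convex.combo_interior_self_mem_interior hmid (h.mem ((s1 + s2) / 2))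
      (a := 1 / 2) (b := 1 / 2) (by norm_num) (by norm_num) (by norm_num), ?_⟩
    have := hp _ hu
    simp only [mem_preimage, mem_Ioi, map_add, map_smul, midpoint_eq_smul_add, ← h12, smul_eq_mul,
      invOf_eq_inv]
    linarith
  · rcases split u (Ico_subset_Icc_self hu) with c | ⟨s, hs, rfl⟩ <;>
    rcases split v (Ico_subset_Icc_self hv) with c' | ⟨t, ht, rfl⟩
    · rw [d1 u c, d1 v c'] at e
      rcases le_total u v with l | l
      · exact h.inj _ _ l (by linarith [c.1, c'.2]) e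
      · exact (h.inj _ _ l (by linarith [c'.1, c.2]) e.symm).symm
    · exact absurd e (mix u c t ht hv.2)
    · exact absurd e.symm (mix v c' s hs hu.2)
    · rw [d2 s (Ioc_subset_Icc_self hs), d2 t (Ioc_subset_Icc_self ht)] at e
      rw [AffineMap.lineMap_injective ℝ hne e]
  · rw [← hfr]
    rintro _ ⟨u, hu, rfl⟩
    rcases split u hu with c | ⟨v, hv, rfl⟩
    · exact subset_convexHull ℝ _ ⟨u, c, (d1 u c).symm⟩
    · rw [d2 v (Ioc_subset_Icc_self hv)]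
      exact (convex_convexHull ℝ _).lineMap_mem
        (subset_convexHull ℝ _ (mem_image_of_mem γ (right_mem_Icc.2 h1.le)))
        (subset_convexHull ℝ _ (mem_image_of_mem γ (left_mem_Icc.2 h1.le))) (Ioc_subset_Icc_self hv)

/-- cutting along a chord through the interior -/
theorem Body.cut (h : Body B per γ) {s1 s2 a1 a2 : ℝ} (h1 : s1 < s2) (h2 : s2 < s1 + per)
    (hmid : midpoint ℝ (γ s1) (γ s2) ∈ interior B) (ha1 : 0 < a1) (ha2 : 0 < a2) :
    ∃ (B1 B2 : Set E2) (γ1 γ2 : ℝ → E2), Body B1 (s2 - s1 + a1) γ1 ∧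
      Body B2 (s1 + per - s2 + a2) γ2 ∧ B1 ⊆ B ∧ B2 ⊆ B ∧
      (∀ u ∈ Icc s1 s2, γ1 u = γ u) ∧ (∀ u ∈ Icc s2 (s1 + per), γ2 u = γ u) ∧
      (∀ v ∈ Icc (0:ℝ) 1, γ1 (s2 + a1 * v) = γ2 (s2 - a2 * v)) ∧
      (∀ p ∈ B1 ∩ B2, ∃ v ∈ Icc (0:ℝ) 1, p = γ1 (s2 + a1 * v)) ∧
      (∀ u, γ u ∈ B1 → ∃ n : ℤ, u + n * per ∈ Icc s1 s2) ∧
      (∀ u, γ u ∈ B2 → ∃ n : ℤ, u + n * per ∈ Icc s2 (s1 + per)) ∧
      B1 ⊆ convexHull ℝ (γ '' Icc s1 s2) ∧ B2 ⊆ convexHull ℝ (γ '' Icc s2 (s1 + per)) := by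
  have hne : γ s2 ≠ γ s1 := fun e => h1.ne (h.inj _ _ h1.le h2 e.symm)
  obtain ⟨f, hf, h12, hp, hn⟩ : ∃ f : E2 →L[ℝ] ℝ, f ≠ 0 ∧ f (γ s1) = f (γ s2) ∧
      (∀ u ∈ Ioo s1 s2, f (γ s1) < f (γ u)) ∧ ∀ u ∈ Ioo s2 (s1 + per), f (γ u) < f (γ s1) := by
    let f : E2 →L[ℝ] ℝ := (γ s2 0 - γ s1 0) • EuclideanSpace.proj 1 -
      (γ s2 1 - γ s1 1) • EuclideanSpace.proj 0
    have hf : f ≠ 0 := fun e => hne (by
      have e0 := congr($e (EuclideanSpace.single 0 1))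
      have e1 := congr($e (EuclideanSpace.single 1 1))
      simp [f, sub_eq_zero] at e0 e1
      ext i
      fin_cases i
      exacts [e1, e0.symm])
    have h12 : f (γ s1) = f (γ s2) := by
      simp [f]
      ring
    rcases h.sides h1 h2 hmid f hf h12 with c | c
    · exact ⟨f, hf, h12, c⟩
    · exact ⟨-f, neg_ne_zero.2 hf, by simp [h12], by simpa using c.1, by simpa using c.2⟩
  obtain ⟨γ1, b1, c1, d1, e1, f1⟩ := h.half h1 h2 hmid ha1 f hf h12 hp hn
  obtain ⟨γ2, b2, c2, d2, e2, f2⟩ := h.half (s1 := s2) (s2 := s1 + per) h2 (by linarith)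
    (by rwa [h.periodic, midpoint_comm]) ha2 (-f) (neg_ne_zero.2 hf) (by simp [h.periodic s1, h12])
    (by simpa [← h12] using hn) (fun u hu => by
      have := hp (u - per) ⟨by linarith [hu.1], by linarith [hu.2]⟩
      rw [h.periodic.sub_eq] at this
      simpa [← h12] using this)
  refine ⟨_, _, γ1, γ2, b1, b2, inter_subset_left, inter_subset_left, c1, c2, fun v hv => ?_,
    fun p hp => ?_, e1, e2, f1, f2⟩
  · rw [d1 v hv, ← b2.periodic, show s2 - a2 * v + (s1 + per - s2 + a2) = s1 + per + a2 * (1 - v) by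
      ring, d2 _ ⟨by linarith [hv.2], by linarith [hv.1]⟩, h.periodic,
      AffineMap.lineMap_apply_one_sub]
  · have a : f (γ s1) ≤ f p := hp.1.2
    have b : -f (γ s2) ≤ -f p := hp.2.2
    obtain ⟨v, hv, e⟩ := h.on_line (s1 := s2) (s2 := s1) (by rwa [midpoint_comm]) f hf h12.symm
      hp.1.1 (by linarith)
    exact ⟨v, hv, e.trans (d1 v hv).symm⟩

/-- pulling the boundary inwards except on a closed set -/
theorem Body.lens (h : Body B per γ) {A : Set E2} (hA : IsClosed A) (hne : A.Nonempty) :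
    ∃ ι : E2 → E2, Continuous ι ∧ InjOn ι B ∧ MapsTo ι B B ∧ (∀ p ∈ A, ι p = p) ∧
      (∀ p ∈ B, ι p ∈ frontier B → p ∈ A) ∧
      ∀ p ∈ B, ∀ q ∈ B, ∀ i, |ι p i - ι q i| ≤ |p i - q i| + dist p q / 20 := by
  obtain ⟨p0, hp0⟩ := h.int
  obtain ⟨a0, ha0⟩ := hne
  obtain ⟨R, hR, h1⟩ := h.compact.isBounded.subset_closedBall_lt 0 p0
  obtain ⟨M, hM, h2⟩ := h.compact.isBounded.subset_closedBall_lt 0 a0
  have h3 : ∀ p ∈ B, infDist p A ≤ M := fun p hp => (infDist_le_dist_of_mem ha0).trans (h2 hp)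
  obtain ⟨c, hc, hc'⟩ : ∃ c : ℝ, 0 < c ∧ c * (R + M) = 1 / 20 :=
    ⟨1 / 20 / (R + M), by positivity, by field_simp⟩
  have h4 : ∀ p ∈ B, c * infDist p A ≤ 1 := fun p hp => by nlinarith [h3 p hp]
  have key : ∀ p ∈ B, ∀ q ∈ B, ‖(c * infDist p A) • (p0 - p) - (c * infDist q A) • (p0 - q)‖ ≤
      dist p q / 20 := fun p hp q hq => by
    have e : (c * infDist p A) • (p0 - p) - (c * infDist q A) • (p0 - q) =
        (c * (infDist p A - infDist q A)) • (p0 - p) + (c * infDist q A) • (q - p) := by module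
    have a1 : |infDist p A - infDist q A| ≤ dist p q := by
      simpa [Real.dist_eq] using (lipschitz_infDist_pt A).dist_le_mul p q
    have a2 : ‖p0 - p‖ ≤ R := by rw [← dist_eq_norm, dist_comm]; exact h1 hp
    have a3 : 0 ≤ infDist q A := infDist_nonneg
    rw [e]
    refine (norm_add_le _ _).trans ?_
    rw [norm_smul, norm_smul, Real.norm_eq_abs, Real.norm_eq_abs, abs_mul, abs_mul, abs_of_pos hc,
      abs_of_nonneg a3, ← dist_eq_norm q p, dist_comm q p]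
    calc _ ≤ c * dist p q * R + c * M * dist p q := by gcongr; exact h3 q hq
      _ = c * (R + M) * dist p q := by ring
      _ = _ := by rw [hc']; ring
  refine ⟨fun p => p + (c * infDist p A) • (p0 - p), by fun_prop, fun p hp q hq e => ?_,
    fun p hp => h.convex.add_smul_sub_mem hp (interior_subset hp0)
      ⟨mul_nonneg hc.le infDist_nonneg, h4 p hp⟩, fun p hp => by simp [infDist_zero_of_mem hp],
    fun p hp e => ?_, fun p hp q hq i => ?_⟩
  · have := key p hp q hq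
    rw [show (c * infDist p A) • (p0 - p) - (c * infDist q A) • (p0 - q) = q - p by
      linear_combination (norm := module) e, ← dist_eq_norm, dist_comm] at this
    exact dist_le_zero.1 (by linarith)
  · rw [hA.mem_iff_infDist_zero ⟨a0, ha0⟩]
    by_contra h0
    exact e.2 (h.convex.add_smul_sub_mem_interior hp hp0
      ⟨mul_pos hc (infDist_nonneg.lt_of_ne' h0), h4 p hp⟩)
  · have := (PiLp.norm_apply_le _ i).trans (key p hp q hq)
    refine le_trans (le_of_eq ?_) ((abs_add_le _ _).trans (add_le_add le_rfl this))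
    simp only [PiLp.add_apply, PiLp.sub_apply]
    ring_nf

/-- windows for a cut that reduces the width in the direction `i` -/
theorem Body.strip (h : Body B per γ) (i : Fin 2) {w : ℝ} (hw : ∀ p ∈ B, ∀ q ∈ B, |p i - q i| ≤ w) :
    ∃ a1 b1 a2 b2 : ℝ, a1 < b1 ∧ b1 < a2 ∧ a2 < b2 ∧ b2 < a1 + per ∧
      ∀ s1 ∈ Icc a1 b1, ∀ s2 ∈ Icc a2 b2, midpoint ℝ (γ s1) (γ s2) ∈ interior B ∧
        (∀ p ∈ convexHull ℝ (γ '' Icc s1 s2), ∀ q ∈ convexHull ℝ (γ '' Icc s1 s2),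
          |p i - q i| ≤ 3 / 5 * w) ∧
        (∀ p ∈ convexHull ℝ (γ '' Icc s2 (s1 + per)), ∀ q ∈ convexHull ℝ (γ '' Icc s2 (s1 + per)),
          |p i - q i| ≤ 3 / 5 * w) := by
  let f : E2 →L[ℝ] ℝ := EuclideanSpace.proj i
  have hf : f ≠ 0 := fun e => by simpa [f] using congr($e (EuclideanSpace.single i 1))
  obtain ⟨z, hz⟩ := h.int
  obtain ⟨lo, hlo, l1⟩ := h.compact.exists_isMinOn ⟨z, interior_subset hz⟩ f.continuous.continuousOn
  obtain ⟨hi, hhi, l2⟩ := h.compact.exists_isMaxOn ⟨z, interior_subset hz⟩ f.continuous.continuousOn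
  have l1' : ∀ x ∈ B, f lo ≤ f x := l1
  have l2' : ∀ x ∈ B, f x ≤ f hi := l2
  have l3 : f hi - f lo ≤ w := (le_abs_self _).trans (hw hi hhi lo hlo)
  have l4 : f lo < f hi := by
    obtain ⟨t, t0, ht⟩ := plane_exit' h.compact hz (d := EuclideanSpace.single i 1) (by simp)
    have a := l2' _ (h.compact.isClosed.frontier_subset ht)
    have b := l1' _ (interior_subset hz)
    simp only [map_add, map_smul, smul_eq_mul] at a
    have : f (EuclideanSpace.single i 1) = 1 := by simp [f]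
    rw [this] at a
    linarith
  obtain ⟨m, hm, fm⟩ : ∃ m ∈ interior B, f m = (f lo + f hi) / 2 := by
    have key : ∀ y ∈ B, ∀ c, (f z ≤ c ∧ c < f y) ∨ (f y < c ∧ c ≤ f z) →
        ∃ m ∈ interior B, f m = c := fun y hy c hc => by
      have n0 : f z - f y ≠ 0 := fun e => by rcases hc with hc | hc <;> linarith [hc.1, hc.2]
      refine ⟨_, h.convex.add_smul_sub_mem_interior hy hz (t := (c - f y) / (f z - f y)) ?_, by
        simp only [map_add, map_smul, map_sub, smul_eq_mul]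
        field_simp
        ring⟩
      rcases hc with hc | hc
      · exact ⟨div_pos_of_neg_of_neg (by linarith [hc.2]) (by linarith [hc.1, hc.2]),
          (div_le_one_of_neg (by linarith [hc.1, hc.2])).2 (by linarith [hc.1])⟩
      · exact ⟨div_pos (by linarith [hc.1]) (by linarith [hc.1, hc.2]),
          (div_le_one (by linarith [hc.1, hc.2])).2 (by linarith [hc.2])⟩
    rcases le_total (f z) ((f lo + f hi) / 2) with c | c
    · exact key hi hhi _ (Or.inl ⟨c, by linarith⟩)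
    · exact key lo hlo _ (Or.inr ⟨by linarith, c⟩)
  obtain ⟨d, hd, fd⟩ : ∃ d : E2, d ≠ 0 ∧ f d = 0 :=
    ⟨EuclideanSpace.single (i + 1) 1, by simp, by fin_cases i <;> simp [f]⟩
  obtain ⟨s, s0, hs⟩ := plane_exit' h.compact hm hd
  obtain ⟨t, t0, ht⟩ := plane_exit' h.compact hm (neg_ne_zero.2 hd)
  obtain ⟨t1, e1⟩ : m + s • d ∈ range γ := h.range_eq ▸ hs
  obtain ⟨t2, r2, e2⟩ : m + t • -d ∈ γ '' Icc t1 (t1 + per) := by
    rwa [← plane_range h.per_pos h.periodic, h.range_eq]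
  have hne : γ t1 ≠ γ t2 := fun e => by
    rw [e1, e2, add_right_inj, smul_neg, eq_neg_iff_add_eq_zero, ← add_smul, smul_eq_zero] at e
    rcases e with e | e
    exacts [by linarith, hd e]
  have h1 : t1 < t2 := r2.1.lt_of_ne (by rintro rfl; exact hne rfl)
  have h2 : t2 < t1 + per := r2.2.lt_of_ne (by rintro rfl; exact hne (h.periodic t1).symm)
  have hmid : midpoint ℝ (γ t1) (γ t2) ∈ interior B := by
    rcases le_total s t with c | c
    · rw [show midpoint ℝ (γ t1) (γ t2) = m + ((t - s) / 2) • -d by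
        rw [e1, e2, midpoint_eq_smul_add, invOf_eq_inv]; module]
      exact plane_ray h.convex hm (e2 ▸ h.mem t2) (by linarith) (by linarith)
    · rw [show midpoint ℝ (γ t1) (γ t2) = m + ((s - t) / 2) • d by
        rw [e1, e2, midpoint_eq_smul_add, invOf_eq_inv]; module]
      exact plane_ray h.convex hm (e1 ▸ h.mem t1) (by linarith) (by linarith)
  have f1 : f (γ t1) = (f lo + f hi) / 2 := by simp [e1, fd, fm]
  have f2 : f (γ t2) = (f lo + f hi) / 2 := by simp [e2, fd, fm]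
  have hc := h.cont
  obtain ⟨δ1, d1, g1⟩ := Metric.eventually_nhds_iff.1
    ((show Continuous fun x : ℝ × ℝ => midpoint ℝ (γ x.1) (γ x.2) by
      simp only [midpoint_eq_smul_add]; fun_prop).continuousAt.eventually_mem
      (x := (t1, t2)) (isOpen_interior.mem_nhds hmid))
  have hη : 0 < (f hi - f lo) / 10 := by linarith
  obtain ⟨δ2, d2, g2⟩ := Metric.continuousAt_iff.1
    ((f.continuous.comp hc).continuousAt (x := t1)) _ hη
  obtain ⟨δ3, d3, g3⟩ := Metric.continuousAt_iff.1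
    ((f.continuous.comp hc).continuousAt (x := t2)) _ hη
  obtain ⟨δ, d0, a1, a2, a3, a4, a5⟩ : ∃ δ : ℝ, 0 < δ ∧ δ < δ1 ∧ δ < δ2 ∧ δ < δ3 ∧
      2 * δ < t2 - t1 ∧ 2 * δ < t1 + per - t2 := by
    have : ∀ᶠ δ : ℝ in 𝓝[>] 0, δ < δ1 ∧ δ < δ2 ∧ δ < δ3 ∧ δ < (t2 - t1) / 2 ∧
        δ < (t1 + per - t2) / 2 := nhdsWithin_le_nhds ((eventually_lt_nhds d1).and
      ((eventually_lt_nhds d2).and ((eventually_lt_nhds d3).and
        ((eventually_lt_nhds (by linarith)).and (eventually_lt_nhds (by linarith))))))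
    obtain ⟨δ, a, b⟩ := (this.and self_mem_nhdsWithin).exists
    exact ⟨δ, b, a.1, a.2.1, a.2.2.1, by linarith [a.2.2.2.1], by linarith [a.2.2.2.2]⟩
  have n1 : ∀ u, |u - t1| ≤ δ → |f (γ u) - (f lo + f hi) / 2| < (f hi - f lo) / 10 := fun u hu => by
    simpa [Real.dist_eq, f1] using g2 (x := u) (hu.trans_lt a2)
  have n2 : ∀ u, |u - t2| ≤ δ → |f (γ u) - (f lo + f hi) / 2| < (f hi - f lo) / 10 := fun u hu => by
    simpa [Real.dist_eq, f2] using g3 (x := u) (hu.trans_lt a3)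
  have n3 : ∀ u, |u - (t1 + per)| ≤ δ → |f (γ u) - (f lo + f hi) / 2| < (f hi - f lo) / 10 :=
    fun u hu => by
      have := n1 (u - per) (by rwa [show u - per - t1 = u - (t1 + per) by ring])
      rwa [h.periodic.sub_eq] at this
  have slab : ∀ (a b x y : ℝ), (∀ u, |u - a| ≤ δ →
        |f (γ u) - (f lo + f hi) / 2| < (f hi - f lo) / 10) → (∀ u, |u - b| ≤ δ →
        |f (γ u) - (f lo + f hi) / 2| < (f hi - f lo) / 10) → a - δ ≤ x → y ≤ b + δ →
      ((∀ u ∈ Ioo a b, f (γ t1) < f (γ u)) ∨ ∀ u ∈ Ioo a b, f (γ u) < f (γ t1)) →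
      ∀ p ∈ convexHull ℝ (γ '' Icc x y), ∀ q ∈ convexHull ℝ (γ '' Icc x y),
        |p i - q i| ≤ 3 / 5 * w := by
    intro a b x y ha hb hx hy hs
    obtain ⟨α, β, k1, k2⟩ : ∃ α β, β - α ≤ 3 / 5 * w ∧ ∀ u ∈ Icc x y, f (γ u) ∈ Icc α β := by
      have tri : ∀ u ∈ Icc x y, u ∈ Ioo a b ∨
          |f (γ u) - (f lo + f hi) / 2| < (f hi - f lo) / 10 := fun u hu => by
        by_cases c1 : u ≤ a
        · exact Or.inr (ha u (abs_le.2 ⟨by linarith [hu.1], by linarith⟩))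
        by_cases c2 : b ≤ u
        · exact Or.inr (hb u (abs_le.2 ⟨by linarith, by linarith [hu.2]⟩))
        exact Or.inl ⟨not_le.1 c1, not_le.1 c2⟩
      rcases hs with hs | hs
      · refine ⟨(f lo + f hi) / 2 - (f hi - f lo) / 10, f hi, by linarith, fun u hu =>
          ⟨?_, l2' _ (h.mem u)⟩⟩
        rcases tri u hu with c | c
        · linarith [hs u c]
        · linarith [(abs_lt.1 c).1]
      · refine ⟨f lo, (f lo + f hi) / 2 + (f hi - f lo) / 10, by linarith, fun u hu =>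
          ⟨l1' _ (h.mem u), ?_⟩⟩
        rcases tri u hu with c | c
        · linarith [hs u c]
        · linarith [(abs_lt.1 c).2]
    have : convexHull ℝ (γ '' Icc x y) ⊆ f ⁻¹' Icc α β :=
      convexHull_min (by rintro _ ⟨u, hu, rfl⟩; exact k2 u hu)
        ((convex_Icc α β).linear_preimage f.toLinearMap)
    intro p hp q hq
    have k3 : p i ∈ Icc α β := this hp
    have k4 : q i ∈ Icc α β := this hq
    exact abs_le.2 ⟨by linarith [k3.1, k4.2], by linarith [k3.2, k4.1]⟩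
  have sd := h.sides h1 h2 hmid f hf (f1.trans f2.symm)
  refine ⟨t1 - δ, t1 + δ, t2 - δ, t2 + δ, by linarith, by linarith, by linarith, by linarith,
    fun s1 k1 s2 k2 => ⟨g1 (y := (s1, s2)) ?_, slab t1 t2 _ _ n1 n2 k1.1 k2.2
      (sd.imp And.left And.left), slab t2 (t1 + per) _ _ n2 n3 k2.1 (by linarith [k1.2])
      (sd.symm.imp And.right And.right)⟩⟩
  rw [Prod.dist_eq, max_lt_iff, Real.dist_eq, Real.dist_eq, abs_lt, abs_lt]
  exact ⟨⟨by linarith [k1.1], by linarith [k1.2]⟩, by linarith [k2.1], by linarith [k2.2]⟩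

theorem plane_stereo (ε : ℝ) (hε : ε ^ 2 = 1) :
    ∃ φ : E2 → Metric.sphere (0 : EuclideanSpace ℝ (Fin 3)) 1, Continuous φ ∧ ∀ p,
      (φ p).1 0 = 2 * p 0 / (1 + ‖p‖ ^ 2) ∧ (φ p).1 1 = 2 * p 1 / (1 + ‖p‖ ^ 2) ∧
      (φ p).1 2 = ε * (1 - ‖p‖ ^ 2) / (1 + ‖p‖ ^ 2) := by
  refine ⟨fun p => ⟨!₂[2 * p 0 / (1 + ‖p‖ ^ 2), 2 * p 1 / (1 + ‖p‖ ^ 2),
    ε * (1 - ‖p‖ ^ 2) / (1 + ‖p‖ ^ 2)], ?_⟩, ?_, fun p => ⟨rfl, rfl, rfl⟩⟩
  · have e : ‖p‖ ^ 2 = p 0 ^ 2 + p 1 ^ 2 := by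
      simp [EuclideanSpace.norm_sq_eq]
    rw [mem_sphere_zero_iff_norm, EuclideanSpace.norm_eq, Real.sqrt_eq_one]
    simp only [Fin.sum_univ_three, Real.norm_eq_abs, sq_abs]
    simp
    field_simp
    rw [hε]
    linear_combination (-4) * e
  · refine Continuous.subtype_mk ((PiLp.continuous_toLp 2 _).comp (continuous_pi fun j => ?_)) _
    fin_cases j <;> simp <;> exact Continuous.div (by fun_prop) (by fun_prop) fun p => by positivity

/-- the two hemispheres -/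
theorem hemispheres : ∃ φ ψ : E2 → Metric.sphere (0 : EuclideanSpace ℝ (Fin 3)) 1,
    ContinuousOn φ (closedBall 0 1) ∧ ContinuousOn ψ (closedBall 0 1) ∧
    InjOn φ (closedBall 0 1) ∧ InjOn ψ (closedBall 0 1) ∧
    (∀ p ∈ frontier (closedBall (0 : E2) 1), φ p = ψ p) ∧
    ∀ p ∈ closedBall (0 : E2) 1, ∀ q ∈ closedBall (0 : E2) 1, φ p = ψ q →
      p = q ∧ p ∈ frontier (closedBall (0 : E2) 1) := by
  obtain ⟨φ, a1, a2⟩ := plane_stereo 1 (by norm_num)
  obtain ⟨ψ, b1, b2⟩ := plane_stereo (-1) (by norm_num)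
  have pos : ∀ p : E2, 0 < 1 + ‖p‖ ^ 2 := fun p => by positivity
  have key : ∀ p q : E2, ‖p‖ ^ 2 = ‖q‖ ^ 2 → 2 * p 0 / (1 + ‖p‖ ^ 2) = 2 * q 0 / (1 + ‖q‖ ^ 2) →
      2 * p 1 / (1 + ‖p‖ ^ 2) = 2 * q 1 / (1 + ‖q‖ ^ 2) → p = q := fun p q e e0 e1 => by
    rw [e, div_left_inj' (pos q).ne', mul_right_inj' two_ne_zero] at e0 e1
    ext i
    fin_cases i
    exacts [e0, e1]
  rw [frontier_closedBall _ one_ne_zero]
  refine ⟨φ, ψ, a1.continuousOn, b1.continuousOn, fun p _ q _ e => ?_, fun p _ q _ e => ?_,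
    fun p hp => ?_, fun p hp q hq e => ?_⟩
  · obtain ⟨p0, p1, p2⟩ := a2 p
    obtain ⟨q0, q1, q2⟩ := a2 q
    rw [e] at p0 p1 p2
    rw [p2, div_eq_div_iff (pos p).ne' (pos q).ne'] at q2
    exact key p q (by linarith) (p0.symm.trans q0) (p1.symm.trans q1)
  · obtain ⟨p0, p1, p2⟩ := b2 p
    obtain ⟨q0, q1, q2⟩ := b2 q
    rw [e] at p0 p1 p2
    rw [p2, div_eq_div_iff (pos p).ne' (pos q).ne'] at q2
    exact key p q (by linarith) (p0.symm.trans q0) (p1.symm.trans q1)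
  · have : ‖p‖ = 1 := mem_sphere_zero_iff_norm.1 hp
    obtain ⟨p0, p1, p2⟩ := a2 p
    obtain ⟨q0, q1, q2⟩ := b2 p
    ext i
    fin_cases i
    exacts [p0.trans q0.symm, p1.trans q1.symm, p2.trans (by simpa [this] using q2.symm)]
  · obtain ⟨p0, p1, p2⟩ := a2 p
    obtain ⟨q0, q1, q2⟩ := b2 q
    rw [e] at p0 p1 p2
    rw [p2, div_eq_div_iff (pos p).ne' (pos q).ne'] at q2
    have k1 : ‖p‖ ^ 2 ≤ 1 := pow_le_one₀ (norm_nonneg _) (mem_closedBall_zero_iff.1 hp)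
    have k2 : ‖q‖ ^ 2 ≤ 1 := pow_le_one₀ (norm_nonneg _) (mem_closedBall_zero_iff.1 hq)
    have k3 : ‖p‖ ^ 2 = 1 := by nlinarith [sq_nonneg ‖p‖, sq_nonneg ‖q‖]
    have k4 : ‖q‖ ^ 2 = 1 := by nlinarith [sq_nonneg ‖p‖, sq_nonneg ‖q‖]
    exact ⟨key p q (k3.trans k4.symm) (p0.symm.trans q0) (p1.symm.trans q1),
      mem_sphere_zero_iff_norm.2 ((pow_eq_one_iff_of_nonneg (norm_nonneg _) two_ne_zero).1 k3)⟩

end Pool.Agent.Lib.MP_9e71a3_gt
end

-- part Pool.Agent.Lib.MP_9e71a3_gt.PlaneB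
section

/-! Assembly of an embedding from a refining system of pieces.  JOB PlaneB. -/

set_option autoImplicit false

namespace Pool.Agent.Lib.MP_9e71a3_gt

open Set Metric Filter Topology

/-- pieces: a part of the source, a part of the target, and the part of the graph that is
already fixed -/
structure Pcs (ι X Z : Type) where
  P : ι → Set X
  B : ι → Set Z
  Γ : ι → Set (X × Z)

namespace Pcs
variable {ι X Z : Type} (T : Pcs ι X Z)

def Sep (a b : ι) : Prop :=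
  (∀ x ∈ T.P a ∩ T.P b, ∃ p, (x, p) ∈ T.Γ a ∩ T.Γ b) ∧
    (∀ p ∈ T.B a ∩ T.B b, ∃ x, (x, p) ∈ T.Γ a ∩ T.Γ b)

structure Ref (a : ι) (F : Set ι) : Prop where
  fin : F.Finite
  subP : ∀ b ∈ F, T.P b ⊆ T.P a
  subB : ∀ b ∈ F, T.B b ⊆ T.B a
  cover : ∀ x ∈ T.P a, ∃ b ∈ F, x ∈ T.P b
  sep : F.Pairwise T.Sep
  keep : ∀ b ∈ F, ∀ z ∈ T.Γ a, z.1 ∈ T.P b ∨ z.2 ∈ T.B b → z ∈ T.Γ b

variable {T}

theorem Sep.symm {a b : ι} (h : T.Sep a b) : T.Sep b a :=
  ⟨fun x hx => (h.1 x ⟨hx.2, hx.1⟩).imp fun _ hp => ⟨hp.2, hp.1⟩,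
    fun p hp => (h.2 p ⟨hp.2, hp.1⟩).imp fun _ hx => ⟨hx.2, hx.1⟩⟩

theorem Sep.down {a b c d : ι} {F G : Set ι} (h : T.Sep a b) (hF : T.Ref a F) (hG : T.Ref b G)
    (hc : c ∈ F) (hd : d ∈ G) : T.Sep c d :=
  ⟨fun x hx => (h.1 x ⟨hF.subP c hc hx.1, hG.subP d hd hx.2⟩).imp fun _ hp =>
      ⟨hF.keep c hc _ hp.1 (Or.inl hx.1), hG.keep d hd _ hp.2 (Or.inl hx.2)⟩,
    fun p hp => (h.2 p ⟨hF.subB c hc hp.1, hG.subB d hd hp.2⟩).imp fun _ hx =>
      ⟨hF.keep c hc _ hx.1 (Or.inr hp.1), hG.keep d hd _ hx.2 (Or.inr hp.2)⟩⟩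

theorem pairwise_down {F : Set ι} (h : F.Pairwise T.Sep) (G : ι → Set ι)
    (hG : ∀ b ∈ F, T.Ref b (G b)) : (⋃ b ∈ F, G b).Pairwise T.Sep := by
  intro c hc c' hc' hne
  obtain ⟨b, hb, hc⟩ := mem_iUnion₂.1 hc
  obtain ⟨b', hb', hc'⟩ := mem_iUnion₂.1 hc'
  by_cases hbb : b = b'
  · subst hbb
    exact (hG b hb).sep hc hc' hne
  · exact (h hb hb' hbb).down (hG b hb) (hG b' hb') hc hc'

theorem Ref.single {a b : ι} (h1 : T.P b = T.P a) (h2 : T.B b ⊆ T.B a) (h3 : T.Γ a ⊆ T.Γ b) :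
    T.Ref a {b} where
  fin := finite_singleton b
  subP := by rintro _ rfl; exact h1.le
  subB := by rintro _ rfl; exact h2
  cover x hx := ⟨b, rfl, h1 ▸ hx⟩
  sep := pairwise_singleton _ _
  keep := by rintro _ rfl z hz -; exact h3 hz

theorem Ref.refl (a : ι) : T.Ref a {a} := Ref.single rfl Subset.rfl Subset.rfl

theorem Ref.trans {a : ι} {F : Set ι} (h : T.Ref a F) (G : ι → Set ι)
    (hG : ∀ b ∈ F, T.Ref b (G b)) : T.Ref a (⋃ b ∈ F, G b) where
  fin := h.fin.biUnion fun b hb => (hG b hb).fin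
  subP c hc := by
    obtain ⟨b, hb, hc⟩ := mem_iUnion₂.1 hc
    exact ((hG b hb).subP c hc).trans (h.subP b hb)
  subB c hc := by
    obtain ⟨b, hb, hc⟩ := mem_iUnion₂.1 hc
    exact ((hG b hb).subB c hc).trans (h.subB b hb)
  cover x hx := by
    obtain ⟨b, hb, hx⟩ := h.cover x hx
    obtain ⟨c, hc, hx⟩ := (hG b hb).cover x hx
    exact ⟨c, mem_iUnion₂.2 ⟨b, hb, hc⟩, hx⟩
  sep := pairwise_down h.sep G hG
  keep c hc z hz hm := by
    obtain ⟨b, hb, hc⟩ := mem_iUnion₂.1 hc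
    exact (hG b hb).keep c hc z (h.keep b hb z hz
      (hm.imp (fun h' => (hG b hb).subP c hc h') fun h' => (hG b hb).subB c hc h')) hm

/-- refinement in two rounds, with properties -/
theorem Ref.bind {a : ι} {F : Set ι} (h : T.Ref a F) {Q : ι → Prop}
    (hG : ∀ b ∈ F, ∃ G, T.Ref b G ∧ ∀ c ∈ G, Q c) : ∃ G, T.Ref a G ∧ ∀ c ∈ G, Q c := by
  choose! G hG using hG
  refine ⟨_, h.trans G fun b hb => (hG b hb).1, fun c hc => ?_⟩
  obtain ⟨b, hb, hc⟩ := mem_iUnion₂.1 hc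
  exact (hG b hb).2 c hc

open Classical in
/-- the part of the product that is still allowed for the graph -/
def Q (T : Pcs ι X Z) (fin : ι → Prop) (a : ι) : Set (X × Z) :=
  if fin a then T.Γ a else T.P a ×ˢ T.B a

theorem assemble [MetricSpace X] [CompactSpace X] [MetricSpace Z] [CompactSpace Z]
    (ok fin : ι → Prop)
    (hcl : ∀ a, ok a → IsClosed (T.P a) ∧ IsClosed (T.B a) ∧ IsClosed (T.Γ a))
    (hsub : ∀ a, ok a → T.Γ a ⊆ T.P a ×ˢ T.B a)
    (hbij : ∀ a, ok a → ∀ z ∈ T.Γ a, ∀ z' ∈ T.Γ a, z.1 = z'.1 ↔ z.2 = z'.2)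
    (hne : ∀ a, ok a → (T.B a).Nonempty)
    (hfin : ∀ a, ok a → fin a → ∀ x ∈ T.P a, ∃ p, (x, p) ∈ T.Γ a)
    (href : ∀ a, ok a → ∀ ε > 0, ∃ F, T.Ref a F ∧ ∀ b ∈ F, ok b ∧ (fin b ∨
      ((∀ x ∈ T.P b, ∀ y ∈ T.P b, dist x y < ε) ∧ ∀ p ∈ T.B b, ∀ q ∈ T.B b, dist p q < ε)))
    {F0 : Set ι} (h0 : F0.Finite) (hok : ∀ a ∈ F0, ok a) (hcov : ∀ x, ∃ a ∈ F0, x ∈ T.P a)
    (hsep : F0.Pairwise T.Sep) : ∃ e : X → Z, Topology.IsEmbedding e := by
  have hQ1 : ∀ a, ok a → T.Γ a ⊆ T.Q fin a := fun a ha => by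
    unfold Q; split_ifs
    exacts [Subset.rfl, hsub a ha]
  have hQ2 : ∀ a, ok a → T.Q fin a ⊆ T.P a ×ˢ T.B a := fun a ha => by
    unfold Q; split_ifs
    exacts [hsub a ha, Subset.rfl]
  have hstep : ∀ (n : ℕ) (a : ι), ∃ G, ok a → T.Ref a G ∧ ∀ b ∈ G, ok b ∧ T.Q fin b ⊆ T.Q fin a ∧
      ∀ z ∈ T.Q fin b, ∀ z' ∈ T.Q fin b, (z.1 = z'.1 → dist z.2 z'.2 < 1 / (n + 1 : ℝ)) ∧
        (z.2 = z'.2 → dist z.1 z'.1 < 1 / (n + 1 : ℝ)) := by
    intro n a
    have hε : (0 : ℝ) < 1 / (n + 1 : ℝ) := Nat.one_div_pos_of_nat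
    have hf : ∀ b, ok b → fin b → ∀ z ∈ T.Q fin b, ∀ z' ∈ T.Q fin b,
        (z.1 = z'.1 → dist z.2 z'.2 < 1 / (n + 1 : ℝ)) ∧
        (z.2 = z'.2 → dist z.1 z'.1 < 1 / (n + 1 : ℝ)) := by
      intro b hb hfb z hz z' hz'
      rw [Q, if_pos hfb] at hz hz'
      exact ⟨fun h => by rwa [(hbij b hb z hz z' hz').1 h, dist_self],
        fun h => by rwa [(hbij b hb z hz z' hz').2 h, dist_self]⟩
    by_cases ha : ok a
    swap
    · exact ⟨∅, fun h => absurd h ha⟩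
    by_cases hfa : fin a
    · refine ⟨{a}, fun _ => ⟨Ref.refl a, ?_⟩⟩
      rintro _ rfl
      exact ⟨ha, Subset.rfl, hf _ ha hfa⟩
    · obtain ⟨G, hG, hG'⟩ := href a ha _ hε
      refine ⟨G, fun _ => ⟨hG, fun b hb => ⟨(hG' b hb).1, ?_, ?_⟩⟩⟩
      · rw [Q.eq_1 T fin a, if_neg hfa]
        exact (hQ2 b (hG' b hb).1).trans (prod_mono (hG.subP b hb) (hG.subB b hb))
      · rcases (hG' b hb).2 with h | h
        · exact hf b (hG' b hb).1 h
        · intro z hz z' hz'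
          have h1 := hQ2 b (hG' b hb).1 hz
          have h2 := hQ2 b (hG' b hb).1 hz'
          exact ⟨fun _ => h.2 _ h1.2 _ h2.2, fun _ => h.1 _ h1.1 _ h2.1⟩
  choose G hG using hstep
  let F : ℕ → Set ι := fun n => Nat.rec F0 (fun n Fn => ⋃ b ∈ Fn, G n b) n
  have hF (n : ℕ) : F (n + 1) = ⋃ b ∈ F n, G n b := rfl
  have hinv (n : ℕ) : (F n).Finite ∧ (∀ a ∈ F n, ok a) ∧ (∀ x, ∃ a ∈ F n, x ∈ T.P a) ∧
      (F n).Pairwise T.Sep := by
    induction n with
    | zero => exact ⟨h0, hok, hcov, hsep⟩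
    | succ n ih =>
      obtain ⟨i1, i2, i3, i4⟩ := ih
      rw [hF]
      refine ⟨i1.biUnion fun b hb => (hG n b (i2 b hb)).1.fin, fun c hc => ?_, fun x => ?_,
        pairwise_down i4 _ fun b hb => (hG n b (i2 b hb)).1⟩
      · obtain ⟨b, hb, hc⟩ := mem_iUnion₂.1 hc
        exact ((hG n b (i2 b hb)).2 c hc).1
      · obtain ⟨b, hb, hx⟩ := i3 x
        obtain ⟨c, hc, hx⟩ := (hG n b (i2 b hb)).1.cover x hx
        exact ⟨c, mem_iUnion₂.2 ⟨b, hb, hc⟩, hx⟩
  let R : ℕ → Set (X × Z) := fun n => ⋃ a ∈ F n, T.Q fin a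
  have hRc (n : ℕ) : IsClosed (R n) := (hinv n).1.isClosed_biUnion fun a ha => by
    obtain ⟨c1, c2, c3⟩ := hcl a ((hinv n).2.1 a ha)
    unfold Q; split_ifs
    exacts [c3, c1.prod c2]
  have hRd (n : ℕ) : R (n + 1) ⊆ R n := by
    intro z hz
    obtain ⟨c, hc, hz⟩ := mem_iUnion₂.1 hz
    obtain ⟨b, hb, hc⟩ := mem_iUnion₂.1 hc
    exact mem_iUnion₂.2 ⟨b, hb, ((hG n b ((hinv n).2.1 b hb)).2 c hc).2.1 hz⟩
  have hex (x : X) : ∃ p, ∀ n, (x, p) ∈ R n := by
    have hc (n : ℕ) : IsClosed (Prod.mk x ⁻¹' R n) := (hRc n).preimage (Continuous.prodMk_right x)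
    obtain ⟨p, hp⟩ := IsCompact.nonempty_iInter_of_sequence_nonempty_isCompact_isClosed
      (fun n => Prod.mk x ⁻¹' R n) (fun n => preimage_mono (hRd n)) (fun n => by
        obtain ⟨a, ha, hx⟩ := (hinv n).2.2.1 x
        have hoa := (hinv n).2.1 a ha
        by_cases hfa : fin a
        · obtain ⟨p, hp⟩ := hfin a hoa hfa x hx
          exact ⟨p, mem_iUnion₂.2 ⟨a, ha, hQ1 a hoa hp⟩⟩
        · obtain ⟨p, hp⟩ := hne a hoa
          exact ⟨p, mem_iUnion₂.2 ⟨a, ha, by rw [Q, if_neg hfa]; exact ⟨hx, hp⟩⟩⟩)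
      (hc 0).isCompact hc
    exact ⟨p, fun n => mem_iInter.1 hp n⟩
  have hclose (n : ℕ) : ∀ z ∈ R (n + 1), ∀ z' ∈ R (n + 1),
      (z.1 = z'.1 → dist z.2 z'.2 < 2 * (1 / (n + 1 : ℝ))) ∧
        (z.2 = z'.2 → dist z.1 z'.1 < 2 * (1 / (n + 1 : ℝ))) := by
    have hε : (0 : ℝ) < 1 / (n + 1 : ℝ) := Nat.one_div_pos_of_nat
    have hs : ∀ c ∈ F (n + 1), ∀ z ∈ T.Q fin c, ∀ z' ∈ T.Q fin c,
        (z.1 = z'.1 → dist z.2 z'.2 < 1 / (n + 1 : ℝ)) ∧
        (z.2 = z'.2 → dist z.1 z'.1 < 1 / (n + 1 : ℝ)) := by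
      intro c hc
      obtain ⟨b, hb, hc⟩ := mem_iUnion₂.1 hc
      exact ((hG n b ((hinv n).2.1 b hb)).2 c hc).2.2
    intro z hz z' hz'
    obtain ⟨c, hc, hz⟩ := mem_iUnion₂.1 hz
    obtain ⟨c', hc', hz'⟩ := mem_iUnion₂.1 hz'
    by_cases hcc : c = c'
    · subst hcc
      exact ⟨fun h => by linarith [(hs c hc z hz z' hz').1 h],
        fun h => by linarith [(hs c hc z hz z' hz').2 h]⟩
    have o1 := (hinv (n + 1)).2.1 c hc
    have o2 := (hinv (n + 1)).2.1 c' hc'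
    have hS := (hinv (n + 1)).2.2.2 hc hc' hcc
    refine ⟨fun h => ?_, fun h => ?_⟩
    · obtain ⟨q, q1, q2⟩ := hS.1 z.1 ⟨(hQ2 c o1 hz).1, h ▸ (hQ2 c' o2 hz').1⟩
      have e1 := (hs c hc z hz _ (hQ1 c o1 q1)).1 rfl
      have e2 := (hs c' hc' _ (hQ1 c' o2 q2) z' hz').1 h
      linarith [dist_triangle z.2 q z'.2]
    · obtain ⟨q, q1, q2⟩ := hS.2 z.2 ⟨(hQ2 c o1 hz).2, h ▸ (hQ2 c' o2 hz').2⟩
      have e1 := (hs c hc z hz _ (hQ1 c o1 q1)).2 rfl
      have e2 := (hs c' hc' _ (hQ1 c' o2 q2) z' hz').2 h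
      linarith [dist_triangle z.1 q z'.1]
  have hz {d : ℝ} (h : ∀ n : ℕ, d < 2 * (1 / (n + 1 : ℝ))) : d ≤ 0 := by
    by_contra hd
    obtain ⟨n, hn⟩ := exists_nat_one_div_lt (half_pos (not_le.1 hd))
    linarith [h n]
  choose e he using hex
  have hg : e.graph = ⋂ n, R n := by
    ext z
    refine ⟨fun h => mem_iInter.2 fun n => ?_, fun h => ?_⟩
    · have : z = (z.1, e z.1) := Prod.ext rfl (Eq.symm h)
      rw [this]; exact he _ n
    · exact dist_le_zero.1 (hz fun n =>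
        (hclose n _ (he z.1 (n + 1)) z (mem_iInter.1 h (n + 1))).1 rfl)
  have hc : Continuous e := continuous_iff_isClosed.2 fun C hC => by
    have h1 : IsClosed e.graph := hg ▸ isClosed_iInter hRc
    have h2 : e ⁻¹' C = Prod.fst '' (e.graph ∩ Prod.snd ⁻¹' C) := by
      ext x
      refine ⟨fun h => ⟨(x, e x), ⟨rfl, h⟩, rfl⟩, ?_⟩
      rintro ⟨z, ⟨h1, h2⟩, rfl⟩
      have : e z.1 = z.2 := h1
      rw [mem_preimage, this]; exact h2
    rw [h2]
    exact isClosedMap_fst_of_compactSpace _ (h1.inter (hC.preimage continuous_snd))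
  exact ⟨e, (hc.isClosedEmbedding fun x y h => dist_le_zero.1 (hz fun n =>
    (hclose n _ (he x (n + 1)) _ (he y (n + 1))).2 h)).isEmbedding⟩

end Pcs

end Pool.Agent.Lib.MP_9e71a3_gt
end
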