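import Pool.Agent.Lib.MP_9e71a3_gt.SccA

-- part Pool.Agent.Lib.MP_9e71a3_gt.SccB
section

/-! Closing up loops, insertion of a germ into a gap, and end effects for path values. -/

set_option autoImplicit false
set_option linter.unusedSectionVars false

namespace Pool.Agent.Lib.MP_9e71a3_gt

open Set Metric Filter Topology

theorem scc_locallyFinite {K0 : Set ℝ} {a P : ℝ} (hP : 0 < P) (hsub : K0 ⊆ Icc a (a + P)) :
    LocallyFinite fun n : ℤ => (fun u => u - n * P) ⁻¹' K0 := by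
  intro x
  refine ⟨Ioo (x - 1) (x + 1), Ioo_mem_nhds (by linarith) (by linarith), ?_⟩
  refine (Set.finite_Icc ⌊(x - 1 - a - P) / P⌋ ⌈(x + 1 - a) / P⌉).subset ?_
  rintro n ⟨u, hu, h1, h2⟩
  obtain ⟨h3, h4⟩ := hsub hu
  constructor
  · refine Int.floor_le_iff.2 ?_
    rw [div_lt_iff₀ hP]
    nlinarith
  · refine Int.le_ceil_iff.2 ?_
    rw [lt_div_iff₀ hP]
    nlinarith

theorem scc_isolated {Y : Type} [TopologicalSpace Y] [T2Space Y] {K A : Set ℝ} {f g : ℝ → Y}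
    (hf : ContinuousOn f K) (hg : ContinuousOn g K) (hA : A ⊆ K) (hfg : EqOn f g A) {p : ℝ}
    (hp : p ∈ K) (hne : f p ≠ g p) : p ∉ closure A := by
  intro hc
  have : NeBot (𝓝[A] p) := mem_closure_iff_nhdsWithin_neBot.1 hc
  exact hne (tendsto_nhds_unique_of_eventuallyEq ((hf p hp).mono hA) ((hg p hp).mono hA)
    (eventuallyEq_of_mem self_mem_nhdsWithin hfg))

theorem scc_gap_right {K : Set ℝ} (hK : IsClosed K) {s t : ℝ} (hs : s ∈ K) (ht : t ∈ K)
    (hst : s < t) (hc : s ∉ closure (K ∩ Ioc s t)) : ∃ m, Gap K s m ∧ m ≤ t := by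
  obtain ⟨ε, hε, hb⟩ := Metric.isOpen_iff.1 isClosed_closure.isOpen_compl s hc
  have hno : ∀ u ∈ K, s < u → u ≤ t → s + ε ≤ u := fun u hu h1 h2 => by
    by_contra h3
    refine hb (show u ∈ ball s ε from ?_) (subset_closure ⟨hu, h1, h2⟩)
    rw [mem_ball, Real.dist_eq, abs_lt]
    constructor <;> linarith
  have h1 := hno t ht hst le_rfl
  obtain ⟨h2, h3, h4⟩ := hi_spec hK (s := s + ε) ⟨t, ht, h1⟩
  refine ⟨_, ⟨hs, h2, by linarith, fun u hu => ?_⟩, h4 t ht h1⟩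
  by_cases h5 : u ≤ s
  · exact Or.inl h5
  · by_cases h6 : u ≤ t
    · exact Or.inr (h4 u hu (hno u hu (not_le.1 h5) h6))
    · exact Or.inr (h4 u hu (by linarith))

theorem scc_gap_left {K : Set ℝ} (hK : IsClosed K) {s t : ℝ} (hs : s ∈ K) (ht : t ∈ K)
    (hst : s < t) (hc : t ∉ closure (K ∩ Ico s t)) : ∃ m, Gap K m t ∧ s ≤ m := by
  obtain ⟨ε, hε, hb⟩ := Metric.isOpen_iff.1 isClosed_closure.isOpen_compl t hc
  have hno : ∀ u ∈ K, s ≤ u → u < t → u ≤ t - ε := fun u hu h1 h2 => by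
    by_contra h3
    refine hb (show u ∈ ball t ε from ?_) (subset_closure ⟨hu, h1, h2⟩)
    rw [mem_ball, Real.dist_eq, abs_lt]
    constructor <;> linarith
  have h1 := hno s hs le_rfl hst
  obtain ⟨h2, h3, h4⟩ := lo_spec hK (s := t - ε) ⟨s, hs, h1⟩
  refine ⟨_, ⟨h2, ht, by linarith, fun u hu => ?_⟩, h4 s hs h1⟩
  by_cases h5 : t ≤ u
  · exact Or.inr h5
  · by_cases h6 : s ≤ u
    · exact Or.inl (h4 u hu (hno u hu h6 (not_le.1 h5)))
    · exact Or.inl (h4 u hu (by linarith))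

namespace Str
variable {X : Type} [MetricSpace X] [CompactSpace X] {S : Str X} {L : Set (X × X)} {c : BC X}
  {y : X}

/-- values only depend on the part of the track between the parameters -/
theorem scc_pv_eq (hL : S.Lam L) {K K' : Set ℝ} {π π' : ℝ → X} (h : S.Trk L K π)
    (h' : S.Trk L K' π') {s t : ℝ} (hs : s ∈ K) (ht : t ∈ K) (hst : s ≤ t)
    (hK : ∀ u ∈ Icc s t, u ∈ K' ↔ u ∈ K) (hπ : ∀ u ∈ Icc s t, u ∈ K → π' u = π u) {o o' : X}
    (ho : o ∉ π '' (K ∩ Icc s t)) (ho' : o' ∉ π '' (K ∩ Icc s t)) :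
    S.pv K' π' s t o o' = S.pv K π s t o o' := by
  refine pv_congr hL h h' hs ht hst (φ := id) (fun u _ v _ huv => huv) ?_ rfl rfl
    (fun u hu => hπ u hu.2 hu.1) ho ho'
  ext u
  simp only [image_id, mem_inter_iff]
  exact ⟨fun hu => ⟨(hK u hu.2).2 hu.1, hu.2⟩, fun hu => ⟨(hK u hu.2).1 hu.1, hu.2⟩⟩

theorem scc_pv_gap (hL : S.Lam L) {K : Set ℝ} {π : ℝ → X} (h : S.Trk L K π) {s t : ℝ}
    (hg : Gap K s t) {o o' : X} (ho : o ∉ π '' K) (ho' : o' ∉ π '' K) :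
    S.pv K π s t o o' = 0 :=
  pv_nothing_between hL h hg.1 hg.2.1 hg.2.2.1.le hg.2.2.2
    ⟨fun e => ho ⟨s, hg.1, e.symm⟩, fun e => ho ⟨t, hg.2.1, e.symm⟩⟩
    ⟨fun e => ho' ⟨s, hg.1, e.symm⟩, fun e => ho' ⟨t, hg.2.1, e.symm⟩⟩

/-- the values at the two end parameters do not matter -/
theorem scc_pv_ends (hL : S.Lam L) {K : Set ℝ} {π π' : ℝ → X} (h : S.Trk L K π)
    (h' : S.Trk L K π') {s t : ℝ} (hs : s ∈ K) (ht : t ∈ K) (hst : s < t)
    (heq : EqOn π' π (K ∩ Ioo s t)) {o o' : X} (ho : o ∉ π '' K) (ho' : o' ∉ π '' K)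
    (hp : o ∉ π' '' K) (hp' : o' ∉ π' '' K) : S.pv K π' s t o o' = S.pv K π s t o o' := by
  have n1 : ∀ A, o ∉ π '' (K ∩ A) := fun A e => ho (image_mono inter_subset_left e)
  have n2 : ∀ A, o' ∉ π '' (K ∩ A) := fun A e => ho' (image_mono inter_subset_left e)
  have n3 : ∀ A, o ∉ π' '' (K ∩ A) := fun A e => hp (image_mono inter_subset_left e)
  have n4 : ∀ A, o' ∉ π' '' (K ∩ A) := fun A e => hp' (image_mono inter_subset_left e)
  by_cases hm : ∃ m ∈ K, s < m ∧ m < t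
  · obtain ⟨m, hm, h1, h2⟩ := hm
    rw [pv_add hL h hs hm ht h1.le h2.le (n1 _) (n2 _),
      pv_add hL h' hs hm ht h1.le h2.le (n3 _) (n4 _)]
    congr 1
    · by_cases he : π' s = π s
      · refine scc_pv_eq hL h h' hs hm h1.le (fun _ _ => Iff.rfl) (fun u hu huK => ?_) (n1 _) (n2 _)
        rcases hu.1.eq_or_lt with rfl | h3
        · exact he
        · exact heq ⟨huK, h3, hu.2.trans_lt h2⟩
      · obtain ⟨m0, hg, h3⟩ := scc_gap_right h.closed hs hm h1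
          (scc_isolated h'.cont h.cont inter_subset_left
            (fun u hu => heq ⟨hu.1, hu.2.1, hu.2.2.trans_lt h2⟩) hs he)
        rw [pv_add hL h hs hg.2.1 hm hg.2.2.1.le h3 (n1 _) (n2 _),
          pv_add hL h' hs hg.2.1 hm hg.2.2.1.le h3 (n3 _) (n4 _), scc_pv_gap hL h hg ho ho',
          scc_pv_gap hL h' hg hp hp', scc_pv_eq hL h h' hg.2.1 hm h3 (fun _ _ => Iff.rfl)
            (fun u hu huK => heq ⟨huK, hg.2.2.1.trans_le hu.1, hu.2.trans_lt h2⟩) (n1 _) (n2 _)]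
    · by_cases he : π' t = π t
      · refine scc_pv_eq hL h h' hm ht h2.le (fun _ _ => Iff.rfl) (fun u hu huK => ?_) (n1 _) (n2 _)
        rcases hu.2.eq_or_lt with rfl | h3
        · exact he
        · exact heq ⟨huK, h1.trans_le hu.1, h3⟩
      · obtain ⟨m0, hg, h3⟩ := scc_gap_left h.closed hm ht h2
          (scc_isolated h'.cont h.cont inter_subset_left
            (fun u hu => heq ⟨hu.1, h1.trans_le hu.2.1, hu.2.2⟩) ht he)
        rw [pv_add hL h hm hg.1 ht h3 hg.2.2.1.le (n1 _) (n2 _),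
          pv_add hL h' hm hg.1 ht h3 hg.2.2.1.le (n3 _) (n4 _), scc_pv_gap hL h hg ho ho',
          scc_pv_gap hL h' hg hp hp', scc_pv_eq hL h h' hm hg.1 h3 (fun _ _ => Iff.rfl)
            (fun u hu huK => heq ⟨huK, h1.trans_le hu.1, hu.2.trans_lt hg.2.2.1⟩) (n1 _) (n2 _)]
  · have hg : Gap K s t := ⟨hs, ht, hst, fun u hu => by
      by_contra h5
      push Not at h5
      exact hm ⟨u, hu, h5⟩⟩
    rw [scc_pv_gap hL h hg ho ho', scc_pv_gap hL h' hg hp hp']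

/-- closing up a loop -/
theorem periodize {R : Set (X × X)} {K0 : Set ℝ} {π0 : ℝ → X} {a P : ℝ} (hP : 0 < P)
    (h : IsPath R K0 π0 a (a + P)) (hcl : π0 a = π0 (a + P)) (hinj : InjOn π0 (K0 \ {a + P}))
    (ht : S.Tame L (gaps K0 π0)) (hnc : S.NC (gaps K0 π0)) :
    ∃ c : BC X, c.per = P ∧ S.IsScc L c ∧ (∀ u ∈ Icc a (a + P), u ∈ c.K ↔ u ∈ K0) ∧
      (∀ u ∈ K0, c.π u = π0 u) ∧ c.gs = gaps K0 π0 ∧ c.img = π0 '' K0 := by
  let c : BC X := ⟨P, {u | toIcoMod hP a u ∈ K0}, fun u => π0 (toIcoMod hP a u), ∅⟩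
  have hmod : ∀ u ∈ Icc a (a + P), toIcoMod hP a u = u ∨ (u = a + P ∧ toIcoMod hP a u = a) := by
    intro u hu
    rcases hu.2.eq_or_lt with rfl | h1
    · exact Or.inr ⟨rfl, by rw [toIcoMod_add_right, toIcoMod_apply_left]⟩
    · exact Or.inl ((toIcoMod_eq_self hP).2 ⟨hu.1, h1⟩)
  have hK : ∀ u ∈ Icc a (a + P), u ∈ c.K ↔ u ∈ K0 := by
    intro u hu
    change toIcoMod hP a u ∈ K0 ↔ _
    rcases hmod u hu with e | ⟨rfl, e⟩ <;> rw [e]
    exact iff_of_true h.left h.right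
  have hπ : ∀ u ∈ K0, c.π u = π0 u := by
    intro u hu
    change π0 (toIcoMod hP a u) = _
    rcases hmod u (h.sub hu) with e | ⟨rfl, e⟩ <;> rw [e]
    exact hcl
  have hper : c.Per :=
    ⟨hP, ⟨a, (hK a ⟨le_rfl, by linarith⟩).2 h.left⟩,
      fun u => by
        change toIcoMod hP a (u + P) ∈ K0 ↔ toIcoMod hP a u ∈ K0
        rw [toIcoMod_add_right],
      fun u _ => by
        change π0 (toIcoMod hP a (u + P)) = π0 (toIcoMod hP a u)
        rw [toIcoMod_add_right]⟩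
  have hKI : c.K ∩ Icc a (a + P) = K0 := by
    ext u
    exact ⟨fun hu => (hK u hu.2).1 hu.1, fun hu => ⟨(hK u (h.sub hu)).2 hu, h.sub hu⟩⟩
  have hU : c.K = ⋃ n : ℤ, (fun u => u - n * P) ⁻¹' K0 := by
    ext u
    rw [mem_iUnion]
    constructor
    · intro hu
      obtain ⟨v, hv, h1, h2, -, n, rfl⟩ := hper.exists_param a hu
      refine ⟨-n, ?_⟩
      have := (hK _ ⟨h1, h2.le⟩).1 hv
      simpa [c] using this
    · rintro ⟨n, hn⟩
      have := (hper.mem_add_zsmul n).1.2 ((hK _ (h.sub hn)).2 hn)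
      simpa [c] using this
  have hlf := scc_locallyFinite hP h.sub
  have hcl' : ∀ n : ℤ, IsClosed ((fun u => u - n * P) ⁻¹' K0) := fun n =>
    h.compact.isClosed.preimage (by fun_prop)
  have hgs : c.gs = gaps K0 π0 := by
    rw [hper.gs_eq ((hK a ⟨le_rfl, by linarith⟩).2 h.left)]
    change gaps (c.K ∩ Icc a (a + P)) c.π = _
    rw [hKI]
    exact gaps_congr hπ
  refine ⟨c, rfl, ⟨hP, hU ▸ hlf.isClosed_iUnion hcl', hper.ne, hper.perK, hper.perπ, ?_, ?_,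
    hgs ▸ ht, hgs ▸ hnc⟩, hK, hπ, hgs, ?_⟩
  · rw [hU]
    refine hlf.continuousOn_iUnion hcl' fun n => ?_
    refine (h.cont.comp (f := fun u => u - n * P) (by fun_prop) fun u hu => hu).congr
      fun u hu => ?_
    have := (hper.mem_add_zsmul n).2 ((hK _ (h.sub hu)).2 hu)
    rw [hπ _ hu] at this
    simpa [c] using this
  · intro u hu v hv h1 h2 huv
    have e := hinj ⟨hu, (toIcoMod_mem_Ico hP a u).2.ne⟩ ⟨hv, (toIcoMod_mem_Ico hP a v).2.ne⟩ huv
    obtain ⟨n, hn⟩ := (toIcoMod_eq_toIcoMod hP).1 e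
    rw [zsmul_eq_mul] at hn
    have h3 : (n : ℝ) < 1 := by
      change v < u + P at h2
      nlinarith
    have h4 : (-1 : ℝ) < n := by nlinarith
    have h5 : n = 0 := by
      have h6 : n < 1 := by exact_mod_cast h3
      have h7 : -1 < n := by exact_mod_cast h4
      omega
    rw [h5] at hn
    simp only [Int.cast_zero, zero_mul] at hn
    linarith
  · rw [hper.img_eq a]
    change c.π '' (c.K ∩ Icc a (a + P)) = _
    rw [hKI]
    exact image_congr hπ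

/-- insertion of an adjacent interior germ into a gap -/
theorem Sided.ins (h : S.Sided L y c) {s : ℝ} (hs : s ∉ c.K) {g : X} (hg : g ∈ c.In)
    (hch : S.Chord g (c.anchor s).1) (h1 : S.Free c.gs g (c.anchor s).1)
    (h2 : S.Free c.gs g (c.anchor s).2) :
    ∃ c' : BC X, S.Sided L y c' ∧ c.Ext c' ∧ s ∈ c'.K ∧ c'.π s = g ∧ c'.In = c.In \ {g} ∧
      c'.img = insert g c.img ∧
      c'.gs ⊆ c.gs ∪ {((c.anchor s).1, g), (g, (c.anchor s).2)} ∧
      ∀ u ∈ c'.K, u ∈ c.K ∨ ∃ n : ℤ, u = s + n * c.per := by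
  classical
  have hc := h.scc
  have hp := hc.per_pos
  obtain ⟨-, hab, hd⟩ := (hc.anchor_spec s).resolve_left fun e => hs e.1
  have has : lo c.K s < s :=
    lt_of_le_of_ne (lo_spec hc.closed (hc.exists_le s)).2.1 fun e => hs (e ▸ hab.1)
  have hsb : s < hi c.K s :=
    lt_of_le_of_ne (hi_spec hc.closed (hc.exists_ge s)).2.1 fun e => hs (e ▸ hab.2.1)
  have hle := hc.gap_le hab
  have ea : (c.anchor s).1 = c.π (lo c.K s) := rfl
  have eb : (c.anchor s).2 = c.π (hi c.K s) := rfl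
  generalize lo c.K s = a at hab has hle ea
  generalize hi c.K s = b at hab hsb hle eb
  let T : Set ℝ := {u | ∃ n : ℤ, u = s + n * c.per}
  have hT : IsClosed T := by
    have : T = (fun u => (u - s) / c.per) ⁻¹' range (Int.cast : ℤ → ℝ) := by
      ext u
      refine exists_congr fun n => ?_
      rw [eq_div_iff hp.ne']
      constructor <;> intro e <;> linarith
    rw [this]
    exact Int.isClosedEmbedding_coe_real.isClosed_range.preimage (by fun_prop)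
  have hTK : ∀ u ∈ T, u ∉ c.K := by
    rintro _ ⟨n, rfl⟩ hu
    exact hs ((hc.mem_add_zsmul n).1.1 hu)
  have hTp : ∀ u, u + c.per ∈ T ↔ u ∈ T := fun u =>
    ⟨fun ⟨n, hn⟩ => ⟨n - 1, by push_cast; linarith⟩, fun ⟨n, hn⟩ => ⟨n + 1, by
      push_cast; linarith⟩⟩
  have hTlt : ∀ u ∈ T, ∀ v ∈ T, u < v → u + c.per ≤ v := by
    rintro _ ⟨n, rfl⟩ _ ⟨m, rfl⟩ huv
    have h3 : (n : ℝ) < m := by nlinarith
    have h4 : n + 1 ≤ m := by exact_mod_cast h3
    have h5 : (n : ℝ) + 1 ≤ m := by exact_mod_cast h4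
    nlinarith
  have hsT : s ∈ T := ⟨0, by simp⟩
  have hgi : g ∉ c.img := (h.mem_In.1 hg).1
  let c0 : BC X := ⟨c.per, c.K ∪ T, fun u => if u ∈ c.K then c.π u else g, ∅⟩
  have e1 : ∀ u ∈ c.K, c0.π u = c.π u := fun u hu => if_pos hu
  have e2 : ∀ u ∈ T, c0.π u = g := fun u hu => if_neg (hTK u hu)
  have himg : c0.img = insert g c.img := by
    ext x
    constructor
    · rintro ⟨u, hu | hu, rfl⟩
      · exact Or.inr ⟨u, hu, (e1 u hu).symm⟩
      · exact Or.inl (e2 u hu)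
    · rintro (rfl | ⟨u, hu, rfl⟩)
      · exact ⟨s, Or.inr hsT, e2 s hsT⟩
      · exact ⟨u, Or.inl hu, e1 u hu⟩
  have hgs : c0.gs ⊆ c.gs ∪ {((c.anchor s).1, g), (g, (c.anchor s).2)} := by
    rintro _ ⟨u, v, ⟨hu, hv, huv, hno⟩, rfl⟩
    rcases hu with hu | hu <;> rcases hv with hv | hv
    · exact Or.inl ⟨u, v, ⟨hu, hv, huv, fun w hw => hno w (Or.inl hw)⟩, by rw [e1 u hu, e1 v hv]⟩
    · obtain ⟨n, rfl⟩ := hv
      have h3 := hc.gap_add_zsmul n hab
      have h4 : u = a + n * c.per := by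
        rcases hno _ (Or.inl h3.1) with h5 | h5 <;> rcases h3.2.2.2 u hu with h6 | h6 <;> linarith
      refine Or.inr (Or.inl ?_)
      rw [e1 u hu, e2 _ ⟨n, rfl⟩, h4, (hc.mem_add_zsmul n).2 hab.1, ea]
    · obtain ⟨n, rfl⟩ := hu
      have h3 := hc.gap_add_zsmul n hab
      have h4 : v = b + n * c.per := by
        rcases hno _ (Or.inl h3.2.1) with h5 | h5 <;> rcases h3.2.2.2 v hv with h6 | h6 <;>
          linarith
      refine Or.inr (Or.inr ?_)
      rw [e1 v hv, e2 _ ⟨n, rfl⟩, h4, (hc.mem_add_zsmul n).2 hab.2.1, eb]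
      rfl
    · exfalso
      have h3 := hTlt u hu v hv huv
      obtain ⟨n, rfl⟩ := hu
      rcases hno _ (Or.inl (hc.gap_add_zsmul n hab).2.1) with h5 | h5 <;> linarith
  have hch2 : S.Chord g (c.anchor s).2 := hch.trans (hc.tame.chord _ hd)
  have hc0 : S.IsScc L c0 := by
    refine ⟨hp, hc.closed.union hT, hc.ne.mono subset_union_left,
      fun u => or_congr (hc.perK u) (hTp u), ?_, ?_, ?_, ?_, ?_⟩
    · rintro u (hu | hu)
      · rw [e1 u hu, ← hc.perπ u hu]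
        exact e1 _ (hc.per.add_mem hu)
      · rw [e2 u hu]
        exact e2 _ ((hTp u).2 hu)
    · exact (hc.cont.congr e1).union_of_isClosed (continuousOn_const.congr e2) hc.closed hT
    · rintro u (hu | hu) v (hv | hv) h3 h4 h5
      · exact hc.inj u hu v hv h3 h4 (by rwa [e1 u hu, e1 v hv] at h5)
      · rw [e1 u hu, e2 v hv] at h5
        exact absurd ⟨u, hu, h5⟩ hgi
      · rw [e2 u hu, e1 v hv] at h5
        exact absurd ⟨v, hv, h5.symm⟩ hgi
      · by_contra h6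
        have := hTlt u hu v hv (lt_of_le_of_ne h3 h6)
        change v < u + c.per at h4
        linarith
    · refine Tame.mono (hc.tame.union ⟨?_, (Set.toFinite _).subset Set.sdiff_subset⟩) hgs
      rintro _ (rfl | rfl)
      · exact hch.symm
      · exact hch2
    · intro d hd' e he
      rcases hgs hd' with hd' | rfl | rfl <;> rcases hgs he with he | rfl | rfl
      · exact hc.nc d hd' e he
      · exact h1.symm d hd'
      · exact h2 d hd'
      · exact fun hx => h1.symm e he hx.symm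
      · exact fun hx => hx.ne13 rfl
      · exact fun hx => hx.ne23 rfl
      · exact fun hx => h2 e he hx.symm
      · exact fun hx => hx.ne14 rfl
      · exact fun hx => hx.ne13 rfl
  have hy0 : y ∉ c0.img := by
    rw [himg]
    rintro (rfl | h3)
    · exact h.out_P (Or.inl hg)
    · exact h.out h3
  have hval : ∀ x ∉ c0.img, S.val c0 x y = S.val c x y := by
    intro x hx
    have hx' : x ∉ c.img := fun e => hx (himg ▸ Or.inr e)
    have ha' := hc.per.add_mem hab.1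
    have hb' := hc.per.add_mem hab.2.1
    have hs' : s + c.per ∈ T := (hTp s).2 hsT
    have hg1 := hc.gap_add_zsmul 1 hab
    simp only [Int.cast_one, one_mul] at hg1
    have hlt := hab.2.2.1
    rw [hc.val_eq h.lam hab.2.1 hx' h.out, hc0.val_eq h.lam (Or.inl hab.2.1) hx hy0,
      hc.pv_add' h.lam hab.2.1 ha' hb' hle (by linarith) hx' h.out,
      scc_pv_gap h.lam hc.trk hg1 hx' h.out]
    change S.pv c0.K c0.π b (b + c.per) x y = _
    rw [hc0.pv_add' h.lam (Or.inl hab.2.1) (Or.inl ha') (Or.inl hb') hle (by linarith) hx hy0,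
      hc0.pv_add' h.lam (Or.inl ha') (Or.inr hs') (Or.inl hb') (by linarith) (by linarith) hx hy0,
      hc0.pv_nothing h.lam (Or.inl ha') (Or.inr hs') (by linarith) ?_ hx hy0,
      hc0.pv_nothing h.lam (Or.inr hs') (Or.inl hb') (by linarith) ?_ hx hy0,
      scc_pv_eq h.lam hc.trk hc0.trk hab.2.1 ha' hle ?_ (fun u _ hu => e1 u hu)
        (scc_not_mem hx' _) (scc_not_mem h.out _), add_zero]
    · intro u hu
      refine ⟨?_, Or.inl⟩
      rintro (h3 | h3)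
      · exact h3
      · have := hTlt s hsT u h3 (by linarith [hu.1])
        linarith [hu.2]
    · rintro u (hu | hu)
      · rcases hg1.2.2.2 u hu with h3 | h3
        · left; linarith
        · exact Or.inr h3
      · by_contra h3
        push Not at h3
        have := hTlt _ hs' u hu h3.1
        linarith [h3.2]
    · rintro u (hu | hu)
      · rcases hg1.2.2.2 u hu with h3 | h3
        · exact Or.inl h3
        · right; linarith
      · by_contra h3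
        push Not at h3
        have := hTlt u hu _ hs' h3.2
        linarith [h3.1]
  obtain ⟨c', p1, p2, p3, hc'⟩ := hc0.exists_sided h.lam hy0
  have q1 : c'.img = c0.img := by rw [BC.img, BC.img, p2, p3]
  have q2 : c'.gs = c0.gs := by rw [BC.gs, BC.gs, p2, p3]
  have q3 : ∀ x, S.val c' x y = S.val c0 x y := fun x => by rw [val, val, p1, p2, p3]
  have q4 : c'.In = c.In \ c'.img := by
    ext x
    rw [hc'.mem_In, Set.mem_sdiff, h.mem_In, q3, q1]
    constructor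
    · rintro ⟨h3, h4⟩
      exact ⟨⟨fun e => h3 (himg ▸ Or.inr e), (hval x h3).symm.trans h4⟩, h3⟩
    · rintro ⟨⟨-, h4⟩, h3⟩
      exact ⟨h3, (hval x h3).trans h4⟩
  refine ⟨c', hc', ⟨p1, p2 ▸ subset_union_left, fun u hu => p3 ▸ e1 u hu, q4, ?_⟩,
    p2 ▸ Or.inr hsT, p3 ▸ e2 s hsT, ?_, q1.trans himg, q2 ▸ hgs, fun u hu => by rwa [p2] at hu⟩
  · rw [q1, himg]
    rintro x (rfl | hx)
    · exact Or.inl hg
    · exact Or.inr hx
  · rw [q4, q1, himg]
    ext x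
    simp only [Set.mem_sdiff, mem_insert_iff, mem_singleton_iff, not_or]
    exact ⟨fun hx => ⟨hx.1, hx.2.1⟩, fun hx => ⟨hx.1, hx.2, (h.mem_In.1 hx.1).1⟩⟩

end Str

end Pool.Agent.Lib.MP_9e71a3_gt
end

-- part Pool.Agent.Lib.MP_9e71a3_gt.SccC
section

/-! Arcs through the interior of a cell and the two curves they cut off. -/

set_option autoImplicit false
set_option linter.unusedSectionVars false

namespace Pool.Agent.Lib.MP_9e71a3_gt

open Set Metric Filter Topology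

theorem scc_ext01_zero {Y : Type} (p q : Y) (α : ℝ → Y) : ext01 p q α 0 = p := if_pos rfl

theorem scc_ext01_one {Y : Type} (p q : Y) (α : ℝ → Y) : ext01 p q α 1 = q := by
  simp [ext01]

theorem scc_ext01_mid {Y : Type} (p q : Y) (α : ℝ → Y) {u : ℝ} (hu : u ∈ Ioo (0:ℝ) 1) :
    ext01 p q α u = α u := by
  simp [ext01, hu.1.ne', hu.2.ne]

theorem scc_ext01_cont {A : Set ℝ} (hA : A ⊆ Ioo 0 1) {f : ℝ → ℝ} (hf : Continuous f) {p q : ℝ}
    (hp : p = f 0 ∨ (0:ℝ) ∉ closure A) (hq : q = f 1 ∨ (1:ℝ) ∉ closure A) :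
    ContinuousOn (ext01 p q f) (A ∪ {0, 1}) := by
  have key : ∀ x, (ext01 p q f x = f x ∨ x ∉ closure A) → ContinuousWithinAt (ext01 p q f) A x := by
    rintro x (e | e)
    · exact hf.continuousWithinAt.congr (fun u hu => scc_ext01_mid _ _ _ (hA hu)) e
    · exact continuousWithinAt_of_notMem_closure e
  have hfin : ({0, 1} : Set ℝ).Finite := Set.toFinite _
  intro x hx
  refine ContinuousWithinAt.union ?_ ?_
  · rcases hx with hx | rfl | rfl
    · exact key x (Or.inl (scc_ext01_mid _ _ _ (hA hx)))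
    · exact key 0 (by rwa [scc_ext01_zero])
    · exact key 1 (by rwa [scc_ext01_one])
  · by_cases h : x ∈ ({0, 1} : Set ℝ)
    · exact hfin.continuousOn _ x h
    · exact continuousWithinAt_of_notMem_closure (by rwa [hfin.isClosed.closure_eq])

theorem scc_rev_im (A : Set ℝ) :
    (fun u : ℝ => 1 - u) '' (A ∪ {0, 1}) = (fun u : ℝ => 1 - u) '' A ∪ {0, 1} := by
  rw [image_union, image_pair, sub_zero, sub_self, pair_comm]

theorem scc_rev_val {Y : Type} (p q : Y) (α : ℝ → Y) (u : ℝ) :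
    ext01 q p (fun v => α (1 - v)) (1 - u) = ext01 p q α u := by
  by_cases h0 : u = 0
  · rw [h0, sub_zero, scc_ext01_zero, scc_ext01_one]
  · by_cases h1 : u = 1
    · rw [h1, sub_self, scc_ext01_zero, scc_ext01_one]
    · have h2 : 1 - u ≠ 0 := fun e => h1 (by linarith)
      have h3 : 1 - u ≠ 1 := fun e => h0 (by linarith)
      simp [ext01, h0, h1, h2, h3]

theorem scc_rev {Y : Type} [TopologicalSpace Y] {G : Set (Y × Y)} {A : Set ℝ} {α : ℝ → Y}
    {p q : Y} (h : IsPath G (A ∪ {0, 1}) (ext01 p q α) 0 1) :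
    IsPath (Prod.swap '' G) ((fun u : ℝ => 1 - u) '' A ∪ {0, 1})
      (ext01 q p fun v => α (1 - v)) 0 1 ∧
    gaps ((fun u : ℝ => 1 - u) '' A ∪ {0, 1}) (ext01 q p fun v => α (1 - v)) =
      Prod.swap '' gaps (A ∪ {0, 1}) (ext01 p q α) := by
  have := h.transport_anti (φ := fun u : ℝ => 1 - u) (π' := ext01 q p fun v => α (1 - v))
    (fun u _ v _ huv => by simpa using huv) (by fun_prop) fun u _ => scc_rev_val p q α u
  rwa [scc_rev_im, sub_zero, sub_self] at this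

namespace Str
variable {X : Type} [MetricSpace X] [CompactSpace X] {S : Str X} {L : Set (X × X)} {c : BC X}
  {y : X}

/-- an arc through the interior from the parameter `s1` to the parameter `s2` -/
structure Conn (S : Str X) (L : Set (X × X)) (c : BC X) (s1 s2 : ℝ) (KA : Set ℝ) (α : ℝ → X)
    (G : Set (X × X)) : Prop where
  pt1 : ∃ u ∈ c.K, s1 < u ∧ u < s2
  pt2 : ∃ u ∈ c.K, s2 < u ∧ u < s1 + c.per
  sub : KA ⊆ Ioo 0 1
  mem : MapsTo α KA c.In
  inj : InjOn α KA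
  p1 : IsPath G (KA ∪ {0, 1}) (ext01 (c.anchor s1).2 (c.anchor s2).1 α) 0 1
  p2 : IsPath G (KA ∪ {0, 1}) (ext01 (c.anchor s1).1 (c.anchor s2).2 α) 0 1
  nc1 : S.NC (gaps (KA ∪ {0, 1}) (ext01 (c.anchor s1).2 (c.anchor s2).1 α))
  nc2 : S.NC (gaps (KA ∪ {0, 1}) (ext01 (c.anchor s1).1 (c.anchor s2).2 α))
  tame : S.Tame L G
  free : ∀ f ∈ G, S.Free c.gs f.1 f.2
  ins : ∀ f ∈ G, S.InsW c f.1 f.2

variable {s1 s2 : ℝ} {KA : Set ℝ} {α : ℝ → X} {G : Set (X × X)}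

theorem NC.swap {D : Set (X × X)} (h : S.NC D) : S.NC (Prod.swap '' D) := by
  rintro _ ⟨d, hd, rfl⟩ _ ⟨e, he, rfl⟩ hx
  exact h d hd e he hx.swapL.swapR

theorem Conn.symm (hL : S.Lam L) (h : S.IsScc L c) (hc : S.Conn L c s1 s2 KA α G) :
    S.Conn L c s2 (s1 + c.per) ((fun u : ℝ => 1 - u) '' KA) (fun v => α (1 - v))
      (Prod.swap '' G) := by
  have ha := h.per.anchor_add h.closed s1
  refine ⟨hc.pt2, ?_, ?_, ?_, ?_, ?_, ?_, ?_, ?_, hc.tame.swap hL, ?_, ?_⟩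
  · obtain ⟨u, hu, h1, h2⟩ := hc.pt1
    exact ⟨u + c.per, h.per.add_mem hu, by linarith, by linarith⟩
  · rintro _ ⟨u, hu, rfl⟩
    obtain ⟨h1, h2⟩ := hc.sub hu
    exact ⟨by linarith, by linarith⟩
  · rintro _ ⟨u, hu, rfl⟩
    simpa using hc.mem hu
  · rintro _ ⟨u, hu, rfl⟩ _ ⟨v, hv, rfl⟩ e
    simp only [sub_sub_cancel] at e
    rw [hc.inj hu hv e]
  · rw [ha]; exact (scc_rev hc.p2).1
  · rw [ha]; exact (scc_rev hc.p1).1
  · rw [ha, (scc_rev hc.p2).2]; exact hc.nc2.swap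
  · rw [ha, (scc_rev hc.p1).2]; exact hc.nc1.swap
  · rintro _ ⟨f, hf, rfl⟩
    exact (hc.free f hf).symm
  · rintro _ ⟨f, hf, rfl⟩
    obtain ⟨w, hw, h1, h2, h3⟩ := hc.ins f hf
    exact ⟨w, hw, h1.trans (hc.tame.chord f hf), h3, h2⟩

/-- order relations between the parameters next to `s1` and `s2` -/
theorem Conn.ord (h : S.IsScc L c) (hc : S.Conn L c s1 s2 KA α G) :
    s1 < lo c.K s2 ∧ hi c.K s1 < s2 ∧ hi c.K s1 ≤ lo c.K s2 ∧ s2 < lo c.K s1 + c.per ∧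
      hi c.K s2 < s1 + c.per ∧ hi c.K s2 ≤ lo c.K s1 + c.per := by
  obtain ⟨u, hu, h1, h2⟩ := hc.pt1
  obtain ⟨v, hv, h3, h4⟩ := hc.pt2
  have h5 := (lo_spec h.closed (h.exists_le s2)).2.2 u hu h2.le
  have h6 := (hi_spec h.closed (h.exists_ge s1)).2.2 u hu h1.le
  have h7 := (lo_spec h.closed (h.exists_le s1)).2.2 _ (h.per.sub_mem hv) (by linarith)
  have h8 := (hi_spec h.closed (h.exists_ge s2)).2.2 v hv h3.le
  refine ⟨?_, ?_, ?_, ?_, ?_, ?_⟩ <;> linarith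

/-- the curve formed by the boundary part from `s1` to `s2` and the reversed arc -/
structure Half (S : Str X) (L : Set (X × X)) (y : X) (c : BC X) (s1 s2 : ℝ) (KA : Set ℝ)
    (α : ℝ → X) (G : Set (X × X)) (c1 : BC X) : Prop where
  sided : S.Sided L y c1
  per : c1.per = s2 - s1 + 1
  K1 : ∀ u ∈ Icc s1 s2, u ∈ c1.K ↔ u ∈ c.K
  π1 : ∀ u ∈ Icc s1 s2, u ∈ c.K → c1.π u = c.π u
  arc : ∀ v ∈ Ioo (0:ℝ) 1, (s2 + v ∈ c1.K ↔ 1 - v ∈ KA) ∧
    (1 - v ∈ KA → c1.π (s2 + v) = α (1 - v))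
  gs : ∀ d ∈ c1.gs, d ∈ c.gs ∨ d.swap ∈ G ∨ d.1 = d.2
  img : c1.img = c.π '' (c.K ∩ Icc (hi c.K s1) (lo c.K s2)) ∪ α '' KA
  val : ∀ x ∉ c1.img, ∀ z ∉ c1.img, S.val c1 x z = S.pv c.K c.π (hi c.K s1) (lo c.K s2) x z +
    S.pv (KA ∪ {0, 1}) (ext01 (c.anchor s1).2 (c.anchor s2).1 α) 0 1 x z

theorem Conn.tame_gaps (h : S.Sided L y c) (hc : S.Conn L c s1 s2 KA α G) :
    S.Tame L (gaps (KA ∪ {0, 1}) (ext01 (c.anchor s1).2 (c.anchor s2).1 α)) := by
  have hs := h.scc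
  obtain ⟨o1, o2, o3, o4, o5, o6⟩ := hc.ord hs
  obtain ⟨hb1, b1a, -⟩ := hi_spec hs.closed (hs.exists_ge s1)
  obtain ⟨ha1, a1a, -⟩ := lo_spec hs.closed (hs.exists_le s1)
  obtain ⟨ha2, a2a, -⟩ := lo_spec hs.closed (hs.exists_le s2)
  have key : ∀ d ∈ gaps (KA ∪ {0, 1}) (ext01 (c.anchor s1).2 (c.anchor s2).1 α), d ∈ G ∨
      (d = ((c.anchor s1).2, (c.anchor s1).2) ∧ (c.anchor s1).2 ∈ S.G) := by
    rintro _ ⟨s, t, hg, rfl⟩
    refine (hc.p1.gap s t hg).symm.imp id fun e => ?_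
    have hlt := hg.2.2.1
    have h0 := (hc.p1.sub hg.1).1
    have h1 := (hc.p1.sub hg.2.1).2
    rcases hg.1 with h2 | rfl | rfl
    · rcases hg.2.1 with h3 | rfl | rfl
      · rw [scc_ext01_mid _ _ _ (hc.sub h2), scc_ext01_mid _ _ _ (hc.sub h3)] at e
        exact absurd (hc.inj h2 h3 e) hlt.ne
      · linarith
      · rw [scc_ext01_mid _ _ _ (hc.sub h2), scc_ext01_one] at e
        exact absurd ⟨_, ha2, e.symm⟩ (h.mem_In.1 (hc.mem h2)).1
    · rcases hg.2.1 with h3 | rfl | rfl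
      · rw [scc_ext01_mid _ _ _ (hc.sub h3), scc_ext01_zero] at e
        exact absurd ⟨_, hb1, e⟩ (h.mem_In.1 (hc.mem h3)).1
      · linarith
      · refine ⟨by rw [← e, scc_ext01_zero], ?_⟩
        rw [scc_ext01_one, scc_ext01_zero] at e
        have h4 := hs.inj _ hb1 _ ha2 o3 (by linarith) e
        rcases hs.anchor_spec s1 with ⟨h5, -⟩ | ⟨-, -, h5⟩
        · rw [hi_of_mem h5] at h4
          linarith
        · exact (hs.tame.chord _ h5).2.1
    · linarith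
  refine ⟨fun d hd => ?_, (hc.tame.fin.union (finite_singleton
    ((c.anchor s1).2, (c.anchor s1).2))).subset fun d hd => ?_⟩
  · rcases key d hd with h1 | ⟨rfl, h1⟩
    · exact hc.tame.chord d h1
    · exact Ord3.Chord.refl h1
  · exact (key d hd.1).imp (fun h1 => ⟨h1, hd.2⟩) fun h1 => h1.1

theorem Conn.exists_half (h : S.Sided L y c) (hc : S.Conn L c s1 s2 KA α G) :
    ∃ c1, S.Half L y c s1 s2 KA α G c1 := by
  have hs := h.scc
  have hL := h.lam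
  have hp := hs.per_pos
  have htp := hc.tame_gaps h
  obtain ⟨o1, o2, o3, o4, o5, o6⟩ := hc.ord hs
  obtain ⟨hb1, b1a, b1b⟩ := hi_spec hs.closed (hs.exists_ge s1)
  obtain ⟨ha1, a1a, -⟩ := lo_spec hs.closed (hs.exists_le s1)
  obtain ⟨ha2, a2a, a2b⟩ := lo_spec hs.closed (hs.exists_le s2)
  obtain ⟨hb2, b2a, -⟩ := hi_spec hs.closed (hs.exists_ge s2)
  have heq : EqOn (ext01 (c.anchor s1).2 (c.anchor s2).1 α)
      (ext01 (c.anchor s1).1 (c.anchor s2).2 α) KA := fun u hu => by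
    rw [scc_ext01_mid _ _ _ (hc.sub hu), scc_ext01_mid _ _ _ (hc.sub hu)]
  have h0 : (0:ℝ) ∈ KA ∪ {0, 1} := hc.p1.left
  have h1 : (1:ℝ) ∈ KA ∪ {0, 1} := hc.p1.right
  have i0 : hi c.K s1 = s1 ∨ (0:ℝ) ∉ closure KA := by
    rcases hs.anchor_spec s1 with ⟨h5, -⟩ | ⟨-, h5, -⟩
    · exact Or.inl (hi_of_mem h5)
    · refine Or.inr (scc_isolated hc.p1.cont hc.p2.cont subset_union_left heq h0 ?_)
      rw [scc_ext01_zero, scc_ext01_zero]
      intro e
      have := hs.inj _ ha1 _ hb1 h5.2.2.1.le (by linarith) e.symm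
      linarith [h5.2.2.1]
  have i1 : lo c.K s2 = s2 ∨ (1:ℝ) ∉ closure KA := by
    rcases hs.anchor_spec s2 with ⟨h5, -⟩ | ⟨-, h5, -⟩
    · exact Or.inl (lo_of_mem h5)
    · refine Or.inr (scc_isolated hc.p1.cont hc.p2.cont subset_union_left heq h1 ?_)
      rw [scc_ext01_one, scc_ext01_one]
      intro e
      have := hs.inj _ ha2 _ hb2 h5.2.2.1.le (by linarith) e
      linarith [h5.2.2.1]
  have hp1 := hc.p1
  have hnc1 := hc.nc1
  have eb : (c.anchor s1).2 = c.π (hi c.K s1) := rfl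
  have ea : (c.anchor s2).1 = c.π (lo c.K s2) := rfl
  rw [eb, ea] at htp hp1 hnc1
  suffices H : ∃ c1 : BC X, S.IsScc L c1 ∧ c1.per = s2 - s1 + 1 ∧
      (∀ u ∈ Icc s1 s2, u ∈ c1.K ↔ u ∈ c.K) ∧ (∀ u ∈ Icc s1 s2, u ∈ c.K → c1.π u = c.π u) ∧
      (∀ v ∈ Ioo (0:ℝ) 1, (s2 + v ∈ c1.K ↔ 1 - v ∈ KA) ∧
        (1 - v ∈ KA → c1.π (s2 + v) = α (1 - v))) ∧
      (∀ d ∈ c1.gs, d ∈ c.gs ∨ d.swap ∈ G ∨ d.1 = d.2) ∧
      c1.img = c.π '' (c.K ∩ Icc (hi c.K s1) (lo c.K s2)) ∪ α '' KA ∧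
      ∀ x ∉ c1.img, ∀ z ∉ c1.img, S.val c1 x z = S.pv c.K c.π (hi c.K s1) (lo c.K s2) x z +
        S.pv (KA ∪ {0, 1}) (ext01 (c.π (hi c.K s1)) (c.π (lo c.K s2)) α) 0 1 x z by
    obtain ⟨c1, r0, r1, r2, r3, r4, r5, r6, r7⟩ := H
    refine ⟨{ c1 with In := {x | x ∉ c1.img ∧ S.val c1 x y = 1} }, ⟨hL,
      ⟨r0.per_pos, r0.closed, r0.ne, r0.perK, r0.perπ, r0.cont, r0.inj, r0.tame, r0.nc⟩, ?_, rfl⟩,
      r1, r2, r3, r4, r5, r6, r7⟩
    change y ∉ c1.img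
    rw [r6]
    rintro (h2 | ⟨u, hu, h2⟩)
    · exact scc_not_mem h.out _ h2
    · exact h.out_P (Or.inl (h2 ▸ hc.mem hu))
  generalize hi c.K s1 = b1 at *
  generalize lo c.K s2 = a2 at *
  set p1 := ext01 (c.π b1) (c.π a2) α with hp1def
  set P1 := s2 - s1 + 1 with hP1
  have hP1p : 0 < P1 := by linarith
  set φ : ℝ → ℝ := ext01 (b1 + P1) a2 fun u => s2 + 1 - u with hφdef
  have φ0 : φ 0 = b1 + P1 := scc_ext01_zero _ _ _
  have φ1 : φ 1 = a2 := scc_ext01_one _ _ _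
  have φm : ∀ u ∈ KA, φ u = s2 + 1 - u := fun u hu => scc_ext01_mid _ _ _ (hc.sub hu)
  have q0 : p1 0 = c.π b1 := scc_ext01_zero _ _ _
  have q1 : p1 1 = c.π a2 := scc_ext01_one _ _ _
  have qm : ∀ u ∈ KA, p1 u = α u := fun u hu => scc_ext01_mid _ _ _ (hc.sub hu)
  have hφ : StrictAntiOn φ (KA ∪ {0, 1}) := by
    rintro u (hu | rfl | rfl) v (hv | rfl | rfl) huv
    · rw [φm u hu, φm v hv]; linarith
    · linarith [(hc.sub hu).1]
    · rw [φm u hu, φ1]; linarith [(hc.sub hu).2]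
    · rw [φm v hv, φ0]; linarith [(hc.sub hv).1]
    · linarith
    · rw [φ0, φ1]; linarith
    · linarith [(hc.sub hv).2]
    · linarith
    · linarith
  have hφc : ContinuousOn φ (KA ∪ {0, 1}) := scc_ext01_cont hc.sub (by fun_prop)
    (i0.imp_left fun e => by linarith) (i1.imp_left fun e => by linarith)
  have hφim : ∀ u, u ∈ φ '' (KA ∪ {0, 1}) ↔ s2 + 1 - u ∈ KA ∨ u = b1 + P1 ∨ u = a2 := by
    intro u
    constructor
    · rintro ⟨v, hv | rfl | rfl, rfl⟩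
      · left; rw [φm v hv]; simpa using hv
      · exact Or.inr (Or.inl φ0)
      · exact Or.inr (Or.inr φ1)
    · rintro (hu | rfl | rfl)
      · exact ⟨_, Or.inl hu, by rw [φm _ hu]; ring⟩
      · exact ⟨0, h0, φ0⟩
      · exact ⟨1, h1, φ1⟩
  obtain ⟨π', hπ'⟩ := exists_transport p1 hφ.injOn
  obtain ⟨t1, t2⟩ := hp1.transport_anti hφ hφc hπ'
  rw [φ0, φ1] at t1
  have harc := hs.arc hb1 ha2 o3 (by linarith)
  obtain ⟨u1, u2, u3, u4⟩ := (harc.toIsPath.mono' (R' := univ) fun _ _ _ _ _ => mem_univ _).concat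
    (t1.mono' fun _ _ _ _ _ => mem_univ _) (by rw [← q1, ← hπ' 1 h1, φ1])
  generalize (fun u => if u ≤ a2 then c.π u else π' u) = π0 at u1 u2 u3 u4
  have v1 : ∀ u ∈ KA ∪ {0, 1}, π0 (φ u) = p1 u := fun u hu =>
    (u4 (mem_image_of_mem φ hu)).trans (hπ' u hu)
  have v2 : ∀ u, s2 + 1 - u ∈ KA → π0 u = α (s2 + 1 - u) := fun u hu => by
    have := v1 _ (Or.inl hu)
    rwa [φm _ hu, qm _ hu, sub_sub_cancel] at this
  have ha2' : a2 ∈ c.K ∩ Icc b1 a2 := ⟨ha2, o3, le_rfl⟩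
  have hb1' : b1 ∈ c.K ∩ Icc b1 a2 := ⟨hb1, le_rfl, o3⟩
  have hK0 : ∀ u, u ∈ c.K ∩ Icc b1 a2 ∪ φ '' (KA ∪ {0, 1}) ↔
      u ∈ c.K ∩ Icc b1 a2 ∨ s2 + 1 - u ∈ KA ∨ u = b1 + P1 := by
    intro u
    rw [mem_union, hφim]
    constructor
    · rintro (h2 | h2 | h2 | rfl)
      · exact Or.inl h2
      · exact Or.inr (Or.inl h2)
      · exact Or.inr (Or.inr h2)
      · exact Or.inl ha2'
    · rintro (h2 | h2 | h2)
      · exact Or.inl h2
      · exact Or.inr (Or.inl h2)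
      · exact Or.inr (Or.inr (Or.inl h2))
  have hfree : ∀ f ∈ gaps (KA ∪ {0, 1}) p1, f ∈ G ∨ f.1 = f.2 := by
    rintro _ ⟨s, t, hg, rfl⟩
    exact (hp1.gap s t hg).symm
  have hfree' : ∀ f ∈ gaps (KA ∪ {0, 1}) p1, S.Free c.gs f.1 f.2 := fun f hf d hd hx => by
    rcases hfree f hf with h2 | h2
    · exact hc.free f h2 d hd hx
    · exact hx.ne34 h2
  have hsub : gaps (c.K ∩ Icc b1 a2) c.π ⊆ c.gs := gaps_inter_Icc_sub _ _
  obtain ⟨c0, w1, w2, w3, w4, w5, w6⟩ := periodize (S := S) (L := L) hP1p u1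
    (by rw [u3 hb1', ← φ0, v1 0 h0, q0]) (by
      rintro u ⟨hu, hu'⟩ v ⟨hv, hv'⟩ e
      rcases (hK0 u).1 hu with h2 | h2 | h2
      · rcases (hK0 v).1 hv with h3 | h3 | h3
        · exact harc.inj h2 h3 (by rwa [u3 h2, u3 h3] at e)
        · rw [u3 h2, v2 v h3] at e
          exact absurd ⟨u, h2.1, e⟩ (h.mem_In.1 (hc.mem h3)).1
        · exact absurd h3 hv'
      · rcases (hK0 v).1 hv with h3 | h3 | h3
        · rw [u3 h3, v2 u h2] at e
          exact absurd ⟨v, h3.1, e.symm⟩ (h.mem_In.1 (hc.mem h2)).1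
        · rw [v2 u h2, v2 v h3] at e
          linarith [hc.inj h2 h3 e]
        · exact absurd h3 hv'
      · exact absurd h2 hu')
    (by rw [u2, t2]; exact (hs.tame.mono hsub).union (htp.swap hL)) (by
      rw [u2, t2]
      rintro d (hd | hd) e (he | he)
      · exact hs.nc d (hsub hd) e (hsub he)
      · obtain ⟨f, hf, rfl⟩ := he
        exact (hfree' f hf).symm d (hsub hd)
      · obtain ⟨f, hf, rfl⟩ := hd
        exact fun hx => (hfree' f hf).symm e (hsub he) hx.symm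
      · exact hnc1.swap d hd e he)
  have himg : c0.img = c.π '' (c.K ∩ Icc b1 a2) ∪ α '' KA := by
    rw [w6]
    ext x
    constructor
    · rintro ⟨u, hu, rfl⟩
      rcases (hK0 u).1 hu with h2 | h2 | rfl
      · exact Or.inl ⟨u, h2, (u3 h2).symm⟩
      · exact Or.inr ⟨_, h2, (v2 u h2).symm⟩
      · exact Or.inl ⟨b1, hb1', by rw [← φ0, v1 0 h0, q0]⟩
    · rintro (⟨u, hu, rfl⟩ | ⟨u, hu, rfl⟩)
      · exact ⟨u, Or.inl hu, u3 hu⟩
      · exact ⟨φ u, Or.inr (mem_image_of_mem φ (Or.inl hu)), (v1 u (Or.inl hu)).trans (qm u hu)⟩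
  have hK1 : ∀ u ∈ Icc b1 s2, u ∈ c0.K ↔ u ∈ c.K := by
    intro u hu
    rw [w3 u ⟨hu.1, by linarith [hu.2]⟩, hK0]
    constructor
    · rintro (h2 | h2 | h2)
      · exact h2.1
      · linarith [(hc.sub h2).2, hu.2]
      · linarith [hu.2]
    · exact fun h2 => Or.inl ⟨h2, hu.1, a2b u h2 hu.2⟩
  refine ⟨c0, w2, w1, fun u hu => ?_, fun u hu huK => ?_, fun v hv => ⟨?_, fun h2 => ?_⟩,
    fun d hd => ?_, himg, fun x hx z hz => ?_⟩
  · by_cases h2 : b1 ≤ u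
    · exact hK1 u ⟨h2, hu.2⟩
    · refine iff_of_false (fun h3 => ?_) fun h3 => h2 (b1b u h3 hu.1)
      have h4 := w2.per.add_mem h3
      rw [w1, w3 _ ⟨by linarith [hu.1], by linarith⟩, hK0] at h4
      rcases h4 with h4 | h4 | h4
      · linarith [h4.2.2, hu.1]
      · linarith [(hc.sub h4).1, hu.1]
      · exact h2 (by linarith)
  · have h2 : u ∈ c.K ∩ Icc b1 a2 := ⟨huK, b1b u huK hu.1, a2b u huK hu.2⟩
    rw [w4 u (Or.inl h2), u3 h2]
  · rw [w3 _ ⟨by linarith [hv.1], by linarith [hv.2]⟩, hK0,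
      show s2 + 1 - (s2 + v) = 1 - v by ring]
    constructor
    · rintro (h2 | h2 | h2)
      · linarith [h2.2.2, hv.1]
      · exact h2
      · linarith [hv.2]
    · exact fun h2 => Or.inr (Or.inl h2)
  · have e : s2 + 1 - (s2 + v) = 1 - v := by ring
    rw [w4 _ ((hK0 _).2 (Or.inr (Or.inl (e ▸ h2)))), v2 _ (e ▸ h2), e]
  · rw [w5, u2, t2] at hd
    rcases hd with hd | ⟨f, hf, rfl⟩
    · exact Or.inl (hsub hd)
    · exact Or.inr ((hfree f hf).imp id Eq.symm)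
  · have m1 : b1 ∈ c0.K := (hK1 b1 ⟨le_rfl, o2.le⟩).2 hb1
    have m2 : a2 ∈ c0.K := (hK1 a2 ⟨o3, a2a⟩).2 ha2
    have n1 : ∀ w ∉ c0.img, w ∉ c.π '' (c.K ∩ Icc b1 a2) := fun w hw e => hw (himg ▸ Or.inl e)
    have n2 : ∀ w ∉ c0.img, w ∉ p1 '' ((KA ∪ {0, 1}) ∩ Icc 0 1) := by
      rintro _ hw ⟨u, hu, rfl⟩
      exact hw (w6 ▸ ⟨φ u, Or.inr (mem_image_of_mem φ hu.1), v1 u hu.1⟩)
    rw [w2.val_eq hL m1 hx hz, w2.pv_add' hL m1 m2 (w2.per.add_mem m1) o3 (by linarith) hx hz,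
      scc_pv_eq hL hs.trk w2.trk hb1 ha2 o3 (fun u hu => hK1 u ⟨hu.1, hu.2.trans a2a⟩)
        (fun u hu huK => by rw [w4 u (Or.inl ⟨huK, hu⟩), u3 ⟨huK, hu⟩]) (n1 x hx) (n1 z hz), w1,
      pv_congr_anti hL (trk_of_path hc.tame hp1) w2.trk h0 h1 zero_le_one
        (hφ.mono inter_subset_left) ?_ φ0 φ1 (fun u hu => by
          rw [w4 _ (Or.inr (mem_image_of_mem φ hu.1)), v1 u hu.1]) (n2 x hx) (n2 z hz)]
    rw [inter_eq_left.2 hp1.sub]
    ext u
    constructor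
    · intro hu
      have h2 := t1.sub hu
      exact ⟨(w3 u ⟨o3.trans h2.1, h2.2⟩).2 (Or.inr hu), h2⟩
    · rintro ⟨hu, h2⟩
      rcases (w3 u ⟨o3.trans h2.1, h2.2⟩).1 hu with h3 | h3
      · exact (hφim u).2 (Or.inr (Or.inr (le_antisymm h3.2.2 h2.1)))
      · exact h3

end Str

end Pool.Agent.Lib.MP_9e71a3_gt
end

-- part Pool.Agent.Lib.MP_9e71a3_gt.Scc
section

/-! Simple closed curves with jumps, their sides, insertion and cutting: the theta-curve lemma. -/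

set_option autoImplicit false
set_option linter.unusedSectionVars false

namespace Pool.Agent.Lib.MP_9e71a3_gt

open Set Metric Filter Topology

namespace Str
variable {X : Type} [MetricSpace X] [CompactSpace X] {S : Str X} {L : Set (X × X)} {c : BC X}
  {y : X} {s1 s2 : ℝ} {KA : Set ℝ} {α : ℝ → X} {G : Set (X × X)} {c1 : BC X}

theorem Half.img_sub (hc : S.Conn L c s1 s2 KA α G) (h1 : S.Half L y c s1 s2 KA α G c1) :
    c1.img ⊆ c.P := by
  rw [h1.img]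
  rintro _ (⟨u, hu, rfl⟩ | ⟨u, hu, rfl⟩)
  · exact Or.inr ⟨u, hu.1, rfl⟩
  · exact Or.inl (hc.mem hu)

/-- the boundary splits into the part on the first curve and the open remaining part -/
theorem Conn.img_cases (h : S.IsScc L c) (_hc : S.Conn L c s1 s2 KA α G) {x : X}
    (hx : x ∈ c.img) : x ∈ c.π '' (c.K ∩ Icc (hi c.K s1) (lo c.K s2)) ∨
      x ∈ c.π '' (c.K ∩ Ioo s2 (s1 + c.per)) := by
  obtain ⟨u, hu, rfl⟩ := hx
  obtain ⟨v, hv, h1, h2, h3, -⟩ := h.exists_param s1 hu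
  by_cases h4 : v ≤ s2
  · exact Or.inl ⟨v, ⟨hv, (hi_spec h.closed (h.exists_ge s1)).2.2 v hv h1,
      (lo_spec h.closed (h.exists_le s2)).2.2 v hv h4⟩, h3⟩
  · exact Or.inr ⟨v, ⟨hv, not_le.1 h4, h2⟩, h3⟩

theorem Half.not_mem_img (h : S.Sided L y c) (hc : S.Conn L c s1 s2 KA α G)
    (h1 : S.Half L y c s1 s2 KA α G c1) {x : X} (hx : x ∈ c.π '' (c.K ∩ Ioo s2 (s1 + c.per))) :
    x ∉ c1.img := by
  obtain ⟨u, ⟨hu, h2, h3⟩, rfl⟩ := hx
  have hs := h.scc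
  rw [h1.img]
  rintro (⟨v, ⟨hv, h4, h5⟩, e⟩ | ⟨v, hv, e⟩)
  · have h6 := (hi_spec hs.closed (hs.exists_ge s1)).2.1
    have h7 := (lo_spec hs.closed (hs.exists_le s2)).2.1
    have := hs.inj v hv u hu (by linarith) (by linarith) e
    linarith
  · exact (h.mem_In.1 (hc.mem hv)).1 ⟨u, hu, e.symm⟩

/-- a gap that is not a gap of the first boundary part has an end in the remaining part -/
theorem Conn.gap_end (h : S.IsScc L c) (hc : S.Conn L c s1 s2 KA α G) {d : X × X}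
    (hd : d ∈ c.gs) (hn : d ∉ gaps (c.K ∩ Icc (hi c.K s1) (lo c.K s2)) c.π) :
    d.1 ∈ c.π '' (c.K ∩ Ioo s2 (s1 + c.per)) ∨ d.2 ∈ c.π '' (c.K ∩ Ioo s2 (s1 + c.per)) := by
  obtain ⟨u, v, hg, h1, h2, rfl⟩ := h.per.exists_gap s1 hd
  obtain ⟨ha2, a2a, a2b⟩ := lo_spec h.closed (h.exists_le s2)
  by_cases h3 : s2 < u
  · exact Or.inl ⟨u, ⟨hg.1, h3, h2⟩, rfl⟩
  · obtain ⟨w, hw, h4, h5⟩ := hc.pt2
    refine Or.inr ⟨v, ⟨hg.2.1, ?_, ?_⟩, rfl⟩
    · by_contra h6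
      exact hn ⟨u, v, gap_inter_Icc.2 ⟨hg, (hi_spec h.closed (h.exists_ge s1)).2.2 u hg.1 h1,
        a2b v hg.2.1 (not_lt.1 h6)⟩, rfl⟩
    · rcases hg.2.2.2 w hw with h6 | h6 <;> linarith

theorem Half.free (hc : S.Conn L c s1 s2 KA α G) (h1 : S.Half L y c s1 s2 KA α G c1) {g g' : X}
    (hf : S.Free c.gs g g') (hG : S.Free G g g') : S.Free c1.gs g g' := by
  intro d hd hx
  rcases h1.gs d hd with h2 | h2 | h2
  · exact hf d h2 hx
  · exact hG _ h2 hx.swapL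
  · exact hx.ne12 h2

theorem Half.val_far (h : S.Sided L y c) (hc : S.Conn L c s1 s2 KA α G)
    (h1 : S.Half L y c s1 s2 KA α G c1) {g g' : X} (hch : S.Chord g g') (hg : g ∉ c1.img)
    (hg' : g' ∉ c.P) (hf : S.Free c.gs g g') : S.val c1 g g' = 0 := by
  refine h1.sided.scc.val_free h.lam hg (fun e => hg' (h1.img_sub hc e)) hch
    (h1.free hc hf fun f hf' hx => ?_)
  obtain ⟨w, hw, h2, h3, h4⟩ := hc.ins f hf'
  exact hg' (h.mem_P_of_free hw (h2.trans (hx.swapR.chord13 S.good)) fun e he =>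
    hx.swapR.witness S.good h2 (h3 e he) (h4 e he) (hf.symm e he))

theorem Half.val_rest (h : S.Sided L y c) (hc : S.Conn L c s1 s2 KA α G)
    (h1 : S.Half L y c s1 s2 KA α G c1) {p q : X} (hp : p ∈ c.π '' (c.K ∩ Ioo s2 (s1 + c.per)))
    (hq : q ∈ c.π '' (c.K ∩ Ioo s2 (s1 + c.per))) : S.val c1 q p = 0 := by
  have hs := h.scc
  have hs1 := h1.sided.scc
  have hpi := h1.not_mem_img h hc hp
  have key : ∀ u ∈ c.K ∩ Ioo s2 (s1 + c.per), ∀ v ∈ c.K ∩ Ioo s2 (s1 + c.per), u ≤ v →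
      S.val c1 (c.π u) p = S.val c1 (c.π v) p := by
    intro u hu v hv huv
    obtain ⟨w, -, h2, h3⟩ := hc.pt1
    have harc := hs.arc hu.1 hv.1 huv (by linarith [hu.2.1, hv.2.2])
    have hN : ∀ z ∈ c.π '' ((c.K ∩ Icc u v) ∩ Icc u v), z ∉ c1.img := by
      rintro _ ⟨t, ⟨⟨ht, h4⟩, -⟩, rfl⟩
      exact h1.not_mem_img h hc ⟨t, ⟨ht, hu.2.1.trans_le h4.1, h4.2.trans_lt hv.2.2⟩, rfl⟩
    refine (harc.toIsPath.joined harc.left harc.right huv).eq_of_loc (fun z => S.val c1 z p)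
      (fun z hz => (hs1.val_loc h.lam (hN z hz) hpi).filter_mono nhdsWithin_le_nhds)
      fun e he h4 h5 => ?_
    rw [hs1.val_cocycle h.lam (hN _ h4) (hN _ h5) hpi, hs1.val_free h.lam (hN _ h4) (hN _ h5)
      (hs.tame.chord e he) (h1.free hc (fun d hd => hs.nc d hd e he)
        fun f hf hx => hc.free f hf e he hx.symm), zero_add]
  obtain ⟨u, hu, rfl⟩ := hp
  obtain ⟨v, hv, rfl⟩ := hq
  rw [← hs1.val_same h.lam (c.π u)]
  rcases le_total u v with h2 | h2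
  · exact (key u hu v hv h2).symm
  · exact key v hv u hu h2

/-- the first curve does not separate the outside and the remaining boundary from `y` -/
theorem Half.theta (h : S.Sided L y c) (hc : S.Conn L c s1 s2 KA α G)
    (h1 : S.Half L y c s1 s2 KA α G c1) {x : X}
    (hx : x ∉ c.P ∨ x ∈ c.π '' (c.K ∩ Ioo s2 (s1 + c.per))) : S.val c1 x y = 0 := by
  classical
  have hs := h.scc
  have hL := h.lam
  have hs1 := h1.sided.scc
  obtain ⟨o1, o2, o3, o4, o5, o6⟩ := hc.ord hs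
  obtain ⟨hb1, b1a, -⟩ := hi_spec hs.closed (hs.exists_ge s1)
  obtain ⟨ha1, a1a, -⟩ := lo_spec hs.closed (hs.exists_le s1)
  obtain ⟨ha2, a2a, -⟩ := lo_spec hs.closed (hs.exists_le s2)
  have harc := hs.arc hb1 ha2 o3 (by linarith)
  obtain ⟨u0, hu0⟩ := hc.pt2
  have hp : c.π u0 ∈ c.π '' (c.K ∩ Ioo s2 (s1 + c.per)) := ⟨u0, hu0, rfl⟩
  generalize c.π u0 = p at hp
  have hpi := h1.not_mem_img h hc hp
  have hJ : ∀ q ∈ c.π '' (c.K ∩ Ioo s2 (s1 + c.per)), q ∉ c.In := fun q hq e =>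
    (h.mem_In.1 e).1 (image_mono inter_subset_left hq)
  have hout : ∀ z ∉ c.P, z ∉ c1.img := fun z hz e => hz (h1.img_sub hc e)
  have hDs : gaps (c.K ∩ Icc (hi c.K s1) (lo c.K s2)) c.π ⊆ c.gs := gaps_inter_Icc_sub _ _
  set Y := c.π '' (c.K ∩ Icc (hi c.K s1) (lo c.K s2)) with hY
  set D := gaps (c.K ∩ Icc (hi c.K s1) (lo c.K s2)) c.π with hD
  let χ : X → Z2 := fun z => if z ∈ c.In then 0 else S.val c1 z p
  have χ1 : ∀ z ∈ c.P, z ∉ Y → χ z = 0 := by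
    rintro z (hz | hz) hzY
    · exact if_pos hz
    · have h2 := (hc.img_cases hs hz).resolve_left hzY
      exact (if_neg (hJ z h2)).trans (h1.val_rest h hc hp h2)
  have χ2 : ∀ z ∉ c.In, χ z = S.val c1 z p := fun z hz => if_neg hz
  have near : ∀ g g', S.Chord g g' → g' ∉ c.P → S.Free D g g' → ¬ S.Free c.gs g g' →
      χ g' = 0 := by
    intro g g' hch hg' hf hnf
    simp only [Free, not_forall, not_not] at hnf
    obtain ⟨d0, hd0, hx0⟩ := hnf
    obtain ⟨d, hd, -, h2, h3, h4, h5⟩ := nearest hL hs.tame hs.nc hs.img_compact.isClosed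
      (fun e he => hs.gs_mem he) (g := g') (fun e => hg' (Or.inr e)) hd0 hx0.ne12
      (hx0.swapR.chord13 S.good).symm
    have h6 : S.Cross d.1 d.2 g' g := by
      rcases h5 with rfl | h5 | h5
      · exact hx0.swapR
      · exact hx0.swapR.beyond S.good h5 (hs.nc d hd d0 hd0)
      · exact hx0.swapR.swapL.beyond S.good h5 fun e => hs.nc d hd d0 hd0 e.swapR
    have h7 : ∃ q ∈ c.π '' (c.K ∩ Ioo s2 (s1 + c.per)), S.Chord q g' ∧ S.Free c.gs q g' := by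
      rcases hc.gap_end hs hd (fun e => hf d e h6.swapR) with h8 | h8
      · exact ⟨_, h8, h2.symm, h3.symm⟩
      · exact ⟨_, h8, (h2.trans (hs.tame.chord d hd)).symm, h4.symm⟩
    obtain ⟨q, hq, h8, h9⟩ := h7
    have hqi := h1.not_mem_img h hc hq
    rw [χ2 g' fun e => hg' (Or.inl e), hs1.val_cocycle hL (hout _ hg') hqi hpi, val_comm c1 g' q,
      h1.val_far h hc h8 hqi hg' h9, h1.val_rest h hc hp hq, add_zero]
  have step : ∀ g g', S.Chord g g' → g ∉ Y → g' ∉ c.P → S.Free D g g' → χ g = χ g' := by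
    intro g g' hch hg hg' hf
    by_cases hfr : S.Free c.gs g g'
    · have h2 : g ∉ c.In := fun e => hg' (h.mem_P_of_free e hch hfr)
      have h3 : g ∉ c1.img := by
        rw [h1.img]
        rintro (e | ⟨u, hu, e⟩)
        · exact hg e
        · exact h2 (e ▸ hc.mem hu)
      rw [χ2 g h2, χ2 g' fun e => hg' (Or.inl e), hs1.val_cocycle hL h3 (hout _ hg') hpi,
        h1.val_far h hc hch h3 hg' hfr, zero_add]
    · rw [near g g' hch hg' hf hfr]
      by_cases h2 : g ∈ c.P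
      · exact χ1 g h2 hg
      · exact near g' g hch.symm h2 hf.symm fun e => hfr e.symm
  have hYs : Y ⊆ c1.img := h1.img ▸ subset_union_left
  have main := ns hL (hs.compact_arc _ _).isClosed (hs.tame.mono hDs)
    (fun e he f hf => hs.nc e (hDs he) f (hDs hf))
    (by
      rintro _ ⟨u, v, hg, rfl⟩
      exact ⟨⟨u, hg.1, rfl⟩, ⟨v, hg.2.1, rfl⟩⟩)
    (pot_arc hL hs.tame harc) χ
    (fun z hz => by
      by_cases h2 : z ∈ c.In
      · filter_upwards [h.isOpen_In.mem_nhds h2] with w hw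
        exact (if_pos hw).trans (if_pos h2).symm
      · by_cases h3 : z ∈ c.P
        · have h4 := (hc.img_cases hs (h3.resolve_left h2)).resolve_left hz
          filter_upwards [hs1.val_loc hL (h1.not_mem_img h hc h4) hpi] with w hw
          rw [χ1 z h3 hz]
          by_cases h5 : w ∈ c.In
          · exact if_pos h5
          · rw [χ2 w h5, hw, h1.val_rest h hc hp h4]
        · filter_upwards [hs1.val_loc hL (hout z h3) hpi,
            h.wf.closedP.isOpen_compl.mem_nhds h3] with w hw h5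
          rw [χ2 w fun e => h5 (Or.inl e), χ2 z h2, hw])
    (fun g g' hch hg hg' hf => by
      by_cases h2 : g' ∈ c.P
      · by_cases h3 : g ∈ c.P
        · rw [χ1 g h3 hg, χ1 g' h2 hg']
        · exact (step g' g hch.symm hg' h3 hf.symm).symm
      · exact step g g' hch hg h2 hf)
  have fin : ∀ z ∉ c.P, S.val c1 z p = 0 := fun z hz => by
    rw [← χ2 z fun e => hz (Or.inl e), main z (fun e => hout z hz (hYs e)) p fun e => hpi (hYs e),
      χ2 p (hJ p hp), hs1.val_same hL]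
  have hxi : x ∉ c1.img := hx.elim (hout x) (h1.not_mem_img h hc)
  rw [hs1.val_cocycle hL hxi hpi h1.sided.out, val_comm c1 p y, fin y h.out_P,
    hx.elim (fin x) (h1.val_rest h hc hp), add_zero]

theorem Half.In_sub (h : S.Sided L y c) (hc : S.Conn L c s1 s2 KA α G)
    (h1 : S.Half L y c s1 s2 KA α G c1) : c1.In ⊆ c.In := by
  intro x hx
  obtain ⟨h2, h3⟩ := h1.sided.mem_In.1 hx
  by_contra h4
  have h5 : x ∉ c.P ∨ x ∈ c.π '' (c.K ∩ Ioo s2 (s1 + c.per)) := by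
    by_cases h6 : x ∈ c.P
    · exact Or.inr ((hc.img_cases h.scc (h6.resolve_left h4)).resolve_left
        fun e => h2 (h1.img ▸ Or.inl e))
    · exact Or.inl h6
  rw [h1.theta h hc h5] at h3
  exact absurd h3 (by decide)

theorem Half.not_mem (h1 : S.Half L y c s1 s2 KA α G c1) {x : X} (hx : x ∉ c.img)
    (hx' : x ∉ α '' KA) : x ∉ c1.img := by
  rw [h1.img]
  rintro (e | e)
  · exact scc_not_mem hx _ e
  · exact hx' e

theorem scc_rev_image (KA : Set ℝ) (α : ℝ → X) :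
    (fun v => α (1 - v)) '' ((fun u : ℝ => 1 - u) '' KA) = α '' KA := by
  rw [image_image]
  simp

/-- additivity of the values -/
theorem Half.val_add (h : S.Sided L y c) (hc : S.Conn L c s1 s2 KA α G)
    (h1 : S.Half L y c s1 s2 KA α G c1) {c2 : BC X}
    (h2 : S.Half L y c s2 (s1 + c.per) ((fun u : ℝ => 1 - u) '' KA) (fun v => α (1 - v))
      (Prod.swap '' G) c2) {x : X} (hx : x ∉ c.img) (hx' : x ∉ α '' KA) :
    S.val c x y = S.val c1 x y + S.val c2 x y := by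
  have hs := h.scc
  have hL := h.lam
  obtain ⟨o1, o2, o3, o4, o5, o6⟩ := hc.ord hs
  obtain ⟨hb1, b1a, b1b⟩ := hi_spec hs.closed (hs.exists_ge s1)
  obtain ⟨ha1, a1a, a1b⟩ := lo_spec hs.closed (hs.exists_le s1)
  obtain ⟨ha2, a2a, a2b⟩ := lo_spec hs.closed (hs.exists_le s2)
  obtain ⟨hb2, b2a, b2b⟩ := hi_spec hs.closed (hs.exists_ge s2)
  have hy' : y ∉ α '' KA := fun ⟨u, hu, e⟩ => h.out_P (Or.inl (e ▸ hc.mem hu))
  have n : ∀ p ∈ c.img, ∀ q ∈ c.img, ∀ z ∉ c.img, z ∉ α '' KA →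
      z ∉ ext01 p q α '' (KA ∪ {0, 1}) := by
    rintro p hp q hq _ hz hz' ⟨u, hu | rfl | rfl, rfl⟩
    · exact hz' ⟨u, hu, (scc_ext01_mid _ _ _ (hc.sub hu)).symm⟩
    · exact hz (by rwa [scc_ext01_zero])
    · exact hz (by rwa [scc_ext01_one])
  have m1 : (c.anchor s1).1 ∈ c.img := ⟨_, ha1, rfl⟩
  have m2 : (c.anchor s1).2 ∈ c.img := ⟨_, hb1, rfl⟩
  have m3 : (c.anchor s2).1 ∈ c.img := ⟨_, ha2, rfl⟩
  have m4 : (c.anchor s2).2 ∈ c.img := ⟨_, hb2, rfl⟩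
  have t1 := trk_of_path hc.tame hc.p1
  have t2 := trk_of_path hc.tame hc.p2
  have e1 := scc_pv_ends hL t1 t2 hc.p1.left hc.p1.right zero_lt_one
    (fun u hu => by rw [scc_ext01_mid _ _ _ hu.2, scc_ext01_mid _ _ _ hu.2])
    (n _ m2 _ m3 x hx hx') (n _ m2 _ m3 y h.out hy') (n _ m1 _ m4 x hx hx')
    (n _ m1 _ m4 y h.out hy')
  have hr := (scc_rev hc.p2).1
  have e2 := pv_congr_anti hL t2 (trk_of_path (hc.tame.swap hL) hr) hc.p1.left hc.p1.right
    zero_le_one (φ := fun u : ℝ => 1 - u) (s' := 0) (t' := 1)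
    (fun u _ v _ huv => by simpa using huv)
    (by rw [inter_eq_left.2 hc.p1.sub, inter_eq_left.2 hr.sub, scc_rev_im]) (sub_zero _)
    (sub_self _) (fun u _ => scc_rev_val _ _ α u)
    (fun e => n _ m1 _ m4 x hx hx' (image_mono inter_subset_left e))
    (fun e => n _ m1 _ m4 y h.out hy' (image_mono inter_subset_left e))
  have ha1' := hs.per.add_mem ha1
  have hb1' := hs.per.add_mem hb1
  rw [h1.val x (h1.not_mem hx hx') y h1.sided.out,
    h2.val x (h2.not_mem hx (by rwa [scc_rev_image])) y h2.sided.out,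
    hs.per.anchor_add hs.closed, hs.per.lo_add hs.closed, e2, e1, hs.val_eq hL hb1 hx h.out,
    hs.pv_add' hL hb1 ha2 hb1' o3 (by linarith) hx h.out,
    hs.pv_add' hL ha2 hb2 hb1' (by linarith) (by linarith) hx h.out,
    hs.pv_add' hL hb2 ha1' hb1' o6 (by linarith) hx h.out,
    hs.pv_nothing hL ha2 hb2 (by linarith) (fun u hu => (le_total u s2).imp (a2b u hu) (b2b u hu))
      hx h.out,
    hs.pv_nothing hL ha1' hb1' (by linarith) (fun u hu => by
      have h3 := hs.per.sub_mem hu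
      rcases le_total (u - c.per) s1 with h4 | h4
      · left; linarith [a1b _ h3 h4]
      · right; linarith [b1b _ h3 h4]) hx h.out, zero_add, add_zero, add_add_add_comm,
    z2_add_self, add_zero]

/-- the theta-curve lemma -/
theorem Sided.cut (h : S.Sided L y c) {s1 s2 : ℝ} {KA : Set ℝ} {α : ℝ → X} {G : Set (X × X)}
    (hc : S.Conn L c s1 s2 KA α G) : ∃ c1 c2 : BC X, S.Sided L y c1 ∧ S.Sided L y c2 ∧
      c.Cut s1 s2 c1 c2 ∧
      (∀ d ∈ c1.gs ∪ c2.gs, d ∈ c.gs ∨ d ∈ G ∨ d.swap ∈ G ∨ d.1 = d.2) ∧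
      (∀ v ∈ Ioo (0:ℝ) 1, (s2 + v ∈ c1.K ↔ 1 - v ∈ KA) ∧
        (1 - v ∈ KA → c1.π (s2 + v) = α (1 - v))) ∧
      α '' KA ⊆ c1.img ∩ c2.img := by
  have hc' := hc.symm h.lam h.scc
  obtain ⟨c1, h1⟩ := hc.exists_half h
  obtain ⟨c2, h2⟩ := hc'.exists_half h
  have hA1 : α '' KA ⊆ c1.img := h1.img ▸ subset_union_right
  have hA2 : α '' KA ⊆ c2.img := by
    rw [h2.img, scc_rev_image]
    exact subset_union_right
  have k2 : ∀ v ∈ Ioo (0:ℝ) 1, (s2 - v ∈ c2.K ↔ 1 - v ∈ KA) ∧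
      (1 - v ∈ KA → c2.π (s2 - v) = α (1 - v)) := by
    intro v hv
    have h3 := h2.arc (1 - v) ⟨by linarith [hv.2], by linarith [hv.1]⟩
    have e : s1 + c.per + (1 - v) = s2 - v + c2.per := by rw [h2.per]; ring
    have e' : 1 - (1 - v) ∈ (fun u : ℝ => 1 - u) '' KA ↔ 1 - v ∈ KA :=
      sub_right_injective.mem_set_image
    rw [e, e', h2.sided.scc.perK] at h3
    refine ⟨h3.1, fun h4 => ?_⟩
    rw [← h2.sided.scc.perπ _ (h3.1.2 h4), h3.2 h4]
    simp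
  have hboth : ∀ x ∈ c1.In, x ∉ c2.In := fun x hx1 hx2 => by
    obtain ⟨h3, h4⟩ := h.mem_In.1 (h1.In_sub h hc hx1)
    rw [h1.val_add h hc h2 h3 fun e => (h1.sided.mem_In.1 hx1).1 (hA1 e),
      (h1.sided.mem_In.1 hx1).2, (h2.sided.mem_In.1 hx2).2] at h4
    exact absurd h4 (by decide)
  refine ⟨c1, c2, h1.sided, h2.sided, ⟨hc.pt1, hc.pt2, h1.per, h2.per, h1.K1, h1.π1, h2.K1, h2.π1,
    fun v hv => (h1.arc v hv).1.trans (k2 v hv).1.symm, fun v hv h3 => ?_, fun v hv h3 => ?_,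
    h1.In_sub h hc, h2.In_sub h hc', disjoint_left.2 ?_, disjoint_left.2 ?_, fun x hx => ?_⟩, ?_,
    h1.arc, subset_inter hA1 hA2⟩
  · have h4 := (h1.arc v hv).1.1 h3
    rw [(h1.arc v hv).2 h4, (k2 v hv).2 h4]
  · have h4 := (h1.arc v hv).1.1 h3
    rw [(h1.arc v hv).2 h4]
    exact hc.mem h4
  · rintro x hx (h3 | h3)
    · exact hboth x hx h3
    · exact h2.not_mem (h.mem_In.1 (h1.In_sub h hc hx)).1
        (by rw [scc_rev_image]; exact fun e => (h1.sided.mem_In.1 hx).1 (hA1 e)) h3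
  · rintro x hx (h3 | h3)
    · exact hboth x h3 hx
    · exact h1.not_mem (h.mem_In.1 (h2.In_sub h hc' hx)).1
        (fun e => (h2.sided.mem_In.1 hx).1 (hA2 e)) h3
  · by_cases h3 : x ∈ α '' KA
    · exact Or.inl (Or.inr (hA1 h3))
    · obtain ⟨h4, h5⟩ := h.mem_In.1 hx
      rw [h1.val_add h hc h2 h4 h3] at h5
      rcases z2_cases (S.val c1 x y) with e | e
      · rw [e, zero_add] at h5
        exact Or.inr (Or.inl (h2.sided.mem_In.2 ⟨h2.not_mem h4 (by rwa [scc_rev_image]), h5⟩))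
      · exact Or.inl (Or.inl (h1.sided.mem_In.2 ⟨h1.not_mem h4 h3, e⟩))
  · rintro d (hd | hd)
    · exact (h1.gs d hd).imp_right Or.inr
    · rcases h2.gs d hd with h3 | ⟨f, hf, e⟩ | h3
      · exact Or.inl h3
      · exact Or.inr (Or.inl (Prod.swap_injective e ▸ hf))
      · exact Or.inr (Or.inr (Or.inr h3))

theorem Cell.cut (h : S.Cell L y c) {s1 s2 : ℝ} {KA : Set ℝ} {α : ℝ → X} {G : Set (X × X)}
    (hc : S.Conn L c s1 s2 KA α G)
    (hG : ∀ e ∈ L, e.1 ∈ c.In → e.1 ∉ α '' KA → S.Free G e.1 e.2) :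
    ∃ c1 c2 : BC X, S.Cell L y c1 ∧ S.Cell L y c2 ∧ c.Cut s1 s2 c1 c2 ∧
      (∀ d ∈ c1.gs ∪ c2.gs, d ∈ c.gs ∨ d ∈ G ∨ d.swap ∈ G ∨ d.1 = d.2) ∧
      (∀ v ∈ Ioo (0:ℝ) 1, (s2 + v ∈ c1.K ↔ 1 - v ∈ KA) ∧
        (1 - v ∈ KA → c1.π (s2 + v) = α (1 - v))) ∧
      α '' KA ⊆ c1.img ∩ c2.img := by
  obtain ⟨c1, c2, h1, h2, h3, h4, h5, h6⟩ := h.toSided.cut hc
  have key : ∀ e ∈ L, e.1 ∈ c.In → e.1 ∉ α '' KA → S.Free (c1.gs ∪ c2.gs) e.1 e.2 := by
    intro e he h7 h8 d hd hx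
    rcases h4 d hd with h9 | h9 | h9 | h9
    · exact h.inv e he h7 d h9 hx
    · exact hG e he h7 h8 d h9 hx
    · exact hG e he h7 h8 _ h9 hx.swapL
    · exact hx.ne12 h9
  exact ⟨c1, c2,
    ⟨h1, fun e he h7 d hd => key e he (h3.In1 h7) (fun h8 => (h1.mem_In.1 h7).1 (h6 h8).1) d
      (Or.inl hd)⟩,
    ⟨h2, fun e he h7 d hd => key e he (h3.In2 h7) (fun h8 => (h2.mem_In.1 h7).1 (h6 h8).2) d
      (Or.inr hd)⟩, h3, h4, h5, h6⟩

end Str

end Pool.Agent.Lib.MP_9e71a3_gt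
end
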