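import Pool.Agent.Lib.MP_9e71a3_gt.ValA
import Pool.Agent.Lib.MP_9e71a3_gt.PlaneB

-- part Pool.Agent.Lib.MP_9e71a3_gt.ValB
section

/-! Values of the side function along paths with jumps, second part. -/

set_option autoImplicit false
set_option linter.unusedSectionVars false

namespace Pool.Agent.Lib.MP_9e71a3_gt

open Set Metric Filter Topology

namespace Str
variable {X : Type} [MetricSpace X] [CompactSpace X] {S : Str X} {L : Set (X × X)}
  {K K' : Set ℝ} {π π' : ℝ → X}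

theorem val_img {s t s' t' : ℝ} {φ : ℝ → ℝ} (him : φ '' (K ∩ Icc s t) = K' ∩ Icc s' t')
    (hπ : ∀ u ∈ K ∩ Icc s t, π' (φ u) = π u) :
    π' '' (K' ∩ Icc s' t') = π '' (K ∩ Icc s t) := by
  rw [← him, image_image]
  exact image_congr hπ

/-- invariance under increasing reparametrisation -/
theorem pv_congr (hL : S.Lam L) (h : S.Trk L K π) (h' : S.Trk L K' π') {s t s' t' : ℝ}
    (hs : s ∈ K) (ht : t ∈ K) (hst : s ≤ t) {φ : ℝ → ℝ} (hφ : StrictMonoOn φ (K ∩ Icc s t))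
    (him : φ '' (K ∩ Icc s t) = K' ∩ Icc s' t') (hs' : φ s = s') (ht' : φ t = t')
    (hπ : ∀ u ∈ K ∩ Icc s t, π' (φ u) = π u) {o o' : X} (ho : o ∉ π '' (K ∩ Icc s t))
    (ho' : o' ∉ π '' (K ∩ Icc s t)) : S.pv K' π' s' t' o o' = S.pv K π s t o o' := by
  have hm : ∀ u ∈ K ∩ Icc s t, φ u ∈ K' ∩ Icc s' t' := fun u hu => him ▸ mem_image_of_mem φ hu
  have hm' : ∀ v ∈ K' ∩ Icc s' t', ∃ u ∈ K ∩ Icc s t, φ u = v := fun v hv => by
    rwa [← him] at hv
  have key : ∀ η a b κ, Approx K π η a b κ → s ≤ a → b ≤ t → Approx K' π' η (φ a) (φ b) κ := by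
    intro η a b κ hκ
    induction hκ with
    | fine a b ha hb hab h =>
      intro h1 h2
      have a1 : a ∈ K ∩ Icc s t := ⟨ha, h1, hab.trans h2⟩
      have a2 : b ∈ K ∩ Icc s t := ⟨hb, h1.trans hab, h2⟩
      have a3 : ∀ v ∈ K' ∩ Icc (φ a) (φ b), ∃ u ∈ K ∩ Icc a b, π' v = π u := fun v hv => by
        obtain ⟨u, hu, rfl⟩ := hm' v ⟨hv.1, (hm a a1).2.1.trans hv.2.1, hv.2.2.trans (hm b a2).2.2⟩
        exact ⟨u, ⟨hu.1, (hφ.le_iff_le a1 hu).1 hv.2.1, (hφ.le_iff_le hu a2).1 hv.2.2⟩, hπ u hu⟩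
      rw [← hπ a a1, ← hπ b a2]
      refine .fine _ _ (hm a a1).1 (hm b a2).1 (hφ.monotoneOn a1 a2 hab) fun v hv w hw => ?_
      obtain ⟨u, hu, e1⟩ := a3 v hv
      obtain ⟨u', hu', e2⟩ := a3 w hw
      rw [e1, e2]
      exact h u hu u' hu'
    | gap a b hg =>
      intro h1 h2
      have a1 : a ∈ K ∩ Icc s t := ⟨hg.1, h1, hg.2.2.1.le.trans h2⟩
      have a2 : b ∈ K ∩ Icc s t := ⟨hg.2.1, h1.trans hg.2.2.1.le, h2⟩
      refine .gap _ _ ⟨(hm a a1).1, (hm b a2).1, hφ a1 a2 hg.2.2.1, fun v hv => ?_⟩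
      by_contra hc
      push Not at hc
      obtain ⟨u, hu, rfl⟩ := hm' v ⟨hv, (hm a a1).2.1.trans hc.1.le, hc.2.le.trans (hm b a2).2.2⟩
      rcases hg.2.2.2 u hu.1 with c | c
      · exact absurd ((hφ.lt_iff_lt a1 hu).1 hc.1) (not_lt.2 c)
      · exact absurd ((hφ.lt_iff_lt hu a2).1 hc.2) (not_lt.2 c)
    | trans a m b _ _ b1 b2 i1 i2 =>
      intro h1 h2
      exact .trans _ _ _ _ _ (i1 h1 (b2.mem.2.2.trans h2)) (i2 (h1.trans b1.mem.2.2) h2)
  obtain ⟨η1, h1, e1⟩ := val_spec' hL h ho ho'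
  rw [← val_img him hπ] at ho ho'
  obtain ⟨η2, h2, e2⟩ := val_spec' hL h' ho ho'
  obtain ⟨κ, hκ⟩ := approx_exists h.closed h.cont (lt_min h1 h2) hs ht hst
  have := key _ _ _ _ (hκ.mono (min_le_right _ _)) le_rfl le_rfl
  rw [hs', ht'] at this
  rw [← e1 _ _ _ le_rfl le_rfl (hκ.mono (min_le_left _ _)), ← e2 _ _ _ le_rfl le_rfl this]

/-- invariance under decreasing reparametrisation -/
theorem pv_congr_anti (hL : S.Lam L) (h : S.Trk L K π) (h' : S.Trk L K' π') {s t s' t' : ℝ}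
    (hs : s ∈ K) (ht : t ∈ K) (hst : s ≤ t) {φ : ℝ → ℝ} (hφ : StrictAntiOn φ (K ∩ Icc s t))
    (him : φ '' (K ∩ Icc s t) = K' ∩ Icc s' t') (hs' : φ s = t') (ht' : φ t = s')
    (hπ : ∀ u ∈ K ∩ Icc s t, π' (φ u) = π u) {o o' : X} (ho : o ∉ π '' (K ∩ Icc s t))
    (ho' : o' ∉ π '' (K ∩ Icc s t)) : S.pv K' π' s' t' o o' = S.pv K π s t o o' := by
  have hm : ∀ u ∈ K ∩ Icc s t, φ u ∈ K' ∩ Icc s' t' := fun u hu => him ▸ mem_image_of_mem φ hu
  have hm' : ∀ v ∈ K' ∩ Icc s' t', ∃ u ∈ K ∩ Icc s t, φ u = v := fun v hv => by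
    rwa [← him] at hv
  obtain ⟨r, hr, hf⟩ := val_far (h.compact s t) ho ho'
  obtain ⟨η0, h0, e0⟩ := S.ev_small hr
  have key : ∀ η ≤ η0, ∀ a b κ, Approx K π η a b κ → s ≤ a → b ≤ t →
      ∃ κ', Approx K' π' η (φ b) (φ a) κ' ∧ S.ev κ' o o' = S.ev κ o o' := by
    intro η hη a b κ hκ
    induction hκ with
    | fine a b ha hb hab h =>
      intro h1 h2
      have a1 : a ∈ K ∩ Icc s t := ⟨ha, h1, hab.trans h2⟩
      have a2 : b ∈ K ∩ Icc s t := ⟨hb, h1.trans hab, h2⟩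
      have a3 : ∀ v ∈ K' ∩ Icc (φ b) (φ a), ∃ u ∈ K ∩ Icc a b, π' v = π u := fun v hv => by
        obtain ⟨u, hu, rfl⟩ := hm' v ⟨hv.1, (hm b a2).2.1.trans hv.2.1, hv.2.2.trans (hm a a1).2.2⟩
        exact ⟨u, ⟨hu.1, (hφ.le_iff_ge hu a1).1 hv.2.2, (hφ.le_iff_ge a2 hu).1 hv.2.1⟩, hπ u hu⟩
      refine ⟨_, .fine _ _ (hm b a2).1 (hm a a1).1 (hφ.antitoneOn a1 a2 hab) fun v hv w hw => ?_,
        ?_⟩
      · obtain ⟨u, hu, e1⟩ := a3 v hv
        obtain ⟨u', hu', e2⟩ := a3 w hw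
        rw [e1, e2]
        exact h u hu u' hu'
      · rw [hπ a a1, hπ b a2]
        have := (h a ⟨ha, le_rfl, hab⟩ b ⟨hb, hab, le_rfl⟩).trans_le hη
        exact (e0 _ _ _ o o' this this (hf _ ⟨a, a1, rfl⟩).1 (hf _ ⟨a, a1, rfl⟩).2).2.1
    | gap a b hg =>
      intro h1 h2
      have a1 : a ∈ K ∩ Icc s t := ⟨hg.1, h1, hg.2.2.1.le.trans h2⟩
      have a2 : b ∈ K ∩ Icc s t := ⟨hg.2.1, h1.trans hg.2.2.1.le, h2⟩
      refine ⟨0, .gap _ _ ⟨(hm b a2).1, (hm a a1).1, hφ a1 a2 hg.2.2.1, fun v hv => ?_⟩, rfl⟩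
      by_contra hc
      push Not at hc
      obtain ⟨u, hu, rfl⟩ := hm' v ⟨hv, (hm b a2).2.1.trans hc.1.le, hc.2.le.trans (hm a a1).2.2⟩
      rcases hg.2.2.2 u hu.1 with c | c
      · exact absurd ((hφ.lt_iff_gt hu a1).1 hc.2) (not_lt.2 c)
      · exact absurd ((hφ.lt_iff_gt a2 hu).1 hc.1) (not_lt.2 c)
    | trans a m b _ _ b1 b2 i1 i2 =>
      intro h1 h2
      obtain ⟨κ1, c1, d1⟩ := i1 h1 (b2.mem.2.2.trans h2)
      obtain ⟨κ2, c2, d2⟩ := i2 (h1.trans b1.mem.2.2) h2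
      exact ⟨_, .trans _ _ _ _ _ c2 c1, by rw [ev_add, ev_add, d1, d2, add_comm]⟩
  obtain ⟨η1, h1, e1⟩ := val_spec' hL h ho ho'
  rw [← val_img him hπ] at ho ho'
  obtain ⟨η2, h2, e2⟩ := val_spec' hL h' ho ho'
  obtain ⟨κ, hκ⟩ := approx_exists h.closed h.cont (lt_min h0 (lt_min h1 h2)) hs ht hst
  obtain ⟨κ', c1, c2⟩ := key _ (min_le_left _ _) _ _ _ hκ le_rfl le_rfl
  rw [hs', ht'] at c1
  rw [← e1 _ _ _ le_rfl le_rfl (hκ.mono ((min_le_right _ _).trans (min_le_left _ _))),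
    ← e2 _ _ _ le_rfl le_rfl (c1.mono ((min_le_right _ _).trans (min_le_right _ _))), c2]

/-- a track of small diameter has the value of the link joining its ends; the bound is uniform
over all tracks with jumps in a fixed tame family -/
theorem pv_small (hL : S.Lam L) {R : Set (X × X)} (hR : S.Tame L R) {r : ℝ} (hr : 0 < r) :
    ∃ η > 0, ∀ (K : Set ℝ) (π : ℝ → X), IsClosed K → ContinuousOn π K →
      (∀ s t, Gap K s t → π s = π t ∨ (π s, π t) ∈ R) → ∀ s ∈ K, ∀ t ∈ K, s ≤ t →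
      (∀ u ∈ K ∩ Icc s t, dist (π u) (π s) < η) → ∀ o o', r ≤ dist (π s) o → r ≤ dist (π s) o' →
      S.pv K π s t o o' = S.ev (lnk (π s) (π t)) o o' := by
  obtain ⟨η1, h1, e1⟩ := val_cone hL hR hr
  obtain ⟨η2, h2, e2⟩ := val_spec hL hR (half_pos hr)
  obtain ⟨η3, h3, e3⟩ := S.ev_small hr
  refine ⟨min η1 (r / 2), by positivity, fun K π hK hπ hg s hs t ht hst hd o o' ho ho' => ?_⟩
  obtain ⟨κ, hκ⟩ := approx_exists hK hπ h2 hs ht hst
  rw [← e2 K π hK hπ hg s t o o' (fun u hu => ?_) κ hκ, e1 K π hg (π s) o o' ho ho' _ s t κ hκ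
    fun u hu => by rw [dist_comm]; exact (hd u hu).trans_le (min_le_left _ _),
    (e3 _ (π s) (π s) o o' (by simpa using h3) (by simpa using h3) ho ho').1, zero_add]
  have := (hd u hu).trans_le (min_le_right _ _)
  constructor
  · linarith [dist_triangle_left (π s) o (π u)]
  · linarith [dist_triangle_left (π s) o' (π u)]

theorem val_sig_sum {ι : Type} (T : Finset ι) (f : ι → X →₀ Z2) (g : X) :
    S.sig (∑ i ∈ T, f i) g = ∑ i ∈ T, S.sig (f i) g := by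
  classical
  induction T using Finset.induction_on with
  | empty => simp [Ord3.sig_zero]
  | insert i T hi ih => rw [Finset.sum_insert hi, Finset.sum_insert hi, Ord3.sig_add, ih]

open Classical in
theorem val_sig_two {a b g g' : X} (h : a = b ∨ S.Chord a b) (hg : S.Chord g g') (h1 : g ≠ a)
    (h2 : g ≠ b) (h3 : g' ≠ a) (h4 : g' ≠ b) :
    S.sig (two a b) g + S.sig (two a b) g' = if S.Cross a b g g' then 1 else 0 := by
  rcases h with rfl | h
  · rw [val_two_self, Ord3.sig_zero, Ord3.sig_zero, add_zero, if_neg fun h => h.ne12 rfl]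
  · rw [Ord3.sig_two S.good h hg.1 h1 h2, Ord3.sig_two S.good h hg.2.1 h3 h4]
    have := Ord3.cross_iff_ind S.good h hg h1 h2 h3 h4
    split_ifs with hc
    · exact this.1 hc
    · exact (z2_cases _).resolve_right fun h => hc (this.2 h)

theorem Trk.chord (h : S.Trk L K π) {a b : ℝ} (hg : Gap K a b) :
    π a = π b ∨ S.Chord (π a) (π b) := (h.gap a b hg).imp_right fun h1 => h.tame.chord _ h1

theorem val_ev_two {a b : X} (h : a = b ∨ S.Chord a b) : S.Ev (two a b) := by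
  rcases h with rfl | h
  · rw [val_two_self]
    exact Ord3.Ev.zero
  · exact Ord3.Ev.two h

theorem val_ev_bd (h : S.Trk L K π) {η s t : ℝ} {κ : Ch X} (hκ : Approx K π η s t κ)
    (hcl : π s = π t) : S.Ev (bd κ) := by
  obtain ⟨Gs, h1, _, h3⟩ := hκ.exists_gaps
  rw [h3, hcl, val_two_self, zero_add]
  exact Ord3.Ev.sum _ _ fun p hp => val_ev_two (h.chord (h1 p hp).1)

/-- S1 -/
theorem pv_loc (hL : S.Lam L) (h : S.Trk L K π) {s t : ℝ} (hs : s ∈ K) (ht : t ∈ K)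
    (hst : s ≤ t) (hcl : π s = π t) {o o' : X} (ho : o ∉ π '' (K ∩ Icc s t))
    (ho' : o' ∉ π '' (K ∩ Icc s t)) :
    ∀ᶠ z in 𝓝 o', S.pv K π s t o z = S.pv K π s t o o' := by
  obtain ⟨r, hr, hf⟩ := val_far (h.compact s t) ho ho'
  obtain ⟨η1, h1, e1⟩ := pv_spec hL h (half_pos hr)
  obtain ⟨η2, h2, e2⟩ := S.LCst r hr
  obtain ⟨κ, hκ⟩ := approx_exists h.closed h.cont (lt_min h1 h2) hs ht hst
  have h3 := e2 κ o' (val_ev_bd h hκ hcl) fun l hl =>
    ⟨(hκ.fine' l hl).2.2.trans_le (min_le_right _ _), (hf _ (hκ.fine' l hl).1).2⟩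
  have h4 : ∀ z ∈ ball o' (r / 2), S.ev κ o z = S.pv K π s t o z := fun z hz =>
    e1 s hs t ht hst o z (fun u hu => by
      have := hf _ ⟨u, hu, rfl⟩
      rw [mem_ball] at hz
      constructor <;> linarith [dist_triangle (π u) z o']) κ (hκ.mono (min_le_left _ _))
  filter_upwards [h3, ball_mem_nhds o' (half_pos hr)] with z a1 a2
  rw [← h4 z a2, ← h4 o' (mem_ball_self (half_pos hr)), ev, ev, a1]

open Classical in
theorem val_pv_cross (hL : S.Lam L) (h : S.Trk L K π) {s t : ℝ} (hs : s ∈ K) (ht : t ∈ K)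
    (hst : s ≤ t) (hcl : π s = π t) {g g' : X} (hg : g ∉ π '' (K ∩ Icc s t))
    (hg' : g' ∉ π '' (K ∩ Icc s t)) (hch : S.Chord g g') {c : ℝ} (hc : 0 < c) :
    ∃ Gs : Finset (ℝ × ℝ), (∀ p ∈ Gs, Gap K p.1 p.2 ∧ s ≤ p.1 ∧ p.2 ≤ t) ∧
      (∀ a b, Gap K a b → s ≤ a → b ≤ t → c ≤ dist (π a) (π b) → (a, b) ∈ Gs) ∧
      S.pv K π s t g g' = ∑ p ∈ Gs, if S.Cross (π p.1) (π p.2) g g' then 1 else 0 := by
  obtain ⟨r, hr, hf⟩ := val_far (h.compact s t) hg hg'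
  obtain ⟨η1, h1, e1⟩ := val_spec' hL h hg hg'
  obtain ⟨η2, h2, e2⟩ := S.A3 g g' hch r hr
  obtain ⟨κ, hκ⟩ := approx_exists h.closed h.cont (lt_min h1 (lt_min h2 hc)) hs ht hst
  have h3 := e2 κ (val_ev_bd h hκ hcl) fun l hl =>
    ⟨(hκ.fine' l hl).2.2.trans_le ((min_le_right _ _).trans (min_le_left _ _)),
      hf _ (hκ.fine' l hl).1⟩
  obtain ⟨Gs, a1, a2, a3⟩ := hκ.exists_gaps
  refine ⟨Gs, a1, fun a b b1 b2 b3 b4 => a2 a b b1 b2 b3
    (((min_le_right _ _).trans (min_le_right _ _)).trans b4), ?_⟩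
  rw [← e1 _ _ _ le_rfl le_rfl (hκ.mono (min_le_left _ _)), ev, h3, a3, hcl, val_two_self,
    zero_add, val_sig_sum, val_sig_sum, ← Finset.sum_add_distrib]
  refine Finset.sum_congr rfl fun p hp => ?_
  obtain ⟨b1, b2, b3⟩ := a1 p hp
  have c1 : π p.1 ∈ π '' (K ∩ Icc s t) := ⟨_, ⟨b1.1, b2, b1.2.2.1.le.trans b3⟩, rfl⟩
  have c2 : π p.2 ∈ π '' (K ∩ Icc s t) := ⟨_, ⟨b1.2.1, b2.trans b1.2.2.1.le, b3⟩, rfl⟩
  exact val_sig_two (h.chord b1) hch (fun e => hg (e ▸ c1)) (fun e => hg (e ▸ c2))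
    (fun e => hg' (e ▸ c1)) (fun e => hg' (e ▸ c2))

/-- S2, no crossing -/
theorem pv_free (hL : S.Lam L) (h : S.Trk L K π) {s t : ℝ} (hs : s ∈ K) (ht : t ∈ K)
    (hst : s ≤ t) (hcl : π s = π t) {g g' : X} (hg : g ∉ π '' (K ∩ Icc s t))
    (hg' : g' ∉ π '' (K ∩ Icc s t)) (hch : S.Chord g g')
    (hfree : ∀ a b, Gap K a b → s ≤ a → b ≤ t → ¬ S.Cross (π a) (π b) g g') :
    S.pv K π s t g g' = 0 := by
  obtain ⟨Gs, a1, _, a3⟩ := val_pv_cross hL h hs ht hst hcl hg hg' hch one_pos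
  rw [a3]
  exact Finset.sum_eq_zero fun p hp => if_neg (hfree _ _ (a1 p hp).1 (a1 p hp).2.1 (a1 p hp).2.2)

/-- S2, exactly one crossing -/
theorem pv_one (hL : S.Lam L) (h : S.Trk L K π) {s t : ℝ} (hs : s ∈ K) (ht : t ∈ K)
    (hst : s ≤ t) (hcl : π s = π t) {g g' : X} (hg : g ∉ π '' (K ∩ Icc s t))
    (hg' : g' ∉ π '' (K ∩ Icc s t)) {a0 b0 : ℝ} (h0 : Gap K a0 b0) (ha0 : s ≤ a0) (hb0 : b0 ≤ t)
    (hc : S.Cross (π a0) (π b0) g g')
    (huniq : ∀ a b, Gap K a b → s ≤ a → b ≤ t → S.Cross (π a) (π b) g g' → a = a0) :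
    S.pv K π s t g g' = 1 := by
  obtain ⟨Gs, a1, a2, a3⟩ := val_pv_cross hL h hs ht hst hcl hg hg' hc.2.1 (dist_pos.2 hc.ne12)
  rw [a3, Finset.sum_eq_single_of_mem (a0, b0) (a2 a0 b0 h0 ha0 hb0 le_rfl), if_pos hc]
  intro p hp hne
  refine if_neg fun h1 => hne ?_
  obtain ⟨b1, b2, b3⟩ := a1 p hp
  have c1 := huniq _ _ b1 b2 b3 h1
  have c2 := b1.2.2.2 b0 h0.2.1
  have c3 := h0.2.2.2 p.2 b1.2.1
  have c4 := b1.2.2.1
  have c5 := h0.2.2.1
  refine Prod.ext c1 ?_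
  rcases c2 with c2 | c2 <;> rcases c3 with c3 | c3 <;> linarith

end Str

end Pool.Agent.Lib.MP_9e71a3_gt
end

-- part Pool.Agent.Lib.MP_9e71a3_gt.Val
section

/-! Values of the side function along paths with jumps.  JOB Val. -/

set_option autoImplicit false
set_option linter.unusedSectionVars false

namespace Pool.Agent.Lib.MP_9e71a3_gt

open Set Metric Filter Topology

theorem val_near_end {X : Type} [MetricSpace X] {K : Set ℝ} {π : ℝ → X} (hK : IsCompact K)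
    (hπ : ContinuousOn π K) {Y : Set X} (hY : IsClosed Y) {p : X}
    (h : ∀ v ∈ K, π v ∈ Y → π v = p) {ε : ℝ} (hε : 0 < ε) :
    ∃ η > 0, ∀ x ∈ Y, ∀ v ∈ K, dist x (π v) < η → dist p (π v) < ε := by
  have h1 : IsCompact (π '' K \ ball p ε) := (hK.image_of_continuousOn hπ).diff isOpen_ball
  obtain ⟨η, hη, h2⟩ := val_sep h1 hY (disjoint_left.2 (by
    rintro _ ⟨⟨v, hv, rfl⟩, h3⟩ h4
    exact h3 (by rw [h v hv h4]; exact mem_ball_self hε)))
  refine ⟨η, hη, fun x hx v hv hd => ?_⟩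
  by_contra hc
  have := h2 (π v) ⟨⟨v, hv, rfl⟩, by rwa [mem_ball, dist_comm]⟩ x hx
  rw [dist_comm] at this
  linarith

namespace Str
variable {X : Type} [MetricSpace X] [CompactSpace X] {S : Str X} {L : Set (X × X)}
  {K K' : Set ℝ} {π π' : ℝ → X}

/-- `Y` with the chords `D` is acyclic: short links have a potential -/
def Pot (S : Str X) (Y : Set X) (D : Set (X × X)) : Prop :=
  ∀ o ∉ Y, ∀ o' ∉ Y, ∃ η > 0, ∃ F : X → Z2,
    (∀ x ∈ Y, ∀ y ∈ Y, dist x y < η → S.ev (lnk x y) o o' = F x + F y) ∧ ∀ d ∈ D, F d.1 = F d.2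

theorem Pot.mono {Y : Set X} {D D' : Set (X × X)} (h : S.Pot Y D)
    (hD : ∀ d ∈ D', d ∈ D ∨ d.swap ∈ D ∨ d.1 = d.2) : S.Pot Y D' := by
  intro o ho o' ho'
  obtain ⟨η, hη, F, h1, h2⟩ := h o ho o' ho'
  refine ⟨η, hη, F, h1, fun d hd => ?_⟩
  rcases hD d hd with h3 | h3 | h3
  · exact h2 d h3
  · exact (h2 _ h3).symm
  · rw [h3]

theorem val_arc (hL : S.Lam L) {R : Set (X × X)} (hR : S.Tame L R) {a b : ℝ}
    (h : IsArc R K π a b) {o o' : X} (ho : o ∉ π '' K) (ho' : o' ∉ π '' K) :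
    ∃ η > 0, ∃ F : X → Z2, F (π a) = 0 ∧
      (∀ u ∈ K, ∀ v ∈ K, dist (π u) (π v) < η → S.ev (lnk (π u) (π v)) o o' = F (π u) + F (π v)) ∧
      ∀ d ∈ gaps K π, F d.1 = F d.2 := by
  classical
  have hT := trk_of_path hR h.toIsPath
  obtain ⟨r, hr, hf⟩ := val_far (h.compact.image_of_continuousOn h.cont) ho ho'
  obtain ⟨η1, h1, e1⟩ := pv_small hL hR hr
  obtain ⟨η2, h2, e2⟩ := h.toIsPath.modulus h1
  obtain ⟨η3, h3, e3⟩ := h.modulus h2
  obtain ⟨η4, h4, e4⟩ := S.ev_small hr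
  obtain ⟨F, hF⟩ : ∃ F : X → Z2, ∀ u ∈ K, F (π u) = S.pv K π a u o o' := by
    refine ⟨fun x => if hx : ∃ u ∈ K, π u = x then S.pv K π a hx.choose o o' else 0,
      fun u hu => ?_⟩
    have hx : ∃ v ∈ K, π v = π u := ⟨u, hu, rfl⟩
    simp only [dif_pos hx]
    rw [h.inj hx.choose_spec.1 hu hx.choose_spec.2]
  have n1 : ∀ {o : X}, o ∉ π '' K → ∀ s t, o ∉ π '' (K ∩ Icc s t) := fun ho s t hc =>
    ho (image_mono inter_subset_left hc)
  have n2 : ∀ {o : X}, o ∉ π '' K → ∀ u ∈ K, o ≠ π u := fun ho u hu hc => ho ⟨u, hu, hc.symm⟩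
  have add : ∀ u ∈ K, ∀ v ∈ K, u ≤ v → S.pv K π u v o o' = F (π u) + F (π v) :=
    fun u hu v hv huv => by
      rw [hF u hu, hF v hv]
      exact val_z2d _ _ _ (pv_add hL hT h.left hu hv (h.sub hu).1 huv (n1 ho _ _) (n1 ho' _ _))
  have key : ∀ u ∈ K, ∀ v ∈ K, u ≤ v → dist (π u) (π v) < η3 →
      S.ev (lnk (π u) (π v)) o o' = F (π u) + F (π v) := by
    intro u hu v hv huv hd
    rw [← add u hu v hv huv]
    refine (e1 K π hT.closed h.cont h.gap u hu v hv huv (fun w hw => e2 w hw.1 u hu ?_) o o'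
      (hf _ ⟨u, hu, rfl⟩).1 (hf _ ⟨u, hu, rfl⟩).2).symm
    have := e3 u hu v hv hd
    rw [abs_lt] at this ⊢
    constructor <;> linarith [hw.2.1, hw.2.2]
  refine ⟨min η3 η4, lt_min h3 h4, F, ?_, fun u hu v hv hd => ?_, ?_⟩
  · rw [hF a h.left]
    exact pv_self hL hT h.left (n2 ho a h.left) (n2 ho' a h.left)
  · rw [lt_min_iff] at hd
    rcases le_total u v with huv | huv
    · exact key u hu v hv huv hd.1
    · rw [dist_comm] at hd
      rw [(e4 (π v) (π u) (π u) o o' hd.2 hd.2 (hf _ ⟨v, hv, rfl⟩).1 (hf _ ⟨v, hv, rfl⟩).2).2.1,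
        key v hv u hu huv hd.1, add_comm]
  · rintro _ ⟨s, t, hg, rfl⟩
    apply val_z2b
    rw [← add s hg.1 t hg.2.1 hg.2.2.1.le]
    exact pv_nothing_between hL hT hg.1 hg.2.1 hg.2.2.1.le hg.2.2.2
      ⟨n2 ho s hg.1, n2 ho t hg.2.1⟩ ⟨n2 ho' s hg.1, n2 ho' t hg.2.1⟩

theorem pot_arc (hL : S.Lam L) {R : Set (X × X)} (hR : S.Tame L R) {a b : ℝ}
    (h : IsArc R K π a b) : S.Pot (π '' K) (gaps K π) := by
  intro o ho o' ho'
  obtain ⟨η, hη, F, _, h1, h2⟩ := val_arc hL hR h ho ho'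
  refine ⟨η, hη, F, ?_, h2⟩
  rintro _ ⟨u, hu, rfl⟩ _ ⟨v, hv, rfl⟩
  exact h1 u hu v hv

theorem Pot.attach (hL : S.Lam L) {Y : Set X} {D : Set (X × X)} (hY : IsClosed Y)
    (hP : S.Pot Y D) (hDY : ∀ d ∈ D, d.1 ∈ Y ∧ d.2 ∈ Y) {R : Set (X × X)} (hR : S.Tame L R)
    {a b : ℝ} (h : IsArc R K π a b) (ha : π a ∈ Y) (hmeet : ∀ u ∈ K, π u ∈ Y → u = a) :
    S.Pot (Y ∪ π '' K) (D ∪ gaps K π) := by
  classical
  intro o ho o' ho'
  obtain ⟨r, hr, hf⟩ := val_far (isCompact_singleton (x := π a)) (o := o) (o' := o')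
    (fun hc => ho (Or.inl (hc ▸ ha))) (fun hc => ho' (Or.inl (hc ▸ ha)))
  replace hf := hf _ rfl
  rw [mem_union, not_or] at ho ho'
  obtain ⟨η1, h1, F1, a1, a2⟩ := hP o ho.1 o' ho'.1
  obtain ⟨η2, h2, F2, b0, b1, b2⟩ := val_arc hL hR h ho.2 ho'.2
  obtain ⟨η3, h3, e3⟩ := S.ev_small hr
  have hε : 0 < min η1 (min η2 η3) / 2 := by positivity
  obtain ⟨η4, h4, e4⟩ := val_near_end h.compact h.cont hY (p := π a)
    (fun v hv hc => by rw [hmeet v hv hc]) hε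
  have m1 := min_le_left η1 (min η2 η3)
  have m2 := (min_le_right η1 (min η2 η3)).trans (min_le_left _ _)
  have m3 := (min_le_right η1 (min η2 η3)).trans (min_le_right _ _)
  obtain ⟨F, f1, f2⟩ : ∃ F : X → Z2, (∀ x ∈ Y, F x = F1 x) ∧
      ∀ u ∈ K, F (π u) = F1 (π a) + F2 (π u) := by
    refine ⟨fun x => if x ∈ Y then F1 x else F1 (π a) + F2 x, fun x hx => if_pos hx,
      fun u hu => ?_⟩
    by_cases hc : π u ∈ Y
    · simp only [if_pos hc]
      rw [hmeet u hu hc, b0, add_zero]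
    · exact if_neg hc
  have mix : ∀ x ∈ Y, ∀ v ∈ K, dist x (π v) < min η4 (min η1 (min η2 η3) / 2) →
      S.ev (lnk x (π v)) o o' = F x + F (π v) ∧ S.ev (lnk (π v) x) o o' = F (π v) + F x := by
    intro x hx v hv hd
    rw [lt_min_iff] at hd
    have c1 := e4 x hx v hv hd.1
    have c2 : dist (π a) x < min η1 (min η2 η3) := by
      linarith [dist_triangle_right (π a) x (π v)]
    have c3 := a1 _ ha x hx (by linarith)
    have c4 := b1 a h.left v hv (by linarith)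
    rw [(e3 (π a) x (π v) o o' (by linarith) (by linarith) hf.1 hf.2).2.2,
      (e3 (π a) (π v) x o o' (by linarith) (by linarith) hf.1 hf.2).2.2, c3, c4, b0, f1 x hx,
      f2 v hv]
    constructor <;> ring
  refine ⟨min η4 (min η1 (min η2 η3) / 2), lt_min h4 hε, F, ?_, ?_⟩
  · rintro x (hx | ⟨u, hu, rfl⟩) y (hy | ⟨v, hv, rfl⟩) hd
    · rw [f1 x hx, f1 y hy]
      exact a1 x hx y hy (by linarith [min_le_right η4 (min η1 (min η2 η3) / 2)])
    · exact (mix x hx v hv hd).1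
    · exact (mix y hy u hu (by rwa [dist_comm])).2
    · rw [f2 u hu, f2 v hv,
        b1 u hu v hv (by linarith [min_le_right η4 (min η1 (min η2 η3) / 2)]),
        val_z2c _ (F1 (π a)) _, add_comm (F2 (π u))]
  · rintro d (hd | hd)
    · rw [f1 _ (hDY d hd).1, f1 _ (hDY d hd).2, a2 d hd]
    · have := b2 d hd
      obtain ⟨s, t, hg, rfl⟩ := hd
      rw [f2 s hg.1, f2 t hg.2.1]
      exact congrArg _ this

/-- non-separation by acyclic sets -/
theorem ns (hL : S.Lam L) {Y : Set X} (hY : IsClosed Y) {D : Set (X × X)} (hD : S.Tame L D)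
    (hnc : S.NC D) (hDY : ∀ d ∈ D, d.1 ∈ Y ∧ d.2 ∈ Y) (hP : S.Pot Y D) (χ : X → Z2)
    (hloc : ∀ x ∉ Y, ∀ᶠ x' in 𝓝 x, χ x' = χ x)
    (hχ : ∀ g g', S.Chord g g' → g ∉ Y → g' ∉ Y → S.Free D g g' → χ g = χ g') :
    ∀ o ∉ Y, ∀ o' ∉ Y, χ o = χ o' := by
  intro o ho o' ho'
  obtain ⟨η, hη, F, h1, h2⟩ := hP o ho o' ho'
  obtain ⟨D0, a1, κ, a2, a3, a4⟩ := gll hL hY hD hnc hDY Ord3.Ev.zero (by simp) χ hloc
    (fun g g' b1 b2 b3 b4 => by
      rw [hχ g g' b1 b2 b3 b4, z2_add_self, Ord3.sig_zero, Ord3.sig_zero, add_zero]) hη o o'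
  apply val_z2b
  rw [← a4 ho ho', val_ev_links, Finset.sum_congr rfl fun l hl =>
    h1 _ (a2 l hl).1 _ (a2 l hl).2.1 (a2 l hl).2.2, val_sum_links F κ D0 (by rw [a3, zero_add])]
  exact Finset.sum_eq_zero fun d hd => by rw [h2 d (a1 hd), z2_add_self]

/-- uniform version of `A3` for chords of the lamination -/
theorem a3_lam (hL : S.Lam L) {r : ℝ} (hr : 0 < r) : ∃ η > 0, ∀ e ∈ L, ∀ κ : Ch X,
    S.Ev (bd κ) → (∀ l ∈ κ.support, dist l.1 l.2 < η ∧ r ≤ dist l.1 e.1 ∧ r ≤ dist l.1 e.2) →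
    S.ev κ e.1 e.2 = S.sig (bd κ) e.1 + S.sig (bd κ) e.2 := by
  obtain ⟨η1, h1, e1⟩ := S.ev_small hr
  obtain ⟨η2, h2, e2⟩ := (hL.tame Subset.rfl).t2 hL (half_pos hr)
  have hε : 0 < min η1 (min (η2 / 2) (r / 2)) := by positivity
  obtain ⟨δ, hδ, e3⟩ := hL.lc _ hε
  refine ⟨δ, hδ, fun e he κ hκ hl => ?_⟩
  obtain ⟨η, hη, e4⟩ := S.A3 e.1 e.2 (hL.chord e he) (r / 2) (half_pos hr)
  have key : ∀ x y, dist x y < δ → r ≤ dist x e.1 → r ≤ dist x e.2 → ∃ (κ' : Ch X) (B : X →₀ Z2),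
      (∀ l ∈ κ'.support, dist l.1 l.2 < η ∧ r / 2 ≤ dist l.1 e.1 ∧ r / 2 ≤ dist l.1 e.2) ∧
      bd κ' = two x y + B ∧ S.Ev B ∧ S.sig B e.1 + S.sig B e.2 = 0 ∧
      S.ev κ' e.1 e.2 = S.ev (lnk x y) e.1 e.2 := by
    intro x y hxy a1 a2
    have h := e3 x y hxy η hη
    clear hxy
    induction h with
    | refl =>
      refine ⟨0, 0, by simp, by simp [val_two_self], Ord3.Ev.zero, by simp [Ord3.sig_zero], ?_⟩
      rw [ev_zero, (e1 x x x _ _ (by simpa using h1) (by simpa using h1) a1 a2).1]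
    | @tail p q _ hpq ih =>
      obtain ⟨κ', B, b1, b2, b3, b4, b5⟩ := ih
      obtain ⟨c1, c2, c3⟩ := hpq
      simp only [mem_ball', lt_min_iff] at c1 c2
      have c4 := (e1 x p q _ _ c1.1 c2.1 a1 a2).2.2
      have d1 : r / 2 ≤ dist p e.1 := by linarith [dist_triangle x p e.1]
      have d2 : r / 2 ≤ dist p e.2 := by linarith [dist_triangle x p e.2]
      have d3 : r / 2 ≤ dist q e.1 := by linarith [dist_triangle x q e.1]
      have d4 : r / 2 ≤ dist q e.2 := by linarith [dist_triangle x q e.2]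
      have ne : ∀ {a b : X}, r / 2 ≤ dist a b → b ≠ a := fun h hc => by
        rw [hc, dist_self] at h
        linarith
      rcases c3 with c3 | c3
      · refine ⟨κ' + lnk p q, B, fun l hl => ?_, ?_, b3, b4, ?_⟩
        · rcases val_supp_add hl with hl | hl
          · exact b1 l hl
          · rw [val_supp_lnk hl]
            exact ⟨c3, d1, d2⟩
        · rw [map_add, b2, bd_lnk, ← val_two_two x p q]
          abel
        · rw [ev_add, b5, c4, ← add_assoc, z2_add_self, zero_add]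
      · refine ⟨κ', B + two p q, b1, ?_, b3.add (Ord3.Ev.two (hL.chord _ c3)), ?_, ?_⟩
        · rw [b2, ← val_two_two x p q, add_assoc, add_left_comm (two p q), fs_add_self, add_zero]
        · have := val_sig_two (Or.inr (hL.chord _ c3)) (hL.chord e he) (ne d1) (ne d3) (ne d2)
            (ne d4)
          rw [if_neg (hL.nc _ c3 e he)] at this
          rw [Ord3.sig_add, Ord3.sig_add, add_add_add_comm, b4, zero_add]
          exact this
        · rw [b5]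
          apply val_z2b
          rw [← c4]
          exact e2 _ c3 (by linarith [dist_triangle_left p q x]) _ _ d1 d2
  choose! κ' B b1 b2 b3 b4 b5 using key
  have c1 : bd (∑ l ∈ κ.support, κ' l.1 l.2) = bd κ + ∑ l ∈ κ.support, B l.1 l.2 := by
    conv_rhs => rw [val_ch_sum κ]
    rw [map_sum, map_sum, ← val_ch_sum κ, ← Finset.sum_add_distrib]
    exact Finset.sum_congr rfl fun l h => by
      rw [b2 _ _ (hl l h).1 (hl l h).2.1 (hl l h).2.2, bd_lnk]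
  have c2 := e4 (∑ l ∈ κ.support, κ' l.1 l.2) (by
    rw [c1]
    exact hκ.add (Ord3.Ev.sum _ _ fun l h => b3 _ _ (hl l h).1 (hl l h).2.1 (hl l h).2.2))
    fun l' h' => by
      classical
      obtain ⟨l, h, h''⟩ := Finset.mem_biUnion.1 (Finsupp.support_finsetSum h')
      exact b1 _ _ (hl l h).1 (hl l h).2.1 (hl l h).2.2 l' h''
  rw [c1, Ord3.sig_add, Ord3.sig_add, add_add_add_comm, val_sig_sum, val_sig_sum,
    ← Finset.sum_add_distrib, Finset.sum_eq_zero fun l h =>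
      b4 _ _ (hl l h).1 (hl l h).2.1 (hl l h).2.2, add_zero] at c2
  rw [← c2, val_ev_links]
  exact (Finset.sum_congr rfl fun l h =>
    (b5 _ _ (hl l h).1 (hl l h).2.1 (hl l h).2.2).symm).trans (val_ev_sum _ _ _ _).symm

/-- the side function of a fine chain is constant along a far path whose jumps do not cross the
boundary chords of the chain -/
theorem theta_const (hL : S.Lam L) {R : Set (X × X)} (hR : S.Tame L R) {U A : Set X}
    (hA : IsClosed A) (hUA : Disjoint U A) {x y : X} (hJ : Joined R U x y) :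
    ∃ η > 0, ∀ κ : Ch X, Fine η A κ → ∀ D0 : Finset (X × X),
      (∀ d ∈ D0, S.Chord d.1 d.2 ∧ d.1 ∈ A ∧ d.2 ∈ A ∧ S.Free R d.1 d.2) →
      bd κ = ∑ d ∈ D0, two d.1 d.2 → S.ev κ x y = 0 := by
  obtain ⟨N, hNU, hN, hJ'⟩ := hJ.compact
  have hNA : Disjoint N A := hUA.mono_left hNU
  obtain ⟨r, hr, hf⟩ := val_sep hN hA hNA
  obtain ⟨η1, h1, e1⟩ := S.LCst r hr
  obtain ⟨η2, h2, e2⟩ := a3_lam hL hr
  have h3 : ∀ᶠ η in 𝓝[>] (0 : ℝ), ∀ e ∈ R \ L, ∀ κ : Ch X, S.Ev (bd κ) →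
      (∀ l ∈ κ.support, dist l.1 l.2 < η ∧ r ≤ dist l.1 e.1 ∧ r ≤ dist l.1 e.2) →
      S.ev κ e.1 e.2 = S.sig (bd κ) e.1 + S.sig (bd κ) e.2 := by
    refine (eventually_all_finite hR.fin).2 fun e he => ?_
    obtain ⟨η, hη, e3⟩ := S.A3 e.1 e.2 (hR.chord e he.1) r hr
    filter_upwards [nhdsWithin_le_nhds (Iio_mem_nhds hη)] with η' hη' κ a1 a2
    exact e3 κ a1 fun l hl => ⟨(a2 l hl).1.trans hη', (a2 l hl).2⟩
  obtain ⟨η3, e3, h3'⟩ := (h3.and self_mem_nhdsWithin).exists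
  refine ⟨min η1 (min η2 η3), lt_min h1 (lt_min h2 h3'), fun κ hκ D0 hD hb => ?_⟩
  have hE : S.Ev (bd κ) := by
    rw [hb]
    exact Ord3.Ev.sum _ _ fun d hd => Ord3.Ev.two (hD d hd).1
  have hf' : ∀ l ∈ κ.support, ∀ z ∈ N, r ≤ dist l.1 z := fun l hl z hz => by
    rw [dist_comm]
    exact hf z hz _ (hκ l hl).1
  have hlt := fun l hl => lt_min_iff.1 (hκ l hl).2.2
  rw [ev, hJ'.eq_of_loc (S.θ κ) (fun z hz => nhdsWithin_le_nhds
    (e1 κ z hE fun l hl => ⟨(hlt l hl).1, hf' l hl z hz⟩)) fun p hp p1 p2 => ?_, z2_add_self]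
  have a1 : S.ev κ p.1 p.2 = S.sig (bd κ) p.1 + S.sig (bd κ) p.2 := by
    by_cases hpL : p ∈ L
    · exact e2 p hpL κ hE fun l hl =>
        ⟨(lt_min_iff.1 (hlt l hl).2).1, hf' l hl _ p1, hf' l hl _ p2⟩
    · exact e3 p ⟨hp, hpL⟩ κ hE fun l hl =>
        ⟨(lt_min_iff.1 (hlt l hl).2).2, hf' l hl _ p1, hf' l hl _ p2⟩
  apply val_z2b
  rw [← ev, a1, hb, val_sig_sum, val_sig_sum, ← Finset.sum_add_distrib]
  refine Finset.sum_eq_zero fun d hd => ?_
  obtain ⟨b1, b2, b3, b4⟩ := hD d hd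
  have ne : ∀ {a b : X}, a ∈ N → b ∈ A → a ≠ b := fun ha hb hc =>
    disjoint_left.1 hNA ha (hc ▸ hb)
  rw [val_sig_two (Or.inr b1) (hR.chord p hp) (ne p1 b2) (ne p1 b3) (ne p2 b2) (ne p2 b3),
    if_neg fun hc => b4 p hp hc.symm]

/-- an honest arc that is the only bridge between two disjoint closed sets carries no jump -/
theorem w2 (hL : S.Lam L) {Ym Yp : Set X} (hYm : IsClosed Ym) (hYp : IsClosed Yp)
    (hdisj : Disjoint Ym Yp) {s t : ℝ} (harc : IsArc ∅ K π s t) (hs : π s ∈ Ym) (ht : π t ∈ Yp)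
    (hmid : ∀ u ∈ K, π u ∈ Ym ∪ Yp → u = s ∨ u = t) {D : Set (X × X)} (hD : S.Tame L D)
    (hnc : S.NC D) (hDY : ∀ d ∈ D, (d.1 ∈ Ym ∧ d.2 ∈ Ym) ∨ (d.1 ∈ Yp ∧ d.2 ∈ Yp)) (χ : X → Z2)
    (hloc : ∀ x ∉ Ym ∪ Yp ∪ π '' K, ∀ᶠ x' in 𝓝 x, χ x' = χ x)
    (hχ : ∀ g g', S.Chord g g' → g ∉ Ym ∪ Yp ∪ π '' K → g' ∉ Ym ∪ Yp ∪ π '' K →
      S.Free D g g' → χ g = χ g')
    {R : Set (X × X)} (hR : S.Tame L R) (hRD : ∀ d ∈ D, S.Free R d.1 d.2) {o o' : X}
    (ho : o ∉ π '' K) (ho' : o' ∉ π '' K) (hJ : Joined R (Ym ∪ Yp)ᶜ o o') : χ o = χ o' := by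
  classical
  have hA : IsClosed (Ym ∪ Yp) := hYm.union hYp
  have hY : IsClosed (Ym ∪ Yp ∪ π '' K) :=
    hA.union (harc.compact.image_of_continuousOn harc.cont).isClosed
  have hoY : o ∉ Ym ∪ Yp ∪ π '' K := fun h => h.elim hJ.mem.1 ho
  have hoY' : o' ∉ Ym ∪ Yp ∪ π '' K := fun h => h.elim hJ.mem.2 ho'
  have np : ∀ {x}, x ∈ Yp → x ∉ Ym := fun h h' => disjoint_left.1 hdisj h' h
  have es : ∀ v ∈ K, π v ∈ Ym → π v = π s := fun v hv h => by
    rcases hmid v hv (Or.inl h) with rfl | rfl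
    · rfl
    · exact absurd h (np ht)
  have et : ∀ v ∈ K, π v ∈ Yp → π v = π t := fun v hv h => by
    rcases hmid v hv (Or.inr h) with rfl | rfl
    · exact absurd hs (np h)
    · rfl
  obtain ⟨r, hr, hf⟩ := val_far hY.isCompact hoY hoY'
  obtain ⟨η1, h1, e1⟩ := theta_const hL hR hA disjoint_compl_left hJ
  obtain ⟨η2, h2, F2, b0, b1, -⟩ := val_arc hL (hL.tame (empty_subset L)) harc ho ho'
  obtain ⟨η3, h3, e3⟩ := S.ev_small hr
  obtain ⟨ε, hε, m1, m2, m3⟩ : ∃ ε > 0, 2 * ε ≤ η1 ∧ 2 * ε ≤ η2 ∧ 2 * ε ≤ η3 :=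
    ⟨min η1 (min η2 η3) / 2, by positivity, by linarith [min_le_left η1 (min η2 η3)],
      by linarith [(min_le_right η1 (min η2 η3)).trans (min_le_left _ _)],
      by linarith [(min_le_right η1 (min η2 η3)).trans (min_le_right _ _)]⟩
  obtain ⟨η4, h4, e4⟩ := val_near_end harc.compact harc.cont hYm es hε
  obtain ⟨η5, h5, e5⟩ := val_near_end harc.compact harc.cont hYp et hε
  obtain ⟨η6, h6, e6⟩ := val_sep hYm.isCompact hYp hdisj
  obtain ⟨η, hη, n0, n4, n5, n6⟩ : ∃ η > 0, η ≤ ε ∧ η ≤ η4 ∧ η ≤ η5 ∧ η ≤ η6 :=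
    ⟨min (min ε η4) (min η5 η6), by positivity, (min_le_left _ _).trans (min_le_left _ _),
      (min_le_left _ _).trans (min_le_right _ _), (min_le_right _ _).trans (min_le_left _ _),
      (min_le_right _ _).trans (min_le_right _ _)⟩
  obtain ⟨F, f1, f2, f3⟩ : ∃ F : X → Z2, (∀ x ∈ Ym, F x = F2 (π s)) ∧
      (∀ x ∈ Yp, F x = F2 (π t)) ∧ ∀ u ∈ K, F (π u) = F2 (π u) := by
    refine ⟨fun x => if x ∈ Ym then F2 (π s) else if x ∈ Yp then F2 (π t) else F2 x,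
      fun x hx => if_pos hx, fun x hx => (if_neg (np hx)).trans (if_pos hx), fun u hu => ?_⟩
    dsimp only
    split_ifs with c1 c2
    · rw [es u hu c1]
    · rw [et u hu c2]
    · rfl
  obtain ⟨G, g1, g2, g3⟩ : ∃ G : X → X →₀ Z2, (∀ x ∈ Ym, G x = two x (π s)) ∧
      (∀ x ∈ Yp, G x = two x (π t)) ∧ ∀ u ∈ K, G (π u) = 0 := by
    refine ⟨fun x => if x ∈ Ym then two x (π s) else if x ∈ Yp then two x (π t) else 0,
      fun x hx => if_pos hx, fun x hx => (if_neg (np hx)).trans (if_pos hx), fun u hu => ?_⟩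
    dsimp only
    split_ifs with c1 c2
    · rw [es u hu c1, val_two_self]
    · rw [et u hu c2, val_two_self]
    · rfl
  have tw : ∀ x y p : X, two x p + two y p = two x y := fun x y p => by
    rw [← val_two_two x p y, two, two, two, add_comm (Finsupp.single y 1)]
  have fl : ∀ {x y : X}, x ∈ Ym ∪ Yp → y ∈ Ym ∪ Yp → dist x y < η1 →
      Fine η1 (Ym ∪ Yp) (lnk x y) := fun a1 a2 a3 l hl => by
    rw [val_supp_lnk hl]
    exact ⟨a1, a2, a3⟩
  let H : X → X → Prop := fun x y => ∃ κ', Fine η1 (Ym ∪ Yp) κ' ∧ bd κ' = G x + G y ∧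
    S.ev (lnk x y) o o' = F x + F y + S.ev κ' o o'
  have hsymm : ∀ x ∈ Ym ∪ Yp ∪ π '' K, ∀ y, dist x y < η → H x y → H y x := by
    rintro x hx y hd ⟨κ', a1, a2, a3⟩
    refine ⟨κ', a1, by rw [a2, add_comm], ?_⟩
    rw [(e3 x y y o o' (by linarith) (by linarith) (hf x hx).1 (hf x hx).2).2.1, a3,
      add_comm (F x)]
  have same : ∀ x y p c, x ∈ Ym ∪ Yp → y ∈ Ym ∪ Yp → dist x y < η → F x = c → F y = c →
      G x = two x p → G y = two y p → H x y := fun x y p c a1 a2 a3 a4 a5 a6 a7 =>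
    ⟨lnk x y, fl a1 a2 (by linarith), by rw [bd_lnk, a6, a7, tw], by
      rw [a4, a5, z2_add_self, zero_add]⟩
  have mix : ∀ x, ∀ w ∈ K, ∀ v ∈ K, x ∈ Ym ∪ Yp → π w ∈ Ym ∪ Yp → dist x (π v) < η →
      dist (π w) (π v) < ε → F x = F2 (π w) → G x = two x (π w) → H x (π v) := by
    intro x w hw v hv a1 a2 a3 a4 a5 a6
    have c1 : dist (π w) x < 2 * ε := by linarith [dist_triangle_right (π w) x (π v)]
    have c2 := e3 (π w) x (π v) o o' (by linarith) (by linarith) (hf _ (Or.inl a2)).1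
      (hf _ (Or.inl a2)).2
    refine ⟨lnk x (π w), fl a1 a2 (by rw [dist_comm]; linarith), by
      rw [bd_lnk, a6, g3 v hv, add_zero], ?_⟩
    rw [c2.2.2, c2.2.1, b1 w hw v hv (by linarith), a5, f3 v hv, add_comm]
  have mix' : ∀ x ∈ Ym ∪ Yp, ∀ v ∈ K, dist x (π v) < η → H x (π v) := by
    rintro x (hx | hx) v hv hd
    · exact mix x s harc.left v hv (Or.inl hx) (Or.inl hs) hd (e4 x hx v hv (by linarith))
        (f1 x hx) (g1 x hx)
    · exact mix x t harc.right v hv (Or.inr hx) (Or.inr ht) hd (e5 x hx v hv (by linarith))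
        (f2 x hx) (g2 x hx)
  have key : ∀ x y, x ∈ Ym ∪ Yp ∪ π '' K → y ∈ Ym ∪ Yp ∪ π '' K → dist x y < η → H x y := by
    rintro x y (hx | ⟨u, hu, rfl⟩) (hy | ⟨v, hv, rfl⟩) hd
    · rcases hx with hx | hx <;> rcases hy with hy | hy
      · exact same x y _ _ (Or.inl hx) (Or.inl hy) hd (f1 x hx) (f1 y hy) (g1 x hx) (g1 y hy)
      · linarith [e6 x hx y hy]
      · linarith [e6 y hy x hx, dist_comm x y]
      · exact same x y _ _ (Or.inr hx) (Or.inr hy) hd (f2 x hx) (f2 y hy) (g2 x hx) (g2 y hy)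
    · exact mix' x hx v hv hd
    · rw [dist_comm] at hd
      exact hsymm y (Or.inl hy) _ hd (mix' y hy u hu hd)
    · refine ⟨0, fun l hl => by simp at hl, by rw [g3 u hu, g3 v hv, map_zero, add_zero], ?_⟩
      rw [b1 u hu v hv (by linarith), f3 u hu, f3 v hv, ev_zero, add_zero]
  have hDA : ∀ d ∈ D, d.1 ∈ Ym ∪ Yp ∧ d.2 ∈ Ym ∪ Yp := fun d hd =>
    (hDY d hd).elim (fun h => ⟨Or.inl h.1, Or.inl h.2⟩) fun h => ⟨Or.inr h.1, Or.inr h.2⟩
  obtain ⟨D0, a1, κ, a2, a3, a4⟩ := gll hL hY hD hnc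
    (fun d hd => ⟨Or.inl (hDA d hd).1, Or.inl (hDA d hd).2⟩) Ord3.Ev.zero (by simp) χ hloc
    (fun g g' b1 b2 b3 b4 => by
      rw [hχ g g' b1 b2 b3 b4, z2_add_self, Ord3.sig_zero, Ord3.sig_zero, add_zero]) hη o o'
  rw [zero_add] at a3
  choose! κ' k1 k2 k3 using key
  have c1 := e1 (∑ l ∈ κ.support, κ' l.1 l.2) (fun l' h' => by
      obtain ⟨l, h, h''⟩ := Finset.mem_biUnion.1 (Finsupp.support_finsetSum h')
      exact k1 _ _ (a2 l h).1 (a2 l h).2.1 (a2 l h).2.2 l' h'') D0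
    (fun d hd => ⟨hD.chord d (a1 hd), (hDA d (a1 hd)).1, (hDA d (a1 hd)).2, hRD d (a1 hd)⟩) (by
      rw [map_sum, Finset.sum_congr rfl fun l h => k2 _ _ (a2 l h).1 (a2 l h).2.1 (a2 l h).2.2,
        val_sum_links G κ D0 a3]
      refine Finset.sum_congr rfl fun d hd => ?_
      rcases hDY d (a1 hd) with h | h
      · rw [g1 _ h.1, g1 _ h.2, tw]
      · rw [g2 _ h.1, g2 _ h.2, tw])
  apply val_z2b
  rw [← a4 hoY hoY', val_ev_links, Finset.sum_congr rfl fun l h =>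
    k3 _ _ (a2 l h).1 (a2 l h).2.1 (a2 l h).2.2, Finset.sum_add_distrib, ← val_ev_sum, c1, add_zero,
    val_sum_links F κ D0 a3]
  refine Finset.sum_eq_zero fun d hd => ?_
  rcases hDY d (a1 hd) with h | h
  · rw [f1 _ h.1, f1 _ h.2, z2_add_self]
  · rw [f2 _ h.1, f2 _ h.2, z2_add_self]

end Str

end Pool.Agent.Lib.MP_9e71a3_gt
end

-- part Pool.Agent.Lib.MP_9e71a3_gt.SccA
section

/-! Simple closed curves with jumps: definitions, periodicity, values and sides. -/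

set_option autoImplicit false
set_option linter.unusedSectionVars false

namespace Pool.Agent.Lib.MP_9e71a3_gt

open Set Metric Filter Topology

/-- gap pairs of the boundary -/
def BC.gs {X : Type} (c : BC X) : Set (X × X) := gaps c.K c.π

/-- the pair of boundary points just before and just after the parameter `s` -/
noncomputable def BC.anchor {X : Type} (c : BC X) (s : ℝ) : X × X :=
  (c.π (lo c.K s), c.π (hi c.K s))

open Classical in
/-- extension of `α` by prescribed values at `0` and `1` -/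
noncomputable def ext01 {X : Type} (p q : X) (α : ℝ → X) : ℝ → X :=
  fun u => if u = 0 then p else if u = 1 then q else α u

/-- the periodicity part of a curve -/
structure BC.Per {X : Type} (c : BC X) : Prop where
  per_pos : 0 < c.per
  ne : c.K.Nonempty
  perK : ∀ u, u + c.per ∈ c.K ↔ u ∈ c.K
  perπ : ∀ u ∈ c.K, c.π (u + c.per) = c.π u

theorem scc_gap_unique {K : Set ℝ} {a b b' : ℝ} (h : Gap K a b) (h' : Gap K a b') : b = b' := by
  have h1 := h.2.2.2 b' h'.2.1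
  have h2 := h'.2.2.2 b h.2.1
  have := h.2.2.1
  have := h'.2.2.1
  rcases h1 with h1 | h1 <;> rcases h2 with h2 | h2 <;> linarith

namespace BC.Per
variable {X : Type} {c : BC X}

theorem mem_add_zsmul (h : c.Per) {u : ℝ} (n : ℤ) :
    (u + n * c.per ∈ c.K ↔ u ∈ c.K) ∧ (u ∈ c.K → c.π (u + n * c.per) = c.π u) := by
  induction n using Int.induction_on with
  | zero => simp
  | succ n ih =>
    have e : u + ((n : ℤ) + 1 : ℤ) * c.per = (u + (n : ℤ) * c.per) + c.per := by push_cast; ring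
    rw [e]
    exact ⟨(h.perK _).trans ih.1, fun hu => (h.perπ _ (ih.1.2 hu)).trans (ih.2 hu)⟩
  | pred n ih =>
    have e : u + (-(n : ℤ) : ℤ) * c.per = (u + (-(n : ℤ) - 1 : ℤ) * c.per) + c.per := by
      push_cast; ring
    rw [e] at ih
    have h1 := (h.perK _).symm.trans ih.1
    exact ⟨h1, fun hu => (h.perπ _ (h1.2 hu)).symm.trans (ih.2 hu)⟩

theorem sub_mem (h : c.Per) {u : ℝ} (hu : u ∈ c.K) : u - c.per ∈ c.K :=
  (h.perK _).1 (by simpa using hu)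

theorem add_mem (h : c.Per) {u : ℝ} (hu : u ∈ c.K) : u + c.per ∈ c.K := (h.perK _).2 hu

theorem π_sub (h : c.Per) {u : ℝ} (hu : u ∈ c.K) : c.π (u - c.per) = c.π u := by
  have := h.perπ _ (h.sub_mem hu)
  simpa using this.symm

theorem gap_add_zsmul (h : c.Per) {a b : ℝ} (n : ℤ) (hg : Gap c.K a b) :
    Gap c.K (a + n * c.per) (b + n * c.per) := by
  refine ⟨(h.mem_add_zsmul n).1.2 hg.1, (h.mem_add_zsmul n).1.2 hg.2.1, by linarith [hg.2.2.1],
    fun u hu => ?_⟩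
  have : u - n * c.per ∈ c.K := (h.mem_add_zsmul (u := u - n * c.per) n).1.1 (by simpa using hu)
  rcases hg.2.2.2 _ this with h1 | h1
  · left; linarith
  · right; linarith

theorem gap_le (h : c.Per) {a b : ℝ} (hg : Gap c.K a b) : b ≤ a + c.per := by
  rcases hg.2.2.2 _ (h.add_mem hg.1) with h1 | h1
  · linarith [h.per_pos]
  · exact h1

theorem exists_int (h : c.Per) (a u : ℝ) :
    ∃ n : ℤ, a ≤ u + n * c.per ∧ u + n * c.per < a + c.per := by
  obtain ⟨n, hn, -⟩ := existsUnique_add_zsmul_mem_Ico h.per_pos u a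
  exact ⟨n, by simpa using hn.1, by simpa using hn.2⟩

theorem exists_param (h : c.Per) (a : ℝ) {u : ℝ} (hu : u ∈ c.K) :
    ∃ v ∈ c.K, a ≤ v ∧ v < a + c.per ∧ c.π v = c.π u ∧ ∃ n : ℤ, v = u + n * c.per := by
  obtain ⟨n, h1, h2⟩ := h.exists_int a u
  exact ⟨_, (h.mem_add_zsmul n).1.2 hu, h1, h2, (h.mem_add_zsmul n).2 hu, n, rfl⟩

/-- every gap pair comes from a gap starting in a given half-open period -/
theorem exists_gap (h : c.Per) (a : ℝ) {d : X × X} (hd : d ∈ c.gs) :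
    ∃ u v, Gap c.K u v ∧ a ≤ u ∧ u < a + c.per ∧ d = (c.π u, c.π v) := by
  obtain ⟨u, v, hg, rfl⟩ := hd
  obtain ⟨n, h1, h2⟩ := h.exists_int a u
  exact ⟨_, _, h.gap_add_zsmul n hg, h1, h2, by
    rw [(h.mem_add_zsmul n).2 hg.1, (h.mem_add_zsmul n).2 hg.2.1]⟩

theorem exists_le (h : c.Per) (s : ℝ) : ∃ u ∈ c.K, u ≤ s := by
  obtain ⟨u, hu⟩ := h.ne
  obtain ⟨v, hv, -, h2, -⟩ := h.exists_param (s - c.per) hu
  exact ⟨v, hv, by linarith⟩

theorem exists_ge (h : c.Per) (s : ℝ) : ∃ u ∈ c.K, s ≤ u := by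
  obtain ⟨u, hu⟩ := h.ne
  obtain ⟨v, hv, h1, -⟩ := h.exists_param s hu
  exact ⟨v, hv, h1⟩

theorem img_eq (h : c.Per) (a : ℝ) : c.img = c.π '' (c.K ∩ Icc a (a + c.per)) := by
  refine Subset.antisymm ?_ (image_mono inter_subset_left)
  rintro _ ⟨u, hu, rfl⟩
  obtain ⟨v, hv, h1, h2, h3, -⟩ := h.exists_param a hu
  exact ⟨v, ⟨hv, h1, h2.le⟩, h3⟩

theorem gs_eq [TopologicalSpace X] (h : c.Per) {a : ℝ} (ha : a ∈ c.K) :
    c.gs = gaps (c.K ∩ Icc a (a + c.per)) c.π := by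
  refine Subset.antisymm (fun d hd => ?_) (gaps_inter_Icc_sub _ _)
  obtain ⟨u, v, hg, h1, h2, rfl⟩ := h.exists_gap a hd
  refine ⟨u, v, gap_inter_Icc.2 ⟨hg, h1, ?_⟩, rfl⟩
  rcases hg.2.2.2 _ (h.add_mem ha) with h3 | h3
  · linarith
  · exact h3

/-- a gap pair is a given gap or a gap of the complementary arc -/
theorem gs_cases (h : c.Per) {a b : ℝ} (hg : Gap c.K a b) {d : X × X} (hd : d ∈ c.gs) :
    d = (c.π a, c.π b) ∨ d ∈ gaps (c.K ∩ Icc b (a + c.per)) c.π := by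
  obtain ⟨u, v, hg', h1, h2, rfl⟩ := h.exists_gap a hd
  rcases hg.2.2.2 u hg'.1 with h3 | h3
  · obtain rfl : u = a := le_antisymm h3 h1
    rw [scc_gap_unique hg hg']
    exact Or.inl rfl
  · refine Or.inr ⟨u, v, gap_inter_Icc.2 ⟨hg', h3, ?_⟩, rfl⟩
    rcases hg'.2.2.2 _ (h.add_mem hg.1) with h4 | h4
    · linarith
    · exact h4

theorem lo_add (h : c.Per) (hK : IsClosed c.K) (s : ℝ) : lo c.K (s + c.per) = lo c.K s + c.per := by
  obtain ⟨h1, h2, h3⟩ := lo_spec hK (h.exists_le s)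
  obtain ⟨h4, h5, h6⟩ := lo_spec hK (h.exists_le (s + c.per))
  have := h6 _ (h.add_mem h1) (by linarith)
  have := h3 _ (h.sub_mem h4) (by linarith)
  linarith

theorem hi_add (h : c.Per) (hK : IsClosed c.K) (s : ℝ) : hi c.K (s + c.per) = hi c.K s + c.per := by
  obtain ⟨h1, h2, h3⟩ := hi_spec hK (h.exists_ge s)
  obtain ⟨h4, h5, h6⟩ := hi_spec hK (h.exists_ge (s + c.per))
  have := h6 _ (h.add_mem h1) (by linarith)
  have := h3 _ (h.sub_mem h4) (by linarith)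
  linarith

theorem anchor_add (h : c.Per) (hK : IsClosed c.K) (s : ℝ) :
    c.anchor (s + c.per) = c.anchor s := by
  rw [BC.anchor, BC.anchor, h.lo_add hK, h.hi_add hK, h.perπ _ (lo_spec hK (h.exists_le s)).1,
    h.perπ _ (hi_spec hK (h.exists_ge s)).1]

end BC.Per

namespace Str
variable {X : Type} [MetricSpace X] [CompactSpace X] {S : Str X} {L : Set (X × X)} {c : BC X}
  {y : X}

structure IsScc (S : Str X) (L : Set (X × X)) (c : BC X) : Prop where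
  per_pos : 0 < c.per
  closed : IsClosed c.K
  ne : c.K.Nonempty
  perK : ∀ u, u + c.per ∈ c.K ↔ u ∈ c.K
  perπ : ∀ u ∈ c.K, c.π (u + c.per) = c.π u
  cont : ContinuousOn c.π c.K
  inj : ∀ u ∈ c.K, ∀ v ∈ c.K, u ≤ v → v < u + c.per → c.π u = c.π v → u = v
  tame : S.Tame L c.gs
  nc : S.NC c.gs

/-- `val c x y = 1` means that the curve separates `x` from `y` -/
noncomputable def val (S : Str X) (c : BC X) (x y : X) : Z2 :=
  S.pv c.K c.π (Classical.epsilon (· ∈ c.K)) (Classical.epsilon (· ∈ c.K) + c.per) x y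

/-- a curve together with the side not containing `y` -/
structure Sided (S : Str X) (L : Set (X × X)) (y : X) (c : BC X) : Prop where
  lam : S.Lam L
  scc : S.IsScc L c
  out : y ∉ c.img
  In_eq : c.In = {x | x ∉ c.img ∧ S.val c x y = 1}

structure Cell (S : Str X) (L : Set (X × X)) (y : X) (c : BC X) : Prop extends S.Sided L y c where
  inv : ∀ e ∈ L, e.1 ∈ c.In → S.Free c.gs e.1 e.2

/-- the chord `(a,b)` lies in the same node as an interior germ -/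
def InsW (S : Str X) (c : BC X) (a b : X) : Prop :=
  ∃ w ∈ c.In, S.Chord w a ∧ S.Free c.gs w a ∧ S.Free c.gs w b

theorem IsScc.per (h : S.IsScc L c) : c.Per := ⟨h.per_pos, h.ne, h.perK, h.perπ⟩

theorem Free.symm {D : Set (X × X)} {a b : X} (h : S.Free D a b) : S.Free D b a :=
  fun d hd hc => h d hd hc.swapR

theorem IsScc.of_sub (h : S.IsScc L c) {L' : Set (X × X)} (hfin : (L \ L').Finite) :
    S.IsScc L' c := { h with tame := h.tame.of_sub hfin }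
theorem Sided.of_sub (h : S.Sided L y c) {L' : Set (X × X)} (hL' : S.Lam L')
    (hfin : (L \ L').Finite) : S.Sided L' y c := ⟨hL', h.scc.of_sub hfin, h.out, h.In_eq⟩
theorem Cell.of_sub (h : S.Cell L y c) {L' : Set (X × X)} (hL' : S.Lam L') (hsub : L' ⊆ L)
    (hfin : (L \ L').Finite) : S.Cell L' y c :=
  ⟨h.toSided.of_sub hL' hfin, fun e he => h.inv e (hsub he)⟩
theorem IsScc.trk (h : S.IsScc L c) : S.Trk L c.K c.π :=
  ⟨h.closed, h.cont, h.tame.mono fun _ hp => hp.1⟩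
theorem IsScc.mem_add_zsmul (h : S.IsScc L c) {u : ℝ} (n : ℤ) :
    (u + n * c.per ∈ c.K ↔ u ∈ c.K) ∧ (u ∈ c.K → c.π (u + n * c.per) = c.π u) :=
  h.per.mem_add_zsmul n
theorem IsScc.gap_add_zsmul (h : S.IsScc L c) {a b : ℝ} (n : ℤ) (hg : Gap c.K a b) :
    Gap c.K (a + n * c.per) (b + n * c.per) := h.per.gap_add_zsmul n hg
theorem IsScc.gap_le (h : S.IsScc L c) {a b : ℝ} (hg : Gap c.K a b) : b ≤ a + c.per :=
  h.per.gap_le hg
/-- every boundary point has a parameter in any half-open period -/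
theorem IsScc.exists_param (h : S.IsScc L c) (a : ℝ) {u : ℝ} (hu : u ∈ c.K) :
    ∃ v ∈ c.K, a ≤ v ∧ v < a + c.per ∧ c.π v = c.π u ∧ ∃ n : ℤ, v = u + n * c.per :=
  h.per.exists_param a hu
theorem IsScc.eq_of_eq (h : S.IsScc L c) {u v : ℝ} (hu : u ∈ c.K) (hv : v ∈ c.K)
    (huv : c.π u = c.π v) : ∃ n : ℤ, v = u + n * c.per := by
  obtain ⟨w, hw, h1, h2, h3, n, hn⟩ := h.exists_param u hv
  have := h.inj u hu w hw h1 h2 (huv.trans h3.symm)
  exact ⟨-n, by push_cast; linarith⟩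
theorem IsScc.exists_le (h : S.IsScc L c) (s : ℝ) : ∃ u ∈ c.K, u ≤ s := h.per.exists_le s
theorem IsScc.exists_ge (h : S.IsScc L c) (s : ℝ) : ∃ u ∈ c.K, s ≤ u := h.per.exists_ge s
theorem IsScc.compact_arc (h : S.IsScc L c) (s t : ℝ) : IsCompact (c.π '' (c.K ∩ Icc s t)) :=
  (isCompact_Icc.inter_left h.closed).image_of_continuousOn (h.cont.mono inter_subset_left)
theorem IsScc.img_compact (h : S.IsScc L c) : IsCompact c.img := by
  rw [h.per.img_eq 0]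
  exact h.compact_arc _ _
theorem IsScc.gs_mem (_h : S.IsScc L c) {d : X × X} (hd : d ∈ c.gs) :
    d.1 ∈ c.img ∧ d.2 ∈ c.img := by
  obtain ⟨u, v, hg, rfl⟩ := hd
  exact ⟨⟨u, hg.1, rfl⟩, ⟨v, hg.2.1, rfl⟩⟩
/-- injectivity for parameters at distance less than the period -/
theorem IsScc.inj' (h : S.IsScc L c) {u v : ℝ} (hu : u ∈ c.K) (hv : v ∈ c.K)
    (h1 : v < u + c.per) (h2 : u < v + c.per) (huv : c.π u = c.π v) : u = v := by
  rcases le_total u v with h3 | h3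
  · exact h.inj u hu v hv h3 h1 huv
  · exact (h.inj v hv u hu h3 h2 huv.symm).symm
theorem IsScc.arc (h : S.IsScc L c) {s t : ℝ} (hs : s ∈ c.K) (ht : t ∈ c.K) (hst : s ≤ t)
    (hlt : t < s + c.per) : IsArc c.gs (c.K ∩ Icc s t) c.π s t where
  compact := isCompact_Icc.inter_left h.closed
  left := ⟨hs, le_rfl, hst⟩
  right := ⟨ht, hst, le_rfl⟩
  sub := inter_subset_right
  cont := h.cont.mono inter_subset_left
  gap u v hg := Or.inr ⟨u, v, (gap_inter_Icc.1 hg).1, rfl⟩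
  inj u hu v hv huv := h.inj' hu.1 hv.1 (by linarith [hu.2.1, hv.2.2])
    (by linarith [hu.2.2, hv.2.1]) huv
/-- close boundary points have close parameters modulo the period -/
theorem IsScc.modulus (h : S.IsScc L c) {u : ℝ} (hu : u ∈ c.K) {ε : ℝ} (hε : 0 < ε) :
    ∃ ρ > 0, ∀ x ∈ c.img, dist x (c.π u) < ρ → ∃ v ∈ c.K, |v - u| < ε ∧ c.π v = x := by
  have hn : c.π u ∉ c.π '' (c.K ∩ Icc (u + ε) (u + c.per - ε / 2)) := by
    rintro ⟨v, ⟨hv, h1, h2⟩, h3⟩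
    have := h.inj u hu v hv (by linarith) (by linarith) h3.symm
    linarith
  obtain ⟨ρ, hρ, hb⟩ := Metric.isOpen_iff.1 (h.compact_arc _ _).isClosed.isOpen_compl _ hn
  refine ⟨ρ, hρ, ?_⟩
  rintro _ ⟨w, hw, rfl⟩ hd
  obtain ⟨v, hv, h1, h2, h3, -⟩ := h.exists_param (u - ε / 2) hw
  refine ⟨v, hv, ?_, h3⟩
  by_contra hc
  have h4 : u + ε ≤ v := by
    by_contra h5
    exact hc (abs_lt.2 ⟨by linarith, by linarith⟩)
  exact hb hd ⟨v, ⟨hv, h4, by linarith⟩, h3⟩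
theorem IsScc.anchor_spec (h : S.IsScc L c) (s : ℝ) :
    (s ∈ c.K ∧ c.anchor s = (c.π s, c.π s)) ∨
      (s ∉ c.K ∧ Gap c.K (lo c.K s) (hi c.K s) ∧ c.anchor s ∈ c.gs) := by
  by_cases hs : s ∈ c.K
  · exact Or.inl ⟨hs, by rw [BC.anchor, lo_of_mem hs, hi_of_mem hs]⟩
  · have hg := gap_lo_hi h.closed (h.exists_le s) (h.exists_ge s) hs
    exact Or.inr ⟨hs, hg, _, _, hg, rfl⟩

theorem scc_not_mem {x : X} (hx : x ∉ c.img) (A : Set ℝ) : x ∉ c.π '' (c.K ∩ A) :=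
  fun h => hx (image_mono inter_subset_left h)

theorem IsScc.pv_shift (hL : S.Lam L) (h : S.IsScc L c) {s t : ℝ} (hs : s ∈ c.K) (ht : t ∈ c.K)
    (hst : s ≤ t) (n : ℤ) {x z : X} (hx : x ∉ c.img) (hz : z ∉ c.img) :
    S.pv c.K c.π (s + n * c.per) (t + n * c.per) x z = S.pv c.K c.π s t x z := by
  refine pv_congr hL h.trk h.trk hs ht hst (φ := fun u => u + n * c.per)
    (fun u _ v _ huv => by simpa using huv) ?_ rfl rfl
    (fun u hu => (h.mem_add_zsmul n).2 hu.1) (scc_not_mem hx _) (scc_not_mem hz _)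
  ext v
  constructor
  · rintro ⟨u, ⟨hu, h1, h2⟩, rfl⟩
    exact ⟨(h.mem_add_zsmul n).1.2 hu, by simpa using h1, by simpa using h2⟩
  · rintro ⟨hv, h1, h2⟩
    exact ⟨v - n * c.per, ⟨(h.mem_add_zsmul n).1.1 (by simpa using hv), by linarith,
      by linarith⟩, by simp⟩

theorem IsScc.pv_add' (hL : S.Lam L) (h : S.IsScc L c) {s t u : ℝ} (hs : s ∈ c.K) (ht : t ∈ c.K)
    (hu : u ∈ c.K) (hst : s ≤ t) (htu : t ≤ u) {x z : X} (hx : x ∉ c.img) (hz : z ∉ c.img) :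
    S.pv c.K c.π s u x z = S.pv c.K c.π s t x z + S.pv c.K c.π t u x z :=
  pv_add hL h.trk hs ht hu hst htu (scc_not_mem hx _) (scc_not_mem hz _)

theorem IsScc.pv_nothing (hL : S.Lam L) (h : S.IsScc L c) {s t : ℝ} (hs : s ∈ c.K)
    (ht : t ∈ c.K) (hst : s ≤ t) (hno : ∀ u ∈ c.K, u ≤ s ∨ t ≤ u) {x z : X} (hx : x ∉ c.img)
    (hz : z ∉ c.img) : S.pv c.K c.π s t x z = 0 :=
  pv_nothing_between hL h.trk hs ht hst hno
    ⟨fun e => hx ⟨s, hs, e.symm⟩, fun e => hx ⟨t, ht, e.symm⟩⟩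
    ⟨fun e => hz ⟨s, hs, e.symm⟩, fun e => hz ⟨t, ht, e.symm⟩⟩

theorem IsScc.eps_mem (h : S.IsScc L c) : Classical.epsilon (· ∈ c.K) ∈ c.K :=
  Classical.epsilon_spec (p := (· ∈ c.K)) h.ne

theorem IsScc.val_eq (hL : S.Lam L) (h : S.IsScc L c) {s : ℝ} (hs : s ∈ c.K) {x z : X}
    (hx : x ∉ c.img) (hz : z ∉ c.img) : S.val c x z = S.pv c.K c.π s (s + c.per) x z := by
  have he := h.eps_mem
  rw [val]
  generalize Classical.epsilon (· ∈ c.K) = e at he ⊢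
  obtain ⟨v, hv, h1, h2, -, n, rfl⟩ := h.exists_param e hs
  have hp := h.per_pos
  have e1 := h.pv_shift hL hs (h.per.add_mem hs) (by linarith) n hx hz
  have e2 := h.pv_shift hL he hv h1 1 hx hz
  simp only [Int.cast_one, one_mul] at e2
  rw [← e1, h.pv_add' hL he hv (h.per.add_mem he) h1 h2.le hx hz,
    show s + c.per + n * c.per = s + n * c.per + c.per by ring,
    h.pv_add' hL hv (h.per.add_mem he) (h.per.add_mem hv) h2.le (by linarith) hx hz, e2, add_comm]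
theorem IsScc.val_cocycle (hL : S.Lam L) (h : S.IsScc L c) {x z w : X} (hx : x ∉ c.img)
    (hz : z ∉ c.img) (hw : w ∉ c.img) : S.val c x w = S.val c x z + S.val c z w :=
  pv_cocycle hL h.trk h.eps_mem (h.per.add_mem h.eps_mem) (by linarith [h.per_pos])
    (scc_not_mem hx _) (scc_not_mem hz _) (scc_not_mem hw _)
theorem IsScc.val_same (hL : S.Lam L) (h : S.IsScc L c) (x : X) : S.val c x x = 0 :=
  pv_same hL h.trk h.eps_mem (h.per.add_mem h.eps_mem) (by linarith [h.per_pos]) x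
theorem val_comm (c : BC X) (x z : X) : S.val c x z = S.val c z x := pv_comm _ _ _ _
theorem IsScc.val_loc (hL : S.Lam L) (h : S.IsScc L c) {x z : X} (hx : x ∉ c.img)
    (hz : z ∉ c.img) : ∀ᶠ x' in 𝓝 x, S.val c x' z = S.val c x z := by
  have := pv_loc hL h.trk h.eps_mem (h.per.add_mem h.eps_mem) (by linarith [h.per_pos])
    (h.perπ _ h.eps_mem).symm (scc_not_mem hz _) (scc_not_mem hx _)
  filter_upwards [this] with x' hx'
  rw [val_comm c x', val_comm c x]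
  exact hx'
theorem IsScc.val_free (hL : S.Lam L) (h : S.IsScc L c) {g g' : X} (hg : g ∉ c.img)
    (hg' : g' ∉ c.img) (hch : S.Chord g g') (hf : S.Free c.gs g g') : S.val c g g' = 0 :=
  pv_free hL h.trk h.eps_mem (h.per.add_mem h.eps_mem) (by linarith [h.per_pos])
    (h.perπ _ h.eps_mem).symm (scc_not_mem hg _) (scc_not_mem hg' _) hch
    fun a b hab _ _ => hf (c.π a, c.π b) ⟨a, b, hab, rfl⟩
theorem IsScc.val_one (hL : S.Lam L) (h : S.IsScc L c) {g g' : X} (hg : g ∉ c.img)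
    (hg' : g' ∉ c.img) {d : X × X} (hd : d ∈ c.gs) (hc : S.Cross d.1 d.2 g g')
    (huniq : ∀ e ∈ c.gs, S.Cross e.1 e.2 g g' → e = d ∨ e = d.swap)
    (hthree : ∃ x ∈ c.img, x ≠ d.1 ∧ x ≠ d.2) : S.val c g g' = 1 := by
  obtain ⟨a, b, hab, rfl⟩ := hd
  have hp := h.per_pos
  rw [h.val_eq hL hab.1 hg hg']
  refine pv_one hL h.trk hab.1 (h.per.add_mem hab.1) (by linarith) (h.perπ _ hab.1).symm
    (scc_not_mem hg _) (scc_not_mem hg' _) hab le_rfl (h.gap_le hab) hc ?_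
  intro a' b' hab' h1 h2 hc'
  have h3 := hab'.2.2.1
  rcases huniq (c.π a', c.π b') ⟨a', b', hab', rfl⟩ hc' with e | e
  · exact (h.inj a hab.1 a' hab'.1 h1 (by linarith) (congrArg Prod.fst e).symm).symm
  · exfalso
    have e1 : c.π a' = c.π b := congrArg Prod.fst e
    have e2 : c.π b' = c.π a := congrArg Prod.snd e
    have h4 : b' = a + c.per := by
      by_contra h5
      have := h.inj a hab.1 b' hab'.2.1 (by linarith) (lt_of_le_of_ne h2 h5) e2.symm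
      linarith
    have h5 := h.gap_le hab
    have h6 : a' = b := h.inj' hab'.1 hab.2.1 (by
      rcases h5.eq_or_lt with h7 | h7
      · exact absurd (by rw [h7, h.perπ _ hab.1]) hc.ne12
      · linarith) (by linarith [hab.2.2.1]) e1
    obtain ⟨_, ⟨u, hu, rfl⟩, hx1, hx2⟩ := hthree
    obtain ⟨v, hv, h7, h8, h9, -⟩ := h.exists_param a hu
    rcases hab.2.2.2 v hv with h10 | h10
    · exact hx1 (by rw [← h9, le_antisymm h10 h7])
    · rcases hab'.2.2.2 v hv with h11 | h11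
      · exact hx2 (by rw [← h9, le_antisymm (h6 ▸ h11) h10])
      · linarith

theorem Sided.mem_In (h : S.Sided L y c) {x : X} : x ∈ c.In ↔ x ∉ c.img ∧ S.val c x y = 1 := by
  rw [h.In_eq]; rfl
theorem Sided.not_mem_P (h : S.Sided L y c) {x : X} :
    x ∉ c.P ↔ x ∉ c.img ∧ S.val c x y = 0 := by
  rw [BC.P, mem_union, h.mem_In]
  rcases z2_cases (S.val c x y) with e | e <;> simp [e]
theorem Sided.isOpen_In (h : S.Sided L y c) : IsOpen c.In := by
  refine isOpen_iff_mem_nhds.2 fun x hx => ?_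
  obtain ⟨h1, h2⟩ := h.mem_In.1 hx
  filter_upwards [h.scc.val_loc h.lam h1 h.out,
    h.scc.img_compact.isClosed.isOpen_compl.mem_nhds h1] with z h3 h4
  exact h.mem_In.2 ⟨h4, h3.trans h2⟩
theorem Sided.wf (h : S.Sided L y c) : c.WF where
  per_pos := h.scc.per_pos
  closed := h.scc.closed
  ne := h.scc.ne
  perK := h.scc.perK
  perπ := h.scc.perπ
  cont := h.scc.cont
  inj := h.scc.inj
  disj := disjoint_left.2 fun _ hx => (h.mem_In.1 hx).1
  closedP := by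
    refine isOpen_compl_iff.1 (isOpen_iff_mem_nhds.2 fun x hx => ?_)
    obtain ⟨h1, h2⟩ := h.not_mem_P.1 hx
    filter_upwards [h.scc.val_loc h.lam h1 h.out,
      h.scc.img_compact.isClosed.isOpen_compl.mem_nhds h1] with z h3 h4
    exact h.not_mem_P.2 ⟨h4, h3.trans h2⟩
theorem Sided.out_P (h : S.Sided L y c) : y ∉ c.P :=
  h.not_mem_P.2 ⟨h.out, h.scc.val_same h.lam y⟩
/-- a curve with an interior point has at least three points -/
theorem Sided.three (h : S.Sided L y c) (hne : c.In.Nonempty) (a b : X) :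
    ∃ x ∈ c.img, x ≠ a ∧ x ≠ b := by
  by_contra hcon
  have hab : ∀ u ∈ c.K, c.π u = a ∨ c.π u = b := fun u hu => by
    by_contra h1
    exact hcon ⟨_, ⟨u, hu, rfl⟩, fun e => h1 (Or.inl e), fun e => h1 (Or.inr e)⟩
  obtain ⟨x, hx⟩ := hne
  obtain ⟨h1, h2⟩ := h.mem_In.1 hx
  obtain ⟨s, hs⟩ := h.scc.ne
  have hp := h.scc.per_pos
  have hs' := h.scc.per.add_mem hs
  rw [h.scc.val_eq h.lam hs h1 h.out] at h2
  by_cases ht : ∃ t ∈ c.K, s < t ∧ t < s + c.per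
  · obtain ⟨t, ht, h3, h4⟩ := ht
    have key : ∀ u ∈ c.K, s < u → u < s + c.per → u = t := fun u hu h5 h6 => by
      refine h.scc.inj' hu ht (by linarith) (by linarith) ?_
      have n1 : c.π s ≠ c.π u := fun e => by
        have := h.scc.inj s hs u hu h5.le h6 e; linarith
      have n2 : c.π s ≠ c.π t := fun e => by
        have := h.scc.inj s hs t ht h3.le h4 e; linarith
      rcases hab s hs with e1 | e1 <;> rcases hab u hu with e2 | e2 <;>
        rcases hab t ht with e3 | e3 <;> simp_all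
    rw [h.scc.pv_add' h.lam hs ht hs' h3.le h4.le h1 h.out,
      h.scc.pv_nothing h.lam hs ht h3.le (fun u hu => by
        by_contra h5
        push Not at h5
        have := key u hu h5.1 (by linarith [h5.2])
        linarith [h5.2]) h1 h.out,
      h.scc.pv_nothing h.lam ht hs' h4.le (fun u hu => by
        by_contra h5
        push Not at h5
        have := key u hu (by linarith [h5.1]) h5.2
        linarith [h5.1]) h1 h.out] at h2
    simp at h2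
  · rw [h.scc.pv_nothing h.lam hs hs' (by linarith) (fun u hu => by
      by_contra h5
      push Not at h5
      exact ht ⟨u, hu, h5⟩) h1 h.out] at h2
    simp at h2
/-- chords that cross no gap stay on one side -/
theorem Sided.mem_P_of_free (h : S.Sided L y c) {g g' : X} (hg : g ∈ c.In) (hch : S.Chord g g')
    (hf : S.Free c.gs g g') : g' ∈ c.P := by
  by_contra hn
  obtain ⟨h1, h2⟩ := h.mem_In.1 hg
  obtain ⟨h3, h4⟩ := h.not_mem_P.1 hn
  rw [h.scc.val_cocycle h.lam h1 h3 h.out, h.scc.val_free h.lam h1 h3 hch hf, h4] at h2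
  simp at h2
/-- two interior germs are not separated by exactly one gap -/
theorem Sided.not_cross_adj (h : S.Sided L y c) {g w : X} (hg : g ∈ c.In) (hw : w ∈ c.In)
    {d : X × X} (hd : d ∈ c.gs) (hg1 : S.Free c.gs g d.1) (hg2 : S.Free c.gs g d.2)
    (hw1 : S.Free c.gs w d.1) (hw2 : S.Free c.gs w d.2) : ¬ S.Cross d.1 d.2 g w := by
  intro hc
  obtain ⟨h1, h2⟩ := h.mem_In.1 hg
  obtain ⟨h3, h4⟩ := h.mem_In.1 hw
  have h5 := h.scc.val_one h.lam h1 h3 hd hc (fun e he hce => by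
    have e1 := hce.eq_end S.good (hc.chord13 S.good) (hg1.symm e he) (hw1.symm e he)
    have e2 := hce.eq_end S.good (hc.swapL.chord13 S.good) (hg2.symm e he) (hw2.symm e he)
    have hne := hc.ne12
    obtain ⟨d1, d2⟩ := d
    obtain ⟨e1', e2'⟩ := e
    simp only [Prod.mk.injEq, Prod.swap_prod_mk] at e1 e2 hne ⊢
    rcases e1 with rfl | rfl <;> rcases e2 with rfl | rfl <;> simp_all)
    (h.three ⟨g, hg⟩ _ _)
  rw [h.scc.val_cocycle h.lam h1 h.out h3, h2, val_comm c y w, h4] at h5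
  exact absurd h5 (by decide)
/-- every nontrivial gap has an adjacent interior germ -/
theorem Sided.adj_gap (h : S.Sided L y c) (hne : c.In.Nonempty) {d : X × X} (hd : d ∈ c.gs) :
    S.InsW c d.1 d.2 := by
  obtain ⟨a, b, hab, rfl⟩ := hd
  have hd : (c.π a, c.π b) ∈ c.gs := ⟨a, b, hab, rfl⟩
  have hs := h.scc
  have harc := hs.arc hab.2.1 (hs.per.add_mem hab.1) (hs.gap_le hab) (by linarith [hab.2.2.1])
  have hY : c.π '' (c.K ∩ Icc b (a + c.per)) = c.img := by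
    refine Subset.antisymm (image_mono inter_subset_left) ?_
    rintro _ ⟨u, hu, rfl⟩
    obtain ⟨v, hv, h1, h2, h3, -⟩ := hs.exists_param a hu
    rcases hab.2.2.2 v hv with h4 | h4
    · refine ⟨a + c.per, ⟨hs.per.add_mem hab.1, hs.gap_le hab, le_rfl⟩, ?_⟩
      rw [hs.perπ _ hab.1, ← h3, le_antisymm h4 h1]
    · exact ⟨v, ⟨hv, h4, h2.le⟩, h3⟩
  have hP := pot_arc h.lam hs.tame harc
  rw [hY] at hP
  have hDs : gaps (c.K ∩ Icc b (a + c.per)) c.π ⊆ c.gs := gaps_inter_Icc_sub _ _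
  have key : ∀ g g', S.Chord g g' → g ∈ c.In → g' ∉ c.P →
      S.Free (gaps (c.K ∩ Icc b (a + c.per)) c.π) g g' → S.InsW c (c.π a) (c.π b) := by
    intro g g' hch hg hg' hf
    have hc : S.Cross (c.π a) (c.π b) g g' := by
      by_contra hn
      refine hg' (h.mem_P_of_free hg hch fun e he => ?_)
      rcases hs.per.gs_cases hab he with rfl | he
      · exact hn
      · exact hf e he
    refine ⟨g, hg, (hc.chord13 S.good).symm, fun e he => ?_, fun e he => ?_⟩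
    · rcases hs.per.gs_cases hab he with rfl | he'
      · exact fun h1 => h1.ne14 rfl
      · exact hc.symm.recomb S.good (hf e he') (hs.nc e he _ hd)
    · rcases hs.per.gs_cases hab he with rfl | he'
      · exact fun h1 => h1.ne24 rfl
      · exact hc.symm.swapR.recomb S.good (hf e he') fun h1 => hs.nc e he _ hd h1.swapR
  by_contra hcon
  obtain ⟨x, hx⟩ := hne
  have := ns h.lam hs.img_compact.isClosed (hs.tame.mono hDs)
    (fun e he f hf => hs.nc e (hDs he) f (hDs hf)) (fun e he => hs.gs_mem (hDs he)) hP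
    (fun z => S.val c z y) (fun z hz => hs.val_loc h.lam hz h.out) (fun g g' hch hg hg' hf => by
      rcases z2_cases (S.val c g y) with e1 | e1 <;> rcases z2_cases (S.val c g' y) with e2 | e2
      · exact e1.trans e2.symm
      · exact absurd (key g' g hch.symm (h.mem_In.2 ⟨hg', e2⟩) (h.not_mem_P.2 ⟨hg, e1⟩) hf.symm)
          hcon
      · exact absurd (key g g' hch (h.mem_In.2 ⟨hg, e1⟩) (h.not_mem_P.2 ⟨hg', e2⟩) hf) hcon
      · exact e1.trans e2.symm) x (h.mem_In.1 hx).1 y h.out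
  simp only [(h.mem_In.1 hx).2, hs.val_same h.lam y] at this
  exact absurd this (by decide)
theorem IsScc.exists_sided (hL : S.Lam L) (h : S.IsScc L c) (hy : y ∉ c.img) :
    ∃ c' : BC X, c'.per = c.per ∧ c'.K = c.K ∧ c'.π = c.π ∧ S.Sided L y c' :=
  ⟨{ c with In := {x | x ∉ c.img ∧ S.val c x y = 1} }, rfl, rfl, rfl, hL,
    ⟨h.per_pos, h.closed, h.ne, h.perK, h.perπ, h.cont, h.inj, h.tame, h.nc⟩, hy, rfl⟩

end Str

end Pool.Agent.Lib.MP_9e71a3_gt
end
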