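import Pool.Agent.Lib.MP_9e71a3_gt.Chain

-- part Pool.Agent.Lib.MP_9e71a3_gt.SetupA
section

/-! The embedded cone, radii and levels, projection of chains to the cone.  JOB Setup. -/

set_option autoImplicit false
set_option linter.unusedSectionVars false

namespace Pool.Agent.Lib.MP_9e71a3_gt

open Set Metric Filter Topology

/-- an embedded cone with apex `0`, with a system of radii and levels -/
structure Cone (X : Type) [MetricSpace X] where
  e : X → ℝ → E3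
  ρ : ℕ → ℝ
  τ : ℕ → ℝ
  J : X → Ch E3
  Pinf : E3
  cont : Continuous fun p : X × ℝ => e p.1 p.2
  inj : ∀ x y, ∀ s ∈ Icc (0:ℝ) 1, ∀ t ∈ Icc (0:ℝ) 1, s < 1 → e x s = e y t → x = y ∧ s = t
  apex : ∀ x, e x 1 = 0
  ρ_pos : ∀ i, 0 < ρ i
  τ_zero : τ 0 = 0
  τ_lt : ∀ i, τ i < τ (i + 1)
  τ_lt_one : ∀ i, τ i < 1
  big : ∀ i x, ∀ s ∈ Icc 0 (τ i), 10 * ρ (i + 1) < ‖e x s‖
  little : ∀ i x, ∀ s ∈ Icc (τ (i + 1)) 1, ‖e x s‖ < ρ (i + 1) / 10
  bd_J : ∀ x, bd (J x) = two (e x 0) Pinf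
  J_out : ∀ x, All (fun p q => 5 * ρ 1 + dist p q < ‖p‖) (J x)
  Pinf_out : 5 * ρ 1 < ‖Pinf‖

theorem setup_two_comm {A : Type} (a b : A) : two a b = two b a := add_comm _ _

theorem setup_two_add {A : Type} (a b c : A) : two a b + two b c = two a c := by
  unfold two
  rw [add_assoc, ← add_assoc (Finsupp.single b 1), fs_add_self, zero_add]

theorem setup_two_self {A : Type} (a : A) : two a a = 0 := fs_add_self _

theorem setup_map_two {A B : Type} (f : A → B) (a b : A) :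
    Finsupp.mapDomain f (two a b) = two (f a) (f b) := by
  simp [two, Finsupp.mapDomain_add, Finsupp.mapDomain_single]

theorem setup_bd_map {A B : Type} (f : A → B) (c : Ch A) :
    bd (Finsupp.mapDomain (fun l : A × A => (f l.1, f l.2)) c) = Finsupp.mapDomain f (bd c) := by
  induction c using Finsupp.induction_linear with
  | zero => simp
  | add c c' h h' => rw [Finsupp.mapDomain_add, map_add, map_add, Finsupp.mapDomain_add, h, h']
  | single l a =>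
    rw [Finsupp.mapDomain_single, bd_single, bd_single, Finsupp.mapDomain_add,
      Finsupp.mapDomain_single, Finsupp.mapDomain_single]

theorem setup_all_map {A B : Type} (f : A → B) {c : Ch A} {Q : B → B → Prop}
    (h : All (fun x y => Q (f x) (f y)) c) :
    All Q (Finsupp.mapDomain (fun l : A × A => (f l.1, f l.2)) c) := by
  classical
  intro l hl
  obtain ⟨l', hl', rfl⟩ := Finset.mem_image.mp (Finsupp.mapDomain_support hl)
  exact h l' hl'

theorem setup_uc {X : Type} [MetricSpace X] [CompactSpace X] {e : X → ℝ → E3}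
    (he : Continuous fun p : X × ℝ => e p.1 p.2) {ε : ℝ} (hε : 0 < ε) :
    ∃ δ > 0, ∀ x y, ∀ s ∈ Icc (0:ℝ) 1, ∀ t ∈ Icc (0:ℝ) 1,
      dist x y ≤ δ → |s - t| ≤ δ → dist (e x s) (e y t) < ε := by
  have hc : IsCompact ((univ : Set X) ×ˢ Icc (0:ℝ) 1) := isCompact_univ.prod isCompact_Icc
  obtain ⟨δ, hδ, h⟩ := Metric.uniformContinuousOn_iff.mp
    (hc.uniformContinuousOn_of_continuous he.continuousOn) ε hε
  refine ⟨δ / 2, half_pos hδ, fun x y s hs t ht h1 h2 => ?_⟩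
  refine h (x, s) ⟨mem_univ _, hs⟩ (y, t) ⟨mem_univ _, ht⟩ ?_
  rw [Prod.dist_eq, max_lt_iff, Real.dist_eq]
  exact ⟨by simp only; linarith, by simp only; linarith⟩

/-- push a chain of `E3` to `X` along a choice of base points -/
noncomputable def prj {X : Type} (xp : E3 → X) : Ch E3 →+ Ch X :=
  Finsupp.mapDomain.addMonoidHom (Prod.map xp xp)

namespace Cone
variable {X : Type} [MetricSpace X] (K : Cone X)

/-- the cone -/
def C : Set E3 := {p | ∃ x, ∃ s ∈ Icc (0:ℝ) 1, p = K.e x s}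
/-- the open `ε`-neighbourhood of the cone line over `x` -/
def tube (ε : ℝ) (x : X) : Set E3 := {p | ∃ s ∈ Icc (0:ℝ) 1, dist p (K.e x s) < ε}
/-- points at distance `> μ` from the cone -/
def clean (μ : ℝ) : Set E3 := {p | ∀ x, ∀ s ∈ Icc (0:ℝ) 1, μ < dist p (K.e x s)}
/-- clean links -/
def Cl (μ : ℝ) (p q : E3) : Prop := ∀ x, ∀ s ∈ Icc (0:ℝ) 1, μ + dist p q < dist p (K.e x s)
def W : Set E3 := {p | K.ρ 12 < ‖p‖ ∧ ‖p‖ < K.ρ 6}
def Wv : Set E3 := {p | K.ρ 16 < ‖p‖ ∧ ‖p‖ < K.ρ 2}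
def Wb : Set E3 := {p | K.ρ 16 / 2 < ‖p‖ ∧ ‖p‖ < 2 * K.ρ 2}
/-- the faces on which the equations of walls hold -/
def W1 : Set E3 := {p | K.ρ 14 / 2 ≤ ‖p‖ ∧ ‖p‖ ≤ 2 * K.ρ 4}
/-- the edges on which the supports of walls are controlled -/
def W2 : Set E3 := {p | K.ρ 14 / 3 ≤ ‖p‖ ∧ ‖p‖ ≤ 3 * K.ρ 4}
/-- the edges on which potentials exist -/
def W0 : Set E3 := {p | 2 * K.ρ 14 / 3 ≤ ‖p‖ ∧ ‖p‖ ≤ 3 * K.ρ 4 / 2}
/-- closed shells slightly larger than `W` -/
def S1 : Set E3 := {p | K.ρ 12 / 2 ≤ ‖p‖ ∧ ‖p‖ ≤ 2 * K.ρ 6}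
def S2 : Set E3 := {p | K.ρ 12 / 3 ≤ ‖p‖ ∧ ‖p‖ ≤ 3 * K.ρ 6}
/-- balls of radius `r` centred on the cone over `U` between the levels `a` and `b` -/
def Bl (U : Set X) (a b r : ℝ) : Set (E3 × ℝ) := {B | ∃ x ∈ U, ∃ s ∈ Icc a b, B = (K.e x s, r)}
/-- `p` is `η`-close to the cone over `U` between the levels `a` and `b` -/
def Near (U : Set X) (a b η : ℝ) (p : E3) : Prop := ∃ x ∈ U, ∃ s ∈ Icc a b, dist p (K.e x s) ≤ η
/-- discretised cone line over `x` between two levels -/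
noncomputable def V (n : ℕ) (x : X) (a b : ℝ) : Ch E3 := cC (K.e x) (n + 1) a b
/-- the full cone line, from the point at infinity to the apex -/
noncomputable def Vf (n : ℕ) (x : X) : Ch E3 := K.V n x 0 1 + K.J x
/-- a chain of `X` placed at level `t` -/
noncomputable def lev (t : ℝ) : Ch X →+ Ch E3 :=
  Finsupp.mapDomain.addMonoidHom fun l => (K.e l.1 t, K.e l.2 t)

variable [CompactSpace X] [ConnectedSpace X]

theorem cont_e (x : X) : Continuous (K.e x) :=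
  K.cont.comp (continuous_const.prodMk continuous_id)
theorem τ_mono {i j : ℕ} (hij : i < j) : K.τ i < K.τ j :=
  strictMono_nat_of_lt_succ K.τ_lt hij
theorem τ_nonneg (i : ℕ) : 0 ≤ K.τ i := by
  rcases Nat.eq_zero_or_pos i with h | h
  · rw [h, K.τ_zero]
  · have := K.τ_mono h
    rw [K.τ_zero] at this
    exact this.le
theorem ρ_succ (i : ℕ) : 100 * K.ρ (i + 2) < K.ρ (i + 1) := by
  obtain ⟨x⟩ : Nonempty X := inferInstance
  have h1 := K.big (i + 1) x (K.τ (i + 1)) ⟨K.τ_nonneg _, le_rfl⟩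
  have h2 := K.little i x (K.τ (i + 1)) ⟨le_rfl, (K.τ_lt_one _).le⟩
  linarith
theorem ρ_anti {i j : ℕ} (hi : 1 ≤ i) (hij : i < j) : 100 * K.ρ j < K.ρ i := by
  induction j, hij using Nat.le_induction with
  | base =>
    obtain ⟨k, rfl⟩ : ∃ k, i = k + 1 := ⟨i - 1, by omega⟩
    exact K.ρ_succ k
  | succ j hj ih =>
    obtain ⟨k, rfl⟩ : ∃ k, j = k + 1 := ⟨j - 1, by omega⟩
    have h1 := K.ρ_succ k
    have h2 := K.ρ_pos (k + 1)
    have h3 := K.ρ_pos (k + 2)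
    linarith
theorem lev_gt {i : ℕ} {x : X} {s : ℝ} (hs : s ∈ Icc (0:ℝ) 1) (h : ‖K.e x s‖ ≤ 10 * K.ρ (i + 1)) :
    K.τ i < s := by
  by_contra hc
  have := K.big i x s ⟨hs.1, not_lt.mp hc⟩
  linarith
theorem lev_lt {i : ℕ} {x : X} {s : ℝ} (hs : s ∈ Icc (0:ℝ) 1) (h : K.ρ (i + 1) / 10 ≤ ‖K.e x s‖) :
    s < K.τ (i + 1) := by
  by_contra hc
  have := K.little i x s ⟨not_lt.mp hc, hs.2⟩
  linarith
theorem isCompact_C : IsCompact K.C := by
  have : K.C = (fun p : X × ℝ => K.e p.1 p.2) '' (univ ×ˢ Icc (0:ℝ) 1) := by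
    ext p
    constructor
    · rintro ⟨x, s, hs, rfl⟩
      exact ⟨(x, s), ⟨mem_univ _, hs⟩, rfl⟩
    · rintro ⟨⟨x, s⟩, ⟨-, hs⟩, rfl⟩
      exact ⟨x, s, hs, rfl⟩
  rw [this]
  exact (isCompact_univ.prod isCompact_Icc).image K.cont
theorem setup_C_nonempty : K.C.Nonempty := by
  obtain ⟨x⟩ : Nonempty X := inferInstance
  exact ⟨_, x, 0, ⟨le_rfl, zero_le_one⟩, rfl⟩
theorem setup_mem_clean {μ : ℝ} {p : E3} : p ∈ K.clean μ ↔ μ < infDist p K.C := by
  constructor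
  · intro h
    obtain ⟨q, ⟨x, s, hs, rfl⟩, hq⟩ := K.isCompact_C.exists_infDist_eq_dist K.setup_C_nonempty p
    rw [hq]
    exact h x s hs
  · intro h x s hs
    exact h.trans_le (infDist_le_dist_of_mem ⟨x, s, hs, rfl⟩)
theorem isOpen_clean (μ : ℝ) : IsOpen (K.clean μ) := by
  have : K.clean μ = {p | μ < infDist p K.C} := by
    ext p
    exact K.setup_mem_clean
  rw [this]
  exact isOpen_lt continuous_const (continuous_infDist_pt _)
theorem isOpen_tube (ε : ℝ) (x : X) : IsOpen (K.tube ε x) := by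
  have : K.tube ε x = ⋃ s ∈ Icc (0:ℝ) 1, ball (K.e x s) ε := by
    ext p
    simp only [tube, mem_ofPred_eq, mem_iUnion, mem_ball, exists_prop]
  rw [this]
  exact isOpen_biUnion fun _ _ => isOpen_ball
theorem isOpen_W : IsOpen K.W :=
  (isOpen_lt continuous_const continuous_norm).inter (isOpen_lt continuous_norm continuous_const)
theorem isOpen_Wv : IsOpen K.Wv :=
  (isOpen_lt continuous_const continuous_norm).inter (isOpen_lt continuous_norm continuous_const)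
theorem isOpen_Wb : IsOpen K.Wb :=
  (isOpen_lt continuous_const continuous_norm).inter (isOpen_lt continuous_norm continuous_const)
theorem W_sub_Wv : K.W ⊆ K.Wv := by
  rintro p ⟨h1, h2⟩
  have h3 := K.ρ_anti (i := 12) (j := 16) (by norm_num) (by norm_num)
  have h4 := K.ρ_anti (i := 2) (j := 6) (by norm_num) (by norm_num)
  have h5 := K.ρ_pos 16
  have h6 := K.ρ_pos 6
  exact ⟨by linarith, by linarith⟩
theorem Wv_sub_Wb : K.Wv ⊆ K.Wb := by
  rintro p ⟨h1, h2⟩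
  have h5 := K.ρ_pos 16
  have h6 := K.ρ_pos 2
  exact ⟨by linarith, by linarith⟩
theorem clean_not_mem {μ : ℝ} (hμ : 0 ≤ μ) {p : E3} (hp : p ∈ K.clean μ) : p ∉ K.C := by
  rintro ⟨x, s, hs, rfl⟩
  have := hp x s hs
  rw [dist_self] at this
  linarith
theorem exists_clean {A : Set E3} (hA : IsCompact A) (h : Disjoint A K.C) :
    ∃ μ > 0, A ⊆ K.clean μ := by
  rcases A.eq_empty_or_nonempty with rfl | hne
  · exact ⟨1, one_pos, empty_subset _⟩
  obtain ⟨p, hp, hmin⟩ := hA.exists_isMinOn hne (continuous_infDist_pt K.C).continuousOn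
  have hpos : 0 < infDist p K.C :=
    (K.isCompact_C.isClosed.notMem_iff_infDist_pos K.setup_C_nonempty).mp
      (fun hc => Set.disjoint_left.mp h hp hc)
  refine ⟨infDist p K.C / 2, by linarith, fun q hq => K.setup_mem_clean.mpr ?_⟩
  have : infDist p K.C ≤ infDist q K.C := hmin hq
  linarith
/-- uniform continuity -/
theorem UC {ε : ℝ} (hε : 0 < ε) : ∃ δ > 0, ∀ x y, ∀ s ∈ Icc (0:ℝ) 1, ∀ t ∈ Icc (0:ℝ) 1,
    dist x y ≤ δ → |s - t| ≤ δ → dist (K.e x s) (K.e y t) < ε :=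
  setup_uc K.cont hε
/-- inverse modulus away from the apex -/
theorem IM {ε : ℝ} (hε : 0 < ε) : ∃ η > 0, ∀ x y, ∀ s ∈ Icc (0:ℝ) (K.τ 16), ∀ t ∈ Icc (0:ℝ) 1,
    dist (K.e x s) (K.e y t) ≤ η → dist x y < ε ∧ |s - t| < ε := by
  set S : Set ((X × ℝ) × (X × ℝ)) :=
    ((univ ×ˢ Icc (0:ℝ) (K.τ 16)) ×ˢ (univ ×ˢ Icc (0:ℝ) 1)) ∩ {z | ε ≤ dist z.1 z.2} with hS
  have hSc : IsCompact S :=
    ((isCompact_univ.prod isCompact_Icc).prod (isCompact_univ.prod isCompact_Icc)).inter_right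
      (isClosed_le continuous_const continuous_dist)
  have hF : Continuous fun z : (X × ℝ) × (X × ℝ) => dist (K.e z.1.1 z.1.2) (K.e z.2.1 z.2.2) :=
    (K.cont.comp continuous_fst).dist (K.cont.comp continuous_snd)
  have key : ∃ η > 0, ∀ z ∈ S, η < dist (K.e z.1.1 z.1.2) (K.e z.2.1 z.2.2) := by
    rcases S.eq_empty_or_nonempty with he | hne
    · exact ⟨1, one_pos, fun z hz => by rw [he] at hz; exact hz.elim⟩
    obtain ⟨z, hz, hmin⟩ := hSc.exists_isMinOn hne hF.continuousOn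
    have hpos : 0 < dist (K.e z.1.1 z.1.2) (K.e z.2.1 z.2.2) := by
      rw [dist_pos]
      intro heq
      obtain ⟨⟨⟨-, h1⟩, ⟨-, h2⟩⟩, h3⟩ := hz
      have h4 := K.τ_lt_one 16
      obtain ⟨e1, e2⟩ := K.inj _ _ _ ⟨h1.1, by linarith [h1.2]⟩ _ h2 (by linarith [h1.2]) heq
      have : z.1 = z.2 := Prod.ext e1 e2
      rw [mem_ofPred_eq, this, dist_self] at h3
      linarith
    refine ⟨_, half_pos hpos, fun w hw => ?_⟩
    have : dist (K.e z.1.1 z.1.2) (K.e z.2.1 z.2.2) ≤ dist (K.e w.1.1 w.1.2) (K.e w.2.1 w.2.2) :=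
      hmin hw
    linarith
  obtain ⟨η, hη, h⟩ := key
  refine ⟨η, hη, fun x y s hs t ht hd => ?_⟩
  have : dist ((x, s) : X × ℝ) (y, t) < ε := by
    by_contra hc
    have := h ((x, s), (y, t)) ⟨⟨⟨mem_univ _, hs⟩, ⟨mem_univ _, ht⟩⟩, not_lt.mp hc⟩
    exact absurd hd (not_le.mpr this)
  rw [Prod.dist_eq, max_lt_iff, Real.dist_eq] at this
  exact this
theorem tube_sub {ε : ℝ} (hε : 0 < ε) : ∃ δ > 0, ∀ x y, dist x y ≤ δ → ∀ r,
    K.tube r y ⊆ K.tube (r + ε) x := by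
  obtain ⟨δ, hδ, h⟩ := K.UC hε
  refine ⟨δ, hδ, fun x y hxy r p ⟨s, hs, hp⟩ => ⟨s, hs, ?_⟩⟩
  have h1 := h y x s hs s hs (by rwa [dist_comm]) (by simp [hδ.le])
  linarith [dist_triangle p (K.e y s) (K.e x s)]
/-- chains of short links between any two points -/
theorem exists_xchain {η : ℝ} (hη : 0 < η) (x y : X) :
    ∃ κ : Ch X, bd κ = two x y ∧ All (fun a b => dist a b < η) κ := by
  refine PreconnectedSpace.induction₂'
    (fun x y : X => ∃ κ : Ch X, bd κ = two x y ∧ All (fun a b => dist a b < η) κ) ?_ ?_ x y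
  · intro a
    filter_upwards [ball_mem_nhds a hη] with b hb
    refine ⟨⟨lnk a b, bd_lnk _ _, All.lnk ?_⟩, ⟨lnk b a, bd_lnk _ _, All.lnk hb⟩⟩
    rw [dist_comm]
    exact hb
  · refine ⟨?_⟩
    rintro a b c ⟨κ, h1, h2⟩ ⟨κ', h3, h4⟩
    refine ⟨κ + κ', ?_, h2.add h4⟩
    rw [map_add, h1, h3, setup_two_add]
theorem bd_V (n : ℕ) (x : X) {a b : ℝ} (ha : a ∈ Icc (0:ℝ) 1) (hb : b ∈ Icc (0:ℝ) 1) :
    bd (K.V n x a b) = two (K.e x a) (K.e x b) :=
  bd_cC _ (Nat.succ_pos n) ha hb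
theorem bd_Vf (n : ℕ) (x : X) : bd (K.Vf n x) = two 0 K.Pinf := by
  rw [Vf, map_add, K.bd_V n x ⟨le_rfl, zero_le_one⟩ ⟨zero_le_one, le_rfl⟩, K.bd_J, K.apex,
    setup_two_comm, setup_two_add]
theorem bd_lev (t : ℝ) (κ : Ch X) :
    bd (K.lev t κ) = Finsupp.mapDomain (fun x => K.e x t) (bd κ) :=
  setup_bd_map (fun x => K.e x t) κ
theorem bd_prj (xp : E3 → X) (c : Ch E3) : bd (prj xp c) = Finsupp.mapDomain xp (bd c) :=
  setup_bd_map xp c
theorem setup_lev_lnk (t : ℝ) (x y : X) : K.lev t (lnk x y) = lnk (K.e x t) (K.e y t) := by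
  simp [lev, lnk, Finsupp.mapDomain.addMonoidHom, Finsupp.mapDomain_single]
theorem setup_all_lev {t : ℝ} {κ : Ch X} {Q : E3 → E3 → Prop}
    (h : All (fun x y => Q (K.e x t) (K.e y t)) κ) : All Q (K.lev t κ) :=
  setup_all_map (fun x => K.e x t) h
theorem setup_mesh {δ : ℝ} (hδ : 0 < δ) : ∀ᶠ n : ℕ in atTop, 1 / ((n + 1 : ℕ) : ℝ) ≤ δ := by
  filter_upwards [ms_small hδ] with n hn
  rw [ms] at hn
  push_cast
  exact hn.le
/-- the links of the discretised cone lines -/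
theorem all_V {r : ℝ} (hr : 0 < r) : ∀ᶠ n in atTop, ∀ x, ∀ a ∈ Icc (0:ℝ) 1, ∀ b ∈ Icc (0:ℝ) 1,
    All (fun p q => dist p q < r ∧ (∃ s ∈ Icc (0:ℝ) 1, p = K.e x s) ∧
      ∃ s ∈ Icc (min a b) (max a b), dist p (K.e x s) < r) (K.V n x a b) := by
  obtain ⟨δ, hδ, h⟩ := K.UC hr
  filter_upwards [setup_mesh hδ] with n hn x a ha b hb
  refine all_cC _ (N := n + 1) (Nat.succ_pos n) ha hb fun u v h0 h1 h2 h3 h4 => ?_
  have hM : max a b ≤ 1 := max_le ha.2 hb.2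
  have hm : 0 ≤ min a b := le_min ha.1 hb.1
  have hmM : min a b ≤ max a b := min_le_max
  have hu : u ∈ Icc (0:ℝ) 1 := ⟨h0, by linarith⟩
  have hv : v ∈ Icc (0:ℝ) 1 := ⟨by linarith, by linarith⟩
  refine ⟨h x x u hu v hv (by simp [hδ.le]) (abs_le.mpr ⟨by linarith, by linarith⟩),
    ⟨u, hu, rfl⟩, max u (min a b), ⟨le_max_right _ _, max_le (by linarith) hmM⟩, ?_⟩
  refine h x x u hu _ ⟨le_max_of_le_left h0, max_le hu.2 (by linarith)⟩ (by simp [hδ.le]) ?_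
  rcases le_total u (min a b) with h5 | h5
  · rw [max_eq_right h5]
    exact abs_le.mpr ⟨by linarith, by linarith⟩
  · rw [max_eq_left h5]
    simp [hδ.le]

end Cone

end Pool.Agent.Lib.MP_9e71a3_gt
end

-- part Pool.Agent.Lib.MP_9e71a3_gt.SetupB
section

/-! Sweeping and projecting chains along the cone.  JOB Setup (part B). -/

set_option autoImplicit false
set_option linter.unusedSectionVars false

namespace Pool.Agent.Lib.MP_9e71a3_gt

open Set Metric Filter Topology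

/-- linear extension of a function on points to zero-chains -/
noncomputable def setupSm {A B : Type} (F : A → Ch B) : (A →₀ Z2) →+ Ch B :=
  Finsupp.liftAddHom fun a => (smulAddHom Z2 (Ch B)).flip (F a)

theorem setupSm_apply {A B : Type} (F : A → Ch B) (z : A →₀ Z2) :
    setupSm F z = z.sum fun a c => c • F a := by
  rw [setupSm, Finsupp.liftAddHom_apply]
  rfl

theorem setupSm_two {A B : Type} (F : A → Ch B) (p q : A) :
    setupSm F (two p q) = F p + F q := by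
  simp [setupSm, two]

theorem setup_all_sm {A B : Type} {F : A → Ch B} {z : A →₀ Z2} {Q : B → B → Prop}
    (h : ∀ a ∈ z.support, All Q (F a)) : All Q (z.sum fun a c => c • F a) :=
  All.sum _ _ fun a ha => All.smul _ (h a ha)

theorem setup_null_links {A : Type} (Φ : Ch A →+ Ch E3) {T : Set (E3 × ℝ)} {c : Ch A}
    (h : ∀ l ∈ c.support, Null T (Φ (lnk l.1 l.2))) : Null T (Φ c) := by
  have hc : c = ∑ l ∈ c.support, lnk l.1 l.2 := by
    conv_lhs => rw [← Finsupp.sum_single c]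
    refine Finset.sum_congr rfl fun l hl => ?_
    have h1 : c l = 1 := (z2_cases (c l)).resolve_left (Finsupp.mem_support_iff.mp hl)
    rw [h1]
    rfl
  rw [hc, map_sum]
  exact Null.sum _ _ h

theorem setup_prj_lnk {X : Type} (xp : E3 → X) (p q : E3) :
    prj xp (lnk p q) = lnk (xp p) (xp q) := by
  simp [prj, lnk, Finsupp.mapDomain.addMonoidHom, Finsupp.mapDomain_single]

theorem setup_all_prj {X : Type} (xp : E3 → X) {c : Ch E3} {Q : X → X → Prop}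
    (h : All (fun p q => Q (xp p) (xp q)) c) : All Q (prj xp c) :=
  setup_all_map xp h

theorem setup_split {A : Type} (c : Ch A) (P : A → A → Prop) :
    ∃ c1 c2 : Ch A, c = c1 + c2 ∧ (∀ l ∈ c1.support, l ∈ c.support ∧ ¬ P l.1 l.2) ∧
      ∀ l ∈ c2.support, l ∈ c.support ∧ P l.1 l.2 := by
  classical
  refine ⟨c.filter fun l => ¬ P l.1 l.2, c.filter fun l => P l.1 l.2, ?_, ?_, ?_⟩
  · rw [add_comm, Finsupp.filter_add_filter_not]
  · intro l hl
    rw [Finsupp.support_filter, Finset.mem_filter] at hl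
    exact hl
  · intro l hl
    rw [Finsupp.support_filter, Finset.mem_filter] at hl
    exact hl

theorem setup_eq_of_add {A : Type} {a b : A →₀ Z2} (h : a + b = 0) : a = b := by
  have : a + b + b = b := by rw [h, zero_add]
  rwa [add_assoc, fs_add_self, add_zero] at this

theorem setup_null_ball {T : Set (E3 × ℝ)} (o : E3) (r : ℝ) (hB : (o, r) ∈ T) {c : Ch E3}
    (hc : bd c = 0) (h : All (fun p q => p ∈ closedBall o r ∧ q ∈ closedBall o r) c) :
    Null T c :=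
  null_of_ball hB hc h

namespace Cone
variable {X : Type} [MetricSpace X] (K : Cone X)
variable [CompactSpace X] [ConnectedSpace X]

/-- one link of a sweep -/
theorem setup_sweep1 {r δ : ℝ} (hδ : 0 < δ)
    (h : ∀ x y, ∀ s ∈ Icc (0:ℝ) 1, ∀ t ∈ Icc (0:ℝ) 1,
      dist x y ≤ δ → |s - t| ≤ δ → dist (K.e x s) (K.e y t) < r)
    {n : ℕ} (hn : 1 / ((n + 1 : ℕ) : ℝ) ≤ δ) {U : Set X} {x y : X} (hx : x ∈ U)
    (hxy : dist x y ≤ δ) {a b : ℝ} (ha : a ∈ Icc (0:ℝ) 1) (hb : b ∈ Icc (0:ℝ) 1) :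
    Null (K.Bl U (min a b) (max a b) r)
      (K.V n x a b + K.V n y a b + lnk (K.e x a) (K.e y a) + lnk (K.e x b) (K.e y b)) := by
  refine null_sweep (K.e x) (K.e y) (N := n + 1) (Nat.succ_pos n) ha hb
    fun u v h0 h1 h2 h3 h4 => ?_
  have hM : max a b ≤ 1 := max_le ha.2 hb.2
  have hm : 0 ≤ min a b := le_min ha.1 hb.1
  have hmM : min a b ≤ max a b := min_le_max
  have hu : u ∈ Icc (0:ℝ) 1 := ⟨h0, by linarith⟩
  have hv : v ∈ Icc (0:ℝ) 1 := ⟨by linarith, by linarith⟩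
  have hs : max u (min a b) ∈ Icc (0:ℝ) 1 := ⟨le_max_of_le_left h0, max_le hu.2 (by linarith)⟩
  have hus : |u - max u (min a b)| ≤ δ := by
    rcases le_total u (min a b) with h5 | h5
    · rw [max_eq_right h5]
      exact abs_le.mpr ⟨by linarith, by linarith⟩
    · rw [max_eq_left h5]
      simp [hδ.le]
  have hvs : |v - max u (min a b)| ≤ δ := by
    rcases le_total u (min a b) with h5 | h5
    · rw [max_eq_right h5]
      exact abs_le.mpr ⟨by linarith, by linarith⟩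
    · rw [max_eq_left h5]
      exact abs_le.mpr ⟨by linarith, by linarith⟩
  have hxx : dist x x ≤ δ := by simp [hδ.le]
  have hyx : dist y x ≤ δ := by rwa [dist_comm]
  exact ⟨(K.e x (max u (min a b)), r),
    ⟨x, hx, _, ⟨le_max_right _ _, max_le (by linarith) hmM⟩, rfl⟩,
    (h x x u hu _ hs hxx hus).le, (h x x v hv _ hs hxx hvs).le,
    (h y x u hu _ hs hyx hus).le, (h y x v hv _ hs hyx hvs).le⟩

/-- sweeping a chain of `X` from one level to another -/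
theorem sweep {r : ℝ} (hr : 0 < r) : ∃ η > 0, ∀ᶠ n in atTop, ∀ (κ : Ch X) (U : Set X),
    All (fun x y => x ∈ U ∧ dist x y ≤ η) κ → ∀ a ∈ Icc (0:ℝ) 1, ∀ b ∈ Icc (0:ℝ) 1,
    Null (K.Bl U (min a b) (max a b) r)
      (K.lev a κ + K.lev b κ + (bd κ).sum fun x c => c • K.V n x a b) := by
  obtain ⟨δ, hδ, h⟩ := K.UC hr
  refine ⟨δ, hδ, ?_⟩
  filter_upwards [setup_mesh hδ] with n hn κ U hκ a ha b hb
  rw [← setupSm_apply]
  refine setup_null_links (K.lev a + K.lev b + (setupSm fun x => K.V n x a b).comp bd)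
    fun l hl => ?_
  obtain ⟨h1, h2⟩ := hκ l hl
  have := K.setup_sweep1 hδ h hn h1 h2 ha hb
  simp only [AddMonoidHom.add_apply, AddMonoidHom.comp_apply, K.setup_lev_lnk, bd_lnk,
    setupSm_two]
  convert this using 1
  abel

theorem setup_mem_Bl {U : Set X} {a b : ℝ} (r : ℝ) {x : X} (hx : x ∈ U) {s : ℝ}
    (hs : s ∈ Icc a b) : (K.e x s, r) ∈ K.Bl U a b r := ⟨x, hx, s, hs, rfl⟩

theorem setup_Bl_mono {U : Set X} {a b a' b' r r' : ℝ} (ha : a' ≤ a) (hb : b ≤ b') (hr : r ≤ r')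
    {c : Ch E3} (h : Null (K.Bl U a b r) c) : Null (K.Bl U a' b' r') c := by
  refine h.mono ?_
  rintro B ⟨x, hx, s, hs, rfl⟩
  exact ⟨_, ⟨x, hx, s, ⟨ha.trans hs.1, hs.2.trans hb⟩, rfl⟩, closedBall_subset_closedBall hr⟩

/-- projection of a fine chain near the cone to a level -/
theorem proj {r : ℝ} (hr : 0 < r) : ∃ η > 0, ∀ᶠ n in atTop, ∀ (c : Ch E3) (xp : E3 → X)
    (sp : E3 → ℝ) (U : Set X) (a b t : ℝ), 0 ≤ a → b ≤ 1 → t ∈ Icc a b →
    All (fun p q => dist p q ≤ η ∧ ∀ z, z = p ∨ z = q → xp z ∈ U ∧ sp z ∈ Icc a b ∧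
      sp z ≤ K.τ 16 ∧ dist z (K.e (xp z) (sp z)) ≤ η) c →
    All (fun x y => x ∈ U ∧ y ∈ U ∧ dist x y < r) (prj xp c) ∧
    Null (K.Bl U a b r) (c + K.lev t (prj xp c) +
      (bd c).sum fun p k => k • (lnk p (K.e (xp p) (sp p)) + K.V n (xp p) (sp p) t)) := by
  obtain ⟨δ, hδ, h⟩ := K.UC hr
  obtain ⟨η, hη, hI⟩ := K.IM (ε := min (δ / 2) r) (lt_min (half_pos hδ) hr)
  refine ⟨min (η / 3) (r / 3), lt_min (by linarith) (by linarith), ?_⟩
  filter_upwards [setup_mesh (half_pos hδ)] with n hn c xp sp U a b t ha hb ht hc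
  have hm1 : min (η / 3) (r / 3) ≤ η / 3 := min_le_left _ _
  have hm2 : min (η / 3) (r / 3) ≤ r / 3 := min_le_right _ _
  have hm3 : min (δ / 2) r ≤ δ / 2 := min_le_left _ _
  have hm4 : min (δ / 2) r ≤ r := min_le_right _ _
  have key : ∀ l ∈ c.support, dist (xp l.1) (xp l.2) < min (δ / 2) r ∧
      |sp l.1 - sp l.2| < min (δ / 2) r := by
    intro l hl
    obtain ⟨h0, h1⟩ := hc l hl
    obtain ⟨-, p2, p3, p4⟩ := h1 l.1 (Or.inl rfl)
    obtain ⟨-, q2, -, q4⟩ := h1 l.2 (Or.inr rfl)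
    refine hI _ _ _ ⟨ha.trans p2.1, p3⟩ _ ⟨ha.trans q2.1, q2.2.trans hb⟩ ?_
    have := dist_triangle4 (K.e (xp l.1) (sp l.1)) l.1 l.2 (K.e (xp l.2) (sp l.2))
    rw [dist_comm _ l.1] at this
    linarith
  constructor
  · refine setup_all_prj xp fun l hl => ?_
    obtain ⟨-, h1⟩ := hc l hl
    exact ⟨(h1 l.1 (Or.inl rfl)).1, (h1 l.2 (Or.inr rfl)).1, (key l hl).1.trans_le hm4⟩
  rw [← setupSm_apply]
  refine setup_null_links (AddMonoidHom.id _ + (K.lev t).comp (prj xp) +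
    (setupSm fun p => lnk p (K.e (xp p) (sp p)) + K.V n (xp p) (sp p) t).comp bd) fun l hl => ?_
  obtain ⟨h0, h1⟩ := hc l hl
  obtain ⟨k1, k2⟩ := key l hl
  obtain ⟨p, q⟩ := l
  obtain ⟨p1, p2, -, p4⟩ := h1 p (Or.inl rfl)
  obtain ⟨-, q2, -, q4⟩ := h1 q (Or.inr rfl)
  simp only at h0 k1 k2
  simp only [AddMonoidHom.add_apply, AddMonoidHom.comp_apply, AddMonoidHom.id_apply,
    setup_prj_lnk, K.setup_lev_lnk, bd_lnk, setupSm_two]
  have hs : sp p ∈ Icc (0:ℝ) 1 := ⟨ha.trans p2.1, p2.2.trans hb⟩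
  have hs' : sp q ∈ Icc (0:ℝ) 1 := ⟨ha.trans q2.1, q2.2.trans hb⟩
  have ht' : t ∈ Icc (0:ℝ) 1 := ⟨ha.trans ht.1, ht.2.trans hb⟩
  have n1 := K.setup_Bl_mono (a' := a) (b' := b) (le_min p2.1 ht.1) (max_le p2.2 ht.2) le_rfl
    (K.setup_sweep1 hδ h (hn.trans (by linarith)) p1 (y := xp q) (by linarith) hs ht')
  have hab := abs_lt.mp k2
  have hball : ∀ u ∈ Icc (0:ℝ) 1, |u - sp p| ≤ δ →
      K.e (xp q) u ∈ closedBall (K.e (xp p) (sp p)) r := fun u hu hus =>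
    (h _ _ u hu _ hs (by rw [dist_comm]; linarith) hus).le
  have n2 : Null (K.Bl U a b r) (lnk p q + lnk p (K.e (xp p) (sp p)) + lnk q (K.e (xp q) (sp q)) +
      lnk (K.e (xp p) (sp p)) (K.e (xp q) (sp p)) + K.V n (xp q) (sp p) (sp q)) := by
    have mp : p ∈ closedBall (K.e (xp p) (sp p)) r := by
      rw [mem_closedBall]
      linarith
    have mq : q ∈ closedBall (K.e (xp p) (sp p)) r := by
      rw [mem_closedBall]
      have := dist_triangle q p (K.e (xp p) (sp p))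
      rw [dist_comm q p] at this
      linarith
    have mP : K.e (xp p) (sp p) ∈ closedBall (K.e (xp p) (sp p)) r := mem_closedBall_self hr.le
    refine setup_null_ball _ _ (K.setup_mem_Bl r p1 p2) ?_ ?_
    · simp only [map_add, bd_lnk, K.bd_V n _ hs hs']
      rw [setup_two_comm p q, setup_two_add, setup_two_comm q (K.e (xp p) (sp p)), setup_two_add,
        setup_two_comm _ (K.e (xp q) (sp q)), setup_two_add, setup_two_add, setup_two_self]
    · have mQ := hball _ hs' (abs_le.mpr ⟨by linarith, by linarith⟩)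
      have mQ' := hball _ hs (by simp [hδ.le])
      refine All.add (All.add (All.add (All.add (All.lnk ⟨mp, mq⟩) (All.lnk ⟨mp, mP⟩))
        (All.lnk ⟨mq, mQ⟩)) (All.lnk ⟨mP, mQ'⟩)) ?_
      · refine all_cC _ (N := n + 1) (Nat.succ_pos n) hs hs' fun u v h0 h1 h2 h3 h4 => ?_
        have e1 : sp p - δ / 2 ≤ min (sp p) (sp q) := le_min (by linarith) (by linarith)
        have e2 : max (sp p) (sp q) ≤ sp p + δ / 2 := max_le (by linarith) (by linarith)
        have e3 : max (sp p) (sp q) ≤ 1 := max_le hs.2 hs'.2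
        exact ⟨hball u ⟨h0, by linarith⟩ (abs_le.mpr ⟨by linarith, by linarith⟩),
          hball v ⟨by linarith, by linarith⟩ (abs_le.mpr ⟨by linarith, by linarith⟩)⟩
  have hV : K.V n (xp q) (sp q) t = K.V n (xp q) (sp p) (sp q) + K.V n (xp q) (sp p) t := by
    unfold V
    rw [cC_comm _ _ (sp p) (sp q), cC_add]
  have hz := fs_add_self (lnk (K.e (xp p) (sp p)) (K.e (xp q) (sp p)))
  have n3 := n1.add n2
  rw [hV]
  convert n3 using 1
  rw [← sub_eq_zero, ← neg_eq_zero, ← hz]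
  abel

theorem setup_near_choice (U : Set X) (a b η : ℝ) : ∃ (xp : E3 → X) (sp : E3 → ℝ),
    ∀ z, K.Near U a b η z → xp z ∈ U ∧ sp z ∈ Icc a b ∧ dist z (K.e (xp z) (sp z)) ≤ η := by
  have : ∀ z, ∃ (x : X) (s : ℝ), K.Near U a b η z → x ∈ U ∧ s ∈ Icc a b ∧ dist z (K.e x s) ≤ η := by
    intro z
    by_cases h : K.Near U a b η z
    · obtain ⟨x, hx, s, hs, hd⟩ := h
      exact ⟨x, s, fun _ => ⟨hx, hs, hd⟩⟩
    · obtain ⟨x⟩ : Nonempty X := inferInstance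
      exact ⟨x, 0, fun h' => absurd h' h⟩
  choose xp sp h using this
  exact ⟨xp, sp, h⟩

/-- projection with a choice of base points -/
theorem setup_proj {r : ℝ} (hr : 0 < r) : ∃ η > 0, ∀ᶠ n in atTop, ∀ η' ≤ η, ∀ (c : Ch E3)
    (U : Set X) (a b b' t : ℝ), 0 ≤ a → b ≤ K.τ 16 → b ≤ b' → b' ≤ 1 → t ∈ Icc a b' →
    All (fun p q => dist p q ≤ η' ∧ K.Near U a b η' p ∧ K.Near U a b η' q) c →
    ∃ (κ : Ch X) (xp : E3 → X) (sp : E3 → ℝ), bd κ = Finsupp.mapDomain xp (bd c) ∧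
      (∀ z, K.Near U a b η' z → xp z ∈ U ∧ sp z ∈ Icc a b ∧ dist z (K.e (xp z) (sp z)) ≤ η') ∧
      All (fun x y => x ∈ U ∧ y ∈ U ∧ dist x y < r) κ ∧
      Null (K.Bl U a b' r) (c + K.lev t κ +
        (bd c).sum fun p k => k • (lnk p (K.e (xp p) (sp p)) + K.V n (xp p) (sp p) t)) := by
  obtain ⟨η, hη, h⟩ := K.proj hr
  refine ⟨η, hη, ?_⟩
  filter_upwards [h] with n hn η' hη' c U a b b' t ha hb hbb hb' ht hc
  obtain ⟨xp, sp, hx⟩ := K.setup_near_choice U a b η'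
  have hc' : All (fun p q => dist p q ≤ η ∧ ∀ z, z = p ∨ z = q → xp z ∈ U ∧ sp z ∈ Icc a b' ∧
      sp z ≤ K.τ 16 ∧ dist z (K.e (xp z) (sp z)) ≤ η) c := by
    refine hc.mono ?_
    rintro p q ⟨h0, hp, hq⟩
    refine ⟨h0.trans hη', fun z hz => ?_⟩
    have hz' : K.Near U a b η' z := by
      rcases hz with rfl | rfl
      · exact hp
      · exact hq
    obtain ⟨e1, e2, e3⟩ := hx z hz'
    exact ⟨e1, ⟨e2.1, e2.2.trans hbb⟩, e2.2.trans hb, e3.trans hη'⟩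
  obtain ⟨h1, h2⟩ := hn c xp sp U a b' t ha hb' ht hc'
  exact ⟨prj xp c, xp, sp, bd_prj xp c, hx, h1, h2⟩

theorem setup_cancel {T : Set (E3 × ℝ)} {c d : Ch E3} (h : Null T (c + d)) (h' : Null T d) :
    Null T c := by
  have := h.add h'
  rwa [add_assoc, fs_add_self, add_zero] at this

/-- a closed fine chain near one cone line is null near that line -/
theorem tube_null {r : ℝ} (hr : 0 < r) : ∃ η > 0, ∀ (c : Ch E3) (k : X) (a b : ℝ),
    0 ≤ a → b ≤ K.τ 16 → bd c = 0 →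
    All (fun p q => dist p q ≤ η ∧ K.Near {k} a b η p ∧ K.Near {k} a b η q) c →
    Null (K.Bl {k} a b r) c := by
  obtain ⟨η, hη, h⟩ := K.setup_proj hr
  obtain ⟨n, hn⟩ := h.exists
  refine ⟨η, hη, fun c k a b ha hb hc hall => ?_⟩
  by_cases h0 : c = 0
  · rw [h0]
    exact Null.zero _
  obtain ⟨l, hl⟩ := Finsupp.support_nonempty_iff.mpr h0
  obtain ⟨-, ⟨-, -, s, hs, -⟩, -⟩ := hall l hl
  have hab : a ∈ Icc a b := ⟨le_rfl, hs.1.trans hs.2⟩
  obtain ⟨κ, xp, sp, h1, -, h3, h4⟩ := hn η le_rfl c {k} a b b a ha hb le_rfl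
    (hb.trans (K.τ_lt_one 16).le) hab hall
  rw [hc, Finsupp.sum_zero_index, add_zero] at h4
  refine setup_cancel h4 (setup_null_ball _ _ (K.setup_mem_Bl r (mem_singleton k) hab) ?_ ?_)
  · rw [K.bd_lev, h1, hc, Finsupp.mapDomain_zero, Finsupp.mapDomain_zero]
  · refine K.setup_all_lev (h3.mono ?_)
    rintro x y ⟨rfl, rfl, -⟩
    exact ⟨mem_closedBall_self hr.le, mem_closedBall_self hr.le⟩

theorem push_down0 {r : ℝ} (hr : 0 < r) : ∃ η > 0, ∀ (c : Ch E3) (U : Set X) (a : ℝ), 0 ≤ a →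
    bd c = 0 → All (fun p q => dist p q ≤ η ∧
      K.Near U a (K.τ 16) η p ∧ K.Near U a (K.τ 16) η q) c → Null (K.Bl U a 1 r) c := by
  obtain ⟨η, hη, h⟩ := K.setup_proj hr
  obtain ⟨n, hn⟩ := h.exists
  refine ⟨η, hη, fun c U a ha hc hall => ?_⟩
  by_cases h0 : c = 0
  · rw [h0]
    exact Null.zero _
  obtain ⟨l, hl⟩ := Finsupp.support_nonempty_iff.mpr h0
  obtain ⟨-, ⟨k, hk, s, hs, -⟩, -⟩ := hall l hl
  have h16 := (K.τ_lt_one 16).le
  have hab : (1:ℝ) ∈ Icc a 1 := ⟨hs.1.trans (hs.2.trans h16), le_rfl⟩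
  obtain ⟨κ, xp, sp, h1, -, h3, h4⟩ := hn η le_rfl c U a _ 1 1 ha le_rfl h16 le_rfl hab hall
  rw [hc, Finsupp.sum_zero_index, add_zero] at h4
  refine setup_cancel h4 (setup_null_ball _ _ (K.setup_mem_Bl r hk hab) ?_ ?_)
  · rw [K.bd_lev, h1, hc, Finsupp.mapDomain_zero, Finsupp.mapDomain_zero]
  · refine K.setup_all_lev (h3.mono ?_)
    intro x y _
    simp only [K.apex]
    exact ⟨mem_closedBall_self hr.le, mem_closedBall_self hr.le⟩

/-- links at level zero are far out -/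
theorem setup_lev0 : ∃ δ > 0, ∀ κ : Ch X, All (fun x y => dist x y ≤ δ) κ →
    All (fun p q => dist p q < K.ρ 3 ∧ 10 * K.ρ 1 < ‖p‖) (K.lev 0 κ) := by
  obtain ⟨δ, hδ, h⟩ := K.UC (K.ρ_pos 3)
  refine ⟨δ, hδ, fun κ hκ => K.setup_all_lev (hκ.mono fun x y hxy => ⟨?_, ?_⟩)⟩
  · exact h x y 0 ⟨le_rfl, zero_le_one⟩ 0 ⟨le_rfl, zero_le_one⟩ hxy (by simp [hδ.le])
  · exact K.big 0 x 0 ⟨le_rfl, K.τ_nonneg 0⟩

theorem setup_av0 {R m : ℝ} {c : Ch E3} (h : All (fun p q => R + dist p q + m < ‖p‖) c) :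
    Av {((0 : E3), R)} m c := by
  intro l hl B hB
  rw [mem_singleton_iff] at hB
  subst hB
  simpa using h l hl

theorem push_up0 {r : ℝ} (hr : 0 < r) : ∃ η > 0, ∀ (c : Ch E3) (U : Set X) (b : ℝ), b ≤ K.τ 16 →
    bd c = 0 → All (fun p q => dist p q ≤ η ∧ K.Near U 0 b η p ∧ K.Near U 0 b η q) c →
    ∃ c', bd c' = 0 ∧ Null (K.Bl U 0 b r) (c + c') ∧ Av {(0, 4 * K.ρ 1)} (K.ρ 1) c' := by
  obtain ⟨δ, hδ, hl0⟩ := K.setup_lev0
  obtain ⟨η, hη, h⟩ := K.setup_proj (lt_min hr hδ)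
  obtain ⟨n, hn⟩ := h.exists
  refine ⟨η, hη, fun c U b hb hc hall => ?_⟩
  by_cases h0 : c = 0
  · refine ⟨0, map_zero _, ?_, setup_av0 (All.zero _)⟩
    rw [h0, add_zero]
    exact Null.zero _
  obtain ⟨l, hl⟩ := Finsupp.support_nonempty_iff.mpr h0
  obtain ⟨-, ⟨-, -, s, hs, -⟩, -⟩ := hall l hl
  have hab : (0:ℝ) ∈ Icc 0 b := ⟨le_rfl, hs.1.trans hs.2⟩
  obtain ⟨κ, xp, sp, h1, -, h3, h4⟩ := hn η le_rfl c U 0 b b 0 le_rfl hb le_rfl
    (hb.trans (K.τ_lt_one 16).le) hab hall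
  rw [hc, Finsupp.sum_zero_index, add_zero] at h4
  refine ⟨K.lev 0 κ, ?_, K.setup_Bl_mono le_rfl le_rfl (min_le_left _ _) h4, setup_av0 ?_⟩
  · rw [K.bd_lev, h1, hc, Finsupp.mapDomain_zero, Finsupp.mapDomain_zero]
  · refine (hl0 κ (h3.mono fun x y hxy => hxy.2.2.le.trans (min_le_right _ _))).mono ?_
    rintro p q ⟨e1, e2⟩
    have := K.ρ_anti (i := 1) (j := 3) le_rfl (by norm_num)
    have := K.ρ_pos 3
    linarith

theorem setup_norm_le (p q : E3) : ‖q‖ ≤ ‖p‖ + dist p q := by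
  have := dist_triangle q p 0
  rw [dist_zero_right, dist_zero_right, dist_comm q p] at this
  linarith

theorem setup_norm_le' (p q : E3) : ‖p‖ ≤ ‖q‖ + dist p q := by
  rw [dist_comm]
  exact setup_norm_le q p

theorem push_down {r : ℝ} (hr : 0 < r) : ∃ η > 0, ∀ (c : Ch E3) (U : Set X) (a : ℝ), 0 ≤ a →
    bd c = 0 → All (fun p q => dist p q ≤ η ∧ (‖p‖ ≤ 2 * K.ρ 16 ∨
      (K.Near U a (K.τ 16) η p ∧ K.Near U a (K.τ 16) η q))) c →
    Null (insert (0, K.ρ 15) (K.Bl U a 1 r)) c := by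
  obtain ⟨η, hη, h⟩ := K.setup_proj hr
  have r15 := K.ρ_pos 15
  have r16 := K.ρ_pos 16
  have r56 := K.ρ_anti (i := 15) (j := 16) (by norm_num) (by norm_num)
  obtain ⟨n, hn, hV⟩ := (h.and (K.all_V (r := K.ρ 16) r16)).exists
  refine ⟨min η (K.ρ 16), lt_min hη r16, fun c U a ha hc hall => ?_⟩
  have hm : min η (K.ρ 16) ≤ K.ρ 16 := min_le_right _ _
  obtain ⟨c1, c2, hcc, s1, s2⟩ := setup_split c fun p q =>
    K.Near U a (K.τ 16) (min η (K.ρ 16)) p ∧ K.Near U a (K.τ 16) (min η (K.ρ 16)) q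
  have a1 : All (fun p q => ‖p‖ ≤ 3 * K.ρ 16 ∧ ‖q‖ ≤ 3 * K.ρ 16) c1 := by
    intro l hl
    obtain ⟨e1, e2⟩ := s1 l hl
    obtain ⟨e3, e4⟩ := hall l e1
    have e5 := e4.resolve_right e2
    have := setup_norm_le l.1 l.2
    exact ⟨by linarith, by linarith⟩
  have hb : ∀ p : E3, ‖p‖ ≤ K.ρ 15 → p ∈ closedBall (0 : E3) (K.ρ 15) := fun p hp => by
    simpa using hp
  have a1' : All (fun p q => p ∈ closedBall (0 : E3) (K.ρ 15) ∧
      q ∈ closedBall (0 : E3) (K.ρ 15)) c1 :=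
    a1.mono fun p q hpq => ⟨hb _ (by linarith [hpq.1]), hb _ (by linarith [hpq.2])⟩
  by_cases h0 : c2 = 0
  · rw [h0, add_zero] at hcc
    rw [hcc] at hc ⊢
    exact null_of_ball (B := (0, K.ρ 15)) (mem_insert _ _) hc a1'
  obtain ⟨l, hl⟩ := Finsupp.support_nonempty_iff.mpr h0
  obtain ⟨-, ⟨-, -, s, hs, -⟩, -⟩ := s2 l hl
  have h16 := (K.τ_lt_one 16).le
  have hab : (1:ℝ) ∈ Icc a 1 := ⟨hs.1.trans (hs.2.trans h16), le_rfl⟩
  obtain ⟨κ, xp, sp, -, h2, -, h4⟩ := hn _ (min_le_left η (K.ρ 16)) c2 U a _ 1 1 ha le_rfl h16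
    le_rfl hab fun l hl => ⟨(hall l (s2 l hl).1).1, (s2 l hl).2⟩
  have hbd : bd c1 = bd c2 := setup_eq_of_add (by rw [← map_add, ← hcc, hc])
  set D := K.lev 1 κ +
    (bd c2).sum fun p k => k • (lnk p (K.e (xp p) (sp p)) + K.V n (xp p) (sp p) 1) with hD
  rw [add_assoc, ← hD] at h4
  have n1 : Null (insert (0, K.ρ 15) (K.Bl U a 1 r)) (c2 + D) :=
    h4.mono fun B hB => ⟨B, mem_insert_of_mem _ hB, subset_rfl⟩
  have n2 : Null (insert (0, K.ρ 15) (K.Bl U a 1 r)) (c1 + D) := by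
    refine null_of_ball (B := (0, K.ρ 15)) (mem_insert _ _) ?_ (a1'.add (All.add ?_ ?_))
    · have := h4.bd_eq
      rwa [map_add, ← hbd, ← map_add] at this
    · refine K.setup_all_lev fun l _ => ?_
      simp only [K.apex]
      exact ⟨mem_closedBall_self r15.le, mem_closedBall_self r15.le⟩
    · refine setup_all_sm fun p hp => ?_
      have p1 : ‖p‖ ≤ 3 * K.ρ 16 := by
        rw [← hbd] at hp
        obtain ⟨l, hl, e | e⟩ := mem_bd_support hp
        · rw [e]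
          exact (a1 l hl).1
        · rw [e]
          exact (a1 l hl).2
      have p2 : K.Near U a (K.τ 16) (min η (K.ρ 16)) p := by
        obtain ⟨l, hl, e | e⟩ := mem_bd_support hp
        · rw [e]
          exact (s2 l hl).2.1
        · rw [e]
          exact (s2 l hl).2.2
      obtain ⟨-, e2, e3⟩ := h2 p p2
      have e4 := setup_norm_le p (K.e (xp p) (sp p))
      have hs : sp p ∈ Icc (0:ℝ) 1 := ⟨ha.trans e2.1, e2.2.trans h16⟩
      have e5 : K.τ 15 < sp p := K.lev_gt (x := xp p) hs (by linarith)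
      refine (All.lnk ⟨hb _ (by linarith), hb _ (by linarith)⟩).add
        ((hV (xp p) _ hs 1 ⟨zero_le_one, le_rfl⟩).mono ?_)
      rintro u v ⟨f1, -, w, hw, f2⟩
      rw [min_eq_left hs.2, max_eq_right hs.2] at hw
      have f3 := K.little 14 (xp p) w ⟨by linarith [hw.1], hw.2⟩
      have f4 := setup_norm_le' u (K.e (xp p) w)
      have f5 := setup_norm_le u v
      exact ⟨hb _ (by linarith), hb _ (by linarith)⟩
  have := n1.add n2
  convert this using 1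
  rw [hcc, ← add_zero (c1 + c2), ← fs_add_self D]
  abel

theorem push_up {r : ℝ} (hr : 0 < r) : ∃ η > 0, ∀ (c : Ch E3) (U : Set X) (b : ℝ), b ≤ K.τ 16 →
    bd c = 0 → All (fun p q => dist p q ≤ η ∧ (K.ρ 2 / 3 ≤ ‖p‖ ∨
      (K.Near U 0 b η p ∧ K.Near U 0 b η q))) c →
    ∃ c', bd c' = 0 ∧ Null (K.Bl U 0 b r) (c + c') ∧ Av {(0, 5 * K.ρ 3)} (K.ρ 3) c' := by
  obtain ⟨δ, hδ, hl0⟩ := K.setup_lev0
  obtain ⟨η, hη, h⟩ := K.setup_proj (lt_min hr hδ)
  have r3 := K.ρ_pos 3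
  have r23 := K.ρ_anti (i := 2) (j := 3) (by norm_num) (by norm_num)
  have r13 := K.ρ_anti (i := 1) (j := 3) (by norm_num) (by norm_num)
  obtain ⟨n, hn, hV⟩ := (h.and (K.all_V (r := K.ρ 3) r3)).exists
  refine ⟨min η (K.ρ 3), lt_min hη r3, fun c U b hb hc hall => ?_⟩
  have hm : min η (K.ρ 3) ≤ K.ρ 3 := min_le_right _ _
  obtain ⟨c1, c2, hcc, s1, s2⟩ := setup_split c fun p q =>
    K.Near U 0 b (min η (K.ρ 3)) p ∧ K.Near U 0 b (min η (K.ρ 3)) q
  have a1 : All (fun p q => dist p q ≤ K.ρ 3 ∧ K.ρ 2 / 3 - K.ρ 3 ≤ ‖p‖ ∧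
      K.ρ 2 / 3 - K.ρ 3 ≤ ‖q‖) c1 := by
    intro l hl
    obtain ⟨e1, e2⟩ := s1 l hl
    obtain ⟨e3, e4⟩ := hall l e1
    have e5 := e4.resolve_right e2
    have := setup_norm_le' l.1 l.2
    exact ⟨by linarith, by linarith, by linarith⟩
  have a1' : All (fun p q => 5 * K.ρ 3 + dist p q + K.ρ 3 < ‖p‖) c1 :=
    a1.mono fun p q hpq => by linarith [hpq.1, hpq.2.1]
  by_cases h0 : c2 = 0
  · rw [h0, add_zero] at hcc
    rw [hcc] at hc ⊢
    refine ⟨c1, hc, ?_, setup_av0 a1'⟩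
    rw [fs_add_self]
    exact Null.zero _
  obtain ⟨l, hl⟩ := Finsupp.support_nonempty_iff.mpr h0
  obtain ⟨-, ⟨-, -, s, hs, -⟩, -⟩ := s2 l hl
  have h16 := (K.τ_lt_one 16).le
  have hab : (0:ℝ) ∈ Icc 0 b := ⟨le_rfl, hs.1.trans hs.2⟩
  obtain ⟨κ, xp, sp, -, h2, h3, h4⟩ := hn _ (min_le_left η (K.ρ 3)) c2 U 0 b b 0 le_rfl hb le_rfl
    (hb.trans h16) hab fun l hl => ⟨(hall l (s2 l hl).1).1, (s2 l hl).2⟩
  have hbd : bd c1 = bd c2 := setup_eq_of_add (by rw [← map_add, ← hcc, hc])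
  set D := K.lev 0 κ +
    (bd c2).sum fun p k => k • (lnk p (K.e (xp p) (sp p)) + K.V n (xp p) (sp p) 0) with hD
  rw [add_assoc, ← hD] at h4
  refine ⟨c1 + D, ?_, ?_, setup_av0 (a1'.add (All.add ?_ ?_))⟩
  · have := h4.bd_eq
    rwa [map_add, ← hbd, ← map_add] at this
  · have := K.setup_Bl_mono le_rfl le_rfl (min_le_left r δ) h4
    convert this using 1
    rw [hcc, ← add_zero (c2 + D), ← fs_add_self c1]
    abel
  · refine (hl0 κ (h3.mono fun x y hxy => hxy.2.2.le.trans (min_le_right _ _))).mono ?_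
    rintro p q ⟨e1, e2⟩
    linarith
  · refine setup_all_sm fun p hp => ?_
    have p1 : K.ρ 2 / 3 - K.ρ 3 ≤ ‖p‖ := by
      rw [← hbd] at hp
      obtain ⟨l, hl, e | e⟩ := mem_bd_support hp
      · rw [e]
        exact (a1 l hl).2.1
      · rw [e]
        exact (a1 l hl).2.2
    have p2 : K.Near U 0 b (min η (K.ρ 3)) p := by
      obtain ⟨l, hl, e | e⟩ := mem_bd_support hp
      · rw [e]
        exact (s2 l hl).2.1
      · rw [e]
        exact (s2 l hl).2.2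
    obtain ⟨-, e2, e3⟩ := h2 p p2
    have e4 := setup_norm_le' p (K.e (xp p) (sp p))
    have hs : sp p ∈ Icc (0:ℝ) 1 := ⟨e2.1, e2.2.trans (hb.trans h16)⟩
    have e5 : sp p < K.τ 2 := K.lev_lt (i := 1) (x := xp p) hs (by linarith)
    refine (All.lnk (by linarith)).add ((hV (xp p) _ hs 0 ⟨le_rfl, zero_le_one⟩).mono ?_)
    rintro u v ⟨f1, -, w, hw, f2⟩
    rw [min_eq_right hs.1, max_eq_left hs.1] at hw
    have f3 := K.big 2 (xp p) w ⟨hw.1, by linarith [hw.2]⟩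
    have f4 := setup_norm_le u (K.e (xp p) w)
    linarith

end Cone

end Pool.Agent.Lib.MP_9e71a3_gt
end

-- part Pool.Agent.Lib.MP_9e71a3_gt.SetupC
section

/-! Clean loops, potentials.  JOB Setup (part C). -/

set_option autoImplicit false
set_option linter.unusedSectionVars false

namespace Pool.Agent.Lib.MP_9e71a3_gt

open Set Metric Filter Topology

theorem setup_bd1_zero {w : Z1} (h : ∀ p ∈ (bd1 w).support, p ∈ (∅ : Set P3)) : bd1 w = 0 := by
  rw [← Finsupp.support_eq_empty, Finset.eq_empty_iff_forall_notMem]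
  exact h

theorem setup_bd_unr {h : ℝ} {w : Z1} (hw : bd1 w = 0) : bd (unr h w) = 0 := by
  rw [bd_unr, hw, Finsupp.mapDomain_zero]

theorem setup_dist_ee {h : ℝ} (hh : 0 < h) (e : Ed) :
    dist (pt h e.2) (pt h (e.2 + ee e.1)) = h := by
  rw [dist_comm, dist_pt_ee hh]

namespace Cone
variable {X : Type} [MetricSpace X] (K : Cone X)
variable [CompactSpace X] [ConnectedSpace X]

theorem setup_bd_pair (n : ℕ) (x y : X) : bd (K.Vf n x + K.Vf n y) = 0 := by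
  rw [map_add, K.bd_Vf, K.bd_Vf, fs_add_self]

/-- a pair of cone lines is a null chain along the cone plus a closed chain far out -/
theorem setup_pair_split {r : ℝ} (hr : 0 < r) : ∀ᶠ n in atTop, ∀ x y, ∃ N O : Ch E3,
    K.Vf n x + K.Vf n y = N + O ∧ Null (K.Bl univ 0 1 r) N ∧ bd O = 0 ∧
      All (fun p q => 5 * K.ρ 1 + dist p q < ‖p‖) O := by
  obtain ⟨η, hη, h⟩ := K.sweep hr
  obtain ⟨δ, hδ, hl0⟩ := K.setup_lev0
  filter_upwards [h] with n hn x y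
  obtain ⟨κ, hκ, hall⟩ := exists_xchain (lt_min hη hδ) x y
  have i0 : (0:ℝ) ∈ Icc (0:ℝ) 1 := ⟨le_rfl, zero_le_one⟩
  have i1 : (1:ℝ) ∈ Icc (0:ℝ) 1 := ⟨zero_le_one, le_rfl⟩
  have n1 := hn κ univ (hall.mono fun a b hab => ⟨mem_univ _, hab.le.trans (min_le_left _ _)⟩)
    0 i0 1 i1
  rw [min_eq_left zero_le_one, max_eq_right zero_le_one, ← setupSm_apply, hκ, setupSm_two] at n1
  have n2 : Null (K.Bl univ 0 1 r) (K.lev 1 κ) := by
    refine setup_null_ball _ _ (K.setup_mem_Bl r (mem_univ x) i1) ?_ ?_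
    · rw [K.bd_lev, hκ, setup_map_two, K.apex, K.apex, setup_two_self]
    · refine K.setup_all_lev fun l _ => ?_
      simp only [K.apex]
      exact ⟨mem_closedBall_self hr.le, mem_closedBall_self hr.le⟩
  refine ⟨_, K.lev 0 κ + K.J x + K.J y, ?_, n1.add n2, ?_, All.add (All.add ?_ (K.J_out x))
    (K.J_out y)⟩
  · rw [← add_zero (K.Vf n x + K.Vf n y), ← add_zero (0 : Ch E3)]
    nth_rewrite 1 [← fs_add_self (K.lev 0 κ)]
    rw [← fs_add_self (K.lev 1 κ)]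
    unfold Vf
    abel
  · rw [map_add, map_add, K.bd_lev, hκ, setup_map_two, K.bd_J, K.bd_J,
      setup_two_comm (K.e x 0) (K.e y 0), setup_two_add, fs_add_self]
  · refine (hl0 κ (hall.mono fun a b hab => hab.le.trans (min_le_right _ _))).mono ?_
    rintro p q ⟨e1, e2⟩
    have := K.ρ_anti (i := 1) (j := 3) le_rfl (by norm_num)
    have := K.ρ_pos 3
    linarith

/-- clean loops do not link pairs of cone lines -/
theorem cloop {μ : ℝ} (hμ : 0 < μ) : ∀ᶠ n in atTop, ∀ γ : Ch E3, bd γ = 0 →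
    All (fun p q => K.Cl μ p q ∧ ‖p‖ ≤ K.ρ 1 ∧ ‖q‖ ≤ K.ρ 1) γ → ∀ x y,
    Lk (ms n) γ (K.Vf n x + K.Vf n y) = 0 ∧ Lk (ms n) (K.Vf n x + K.Vf n y) γ = 0 := by
  have r1 := K.ρ_pos 1
  filter_upwards [K.setup_pair_split (half_pos hμ), ms_small (r := μ / 8) (by linarith),
    ms_small r1] with n hn h1 h2 γ hγ hall x y
  obtain ⟨N, O, hNO, hN, hO, aO⟩ := hn x y
  have hh := ms_pos n
  have av1 : Av (K.Bl univ 0 1 (μ / 2)) (4 * ms n) γ := by
    rintro l hl B ⟨z, -, s, hs, rfl⟩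
    have := (hall l hl).1 z s hs
    simp only
    linarith
  have nγ : Null {((0 : E3), K.ρ 1)} γ :=
    setup_null_ball _ _ (mem_singleton _) hγ (hall.mono fun p q hpq =>
      ⟨by simpa using hpq.2.1, by simpa using hpq.2.2⟩)
  have av2 : Av {((0 : E3), K.ρ 1)} (4 * ms n) O :=
    setup_av0 (aO.mono fun p q hpq => by linarith)
  rw [hNO, Lk_add_right, Lk_add_left, Lk_null_right hh hγ hN av1, Lk_null_left hh nγ hO av2,
    Lk_null_left hh hN hγ av1, Lk_null_right hh hO nγ av2, add_zero]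
  exact ⟨rfl, rfl⟩

/-- potentials on clean edges -/
theorem cf {μ : ℝ} (hμ : 0 < μ) : ∀ᶠ n in atTop, ∀ (x y : X) (E : C1),
    (∀ e : Ed, pt (ms n) e.2 ∈ K.W1 → d1 E e = sh (rho (ms n) (K.Vf n x + K.Vf n y)) e) →
    ∃ f : C0, (∀ e : Ed, pt (ms n) e.2 ∈ K.W0 ∩ K.clean μ → E e = d0 f e) ∧
      ∀ (p q : E3) (c σ : Ch E3), bd c = two p q → bd σ = two p q →
        All (fun a b => K.Cl μ a b ∧ ‖a‖ + dist a b ≤ K.ρ 1 / 2) c →
        All (fun a b => K.ρ 14 + dist a b ≤ ‖a‖ ∧ ‖a‖ + dist a b ≤ K.ρ 4) σ →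
        f (fl (ms n) p) + f (fl (ms n) q) =
          pair E (rho (ms n) σ) + Lk (ms n) (K.Vf n x + K.Vf n y) (c + σ) := by
  have r14 := K.ρ_pos 14
  have r4 := K.ρ_anti (i := 4) (j := 14) (by norm_num) (by norm_num)
  have r1 := K.ρ_anti (i := 1) (j := 4) (by norm_num) (by norm_num)
  filter_upwards [K.cloop (μ := μ / 4) (by linarith), ms_small (r := μ / 4) (by linarith),
    ms_small (r := K.ρ 14 / 60) (by linarith)] with n hn h1 h2 x y E hE
  have hh := ms_pos n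
  set h := ms n with hms
  set z := K.Vf n x + K.Vf n y with hz
  have hbz : bd z = 0 := K.setup_bd_pair n x y
  set G : C1 := KK (rho h z) with hG
  have dG : d1 G = sh (rho h z) := d1_KK (by rw [bd1_rho, hbz, Finsupp.mapDomain_zero])
  obtain ⟨φ, -, hφ⟩ := graph_potential (E + G)
    {e | 6 * K.ρ 14 / 10 ≤ ‖pt h e.2‖ ∧ ‖pt h e.2‖ ≤ 16 * K.ρ 4 / 10} ∅ (by
      intro w hw hb
      rw [← rho_unr hh w]
      refine shell (r := K.ρ 14 / 2) (R := 2 * K.ρ 4) hh (fun e e1 e2 => ?_)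
        (setup_bd_unr (setup_bd1_zero hb)) (all_unr fun e he => ?_)
      · rw [d1_add, Pi.add_apply, hE e ⟨e1, e2⟩, dG, z2_add_self]
      · obtain ⟨e1, e2⟩ := hw e he
        rw [setup_dist_ee hh]
        exact ⟨by linarith, by linarith⟩)
  obtain ⟨t, -, ht⟩ := graph_potential G
    {e | pt h e.2 ∈ K.clean (μ / 2) ∧ ‖pt h e.2‖ ≤ 9 * K.ρ 1 / 10} ∅ (by
      intro w hw hb
      have := (hn (unr h w) (setup_bd_unr (setup_bd1_zero hb)) (all_unr fun e he => ?_) x y).2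
      · rwa [Lk, rho_unr hh] at this
      · obtain ⟨e1, e2⟩ := hw e he
        have e3 := setup_norm_le (pt h e.2) (pt h (e.2 + ee e.1))
        rw [setup_dist_ee hh] at e3
        refine ⟨fun v s hs => ?_, by linarith, by linarith⟩
        have := e1 v s hs
        rw [setup_dist_ee hh]
        linarith)
  refine ⟨t + φ, ?_, ?_⟩
  · rintro e ⟨⟨e1, e2⟩, e3⟩
    have f1 := hφ e ⟨by linarith, by linarith⟩
    have f2 := ht e ⟨fun v s hs => by linarith [e3 v s hs], by linarith⟩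
    rw [d0_add, Pi.add_apply, ← f1, ← f2, Pi.add_apply, add_comm (E e), ← add_assoc, z2_add_self,
      zero_add]
  · intro p q c σ hc hσ ac aσ
    have g1 : pair G (rho h c) = t (fl h p) + t (fl h q) := by
      rw [pair_congr (b := d0 t), pair_d0_rho, hc, pair_two]
      · rfl
      intro e he
      obtain ⟨l, hl, e1, -⟩ := rho_support hh he
      obtain ⟨e2, e3⟩ := ac l hl
      have e4 := setup_norm_le' (pt h e.2) l.1
      refine ht e ⟨fun v s hs => ?_, by linarith⟩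
      have e5 := e2 v s hs
      have e6 := dist_triangle l.1 (pt h e.2) (K.e v s)
      rw [dist_comm l.1 (pt h e.2)] at e6
      linarith
    have g2 : pair (E + G) (rho h σ) = φ (fl h p) + φ (fl h q) := by
      rw [pair_congr (b := d0 φ), pair_d0_rho, hσ, pair_two]
      · rfl
      intro e he
      obtain ⟨l, hl, e1, -⟩ := rho_support hh he
      obtain ⟨e2, e3⟩ := aσ l hl
      have e4 := setup_norm_le' (pt h e.2) l.1
      have e5 := setup_norm_le (pt h e.2) l.1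
      exact hφ e ⟨by linarith, by linarith⟩
    rw [pair_add] at g2
    rw [Lk, ← hG, map_add, map_add, Pi.add_apply, Pi.add_apply, g1]
    linear_combination -g2

/-- a cochain that is closed on the shell and vanishes near the cone vanishes on chains that end
on the cone -/
theorem rc {μ : ℝ} (hμ : 0 < μ) : ∀ᶠ n in atTop, ∀ Φ : C1,
    (∀ e : Ed, pt (ms n) e.2 ∈ K.S1 → d1 Φ e = 0) →
    (∀ e : Ed, pt (ms n) e.2 ∈ K.S2 → pt (ms n) e.2 ∉ K.clean μ → Φ e = 0) →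
    ∀ x y, ∀ s ∈ Icc (K.τ 7) (K.τ 10), ∀ t ∈ Icc (K.τ 7) (K.τ 10), ∀ b : Ch E3,
    bd b = two (K.e x s) (K.e y t) → All (fun p q => p ∈ K.W ∧ dist p q ≤ K.ρ 13) b →
    pair Φ (rho (ms n) b) = 0 := by
  have r13 := K.ρ_pos 13
  have r12 := K.ρ_anti (i := 12) (j := 13) (by norm_num) (by norm_num)
  have r11 := K.ρ_anti (i := 11) (j := 12) (by norm_num) (by norm_num)
  have r7 := K.ρ_anti (i := 7) (j := 11) (by norm_num) (by norm_num)
  have r6 := K.ρ_anti (i := 6) (j := 7) (by norm_num) (by norm_num)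
  have hr0 : 0 < min (μ / 2) (K.ρ 13) := lt_min (half_pos hμ) r13
  have m1 : min (μ / 2) (K.ρ 13) ≤ μ / 2 := min_le_left _ _
  have m2 : min (μ / 2) (K.ρ 13) ≤ K.ρ 13 := min_le_right _ _
  obtain ⟨δ, hδ, hU⟩ := K.UC hr0
  filter_upwards [K.all_V hr0, ms_small hr0] with n hV h1 Φ hd h0 x y s hs t ht b hb ab
  have hh := ms_pos n
  set h := ms n with hms
  have t7 := K.τ_nonneg 7
  have t10 := K.τ_lt_one 10
  have i8 : K.τ 8 ∈ Icc (K.τ 7) (K.τ 10) :=
    ⟨(K.τ_mono (by norm_num)).le, (K.τ_mono (by norm_num)).le⟩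
  have hI : ∀ u ∈ Icc (K.τ 7) (K.τ 10), u ∈ Icc (0:ℝ) 1 := fun u hu =>
    ⟨by linarith [hu.1], by linarith [hu.2]⟩
  have hnorm : ∀ v, ∀ u ∈ Icc (K.τ 7) (K.τ 10),
      10 * K.ρ 11 < ‖K.e v u‖ ∧ ‖K.e v u‖ < K.ρ 7 / 10 := fun v u hu =>
    ⟨K.big 10 v u ⟨(hI u hu).1, hu.2⟩, K.little 6 v u ⟨hu.1, (hI u hu).2⟩⟩
  obtain ⟨κ, hκ, aκ⟩ := exists_xchain hδ x y
  have hVV : ∀ v, ∀ a ∈ Icc (K.τ 7) (K.τ 10), ∀ a' ∈ Icc (K.τ 7) (K.τ 10),
      All (fun p q => dist p q < min (μ / 2) (K.ρ 13) ∧ (∃ v, ∃ s ∈ Icc (0:ℝ) 1, p = K.e v s) ∧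
        9 * K.ρ 11 < ‖p‖ ∧ ‖p‖ < K.ρ 7) (K.V n v a a') := by
    intro v a ha a' ha'
    refine (hV v a (hI a ha) a' (hI a' ha')).mono ?_
    rintro p q ⟨e1, e2, u, hu, e3⟩
    obtain ⟨e4, e5⟩ := hnorm v u ⟨(le_min ha.1 ha'.1).trans hu.1, hu.2.trans (max_le ha.2 ha'.2)⟩
    have e6 := setup_norm_le p (K.e v u)
    have e7 := setup_norm_le' p (K.e v u)
    exact ⟨e1, ⟨v, e2⟩, by linarith, by linarith⟩
  have aD : All (fun p q => dist p q < min (μ / 2) (K.ρ 13) ∧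
      (∃ v, ∃ s ∈ Icc (0:ℝ) 1, p = K.e v s) ∧ 9 * K.ρ 11 < ‖p‖ ∧ ‖p‖ < K.ρ 7)
      (K.V n x s (K.τ 8) + K.lev (K.τ 8) κ + K.V n y (K.τ 8) t) := by
    refine All.add (All.add (hVV x s hs _ i8) (K.setup_all_lev (aκ.mono fun a a' haa => ?_)))
      (hVV y _ i8 t ht)
    obtain ⟨e4, e5⟩ := hnorm a _ i8
    exact ⟨hU a a' _ (hI _ i8) _ (hI _ i8) haa.le (by simp [hδ.le]), ⟨a, _, hI _ i8, rfl⟩,
      by linarith, by linarith⟩
  set D := K.V n x s (K.τ 8) + K.lev (K.τ 8) κ + K.V n y (K.τ 8) t with hD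
  have bD : bd D = two (K.e x s) (K.e y t) := by
    rw [hD, map_add, map_add, K.bd_V n x (hI s hs) (hI _ i8), K.bd_V n y (hI _ i8) (hI t ht),
      K.bd_lev, hκ, setup_map_two, setup_two_add, setup_two_add]
  have g1 : pair Φ (rho h D) = 0 := by
    refine pair_eq_zero fun e he => ?_
    obtain ⟨l, hl, e1, -⟩ := rho_support hh he
    obtain ⟨e2, ⟨v, u, hu, e3⟩, e4, e5⟩ := aD l hl
    have e6 := setup_norm_le (pt h e.2) l.1
    have e7 := setup_norm_le' (pt h e.2) l.1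
    refine h0 e ⟨by linarith, by linarith⟩ fun hc => ?_
    have := hc v u hu
    rw [← e3] at this
    linarith
  have g2 : pair Φ (rho h (b + D)) = 0 := by
    refine shell (r := K.ρ 12 / 2) (R := 2 * K.ρ 6) hh (fun e e1 e2 => hd e ⟨e1, e2⟩) ?_
      (All.add (ab.mono ?_) (aD.mono ?_))
    · rw [map_add, hb, bD, fs_add_self]
    · rintro p q ⟨⟨e1, e2⟩, e3⟩
      exact ⟨by linarith, by linarith⟩
    · rintro p q ⟨e1, -, e2, e3⟩
      exact ⟨by linarith, by linarith⟩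
  rwa [map_add, map_add, g1, add_zero] at g2

end Cone

end Pool.Agent.Lib.MP_9e71a3_gt
end

-- part Pool.Agent.Lib.MP_9e71a3_gt.Setup
section

/-! The embedded cone, radii and levels, projection of chains to the cone.  JOB Setup.
The definitions and most statements are in `SetupA`, `SetupB`, `SetupC`. -/

set_option autoImplicit false

namespace Pool.Agent.Lib.MP_9e71a3_gt

open Set Metric Filter Topology

theorem setup_joined_far {R : ℝ} (hR : 0 < R) {p : E3} (hp : 6 * R < ‖p‖) :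
    JoinedIn {q : E3 | 6 * R < ‖q‖} p (fun _ => 7 * R) := by
  obtain ⟨i, hi⟩ : ∃ i, 6 * R < |p i| := by
    by_contra hc
    push Not at hc
    have : ‖p‖ ≤ 6 * R := (pi_norm_le_iff_of_nonneg (by linarith)).mpr hc
    linarith
  have key : ∀ (j : Fin 3) (a b : E3), a j = b j → 6 * R < |a j| →
      JoinedIn {q : E3 | 6 * R < ‖q‖} a b := by
    intro j a b hab ha
    refine JoinedIn.of_segment_subset ?_
    rintro q ⟨u, v, -, -, huv, rfl⟩
    have h1 : (u • a + v • b) j = a j := by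
      simp only [Pi.add_apply, Pi.smul_apply, smul_eq_mul, ← hab]
      rw [← add_mul, huv, one_mul]
    have h2 := norm_le_pi_norm (u • a + v • b) j
    rw [h1, Real.norm_eq_abs] at h2
    exact ha.trans_le h2
  obtain ⟨j, hj⟩ := exists_ne i
  refine (key i p (Function.update p j (7 * R)) ?_ hi).trans (key j _ _ ?_ ?_)
  · rw [Function.update_of_ne hj.symm]
  · rw [Function.update_self]
  · rw [Function.update_self, abs_of_pos (by linarith)]
    linarith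

theorem setup_step {X : Type} [MetricSpace X] [CompactSpace X] [Nonempty X] {e : X → ℝ → E3}
    (he : Continuous fun p : X × ℝ => e p.1 p.2) (h1 : ∀ x, e x 1 = 0)
    (h0 : ∀ x, ∀ s ∈ Ico (0:ℝ) 1, e x s ≠ 0) (t : Ico (0:ℝ) 1) :
    ∃ (r : ℝ) (t' : Ico (0:ℝ) 1), 0 < r ∧ t.1 < t'.1 ∧ (∀ x, ∀ s ∈ Icc 0 t.1, 10 * r < ‖e x s‖) ∧
      ∀ x, ∀ s ∈ Icc t'.1 1, ‖e x s‖ < r / 10 := by
  obtain ⟨t, ht0, ht1⟩ := t
  have hc : IsCompact ((univ : Set X) ×ˢ Icc (0:ℝ) t) := isCompact_univ.prod isCompact_Icc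
  obtain ⟨x0⟩ : Nonempty X := inferInstance
  obtain ⟨z, hz, hmin⟩ := hc.exists_isMinOn ⟨(x0, 0), mem_univ _, le_rfl, ht0⟩ he.norm.continuousOn
  have hpos : 0 < ‖e z.1 z.2‖ := norm_pos_iff.mpr (h0 _ _ ⟨hz.2.1, hz.2.2.trans_lt ht1⟩)
  obtain ⟨δ, hδ, hU⟩ := setup_uc he (ε := ‖e z.1 z.2‖ / 20 / 10) (by linarith)
  have hlt : t < max ((t + 1) / 2) (1 - δ) := lt_max_of_lt_left (by linarith)
  refine ⟨‖e z.1 z.2‖ / 20, ⟨max ((t + 1) / 2) (1 - δ), by linarith,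
    max_lt (by linarith) (by linarith)⟩, by linarith, hlt, fun x s hs => ?_, fun x s hs => ?_⟩
  · have : ‖e z.1 z.2‖ ≤ ‖e x s‖ := hmin (a := (x, s)) ⟨mem_univ _, hs⟩
    linarith
  · have e1 : 1 - δ ≤ s := (le_max_right _ _).trans hs.1
    have e2 : t < s := hlt.trans_le hs.1
    have := hU x x s ⟨by linarith, hs.2⟩ 1 ⟨zero_le_one, le_rfl⟩ (by simp [hδ.le])
      (abs_le.mpr ⟨by linarith, by linarith [hs.2]⟩)
    rwa [h1, dist_zero_right] at this

theorem exists_cone {X : Type} [MetricSpace X] [CompactSpace X] [Nonempty X]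
    (g : X × unitInterval → EuclideanSpace ℝ (Fin 3)) (hg : Continuous g)
    (hinj : ∀ p q : X × unitInterval, g p = g q ↔ (p = q ∨ (p.2 = 1 ∧ q.2 = 1))) :
    Nonempty (Cone X) := by
  obtain ⟨x0⟩ : Nonempty X := inferInstance
  let L := EuclideanSpace.equiv (Fin 3) ℝ
  let e : X → ℝ → E3 := fun x t => L (g (x, projIcc 0 1 zero_le_one t) - g (x0, 1))
  have he : Continuous fun p : X × ℝ => e p.1 p.2 :=
    L.continuous.comp ((hg.comp (continuous_fst.prodMk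
      (continuous_projIcc.comp continuous_snd))).sub continuous_const)
  have hi : ∀ x y, ∀ s ∈ Icc (0:ℝ) 1, ∀ t ∈ Icc (0:ℝ) 1, s < 1 → e x s = e y t → x = y ∧ s = t := by
    intro x y s hs t ht h1 h
    have h2 := sub_left_injective (L.injective h)
    rw [projIcc_of_mem _ hs, projIcc_of_mem _ ht] at h2
    rcases (hinj _ _).mp h2 with h3 | ⟨h3, -⟩
    · exact ⟨congrArg Prod.fst h3, congrArg Subtype.val (congrArg Prod.snd h3)⟩
    · exact absurd (congrArg Subtype.val h3) h1.ne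
  have h1 : ∀ x, e x 1 = 0 := by
    intro x
    have : g (x, projIcc 0 1 zero_le_one 1) = g (x0, 1) :=
      (hinj _ _).mpr (Or.inr ⟨by simp, rfl⟩)
    simp only [e, this, sub_self, map_zero]
  have h0 : ∀ x, ∀ s ∈ Ico (0:ℝ) 1, e x s ≠ 0 := by
    intro x s hs h
    rw [← h1 x] at h
    exact hs.2.ne (hi x x s ⟨hs.1, hs.2.le⟩ 1 ⟨zero_le_one, le_rfl⟩ hs.2 h).2
  choose r nx hr hlt hbig hlittle using setup_step he h1 h0
  let τ : ℕ → Ico (0:ℝ) 1 := fun n => nx^[n] ⟨0, le_rfl, zero_lt_one⟩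
  have hτ : ∀ n, τ (n + 1) = nx (τ n) := fun n => Function.iterate_succ_apply' _ _ _
  let ρ : ℕ → ℝ := fun n => Nat.casesOn n 1 fun m => r (τ m)
  have hρ1 : 0 < ρ 1 := hr _
  have hJ : ∀ x, ∃ c : Ch E3, bd c = two (e x 0) (fun _ => 7 * ρ 1) ∧
      All (fun p q => 5 * ρ 1 + dist p q < ‖p‖) c := by
    intro x
    have h6 : 6 * ρ 1 < ‖e x 0‖ := by
      have : 10 * ρ 1 < ‖e x 0‖ := hbig (τ 0) x 0 ⟨le_rfl, (τ 0).2.1⟩
      linarith
    obtain ⟨c, hc, hall⟩ := exists_fine_chain (setup_joined_far hρ1 h6) hρ1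
    refine ⟨c, hc, hall.mono ?_⟩
    rintro p q ⟨e1, -, e2⟩
    have : 6 * ρ 1 < ‖p‖ := e1
    linarith
  choose J hJ1 hJ2 using hJ
  refine ⟨⟨e, ρ, fun n => (τ n).1, J, fun _ => 7 * ρ 1, he, hi, h1, ?_, rfl, ?_,
    fun i => (τ i).2.2, fun i => hbig (τ i), ?_, hJ1, hJ2, ?_⟩⟩
  · rintro (_ | i)
    · exact one_pos
    · exact hr _
  · intro i
    simp only [hτ]
    exact hlt _
  · intro i
    simp only [hτ]
    exact hlittle (τ i)
  · rw [pi_norm_const, Real.norm_eq_abs, abs_of_pos (by linarith)]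
    linarith

end Pool.Agent.Lib.MP_9e71a3_gt
end
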