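import Pool.Agent.Lib.MP_9e71a3_gt.Setup
import Pool.Agent.Lib.MP_9e71a3_gt.LamA

-- part Pool.Agent.Lib.MP_9e71a3_gt.Germ
section

/-! Germs: accessible points of the complementary domains.  JOB Germ. -/

set_option autoImplicit false

namespace Pool.Agent.Lib.MP_9e71a3_gt

open Set Metric Filter Topology

/-- Alexander lemma in a box -/
theorem alexander {c p q : E3} {R : ℝ} {A1 A2 : Set E3} (h1 : IsCompact A1) (h2 : IsCompact A2)
    (h12 : (A1 ∩ A2).Subsingleton) (j1 : JoinedIn (ball c R \ A1) p q)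
    (j2 : JoinedIn (ball c R \ A2) p q) : JoinedIn (ball c R \ (A1 ∪ A2)) p q :=
  GermA.alex h1.isClosed h2.isClosed h12 j1 j2

/-- finitely many disjoint arcs do not separate a box -/
theorem arcs_not_separate {ι : Type} (F : Finset ι) (γ : ι → ℝ → E3) (hγ : ∀ i, Continuous (γ i))
    {a b : ℝ} (hinj : ∀ i ∈ F, ∀ j ∈ F, ∀ s ∈ Icc a b, ∀ t ∈ Icc a b, γ i s = γ j t → i = j ∧ s = t)
    {c p q : E3} {R : ℝ} (hp : p ∈ ball c R) (hq : q ∈ ball c R)
    (hpA : ∀ i ∈ F, p ∉ γ i '' Icc a b) (hqA : ∀ i ∈ F, q ∉ γ i '' Icc a b) :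
    JoinedIn (ball c R \ ⋃ i ∈ F, γ i '' Icc a b) p q :=
  GermA.arcs F γ hγ hinj hp hq hpA hqA

structure Germs {X : Type} [MetricSpace X] (K : Cone X) where
  G : Set X
  dom : X → X
  lv : X → ℝ
  leg : X → ℝ → E3
  countable : G.Countable
  lv_mem : ∀ k ∈ G, lv k ∈ Icc (K.τ 7) (K.τ 10)
  leg_cont : ∀ k, Continuous (leg k)
  leg_zero : ∀ k ∈ G, leg k 0 = K.e k (lv k)
  leg_mem : ∀ k ∈ G, ∀ u ∈ Ioc (0:ℝ) 1, leg k u ∈ K.W \ K.C
  dom_mem : ∀ k ∈ G, dom k ∈ G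
  dom_dom : ∀ k ∈ G, dom (dom k) = dom k
  leg_one : ∀ k ∈ G, ∀ k' ∈ G, dom k = dom k' → leg k 1 = leg k' 1
  dom_eq : ∀ k ∈ G, ∀ k' ∈ G, JoinedIn (K.W \ K.C) (leg k 1) (leg k' 1) → dom k = dom k'
  other : ∀ k ∈ G, ∃ k' ∈ G, k' ≠ k ∧ dom k' = dom k
  dense : ∀ ε > 0, ∃ δ > 0, ∀ p ∉ K.C, ∀ x, ∀ s ∈ Icc (K.τ 8) (K.τ 9), dist p (K.e x s) < δ →
    ∃ k ∈ G, ∃ u ∈ Ioc (0:ℝ) 1, (∀ w ∈ Icc 0 u, leg k w ∈ ball p ε) ∧
      JoinedIn (ball p ε \ K.C) p (leg k u)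

namespace GermB

/-- distinct representatives for countably many infinite sets -/
theorem sdr_nat {X : Type} (S : ℕ → Set X) (h : ∀ n, (S n).Infinite) :
    ∃ f : ℕ → X, Function.Injective f ∧ ∀ n, f n ∈ S n := by
  classical
  have key : ∀ (n : ℕ) (F : Finset X), ∃ x ∈ S n, x ∉ F := fun n F => (h n).exists_notMem_finset F
  choose g hg hg' using key
  let Fs : ℕ → Finset X := fun n => Nat.rec ∅ (fun m F => insert (g m F) F) n
  have hs : ∀ n, Fs (n + 1) = insert (g n (Fs n)) (Fs n) := fun n => rfl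
  have hmono : Monotone Fs := monotone_nat_of_le_succ fun n => by
    rw [hs]
    exact Finset.subset_insert _ _
  have hlt : ∀ m n, m < n → g m (Fs m) ≠ g n (Fs n) := by
    intro m n hmn he
    have : g m (Fs m) ∈ Fs n := hmono (Nat.succ_le_of_lt hmn) (by
      rw [hs]
      exact Finset.mem_insert_self _ _)
    exact hg' n (Fs n) (he ▸ this)
  refine ⟨fun n => g n (Fs n), fun m n he => ?_, fun n => hg n _⟩
  rcases lt_trichotomy m n with h1 | h1 | h1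
  · exact absurd he (hlt m n h1)
  · exact h1
  · exact absurd he.symm (hlt n m h1)

theorem sdr {ι X : Type} [Countable ι] (S : ι → Set X) (h : ∀ i, (S i).Infinite) :
    ∃ f : ι → X, Function.Injective f ∧ ∀ i, f i ∈ S i := by
  rcases isEmpty_or_nonempty ι with he | hn
  · exact ⟨fun i => he.elim i, fun i => he.elim i, fun i => he.elim i⟩
  obtain ⟨g, hg⟩ := exists_surjective_nat ι
  obtain ⟨f, hf, hf'⟩ := sdr_nat (fun n => S (g n)) fun n => h _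
  refine ⟨fun i => f (Function.surjInv hg i), hf.comp (Function.injective_surjInv hg), fun i => ?_⟩
  have := hf' (Function.surjInv hg i)
  rwa [Function.surjInv_eq hg] at this

variable {X : Type} [MetricSpace X] [CompactSpace X] [ConnectedSpace X] (K : Cone X)

/-- the middle shell -/
def Sh : Set E3 := {p | K.ρ 10 < ‖p‖ ∧ ‖p‖ < K.ρ 8}

theorem Sh_sub_W : Sh K ⊆ K.W := by
  intro p hp
  have h1 := K.ρ_anti (i := 10) (j := 12) (by norm_num) (by norm_num)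
  have h2 := K.ρ_anti (i := 6) (j := 8) (by norm_num) (by norm_num)
  have h3 := K.ρ_pos 12
  have h4 := K.ρ_pos 8
  exact ⟨by linarith [hp.1], by linarith [hp.2]⟩

theorem lev_Sh {x : X} {s : ℝ} (hs : s ∈ Icc (0:ℝ) 1) (h : K.e x s ∈ Sh K) :
    s ∈ Icc (K.τ 7) (K.τ 10) := by
  have h3 := K.ρ_pos 10
  have h4 := K.ρ_pos 8
  have h5 : ‖K.e x s‖ ≤ 10 * K.ρ 8 := by linarith [h.2]
  have h6 : K.ρ 10 / 10 ≤ ‖K.e x s‖ := by linarith [h.1]
  exact ⟨(K.lev_gt (i := 7) hs h5).le, (K.lev_lt (i := 9) hs h6).le⟩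

/-- `k` is the base of a cone point that is accessible from `q` inside the ball -/
def Adm (q : E3) (R : ℝ) : Set X :=
  {k | ∃ s ∈ Icc (0:ℝ) 1, ∃ π : ℝ → E3, Continuous π ∧ π 0 = K.e k s ∧ π 1 = q ∧
    (∀ u ∈ Icc (0:ℝ) 1, π u ∈ ball q R) ∧ ∀ u ∈ Ioc (0:ℝ) 1, π u ∉ K.C}

theorem first_hit {U : Set E3} {q y : E3} (hq : q ∉ K.C) (hy : y ∈ K.C) (j : JoinedIn U q y) :
    ∃ π : ℝ → E3, Continuous π ∧ π 0 ∈ K.C ∧ π 1 = q ∧ (∀ u, π u ∈ U) ∧
      ∀ u ∈ Ioc (0:ℝ) 1, π u ∉ K.C := by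
  obtain ⟨γ, hγ⟩ := j
  have hc : Continuous γ.extend := γ.continuous_extend
  have hU : ∀ t, γ.extend t ∈ U := by
    intro t
    have : γ.extend t ∈ range γ := by
      rw [← γ.extend_range]
      exact mem_range_self t
    obtain ⟨u, hu⟩ := this
    rw [← hu]
    exact hγ u
  have hT : IsCompact (Icc (0:ℝ) 1 ∩ γ.extend ⁻¹' K.C) :=
    isCompact_Icc.inter_right (K.isCompact_C.isClosed.preimage hc)
  have hne : (Icc (0:ℝ) 1 ∩ γ.extend ⁻¹' K.C).Nonempty :=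
    ⟨1, ⟨zero_le_one, le_rfl⟩, by simpa using hy⟩
  obtain ⟨t0, ht0, hmin⟩ := hT.exists_isLeast hne
  have hpos : 0 < t0 := by
    refine lt_of_le_of_ne ht0.1.1 ?_
    rintro rfl
    exact hq (by simpa using ht0.2)
  refine ⟨fun u => γ.extend (t0 * (1 - u)), hc.comp (by fun_prop), by simpa using ht0.2, by simp,
    fun u => hU _, fun u hu hmem => ?_⟩
  have h1 : 0 ≤ t0 * (1 - u) := mul_nonneg hpos.le (by linarith [hu.2])
  have h2 : t0 * (1 - u) < t0 := by nlinarith [hu.1]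
  exact absurd (hmin ⟨⟨h1, h2.le.trans ht0.1.2⟩, hmem⟩) (not_le.mpr h2)

theorem adm_infinite [Nontrivial X] {q : E3} {R : ℝ} (hq : q ∉ K.C) (hB : ball q R ⊆ Sh K)
    (hne : (ball q R ∩ K.C).Nonempty) : (Adm K q R).Infinite := by
  classical
  intro hfin
  obtain ⟨y0, hy0, x0, s0, hs0, rfl⟩ := hne
  have hR : 0 < R := nonempty_ball.mp ⟨_, hy0⟩
  have h16 : K.τ 10 < K.τ 16 := K.τ_mono (by norm_num)
  have hsub : Icc (0:ℝ) (K.τ 16) ⊆ Icc 0 1 := Icc_subset_Icc le_rfl (K.τ_lt_one 16).le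
  have hc : Continuous fun x => K.e x s0 :=
    K.cont.comp (continuous_id.prodMk continuous_const)
  have hinf : {x | K.e x s0 ∈ ball q R}.Infinite :=
    infinite_of_mem_nhds x0 ((isOpen_ball.preimage hc).mem_nhds hy0)
  obtain ⟨x, hx, hxF⟩ := hinf.exists_notMem_finite hfin
  have j := arcs_not_separate hfin.toFinset K.e K.cont_e (a := 0) (b := K.τ 16)
    (fun i _ j _ s hs t ht h => K.inj i j s (hsub hs) t (hsub ht)
      (hs.2.trans_lt (K.τ_lt_one 16)) h)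
    (mem_ball_self hR) (show K.e x s0 ∈ ball q R from hx)
    (fun i _ ⟨s, hs, h⟩ => hq ⟨i, s, hsub hs, h.symm⟩)
    (fun i hi ⟨s, hs, h⟩ => hxF (by
      have := (K.inj i x s (hsub hs) s0 hs0 (hs.2.trans_lt (K.τ_lt_one 16)) h).1
      rw [← this]
      exact hfin.mem_toFinset.mp hi))
  obtain ⟨π, πc, ⟨k, s, hs, π0⟩, π1, πU, πC⟩ := first_hit K hq ⟨x, s0, hs0, rfl⟩ j
  have hk : k ∈ Adm K q R := ⟨s, hs, π, πc, π0, π1, fun u _ => (πU u).1, πC⟩
  have hlev := lev_Sh K hs (π0 ▸ hB (πU 0).1)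
  refine (πU 0).2 ?_
  simp only [mem_iUnion]
  exact ⟨k, hfin.mem_toFinset.mpr hk, s, ⟨hs.1, hlev.2.trans h16.le⟩, π0.symm⟩

/-- the reference point of a component -/
noncomputable def ref (O : Set E3) (q : E3) : E3 := Classical.epsilon fun r => JoinedIn O q r

theorem ref_spec {O : Set E3} {q : E3} (hq : q ∈ O) : JoinedIn O q (ref O q) :=
  Classical.epsilon_spec (p := fun r => JoinedIn O q r) ⟨q, JoinedIn.refl hq⟩

theorem ref_congr {O : Set E3} {q q' : E3} (h : JoinedIn O q q') : ref O q = ref O q' := by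
  have : (fun r => JoinedIn O q r) = fun r => JoinedIn O q' r :=
    funext fun r => propext ⟨fun j => h.symm.trans j, fun j => h.trans j⟩
  unfold ref
  rw [this]

/-- the properties of a leg -/
structure IsLeg (q : E3) (R : ℝ) (k : X) (s : ℝ) (l : ℝ → E3) : Prop where
  lv : s ∈ Icc (K.τ 7) (K.τ 10)
  zero : l 0 = K.e k s
  mem : ∀ u ∈ Ioc (0:ℝ) 1, l u ∈ K.W \ K.C
  one : l 1 = ref (K.W \ K.C) q
  half : l (1 / 2) = q
  near : ∀ w ∈ Icc (0:ℝ) (1 / 2), l w ∈ ball q R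
  base : q ∈ K.W \ K.C

theorem exists_leg {q : E3} {R : ℝ} (hq : q ∉ K.C) (hB : ball q R ⊆ Sh K) {k : X}
    (hk : k ∈ Adm K q R) : ∃ s l, Continuous l ∧ IsLeg K q R k s l := by
  obtain ⟨s, hs, π, πc, π0, π1, πB, πC⟩ := hk
  have hqB : q ∈ ball q R := π1 ▸ πB 1 ⟨zero_le_one, le_rfl⟩
  have hqO : q ∈ K.W \ K.C := ⟨Sh_sub_W K (hB hqB), hq⟩
  obtain ⟨σ, hσ⟩ := ref_spec hqO
  have hU : ∀ t, σ.extend t ∈ K.W \ K.C := by
    intro t
    have : σ.extend t ∈ range σ := by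
      rw [← σ.extend_range]
      exact mem_range_self t
    obtain ⟨u, hu⟩ := this
    rw [← hu]
    exact hσ u
  have hc : Continuous σ.extend := σ.continuous_extend
  let l : ℝ → E3 := fun u => π (min (2 * u) 1) + σ.extend (2 * u - 1) - q
  have l1 : ∀ u, u ≤ 1 / 2 → l u = π (2 * u) := by
    intro u hu
    simp only [l]
    rw [min_eq_left (by linarith), σ.extend_of_le_zero (by linarith), add_sub_cancel_right]
  have l2 : ∀ u, 1 / 2 ≤ u → l u = σ.extend (2 * u - 1) := by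
    intro u hu
    simp only [l]
    rw [min_eq_right (by linarith), π1, add_sub_cancel_left]
  refine ⟨s, l, ?_, ?_, ?_, ?_, ?_, ?_, ?_, hqO⟩
  · exact ((πc.comp (by fun_prop)).add (hc.comp (by fun_prop))).sub continuous_const
  · exact lev_Sh K hs (π0 ▸ hB (πB 0 ⟨le_rfl, zero_le_one⟩))
  · rw [l1 0 (by norm_num), mul_zero, π0]
  · intro u hu
    rcases le_total u (1 / 2) with h | h
    · rw [l1 u h]
      exact ⟨Sh_sub_W K (hB (πB _ ⟨by linarith [hu.1], by linarith⟩)),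
        πC _ ⟨by linarith [hu.1], by linarith⟩⟩
    · rw [l2 u h]
      exact hU _
  · rw [l2 1 (by norm_num), σ.extend_of_one_le (by norm_num)]
  · rw [l1 _ le_rfl, ← π1]
    norm_num
  · intro w hw
    rw [l1 w hw.2]
    exact πB _ ⟨by linarith [hw.1], by linarith [hw.2]⟩

/-- the tasks -/
def Task : Type :=
  {t : ℕ × ℚ × Bool // TopologicalSpace.denseSeq E3 t.1 ∉ K.C ∧
    ball (TopologicalSpace.denseSeq E3 t.1) (t.2.1 : ℝ) ⊆ Sh K ∧
    (ball (TopologicalSpace.denseSeq E3 t.1) (t.2.1 : ℝ) ∩ K.C).Nonempty}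

instance : Countable (Task K) := by
  unfold Task
  infer_instance

theorem exists_task {ε : ℝ} (hε : 0 < ε) : ∃ δ > 0, ∀ p ∉ K.C, ∀ x, ∀ s ∈ Icc (K.τ 8) (K.τ 9),
    dist p (K.e x s) < δ → ∃ t : Task K,
      ball (TopologicalSpace.denseSeq E3 t.1.1) (t.1.2.1 : ℝ) ⊆ ball p ε ∧
      JoinedIn (ball p ε \ K.C) p (TopologicalSpace.denseSeq E3 t.1.1) := by
  have h10 := K.ρ_pos 10
  have h108 := K.ρ_anti (i := 8) (j := 10) (by norm_num) (by norm_num)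
  obtain ⟨η, hη, hηε, hη10⟩ : ∃ η > 0, η ≤ ε ∧ η ≤ K.ρ 10 :=
    ⟨min ε (K.ρ 10), lt_min hε h10, min_le_left _ _, min_le_right _ _⟩
  refine ⟨η / 4, by positivity, fun p hp x s hs hd => ?_⟩
  have hs0 : 0 ≤ s := (K.τ_nonneg 8).trans hs.1
  have hs1 : s ≤ 1 := hs.2.trans (K.τ_lt_one 9).le
  have n1 : 10 * K.ρ 10 < ‖K.e x s‖ := K.big 9 x s ⟨hs0, hs.2⟩
  have n2 : ‖K.e x s‖ < K.ρ 8 / 10 := K.little 7 x s ⟨hs.1, hs1⟩
  obtain ⟨r, hr, hrC⟩ := Metric.isOpen_iff.mp K.isCompact_C.isClosed.isOpen_compl p hp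
  obtain ⟨n, hn⟩ := (TopologicalSpace.denseRange_denseSeq E3).exists_dist_lt p
    (lt_min hr (show 0 < η / 8 by positivity))
  obtain ⟨R, hR1, hR2⟩ := exists_rat_btwn (show η / 2 < 3 * η / 4 by linarith)
  set q := TopologicalSpace.denseSeq E3 n with hq
  have hn1 : dist p q < r := hn.trans_le (min_le_left _ _)
  have hn2 : dist p q < η / 8 := hn.trans_le (min_le_right _ _)
  have hqp : ∀ y ∈ ball q (R : ℝ), dist y p < η := by
    intro y hy
    have := dist_triangle_right y p q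
    rw [mem_ball] at hy
    linarith
  refine ⟨⟨(n, R, true), hrC (mem_ball'.mpr hn1), ?_, K.e x s, ?_, x, s, ⟨hs0, hs1⟩, rfl⟩, ?_, ?_⟩
  · intro y hy
    have d1 := dist_triangle y p (K.e x s)
    have d2 := hqp y hy
    have d3 := abs_norm_sub_norm_le y (K.e x s)
    rw [← dist_eq_norm, abs_le] at d3
    exact ⟨by linarith [d3.1], by linarith [d3.2]⟩
  · have := dist_triangle_left (K.e x s) q p
    show dist (K.e x s) q < R
    linarith
  · intro y hy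
    exact (hqp y hy).trans_le hηε
  · refine (GermA.joined_ball (c := p) (R := min r (η / 8))
      (mem_ball_self (lt_min hr (by positivity))) (mem_ball'.mpr hn)).mono ?_
    intro y hy
    exact ⟨ball_subset_ball ((min_le_right _ _).trans (by linarith)) hy,
      hrC (ball_subset_ball (min_le_left _ _) hy)⟩

end GermB

theorem exists_germs {X : Type} [MetricSpace X] [CompactSpace X] [ConnectedSpace X] [Nontrivial X]
    (K : Cone X) : Nonempty (Germs K) := by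
  classical
  let qq : GermB.Task K → E3 := fun t => TopologicalSpace.denseSeq E3 t.1.1
  let RR : GermB.Task K → ℝ := fun t => (t.1.2.1 : ℝ)
  obtain ⟨f, hf, hfA⟩ := GermB.sdr (fun t : GermB.Task K => GermB.Adm K (qq t) (RR t))
    fun t => GermB.adm_infinite K t.2.1 t.2.2.1 t.2.2.2
  have key : ∀ k : X, ∃ (s : ℝ) (l : ℝ → E3), Continuous l ∧
      ∀ t, f t = k → GermB.IsLeg K (qq t) (RR t) k s l := by
    intro k
    by_cases hk : ∃ t, f t = k
    · obtain ⟨t, rfl⟩ := hk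
      obtain ⟨s, l, hl, hleg⟩ := GermB.exists_leg K t.2.1 t.2.2.1 (hfA t)
      refine ⟨s, l, hl, fun t' ht' => ?_⟩
      rw [hf ht']
      exact hleg
    · exact ⟨0, fun _ => 0, continuous_const, fun t ht => absurd ⟨t, ht⟩ hk⟩
  choose lv leg hcont hleg using key
  have : Nonempty X := inferInstance
  let dom : X → X := fun k => Classical.epsilon fun k' => k' ∈ range f ∧ leg k' 1 = leg k 1
  have hdom : ∀ k ∈ range f, dom k ∈ range f ∧ leg (dom k) 1 = leg k 1 := fun k hk =>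
    Classical.epsilon_spec (p := fun k' => k' ∈ range f ∧ leg k' 1 = leg k 1) ⟨k, hk, rfl⟩
  have hcongr : ∀ k k', leg k 1 = leg k' 1 → dom k = dom k' := by
    intro k k' h
    simp only [dom, h]
  refine ⟨⟨range f, dom, lv, leg, countable_range f, ?_, hcont, ?_, ?_, fun k hk => (hdom k hk).1,
    fun k hk => hcongr _ _ (hdom k hk).2, ?_, ?_, ?_, ?_⟩⟩
  · rintro k ⟨t, ht⟩
    exact (hleg k t ht).lv
  · rintro k ⟨t, ht⟩
    exact (hleg k t ht).zero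
  · rintro k ⟨t, ht⟩
    exact (hleg k t ht).mem
  · intro k hk k' hk' h
    rw [← (hdom k hk).2, ← (hdom k' hk').2, h]
  · rintro k ⟨t, ht⟩ k' ⟨t', ht'⟩ j
    have h1 := hleg k t ht
    have h2 := hleg k' t' ht'
    rw [h1.one, h2.one] at j
    refine hcongr _ _ ?_
    rw [h1.one, h2.one]
    exact GermB.ref_congr (((GermB.ref_spec h1.base).trans j).trans (GermB.ref_spec h2.base).symm)
  · rintro k ⟨t, ht⟩
    let t' : GermB.Task K := ⟨(t.1.1, t.1.2.1, !t.1.2.2), t.2⟩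
    refine ⟨f t', ⟨t', rfl⟩, ?_, hcongr _ _ ?_⟩
    · intro h
      have h1 : t' = t := hf (h.trans ht.symm)
      have h2 : (!t.1.2.2) = t.1.2.2 := congrArg (fun z : GermB.Task K => z.1.2.2) h1
      simp at h2
    · rw [(hleg _ t' rfl).one, (hleg k t ht).one]
  · intro ε hε
    obtain ⟨δ, hδ, h⟩ := GermB.exists_task K hε
    refine ⟨δ, hδ, fun p hp x s hs hd => ?_⟩
    obtain ⟨t, h1, h2⟩ := h p hp x s hs hd
    have h3 := hleg (f t) t rfl
    refine ⟨f t, ⟨t, rfl⟩, 1 / 2, ⟨by norm_num, by norm_num⟩, fun w hw => h1 (h3.near w hw), ?_⟩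
    rw [h3.half]
    exact h2

end Pool.Agent.Lib.MP_9e71a3_gt
end

-- part Pool.Agent.Lib.MP_9e71a3_gt.ThetaA
section

/-! The side function, the crossing form, small chords: definitions and elementary facts. -/

set_option autoImplicit false
set_option linter.unusedSectionVars false

namespace Pool.Agent.Lib.MP_9e71a3_gt

open Set Metric Filter Topology

namespace Germs
variable {X : Type} [MetricSpace X] {K : Cone X} (Γ : Germs K)

def ord (pos : X → ℝ) : Ord3 X := ⟨Γ.G, Γ.dom, pos⟩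

/-- discretised leg -/
noncomputable def Lg (n : ℕ) (k : X) (u v : ℝ) : Ch E3 := cC (Γ.leg k) (n + 1) u v
/-- from the reference point of the domain through the germ to infinity -/
noncomputable def up (n : ℕ) (k : X) : Ch E3 := K.V n k 0 (Γ.lv k) + K.J k + Γ.Lg n k 0 1
/-- from the reference point of the domain through the germ to the apex -/
noncomputable def dn (n : ℕ) (k : X) : Ch E3 := K.V n k (Γ.lv k) 1 + Γ.Lg n k 0 1
/-- from the reference point of the domain through the germ to the middle level -/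
noncomputable def md (n : ℕ) (k : X) : Ch E3 := K.V n k (K.τ 8) (Γ.lv k) + Γ.Lg n k 0 1
/-- the spatial chain of a chain of `X` -/
noncomputable def zz (n : ℕ) (κ : Ch X) : Ch E3 :=
  K.lev (K.τ 8) κ + (bd κ).sum fun k c => c • Γ.md n k

theorem zz_add (n : ℕ) (κ κ' : Ch X) : Γ.zz n (κ + κ') = Γ.zz n κ + Γ.zz n κ' := by
  unfold zz
  rw [map_add, map_add, Finsupp.sum_add_index' (h := fun k c => c • Γ.md n k)
    (fun _ => zero_smul _ _) (fun _ _ _ => add_smul _ _ _)]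
  abel
theorem zz_zero (n : ℕ) : Γ.zz n 0 = 0 := by
  unfold zz
  rw [map_zero, map_zero, Finsupp.sum_zero_index, add_zero]

/-- the side function -/
noncomputable def theta : Ch X →+ (X → Z2) where
  toFun κ := fun x => ulim fun n => Lk (ms n) (Γ.zz n κ) (K.Vf n x)
  map_zero' := by
    funext x
    simp only [zz_zero, Lk_zero_left, Pi.zero_apply]
    exact ulim_eq (Eventually.of_forall fun _ => rfl)
  map_add' κ κ' := by
    funext x
    simp only [zz_add, Lk_add_left, Pi.add_apply, ulim_add]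

noncomputable def betan (n : ℕ) (k g : X) : Z2 :=
  Lk (ms n) (Γ.up n k) (Γ.dn n g) + Lk (ms n) (Γ.dn n k) (Γ.up n g)
noncomputable def beta (k g : X) : Z2 := ulim fun n => Γ.betan n k g
noncomputable def crn (n : ℕ) (a b c d : X) : Z2 :=
  Γ.betan n a c + Γ.betan n a d + Γ.betan n b c + Γ.betan n b d
/-- the crossing form -/
noncomputable def cr (a b c d : X) : Z2 := Γ.beta a c + Γ.beta a d + Γ.beta b c + Γ.beta b d

/-- the initial part `[0,u]` of the leg is `δ`-close to its base -/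
def Ini (k : X) (u δ : ℝ) : Prop :=
  u ∈ Ioc (0:ℝ) 1 ∧ ∀ w ∈ Icc 0 u, dist (Γ.leg k w) (K.e k (Γ.lv k)) < δ

def small (ε : ℝ) (k k' : X) : Prop :=
  k ∈ Γ.G ∧ k' ∈ Γ.G ∧ Γ.dom k = Γ.dom k' ∧ dist k k' < ε ∧ ∃ u u', Γ.Ini k u ε ∧ Γ.Ini k' u' ε ∧
    JoinedIn ((K.W \ K.C) ∩ K.tube ε k ∩ K.tube ε k') (Γ.leg k u) (Γ.leg k' u')

variable [CompactSpace X] [ConnectedSpace X]

theorem cr_spec (a b c d : X) : ∀ᶠ n in hyperfilter ℕ, Γ.crn n a b c d = Γ.cr a b c d := by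
  filter_upwards [ulim_spec (fun n => Γ.betan n a c), ulim_spec (fun n => Γ.betan n a d),
    ulim_spec (fun n => Γ.betan n b c), ulim_spec (fun n => Γ.betan n b d)] with n h1 h2 h3 h4
  unfold crn cr beta
  rw [h1, h2, h3, h4]

theorem lv_mem01 {k : X} (hk : k ∈ Γ.G) : Γ.lv k ∈ Icc (0:ℝ) 1 :=
  ⟨(K.τ_nonneg 7).trans (Γ.lv_mem k hk).1, (Γ.lv_mem k hk).2.trans (K.τ_lt_one 10).le⟩

theorem theta_lv_le {k : X} (hk : k ∈ Γ.G) : Γ.lv k ∈ Icc (0:ℝ) (K.τ 16) :=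
  ⟨(Γ.lv_mem01 hk).1, (Γ.lv_mem k hk).2.trans (K.τ_mono (by norm_num)).le⟩

theorem leg_mem_W {k : X} (hk : k ∈ Γ.G) {u : ℝ} (hu : u ∈ Icc (0:ℝ) 1) : Γ.leg k u ∈ K.W := by
  rcases hu.1.eq_or_lt with h | h
  · subst h
    rw [Γ.leg_zero k hk]
    have h1 := K.big 10 k (Γ.lv k) ⟨(Γ.lv_mem01 hk).1, (Γ.lv_mem k hk).2⟩
    have h2 := K.little 6 k (Γ.lv k) ⟨(Γ.lv_mem k hk).1, (Γ.lv_mem01 hk).2⟩
    have h3 := K.ρ_anti (i := 11) (j := 12) (by norm_num) (by norm_num)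
    have h4 := K.ρ_anti (i := 6) (j := 7) (by norm_num) (by norm_num)
    have h5 := K.ρ_pos 12
    have h6 := K.ρ_pos 7
    norm_num at h1 h2
    constructor <;> linarith
  · exact (Γ.leg_mem k hk u ⟨h, hu.2⟩).1

theorem exists_ini {k : X} (hk : k ∈ Γ.G) {δ u0 : ℝ} (hδ : 0 < δ) (hu0 : 0 < u0) :
    ∃ u ≤ u0, Γ.Ini k u δ := by
  obtain ⟨d, hd, h⟩ := Metric.continuousAt_iff.1 ((Γ.leg_cont k).continuousAt (x := 0)) δ hδ
  have hm : 0 < min (min u0 1) (d / 2) := lt_min (lt_min hu0 one_pos) (by linarith)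
  refine ⟨min (min u0 1) (d / 2), (min_le_left _ _).trans (min_le_left _ _),
    ⟨hm, (min_le_left _ _).trans (min_le_right _ _)⟩, fun w hw => ?_⟩
  rw [← Γ.leg_zero k hk]
  apply h
  rw [Real.dist_eq, sub_zero, abs_of_nonneg hw.1]
  have := hw.2.trans (min_le_right _ _)
  linarith

theorem joined_leg {k : X} {u v : ℝ} {U : Set E3}
    (h : ∀ w ∈ Icc (min u v) (max u v), Γ.leg k w ∈ U) : JoinedIn U (Γ.leg k u) (Γ.leg k v) := by
  refine JoinedIn.ofLine (f := fun t => Γ.leg k (u + t * (v - u))) ?_ (by simp) (by simp) ?_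
  · exact ((Γ.leg_cont k).comp (by fun_prop)).continuousOn
  · rintro _ ⟨t, ht, rfl⟩
    apply h
    have h0 := ht.1
    have h1 := ht.2
    rcases le_total u v with huv | huv
    · rw [min_eq_left huv, max_eq_right huv]
      constructor <;> nlinarith
    · rw [min_eq_right huv, max_eq_left huv]
      constructor <;> nlinarith

theorem theta_joined_one {k : X} (hk : k ∈ Γ.G) {u : ℝ} (hu : u ∈ Ioc (0:ℝ) 1) :
    JoinedIn (K.W \ K.C) (Γ.leg k u) (Γ.leg k 1) := by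
  apply Γ.joined_leg
  intro w hw
  rw [min_eq_left hu.2, max_eq_right hu.2] at hw
  exact Γ.leg_mem k hk w ⟨hu.1.trans_le hw.1, hw.2⟩

theorem dom_eq_of_joined {k k' : X} (hk : k ∈ Γ.G) (hk' : k' ∈ Γ.G) {u u' : ℝ}
    (hu : u ∈ Ioc (0:ℝ) 1) (hu' : u' ∈ Ioc (0:ℝ) 1)
    (h : JoinedIn (K.W \ K.C) (Γ.leg k u) (Γ.leg k' u')) : Γ.dom k = Γ.dom k' :=
  Γ.dom_eq k hk k' hk'
    (((Γ.theta_joined_one hk hu).symm.trans h).trans (Γ.theta_joined_one hk' hu'))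

theorem joined_of_dom_eq {k k' : X} (hk : k ∈ Γ.G) (hk' : k' ∈ Γ.G) {u u' : ℝ}
    (hu : u ∈ Ioc (0:ℝ) 1) (hu' : u' ∈ Ioc (0:ℝ) 1) (h : Γ.dom k = Γ.dom k') :
    JoinedIn (K.W \ K.C) (Γ.leg k u) (Γ.leg k' u') := by
  have h1 := Γ.theta_joined_one hk hu
  rw [Γ.leg_one k hk k' hk' h] at h1
  exact h1.trans (Γ.theta_joined_one hk' hu').symm

theorem theta_bd_Lg (n : ℕ) (k : X) {a b : ℝ} (ha : a ∈ Icc (0:ℝ) 1) (hb : b ∈ Icc (0:ℝ) 1) :
    bd (Γ.Lg n k a b) = two (Γ.leg k a) (Γ.leg k b) := bd_cC _ (Nat.succ_pos n) ha hb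

theorem bd_up (n : ℕ) {k : X} (hk : k ∈ Γ.G) : bd (Γ.up n k) = two K.Pinf (Γ.leg k 1) := by
  unfold up
  rw [map_add, map_add, K.bd_V n k ⟨le_rfl, zero_le_one⟩ (Γ.lv_mem01 hk), K.bd_J,
    Γ.theta_bd_Lg n k ⟨le_rfl, zero_le_one⟩ ⟨zero_le_one, le_rfl⟩, Γ.leg_zero k hk]
  unfold two
  linear_combination (norm := abel1) fs_add_self (Finsupp.single (K.e k 0) (1 : Z2)) +
    fs_add_self (Finsupp.single (K.e k (Γ.lv k)) (1 : Z2))

theorem bd_dn (n : ℕ) {k : X} (hk : k ∈ Γ.G) : bd (Γ.dn n k) = two 0 (Γ.leg k 1) := by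
  unfold dn
  rw [map_add, K.bd_V n k (Γ.lv_mem01 hk) ⟨zero_le_one, le_rfl⟩,
    Γ.theta_bd_Lg n k ⟨le_rfl, zero_le_one⟩ ⟨zero_le_one, le_rfl⟩, Γ.leg_zero k hk, K.apex]
  unfold two
  linear_combination (norm := abel1) fs_add_self (Finsupp.single (K.e k (Γ.lv k)) (1 : Z2))

theorem theta_τ_mem (i : ℕ) : K.τ i ∈ Icc (0:ℝ) 1 := ⟨K.τ_nonneg i, (K.τ_lt_one i).le⟩

theorem theta_bd_md (n : ℕ) {k : X} (hk : k ∈ Γ.G) :
    bd (Γ.md n k) = two (K.e k (K.τ 8)) (Γ.leg k 1) := by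
  unfold md
  rw [map_add, K.bd_V n k (theta_τ_mem 8) (Γ.lv_mem01 hk),
    Γ.theta_bd_Lg n k ⟨le_rfl, zero_le_one⟩ ⟨zero_le_one, le_rfl⟩, Γ.leg_zero k hk]
  unfold two
  linear_combination (norm := abel1) fs_add_self (Finsupp.single (K.e k (Γ.lv k)) (1 : Z2))

theorem up_add_dn (n : ℕ) (k : X) : Γ.up n k + Γ.dn n k = K.Vf n k := by
  unfold up dn Cone.Vf Cone.V
  linear_combination (norm := abel1) cC_add (K.e k) (n + 1) 0 (Γ.lv k) 1 +
    fs_add_self (Γ.Lg n k 0 1)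

theorem theta_mapDomain_eq {A B : Type} (f : A → B) (Z : A →₀ Z2) :
    Finsupp.mapDomain f Z = Z.sum fun k c => c • Finsupp.single (f k) (1 : Z2) := by
  unfold Finsupp.mapDomain
  refine Finsupp.sum_congr fun k _ => ?_
  rw [Finsupp.smul_single, smul_eq_mul, mul_one]

theorem bd_zz (pos : X → ℝ) (n : ℕ) {κ : Ch X} (h : (Γ.ord pos).Ev (bd κ)) :
    bd (Γ.zz n κ) = 0 := by
  unfold zz
  rw [map_add, K.bd_lev, bd_sum_smul, theta_mapDomain_eq]
  have h1 : ((bd κ).sum fun k c => c • bd (Γ.md n k)) =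
      ((bd κ).sum fun k c => c • Finsupp.single (K.e k (K.τ 8)) (1 : Z2)) +
        (bd κ).sum fun k c => c • Finsupp.single (Γ.leg k 1) (1 : Z2) := by
    rw [← Finsupp.sum_add]
    refine Finsupp.sum_congr fun k hk => ?_
    rw [Γ.theta_bd_md n (h.mem hk), two, smul_add]
  have h2 := h.sum_eq_zero (fun k => Finsupp.single (Γ.leg k 1) (1 : Z2))
    (fun a b hab => by rw [Γ.leg_one a hab.1 b hab.2.1 hab.2.2])
  rw [h1, h2, add_zero, fs_add_self]

/-- the links of the discretised legs -/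
theorem all_Lg (k : X) {r : ℝ} (hr : 0 < r) : ∀ᶠ n in atTop, ∀ a ∈ Icc (0:ℝ) 1, ∀ b ∈ Icc (0:ℝ) 1,
    All (fun p q => dist p q < r ∧ (∃ w ∈ Icc (0:ℝ) (max a b), p = Γ.leg k w) ∧
      (∃ w ∈ Icc (0:ℝ) (max a b), q = Γ.leg k w) ∧
      ∃ w ∈ Icc (min a b) (max a b), dist p (Γ.leg k w) < r) (Γ.Lg n k a b) := by
  filter_upwards [eventually_fine (Γ.leg_cont k) hr] with n hn a ha b hb
  refine all_cC _ (Nat.succ_pos n) ha hb fun u v hu0 hu huv hv hd => ?_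
  have hm : max a b ≤ 1 := max_le ha.2 hb.2
  have hu1 : u ∈ Icc (0:ℝ) 1 := ⟨hu0, huv.trans (hv.trans hm)⟩
  have hv1 : v ∈ Icc (0:ℝ) 1 := ⟨hu0.trans huv, hv.trans hm⟩
  refine ⟨hn u hu1 v hv1 (by rwa [abs_of_nonneg (by linarith)]), ⟨u, ⟨hu0, huv.trans hv⟩, rfl⟩,
    ⟨v, ⟨hv1.1, hv⟩, rfl⟩, max u (min a b), ⟨le_max_right _ _,
      max_le (huv.trans hv) min_le_max⟩, hn u hu1 _ ⟨hu0.trans (le_max_left _ _),
      max_le hu1.2 (min_le_max.trans hm)⟩ ?_⟩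
  rw [abs_of_nonneg (by linarith [le_max_left u (min a b)])]
  rcases le_total u (min a b) with h | h
  · rw [max_eq_right h]; linarith
  · rw [max_eq_left h, sub_self]; positivity

/-- the outer parts of legs are clean -/
theorem Lg_clean {k : X} (hk : k ∈ Γ.G) {u : ℝ} (hu : u ∈ Ioc (0:ℝ) 1) : ∃ μ > 0, ∀ᶠ n in atTop,
    All (fun p q => K.Cl μ p q ∧ p ∈ K.W ∧ q ∈ K.W) (Γ.Lg n k u 1) := by
  have hu0 := hu.1
  obtain ⟨μ, hμ, hc⟩ := K.exists_clean (A := Γ.leg k '' Icc (u / 2) 1)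
    (isCompact_Icc.image (Γ.leg_cont k)) (by
      rw [Set.disjoint_left]
      rintro _ ⟨w, hw, rfl⟩
      exact (Γ.leg_mem k hk w ⟨by linarith [hw.1], hw.2⟩).2)
  refine ⟨μ / 2, by linarith, ?_⟩
  filter_upwards [eventually_fine (Γ.leg_cont k) (half_pos hμ), ms_small (half_pos hu0)]
    with n hn hms
  refine all_cC _ (Nat.succ_pos n) ⟨hu0.le, hu.2⟩ ⟨zero_le_one, le_rfl⟩
    fun a b ha0 ha hab hb hd => ?_
  rw [max_eq_right hu.2] at hb
  rw [min_eq_left hu.2] at ha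
  have ha1 : a ∈ Icc (0:ℝ) 1 := ⟨ha0, hab.trans hb⟩
  have hb1 : b ∈ Icc (0:ℝ) 1 := ⟨ha0.trans hab, hb⟩
  refine ⟨fun x s hs => ?_, Γ.leg_mem_W hk ha1, Γ.leg_mem_W hk hb1⟩
  have h1 := hn a ha1 b hb1 (by rwa [abs_of_nonneg (by linarith)])
  have h2 : u / 2 ≤ a := by
    unfold ms at hms
    push_cast at ha
    linarith
  have h3 := hc ⟨a, ⟨h2, ha1.2⟩, rfl⟩ x s hs
  linarith

theorem theta_tube_mono {ε ε' : ℝ} (h : ε ≤ ε') (x : X) : K.tube ε x ⊆ K.tube ε' x := by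
  rintro p ⟨s, hs, hp⟩
  exact ⟨s, hs, hp.trans_le h⟩

theorem theta_ini_mono {k : X} {u δ δ' : ℝ} (h : Γ.Ini k u δ) (hδ : δ ≤ δ') : Γ.Ini k u δ' :=
  ⟨h.1, fun w hw => (h.2 w hw).trans_le hδ⟩

theorem theta_ini_tube {k : X} (hk : k ∈ Γ.G) {u δ : ℝ} (h : Γ.Ini k u δ) {w : ℝ}
    (hw : w ∈ Icc 0 u) : Γ.leg k w ∈ K.tube δ k := ⟨_, Γ.lv_mem01 hk, h.2 w hw⟩

theorem small_refl {ε : ℝ} {a : X} (hε : 0 < ε) (ha : a ∈ Γ.G) : Γ.small ε a a := by
  obtain ⟨u, -, hu⟩ := Γ.exists_ini ha hε one_pos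
  have ht := Γ.theta_ini_tube ha hu ⟨hu.1.1.le, le_rfl⟩
  exact ⟨ha, ha, rfl, by simpa using hε, u, u, hu, hu,
    JoinedIn.refl ⟨⟨Γ.leg_mem a ha u hu.1, ht⟩, ht⟩⟩

theorem small_symm {ε : ℝ} {a b : X} (h : Γ.small ε a b) : Γ.small ε b a := by
  obtain ⟨ha, hb, hd, hab, u, u', hu, hu', hj⟩ := h
  exact ⟨hb, ha, hd.symm, by rwa [dist_comm], u', u, hu', hu,
    hj.symm.mono fun p hp => ⟨⟨hp.1.1, hp.2⟩, hp.1.2⟩⟩

theorem small_mono {ε ε' : ℝ} {a b : X} (hε : ε ≤ ε') (h : Γ.small ε a b) : Γ.small ε' a b := by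
  obtain ⟨ha, hb, hd, hab, u, u', hu, hu', hj⟩ := h
  exact ⟨ha, hb, hd, hab.trans_le hε, u, u', Γ.theta_ini_mono hu hε, Γ.theta_ini_mono hu' hε,
    hj.mono fun p hp => ⟨⟨hp.1.1, theta_tube_mono hε _ hp.1.2⟩, theta_tube_mono hε _ hp.2⟩⟩

theorem small_trans {ε : ℝ} (hε : 0 < ε) : ∃ δ > 0, ∀ a b c, Γ.small δ a b → Γ.small δ b c →
    Γ.small ε a c := by
  obtain ⟨δ0, hδ0, ht⟩ := K.tube_sub (half_pos hε)
  have h1 : min δ0 (ε / 2) ≤ δ0 := min_le_left _ _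
  have h2 : min δ0 (ε / 2) ≤ ε / 2 := min_le_right _ _
  refine ⟨min δ0 (ε / 2), lt_min hδ0 (half_pos hε), fun a b c hab hbc => ?_⟩
  obtain ⟨ha, hb, hd, hab, u, u', hu, hu', hj⟩ := hab
  obtain ⟨-, hc, hd', hbc, v, v', hv, hv', hj'⟩ := hbc
  have hsub : (K.W \ K.C) ∩ K.tube (min δ0 (ε / 2)) b ⊆
      (K.W \ K.C) ∩ K.tube ε a ∩ K.tube ε c := by
    intro p hp
    refine ⟨⟨hp.1, ?_⟩, ?_⟩
    · exact theta_tube_mono (by linarith) _ (ht a b (by linarith) _ hp.2)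
    · exact theta_tube_mono (by linarith) _ (ht c b (by rw [dist_comm]; linarith) _ hp.2)
  refine ⟨ha, hc, hd.trans hd', by linarith [dist_triangle a b c], u, v',
    Γ.theta_ini_mono hu (by linarith), Γ.theta_ini_mono hv' (by linarith), ?_⟩
  refine JoinedIn.mono ?_ hsub
  have j1 : JoinedIn ((K.W \ K.C) ∩ K.tube (min δ0 (ε / 2)) b) (Γ.leg a u) (Γ.leg b u') :=
    hj.mono fun p hp => ⟨hp.1.1, hp.2⟩
  refine (j1.trans (Γ.joined_leg fun w hw => ?_)).trans (hj'.mono fun p hp => hp.1)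
  have hw0 : 0 < w := (lt_min hu'.1.1 hv.1.1).trans_le hw.1
  refine ⟨Γ.leg_mem b hb w ⟨hw0, hw.2.trans (max_le hu'.1.2 hv.1.2)⟩, ?_⟩
  rcases le_total u' v with h | h
  · rw [max_eq_right h] at hw
    exact Γ.theta_ini_tube hb hv ⟨hw0.le, hw.2⟩
  · rw [max_eq_left h] at hw
    exact Γ.theta_ini_tube hb hu' ⟨hw0.le, hw.2⟩

/-- a one-sided criterion for smallness -/
theorem small_of_joined {ε : ℝ} (hε : 0 < ε) : ∃ δ > 0, ∀ k ∈ Γ.G, ∀ k' ∈ Γ.G, ∀ u u',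
    Γ.Ini k u δ → Γ.Ini k' u' δ →
    JoinedIn ((K.W \ K.C) ∩ K.tube δ k) (Γ.leg k u) (Γ.leg k' u') → Γ.small ε k k' := by
  obtain ⟨δ0, hδ0, ht⟩ := K.tube_sub (half_pos hε)
  obtain ⟨η, hη, hI⟩ := K.IM (lt_min hδ0 hε)
  have h1 : min (η / 2) (ε / 2) ≤ η / 2 := min_le_left _ _
  have h2 : min (η / 2) (ε / 2) ≤ ε / 2 := min_le_right _ _
  refine ⟨min (η / 2) (ε / 2), lt_min (half_pos hη) (half_pos hε),
    fun k hk k' hk' u u' hu hu' hj => ?_⟩
  obtain ⟨s, hs, hd⟩ := hj.target_mem.2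
  have hd' := hu'.2 u' ⟨hu'.1.1.le, le_rfl⟩
  have hkk := (hI k' k _ (Γ.theta_lv_le hk') s hs (by
    linarith [dist_triangle_left (K.e k' (Γ.lv k')) (K.e k s) (Γ.leg k' u')])).1
  refine ⟨hk, hk', Γ.dom_eq_of_joined hk hk' hu.1 hu'.1 (hj.mono inter_subset_left),
    by rw [dist_comm]; exact hkk.trans_le (min_le_right _ _), u, u',
    Γ.theta_ini_mono hu (by linarith), Γ.theta_ini_mono hu' (by linarith),
    hj.mono fun p hp => ⟨⟨hp.1, theta_tube_mono (by linarith) _ hp.2⟩, ?_⟩⟩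
  exact theta_tube_mono (by linarith) _ (ht k' k (hkk.le.trans (min_le_left _ _)) _ hp.2)

end Germs

end Pool.Agent.Lib.MP_9e71a3_gt
end

-- part Pool.Agent.Lib.MP_9e71a3_gt.ThetaB
section

/-! Local connectedness of `X` with jumps along small chords. -/

set_option autoImplicit false
set_option linter.unusedSectionVars false

namespace Pool.Agent.Lib.MP_9e71a3_gt

open Set Metric Filter Topology

namespace Germs
variable {X : Type} [MetricSpace X] {K : Cone X} (Γ : Germs K)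
variable [CompactSpace X] [ConnectedSpace X]

theorem theta_joined_ball {c p q : E3} {r : ℝ} (hp : p ∈ ball c r) (hq : q ∈ ball c r) :
    JoinedIn (ball c r) p q :=
  ((convex_ball c r).isPathConnected ⟨p, hp⟩).joinedIn p hp q hq

theorem LC {ε : ℝ} (hε : 0 < ε) : ∃ δ > 0, ∀ x y : X, dist x y < δ → ∀ η > 0,
    Relation.ReflTransGen
      (fun p q => p ∈ ball x ε ∧ q ∈ ball x ε ∧ (dist p q < η ∨ Γ.small ε p q)) x y := by
  obtain ⟨δ1, hδ1, hsm⟩ := Γ.small_of_joined hε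
  have h89 : K.τ 8 < K.τ 9 := K.τ_mono (by norm_num)
  have h916 : K.τ 9 < K.τ 16 := K.τ_mono (by norm_num)
  have h80 := K.τ_nonneg 8
  have h91 := K.τ_lt_one 9
  obtain ⟨t, ht⟩ : ∃ t, t = (K.τ 8 + K.τ 9) / 2 := ⟨_, rfl⟩
  have ht16 : t ∈ Icc (0:ℝ) (K.τ 16) := ⟨by linarith, by linarith⟩
  have ht1 : t ∈ Icc (0:ℝ) 1 := ⟨by linarith, by linarith⟩
  obtain ⟨η0, hη0, hI0⟩ := K.IM (lt_min hε (show 0 < (K.τ 9 - K.τ 8) / 2 by linarith))
  have hρ10 := K.ρ_pos 10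
  have hρ12 := K.ρ_pos 12
  have hρa := K.ρ_anti (i := 10) (j := 12) (by norm_num) (by norm_num)
  have hρb := K.ρ_anti (i := 8) (j := 10) (by norm_num) (by norm_num)
  have hρc := K.ρ_anti (i := 6) (j := 8) (by norm_num) (by norm_num)
  -- the scales
  obtain ⟨d, hd, hd1, hd2⟩ : ∃ d > 0, d ≤ δ1 / 2 ∧ d ≤ η0 / 2 :=
    ⟨min (δ1 / 2) (η0 / 2), lt_min (by linarith) (by linarith), min_le_left _ _, min_le_right _ _⟩
  obtain ⟨R, hR, hR1, hR2⟩ : ∃ R > 0, R ≤ d / 4 ∧ R ≤ K.ρ 10 :=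
    ⟨min (d / 4) (K.ρ 10), lt_min (by linarith) hρ10, min_le_left _ _, min_le_right _ _⟩
  obtain ⟨δ, hδ, hU⟩ := K.UC hR
  refine ⟨δ, hδ, fun x y hxy η hη => ?_⟩
  obtain ⟨η1, hη1, hI1⟩ := K.IM hη
  set rel : X → X → Prop :=
    fun p q => p ∈ ball x ε ∧ q ∈ ball x ε ∧ (dist p q < η ∨ Γ.small ε p q) with hrel
  set B' : Set E3 := ball (K.e x t) (2 * R) with hB'
  have hBW : B' ⊆ K.W := by
    intro p hp
    have h1 := K.big 9 x t ⟨ht1.1, by linarith⟩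
    have h2 := K.little 7 x t ⟨by linarith, ht1.2⟩
    have h3 : dist p (K.e x t) < 2 * R := hp
    have h4 := dist_norm_norm_le p (K.e x t)
    rw [Real.dist_eq, ← dist_eq_norm, abs_le] at h4
    norm_num at h1 h2
    constructor <;> linarith [h4.1, h4.2]
  -- points of the cone near the centre
  have hnear : ∀ z, ∀ s ∈ Icc (0:ℝ) 1, dist (K.e z s) (K.e x t) ≤ η0 →
      z ∈ ball x ε ∧ s ∈ Icc (K.τ 8) (K.τ 9) := by
    intro z s hs h
    obtain ⟨h1, h2⟩ := hI0 x z t ht16 s hs (by rwa [dist_comm])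
    have h3 := abs_lt.1 (h2.trans_le (min_le_right _ _))
    exact ⟨by rw [mem_ball, dist_comm]; exact h1.trans_le (min_le_left _ _),
      by linarith [h3.2], by linarith [h3.1]⟩
  have hgerm : ∀ k ∈ Γ.G, ∀ u, Γ.Ini k u d → Γ.leg k u ∈ B' → k ∈ ball x ε := by
    intro k hk u hu hB
    have h1 := hu.2 u ⟨hu.1.1.le, le_rfl⟩
    have h2 : dist (Γ.leg k u) (K.e x t) < 2 * R := hB
    refine (hnear k _ (Γ.lv_mem01 hk) ?_).1
    linarith [dist_triangle_left (K.e k (Γ.lv k)) (K.e x t) (Γ.leg k u)]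
  have hpair : ∀ k ∈ Γ.G, ∀ k' ∈ Γ.G, ∀ u u', Γ.Ini k u d → Γ.Ini k' u' d →
      JoinedIn (B' \ K.C) (Γ.leg k u) (Γ.leg k' u') → rel k k' := by
    intro k hk k' hk' u u' hu hu' hj
    refine ⟨hgerm k hk u hu hj.source_mem.1, hgerm k' hk' u' hu' hj.target_mem.1, Or.inr ?_⟩
    refine hsm k hk k' hk' u u' (Γ.theta_ini_mono hu (by linarith))
      (Γ.theta_ini_mono hu' (by linarith)) (hj.mono fun p hp => ⟨⟨hBW hp.1, hp.2⟩, ?_⟩)
    refine ⟨_, Γ.lv_mem01 hk, ?_⟩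
    have h1 := hu.2 u ⟨hu.1.1.le, le_rfl⟩
    have h2 : dist (Γ.leg k u) (K.e x t) < 2 * R := hj.source_mem.1
    have h3 : dist p (K.e x t) < 2 * R := hp.1
    linarith [dist_triangle p (Γ.leg k u) (K.e k (Γ.lv k)),
      dist_triangle_right p (Γ.leg k u) (K.e x t)]
  set good : E3 → Prop := fun p =>
    (∀ z, ∀ s ∈ Icc (0:ℝ) 1, p = K.e z s → Relation.ReflTransGen rel x z) ∧
      (p ∉ K.C → ∃ k ∈ Γ.G, ∃ u, Relation.ReflTransGen rel x k ∧ Γ.Ini k u d ∧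
        JoinedIn (B' \ K.C) p (Γ.leg k u)) with hgood
  have hon : ∀ z, ∀ s ∈ Icc (0:ℝ) 1, K.e z s ∈ ball (K.e x t) R →
      ∀ᶠ p in 𝓝 (K.e z s), (good p ↔ Relation.ReflTransGen rel x z) := by
    intro z s hs hz
    have hz' : dist (K.e z s) (K.e x t) < R := hz
    obtain ⟨hzx, hs89⟩ := hnear z s hs (by linarith)
    have hs16 : s ∈ Icc (0:ℝ) (K.τ 16) := ⟨hs.1, by linarith [hs89.2]⟩
    obtain ⟨ε', hε', he1, he2⟩ : ∃ ε' > 0, ε' ≤ η1 / 2 ∧ ε' ≤ R / 2 :=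
      ⟨min (η1 / 2) (R / 2), lt_min (by linarith) (by linarith), min_le_left _ _,
        min_le_right _ _⟩
    obtain ⟨δ', hδ', hden⟩ := Γ.dense ε' hε'
    have hstep : ∀ z', ∀ s' ∈ Icc (0:ℝ) 1, dist (K.e z s) (K.e z' s') ≤ 2 * ε' →
        rel z z' ∧ rel z' z := by
      intro z' s' hs' h
      have h1 := (hI1 z z' s hs16 s' hs' (by linarith)).1
      have h2 := (hnear z' s' hs' (by
        linarith [dist_triangle_left (K.e z' s') (K.e x t) (K.e z s)])).1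
      exact ⟨⟨hzx, h2, Or.inl h1⟩, ⟨h2, hzx, Or.inl (by rwa [dist_comm])⟩⟩
    filter_upwards [ball_mem_nhds (K.e z s) (lt_min hδ' hε')] with p hp
    have hp1 : dist p (K.e z s) < δ' := (mem_ball.1 hp).trans_le (min_le_left _ _)
    have hp2 : dist p (K.e z s) < ε' := (mem_ball.1 hp).trans_le (min_le_right _ _)
    by_cases hpC : p ∈ K.C
    · constructor
      · intro hg
        obtain ⟨z', s', hs', rfl⟩ := hpC
        exact (hg.1 z' s' hs' rfl).tail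
          (hstep z' s' hs' (by rw [dist_comm]; linarith)).2
      · intro hr
        refine ⟨fun z' s' hs' hp' => hr.tail (hstep z' s' hs' ?_).1, fun h => absurd hpC h⟩
        rw [← hp', dist_comm]; linarith
    · obtain ⟨k, hk, u, hu, hleg, hj⟩ := hden p hpC z s hs89 hp1
      have h0 : dist (K.e k (Γ.lv k)) p < ε' := by
        rw [← Γ.leg_zero k hk]; exact hleg 0 ⟨le_rfl, hu.1.le⟩
      have hini : Γ.Ini k u d := by
        refine ⟨hu, fun w hw => ?_⟩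
        have h1 : dist (Γ.leg k w) p < ε' := hleg w hw
        linarith [dist_triangle_right (Γ.leg k w) (K.e k (Γ.lv k)) p]
      have hj' : JoinedIn (B' \ K.C) p (Γ.leg k u) := by
        refine hj.mono fun q hq => ⟨?_, hq.2⟩
        have h1 : dist q p < ε' := hq.1
        show dist q (K.e x t) < 2 * R
        linarith [dist_triangle4 q p (K.e z s) (K.e x t)]
      have hzk := hstep k _ (Γ.lv_mem01 hk) (by
        linarith [dist_triangle_right (K.e z s) (K.e k (Γ.lv k)) p, dist_comm p (K.e z s)])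
      constructor
      · intro hg
        obtain ⟨k2, hk2, u2, hr2, hu2, hj2⟩ := hg.2 hpC
        exact (hr2.tail (hpair k2 hk2 k hk u2 u hu2 hini (hj2.symm.trans hj'))).tail hzk.2
      · intro hr
        exact ⟨fun z' s' hs' hp' => absurd ⟨z', s', hs', hp'⟩ hpC,
          fun _ => ⟨k, hk, u, hr.tail hzk.1, hini, hj'⟩⟩
  have hoff : ∀ p q, JoinedIn (B' \ K.C) p q → good p → good q := by
    intro p q hj hg
    refine ⟨fun z s hs hq => absurd ⟨z, s, hs, hq⟩ hj.target_mem.2, fun _ => ?_⟩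
    obtain ⟨k, hk, u, hr, hu, hj'⟩ := hg.2 hj.source_mem.2
    exact ⟨k, hk, u, hr, hu, hj.symm.trans hj'⟩
  have hloc : ∀ p ∈ ball (K.e x t) R, ∀ᶠ q in 𝓝[ball (K.e x t) R] p,
      (good p → good q) ∧ (good q → good p) := by
    intro p hp
    refine Eventually.filter_mono nhdsWithin_le_nhds ?_
    by_cases hpC : p ∈ K.C
    · obtain ⟨z, s, hs, rfl⟩ := hpC
      have h := hon z s hs hp
      filter_upwards [h] with q hq
      exact ⟨fun hg => hq.2 (h.self_of_nhds.1 hg), fun hg => h.self_of_nhds.2 (hq.1 hg)⟩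
    · have hopen : IsOpen (B' \ K.C) := isOpen_ball.sdiff K.isCompact_C.isClosed
      obtain ⟨r, hr, hsub⟩ := Metric.isOpen_iff.1 hopen p
        ⟨ball_subset_ball (by linarith) hp, hpC⟩
      filter_upwards [ball_mem_nhds p hr] with q hq
      have hj : JoinedIn (B' \ K.C) p q := (theta_joined_ball (mem_ball_self hr) hq).mono hsub
      exact ⟨hoff p q hj, hoff q p hj.symm⟩
  have hx : K.e x t ∈ ball (K.e x t) R := mem_ball_self hR
  have hy : K.e y t ∈ ball (K.e x t) R := by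
    rw [mem_ball, dist_comm]
    exact hU x y t ht1 t ht1 hxy.le (by simpa using hδ.le)
  have hfin := (convex_ball (K.e x t) R).isPreconnected.induction₂'
    (fun p q => good p → good q) hloc (fun _ _ _ _ _ _ h1 h2 h => h2 (h1 h)) hx hy
  exact (hfin ((hon x t ht1 hx).self_of_nhds.2 Relation.ReflTransGen.refl)).1 y t ht1 rfl

end Germs

end Pool.Agent.Lib.MP_9e71a3_gt
end
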