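import Pool.Agent.Lib.MP_9e71a3_gt.LamA
import Pool.Agent.Lib.MP_9e71a3_gt.Path

-- part Pool.Agent.Lib.MP_9e71a3_gt.LamB
section

/-! Uncrossing a null family of chords. -/

set_option autoImplicit false

namespace Pool.Agent.Lib.MP_9e71a3_gt

open Set Metric Filter Topology Relation

theorem lam_rev {α : Type} {r : α → α → Prop} {x y : α} (h : ReflTransGen r x y)
    (H : ∀ a b, r a b → r b a) : ReflTransGen r y x := by
  induction h with
  | refl => exact ReflTransGen.refl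
  | tail _ hbc ih => exact ReflTransGen.head (H _ _ hbc) ih

namespace Str
variable {X : Type} [MetricSpace X] {S : Str X} {E : Set (X × X)}

/-- inner points at which a chord of `E` leaves `(a,b)` to the right -/
def lamIn (S : Str X) (E : Set (X × X)) (a b u : X) : Prop :=
  S.pos a < S.pos u ∧ S.pos u < S.pos b ∧ ∃ w, (u, w) ∈ E ∧ S.pos b < S.pos w

def lamA (S : Str X) (E : Set (X × X)) (a b : X) : Set X := {u | u = a ∨ u = b ∨ S.lamIn E a b u}

/-- consecutive points -/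
def lamC (S : Str X) (E : Set (X × X)) (a b u v : X) : Prop :=
  u ∈ S.lamA E a b ∧ v ∈ S.lamA E a b ∧ S.pos u < S.pos v ∧
    ∀ t ∈ S.lamA E a b, S.pos u < S.pos t → S.pos v ≤ S.pos t

theorem lam_unif {α : Type} {F : Set α} (hF : F.Finite) (Q : α → X → X → Prop)
    (h : ∀ f ∈ F, ∃ δ > 0, ∀ c d, S.small δ c d → Q f c d) :
    ∃ δ > 0, ∀ f ∈ F, ∀ c d, S.small δ c d → Q f c d := by
  choose! δ h0 h1 using h
  obtain ⟨r, r0, hr⟩ := lam_min hF δ h0
  exact ⟨r, r0, fun f hf c d hcd => h1 f hf c d (S.small_mono _ _ _ _ (hr f hf) hcd)⟩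

theorem lam_two {ε : ℝ} {a p q : X} (h1 : S.small ε a p) (h2 : S.small ε a q) :
    dist p q < 2 * ε := by
  have := dist_triangle_left p q a
  linarith [S.small_dist _ _ _ h1, S.small_dist _ _ _ h2]

theorem lam_dist_pos {a b : X} (h : S.pos a < S.pos b) : 0 < dist a b :=
  dist_pos.2 fun e => h.ne (congrArg S.pos e)

theorem lamA_chord (hE : S.PreLam E) {a b u : X} (hab : S.Chord a b) (hu : u ∈ S.lamA E a b) :
    S.Chord a u := by
  rcases hu with rfl | rfl | ⟨h1, h2, w, hw, -⟩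
  · exact Ord3.Chord.refl hab.1
  · exact hab
  · exact ⟨hab.1, (hE.chord _ hw).1,
      (S.good.convex a b u hab (hE.chord _ hw).1 (Or.inl ⟨h1, h2⟩)).symm⟩

theorem lamA_le {a b u : X} (hab : S.pos a < S.pos b) (hu : u ∈ S.lamA E a b) :
    S.pos a ≤ S.pos u ∧ S.pos u ≤ S.pos b := by
  rcases hu with rfl | rfl | ⟨h1, h2, -⟩
  exacts [⟨le_rfl, hab.le⟩, ⟨hab.le, le_rfl⟩, ⟨h1.le, h2.le⟩]

theorem lam_cross {a b u w : X} (h1 : S.Chord a b) (h2 : S.Chord u w) (p1 : S.pos a < S.pos u)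
    (p2 : S.pos u < S.pos b) (p3 : S.pos b < S.pos w) : S.Cross a b u w :=
  ⟨h1, h2, Or.inl ⟨Or.inl ⟨p1, p2⟩, Or.inr ⟨by linarith, p3⟩⟩⟩

theorem lamK (hE : S.PreLam E) {ε : ℝ} (hε : 0 < ε) : ∃ δ > 0, ∀ a b, S.small δ a b →
    ∀ u ∈ S.lamA E a b, S.small ε a u := by
  obtain ⟨δ1, p1, h1⟩ := S.X1 ε hε
  obtain ⟨δ2, p2, h2⟩ := lam_unif (S := S) (hE.null δ1 p1)
    (fun f a b => S.pos a < S.pos f.1 → S.pos f.1 < S.pos b → S.pos b < S.pos f.2 →
      S.small ε a f.1) (by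
    rintro ⟨u, w⟩ ⟨hf, -⟩
    have c : S.Chord u w := hE.chord _ hf
    have m1 := S.good.dom_le u c.1
    have cm : S.Chord (S.dom u) u := ⟨S.good.dom_mem u c.1, c.1, S.good.dom_dom u c.1⟩
    by_cases huw : S.pos u < S.pos w
    · have p : 0 < min ε (dist (S.dom u) w / 2) :=
        lt_min hε (half_pos (lam_dist_pos (m1.trans_lt huw)))
      obtain ⟨δa, a0, ha⟩ := S.X2 u w _ p
      obtain ⟨δb, b0, hb⟩ := S.X2 (S.dom u) u _ p
      refine ⟨min δa δb, lt_min a0 b0, fun a b hab q1 q2 q3 => ?_⟩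
      have cab := S.small_chord _ _ _ hab
      have cr := lam_cross cab c q1 q2 q3
      refine S.small_mono _ _ _ _ (min_le_left _ (dist (S.dom u) w / 2)) ?_
      refine (ha a b (S.small_mono _ _ _ _ (min_le_left _ _) hab) cr.symm).elim id fun k => ?_
      have cau := cr.chord13 S.good
      have m2 := S.good.dom_le a cab.1
      rw [cau.2.2] at m2
      have : S.small (min ε (dist (S.dom u) w / 2)) a (S.dom u) ∨
          S.small (min ε (dist (S.dom u) w / 2)) a u := by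
        rcases m2.eq_or_lt with e | l
        · rw [S.good.inj cm.1 cab.1 e] at p ⊢
          exact Or.inl (S.small_refl _ _ p cab.1)
        · exact hb a b (S.small_mono _ _ _ _ (min_le_right _ _) hab) (lam_cross cm cab l q1 q2)
      refine this.elim (fun k' => absurd (lam_two k' k) (not_lt.2 ?_)) id
      linarith [min_le_right ε (dist (S.dom u) w / 2)]
    · exact ⟨1, one_pos, fun a b _ _ q2 q3 => absurd (q2.trans q3) huw⟩)
  refine ⟨min ε (min δ1 δ2), by positivity, fun a b hab u hu => ?_⟩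
  have cab := S.small_chord _ _ _ hab
  rcases hu with rfl | rfl | ⟨q1, q2, w, hw, q3⟩
  · exact S.small_refl _ _ hε cab.1
  · exact S.small_mono _ _ _ _ (min_le_left _ _) hab
  · by_cases c : S.small δ1 u w
    · exact h1 a b u w (S.small_mono _ _ _ _ ((min_le_right _ _).trans (min_le_left _ _)) hab) c
        (lam_cross cab (hE.chord _ hw) q1 q2 q3)
    · exact h2 (u, w) ⟨hw, c⟩ a b
        (S.small_mono _ _ _ _ ((min_le_right _ _).trans (min_le_right _ _)) hab) q1 q2 q3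

theorem lamF (hE : S.PreLam E) {a b u0 : X} (hab : S.Chord a b) (h0 : S.lamIn E a b u0) {ε : ℝ}
    (hε : 0 < ε) : {u ∈ S.lamA E a b | (S.pos u < S.pos u0 ∧ ¬ S.small ε u a) ∨
      (S.pos u0 < S.pos u ∧ ¬ S.small ε u b)}.Finite := by
  have c0 := lamA_chord hE hab (Or.inr (Or.inr h0))
  have p : 0 < min ε (min (dist u0 b / 2) (dist a u0 / 2)) :=
    lt_min hε (lt_min (half_pos (lam_dist_pos h0.2.1)) (half_pos (lam_dist_pos h0.1)))
  have l1 := min_le_left ε (min (dist u0 b / 2) (dist a u0 / 2))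
  have l2 := (min_le_right ε _).trans (min_le_left (dist u0 b / 2) (dist a u0 / 2))
  have l3 := (min_le_right ε _).trans (min_le_right (dist u0 b / 2) (dist a u0 / 2))
  generalize min ε (min (dist u0 b / 2) (dist a u0 / 2)) = ε' at p l1 l2 l3
  obtain ⟨δ, d0, hδ⟩ := lam_unif (S := S) (F := {(a, b), (a, u0), (u0, b)}) (toFinite _)
    (fun f c d => S.Cross f.1 f.2 c d → S.small ε' c f.1 ∨ S.small ε' c f.2)
    fun f _ => S.X2 f.1 f.2 ε' p
  refine ((((hE.null δ d0).image Prod.fst).insert a).insert b).subset ?_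
  rintro u ⟨rfl | rfl | ⟨q1, q2, w, hw, q3⟩, hu⟩
  · simp
  · simp
  by_cases c : S.small δ u w
  · exfalso
    have cw := hE.chord _ hw
    have k := hδ (a, b) (by simp) u w c (lam_cross hab cw q1 q2 q3)
    rcases hu with ⟨h1, h2⟩ | ⟨h1, h2⟩
    · have n : ¬ S.small ε' u a := fun h => h2 (S.small_mono _ _ _ _ l1 h)
      have := lam_two ((hδ (a, u0) (by simp) u w c
        (lam_cross c0 cw q1 h1 (h0.2.1.trans q3))).resolve_left n) (k.resolve_left n)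
      linarith
    · have n : ¬ S.small ε' u b := fun h => h2 (S.small_mono _ _ _ _ l1 h)
      have := lam_two (k.resolve_right n) ((hδ (u0, b) (by simp) u w c
        (lam_cross (c0.symm.trans hab) cw h1 q2 q3)).resolve_right n)
      linarith
  · exact Or.inr (Or.inr ⟨(u, w), ⟨hw, c⟩, rfl⟩)

theorem lamC_null (hE : S.PreLam E) {a b : X} (hab : S.Chord a b) {ε : ℝ} (hε : 0 < ε) :
    {e : X × X | S.lamC E a b e.1 e.2 ∧ ¬ S.small ε e.1 e.2}.Finite := by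
  obtain ⟨δ, d0, hδ⟩ := S.small_trans ε hε
  have G : ∀ {u}, u ∈ S.lamA E a b → u ∈ S.G := fun hu => (lamA_chord hE hab hu).2.1
  obtain ⟨B, hB, h⟩ : ∃ B : Set X, B.Finite ∧ ∀ u v, S.lamC E a b u v → u ∉ B → v ∉ B →
      S.small ε u v := by
    by_cases h0 : ∃ u0, S.lamIn E a b u0
    · obtain ⟨u0, h0⟩ := h0
      refine ⟨_, (lamF hE hab h0 d0).insert u0, fun u v c hu hv => ?_⟩
      have m : u0 ∈ S.lamA E a b := Or.inr (Or.inr h0)
      simp only [mem_insert_iff, mem_ofPred_eq, not_or, not_and, not_not] at hu hv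
      have n1 : S.pos u ≠ S.pos u0 := fun e => hu.1 (S.good.inj (G c.1) (G m) e)
      have n2 : S.pos v ≠ S.pos u0 := fun e => hv.1 (S.good.inj (G c.2.1) (G m) e)
      rcases n1.lt_or_gt with l | l
      · exact hδ u a v ((hu.2 c.1).1 l)
          (S.small_symm _ _ _ ((hv.2 c.2.1).1 ((c.2.2.2 u0 m l).lt_of_ne n2)))
      · exact hδ u b v ((hu.2 c.1).2 l)
          (S.small_symm _ _ _ ((hv.2 c.2.1).2 (l.trans c.2.2.1)))
    · refine ⟨{a, b}, toFinite _, fun u v c hu _ => ?_⟩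
      rcases c.1 with rfl | rfl | h
      · simp at hu
      · simp at hu
      · exact (h0 ⟨u, h⟩).elim
  set C := {e : X × X | S.lamC E a b e.1 e.2}
  have i1 : InjOn Prod.fst C := by
    rintro ⟨u, v⟩ h1 ⟨u', v'⟩ h2 (rfl : u = u')
    rw [show v = v' from S.good.inj (G h1.2.1) (G h2.2.1)
      (le_antisymm (h1.2.2.2 _ h2.2.1 h2.2.2.1) (h2.2.2.2 _ h1.2.1 h1.2.2.1))]
  have i2 : InjOn Prod.snd C := by
    rintro ⟨u, v⟩ h1 ⟨u', v'⟩ h2 (rfl : v = v')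
    rw [show u = u' from S.good.inj (G h1.1) (G h2.1) (le_antisymm
      (not_lt.1 fun l => (h2.2.2.2 _ h1.1 l).not_gt h1.2.2.1)
      (not_lt.1 fun l => (h1.2.2.2 _ h2.1 l).not_gt h2.2.2.1))]
  refine ((Finite.of_finite_image (f := Prod.fst) (s := {e ∈ C | e.1 ∈ B})
    (hB.subset ?_) (i1.mono (sep_subset _ _))).union
    (Finite.of_finite_image (f := Prod.snd) (s := {e ∈ C | e.2 ∈ B})
      (hB.subset ?_) (i2.mono (sep_subset _ _)))).subset ?_
  · rintro _ ⟨e, he, rfl⟩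
    exact he.2
  · rintro _ ⟨e, he, rfl⟩
    exact he.2
  · rintro e ⟨h1, h2⟩
    by_contra c
    simp only [mem_union, mem_ofPred_eq, not_or, not_and] at c
    exact h2 (h _ _ h1 (c.1 h1) (c.2 h1))

theorem lam_chain_fin {a b : X} (n : ℕ) : ∀ u v, u ∈ S.lamA E a b → v ∈ S.lamA E a b →
    S.pos u < S.pos v → {t ∈ S.lamA E a b | S.pos u < S.pos t ∧ S.pos t < S.pos v}.Finite →
    {t ∈ S.lamA E a b | S.pos u < S.pos t ∧ S.pos t < S.pos v}.ncard ≤ n →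
    ReflTransGen (S.lamC E a b) u v := by
  induction n using Nat.strong_induction_on with
  | _ n ih =>
  intro u v hu hv l f c
  by_cases h : ∃ t ∈ S.lamA E a b, S.pos u < S.pos t ∧ S.pos t < S.pos v
  · obtain ⟨t, ht, t1, t2⟩ := h
    have s1 : {s ∈ S.lamA E a b | S.pos u < S.pos s ∧ S.pos s < S.pos t} ⊂
        {t ∈ S.lamA E a b | S.pos u < S.pos t ∧ S.pos t < S.pos v} :=
      ⟨fun s hs => ⟨hs.1, hs.2.1, hs.2.2.trans t2⟩, fun h => (h ⟨ht, t1, t2⟩).2.2.false⟩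
    have s2 : {s ∈ S.lamA E a b | S.pos t < S.pos s ∧ S.pos s < S.pos v} ⊂
        {t ∈ S.lamA E a b | S.pos u < S.pos t ∧ S.pos t < S.pos v} :=
      ⟨fun s hs => ⟨hs.1, t1.trans hs.2.1, hs.2.2⟩, fun h => (h ⟨ht, t1, t2⟩).2.1.false⟩
    exact (ih _ ((ncard_lt_ncard s1 f).trans_le c) u t hu ht t1 (f.subset s1.1) le_rfl).trans
      (ih _ ((ncard_lt_ncard s2 f).trans_le c) t v ht hv t2 (f.subset s2.1) le_rfl)
  · exact ReflTransGen.single ⟨hu, hv, l, fun t ht l' => not_lt.1 fun l'' => h ⟨t, ht, l', l''⟩⟩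

theorem lam_chain (hE : S.PreLam E) {a b : X} (hab : S.Chord a b) (l : S.pos a < S.pos b) {η : ℝ}
    (hη : 0 < η) : ReflTransGen (fun p q => p ∈ S.lamA E a b ∧ q ∈ S.lamA E a b ∧
      (dist p q < η ∨ S.lamC E a b p q)) a b := by
  have fin : ∀ u v, u ∈ S.lamA E a b → v ∈ S.lamA E a b → S.pos u < S.pos v →
      {t ∈ S.lamA E a b | S.pos u < S.pos t ∧ S.pos t < S.pos v}.Finite →
      ReflTransGen (fun p q => p ∈ S.lamA E a b ∧ q ∈ S.lamA E a b ∧
        (dist p q < η ∨ S.lamC E a b p q)) u v := fun u v hu hv l f =>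
    lam_mono (lam_chain_fin _ u v hu hv l f le_rfl) fun p q h => ⟨h.1, h.2.1, Or.inr h⟩
  have ma : a ∈ S.lamA E a b := Or.inl rfl
  have mb : b ∈ S.lamA E a b := Or.inr (Or.inl rfl)
  have inn : ∀ t ∈ S.lamA E a b, S.pos a < S.pos t → S.pos t < S.pos b → S.lamIn E a b t := by
    rintro t (rfl | rfl | h) h1 h2
    exacts [h1.false.elim, h2.false.elim, h]
  have mid : ∀ u v, S.lamIn E a b u → S.lamIn E a b v →
      {t ∈ S.lamA E a b | S.pos u < S.pos t ∧ S.pos t < S.pos v}.Finite := fun u v hu hv => by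
    have p := half_pos (lam_dist_pos l)
    refine ((lamF hE hab hu p).union (lamF hE hab hv p)).subset fun t ht => ?_
    by_cases c : S.small (dist a b / 2) t a
    · exact Or.inl ⟨ht.1, Or.inr ⟨ht.2.1, fun c' => by linarith [lam_two c c']⟩⟩
    · exact Or.inr ⟨ht.1, Or.inl ⟨ht.2.2, c⟩⟩
  by_cases h0 : ∃ u0, S.lamIn E a b u0
  · obtain ⟨u0, h0⟩ := h0
    have m : u0 ∈ S.lamA E a b := Or.inr (Or.inr h0)
    have F := lamF hE hab h0 hη
    refine ReflTransGen.trans (b := u0) ?_ ?_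
    · by_cases f : {t ∈ S.lamA E a b | S.pos a < S.pos t ∧ S.pos t < S.pos u0}.Finite
      · exact fin a u0 ma m h0.1 f
      · obtain ⟨t, ⟨t1, t2, t3⟩, t4⟩ := (Infinite.sdiff f F).nonempty
        have : S.small η t a := by_contra fun c => t4 ⟨t1, Or.inl ⟨t3, c⟩⟩
        exact ReflTransGen.head ⟨ma, t1, Or.inl (S.small_dist _ _ _ (S.small_symm _ _ _ this))⟩
          (fin t u0 t1 m t3 (mid t u0 (inn t t1 t2 (t3.trans h0.2.1)) h0))
    · by_cases f : {t ∈ S.lamA E a b | S.pos u0 < S.pos t ∧ S.pos t < S.pos b}.Finite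
      · exact fin u0 b m mb h0.2.1 f
      · obtain ⟨t, ⟨t1, t2, t3⟩, t4⟩ := (Infinite.sdiff f F).nonempty
        have : S.small η t b := by_contra fun c => t4 ⟨t1, Or.inr ⟨t2, c⟩⟩
        exact (fin u0 t m t1 t2 (mid u0 t h0 (inn t t1 (h0.1.trans t2) t3))).tail
          ⟨t1, mb, Or.inl (S.small_dist _ _ _ this)⟩
  · exact fin a b ma mb l (finite_empty.subset fun t ht => h0 ⟨t, inn t ht.1 ht.2.1 ht.2.2⟩)

theorem lam_nc {a b a' b' u v u' v' : X} (he : (a', b') ∈ E) (l : S.pos a < S.pos b)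
    (l' : S.pos a' < S.pos b') (h : S.lamC E a b u v) (h' : S.lamC E a' b' u' v')
    (p1 : S.pos u < S.pos u') (p2 : S.pos u' < S.pos v) (p3 : S.pos v < S.pos v') : False := by
  have b1 := lamA_le l h.1
  have b2 := lamA_le l h.2.1
  have b3 := lamA_le l' h'.1
  have b4 := lamA_le l' h'.2.1
  obtain ⟨w, hw, q⟩ : ∃ w, (u', w) ∈ E ∧ S.pos b' ≤ S.pos w := by
    rcases h'.1 with rfl | rfl | ⟨-, -, w, hw, q⟩
    · exact ⟨b', he, le_rfl⟩
    · exact absurd b4.2 (not_le.2 (p2.trans p3))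
    · exact ⟨w, hw, q.le⟩
  have q' : S.pos w ≤ S.pos b := not_lt.1 fun c => (h.2.2.2 u'
    (Or.inr (Or.inr ⟨by linarith, by linarith, w, hw, c⟩)) p1).not_gt p2
  rcases h.2.1 with rfl | rfl | ⟨-, -, w', hw', r⟩
  · linarith
  · linarith
  · exact (h'.2.2.2 v (Or.inr (Or.inr ⟨by linarith, by linarith, w', hw', by linarith⟩)) p2).not_gt p3

theorem lam_exists [CompactSpace X] (S : Str X) : ∃ L, S.Lam L := by
  obtain ⟨E, hE⟩ := S.exists_preLam
  set C : Set (X × X) := {e | ∃ f ∈ E, S.pos f.1 < S.pos f.2 ∧ S.lamC E f.1 f.2 e.1 e.2}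
  have ch : ∀ e ∈ C, S.Chord e.1 e.2 ∧ S.pos e.1 < S.pos e.2 := by
    rintro e ⟨f, hf, -, h⟩
    exact ⟨(lamA_chord hE (hE.chord f hf) h.1).symm.trans (lamA_chord hE (hE.chord f hf) h.2.1),
      h.2.2.1⟩
  have nc : ∀ e ∈ C, ∀ f ∈ C, ¬ S.Cross e.1 e.2 f.1 f.2 := by
    rintro e ⟨g, hg, l, h⟩ f ⟨g', hg', l', h'⟩ ⟨-, -, c⟩
    have k1 := h.2.2.1
    have k2 := h'.2.2.1
    rcases c with ⟨c1 | c1, c2 | c2⟩ | ⟨c1 | c1, c2 | c2⟩
    all_goals first
      | linarith [c1.1, c1.2, c2.1, c2.2]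
      | exact lam_nc hg' l l' h h' c1.1 c1.2 c2.2
      | exact lam_nc hg l' l h' h c1.1 c2.1 c2.2
  have null : ∀ ε > 0, {e ∈ C | ¬ S.small ε e.1 e.2}.Finite := fun ε hε => by
    obtain ⟨δ1, p1, h1⟩ := S.small_trans ε hε
    obtain ⟨δ, p, h⟩ := lamK hE p1
    refine ((hE.null δ p).biUnion fun f hf => lamC_null hE (hE.chord f hf.1) hε).subset ?_
    rintro e ⟨⟨f, hf, -, c⟩, he⟩
    exact mem_biUnion ⟨hf, fun s => he (h1 _ _ _ (S.small_symm _ _ _ (h _ _ s _ c.1))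
      (h _ _ s _ c.2.1))⟩ ⟨c, he⟩
  refine ⟨{e | e ∈ C ∨ e.swap ∈ C}, ?_, ?_, fun e he => he.symm, ?_, fun ε hε => ?_,
    fun ε hε => ?_⟩
  · rintro e (h | h)
    exacts [(ch e h).1, (ch _ h).1.symm]
  · rintro e (h | h) c
    · exact (ch e h).2.ne (congrArg S.pos c)
    · exact (ch _ h).2.ne (congrArg S.pos c.symm)
  · rintro e (h | h) f (h' | h') c
    exacts [nc _ h _ h' c, nc _ h _ h' c.swapR, nc _ h _ h' c.swapL, nc _ h _ h' c.swapL.swapR]
  · refine ((null ε hε).union ((null ε hε).preimage Prod.swap_injective.injOn)).subset ?_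
    rintro e ⟨h | h, he⟩
    · exact Or.inl ⟨h, he⟩
    · exact Or.inr ⟨h, fun c => he (S.small_symm _ _ _ c)⟩
  · obtain ⟨δ1, p1, h1⟩ := lamK hE (half_pos hε)
    obtain ⟨r, r0, hr⟩ := lam_min (hE.null δ1 p1) (fun e => dist e.1 e.2)
      fun e he => dist_pos.2 (hE.ne e he.1)
    obtain ⟨δ, p, h⟩ := hE.lc (min (ε / 2) (r / 2)) (by positivity)
    refine ⟨δ, p, fun x y hxy η hη => lam_closed (h x y hxy η hη) fun a b hab => ?_⟩
    have l1 := min_le_left (ε / 2) (r / 2)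
    have l2 := min_le_right (ε / 2) (r / 2)
    have key : ∀ a b, a ∈ ball x (min (ε / 2) (r / 2)) → b ∈ ball x (min (ε / 2) (r / 2)) →
        (a, b) ∈ E → S.pos a < S.pos b → ReflTransGen (fun p q => p ∈ ball x ε ∧ q ∈ ball x ε ∧
          (dist p q < η ∨ (p, q) ∈ {e : X × X | e ∈ C ∨ e.swap ∈ C})) a b := by
      intro a b ha hb he l
      have s : S.small δ1 a b := by_contra fun c => by
        have := hr (a, b) ⟨he, c⟩
        have := dist_triangle_right a b x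
        linarith [mem_ball.1 ha, mem_ball.1 hb]
      have m : ∀ u ∈ S.lamA E a b, u ∈ ball x ε := fun u hu => by
        have := S.small_dist _ _ _ (h1 a b s u hu)
        have := dist_triangle_left u x a
        rw [mem_ball]
        linarith [mem_ball.1 ha]
      exact lam_mono (lam_chain hE (hE.chord _ he) l hη) fun p q h => ⟨m p h.1, m q h.2.1,
        h.2.2.imp_right fun c => Or.inl ⟨(a, b), he, l, c⟩⟩
    rcases hab.2.2 with c | c
    · exact ReflTransGen.single ⟨ball_subset_ball (by linarith) hab.1,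
        ball_subset_ball (by linarith) hab.2.1, Or.inl c⟩
    · rcases (Ord3.cross_pos_ne S.good (hE.chord _ c).1 (hE.chord _ c).2.1
        (hE.ne _ c)).lt_or_gt with l | l
      · exact key a b hab.1 hab.2.1 c l
      · exact lam_rev (key b a hab.2.1 hab.1 (hE.symm _ c) l) fun p q h =>
          ⟨h.2.1, h.1, h.2.2.imp (by rw [dist_comm]; exact id) Or.symm⟩

end Str

end Pool.Agent.Lib.MP_9e71a3_gt
end

-- part Pool.Agent.Lib.MP_9e71a3_gt.Lam
section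

/-! The global lamination and its first consequences.  JOB Lam (part 2). -/

set_option autoImplicit false
set_option linter.unusedSectionVars false

namespace Pool.Agent.Lib.MP_9e71a3_gt

open Set Metric Filter Topology

namespace Str
variable {X : Type} [MetricSpace X] [CompactSpace X] {S : Str X} {L : Set (X × X)}

theorem exists_lam (S : Str X) : ∃ L, S.Lam L := S.lam_exists

theorem Lam.sub (hL : S.Lam L) {L' : Set (X × X)} (hsub : L' ⊆ L)
    (hsymm : ∀ e ∈ L', e.swap ∈ L') (hfin : (L \ L').Finite) : S.Lam L' := by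
  refine ⟨fun e he => hL.chord e (hsub he), fun e he => hL.ne e (hsub he), hsymm,
    fun e he f hf => hL.nc e (hsub he) f (hsub hf),
    fun ε hε => (hL.null ε hε).subset fun e he => ⟨hsub he.1, he.2⟩, fun ε hε => ?_⟩
  obtain ⟨c, c0, hc⟩ := lam_min hfin (fun e => dist e.1 e.2) fun e he => dist_pos.2 (hL.ne e he.1)
  obtain ⟨δ, d0, h⟩ := hL.lc (min ε (c / 2)) (by positivity)
  refine ⟨δ, d0, fun x y hxy η hη => lam_mono (h x y hxy η hη) fun p q k =>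
    ⟨ball_subset_ball (min_le_left _ _) k.1, ball_subset_ball (min_le_left _ _) k.2.1,
      k.2.2.imp_right fun m => by_contra fun n => ?_⟩⟩
  have := hc (p, q) ⟨m, n⟩
  have := dist_triangle_right p q x
  linarith [mem_ball.1 k.1, mem_ball.1 k.2.1, min_le_right ε (c / 2)]

theorem Lam.tame (hL : S.Lam L) {D : Set (X × X)} (hD : D ⊆ L) : S.Tame L D :=
  ⟨fun d hd => hL.chord d (hD hd), finite_empty.subset fun _ h => h.2 (hD h.1)⟩

theorem Tame.mono {D D' : Set (X × X)} (hD : S.Tame L D) (h : D' ⊆ D) : S.Tame L D' :=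
  ⟨fun d hd => hD.chord d (h hd), hD.fin.subset fun _ k => ⟨h k.1, k.2⟩⟩

theorem Tame.union {D D' : Set (X × X)} (hD : S.Tame L D) (hD' : S.Tame L D') :
    S.Tame L (D ∪ D') :=
  ⟨fun d hd => hd.elim (hD.chord d) (hD'.chord d),
    (hD.fin.union hD'.fin).subset fun _ k => k.1.imp (fun h => ⟨h, k.2⟩) fun h => ⟨h, k.2⟩⟩

theorem Tame.swap (hL : S.Lam L) {D : Set (X × X)} (hD : S.Tame L D) :
    S.Tame L (Prod.swap '' D) := by
  refine ⟨?_, (hD.fin.image Prod.swap).subset ?_⟩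
  · rintro _ ⟨d, hd, rfl⟩
    exact (hD.chord d hd).symm
  · rintro _ ⟨⟨d, hd, rfl⟩, n⟩
    exact ⟨d, ⟨hd, fun m => n (hL.symm d m)⟩, rfl⟩

theorem Tame.of_sub {L' D : Set (X × X)} (hD : S.Tame L D) (hfin : (L \ L').Finite) :
    S.Tame L' D :=
  ⟨hD.chord, (hD.fin.union hfin).subset fun d k =>
    (em (d ∈ L)).elim (fun m => Or.inr ⟨m, k.2⟩) fun m => Or.inl ⟨k.1, m⟩⟩

theorem lam_null (hL : S.Lam L) {D : Set (X × X)} (hD : S.Tame L D) {ε : ℝ} (hε : 0 < ε) :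
    {e ∈ D | ¬ S.small ε e.1 e.2}.Finite :=
  (hD.fin.union (hL.null ε hε)).subset fun d k =>
    (em (d ∈ L)).elim (fun m => Or.inr ⟨m, k.2⟩) fun m => Or.inl ⟨k.1, m⟩

theorem Tame.long_finite (hL : S.Lam L) {D : Set (X × X)} (hD : S.Tame L D) {c : ℝ}
    (hc : 0 < c) : {e ∈ D | c ≤ dist e.1 e.2}.Finite :=
  (lam_null hL hD hc).subset fun _ k => ⟨k.1, fun s => (S.small_dist _ _ _ s).not_ge k.2⟩

/-- almost all members of a tame family crossing a fixed chord lie near one of its ends -/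
theorem Tame.x2 (hL : S.Lam L) {D : Set (X × X)} (hD : S.Tame L D) (a b : X) {ρ : ℝ}
    (hρ : 0 < ρ) : {e ∈ D | S.Cross a b e.1 e.2 ∧ ¬ (e.1 ∈ ball a ρ ∧ e.2 ∈ ball a ρ) ∧
      ¬ (e.1 ∈ ball b ρ ∧ e.2 ∈ ball b ρ)}.Finite := by
  obtain ⟨δ, d0, h⟩ := S.X2 a b (ρ / 2) (half_pos hρ)
  refine (lam_null hL hD (lt_min d0 (half_pos hρ))).subset fun e k => ⟨k.1, fun s => ?_⟩
  have near : ∀ z, S.small (ρ / 2) e.1 z → e.1 ∈ ball z ρ ∧ e.2 ∈ ball z ρ := fun z hz =>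
    ⟨(S.small_dist _ _ _ hz).trans (half_lt_self hρ), by
      have := lam_two (S.small_mono _ _ _ _ (min_le_right _ _) s) hz
      rw [mem_ball]
      linarith⟩
  exact (h _ _ (S.small_mono _ _ _ _ (min_le_left _ _) s) k.2.1).elim (fun m => k.2.2.1 (near a m))
    fun m => k.2.2.2 (near b m)

/-- short members of a tame family are null as links -/
theorem Tame.t2 (hL : S.Lam L) {D : Set (X × X)} (hD : S.Tame L D) {r : ℝ} (hr : 0 < r) :
    ∃ η > 0, ∀ d ∈ D, dist d.1 d.2 < η → ∀ o o', r ≤ dist d.1 o → r ≤ dist d.1 o' →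
      S.ev (lnk d.1 d.2) o o' = 0 := by
  obtain ⟨δ, d0, h⟩ := S.T2 r hr
  obtain ⟨η, e0, hη⟩ := lam_min (lam_null hL hD d0) (fun e => dist e.1 e.2) fun e he =>
    dist_pos.2 fun c => he.2 (c ▸ S.small_refl δ e.1 d0 (hD.chord e he.1).1)
  refine ⟨η, e0, fun d hd l o o' h1 h2 => ?_⟩
  rw [ev, h _ _ o o' (by_contra fun c => l.not_ge (hη d ⟨hd, c⟩)) h1 h2, z2_add_self]

/-- near a point that is not an end of `D`, short chords of `L` cross no member of `D` -/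
theorem Tame.free_near (hL : S.Lam L) {D : Set (X × X)} (hD : S.Tame L D) (z : X)
    (hz : ∀ d ∈ D, d.1 ≠ z ∧ d.2 ≠ z) :
    ∃ ρ > 0, ∀ e ∈ L, e.1 ∈ ball z ρ → e.2 ∈ ball z ρ → S.Free D e.1 e.2 := by
  have key : ∀ d ∈ D \ L, ∃ ρ > 0, ∀ e ∈ L, e.1 ∈ ball z ρ → e.2 ∈ ball z ρ →
      ¬ S.Cross d.1 d.2 e.1 e.2 := fun d hd => by
    have p : 0 < min (dist d.1 z / 2) (dist d.2 z / 2) :=
      lt_min (half_pos (dist_pos.2 (hz d hd.1).1)) (half_pos (dist_pos.2 (hz d hd.1).2))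
    obtain ⟨r, r0, hr⟩ := lam_min (Tame.x2 hL (hL.tame Subset.rfl) d.1 d.2 p)
      (fun e => max (dist e.1 z) (dist e.2 z)) fun e he => by
        by_contra c
        rw [lt_max_iff, not_or, dist_pos, dist_pos, not_not, not_not] at c
        exact hL.ne e he.1 (c.1.trans c.2.symm)
    refine ⟨_, lt_min r0 p, fun e he h1 h2 c => ?_⟩
    rw [mem_ball, lt_min_iff, lt_min_iff] at h1 h2
    refine (hr e ⟨he, c, fun k => ?_, fun k => ?_⟩).not_gt (max_lt h1.1 h2.1)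
    · linarith [dist_triangle_left d.1 z e.1, (lt_min_iff.1 (mem_ball.1 k.1)).1, h1.2.1]
    · linarith [dist_triangle_left d.2 z e.1, (lt_min_iff.1 (mem_ball.1 k.1)).2, h1.2.2]
  choose! ρ p h using key
  obtain ⟨r, r0, hr⟩ := lam_min hD.fin ρ p
  refine ⟨r, r0, fun e he h1 h2 d hd => ?_⟩
  by_cases m : d ∈ L
  · exact hL.nc d m e he
  · exact h d ⟨hd, m⟩ e he (ball_subset_ball (hr d ⟨hd, m⟩) h1) (ball_subset_ball (hr d ⟨hd, m⟩) h2)

theorem lam_key {d1 d2 g g' h h' f1 f2 : X} (c1 : S.Cross d1 d2 g g') (c2 : S.Cross d1 d2 h h')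
    (n : ¬ S.Cross d1 d2 g h) (n0 : ¬ S.Cross f1 f2 d1 d2) (n1 : ¬ S.Cross f1 f2 g g')
    (n2 : ¬ S.Cross f1 f2 h h') : ¬ S.Cross f1 f2 g h := fun c => by
  have n0' : ¬ S.Cross f1 f2 d2 d1 := fun k => n0 k.swapR
  have a1 := c.eq_end S.good (c1.chord13 S.good)
    (fun k => c1.symm.recomb S.good n1 n0 k.swapR) fun k => c2.symm.recomb S.good n2 n0 k.swapR
  have a2 := c.eq_end S.good (c1.swapL.chord13 S.good)
    (fun k => c1.swapL.symm.recomb S.good n1 n0' k.swapR)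
    fun k => c2.swapL.symm.recomb S.good n2 n0' k.swapR
  have ne := c1.ne12
  rcases a1 with rfl | rfl <;> rcases a2 with rfl | rfl
  exacts [ne rfl, n c, n c.swapL, ne rfl]

theorem lam_z1 (a b c d : Z2) : a + b = c + d ↔ a + c = b + d := by
  revert a b c d; decide

theorem lam_z2 (a b i j : Z2) (h : i + j = 1) : a + (a + b) * i = b + (a + b) * j := by
  revert a b i j; decide

theorem lam_z3 (i j : Z2) (h : ¬ i + j = 1) : i = j := by
  revert i j; decide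

theorem lam_step {Y : Set X} {F : Set (X × X)} {d : X × X} (hd : S.Chord d.1 d.2)
    (hY : d.1 ∈ Y ∧ d.2 ∈ Y) (hF : S.Free F d.1 d.2) (ψ : X → Z2)
    (h : ∀ g g', S.Chord g g' → g ∉ Y → g' ∉ Y → S.Free (insert d F) g g' → ψ g = ψ g') :
    ∃ c : Z2, ∀ g g', S.Chord g g' → g ∉ Y → g' ∉ Y → S.Free F g g' →
      ψ g + c * S.ind d.1 d.2 g = ψ g' + c * S.ind d.1 d.2 g' := by
  have n1 : ∀ {g}, g ∉ Y → g ≠ d.1 := fun m e => m (e ▸ hY.1)
  have n2 : ∀ {g}, g ∉ Y → g ≠ d.2 := fun m e => m (e ▸ hY.2)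
  have ins : ∀ {g g'}, ¬ S.Cross d.1 d.2 g g' → S.Free F g g' → S.Free (insert d F) g g' :=
    fun a b f hf => hf.elim (fun e => e ▸ a) (b f)
  have same : ∀ g g' k k', g ∉ Y → k ∉ Y → S.Free F g g' → S.Free F k k' →
      S.Cross d.1 d.2 g g' → S.Cross d.1 d.2 k k' → ¬ S.Cross d.1 d.2 g k → ψ g = ψ k :=
    fun g g' k k' a b fg fk c1 c2 n => h g k ((c1.chord13 S.good).symm.trans (c2.chord13 S.good))
      a b (ins n fun f hf => lam_key c1 c2 n (hF f hf) (fg f hf) (fk f hf))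
  have sw : ∀ {g g'}, S.Free F g g' → S.Free F g' g := fun a f hf c => a f hf c.swapR
  have both : ∀ g g' k k', g ∉ Y → g' ∉ Y → k ∉ Y → k' ∉ Y → S.Free F g g' → S.Free F k k' →
      S.Cross d.1 d.2 g g' → S.Cross d.1 d.2 k k' → S.Cross d.1 d.2 g k →
      ψ g + ψ g' = ψ k + ψ k' := fun g g' k k' a a' b b' fg fk c1 c2 c => by
    rw [same g g' k' k a b' fg (sw fk) c1 c2.swapR (c.swapR.not_cross_far c2),
      same g' g k k' a' b (sw fg) fk c1.swapR c2 (c1.not_cross_far c), add_comm]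
  obtain ⟨c, hc⟩ : ∃ c, ∀ g g', g ∉ Y → g' ∉ Y → S.Free F g g' → S.Cross d.1 d.2 g g' →
      ψ g + ψ g' = c := by
    by_cases e : ∃ k k', k ∉ Y ∧ k' ∉ Y ∧ S.Free F k k' ∧ S.Cross d.1 d.2 k k'
    · obtain ⟨k, k', b, b', fk, c2⟩ := e
      refine ⟨ψ k + ψ k', fun g g' a a' fg c1 => ?_⟩
      rcases c2.tri S.good ((c1.chord13 S.good).symm.trans (c2.chord13 S.good)) (n1 a) (n2 a)
        with c | c
      · exact both g g' k k' a a' b b' fg fk c1 c2 c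
      · rw [both g g' k' k a a' b' b fg (sw fk) c1 c2.swapR c, add_comm]
    · exact ⟨0, fun g g' a a' fg c1 => (e ⟨g, g', a, a', fg, c1⟩).elim⟩
  refine ⟨c, fun g g' cg a a' fg => ?_⟩
  have i := Ord3.cross_iff_ind S.good hd cg (n1 a) (n2 a) (n1 a') (n2 a')
  by_cases k : S.Cross d.1 d.2 g g'
  · rw [← hc g g' a a' fg k]
    exact lam_z2 _ _ _ _ (i.1 k)
  · rw [h g g' cg a a' (ins k fg), lam_z3 _ _ fun e => k (i.2 e)]

theorem lam_ind {Y : Set X} {D F : Set (X × X)} (hD : ∀ d ∈ D, S.Chord d.1 d.2) (hnc : S.NC D)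
    (hDY : ∀ d ∈ D, d.1 ∈ Y ∧ d.2 ∈ Y) (hF : F ⊆ D) (D' : Finset (X × X)) (h' : ↑D' ⊆ D)
    (ψ : X → Z2)
    (h : ∀ g g', S.Chord g g' → g ∉ Y → g' ∉ Y → S.Free (D' ∪ F) g g' → ψ g = ψ g') :
    ∃ D0 ⊆ D', ∀ g g', S.Chord g g' → g ∉ Y → g' ∉ Y → S.Free F g g' →
      ψ g + ∑ d ∈ D0, S.ind d.1 d.2 g = ψ g' + ∑ d ∈ D0, S.ind d.1 d.2 g' := by
  classical
  induction D' using Finset.induction_on generalizing ψ with
  | empty => exact ⟨∅, Finset.Subset.refl _, fun g g' c a a' f => by simpa using h g g' c a a' (by simpa)⟩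
  | insert d D' hd ih =>
    rw [Finset.coe_insert, insert_subset_iff] at h'
    rw [Finset.coe_insert, insert_union] at h
    obtain ⟨c, hc⟩ := lam_step (hD d h'.1) (hDY d h'.1)
      (fun f hf => hnc f (hf.elim (fun m => h'.2 m) fun m => hF m) d h'.1) ψ h
    obtain ⟨D0, s, h0⟩ := ih h'.2 _ hc
    rcases z2_cases c with rfl | rfl
    · exact ⟨D0, s.trans (Finset.subset_insert _ _), by simpa using h0⟩
    · refine ⟨insert d D0, Finset.insert_subset_insert _ s, fun g g' c a a' f => ?_⟩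
      simpa [Finset.sum_insert fun m => hd (s m), add_assoc] using h0 g g' c a a' f

/-- duality for a tame non-crossing family -/
theorem gll (hL : S.Lam L) {Y : Set X} (hY : IsClosed Y) {D : Set (X × X)} (hD : S.Tame L D)
    (hnc : S.NC D) (hDY : ∀ d ∈ D, d.1 ∈ Y ∧ d.2 ∈ Y) {B0 : X →₀ Z2} (hB0 : S.Ev B0)
    (hB0Y : ∀ k ∈ B0.support, k ∈ Y) (χ : X → Z2) (hloc : ∀ x ∉ Y, ∀ᶠ x' in 𝓝 x, χ x' = χ x)
    (hχ : ∀ g g', S.Chord g g' → g ∉ Y → g' ∉ Y → S.Free D g g' →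
      χ g + χ g' = S.sig B0 g + S.sig B0 g') {η : ℝ} (hη : 0 < η) (o o' : X) :
    ∃ D0 : Finset (X × X), ↑D0 ⊆ D ∧ ∃ κ : Ch X, Fine η Y κ ∧
      bd κ = B0 + ∑ d ∈ D0, two d.1 d.2 ∧ (o ∉ Y → o' ∉ Y → S.ev κ o o' = χ o + χ o') := by
  obtain ⟨δ, d0, H⟩ := S.dual Y hY η hη o o'
  have f := lam_null hL hD d0
  obtain ⟨D0, s, h0⟩ := lam_ind (F := {e ∈ D | S.small δ e.1 e.2}) hD.chord hnc hDY
    (sep_subset _ _) f.toFinset (fun e he => (f.mem_toFinset.1 he).1) (fun g => χ g + S.sig B0 g)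
    fun g g' c a a' fr => (lam_z1 _ _ _ _).1 (hχ g g' c a a' fun e he => fr e
      ((em (S.small δ e.1 e.2)).elim (fun k => Or.inr ⟨he, k⟩)
        fun k => Or.inl (f.mem_toFinset.2 ⟨he, k⟩)))
  have s' : ∀ d ∈ D0, d ∈ D := fun d hd => (f.mem_toFinset.1 (s hd)).1
  have sg : ∀ g ∈ S.G, g ∉ Y → S.sig (B0 + ∑ d ∈ D0, two d.1 d.2) g =
      S.sig B0 g + ∑ d ∈ D0, S.ind d.1 d.2 g := fun g hg a => by
    rw [Ord3.sig_add, ← Finset.sum_congr rfl fun d hd => Ord3.sig_two S.good (hD.chord d (s' d hd))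
      hg (fun e => a (e ▸ (hDY d (s' d hd)).1)) fun e => a (e ▸ (hDY d (s' d hd)).2)]
    exact congrArg _ (map_sum (AddMonoidHom.mk' (fun B => S.sig B g) fun B B' =>
      Ord3.sig_add B B' g) _ _)
  refine ⟨D0, s', H _ χ (hB0.add (Ord3.Ev.sum _ _ fun d hd => Ord3.Ev.two (hD.chord d (s' d hd))))
    (fun k hk => by_contra fun a => Finsupp.mem_support_iff.1 hk ?_) hloc fun g g' c a a' fr => ?_⟩
  · rw [Finsupp.add_apply, Finsupp.notMem_support_iff.1 fun m => a (hB0Y k m), zero_add,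
      Finsupp.finsetSum_apply]
    refine Finset.sum_eq_zero fun d hd => ?_
    have n1 : k ≠ d.1 := fun e => a (e ▸ (hDY d (s' d hd)).1)
    have n2 : k ≠ d.2 := fun e => a (e ▸ (hDY d (s' d hd)).2)
    rw [two, Finsupp.add_apply, Finsupp.single_eq_of_ne n1, Finsupp.single_eq_of_ne n2, add_zero]
  · rw [sg g c.1 a, sg g' c.2.1 a', lam_z1, ← add_assoc, ← add_assoc]
    exact h0 g g' c a a' fun e he => fr _ (hDY e he.1).1 _ (hDY e he.1).2 he.2

/-- parity: a single mixed chord cannot carry the jump of a locally constant function -/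
theorem w1 (hL : S.Lam L) {YL YR : Set X} (hYL : IsClosed YL) (hYR : IsClosed YR)
    (hdisj : Disjoint YL YR) {D : Set (X × X)} (hD : S.Tame L D) (hnc : S.NC D)
    (hDY : ∀ d ∈ D, (d.1 ∈ YL ∧ d.2 ∈ YL) ∨ (d.1 ∈ YR ∧ d.2 ∈ YR)) {h h' : X}
    (hh : S.Chord h h') (hhL : h ∈ YL) (hhR : h' ∈ YR) (χ : X → Z2)
    (hloc : ∀ x ∉ YL ∪ YR, ∀ᶠ x' in 𝓝 x, χ x' = χ x)
    (hχ : ∀ g g', S.Chord g g' → g ∉ YL ∪ YR → g' ∉ YL ∪ YR → S.Free D g g' →
      (S.Cross h h' g g' → χ g + χ g' = 1) ∧ (¬ S.Cross h h' g g' → χ g = χ g')) : False := by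
  classical
  obtain ⟨r, r0, hr⟩ := Metric.exists_pos_forall_lt_edist hYL.isCompact hYR hdisj
  have far : ∀ x ∈ YL, ∀ y ∈ YR, (r : ℝ) < dist x y := fun x hx y hy => by
    have := hr x hx y hy
    rwa [edist_nndist, ENNReal.coe_lt_coe] at this
  obtain ⟨D0, s, κ, fine, hb, -⟩ := gll hL (hYL.union hYR) hD hnc
    (fun d hd => (hDY d hd).elim (fun k => ⟨Or.inl k.1, Or.inl k.2⟩) fun k => ⟨Or.inr k.1, Or.inr k.2⟩)
    (Ord3.Ev.two hh) (fun k hk => by
      rcases Finset.mem_union.1 (Finsupp.support_add hk) with m | m <;>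
        rw [Finset.mem_singleton.1 (Finsupp.support_single_subset m)]
      exacts [Or.inl hhL, Or.inr hhR]) χ hloc (fun g g' c a a' fr => by
      have n1 : ∀ {g}, g ∉ YL ∪ YR → g ≠ h := fun m e => m (e ▸ Or.inl hhL)
      have n2 : ∀ {g}, g ∉ YL ∪ YR → g ≠ h' := fun m e => m (e ▸ Or.inr hhR)
      have i := Ord3.cross_iff_ind S.good hh c (n1 a) (n2 a) (n1 a') (n2 a')
      rw [Ord3.sig_two S.good hh c.1 (n1 a) (n2 a), Ord3.sig_two S.good hh c.2.1 (n1 a') (n2 a')]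
      by_cases k : S.Cross h h' g g'
      · rw [(hχ g g' c a a' fr).1 k, i.1 k]
      · rw [(hχ g g' c a a' fr).2 k, lam_z3 _ _ fun e => k (i.2 e), z2_add_self, z2_add_self])
    (show (0 : ℝ) < r from r0) h h
  set φ := Finsupp.linearCombination Z2 fun x : X => if x ∈ YR then (1 : Z2) else 0
  have same : ∀ (x y : X) (c : Z2), (x ∈ YL ∧ y ∈ YL) ∨ (x ∈ YR ∧ y ∈ YR) →
      φ (Finsupp.single x c + Finsupp.single y c) = 0 := by
    rintro x y c (k | k)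
    · simp [φ, disjoint_left.1 hdisj k.1, disjoint_left.1 hdisj k.2]
    · simp [φ, k.1, k.2, z2_add_self]
  have e1 : φ (bd κ) = 0 := by
    rw [← κ.sum_single, Finsupp.sum, map_sum, map_sum]
    refine Finset.sum_eq_zero fun l hl => ?_
    obtain ⟨a, b, c⟩ := fine l hl
    rw [bd_single]
    refine same _ _ _ ?_
    rcases a with a | a <;> rcases b with b | b
    · exact Or.inl ⟨a, b⟩
    · exact absurd c (far _ a _ b).not_gt
    · exact absurd c (dist_comm l.1 l.2 ▸ far _ b _ a).not_gt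
    · exact Or.inr ⟨a, b⟩
  rw [hb, map_add, map_sum, Finset.sum_eq_zero (f := fun d : X × X => φ (two d.1 d.2))
    fun d hd => same _ _ 1 (hDY d (s hd))] at e1
  simp [φ, two, hhR, disjoint_left.1 hdisj hhL] at e1

theorem lam_noacc (hL : S.Lam L) {M : Set (X × X)} (hM : S.Tame L M) {p p' : X} (q : X)
    (hne : p ≠ p') (hc : S.Chord p p') (hf : S.Free M p p') :
    ∃ ρ > 0, {e ∈ M | S.Cross e.1 e.2 p q ∧ e.1 ∈ ball p ρ ∧ e.2 ∈ ball p ρ}.Finite := by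
  by_cases hq : p = q
  · exact ⟨1, one_pos, finite_empty.subset fun e he => he.2.1.ne34 hq⟩
  have r0 : 0 < min (dist p p' / 2) (dist p q / 2) :=
    lt_min (half_pos (dist_pos.2 hne)) (half_pos (dist_pos.2 hq))
  have l1 := min_le_left (dist p p' / 2) (dist p q / 2)
  have l2 := min_le_right (dist p p' / 2) (dist p q / 2)
  generalize min (dist p p' / 2) (dist p q / 2) = ρ at r0 l1 l2
  refine ⟨ρ, r0, (Tame.x2 hL hM p' q r0).subset ?_⟩
  rintro e ⟨he, c, b1, b2⟩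
  rw [mem_ball'] at b1 b2
  refine ⟨he, ((c.tri S.good hc.symm ?_ ?_).resolve_left fun k => hf e he k.swapR).symm,
    fun k => ?_, fun k => ?_⟩
  · rintro rfl
    linarith
  · rintro rfl
    linarith
  · linarith [dist_triangle p e.1 p', mem_ball.1 k.1]
  · linarith [dist_triangle p e.1 q, mem_ball.1 k.1]

theorem lam_fin (hL : S.Lam L) {M : Set (X × X)} (hM : S.Tame L M) {p q : X}
    (h1 : ∃ ρ > 0, {e ∈ M | S.Cross e.1 e.2 p q ∧ e.1 ∈ ball p ρ ∧ e.2 ∈ ball p ρ}.Finite)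
    (h2 : ∃ ρ > 0, {e ∈ M | S.Cross e.1 e.2 q p ∧ e.1 ∈ ball q ρ ∧ e.2 ∈ ball q ρ}.Finite) :
    {e ∈ M | S.Cross e.1 e.2 p q}.Finite := by
  obtain ⟨r, r0, h1⟩ := h1
  obtain ⟨s, s0, h2⟩ := h2
  refine (((Tame.x2 hL hM p q (lt_min r0 s0)).union h1).union h2).subset fun e he => ?_
  by_cases a : e.1 ∈ ball p (min r s) ∧ e.2 ∈ ball p (min r s)
  · exact Or.inl (Or.inr ⟨he.1, he.2, ball_subset_ball (min_le_left _ _) a.1,
      ball_subset_ball (min_le_left _ _) a.2⟩)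
  by_cases b : e.1 ∈ ball q (min r s) ∧ e.2 ∈ ball q (min r s)
  · exact Or.inr ⟨he.1, he.2.swapR, ball_subset_ball (min_le_right _ _) b.1,
      ball_subset_ball (min_le_right _ _) b.2⟩
  · exact Or.inl (Or.inl ⟨he.1, he.2.symm, a, b⟩)

/-- a nearest member of a tame non-crossing family -/
theorem nearest (hL : S.Lam L) {D : Set (X × X)} (hD : S.Tame L D) (hnc : S.NC D) {Z : Set X}
    (hZ : IsClosed Z) (hDZ : ∀ d ∈ D, d.1 ∈ Z ∧ d.2 ∈ Z) {g : X} (hg : g ∉ Z) {d0 : X × X}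
    (hd0 : d0 ∈ D) (hne : d0.1 ≠ d0.2) (hch : S.Chord g d0.1) :
    ∃ d ∈ D, d.1 ≠ d.2 ∧ S.Chord g d.1 ∧ S.Free D g d.1 ∧ S.Free D g d.2 ∧
      (d = d0 ∨ S.Cross d.1 d.2 g d0.1 ∨ S.Cross d.1 d.2 g d0.2) := by
  obtain ⟨r, r0, hr⟩ := Metric.isOpen_iff.1 hZ.isOpen_compl g hg
  have fin : ∀ p p', p ≠ p' → S.Chord p p' → S.Free D p p' → {e ∈ D | S.Cross e.1 e.2 g p}.Finite :=
    fun p p' a b c => lam_fin hL hD ⟨r, r0, finite_empty.subset fun e he =>
      hr he.2.2.1 (hDZ e he.1).1⟩ (lam_noacc hL hD g a b c)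
  have c0 := hD.chord d0 hd0
  have F : {e ∈ D | S.Cross e.1 e.2 g d0.1 ∨ S.Cross e.1 e.2 g d0.2}.Finite :=
    ((fin _ _ hne c0 fun e he => hnc e he d0 hd0).union (fin _ _ hne.symm c0.symm
      fun e he k => hnc e he d0 hd0 k.swapR)).subset fun e he =>
        he.2.imp (fun k => ⟨he.1, k⟩) fun k => ⟨he.1, k⟩
  clear fin c0
  induction hn : {e ∈ D | S.Cross e.1 e.2 g d0.1 ∨ S.Cross e.1 e.2 g d0.2}.ncard
    using Nat.strong_induction_on generalizing d0 with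
  | _ n ih =>
  by_cases h : ∃ f ∈ D, S.Cross f.1 f.2 g d0.1 ∨ S.Cross f.1 f.2 g d0.2
  · obtain ⟨f, hf, c⟩ := h
    have tr : ∀ e ∈ D, S.Cross e.1 e.2 g f.1 ∨ S.Cross e.1 e.2 g f.2 →
        S.Cross e.1 e.2 g d0.1 ∨ S.Cross e.1 e.2 g d0.2 := by
      have t : ∀ e ∈ D, ∀ q, S.Cross e.1 e.2 g f.1 ∨ S.Cross e.1 e.2 g f.2 → S.Cross f.1 f.2 g q →
          S.Cross e.1 e.2 g q := fun e he q k c => k.elim
        (fun k => c.beyond S.good k (hnc e he f hf))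
        fun k => c.swapL.beyond S.good k fun m => hnc e he f hf m.swapR
      exact fun e he k => c.imp (t e he _ k) (t e he _ k)
    have ss : {e ∈ D | S.Cross e.1 e.2 g f.1 ∨ S.Cross e.1 e.2 g f.2} ⊂
        {e ∈ D | S.Cross e.1 e.2 g d0.1 ∨ S.Cross e.1 e.2 g d0.2} :=
      ⟨fun e he => ⟨he.1, tr e he.1 he.2⟩, fun k => (k ⟨hf, c⟩).2.elim (fun m => m.ne14 rfl)
        fun m => m.ne24 rfl⟩
    obtain ⟨d, hd, a1, a2, a3, a4, a5⟩ := ih _ (hn ▸ ncard_lt_ncard ss F) hf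
      (c.elim (·.ne12) (·.ne12)) (c.elim (·.chord13 S.good) (·.chord13 S.good)).symm
      (F.subset ss.1) rfl
    exact ⟨d, hd, a1, a2, a3, a4, Or.inr (a5.elim (fun e => e ▸ c) (tr d hd))⟩
  · exact ⟨d0, hd0, hne, hch, fun f hf k => h ⟨f, hf, Or.inl k⟩, fun f hf k => h ⟨f, hf, Or.inr k⟩,
      Or.inl rfl⟩

/-- `e` separates the anchors `α` and `β` -/
def Sep (S : Str X) (e α β : X × X) : Prop :=
  S.Cross e.1 e.2 α.1 β.1 ∨ S.Cross e.1 e.2 α.1 β.2 ∨ S.Cross e.1 e.2 α.2 β.1 ∨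
    S.Cross e.1 e.2 α.2 β.2

/-- `a` is an end of `α` -/
def lamEnd (α : X × X) (a : X) : Prop := a = α.1 ∨ a = α.2

theorem lam_sep {e α β : X × X} :
    S.Sep e α β ↔ ∃ a b, lamEnd α a ∧ lamEnd β b ∧ S.Cross e.1 e.2 a b := by
  refine ⟨fun h => ?_, ?_⟩
  · rcases h with h | h | h | h
    exacts [⟨_, _, Or.inl rfl, Or.inl rfl, h⟩, ⟨_, _, Or.inl rfl, Or.inr rfl, h⟩,
      ⟨_, _, Or.inr rfl, Or.inl rfl, h⟩, ⟨_, _, Or.inr rfl, Or.inr rfl, h⟩]
  · rintro ⟨a, b, rfl | rfl, rfl | rfl, h⟩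
    exacts [Or.inl h, Or.inr (Or.inl h), Or.inr (Or.inr (Or.inl h)), Or.inr (Or.inr (Or.inr h))]

theorem lam_ends {M : Set (X × X)} {α : X × X} (hc : S.Chord α.1 α.2) (hf : S.Free M α.1 α.2)
    {a a' : X} (ha : lamEnd α a) (ha' : lamEnd α a') : S.Chord a a' ∧ S.Free M a a' := by
  rcases ha with rfl | rfl <;> rcases ha' with rfl | rfl
  exacts [⟨Ord3.Chord.refl hc.1, fun _ _ k => k.ne34 rfl⟩, ⟨hc, hf⟩,
    ⟨hc.symm, fun e he k => hf e he k.swapR⟩, ⟨Ord3.Chord.refl hc.2.1, fun _ _ k => k.ne34 rfl⟩]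

theorem lam_sepL {M : Set (X × X)} (hnc : S.NC M) {e f : X × X} (he : e ∈ M) (hf : f ∈ M)
    {a a' b : X} (h : S.Chord a' a ∧ S.Free M a' a) (c : S.Cross e.1 e.2 a b)
    (c' : S.Cross f.1 f.2 a' e.1) : S.Cross f.1 f.2 a' b :=
  ((c.tri S.good h.1 c'.ne34 fun k => hnc f hf e he (k ▸ c').swapR).resolve_left
    (h.2 e he)).beyond S.good c' (hnc f hf e he)

/-- no accumulation at `p` of members crossing `(p,q)` -/
def lamN (S : Str X) (M : Set (X × X)) (p q : X) : Prop :=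
  ∃ ρ > 0, {e ∈ M | S.Cross e.1 e.2 p q ∧ e.1 ∈ ball p ρ ∧ e.2 ∈ ball p ρ}.Finite

theorem lam_reduce (hL : S.Lam L) {M : Set (X × X)} (hM : S.Tame L M) {α : X × X} (β : X × X)
    (hc : S.Chord α.1 α.2) (hf : S.Free M α.1 α.2) :
    (∀ a b, lamEnd α a → lamEnd β b → S.lamN M a b) ∨ (α.1 = α.2 ∧ ∀ ρ > 0, ∃ e ∈ M, ∃ b,
      lamEnd β b ∧ S.Cross e.1 e.2 α.1 b ∧ e.1 ∈ ball α.1 ρ ∧ e.2 ∈ ball α.1 ρ) := by
  by_cases h : α.1 = α.2
  · refine or_iff_not_imp_left.2 fun n => ⟨h, fun ρ r0 => by_contra fun k => n fun a b ha hb =>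
      ⟨ρ, r0, finite_empty.subset fun e he => k ?_⟩⟩
    rw [show a = α.1 from ha.elim id fun m => m.trans h.symm] at he
    exact ⟨e, he.1, b, hb, he.2⟩
  · refine Or.inl fun a b ha _ => ?_
    rcases ha with rfl | rfl
    · exact lam_noacc hL hM b h hc hf
    · exact lam_noacc hL hM b (Ne.symm h) hc.symm fun e he k => hf e he k.swapR

/-- walking from one anchor to another through the chords of `M` that separate them -/
theorem walk (hL : S.Lam L) {M : Set (X × X)} (hM : S.Tame L M) (hnc : S.NC M)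
    (hsymm : ∀ e ∈ M, e.swap ∈ M) (Γ : Set X) (ν : X × X → Z2) (Ok : X × X → X × X → Prop)
    (H0 : ∀ α β, Ok α β → S.Chord α.1 α.2 ∧ S.Chord β.1 β.2 ∧ S.Chord α.1 β.1 ∧
      S.Free M α.1 α.2 ∧ S.Free M β.1 β.2)
    (H1 : ∀ α β, Ok α β → ∀ e ∈ M, S.Sep e α β → e.1 ∈ Γ ∨ e.2 ∈ Γ)
    (H2 : ∀ α β, Ok α β → ∀ e ∈ M, S.Sep e α β → e.1 ∈ Γ → Ok α (e.1, e.1) ∧ Ok (e.1, e.1) β)
    (H3 : ∀ α β, Ok α β → (∀ e ∈ M, ¬ S.Sep e α β) → ν α = ν β)
    (H4 : ∀ α β, Ok α β →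
      (α.1 = α.2 → ∃ ρ > 0, ∀ k ∈ Γ, k ∈ ball α.1 ρ → ν (k, k) = ν α) ∧
      (β.1 = β.2 → ∃ ρ > 0, ∀ k ∈ Γ, k ∈ ball β.1 ρ → ν (k, k) = ν β)) :
    ∀ α β, Ok α β → ν α = ν β := by
  have E1 : ∀ {α β a a'}, Ok α β → lamEnd α a → lamEnd α a' → S.Chord a a' ∧ S.Free M a a' :=
    fun h => lam_ends (H0 _ _ h).1 (H0 _ _ h).2.2.2.1
  have E2 : ∀ {α β a a'}, Ok α β → lamEnd β a → lamEnd β a' → S.Chord a a' ∧ S.Free M a a' :=
    fun h => lam_ends (H0 _ _ h).2.1 (H0 _ _ h).2.2.2.2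
  have pt : ∀ {x a : X}, lamEnd (x, x) a → a = x := fun h => h.elim id id
  have pick : ∀ {α β e a b}, Ok α β → e ∈ M → lamEnd α a → lamEnd β b → S.Cross e.1 e.2 a b →
      ∃ f ∈ M, (f = e ∨ f = e.swap) ∧ S.Cross f.1 f.2 a b ∧ f.1 ∈ Γ ∧ Ok α (f.1, f.1) ∧
        Ok (f.1, f.1) β := fun {α β e a b} h he ha hb c =>
    (H1 α β h e he (lam_sep.2 ⟨a, b, ha, hb, c⟩)).elim
      (fun m => ⟨e, he, Or.inl rfl, c, m, H2 α β h e he (lam_sep.2 ⟨a, b, ha, hb, c⟩) m⟩)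
      fun m => ⟨e.swap, hsymm e he, Or.inr rfl, c.swapL, m,
        H2 α β h _ (hsymm e he) (lam_sep.2 ⟨a, b, ha, hb, c.swapL⟩) m⟩
  have s0 : ∀ n α β, Ok α β → {e ∈ M | S.Sep e α β}.Finite → {e ∈ M | S.Sep e α β}.ncard ≤ n →
      ν α = ν β := by
    intro n
    induction n using Nat.strong_induction_on with
    | _ n ih =>
    intro α β h F hn
    by_cases k : ∃ e ∈ M, S.Sep e α β
    · obtain ⟨e, he, k⟩ := k
      obtain ⟨a, b, ha, hb, c⟩ := lam_sep.1 k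
      obtain ⟨f, hf, -, c, -, o1, o2⟩ := pick h he ha hb c
      have m : f ∈ {e ∈ M | S.Sep e α β} := ⟨hf, lam_sep.2 ⟨a, b, ha, hb, c⟩⟩
      have s1 : {e ∈ M | S.Sep e α (f.1, f.1)} ⊂ {e ∈ M | S.Sep e α β} := by
        refine ⟨fun g hg => ?_, fun k => ?_⟩
        · obtain ⟨a', x, ha', hx, c'⟩ := lam_sep.1 hg.2
          exact ⟨hg.1, lam_sep.2 ⟨a', b, ha', hb,
            lam_sepL hnc hf hg.1 (E1 h ha' ha) c (pt hx ▸ c')⟩⟩
        · obtain ⟨a', x, -, hx, c'⟩ := lam_sep.1 (k m).2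
          exact c'.ne14 (pt hx).symm
      have s2 : {e ∈ M | S.Sep e (f.1, f.1) β} ⊂ {e ∈ M | S.Sep e α β} := by
        refine ⟨fun g hg => ?_, fun k => ?_⟩
        · obtain ⟨x, b', hx, hb', c'⟩ := lam_sep.1 hg.2
          exact ⟨hg.1, lam_sep.2 ⟨a, b', ha, hb',
            (lam_sepL hnc hf hg.1 (E2 h hb' hb) c.swapR (pt hx ▸ c').swapR).swapR⟩⟩
        · obtain ⟨x, b', hx, -, c'⟩ := lam_sep.1 (k m).2
          exact c'.ne13 (pt hx).symm
      exact (ih _ ((ncard_lt_ncard s1 F).trans_le hn) _ _ o1 (F.subset s1.1) le_rfl).trans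
        (ih _ ((ncard_lt_ncard s2 F).trans_le hn) _ _ o2 (F.subset s2.1) le_rfl)
    · exact H3 α β h fun e he c => k ⟨e, he, c⟩
  have s1 : ∀ α β, Ok α β → (∀ a b, lamEnd α a → lamEnd β b → S.lamN M a b) →
      (∀ b a, lamEnd β b → lamEnd α a → S.lamN M b a) → ν α = ν β := fun α β h n1 n2 => by
    have f : ∀ a b, lamEnd α a → lamEnd β b → {e ∈ M | S.Cross e.1 e.2 a b}.Finite :=
      fun a b ha hb => lam_fin hL hM (n1 a b ha hb) (n2 b a hb ha)
    refine s0 _ α β h (((f _ _ (Or.inl rfl) (Or.inl rfl)).union ((f _ _ (Or.inl rfl)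
      (Or.inr rfl)).union ((f _ _ (Or.inr rfl) (Or.inl rfl)).union
        (f _ _ (Or.inr rfl) (Or.inr rfl))))).subset fun e he => ?_) le_rfl
    exact he.2.imp (fun k => ⟨he.1, k⟩) (Or.imp (fun k => ⟨he.1, k⟩)
      (Or.imp (fun k => ⟨he.1, k⟩) fun k => ⟨he.1, k⟩))
  have na : ∀ {f : X × X} {a b}, f ∈ M → S.Cross f.1 f.2 a b → ∀ (γ : X × X) x y,
      lamEnd (f.1, f.1) x → lamEnd γ y → S.lamN M x y := fun hf c _ x y hx _ =>
    pt hx ▸ lam_noacc hL hM y c.ne12 c.1 fun e he => hnc e he _ hf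
  have s2 : ∀ α β, Ok α β → (∀ a b, lamEnd α a → lamEnd β b → S.lamN M a b) → ν α = ν β :=
    fun α β h n1 => by
    rcases lam_reduce hL hM α (H0 _ _ h).2.1 (H0 _ _ h).2.2.2.2 with n2 | ⟨e0, n2⟩
    · exact s1 α β h n1 n2
    obtain ⟨ρ, r0, hρ⟩ := (H4 α β h).2 e0
    obtain ⟨e, he, a, ha, c, b1, b2⟩ := n2 ρ r0
    obtain ⟨f, hf, hfe, c, m, o1, -⟩ := pick h he ha (Or.inl rfl) c.swapR
    rw [← hρ f.1 m (by rcases hfe with rfl | rfl <;> assumption)]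
    refine s1 _ _ o1 (fun a' x ha' hx => ?_) (na hf c α)
    obtain ⟨r, r0, F⟩ := n1 a' β.1 ha' (Or.inl rfl)
    exact ⟨r, r0, F.subset fun g hg =>
      ⟨hg.1, lam_sepL hnc hf hg.1 (E1 h ha' ha) c (pt hx ▸ hg.2.1), hg.2.2⟩⟩
  intro α β h
  rcases lam_reduce hL hM β (H0 _ _ h).1 (H0 _ _ h).2.2.2.1 with n1 | ⟨e0, n1⟩
  · exact s2 α β h n1
  obtain ⟨ρ, r0, hρ⟩ := (H4 α β h).1 e0
  obtain ⟨e, he, b, hb, c, b1, b2⟩ := n1 ρ r0
  obtain ⟨f, hf, hfe, c, m, -, o2⟩ := pick h he (Or.inl rfl) hb c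
  rw [← hρ f.1 m (by rcases hfe with rfl | rfl <;> assumption)]
  exact s2 _ _ o2 (na hf c β)

end Str

end Pool.Agent.Lib.MP_9e71a3_gt
end

-- part Pool.Agent.Lib.MP_9e71a3_gt.ValA
section

/-! Values of the side function along paths with jumps, first part. -/

set_option autoImplicit false
set_option linter.unusedSectionVars false

namespace Pool.Agent.Lib.MP_9e71a3_gt

open Set Metric Filter Topology

/-- approximation of the part of `(K, π)` between two parameters by a chain of short links;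
gaps may be omitted -/
inductive Approx {X : Type} [MetricSpace X] (K : Set ℝ) (π : ℝ → X) (η : ℝ) :
    ℝ → ℝ → Ch X → Prop
  | fine (s t : ℝ) : s ∈ K → t ∈ K → s ≤ t →
      (∀ u ∈ K ∩ Icc s t, ∀ v ∈ K ∩ Icc s t, dist (π u) (π v) < η) →
      Approx K π η s t (lnk (π s) (π t))
  | gap (s t : ℝ) : Gap K s t → Approx K π η s t 0
  | trans (s t u : ℝ) (κ κ' : Ch X) : Approx K π η s t κ → Approx K π η t u κ' →
      Approx K π η s u (κ + κ')

theorem val_z2a (a b c : Z2) (h : a + b + c = 0) : b = a + c := by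
  revert a b c; decide

theorem val_z2b (a b : Z2) (h : a + b = 0) : a = b := by
  revert a b; decide

theorem val_z2c (a b c : Z2) : a + c = (a + b) + (b + c) := by
  revert a b c; decide

theorem val_z2d (a b c : Z2) (h : c = a + b) : b = a + c := by
  revert a b c; decide

theorem val_two_self {A : Type} (a : A) : two a a = 0 := fs_add_self _

theorem val_two_two {A : Type} (a b c : A) : two a b + two b c = two a c := by
  have h := fs_add_self (Finsupp.single b (1 : Z2))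
  unfold two
  rw [add_assoc, ← add_assoc (Finsupp.single b 1), h, zero_add]

theorem val_supp_lnk {A : Type} {x y : A} {l : A × A} (h : l ∈ (lnk x y).support) :
    l = (x, y) := by
  simpa using Finsupp.support_single_subset h

theorem val_supp_add {A : Type} {κ κ' : Ch A} {l : A × A} (h : l ∈ (κ + κ').support) :
    l ∈ κ.support ∨ l ∈ κ'.support := by
  classical
  simpa only [Finset.mem_union] using Finsupp.support_add h

theorem val_ch_sum {A : Type} (κ : Ch A) : κ = ∑ l ∈ κ.support, lnk l.1 l.2 := by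
  conv_lhs => rw [← Finsupp.sum_single κ]
  refine Finset.sum_congr rfl fun l hl => ?_
  rcases z2_cases (κ l) with h | h
  · exact absurd h (Finsupp.mem_support_iff.1 hl)
  · rw [h]; rfl

theorem val_sum_links {A M : Type} [AddCommGroup M] [Module Z2 M] (G : A → M) (κ : Ch A)
    (D0 : Finset (A × A)) (h : bd κ = ∑ d ∈ D0, two d.1 d.2) :
    ∑ l ∈ κ.support, (G l.1 + G l.2) = ∑ d ∈ D0, (G d.1 + G d.2) := by
  have h1 : ∀ a b, Finsupp.linearCombination Z2 G (two a b) = G a + G b := fun a b => by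
    simp [two]
  have h2 := congrArg (Finsupp.linearCombination Z2 G) h
  rw [val_ch_sum κ, map_sum, map_sum, map_sum] at h2
  simpa only [bd_lnk, h1] using h2

theorem val_sep {X : Type} [MetricSpace X] {A B : Set X} (hA : IsCompact A) (hB : IsClosed B)
    (h : Disjoint A B) : ∃ r > 0, ∀ x ∈ A, ∀ y ∈ B, r ≤ dist x y := by
  obtain ⟨r, hr, h1⟩ := exists_pos_forall_lt_edist hA hB h
  refine ⟨r, hr, fun x hx y hy => ?_⟩
  have := (h1 x hx y hy).le
  rw [edist_nndist, ENNReal.coe_le_coe] at this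
  exact this

theorem val_far {X : Type} [MetricSpace X] {A : Set X} (hA : IsCompact A) {o o' : X}
    (ho : o ∉ A) (ho' : o' ∉ A) : ∃ r > 0, ∀ x ∈ A, r ≤ dist x o ∧ r ≤ dist x o' := by
  obtain ⟨r, hr, h⟩ := val_sep hA (B := {o, o'}) (toFinite _).isClosed (by
    rw [disjoint_right]
    rintro x (rfl | rfl)
    · exact ho
    · exact ho')
  exact ⟨r, hr, fun x hx => ⟨h x hx o (by simp), h x hx o' (by simp)⟩⟩

namespace Approx
variable {X : Type} [MetricSpace X] {K : Set ℝ} {π : ℝ → X} {η η' s t : ℝ} {κ : Ch X}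

theorem mem (h : Approx K π η s t κ) : s ∈ K ∧ t ∈ K ∧ s ≤ t := by
  induction h with
  | fine s t hs ht hst _ => exact ⟨hs, ht, hst⟩
  | gap s t h => exact ⟨h.1, h.2.1, h.2.2.1.le⟩
  | trans s t u _ _ _ _ h1 h2 => exact ⟨h1.1, h2.2.1, h1.2.2.trans h2.2.2⟩

theorem mono (h : Approx K π η s t κ) (hη : η ≤ η') : Approx K π η' s t κ := by
  induction h with
  | fine s t hs ht hst h => exact .fine s t hs ht hst fun u hu v hv => (h u hu v hv).trans_le hη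
  | gap s t h => exact .gap s t h
  | trans s t u _ _ _ _ h1 h2 => exact .trans _ _ _ _ _ h1 h2

theorem refl (hs : s ∈ K) (hη : 0 < η) : Approx K π η s s (lnk (π s) (π s)) :=
  .fine s s hs hs le_rfl fun u hu v hv => by
    rw [le_antisymm hu.2.2 hu.2.1, le_antisymm hv.2.2 hv.2.1, dist_self]
    exact hη

theorem fine' (h : Approx K π η s t κ) : Fine η (π '' (K ∩ Icc s t)) κ := by
  induction h with
  | fine s t hs ht hst h =>
    intro l hl
    rw [val_supp_lnk hl]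
    exact ⟨⟨s, ⟨hs, le_rfl, hst⟩, rfl⟩, ⟨t, ⟨ht, hst, le_rfl⟩, rfl⟩,
      h s ⟨hs, le_rfl, hst⟩ t ⟨ht, hst, le_rfl⟩⟩
  | gap s t h => intro l hl; simp at hl
  | trans s t u _ _ h1 h2 i1 i2 =>
    intro l hl
    have a1 : π '' (K ∩ Icc s t) ⊆ π '' (K ∩ Icc s u) :=
      image_mono (inter_subset_inter_right _ (Icc_subset_Icc_right h2.mem.2.2))
    have a2 : π '' (K ∩ Icc t u) ⊆ π '' (K ∩ Icc s u) :=
      image_mono (inter_subset_inter_right _ (Icc_subset_Icc_left h1.mem.2.2))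
    rcases val_supp_add hl with hl | hl
    · exact ⟨a1 (i1 l hl).1, a1 (i1 l hl).2.1, (i1 l hl).2.2⟩
    · exact ⟨a2 (i2 l hl).1, a2 (i2 l hl).2.1, (i2 l hl).2.2⟩

theorem exists_gaps (h : Approx K π η s t κ) : ∃ Gs : Finset (ℝ × ℝ),
    (∀ p ∈ Gs, Gap K p.1 p.2 ∧ s ≤ p.1 ∧ p.2 ≤ t) ∧
    (∀ a b, Gap K a b → s ≤ a → b ≤ t → η ≤ dist (π a) (π b) → (a, b) ∈ Gs) ∧
    bd κ = two (π s) (π t) + ∑ p ∈ Gs, two (π p.1) (π p.2) := by
  induction h with
  | fine s t hs ht hst h =>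
    refine ⟨∅, by simp, fun a b hg ha hb hd => ?_, by simp [bd_lnk]⟩
    have := h a ⟨hg.1, ha, hg.2.2.1.le.trans hb⟩ b ⟨hg.2.1, ha.trans hg.2.2.1.le, hb⟩
    exact absurd hd (not_le.2 this)
  | gap s t h =>
    refine ⟨{(s, t)}, by simpa using h, fun a b hg ha hb _ => ?_, by simp [fs_add_self]⟩
    have h1 := h.2.2.2 a hg.1
    have h2 := h.2.2.2 b hg.2.1
    have h3 := hg.2.2.1
    have h4 : a = s := by rcases h1 with h1 | h1 <;> linarith
    have h5 : b = t := by rcases h2 with h2 | h2 <;> linarith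
    simp [h4, h5]
  | trans s t u _ _ h1 h2 i1 i2 =>
    obtain ⟨G1, a1, a2, a3⟩ := i1
    obtain ⟨G2, b1, b2, b3⟩ := i2
    have hd : Disjoint G1 G2 := Finset.disjoint_left.2 fun p hp hp' => by
      have := (a1 p hp).1.2.2.1
      have := (a1 p hp).2.2
      have := (b1 p hp').2.1
      linarith
    refine ⟨G1.disjUnion G2 hd, fun p hp => ?_, fun a b hg ha hb hη => ?_, ?_⟩
    · rcases Finset.mem_disjUnion.1 hp with hp | hp
      · exact ⟨(a1 p hp).1, (a1 p hp).2.1, (a1 p hp).2.2.trans h2.mem.2.2⟩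
      · exact ⟨(b1 p hp).1, h1.mem.2.2.trans (b1 p hp).2.1, (b1 p hp).2.2⟩
    · rw [Finset.mem_disjUnion]
      rcases hg.2.2.2 t h2.mem.1 with h | h
      · exact Or.inr (b2 a b hg h hb hη)
      · exact Or.inl (a2 a b hg ha h hη)
    · rw [map_add, a3, b3, Finset.sum_disjUnion, ← val_two_two (π s) (π t) (π u)]
      abel

end Approx

namespace Str
variable {X : Type} [MetricSpace X] [CompactSpace X] {S : Str X} {L : Set (X × X)}
  {K K' : Set ℝ} {π π' : ℝ → X}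

/-- a track: closed parameter set, continuous map, nontrivial gaps in a tame family -/
structure Trk (S : Str X) (L : Set (X × X)) (K : Set ℝ) (π : ℝ → X) : Prop where
  closed : IsClosed K
  cont : ContinuousOn π K
  tame : S.Tame L {p ∈ gaps K π | p.1 ≠ p.2}

theorem trk_of_path {R : Set (X × X)} {a b : ℝ} (hR : S.Tame L R) (h : IsPath R K π a b) :
    S.Trk L K π :=
  ⟨h.compact.isClosed, h.cont, hR.mono (by
    rintro p ⟨⟨s, t, hg, rfl⟩, hne⟩
    exact (h.gap s t hg).resolve_left hne)⟩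

theorem Trk.gap (h : S.Trk L K π) (s t : ℝ) (hg : Gap K s t) :
    π s = π t ∨ (π s, π t) ∈ {p ∈ gaps K π | p.1 ≠ p.2} := by
  by_cases h1 : π s = π t
  · exact Or.inl h1
  · exact Or.inr ⟨⟨s, t, hg, rfl⟩, h1⟩

theorem Trk.compact (h : S.Trk L K π) (s t : ℝ) : IsCompact (π '' (K ∩ Icc s t)) :=
  (isCompact_Icc.inter_left h.closed).image_of_continuousOn (h.cont.mono inter_subset_left)

open Classical in
/-- the limiting value of fine approximations at the tests `o, o'` -/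
noncomputable def pv (S : Str X) (K : Set ℝ) (π : ℝ → X) (s t : ℝ) (o o' : X) : Z2 :=
  if ∃ η > 0, ∀ κ, Approx K π η s t κ → S.ev κ o o' = 1 then 1 else 0

theorem ev_add (κ κ' : Ch X) (o o' : X) : S.ev (κ + κ') o o' = S.ev κ o o' + S.ev κ' o o' := by
  simp only [ev, map_add, Pi.add_apply]
  ring

theorem ev_zero (o o' : X) : S.ev 0 o o' = 0 := by simp [ev]

theorem val_ev_sum {ι : Type} (T : Finset ι) (f : ι → Ch X) (o o' : X) :
    S.ev (∑ i ∈ T, f i) o o' = ∑ i ∈ T, S.ev (f i) o o' := by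
  simp only [ev, map_sum, Finset.sum_apply, Finset.sum_add_distrib]

theorem val_ev_links (κ : Ch X) (o o' : X) :
    S.ev κ o o' = ∑ l ∈ κ.support, S.ev (lnk l.1 l.2) o o' := by
  rw [← val_ev_sum, ← val_ch_sum]

theorem approx_exists (hK : IsClosed K) (hπ : ContinuousOn π K) {η : ℝ} (hη : 0 < η) {s t : ℝ}
    (hs : s ∈ K) (ht : t ∈ K) (hst : s ≤ t) : ∃ κ, Approx K π η s t κ := by
  refine gap_induction hK (fun s t => ∃ κ, Approx K π η s t κ) ?_ ?_ ?_ s hs t ht hst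
  · rintro s _ t _ u _ _ _ ⟨κ, h⟩ ⟨κ', h'⟩
    exact ⟨_, .trans _ _ _ _ _ h h'⟩
  · exact fun s t h => ⟨_, .gap s t h⟩
  · intro u hu
    obtain ⟨δ, hδ, h⟩ := Metric.continuousWithinAt_iff.1 (hπ u hu) (η / 2) (by positivity)
    refine ⟨δ, hδ, fun s hs t ht hst h1 h2 => ⟨_, .fine s t hs ht hst fun v hv w hw => ?_⟩⟩
    rw [abs_lt] at h1 h2
    have a1 := h hv.1 (x := v) (by
      rw [Real.dist_eq, abs_lt]; constructor <;> linarith [hv.2.1, hv.2.2])
    have a2 := h hw.1 (x := w) (by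
      rw [Real.dist_eq, abs_lt]; constructor <;> linarith [hw.2.1, hw.2.2])
    linarith [dist_triangle_right (π v) (π w) (π u)]

/-- small links: symmetric, and additive in triangles -/
theorem ev_small {r : ℝ} (hr : 0 < r) : ∃ η > 0, ∀ x y z o o' : X, dist x y < η → dist x z < η →
    r ≤ dist x o → r ≤ dist x o' →
    S.ev (lnk x x) o o' = 0 ∧ S.ev (lnk y x) o o' = S.ev (lnk x y) o o' ∧
      S.ev (lnk y z) o o' = S.ev (lnk x y) o o' + S.ev (lnk x z) o o' := by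
  obtain ⟨δ, hδ, h⟩ := S.T1 r hr
  have key : ∀ x y z o o' : X, dist x y < δ → dist x z < δ → r ≤ dist x o → r ≤ dist x o' →
      S.ev (lnk y z) o o' = S.ev (lnk x y) o o' + S.ev (lnk x z) o o' := by
    intro x y z o o' h1 h2 h3 h4
    apply val_z2a
    rw [← ev_add, ← ev_add, ev, h x y z o o' h1 h2 h3 h4, z2_add_self]
  refine ⟨δ, hδ, fun x y z o o' h1 h2 h3 h4 => ?_⟩
  have h0 : dist x x < δ := by simpa using hδ
  have h5 : S.ev (lnk x x) o o' = 0 := by rw [key x x x o o' h0 h0 h3 h4, z2_add_self]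
  exact ⟨h5, by rw [key x y x o o' h1 h0 h3 h4, h5, add_zero], key x y z o o' h1 h2 h3 h4⟩

/-- approximations of a track of small diameter -/
theorem val_cone (hL : S.Lam L) {R : Set (X × X)} (hR : S.Tame L R) {r : ℝ} (hr : 0 < r) :
    ∃ η > 0, ∀ (K : Set ℝ) (π : ℝ → X), (∀ s t, Gap K s t → π s = π t ∨ (π s, π t) ∈ R) →
      ∀ x o o', r ≤ dist x o → r ≤ dist x o' → ∀ η' s t κ, Approx K π η' s t κ →
      (∀ u ∈ K ∩ Icc s t, dist x (π u) < η) →
      S.ev κ o o' = S.ev (lnk x (π s)) o o' + S.ev (lnk x (π t)) o o' := by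
  obtain ⟨η1, h1, e1⟩ := S.ev_small hr
  obtain ⟨η2, h2, e2⟩ := hR.t2 hL (half_pos hr)
  refine ⟨min η1 (min (η2 / 2) (r / 2)), by positivity, ?_⟩
  intro K π hg x o o' ho ho' η' s t κ h
  induction h with
  | fine s t hs ht hst _ =>
    intro hx
    exact (e1 x _ _ o o' ((hx s ⟨hs, le_rfl, hst⟩).trans_le (min_le_left _ _))
      ((hx t ⟨ht, hst, le_rfl⟩).trans_le (min_le_left _ _)) ho ho').2.2
  | gap s t h =>
    intro hx
    have a1 := hx s ⟨h.1, le_rfl, h.2.2.1.le⟩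
    have a2 := hx t ⟨h.2.1, h.2.2.1.le, le_rfl⟩
    simp only [lt_min_iff] at a1 a2
    rw [ev_zero]
    rcases hg s t h with h3 | h3
    · rw [h3, z2_add_self]
    · rw [← (e1 x _ _ o o' a1.1 a2.1 ho ho').2.2]
      refine (e2 _ h3 ?_ o o' ?_ ?_).symm
      · linarith [dist_triangle_left (π s) (π t) x]
      · linarith [dist_triangle x (π s) o]
      · linarith [dist_triangle x (π s) o']
  | trans s t u _ _ a1 a2 i1 i2 =>
    intro hx
    rw [ev_add, i1 fun v hv => hx v ⟨hv.1, hv.2.1, hv.2.2.trans a2.mem.2.2⟩,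
      i2 fun v hv => hx v ⟨hv.1, a1.mem.2.2.trans hv.2.1, hv.2.2⟩]
    exact (val_z2c _ _ _).symm

theorem val_unique (hL : S.Lam L) {R : Set (X × X)} (hR : S.Tame L R) {r : ℝ} (hr : 0 < r) :
    ∃ η > 0, ∀ (K : Set ℝ) (π : ℝ → X), (∀ s t, Gap K s t → π s = π t ∨ (π s, π t) ∈ R) →
      ∀ o o' s t κ, Approx K π η s t κ →
      (∀ u ∈ K ∩ Icc s t, r ≤ dist (π u) o ∧ r ≤ dist (π u) o') →
      ∀ κ', Approx K π η s t κ' → S.ev κ o o' = S.ev κ' o o' := by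
  obtain ⟨η1, h1, e1⟩ := S.ev_small hr
  obtain ⟨η2, h2, e2⟩ := hR.t2 hL hr
  obtain ⟨η3, h3, e3⟩ := val_cone hL hR hr
  have hη : 0 < min η1 (min η2 η3) := by positivity
  refine ⟨_, hη, ?_⟩
  intro K π hg o o'
  have e0 : ∀ x, r ≤ dist x o → r ≤ dist x o' → S.ev (lnk x x) o o' = 0 := fun x a1 a2 =>
    (e1 x x x o o' (by simpa using h1) (by simpa using h1) a1 a2).1
  have split : ∀ s u κ, Approx K π (min η1 (min η2 η3)) s u κ →
      (∀ v ∈ K ∩ Icc s u, r ≤ dist (π v) o ∧ r ≤ dist (π v) o') → ∀ t ∈ K ∩ Icc s u,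
      ∃ κ1 κ2, Approx K π (min η1 (min η2 η3)) s t κ1 ∧ Approx K π (min η1 (min η2 η3)) t u κ2 ∧
        S.ev κ o o' = S.ev κ1 o o' + S.ev κ2 o o' := by
    intro s u κ h
    induction h with
    | fine s u hs hu hsu h =>
      intro hf t ht
      have a0 : s ∈ K ∩ Icc s u := ⟨hs, le_rfl, hsu⟩
      refine ⟨_, _, .fine s t hs ht.1 ht.2.1 fun v hv w hw => h v ⟨hv.1, hv.2.1,
        hv.2.2.trans ht.2.2⟩ w ⟨hw.1, hw.2.1, hw.2.2.trans ht.2.2⟩, .fine t u ht.1 hu ht.2.2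
        fun v hv w hw => h v ⟨hv.1, ht.2.1.trans hv.2.1, hv.2.2⟩ w
          ⟨hw.1, ht.2.1.trans hw.2.1, hw.2.2⟩, ?_⟩
      exact val_z2d _ _ _ (e1 _ _ _ o o' ((h s a0 t ht).trans_le (min_le_left _ _))
        ((h s a0 u ⟨hu, hsu, le_rfl⟩).trans_le (min_le_left _ _)) (hf s a0).1 (hf s a0).2).2.2
    | gap s u h =>
      intro hf t ht
      rcases h.2.2.2 t ht.1 with a | a
      · obtain rfl := le_antisymm a ht.2.1
        exact ⟨_, _, .refl h.1 hη, .gap _ _ h, by rw [e0 _ (hf t ht).1 (hf t ht).2, zero_add]⟩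
      · obtain rfl := le_antisymm a ht.2.2
        exact ⟨_, _, .gap _ _ h, .refl h.2.1 hη, by rw [e0 _ (hf u ht).1 (hf u ht).2, add_zero]⟩
    | trans s m u κ κ' a1 a2 i1 i2 =>
      intro hf t ht
      rcases le_total t m with a | a
      · obtain ⟨κ1, κ2, b1, b2, b3⟩ := i1 (fun v hv => hf v ⟨hv.1, hv.2.1,
          hv.2.2.trans a2.mem.2.2⟩) t ⟨ht.1, ht.2.1, a⟩
        exact ⟨κ1, κ2 + κ', b1, .trans _ _ _ _ _ b2 a2, by rw [ev_add, ev_add, b3, add_assoc]⟩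
      · obtain ⟨κ1, κ2, b1, b2, b3⟩ := i2 (fun v hv => hf v ⟨hv.1, a1.mem.2.2.trans hv.2.1,
          hv.2.2⟩) t ⟨ht.1, a, ht.2.2⟩
        exact ⟨κ + κ1, κ2, .trans _ _ _ _ _ a1 b1, b2, by rw [ev_add, ev_add, b3, add_assoc]⟩
  have nothing : ∀ s t κ, Approx K π (min η1 (min η2 η3)) s t κ →
      (∀ v ∈ K ∩ Icc s t, r ≤ dist (π v) o ∧ r ≤ dist (π v) o') →
      (∀ u ∈ K, u ≤ s ∨ t ≤ u) → S.ev κ o o' = 0 := by
    intro s t κ h
    induction h with
    | fine s t hs ht hst h =>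
      intro hf hno
      have a0 : s ∈ K ∩ Icc s t := ⟨hs, le_rfl, hst⟩
      rcases hst.eq_or_lt with rfl | a
      · exact e0 _ (hf s a0).1 (hf s a0).2
      · rcases hg s t ⟨hs, ht, a, hno⟩ with b | b
        · rw [← b]
          exact e0 _ (hf s a0).1 (hf s a0).2
        · exact e2 _ b ((h s a0 t ⟨ht, hst, le_rfl⟩).trans_le
            ((min_le_right _ _).trans (min_le_left _ _))) o o' (hf s a0).1 (hf s a0).2
    | gap s t h => exact fun _ _ => ev_zero _ _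
    | trans s m u κ κ' a1 a2 i1 i2 =>
      intro hf hno
      rw [ev_add, i1 (fun v hv => hf v ⟨hv.1, hv.2.1, hv.2.2.trans a2.mem.2.2⟩)
        fun v hv => (hno v hv).imp_right a2.mem.2.2.trans,
        i2 (fun v hv => hf v ⟨hv.1, a1.mem.2.2.trans hv.2.1, hv.2.2⟩)
        fun v hv => (hno v hv).imp_left fun h => h.trans a1.mem.2.2, add_zero]
  intro s t κ h
  induction h with
  | fine s t hs ht hst h =>
    intro hf κ' h'
    have a0 : s ∈ K ∩ Icc s t := ⟨hs, le_rfl, hst⟩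
    rw [e3 K π hg (π s) o o' (hf s a0).1 (hf s a0).2 _ s t κ' h' fun u hu =>
      (h s a0 u hu).trans_le ((min_le_right _ _).trans (min_le_right _ _)),
      e0 _ (hf s a0).1 (hf s a0).2, zero_add]
  | gap s t h =>
    intro hf κ' h'
    rw [ev_zero, nothing s t κ' h' hf h.2.2.2]
  | trans s m u κ1 κ2 a1 a2 i1 i2 =>
    intro hf κ' h'
    obtain ⟨κ1', κ2', b1, b2, b3⟩ := split s u κ' h' hf m ⟨a2.mem.1, a1.mem.2.2, a2.mem.2.2⟩
    rw [ev_add, b3, i1 (fun v hv => hf v ⟨hv.1, hv.2.1, hv.2.2.trans a2.mem.2.2⟩) _ b1,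
      i2 (fun v hv => hf v ⟨hv.1, a1.mem.2.2.trans hv.2.1, hv.2.2⟩) _ b2]

theorem val_spec (hL : S.Lam L) {R : Set (X × X)} (hR : S.Tame L R) {r : ℝ} (hr : 0 < r) :
    ∃ η > 0, ∀ (K : Set ℝ) (π : ℝ → X), IsClosed K → ContinuousOn π K →
      (∀ s t, Gap K s t → π s = π t ∨ (π s, π t) ∈ R) →
      ∀ s t o o', (∀ u ∈ K ∩ Icc s t, r ≤ dist (π u) o ∧ r ≤ dist (π u) o') →
      ∀ κ, Approx K π η s t κ → S.ev κ o o' = S.pv K π s t o o' := by
  obtain ⟨η, hη, e⟩ := val_unique hL hR hr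
  refine ⟨η, hη, fun K π hK hπ hg s t o o' hf κ h => ?_⟩
  unfold pv
  split_ifs with h1
  · obtain ⟨η', hη', h2⟩ := h1
    obtain ⟨κ', h3⟩ := approx_exists hK hπ (lt_min hη hη') h.mem.1 h.mem.2.1 h.mem.2.2
    rw [e K π hg o o' s t κ h hf κ' (h3.mono (min_le_left _ _))]
    exact h2 κ' (h3.mono (min_le_right _ _))
  · refine (z2_cases _).resolve_right fun h2 => h1 ⟨η, hη, fun κ' h3 => ?_⟩
    rw [← e K π hg o o' s t κ h hf κ' h3, h2]

theorem pv_spec (hL : S.Lam L) (h : S.Trk L K π) {r : ℝ} (hr : 0 < r) : ∃ η > 0,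
    ∀ s ∈ K, ∀ t ∈ K, s ≤ t → ∀ o o', (∀ u ∈ K ∩ Icc s t, r ≤ dist (π u) o ∧ r ≤ dist (π u) o') →
      ∀ κ, Approx K π η s t κ → S.ev κ o o' = S.pv K π s t o o' := by
  obtain ⟨η, hη, e⟩ := val_spec hL h.tame hr
  exact ⟨η, hη, fun s _ t _ _ o o' => e K π h.closed h.cont h.gap s t o o'⟩

/-- all sufficiently fine approximations of subtracks compute the value -/
theorem val_spec' (hL : S.Lam L) (h : S.Trk L K π) {s t : ℝ} {o o' : X}
    (ho : o ∉ π '' (K ∩ Icc s t)) (ho' : o' ∉ π '' (K ∩ Icc s t)) : ∃ η > 0,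
    ∀ a b κ, s ≤ a → b ≤ t → Approx K π η a b κ → S.ev κ o o' = S.pv K π a b o o' := by
  obtain ⟨r, hr, hf⟩ := val_far (h.compact s t) ho ho'
  obtain ⟨η, hη, e⟩ := pv_spec hL h hr
  exact ⟨η, hη, fun a b κ ha hb hκ => e a hκ.mem.1 b hκ.mem.2.1 hκ.mem.2.2 o o'
    (fun u hu => hf _ ⟨u, ⟨hu.1, ha.trans hu.2.1, hu.2.2.trans hb⟩, rfl⟩) κ hκ⟩

theorem pv_add (hL : S.Lam L) (h : S.Trk L K π) {s t u : ℝ} (hs : s ∈ K) (ht : t ∈ K)
    (hu : u ∈ K) (hst : s ≤ t) (htu : t ≤ u) {o o' : X} (ho : o ∉ π '' (K ∩ Icc s u))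
    (ho' : o' ∉ π '' (K ∩ Icc s u)) :
    S.pv K π s u o o' = S.pv K π s t o o' + S.pv K π t u o o' := by
  obtain ⟨η, hη, e⟩ := val_spec' hL h ho ho'
  obtain ⟨κ, h1⟩ := approx_exists h.closed h.cont hη hs ht hst
  obtain ⟨κ', h2⟩ := approx_exists h.closed h.cont hη ht hu htu
  rw [← e _ _ _ le_rfl htu h1, ← e _ _ _ hst le_rfl h2,
    ← e _ _ _ le_rfl le_rfl (.trans _ _ _ _ _ h1 h2), ev_add]

theorem pv_nothing_between (hL : S.Lam L) (h : S.Trk L K π) {s t : ℝ} (hs : s ∈ K) (ht : t ∈ K)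
    (hst : s ≤ t) (hno : ∀ u ∈ K, u ≤ s ∨ t ≤ u) {o o' : X}
    (ho : o ≠ π s ∧ o ≠ π t) (ho' : o' ≠ π s ∧ o' ≠ π t) : S.pv K π s t o o' = 0 := by
  have key : ∀ {o : X}, o ≠ π s ∧ o ≠ π t → o ∉ π '' (K ∩ Icc s t) := by
    rintro _ h1 ⟨u, hu, rfl⟩
    rcases hno u hu.1 with h2 | h2
    · exact h1.1 (by rw [le_antisymm h2 hu.2.1])
    · exact h1.2 (by rw [le_antisymm h2 hu.2.2])
  rcases hst.eq_or_lt with rfl | h1
  · rw [pv_add hL h hs hs hs le_rfl le_rfl (key ho) (key ho'), z2_add_self]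
  · obtain ⟨η, _, e⟩ := val_spec' hL h (key ho) (key ho')
    rw [← e _ _ _ le_rfl le_rfl (.gap s t ⟨hs, ht, h1, hno⟩), ev_zero]

theorem pv_self (hL : S.Lam L) (h : S.Trk L K π) {s : ℝ} (hs : s ∈ K) {o o' : X}
    (ho : o ≠ π s) (ho' : o' ≠ π s) : S.pv K π s s o o' = 0 :=
  pv_nothing_between hL h hs hs le_rfl (fun u _ => le_total u s) ⟨ho, ho⟩ ⟨ho', ho'⟩

theorem pv_cocycle (hL : S.Lam L) (h : S.Trk L K π) {s t : ℝ} (hs : s ∈ K) (ht : t ∈ K)
    (hst : s ≤ t) {o o' o'' : X} (ho : o ∉ π '' (K ∩ Icc s t)) (ho' : o' ∉ π '' (K ∩ Icc s t))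
    (ho'' : o'' ∉ π '' (K ∩ Icc s t)) :
    S.pv K π s t o o'' = S.pv K π s t o o' + S.pv K π s t o' o'' := by
  obtain ⟨η1, h1, e1⟩ := val_spec' hL h ho ho'
  obtain ⟨η2, h2, e2⟩ := val_spec' hL h ho' ho''
  obtain ⟨η3, h3, e3⟩ := val_spec' hL h ho ho''
  obtain ⟨κ, hκ⟩ := approx_exists h.closed h.cont (lt_min h1 (lt_min h2 h3)) hs ht hst
  rw [← e1 _ _ _ le_rfl le_rfl (hκ.mono (min_le_left _ _)),
    ← e2 _ _ _ le_rfl le_rfl (hκ.mono ((min_le_right _ _).trans (min_le_left _ _))),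
    ← e3 _ _ _ le_rfl le_rfl (hκ.mono ((min_le_right _ _).trans (min_le_right _ _)))]
  exact val_z2c _ _ _

theorem pv_same (hL : S.Lam L) (h : S.Trk L K π) {s t : ℝ} (hs : s ∈ K) (ht : t ∈ K)
    (hst : s ≤ t) (o : X) : S.pv K π s t o o = 0 := by
  refine if_neg ?_
  rintro ⟨η, hη, h1⟩
  obtain ⟨κ, hκ⟩ := approx_exists h.closed h.cont hη hs ht hst
  have := h1 κ hκ
  rw [ev, z2_add_self] at this
  exact zero_ne_one this

theorem pv_comm (s t : ℝ) (o o' : X) : S.pv K π s t o o' = S.pv K π s t o' o := by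
  have h : ∀ κ, S.ev κ o o' = S.ev κ o' o := fun κ => add_comm _ _
  have h' : (∃ η > 0, ∀ κ, Approx K π η s t κ → S.ev κ o o' = 1) =
      ∃ η > 0, ∀ κ, Approx K π η s t κ → S.ev κ o' o = 1 := by simp only [h]
  unfold pv
  rw [h']

end Str

end Pool.Agent.Lib.MP_9e71a3_gt
end
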