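import Pool.Agent.Lib.MP_9e71a3_gt.ThetaB

-- part Pool.Agent.Lib.MP_9e71a3_gt.Theta
section

/-! The side function: locality and the jump across a chord.  JOB Theta. -/

set_option autoImplicit false
set_option linter.unusedSectionVars false

namespace Pool.Agent.Lib.MP_9e71a3_gt

open Set Metric Filter Topology

/-- links that stay away from the cone over `U` between two levels, with margin `d` -/
def ThetaFr {X : Type} [MetricSpace X] (K : Cone X) (U : Set X) (a b d : ℝ) (p q : E3) : Prop :=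
  ∀ x ∈ U, ∀ s ∈ Icc a b, d + dist p q < dist p (K.e x s)
/-- inner links -/
def ThetaIn {X : Type} [MetricSpace X] (K : Cone X) (p q : E3) : Prop :=
  ‖p‖ ≤ K.ρ 1 ∧ ‖q‖ ≤ K.ρ 1
/-- outer links -/
def ThetaOut {X : Type} [MetricSpace X] (K : Cone X) (p q : E3) : Prop :=
  5 * K.ρ 1 + dist p q < ‖p‖

theorem theta_all_fsum {A ι : Type} {Q : A → A → Prop} (B : ι →₀ Z2) (F : ι → Ch A)
    (h : ∀ k ∈ B.support, All Q (F k)) : All Q (B.sum fun k c => c • F k) :=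
  All.sum B.support _ fun k hk => All.smul _ (h k hk)

theorem theta_fsum_two {A M : Type} [AddCommGroup M] [Module Z2 M] (F : A → M) (a b : A) :
    ((two a b).sum fun k c => c • F k) = F a + F b := by
  unfold two
  rw [Finsupp.sum_add_index' (h := fun k c => c • F k) (fun _ => zero_smul _ _)
    (fun _ _ _ => add_smul _ _ _),
    Finsupp.sum_single_index (h := fun k c => c • F k) (zero_smul _ _),
    Finsupp.sum_single_index (h := fun k c => c • F k) (zero_smul _ _), one_smul, one_smul]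

theorem theta_fsum_add {A M : Type} [AddCommGroup M] [Module Z2 M] (B : A →₀ Z2) (F G : A → M) :
    (B.sum fun k c => c • (F k + G k)) = (B.sum fun k c => c • F k) + B.sum fun k c => c • G k := by
  rw [← Finsupp.sum_add]
  exact Finsupp.sum_congr fun k _ => smul_add _ _ _

theorem theta_eq_of_add {a b : Z2} (h : a + b = 0) : a = b := by
  revert a b; decide

namespace Germs
variable {X : Type} [MetricSpace X] {K : Cone X} (Γ : Germs K)
variable [CompactSpace X] [ConnectedSpace X]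

theorem theta_all_lev {Q : E3 → E3 → Prop} {t : ℝ} {κ : Ch X}
    (h : All (fun x y => Q (K.e x t) (K.e y t)) κ) : All Q (K.lev t κ) := by
  classical
  intro l hl
  have h1 := Finsupp.mapDomain_support (f := fun l : X × X => (K.e l.1 t, K.e l.2 t)) (s := κ) hl
  obtain ⟨l', hl', rfl⟩ := Finset.mem_image.1 h1
  exact h l' hl'

theorem theta_lev_lnk (t : ℝ) (x y : X) : K.lev t (lnk x y) = lnk (K.e x t) (K.e y t) := by
  unfold Cone.lev lnk
  exact Finsupp.mapDomain_single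

theorem theta_rho_lev_one (h : ℝ) (κ : Ch X) : rho h (K.lev 1 κ) = 0 := by
  induction κ using Finsupp.induction_linear with
  | zero => rw [map_zero, map_zero]
  | add f g hf hg => rw [map_add, map_add, hf, hg, add_zero]
  | single l c =>
    rcases z2_cases c with rfl | rfl
    · rw [Finsupp.single_zero, map_zero, map_zero]
    · have h1 := theta_lev_lnk (K := K) 1 l.1 l.2
      rw [K.apex, K.apex] at h1
      exact (congrArg (rho h) h1).trans (rho_lnk_of_fl_eq rfl)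

theorem theta_Lk_lev_left (h : ℝ) (κ : Ch X) (w : Ch E3) : Lk h (K.lev 1 κ) w = 0 := by
  unfold Lk
  rw [theta_rho_lev_one, map_zero]
  exact pair_eq_zero fun _ _ => rfl

theorem theta_Lk_lev_right (h : ℝ) (κ : Ch X) (w : Ch E3) : Lk h w (K.lev 1 κ) = 0 := by
  unfold Lk
  rw [theta_rho_lev_one, map_zero]

theorem theta_fr_mono {U : Set X} {a b d a' b' d' : ℝ} {c : Ch E3}
    (h : All (ThetaFr K U a b d) c) (ha : a ≤ a') (hb : b' ≤ b) (hd : d' ≤ d) :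
    All (ThetaFr K U a' b' d') c :=
  h.mono fun p q hpq x hx s hs => by linarith [hpq x hx s ⟨ha.trans hs.1, hs.2.trans hb⟩]

theorem theta_av_of_fr {U : Set X} {a b d r m : ℝ} {c : Ch E3}
    (h : All (ThetaFr K U a b d) c) (hd : r + m ≤ d) : Av (K.Bl U a b r) m c := by
  rintro l hl _ ⟨x, hx, s, hs, rfl⟩
  have := h l hl x hx s hs
  show r + dist l.1 l.2 + m < dist l.1 (K.e x s)
  linarith

theorem theta_fr_V_low {r : ℝ} (hr : 0 < r) : ∃ d > 0, ∀ᶠ n in atTop, ∀ (U : Set X) (k : X),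
    (∀ x ∈ U, r ≤ dist x k) → ∀ a ∈ Icc (0:ℝ) (K.τ 16), ∀ b ∈ Icc (0:ℝ) (K.τ 16),
    All (ThetaFr K U 0 1 d) (K.V n k a b) := by
  obtain ⟨η, hη, hI⟩ := K.IM hr
  refine ⟨η / 3, by linarith, ?_⟩
  have h16 := (K.τ_lt_one 16).le
  filter_upwards [K.all_V (show 0 < η / 3 by linarith)] with n hn U k hU a ha b hb
  refine (hn k a ⟨ha.1, ha.2.trans h16⟩ b ⟨hb.1, hb.2.trans h16⟩).mono ?_
  rintro p q ⟨h1, -, s, hs, h2⟩ x hx t ht
  have h3 : η < dist (K.e k s) (K.e x t) := by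
    by_contra hc
    have := (hI k x s ⟨(le_min ha.1 hb.1).trans hs.1, hs.2.trans (max_le ha.2 hb.2)⟩ t ht
      (not_lt.1 hc)).1
    linarith [hU x hx, dist_comm k x]
  linarith [dist_triangle_left (K.e k s) (K.e x t) p]

theorem theta_fr_V_high {r : ℝ} (hr : 0 < r) : ∃ d > 0, ∀ᶠ n in atTop, ∀ (U : Set X) (k : X),
    (∀ x ∈ U, r ≤ dist x k) → ∀ a ∈ Icc (0:ℝ) 1, ∀ b ∈ Icc (0:ℝ) 1,
    All (ThetaFr K U 0 (K.τ 16) d) (K.V n k a b) := by
  obtain ⟨η, hη, hI⟩ := K.IM hr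
  refine ⟨η / 3, by linarith, ?_⟩
  filter_upwards [K.all_V (show 0 < η / 3 by linarith)] with n hn U k hU a ha b hb
  refine (hn k a ha b hb).mono ?_
  rintro p q ⟨h1, ⟨s, hs, rfl⟩, -⟩ x hx t ht
  have h3 : η < dist (K.e x t) (K.e k s) := by
    by_contra hc
    have := (hI x k t ht s hs (not_lt.1 hc)).1
    linarith [hU x hx]
  linarith [dist_comm (K.e x t) (K.e k s)]

theorem theta_norm_le {x : X} {s : ℝ} (hs : s ∈ Icc (K.τ 1) 1) : ‖K.e x s‖ < K.ρ 1 / 10 :=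
  K.little 0 x s hs

theorem theta_fr_J (U : Set X) (k : X) : All (ThetaFr K U (K.τ 1) 1 (K.ρ 1)) (K.J k) := by
  refine (K.J_out k).mono fun p q h x _ s hs => ?_
  have h1 := theta_norm_le (K := K) (x := x) hs
  have h2 := norm_sub_norm_le p (K.e x s)
  rw [← dist_eq_norm] at h2
  linarith [K.ρ_pos 1]

theorem theta_fr_Vf {r : ℝ} (hr : 0 < r) : ∃ d > 0, ∀ᶠ n in atTop, ∀ (U : Set X) (k : X),
    (∀ x ∈ U, r ≤ dist x k) → All (ThetaFr K U (K.τ 1) (K.τ 16) d) (K.Vf n k) := by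
  obtain ⟨d, hd, h⟩ := theta_fr_V_high (K := K) hr
  refine ⟨min d (K.ρ 1), lt_min hd (K.ρ_pos 1), ?_⟩
  filter_upwards [h] with n hn U k hU
  exact (theta_fr_mono (hn U k hU 0 ⟨le_rfl, zero_le_one⟩ 1 ⟨zero_le_one, le_rfl⟩)
    (K.τ_nonneg 1) le_rfl (min_le_left _ _)).add
    (theta_fr_mono (theta_fr_J U k) le_rfl (K.τ_lt_one 16).le (min_le_right _ _))

theorem theta_fr_Lg {k : X} (hk : k ∈ Γ.G) {U : Set X} (hU : IsClosed U) (hkU : k ∉ U) :
    ∃ d > 0, ∀ᶠ n in atTop, All (ThetaFr K U 0 1 d) (Γ.Lg n k 0 1) := by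
  have hA : IsCompact (Γ.leg k '' Icc 0 1) := isCompact_Icc.image (Γ.leg_cont k)
  have hB : IsCompact ((fun p : X × ℝ => K.e p.1 p.2) '' (U ×ˢ Icc 0 1)) :=
    (hU.isCompact.prod isCompact_Icc).image K.cont
  obtain ⟨d, hd, h⟩ := Metric.exists_pos_forall_lt_edist hA hB.isClosed (by
    rw [Set.disjoint_left]
    rintro _ ⟨w, hw, rfl⟩ ⟨⟨x, s⟩, ⟨hx, hs⟩, he⟩
    rcases hw.1.eq_or_lt with h0 | h0
    · subst h0
      rw [Γ.leg_zero k hk] at he
      have := (K.inj k x _ (Γ.lv_mem01 hk) s hs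
        ((Γ.lv_mem k hk).2.trans_lt (K.τ_lt_one 10)) he.symm).1
      exact hkU (this ▸ hx)
    · exact (Γ.leg_mem k hk w ⟨h0, hw.2⟩).2 ⟨x, s, hs, he.symm⟩)
  have hd' : (0:ℝ) < d := hd
  refine ⟨d / 2, by linarith, ?_⟩
  filter_upwards [Γ.all_Lg k (half_pos hd')] with n hn
  refine (hn 0 ⟨le_rfl, zero_le_one⟩ 1 ⟨zero_le_one, le_rfl⟩).mono ?_
  rintro p q ⟨h1, ⟨w, hw, rfl⟩, -⟩ x hx s hs
  rw [max_eq_right zero_le_one] at hw
  have h2 := h _ ⟨w, hw, rfl⟩ _ ⟨(x, s), ⟨hx, hs⟩, rfl⟩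
  rw [edist_dist, ← ENNReal.ofReal_coe_nnreal,
    ENNReal.ofReal_lt_ofReal_iff_of_nonneg hd'.le] at h2
  linarith

theorem theta_fr_lev {r : ℝ} (hr : 0 < r) : ∃ d > 0, ∃ η > 0, ∀ (U : Set X) (κ : Ch X),
    ∀ t ∈ Icc (0:ℝ) (K.τ 16), All (fun x y => dist x y < η ∧ ∀ z ∈ U, r ≤ dist x z) κ →
    All (ThetaFr K U 0 1 d) (K.lev t κ) := by
  obtain ⟨d, hd, hI⟩ := K.IM hr
  obtain ⟨η, hη, hU⟩ := K.UC (half_pos hd)
  refine ⟨d / 2, half_pos hd, η, hη, fun U κ t ht h => theta_all_lev (h.mono ?_)⟩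
  rintro x y ⟨h1, h2⟩ z hz s hs
  have ht1 : t ∈ Icc (0:ℝ) 1 := ⟨ht.1, ht.2.trans (K.τ_lt_one 16).le⟩
  have h3 := hU x y t ht1 t ht1 h1.le (by simpa using hη.le)
  have h4 : d < dist (K.e x t) (K.e z s) := by
    by_contra hc
    linarith [(hI x z t ht s hs (not_lt.1 hc)).1, h2 z hz]
  linarith

theorem theta_in_V : ∀ᶠ n in atTop, ∀ x : X, ∀ a ∈ Icc (K.τ 1) 1, ∀ b ∈ Icc (K.τ 1) 1,
    All (ThetaIn K) (K.V n x a b) := by
  have h0 := K.τ_nonneg 1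
  have hρ := K.ρ_pos 1
  filter_upwards [K.all_V (show 0 < K.ρ 1 / 10 by linarith)] with n hn x a ha b hb
  refine (hn x a ⟨h0.trans ha.1, ha.2⟩ b ⟨h0.trans hb.1, hb.2⟩).mono ?_
  rintro p q ⟨h1, -, s, hs, h2⟩
  have h3 := theta_norm_le (K := K) (x := x)
    ⟨(le_min ha.1 hb.1).trans hs.1, hs.2.trans (max_le ha.2 hb.2)⟩
  have h4 := norm_sub_norm_le p (K.e x s)
  have h5 := norm_sub_norm_le q p
  rw [← dist_eq_norm] at h4 h5
  rw [dist_comm] at h5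
  constructor <;> linarith

theorem theta_W_le {p : E3} (hp : p ∈ K.W) : ‖p‖ ≤ K.ρ 1 := by
  have h1 := K.ρ_anti (i := 1) (j := 6) (by norm_num) (by norm_num)
  linarith [hp.2, K.ρ_pos 6]

theorem theta_in_Lg (n : ℕ) {k : X} (hk : k ∈ Γ.G) : All (ThetaIn K) (Γ.Lg n k 0 1) := by
  refine all_cC _ (Nat.succ_pos n) ⟨le_rfl, zero_le_one⟩ ⟨zero_le_one, le_rfl⟩
    fun u v hu _ huv hv _ => ?_
  rw [max_eq_right zero_le_one] at hv
  exact ⟨theta_W_le (Γ.leg_mem_W hk ⟨hu, huv.trans hv⟩),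
    theta_W_le (Γ.leg_mem_W hk ⟨hu.trans huv, hv⟩)⟩

theorem theta_lv_ge {k : X} (hk : k ∈ Γ.G) : Γ.lv k ∈ Icc (K.τ 1) 1 :=
  ⟨(K.τ_mono (by norm_num)).le.trans (Γ.lv_mem k hk).1, (Γ.lv_mem01 hk).2⟩

theorem theta_τ8_ge : K.τ 8 ∈ Icc (K.τ 1) 1 := ⟨(K.τ_mono (by norm_num)).le, (K.τ_lt_one 8).le⟩
theorem theta_τ8_le : K.τ 8 ∈ Icc (0:ℝ) (K.τ 16) := ⟨K.τ_nonneg 8, (K.τ_mono (by norm_num)).le⟩

theorem theta_in_zz : ∀ᶠ n in atTop, ∀ κ : Ch X, (∀ k ∈ (bd κ).support, k ∈ Γ.G) →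
    All (ThetaIn K) (Γ.zz n κ) := by
  filter_upwards [theta_in_V (K := K)] with n hn κ hκ
  have hρ := K.ρ_pos 1
  refine All.add (theta_all_lev fun l _ => ⟨?_, ?_⟩) (theta_all_fsum _ _ fun k hk => ?_)
  · linarith [theta_norm_le (K := K) (x := l.1) theta_τ8_ge]
  · linarith [theta_norm_le (K := K) (x := l.2) theta_τ8_ge]
  · exact (hn k _ theta_τ8_ge _ (Γ.theta_lv_ge (hκ k hk))).add (Γ.theta_in_Lg n (hκ k hk))

theorem theta_out_lev : ∃ η > 0, ∀ κ : Ch X, All (fun x y => dist x y ≤ η) κ →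
    All (ThetaOut K) (K.lev 0 κ) := by
  obtain ⟨η, hη, hU⟩ := K.UC (K.ρ_pos 1)
  refine ⟨η, hη, fun κ h => theta_all_lev (h.mono fun x y hxy => ?_)⟩
  have h1 := hU x y 0 ⟨le_rfl, zero_le_one⟩ 0 ⟨le_rfl, zero_le_one⟩ hxy (by simpa using hη.le)
  have h2 := K.big 0 x 0 ⟨le_rfl, K.τ_nonneg 0⟩
  have h3 := K.ρ_pos 1
  norm_num at h2
  unfold ThetaOut
  linarith

/-- closed inner chains do not link closed outer chains -/
theorem theta_in_out : ∀ᶠ n in atTop, ∀ z w : Ch E3, bd z = 0 → bd w = 0 → All (ThetaIn K) z →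
    All (ThetaOut K) w → Lk (ms n) z w = 0 ∧ Lk (ms n) w z = 0 := by
  have hρ := K.ρ_pos 1
  filter_upwards [ms_small (show 0 < K.ρ 1 by linarith)] with n hn z w hz hw hi ho
  have hN : Null {((0 : E3), K.ρ 1)} z := null_of_ball (mem_singleton _) hz
    (hi.mono fun p q h => ⟨mem_closedBall_zero_iff.2 h.1, mem_closedBall_zero_iff.2 h.2⟩)
  have hA : Av {((0 : E3), K.ρ 1)} (4 * ms n) w := by
    rintro l hl _ rfl
    have := ho l hl
    unfold ThetaOut at this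
    show K.ρ 1 + dist l.1 l.2 + 4 * ms n < dist l.1 0
    rw [dist_zero_right]
    linarith
  exact ⟨Lk_null_left (ms_pos n) hN hw hA, Lk_null_right (ms_pos n) hw hN hA⟩

theorem theta_bd_Vf2 (n : ℕ) (x y : X) : bd (K.Vf n x + K.Vf n y) = 0 := by
  rw [map_add, K.bd_Vf, K.bd_Vf, fs_add_self]

theorem theta_add_eq (κ : Ch X) (o o' : X) : Γ.theta κ o + Γ.theta κ o' =
    ulim fun n => Lk (ms n) (Γ.zz n κ) (K.Vf n o + K.Vf n o') := by
  simp only [Lk_add_right, ulim_add]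
  rfl

theorem theta_eq_of_ev {κ : Ch X} {o o' : X}
    (h : ∀ᶠ n in atTop, Lk (ms n) (Γ.zz n κ) (K.Vf n o + K.Vf n o') = 0) :
    Γ.theta κ o = Γ.theta κ o' :=
  theta_eq_of_add ((Γ.theta_add_eq κ o o').trans (ulim_eq (hyper_of_atTop h)))

theorem T1 {r : ℝ} (hr : 0 < r) : ∃ δ > 0, ∀ x y z o o' : X, dist x y < δ → dist x z < δ →
    r ≤ dist x o → r ≤ dist x o' → Γ.theta (lnk x y + lnk y z + lnk x z) o =
      Γ.theta (lnk x y + lnk y z + lnk x z) o' := by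
  obtain ⟨d, hd, hfr⟩ := theta_fr_Vf (K := K) hr
  obtain ⟨δ, hδ, hU⟩ := K.UC (half_pos hd)
  refine ⟨δ, hδ, fun x y z o o' hy hz ho ho' => Γ.theta_eq_of_ev ?_⟩
  have hb : bd (lnk x y + lnk y z + lnk x z) = 0 := by
    rw [map_add, map_add, bd_lnk, bd_lnk, bd_lnk]
    unfold two
    linear_combination (norm := abel1) fs_add_self (Finsupp.single x (1 : Z2)) +
      fs_add_self (Finsupp.single y (1 : Z2)) + fs_add_self (Finsupp.single z (1 : Z2))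
  have h8 := theta_τ_mem (K := K) 8
  filter_upwards [hfr, ms_small (show 0 < d / 8 by linarith)] with n hn hms
  have hN : Null (K.Bl {x} (K.τ 1) (K.τ 16) (d / 2)) (Γ.zz n (lnk x y + lnk y z + lnk x z)) := by
    unfold zz
    rw [hb, Finsupp.sum_zero_index, add_zero, map_add, map_add, theta_lev_lnk, theta_lev_lnk,
      theta_lev_lnk]
    refine AddSubmonoid.subset_closure ⟨(K.e x (K.τ 8), d / 2),
      ⟨x, rfl, K.τ 8, ⟨theta_τ8_ge.1, theta_τ8_le.2⟩, rfl⟩, _, _, _,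
      mem_closedBall_self (by positivity), ?_, ?_, rfl⟩
    · exact mem_closedBall'.2 (hU x y _ h8 _ h8 hy.le (by simpa using hδ.le)).le
    · exact mem_closedBall'.2 (hU x z _ h8 _ h8 hz.le (by simpa using hδ.le)).le
  refine Lk_null_left (ms_pos n) hN (theta_bd_Vf2 n o o') (theta_av_of_fr
    ((hn {x} o ?_).add (hn {x} o' ?_)) (by linarith))
  · rintro _ rfl; exact ho
  · rintro _ rfl; exact ho'

theorem theta_cl_mono {μ μ' : ℝ} (h : μ' ≤ μ) {p q : E3} (hc : K.Cl μ p q) : K.Cl μ' p q :=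
  fun x s hs => by linarith [hc x s hs]

theorem T2 {r : ℝ} (hr : 0 < r) : ∃ δ > 0, ∀ k k' o o' : X, Γ.small δ k k' → r ≤ dist k o →
    r ≤ dist k o' → Γ.theta (lnk k k') o = Γ.theta (lnk k k') o' := by
  obtain ⟨d, hd, hfr⟩ := theta_fr_Vf (K := K) hr
  obtain ⟨η, hη, htn⟩ := K.tube_null (half_pos hd)
  obtain ⟨δ0, hδ0, hU⟩ := K.UC (show 0 < η / 3 by linarith)
  have hρ12 := K.ρ_pos 12
  have hρ6 := K.ρ_anti (i := 6) (j := 12) (by norm_num) (by norm_num)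
  obtain ⟨δ, hδ, hδ1, hδ2, hδ3⟩ : ∃ δ > 0, δ ≤ δ0 ∧ δ ≤ η / 3 ∧ δ ≤ K.ρ 12 / 2 :=
    ⟨min δ0 (min (η / 3) (K.ρ 12 / 2)), lt_min hδ0 (lt_min (by linarith) (by linarith)),
      min_le_left _ _, (min_le_right _ _).trans (min_le_left _ _),
      (min_le_right _ _).trans (min_le_right _ _)⟩
  refine ⟨δ, hδ, fun k k' o o' hs ho ho' => Γ.theta_eq_of_ev ?_⟩
  obtain ⟨hk, hk', hdom, hkk, u, u', hu, hu', hj⟩ := hs
  -- a clean fine chain along the path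
  obtain ⟨γ, hγ⟩ := hj
  obtain ⟨μ0, hμ0, hc0⟩ := K.exists_clean (A := range γ) (isCompact_range γ.continuous) (by
    rw [Set.disjoint_left]
    rintro _ ⟨w, rfl⟩
    exact (hγ w).1.1.2)
  obtain ⟨m, hm, hmall⟩ := exists_fine_chain (U := K.W ∩ K.tube δ k ∩ K.clean μ0)
    ⟨γ, fun w => ⟨⟨(hγ w).1.1.1, (hγ w).1.2⟩, hc0 ⟨w, rfl⟩⟩⟩ (lt_min (half_pos hμ0) hη)
  obtain ⟨μ1, hμ1, hL1⟩ := Γ.Lg_clean hk hu.1
  obtain ⟨μ2, hμ2, hL2⟩ := Γ.Lg_clean hk' hu'.1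
  have hu01 : u ∈ Icc (0:ℝ) 1 := ⟨hu.1.1.le, hu.1.2⟩
  have hu01' : u' ∈ Icc (0:ℝ) 1 := ⟨hu'.1.1.le, hu'.1.2⟩
  have h01 : (0:ℝ) ∈ Icc (0:ℝ) 1 := ⟨le_rfl, zero_le_one⟩
  have h11 : (1:ℝ) ∈ Icc (0:ℝ) 1 := ⟨zero_le_one, le_rfl⟩
  have h8 := theta_τ_mem (K := K) 8
  have h816 : K.τ 8 ∈ Icc (K.τ 1) (K.τ 16) := ⟨theta_τ8_ge.1, theta_τ8_le.2⟩
  have hlv : ∀ j ∈ Γ.G, Γ.lv j ∈ Icc (K.τ 1) (K.τ 16) :=
    fun j hj => ⟨(Γ.theta_lv_ge hj).1, (Γ.theta_lv_le hj).2⟩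
  have hsub : Icc (K.τ 1) (K.τ 16) ⊆ Icc (0:ℝ) 1 :=
    Icc_subset_Icc (K.τ_nonneg 1) (K.τ_lt_one 16).le
  -- nearness to the line over `k`
  have hnear : ∀ j, dist j k ≤ δ → ∀ s ∈ Icc (K.τ 1) (K.τ 16), ∀ p,
      dist p (K.e j s) ≤ 2 * η / 3 → K.Near {k} (K.τ 1) (K.τ 16) η p := by
    intro j hj s hs p hp
    have := hU j k s (hsub hs) s (hsub hs) (by linarith) (by simpa using hδ0.le)
    exact ⟨k, rfl, s, hs, by linarith [dist_triangle p (K.e j s) (K.e k s)]⟩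
  have hk0 : dist k k ≤ δ := by simpa using hδ.le
  have hk0' : dist k' k ≤ δ := by rw [dist_comm]; exact hkk.le
  have htube : ∀ p ∈ K.W ∩ K.tube δ k ∩ K.clean μ0, K.Near {k} (K.τ 1) (K.τ 16) η p := by
    rintro p ⟨⟨hW, s, hs, hp⟩, -⟩
    have h1 := norm_sub_norm_le p (K.e k s)
    have h2 := norm_sub_norm_le (K.e k s) p
    rw [← dist_eq_norm] at h1 h2
    rw [dist_comm] at h2
    have h3 := K.lev_gt (i := 5) (x := k) hs (by norm_num; linarith [hW.2])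
    have h4 := K.lev_lt (i := 11) (x := k) hs (by norm_num; linarith [hW.1])
    have h5 : K.τ 1 < K.τ 5 := K.τ_mono (by norm_num)
    have h6 : K.τ (11 + 1) < K.τ 16 := K.τ_mono (by norm_num)
    exact ⟨k, rfl, s, ⟨by linarith, by linarith⟩, by linarith⟩
  filter_upwards [hfr, ms_small (show 0 < d / 8 by linarith), hL1, hL2,
    K.cloop (lt_min (half_pos hμ0) (lt_min hμ1 hμ2)), K.all_V (show 0 < η / 3 by linarith),
    Γ.all_Lg k hη, Γ.all_Lg k' hη] with n hn hms h1 h2 hcl hV hLa hLb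
  have hVn : ∀ j ∈ Γ.G, dist j k ≤ δ → All (fun p q => dist p q ≤ η ∧
      K.Near {k} (K.τ 1) (K.τ 16) η p ∧ K.Near {k} (K.τ 1) (K.τ 16) η q)
      (K.V n j (K.τ 8) (Γ.lv j)) := by
    intro j hj hjk
    refine (hV j _ h8 _ (Γ.lv_mem01 hj)).mono ?_
    rintro p q ⟨ha, -, s, hs, hb⟩
    have hs' : s ∈ Icc (K.τ 1) (K.τ 16) :=
      ⟨(le_min h816.1 (hlv j hj).1).trans hs.1, hs.2.trans (max_le h816.2 (hlv j hj).2)⟩
    exact ⟨by linarith, hnear j hjk s hs' p (by linarith),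
      hnear j hjk s hs' q (by linarith [dist_triangle_left q (K.e j s) p])⟩
  have hLn : ∀ j ∈ Γ.G, dist j k ≤ δ → ∀ v, Γ.Ini j v δ → ∀ c : Ch E3,
      All (fun p q => dist p q < η ∧ (∃ w ∈ Icc (0:ℝ) (max 0 v), p = Γ.leg j w) ∧
        (∃ w ∈ Icc (0:ℝ) (max 0 v), q = Γ.leg j w) ∧
        ∃ w ∈ Icc (min 0 v) (max 0 v), dist p (Γ.leg j w) < η) c →
      All (fun p q => dist p q ≤ η ∧
        K.Near {k} (K.τ 1) (K.τ 16) η p ∧ K.Near {k} (K.τ 1) (K.τ 16) η q) c := by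
    intro j hj hjk v hv c hc
    refine hc.mono ?_
    rintro p q ⟨ha, ⟨w, hw, rfl⟩, ⟨w', hw', rfl⟩, -⟩
    rw [max_eq_right hv.1.1.le] at hw hw'
    exact ⟨ha.le, hnear j hjk _ (hlv j hj) _ (by linarith [hv.2 w hw]),
      hnear j hjk _ (hlv j hj) _ (by linarith [hv.2 w' hw'])⟩
  set A := lnk (K.e k (K.τ 8)) (K.e k' (K.τ 8)) + K.V n k (K.τ 8) (Γ.lv k) +
    K.V n k' (K.τ 8) (Γ.lv k') + Γ.Lg n k 0 u + Γ.Lg n k' 0 u' + m with hA
  set B := m + Γ.Lg n k u 1 + Γ.Lg n k' u' 1 with hB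
  have hsplit : Γ.zz n (lnk k k') = A + B := by
    unfold zz
    rw [bd_lnk, theta_fsum_two, theta_lev_lnk, hA, hB]
    unfold md Lg
    linear_combination (norm := abel1) (cC_add (Γ.leg k) (n + 1) 0 u 1).symm +
      (cC_add (Γ.leg k') (n + 1) 0 u' 1).symm + (fs_add_self m).symm
  have hbB : bd B = 0 := by
    rw [hB, map_add, map_add, hm, Γ.theta_bd_Lg n k hu01 h11, Γ.theta_bd_Lg n k' hu01' h11,
      Γ.leg_one k hk k' hk' hdom]
    unfold two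
    linear_combination (norm := abel1) fs_add_self (Finsupp.single (Γ.leg k u) (1 : Z2)) +
      fs_add_self (Finsupp.single (Γ.leg k' u') (1 : Z2)) +
      fs_add_self (Finsupp.single (Γ.leg k' 1) (1 : Z2))
  have hbA : bd A = 0 := by
    have h0 := Γ.bd_zz (fun _ => 0) n (κ := lnk k k')
      (by rw [bd_lnk]; exact Ord3.Ev.two ⟨hk, hk', hdom⟩)
    rwa [hsplit, map_add, hbB, add_zero] at h0
  have hNA : Null (K.Bl {k} (K.τ 1) (K.τ 16) (d / 2)) A := by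
    refine htn A k _ _ (K.τ_nonneg 1) le_rfl hbA ?_
    refine All.add (All.add (All.add (All.add (All.add (All.lnk ⟨?_, ?_, ?_⟩) (hVn k hk hk0))
      (hVn k' hk' hk0')) (hLn k hk hk0 u hu _ (hLa 0 h01 u hu01)))
      (hLn k' hk' hk0' u' hu' _ (hLb 0 h01 u' hu01')))
      (hmall.mono fun p q h => ⟨(h.2.2.trans_le (min_le_right _ _)).le, htube p h.1,
        htube q h.2.1⟩)
    · linarith [hU k k' _ h8 _ h8 (by linarith) (by simpa using hδ0.le)]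
    · exact hnear k hk0 _ h816 _ (by rw [dist_self]; linarith)
    · exact hnear k' hk0' _ h816 _ (by rw [dist_self]; linarith)
  rw [hsplit, Lk_add_left, Lk_null_left (ms_pos n) hNA (theta_bd_Vf2 n o o') (theta_av_of_fr
    ((hn {k} o (by rintro _ rfl; exact ho)).add (hn {k} o' (by rintro _ rfl; exact ho')))
    (by linarith)), zero_add]
  refine (hcl B hbB (All.add (All.add (hmall.mono fun p q h => ?_) (h1.mono fun p q h => ?_))
    (h2.mono fun p q h => ?_)) o o').1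
  · refine ⟨fun x s hs => ?_, theta_W_le h.1.1.1, theta_W_le h.2.1.1.1⟩
    linarith [h.1.2 x s hs, h.2.2.trans_le (min_le_left _ _),
      min_le_left (μ0 / 2) (min μ1 μ2)]
  · exact ⟨theta_cl_mono ((min_le_right _ _).trans (min_le_left _ _)) h.1, theta_W_le h.2.1,
      theta_W_le h.2.2⟩
  · exact ⟨theta_cl_mono ((min_le_right _ _).trans (min_le_right _ _)) h.1, theta_W_le h.2.1,
      theta_W_le h.2.2⟩

theorem LCst (pos : X → ℝ) {r : ℝ} (hr : 0 < r) : ∃ η > 0, ∀ κ z, (Γ.ord pos).Ev (bd κ) →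
    (∀ l ∈ κ.support, dist l.1 l.2 < η ∧ r ≤ dist l.1 z) →
    ∀ᶠ z' in 𝓝 z, Γ.theta κ z' = Γ.theta κ z := by
  obtain ⟨d1, hd1, η, hη, hlev⟩ := theta_fr_lev (K := K) hr
  obtain ⟨d2, hd2, hV⟩ := theta_fr_V_low (K := K) (half_pos hr)
  refine ⟨min η (r / 2), lt_min hη (half_pos hr), fun κ z hev hκ => ?_⟩
  have hG : ∀ k ∈ (bd κ).support, k ∈ Γ.G := fun k hk => hev.mem hk
  have hfar : ∀ k ∈ (bd κ).support, r / 2 ≤ dist z k := by
    intro k hk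
    obtain ⟨l, hl, h⟩ := mem_bd_support hk
    have h1 := (hκ l hl).1.trans_le (min_le_right _ _)
    have h2 := (hκ l hl).2
    rcases h with rfl | rfl
    · rw [dist_comm]; linarith
    · linarith [dist_triangle_right l.1 z l.2]
  have hleg : ∀ k ∈ (bd κ).support, ∀ᶠ d in 𝓝[>] (0:ℝ), ∀ᶠ n in atTop,
      All (ThetaFr K {z} 0 1 d) (Γ.Lg n k 0 1) := by
    intro k hk
    obtain ⟨d, hd, h⟩ := Γ.theta_fr_Lg (hG k hk) (U := {z}) isClosed_singleton (by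
      rintro rfl
      have := hfar _ hk
      rw [dist_self] at this
      linarith)
    filter_upwards [Ioc_mem_nhdsGT hd] with d' hd'
    filter_upwards [h] with n hn
    exact theta_fr_mono hn le_rfl le_rfl hd'.2
  obtain ⟨d, hdL, hd⟩ := (((eventually_all_finset _).2 hleg).and
    (Ioc_mem_nhdsGT (lt_min hd1 hd2))).exists
  have hd0 : 0 < d := hd.1
  have hzz : ∀ᶠ n in atTop, All (ThetaFr K {z} 0 1 d) (Γ.zz n κ) := by
    filter_upwards [(eventually_all_finset _).2 hdL, hV] with n hn hVn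
    refine All.add (theta_fr_mono (hlev {z} κ _ theta_τ8_le fun l hl => ⟨?_, ?_⟩) le_rfl le_rfl
      (hd.2.trans (min_le_left _ _))) (theta_all_fsum _ _ fun k hk => All.add
      (theta_fr_mono (hVn {z} k ?_ _ theta_τ8_le _ (Γ.theta_lv_le (hG k hk))) le_rfl le_rfl
      (hd.2.trans (min_le_right _ _))) (hn k hk))
    · exact (hκ l hl).1.trans_le (min_le_left _ _)
    · rintro _ rfl; exact (hκ l hl).2
    · rintro _ rfl; exact hfar k hk
  obtain ⟨η1, hη1, hsw⟩ := K.sweep (half_pos hd0)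
  obtain ⟨η2, hη2, hout⟩ := theta_out_lev (K := K)
  filter_upwards [ball_mem_nhds z (lt_min hη1 hη2)] with z' hz'
  have hzz' : dist z z' < min η1 η2 := by rw [dist_comm]; exact hz'
  refine (Γ.theta_eq_of_ev ?_).symm
  filter_upwards [hzz, hsw, ms_small (show 0 < d / 8 by linarith), theta_in_out (K := K),
    Γ.theta_in_zz] with n hn hs hms hio hin
  have hN := hs (lnk z z') {z} (All.lnk ⟨rfl, hzz'.le.trans (min_le_left _ _)⟩) 0
    ⟨le_rfl, zero_le_one⟩ 1 ⟨zero_le_one, le_rfl⟩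
  rw [min_eq_left zero_le_one, max_eq_right zero_le_one, bd_lnk, theta_fsum_two] at hN
  have hsplit : K.Vf n z + K.Vf n z' =
      (K.lev 0 (lnk z z') + K.lev 1 (lnk z z') + (K.V n z 0 1 + K.V n z' 0 1)) +
        K.lev 1 (lnk z z') + (K.lev 0 (lnk z z') + K.J z + K.J z') := by
    unfold Cone.Vf
    linear_combination (norm := abel1) (fs_add_self (K.lev 0 (lnk z z'))).symm +
      (fs_add_self (K.lev 1 (lnk z z'))).symm
  have hb := Γ.bd_zz pos n hev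
  rw [hsplit, Lk_add_right, Lk_add_right, theta_Lk_lev_right,
    Lk_null_right (ms_pos n) hb hN (theta_av_of_fr hn (by linarith)), zero_add, zero_add]
  refine (hio _ _ hb ?_ (hin κ hG) (All.add (All.add
    (hout _ (All.lnk (hzz'.le.trans (min_le_right _ _)))) (K.J_out z)) (K.J_out z'))).1
  rw [map_add, map_add, theta_lev_lnk, bd_lnk, K.bd_J, K.bd_J]
  unfold two
  linear_combination (norm := abel1) fs_add_self (Finsupp.single (K.e z 0) (1 : Z2)) +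
    fs_add_self (Finsupp.single (K.e z' 0) (1 : Z2)) +
    fs_add_self (Finsupp.single K.Pinf (1 : Z2))

theorem A3_beta (pos : X → ℝ) {g g' : X} (hg : (Γ.ord pos).Chord g g') {r : ℝ} (hr : 0 < r) :
    ∃ η > 0, ∀ κ, (Γ.ord pos).Ev (bd κ) →
    (∀ l ∈ κ.support, dist l.1 l.2 < η ∧ r ≤ dist l.1 g ∧ r ≤ dist l.1 g') →
    Γ.theta κ g + Γ.theta κ g' = (bd κ).sum fun k c => c * (Γ.beta k g + Γ.beta k g') := by
  have hg1 : g ∈ Γ.G := hg.1
  have hg2 : g' ∈ Γ.G := hg.2.1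
  have hone : Γ.leg g 1 = Γ.leg g' 1 := Γ.leg_one g hg1 g' hg2 hg.2.2
  set U : Set X := {x | r ≤ dist x g ∧ r ≤ dist x g'} with hU
  have hUc : IsClosed U :=
    (isClosed_le continuous_const (continuous_id.dist continuous_const)).inter
      (isClosed_le continuous_const (continuous_id.dist continuous_const))
  obtain ⟨d1, hd1, hL1⟩ := Γ.theta_fr_Lg hg1 hUc (fun h => by
    have := h.1; rw [dist_self] at this; linarith)
  obtain ⟨d2, hd2, hL2⟩ := Γ.theta_fr_Lg hg2 hUc (fun h => by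
    have := h.2; rw [dist_self] at this; linarith)
  obtain ⟨d3, hd3, hlo⟩ := theta_fr_V_low (K := K) hr
  obtain ⟨d4, hd4, hhi⟩ := theta_fr_V_high (K := K) hr
  have hρ := K.ρ_pos 1
  obtain ⟨d, hd, e1, e2, e3, e4, e5⟩ : ∃ d > 0, d ≤ d1 ∧ d ≤ d2 ∧ d ≤ d3 ∧ d ≤ d4 ∧ d ≤ K.ρ 1 := by
    refine ⟨min (min (min d1 d2) (min d3 d4)) (K.ρ 1),
      lt_min (lt_min (lt_min hd1 hd2) (lt_min hd3 hd4)) hρ, ?_, ?_, ?_, ?_, ?_⟩ <;> simp
  obtain ⟨η1, hη1, hsw⟩ := K.sweep (half_pos hd)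
  obtain ⟨η2, hη2, hout⟩ := theta_out_lev (K := K)
  refine ⟨min η1 η2, lt_min hη1 hη2, fun κ hev hκ => ?_⟩
  have hG : ∀ k ∈ (bd κ).support, k ∈ Γ.G := fun k hk => hev.mem hk
  have h8 := theta_τ_mem (K := K) 8
  have h01 : (0:ℝ) ∈ Icc (0:ℝ) 1 := ⟨le_rfl, zero_le_one⟩
  have h11 : (1:ℝ) ∈ Icc (0:ℝ) 1 := ⟨zero_le_one, le_rfl⟩
  have hmain : ∀ᶠ n in atTop, Lk (ms n) (Γ.zz n κ) (K.Vf n g + K.Vf n g') =
      (bd κ).sum fun k c => c * (Γ.betan n k g + Γ.betan n k g') := by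
    filter_upwards [hL1, hL2, hlo, hhi, hsw, ms_small (show 0 < d / 8 by linarith),
      theta_in_out (K := K), theta_in_V (K := K)] with n h1 h2 h3 h4 hs hms hio hin
    have hκU : All (fun x y => x ∈ U ∧ dist x y ≤ η1) κ :=
      fun l hl => ⟨(hκ l hl).2, (hκ l hl).1.le.trans (min_le_left _ _)⟩
    have hN1 := hs κ U hκU _ h8 1 h11
    have hN0 := hs κ U hκU 0 h01 _ h8
    rw [min_eq_left h8.2, max_eq_right h8.2] at hN1
    rw [min_eq_left h8.1, max_eq_right h8.1] at hN0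
    have hbu : bd (Γ.up n g + Γ.up n g') = 0 := by
      rw [map_add, Γ.bd_up n hg1, Γ.bd_up n hg2, hone, fs_add_self]
    have hbd : bd (Γ.dn n g + Γ.dn n g') = 0 := by
      rw [map_add, Γ.bd_dn n hg1, Γ.bd_dn n hg2, hone, fs_add_self]
    have hup : ∀ j ∈ Γ.G, (∀ x ∈ U, r ≤ dist x j) → All (ThetaFr K U 0 1 d) (Γ.Lg n j 0 1) →
        All (ThetaFr K U (K.τ 8) 1 d) (Γ.up n j) := fun j hj hjU hL =>
      ((theta_fr_mono (h3 U j hjU 0 ⟨le_rfl, K.τ_nonneg 16⟩ _ (Γ.theta_lv_le hj)) h8.1 le_rfl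
        e3).add (theta_fr_mono (theta_fr_J U j) theta_τ8_ge.1 le_rfl e5)).add
        (theta_fr_mono hL h8.1 le_rfl le_rfl)
    have hdn : ∀ j ∈ Γ.G, (∀ x ∈ U, r ≤ dist x j) → All (ThetaFr K U 0 1 d) (Γ.Lg n j 0 1) →
        All (ThetaFr K U 0 (K.τ 8) d) (Γ.dn n j) := fun j hj hjU hL =>
      (theta_fr_mono (h4 U j hjU _ (Γ.lv_mem01 hj) 1 h11) le_rfl theta_τ8_le.2 e4).add
        (theta_fr_mono hL le_rfl h8.2 le_rfl)
    have h1' := theta_fr_mono h1 le_rfl le_rfl e1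
    have h2' := theta_fr_mono h2 le_rfl le_rfl e2
    have z1 := Lk_null_left (ms_pos n) hN1 hbu (theta_av_of_fr
      ((hup g hg1 (fun x hx => hx.1) h1').add (hup g' hg2 (fun x hx => hx.2) h2')) (by linarith))
    have z0 := Lk_null_left (ms_pos n) hN0 hbd (theta_av_of_fr
      ((hdn g hg1 (fun x hx => hx.1) h1').add (hdn g' hg2 (fun x hx => hx.2) h2')) (by linarith))
    have hbo : bd (K.lev 0 κ + (bd κ).sum fun k c => c • K.J k) = 0 := by
      rw [map_add, K.bd_lev, bd_sum_smul, theta_mapDomain_eq]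
      simp only [K.bd_J, two]
      rw [theta_fsum_add, hev.sum_eq_zero (fun _ => Finsupp.single K.Pinf (1 : Z2))
        (fun _ _ _ => rfl), add_zero, fs_add_self]
    have z2 := (hio _ _ hbd hbo
      (((hin g _ (Γ.theta_lv_ge hg1) 1 ⟨(K.τ_lt_one 1).le, le_rfl⟩).add
        (Γ.theta_in_Lg n hg1)).add ((hin g' _ (Γ.theta_lv_ge hg2) 1
        ⟨(K.τ_lt_one 1).le, le_rfl⟩).add (Γ.theta_in_Lg n hg2)))
      ((hout κ fun l hl => (hκ l hl).1.le.trans (min_le_right _ _)).add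
        (theta_all_fsum _ _ fun k _ => K.J_out k))).2
    have hmd1 : ∀ k, Γ.md n k = K.V n k (K.τ 8) 1 + Γ.dn n k := by
      intro k
      unfold md dn Cone.V
      linear_combination (norm := abel1) cC_add (K.e k) (n + 1) (K.τ 8) (Γ.lv k) 1 -
        fs_add_self (cC (K.e k) (n + 1) (Γ.lv k) 1)
    have hmd0 : ∀ k, Γ.md n k = K.V n k 0 (K.τ 8) + (K.J k + Γ.up n k) := by
      intro k
      unfold md up Cone.V
      linear_combination (norm := abel1) cC_add (K.e k) (n + 1) 0 (K.τ 8) (Γ.lv k) -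
        fs_add_self (cC (K.e k) (n + 1) 0 (K.τ 8)) - fs_add_self (K.J k)
    have s1 : Γ.zz n κ = (K.lev (K.τ 8) κ + K.lev 1 κ +
        (bd κ).sum fun x c => c • K.V n x (K.τ 8) 1) + K.lev 1 κ +
        (bd κ).sum fun k c => c • Γ.dn n k := by
      unfold zz
      simp only [hmd1]
      rw [theta_fsum_add]
      linear_combination (norm := abel1) (fs_add_self (K.lev 1 κ)).symm
    have s0 : Γ.zz n κ = (K.lev 0 κ + K.lev (K.τ 8) κ +
        (bd κ).sum fun x c => c • K.V n x 0 (K.τ 8)) +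
        (K.lev 0 κ + (bd κ).sum fun k c => c • K.J k) +
        (bd κ).sum fun k c => c • Γ.up n k := by
      unfold zz
      simp only [hmd0]
      rw [theta_fsum_add, theta_fsum_add]
      linear_combination (norm := abel1) (fs_add_self (K.lev 0 κ)).symm
    have t1 : Lk (ms n) (Γ.zz n κ) (Γ.up n g + Γ.up n g') =
        (bd κ).sum fun k c => c * Lk (ms n) (Γ.dn n k) (Γ.up n g + Γ.up n g') := by
      rw [s1, Lk_add_left, Lk_add_left, z1, theta_Lk_lev_left, Lk_sum_left, zero_add, zero_add]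
    have t0 : Lk (ms n) (Γ.zz n κ) (Γ.dn n g + Γ.dn n g') =
        (bd κ).sum fun k c => c * Lk (ms n) (Γ.up n k) (Γ.dn n g + Γ.dn n g') := by
      rw [s0, Lk_add_left, Lk_add_left, z0, z2, Lk_sum_left, zero_add, zero_add]
    have hV : K.Vf n g + K.Vf n g' = (Γ.up n g + Γ.up n g') + (Γ.dn n g + Γ.dn n g') := by
      rw [← Γ.up_add_dn n g, ← Γ.up_add_dn n g']
      abel
    rw [hV, Lk_add_right, t1, t0, ← Finsupp.sum_add]
    refine Finsupp.sum_congr fun k _ => ?_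
    unfold betan
    rw [Lk_add_right, Lk_add_right]
    ring
  rw [Γ.theta_add_eq]
  refine ulim_eq ?_
  have hβ : ∀ k ∈ (bd κ).support, ∀ᶠ n in hyperfilter ℕ,
      Γ.betan n k g + Γ.betan n k g' = Γ.beta k g + Γ.beta k g' := by
    intro k _
    filter_upwards [ulim_spec (fun n => Γ.betan n k g), ulim_spec (fun n => Γ.betan n k g')]
      with n h1 h2
    unfold beta
    rw [h1, h2]
  filter_upwards [hyper_of_atTop hmain, (eventually_all_finset _).2 hβ] with n h1 h2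
  rw [h1]
  exact Finsupp.sum_congr fun k hk => by rw [h2 k hk]

end Germs

end Pool.Agent.Lib.MP_9e71a3_gt
end

-- part Pool.Agent.Lib.MP_9e71a3_gt.VertA
section

/-! Lattice indicators of sets and the dual cycle of a cup product.  JOB Vert (part A). -/

set_option autoImplicit false

namespace Pool.Agent.Lib.MP_9e71a3_gt

open Set Metric Filter Topology

theorem vt_joined_curve {γ : ℝ → E3} (hγ : Continuous γ) {a b : ℝ} (hab : a ≤ b) {U : Set E3}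
    (h : ∀ w ∈ Icc a b, γ w ∈ U) : JoinedIn U (γ a) (γ b) := by
  have h1 : IsPathConnected (γ '' Icc a b) :=
    ((convex_Icc a b).isPathConnected ⟨a, left_mem_Icc.2 hab⟩).image hγ
  refine (h1.joinedIn _ ⟨a, left_mem_Icc.2 hab, rfl⟩ _ ⟨b, right_mem_Icc.2 hab, rfl⟩).mono ?_
  rintro _ ⟨w, hw, rfl⟩
  exact h w hw

theorem vt_joined_ball {U : Set E3} {c x : E3} {r : ℝ} (h : ∀ y, dist y c ≤ r → y ∈ U)
    (hx : dist x c ≤ r) : JoinedIn U c x := by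
  have hr : 0 ≤ r := dist_nonneg.trans hx
  have h1 : IsPathConnected (closedBall c r) :=
    (convex_closedBall c r).isPathConnected ⟨c, mem_closedBall_self hr⟩
  exact (h1.joinedIn _ (mem_closedBall_self hr) _ hx).mono fun y hy => h y hy

open Classical in
/-- lattice indicator of a set -/
noncomputable def vtInd (h : ℝ) (S : Set E3) : C0 := fun a => if pt h a ∈ S then 1 else 0

theorem vtInd_of_mem {h : ℝ} {S : Set E3} {a : P3} (ha : pt h a ∈ S) : vtInd h S a = 1 := by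
  simp [vtInd, ha]

theorem vtInd_of_not_mem {h : ℝ} {S : Set E3} {a : P3} (ha : pt h a ∉ S) : vtInd h S a = 0 := by
  simp [vtInd, ha]

theorem vtInd_d0_eq_zero {h : ℝ} {S : Set E3} {e : Ed}
    (he : pt h e.2 ∈ S ↔ pt h (e.2 + ee e.1) ∈ S) : d0 (vtInd h S) e = 0 := by
  by_cases h1 : pt h e.2 ∈ S
  · simp only [d0, vtInd_of_mem h1, vtInd_of_mem (he.1 h1)]
    decide
  · simp only [d0, vtInd_of_not_mem h1, vtInd_of_not_mem (mt he.2 h1), add_zero]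

theorem vtInd_d0 {h : ℝ} (hh : 0 < h) {S : Set E3} {e : Ed} (he : d0 (vtInd h S) e ≠ 0) :
    ∃ x ∈ S, ∃ y, y ∉ S ∧ dist x (pt h e.2) ≤ h ∧ dist y (pt h e.2) ≤ h ∧ dist y x ≤ h := by
  have hd := dist_pt_ee hh e.2 e.1
  by_cases h1 : pt h e.2 ∈ S <;> by_cases h2 : pt h (e.2 + ee e.1) ∈ S
  · exact absurd (vtInd_d0_eq_zero (iff_of_true h1 h2)) he
  · exact ⟨_, h1, _, h2, by simp [hh.le], hd.le, hd.le⟩
  · exact ⟨_, h2, _, h1, hd.le, by simp [hh.le], by rw [dist_comm]; exact hd.le⟩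
  · exact absurd (vtInd_d0_eq_zero (iff_of_false h1 h2)) he

theorem vtInd_mul (h : ℝ) (S T : Set E3) : vtInd h S * vtInd h T = vtInd h (S ∩ T) := by
  funext a
  by_cases h1 : pt h a ∈ S <;> by_cases h2 : pt h a ∈ T <;> simp [vtInd, h1, h2]

theorem vtInd_add {h : ℝ} {S T : Set E3} (hTS : T ⊆ S) :
    vtInd h S + vtInd h T = vtInd h (S \ T) := by
  funext a
  by_cases h1 : pt h a ∈ S <;> by_cases h2 : pt h a ∈ T
  · simp [vtInd, h1, h2, z2_add_self]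
  · simp [vtInd, h1, h2]
  · exact absurd (hTS h2) h1
  · simp [vtInd, h1, h2]

/-- the cochain `1_S ∪ d 1_T` -/
noncomputable def vtCup (h : ℝ) (S T : Set E3) : C1 := cup01 (vtInd h S) (d0 (vtInd h T))

theorem vtCup_add {h : ℝ} (S : Set E3) {T T' : Set E3} (hT : T' ⊆ T) :
    vtCup h S T + vtCup h S T' = vtCup h S (T \ T') := by
  funext e
  simp only [vtCup, cup01, Pi.add_apply, ← vtInd_add hT, d0_add, mul_add]

theorem vt_cup11 {h : ℝ} (hh : 0 < h) {S T : Set E3} {e : Ed}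
    (he : cup11 (d0 (vtInd h S)) (d0 (vtInd h T)) e ≠ 0) :
    (∃ x ∈ S, ∃ y, y ∉ S ∧ dist x (pt h e.2) ≤ h ∧ dist y x ≤ h) ∧
      ∃ x ∈ T, ∃ y, y ∉ T ∧ dist x (pt h e.2) ≤ 2 * h ∧ dist y (pt h e.2) ≤ 2 * h := by
  have key : ∀ i j k : Fin 3,
      d0 (vtInd h S) (i, e.2) * d0 (vtInd h T) (j, e.2 + ee k) ≠ 0 →
      (∃ x ∈ S, ∃ y, y ∉ S ∧ dist x (pt h e.2) ≤ h ∧ dist y x ≤ h) ∧
      ∃ x ∈ T, ∃ y, y ∉ T ∧ dist x (pt h e.2) ≤ 2 * h ∧ dist y (pt h e.2) ≤ 2 * h := by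
    intro i j k hm
    obtain ⟨x, hx, y, hy, h1, -, h2⟩ := vtInd_d0 hh (left_ne_zero_of_mul hm)
    obtain ⟨x', hx', y', hy', h3, h4, -⟩ := vtInd_d0 hh (right_ne_zero_of_mul hm)
    have hd := dist_pt_ee hh e.2 k
    refine ⟨⟨x, hx, y, hy, h1, h2⟩, x', hx', y', hy', ?_, ?_⟩
    · linarith [dist_triangle x' (pt h (e.2 + ee k)) (pt h e.2)]
    · linarith [dist_triangle y' (pt h (e.2 + ee k)) (pt h e.2)]
  by_cases h1 : d0 (vtInd h S) (e.1 + 1, e.2) * d0 (vtInd h T) (e.1 + 2, e.2 + ee (e.1 + 1)) = 0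
  · refine key (e.1 + 2) (e.1 + 1) (e.1 + 2) fun h2 => he ?_
    simp only [cup11, h1, h2, add_zero]
  · exact key _ _ _ h1

/-- the dual lattice cycle of the cup product -/
theorem vt_cup {h R : ℝ} (hh : 0 < h) {S : Set E3} (T : Set E3) (hS : ∀ x ∈ S, ‖x‖ ≤ R) :
    ∃ ζ : Ch E3, bd ζ = 0 ∧ (∀ w, bd w = 0 → Lk h ζ w = pair (vtCup h S T) (rho h w)) ∧
      All (fun p q => dist p q ≤ h ∧ (∃ x ∈ S, ∃ y, y ∉ S ∧ dist x p ≤ 2 * h ∧ dist y x ≤ h) ∧
        ∃ x ∈ T, ∃ y, y ∉ T ∧ dist x p ≤ 3 * h ∧ dist y p ≤ 3 * h) ζ := by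
  have hfin : (Function.support (cup11 (d0 (vtInd h S)) (d0 (vtInd h T)))).Finite := by
    refine ((finite_univ (α := Fin 3)).prod (finite_pt_ball hh (R + h))).subset ?_
    intro e he
    obtain ⟨⟨x, hx, -, -, h1, -⟩, -⟩ := vt_cup11 hh he
    refine ⟨mem_univ _, ?_⟩
    have h2 := hS x hx
    have h3 := dist_triangle (pt h e.2) x 0
    rw [dist_zero_right, dist_zero_right, dist_comm] at h3
    show ‖pt h e.2‖ ≤ R + h
    linarith
  obtain ⟨z, hz⟩ := exists_unsh _ hfin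
  have hd : d1 (vtCup h S T) = sh z := by rw [hz, vtCup, d1_cup01]
  have hz0 : bd1 z = 0 := by
    have h1 := d2_sh z
    rw [← hd, d2_d1] at h1
    ext a
    exact (congrFun h1 a).symm
  have hb : bd (unr h z) = 0 := by rw [bd_unr, hz0, Finsupp.mapDomain_zero]
  refine ⟨unr h z, hb, fun w hw => Lk_eq_pair hb hw (by rw [rho_unr hh, hd]), all_unr ?_⟩
  intro e he
  have h1 : cup11 (d0 (vtInd h S)) (d0 (vtInd h T)) (e.1, e.2 + ee e.1) ≠ 0 := by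
    rw [← hz]
    simpa [sh] using he
  have hd' := dist_pt_ee hh e.2 e.1
  obtain ⟨⟨x, hx, y, hy, h2, h3⟩, x', hx', y', hy', h4, h5⟩ := vt_cup11 hh h1
  refine ⟨by rw [dist_comm]; exact hd'.le, ⟨x, hx, y, hy, ?_, h3⟩, x', hx', y', hy', ?_, ?_⟩
  · linarith [dist_triangle x (pt h (e.2 + ee e.1)) (pt h e.2)]
  · linarith [dist_triangle x' (pt h (e.2 + ee e.1)) (pt h e.2)]
  · linarith [dist_triangle y' (pt h (e.2 + ee e.1)) (pt h e.2)]

/-- the cup cochain vanishes where `T` does not change or `S` is absent -/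
theorem vt_pair_zero {h : ℝ} (hh : 0 < h) {S T : Set E3} {c : Ch E3}
    (hc : All (fun p q => (∀ x, dist x p ≤ dist p q + h → x ∈ T) ∨
      (∀ x, dist x p ≤ dist p q + h → x ∉ T) ∨ ∀ x, dist x p ≤ dist p q + h → x ∉ S) c) :
    pair (vtCup h S T) (rho h c) = 0 := by
  refine pair_eq_zero fun e he => ?_
  obtain ⟨l, hl, h1, h2⟩ := rho_support hh he
  rcases hc l hl with h3 | h3 | h3
  · simp only [vtCup, cup01, vtInd_d0_eq_zero (iff_of_true (h3 _ h1) (h3 _ h2)), mul_zero]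
  · simp only [vtCup, cup01, vtInd_d0_eq_zero (iff_of_false (h3 _ h1) (h3 _ h2)), mul_zero]
  · simp only [vtCup, cup01, vtInd_of_not_mem (h3 _ h1), zero_mul]

/-- the cup cochain is exact where `S` does not change inside `T` -/
theorem vt_pair_two {h : ℝ} (hh : 0 < h) {S T : Set E3} {c : Ch E3} {a b : E3}
    (hb : bd c = two a b)
    (hc : All (fun p q => ∀ x y, dist y p ≤ dist p q + h → dist x y ≤ h → y ∈ T →
      (x ∈ S ↔ y ∈ S)) c) :
    pair (vtCup h S T) (rho h c) = vtInd h (S ∩ T) (fl h a) + vtInd h (S ∩ T) (fl h b) := by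
  have h0 : pair (vtCup h S T) (rho h c) = pair (d0 (vtInd h (S ∩ T))) (rho h c) := by
    refine pair_congr fun e he => ?_
    obtain ⟨l, hl, -, h2⟩ := rho_support hh he
    rw [← vtInd_mul, d0_mul]
    by_cases h3 : pt h (e.2 + ee e.1) ∈ T
    · have h4 := hc l hl (pt h e.2) _ h2 (by rw [dist_comm]; exact (dist_pt_ee hh _ _).le) h3
      rw [vtInd_d0_eq_zero h4, mul_zero, add_zero]
      rfl
    · rw [vtInd_of_not_mem h3, zero_mul, add_zero]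
      rfl
  rw [h0, pair_d0_rho, hb, pair_two]
  rfl

/-- the path component of `p` in `O` -/
def vtComp (O : Set E3) (p : E3) : Set E3 := {x | JoinedIn O p x}

theorem vtComp_sub {O : Set E3} {p x : E3} (hx : x ∈ vtComp O p) : x ∈ O :=
  JoinedIn.target_mem hx

theorem vtComp_iff {O : Set E3} {p x y : E3} {r : ℝ} (h : ∀ z, dist z y ≤ r → z ∈ O)
    (hx : dist x y ≤ r) : x ∈ vtComp O p ↔ y ∈ vtComp O p :=
  ⟨fun hx' => JoinedIn.trans hx' (vt_joined_ball h hx).symm,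
    fun hy => JoinedIn.trans hy (vt_joined_ball h hx)⟩

theorem vtComp_exit {O : Set E3} {p x y : E3} {r : ℝ} (hx : x ∈ vtComp O p)
    (hy : y ∉ vtComp O p) (hd : dist y x ≤ r) : ∃ z, z ∉ O ∧ dist z x ≤ r := by
  by_contra hn
  push Not at hn
  refine hy ((vtComp_iff (fun z hz => ?_) hd).2 hx)
  by_contra hz'
  exact absurd (hn z hz') (not_lt.2 hz)

theorem vt_norm_le {x y : E3} {r : ℝ} (h : dist x y ≤ r) : ‖x‖ ≤ ‖y‖ + r ∧ ‖y‖ ≤ ‖x‖ + r := by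
  have h1 := dist_triangle x y 0
  have h2 := dist_triangle y x 0
  rw [dist_zero_right, dist_zero_right] at h1 h2
  rw [dist_comm] at h2
  constructor <;> linarith

theorem vt_inv_small {r : ℝ} (hr : 0 < r) :
    ∀ᶠ n : ℕ in atTop, 1 / ((n + 1 : ℕ) : ℝ) < r := by
  filter_upwards [ms_small hr] with n hn
  simpa [ms] using hn

theorem vt_all_finsum {ι : Type} {Q : E3 → E3 → Prop} (B : ι →₀ Z2) (F : ι → Ch E3)
    (h : ∀ i ∈ B.support, All Q (F i)) : All Q (B.sum fun i c => c • F i) :=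
  All.sum _ _ fun i hi => All.smul _ (h i hi)

theorem vt_all_filter {Q : E3 → E3 → Prop} {c : Ch E3} (h : All Q c) (P : E3 × E3 → Prop)
    [DecidablePred P] : All (fun p q => Q p q ∧ P (p, q)) (c.filter P) := by
  intro l hl
  rw [Finsupp.support_filter, Finset.mem_filter] at hl
  exact ⟨h l hl.1, hl.2⟩

theorem vt_av_mono {T : Set (E3 × ℝ)} {m m' : ℝ} {c : Ch E3} (h : Av T m c) (hm : m' ≤ m) :
    Av T m' c := fun l hl B hB => by linarith [h l hl B hB]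

namespace Cone
variable {X : Type} [MetricSpace X] (K : Cone X)

theorem vt_tube_add {ε r : ℝ} {k : X} {x y : E3} (hy : y ∈ K.tube ε k) (h : dist x y ≤ r) :
    x ∈ K.tube (ε + r) k := by
  obtain ⟨s, hs, h1⟩ := hy
  exact ⟨s, hs, by linarith [dist_triangle x y (K.e k s)]⟩

theorem vt_tube_mono {ε ε' : ℝ} {k : X} {x : E3} (hx : x ∈ K.tube ε k) (h : ε ≤ ε') :
    x ∈ K.tube ε' k := by
  obtain ⟨s, hs, h1⟩ := hx
  exact ⟨s, hs, by linarith⟩

theorem vt_clean_sub {μ μ' r : ℝ} {x y : E3} (hy : y ∈ K.clean μ) (h : dist x y ≤ r)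
    (hμ : μ' + r ≤ μ) : x ∈ K.clean μ' := by
  intro z s hs
  have h1 := hy z s hs
  have h2 := dist_triangle y x (K.e z s)
  rw [dist_comm y x] at h2
  linarith

theorem vt_dirty {μ : ℝ} {x : E3} (hx : x ∉ K.clean μ) :
    ∃ z, ∃ s ∈ Icc (0:ℝ) 1, dist x (K.e z s) ≤ μ := by
  by_contra hn
  push Not at hn
  exact hx hn

theorem vt_near_mono {U : Set X} {a b η η' : ℝ} {p q : E3} (h : K.Near U a b η p)
    (hd : η + dist q p ≤ η') : K.Near U a b η' q := by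
  obtain ⟨x, hx, s, hs, h1⟩ := h
  exact ⟨x, hx, s, hs, by linarith [dist_triangle q p (K.e x s)]⟩

variable [CompactSpace X] [ConnectedSpace X]

theorem vt_τ_le {i j : ℕ} (hij : i ≤ j) : K.τ i ≤ K.τ j := by
  rcases hij.eq_or_lt with rfl | h
  · exact le_rfl
  · exact (K.τ_mono h).le

theorem vt_τ_mem (i : ℕ) : K.τ i ∈ Icc (0:ℝ) 1 := ⟨K.τ_nonneg i, (K.τ_lt_one i).le⟩

/-- a point of the big shell close to a cone point -/
theorem vt_level {p : E3} (hp : p ∈ K.Wb) {x : X} {s : ℝ} (hs : s ∈ Icc (0:ℝ) 1)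
    (hd : dist p (K.e x s) ≤ 10 * K.ρ 17) : K.τ 1 < s ∧ s < K.τ 16 := by
  have h1 := vt_norm_le hd
  have h2 := K.ρ_anti (i := 16) (j := 17) (by norm_num) (by norm_num)
  have h3 := K.ρ_anti (i := 2) (j := 16) (by norm_num) (by norm_num)
  have h4 := K.ρ_pos 17
  obtain ⟨h5, h6⟩ := hp
  exact ⟨K.lev_gt (i := 1) (x := x) hs (by norm_num; linarith),
    K.lev_lt (i := 15) (x := x) hs (by norm_num; linarith)⟩

theorem vt_near_of_tube {p : E3} (hp : p ∈ K.Wb) {k : X} {δ : ℝ} (hδ : δ ≤ 10 * K.ρ 17)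
    (ht : p ∈ K.tube δ k) : K.Near {k} (K.τ 1) (K.τ 16) δ p := by
  obtain ⟨s, hs, h1⟩ := ht
  have h2 := K.vt_level hp hs (h1.le.trans hδ)
  exact ⟨k, rfl, s, ⟨h2.1.le, h2.2.le⟩, h1.le⟩

/-- the links of the discretised cone lines, with both ends on the line -/
theorem vt_all_V {r : ℝ} (hr : 0 < r) : ∀ᶠ n in atTop, ∀ x, ∀ a ∈ Icc (0:ℝ) 1,
    ∀ b ∈ Icc (0:ℝ) 1, All (fun p q => dist p q < r ∧ ∃ s t, s ∈ Icc (0:ℝ) 1 ∧ t ∈ Icc (0:ℝ) 1 ∧
      min a b - r ≤ s ∧ s ≤ t ∧ t ≤ max a b ∧ p = K.e x s ∧ q = K.e x t) (K.V n x a b) := by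
  obtain ⟨δ, hδ, hU⟩ := K.UC hr
  filter_upwards [vt_inv_small hδ, vt_inv_small hr] with n h1 h2 x a ha b hb
  refine all_cC _ (Nat.succ_pos n) ha hb fun u v hu0 hu huv hv hd => ?_
  have hv1 : v ≤ 1 := hv.trans (max_le ha.2 hb.2)
  refine ⟨hU x x u ⟨hu0, huv.trans hv1⟩ v ⟨hu0.trans huv, hv1⟩ (by simp [hδ.le]) ?_,
    u, v, ⟨hu0, huv.trans hv1⟩, ⟨hu0.trans huv, hv1⟩, ?_, huv, hv, rfl, rfl⟩
  · rw [abs_sub_comm, abs_of_nonneg (by linarith)]
    exact hd.trans h1.le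
  · have : (1 : ℝ) / ((n.succ : ℕ) : ℝ) < r := h2
    linarith

end Cone

/-- the links of a discretised curve -/
theorem vt_all_cC {γ : ℝ → E3} (hγ : Continuous γ) {r : ℝ} (hr : 0 < r) :
    ∀ᶠ n : ℕ in atTop, ∀ b ∈ Icc (0:ℝ) 1, All (fun p q => dist p q < r ∧
      ∃ s ∈ Icc (0:ℝ) b, ∃ t ∈ Icc (0:ℝ) b, p = γ s ∧ q = γ t) (cC γ (n + 1) 0 b) := by
  filter_upwards [eventually_fine hγ hr] with n h1 b hb
  refine all_cC _ (Nat.succ_pos n) (left_mem_Icc.2 zero_le_one) hb fun u v hu0 _ huv hv hd => ?_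
  rw [max_eq_right hb.1] at hv
  refine ⟨h1 u ⟨hu0, huv.trans (hv.trans hb.2)⟩ v ⟨hu0.trans huv, hv.trans hb.2⟩ ?_,
    u, ⟨hu0, huv.trans hv⟩, v, ⟨hu0.trans huv, hv⟩, rfl, rfl⟩
  rw [abs_of_nonneg (by linarith)]
  exact hd

end Pool.Agent.Lib.MP_9e71a3_gt
end

-- part Pool.Agent.Lib.MP_9e71a3_gt.VertB
section

/-! The component of a leg point in a thin tube reaches the top and the bottom.
JOB Vert (part B). -/

set_option autoImplicit false

namespace Pool.Agent.Lib.MP_9e71a3_gt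

open Set Metric Filter Topology

namespace Germs
variable {X : Type} [MetricSpace X] [CompactSpace X] [ConnectedSpace X] {K : Cone X} (Γ : Germs K)

theorem vt_lv_le {k : X} (hk : k ∈ Γ.G) : Γ.lv k ∈ Icc (0:ℝ) (K.τ 16) :=
  ⟨(Γ.lv_mem01 hk).1, (Γ.lv_mem k hk).2.trans (K.vt_τ_le (by norm_num))⟩

/-- a leg stays away from the cone lines over far points -/
theorem vt_far_leg {k : X} (hk : k ∈ Γ.G) {r0 : ℝ} (hr0 : 0 < r0) : ∃ r > 0,
    ∀ w ∈ Icc (0:ℝ) 1, ∀ z, r0 ≤ dist z k → ∀ s ∈ Icc (0:ℝ) 1,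
      r ≤ dist (Γ.leg k w) (K.e z s) := by
  obtain ⟨η, hη, hI⟩ := K.IM hr0
  obtain ⟨u, -, hu, hini⟩ := Γ.exists_ini hk (half_pos hη) one_pos
  obtain ⟨μ, hμ, hcl⟩ := K.exists_clean (A := Γ.leg k '' Icc u 1)
    (isCompact_Icc.image (Γ.leg_cont k)) (by
      rw [Set.disjoint_left]
      rintro _ ⟨w, hw, rfl⟩
      exact (Γ.leg_mem k hk w ⟨hu.1.trans_le hw.1, hw.2⟩).2)
  refine ⟨min (η / 2) μ, lt_min (half_pos hη) hμ, fun w hw z hz s hs => ?_⟩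
  rcases le_total w u with h1 | h1
  · have h2 := hini w ⟨hw.1, h1⟩
    have h3 : η < dist (K.e k (Γ.lv k)) (K.e z s) := by
      by_contra h4
      have := (hI k z _ (Γ.vt_lv_le hk) s hs (not_lt.1 h4)).1
      rw [dist_comm] at this
      linarith
    have h4 := dist_triangle (K.e k (Γ.lv k)) (Γ.leg k w) (K.e z s)
    rw [dist_comm (K.e k (Γ.lv k)) (Γ.leg k w)] at h4
    exact (min_le_left _ _).trans (by linarith)
  · exact (min_le_right _ _).trans (hcl ⟨w, ⟨h1, hw.2⟩, rfl⟩ z s hs).le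

theorem vt_av_up {k : X} (hk : k ∈ Γ.G) {r0 : ℝ} (hr0 : 0 < r0) : ∃ r > 0, ∀ᶠ n in atTop,
    ∀ r' ≤ r, ∀ U : Set X, (∀ z ∈ U, r0 ≤ dist z k) →
      Av (insert (0, K.ρ 15) (K.Bl U (K.τ 1) 1 r')) (4 * ms n) (Γ.up n k) := by
  obtain ⟨η, hη, hI⟩ := K.IM hr0
  obtain ⟨r1, hr1, hleg⟩ := Γ.vt_far_leg hk hr0
  have p15 := K.ρ_pos 15
  have a1 := K.ρ_anti (i := 12) (j := 15) (by norm_num) (by norm_num)
  have a2 := K.ρ_anti (i := 11) (j := 12) (by norm_num) (by norm_num)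
  have a3 := K.ρ_anti (i := 1) (j := 11) (by norm_num) (by norm_num)
  obtain ⟨r, hr, h1, h2, h3⟩ : ∃ r > 0, 6 * r ≤ η ∧ 6 * r ≤ r1 ∧ r ≤ K.ρ 15 :=
    ⟨min (η / 6) (min (r1 / 6) (K.ρ 15)), by positivity, by
      have := min_le_left (η / 6) (min (r1 / 6) (K.ρ 15)); linarith, by
      have := (min_le_right (η / 6) _).trans (min_le_left (r1 / 6) (K.ρ 15)); linarith,
      (min_le_right _ _).trans (min_le_right _ _)⟩
  refine ⟨r, hr, ?_⟩
  filter_upwards [ms_small hr, K.vt_all_V hr, vt_all_cC (Γ.leg_cont k) hr] with n hn hV hL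
  intro r' hr' U hU
  have hlv := Γ.lv_mem01 hk
  rw [av_iff_all]
  refine All.add (All.add ?_ ?_) ?_
  · refine (hV k 0 (left_mem_Icc.2 zero_le_one) _ hlv).mono ?_
    rintro _ _ ⟨hd, s, t, hs, ht, -, hst, htl, rfl, rfl⟩ B hB
    rw [max_eq_right hlv.1] at htl
    have hsl := hst.trans htl
    rcases hB with rfl | ⟨z, hz, s', hs', rfl⟩
    · have := K.big 10 k s ⟨hs.1, hsl.trans (Γ.lv_mem k hk).2⟩
      simp only [dist_zero_right]
      norm_num at this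
      linarith
    · have h4 : η < dist (K.e k s) (K.e z s') := by
        by_contra h4
        have := (hI k z s ⟨hs.1, hsl.trans (Γ.vt_lv_le hk).2⟩ s'
          ⟨(K.τ_nonneg 1).trans hs'.1, hs'.2⟩ (not_lt.1 h4)).1
        rw [dist_comm] at this
        linarith [hU z hz]
      simp only
      linarith
  · refine (K.J_out k).mono ?_
    intro p q hpq B hB
    rcases hB with rfl | ⟨z, hz, s', hs', rfl⟩
    · simp only [dist_zero_right]
      linarith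
    · have h4 := K.little 0 z s' hs'
      have h5 := (vt_norm_le (le_refl (dist p (K.e z s')))).1
      simp only [zero_add] at h4 ⊢
      linarith
  · refine (hL 1 (right_mem_Icc.2 zero_le_one)).mono ?_
    rintro _ _ ⟨hd, s, hs, t, ht, rfl, rfl⟩ B hB
    rcases hB with rfl | ⟨z, hz, s', hs', rfl⟩
    · have := (Γ.leg_mem_W hk hs).1
      simp only [dist_zero_right]
      linarith
    · have := hleg s hs z (hU z hz) s' ⟨(K.τ_nonneg 1).trans hs'.1, hs'.2⟩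
      simp only
      linarith

theorem vt_av_dn {k : X} (hk : k ∈ Γ.G) {r0 : ℝ} (hr0 : 0 < r0) : ∃ r > 0, ∀ᶠ n in atTop,
    All (fun p q => p ∈ closedBall (0 : E3) (5 * K.ρ 3) ∧ q ∈ closedBall (0 : E3) (5 * K.ρ 3))
      (Γ.dn n k) ∧ ∀ r' ≤ r, ∀ U : Set X, (∀ z ∈ U, r0 ≤ dist z k) →
      Av (K.Bl U 0 (K.τ 16) r') (4 * ms n) (Γ.dn n k) := by
  obtain ⟨η, hη, hI⟩ := K.IM hr0
  obtain ⟨r1, hr1, hleg⟩ := Γ.vt_far_leg hk hr0
  have p6 := K.ρ_pos 6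
  have a1 := K.ρ_anti (i := 3) (j := 6) (by norm_num) (by norm_num)
  have t67 : 0 < K.τ 7 - K.τ 6 := sub_pos.2 (K.τ_lt 6)
  obtain ⟨r, hr, h1, h2, h3⟩ : ∃ r > 0, 6 * r ≤ η ∧ 6 * r ≤ r1 ∧ r ≤ K.τ 7 - K.τ 6 :=
    ⟨min (η / 6) (min (r1 / 6) (K.τ 7 - K.τ 6)), by positivity, by
      have := min_le_left (η / 6) (min (r1 / 6) (K.τ 7 - K.τ 6)); linarith, by
      have := (min_le_right (η / 6) _).trans (min_le_left (r1 / 6) (K.τ 7 - K.τ 6)); linarith,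
      (min_le_right _ _).trans (min_le_right _ _)⟩
  refine ⟨r, hr, ?_⟩
  filter_upwards [ms_small hr, K.vt_all_V hr, vt_all_cC (Γ.leg_cont k) hr] with n hn hV hL
  have hlv := Γ.lv_mem01 hk
  refine ⟨All.add ?_ ?_, fun r' hr' U hU => ?_⟩
  · refine (hV k _ hlv 1 (right_mem_Icc.2 zero_le_one)).mono ?_
    rintro _ _ ⟨hd, s, t, hs, ht, hsl, hst, -, rfl, rfl⟩
    rw [min_eq_left hlv.2] at hsl
    have h4 := (Γ.lv_mem k hk).1
    have h5 := K.little 5 k s ⟨by norm_num; linarith, hs.2⟩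
    have h6 := K.little 5 k t ⟨by norm_num; linarith, ht.2⟩
    simp only [mem_closedBall, dist_zero_right]
    norm_num at h5 h6
    constructor <;> linarith
  · refine (hL 1 (right_mem_Icc.2 zero_le_one)).mono ?_
    rintro _ _ ⟨hd, s, hs, t, ht, rfl, rfl⟩
    have h5 := (Γ.leg_mem_W hk hs).2
    have h6 := (Γ.leg_mem_W hk ht).2
    simp only [mem_closedBall, dist_zero_right]
    constructor <;> linarith
  rw [av_iff_all]
  refine All.add ?_ ?_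
  · refine (hV k _ hlv 1 (right_mem_Icc.2 zero_le_one)).mono ?_
    rintro _ _ ⟨hd, s, t, hs, ht, -, -, -, rfl, rfl⟩ B ⟨z, hz, s', hs', rfl⟩
    have h4 : η < dist (K.e z s') (K.e k s) := by
      by_contra h4
      have := (hI z k s' hs' s hs (not_lt.1 h4)).1
      linarith [hU z hz]
    rw [dist_comm] at h4
    simp only
    linarith
  · refine (hL 1 (right_mem_Icc.2 zero_le_one)).mono ?_
    rintro _ _ ⟨hd, s, hs, t, ht, rfl, rfl⟩ B ⟨z, hz, s', hs', rfl⟩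
    have := hleg s hs z (hU z hz) s' ⟨hs'.1, hs'.2.trans (K.τ_lt_one 16).le⟩
    simp only
    linarith

/-- the dual cycle round the tube of `k` -/
theorem vt_k1_core {k k' : X} (hk : k ∈ Γ.G) (hk' : k' ∈ Γ.G) (hne : k' ≠ k)
    (hdom : Γ.dom k' = Γ.dom k) {R u : ℝ} (hR : 0 < R) (hR1 : R ≤ K.ρ 17)
    (hI : ∀ x y, ∀ s ∈ Icc (0:ℝ) (K.τ 16), ∀ t ∈ Icc (0:ℝ) 1,
      dist (K.e x s) (K.e y t) ≤ 3 * R → dist x y < dist k' k / 2)
    (hu : Γ.Ini k u (R / 4)) : ∃ r0 > 0, ∀ η > 0, ∀ᶠ n in atTop, ∃ ζ : Ch E3, bd ζ = 0 ∧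
      Lk (ms n) ζ (Γ.up n k + Γ.up n k') = 1 ∧ Lk (ms n) ζ (Γ.dn n k + Γ.dn n k') = 1 ∧
      All (fun p q => dist p q ≤ η ∧ ∃ x, JoinedIn ((K.Wv \ K.C) ∩ K.tube R k) (Γ.leg k u) x ∧
        dist x p ≤ η ∧ (‖p‖ ≤ K.ρ 16 + η ∨ K.ρ 2 ≤ ‖p‖ + η ∨
          (K.Near {z | r0 ≤ dist z k ∧ r0 ≤ dist z k'} (K.τ 1) (K.τ 16) η p ∧
            K.Near {z | r0 ≤ dist z k ∧ r0 ≤ dist z k'} (K.τ 1) (K.τ 16) η q))) ζ := by
  have hkk : 0 < dist k' k := dist_pos.2 hne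
  obtain ⟨δ1, hδ1, hU⟩ := K.UC (show 0 < R / 8 by positivity)
  refine ⟨min δ1 (dist k' k / 2), by positivity, fun η hη => ?_⟩
  obtain ⟨u', -, hu'⟩ := Γ.exists_ini hk' hR one_pos
  obtain ⟨μ1, hμ1, hc1⟩ := Γ.Lg_clean hk hu.1
  obtain ⟨μ2, hμ2, hc2⟩ := Γ.Lg_clean hk' hu'.1
  obtain ⟨μ3, hμ3, hc3⟩ := K.exists_clean (A := {Γ.leg k u}) isCompact_singleton
    (by simpa using (Γ.leg_mem k hk u hu.1).2)
  have hc3' : Γ.leg k u ∈ K.clean μ3 := hc3 rfl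
  obtain ⟨μ, hμ, m1, m2, m3, m4, m5⟩ : ∃ μ > 0, 3 * μ ≤ μ1 ∧ 3 * μ ≤ μ2 ∧ 3 * μ ≤ μ3 ∧
      5 * μ ≤ η ∧ 32 * μ ≤ R := by
    refine ⟨min (min (min μ1 μ2) (min μ3 η)) R / 32, by positivity, ?_⟩
    have b1 := min_le_left (min (min μ1 μ2) (min μ3 η)) R
    have b2 := min_le_right (min (min μ1 μ2) (min μ3 η)) R
    have b3 := min_le_left (min μ1 μ2) (min μ3 η)
    have b4 := min_le_right (min μ1 μ2) (min μ3 η)
    have b5 := min_le_left μ1 μ2
    have b6 := min_le_right μ1 μ2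
    have b7 := min_le_left μ3 η
    have b8 := min_le_right μ3 η
    refine ⟨?_, ?_, ?_, ?_, ?_⟩ <;> linarith
  have p17 := K.ρ_pos 17
  have a1 := K.ρ_anti (i := 16) (j := 17) (by norm_num) (by norm_num)
  have a2 := K.ρ_anti (i := 12) (j := 16) (by norm_num) (by norm_num)
  have a3 := K.ρ_anti (i := 6) (j := 12) (by norm_num) (by norm_num)
  have a4 := K.ρ_anti (i := 2) (j := 6) (by norm_num) (by norm_num)
  have a5 := K.ρ_anti (i := 1) (j := 2) (by norm_num) (by norm_num)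
  filter_upwards [ms_small hμ, K.vt_all_V hμ, vt_all_cC (Γ.leg_cont k) hμ,
    vt_all_cC (Γ.leg_cont k') hμ, Γ.all_Lg k hμ, Γ.all_Lg k' hμ, hc1, hc2]
    with n hn hV hL hL' hA hA' hc1 hc2
  have hh := ms_pos n
  set h := ms n with h_def
  set O := K.Wv ∩ K.clean μ ∩ K.tube R k with hO
  set S := vtComp O (Γ.leg k u) with hS
  set T := K.tube (R / 2) k with hT
  have hlv := Γ.lv_mem01 hk
  have hlv' := Γ.lv_mem01 hk'
  have hu01 : u ∈ Icc (0:ℝ) 1 := ⟨hu.1.1.le, hu.1.2⟩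
  have hu01' : u' ∈ Icc (0:ℝ) 1 := ⟨hu'.1.1.le, hu'.1.2⟩
  have h01 : (0:ℝ) ∈ Icc (0:ℝ) 1 := left_mem_Icc.2 zero_le_one
  have h11 : (1:ℝ) ∈ Icc (0:ℝ) 1 := right_mem_Icc.2 zero_le_one
  have hWv : ∀ p ∈ K.W, ∀ z, dist z p ≤ 3 * μ → z ∈ K.Wv := by
    intro p hp z hz
    have h1 := vt_norm_le hz
    exact ⟨by linarith [hp.1], by linarith [hp.2]⟩
  have hfar : ∀ x, ∀ s ∈ Icc (0:ℝ) 1, dist x (K.e k' s) ≤ 2 * R → x ∉ S := by
    intro x s hs hd hx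
    obtain ⟨⟨h1, -⟩, t, ht, h2⟩ := vtComp_sub hx
    have h3 := K.vt_level (K.Wv_sub_Wb h1) hs (x := k') (by linarith)
    have h4 := dist_triangle (K.e k' s) x (K.e k t)
    rw [dist_comm _ x] at h4
    have := hI k' k s ⟨hs.1, h3.2.le⟩ t ht (by linarith)
    linarith
  obtain ⟨ζ, hζ, hLk, hζl⟩ := vt_cup (R := K.ρ 2) hh (S := S) T
    (fun x hx => (vtComp_sub hx).1.1.2.le)
  have zV : ∀ a ∈ Icc (0:ℝ) 1, ∀ b ∈ Icc (0:ℝ) 1,
      pair (vtCup h S T) (rho h (K.V n k a b)) = 0 := by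
    intro a ha b hb
    refine vt_pair_zero hh ((hV k a ha b hb).mono ?_)
    rintro _ _ ⟨hd, s, t, hs, -, -, -, -, rfl, rfl⟩
    exact Or.inl fun x hx => ⟨s, hs, by linarith⟩
  have zV' : ∀ a ∈ Icc (0:ℝ) 1, ∀ b ∈ Icc (0:ℝ) 1,
      pair (vtCup h S T) (rho h (K.V n k' a b)) = 0 := by
    intro a ha b hb
    refine vt_pair_zero hh ((hV k' a ha b hb).mono ?_)
    rintro _ _ ⟨hd, s, t, hs, -, -, -, -, rfl, rfl⟩
    exact Or.inr (Or.inr fun x hx => hfar x s hs (by linarith))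
  have zJ : ∀ y, pair (vtCup h S T) (rho h (K.J y)) = 0 := by
    intro y
    refine vt_pair_zero hh ((K.J_out y).mono ?_)
    intro p q hpq
    refine Or.inr (Or.inr fun x hx hxS => ?_)
    have h1 := (vtComp_sub hxS).1.1.2
    have h2 := (vt_norm_le hx).2
    linarith
  have zL : pair (vtCup h S T) (rho h (Γ.Lg n k 0 u)) = 0 := by
    refine vt_pair_zero hh ((hL u hu01).mono ?_)
    rintro _ _ ⟨hd, s, hs, t, -, rfl, rfl⟩
    refine Or.inl fun x hx => ⟨_, hlv, ?_⟩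
    linarith [hu.2 s hs, dist_triangle x (Γ.leg k s) (K.e k (Γ.lv k))]
  have zL' : pair (vtCup h S T) (rho h (Γ.Lg n k' 0 u')) = 0 := by
    refine vt_pair_zero hh ((hL' u' hu01').mono ?_)
    rintro _ _ ⟨hd, s, hs, t, -, rfl, rfl⟩
    refine Or.inr (Or.inr fun x hx => hfar x _ hlv' ?_)
    linarith [hu'.2 s hs, dist_triangle x (Γ.leg k' s) (K.e k' (Γ.lv k'))]
  have hone : Γ.leg k' 1 = Γ.leg k 1 := Γ.leg_one k' hk' k hk hdom
  have hcl : ∀ μ0, 3 * μ ≤ μ0 → ∀ p q, K.Cl μ0 p q → p ∈ K.W → dist p q < μ → ∀ x y,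
      dist y p ≤ dist p q + h → dist x y ≤ h → y ∈ T → (x ∈ S ↔ y ∈ S) := by
    intro μ0 hμ0 p q h1 h2 h3 x y h4 h5 h6
    refine vtComp_iff (fun z hz => ⟨⟨hWv p h2 z ?_, fun x' s hs => ?_⟩, ?_⟩) h5
    · linarith [dist_triangle z y p]
    · have h7 := h1 x' s hs
      have h8 := dist_triangle p z (K.e x' s)
      have h9 := dist_triangle z y p
      rw [dist_comm p z] at h8
      linarith
    · exact K.vt_tube_mono (K.vt_tube_add h6 hz) (by linarith)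
  have zm : pair (vtCup h S T) (rho h (Γ.Lg n k u 1 + Γ.Lg n k' u' 1)) = 1 := by
    have hb : bd (Γ.Lg n k u 1 + Γ.Lg n k' u' 1) = two (Γ.leg k u) (Γ.leg k' u') := by
      rw [map_add, Lg, Lg, bd_cC _ (Nat.succ_pos n) hu01 h11, bd_cC _ (Nat.succ_pos n) hu01' h11,
        hone]
      ext x
      simp only [two, Finsupp.add_apply]
      grind
    rw [vt_pair_two hh hb (All.add ?_ ?_), vtInd_of_mem, vtInd_of_not_mem, add_zero]
    · intro hx
      refine hfar _ _ hlv' ?_ hx.1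
      linarith [hu'.2 u' ⟨hu01'.1, le_rfl⟩, dist_pt_fl hh (Γ.leg k' u'),
        dist_triangle (pt h (fl h (Γ.leg k' u'))) (Γ.leg k' u') (K.e k' (Γ.lv k'))]
    · have h1 := hu.2 u ⟨hu01.1, le_rfl⟩
      have h2 := dist_pt_fl hh (Γ.leg k u)
      refine ⟨vt_joined_ball (fun z hz => ⟨⟨hWv _ (Γ.leg_mem_W hk hu01) z (by linarith),
        K.vt_clean_sub hc3' hz (by linarith)⟩, _, hlv, ?_⟩) h2, _, hlv, ?_⟩
      · linarith [dist_triangle z (Γ.leg k u) (K.e k (Γ.lv k))]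
      · linarith [dist_triangle (pt h (fl h (Γ.leg k u))) (Γ.leg k u) (K.e k (Γ.lv k))]
    · intro l hl
      exact hcl μ1 m1 _ _ (hc1 l hl).1 (hc1 l hl).2.1 (hA u hu01 1 h11 l hl).1
    · intro l hl
      exact hcl μ2 m2 _ _ (hc2 l hl).1 (hc2 l hl).2.1 (hA' u' hu01' 1 h11 l hl).1
  have hLg : Γ.Lg n k 0 1 = Γ.Lg n k 0 u + Γ.Lg n k u 1 := (cC_add _ _ _ _ _).symm
  have hLg' : Γ.Lg n k' 0 1 = Γ.Lg n k' 0 u' + Γ.Lg n k' u' 1 := (cC_add _ _ _ _ _).symm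
  refine ⟨ζ, hζ, ?_, ?_, hζl.mono ?_⟩
  · rw [hLk _ (by rw [map_add, Γ.bd_up n hk, Γ.bd_up n hk', hone, fs_add_self])]
    simp only [map_add] at zm
    simp only [up, hLg, hLg', map_add, zV 0 h01 _ hlv, zV' 0 h01 _ hlv', zJ, zL, zL', zero_add, zm]
  · rw [hLk _ (by rw [map_add, Γ.bd_dn n hk, Γ.bd_dn n hk', hone, fs_add_self])]
    simp only [map_add] at zm
    simp only [dn, hLg, hLg', map_add, zV _ hlv 1 h11, zV' _ hlv' 1 h11, zL, zL', zero_add, zm]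
  rintro p q ⟨hpq, ⟨x, hx, y, hy, hxp, hyx⟩, x', hx', y', hy', hxp', hyp'⟩
  obtain ⟨z, hz, hzx⟩ := vtComp_exit hx hy hyx
  have hzp : dist z p ≤ 3 * h := by linarith [dist_triangle z x p]
  refine ⟨by linarith, x, JoinedIn.mono hx ?_, by linarith, ?_⟩
  · rintro w ⟨⟨h1, h2⟩, h3⟩
    exact ⟨⟨h1, K.clean_not_mem hμ.le h2⟩, h3⟩
  have hzt : z ∈ K.tube R k := by
    have h1 := dist_triangle z p x'
    rw [dist_comm p x'] at h1
    exact K.vt_tube_mono (K.vt_tube_add hx' (r := 6 * h) (by linarith)) (by linarith)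
  have hn := vt_norm_le hzp
  by_cases h1 : ‖z‖ ≤ K.ρ 16
  · exact Or.inl (by linarith)
  by_cases h2 : K.ρ 2 ≤ ‖z‖
  · exact Or.inr (Or.inl (by linarith))
  have hzW : z ∈ K.Wv := ⟨not_le.1 h1, not_le.1 h2⟩
  obtain ⟨z0, s, hs, hd⟩ := K.vt_dirty (μ := μ) (x := z) fun h3 => hz ⟨⟨hzW, h3⟩, hzt⟩
  have h3 := K.vt_level (K.Wv_sub_Wb hzW) hs (x := z0) (by linarith)
  have h4 : K.Near {z | min δ1 (dist k' k / 2) ≤ dist z k ∧ min δ1 (dist k' k / 2) ≤ dist z k'}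
      (K.τ 1) (K.τ 16) μ z := by
    refine ⟨z0, ⟨?_, ?_⟩, s, ⟨h3.1.le, h3.2.le⟩, hd⟩
    · by_contra h4
      have h5 := hU z0 k s hs s hs ((not_le.1 h4).le.trans (min_le_left _ _)) (by simp [hδ1.le])
      refine hy' ⟨s, hs, ?_⟩
      have h6 := dist_triangle4 y' z (K.e z0 s) (K.e k s)
      have h7 := dist_triangle y' p z
      rw [dist_comm p z] at h7
      linarith
    · obtain ⟨t, ht, h5⟩ := hzt
      have h6 := dist_triangle (K.e z0 s) z (K.e k t)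
      rw [dist_comm _ z] at h6
      have h7 := hI z0 k s ⟨hs.1, h3.2.le⟩ t ht (by linarith)
      have h8 := dist_triangle k' z0 k
      rw [dist_comm k' z0] at h8
      exact (min_le_right _ _).trans (by linarith)
  refine Or.inr (Or.inr ⟨K.vt_near_mono h4 ?_, K.vt_near_mono h4 ?_⟩)
  · rw [dist_comm]
    linarith
  · have h5 := dist_triangle q p z
    rw [dist_comm q p, dist_comm p z] at h5
    linarith

theorem vt_k1 {k : X} (hk : k ∈ Γ.G) {δ u0 : ℝ} (hδ : 0 < δ) (hu0 : 0 < u0) :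
    ∃ u ≤ u0, Γ.Ini k u δ ∧
      (∃ x, JoinedIn ((K.Wv \ K.C) ∩ K.tube δ k) (Γ.leg k u) x ∧ K.ρ 2 / 2 < ‖x‖) ∧
      ∃ x, JoinedIn ((K.Wv \ K.C) ∩ K.tube δ k) (Γ.leg k u) x ∧ ‖x‖ < 2 * K.ρ 16 := by
  obtain ⟨k', hk', hne, hdom⟩ := Γ.other k hk
  have hkk : 0 < dist k' k := dist_pos.2 hne
  obtain ⟨η0, hη0, hI⟩ := K.IM (half_pos hkk)
  have p17 := K.ρ_pos 17
  have a1 := K.ρ_anti (i := 16) (j := 17) (by norm_num) (by norm_num)
  have a2 := K.ρ_anti (i := 3) (j := 16) (by norm_num) (by norm_num)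
  have a3 := K.ρ_anti (i := 2) (j := 3) (by norm_num) (by norm_num)
  obtain ⟨R, hR, h1, h2, h3⟩ : ∃ R > 0, R ≤ δ ∧ R ≤ K.ρ 17 ∧ 3 * R ≤ η0 :=
    ⟨min (min δ (K.ρ 17)) (η0 / 3), by positivity, (min_le_left _ _).trans (min_le_left _ _),
      (min_le_left _ _).trans (min_le_right _ _), by
        have := min_le_right (min δ (K.ρ 17)) (η0 / 3); linarith⟩
  obtain ⟨u, hu1, hu⟩ := Γ.exists_ini hk (show 0 < R / 4 by positivity) hu0
  obtain ⟨r0, hr0, hcore⟩ := Γ.vt_k1_core hk hk' hne hdom hR h2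
    (fun x y s hs t ht hd => (hI x y s hs t ht (hd.trans h3)).1) hu
  have hsub : (K.Wv \ K.C) ∩ K.tube R k ⊆ (K.Wv \ K.C) ∩ K.tube δ k :=
    fun x hx => ⟨hx.1, K.vt_tube_mono hx.2 h1⟩
  have hone : Γ.leg k' 1 = Γ.leg k 1 := Γ.leg_one k' hk' k hk hdom
  refine ⟨u, hu1, ⟨hu.1, fun w hw => by linarith [hu.2 w hw]⟩, ?_, ?_⟩
  · by_contra hno
    push Not at hno
    obtain ⟨r1, hr1, hav1⟩ := Γ.vt_av_up hk hr0
    obtain ⟨r2, hr2, hav2⟩ := Γ.vt_av_up hk' hr0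
    obtain ⟨η, hη, hp⟩ := K.push_down (lt_min hr1 hr2)
    obtain ⟨n, ⟨ζ, hζ, hLk, -, hζl⟩, hav1, hav2⟩ :=
      ((hcore _ (lt_min hη p17)).and (hav1.and hav2)).exists
    have b1 := min_le_left η (K.ρ 17)
    have b2 := min_le_right η (K.ρ 17)
    have hN := hp ζ {z | r0 ≤ dist z k ∧ r0 ≤ dist z k'} (K.τ 1) (K.τ_nonneg 1) hζ (hζl.mono (by
      rintro p q ⟨h4, x, hx, h5, h6 | h6 | h6⟩
      · exact ⟨by linarith, Or.inl (by linarith)⟩
      · have h7 := hno x (hx.mono hsub)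
        have h8 := (vt_norm_le h5).2
        linarith
      · exact ⟨by linarith, Or.inr ⟨K.vt_near_mono h6.1 (by simp),
          K.vt_near_mono h6.2 (by simp)⟩⟩))
    have h0 := Lk_null_left (ms_pos n) hN (w := Γ.up n k + Γ.up n k')
      (by rw [map_add, Γ.bd_up n hk, Γ.bd_up n hk', hone, fs_add_self])
      (av_iff_all.2 (All.add (av_iff_all.1 (hav1 _ (min_le_left _ _) _ fun z hz => hz.1))
        (av_iff_all.1 (hav2 _ (min_le_right _ _) _ fun z hz => hz.2))))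
    rw [h0] at hLk
    exact absurd hLk (by decide)
  · by_contra hno
    push Not at hno
    obtain ⟨r1, hr1, hav1⟩ := Γ.vt_av_dn hk hr0
    obtain ⟨r2, hr2, hav2⟩ := Γ.vt_av_dn hk' hr0
    obtain ⟨η, hη, hp⟩ := K.push_up (lt_min hr1 hr2)
    obtain ⟨n, ⟨ζ, hζ, -, hLk, hζl⟩, ⟨hb1, hav1⟩, ⟨hb2, hav2⟩, hn⟩ :=
      ((hcore _ (lt_min hη p17)).and (hav1.and (hav2.and (ms_small p17)))).exists
    have b1 := min_le_left η (K.ρ 17)
    have b2 := min_le_right η (K.ρ 17)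
    obtain ⟨c', hc', hN, hA⟩ := hp ζ {z | r0 ≤ dist z k ∧ r0 ≤ dist z k'} (K.τ 16) le_rfl hζ
      (hζl.mono (by
      rintro p q ⟨h4, x, hx, h5, h6 | h6 | h6⟩
      · have h7 := hno x (hx.mono hsub)
        have h8 := (vt_norm_le h5).1
        linarith
      · exact ⟨by linarith, Or.inl (by linarith)⟩
      · obtain ⟨⟨z, hz, s, hs, h7⟩, z', hz', s', hs', h8⟩ := h6
        exact ⟨by linarith, Or.inr ⟨⟨z, hz, s, ⟨(K.τ_nonneg 1).trans hs.1, hs.2⟩, by linarith⟩,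
          z', hz', s', ⟨(K.τ_nonneg 1).trans hs'.1, hs'.2⟩, by linarith⟩⟩))
    have hw : bd (Γ.dn n k + Γ.dn n k') = 0 := by
      rw [map_add, Γ.bd_dn n hk, Γ.bd_dn n hk', hone, fs_add_self]
    have h0 := Lk_null_left (ms_pos n) hN hw
      (av_iff_all.2 (All.add (av_iff_all.1 (hav1 _ (min_le_left _ _) _ fun z hz => hz.1))
        (av_iff_all.1 (hav2 _ (min_le_right _ _) _ fun z hz => hz.2))))
    have h0' := Lk_null_right (ms_pos n) hc'
      (null_of_ball (T := {(0, 5 * K.ρ 3)}) (B := (0, 5 * K.ρ 3)) rfl hw (All.add hb1 hb2))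
      (vt_av_mono hA (by linarith))
    rw [Lk_add_left, h0', add_zero, hLk] at h0
    exact absurd h0 (by decide)

end Germs

end Pool.Agent.Lib.MP_9e71a3_gt
end
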