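import Pool.Agent.Lib.MP_9e71a3_gt.WallB

-- part Pool.Agent.Lib.MP_9e71a3_gt.WallC
section

/-! The thin wall. -/

set_option autoImplicit false
set_option linter.unusedSectionVars false

namespace Pool.Agent.Lib.MP_9e71a3_gt

open Set Metric Filter Topology

namespace WallH

variable {X : Type} [MetricSpace X] [CompactSpace X] [ConnectedSpace X] {K : Cone X}

theorem line_far (K : Cone X) {R : ℝ} (hR : 0 < R) : ∃ η > 0, ∀ x k, ∀ s0 ∈ Icc (0:ℝ) 1,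
    K.e x s0 ∉ K.tube R k → ∀ s ∈ Icc (0:ℝ) (K.τ 16), ∀ t ∈ Icc (0:ℝ) 1,
      η < dist (K.e k s) (K.e x t) := by
  obtain ⟨δ, hδ, H⟩ := K.UC hR
  obtain ⟨η, hη, I⟩ := K.IM hδ
  refine ⟨η, hη, fun x k s0 hs0 hn s hs t ht => ?_⟩
  by_contra hle
  have := (I k x s hs t ht (not_lt.1 hle)).1
  exact hn ⟨s0, hs0, H x k s0 hs0 s0 hs0 (by rw [dist_comm]; exact this.le) (by simp [hδ.le])⟩

theorem line_close (K : Cone X) {ε : ℝ} (hε : 0 < ε) : ∃ η > 0, ∀ x k,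
    ∀ s ∈ Icc (0:ℝ) (K.τ 16), ∀ t ∈ Icc (0:ℝ) 1, dist (K.e x s) (K.e k t) ≤ η →
      ∀ w ∈ Icc (0:ℝ) 1, dist (K.e x w) (K.e k w) < ε := by
  obtain ⟨δ, hδ, H⟩ := K.UC hε
  obtain ⟨η, hη, I⟩ := K.IM hδ
  exact ⟨η, hη, fun x k s hs t ht hd w hw =>
    H x k w hw w hw (I x k s hs t ht hd).1.le (by simp [hδ.le])⟩

theorem lv_16 (Γ : Germs K) {k : X} (hk : k ∈ Γ.G) : Γ.lv k ∈ Icc (K.τ 2) (K.τ 15) :=
  ⟨(tau_le K (by omega)).trans (Γ.lv_mem k hk).1, (Γ.lv_mem k hk).2.trans (tau_le K (by omega))⟩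

theorem sub01 {a b : ℕ} {s : ℝ} (hs : s ∈ Icc (K.τ a) (K.τ b)) : s ∈ Icc (0:ℝ) 1 :=
  ⟨(K.τ_nonneg a).trans hs.1, hs.2.trans (K.τ_lt_one b).le⟩

theorem mid_null (Γ : Germs K) {r : ℝ} (hr : 0 < r) : ∃ η > 0, ∀ k ∈ Γ.G, ∀ k' ∈ Γ.G, ∀ u u',
    Γ.Ini k u η → Γ.Ini k' u' η → (∀ w ∈ Icc (0:ℝ) 1, dist (K.e k' w) (K.e k w) < η) →
    ∀ᶠ n in atTop, ∀ m : Ch E3, bd m = two (Γ.leg k u) (Γ.leg k' u') →
      All (fun p q => dist p q ≤ η ∧ p ∈ K.W ∩ K.tube η k ∧ q ∈ K.W ∩ K.tube η k) m →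
      ∀ t ∈ Icc (K.τ 2) (K.τ 15), Null (K.Bl {k} (K.τ 1) (K.τ 16) r)
        (Γ.Lg n k 0 u + m + Γ.Lg n k' 0 u' + K.V n k (Γ.lv k) t + K.V n k' (Γ.lv k') t +
          lnk (K.e k t) (K.e k' t)) := by
  obtain ⟨r17, r16, r15, r14, r13, r12, r11, r7, r6, r4, r3, r2, r1⟩ := rho_all K
  obtain ⟨η1, hη1, H⟩ := K.tube_null hr
  obtain ⟨η, hη, e1, e2⟩ : ∃ η > 0, η ≤ η1 / 4 ∧ η ≤ K.ρ 17 :=
    ⟨min (η1 / 4) (K.ρ 17), by positivity, by simp, by simp⟩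
  refine ⟨η, hη, fun k hk k' hk' u u' hu hu' hc => ?_⟩
  filter_upwards [K.all_V hη, Γ.all_Lg k hη, Γ.all_Lg k' hη] with n hV hL hL' m bm hm t ht
  have t12 : K.τ 1 ≤ K.τ 2 := tau_le K (by omega)
  have t56 : K.τ 15 ≤ K.τ 16 := tau_le K (by omega)
  have z01 : (0:ℝ) ∈ Icc (0:ℝ) 1 := ⟨le_rfl, zero_le_one⟩
  have u01 : u ∈ Icc (0:ℝ) 1 := ⟨hu.1.1.le, hu.1.2⟩
  have u01' : u' ∈ Icc (0:ℝ) 1 := ⟨hu'.1.1.le, hu'.1.2⟩
  have l := lv_16 Γ hk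
  have l' := lv_16 Γ hk'
  have N1 : ∀ s ∈ Icc (K.τ 2) (K.τ 15), ∀ p, dist p (K.e k s) ≤ 3 * η →
      K.Near {k} (K.τ 1) (K.τ 16) η1 p := fun s hs p hp =>
    ⟨k, rfl, s, ⟨t12.trans hs.1, hs.2.trans t56⟩, by linarith⟩
  have N2 : ∀ s ∈ Icc (K.τ 2) (K.τ 15), ∀ p, dist p (K.e k' s) ≤ 2 * η →
      K.Near {k} (K.τ 1) (K.τ 16) η1 p := fun s hs p hp => N1 s hs p (by
    have := hc s (sub01 hs)
    have := dist_triangle p (K.e k' s) (K.e k s)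
    linarith)
  have N3 : ∀ p ∈ K.W ∩ K.tube η k, K.Near {k} (K.τ 1) (K.τ 16) η1 p := by
    rintro p ⟨hW, s, hs, hd⟩
    have a1 := norm_le_add p (K.e k s)
    have a2 := norm_le_add' (K.e k s) p
    refine ⟨k, rfl, s, ⟨(K.lev_gt (i := 1) (x := k) hs ?_).le,
      (K.lev_lt (i := 15) (x := k) hs ?_).le⟩, by linarith⟩
    · norm_num; linarith [hW.2]
    · norm_num; linarith [hW.1]
  have mm : ∀ {a s : ℝ}, a ∈ Icc (K.τ 2) (K.τ 15) → s ∈ Icc (min a t) (max a t) →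
      s ∈ Icc (K.τ 2) (K.τ 15) := fun ha hs =>
    ⟨(le_min ha.1 ht.1).trans hs.1, hs.2.trans (max_le ha.2 ht.2)⟩
  refine H _ k _ _ (K.τ_nonneg 1) le_rfl ?_ ?_
  · simp only [map_add]
    rw [bd_Lg Γ n k z01 u01, bd_Lg Γ n k' z01 u01', bm, K.bd_V n k (sub01 l) (sub01 ht),
      K.bd_V n k' (sub01 l') (sub01 ht), bd_lnk, Γ.leg_zero k hk, Γ.leg_zero k' hk']
    simp only [two]; ext l; simp only [Finsupp.add_apply, Finsupp.zero_apply]; clear * -; grind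
  · refine All.add (All.add (All.add (All.add (All.add ?_ ?_) ?_) ?_) ?_) ?_
    · refine (hL 0 z01 u u01).mono ?_
      rintro p q ⟨h1, ⟨w, hw, rfl⟩, ⟨w', hw', rfl⟩, -⟩
      rw [max_eq_right u01.1] at hw hw'
      exact ⟨by linarith, N1 _ l _ (by linarith [hu.2 w hw]), N1 _ l _ (by linarith [hu.2 w' hw'])⟩
    · exact hm.mono fun p q h => ⟨by linarith [h.1], N3 p h.2.1, N3 q h.2.2⟩
    · refine (hL' 0 z01 u' u01').mono ?_
      rintro p q ⟨h1, ⟨w, hw, rfl⟩, ⟨w', hw', rfl⟩, -⟩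
      rw [max_eq_right u01'.1] at hw hw'
      exact ⟨by linarith, N2 _ l' _ (by linarith [hu'.2 w hw]),
        N2 _ l' _ (by linarith [hu'.2 w' hw'])⟩
    · refine (hV k _ (sub01 l) t (sub01 ht)).mono ?_
      rintro p q ⟨h1, -, s, hs, h2⟩
      have := dist_triangle_left q (K.e k s) p
      exact ⟨by linarith, N1 s (mm l hs) _ (by linarith), N1 s (mm l hs) _ (by linarith)⟩
    · refine (hV k' _ (sub01 l') t (sub01 ht)).mono ?_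
      rintro p q ⟨h1, -, s, hs, h2⟩
      have := dist_triangle_left q (K.e k' s) p
      exact ⟨by linarith, N2 s (mm l' hs) _ (by linarith), N2 s (mm l' hs) _ (by linarith)⟩
    · refine All.lnk ⟨?_, N1 t ht _ (by rw [dist_self]; linarith),
        N2 t ht _ (by rw [dist_self]; linarith)⟩
      have := hc t (sub01 ht)
      rw [dist_comm] at this
      linarith

theorem Ini.mono {Γ : Germs K} {k : X} {u δ δ' : ℝ} (h : Γ.Ini k u δ) (hδ : δ ≤ δ') :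
    Γ.Ini k u δ' := ⟨h.1, fun w hw => (h.2 w hw).trans_le hδ⟩

theorem null_near {k k' : X} {a b r : ℝ} {c : Ch E3} (ha : 0 ≤ a) (hb : b ≤ 1)
    (hc : ∀ w ∈ Icc (0:ℝ) 1, dist (K.e k' w) (K.e k w) < r / 2)
    (h : Null (K.Bl {k'} a b (r / 2)) c) : Null (K.Bl {k} a b r) c := by
  refine h.mono ?_
  rintro B ⟨x, hx, s, hs, rfl⟩
  rw [mem_singleton_iff] at hx
  subst hx
  refine ⟨(K.e k s, r), ⟨k, rfl, s, hs, rfl⟩, closedBall_subset_closedBall' ?_⟩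
  have := hc s ⟨ha.trans hs.1, hs.2.trans hb⟩
  simp only
  linarith

theorem prims (Γ : Germs K) {r : ℝ} (hr : 0 < r) : ∃ δ0 > 0, ∀ δ ≤ δ0, ∀ δ' ≤ δ0, ∀ k ∈ Γ.G,
    ∀ k' ∈ Γ.G, ∀ (v : Vert Γ k δ) (v' : Vert Γ k' δ'), Γ.leg k' v'.u ∈ K.tube δ0 k →
    (∀ w ∈ Icc (0:ℝ) 1, dist (K.e k' w) (K.e k w) < r) ∧
    ∀ᶠ n in atTop, ∀ m : Ch E3, bd m = two (Γ.leg k v.u) (Γ.leg k' v'.u) →
      All (fun p q => dist p q ≤ δ0 ∧ p ∈ K.W ∩ K.tube δ0 k ∧ q ∈ K.W ∩ K.tube δ0 k) m →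
      (∃ F : C1, d1 F = sh (rho (ms n) (v.VP n + m + v'.VP n)) ∧ ∀ e, F e ≠ 0 →
        (5 * K.ρ 3 < ‖pt (ms n) e.2‖ ∨
          K.Near {k} (K.τ 1) (K.τ 16) (r + 3 * ms n) (pt (ms n) e.2))) ∧
      (∃ F : C1, d1 F = sh (rho (ms n) (v.VM n + m + v'.VM n)) ∧ ∀ e, F e ≠ 0 →
        (‖pt (ms n) e.2‖ ≤ K.ρ 15 + 3 * ms n ∨
          K.Near {k} (K.τ 1) (K.τ 16) (r + 3 * ms n) (pt (ms n) e.2))) := by
  obtain ⟨r17, r16, r15, r14, r13, r12, r11, r7, r6, r4, r3, r2, r1⟩ := rho_all K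
  obtain ⟨η1, hη1, H1⟩ := mid_null Γ hr
  obtain ⟨δv, hδv, H2⟩ := Γ.vert_thin (r := r / 2) (by positivity)
  obtain ⟨ε, hε, e1, e2, e3⟩ : ∃ ε > 0, ε ≤ η1 ∧ ε ≤ r / 2 ∧ ε ≤ K.ρ 17 :=
    ⟨min η1 (min (r / 2) (K.ρ 17)), by positivity, by simp, by simp, by simp⟩
  obtain ⟨η2, hη2, H3⟩ := line_close K hε
  obtain ⟨δ0, hδ0, d1', d2', d3'⟩ : ∃ δ0 > 0, δ0 ≤ η1 ∧ δ0 ≤ δv ∧ δ0 ≤ η2 / 2 :=
    ⟨min η1 (min δv (η2 / 2)), by positivity, by simp, by simp, by simp⟩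
  refine ⟨δ0, hδ0, fun δ hδ δ' hδ' k hk k' hk' v v' htube => ?_⟩
  have l := lv_16 Γ hk
  have l' := lv_16 Γ hk'
  have t56 : K.τ 15 ≤ K.τ 16 := tau_le K (by omega)
  have t25 : K.τ 2 ≤ K.τ 15 := tau_le K (by omega)
  have hc : ∀ w ∈ Icc (0:ℝ) 1, dist (K.e k' w) (K.e k w) < ε := by
    obtain ⟨s, hs, hd⟩ := htube
    refine H3 k' k (Γ.lv k') ⟨(sub01 l').1, l'.2.trans t56⟩ s hs ?_
    have a1 := v'.ini.2 v'.u ⟨v'.ini.1.1.le, le_rfl⟩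
    have a2 := dist_triangle_left (K.e k' (Γ.lv k')) (K.e k s) (Γ.leg k' v'.u)
    linarith
  refine ⟨fun w hw => by linarith [hc w hw], ?_⟩
  filter_upwards [H1 k hk k' hk' v.u v'.u (Ini.mono v.ini (by linarith))
    (Ini.mono v'.ini (by linarith)) (fun w hw => (hc w hw).trans_le e1),
    H2 δ (hδ.trans d2') k hk v, H2 δ' (hδ'.trans d2') k' hk' v', K.all_V r17,
    ms_small r17] with n hmid hv hv' hV hn m bm hm
  have hh := ms_pos n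
  set h := ms n with hdef
  have hmid' := hmid m bm (hm.mono fun p q hpq => ⟨hpq.1.trans d1',
    ⟨hpq.2.1.1, tube_mono k d1' hpq.2.1.2⟩, ⟨hpq.2.2.1, tube_mono k d1' hpq.2.2.2⟩⟩)
  have hkk : ∀ w ∈ Icc (0:ℝ) 1, dist (K.e k w) (K.e k w) < r / 2 := fun w _ => by
    rw [dist_self]; positivity
  have hc2 : ∀ w ∈ Icc (0:ℝ) 1, dist (K.e k' w) (K.e k w) < r / 2 := fun w hw =>
    (hc w hw).trans_le e2
  have t1 := K.τ_nonneg 1
  have t16 := (K.τ_lt_one 16).le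
  have z01 : (0:ℝ) ∈ Icc (0:ℝ) 1 := ⟨le_rfl, zero_le_one⟩
  have o01 : (1:ℝ) ∈ Icc (0:ℝ) 1 := ⟨zero_le_one, le_rfl⟩
  constructor
  · have N := ((null_near t1 t16 hkk hv.1).add (null_near t1 t16 hc2 hv'.1)).add
      (hmid' (K.τ 2) ⟨le_rfl, t25⟩)
    obtain ⟨F1, hF1, sF1⟩ := N.primitive hh
    have hVo : ∀ x, All (fun p q => 5 * K.ρ 3 + dist p q + 4 * h < ‖p‖) (K.V n x 0 (K.τ 2)) := by
      intro x
      refine (hV x 0 z01 _ (tau01 K 2)).mono ?_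
      rintro p q ⟨h1, -, s, hs, h2⟩
      rw [min_eq_left (K.τ_nonneg 2), max_eq_right (K.τ_nonneg 2)] at hs
      have a1 := norm_top (K := K) (i := 2) (x := x) hs.1 hs.2
      have a2 := norm_le_add' (K.e x s) p
      norm_num at a1
      linarith
    have hJo : ∀ x, All (fun p q => 5 * K.ρ 3 + dist p q + 4 * h < ‖p‖) (K.J x) := fun x =>
      (K.J_out x).mono fun p q hpq => by linarith
    have hlo : All (fun p q => 5 * K.ρ 3 + dist p q + 4 * h < ‖p‖)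
        (lnk (K.e k (K.τ 2)) (K.e k' (K.τ 2))) := by
      refine All.lnk ?_
      have a1 := norm_top (K := K) (i := 2) (x := k) (K.τ_nonneg 2) le_rfl
      have a2 := hc _ (tau01 K 2)
      rw [dist_comm] at a2
      norm_num at a1
      linarith
    have hall := ((((hlo.add (hVo k)).add (hVo k')).add (hJo k)).add (hJo k'))
    obtain ⟨F2, hF2, sF2⟩ := outer_primitive (R := 5 * K.ρ 3) hh
      (z := lnk (K.e k (K.τ 2)) (K.e k' (K.τ 2)) + K.V n k 0 (K.τ 2) + K.V n k' 0 (K.τ 2) +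
        K.J k + K.J k') (by
        simp only [map_add]
        rw [bd_lnk, K.bd_V n k z01 (tau01 K 2), K.bd_V n k' z01 (tau01 K 2), K.bd_J, K.bd_J]
        simp only [two]; ext l; simp only [Finsupp.add_apply, Finsupp.zero_apply]; clear * -; grind) (by
        intro l hl B hB
        rw [mem_singleton_iff] at hB
        subst hB
        simpa using hall l hl)
    refine ⟨F1 + F2, ?_, fun e he => ?_⟩
    · rw [d1_add, hF1, hF2, ← sh_add, ← map_add]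
      refine congrArg (fun z => sh (rho h z)) ?_
      simp only [Germs.up, Germs.Lg, Cone.V, cC]
      ext l; simp only [Finsupp.add_apply]; clear * -; grind
    · by_cases h1 : F1 e = 0
      · left
        by_contra h2
        exact he (by rw [Pi.add_apply, h1, sF2 e (not_lt.1 h2), add_zero])
      · obtain ⟨B, ⟨x, hx, s, hs, rfl⟩, hd⟩ := sF1 e h1
        exact Or.inr ⟨x, hx, s, hs, hd⟩
  · have N := ((null_near t1 t16 hkk hv.2.1).add (null_near t1 t16 hc2 hv'.2.1)).add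
      (hmid' (K.τ 15) ⟨t25, le_rfl⟩)
    have hVi : ∀ x, All (fun p q => p ∈ closedBall (0 : E3) (K.ρ 15) ∧
        q ∈ closedBall (0 : E3) (K.ρ 15)) (K.V n x (K.τ 15) 1) := by
      intro x
      refine (hV x _ (tau01 K 15) 1 o01).mono ?_
      rintro p q ⟨h1, -, s, hs, h2⟩
      rw [min_eq_left (tau01 K 15).2, max_eq_right (tau01 K 15).2] at hs
      have a1 := norm_bot (K := K) (i := 14) (x := x) hs.1 hs.2
      have a2 := norm_le_add p (K.e x s)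
      have a3 := norm_le_add' q p
      norm_num at a1
      simp only [mem_closedBall, dist_zero_right]
      constructor <;> linarith
    have hli : All (fun p q => p ∈ closedBall (0 : E3) (K.ρ 15) ∧
        q ∈ closedBall (0 : E3) (K.ρ 15)) (lnk (K.e k (K.τ 15)) (K.e k' (K.τ 15))) := by
      refine All.lnk ?_
      have a1 := norm_bot (K := K) (i := 14) (x := k) le_rfl (tau01 K 15).2
      have a2 := norm_bot (K := K) (i := 14) (x := k') le_rfl (tau01 K 15).2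
      norm_num at a1 a2
      simp only [mem_closedBall, dist_zero_right]
      constructor <;> linarith
    have N2 : Null (insert ((0 : E3), K.ρ 15) (K.Bl {k} (K.τ 1) (K.τ 16) r))
        (lnk (K.e k (K.τ 15)) (K.e k' (K.τ 15)) + K.V n k (K.τ 15) 1 + K.V n k' (K.τ 15) 1) := by
      refine null_of_ball (B := ((0 : E3), K.ρ 15)) (mem_insert _ _) ?_ ?_
      · simp only [map_add]
        rw [bd_lnk, K.bd_V n k (tau01 K 15) o01, K.bd_V n k' (tau01 K 15) o01, K.apex, K.apex]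
        simp only [two]; ext l; simp only [Finsupp.add_apply, Finsupp.zero_apply]; clear * -; grind
      · exact (hli.add (hVi k)).add (hVi k')
    have N3 := (N.mono (T' := insert ((0 : E3), K.ρ 15) (K.Bl {k} (K.τ 1) (K.τ 16) r))
      fun B hB => ⟨B, mem_insert_of_mem _ hB, Subset.rfl⟩).add N2
    obtain ⟨F, hF, sF⟩ := N3.primitive hh
    refine ⟨F, ?_, fun e he => ?_⟩
    · rw [hF]
      refine congrArg (fun z => sh (rho h z)) ?_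
      simp only [Germs.dn, Germs.Lg, Cone.V, cC]
      ext l; simp only [Finsupp.add_apply]; clear * -; grind
    · obtain ⟨B, hB, hd⟩ := sF e he
      rcases hB with rfl | ⟨x, hx, s, hs, rfl⟩
      · left; simpa using hd
      · exact Or.inr ⟨x, hx, s, hs, hd⟩

end WallH

end Pool.Agent.Lib.MP_9e71a3_gt
end

-- part Pool.Agent.Lib.MP_9e71a3_gt.WallD
section

/-! The thin wall, second part. -/

set_option autoImplicit false
set_option linter.unusedSectionVars false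

namespace Pool.Agent.Lib.MP_9e71a3_gt

open Set Metric Filter Topology

namespace WallH

variable {X : Type} [MetricSpace X] [CompactSpace X] [ConnectedSpace X] {K : Cone X}

theorem pair_split {h : ℝ} (hh : 0 < h) {T : Set (E3 × ℝ)} {z c c1 c2 : Ch E3} {F : C1}
    (hz : bd z = 0) (hF : d1 F = sh (rho h z)) (N : Null T (c + c1 + c2)) (hav : Av T (4 * h) z)
    (h1 : pair F (rho h c1) = 0) (h2 : pair F (rho h c2) = 0) : pair F (rho h c) = 0 := by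
  have a1 := Lk_null_right hh hz N hav
  rw [Lk_eq_pair hz N.bd_eq hF, map_add, map_add, map_add, map_add, h1, h2, add_zero,
    add_zero] at a1
  exact a1

theorem tube_kill {μ2 R r : ℝ} (hμ2 : 0 < μ2) (hR : 0 < R) (hr : r ≤ K.ρ 17) {η0 : ℝ}
    (hη0 : 0 < η0) (hrη : r ≤ η0 / 4)
    (far : ∀ x k, ∀ s0 ∈ Icc (0:ℝ) 1, K.e x s0 ∉ K.tube (R / 4) k →
      ∀ s ∈ Icc (0:ℝ) (K.τ 16), ∀ t ∈ Icc (0:ℝ) 1, η0 < dist (K.e k s) (K.e x t)) :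
    ∃ η > 0, ∀ μ, 0 < μ → μ ≤ η → ∀ᶠ n in atTop, ∀ (k : X) (zp zm : Ch E3) (Fp Fm : C1),
      bd zp = 0 → bd zm = 0 → All (Up K μ2) zp → All (Dn K μ2) zm →
      d1 Fp = sh (rho (ms n) zp) → d1 Fm = sh (rho (ms n) zm) →
      (∀ e, Fp e ≠ 0 → (5 * K.ρ 3 < ‖pt (ms n) e.2‖ ∨
        K.Near {k} (K.τ 1) (K.τ 16) (r + 3 * ms n) (pt (ms n) e.2))) →
      (∀ e, Fm e ≠ 0 → (‖pt (ms n) e.2‖ ≤ K.ρ 15 + 3 * ms n ∨
        K.Near {k} (K.τ 1) (K.τ 16) (r + 3 * ms n) (pt (ms n) e.2))) →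
      ∀ w : Z1, (∀ e ∈ w.support, e ∈ Dirty K (ms n) μ) →
      (∀ a ∈ (bd1 w).support, pt (ms n) a ∉ K.tube (R / 2) k) → pair (Fp + Fm) w = 0 := by
  classical
  obtain ⟨r17, r16, r15, r14, r13, r12, r11, r7, r6, r4, r3, r2, r1⟩ := rho_all K
  obtain ⟨δU, hδU, HU⟩ := K.UC (K.ρ_pos 1)
  obtain ⟨r2', hr2, f1, f2, f3⟩ : ∃ r2' > 0, r2' ≤ μ2 / 2 ∧ r2' ≤ K.ρ 17 ∧ r2' ≤ δU :=
    ⟨min (μ2 / 2) (min (K.ρ 17) δU), by positivity, by simp, by simp, by simp⟩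
  obtain ⟨η3, hη3, HP⟩ := K.proj hr2
  obtain ⟨η, hη, e1, e2, e3, e4, e5⟩ : ∃ η > 0, η ≤ η3 / 2 ∧ η ≤ K.ρ 17 ∧ η ≤ R / 8 ∧
      η ≤ η0 / 16 ∧ η ≤ μ2 / 8 :=
    ⟨min (η3 / 2) (min (K.ρ 17) (min (R / 8) (min (η0 / 16) (μ2 / 8)))), by positivity, by simp,
      by simp, by simp, by simp, by simp⟩
  refine ⟨η, hη, fun μ hμ hμη => ?_⟩
  have hch : ∀ z : E3, ∃ x : X, ∃ s : ℝ, K.Near univ (K.τ 3) (K.τ 14) (2 * μ) z →
      s ∈ Icc (K.τ 3) (K.τ 14) ∧ dist z (K.e x s) ≤ 2 * μ := by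
    intro z
    by_cases hz : K.Near univ (K.τ 3) (K.τ 14) (2 * μ) z
    · obtain ⟨x, -, s, hs, hd⟩ := hz
      exact ⟨x, s, fun _ => ⟨hs, hd⟩⟩
    · exact ⟨Classical.arbitrary X, 0, fun h => absurd h hz⟩
  choose xp sp hxs using hch
  filter_upwards [HP, K.all_V hμ, ms_small hμ] with n hP hV hn k zp zm Fp Fm bp bm up dn hFp hFm
    sp' sm' w hw hbw
  have hh := ms_pos n
  set h := ms n with hdef
  have hc := dirty_unr (η := 2 * μ) hh (by linarith) (by linarith) hμ.le hw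
  have t3 := K.τ_nonneg 3
  have t14 := (K.τ_lt_one 14).le
  have t46 : K.τ 14 ≤ K.τ 16 := tau_le K (by omega)
  have hends : ∀ p ∈ (bd (unr h w)).support, K.Near univ (K.τ 3) (K.τ 14) (2 * μ) p ∧
      ∀ s ∈ Icc (0:ℝ) (K.τ 16), ∀ t ∈ Icc (0:ℝ) 1, η0 < dist (K.e k s) (K.e (xp p) t) := by
    intro p hp
    have hn : K.Near univ (K.τ 3) (K.τ 14) (2 * μ) p := by
      obtain ⟨l, hl, rfl | rfl⟩ := mem_bd_support hp
      · exact (hc l hl).2.1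
      · exact (hc l hl).2.2
    refine ⟨hn, far _ k (sp p) (sub01 (hxs p hn).1) fun ht => ?_⟩
    rw [bd_unr] at hp
    obtain ⟨a, ha, rfl⟩ := Finset.mem_image.1 (Finsupp.mapDomain_support hp)
    exact hbw a ha (tube_near ht (hxs _ hn).2 (by linarith))
  have hvert : ∀ t ∈ Icc (0:ℝ) 1, ∀ p ∈ (bd (unr h w)).support,
      All (fun a b => ∀ y, dist y a ≤ dist a b + h → ∃ s ∈ Icc (min (sp p) t) (max (sp p) t),
        dist y (K.e (xp p) s) ≤ 5 * μ) (lnk p (K.e (xp p) (sp p)) + K.V n (xp p) (sp p) t) := by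
    intro t ht p hp
    have hn := hxs p (hends p hp).1
    refine All.add (All.lnk fun y hy => ⟨sp p, ⟨min_le_left _ _, le_max_left _ _⟩, ?_⟩) ?_
    · have := dist_triangle y p (K.e (xp p) (sp p))
      linarith [hn.2]
    · refine (hV (xp p) _ (sub01 hn.1) t ht).mono ?_
      rintro a b ⟨h1, -, s, hs, h2⟩ y hy
      have := dist_triangle y a (K.e (xp p) s)
      exact ⟨s, hs, by linarith⟩
  have hfar : ∀ p ∈ (bd (unr h w)).support, ∀ y, ∀ s ∈ Icc (0:ℝ) 1,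
      dist y (K.e (xp p) s) ≤ 5 * μ → ¬ K.Near {k} (K.τ 1) (K.τ 16) (r + 3 * h) y := by
    rintro p hp y s hs hy ⟨x, hx, s', hs', hd⟩
    rw [mem_singleton_iff] at hx
    subst hx
    have a1 := (hends p hp).2 s' ⟨(K.τ_nonneg 1).trans hs'.1, hs'.2⟩ s hs
    have a2 := dist_triangle_left (K.e x s') (K.e (xp p) s) y
    linarith
  have hproj : ∀ a b : ℝ, a ≤ K.τ 3 → K.τ 14 ≤ b →
      All (fun p q => dist p q ≤ η3 ∧ ∀ z, z = p ∨ z = q → xp z ∈ (univ : Set X) ∧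
        sp z ∈ Icc a b ∧ sp z ≤ K.τ 16 ∧ dist z (K.e (xp z) (sp z)) ≤ η3) (unr h w) := by
    intro a b ha hb
    refine hc.mono fun p q hpq => ⟨by linarith [hpq.1], fun z hz => ?_⟩
    have hn : K.Near univ (K.τ 3) (K.τ 14) (2 * μ) z := by
      rcases hz with rfl | rfl
      · exact hpq.2.1
      · exact hpq.2.2
    obtain ⟨h1, h2⟩ := hxs z hn
    exact ⟨mem_univ _, ⟨ha.trans h1.1, h1.2.trans hb⟩, h1.2.trans t46, by linarith⟩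
  have P1 : pair Fp (rho h (unr h w)) = 0 := by
    obtain ⟨-, N⟩ := hP (unr h w) xp sp univ (K.τ 3) 1 1 t3 le_rfl ⟨(tau01 K 3).2, le_rfl⟩
      (hproj _ _ le_rfl t14)
    refine pair_split hh bp hFp N (av_up up le_rfl le_rfl (by linarith) (by linarith)) ?_ ?_
    · rw [rho_lev_one, map_zero]
    · refine pair_rho_zero (S := fun y => 5 * K.ρ 3 < ‖y‖ ∨
        K.Near {k} (K.τ 1) (K.τ 16) (r + 3 * h) y) hh sp' (all_fsum _ _ fun p hp => ?_)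
      refine (hvert 1 ⟨zero_le_one, le_rfl⟩ p hp).mono fun a b hab y hy => ?_
      obtain ⟨s, hs, hd⟩ := hab y hy
      have hn := (hxs p (hends p hp).1).1
      rw [min_eq_left (sub01 hn).2, max_eq_right (sub01 hn).2] at hs
      rintro (h1 | h1)
      · have a1 := norm_bot (K := K) (i := 2) (x := xp p) (hn.1.trans hs.1) hs.2
        have a2 := norm_le_add y (K.e (xp p) s)
        norm_num at a1
        linarith
      · exact hfar p hp y s ⟨(sub01 hn).1.trans hs.1, hs.2⟩ hd h1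
  have P2 : pair Fm (rho h (unr h w)) = 0 := by
    obtain ⟨A, N⟩ := hP (unr h w) xp sp univ 0 (K.τ 14) 0 le_rfl t14 ⟨le_rfl, K.τ_nonneg 14⟩
      (hproj _ _ t3 le_rfl)
    refine pair_split hh bm hFm N (av_dn dn le_rfl le_rfl (by linarith) (by linarith)) ?_ ?_
    · refine pair_rho_zero (S := fun y => ‖y‖ ≤ K.ρ 15 + 3 * h ∨
        K.Near {k} (K.τ 1) (K.τ 16) (r + 3 * h) y) hh sm' (all_lev K (A.mono fun x y hxy z hz => ?_))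
      have z01 : (0:ℝ) ∈ Icc (0:ℝ) 1 := ⟨le_rfl, zero_le_one⟩
      have a1 := HU x y 0 z01 0 z01 (by linarith [hxy.2.2]) (by simp [hδU.le])
      have a2 := norm_top (K := K) (i := 0) (x := x) le_rfl (K.τ_nonneg 0)
      have a3 := norm_le_add' (K.e x 0) z
      norm_num at a2
      rintro (h1 | ⟨x', -, s, hs, hd⟩)
      · linarith
      · have a4 := norm_bot (K := K) (i := 0) (x := x') hs.1 (hs.2.trans (tau01 K 16).2)
        have a5 := norm_le_add z (K.e x' s)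
        norm_num at a4
        linarith
    · refine pair_rho_zero (S := fun y => ‖y‖ ≤ K.ρ 15 + 3 * h ∨
        K.Near {k} (K.τ 1) (K.τ 16) (r + 3 * h) y) hh sm' (all_fsum _ _ fun p hp => ?_)
      refine (hvert 0 ⟨le_rfl, zero_le_one⟩ p hp).mono fun a b hab y hy => ?_
      obtain ⟨s, hs, hd⟩ := hab y hy
      have hn := (hxs p (hends p hp).1).1
      rw [min_eq_right (sub01 hn).1, max_eq_left (sub01 hn).1] at hs
      rintro (h1 | h1)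
      · have a1 := norm_top (K := K) (i := 14) (x := xp p) hs.1 (hs.2.trans hn.2)
        have a2 := norm_le_add' (K.e (xp p) s) y
        norm_num at a1
        linarith
      · exact hfar p hp y s ⟨hs.1, hs.2.trans (sub01 hn).2⟩ hd h1
  rw [rho_unr hh] at P1 P2
  rw [pair_add, P1, P2, add_zero]

theorem tube_of_close {k k' : X} {r δ : ℝ}
    (hc : ∀ w ∈ Icc (0:ℝ) 1, dist (K.e k' w) (K.e k w) < r) :
    K.tube δ k' ⊆ K.tube (δ + r) k := by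
  rintro p ⟨s, hs, hd⟩
  refine ⟨s, hs, ?_⟩
  have := hc s hs
  have := dist_triangle p (K.e k' s) (K.e k s)
  linarith

theorem tube (Γ : Germs K) {R : ℝ} (hR : 0 < R) : ∃ δ0 > 0, ∀ δ ≤ δ0, ∀ δ' ≤ δ0, ∀ k ∈ Γ.G,
    ∀ k' ∈ Γ.G, ∀ (v : Vert Γ k δ) (v' : Vert Γ k' δ'),
    JoinedIn ((K.W \ K.C) ∩ K.tube δ0 k) (Γ.leg k v.u) (Γ.leg k' v'.u) →
    ∃ μ > 0, ∀ᶠ n in atTop, ∃ E : C1,
      (∀ e : Ed, pt (ms n) e.2 ∈ K.W1 → d1 E e = sh (rho (ms n) (v.vf n + v'.vf n)) e) ∧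
      ∀ e : Ed, E e ≠ 0 →
        JoinedIn (K.Wb ∩ K.clean μ ∩ K.tube R k) (Γ.leg k v.u) (pt (ms n) e.2) := by
  obtain ⟨r17, r16, r15, r14, r13, r12, r11, r7, r6, r4, r3, r2, r1⟩ := rho_all K
  obtain ⟨η0, hη0, far⟩ := line_far K (R := R / 4) (by positivity)
  obtain ⟨r, hr, g1, g2, g3⟩ : ∃ r > 0, r ≤ η0 / 4 ∧ r ≤ K.ρ 17 ∧ r ≤ R / 8 :=
    ⟨min (η0 / 4) (min (K.ρ 17) (R / 8)), by positivity, by simp, by simp, by simp⟩
  obtain ⟨δ1, hδ1, HP⟩ := prims Γ hr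
  obtain ⟨δ0, hδ0, d1', d2', d3'⟩ : ∃ δ0 > 0, δ0 ≤ δ1 ∧ δ0 ≤ K.ρ 17 ∧ δ0 ≤ R / 8 :=
    ⟨min δ1 (min (K.ρ 17) (R / 8)), by positivity, by simp, by simp, by simp⟩
  refine ⟨δ0, hδ0, fun δ hδ δ' hδ' k hk k' hk' v v' hj => ?_⟩
  obtain ⟨hclose, HP'⟩ := HP δ (hδ.trans d1') δ' (hδ'.trans d1') k hk k' hk' v v'
    (tube_mono k d1' hj.target_mem.2)
  obtain ⟨μv, hμv, Hv⟩ := vert_links v (hδ.trans d2')
  obtain ⟨μv', hμv', Hv'⟩ := vert_links v' (hδ'.trans d2')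
  obtain ⟨μj, hμj, Hj⟩ := joined_clean (K := K) hj (fun x hx => hx.1.2)
  obtain ⟨μ2, hμ2, m1, m2, m3, m4⟩ : ∃ μ2 > 0, μ2 ≤ μv ∧ μ2 ≤ μv' ∧ μ2 ≤ μj / 2 ∧ μ2 ≤ δ1 :=
    ⟨min μv (min μv' (min (μj / 2) δ1)), by positivity, by simp, by simp, by simp, by simp⟩
  obtain ⟨m, bm, hm⟩ := exists_fine_chain Hj hμ2
  obtain ⟨η, hη, Hk⟩ := tube_kill (K := K) hμ2 hR g2 hη0 g1 far
  obtain ⟨μ, hμ, n1, n2, n3, n4⟩ : ∃ μ > 0, μ ≤ η ∧ μ ≤ K.ρ 17 ∧ μ ≤ μ2 ∧ μ ≤ R / 8 :=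
    ⟨min η (min (K.ρ 17) (min μ2 (R / 8))), by positivity, by simp, by simp, by simp, by simp⟩
  refine ⟨μ / 4, by positivity, ?_⟩
  filter_upwards [Hv (μ / 8 / 2) (by positivity), Hv' (μ / 8 / 2) (by positivity), HP',
    Hk μ hμ n1, ms_small (r := μ / 16) (by positivity)] with n hv hv' hP hK hn
  obtain ⟨⟨Fp, hFp, sFp⟩, Fm, hFm, sFm⟩ := hP m bm (hm.mono fun p q hpq =>
    ⟨by linarith [hpq.2.2], ⟨hpq.1.1.1.1, tube_mono k d1' hpq.1.1.2⟩,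
      ⟨hpq.2.1.1.1.1, tube_mono k d1' hpq.2.1.1.2⟩⟩)
  have hh := ms_pos n
  set h := ms n with hdef
  have bp := bd_zp v v' n bm
  have bq := bd_zm v v' n bm
  have mcl : ∀ p q, p ∈ K.clean μj → dist p q < μ2 → K.Cl μ2 p q := fun p q h1 h2 =>
    Cl_of_clean h1 (by linarith)
  have up : All (Up K μ2) (v.VP n + m + v'.VP n) :=
    ((hv.1.mono fun p q h => h.mono m1).add
      (hm.mono fun p q h => up_of_cl (mcl p q h.1.2 h.2.2) le_rfl)).add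
      (hv'.1.mono fun p q h => h.mono m2)
  have dn : All (Dn K μ2) (v.VM n + m + v'.VM n) :=
    ((hv.2.1.mono fun p q h => h.mono m1).add
      (hm.mono fun p q h => dn_of_cl (mcl p q h.1.2 h.2.2) le_rfl h.1.1.1.1
        (W_norm_le h.2.1.1.1.1))).add
      (hv'.2.1.mono fun p q h => h.mono m2)
  have sum := zp_add_zm v v' n m
  generalize v.VP n + m + v'.VP n = zp at bp up sum hFp
  generalize v.VM n + m + v'.VM n = zm at bq dn sum hFm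
  obtain ⟨f, hf0, hf⟩ := graph_potential (Fp + Fm) (Dirty K h μ)
    {a | pt h a ∉ K.tube (R / 2) k} (fun w hw hbw =>
      hK k zp zm Fp Fm bp bq up dn hFp hFm sFp sFm w hw hbw)
  have hO : K.Wv ∩ K.clean μv ∩ K.tube δ k ⊆ K.Wb ∩ K.clean (μ / 4) ∩ K.tube R k := fun x hx =>
    ⟨⟨K.Wv_sub_Wb hx.1.1, clean_mono (by linarith) hx.1.2⟩, tube_mono k (by linarith) hx.2⟩
  have hO' : K.Wv ∩ K.clean μv' ∩ K.tube δ' k' ⊆ K.Wb ∩ K.clean (μ / 4) ∩ K.tube R k :=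
    fun x hx => ⟨⟨K.Wv_sub_Wb hx.1.1, clean_mono (by linarith) hx.1.2⟩,
      tube_mono k (by linarith) (tube_of_close hclose hx.2)⟩
  have hJ : JoinedIn (K.Wb ∩ K.clean (μ / 4) ∩ K.tube R k) (Γ.leg k v.u) (Γ.leg k' v'.u) :=
    Hj.mono fun x hx => ⟨⟨K.Wv_sub_Wb (K.W_sub_Wv hx.1.1.1), clean_mono (by linarith) hx.2⟩,
      tube_mono k (by linarith) hx.1.2⟩
  have hnear : ∀ y, K.Near {k} (K.τ 1) (K.τ 16) (r + 3 * h) y → y ∈ K.tube (5 * R / 8) k := by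
    rintro y ⟨x, hx, s, hs, hd⟩
    rw [mem_singleton_iff] at hx
    subst hx
    exact ⟨s, sub01 hs, by linarith⟩
  refine finish (μ := μ) (ν := μ / 8) (T1 := K.tube (3 * R / 4) k) (T2 := K.tube (5 * R / 8) k)
    (E1 := Fp + Fm + d0 f) hh (by linarith) (by linarith) (by linarith)
    (fun x hx y hy => tube_near hx hy (by linarith))
    (fun x hx y hy => tube_near hx hy (by linarith)) ?_ ?_ ?_
  · rw [d1_add, d1_add, d1_d0, add_zero, hFp, hFm, ← sh_add, ← map_add, sum]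
  · intro e h1 h2 h3
    rcases h3 with h3 | h3
    · have := hf e ⟨h3, h1, h2⟩
      rw [Pi.add_apply, this, z2_add_self]
    · have a1 : Fp e = 0 := by
        by_contra hne
        rcases sFp e hne with h4 | h4
        · linarith
        · exact h3 (hnear _ h4)
      have a2 : Fm e = 0 := by
        by_contra hne
        rcases sFm e hne with h4 | h4
        · linarith
        · exact h3 (hnear _ h4)
      have a3 : f e.2 = 0 := hf0 _ fun h4 => h3 (tube_mono k (by linarith) h4)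
      have a4 : f (e.2 + ee e.1) = 0 := hf0 _ fun h4 => h3 (tube_near (ν := h) h4
        (by rw [dist_comm, dist_pt_ee hh]) (by linarith))
      simp only [Pi.add_apply, a1, a2, d0, a3, a4, add_zero]
  · exact (hv.2.2.mono fun p q h => h.mono hO (JoinedIn.refl hJ.source_mem)).add
      (hv'.2.2.mono fun p q h => h.mono hO' hJ)

end WallH

end Pool.Agent.Lib.MP_9e71a3_gt
end

-- part Pool.Agent.Lib.MP_9e71a3_gt.WallE
section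

/-! Evaluation of a clean wall. -/

set_option autoImplicit false
set_option linter.unusedSectionVars false

namespace Pool.Agent.Lib.MP_9e71a3_gt

open Set Metric Filter Topology

namespace WallH

variable {X : Type} [MetricSpace X] [CompactSpace X] [ConnectedSpace X] {K : Cone X}

theorem av_add {T : Set (E3 × ℝ)} {m : ℝ} {c c' : Ch E3} (h : Av T m c) (h' : Av T m c') :
    Av T m (c + c') := av_iff_all.2 ((av_iff_all.1 h).add (av_iff_all.1 h'))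

theorem av_of_all {x : X} {a b r m : ℝ} {c : Ch E3}
    (h : All (fun p q => ∀ s ∈ Icc a b, r + dist p q + m < dist p (K.e x s)) c) :
    Av (K.Bl {x} a b r) m c := by
  rintro l hl B ⟨y, hy, s, hs, rfl⟩
  rw [mem_singleton_iff] at hy
  subst hy
  exact h l hl s hs

theorem not_tube {r : ℝ} {x : X} {p : E3} (h : p ∉ K.tube r x) {s : ℝ} (hs : s ∈ Icc (0:ℝ) 1) :
    r ≤ dist p (K.e x s) := by
  by_contra hlt
  exact h ⟨s, hs, not_le.1 hlt⟩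

theorem av_line (Γ : Germs K) {r : ℝ} (hr : 0 < r) : ∃ r2 > 0, r2 ≤ r / 4 ∧ ∀ y ∈ Γ.G,
    ∀ᶠ n in atTop, ∀ x, ∀ u ∈ Ioc (0:ℝ) 1, (∀ w ∈ Icc 0 u, Γ.leg y w ∉ K.tube r x) →
      Av (K.Bl {x} (K.τ 1) (K.τ 16) r2) (4 * ms n) (Γ.Lg n y 0 u) ∧
      (∀ s ∈ Icc (0:ℝ) 1, ∀ t ∈ Icc (0:ℝ) 1,
        Av (K.Bl {x} (K.τ 1) (K.τ 16) r2) (4 * ms n) (K.V n y s t)) ∧
      Av (K.Bl {x} (K.τ 1) (K.τ 16) r2) (4 * ms n) (K.J y) := by
  obtain ⟨η0, hη0, far⟩ := line_far K hr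
  have r1 := K.ρ_pos 1
  obtain ⟨r2, hr2, g1, g2, g3⟩ : ∃ r2 > 0, r2 ≤ r / 4 ∧ r2 ≤ η0 / 4 ∧ r2 ≤ K.ρ 1 :=
    ⟨min (r / 4) (min (η0 / 4) (K.ρ 1)), by positivity, by simp, by simp, by simp⟩
  refine ⟨r2, hr2, g1, fun y hy => ?_⟩
  filter_upwards [K.all_V hr2, Γ.all_Lg y hr2, ms_small (r := r2 / 4) (by positivity)]
    with n hV hL hn x u hu hleg
  refine ⟨av_of_all ?_, fun s hs t ht => av_of_all ?_, av_of_all ?_⟩
  · refine (hL 0 ⟨le_rfl, zero_le_one⟩ u ⟨hu.1.le, hu.2⟩).mono ?_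
    rintro p q ⟨h1, ⟨w, hw, rfl⟩, -⟩ s hs
    rw [max_eq_right hu.1.le] at hw
    have := not_tube (hleg w hw) (sub01 hs)
    linarith
  · refine (hV y s hs t ht).mono ?_
    rintro p q ⟨h1, ⟨w, hw, rfl⟩, -⟩ s' hs'
    have h0 := hleg 0 ⟨le_rfl, hu.1.le⟩
    rw [Γ.leg_zero y hy] at h0
    have := far y x _ (Γ.lv_mem01 hy) h0 s' ⟨(sub01 hs').1, hs'.2⟩ w hw
    rw [dist_comm] at this
    linarith
  · refine (K.J_out y).mono fun p q hpq s hs => ?_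
    have a1 := norm_bot (K := K) (i := 0) (x := x) hs.1 (sub01 hs).2
    have a2 := norm_le_add p (K.e x s)
    norm_num at a1
    linarith

theorem mem_W_of_near {x : X} {s : ℝ} {p : E3} (hs : s ∈ Icc (K.τ 7) (K.τ 10))
    (hd : dist p (K.e x s) ≤ K.ρ 17) : p ∈ K.W := by
  obtain ⟨r17, r16, r15, r14, r13, r12, r11, r7, r6, r4, r3, r2, r1⟩ := rho_all K
  have a1 := norm_bot (K := K) (i := 6) (x := x) hs.1 (sub01 hs).2
  have a2 := norm_top (K := K) (i := 10) (x := x) (sub01 hs).1 hs.2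
  have a3 := norm_le_add p (K.e x s)
  have a4 := norm_le_add' (K.e x s) p
  norm_num at a1 a2
  constructor <;> linarith

theorem crn_eq (Γ : Germs K) (n : ℕ) (a b c d : X) : Γ.crn n a b c d =
    Lk (ms n) (Γ.up n a + Γ.up n b) (Γ.dn n c + Γ.dn n d) +
      Lk (ms n) (Γ.dn n a + Γ.dn n b) (Γ.up n c + Γ.up n d) := by
  simp only [Germs.crn, Germs.betan, Lk_add_left, Lk_add_right]
  ring

theorem tv_alg {h : ℝ} {Ap Am zp zm lm lp γ l N1 N2 N3 N4 N5 N6 N7 N8 : Ch E3}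
    (e1 : Ap = zp + N1 + N2) (e2 : Am = zm + N3 + N4) (e3 : l = lm + N5 + N6)
    (e4 : l = lp + N7 + N8) (h1 : Lk h N1 lm = 0) (h2 : Lk h N2 lm = 0) (h3 : Lk h N3 lp = 0)
    (h4 : Lk h N4 lp = 0) (h5 : Lk h zp N5 = 0) (h6 : Lk h zp N6 = 0) (h7 : Lk h zm N7 = 0)
    (h8 : Lk h zm N8 = 0) (h9 : Lk h (Ap + Am) γ = 0) :
    Lk h (zp + zm) l = Lk h Ap (lm + γ) + Lk h Am (lp + γ) := by
  have a1 : Lk h zp l = Lk h Ap lm := by
    rw [e1, e3]; simp only [Lk_add_left, Lk_add_right, h1, h2, h5, h6, add_zero]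
  have a2 : Lk h zm l = Lk h Am lp := by
    rw [e2, e4]; simp only [Lk_add_left, Lk_add_right, h3, h4, h7, h8, add_zero]
  rw [Lk_add_left] at h9
  rw [Lk_add_left, a1, a2, Lk_add_right, Lk_add_right]
  linear_combination -h9

theorem tv (Γ : Germs K) {r : ℝ} (hr : 0 < r) : ∃ δ0 > 0, ∀ δ ≤ δ0, ∀ δ' ≤ δ0, ∀ a ∈ Γ.G,
    ∀ b ∈ Γ.G, ∀ c ∈ Γ.G, ∀ d ∈ Γ.G, Γ.dom a = Γ.dom b → Γ.dom c = Γ.dom d →
    ∀ (v : Vert Γ a δ) (v' : Vert Γ b δ'), ∀ u ∈ Ioc (0:ℝ) 1, ∀ u' ∈ Ioc (0:ℝ) 1,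
    (∀ w ∈ Icc 0 u, Γ.leg c w ∉ K.tube r a ∪ K.tube r b) →
    (∀ w ∈ Icc 0 u', Γ.leg d w ∉ K.tube r a ∪ K.tube r b) →
    ∀ μ > 0, ∀ μ' > 0, ∀ᶠ n in atTop, ∀ E : C1,
      (∀ e : Ed, pt (ms n) e.2 ∈ K.W1 → d1 E e = sh (rho (ms n) (v.vf n + v'.vf n)) e) →
      (∀ e : Ed, pt (ms n) e.2 ∈ K.W2 → pt (ms n) e.2 ∉ K.clean μ' → E e = 0) →
      ∀ m : Ch E3, bd m = two (Γ.leg c u) (Γ.leg d u') →
      All (fun p q => K.Cl μ p q ∧ p ∈ K.W ∧ dist p q ≤ K.ρ 13 ∧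
        p ∉ K.tube (r + dist p q) a ∪ K.tube (r + dist p q) b) m →
      pair E (rho (ms n) (Γ.Lg n c 0 u + m + Γ.Lg n d 0 u')) = Γ.crn n a b c d := by
  obtain ⟨r17, r16, r15, r14, r13, r12, r11, r7, r6, r4, r3, r2, r1⟩ := rho_all K
  obtain ⟨r2', hr2, g1, HA⟩ := av_line Γ hr
  obtain ⟨δv, hδv, HT⟩ := Γ.vert_thin hr2
  refine ⟨min δv (K.ρ 17), by positivity, fun δ hδ δ' hδ' a ha b hb c hc d hd hab hcd v v' u hu
    u' hu' hlc hld μ hμ μ' hμ' => ?_⟩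
  rw [le_min_iff] at hδ hδ'
  obtain ⟨μv, hμv, Hv⟩ := vert_links v hδ.2
  obtain ⟨μv', hμv', Hv'⟩ := vert_links v' hδ'.2
  obtain ⟨μa, hμa, Ha⟩ := Γ.Lg_clean ha v.ini.1
  obtain ⟨μb, hμb, Hb⟩ := Γ.Lg_clean hb v'.ini.1
  obtain ⟨μc, hμc, Hc⟩ := Γ.Lg_clean hc hu
  obtain ⟨μd, hμd, Hd⟩ := Γ.Lg_clean hd hu'
  obtain ⟨μ2, hμ2, m1, m2, m3, m4, m5, m6, m7, m8⟩ : ∃ μ2 > 0, μ2 ≤ μv ∧ μ2 ≤ μv' ∧ μ2 ≤ μa ∧
      μ2 ≤ μb ∧ μ2 ≤ μc ∧ μ2 ≤ μd ∧ μ2 ≤ μ ∧ μ2 ≤ K.ρ 17 :=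
    ⟨min μv (min μv' (min μa (min μb (min μc (min μd (min μ (K.ρ 17))))))), by positivity,
      by simp, by simp, by simp, by simp, by simp, by simp, by simp, by simp⟩
  obtain ⟨η1, hη1, HS⟩ := K.sweep (r := μ2 / 2) (by positivity)
  obtain ⟨r3', hr3, k1, k2, k3, k4⟩ : ∃ r3' > 0, r3' ≤ μ' / 2 ∧ r3' ≤ K.ρ 17 ∧ r3' ≤ μ2 / 2 ∧
      r3' ≤ r / 2 :=
    ⟨min (μ' / 2) (min (K.ρ 17) (min (μ2 / 2) (r / 2))), by positivity, by simp, by simp, by simp,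
      by simp⟩
  obtain ⟨δU, hδU, HU⟩ := K.UC hr3
  obtain ⟨κ, bκ, hκ⟩ := Cone.exists_xchain (η := min η1 δU) (by positivity) c d
  filter_upwards [HA c hc, HA d hd, HT δ hδ.1 a ha v, HT δ' hδ'.1 b hb v', Hv 1 one_pos,
    Hv' 1 one_pos, Ha, Hb, Hc, Hd, HS, K.cloop hμ2, K.all_V hr3, Γ.all_Lg c hr3, Γ.all_Lg d hr3,
    ms_small (r := r3' / 4) (by positivity)] with n hAc hAd hTa hTb hv hv' hLa hLb hLc hLd hS hloop
    hV hGc hGd hn E hE hE0 m bm hm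
  have hh := ms_pos n
  have z01 : (0:ℝ) ∈ Icc (0:ℝ) 1 := ⟨le_rfl, zero_le_one⟩
  have o01 : (1:ℝ) ∈ Icc (0:ℝ) 1 := ⟨zero_le_one, le_rfl⟩
  have u01 : u ∈ Icc (0:ℝ) 1 := ⟨hu.1.le, hu.2⟩
  have u01' : u' ∈ Icc (0:ℝ) 1 := ⟨hu'.1.le, hu'.2⟩
  have lc := Γ.lv_mem01 hc
  have ld := Γ.lv_mem01 hd
  have t8 := tau01 K 8
  have t78 : K.τ 8 ∈ Icc (K.τ 7) (K.τ 10) := ⟨tau_le K (by omega), tau_le K (by omega)⟩
  -- the two halves
  have bm0 := bd_LgLg Γ n ha hb hab v.ini.1 v'.ini.1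
  have bp := bd_zp v v' n bm0
  have bq := bd_zm v v' n bm0
  have up : All (Up K μ2) (v.VP n + (Γ.Lg n a v.u 1 + Γ.Lg n b v'.u 1) + v'.VP n) :=
    ((hv.1.mono fun p q h => h.mono m1).add ((hLa.mono fun p q h => up_of_cl h.1 m3).add
      (hLb.mono fun p q h => up_of_cl h.1 m4))).add (hv'.1.mono fun p q h => h.mono m2)
  have dn : All (Dn K μ2) (v.VM n + (Γ.Lg n a v.u 1 + Γ.Lg n b v'.u 1) + v'.VM n) :=
    ((hv.2.1.mono fun p q h => h.mono m1).add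
      ((hLa.mono fun p q h => dn_of_cl h.1 m3 h.2.1 (W_norm_le h.2.2)).add
      (hLb.mono fun p q h => dn_of_cl h.1 m4 h.2.1 (W_norm_le h.2.2)))).add
      (hv'.2.1.mono fun p q h => h.mono m2)
  have sum := zp_add_zm v v' n (Γ.Lg n a v.u 1 + Γ.Lg n b v'.u 1)
  -- the dirty closing chain
  have hκU : ∀ t ∈ Icc (0:ℝ) 1, All (fun x y => dist (K.e x t) (K.e y t) < r3') κ := fun t ht =>
    hκ.mono fun x y hxy => HU x y t ht t ht (hxy.le.trans (min_le_right _ _)) (by simp [hδU.le])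
  have hVD : ∀ x, ∀ s ∈ Icc (K.τ 7) (K.τ 10), ∀ t ∈ Icc (K.τ 7) (K.τ 10),
      All (fun p q => dist p q < r3' ∧ (∃ x, ∃ s ∈ Icc (0:ℝ) 1, p = K.e x s) ∧ p ∈ K.W)
        (K.V n x s t) := by
    intro x s hs t ht
    refine (hV x s (sub01 hs) t (sub01 ht)).mono ?_
    rintro p q ⟨h1, ⟨w, hw, hp⟩, w', hw', h2⟩
    exact ⟨h1, ⟨x, w, hw, hp⟩, mem_W_of_near (x := x)
      ⟨(le_min hs.1 ht.1).trans hw'.1, hw'.2.trans (max_le hs.2 ht.2)⟩ (by linarith)⟩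
  have hD : All (fun p q => dist p q < r3' ∧ (∃ x, ∃ s ∈ Icc (0:ℝ) 1, p = K.e x s) ∧ p ∈ K.W)
      (K.V n c (Γ.lv c) (K.τ 8) + K.lev (K.τ 8) κ + K.V n d (K.τ 8) (Γ.lv d)) := by
    refine ((hVD c _ (Γ.lv_mem c hc) _ t78).add (all_lev K ?_)).add (hVD d _ t78 _ (Γ.lv_mem d hd))
    exact (hκU _ t8).mono fun x y hxy => ⟨hxy, ⟨x, _, t8, rfl⟩,
      mem_W_of_near (x := x) t78 (by rw [dist_self]; exact r17.le)⟩
  have S1 : pair E (rho (ms n)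
      (K.V n c (Γ.lv c) (K.τ 8) + K.lev (K.τ 8) κ + K.V n d (K.τ 8) (Γ.lv d))) = 0 := by
    refine pair_rho_zero (S := fun y => y ∈ K.W2 → y ∈ K.clean μ') hh (fun e he h2 => ?_) ?_
    · by_contra h3
      exact he (hE0 e h2 h3)
    · refine hD.mono ?_
      rintro p q ⟨h1, ⟨x, s, hs, rfl⟩, hW⟩ y hy hS
      have a1 := norm_le_add y (K.e x s)
      have a2 := norm_le_add' (K.e x s) y
      exact dirty_of_near (x := x) hs (by linarith)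
        (hS ⟨by linarith [hW.1], by linarith [hW.2]⟩)
  have bB : bd (Γ.Lg n c 0 u + m + Γ.Lg n d 0 u') = two (K.e c (Γ.lv c)) (K.e d (Γ.lv d)) := by
    rw [map_add, map_add, bd_Lg Γ n c z01 u01, bd_Lg Γ n d z01 u01', bm, Γ.leg_zero c hc,
      Γ.leg_zero d hd]
    simp only [two]; ext l; simp only [Finsupp.add_apply]; clear * -; grind
  have hGW : ∀ x ∈ Γ.G, ∀ w ∈ Icc (0:ℝ) 1, All (fun p q => dist p q < r3' ∧
      (∃ w' ∈ Icc (0:ℝ) (max 0 w), p = Γ.leg x w') ∧ (∃ w' ∈ Icc (0:ℝ) (max 0 w), q = Γ.leg x w') ∧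
      ∃ w' ∈ Icc (min 0 w) (max 0 w), dist p (Γ.leg x w') < r3') (Γ.Lg n x 0 w) →
      All (fun p q => p ∈ K.W ∧ dist p q ≤ K.ρ 13) (Γ.Lg n x 0 w) := by
    intro x hx w hw hall
    refine hall.mono ?_
    rintro p q ⟨h1, ⟨w', hw', rfl⟩, -⟩
    rw [max_eq_right hw.1] at hw'
    exact ⟨Γ.leg_mem_W hx ⟨hw'.1, hw'.2.trans hw.2⟩, by linarith⟩
  have hBW : All (fun p q => p ∈ K.W ∧ dist p q ≤ K.ρ 13) (Γ.Lg n c 0 u + m + Γ.Lg n d 0 u') :=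
    ((hGW c hc u u01 (hGc 0 z01 u u01)).add (hm.mono fun p q h => ⟨h.2.1, h.2.2.1⟩)).add
      (hGW d hd u' u01' (hGd 0 z01 u' u01'))
  -- avoidance of the thin tubes
  have hmav : ∀ x, All (fun p q => p ∉ K.tube (r + dist p q) x) m →
      Av (K.Bl {x} (K.τ 1) (K.τ 16) r2') (4 * ms n) m := fun x hx =>
    av_of_all (hx.mono fun p q hpq s hs => by linarith [not_tube hpq (sub01 hs)])
  have hAv : ∀ x, (∀ w ∈ Icc 0 u, Γ.leg c w ∉ K.tube r x) → (∀ w ∈ Icc 0 u', Γ.leg d w ∉ K.tube r x) →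
      All (fun p q => p ∉ K.tube (r + dist p q) x) m →
      Av (K.Bl {x} (K.τ 1) (K.τ 16) r2') (4 * ms n) (Γ.Lg n c 0 u + m + Γ.Lg n d 0 u' +
        K.V n c (Γ.lv c) 1 + K.V n d (Γ.lv d) 1) ∧
      Av (K.Bl {x} (K.τ 1) (K.τ 16) r2') (4 * ms n) (Γ.Lg n c 0 u + m + Γ.Lg n d 0 u' +
        K.V n c 0 (Γ.lv c) + K.J c + K.V n d 0 (Γ.lv d) + K.J d) := by
    intro x h1 h2 h3
    obtain ⟨a1, a2, a3⟩ := hAc x u hu h1
    obtain ⟨b1, b2, b3⟩ := hAd x u' hu' h2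
    have a0 := av_add (av_add a1 (hmav x h3)) b1
    exact ⟨av_add (av_add a0 (a2 _ lc _ o01)) (b2 _ ld _ o01),
      av_add (av_add (av_add (av_add a0 (a2 _ z01 _ lc)) a3) (b2 _ z01 _ ld)) b3⟩
  obtain ⟨avam, avap⟩ := hAv a (fun w hw h => hlc w hw (Or.inl h))
    (fun w hw h => hld w hw (Or.inl h)) (hm.mono fun p q h h' => h.2.2.2 (Or.inl h'))
  obtain ⟨avbm, avbp⟩ := hAv b (fun w hw h => hlc w hw (Or.inr h))
    (fun w hw h => hld w hw (Or.inr h)) (hm.mono fun p q h h' => h.2.2.2 (Or.inr h'))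
  have blm : bd (Γ.Lg n c 0 u + m + Γ.Lg n d 0 u' + K.V n c (Γ.lv c) 1 + K.V n d (Γ.lv d) 1) = 0 := by
    rw [map_add, map_add, bB, K.bd_V n c lc o01, K.bd_V n d ld o01, K.apex, K.apex]
    simp only [two]; ext l; simp only [Finsupp.add_apply, Finsupp.zero_apply]; clear * -; grind
  have blp : bd (Γ.Lg n c 0 u + m + Γ.Lg n d 0 u' + K.V n c 0 (Γ.lv c) + K.J c +
      K.V n d 0 (Γ.lv d) + K.J d) = 0 := by
    rw [map_add, map_add, map_add, map_add, bB, K.bd_V n c z01 lc, K.bd_V n d z01 ld, K.bd_J,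
      K.bd_J]
    simp only [two]; ext l; simp only [Finsupp.add_apply, Finsupp.zero_apply]; clear * -; grind
  have bl : bd (Γ.Lg n c 0 u + m + Γ.Lg n d 0 u' +
      (K.V n c (Γ.lv c) (K.τ 8) + K.lev (K.τ 8) κ + K.V n d (K.τ 8) (Γ.lv d))) = 0 := by
    rw [map_add, bB, map_add, map_add, K.bd_V n c lc t8, K.bd_V n d t8 ld, bd_lev_two K _ bκ]
    simp only [two]; ext l; simp only [Finsupp.add_apply, Finsupp.zero_apply]; clear * -; grind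
  -- the shell
  have bvf : bd (v.vf n + v'.vf n) = 0 := by rw [map_add, v.bd_vf, v'.bd_vf, fs_add_self]
  have S2 := shell (r := K.ρ 14 / 2) (R := 2 * K.ρ 4) hh
    (a := E + KK (rho (ms n) (v.vf n + v'.vf n))) (fun e h1 h2 => by
      rw [d1_add, Pi.add_apply, hE e ⟨h1, h2⟩, d1_KK (by
        rw [bd1_rho, bvf, Finsupp.mapDomain_zero]), z2_add_self]) bl
    ((hBW.add (hD.mono fun p q h => ⟨h.2.2, by linarith [h.1]⟩)).mono fun p q h =>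
      ⟨by linarith [h.1.1, h.2], by linarith [h.1.2, h.2]⟩)
  -- the sweeps
  have hκs : All (fun x y => x ∈ (univ : Set X) ∧ dist x y ≤ η1) κ :=
    hκ.mono fun x y hxy => ⟨mem_univ _, hxy.le.trans (min_le_left _ _)⟩
  have N5 := hS κ univ hκs _ t8 1 o01
  have N7 := hS κ univ hκs 0 z01 _ t8
  rw [bκ, sum_two] at N5 N7
  rw [min_eq_left t8.2, max_eq_right t8.2] at N5
  rw [min_eq_left t8.1, max_eq_right t8.1] at N7
  have h5 := Lk_null_right hh bp N5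
    (av_up up (tau_le K (by omega)) le_rfl (by linarith) (by linarith))
  have h7 := Lk_null_right hh bq N7
    (av_dn dn le_rfl (tau_le K (by omega)) (by linarith) (by linarith))
  have h6 : Lk (ms n) (v.VP n + (Γ.Lg n a v.u 1 + Γ.Lg n b v'.u 1) + v'.VP n) (K.lev 1 κ) = 0 := by
    rw [Lk, rho_lev_one, map_zero]
  have hout : All (fun p q => 4 * K.ρ 1 + dist p q + 4 * ms n < ‖p‖)
      (K.lev 0 κ + K.J c + K.J d) := by
    refine All.add (All.add (all_lev K ((hκU 0 z01).mono fun x y hxy => ?_))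
      ((K.J_out c).mono fun p q h => by linarith)) ((K.J_out d).mono fun p q h => by linarith)
    have a1 := norm_top (K := K) (i := 0) (x := x) le_rfl (K.τ_nonneg 0)
    norm_num at a1
    linarith
  have h8 := Lk_null_left hh (null_dn dn bq) (w := K.lev 0 κ + K.J c + K.J d) (by
      rw [map_add, map_add, bd_lev_two K _ bκ, K.bd_J, K.bd_J]
      simp only [two]; ext l; simp only [Finsupp.add_apply, Finsupp.zero_apply]; clear * -; grind) (by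
      intro l hl B hB
      rw [mem_singleton_iff] at hB
      subst hB
      simpa using hout l hl)
  -- the clean loop
  have hcl : ∀ {μ0 : ℝ} {z : Ch E3}, μ2 ≤ μ0 →
      All (fun p q => K.Cl μ0 p q ∧ p ∈ K.W ∧ q ∈ K.W) z →
      All (fun p q => K.Cl μ2 p q ∧ ‖p‖ ≤ K.ρ 1 ∧ ‖q‖ ≤ K.ρ 1) z := fun h1 h2 =>
    h2.mono fun p q h => ⟨Cl_mono h.1 h1, by linarith [h.2.1.2], by linarith [h.2.2.2]⟩
  have h9 := (hloop (Γ.Lg n c u 1 + m + Γ.Lg n d u' 1) (by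
      rw [add_right_comm, map_add, bd_LgLg Γ n hc hd hcd hu hu', bm, fs_add_self])
    (((hcl m5 hLc).add (hm.mono fun p q h => ⟨Cl_mono h.1 m7, by linarith [h.2.1.2],
      by linarith [h.2.1.2, h.2.2.1, norm_le_add' q p]⟩)).add (hcl m6 hLd)) a b).2
  have key := tv_alg (Ap := Γ.up n a + Γ.up n b) (Am := Γ.dn n a + Γ.dn n b)
    (γ := Γ.Lg n c u 1 + m + Γ.Lg n d u' 1)
    (l := Γ.Lg n c 0 u + m + Γ.Lg n d 0 u' +
      (K.V n c (Γ.lv c) (K.τ 8) + K.lev (K.τ 8) κ + K.V n d (K.τ 8) (Γ.lv d)))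
    (by ext l; simp only [Finsupp.add_apply]; clear * -; grind)
    (by ext l; simp only [Finsupp.add_apply]; clear * -; grind)
    (by simp only [Cone.V, cC]; ext l; simp only [Finsupp.add_apply]; clear * -; grind)
    (by simp only [Cone.V, cC]; ext l; simp only [Finsupp.add_apply]; clear * -; grind)
    (Lk_null_left hh hTa.1 blm avam) (Lk_null_left hh hTb.1 blm avbm)
    (Lk_null_left hh hTa.2.1 blp avap) (Lk_null_left hh hTb.2.1 blp avbp) h5 h6 h7 h8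
    (by rw [add_add_add_comm, Γ.up_add_dn, Γ.up_add_dn]; exact h9)
  have i1 : Γ.dn n c + Γ.dn n d = Γ.Lg n c 0 u + m + Γ.Lg n d 0 u' + K.V n c (Γ.lv c) 1 +
      K.V n d (Γ.lv d) 1 + (Γ.Lg n c u 1 + m + Γ.Lg n d u' 1) := by
    simp only [Germs.dn, Germs.Lg, cC]; ext l; simp only [Finsupp.add_apply]; clear * -; grind
  have i2 : Γ.up n c + Γ.up n d = Γ.Lg n c 0 u + m + Γ.Lg n d 0 u' + K.V n c 0 (Γ.lv c) + K.J c +
      K.V n d 0 (Γ.lv d) + K.J d + (Γ.Lg n c u 1 + m + Γ.Lg n d u' 1) := by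
    simp only [Germs.up, Germs.Lg, cC]; ext l; simp only [Finsupp.add_apply]; clear * -; grind
  rw [crn_eq, i1, i2, ← key, sum]
  rw [pair_add, map_add (rho (ms n)) (Γ.Lg n c 0 u + m + Γ.Lg n d 0 u'), map_add (pair E), S1,
    add_zero, ← map_add (rho (ms n))] at S2
  unfold Lk
  have := z2_add_self (pair (KK (rho (ms n) (v.vf n + v'.vf n))) (rho (ms n)
    (Γ.Lg n c 0 u + m + Γ.Lg n d 0 u' +
      (K.V n c (Γ.lv c) (K.τ 8) + K.lev (K.τ 8) κ + K.V n d (K.τ 8) (Γ.lv d)))))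
  linear_combination S2 - this

end WallH

end Pool.Agent.Lib.MP_9e71a3_gt
end

-- part Pool.Agent.Lib.MP_9e71a3_gt.Wall
section

/-! Walls between verticals and their relation with the crossing form.  JOB Wall. -/

set_option autoImplicit false
set_option linter.unusedSectionVars false

namespace Pool.Agent.Lib.MP_9e71a3_gt

open Set Metric Filter Topology

/-- `E` bounds `c` on the shell, and inside the shell it is supported on points that are joined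
to `p` through `μ`-clean points of `T` -/
structure IsWall {X : Type} [MetricSpace X] (K : Cone X) (n : ℕ) (E : C1) (c : Ch E3) (T : Set E3)
    (p : E3) (μ : ℝ) : Prop where
  eq : ∀ e : Ed, pt (ms n) e.2 ∈ K.W1 → d1 E e = sh (rho (ms n) c) e
  supp : ∀ e : Ed, pt (ms n) e.2 ∈ K.W2 → E e ≠ 0 →
    JoinedIn (K.Wb ∩ K.clean μ ∩ T) p (pt (ms n) e.2)

namespace Germs
variable {X : Type} [MetricSpace X] [CompactSpace X] [ConnectedSpace X] {K : Cone X} (Γ : Germs K)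

theorem wall_fat : ∃ δ0 > 0, ∀ δ ≤ δ0, ∀ δ' ≤ δ0, ∀ k ∈ Γ.G, ∀ k' ∈ Γ.G, Γ.dom k = Γ.dom k' →
    ∀ (v : Vert Γ k δ) (v' : Vert Γ k' δ'), ∃ μ > 0, ∀ᶠ n in atTop, ∃ E,
      IsWall K n E (v.vf n + v'.vf n) univ (Γ.leg k v.u) μ := by
  obtain ⟨δ0, hδ0, H⟩ := WallH.fat Γ
  refine ⟨δ0, hδ0, fun δ hδ δ' hδ' k hk k' hk' hd v v' => ?_⟩
  obtain ⟨μ, hμ, H'⟩ := H δ hδ δ' hδ' k hk k' hk' hd v v'
  refine ⟨μ, hμ, H'.mono ?_⟩
  rintro n ⟨E, h1, h2⟩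
  exact ⟨E, h1, fun e _ he => h2 e he⟩

theorem wall_tube {R : ℝ} (hR : 0 < R) : ∃ δ0 > 0, ∀ δ ≤ δ0, ∀ δ' ≤ δ0, ∀ k ∈ Γ.G, ∀ k' ∈ Γ.G,
    ∀ (v : Vert Γ k δ) (v' : Vert Γ k' δ'),
    JoinedIn ((K.W \ K.C) ∩ K.tube δ0 k) (Γ.leg k v.u) (Γ.leg k' v'.u) →
    ∃ μ > 0, ∀ᶠ n in atTop, ∃ E, IsWall K n E (v.vf n + v'.vf n) (K.tube R k) (Γ.leg k v.u) μ := by
  obtain ⟨δ0, hδ0, H⟩ := WallH.tube Γ hR
  refine ⟨δ0, hδ0, fun δ hδ δ' hδ' k hk k' hk' v v' hj => ?_⟩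
  obtain ⟨μ, hμ, H'⟩ := H δ hδ δ' hδ' k hk k' hk' v v' hj
  refine ⟨μ, hμ, H'.mono ?_⟩
  rintro n ⟨E, h1, h2⟩
  exact ⟨E, h1, fun e _ he => h2 e he⟩

/-- TV: a clean wall between thin verticals evaluates to the crossing form -/
theorem tv {r : ℝ} (hr : 0 < r) : ∃ δ0 > 0, ∀ δ ≤ δ0, ∀ δ' ≤ δ0, ∀ a ∈ Γ.G, ∀ b ∈ Γ.G,
    ∀ c ∈ Γ.G, ∀ d ∈ Γ.G, Γ.dom a = Γ.dom b → Γ.dom c = Γ.dom d →
    ∀ (v : Vert Γ a δ) (v' : Vert Γ b δ'), ∀ u ∈ Ioc (0:ℝ) 1, ∀ u' ∈ Ioc (0:ℝ) 1,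
    (∀ w ∈ Icc 0 u, Γ.leg c w ∉ K.tube r a ∪ K.tube r b) →
    (∀ w ∈ Icc 0 u', Γ.leg d w ∉ K.tube r a ∪ K.tube r b) →
    ∀ μ > 0, ∀ μ' > 0, ∀ᶠ n in atTop, ∀ E : C1,
      (∀ e : Ed, pt (ms n) e.2 ∈ K.W1 → d1 E e = sh (rho (ms n) (v.vf n + v'.vf n)) e) →
      (∀ e : Ed, pt (ms n) e.2 ∈ K.W2 → pt (ms n) e.2 ∉ K.clean μ' → E e = 0) →
      ∀ m : Ch E3, bd m = two (Γ.leg c u) (Γ.leg d u') →
      All (fun p q => K.Cl μ p q ∧ p ∈ K.W ∧ dist p q ≤ K.ρ 13 ∧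
        p ∉ K.tube (r + dist p q) a ∪ K.tube (r + dist p q) b) m →
      pair E (rho (ms n) (Γ.Lg n c 0 u + m + Γ.Lg n d 0 u')) = Γ.crn n a b c d :=
  WallH.tv Γ hr

theorem wall_leg_miss {g x : X} (hg : g ∈ Γ.G) (hx : g ≠ x) {u : ℝ} (hu : u ∈ Ioc (0:ℝ) 1) :
    ∃ r > 0, ∀ w ∈ Icc 0 u, Γ.leg g w ∉ K.tube r x := by
  have hc : IsCompact (Icc (0:ℝ) u ×ˢ Icc (0:ℝ) 1) := isCompact_Icc.prod isCompact_Icc
  have hf : Continuous fun z : ℝ × ℝ => dist (Γ.leg g z.1) (K.e x z.2) :=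
    ((Γ.leg_cont g).comp continuous_fst).dist ((K.cont_e x).comp continuous_snd)
  obtain ⟨r, hr, H⟩ := hc.exists_forall_le' hf.continuousOn (a := 0) (by
    rintro ⟨w, s⟩ ⟨hw, hs⟩
    refine dist_pos.2 fun h => ?_
    rcases hw.1.eq_or_lt with h0 | h0
    · simp only at h h0
      rw [← h0, Γ.leg_zero g hg] at h
      exact hx (K.inj g x _ (Γ.lv_mem01 hg) s hs
        ((Γ.lv_mem g hg).2.trans_lt (K.τ_lt_one 10)) h).1
    · exact (Γ.leg_mem g hg w ⟨h0, hw.2.trans hu.2⟩).2 ⟨x, s, hs, h⟩)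
  refine ⟨r, hr, fun w hw ht => ?_⟩
  obtain ⟨s, hs, hd⟩ := ht
  exact absurd (H (w, s) ⟨hw, hs⟩) (not_le.2 hd)

theorem wall_core {a b c d : X} (ha : a ∈ Γ.G) (hb : b ∈ Γ.G) (hc : c ∈ Γ.G) (hd : d ∈ Γ.G)
    (hab : Γ.dom a = Γ.dom b) (hca : c ≠ a) (hcb : c ≠ b) (hda : d ≠ a) (hdb : d ≠ b)
    (hcr : Γ.cr a b c d = 1) {u u' : ℝ} (hu : u ∈ Ioc (0:ℝ) 1) (hu' : u' ∈ Ioc (0:ℝ) 1)
    {U : Set E3} (hU : U ⊆ K.W \ K.C) (hj : JoinedIn U (Γ.leg c u) (Γ.leg d u'))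
    {T T' : Set E3} {ν : ℝ} (hν : 0 < ν) (hT : ∀ x ∈ T, closedBall x ν ⊆ T') {δw u0 u0' : ℝ}
    (hδw : 0 < δw) (hu0 : 0 < u0) (hu0' : 0 < u0')
    (hw : ∀ δ ≤ δw, ∀ (v : Vert Γ a δ) (v' : Vert Γ b δ), v.u ≤ u0 → v'.u ≤ u0' →
      ∃ μ > 0, ∀ᶠ n in atTop, ∃ E, IsWall K n E (v.vf n + v'.vf n) T (Γ.leg a v.u) μ) :
    ∃ w ∈ Ioc (0:ℝ) 1, w ≤ u0 ∧ ∃ q, (q ∈ Γ.leg c '' Ioc 0 u ∨ JoinedIn U (Γ.leg c u) q ∨
      q ∈ Γ.leg d '' Ioc 0 u') ∧ JoinedIn ((K.Wb \ K.C) ∩ T') (Γ.leg a w) q := by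
  obtain ⟨r17, r16, r15, r14, r13, r12, r11, r7, r6, r4, r3, r2, r1⟩ := WallH.rho_all K
  have hcd := Γ.dom_eq_of_joined hc hd hu hu' (hj.mono hU)
  obtain ⟨ra, hra, Ha⟩ := Γ.wall_leg_miss hc hca hu
  obtain ⟨rb, hrb, Hb⟩ := Γ.wall_leg_miss hc hcb hu
  obtain ⟨rc, hrc, Hc⟩ := Γ.wall_leg_miss hd hda hu'
  obtain ⟨rd, hrd, Hd⟩ := Γ.wall_leg_miss hd hdb hu'
  obtain ⟨μ0, hμ0, hj0⟩ := WallH.joined_clean (K := K) hj fun x hx => (hU hx).2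
  obtain ⟨r, hr, g1, g2, g3, g4, g5⟩ : ∃ r > 0, r ≤ ra ∧ r ≤ rb ∧ r ≤ rc ∧ r ≤ rd ∧ r ≤ μ0 / 2 :=
    ⟨min ra (min rb (min rc (min rd (μ0 / 2)))), by positivity, by simp, by simp, by simp, by simp,
      by simp⟩
  obtain ⟨δt, hδt, HT⟩ := Γ.tv hr
  obtain ⟨v, hv⟩ := Γ.exists_vert ha (lt_min hδw hδt) hu0
  obtain ⟨v', hv'⟩ := Γ.exists_vert hb (lt_min hδw hδt) hu0'
  obtain ⟨μ, hμ, HW⟩ := hw _ (min_le_left _ _) v v' hv hv'
  obtain ⟨s, hs, k1, k2, k3, k4⟩ : ∃ s > 0, s ≤ μ0 / 2 ∧ s ≤ K.ρ 17 / 2 ∧ s ≤ μ / 4 ∧ s ≤ ν / 2 :=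
    ⟨min (μ0 / 2) (min (K.ρ 17 / 2) (min (μ / 4) (ν / 2))), by positivity, by simp, by simp,
      by simp, by simp⟩
  obtain ⟨m, bm, hm⟩ := exists_fine_chain (WallH.joined_comp hj0) hs
  have HT' := HT _ (min_le_right _ _) _ (min_le_right _ _) a ha b hb c hc d hd hab hcd v v' u hu
    u' hu' (fun w hw h => h.elim (fun h => Ha w hw (WallH.tube_mono a g1 h))
      fun h => Hb w hw (WallH.tube_mono b g2 h))
    (fun w hw h => h.elim (fun h => Hc w hw (WallH.tube_mono a g3 h))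
      fun h => Hd w hw (WallH.tube_mono b g4 h)) (μ0 / 2) (by positivity) μ hμ
  obtain ⟨n, ⟨⟨⟨⟨⟨E, hE⟩, htv⟩, hLc⟩, hLd⟩, hn⟩, hcrn⟩ := ((hyper_of_atTop
    ((((HW.and HT').and (Γ.all_Lg c hs)).and (Γ.all_Lg d hs)).and (ms_small hs))).and
    (Γ.cr_spec a b c d)).exists
  have hh := ms_pos n
  have hnt : ∀ p q x, p ∈ K.clean μ0 → dist p q < s → p ∉ K.tube (r + dist p q) x := by
    rintro p q x h1 h2 ⟨t, ht, h3⟩
    have := h1 x t ht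
    linarith
  have key := htv E hE.eq (fun e h1 h2 => by
      by_contra hne
      exact h2 (hE.supp e h1 hne).target_mem.1.2) m bm (hm.mono fun p q h => by
      have hp := h.1.target_mem
      exact ⟨WallH.Cl_of_clean hp.2 (by linarith [h.2.2]), (hU hp.1).1, by linarith [h.2.2],
        fun h' => h'.elim (hnt p q a hp.2 h.2.2) (hnt p q b hp.2 h.2.2)⟩)
  rw [hcrn, hcr] at key
  have z01 : (0:ℝ) ∈ Icc (0:ℝ) 1 := ⟨le_rfl, zero_le_one⟩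
  have hB : All (fun p q => dist p q < s ∧ p ∈ K.W ∧ (p ∈ Γ.leg c '' Icc 0 u ∨
      JoinedIn U (Γ.leg c u) p ∨ p ∈ Γ.leg d '' Icc 0 u'))
      (Γ.Lg n c 0 u + m + Γ.Lg n d 0 u') := by
    refine All.add (All.add ((hLc 0 z01 u ⟨hu.1.le, hu.2⟩).mono ?_) (hm.mono ?_))
      ((hLd 0 z01 u' ⟨hu'.1.le, hu'.2⟩).mono ?_)
    · rintro p q ⟨h1, ⟨w, hw, rfl⟩, -⟩
      rw [max_eq_right hu.1.le] at hw
      exact ⟨h1, Γ.leg_mem_W hc ⟨hw.1, hw.2.trans hu.2⟩, Or.inl ⟨w, hw, rfl⟩⟩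
    · intro p q h
      exact ⟨h.2.2, (hU h.1.target_mem.1).1, Or.inr (Or.inl (JoinedIn.mono h.1 inter_subset_left))⟩
    · rintro p q ⟨h1, ⟨w, hw, rfl⟩, -⟩
      rw [max_eq_right hu'.1.le] at hw
      exact ⟨h1, Γ.leg_mem_W hd ⟨hw.1, hw.2.trans hu'.2⟩, Or.inr (Or.inr ⟨w, hw, rfl⟩)⟩
  have hex : ∃ e ∈ (rho (ms n) (Γ.Lg n c 0 u + m + Γ.Lg n d 0 u')).support, E e ≠ 0 := by
    by_contra hne
    push Not at hne
    rw [pair_eq_zero hne] at key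
    exact zero_ne_one key
  obtain ⟨e, he, hEe⟩ := hex
  obtain ⟨l, hl, hd1, -⟩ := rho_support hh he
  obtain ⟨h1, h2, h3⟩ := hB l hl
  have a1 := WallH.norm_le_add (pt (ms n) e.2) l.1
  have a2 := WallH.norm_le_add' l.1 (pt (ms n) e.2)
  have hW2 : pt (ms n) e.2 ∈ K.W2 := ⟨by linarith [h2.1], by linarith [h2.2]⟩
  have hJ := hE.supp e hW2 hEe
  have hball : closedBall (pt (ms n) e.2) (2 * s) ⊆ (K.Wb \ K.C) ∩ T' := fun y hy =>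
    ⟨⟨WallH.mem_Wb_near (by linarith [hW2.1]) (by linarith [hW2.2]) (le_trans hy (by linarith)),
      K.clean_not_mem (μ := μ / 2) (by positivity)
        (WallH.clean_near hJ.target_mem.1.2 hy (by linarith))⟩,
      hT _ hJ.target_mem.2 (closedBall_subset_closedBall (by linarith) hy)⟩
  have hq : JoinedIn ((K.Wb \ K.C) ∩ T') (Γ.leg a v.u) l.1 := by
    refine JoinedIn.trans (hJ.mono fun x hx => ⟨⟨hx.1.1, K.clean_not_mem hμ.le hx.1.2⟩,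
      hT x hx.2 (mem_closedBall_self hν.le)⟩) (WallH.joined_ball hball ?_ ?_)
    · rw [dist_self]; linarith
    · rw [dist_comm]; linarith
  have hpos : ∀ g ∈ Γ.G, ∀ t : ℝ, l.1 ∈ Γ.leg g '' Icc 0 t → l.1 ∈ Γ.leg g '' Ioc 0 t := by
    rintro g hg t ⟨w, hw, hwl⟩
    refine ⟨w, ⟨hw.1.lt_of_ne ?_, hw.2⟩, hwl⟩
    rintro rfl
    rw [Γ.leg_zero g hg] at hwl
    exact hq.target_mem.1.2 ⟨g, _, Γ.lv_mem01 hg, hwl.symm⟩
  exact ⟨v.u, v.ini.1, hv, l.1, h3.imp (hpos c hc u) (Or.imp id (hpos d hd u')), hq⟩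

theorem wall_ini_le {k : X} {u w δ : ℝ} (h : Γ.Ini k u δ) (hw : 0 < w) (hwu : w ≤ u) :
    Γ.Ini k w δ := ⟨⟨hw, hwu.trans h.1.2⟩, fun t ht => h.2 t ⟨ht.1, ht.2.trans hwu⟩⟩

/-- the initial part of a leg lies in the tube of any line whose tube contains its end -/
theorem wall_joined_ini {k x : X} (hk : k ∈ Γ.G) {u w δ ε : ℝ} (h : Γ.Ini k u δ) (hw : 0 < w)
    (hwu : w ≤ u) (hx : Γ.leg k u ∈ K.tube ε x) :
    JoinedIn ((K.W \ K.C) ∩ K.tube (ε + 2 * δ) x) (Γ.leg k u) (Γ.leg k w) := by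
  refine Γ.joined_leg fun t ht => ?_
  rw [min_eq_right hwu, max_eq_left hwu] at ht
  refine ⟨Γ.leg_mem k hk t ⟨hw.trans_le ht.1, ht.2.trans h.1.2⟩,
    WallH.tube_near (ν := 2 * δ) hx ?_ le_rfl⟩
  have a1 := h.2 t ⟨(hw.trans_le ht.1).le, ht.2⟩
  have a2 := h.2 u ⟨h.1.1.le, le_rfl⟩
  have a3 := dist_triangle_right (Γ.leg k t) (Γ.leg k u) (K.e k (Γ.lv k))
  linarith

/-- a chord that crosses a short chord meets its thin component -/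
theorem crossjoin_tube {R : ℝ} (hR : 0 < R) : ∃ δ > 0, ∀ k ∈ Γ.G, ∀ k' ∈ Γ.G, ∀ u0 u0',
    Γ.Ini k u0 δ → Γ.Ini k' u0' δ →
    JoinedIn ((K.W \ K.C) ∩ K.tube δ k) (Γ.leg k u0) (Γ.leg k' u0') →
    ∀ g ∈ Γ.G, ∀ g' ∈ Γ.G, g ≠ k → g ≠ k' → g' ≠ k → g' ≠ k' → Γ.cr k k' g g' = 1 →
    ∀ u ∈ Ioc (0:ℝ) 1, ∀ u' ∈ Ioc (0:ℝ) 1, ∀ U ⊆ K.W \ K.C,
    JoinedIn U (Γ.leg g u) (Γ.leg g' u') →
    ∃ q, (q ∈ Γ.leg g '' Ioc 0 u ∨ JoinedIn U (Γ.leg g u) q ∨ q ∈ Γ.leg g' '' Ioc 0 u') ∧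
      JoinedIn ((K.Wb \ K.C) ∩ K.tube R k) (Γ.leg k u0) q := by
  obtain ⟨δ0, hδ0, HW⟩ := Γ.wall_tube (R := R / 2) (by positivity)
  obtain ⟨δ, hδ, d1', d2'⟩ : ∃ δ > 0, 3 * δ ≤ δ0 ∧ 3 * δ ≤ R :=
    ⟨min δ0 R / 3, by positivity, by linarith [min_le_left δ0 R], by linarith [min_le_right δ0 R]⟩
  refine ⟨δ, hδ, fun k hk k' hk' u0 u0' hi hi' hj g hg g' hg' h1 h2 h3 h4 hcr u hu u' hu' U hU
    hjU => ?_⟩
  have hkk := Γ.dom_eq_of_joined hk hk' hi.1 hi'.1 (hj.mono inter_subset_left)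
  obtain ⟨w, hw, hwu, q, hq, hJ⟩ := Γ.wall_core hk hk' hg hg' hkk h1 h2 h3 h4 hcr hu hu' hU hjU
    (T := K.tube (R / 2) k) (T' := K.tube R k) (ν := R / 2) (by positivity)
    (fun x hx y hy => WallH.tube_near hx hy (by linarith)) hδ0 hi.1.1 hi'.1.1
    (fun δ' hδ' v v' hv hv' => HW δ' hδ' δ' hδ' k hk k' hk' v v' (by
      have s1 : (K.W \ K.C) ∩ K.tube (δ + 2 * δ) k ⊆ (K.W \ K.C) ∩ K.tube δ0 k :=
        inter_subset_inter_right _ (WallH.tube_mono k (by linarith))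
      have s2 : (K.W \ K.C) ∩ K.tube δ k ⊆ (K.W \ K.C) ∩ K.tube δ0 k :=
        inter_subset_inter_right _ (WallH.tube_mono k (by linarith))
      exact (((Γ.wall_joined_ini hk hi v.ini.1.1 hv hj.source_mem.2).mono s1).symm.trans
        (hj.mono s2)).trans ((Γ.wall_joined_ini hk' hi' v'.ini.1.1 hv' hj.target_mem.2).mono s1)))
  refine ⟨q, hq, JoinedIn.trans ?_ hJ⟩
  exact (Γ.wall_joined_ini hk hi hw.1 hwu hj.source_mem.2).mono fun x hx =>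
    ⟨⟨K.Wv_sub_Wb (K.W_sub_Wv hx.1.1), hx.1.2⟩, WallH.tube_mono k (by linarith) hx.2⟩

/-- chords of different domains do not cross -/
theorem cr_dom {a b c d : X} (ha : a ∈ Γ.G) (hb : b ∈ Γ.G) (hc : c ∈ Γ.G) (hd : d ∈ Γ.G)
    (hab : Γ.dom a = Γ.dom b) (hcd : Γ.dom c = Γ.dom d) (hac : Γ.dom a ≠ Γ.dom c) :
    Γ.cr a b c d = 0 := by
  rcases z2_cases (Γ.cr a b c d) with h | hcr
  · exact h
  exfalso
  obtain ⟨δ0, hδ0, HW⟩ := Γ.wall_fat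
  have o1 : (1:ℝ) ∈ Ioc (0:ℝ) 1 := ⟨one_pos, le_rfl⟩
  obtain ⟨w, hw, -, q, hq, hJ⟩ := Γ.wall_core ha hb hc hd hab (fun h => hac (by rw [h]))
    (fun h => hac (by rw [h, hab])) (fun h => hac (by rw [hcd, h]))
    (fun h => hac (by rw [hcd, h, hab])) hcr o1 o1 Subset.rfl
    (Γ.joined_of_dom_eq hc hd o1 o1 hcd) (T := univ) (T' := univ) one_pos
    (fun _ _ => subset_univ _) hδ0 one_pos one_pos
    (fun δ hδ v v' _ _ => HW δ hδ δ hδ a ha b hb hab v v')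
  have hJ' := hJ.mono inter_subset_left
  rcases hq with ⟨t, ht, rfl⟩ | hq | ⟨t, ht, rfl⟩
  · exact hac (Γ.sl_univ ha hc hw ht hJ')
  · exact hac (Γ.sl_univ ha hc hw o1 (hJ'.trans (hq.symm.mono fun x hx =>
      ⟨K.Wv_sub_Wb (K.W_sub_Wv hx.1), hx.2⟩)))
  · exact hac ((Γ.sl_univ ha hd hw ht hJ').trans hcd.symm)

theorem x1_cr {ε : ℝ} (hε : 0 < ε) : ∃ δ > 0, ∀ a b c d, Γ.small δ a b → Γ.small δ c d →
    c ≠ a → c ≠ b → d ≠ a → d ≠ b → Γ.cr a b c d = 1 → Γ.small ε a c := by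
  obtain ⟨r17, r16, r15, r14, r13, r12, r11, r7, r6, r4, r3, r2, r1⟩ := WallH.rho_all K
  obtain ⟨δs, hδs, HS⟩ := Γ.sl_tube hε
  obtain ⟨η, hη, HC⟩ := WallH.line_close K (ε := δs / 2) (by positivity)
  obtain ⟨R, hR, g1, g2, g3⟩ : ∃ R > 0, R ≤ η / 2 ∧ R ≤ δs / 2 ∧ R ≤ K.ρ 17 :=
    ⟨min (η / 2) (min (δs / 2) (K.ρ 17)), by positivity, by simp, by simp, by simp⟩
  obtain ⟨δc, hδc, HX⟩ := Γ.crossjoin_tube hR
  obtain ⟨δ, hδ, d1', d2'⟩ : ∃ δ > 0, δ ≤ δc ∧ 3 * δ ≤ R :=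
    ⟨min δc (R / 3), by positivity, by simp, by linarith [min_le_right δc (R / 3)]⟩
  refine ⟨δ, hδ, ?_⟩
  rintro a b c d ⟨ha, hb, -, -, u, u', hu, hu', hj⟩ ⟨hc, hd, -, -, w, w', hw, hw', hj'⟩
    h1 h2 h3 h4 hcr
  obtain ⟨q, hq, hJ⟩ := HX a ha b hb u u' (WallH.Ini.mono hu d1') (WallH.Ini.mono hu' d1')
    (hj.mono fun x hx => ⟨hx.1.1, WallH.tube_mono a d1' hx.1.2⟩) c hc d hd h1 h2 h3 h4 hcr
    w hw.1 w' hw'.1 _ (fun x hx => hx.1.1) hj'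
  have s2 : (K.W \ K.C) ∩ K.tube δ c ∩ K.tube δ d ⊆ (K.W \ K.C) ∩ K.tube (δ + 2 * δ) c :=
    fun x hx => ⟨hx.1.1, WallH.tube_mono c (by linarith) hx.1.2⟩
  have hq' : JoinedIn ((K.W \ K.C) ∩ K.tube (δ + 2 * δ) c) (Γ.leg c w) q := by
    rcases hq with ⟨t, ht, rfl⟩ | hq | ⟨t, ht, rfl⟩
    · exact Γ.wall_joined_ini hc hw ht.1 ht.2 hj'.source_mem.1.2
    · exact hq.mono s2
    · exact (hj'.mono s2).trans (Γ.wall_joined_ini hd hw' ht.1 ht.2 hj'.target_mem.1.2)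
  obtain ⟨s, hs, e1⟩ := hJ.target_mem.2
  obtain ⟨t, ht, e2⟩ := hq'.target_mem.2
  have hclose : ∀ z ∈ Icc (0:ℝ) 1, dist (K.e c z) (K.e a z) < δs / 2 := by
    refine HC c a t ⟨ht.1, (K.lev_lt (i := 15) (x := c) ht ?_).le⟩ s hs ?_
    · have a1 := WallH.norm_le_add q (K.e c t)
      norm_num
      linarith [hq'.target_mem.1.1.1]
    · have a1 := dist_triangle_left (K.e c t) (K.e a s) q
      linarith
  refine HS a ha c hc u w (WallH.Ini.mono hu (by linarith)) (WallH.Ini.mono hw (by linarith))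
    (JoinedIn.trans (hJ.mono fun x hx => ⟨hx.1, WallH.tube_mono a (by linarith) hx.2⟩)
      (hq'.symm.mono fun x hx => ⟨⟨K.Wv_sub_Wb (K.W_sub_Wv hx.1.1), hx.1.2⟩,
        WallH.tube_mono a (by linarith) (WallH.tube_of_close hclose hx.2)⟩))

theorem x2_cr {a b : X} (ha : a ∈ Γ.G) (hb : b ∈ Γ.G) (hab : Γ.dom a = Γ.dom b) {ε : ℝ}
    (hε : 0 < ε) : ∃ δ > 0, ∀ c d, Γ.small δ c d → a ≠ c → a ≠ d → b ≠ c → b ≠ d →
    Γ.cr c d a b = 1 → Γ.small ε c a ∨ Γ.small ε c b := by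
  obtain ⟨δs, hδs, HS⟩ := Γ.sl_tube hε
  obtain ⟨u, -, hu⟩ := Γ.exists_ini ha hδs one_pos
  obtain ⟨u', -, hu'⟩ := Γ.exists_ini hb hδs one_pos
  obtain ⟨μ0, hμ0, hj0⟩ := WallH.joined_clean (K := K)
    (Γ.joined_of_dom_eq ha hb hu.1 hu'.1 hab) fun x hx => hx.2
  obtain ⟨δc, hδc, HX⟩ := Γ.crossjoin_tube (lt_min hμ0 hδs)
  refine ⟨min δc δs, lt_min hδc hδs, ?_⟩
  rintro c d ⟨hc, hd, -, -, w, w', hw, hw', hj⟩ h1 h2 h3 h4 hcr
  obtain ⟨q, hq, hJ⟩ := HX c hc d hd w w' (WallH.Ini.mono hw (min_le_left _ _))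
    (WallH.Ini.mono hw' (min_le_left _ _))
    (hj.mono fun x hx => ⟨hx.1.1, WallH.tube_mono c (min_le_left _ _) hx.1.2⟩) a ha b hb h1 h2 h3 h4
    hcr u hu.1 u' hu'.1 _ inter_subset_left hj0
  have hJ' := hJ.mono (inter_subset_inter_right _ (WallH.tube_mono c (min_le_right μ0 δs)))
  rcases hq with ⟨t, ht, rfl⟩ | hq | ⟨t, ht, rfl⟩
  · exact Or.inl (HS c hc a ha w t (WallH.Ini.mono hw (min_le_right _ _))
      (Γ.wall_ini_le hu ht.1 ht.2) hJ')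
  · obtain ⟨s, hs, e1⟩ := hJ.target_mem.2
    have := hq.target_mem.2 c s hs
    linarith [min_le_left μ0 δs]
  · exact Or.inr (HS c hc b hb w t (WallH.Ini.mono hw (min_le_right _ _))
      (Γ.wall_ini_le hu' ht.1 ht.2) hJ')

theorem xd_cr {R : ℝ} (hR : 0 < R) : ∃ δ > 0, ∀ k k', Γ.small δ k k' → ∀ g ∈ Γ.G, ∀ g' ∈ Γ.G,
    g ≠ k → g ≠ k' → g' ≠ k → g' ≠ k' → ∀ u ∈ Ioc (0:ℝ) 1, ∀ u' ∈ Ioc (0:ℝ) 1,
    (∀ w ∈ Ioc 0 u, Γ.leg g w ∉ K.tube R k) → (∀ w ∈ Ioc 0 u', Γ.leg g' w ∉ K.tube R k) →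
    JoinedIn ((K.W \ K.C) \ K.tube R k) (Γ.leg g u) (Γ.leg g' u') → Γ.cr k k' g g' = 0 := by
  obtain ⟨δ, hδ, HX⟩ := Γ.crossjoin_tube hR
  refine ⟨δ, hδ, ?_⟩
  rintro k k' ⟨hk, hk', -, -, w, w', hw, hw', hj⟩ g hg g' hg' h1 h2 h3 h4 u hu u' hu' l1 l2 hjU
  rcases z2_cases (Γ.cr k k' g g') with h | hcr
  · exact h
  exfalso
  obtain ⟨q, hq, hJ⟩ := HX k hk k' hk' w w' hw hw' (hj.mono inter_subset_left) g hg g' hg' h1 h2 h3
    h4 hcr u hu u' hu' _ sdiff_subset hjU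
  rcases hq with ⟨t, ht, rfl⟩ | hq | ⟨t, ht, rfl⟩
  · exact l1 t ht hJ.target_mem.2
  · exact hq.target_mem.2 hJ.target_mem.2
  · exact l2 t ht hJ.target_mem.2

end Germs

end Pool.Agent.Lib.MP_9e71a3_gt
end
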