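import Pool.Agent.Lib.MP_9e71a3_gt.VertB

-- part Pool.Agent.Lib.MP_9e71a3_gt.VertC
section

/-! Connectivity in the big shell implies connectivity in the small shell.  JOB Vert (part C). -/

set_option autoImplicit false

namespace Pool.Agent.Lib.MP_9e71a3_gt

open Set Metric Filter Topology

theorem vt_all_map {A B : Type} {Q : B → B → Prop} (f : A × A → B × B) {c : Ch A}
    (h : All (fun x y => Q (f (x, y)).1 (f (x, y)).2) c) : All Q (Finsupp.mapDomain f c) := by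
  classical
  intro l hl
  obtain ⟨l', hl', rfl⟩ := Finset.mem_image.1 (Finsupp.mapDomain_support hl)
  exact h l' hl'

namespace Cone
variable {X : Type} [MetricSpace X] (K : Cone X)

/-- short links in the middle shell -/
def vtMid (p q : E3) : Prop := dist p q ≤ K.ρ 13 ∧ 9 * K.ρ 11 < ‖p‖ ∧ ‖p‖ < K.ρ 7 / 5

variable [CompactSpace X] [ConnectedSpace X]

theorem vt_near_norm {U : Set X} {ε : ℝ} {p : E3} (h : K.Near U (K.τ 7) (K.τ 10) ε p)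
    (hε : ε ≤ K.ρ 12) : 9 * K.ρ 11 < ‖p‖ ∧ ‖p‖ < K.ρ 7 / 5 := by
  obtain ⟨x, -, s, hs, hd⟩ := h
  have h1 := K.big 10 x s ⟨(K.τ_nonneg 7).trans hs.1, hs.2⟩
  have h2 := K.little 6 x s ⟨hs.1, hs.2.trans (K.τ_lt_one 10).le⟩
  have h3 := vt_norm_le hd
  have a1 := K.ρ_anti (i := 11) (j := 12) (by norm_num) (by norm_num)
  have a2 := K.ρ_anti (i := 7) (j := 11) (by norm_num) (by norm_num)
  have p12 := K.ρ_pos 12
  norm_num at h1 h2
  constructor <;> linarith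

theorem vt_path_clean {A : Set E3} {p q : E3} (h : JoinedIn (A \ K.C) p q) :
    ∃ μ > 0, JoinedIn (A ∩ K.clean μ) p q := by
  obtain ⟨γ, hγ⟩ := h
  obtain ⟨μ, hμ, hc⟩ := K.exists_clean (A := range γ) (isCompact_range γ.continuous) (by
    rw [Set.disjoint_left]
    rintro _ ⟨t, rfl⟩
    exact (hγ t).2)
  exact ⟨μ, hμ, γ, fun t => ⟨(hγ t).1, hc ⟨t, rfl⟩⟩⟩

/-- a cycle that is dirty inside a tube does not link the cycles that are null in the tube -/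
theorem vt_kill {R : ℝ} (hR : 0 < R) : ∃ r > 0, ∀ r2 > 0, ∃ η > 0, ∀ᶠ n in atTop,
    ∀ (k : X) (a b b' t : ℝ) (ζ w : Ch E3), 0 ≤ a → b ≤ 1 → b' ≤ b → b' ≤ K.τ 16 →
      t ∈ Icc a b → (t = 0 ∨ t = 1) → bd ζ = 0 →
      All (fun p q => dist p q ≤ η ∧ (p ∈ K.tube (R / 4) k →
        K.Near univ a b' η p ∧ K.Near univ a b' η q)) ζ →
      Null (K.Bl {k} (K.τ 1) (K.τ 16) r) w → Av (K.Bl univ a b r2) (4 * ms n) w →
      Lk (ms n) ζ w = 0 := by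
  classical
  obtain ⟨r0, hr0, hU⟩ := K.UC (show 0 < R / 8 by positivity)
  obtain ⟨η0, hη0, hI⟩ := K.IM hr0
  have p17 := K.ρ_pos 17
  have a1 := K.ρ_anti (i := 1) (j := 17) (by norm_num) (by norm_num)
  obtain ⟨r, hr, h1, h2, h3⟩ : ∃ r > 0, 6 * r ≤ η0 ∧ 32 * r ≤ R ∧ r ≤ K.ρ 17 :=
    ⟨min (η0 / 6) (min (R / 32) (K.ρ 17)), by positivity, by
      have := min_le_left (η0 / 6) (min (R / 32) (K.ρ 17)); linarith, by
      have := (min_le_right (η0 / 6) _).trans (min_le_left (R / 32) (K.ρ 17)); linarith,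
      (min_le_right _ _).trans (min_le_right _ _)⟩
  refine ⟨r, hr, fun r2 hr2 => ?_⟩
  obtain ⟨δ1, hδ1, hU1⟩ := K.UC (K.ρ_pos 1)
  obtain ⟨η1, hη1, hp⟩ := K.proj (lt_min hr2 hδ1)
  refine ⟨min η1 r, lt_min hη1 hr, ?_⟩
  have b1 := min_le_left η1 r
  have b2 := min_le_right η1 r
  filter_upwards [hp, ms_small hr, K.vt_all_V hr] with n hp hn hV
  intro k a b b' t ζ w ha hb hb1 hb2 ht ht' hζ hζl hN hA
  have hh := ms_pos n
  have hch : ∀ z : E3, ∃ xs : X × ℝ, K.Near univ a b' (min η1 r) z →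
      xs.2 ∈ Icc a b' ∧ dist z (K.e xs.1 xs.2) ≤ min η1 r := by
    intro z
    by_cases hz : K.Near univ a b' (min η1 r) z
    · obtain ⟨x, -, s, hs, hd⟩ := hz
      exact ⟨(x, s), fun _ => ⟨hs, hd⟩⟩
    · exact ⟨(k, 0), fun h => absurd h hz⟩
  choose xs hxs using hch
  have hin := vt_all_filter hζl fun l => l.1 ∈ K.tube (R / 4) k
  have hout := vt_all_filter hζl fun l => l.1 ∉ K.tube (R / 4) k
  have hsplit := Finsupp.filter_add_filter_not ζ fun l => l.1 ∈ K.tube (R / 4) k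
  set zi := ζ.filter fun l => l.1 ∈ K.tube (R / 4) k with hzi
  set zo := ζ.filter fun l => l.1 ∉ K.tube (R / 4) k with hzo
  have hnear : ∀ l ∈ zi.support, ∀ z, z = l.1 ∨ z = l.2 → K.Near univ a b' (min η1 r) z := by
    intro l hl z hz
    have := (hin l hl).1.2 (hin l hl).2
    rcases hz with rfl | rfl
    · exact this.1
    · exact this.2
  obtain ⟨hP, hN'⟩ := hp zi (fun z => (xs z).1) (fun z => (xs z).2) univ a b t ha hb ht (by
    intro l hl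
    refine ⟨(hin l hl).1.1.trans b1, fun z hz => ?_⟩
    obtain ⟨h4, h5⟩ := hxs z (hnear l hl z hz)
    exact ⟨mem_univ _, ⟨h4.1, h4.2.trans hb1⟩, h4.2.trans hb2, h5.trans b1⟩)
  set y := K.lev t (prj (fun z => (xs z).1) zi) with hy
  set v := (bd zi).sum fun p c => c • (lnk p (K.e (xs p).1 (xs p).2) +
    K.V n (xs p).1 (xs p).2 t) with hv
  have hbd : bd zi = bd zo := by
    have h4 : bd zi + bd zo = 0 := by rw [← map_add, hsplit, hζ]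
    rw [← add_zero (bd zi), ← fs_add_self (bd zo), ← add_assoc, h4, zero_add]
  have hdec : ζ = (zi + y + v) + (zo + y + v) := by
    rw [← hsplit]
    ext l
    simp only [Finsupp.add_apply]
    grind
  have hz' : bd (zo + y + v) = 0 := by
    have h4 := hN'.bd_eq
    simp only [map_add] at h4 ⊢
    rw [← hbd, h4]
  have t01 : t ∈ Icc (0:ℝ) 1 := ⟨ha.trans ht.1, ht.2.trans hb⟩
  have hk01 : ∀ s ∈ Icc (K.τ 1) (K.τ 16), s ∈ Icc (0:ℝ) 1 := fun s hs =>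
    ⟨(K.τ_nonneg 1).trans hs.1, hs.2.trans (K.τ_lt_one 16).le⟩
  rw [hdec, Lk_add_left, Lk_null_left hh (hN'.mono ?_) hN.bd_eq hA, zero_add]
  swap
  · rintro _ ⟨x, hx, s, hs, rfl⟩
    exact ⟨_, ⟨x, hx, s, hs, rfl⟩, closedBall_subset_closedBall (min_le_left _ _)⟩
  refine Lk_null_right hh hz' hN (av_iff_all.2 (All.add (All.add ?_ ?_) ?_))
  · refine hout.mono ?_
    rintro p q ⟨⟨h4, -⟩, h5⟩ B ⟨x, rfl, s, hs, rfl⟩
    have h6 : R / 4 ≤ dist p (K.e x s) := not_lt.1 fun h6 => h5 ⟨s, hk01 s hs, h6⟩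
    simp only
    linarith
  · refine vt_all_map _ (hP.mono ?_)
    rintro x x' ⟨-, -, h4⟩ B ⟨x0, rfl, s, hs, rfl⟩
    simp only
    rcases ht' with rfl | rfl
    · have h5 := hU1 x x' 0 t01 0 t01 (h4.le.trans (min_le_right _ _)) (by simp [hδ1.le])
      have h6 := K.big 0 x 0 ⟨le_rfl, K.τ_nonneg 0⟩
      have h7 := K.little 0 x0 s ⟨hs.1, (hk01 s hs).2⟩
      have h8 := (vt_norm_le (le_refl (dist (K.e x 0) (K.e x0 s)))).1
      simp only [zero_add] at h6 h7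
      linarith
    · have h6 := K.big 16 x0 s ⟨(hk01 s hs).1, hs.2⟩
      rw [K.apex, K.apex, dist_self, dist_zero_left]
      norm_num at h6
      linarith
  · refine vt_all_finsum _ _ fun p hp => ?_
    obtain ⟨l, hl, hpl⟩ := mem_bd_support hp
    obtain ⟨h4, h5⟩ := hxs p (hnear l hl p hpl)
    rw [hbd] at hp
    obtain ⟨l', hl', hpl'⟩ := mem_bd_support hp
    have h6 : ∀ s ∈ Icc (0:ℝ) 1, R / 4 - r ≤ dist p (K.e k s) := by
      intro s hs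
      have h6 : R / 4 ≤ dist l'.1 (K.e k s) := not_lt.1 fun h6 => (hout l' hl').2 ⟨s, hs, h6⟩
      have h7 := (hout l' hl').1.1
      rcases hpl' with rfl | rfl
      · linarith
      · linarith [dist_triangle l'.1 l'.2 (K.e k s)]
    have s01 : (xs p).2 ∈ Icc (0:ℝ) 1 := ⟨ha.trans h4.1, h4.2.trans (hb1.trans hb)⟩
    have h7 : r0 ≤ dist k (xs p).1 := by
      by_contra h7
      have h8 := hU k (xs p).1 _ s01 _ s01 (not_le.1 h7).le (by simp [hr0.le])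
      have h9 := dist_triangle p (K.e (xs p).1 (xs p).2) (K.e k (xs p).2)
      rw [dist_comm] at h8
      linarith [h6 _ s01]
    refine All.add (All.lnk ?_) ((hV _ _ s01 t t01).mono ?_)
    · rintro B ⟨x, rfl, s, hs, rfl⟩
      have := h6 s (hk01 s hs)
      simp only
      linarith
    · rintro _ _ ⟨hd, s', t', hs', -, -, -, -, rfl, rfl⟩ B ⟨x, rfl, s, hs, rfl⟩
      have h8 : η0 < dist (K.e x s) (K.e (xs p).1 s') := by
        by_contra h8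
        have := (hI x _ s ⟨(hk01 s hs).1, hs.2⟩ s' hs' (not_lt.1 h8)).1
        linarith
      rw [dist_comm] at h8
      simp only
      linarith

end Cone

namespace Germs
variable {X : Type} [MetricSpace X] [CompactSpace X] [ConnectedSpace X] {K : Cone X} (Γ : Germs K)

/-- from a leg point back to the cone line and to the middle level -/
theorem vt_foot {k : X} (hk : k ∈ Γ.G) {u σ r : ℝ} (hu : Γ.Ini k u σ) (hr : 0 < r) :
    ∀ᶠ n in atTop, bd (Γ.Lg n k 0 u + K.V n k (Γ.lv k) (K.τ 8)) =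
      two (Γ.leg k u) (K.e k (K.τ 8)) ∧
      All (fun p q => dist p q < r ∧ K.Near {k} (K.τ 7) (K.τ 10) (σ + r) p)
        (Γ.Lg n k 0 u + K.V n k (Γ.lv k) (K.τ 8)) := by
  have hu01 : u ∈ Icc (0:ℝ) 1 := ⟨hu.1.1.le, hu.1.2⟩
  have hlv := Γ.lv_mem01 hk
  have hσ : 0 < σ := dist_nonneg.trans_lt (hu.2 0 ⟨le_rfl, hu01.1⟩)
  filter_upwards [K.all_V hr, vt_all_cC (Γ.leg_cont k) hr] with n hV hL
  refine ⟨?_, All.add ((hL u hu01).mono ?_) ((hV k _ hlv _ (K.vt_τ_mem 8)).mono ?_)⟩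
  · rw [map_add, Lg, bd_cC _ (Nat.succ_pos n) (left_mem_Icc.2 zero_le_one) hu01,
      K.bd_V n k hlv (K.vt_τ_mem 8), Γ.leg_zero k hk]
    ext x
    simp only [two, Finsupp.add_apply]
    grind
  · rintro _ _ ⟨hd, s, hs, t, -, rfl, rfl⟩
    exact ⟨hd, k, rfl, _, Γ.lv_mem k hk, by linarith [hu.2 s hs]⟩
  · rintro p q ⟨hd, -, s, hs, h1⟩
    refine ⟨hd, k, rfl, s, ⟨le_trans ?_ hs.1, hs.2.trans ?_⟩, by linarith⟩
    · exact le_min (Γ.lv_mem k hk).1 (K.vt_τ_le (by norm_num))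
    · exact max_le (Γ.lv_mem k hk).2 (K.vt_τ_le (by norm_num))

theorem vt_sl_core {k k' : X} (hk : k ∈ Γ.G) (hk' : k' ∈ Γ.G) {u u' σ κ : ℝ}
    (hu : Γ.Ini k u σ) (hu' : Γ.Ini k' u' σ) (hσ : σ ≤ K.ρ 17) {A0 A1 A2 : Set E3} (hκ : 0 < κ)
    (hA : ∀ p ∈ A0, ∀ z, dist z p ≤ κ → z ∈ A1 ∧ z ∈ A2)
    (hj : JoinedIn ((K.Wb \ K.C) ∩ A0) (Γ.leg k u) (Γ.leg k' u'))
    (hn : ¬ JoinedIn ((K.W \ K.C) ∩ A2) (Γ.leg k u) (Γ.leg k' u')) :
    ∃ r2 > 0, ∀ η > 0, ∀ᶠ n in atTop, ∃ ζp ζm w0 : Ch E3, bd ζp = 0 ∧ bd ζm = 0 ∧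
      bd w0 = two (K.e k (K.τ 8)) (K.e k' (K.τ 8)) ∧
      All (fun p q => dist p q ≤ η ∧ ((∀ z, dist z p ≤ η → z ∈ A1 ∧ z ∈ A2) →
        K.Near univ 0 (K.τ 6) η p ∧ K.Near univ 0 (K.τ 6) η q)) ζp ∧
      All (fun p q => dist p q ≤ η ∧ ((∀ z, dist z p ≤ η → z ∈ A1 ∧ z ∈ A2) →
        K.Near univ (K.τ 11) (K.τ 16) η p ∧ K.Near univ (K.τ 11) (K.τ 16) η q)) ζm ∧
      All (fun p q => dist p q ≤ η ∧ ((p ∈ K.Wb ∩ A0 ∧ q ∈ K.Wb ∩ A0) ∨
        K.Near {k} (K.τ 7) (K.τ 10) (σ + η) p ∨ K.Near {k'} (K.τ 7) (K.τ 10) (σ + η) p)) w0 ∧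
      ∀ Y, bd Y = two (K.e k (K.τ 8)) (K.e k' (K.τ 8)) → All K.vtMid Y →
        Lk (ms n) ζp (w0 + Y) + Lk (ms n) ζm (w0 + Y) = 1 ∧
        Av (K.Bl univ 0 (K.τ 6) r2) (4 * ms n) (w0 + Y) ∧
        Av (K.Bl univ (K.τ 11) 1 r2) (4 * ms n) (w0 + Y) := by
  obtain ⟨μ0, hμ0, hj0⟩ := K.vt_path_clean (A := K.Wb ∩ A0)
    (hj.mono fun x hx => ⟨⟨hx.1.1, hx.2⟩, hx.1.2⟩)
  have p17 := K.ρ_pos 17
  have a1 := K.ρ_anti (i := 16) (j := 17) (by norm_num) (by norm_num)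
  have a2 := K.ρ_anti (i := 13) (j := 16) (by norm_num) (by norm_num)
  have a3 := K.ρ_anti (i := 12) (j := 13) (by norm_num) (by norm_num)
  have a4 := K.ρ_anti (i := 11) (j := 12) (by norm_num) (by norm_num)
  have a5 := K.ρ_anti (i := 7) (j := 11) (by norm_num) (by norm_num)
  have a6 := K.ρ_anti (i := 6) (j := 7) (by norm_num) (by norm_num)
  have a7 := K.ρ_anti (i := 2) (j := 6) (by norm_num) (by norm_num)
  refine ⟨min (μ0 / 4) (K.ρ 17), by positivity, fun η hη => ?_⟩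
  have c1 := min_le_left (μ0 / 4) (K.ρ 17)
  have c2 := min_le_right (μ0 / 4) (K.ρ 17)
  obtain ⟨μ, hμ, m1, m2, m3, m4⟩ : ∃ μ > 0, 10 * μ ≤ μ0 ∧ 5 * μ ≤ η ∧ 5 * μ ≤ κ ∧
      μ ≤ K.ρ 17 := by
    refine ⟨min (min μ0 η) (min κ (K.ρ 17)) / 10, by positivity, ?_⟩
    have b1 := min_le_left (min μ0 η) (min κ (K.ρ 17))
    have b2 := min_le_right (min μ0 η) (min κ (K.ρ 17))
    have b3 := min_le_left μ0 η
    have b4 := min_le_right μ0 η
    have b5 := min_le_left κ (K.ρ 17)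
    have b6 := min_le_right κ (K.ρ 17)
    refine ⟨?_, ?_, ?_, ?_⟩ <;> linarith
  obtain ⟨m, hm, hml⟩ := exists_fine_chain hj0 hμ
  filter_upwards [ms_small hμ, Γ.vt_foot hk hu hμ, Γ.vt_foot hk' hu' hμ] with n hn' hF hF'
  have hh := ms_pos n
  set h := ms n with h_def
  set O := K.W ∩ K.clean μ ∩ A2 with hO
  set S := vtComp O (Γ.leg k u) ∩ A1 with hS
  have hSb : ∀ x ∈ S, ‖x‖ ≤ K.ρ 6 := fun x hx => (vtComp_sub hx.1).1.1.2.le
  obtain ⟨ζp, hζp, hLp, hlp⟩ := vt_cup hh {x | ‖x‖ ≤ K.ρ 6 / 2} hSb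
  obtain ⟨ζm, hζm, hLm, hlm⟩ := vt_cup hh {x | ‖x‖ < 2 * K.ρ 12} hSb
  have hdirty : ∀ p x y, x ∈ S → y ∉ S → dist x p ≤ 2 * h → dist y x ≤ h →
      (∀ z, dist z p ≤ η → z ∈ A1 ∧ z ∈ A2) → 2 * K.ρ 12 ≤ ‖p‖ + 3 * h →
      ‖p‖ ≤ K.ρ 6 / 2 + 3 * h → ∃ z, ∃ s ∈ Icc (0:ℝ) 1, dist p (K.e z s) ≤ μ + 3 * h := by
    intro p x y hx hy h1 h2 h3 h4 h5
    have hy' : y ∉ vtComp O (Γ.leg k u) := fun hy' =>
      hy ⟨hy', (h3 y (by linarith [dist_triangle y x p])).1⟩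
    obtain ⟨z, hz, hzx⟩ := vtComp_exit hx.1 hy' h2
    have hzp : dist z p ≤ 3 * h := by linarith [dist_triangle z x p]
    have h6 := vt_norm_le hzp
    obtain ⟨z0, s, hs, hd⟩ := K.vt_dirty (μ := μ) (x := z) fun h7 =>
      hz ⟨⟨⟨by linarith, by linarith⟩, h7⟩, (h3 z (by linarith)).2⟩
    have h7 := dist_triangle p z (K.e z0 s)
    rw [dist_comm p z] at h7
    exact ⟨z0, s, hs, by linarith⟩
  have hmid : All K.vtMid (Γ.Lg n k 0 u + K.V n k (Γ.lv k) (K.τ 8) +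
      (Γ.Lg n k' 0 u' + K.V n k' (Γ.lv k') (K.τ 8))) :=
    All.add (hF.2.mono fun p q hpq => ⟨by linarith [hpq.1], K.vt_near_norm hpq.2 (by linarith)⟩)
      (hF'.2.mono fun p q hpq => ⟨by linarith [hpq.1], K.vt_near_norm hpq.2 (by linarith)⟩)
  have hb0 : bd (m + (Γ.Lg n k 0 u + K.V n k (Γ.lv k) (K.τ 8) +
      (Γ.Lg n k' 0 u' + K.V n k' (Γ.lv k') (K.τ 8)))) =
      two (K.e k (K.τ 8)) (K.e k' (K.τ 8)) := by
    rw [map_add, map_add, hm, hF.1, hF'.1]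
    ext x
    simp only [two, Finsupp.add_apply]
    grind
  refine ⟨ζp, ζm, _, hζp, hζm, hb0, hlp.mono ?_, hlm.mono ?_, ?_, fun Y hY hYm => ⟨?_, ?_, ?_⟩⟩
  · rintro p q ⟨hpq, ⟨x, hx, y, hy, h1, h2⟩, x', hx', y', hy', h3, h4⟩
    refine ⟨by linarith, fun h5 => ?_⟩
    have h6 := (vt_norm_le h3).2
    have h7 := (vt_norm_le h4).1
    have hx'' : ‖x'‖ ≤ K.ρ 6 / 2 := hx'
    have hy'' : K.ρ 6 / 2 < ‖y'‖ := not_le.1 hy'
    obtain ⟨z, s, hs, hd⟩ := hdirty p x y hx hy h1 h2 h5 (by linarith) (by linarith)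
    have h8 := (vt_norm_le hd).1
    have h9 : K.Near univ 0 (K.τ 6) (μ + 3 * h) p :=
      ⟨z, mem_univ _, s, ⟨hs.1, (K.lev_lt (i := 5) (x := z) hs (by norm_num; linarith)).le⟩, hd⟩
    exact ⟨K.vt_near_mono h9 (by rw [dist_self]; linarith),
      K.vt_near_mono h9 (by rw [dist_comm]; linarith)⟩
  · rintro p q ⟨hpq, ⟨x, hx, y, hy, h1, h2⟩, x', hx', y', hy', h3, h4⟩
    refine ⟨by linarith, fun h5 => ?_⟩
    have h6 := (vt_norm_le h3).2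
    have h7 := (vt_norm_le h4).1
    have hx'' : ‖x'‖ < 2 * K.ρ 12 := hx'
    have hy'' : 2 * K.ρ 12 ≤ ‖y'‖ := not_lt.1 hy'
    obtain ⟨z, s, hs, hd⟩ := hdirty p x y hx hy h1 h2 h5 (by linarith) (by linarith)
    have h8 := vt_norm_le hd
    have h9 : K.Near univ (K.τ 11) (K.τ 16) (μ + 3 * h) p :=
      ⟨z, mem_univ _, s, ⟨(K.lev_gt (i := 11) (x := z) hs (by norm_num; linarith)).le,
        (K.lev_lt (i := 15) (x := z) hs (by norm_num; linarith)).le⟩, hd⟩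
    exact ⟨K.vt_near_mono h9 (by rw [dist_self]; linarith),
      K.vt_near_mono h9 (by rw [dist_comm]; linarith)⟩
  · refine All.add (hml.mono ?_) (All.add (hF.2.mono ?_) (hF'.2.mono ?_))
    · exact fun p q hpq => ⟨by linarith [hpq.2.2], Or.inl ⟨hpq.1.1, hpq.2.1.1⟩⟩
    · exact fun p q hpq => ⟨by linarith [hpq.1],
        Or.inr (Or.inl (K.vt_near_mono hpq.2 (by rw [dist_self]; linarith)))⟩
    · exact fun p q hpq => ⟨by linarith [hpq.1],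
        Or.inr (Or.inr (K.vt_near_mono hpq.2 (by rw [dist_self]; linarith)))⟩
  · have hw : bd (m + (Γ.Lg n k 0 u + K.V n k (Γ.lv k) (K.τ 8) +
        (Γ.Lg n k' 0 u' + K.V n k' (Γ.lv k') (K.τ 8))) + Y) = 0 := by
      rw [map_add, hb0, hY, fs_add_self]
    rw [hLp _ hw, hLm _ hw, ← pair_add, vtCup_add S (by
      intro x hx
      have hx' : ‖x‖ < 2 * K.ρ 12 := hx
      show ‖x‖ ≤ K.ρ 6 / 2
      linarith), add_assoc, map_add, map_add, vt_pair_zero hh ((hmid.add hYm).mono ?_), add_zero]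
    swap
    · rintro p q ⟨h1, h2, h3⟩
      refine Or.inl fun x hx => ?_
      have h4 := vt_norm_le hx
      refine ⟨show ‖x‖ ≤ K.ρ 6 / 2 by linarith,
        fun h5 => absurd (show ‖x‖ < 2 * K.ρ 12 from h5) (not_lt.2 (by linarith))⟩
    have hball : ∀ p, p ∈ K.Wb ∩ A0 ∩ K.clean μ0 → ∀ y, dist y p ≤ 2 * μ → 2 * K.ρ 12 ≤ ‖y‖ →
        ‖y‖ ≤ K.ρ 6 / 2 → ∀ z, dist z y ≤ h → z ∈ O ∧ z ∈ A1 := by
      intro p hp y h1 h2 h3 z hz
      have h4 := vt_norm_le hz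
      have h5 : dist z p ≤ 3 * μ := by linarith [dist_triangle z y p]
      have h6 := hA p hp.1.2 z (by linarith)
      exact ⟨⟨⟨⟨by linarith, by linarith⟩, K.vt_clean_sub hp.2 h5 (by linarith)⟩, h6.2⟩, h6.1⟩
    have n1 := K.vt_near_norm (U := {k}) (p := Γ.leg k u) (ε := σ)
      ⟨k, rfl, _, Γ.lv_mem k hk, (hu.2 u ⟨hu.1.1.le, le_rfl⟩).le⟩ (by linarith)
    have n2 := K.vt_near_norm (U := {k'}) (p := Γ.leg k' u') (ε := σ)
      ⟨k', rfl, _, Γ.lv_mem k' hk', (hu'.2 u' ⟨hu'.1.1.le, le_rfl⟩).le⟩ (by linarith)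
    rw [vt_pair_two hh hm (hml.mono ?_), vtInd_of_mem, vtInd_of_not_mem, add_zero]
    · rintro ⟨⟨h1, -⟩, -⟩
      have h2 := hball _ hj0.target_mem (Γ.leg k' u') (by rw [dist_self]; linarith) (by linarith)
        (by linarith)
      refine hn (JoinedIn.mono ((vtComp_iff (fun z hz => (h2 z hz).1) (dist_pt_fl hh _)).1 h1) ?_)
      rintro x ⟨⟨h3, h4⟩, h5⟩
      exact ⟨⟨h3, K.clean_not_mem hμ.le h4⟩, h5⟩
    · have h2 := hball _ hj0.source_mem (Γ.leg k u) (by rw [dist_self]; linarith) (by linarith)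
        (by linarith)
      have h3 := dist_pt_fl hh (Γ.leg k u)
      have h4 := vt_norm_le h3
      exact ⟨⟨vt_joined_ball (fun z hz => (h2 z hz).1) h3, (h2 _ h3).2⟩,
        show ‖_‖ ≤ K.ρ 6 / 2 by linarith,
        fun h5 => absurd (show ‖_‖ < 2 * K.ρ 12 from h5) (not_lt.2 (by linarith))⟩
    · rintro p q ⟨hp, -, hpq⟩ x y h1 h2 ⟨h3, h4⟩
      have h5 := hball p hp y (by linarith) (not_lt.1 h4) h3
      have h6 := vtComp_iff (p := Γ.leg k u) (fun z hz => (h5 z hz).1) h2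
      exact ⟨fun hx => ⟨h6.1 hx.1, (h5 y (by rw [dist_self]; linarith)).2⟩,
        fun hy => ⟨h6.2 hy.1, (h5 x h2).2⟩⟩
  · rw [add_assoc]
    refine av_iff_all.2 (All.add (hml.mono ?_) ((hmid.add hYm).mono ?_))
    · rintro p q ⟨hp, -, hpq⟩ B ⟨z, -, s, hs, rfl⟩
      have := hp.2 z s ⟨hs.1, hs.2.trans (K.τ_lt_one 6).le⟩
      simp only
      linarith
    · rintro p q ⟨h1, h2, h3⟩ B ⟨z, -, s, hs, rfl⟩
      have h4 := K.big 6 z s hs
      have h5 := (vt_norm_le (le_refl (dist p (K.e z s)))).2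
      norm_num at h4
      simp only
      linarith
  · rw [add_assoc]
    refine av_iff_all.2 (All.add (hml.mono ?_) ((hmid.add hYm).mono ?_))
    · rintro p q ⟨hp, -, hpq⟩ B ⟨z, -, s, hs, rfl⟩
      have := hp.2 z s ⟨(K.τ_nonneg 11).trans hs.1, hs.2⟩
      simp only
      linarith
    · rintro p q ⟨h1, h2, h3⟩ B ⟨z, -, s, hs, rfl⟩
      have h4 := K.little 10 z s hs
      have h5 := (vt_norm_le (le_refl (dist p (K.e z s)))).1
      norm_num at h4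
      simp only
      linarith

end Germs

end Pool.Agent.Lib.MP_9e71a3_gt
end

-- part Pool.Agent.Lib.MP_9e71a3_gt.Vert
section

/-! Thin clean verticals, and connectivity in the small shell.  JOB Vert. -/

set_option autoImplicit false

namespace Pool.Agent.Lib.MP_9e71a3_gt

open Set Metric Filter Topology

/-- a clean vertical through a point of the leg of `k`, inside the `δ`-tube of `k` -/
structure Vert {X : Type} [MetricSpace X] {K : Cone X} (Γ : Germs K) (k : X) (δ : ℝ) where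
  u : ℝ
  vp : ℝ → E3
  vm : ℝ → E3
  sp : ℝ
  sm : ℝ
  ini : Γ.Ini k u δ
  vp_cont : Continuous vp
  vm_cont : Continuous vm
  vp_zero : vp 0 = Γ.leg k u
  vm_zero : vm 0 = Γ.leg k u
  vp_mem : ∀ w ∈ Icc (0:ℝ) 1, vp w ∈ (K.Wv \ K.C) ∩ K.tube δ k
  vm_mem : ∀ w ∈ Icc (0:ℝ) 1, vm w ∈ (K.Wv \ K.C) ∩ K.tube δ k
  vp_top : K.ρ 2 / 2 < ‖vp 1‖
  vm_bot : ‖vm 1‖ < 2 * K.ρ 16
  sp_mem : sp ∈ Icc (0:ℝ) 1
  sm_mem : sm ∈ Icc (0:ℝ) 1
  sp_dist : dist (vp 1) (K.e k sp) < δ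
  sm_dist : dist (vm 1) (K.e k sm) < δ

namespace Vert
variable {X : Type} [MetricSpace X] {K : Cone X} {Γ : Germs K} {k : X} {δ : ℝ} (v : Vert Γ k δ)

/-- upper half, continued along the cone line to infinity -/
noncomputable def VP (n : ℕ) : Ch E3 :=
  cC v.vp (n + 1) 0 1 + lnk (v.vp 1) (K.e k v.sp) + K.V n k 0 v.sp + K.J k
/-- lower half, continued along the cone line to the apex -/
noncomputable def VM (n : ℕ) : Ch E3 :=
  cC v.vm (n + 1) 0 1 + lnk (v.vm 1) (K.e k v.sm) + K.V n k v.sm 1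
noncomputable def vf (n : ℕ) : Ch E3 := v.VP n + v.VM n

variable [CompactSpace X] [ConnectedSpace X]

theorem bd_VP (n : ℕ) : bd (v.VP n) = two (Γ.leg k v.u) K.Pinf := by
  rw [VP, map_add, map_add, map_add, bd_cC _ (Nat.succ_pos n) (left_mem_Icc.2 zero_le_one)
    (right_mem_Icc.2 zero_le_one), bd_lnk, K.bd_V n k (left_mem_Icc.2 zero_le_one) v.sp_mem,
    K.bd_J, v.vp_zero]
  ext x
  simp only [two, Finsupp.add_apply]
  grind
theorem bd_VM (n : ℕ) : bd (v.VM n) = two (Γ.leg k v.u) 0 := by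
  rw [VM, map_add, map_add, bd_cC _ (Nat.succ_pos n) (left_mem_Icc.2 zero_le_one)
    (right_mem_Icc.2 zero_le_one), bd_lnk, K.bd_V n k v.sm_mem (right_mem_Icc.2 zero_le_one),
    K.apex, v.vm_zero]
  ext x
  simp only [two, Finsupp.add_apply]
  grind
theorem bd_vf (n : ℕ) : bd (v.vf n) = two 0 K.Pinf := by
  rw [vf, map_add, bd_VP, bd_VM]
  ext x
  simp only [two, Finsupp.add_apply]
  grind
theorem sp_lt (hδ : δ ≤ K.ρ 17) : v.sp < K.τ 2 := by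
  have h1 := vt_norm_le v.sp_dist.le
  have h2 := v.vp_top
  have h3 := K.ρ_anti (i := 2) (j := 17) (by norm_num) (by norm_num)
  have h4 := K.ρ_pos 17
  exact K.lev_lt (i := 1) (x := k) v.sp_mem (by norm_num; linarith)
theorem sm_gt (hδ : δ ≤ K.ρ 17) : K.τ 15 < v.sm := by
  have h1 := vt_norm_le v.sm_dist.le
  have h2 := v.vm_bot
  have h3 := K.ρ_anti (i := 16) (j := 17) (by norm_num) (by norm_num)
  have h4 := K.ρ_pos 17
  exact K.lev_gt (i := 15) (x := k) v.sm_mem (by norm_num; linarith)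

/-- description of the links of the two halves -/
theorem links (hδ : δ ≤ K.ρ 17) : ∃ μ > 0, ∀ r > 0, ∀ᶠ n in atTop,
    All (fun p q => (K.Cl μ p q ∧ dist p q < r ∧ p ∈ K.Wv ∩ K.tube δ k ∧
        JoinedIn (K.Wv ∩ K.clean μ ∩ K.tube δ k) (Γ.leg k v.u) p) ∨
      (dist p q < δ ∧ K.ρ 2 / 2 < ‖p‖ ∧ p ∈ K.tube δ k) ∨
      (dist p q < r ∧ K.Near {k} 0 (K.τ 2) 0 p) ∨ 5 * K.ρ 1 + dist p q < ‖p‖) (v.VP n) ∧
    All (fun p q => (K.Cl μ p q ∧ dist p q < r ∧ p ∈ K.Wv ∩ K.tube δ k ∧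
        JoinedIn (K.Wv ∩ K.clean μ ∩ K.tube δ k) (Γ.leg k v.u) p) ∨
      (dist p q < δ ∧ ‖p‖ < 2 * K.ρ 16 ∧ p ∈ K.tube δ k) ∨
      (dist p q < r ∧ K.Near {k} (K.τ 15) 1 0 p)) (v.VM n) := by
  obtain ⟨μ0, hμ0, hc⟩ := K.exists_clean (A := v.vp '' Icc 0 1 ∪ v.vm '' Icc 0 1)
    ((isCompact_Icc.image v.vp_cont).union (isCompact_Icc.image v.vm_cont)) (by
      rw [Set.disjoint_left]
      rintro _ (⟨w, hw, rfl⟩ | ⟨w, hw, rfl⟩)
      · exact (v.vp_mem w hw).1.2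
      · exact (v.vm_mem w hw).1.2)
  refine ⟨μ0 / 2, half_pos hμ0, fun r hr => ?_⟩
  have h01 : (0:ℝ) ∈ Icc (0:ℝ) 1 := left_mem_Icc.2 zero_le_one
  have h11 : (1:ℝ) ∈ Icc (0:ℝ) 1 := right_mem_Icc.2 zero_le_one
  have key : ∀ γ : ℝ → E3, Continuous γ → γ 0 = Γ.leg k v.u →
      (∀ w ∈ Icc (0:ℝ) 1, γ w ∈ (K.Wv \ K.C) ∩ K.tube δ k) →
      (∀ w ∈ Icc (0:ℝ) 1, γ w ∈ K.clean μ0) → ∀ᶠ n : ℕ in atTop,
      All (fun p q => K.Cl (μ0 / 2) p q ∧ dist p q < r ∧ p ∈ K.Wv ∩ K.tube δ k ∧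
        JoinedIn (K.Wv ∩ K.clean (μ0 / 2) ∩ K.tube δ k) (Γ.leg k v.u) p) (cC γ (n + 1) 0 1) := by
    intro γ hγ h0 hm hcl
    filter_upwards [vt_all_cC hγ (lt_min hr (half_pos hμ0))] with n hn
    refine (hn 1 h11).mono ?_
    rintro _ _ ⟨hd, s, hs, t, -, rfl, rfl⟩
    rw [lt_min_iff] at hd
    refine ⟨fun x s' hs' => by linarith [hcl s hs x s' hs', hd.2], hd.1,
      ⟨(hm s hs).1.1, (hm s hs).2⟩, ?_⟩
    rw [← h0]
    refine vt_joined_curve hγ hs.1 fun w hw => ?_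
    have hw' : w ∈ Icc (0:ℝ) 1 := ⟨hw.1, hw.2.trans hs.2⟩
    exact ⟨⟨(hm w hw').1.1, K.vt_clean_sub (hcl w hw') (r := 0) (by simp) (by linarith)⟩,
      (hm w hw').2⟩
  have hsm := v.sm_gt hδ
  filter_upwards [key v.vp v.vp_cont v.vp_zero v.vp_mem fun w hw => hc (Or.inl ⟨w, hw, rfl⟩),
    key v.vm v.vm_cont v.vm_zero v.vm_mem fun w hw => hc (Or.inr ⟨w, hw, rfl⟩),
    K.vt_all_V (lt_min hr (sub_pos.2 hsm))] with n h1 h2 hV
  refine ⟨All.add (All.add (All.add (h1.mono fun p q => Or.inl) (All.lnk ?_)) ?_)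
    ((K.J_out k).mono fun p q hpq => Or.inr (Or.inr (Or.inr hpq))),
    All.add (All.add (h2.mono fun p q => Or.inl) (All.lnk ?_)) ?_⟩
  · exact Or.inr (Or.inl ⟨v.sp_dist, v.vp_top, (v.vp_mem 1 h11).2⟩)
  · refine (hV k 0 h01 _ v.sp_mem).mono ?_
    rintro _ _ ⟨hd, s, t, hs, -, -, hst, ht, rfl, rfl⟩
    rw [max_eq_right v.sp_mem.1] at ht
    exact Or.inr (Or.inr (Or.inl ⟨hd.trans_le (min_le_left _ _), k, rfl, s,
      ⟨hs.1, by linarith [v.sp_lt hδ]⟩, by simp⟩))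
  · exact Or.inr (Or.inl ⟨v.sm_dist, v.vm_bot, (v.vm_mem 1 h11).2⟩)
  · refine (hV k _ v.sm_mem 1 h11).mono ?_
    rintro _ _ ⟨hd, s, t, hs, -, hsl, -, -, rfl, rfl⟩
    rw [min_eq_left v.sm_mem.2] at hsl
    exact Or.inr (Or.inr ⟨hd.trans_le (min_le_left _ _), k, rfl, s,
      ⟨by linarith [min_le_right r (v.sm - K.τ 15)], hs.2⟩, by simp⟩)

end Vert

namespace Germs
variable {X : Type} [MetricSpace X] [CompactSpace X] [ConnectedSpace X] {K : Cone X} (Γ : Germs K)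

/-- thin verticals are homologous to the cone line in a thin tube -/
theorem vert_thin {r : ℝ} (hr : 0 < r) : ∃ δ0 > 0, ∀ δ ≤ δ0, ∀ k ∈ Γ.G, ∀ v : Vert Γ k δ,
    ∀ᶠ n in atTop,
      Null (K.Bl {k} (K.τ 1) (K.τ 16) r) (Γ.up n k + Γ.Lg n k v.u 1 + v.VP n) ∧
      Null (K.Bl {k} (K.τ 1) (K.τ 16) r) (Γ.dn n k + Γ.Lg n k v.u 1 + v.VM n) ∧
      Null (K.Bl {k} (K.τ 1) (K.τ 16) r) (K.Vf n k + v.vf n) := by
  obtain ⟨η, hη, hT⟩ := K.tube_null hr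
  have p17 := K.ρ_pos 17
  refine ⟨min η (K.ρ 17), lt_min hη p17, fun δ hδ k hk v => ?_⟩
  have d1 : δ ≤ η := hδ.trans (min_le_left _ _)
  have d2 : δ ≤ K.ρ 17 := hδ.trans (min_le_right _ _)
  have h01 : (0:ℝ) ∈ Icc (0:ℝ) 1 := left_mem_Icc.2 zero_le_one
  have h11 : (1:ℝ) ∈ Icc (0:ℝ) 1 := right_mem_Icc.2 zero_le_one
  have hu01 : v.u ∈ Icc (0:ℝ) 1 := ⟨v.ini.1.1.le, v.ini.1.2⟩
  have hlv := Γ.lv_mem01 hk
  have hsp := K.vt_level (K.Wv_sub_Wb (v.vp_mem 1 h11).1.1) v.sp_mem (x := k)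
    (by linarith [v.sp_dist])
  have hsm := K.vt_level (K.Wv_sub_Wb (v.vm_mem 1 h11).1.1) v.sm_mem (x := k)
    (by linarith [v.sm_dist])
  have hl1 : K.τ 1 < Γ.lv k := (K.τ_mono (by norm_num)).trans_le (Γ.lv_mem k hk).1
  have hl2 := (Γ.vt_lv_le hk).2
  have hnear : ∀ p ∈ (K.Wv \ K.C) ∩ K.tube δ k, K.Near {k} (K.τ 1) (K.τ 16) η p := fun p hp =>
    K.vt_near_mono (K.vt_near_of_tube (K.Wv_sub_Wb hp.1.1) (by linarith) hp.2) (by simpa using d1)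
  have key : ∀ (γ : ℝ → E3) (s : ℝ), Continuous γ → γ 0 = Γ.leg k v.u → s ∈ Icc (0:ℝ) 1 →
      K.τ 1 < s ∧ s < K.τ 16 → dist (γ 1) (K.e k s) < δ →
      (∀ w ∈ Icc (0:ℝ) 1, γ w ∈ (K.Wv \ K.C) ∩ K.tube δ k) → ∀ᶠ n : ℕ in atTop,
      Null (K.Bl {k} (K.τ 1) (K.τ 16) r) (K.V n k s (Γ.lv k) + Γ.Lg n k 0 v.u +
        cC γ (n + 1) 0 1 + lnk (γ 1) (K.e k s)) := by
    intro γ s hγ h0 hs hs' hd hm
    filter_upwards [vt_all_cC hγ hη, vt_all_cC (Γ.leg_cont k) hη,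
      K.vt_all_V (lt_min hη (sub_pos.2 (lt_min hs'.1 hl1)))] with n h1 h2 hV
    refine hT _ k _ _ (K.τ_nonneg 1) le_rfl ?_ (All.add (All.add (All.add ?_ ?_) ?_) (All.lnk ?_))
    · rw [map_add, map_add, map_add, K.bd_V n k hs hlv, Lg, bd_cC _ (Nat.succ_pos n) h01 hu01,
        bd_cC _ (Nat.succ_pos n) h01 h11, bd_lnk, h0, Γ.leg_zero k hk]
      ext x
      simp only [two, Finsupp.add_apply, Finsupp.coe_zero, Pi.zero_apply]
      grind
    · refine (hV k s hs _ hlv).mono ?_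
      rintro _ _ ⟨hd', a, b, -, -, ha, hab, hb, rfl, rfl⟩
      have h3 := min_le_right η (min s (Γ.lv k) - K.τ 1)
      have h4 : b ≤ K.τ 16 := hb.trans (max_le hs'.2.le hl2)
      exact ⟨hd'.le.trans (min_le_left _ _),
        ⟨k, rfl, a, ⟨by linarith, by linarith⟩, by simp [hη.le]⟩,
        k, rfl, b, ⟨by linarith, h4⟩, by simp [hη.le]⟩
    · refine (h2 _ hu01).mono ?_
      rintro _ _ ⟨hd', a, ha, b, hb, rfl, rfl⟩
      exact ⟨hd'.le, ⟨k, rfl, _, ⟨hl1.le, hl2⟩, by linarith [v.ini.2 a ha]⟩,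
        k, rfl, _, ⟨hl1.le, hl2⟩, by linarith [v.ini.2 b hb]⟩
    · refine (h1 1 h11).mono ?_
      rintro _ _ ⟨hd', a, ha, b, hb, rfl, rfl⟩
      exact ⟨hd'.le, hnear _ (hm a ha), hnear _ (hm b hb)⟩
    · exact ⟨by linarith, hnear _ (hm 1 h11), k, rfl, s, ⟨hs'.1.le, hs'.2.le⟩, by simp [hη.le]⟩
  filter_upwards [key v.vp v.sp v.vp_cont v.vp_zero v.sp_mem hsp v.sp_dist v.vp_mem,
    key v.vm v.sm v.vm_cont v.vm_zero v.sm_mem hsm v.sm_dist v.vm_mem] with n h1 h2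
  have e1 : Γ.up n k + Γ.Lg n k v.u 1 + v.VP n = K.V n k v.sp (Γ.lv k) + Γ.Lg n k 0 v.u +
      cC v.vp (n + 1) 0 1 + lnk (v.vp 1) (K.e k v.sp) := by
    ext l
    simp only [up, Lg, Vert.VP, Cone.V, cC, Finsupp.add_apply]
    grind
  have e2 : Γ.dn n k + Γ.Lg n k v.u 1 + v.VM n = K.V n k v.sm (Γ.lv k) + Γ.Lg n k 0 v.u +
      cC v.vm (n + 1) 0 1 + lnk (v.vm 1) (K.e k v.sm) := by
    ext l
    simp only [dn, Lg, Vert.VM, Cone.V, cC, Finsupp.add_apply]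
    grind
  rw [← e1] at h1
  rw [← e2] at h2
  refine ⟨h1, h2, ?_⟩
  have e3 : K.Vf n k + v.vf n = (Γ.up n k + Γ.Lg n k v.u 1 + v.VP n) +
      (Γ.dn n k + Γ.Lg n k v.u 1 + v.VM n) := by
    rw [← Γ.up_add_dn n k, Vert.vf]
    ext l
    simp only [Finsupp.add_apply]
    grind
  rw [e3]
  exact h1.add h2

/-- K1 -/
theorem exists_vert {k : X} (hk : k ∈ Γ.G) {δ u0 : ℝ} (hδ : 0 < δ) (hu0 : 0 < u0) :
    ∃ v : Vert Γ k δ, v.u ≤ u0 := by
  obtain ⟨u, hu0, hu, ⟨x, ⟨γ, hγ⟩, hx⟩, y, ⟨γ', hγ'⟩, hy⟩ := Γ.vt_k1 hk hδ hu0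
  have hm : ∀ w, γ.extend w ∈ (K.Wv \ K.C) ∩ K.tube δ k := fun w => hγ _
  have hm' : ∀ w, γ'.extend w ∈ (K.Wv \ K.C) ∩ K.tube δ k := fun w => hγ' _
  obtain ⟨sp, hsp, h1⟩ := (hm 1).2
  obtain ⟨sm, hsm, h2⟩ := (hm' 1).2
  exact ⟨⟨u, γ.extend, γ'.extend, sp, sm, hu, γ.continuous_extend, γ'.continuous_extend,
    γ.extend_zero, γ'.extend_zero, fun w _ => hm w, fun w _ => hm' w,
    by rw [γ.extend_one]; exact hx, by rw [γ'.extend_one]; exact hy, hsp, hsm, h1, h2⟩, hu0⟩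

/-- SL, without control -/
theorem sl_univ {k k' : X} (hk : k ∈ Γ.G) (hk' : k' ∈ Γ.G) {u u' : ℝ} (hu : u ∈ Ioc (0:ℝ) 1)
    (hu' : u' ∈ Ioc (0:ℝ) 1) (h : JoinedIn (K.Wb \ K.C) (Γ.leg k u) (Γ.leg k' u')) :
    Γ.dom k = Γ.dom k' := by
  have p17 := K.ρ_pos 17
  obtain ⟨u1, h1, hi⟩ := Γ.exists_ini hk p17 hu.1
  obtain ⟨u1', h1', hi'⟩ := Γ.exists_ini hk' p17 hu'.1
  have hleg : ∀ g ∈ Γ.G, ∀ a b, 0 < a → a ≤ b → b ≤ 1 →
      JoinedIn (K.Wb \ K.C) (Γ.leg g a) (Γ.leg g b) := by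
    intro g hg a b ha hab hb
    refine vt_joined_curve (Γ.leg_cont g) hab fun w hw => ?_
    have := Γ.leg_mem g hg w ⟨ha.trans_le hw.1, hw.2.trans hb⟩
    exact ⟨K.Wv_sub_Wb (K.W_sub_Wv this.1), this.2⟩
  have hj := ((hleg k hk u1 u hi.1.1 h1 hu.2).trans h).trans
    (hleg k' hk' u1' u' hi'.1.1 h1' hu'.2).symm
  refine Γ.dom_eq_of_joined hk hk' hi.1 hi'.1 ?_
  by_contra hn
  obtain ⟨r2, hr2, hcore⟩ := Γ.vt_sl_core hk hk' hi hi' le_rfl (A0 := univ) (A1 := univ)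
    (A2 := univ) one_pos (by simp) (by simpa using hj) (by simpa using hn)
  obtain ⟨η1, hη1, hup⟩ := K.push_up0 hr2
  obtain ⟨η2, hη2, hdn⟩ := K.push_down0 hr2
  obtain ⟨δ1, hδ1, hU⟩ := K.UC (K.ρ_pos 13)
  obtain ⟨κ, hκ, hκl⟩ := Cone.exists_xchain hδ1 k k'
  have a1 := K.ρ_anti (i := 13) (j := 17) (by norm_num) (by norm_num)
  have a2 := K.ρ_anti (i := 12) (j := 13) (by norm_num) (by norm_num)
  have a3 := K.ρ_anti (i := 7) (j := 12) (by norm_num) (by norm_num)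
  have a4 := K.ρ_anti (i := 2) (j := 7) (by norm_num) (by norm_num)
  have a5 := K.ρ_anti (i := 1) (j := 2) (by norm_num) (by norm_num)
  have hY : All K.vtMid (K.lev (K.τ 8) κ) := by
    refine vt_all_map _ (hκl.mono fun x y hxy => ⟨?_, ?_⟩)
    · exact (hU x y _ (K.vt_τ_mem 8) _ (K.vt_τ_mem 8) hxy.le (by simp [hδ1.le])).le
    · exact K.vt_near_norm (U := univ) (ε := 0) ⟨x, mem_univ _, K.τ 8,
        ⟨K.vt_τ_le (by norm_num), K.vt_τ_le (by norm_num)⟩, by simp⟩ (K.ρ_pos 12).le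
  have hYb : bd (K.lev (K.τ 8) κ) = two (K.e k (K.τ 8)) (K.e k' (K.τ 8)) := by
    rw [K.bd_lev, hκ]
    simp only [two, Finsupp.mapDomain_add, Finsupp.mapDomain_single]
  obtain ⟨n, ⟨ζp, ζm, w0, hζp, hζm, hw0, hlp, hlm, hlw, hfin⟩, hn'⟩ :=
    ((hcore _ (lt_min (lt_min hη1 hη2) p17)).and (ms_small p17)).exists
  have b1 := (min_le_left (min η1 η2) (K.ρ 17)).trans (min_le_left _ _)
  have b2 := (min_le_left (min η1 η2) (K.ρ 17)).trans (min_le_right _ _)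
  have b3 := min_le_right (min η1 η2) (K.ρ 17)
  obtain ⟨hLk, hA1, hA2⟩ := hfin _ hYb hY
  have hw : bd (w0 + K.lev (K.τ 8) κ) = 0 := by rw [map_add, hw0, hYb, fs_add_self]
  obtain ⟨c', hc', hN, hA⟩ := hup ζp univ (K.τ 6) (K.vt_τ_le (by norm_num)) hζp
    (hlp.mono fun p q hpq => ⟨hpq.1.trans b1,
      K.vt_near_mono (hpq.2 (by simp)).1 (by rw [dist_self]; linarith),
      K.vt_near_mono (hpq.2 (by simp)).2 (by rw [dist_self]; linarith)⟩)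
  have hN' := hdn ζm univ (K.τ 11) (K.τ_nonneg 11) hζm
    (hlm.mono fun p q hpq => ⟨hpq.1.trans b2,
      K.vt_near_mono (hpq.2 (by simp)).1 (by rw [dist_self]; linarith),
      K.vt_near_mono (hpq.2 (by simp)).2 (by rw [dist_self]; linarith)⟩)
  have hball : ∀ p q : E3, dist p q ≤ K.ρ 13 → ‖p‖ < 2 * K.ρ 2 →
      p ∈ closedBall (0 : E3) (4 * K.ρ 1) ∧ q ∈ closedBall (0 : E3) (4 * K.ρ 1) := by
    intro p q h2 h3
    have h4 := (vt_norm_le h2).2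
    simp only [mem_closedBall, dist_zero_right]
    constructor <;> linarith
  have h0 := Lk_null_left (ms_pos n) hN hw hA1
  have h0' := Lk_null_right (ms_pos n) hc'
    (null_of_ball (T := {(0, 4 * K.ρ 1)}) (B := (0, 4 * K.ρ 1)) rfl hw (All.add (hlw.mono (by
      rintro p q ⟨h2, h3 | h3 | h3⟩
      · exact hball p q (by linarith) h3.1.1.2
      · exact hball p q (by linarith) (by linarith [(K.vt_near_norm h3 (by linarith)).2])
      · exact hball p q (by linarith) (by linarith [(K.vt_near_norm h3 (by linarith)).2])))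
      (hY.mono fun p q hpq => hball p q hpq.1 (by linarith [hpq.2.2]))))
    (vt_av_mono hA (by linarith))
  rw [Lk_add_left, h0', add_zero] at h0
  rw [h0, Lk_null_left (ms_pos n) hN' hw hA2] at hLk
  exact absurd hLk (by decide)

/-- SL, with control -/
theorem sl_tube {ε : ℝ} (hε : 0 < ε) : ∃ δ > 0, ∀ k ∈ Γ.G, ∀ k' ∈ Γ.G, ∀ u u',
    Γ.Ini k u δ → Γ.Ini k' u' δ →
    JoinedIn ((K.Wb \ K.C) ∩ K.tube δ k) (Γ.leg k u) (Γ.leg k' u') → Γ.small ε k k' := by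
  obtain ⟨R, hR, hsm⟩ := Γ.small_of_joined hε
  obtain ⟨r, hr, hkill⟩ := K.vt_kill hR
  obtain ⟨η0, hη0, hT⟩ := K.tube_null hr
  have p17 := K.ρ_pos 17
  have a1 := K.ρ_anti (i := 13) (j := 17) (by norm_num) (by norm_num)
  obtain ⟨η1, hη1, e1, e2, e3⟩ : ∃ η1 > 0, 4 * η1 ≤ η0 ∧ η1 ≤ K.ρ 17 ∧ 8 * η1 ≤ R :=
    ⟨min (η0 / 4) (min (K.ρ 17) (R / 8)), by positivity, by
      have := min_le_left (η0 / 4) (min (K.ρ 17) (R / 8)); linarith,
      (min_le_right _ _).trans (min_le_left _ _), by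
      have := (min_le_right (η0 / 4) _).trans (min_le_right (K.ρ 17) (R / 8)); linarith⟩
  obtain ⟨δ1, hδ1, hU⟩ := K.UC hη1
  obtain ⟨η2, hη2, hI⟩ := K.IM hδ1
  refine ⟨min η1 (η2 / 2), by positivity, fun k hk k' hk' u u' hu hu' hj => ?_⟩
  have d1 := min_le_left η1 (η2 / 2)
  have d2 := min_le_right η1 (η2 / 2)
  set δ := min η1 (η2 / 2) with hδ
  refine hsm k hk k' hk' u u' ⟨hu.1, fun w hw => by linarith [hu.2 w hw]⟩
    ⟨hu'.1, fun w hw => by linarith [hu'.2 w hw]⟩ ?_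
  by_contra hn
  have hkk : dist k' k ≤ δ1 := by
    obtain ⟨t, ht, h1⟩ := hj.target_mem.2
    have h2 := hu'.2 u' ⟨hu'.1.1.le, le_rfl⟩
    have h3 := dist_triangle (K.e k' (Γ.lv k')) (Γ.leg k' u') (K.e k t)
    rw [dist_comm _ (Γ.leg k' u')] at h3
    exact (hI k' k _ (Γ.vt_lv_le hk') t ht (by linarith)).1.le
  have hline : ∀ s ∈ Icc (0:ℝ) 1, dist (K.e k' s) (K.e k s) < η1 := fun s hs =>
    hU k' k s hs s hs hkk (by simp [hδ1.le])
  have htube : ∀ p ∈ K.tube (R / 4) k, ∀ z, dist z p ≤ η1 →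
      z ∈ K.tube (R / 2) k ∧ z ∈ K.tube R k := fun p hp z hz =>
    ⟨K.vt_tube_mono (K.vt_tube_add hp hz) (by linarith),
      K.vt_tube_mono (K.vt_tube_add hp hz) (by linarith)⟩
  obtain ⟨r2, hr2, hcore⟩ := Γ.vt_sl_core hk hk' hu hu' (by linarith) (A0 := K.tube δ k)
    (A1 := K.tube (R / 2) k) (A2 := K.tube R k) hη1
    (fun p hp => htube p (K.vt_tube_mono hp (by linarith))) hj hn
  obtain ⟨η3, hη3, hk3⟩ := hkill r2 hr2
  obtain ⟨n, ⟨ζp, ζm, w0, hζp, hζm, hw0, hlp, hlm, hlw, hfin⟩, hk3⟩ :=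
    ((hcore _ (lt_min hη3 hη1)).and hk3).exists
  have b1 := min_le_left η3 η1
  have b2 := min_le_right η3 η1
  have t8 : K.τ 8 ∈ Icc (K.τ 7) (K.τ 10) := ⟨K.vt_τ_le (by norm_num), K.vt_τ_le (by norm_num)⟩
  have tsub : ∀ s ∈ Icc (K.τ 7) (K.τ 10), s ∈ Icc (K.τ 1) (K.τ 16) := fun s hs =>
    ⟨(K.vt_τ_le (by norm_num)).trans hs.1, hs.2.trans (K.vt_τ_le (by norm_num))⟩
  have h8 := hline _ (K.vt_τ_mem 8)
  obtain ⟨hLk, hA1, hA2⟩ := hfin _ (bd_lnk _ _) (All.lnk ⟨by rw [dist_comm]; linarith,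
    K.vt_near_norm (U := univ) (ε := 0) ⟨k, mem_univ _, _, t8, by simp⟩ (K.ρ_pos 12).le⟩)
  have hN : Null (K.Bl {k} (K.τ 1) (K.τ 16) r) (w0 + lnk (K.e k (K.τ 8)) (K.e k' (K.τ 8))) := by
    refine hT _ k _ _ (K.τ_nonneg 1) le_rfl (by rw [map_add, hw0, bd_lnk, fs_add_self])
      (All.add (hlw.mono ?_) (All.lnk ⟨by rw [dist_comm]; linarith,
        ⟨k, rfl, _, tsub _ t8, by simp [hη0.le]⟩, k, rfl, _, tsub _ t8, by linarith⟩))
    rintro p q ⟨h1, h2⟩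
    have h3 : K.Near {k} (K.τ 1) (K.τ 16) (3 * η1) p := by
      rcases h2 with h2 | ⟨x, rfl, s, hs, h2⟩ | ⟨x, rfl, s, hs, h2⟩
      · exact K.vt_near_mono (K.vt_near_of_tube h2.1.1 (by linarith) h2.1.2)
          (by rw [dist_self]; linarith)
      · exact ⟨x, rfl, s, tsub s hs, by linarith⟩
      · have h4 := hline s ⟨(K.τ_nonneg 7).trans hs.1, hs.2.trans (K.τ_lt_one 10).le⟩
        exact ⟨k, rfl, s, tsub s hs, by linarith [dist_triangle p (K.e x s) (K.e k s)]⟩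
    exact ⟨by linarith, K.vt_near_mono h3 (by rw [dist_self]; linarith),
      K.vt_near_mono h3 (by rw [dist_comm]; linarith)⟩
  have z1 := hk3 k 0 (K.τ 6) (K.τ 6) 0 ζp _ le_rfl (K.τ_lt_one 6).le le_rfl
    (K.vt_τ_le (by norm_num)) ⟨le_rfl, K.τ_nonneg 6⟩ (Or.inl rfl) hζp
    (hlp.mono fun p q hpq => ⟨hpq.1.trans b1, fun hp =>
      ⟨K.vt_near_mono (hpq.2 fun z hz => htube p hp z (hz.trans b2)).1
        (by rw [dist_self]; linarith),
      K.vt_near_mono (hpq.2 fun z hz => htube p hp z (hz.trans b2)).2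
        (by rw [dist_self]; linarith)⟩⟩) hN hA1
  have z2 := hk3 k (K.τ 11) 1 (K.τ 16) 1 ζm _ (K.τ_nonneg 11) le_rfl (K.τ_lt_one 16).le le_rfl
    ⟨(K.τ_lt_one 11).le, le_rfl⟩ (Or.inr rfl) hζm
    (hlm.mono fun p q hpq => ⟨hpq.1.trans b1, fun hp =>
      ⟨K.vt_near_mono (hpq.2 fun z hz => htube p hp z (hz.trans b2)).1
        (by rw [dist_self]; linarith),
      K.vt_near_mono (hpq.2 fun z hz => htube p hp z (hz.trans b2)).2
        (by rw [dist_self]; linarith)⟩⟩) hN hA2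
  rw [z1, z2] at hLk
  exact absurd hLk (by decide)

end Germs

end Pool.Agent.Lib.MP_9e71a3_gt
end

-- part Pool.Agent.Lib.MP_9e71a3_gt.WallA
section

/-! Helper lemmas for walls: elementary geometry, link predicates, the cut of a cochain. -/

set_option autoImplicit false
set_option linter.unusedSectionVars false

namespace Pool.Agent.Lib.MP_9e71a3_gt

open Set Metric Filter Topology

namespace WallH

theorem joined_ball {O : Set E3} {x y z : E3} {ν : ℝ} (h : closedBall x ν ⊆ O)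
    (hy : dist y x ≤ ν) (hz : dist z x ≤ ν) : JoinedIn O y z :=
  (((convex_closedBall x ν).isPathConnected ⟨y, hy⟩).joinedIn y hy z hz).mono h

theorem joined_comp {U : Set E3} {p q : E3} (h : JoinedIn U p q) :
    JoinedIn (pathComponentIn U p) p q :=
  (isPathConnected_pathComponentIn h.source_mem).joinedIn p (JoinedIn.refl h.source_mem) q h

theorem norm_le_add (p q : E3) : ‖p‖ ≤ ‖q‖ + dist p q := by
  have := dist_triangle p q 0
  simp only [dist_zero_right] at this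
  linarith

theorem norm_le_add' (p q : E3) : ‖p‖ ≤ ‖q‖ + dist q p := by
  rw [dist_comm]; exact norm_le_add p q

theorem pair_rho_zero {h : ℝ} (hh : 0 < h) {F : C1} {c : Ch E3} {S : E3 → Prop}
    (hF : ∀ e, F e ≠ 0 → S (pt h e.2))
    (hc : All (fun p q => ∀ y, dist y p ≤ dist p q + h → ¬ S y) c) : pair F (rho h c) = 0 := by
  refine pair_eq_zero fun e he => ?_
  by_contra hne
  obtain ⟨l, hl, h1, -⟩ := rho_support hh he
  exact hc l hl _ h1 (hF e hne)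

theorem sh_rho_ne {h : ℝ} (hh : 0 < h) {c : Ch E3} {e : Ed} (he : sh (rho h c) e ≠ 0) :
    ∃ l ∈ c.support, dist (pt h e.2) l.1 ≤ dist l.1 l.2 + h := by
  have : (e.1, e.2 - ee e.1) ∈ (rho h c).support := Finsupp.mem_support_iff.2 he
  obtain ⟨l, hl, -, h2⟩ := rho_support hh this
  refine ⟨l, hl, ?_⟩
  simpa using h2

theorem sum_two {A M : Type} [AddCommGroup M] [Module Z2 M] (x y : A) (F : A → M) :
    (two x y).sum (fun z c => c • F z) = F x + F y := by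
  unfold two
  rw [Finsupp.sum_add_index' (by simp) (by intro a b c; rw [add_smul])]
  simp [Finsupp.sum_single_index]

theorem all_fsum {A B : Type} {Q : B → B → Prop} (s : A →₀ Z2) (F : A → Ch B)
    (h : ∀ p ∈ s.support, All Q (F p)) : All Q (s.sum fun p k => k • F p) :=
  All.sum _ _ fun p hp => All.smul _ (h p hp)

theorem All.and {A : Type} {Q Q' : A → A → Prop} {c : Ch A} (h : All Q c) (h' : All Q' c) :
    All (fun p q => Q p q ∧ Q' p q) c := fun l hl => ⟨h l hl, h' l hl⟩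

theorem av_mono {T : Set (E3 × ℝ)} {m m' : ℝ} {c : Ch E3} (h : Av T m c) (hm : m' ≤ m) :
    Av T m' c := fun l hl B hB => by have := h l hl B hB; linarith

/-- links of a discretised curve -/
theorem all_curve {γ : ℝ → E3} (hγ : Continuous γ) {r : ℝ} (hr : 0 < r) : ∀ᶠ n : ℕ in atTop,
    All (fun p q => dist p q < r) (cC γ (n + 1) 0 1) := by
  filter_upwards [eventually_fine hγ hr] with n hn
  refine all_cC γ (Nat.succ_pos n) ⟨le_rfl, zero_le_one⟩ ⟨zero_le_one, le_rfl⟩ ?_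
  intro u v hu _ huv hv hd
  rw [max_eq_right zero_le_one] at hv
  exact hn u ⟨hu, huv.trans hv⟩ v ⟨hu.trans huv, hv⟩ (by rw [abs_of_nonneg (by linarith)]; exact hd)

/-- cutting a cochain to a path component -/
theorem cut {h : ℝ} (hh : 0 < h) (O S G : Set E3) (p : E3) (E1 b : C1)
    (hd : ∀ e : Ed, pt h e.2 ∈ S → d1 E1 e = b e)
    (hz : ∀ x ∈ S, x ∉ G → ∀ e' : Ed, dist (pt h e'.2) x ≤ h → E1 e' = 0)
    (hj : ∀ x ∈ S, x ∈ G → closedBall x h ⊆ O)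
    (hb : ∀ e : Ed, pt h e.2 ∈ S → pt h e.2 ∈ G → b e ≠ 0 → JoinedIn O p (pt h e.2)) :
    ∃ E : C1, (∀ e : Ed, pt h e.2 ∈ S → d1 E e = b e) ∧
      ∀ e : Ed, E e ≠ 0 → JoinedIn O p (pt h e.2) := by
  classical
  refine ⟨fun e => if JoinedIn O p (pt h e.2) then E1 e else 0, ?_, ?_⟩
  · intro e he
    have d0 : dist (pt h e.2) (pt h e.2) ≤ h := by rw [dist_self]; exact hh.le
    have d1' : ∀ i, dist (pt h (e.2 + ee i)) (pt h e.2) ≤ h := fun i => (dist_pt_ee hh e.2 i).le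
    by_cases hG : pt h e.2 ∈ G
    · by_cases hP : JoinedIn O p (pt h e.2)
      · have hP' : ∀ i, JoinedIn O p (pt h (e.2 + ee i)) := fun i =>
          hP.trans (joined_ball (hj _ he hG) d0 (d1' i))
        rw [← hd e he]
        simp only [d1, if_pos hP, if_pos (hP' _)]
      · have hP' : ∀ i, ¬ JoinedIn O p (pt h (e.2 + ee i)) := fun i hi =>
          hP (hi.trans (joined_ball (hj _ he hG) (d1' i) d0))
        have : b e = 0 := by
          by_contra hne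
          exact hP (hb e he hG hne)
        rw [this]
        simp only [d1, if_neg hP, if_neg (hP' _), add_zero]
    · have z0 : ∀ i, E1 (i, e.2) = 0 := fun i => hz _ he hG _ d0
      have z1 : ∀ i j, E1 (i, e.2 + ee j) = 0 := fun i j => hz _ he hG _ (d1' j)
      rw [← hd e he]
      simp only [d1, z0, z1, ite_self]
  · intro e he
    by_contra hP
    exact he (if_neg hP)

variable {X : Type} [MetricSpace X] [CompactSpace X] [ConnectedSpace X] (K : Cone X)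

theorem rho_all : 0 < K.ρ 17 ∧ 100 * K.ρ 17 < K.ρ 16 ∧ 100 * K.ρ 16 < K.ρ 15 ∧
    100 * K.ρ 15 < K.ρ 14 ∧ 100 * K.ρ 14 < K.ρ 13 ∧ 100 * K.ρ 13 < K.ρ 12 ∧
    100 * K.ρ 12 < K.ρ 11 ∧ 100 * K.ρ 11 < K.ρ 7 ∧ 100 * K.ρ 7 < K.ρ 6 ∧ 100 * K.ρ 6 < K.ρ 4 ∧
    100 * K.ρ 4 < K.ρ 3 ∧ 100 * K.ρ 3 < K.ρ 2 ∧ 100 * K.ρ 2 < K.ρ 1 :=
  ⟨K.ρ_pos _, K.ρ_anti (by omega) (by omega), K.ρ_anti (by omega) (by omega),
    K.ρ_anti (by omega) (by omega), K.ρ_anti (by omega) (by omega), K.ρ_anti (by omega) (by omega),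
    K.ρ_anti (by omega) (by omega), K.ρ_anti (by omega) (by omega), K.ρ_anti (by omega) (by omega),
    K.ρ_anti (by omega) (by omega), K.ρ_anti (by omega) (by omega), K.ρ_anti (by omega) (by omega),
    K.ρ_anti (by omega) (by omega)⟩

theorem tau01 (i : ℕ) : K.τ i ∈ Icc (0:ℝ) 1 := ⟨K.τ_nonneg i, (K.τ_lt_one i).le⟩

theorem tau_le {i j : ℕ} (h : i ≤ j) : K.τ i ≤ K.τ j := by
  rcases h.eq_or_lt with rfl | h
  · exact le_rfl
  · exact (K.τ_mono h).le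

theorem rho_lev_one (h : ℝ) (κ : Ch X) : rho h (K.lev 1 κ) = 0 := by
  induction κ using Finsupp.induction_linear with
  | zero => simp
  | add f g hf hg => rw [map_add, map_add, hf, hg, add_zero]
  | single l c =>
    rcases z2_cases c with rfl | rfl
    · simp
    · have : K.lev 1 (Finsupp.single l 1) = lnk 0 0 := by
        simp [Cone.lev, Finsupp.mapDomain.addMonoidHom, Finsupp.mapDomain_single, lnk, K.apex]
      rw [this]
      exact rho_lnk_of_fl_eq rfl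

theorem all_lev {t : ℝ} {κ : Ch X} {Q : E3 → E3 → Prop}
    (h : All (fun x y => Q (K.e x t) (K.e y t)) κ) : All Q (K.lev t κ) := by
  classical
  intro l hl
  have := Finsupp.mapDomain_support (f := fun l : X × X => (K.e l.1 t, K.e l.2 t)) (s := κ) hl
  obtain ⟨m, hm, rfl⟩ := Finset.mem_image.1 this
  exact h m hm

theorem bd_lev_two (t : ℝ) {κ : Ch X} {x y : X} (h : bd κ = two x y) :
    bd (K.lev t κ) = two (K.e x t) (K.e y t) := by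
  rw [K.bd_lev, h, two, two, Finsupp.mapDomain_add, Finsupp.mapDomain_single,
    Finsupp.mapDomain_single]

variable {K}

theorem clean_near {μ μ' ν : ℝ} {p q : E3} (hp : p ∈ K.clean μ) (hq : dist q p ≤ ν)
    (h : μ' + ν ≤ μ) : q ∈ K.clean μ' := by
  intro x s hs
  have h1 := hp x s hs
  have h2 := dist_triangle p q (K.e x s)
  rw [dist_comm p q] at h2
  linarith

theorem clean_mono {μ μ' : ℝ} (h : μ' ≤ μ) : K.clean μ ⊆ K.clean μ' := fun p hp =>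
  clean_near (ν := 0) hp (by simp) (by linarith)

theorem tube_near {ε ε' ν : ℝ} {x : X} {p q : E3} (hp : p ∈ K.tube ε x) (hq : dist q p ≤ ν)
    (h : ε + ν ≤ ε') : q ∈ K.tube ε' x := by
  obtain ⟨s, hs, h1⟩ := hp
  refine ⟨s, hs, ?_⟩
  have h2 := dist_triangle q p (K.e x s)
  linarith

theorem tube_mono {ε ε' : ℝ} (x : X) (h : ε ≤ ε') : K.tube ε x ⊆ K.tube ε' x := fun p hp =>
  tube_near (ν := 0) hp (by simp) (by linarith)

theorem Cl_mono {μ μ' : ℝ} {p q : E3} (hp : K.Cl μ p q) (h : μ' ≤ μ) : K.Cl μ' p q := by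
  intro x s hs
  have := hp x s hs
  linarith

theorem Cl_of_clean {μ μ' : ℝ} {p q : E3} (hp : p ∈ K.clean μ) (h : μ' + dist p q ≤ μ) :
    K.Cl μ' p q := by
  intro x s hs
  have := hp x s hs
  linarith

theorem dirty_of_near {μ : ℝ} {p : E3} {x : X} {s : ℝ} (hs : s ∈ Icc (0:ℝ) 1)
    (h : dist p (K.e x s) ≤ μ) : p ∉ K.clean μ := fun hp => absurd (hp x s hs) (not_lt.2 h)

theorem near_near {U : Set X} {a b η η' ν : ℝ} {p q : E3} (hp : K.Near U a b η p)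
    (hq : dist q p ≤ ν) (h : η + ν ≤ η') : K.Near U a b η' q := by
  obtain ⟨x, hx, s, hs, h1⟩ := hp
  refine ⟨x, hx, s, hs, ?_⟩
  have h2 := dist_triangle q p (K.e x s)
  linarith

theorem near_of_dirty {μ : ℝ} {p : E3} (hμ : μ ≤ K.ρ 17) (hp : p ∉ K.clean μ)
    (h1 : K.ρ 14 / 4 ≤ ‖p‖) (h2 : ‖p‖ ≤ 4 * K.ρ 4) : K.Near univ (K.τ 3) (K.τ 14) μ p := by
  obtain ⟨r17, r16, r15, r14, r13, r12, r11, r7, r6, r4, r3, r2, r1⟩ := rho_all K
  simp only [Cone.clean, mem_ofPred_eq, not_forall, not_lt] at hp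
  obtain ⟨x, s, hs, hd⟩ := hp
  have a1 := norm_le_add p (K.e x s)
  have a2 := norm_le_add' (K.e x s) p
  refine ⟨x, mem_univ _, s, ⟨(K.lev_gt (i := 3) (x := x) hs ?_).le,
    (K.lev_lt (i := 13) (x := x) hs ?_).le⟩, hd⟩
  · norm_num; linarith
  · norm_num; linarith

theorem joined_clean {S : Set E3} {p q : E3} (h : JoinedIn S p q) (hS : ∀ x ∈ S, x ∉ K.C) :
    ∃ μ > 0, JoinedIn (S ∩ K.clean μ) p q := by
  obtain ⟨γ, hγ⟩ := h
  have hc : IsCompact (range γ) := isCompact_range γ.continuous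
  obtain ⟨μ, hμ, hA⟩ := K.exists_clean hc (by
    rw [Set.disjoint_left]
    rintro _ ⟨t, rfl⟩
    exact hS _ (hγ t))
  exact ⟨μ, hμ, γ, fun t => ⟨hγ t, hA ⟨t, rfl⟩⟩⟩

theorem mem_Wb_near {p q : E3} (h1 : K.ρ 14 / 4 ≤ ‖p‖) (h2 : ‖p‖ ≤ 4 * K.ρ 4)
    (hq : dist q p ≤ K.ρ 17) : q ∈ K.Wb := by
  obtain ⟨r17, r16, r15, r14, r13, r12, r11, r7, r6, r4, r3, r2, r1⟩ := rho_all K
  have a1 := norm_le_add q p
  have a2 := norm_le_add' p q
  constructor <;> linarith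

theorem norm_top {i : ℕ} {x : X} {s : ℝ} (h0 : 0 ≤ s) (hs : s ≤ K.τ i) :
    10 * K.ρ (i + 1) < ‖K.e x s‖ := K.big i x s ⟨h0, hs⟩

theorem norm_bot {i : ℕ} {x : X} {s : ℝ} (h0 : K.τ (i + 1) ≤ s) (hs : s ≤ 1) :
    ‖K.e x s‖ < K.ρ (i + 1) / 10 := K.little i x s ⟨h0, hs⟩

variable (K)

/-- links of upper chains -/
def Up (μ : ℝ) (p q : E3) : Prop := K.Cl μ p q ∨ 5 * K.ρ 3 + dist p q < ‖p‖
/-- links of lower chains -/
def Dn (μ : ℝ) (p q : E3) : Prop :=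
  (K.Cl μ p q ∨ ‖p‖ + dist p q < K.ρ 15 / 5) ∧ ‖p‖ + dist p q ≤ K.ρ 1
/-- links that are short and joined to the foot, or far from the shell -/
def Ft (O : Set E3) (p0 : E3) (r : ℝ) (p q : E3) : Prop :=
  (dist p q < r ∧ JoinedIn O p0 p) ∨ 3 * K.ρ 4 + dist p q < ‖p‖ ∨ ‖p‖ + dist p q < K.ρ 14 / 3

variable {K}

theorem av_up {μ r m a b : ℝ} {U : Set X} {z : Ch E3} (hz : All (Up K μ) z) (ha : K.τ 3 ≤ a)
    (hb : b ≤ 1) (h1 : r + m ≤ μ) (h2 : r + m ≤ K.ρ 3) : Av (K.Bl U a b r) m z := by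
  rintro l hl B ⟨x, -, s, hs, rfl⟩
  have h3 := K.τ_nonneg 3
  rcases hz l hl with h | h
  · have := h x s ⟨by linarith [hs.1], hs.2.trans hb⟩
    simp only
    linarith
  · have a1 := norm_bot (K := K) (i := 2) (x := x) (ha.trans hs.1) (hs.2.trans hb)
    have a2 := norm_le_add l.1 (K.e x s)
    have a3 := K.ρ_pos 3
    norm_num at a1
    simp only
    linarith

theorem av_dn {μ r m a b : ℝ} {U : Set X} {z : Ch E3} (hz : All (Dn K μ) z) (ha : 0 ≤ a)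
    (hb : b ≤ K.τ 14) (h1 : r + m ≤ μ) (h2 : r + m ≤ K.ρ 15) : Av (K.Bl U a b r) m z := by
  rintro l hl B ⟨x, -, s, hs, rfl⟩
  have h3 := K.τ_lt_one 14
  rcases (hz l hl).1 with h | h
  · have := h x s ⟨ha.trans hs.1, by linarith [hs.2]⟩
    simp only
    linarith
  · have a1 := norm_top (K := K) (i := 14) (x := x) (ha.trans hs.1) (hs.2.trans hb)
    have a2 := norm_le_add' (K.e x s) l.1
    have a3 := K.ρ_pos 15
    norm_num at a1
    simp only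
    linarith

theorem null_dn {μ : ℝ} {z : Ch E3} (hz : All (Dn K μ) z) (hb : bd z = 0) :
    Null {((0 : E3), 4 * K.ρ 1)} z := by
  refine null_of_ball (B := ((0 : E3), 4 * K.ρ 1)) (mem_singleton _) hb ?_
  refine All.mono hz fun p q h => ?_
  have a1 := h.2
  have a2 := norm_le_add' q p
  have a3 := K.ρ_pos 1
  have a4 := dist_nonneg (x := p) (y := q)
  simp only [mem_closedBall, dist_zero_right]
  constructor <;> linarith

theorem Up.mono {μ μ' : ℝ} {p q : E3} (h : Up K μ p q) (hμ : μ' ≤ μ) : Up K μ' p q :=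
  h.imp (fun h => Cl_mono h hμ) id

theorem Dn.mono {μ μ' : ℝ} {p q : E3} (h : Dn K μ p q) (hμ : μ' ≤ μ) : Dn K μ' p q :=
  ⟨h.1.imp (fun h => Cl_mono h hμ) id, h.2⟩

theorem Ft.mono {O O' : Set E3} {p0 p0' : E3} {r : ℝ} {p q : E3} (h : Ft K O p0 r p q)
    (hO : O ⊆ O') (hj : JoinedIn O' p0' p0) : Ft K O' p0' r p q :=
  h.imp (fun h => ⟨h.1, hj.trans (h.2.mono hO)⟩) id

/-- the links of a vertical -/
theorem vert_links {Γ : Germs K} {k : X} {δ : ℝ} (v : Vert Γ k δ) (hδ : δ ≤ K.ρ 17) :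
    ∃ μ > 0, ∀ r > 0, ∀ᶠ n in atTop, All (Up K μ) (v.VP n) ∧ All (Dn K μ) (v.VM n) ∧
      All (Ft K (K.Wv ∩ K.clean μ ∩ K.tube δ k) (Γ.leg k v.u) r) (v.vf n) := by
  obtain ⟨r17, r16, r15, r14, r13, r12, r11, r7, r6, r4, r3, r2, r1⟩ := rho_all K
  obtain ⟨μ, hμ, h⟩ := v.links hδ
  refine ⟨μ, hμ, fun r hr => ?_⟩
  filter_upwards [h (min r (K.ρ 17)) (lt_min hr r17)] with n hn
  obtain ⟨hP, hM⟩ := hn
  have m1 := min_le_left r (K.ρ 17)
  have m2 := min_le_right r (K.ρ 17)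
  have top : ∀ p, K.Near {k} 0 (K.τ 2) 0 p → 10 * K.ρ 3 < ‖p‖ := by
    rintro p ⟨x, -, s, hs, hd⟩
    rw [dist_le_zero.1 hd]
    exact norm_top hs.1 hs.2
  have bot : ∀ p, K.Near {k} (K.τ 15) 1 0 p → ‖p‖ < K.ρ 15 / 10 := by
    rintro p ⟨x, -, s, hs, hd⟩
    rw [dist_le_zero.1 hd]
    exact norm_bot (i := 14) hs.1 hs.2
  refine ⟨hP.mono ?_, hM.mono ?_, All.add (hP.mono ?_) (hM.mono ?_)⟩
  · rintro p q (h | h | h | h)
    · exact Or.inl h.1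
    · exact Or.inr (by linarith [h.1, h.2.1])
    · exact Or.inr (by linarith [h.1, top p h.2])
    · exact Or.inr (by linarith)
  · rintro p q (h | h | h)
    · exact ⟨Or.inl h.1, by linarith [h.2.1, h.2.2.1.1.2]⟩
    · exact ⟨Or.inr (by linarith [h.1, h.2.1]), by linarith [h.1, h.2.1]⟩
    · exact ⟨Or.inr (by linarith [h.1, bot p h.2]), by linarith [h.1, bot p h.2]⟩
  · rintro p q (h | h | h | h)
    · exact Or.inl ⟨by linarith [h.2.1], h.2.2.2⟩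
    · exact Or.inr (Or.inl (by linarith [h.1, h.2.1]))
    · exact Or.inr (Or.inl (by linarith [h.1, top p h.2]))
    · exact Or.inr (Or.inl (by linarith))
  · rintro p q (h | h | h)
    · exact Or.inl ⟨by linarith [h.2.1], h.2.2.2⟩
    · exact Or.inr (Or.inr (by linarith [h.1, h.2.1]))
    · exact Or.inr (Or.inr (by linarith [h.1, bot p h.2]))

/-- from a cochain that vanishes on dirty edges to a wall -/
theorem finish {h μ ν : ℝ} (hh : 0 < h) (hν : ν ≤ K.ρ 17) (hμ : 8 * ν ≤ μ) (hhν : 2 * h ≤ ν)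
    {T0 T1 T2 : Set E3} (h01 : ∀ x ∈ T1, closedBall x ν ⊆ T0) (h12 : ∀ x ∈ T2, closedBall x ν ⊆ T1)
    {p : E3} {c : Ch E3} {E1 : C1} (hd : d1 E1 = sh (rho h c))
    (hz : ∀ e : Ed, K.ρ 14 / 4 ≤ ‖pt h e.2‖ → ‖pt h e.2‖ ≤ 4 * K.ρ 4 →
      (pt h e.2 ∉ K.clean μ ∨ pt h e.2 ∉ T2) → E1 e = 0)
    (hc : All (Ft K (K.Wb ∩ K.clean (μ / 4) ∩ T0) p (ν / 2)) c) :
    ∃ E : C1, (∀ e : Ed, pt h e.2 ∈ K.W1 → d1 E e = sh (rho h c) e) ∧
      ∀ e : Ed, E e ≠ 0 → JoinedIn (K.Wb ∩ K.clean (μ / 4) ∩ T0) p (pt h e.2) := by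
  obtain ⟨r17, r16, r15, r14, r13, r12, r11, r7, r6, r4, r3, r2, r1⟩ := rho_all K
  have hball : ∀ x ∈ K.W1, x ∈ K.clean (μ / 2) ∩ T1 →
      closedBall x ν ⊆ K.Wb ∩ K.clean (μ / 4) ∩ T0 := by
    intro x hx hG y hy
    refine ⟨⟨mem_Wb_near (p := x) (by linarith [hx.1]) (by linarith [hx.2]) (le_trans hy hν),
      clean_near hG.1 hy (by linarith)⟩, h01 x hG.2 hy⟩
  refine cut hh _ K.W1 (K.clean (μ / 2) ∩ T1) p E1 _ (fun e _ => by rw [hd]) ?_ ?_ ?_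
  · intro x hx hG e he
    have a1 := norm_le_add (pt h e.2) x
    have a2 := norm_le_add' x (pt h e.2)
    refine hz e (by linarith [hx.1]) (by linarith [hx.2]) ?_
    by_contra hcon
    push Not at hcon
    refine hG ⟨clean_near hcon.1 (ν := h) (by rwa [dist_comm]) (by linarith), h12 _ hcon.2 ?_⟩
    rw [mem_closedBall, dist_comm]
    linarith
  · intro x hx hG
    exact (closedBall_subset_closedBall (by linarith)).trans (hball x hx hG)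
  · intro e he hG hb
    obtain ⟨l, hl, hd⟩ := sh_rho_ne hh hb
    have a1 := norm_le_add (pt h e.2) l.1
    have a2 := norm_le_add' l.1 (pt h e.2)
    rcases hc l hl with h1 | h1 | h1
    · refine h1.2.trans (joined_ball (hball _ he hG) ?_ ?_)
      · rw [dist_comm]; linarith [h1.1]
      · rw [dist_self]; linarith
    · linarith [he.2]
    · linarith [he.1]

end WallH

end Pool.Agent.Lib.MP_9e71a3_gt
end

-- part Pool.Agent.Lib.MP_9e71a3_gt.WallB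
section

/-! The fat wall. -/

set_option autoImplicit false
set_option linter.unusedSectionVars false

namespace Pool.Agent.Lib.MP_9e71a3_gt

open Set Metric Filter Topology

namespace WallH

variable {X : Type} [MetricSpace X] [CompactSpace X] [ConnectedSpace X] {K : Cone X}

theorem near_mono {U : Set X} {a b a' b' η η' : ℝ} {p : E3} (hp : K.Near U a b η p) (ha : a' ≤ a)
    (hb : b ≤ b') (h : η ≤ η') : K.Near U a' b' η' p := by
  obtain ⟨x, hx, s, hs, h1⟩ := hp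
  exact ⟨x, hx, s, ⟨ha.trans hs.1, hs.2.trans hb⟩, h1.trans h⟩

theorem bd_zp {Γ : Germs K} {k k' : X} {δ δ' : ℝ} (v : Vert Γ k δ) (v' : Vert Γ k' δ') (n : ℕ)
    {m : Ch E3} (hm : bd m = two (Γ.leg k v.u) (Γ.leg k' v'.u)) :
    bd (v.VP n + m + v'.VP n) = 0 := by
  rw [map_add, map_add, v.bd_VP, v'.bd_VP, hm]
  simp only [two]; ext l; simp only [Finsupp.add_apply, Finsupp.zero_apply]; clear * -; grind

theorem bd_zm {Γ : Germs K} {k k' : X} {δ δ' : ℝ} (v : Vert Γ k δ) (v' : Vert Γ k' δ') (n : ℕ)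
    {m : Ch E3} (hm : bd m = two (Γ.leg k v.u) (Γ.leg k' v'.u)) :
    bd (v.VM n + m + v'.VM n) = 0 := by
  rw [map_add, map_add, v.bd_VM, v'.bd_VM, hm]
  simp only [two]; ext l; simp only [Finsupp.add_apply, Finsupp.zero_apply]; clear * -; grind

theorem zp_add_zm {Γ : Germs K} {k k' : X} {δ δ' : ℝ} (v : Vert Γ k δ) (v' : Vert Γ k' δ') (n : ℕ)
    (m : Ch E3) :
    (v.VP n + m + v'.VP n) + (v.VM n + m + v'.VM n) = v.vf n + v'.vf n := by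
  simp only [Vert.vf]; ext l; simp only [Finsupp.add_apply]; grind

theorem bd_Lg (Γ : Germs K) (n : ℕ) (k : X) {a b : ℝ} (ha : a ∈ Icc (0:ℝ) 1)
    (hb : b ∈ Icc (0:ℝ) 1) : bd (Γ.Lg n k a b) = two (Γ.leg k a) (Γ.leg k b) :=
  bd_cC _ (Nat.succ_pos n) ha hb

theorem bd_LgLg (Γ : Germs K) (n : ℕ) {k k' : X} (hk : k ∈ Γ.G) (hk' : k' ∈ Γ.G)
    (hd : Γ.dom k = Γ.dom k') {u u' : ℝ} (hu : u ∈ Ioc (0:ℝ) 1) (hu' : u' ∈ Ioc (0:ℝ) 1) :
    bd (Γ.Lg n k u 1 + Γ.Lg n k' u' 1) = two (Γ.leg k u) (Γ.leg k' u') := by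
  rw [map_add, bd_Lg Γ n k ⟨hu.1.le, hu.2⟩ ⟨zero_le_one, le_rfl⟩,
    bd_Lg Γ n k' ⟨hu'.1.le, hu'.2⟩ ⟨zero_le_one, le_rfl⟩, Γ.leg_one k hk k' hk' hd]
  simp only [two]; ext l; simp only [Finsupp.add_apply]; clear * -; grind

theorem up_of_cl {μ μ' : ℝ} {p q : E3} (h : K.Cl μ p q) (hμ : μ' ≤ μ) : Up K μ' p q :=
  Or.inl (Cl_mono h hμ)

theorem dn_of_cl {μ μ' : ℝ} {p q : E3} (h : K.Cl μ p q) (hμ : μ' ≤ μ) (hp : p ∈ K.W)
    (hq : ‖q‖ ≤ K.ρ 4) : Dn K μ' p q := by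
  obtain ⟨r17, r16, r15, r14, r13, r12, r11, r7, r6, r4, r3, r2, r1⟩ := rho_all K
  refine ⟨Or.inl (Cl_mono h hμ), ?_⟩
  have := dist_le_norm_add_norm p q
  linarith [hp.2]

theorem W_norm_le {q : E3} (hq : q ∈ K.W) : ‖q‖ ≤ K.ρ 4 := by
  obtain ⟨r17, r16, r15, r14, r13, r12, r11, r7, r6, r4, r3, r2, r1⟩ := rho_all K
  linarith [hq.2]

/-- the dirty edges of the shell -/
def Dirty (K : Cone X) (h μ : ℝ) : Set Ed :=
  {e | pt h e.2 ∉ K.clean μ ∧ K.ρ 14 / 4 ≤ ‖pt h e.2‖ ∧ ‖pt h e.2‖ ≤ 4 * K.ρ 4}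

theorem dirty_unr {h μ η : ℝ} (hh : 0 < h) (hμ : μ ≤ K.ρ 17) (hη : μ + h ≤ η) (hμ0 : 0 ≤ μ)
    {w : Z1} (hw : ∀ e ∈ w.support, e ∈ Dirty K h μ) :
    All (fun p q => dist p q ≤ η ∧ K.Near univ (K.τ 3) (K.τ 14) η p ∧
      K.Near univ (K.τ 3) (K.τ 14) η q) (unr h w) := by
  refine all_unr fun e he => ?_
  obtain ⟨h1, h2, h3⟩ := hw e he
  have hn := near_of_dirty hμ h1 h2 h3
  have hd := dist_pt_ee hh e.2 e.1
  refine ⟨by rw [dist_comm, hd]; linarith, near_mono hn le_rfl le_rfl (by linarith),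
    near_near hn hd.le hη⟩

theorem fat_kill {μ : ℝ} (hμ : 0 < μ) : ∃ η > 0, ∀ h, 0 < h → h ≤ η → ∀ zp zm c : Ch E3,
    bd zp = 0 → bd zm = 0 → All (Up K μ) zp → All (Dn K μ) zm → bd c = 0 →
    All (fun p q => dist p q ≤ η ∧ K.Near univ (K.τ 3) (K.τ 14) η p ∧
      K.Near univ (K.τ 3) (K.τ 14) η q) c → Lk h zp c = 0 ∧ Lk h zm c = 0 := by
  obtain ⟨r17, r16, r15, r14, r13, r12, r11, r7, r6, r4, r3, r2, r1⟩ := rho_all K
  obtain ⟨r, hr, hr1, hr2⟩ : ∃ r > 0, 2 * r ≤ μ ∧ 2 * r ≤ K.ρ 17 :=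
    ⟨min μ (K.ρ 17) / 2, by positivity, by linarith [min_le_left μ (K.ρ 17)],
      by linarith [min_le_right μ (K.ρ 17)]⟩
  obtain ⟨η1, hη1, H1⟩ := K.push_down0 hr
  obtain ⟨η2, hη2, H2⟩ := K.push_up0 hr
  obtain ⟨η, hη, e1, e2, e3⟩ : ∃ η > 0, η ≤ η1 ∧ η ≤ η2 ∧ η ≤ r / 4 :=
    ⟨min η1 (min η2 (r / 4)), by positivity, min_le_left _ _,
      (min_le_right _ _).trans (min_le_left _ _), (min_le_right _ _).trans (min_le_right _ _)⟩
  refine ⟨η, hη, fun h hh hhη zp zm c bp bm hp hm bc hc => ⟨?_, ?_⟩⟩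
  · have N := H1 c univ (K.τ 3) (K.τ_nonneg 3) bc (hc.mono fun p q hpq =>
      ⟨hpq.1.trans e1, near_mono hpq.2.1 le_rfl (tau_le K (by omega)) e1,
        near_mono hpq.2.2 le_rfl (tau_le K (by omega)) e1⟩)
    exact Lk_null_right hh bp N (av_up hp le_rfl le_rfl (by linarith) (by linarith))
  · obtain ⟨c', bc', N, hav⟩ := H2 c univ (K.τ 14) (tau_le K (by omega)) bc (hc.mono fun p q hpq =>
      ⟨hpq.1.trans e2, near_mono hpq.2.1 (K.τ_nonneg 3) le_rfl e2,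
        near_mono hpq.2.2 (K.τ_nonneg 3) le_rfl e2⟩)
    have a1 := Lk_null_right hh bm N (av_dn hm le_rfl le_rfl (by linarith) (by linarith))
    have a2 := Lk_null_left hh (null_dn hm bm) bc' (av_mono hav (by linarith))
    rw [Lk_add_right, a2, add_zero] at a1
    exact a1

theorem fat (Γ : Germs K) : ∃ δ0 > 0, ∀ δ ≤ δ0, ∀ δ' ≤ δ0, ∀ k ∈ Γ.G, ∀ k' ∈ Γ.G,
    Γ.dom k = Γ.dom k' → ∀ (v : Vert Γ k δ) (v' : Vert Γ k' δ'), ∃ μ > 0, ∀ᶠ n in atTop, ∃ E : C1,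
      (∀ e : Ed, pt (ms n) e.2 ∈ K.W1 → d1 E e = sh (rho (ms n) (v.vf n + v'.vf n)) e) ∧
      ∀ e : Ed, E e ≠ 0 → JoinedIn (K.Wb ∩ K.clean μ ∩ univ) (Γ.leg k v.u) (pt (ms n) e.2) := by
  refine ⟨K.ρ 17, K.ρ_pos _, fun δ hδ δ' hδ' k hk k' hk' hd v v' => ?_⟩
  have r17 := K.ρ_pos 17
  obtain ⟨μv, hμv, Hv⟩ := vert_links v hδ
  obtain ⟨μv', hμv', Hv'⟩ := vert_links v' hδ'
  obtain ⟨μa, hμa, Ha⟩ := Γ.Lg_clean hk v.ini.1
  obtain ⟨μb, hμb, Hb⟩ := Γ.Lg_clean hk' v'.ini.1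
  obtain ⟨μj, hμj, Hj⟩ := joined_clean (K := K)
    (Γ.joined_of_dom_eq hk hk' v.ini.1 v'.ini.1 hd) (fun x hx => hx.2)
  obtain ⟨μ2, hμ2, m1, m2, m3, m4, m5⟩ : ∃ μ2 > 0, μ2 ≤ μv ∧ μ2 ≤ μv' ∧ μ2 ≤ μa ∧ μ2 ≤ μb ∧
      μ2 ≤ μj :=
    ⟨min μv (min μv' (min μa (min μb μj))), by positivity, by simp, by simp, by simp, by simp,
      by simp⟩
  obtain ⟨η, hη, Hk⟩ := fat_kill (K := K) hμ2
  obtain ⟨μ, hμ, n1, n2, n3⟩ : ∃ μ > 0, μ ≤ η / 2 ∧ μ ≤ K.ρ 17 ∧ μ ≤ μ2 :=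
    ⟨min (η / 2) (min (K.ρ 17) μ2), by positivity, by simp, by simp, by simp⟩
  refine ⟨μ / 4, by positivity, ?_⟩
  filter_upwards [Hv (μ / 8 / 2) (by positivity), Hv' (μ / 8 / 2) (by positivity), Ha, Hb,
    ms_small (r := μ / 16) (by positivity)] with n hv hv' ha hb hn
  have hh := ms_pos n
  set h := ms n with hdef
  have bm := bd_LgLg Γ n hk hk' hd v.ini.1 v'.ini.1
  set m := Γ.Lg n k v.u 1 + Γ.Lg n k' v'.u 1 with hm
  have bp := bd_zp v v' n bm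
  have bq := bd_zm v v' n bm
  have up : All (Up K μ2) (v.VP n + m + v'.VP n) :=
    ((hv.1.mono fun p q h => h.mono m1).add ((ha.mono fun p q h => up_of_cl h.1 m3).add
      (hb.mono fun p q h => up_of_cl h.1 m4))).add (hv'.1.mono fun p q h => h.mono m2)
  have dn : All (Dn K μ2) (v.VM n + m + v'.VM n) :=
    ((hv.2.1.mono fun p q h => h.mono m1).add
      ((ha.mono fun p q h => dn_of_cl h.1 m3 h.2.1 (W_norm_le h.2.2)).add
      (hb.mono fun p q h => dn_of_cl h.1 m4 h.2.1 (W_norm_le h.2.2)))).add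
      (hv'.2.1.mono fun p q h => h.mono m2)
  have sum := zp_add_zm v v' n m
  generalize v.VP n + m + v'.VP n = zp at bp up sum
  generalize v.VM n + m + v'.VM n = zm at bq dn sum
  have b1 : ∀ z : Ch E3, bd z = 0 → bd1 (rho h z) = 0 := fun z hz => by
    rw [bd1_rho, hz, Finsupp.mapDomain_zero]
  obtain ⟨f, -, hf⟩ := graph_potential (KK (rho h zp) + KK (rho h zm)) (Dirty K h μ) ∅ (by
    intro w hw hbw
    have hbw' : bd1 w = 0 := by
      ext p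
      by_contra hne
      exact hbw p (Finsupp.mem_support_iff.2 hne)
    have hbu : bd (unr h w) = 0 := by rw [bd_unr, hbw', Finsupp.mapDomain_zero]
    obtain ⟨a1, a2⟩ := Hk h hh (by linarith) zp zm (unr h w) bp bq up dn hbu
      (dirty_unr hh n2 (by linarith) hμ.le hw)
    unfold Lk at a1 a2
    rw [rho_unr hh] at a1 a2
    rw [pair_add, a1, a2, add_zero])
  have hO : K.Wv ∩ K.clean μv ∩ K.tube δ k ⊆ K.Wb ∩ K.clean (μ / 4) ∩ univ := fun x hx =>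
    ⟨⟨K.Wv_sub_Wb hx.1.1, clean_mono (by linarith) hx.1.2⟩, mem_univ _⟩
  have hO' : K.Wv ∩ K.clean μv' ∩ K.tube δ' k' ⊆ K.Wb ∩ K.clean (μ / 4) ∩ univ := fun x hx =>
    ⟨⟨K.Wv_sub_Wb hx.1.1, clean_mono (by linarith) hx.1.2⟩, mem_univ _⟩
  have hJ : JoinedIn (K.Wb ∩ K.clean (μ / 4) ∩ univ) (Γ.leg k v.u) (Γ.leg k' v'.u) :=
    Hj.mono fun x hx => ⟨⟨K.Wv_sub_Wb (K.W_sub_Wv hx.1.1), clean_mono (by linarith) hx.2⟩,
      mem_univ _⟩
  refine finish (μ := μ) (ν := μ / 8) (T1 := univ) (T2 := univ)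
    (E1 := KK (rho h zp) + KK (rho h zm) + d0 f) hh (by linarith) (by linarith) (by linarith)
    (fun _ _ => subset_univ _) (fun _ _ => subset_univ _) ?_ ?_ ?_
  · rw [d1_add, d1_add, d1_d0, add_zero, d1_KK (b1 _ bp), d1_KK (b1 _ bq), ← sh_add, ← map_add, sum]
  · intro e h1 h2 h3
    have h4 : pt h e.2 ∉ K.clean μ := h3.elim id fun h => absurd (mem_univ _) h
    have := hf e ⟨h4, h1, h2⟩
    rw [Pi.add_apply, this, z2_add_self]
  · exact (hv.2.2.mono fun p q h => h.mono hO (JoinedIn.refl hJ.source_mem)).add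
      (hv'.2.2.mono fun p q h => h.mono hO' hJ)

end WallH

end Pool.Agent.Lib.MP_9e71a3_gt
end
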